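import Pool.Agent.Lib.MP_cca10c_ag.Statement

/-! Module F (flat annuli): definitions.

`U` is an open set of the surface, `G` a harmonic function without critical points on `U`.  The local
holomorphic functions with real part `G` are charts, and they differ by imaginary constants. -/

set_option autoImplicit false

open Topology Set

namespace Pool.Agent.Lib.MP_cca10c_ag

variable {X : Type} [TopologicalSpace X]

/-- near `p` the function `G` is the real part of a holomorphic function with nonzero derivative -/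
def NCrit (S : CS X) (G : X → ℝ) (p : X) : Prop :=
  ∃ F : X → ℂ, S.HolAt F p ∧ (∀ᶠ x in 𝓝 p, (F x).re = G x) ∧
    ∀ e ∈ S.charts, p ∈ e.source → deriv (F ∘ e.symm) (e p) ≠ 0

/-- charts with real part `G` -/
def TCh (S : CS X) (U : Set X) (G : X → ℝ) : Set (OpenPartialHomeomorph X ℂ) :=
  {φ | φ ∈ S.charts ∧ φ.source ⊆ U ∧ ∀ x ∈ φ.source, (φ x).re = G x}

/-- A family of charts of `U` with real part `G` whose transitions are locally translations by
imaginary constants. -/
structure IsTr (T : Set (OpenPartialHomeomorph X ℂ)) (U : Set X) (G : X → ℝ) : Prop where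
  sub : ∀ φ ∈ T, φ.source ⊆ U
  re : ∀ φ ∈ T, ∀ x ∈ φ.source, (φ x).re = G x
  cover : ∀ p ∈ U, ∃ φ ∈ T, p ∈ φ.source
  trans : ∀ φ ∈ T, ∀ ψ ∈ T, ∀ p ∈ φ.source ∩ ψ.source, ∃ c : ℝ, ∀ᶠ x in 𝓝 p,
    φ x = ψ x + c * Complex.I

/-- `Φ` is a developing map on `D`: locally the inverse of a chart of `T`, up to an imaginary
constant. -/
def Dev (T : Set (OpenPartialHomeomorph X ℂ)) (D : Set ℂ) (Φ : ℂ → X) : Prop :=
  ∀ w ∈ D, ∃ φ ∈ T, ∃ c : ℝ, w + c * Complex.I ∈ φ.target ∧
    ∀ᶠ w' in 𝓝 w, Φ w' = φ.symm (w' + c * Complex.I)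

/-- open vertical strip -/
def Strip (a b : ℝ) : Set ℂ := {w | a < w.re ∧ w.re < b}

end Pool.Agent.Lib.MP_cca10c_ag
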