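import Pool.Agent.Lib.MP_cca10c_ag.F00_Defs

/-! Module F: the charts with real part `G`. -/

set_option autoImplicit false

open Topology Set

namespace Pool.Agent.Lib.MP_cca10c_ag

variable {X : Type} [TopologicalSpace X]

/-- transition maps are differentiable -/
theorem F01_diffAt {e e' : OpenPartialHomeomorph X ℂ} (h : Compat e e') {x : X}
    (hx : x ∈ e.source) (hx' : x ∈ e'.source) : DifferentiableAt ℂ (e' ∘ e.symm) (e x) := by
  have ho : IsOpen (e '' (e.source ∩ e'.source)) :=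
    e.isOpen_image_of_subset_source (e.open_source.inter e'.open_source) inter_subset_left
  exact (h.1 (e x) ⟨x, ⟨hx, hx'⟩, rfl⟩).differentiableAt (ho.mem_nhds ⟨x, ⟨hx, hx'⟩, rfl⟩)

/-- compatibility is a pointwise condition -/
theorem F01_compat {e e' : OpenPartialHomeomorph X ℂ}
    (h : ∀ x ∈ e.source, x ∈ e'.source → DifferentiableAt ℂ (e' ∘ e.symm) (e x) ∧
      DifferentiableAt ℂ (e ∘ e'.symm) (e' x)) : Compat e e' := by
  constructor
  · rintro _ ⟨x, ⟨hx, hx'⟩, rfl⟩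
    exact (h x hx hx').1.differentiableWithinAt
  · rintro _ ⟨x, ⟨hx, hx'⟩, rfl⟩
    exact (h x hx hx').2.differentiableWithinAt

/-- inverse function theorem for the function `F` of `NCrit` in a chart, restriction, maximality of
the atlas -/
theorem TCh_cover (S : CS X) {U : Set X} (hU : IsOpen U) {G : X → ℝ} {p : X} (hp : p ∈ U)
    (h : NCrit S G p) : ∃ φ ∈ TCh S U G, p ∈ φ.source := by
  obtain ⟨F, hF, hFG, hder⟩ := h
  obtain ⟨e, he, hpe⟩ := S.cover p
  set f : ℂ → ℂ := F ∘ e.symm with hf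
  have hfd : ∀ᶠ z in 𝓝 (e p), DifferentiableAt ℂ f z := hF e he hpe
  have han : AnalyticAt ℂ f (e p) := Complex.analyticAt_iff_eventually_differentiableAt.mpr hfd
  have hd0 : deriv f (e p) ≠ 0 := hder e he hpe
  have hstrict : HasStrictDerivAt f (deriv f (e p)) (e p) := han.hasStrictDerivAt
  have hsF := hstrict.hasStrictFDerivAt_equiv hd0
  set ψ := hsF.toOpenPartialHomeomorph f with hψ
  have hψf : ∀ z, ψ z = f z := fun z => rfl
  have hψs : e p ∈ ψ.source := hsF.mem_toOpenPartialHomeomorph_source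
  have hd1 : ∀ᶠ z in 𝓝 (e p), deriv f z ≠ 0 := han.deriv.continuousAt.eventually_ne hd0
  -- the good points of the plane
  obtain ⟨V, hVsub, hVo, hpV⟩ := mem_nhds_iff.mp (hfd.and hd1)
  -- the good points of the surface
  obtain ⟨W, hWsub, hWo, hpW⟩ := mem_nhds_iff.mp hFG
  set R : Set X := (W ∩ U) ∩ (e.source ∩ e ⁻¹' V) with hR
  have hRo : IsOpen R := (hWo.inter hU).inter (e.isOpen_inter_preimage hVo)
  set χ := (e.trans ψ).restrOpen R hRo with hχ
  have hχs : χ.source = (e.source ∩ e ⁻¹' ψ.source) ∩ R := rfl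
  have hχc : ∀ x, χ x = f (e x) := fun x => rfl
  have hχsymm : ∀ z, χ.symm z = e.symm (ψ.symm z) := fun z => rfl
  have hpχ : p ∈ χ.source := by
    rw [hχs]
    exact ⟨⟨hpe, hψs⟩, ⟨hpW, hp⟩, hpe, hpV⟩
  have hcomp : ∀ e' ∈ S.charts, Compat χ e' := by
    intro e' he'
    apply F01_compat
    intro x hx hx'
    rw [hχs] at hx
    have hxe : x ∈ e.source := hx.1.1
    have hxψ : e x ∈ ψ.source := hx.1.2
    have hxV : e x ∈ V := hx.2.2.2
    have hfx : DifferentiableAt ℂ f (e x) := (hVsub hxV).1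
    have hfx0 : deriv f (e x) ≠ 0 := (hVsub hxV).2
    constructor
    · -- `e' ∘ χ.symm`
      have h1 : DifferentiableAt ℂ (e' ∘ e.symm) (e x) :=
        F01_diffAt (S.compat e he e' he') hxe hx'
      have h2 : HasDerivAt ψ.symm (deriv f (e x))⁻¹ (ψ (e x)) := by
        apply ψ.hasDerivAt_symm (ψ.map_source hxψ) hfx0
        rw [ψ.left_inv hxψ]
        exact hfx.hasDerivAt
      have h3 : DifferentiableAt ℂ ((e' ∘ e.symm) ∘ ψ.symm) (ψ (e x)) := by
        apply DifferentiableAt.comp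
        · rw [ψ.left_inv hxψ]
          exact h1
        · exact h2.differentiableAt
      exact h3
    · have h1 : DifferentiableAt ℂ (e ∘ e'.symm) (e' x) :=
        F01_diffAt (S.compat e' he' e he) hx' hxe
      have h3 : DifferentiableAt ℂ (f ∘ (e ∘ e'.symm)) (e' x) := by
        apply DifferentiableAt.comp
        · have : (e ∘ e'.symm) (e' x) = e x := by
            show e (e'.symm (e' x)) = e x
            rw [e'.left_inv hx']
          rw [this]
          exact hfx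
        · exact h1
      exact h3
  refine ⟨χ, ⟨S.max χ hcomp, ?_, ?_⟩, hpχ⟩
  · intro x hx
    rw [hχs] at hx
    exact hx.2.1.2
  · intro x hx
    rw [hχs] at hx
    have h1 : (F x).re = G x := hWsub hx.2.1.1
    rw [hχc]
    show (F (e.symm (e x))).re = G x
    rw [e.left_inv hx.1.1]
    exact h1

/-- a holomorphic function with zero real part is locally constant -/
theorem F01_const {h : ℂ → ℂ} {z : ℂ} (hh : AnalyticAt ℂ h z)
    (hre : ∀ᶠ w in 𝓝 z, (h w).re = 0) : ∀ᶠ w in 𝓝 z, h w = h z := by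
  rcases hh.eventually_constant_or_nhds_le_map_nhds with h1 | h1
  · exact h1
  · exfalso
    have h2 : {w : ℂ | w.re = 0} ∈ 𝓝 (h z) := h1 hre
    have h3 : Filter.Tendsto (fun t : ℝ => h z + (t : ℂ)) (𝓝[>] (0 : ℝ)) (𝓝 (h z)) := by
      have h4 : Filter.Tendsto (fun t : ℝ => h z + (t : ℂ)) (𝓝 (0 : ℝ)) (𝓝 (h z)) := by
        have : Continuous (fun t : ℝ => h z + (t : ℂ)) := by fun_prop
        have h5 := this.tendsto 0
        simpa using h5
      exact h4.mono_left nhdsWithin_le_nhds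
    have h4 : ∀ᶠ t : ℝ in 𝓝[>] (0 : ℝ), (h z + (t : ℂ)).re = 0 := h3.eventually h2
    have h5 : ∀ᶠ t : ℝ in 𝓝[>] (0 : ℝ), t ∈ Ioi (0 : ℝ) := self_mem_nhdsWithin
    obtain ⟨t, ht1, ht2⟩ := (h4.and h5).exists
    have h6 : (h z).re = 0 := hre.self_of_nhds
    simp only [Complex.add_re, Complex.ofReal_re, h6, zero_add, mem_Ioi] at ht1 ht2
    linarith

/-- a holomorphic function with constant imaginary part after subtraction: if `f` is holomorphic near
`z` and `Re f(w) = Re w` then `f(w) = w + i c` -/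
theorem TCh_trans (S : CS X) {U : Set X} {G : X → ℝ} {φ ψ : OpenPartialHomeomorph X ℂ}
    (hφ : φ ∈ TCh S U G) (hψ : ψ ∈ TCh S U G) {p : X} (hp : p ∈ φ.source ∩ ψ.source) :
    ∃ c : ℝ, ∀ᶠ x in 𝓝 p, φ x = ψ x + c * Complex.I := by
  have ho : IsOpen (ψ '' (ψ.source ∩ φ.source)) :=
    ψ.isOpen_image_of_subset_source (ψ.open_source.inter φ.open_source) inter_subset_left
  have hmem : ψ p ∈ ψ '' (ψ.source ∩ φ.source) := ⟨p, ⟨hp.2, hp.1⟩, rfl⟩
  set h : ℂ → ℂ := fun w => (φ ∘ ψ.symm) w - w with hh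
  have hd : DifferentiableOn ℂ h (ψ '' (ψ.source ∩ φ.source)) :=
    (S.compat ψ hψ.1 φ hφ.1).1.sub differentiableOn_id
  have han : AnalyticAt ℂ h (ψ p) := hd.analyticAt (ho.mem_nhds hmem)
  have hre : ∀ᶠ w in 𝓝 (ψ p), (h w).re = 0 := by
    filter_upwards [ho.mem_nhds hmem] with w hw
    obtain ⟨x, ⟨hx1, hx2⟩, rfl⟩ := hw
    show (φ (ψ.symm (ψ x)) - ψ x).re = 0
    rw [ψ.left_inv hx1, Complex.sub_re, hφ.2.2 x hx2, hψ.2.2 x hx1, sub_self]
  have hc := F01_const han hre
  have hre0 : (h (ψ p)).re = 0 := hre.self_of_nhds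
  refine ⟨(h (ψ p)).im, ?_⟩
  have hcont : Filter.Tendsto ψ (𝓝 p) (𝓝 (ψ p)) := ψ.continuousAt hp.2
  filter_upwards [hcont.eventually hc, ψ.open_source.mem_nhds hp.2] with x hx hxs
  have h1 : φ x - ψ x = h (ψ p) := by
    have h2 : φ (ψ.symm (ψ x)) - ψ x = h (ψ p) := hx
    rwa [ψ.left_inv hxs] at h2
  have h3 : h (ψ p) = ((h (ψ p)).im : ℂ) * Complex.I := by
    apply Complex.ext
    · simp [hre0]
    · simp
  rw [← h3, ← h1]
  ring

theorem TCh_isTr (S : CS X) {U : Set X} (hU : IsOpen U) {G : X → ℝ}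
    (h : ∀ p ∈ U, NCrit S G p) : IsTr (TCh S U G) U G where
  sub := fun _ hφ => hφ.2.1
  re := fun _ hφ => hφ.2.2
  cover := fun _ hp => TCh_cover S hU hp (h _ hp)
  trans := fun _ hφ _ hψ _ hp => TCh_trans S hφ hψ hp

end Pool.Agent.Lib.MP_cca10c_ag
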