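import Pool.Agent.Lib.MP_cca10c_ag.F00_Defs

/-! Module F: uniform radius and uniqueness of developing maps. -/

set_option autoImplicit false

open Topology Set

namespace Pool.Agent.Lib.MP_cca10c_ag

variable {X : Type} [TopologicalSpace X]

/-- uniform radius on a compact set -/
theorem IsTr.unif {T : Set (OpenPartialHomeomorph X ℂ)} {U : Set X} {G : X → ℝ} (h : IsTr T U G)
    {K : Set X} (hK : IsCompact K) (hKU : K ⊆ U) :
    ∃ ε : ℝ, 0 < ε ∧ ∀ p ∈ K, ∃ φ ∈ T, p ∈ φ.source ∧ Metric.ball (φ p) ε ⊆ φ.target := by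
  refine hK.induction_on (p := fun s => ∃ ε : ℝ, 0 < ε ∧ ∀ p ∈ s, ∃ φ ∈ T, p ∈ φ.source ∧
    Metric.ball (φ p) ε ⊆ φ.target) ?_ ?_ ?_ ?_
  · exact ⟨1, zero_lt_one, fun p hp => absurd hp (notMem_empty p)⟩
  · rintro s t hst ⟨ε, hε, h1⟩
    exact ⟨ε, hε, fun p hp => h1 p (hst hp)⟩
  · rintro s t ⟨ε, hε, h1⟩ ⟨ε', hε', h2⟩
    refine ⟨min ε ε', lt_min hε hε', fun p hp => ?_⟩
    rcases hp with hp | hp
    · obtain ⟨φ, a1, a2, a3⟩ := h1 p hp
      exact ⟨φ, a1, a2, (Metric.ball_subset_ball (min_le_left _ _)).trans a3⟩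
    · obtain ⟨φ, a1, a2, a3⟩ := h2 p hp
      exact ⟨φ, a1, a2, (Metric.ball_subset_ball (min_le_right _ _)).trans a3⟩
  · intro x hx
    obtain ⟨φ, hφ, hxφ⟩ := h.cover x (hKU hx)
    obtain ⟨r, hr, hrt⟩ := Metric.isOpen_iff.1 φ.open_target _ (φ.map_source hxφ)
    have h1 : φ.source ∈ 𝓝 x := φ.open_source.mem_nhds hxφ
    have h2 : φ ⁻¹' Metric.ball (φ x) (r / 2) ∈ 𝓝 x :=
      (φ.continuousAt hxφ).preimage_mem_nhds (Metric.ball_mem_nhds _ (half_pos hr))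
    refine ⟨φ.source ∩ φ ⁻¹' Metric.ball (φ x) (r / 2),
      mem_nhdsWithin_of_mem_nhds (Filter.inter_mem h1 h2), r / 2, half_pos hr, ?_⟩
    rintro p ⟨hp1, hp2⟩
    refine ⟨φ, hφ, hp1, fun z hz => hrt ?_⟩
    rw [mem_preimage, Metric.mem_ball] at hp2
    rw [Metric.mem_ball] at hz ⊢
    calc dist z (φ x) ≤ dist z (φ p) + dist (φ p) (φ x) := dist_triangle _ _ _
      _ < r / 2 + r / 2 := add_lt_add hz hp2
      _ = r := add_halves r

private theorem F02_contAt {T : Set (OpenPartialHomeomorph X ℂ)} {D : Set ℂ} {Φ : ℂ → X}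
    (h : Dev T D Φ) {w : ℂ} (hw : w ∈ D) : ContinuousAt Φ w := by
  obtain ⟨φ, -, c, hc, he⟩ := h w hw
  have h1 : ContinuousAt (fun w' : ℂ => φ.symm (w' + c * Complex.I)) w := by
    refine ContinuousAt.comp (g := φ.symm) (f := fun w' : ℂ => w' + c * Complex.I) ?_ ?_
    · exact φ.continuousAt_symm hc
    · fun_prop
  exact h1.congr (he.mono fun w' hw' => hw'.symm)

theorem Dev.continuousOn {T : Set (OpenPartialHomeomorph X ℂ)} {D : Set ℂ} {Φ : ℂ → X}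
    (h : Dev T D Φ) : ContinuousOn Φ D :=
  fun _ hw => (F02_contAt h hw).continuousWithinAt

theorem Dev.re {T : Set (OpenPartialHomeomorph X ℂ)} {U : Set X} {G : X → ℝ} (hT : IsTr T U G)
    {D : Set ℂ} {Φ : ℂ → X} (h : Dev T D Φ) {w : ℂ} (hw : w ∈ D) : Φ w ∈ U ∧ G (Φ w) = w.re := by
  obtain ⟨φ, hφ, c, hc, he⟩ := h w hw
  have h1 : Φ w = φ.symm (w + c * Complex.I) := he.self_of_nhds
  have h2 : φ.symm (w + c * Complex.I) ∈ φ.source := φ.map_target hc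
  rw [h1]
  refine ⟨hT.sub φ hφ h2, ?_⟩
  rw [← hT.re φ hφ _ h2, φ.right_inv hc]
  simp

private theorem F02_local {T : Set (OpenPartialHomeomorph X ℂ)} {U : Set X} {G : X → ℝ}
    (hT : IsTr T U G) {D : Set ℂ} {Φ Φ' : ℂ → X} (h : Dev T D Φ)
    (h' : Dev T D Φ') {w : ℂ} (hw : w ∈ D) (he : Φ w = Φ' w) :
    ∀ᶠ w' in 𝓝 w, Φ w' = Φ' w' := by
  have hc' := F02_contAt h' hw
  obtain ⟨φ, hφ, c, hc, h1⟩ := h w hw
  obtain ⟨ψ, hψ, c', hcψ, h2⟩ := h' w hw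
  have e1 : Φ w = φ.symm (w + c * Complex.I) := h1.self_of_nhds
  have e2 : Φ' w = ψ.symm (w + c' * Complex.I) := h2.self_of_nhds
  have m1 : Φ' w ∈ φ.source := by
    rw [← he, e1]
    exact φ.map_target hc
  have m2 : Φ' w ∈ ψ.source := by
    rw [e2]
    exact ψ.map_target hcψ
  obtain ⟨d, hd⟩ := hT.trans φ hφ ψ hψ (Φ' w) ⟨m1, m2⟩
  have v1 : φ (Φ' w) = w + c * Complex.I := by
    rw [← he, e1, φ.right_inv hc]
  have v2 : ψ (Φ' w) = w + c' * Complex.I := by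
    rw [e2, ψ.right_inv hcψ]
  have v3 := hd.self_of_nhds
  rw [v1, v2] at v3
  have k1 : ∀ᶠ w' in 𝓝 w, φ (Φ' w') = ψ (Φ' w') + d * Complex.I := hc'.eventually hd
  have k2 : ∀ᶠ w' in 𝓝 w, Φ' w' ∈ φ.source := hc'.eventually (φ.open_source.mem_nhds m1)
  have k3 : ∀ᶠ w' in 𝓝 w, w' + c' * Complex.I ∈ ψ.target := by
    have hcont : ContinuousAt (fun w' : ℂ => w' + c' * Complex.I) w := by fun_prop
    exact hcont.eventually (ψ.open_target.mem_nhds hcψ)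
  filter_upwards [h1, h2, k1, k2, k3] with w' a1 a2 a3 a4 a5
  have b1 : ψ (Φ' w') = w' + c' * Complex.I := by
    rw [a2, ψ.right_inv a5]
  have b2 : φ (Φ' w') = w' + c * Complex.I := by
    rw [a3, b1]
    linear_combination -v3
  rw [a1, ← b2, φ.left_inv a4]

/-- uniqueness: the set where two developing maps agree is open and closed in `D` -/
theorem Dev.uniq [T2Space X] {T : Set (OpenPartialHomeomorph X ℂ)} {U : Set X} {G : X → ℝ}
    (hT : IsTr T U G) {D : Set ℂ} (hD : IsPreconnected D) {Φ Φ' : ℂ → X} (h : Dev T D Φ)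
    (h' : Dev T D Φ') {w : ℂ} (hw : w ∈ D) (he : Φ w = Φ' w) : EqOn Φ Φ' D := by
  have hu : IsOpen {w : ℂ | ∀ᶠ w' in 𝓝 w, Φ w' = Φ' w'} := isOpen_setOfPred_eventually_nhds
  have hv : IsOpen {w : ℂ | ∀ᶠ w' in 𝓝 w, Φ w' ≠ Φ' w'} := isOpen_setOfPred_eventually_nhds
  have hdisj : Disjoint {w : ℂ | ∀ᶠ w' in 𝓝 w, Φ w' = Φ' w'}
      {w : ℂ | ∀ᶠ w' in 𝓝 w, Φ w' ≠ Φ' w'} := by
    rw [Set.disjoint_left]
    intro z hz1 hz2
    have g1 : ∀ᶠ w' in 𝓝 z, Φ w' = Φ' w' := hz1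
    have g2 : ∀ᶠ w' in 𝓝 z, Φ w' ≠ Φ' w' := hz2
    obtain ⟨z', e1, e2⟩ := (g1.and g2).exists
    exact e2 e1
  have hcov : D ⊆ {w : ℂ | ∀ᶠ w' in 𝓝 w, Φ w' = Φ' w'} ∪
      {w : ℂ | ∀ᶠ w' in 𝓝 w, Φ w' ≠ Φ' w'} := by
    intro z hz
    by_cases hzz : Φ z = Φ' z
    · exact Or.inl (F02_local hT h h' hz hzz)
    · right
      have hp : ContinuousAt (fun w' => (Φ w', Φ' w')) z :=
        (F02_contAt h hz).prodMk (F02_contAt h' hz)
      have hne : (Φ z, Φ' z) ∈ (diagonal X)ᶜ := hzz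
      have := hp.eventually (isClosed_diagonal.isOpen_compl.mem_nhds hne)
      exact this.mono fun w' hw' => hw'
  have hsub := hD.subset_left_of_subset_union hu hv hdisj hcov
    ⟨w, hw, F02_local hT h h' hw he⟩
  intro z hz
  have g1 : ∀ᶠ w' in 𝓝 z, Φ w' = Φ' w' := hsub hz
  exact g1.self_of_nhds

/-- the local section through the value of a developing map -/
theorem dev_ball {T : Set (OpenPartialHomeomorph X ℂ)} {U : Set X} {G : X → ℝ} (hT : IsTr T U G)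
    {ε : ℝ} {φ : OpenPartialHomeomorph X ℂ} (hφ : φ ∈ T) {p : X} (hp : p ∈ φ.source)
    (hb : Metric.ball (φ p) ε ⊆ φ.target) {w : ℂ} (hw : w.re = G p) :
    Dev T (Metric.ball w ε) (fun w' => φ.symm (φ p + (w' - w))) ∧ φ.symm (φ p + (w - w)) = p := by
  have hre : (φ p).re = w.re := by rw [hT.re φ hφ p hp, hw]
  have hcI : ((φ p - w).im : ℂ) * Complex.I = φ p - w := by
    apply Complex.ext
    · simp [hre]
    · simp
  have heq : ∀ w' : ℂ, φ p + (w' - w) = w' + ((φ p - w).im : ℂ) * Complex.I := by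
    intro w'
    rw [hcI]
    ring
  refine ⟨fun w' hw' => ⟨φ, hφ, (φ p - w).im, ?_, ?_⟩, ?_⟩
  · rw [← heq]
    apply hb
    rw [Metric.mem_ball, dist_eq_norm] at hw' ⊢
    rwa [add_sub_cancel_left]
  · exact Filter.Eventually.of_forall fun z => by
      show φ.symm (φ p + (z - w)) = _
      rw [heq]
  · rw [sub_self, add_zero, φ.left_inv hp]

end Pool.Agent.Lib.MP_cca10c_ag
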