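import Pool.Agent.Lib.MP_cca10c_ag.F02_Unif

/-! Module F: existence of the developing map on a strip. -/

set_option autoImplicit false

open Topology Set

namespace Pool.Agent.Lib.MP_cca10c_ag

variable {X : Type} [TopologicalSpace X]

private theorem F03_strip_convex (a b : ℝ) : Convex ℝ (Strip a b) := by
  have h : Strip a b = Complex.reLm ⁻¹' (Ioo a b) := by
    ext w
    rfl
  rw [h]
  exact (convex_Ioo a b).linear_preimage Complex.reLm

private theorem F03_strip_open (a b : ℝ) : IsOpen (Strip a b) := by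
  have h : Strip a b = Complex.re ⁻¹' (Ioo a b) := by
    ext w
    rfl
  rw [h]
  exact isOpen_Ioo.preimage Complex.continuous_re

private theorem F03_mono {T : Set (OpenPartialHomeomorph X ℂ)} {D D' : Set ℂ} {Φ : ℂ → X}
    (h : Dev T D Φ) (hD : D' ⊆ D) : Dev T D' Φ := fun w hw => h w (hD hw)

/-- Extension of a developing map from the convex set `D = ball m r ∩ Strip` to
`ball m (r + ε/2) ∩ Strip`: at `w'` use the local section (`dev_ball`) through `Φ w` for any `w ∈ D`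
with `|w' - w| < ε/2`; two such sections agree by uniqueness (`Dev.uniq`) on the intersection of the two
balls, since both agree with `Φ` on `D`. -/
theorem dev_extend [T2Space X] {T : Set (OpenPartialHomeomorph X ℂ)} {U : Set X} {G : X → ℝ}
    (hT : IsTr T U G) {a b ε r : ℝ} (hε : 0 < ε) (hr : 0 < r)
    (hunif : ∀ p ∈ U, a ≤ G p → G p ≤ b → ∃ φ ∈ T, p ∈ φ.source ∧ Metric.ball (φ p) ε ⊆ φ.target)
    {m : ℝ} (hm : a < m) (hm' : m < b) {Φ : ℂ → X}
    (h : Dev T (Metric.ball (m : ℂ) r ∩ Strip a b) Φ) :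
    ∃ Φ' : ℂ → X, Dev T (Metric.ball (m : ℂ) (r + ε / 2) ∩ Strip a b) Φ' ∧ Φ' m = Φ m := by
  classical
  set D : Set ℂ := Metric.ball (m : ℂ) r ∩ Strip a b with hD
  have hDconv : Convex ℝ D := (convex_ball _ _).inter (F03_strip_convex a b)
  have hmS : (m : ℂ) ∈ Strip a b := ⟨by rwa [Complex.ofReal_re], by rwa [Complex.ofReal_re]⟩
  have hmD : (m : ℂ) ∈ D := ⟨Metric.mem_ball_self hr, hmS⟩
  -- sections
  have hsec : ∀ w : ℂ, ∃ σ : ℂ → X, w ∈ D → Dev T (Metric.ball w ε) σ ∧ σ w = Φ w := by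
    intro w
    by_cases hw : w ∈ D
    · have h1 := Dev.re hT h hw
      have h2 : a < w.re ∧ w.re < b := hw.2
      obtain ⟨φ, hφ, hs, hb⟩ := hunif (Φ w) h1.1 (by rw [h1.2]; exact h2.1.le)
        (by rw [h1.2]; exact h2.2.le)
      obtain ⟨hdev, hval⟩ := dev_ball hT hφ hs hb (w := w) h1.2.symm
      exact ⟨_, fun _ => ⟨hdev, hval⟩⟩
    · exact ⟨Φ, fun h => absurd h hw⟩
  choose σ hσ using hsec
  -- a section agrees with Φ on D ∩ ball
  have hagree : ∀ w ∈ D, ∀ z ∈ D, dist z w < ε → σ w z = Φ z := by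
    intro w hw z hz hd
    obtain ⟨h1, h2⟩ := hσ w hw
    have hu := Dev.uniq hT (hDconv.inter (convex_ball w ε)).isPreconnected
      (F03_mono h1 inter_subset_right) (F03_mono h inter_subset_left) (w := w)
      ⟨hw, Metric.mem_ball_self hε⟩ h2
    exact hu ⟨hz, hd⟩
  -- two sections agree
  have hagree2 : ∀ w1 ∈ D, ∀ w2 ∈ D, ∀ z, dist z w1 < ε / 2 → dist z w2 < ε / 2 →
      σ w1 z = σ w2 z := by
    intro w1 hw1 w2 hw2 z hz1 hz2
    have hd : dist w1 w2 < ε := by
      have := dist_triangle_left w1 w2 z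
      linarith
    obtain ⟨h1, h2⟩ := hσ w1 hw1
    obtain ⟨h3, h4⟩ := hσ w2 hw2
    have hu := Dev.uniq hT ((convex_ball w1 ε).inter (convex_ball w2 ε)).isPreconnected
      (F03_mono h1 inter_subset_left) (F03_mono h3 inter_subset_right) (w := w1)
      ⟨Metric.mem_ball_self hε, hd⟩ (by rw [h2, hagree w2 hw2 w1 hw1 hd])
    exact hu ⟨by rw [Metric.mem_ball]; linarith, by rw [Metric.mem_ball]; linarith⟩
  -- choice of the base point
  have hbase : ∀ z : ℂ, ∃ w : ℂ, z ∈ Metric.ball (m : ℂ) (r + ε / 2) ∩ Strip a b →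
      w ∈ D ∧ dist z w < ε / 2 := by
    intro z
    by_cases hz : z ∈ Metric.ball (m : ℂ) (r + ε / 2) ∩ Strip a b
    · by_cases hzr : dist z m < r
      · exact ⟨z, fun _ => ⟨⟨hzr, hz.2⟩, by rw [dist_self]; positivity⟩⟩
      · push Not at hzr
        set d := dist z (m : ℂ) with hd
        have hd1 : d < r + ε / 2 := hz.1
        have hd0 : 0 < d := by linarith
        set ρ : ℝ := (max 0 (d - ε / 2) + r) / 2 with hρ
        have hmax : max 0 (d - ε / 2) < r := max_lt hr (by linarith)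
        have hρ1 : ρ < r := by rw [hρ]; linarith
        have hρ2 : d - ε / 2 < ρ := by
          have := le_max_right 0 (d - ε / 2)
          rw [hρ]; linarith
        have hρ0 : 0 ≤ ρ := by
          have := le_max_left 0 (d - ε / 2)
          rw [hρ]; linarith
        set t : ℝ := ρ / d with ht
        have ht0 : 0 ≤ t := by positivity
        have ht1 : t ≤ 1 := by rw [ht, div_le_one hd0]; linarith
        have htd : t * d = ρ := by rw [ht]; field_simp
        refine ⟨(m : ℂ) + (t : ℂ) * (z - m), fun _ => ⟨⟨?_, ?_⟩, ?_⟩⟩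
        · rw [Metric.mem_ball, dist_eq_norm, add_sub_cancel_left, norm_mul, Complex.norm_real,
            Real.norm_eq_abs, abs_of_nonneg ht0, ← dist_eq_norm, ← hd, htd]
          exact hρ1
        · have hcv := F03_strip_convex a b hmS hz.2 (show 0 ≤ 1 - t by linarith) ht0
            (show 1 - t + t = 1 by ring)
          convert hcv using 1
          rw [Complex.real_smul, Complex.real_smul]
          push_cast; ring
        · have h5 : z - ((m : ℂ) + (t : ℂ) * (z - m)) = ((1 - t : ℝ) : ℂ) * (z - m) := by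
            push_cast; ring
          rw [dist_eq_norm, h5, norm_mul, Complex.norm_real, Real.norm_eq_abs,
            abs_of_nonneg (by linarith), ← dist_eq_norm, ← hd]
          nlinarith
    · exact ⟨z, fun h => absurd h hz⟩
  choose β hβ using hbase
  have hD'open : IsOpen (Metric.ball (m : ℂ) (r + ε / 2) ∩ Strip a b) :=
    Metric.isOpen_ball.inter (F03_strip_open a b)
  refine ⟨fun z => σ (β z) z, ?_, ?_⟩
  · intro z hz
    obtain ⟨hb1, hb2⟩ := hβ z hz
    obtain ⟨hs1, hs2⟩ := hσ (β z) hb1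
    obtain ⟨φ, hφ, c, hc, hev⟩ := hs1 z (by rw [Metric.mem_ball]; linarith)
    refine ⟨φ, hφ, c, hc, ?_⟩
    have hev2 : ∀ᶠ z' in 𝓝 z, dist z' (β z) < ε / 2 :=
      Metric.isOpen_ball.mem_nhds hb2
    filter_upwards [hev, hev2, hD'open.mem_nhds hz] with z' h1 h2 h3
    obtain ⟨hb3, hb4⟩ := hβ z' h3
    rw [← h1]
    exact hagree2 _ hb3 _ hb1 _ hb4 h2
  · have hmD' : (m : ℂ) ∈ Metric.ball (m : ℂ) (r + ε / 2) ∩ Strip a b :=
      ⟨Metric.mem_ball_self (by positivity), hmS⟩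
    obtain ⟨hb1, hb2⟩ := hβ m hmD'
    exact hagree _ hb1 _ hmD (by linarith)

/-- the developing map of a strip -/
theorem dev_strip [T2Space X] {T : Set (OpenPartialHomeomorph X ℂ)} {U : Set X} {G : X → ℝ}
    (hT : IsTr T U G) {a b ε : ℝ} (hε : 0 < ε)
    (hunif : ∀ p ∈ U, a ≤ G p → G p ≤ b → ∃ φ ∈ T, p ∈ φ.source ∧ Metric.ball (φ p) ε ⊆ φ.target)
    {m : ℝ} (hm : a < m) (hm' : m < b) {p : X} (hp : p ∈ U) (hGp : G p = m) :
    ∃ Φ : ℂ → X, Dev T (Strip a b) Φ ∧ Φ m = p := by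
  classical
  have hmS : (m : ℂ) ∈ Strip a b := ⟨by rwa [Complex.ofReal_re], by rwa [Complex.ofReal_re]⟩
  have hex : ∀ n : ℕ, ∃ Φ : ℂ → X,
      Dev T (Metric.ball (m : ℂ) (ε + n * (ε / 2)) ∩ Strip a b) Φ ∧ Φ m = p := by
    intro n
    induction n with
    | zero =>
      obtain ⟨φ, hφ, hs, hb⟩ := hunif p hp (by rw [hGp]; exact hm.le) (by rw [hGp]; exact hm'.le)
      obtain ⟨hdev, hval⟩ := dev_ball hT hφ hs hb (w := (m : ℂ)) (by rw [Complex.ofReal_re, hGp])
      refine ⟨_, F03_mono hdev ?_, hval⟩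
      intro z hz
      have := hz.1
      simpa using this
    | succ n ih =>
      obtain ⟨Φ, h1, h2⟩ := ih
      obtain ⟨Φ', h3, h4⟩ := dev_extend hT hε (by positivity) hunif hm hm' h1
      refine ⟨Φ', ?_, by rw [h4, h2]⟩
      have : ε + n * (ε / 2) + ε / 2 = ε + ((n + 1 : ℕ) : ℝ) * (ε / 2) := by push_cast; ring
      rw [← this]
      exact h3
  choose Φ hΦ hΦm using hex
  have hconv : ∀ n : ℕ, Convex ℝ (Metric.ball (m : ℂ) (ε + n * (ε / 2)) ∩ Strip a b) :=
    fun n => (convex_ball _ _).inter (F03_strip_convex a b)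
  have hmem : ∀ n : ℕ, (m : ℂ) ∈ Metric.ball (m : ℂ) (ε + n * (ε / 2)) ∩ Strip a b :=
    fun n => ⟨Metric.mem_ball_self (by positivity), hmS⟩
  have hagree : ∀ i j : ℕ, ∀ z ∈ Strip a b, dist z m < ε + i * (ε / 2) →
      dist z m < ε + j * (ε / 2) → Φ i z = Φ j z := by
    intro i j z hz hi hj
    have hu := Dev.uniq hT ((hconv i).inter (hconv j)).isPreconnected
      (F03_mono (hΦ i) inter_subset_left) (F03_mono (hΦ j) inter_subset_right) (w := (m : ℂ))
      ⟨hmem i, hmem j⟩ (by rw [hΦm, hΦm])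
    exact hu ⟨⟨hi, hz⟩, ⟨hj, hz⟩⟩
  have hN : ∀ z : ℂ, ∃ n : ℕ, dist z m < ε + n * (ε / 2) := by
    intro z
    obtain ⟨n, hn⟩ := exists_nat_gt (dist z (m : ℂ) / (ε / 2))
    refine ⟨n, ?_⟩
    rw [div_lt_iff₀ (by positivity)] at hn
    linarith
  choose N hN using hN
  refine ⟨fun z => Φ (N z) z, ?_, hΦm _⟩
  intro z hz
  obtain ⟨φ, hφ, c, hc, hev⟩ := hΦ (N z) z ⟨hN z, hz⟩
  refine ⟨φ, hφ, c, hc, ?_⟩
  have hev2 : ∀ᶠ z' : ℂ in 𝓝 z, dist z' m < ε + N z * (ε / 2) :=
    Metric.isOpen_ball.mem_nhds (hN z)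
  filter_upwards [hev, hev2, (F03_strip_open a b).mem_nhds hz] with z' h1 h2 h3
  rw [← h1]
  exact hagree _ _ z' h3 (hN z') h2

end Pool.Agent.Lib.MP_cca10c_ag
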