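import Pool.Agent.Lib.MP_cca10c_ag.F02_Unif

/-! Module F: periods of the developing map. -/

set_option autoImplicit false

open Topology Set

namespace Pool.Agent.Lib.MP_cca10c_ag

variable {X : Type} [TopologicalSpace X]

private theorem F04_strip_convex (a b : ℝ) : Convex ℝ (Strip a b) := by
  have h : Strip a b = Complex.reLm ⁻¹' (Ioo a b) := by
    ext w
    rfl
  rw [h]
  exact (convex_Ioo a b).linear_preimage Complex.reLm

private theorem F04_mono {T : Set (OpenPartialHomeomorph X ℂ)} {D D' : Set ℂ} {Φ : ℂ → X}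
    (h : Dev T D Φ) (hD : D' ⊆ D) : Dev T D' Φ := fun w hw => h w (hD hw)

private theorem F04_strip_add {a b : ℝ} {w : ℂ} (hw : w ∈ Strip a b) (s : ℝ) :
    w + s * Complex.I ∈ Strip a b := by
  have : (w + s * Complex.I).re = w.re := by simp
  unfold Strip at hw ⊢
  simp only [mem_setOf_eq] at hw ⊢
  rw [this]
  exact hw

private theorem F04_translate {T : Set (OpenPartialHomeomorph X ℂ)} {a b : ℝ} {Φ : ℂ → X}
    (h : Dev T (Strip a b) Φ) (s : ℝ) : Dev T (Strip a b) (fun z => Φ (z + s * Complex.I)) := by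
  intro z hz
  obtain ⟨φ, hφ, c, hc, hev⟩ := h _ (F04_strip_add hz s)
  refine ⟨φ, hφ, s + c, ?_, ?_⟩
  · have : z + ((s + c : ℝ) : ℂ) * Complex.I = z + s * Complex.I + c * Complex.I := by
      push_cast; ring
    rw [this]; exact hc
  · have hcont : Filter.Tendsto (fun z' : ℂ => z' + s * Complex.I) (𝓝 z)
        (𝓝 (z + s * Complex.I)) := by
      exact (continuous_id.add continuous_const).continuousAt
    filter_upwards [hcont.eventually hev] with z' hz'
    rw [hz']
    congr 1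
    push_cast; ring

/-- a coincidence is a period (uniqueness, translation of the argument) -/
theorem dev_per_of_eq [T2Space X] {T : Set (OpenPartialHomeomorph X ℂ)} {U : Set X} {G : X → ℝ}
    (hT : IsTr T U G) {a b : ℝ} {Φ : ℂ → X} (h : Dev T (Strip a b) Φ) {w w' : ℂ}
    (hw : w ∈ Strip a b) (hw' : w' ∈ Strip a b) (he : Φ w = Φ w') :
    ∃ s : ℝ, w' = w + s * Complex.I ∧ ∀ z ∈ Strip a b, Φ (z + s * Complex.I) = Φ z := by
  have h1 := (Dev.re hT h hw).2
  have h2 := (Dev.re hT h hw').2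
  rw [he, h2] at h1
  have hww : w' = w + ((w'.im - w.im : ℝ) : ℂ) * Complex.I := by
    apply Complex.ext
    · simp [h1]
    · simp
  refine ⟨w'.im - w.im, hww, ?_⟩
  have huniq := Dev.uniq hT (F04_strip_convex a b).isPreconnected
    (F04_translate h (w'.im - w.im)) h hw (by
      change Φ (w + ((w'.im - w.im : ℝ) : ℂ) * Complex.I) = Φ w
      rw [← hww, he])
  exact huniq

/-- a nonzero period, by compactness of the level set -/
theorem dev_per_exists [T2Space X] {T : Set (OpenPartialHomeomorph X ℂ)} {U : Set X} {G : X → ℝ}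
    (hT : IsTr T U G) {a b ε : ℝ} (hε : 0 < ε)
    (hunif : ∀ p ∈ U, a ≤ G p → G p ≤ b → ∃ φ ∈ T, p ∈ φ.source ∧ Metric.ball (φ p) ε ⊆ φ.target)
    (hK : IsCompact {x | x ∈ U ∧ a ≤ G x ∧ G x ≤ b}) (hab : a < b)
    {Φ : ℂ → X} (h : Dev T (Strip a b) Φ) :
    ∃ s : ℝ, 0 < s ∧ ∀ z ∈ Strip a b, Φ (z + s * Complex.I) = Φ z := by
  classical
  set K : Set X := {x | x ∈ U ∧ a ≤ G x ∧ G x ≤ b} with hKdef
  have hch : ∀ p : K, ∃ φ ∈ T, (p : X) ∈ φ.source ∧ Metric.ball (φ p) ε ⊆ φ.target :=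
    fun p => hunif p p.2.1 p.2.2.1 p.2.2.2
  choose φ hφT hφs hφb using hch
  set N : K → Set X := fun p => (φ p).source ∩ (φ p) ⁻¹' (Metric.ball (φ p p) (ε / 4)) with hN
  have hNopen : ∀ p, IsOpen (N p) := fun p =>
    (φ p).isOpen_inter_preimage Metric.isOpen_ball
  have hcover : K ⊆ ⋃ p, N p := by
    intro x hx
    rw [mem_iUnion]
    exact ⟨⟨x, hx⟩, hφs ⟨x, hx⟩, Metric.mem_ball_self (by positivity)⟩
  obtain ⟨t, ht⟩ := hK.elim_finite_subcover N hNopen hcover
  -- the points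
  set m : ℝ := (a + b) / 2 with hm
  set w : ℕ → ℂ := fun n => (m : ℂ) + ((n * (1 + ε) : ℝ) : ℂ) * Complex.I with hwdef
  have hmS : (m : ℂ) ∈ Strip a b := by
    refine ⟨?_, ?_⟩
    · rw [Complex.ofReal_re, hm]; linarith
    · rw [Complex.ofReal_re, hm]; linarith
  have hwS : ∀ n, w n ∈ Strip a b := fun n => F04_strip_add hmS _
  have hwre : ∀ n, (w n).re = m := by
    intro n
    simp [hwdef]
  have hwK : ∀ n, Φ (w n) ∈ K := by
    intro n
    have h1 := Dev.re hT h (hwS n)
    rw [hwre] at h1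
    refine ⟨h1.1, ?_, ?_⟩
    · rw [h1.2, hm]; linarith
    · rw [h1.2, hm]; linarith
  have hsel : ∀ n, ∃ p : t, Φ (w n) ∈ N p := by
    intro n
    have := ht (hwK n)
    simp only [mem_iUnion] at this
    obtain ⟨p, hp, hx⟩ := this
    exact ⟨⟨p, hp⟩, hx⟩
  choose sel hselN using hsel
  obtain ⟨n1, n2, hne, heq⟩ := Finite.exists_ne_map_eq_of_infinite sel
  -- wlog n1 < n2
  have key : ∀ n1 n2 : ℕ, n1 < n2 → sel n1 = sel n2 →
      ∃ s : ℝ, 0 < s ∧ ∀ z ∈ Strip a b, Φ (z + s * Complex.I) = Φ z := by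
    intro n1 n2 hlt heq
    set p : K := (sel n1 : K) with hp
    have hx1 : Φ (w n1) ∈ N p := hselN n1
    have hx2 : Φ (w n2) ∈ N p := by
      have := hselN n2
      rw [← heq] at this
      exact this
    set x1 := Φ (w n1) with hx1def
    set x2 := Φ (w n2) with hx2def
    have hr1 : (φ p x1).re = m := by
      rw [hT.re _ (hφT p) _ hx1.1, (Dev.re hT h (hwS n1)).2, hwre]
    have hr2 : (φ p x2).re = m := by
      rw [hT.re _ (hφT p) _ hx2.1, (Dev.re hT h (hwS n2)).2, hwre]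
    have hd1 : dist (φ p x1) (φ p p) < ε / 4 := hx1.2
    have hd2 : dist (φ p x2) (φ p p) < ε / 4 := hx2.2
    have hd12 : dist (φ p x2) (φ p x1) < ε / 2 := by
      have := dist_triangle_right (φ p x2) (φ p x1) (φ p p)
      linarith
    set δ : ℝ := (φ p x2).im - (φ p x1).im with hδ
    have hdiff : φ p x2 = φ p x1 + (δ : ℂ) * Complex.I := by
      apply Complex.ext
      · simp [hr1, hr2]
      · simp [hδ]
    have hδabs : |δ| < ε / 2 := by
      rw [hdiff, dist_eq_norm, add_sub_cancel_left, norm_mul, Complex.norm_I, mul_one,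
        Complex.norm_real, Real.norm_eq_abs] at hd12
      exact hd12
    have hball : Metric.ball (φ p x1) (ε / 2) ⊆ (φ p).target := by
      refine Subset.trans ?_ (hφb p)
      intro z hz
      rw [Metric.mem_ball] at hz ⊢
      have := dist_triangle z (φ p x1) (φ p p)
      linarith
    obtain ⟨hdev, hval⟩ := dev_ball hT (hφT p) hx1.1 hball (w := w n1)
      (by rw [hwre, (Dev.re hT h (hwS n1)).2, hwre])
    have hcv : Convex ℝ (Strip a b ∩ Metric.ball (w n1) (ε / 2)) :=
      (F04_strip_convex a b).inter (convex_ball _ _)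
    have hu := Dev.uniq hT hcv.isPreconnected (F04_mono h inter_subset_left)
      (F04_mono hdev inter_subset_right) (w := w n1)
      ⟨hwS n1, Metric.mem_ball_self (by positivity)⟩ (by rw [hval])
    have hmem : w n1 + (δ : ℂ) * Complex.I ∈ Strip a b ∩ Metric.ball (w n1) (ε / 2) := by
      refine ⟨F04_strip_add (hwS n1) δ, ?_⟩
      rw [Metric.mem_ball, dist_eq_norm, add_sub_cancel_left, norm_mul, Complex.norm_I, mul_one,
        Complex.norm_real, Real.norm_eq_abs]
      exact hδabs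
    have he1 : Φ (w n1 + (δ : ℂ) * Complex.I) = Φ (w n2) := by
      have h3 := hu hmem
      have h4 : φ p x1 + (w n1 + (δ : ℂ) * Complex.I - w n1) = φ p x2 := by
        rw [hdiff]; ring
      rw [h3]
      change (φ p).symm (φ p x1 + (w n1 + (δ : ℂ) * Complex.I - w n1)) = x2
      rw [h4, (φ p).left_inv hx2.1]
    obtain ⟨s, hs1, hs2⟩ := dev_per_of_eq hT h (F04_strip_add (hwS n1) δ) (hwS n2) he1
    refine ⟨s, ?_, hs2⟩
    have him := congrArg Complex.im hs1
    simp only [hwdef, Complex.add_im, Complex.mul_im, Complex.ofReal_re, Complex.ofReal_im,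
      Complex.I_re, Complex.I_im, mul_one, mul_zero, zero_add, add_zero] at him
    have hn : (n1 : ℝ) + 1 ≤ n2 := by exact_mod_cast hlt
    have h5 := abs_lt.1 hδabs
    nlinarith
  rcases lt_or_gt_of_ne hne with hlt | hlt
  · exact key n1 n2 hlt heq
  · exact key n2 n1 hlt heq.symm

/-- the group of periods is generated by a positive number -/
theorem dev_per [T2Space X] {T : Set (OpenPartialHomeomorph X ℂ)} {U : Set X} {G : X → ℝ}
    (hT : IsTr T U G) {a b ε : ℝ} (hε : 0 < ε)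
    (hunif : ∀ p ∈ U, a ≤ G p → G p ≤ b → ∃ φ ∈ T, p ∈ φ.source ∧ Metric.ball (φ p) ε ⊆ φ.target)
    (hK : IsCompact {x | x ∈ U ∧ a ≤ G x ∧ G x ≤ b}) (hab : a < b)
    {Φ : ℂ → X} (h : Dev T (Strip a b) Φ) :
    ∃ c : ℝ, 0 < c ∧ ∀ w ∈ Strip a b, ∀ w' ∈ Strip a b,
      (Φ w = Φ w' ↔ ∃ n : ℤ, w' = w + n * c * Complex.I) := by
  obtain ⟨s0, hs0, hs0per⟩ := dev_per_exists hT hε hunif hK hab h
  let H : AddSubgroup ℝ :=
    { carrier := {s | ∀ z ∈ Strip a b, Φ (z + s * Complex.I) = Φ z}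
      zero_mem' := by
        intro z _
        simp
      add_mem' := by
        intro s t hs ht z hz
        have : z + ((s + t : ℝ) : ℂ) * Complex.I = (z + s * Complex.I) + t * Complex.I := by
          push_cast; ring
        rw [this, ht _ (F04_strip_add hz s), hs z hz]
      neg_mem' := by
        intro s hs z hz
        have h1 := hs _ (F04_strip_add hz (-s))
        rw [← h1]
        congr 1
        push_cast; ring }
  have hH : ∀ s : ℝ, s ∈ H ↔ ∀ z ∈ Strip a b, Φ (z + s * Complex.I) = Φ z := fun s => Iff.rfl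
  -- small periods vanish
  set m : ℝ := (a + b) / 2 with hm
  have hmS : (m : ℂ) ∈ Strip a b := by
    refine ⟨?_, ?_⟩
    · rw [Complex.ofReal_re, hm]; linarith
    · rw [Complex.ofReal_re, hm]; linarith
  obtain ⟨φ, hφ, c0, hc0, hev⟩ := h _ hmS
  have htar : ∀ᶠ w' : ℂ in 𝓝 (m : ℂ), w' + c0 * Complex.I ∈ φ.target := by
    have hcont : Filter.Tendsto (fun z' : ℂ => z' + c0 * Complex.I) (𝓝 (m : ℂ))
        (𝓝 ((m : ℂ) + c0 * Complex.I)) :=
      (continuous_id.add continuous_const).continuousAt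
    exact hcont.eventually (φ.open_target.mem_nhds hc0)
  obtain ⟨η, hη, hηball⟩ := Metric.eventually_nhds_iff.1 (hev.and htar)
  have hsmall : ∀ s : ℝ, s ∈ H → |s| < η → s = 0 := by
    intro s hs hsη
    have h1 := (hH s).1 hs _ hmS
    have hd : dist ((m : ℂ) + s * Complex.I) m < η := by
      rw [dist_eq_norm, add_sub_cancel_left, norm_mul, Complex.norm_I, mul_one,
        Complex.norm_real, Real.norm_eq_abs]
      exact hsη
    have hd0 : dist (m : ℂ) m < η := by rw [dist_self]; exact hη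
    obtain ⟨e1, t1⟩ := hηball hd
    obtain ⟨e0, t0⟩ := hηball hd0
    rw [e1, e0] at h1
    have h2 := φ.symm.injOn t1 t0 h1
    have h3 := congrArg Complex.im h2
    simpa using h3
  have hdisj : Disjoint (H : Set ℝ) (Ioo 0 η) := by
    rw [Set.disjoint_left]
    intro s hs hs'
    have := hsmall s hs (by rw [abs_of_pos hs'.1]; exact hs'.2)
    rw [this] at hs'
    exact lt_irrefl _ hs'.1
  obtain ⟨c', hc'⟩ := AddSubgroup.cyclic_of_isolated_zero hη hdisj
  have hmemH : ∀ s : ℝ, s ∈ H ↔ ∃ n : ℤ, n • c' = s := by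
    intro s
    rw [hc', AddSubgroup.mem_closure_singleton]
  have hc'0 : c' ≠ 0 := by
    intro h0
    obtain ⟨n, hn⟩ := (hmemH s0).1 hs0per
    rw [h0, smul_zero] at hn
    linarith
  have hmemH' : ∀ s : ℝ, s ∈ H ↔ ∃ n : ℤ, (n : ℝ) * |c'| = s := by
    intro s
    rw [hmemH]
    rcases abs_choice c' with h0 | h0
    · rw [h0]
      simp only [zsmul_eq_mul]
    · rw [h0]
      constructor
      · rintro ⟨n, hn⟩
        refine ⟨-n, ?_⟩
        rw [← hn, zsmul_eq_mul]
        push_cast; ring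
      · rintro ⟨n, hn⟩
        refine ⟨-n, ?_⟩
        rw [← hn, zsmul_eq_mul]
        push_cast; ring
  refine ⟨|c'|, abs_pos.2 hc'0, ?_⟩
  intro w hw w' hw'
  constructor
  · intro he
    obtain ⟨s, hs1, hs2⟩ := dev_per_of_eq hT h hw hw' he
    obtain ⟨n, hn⟩ := (hmemH' s).1 hs2
    refine ⟨n, ?_⟩
    rw [hs1, ← hn]
    push_cast; ring
  · rintro ⟨n, hn⟩
    have h1 : ((n : ℝ) * |c'|) ∈ H := (hmemH' _).2 ⟨n, rfl⟩
    have h2 := (hH _).1 h1 w hw
    rw [hn, ← h2]
    congr 1
    push_cast; ring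

end Pool.Agent.Lib.MP_cca10c_ag
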