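import Pool.Agent.Lib.MP_cca10c_ag.F01_Loc
import Pool.Agent.Lib.MP_cca10c_ag.F03_Dev
import Pool.Agent.Lib.MP_cca10c_ag.F04_Per

/-! Module F: the flat annulus lemma. -/

set_option autoImplicit false

open Topology Set

namespace Pool.Agent.Lib.MP_cca10c_ag

variable {X : Type} [TopologicalSpace X]

/-- logarithm of a quotient, up to a period -/
theorem F05_log (ζ ζ' : ℂ) (h0 : ζ ≠ 0) (h0' : ζ' ≠ 0) :
    ∃ n : ℤ, Complex.log ζ' =
      Complex.log ζ + Complex.log (ζ' / ζ) + n * (2 * Real.pi * Complex.I) := by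
  have h1 : Complex.exp (Complex.log ζ') = Complex.exp (Complex.log ζ + Complex.log (ζ' / ζ)) := by
    rw [Complex.exp_add, Complex.exp_log h0, Complex.exp_log h0',
      Complex.exp_log (div_ne_zero h0' h0)]
    field_simp
  obtain ⟨n, hn⟩ := Complex.exp_eq_exp_iff_exists_int.mp h1
  exact ⟨n, hn⟩

/-- the argument of `Φ` in the strip -/
noncomputable def F05_arg (c m : ℝ) (ζ : ℂ) : ℂ :=
  (m : ℂ) + (c : ℂ) / (2 * Real.pi) * Complex.log ζ

theorem F05_arg_re (c m : ℝ) (ζ : ℂ) :
    (F05_arg c m ζ).re = m + c / (2 * Real.pi) * Real.log ‖ζ‖ := by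
  unfold F05_arg
  have h : ((c : ℂ) / (2 * Real.pi)) = ((c / (2 * Real.pi) : ℝ) : ℂ) := by push_cast; ring
  rw [h, Complex.add_re, Complex.re_ofReal_mul, Complex.log_re, Complex.ofReal_re]

/-- the exponential coordinate -/
noncomputable def F05_exp (c m : ℝ) (w : ℂ) : ℂ :=
  Complex.exp (2 * Real.pi / c * (w - m))

theorem F05_exp_norm (c m : ℝ) (w : ℂ) :
    ‖F05_exp c m w‖ = Real.exp (2 * Real.pi / c * (w.re - m)) := by
  unfold F05_exp
  have h : ((2 : ℂ) * Real.pi / c) = ((2 * Real.pi / c : ℝ) : ℂ) := by push_cast; ring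
  rw [Complex.norm_exp, h, Complex.re_ofReal_mul, Complex.sub_re, Complex.ofReal_re]

theorem F05_exp_per {c : ℝ} (hc : 0 < c) (m : ℝ) (w : ℂ) (n : ℤ) :
    F05_exp c m (w + n * c * Complex.I) = F05_exp c m w := by
  unfold F05_exp
  have hc' : (c : ℂ) ≠ 0 := by exact_mod_cast hc.ne'
  have h : (2 : ℂ) * Real.pi / c * (w + n * c * Complex.I - m) =
      2 * Real.pi / c * (w - m) + n * (2 * Real.pi * Complex.I) := by
    field_simp
    ring
  rw [h, Complex.exp_add, Complex.exp_int_mul_two_pi_mul_I, mul_one]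

theorem F05_exp_arg {c : ℝ} (hc : 0 < c) (m : ℝ) {ζ : ℂ} (h0 : ζ ≠ 0) :
    F05_exp c m (F05_arg c m ζ) = ζ := by
  unfold F05_exp F05_arg
  have hc' : (c : ℂ) ≠ 0 := by exact_mod_cast hc.ne'
  have hpi : (Real.pi : ℂ) ≠ 0 := by exact_mod_cast Real.pi_ne_zero
  have h : (2 : ℂ) * Real.pi / c * ((m : ℂ) + (c : ℂ) / (2 * Real.pi) * Complex.log ζ - m) =
      Complex.log ζ := by
    field_simp
    ring
  rw [h, Complex.exp_log h0]

theorem F05_arg_exp {c : ℝ} (hc : 0 < c) (m : ℝ) (w : ℂ) :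
    ∃ n : ℤ, F05_arg c m (F05_exp c m w) = w + n * c * Complex.I := by
  have hc' : (c : ℂ) ≠ 0 := by exact_mod_cast hc.ne'
  have hpi : (Real.pi : ℂ) ≠ 0 := by exact_mod_cast Real.pi_ne_zero
  have h1 : Complex.exp (Complex.log (F05_exp c m w)) = Complex.exp (2 * Real.pi / c * (w - m)) := by
    exact Complex.exp_log (Complex.exp_ne_zero _)
  obtain ⟨n, hn⟩ := Complex.exp_eq_exp_iff_exists_int.mp h1
  refine ⟨n, ?_⟩
  unfold F05_arg
  rw [hn]
  field_simp
  ring

theorem F05_strip {a b c m : ℝ} (hm : m = (a + b) / 2) (hc : 0 < c) {ζ : ℂ}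
    (h1 : Real.exp (-(Real.pi * (b - a) / c)) < ‖ζ‖)
    (h2 : ‖ζ‖ < Real.exp (Real.pi * (b - a) / c)) : F05_arg c m ζ ∈ Strip a b := by
  have hpos : 0 < ‖ζ‖ := (Real.exp_pos _).trans h1
  have h3 : -(Real.pi * (b - a) / c) < Real.log ‖ζ‖ := (Real.lt_log_iff_exp_lt hpos).mpr h1
  have h4 : Real.log ‖ζ‖ < Real.pi * (b - a) / c := (Real.log_lt_iff_lt_exp hpos).mpr h2
  have hpi := Real.pi_pos
  have hk : 0 < c / (2 * Real.pi) := by positivity
  have h5 := mul_lt_mul_of_pos_left h3 hk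
  have h6 := mul_lt_mul_of_pos_left h4 hk
  have e : c / (2 * Real.pi) * (Real.pi * (b - a) / c) = (b - a) / 2 := by
    field_simp
  rw [mul_neg, e] at h5
  rw [e] at h6
  constructor
  · rw [F05_arg_re, hm]
    linarith
  · rw [F05_arg_re, hm]
    linarith

theorem F05_ann {a b c m : ℝ} (hm : m = (a + b) / 2) (hc : 0 < c) {w : ℂ}
    (hw : w ∈ Strip a b) : Real.exp (-(Real.pi * (b - a) / c)) < ‖F05_exp c m w‖ ∧
      ‖F05_exp c m w‖ < Real.exp (Real.pi * (b - a) / c) := by
  have hpi := Real.pi_pos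
  have hk : 0 < 2 * Real.pi / c := by positivity
  have e : 2 * Real.pi / c * ((b - a) / 2) = Real.pi * (b - a) / c := by
    field_simp
  rw [F05_exp_norm]
  constructor
  · apply Real.exp_lt_exp.mpr
    have h1 : -((b - a) / 2) < w.re - m := by
      have := hw.1
      rw [hm]
      linarith
    have := mul_lt_mul_of_pos_left h1 hk
    rw [mul_neg, e] at this
    exact this
  · apply Real.exp_lt_exp.mpr
    have h1 : w.re - m < (b - a) / 2 := by
      have := hw.2
      rw [hm]
      linarith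
    have := mul_lt_mul_of_pos_left h1 hk
    rw [e] at this
    exact this

theorem F05_strip_open (a b : ℝ) : IsOpen (Strip a b) :=
  (isOpen_lt continuous_const Complex.continuous_re).inter
    (isOpen_lt Complex.continuous_re continuous_const)

/-- the chart `e` with `e⁻¹ ζ = Φ (m + (c / 2π) log ζ)` -/
theorem dev_chart [T2Space X] (S : CS X) {U : Set X} (hU : IsOpen U) {G : X → ℝ}
    (hN : ∀ p ∈ U, NCrit S G p) {a b c m : ℝ} (hm : m = (a + b) / 2) (hab : a < b) (hc : 0 < c)
    {Φ : ℂ → X} (h : Dev (TCh S U G) (Strip a b) Φ)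
    (hper : ∀ w ∈ Strip a b, ∀ w' ∈ Strip a b,
      (Φ w = Φ w' ↔ ∃ n : ℤ, w' = w + n * c * Complex.I)) :
    ∃ e ∈ S.charts, e.source ⊆ U ∧
      e.target = {ζ | Real.exp (-(Real.pi * (b - a) / c)) < ‖ζ‖ ∧
        ‖ζ‖ < Real.exp (Real.pi * (b - a) / c)} ∧
      ∀ x ∈ e.source, G x = m + c / (2 * Real.pi) * Real.log ‖e x‖ := by
  classical
  have hT : IsTr (TCh S U G) U G := TCh_isTr S hU hN
  have hc' : (c : ℂ) ≠ 0 := by exact_mod_cast hc.ne'
  have hpi : (Real.pi : ℂ) ≠ 0 := by exact_mod_cast Real.pi_ne_zero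
  set A : Set ℂ := {ζ | Real.exp (-(Real.pi * (b - a) / c)) < ‖ζ‖ ∧
        ‖ζ‖ < Real.exp (Real.pi * (b - a) / c)} with hA
  have hAo : IsOpen A :=
    (isOpen_lt continuous_const continuous_norm).inter (isOpen_lt continuous_norm continuous_const)
  have hA0 : ∀ ζ ∈ A, ζ ≠ 0 := by
    rintro ζ hζ rfl
    have := hζ.1
    rw [norm_zero] at this
    exact absurd this (not_lt.mpr (Real.exp_pos _).le)
  -- the chosen point of the strip
  have hchoice : ∀ x : X, ∃ w : ℂ, x ∈ Φ '' Strip a b → w ∈ Strip a b ∧ Φ w = x := by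
    intro x
    by_cases hx : x ∈ Φ '' Strip a b
    · obtain ⟨w, hw, hwx⟩ := hx
      exact ⟨w, fun _ => ⟨hw, hwx⟩⟩
    · exact ⟨0, fun hx' => absurd hx' hx⟩
  choose W hW using hchoice
  set toF : X → ℂ := fun x => F05_exp c m (W x) with htoF
  set invF : ℂ → X := fun ζ => Φ (F05_arg c m ζ) with hinvF
  have htoF_eq : ∀ w ∈ Strip a b, toF (Φ w) = F05_exp c m w := by
    intro w hw
    have h1 := hW (Φ w) ⟨w, hw, rfl⟩
    obtain ⟨n, hn⟩ := (hper w hw (W (Φ w)) h1.1).mp h1.2.symm
    rw [htoF]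
    show F05_exp c m (W (Φ w)) = _
    rw [hn, F05_exp_per hc]
  -- local form of the developing map
  have hloc : ∀ w ∈ Strip a b, ∃ φ ∈ TCh S U G, ∃ s : ℝ, w + s * Complex.I ∈ φ.target ∧
      Φ w = φ.symm (w + s * Complex.I) ∧ Φ w ∈ φ.source ∧
      (∀ᶠ w' in 𝓝 w, Φ w' = φ.symm (w' + s * Complex.I)) ∧
      ∀ᶠ x in 𝓝 (Φ w), x ∈ Φ '' Strip a b ∧
        toF x = F05_exp c m (φ x - s * Complex.I) := by
    intro w hw
    obtain ⟨φ, hφ, s, hs, hev⟩ := h w hw
    have h0 : Φ w = φ.symm (w + s * Complex.I) := hev.self_of_nhds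
    have hsrc : Φ w ∈ φ.source := by rw [h0]; exact φ.map_target hs
    refine ⟨φ, hφ, s, hs, h0, hsrc, hev, ?_⟩
    have hφw : φ (Φ w) - s * Complex.I = w := by
      rw [h0, φ.right_inv hs]; ring
    have htend : Filter.Tendsto (fun x => φ x - s * Complex.I) (𝓝 (Φ w)) (𝓝 w) := by
      have h1 : ContinuousAt (fun x => φ x - s * Complex.I) (Φ w) :=
        (φ.continuousAt hsrc).sub continuousAt_const
      have h2 : Filter.Tendsto (fun x => φ x - s * Complex.I) (𝓝 (Φ w))
          (𝓝 (φ (Φ w) - s * Complex.I)) := h1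
      rwa [hφw] at h2
    filter_upwards [htend.eventually hev, htend.eventually ((F05_strip_open a b).mem_nhds hw),
      φ.open_source.mem_nhds hsrc] with x h1 h2 h3
    have h4 : Φ (φ x - s * Complex.I) = x := by
      rw [h1, sub_add_cancel, φ.left_inv h3]
    refine ⟨⟨_, h2, h4⟩, ?_⟩
    have h5 := htoF_eq _ h2
    rwa [h4] at h5
  -- local form of the inverse
  have hlocinv : ∀ ζ ∈ A, ∀ᶠ ζ' in 𝓝 ζ,
      invF ζ' = Φ (F05_arg c m ζ + (c : ℂ) / (2 * Real.pi) * Complex.log (ζ' / ζ)) := by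
    intro ζ hζ
    have h0 := hA0 ζ hζ
    have hcont : ContinuousAt (fun ζ' : ℂ => F05_arg c m ζ +
        (c : ℂ) / (2 * Real.pi) * Complex.log (ζ' / ζ)) ζ := by
      have h1 : ContinuousAt (fun ζ' : ℂ => Complex.log (ζ' / ζ)) ζ := by
        apply ContinuousAt.clog
        · exact continuousAt_id.div_const ζ
        · show ζ / ζ ∈ Complex.slitPlane
          rw [div_self h0]
          exact Complex.one_mem_slitPlane
      exact continuousAt_const.add (continuousAt_const.mul h1)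
    have hval : F05_arg c m ζ + (c : ℂ) / (2 * Real.pi) * Complex.log (ζ / ζ) = F05_arg c m ζ := by
      rw [div_self h0, Complex.log_one, mul_zero, add_zero]
    have hst : F05_arg c m ζ ∈ Strip a b := F05_strip hm hc hζ.1 hζ.2
    have hev : ∀ᶠ ζ' in 𝓝 ζ, F05_arg c m ζ +
        (c : ℂ) / (2 * Real.pi) * Complex.log (ζ' / ζ) ∈ Strip a b := by
      apply hcont.eventually
      apply (F05_strip_open a b).mem_nhds
      show F05_arg c m ζ + (c : ℂ) / (2 * Real.pi) * Complex.log (ζ / ζ) ∈ Strip a b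
      rw [hval]
      exact hst
    filter_upwards [hev, hAo.mem_nhds hζ] with ζ' h1 h2
    have h0' := hA0 ζ' h2
    obtain ⟨n, hn⟩ := F05_log ζ ζ' h0 h0'
    have hst' : F05_arg c m ζ' ∈ Strip a b := F05_strip hm hc h2.1 h2.2
    symm
    rw [hinvF]
    show Φ _ = Φ (F05_arg c m ζ')
    rw [hper _ h1 _ hst']
    refine ⟨n, ?_⟩
    unfold F05_arg
    rw [hn]
    field_simp
    ring
  have hloccont : ∀ ζ ∈ A, ∃ φ ∈ TCh S U G, ∃ s : ℝ, F05_arg c m ζ + s * Complex.I ∈ φ.target ∧
      invF ζ = φ.symm (F05_arg c m ζ + s * Complex.I) ∧ ∀ᶠ ζ' in 𝓝 ζ, invF ζ' =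
        φ.symm (F05_arg c m ζ + (c : ℂ) / (2 * Real.pi) * Complex.log (ζ' / ζ) +
          s * Complex.I) := by
    intro ζ hζ
    have h0 := hA0 ζ hζ
    have hst : F05_arg c m ζ ∈ Strip a b := F05_strip hm hc hζ.1 hζ.2
    obtain ⟨φ, hφ, s, hs, hval, -, hev, -⟩ := hloc _ hst
    refine ⟨φ, hφ, s, hs, hval, ?_⟩
    have hcont : ContinuousAt (fun ζ' : ℂ => F05_arg c m ζ +
        (c : ℂ) / (2 * Real.pi) * Complex.log (ζ' / ζ)) ζ := by
      have h1 : ContinuousAt (fun ζ' : ℂ => Complex.log (ζ' / ζ)) ζ := by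
        apply ContinuousAt.clog
        · exact continuousAt_id.div_const ζ
        · show ζ / ζ ∈ Complex.slitPlane
          rw [div_self h0]
          exact Complex.one_mem_slitPlane
      exact continuousAt_const.add (continuousAt_const.mul h1)
    have hv : F05_arg c m ζ + (c : ℂ) / (2 * Real.pi) * Complex.log (ζ / ζ) = F05_arg c m ζ := by
      rw [div_self h0, Complex.log_one, mul_zero, add_zero]
    have hev' : ∀ᶠ ζ' in 𝓝 ζ, Φ (F05_arg c m ζ +
        (c : ℂ) / (2 * Real.pi) * Complex.log (ζ' / ζ)) =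
        φ.symm (F05_arg c m ζ + (c : ℂ) / (2 * Real.pi) * Complex.log (ζ' / ζ) +
          s * Complex.I) := by
      have h2 : Filter.Tendsto (fun ζ' : ℂ => F05_arg c m ζ +
        (c : ℂ) / (2 * Real.pi) * Complex.log (ζ' / ζ)) (𝓝 ζ) (𝓝 (F05_arg c m ζ)) := by
        have h3 : Filter.Tendsto (fun ζ' : ℂ => F05_arg c m ζ +
          (c : ℂ) / (2 * Real.pi) * Complex.log (ζ' / ζ)) (𝓝 ζ) (𝓝 (F05_arg c m ζ +
          (c : ℂ) / (2 * Real.pi) * Complex.log (ζ / ζ))) := hcont
        rwa [hv] at h3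
      exact h2.eventually hev
    filter_upwards [hlocinv ζ hζ, hev'] with ζ' h1 h2
    rw [h1, h2]
  have hdifflog : ∀ ζ ∈ A, ∀ s : ℝ, DifferentiableAt ℂ (fun ζ' : ℂ => F05_arg c m ζ +
      (c : ℂ) / (2 * Real.pi) * Complex.log (ζ' / ζ) + s * Complex.I) ζ := by
    intro ζ hζ s
    have h0 := hA0 ζ hζ
    have h1 : DifferentiableAt ℂ (fun ζ' : ℂ => Complex.log (ζ' / ζ)) ζ := by
      apply DifferentiableAt.clog
      · exact differentiableAt_id.div_const ζ
      · show ζ / ζ ∈ Complex.slitPlane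
        rw [div_self h0]
        exact Complex.one_mem_slitPlane
    exact ((differentiableAt_const _).add ((differentiableAt_const _).mul h1)).add
      (differentiableAt_const _)
  have hlogval : ∀ ζ ∈ A, ∀ s : ℝ, F05_arg c m ζ +
      (c : ℂ) / (2 * Real.pi) * Complex.log (ζ / ζ) + s * Complex.I =
      F05_arg c m ζ + s * Complex.I := by
    intro ζ hζ s
    rw [div_self (hA0 ζ hζ), Complex.log_one, mul_zero, add_zero]
  let e : OpenPartialHomeomorph X ℂ :=
    { toFun := toF
      invFun := invF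
      source := Φ '' Strip a b
      target := A
      map_source' := by
        rintro _ ⟨w, hw, rfl⟩
        rw [htoF_eq w hw]
        exact F05_ann hm hc hw
      map_target' := by
        intro ζ hζ
        exact ⟨_, F05_strip hm hc hζ.1 hζ.2, rfl⟩
      left_inv' := by
        rintro _ ⟨w, hw, rfl⟩
        rw [htoF_eq w hw]
        obtain ⟨n, hn⟩ := F05_arg_exp hc m w
        have hann := F05_ann hm hc hw
        have hst := F05_strip hm hc hann.1 hann.2
        rw [hinvF]
        show Φ (F05_arg c m (F05_exp c m w)) = Φ w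
        symm
        exact (hper w hw _ hst).mpr ⟨n, hn⟩
      right_inv' := by
        intro ζ hζ
        have hst := F05_strip hm hc hζ.1 hζ.2
        rw [hinvF]
        show toF (Φ (F05_arg c m ζ)) = ζ
        rw [htoF_eq _ hst, F05_exp_arg hc m (hA0 ζ hζ)]
      open_source := by
        rw [isOpen_iff_mem_nhds]
        rintro _ ⟨w, hw, rfl⟩
        obtain ⟨φ, hφ, s, hs, hval, hsrc, hev, hev2⟩ := hloc w hw
        filter_upwards [hev2] with x hx
        exact hx.1
      open_target := hAo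
      continuousOn_toFun := by
        rintro _ ⟨w, hw, rfl⟩
        apply ContinuousAt.continuousWithinAt
        obtain ⟨φ, hφ, s, hs, hval, hsrc, hev, hev2⟩ := hloc w hw
        have h1 : ContinuousAt (fun x => F05_exp c m (φ x - s * Complex.I)) (Φ w) := by
          unfold F05_exp
          exact (Complex.continuous_exp.continuousAt).comp (continuousAt_const.mul
            (((φ.continuousAt hsrc).sub continuousAt_const).sub continuousAt_const))
        refine h1.congr ?_
        filter_upwards [hev2] with x hx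
        exact hx.2.symm
      continuousOn_invFun := by
        intro ζ hζ
        apply ContinuousAt.continuousWithinAt
        obtain ⟨φ, hφ, s, hs, hval, hev⟩ := hloccont ζ hζ
        have h1 : ContinuousAt (fun ζ' : ℂ => φ.symm (F05_arg c m ζ +
            (c : ℂ) / (2 * Real.pi) * Complex.log (ζ' / ζ) + s * Complex.I)) ζ := by
          apply ContinuousAt.comp (g := φ.symm)
          · rw [hlogval ζ hζ s]
            exact φ.symm.continuousAt hs
          · exact (hdifflog ζ hζ s).continuousAt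
        refine h1.congr ?_
        filter_upwards [hev] with x hx
        exact hx.symm }
  have hcomp : ∀ e' ∈ S.charts, Compat e e' := by
    intro e' he'
    apply F01_compat
    intro x hx hx'
    constructor
    · -- `e' ∘ e.symm`
      have hζ : e x ∈ A := e.map_source hx
      obtain ⟨φ, hφ, s, hs, hval, hev⟩ := hloccont (e x) hζ
      have hinv : invF (e x) = x := e.left_inv hx
      have hxφ : x ∈ φ.source := by
        rw [← hinv, hval]
        exact φ.map_target hs
      have hφx : F05_arg c m (e x) + s * Complex.I = φ x := by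
        have h1 : φ (invF (e x)) = F05_arg c m (e x) + s * Complex.I := by
          rw [hval, φ.right_inv hs]
        rw [hinv] at h1
        exact h1.symm
      have h1 : DifferentiableAt ℂ (e' ∘ φ.symm) (φ x) :=
        F01_diffAt (S.compat φ hφ.1 e' he') hxφ hx'
      have h2 : DifferentiableAt ℂ ((e' ∘ φ.symm) ∘ (fun ζ' : ℂ => F05_arg c m (e x) +
          (c : ℂ) / (2 * Real.pi) * Complex.log (ζ' / e x) + s * Complex.I)) (e x) := by
        apply DifferentiableAt.comp
        · rw [hlogval (e x) hζ s, hφx]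
          exact h1
        · exact hdifflog (e x) hζ s
      refine h2.congr_of_eventuallyEq ?_
      filter_upwards [hev] with ζ' hζ'
      show e' (invF ζ') = _
      rw [hζ']
      rfl
    · -- `e ∘ e'.symm`
      obtain ⟨w, hw, hwx⟩ := hx
      obtain ⟨φ, hφ, s, hs, hval, hsrc, hev, hev2⟩ := hloc w hw
      rw [hwx] at hsrc hev2
      have h1 : DifferentiableAt ℂ (φ ∘ e'.symm) (e' x) :=
        F01_diffAt (S.compat e' he' φ hφ.1) hx' hsrc
      have h2 : DifferentiableAt ℂ (fun z => F05_exp c m ((φ ∘ e'.symm) z - s * Complex.I))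
          (e' x) := by
        unfold F05_exp
        exact ((differentiableAt_const _).mul
          ((h1.sub (differentiableAt_const _)).sub (differentiableAt_const _))).cexp
      refine h2.congr_of_eventuallyEq ?_
      have htend : Filter.Tendsto e'.symm (𝓝 (e' x)) (𝓝 x) := by
        have h3 : Filter.Tendsto e'.symm (𝓝 (e' x)) (𝓝 (e'.symm (e' x))) :=
          e'.symm.continuousAt (e'.map_source hx')
        rwa [e'.left_inv hx'] at h3
      filter_upwards [htend.eventually hev2] with z hz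
      show toF (e'.symm z) = _
      rw [hz.2]
      rfl
  refine ⟨e, S.max e hcomp, ?_, rfl, ?_⟩
  · rintro _ ⟨w, hw, rfl⟩
    exact (h.re hT hw).1
  · rintro _ ⟨w, hw, rfl⟩
    show G (Φ w) = m + c / (2 * Real.pi) * Real.log ‖toF (Φ w)‖
    rw [htoF_eq w hw, F05_exp_norm, Real.log_exp, (h.re hT hw).2]
    have hpi' := Real.pi_ne_zero
    have hc0 := hc.ne'
    field_simp
    ring

/-- The flat annulus lemma. -/
theorem flat_annulus [T2Space X] (S : CS X) {U : Set X} (hU : IsOpen U) {G : X → ℝ}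
    (hN : ∀ p ∈ U, NCrit S G p) {a b : ℝ} (hab : a < b)
    (hK : IsCompact {x | x ∈ U ∧ a ≤ G x ∧ G x ≤ b}) {p : X} (hp : p ∈ U)
    (hGp : G p = (a + b) / 2) :
    ∃ l : ℝ, 0 < l ∧ ∃ e ∈ S.charts, e.source ⊆ U ∧
      e.target = {ζ | Real.exp (-l) < ‖ζ‖ ∧ ‖ζ‖ < Real.exp l} ∧
      ∀ x ∈ e.source, G x = (a + b) / 2 + (b - a) / (2 * l) * Real.log ‖e x‖ := by
  have hT : IsTr (TCh S U G) U G := TCh_isTr S hU hN
  obtain ⟨ε, hε, hunif⟩ := hT.unif hK (fun x hx => hx.1)
  have hunif' : ∀ p ∈ U, a ≤ G p → G p ≤ b →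
      ∃ φ ∈ TCh S U G, p ∈ φ.source ∧ Metric.ball (φ p) ε ⊆ φ.target :=
    fun q hq h1 h2 => hunif q ⟨hq, h1, h2⟩
  obtain ⟨Φ, hΦ, hΦm⟩ := dev_strip hT hε hunif' (m := (a + b) / 2) (by linarith) (by linarith) hp
    hGp
  obtain ⟨c, hc, hper⟩ := dev_per hT hε hunif' hK hab hΦ
  obtain ⟨e, he, heU, het, heG⟩ := dev_chart S hU hN rfl hab hc hΦ hper
  refine ⟨Real.pi * (b - a) / c, ?_, e, he, heU, het, ?_⟩
  · have := Real.pi_pos
    have : 0 < b - a := by linarith
    positivity
  · intro x hx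
    rw [heG x hx]
    have h1 : c / (2 * Real.pi) = (b - a) / (2 * (Real.pi * (b - a) / c)) := by
      have hpi := Real.pi_ne_zero
      have hba : b - a ≠ 0 := by linarith
      field_simp
    rw [h1]

end Pool.Agent.Lib.MP_cca10c_ag
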