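import Pool.Agent.Lib.MP_cca10c_ag.Statement

/-!
# Forms on a Riemann surface with a frame: definitions

Fix a frame `F` of `(X, S)` (always assumed `Tame` in the theorems). A real 1-form is represented by
a function `a : X → ℂ`: at the point `x` the form is `Re (a x dz)`, where `z` is the chart `F.ch x`.
So `a = α_x - i α_y`. Multiplication by `-i` is the Hodge star. In another chart `e` the form is
`Re (F.co e a z dz)`.

Harmonic forms are the forms with `F.Hol a`. The class of a closed form in `ℝ ^ (2 g)` with respect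
to a symplectic basis `u, v` is given by the relation `F.Cls u v a x`.
Complex product `F.ip a b = ∫ a conj b = ⟨a, b⟩ + i ∫ a ∧ b` (`F.rp` and `F.wd`).
-/

set_option autoImplicit false

open Topology Set MeasureTheory
open scoped ContDiff ENNReal

namespace Pool.Agent.Lib.MP_cca10c_ag

variable {X : Type} [TopologicalSpace X]

/-- `f` is smooth. -/
def CS.Smooth (S : CS X) (f : X → ℝ) : Prop := ∀ x, S.SmoothAt f x

/-- `f` is smooth near `x`. -/
def CS.SmoothNear (S : CS X) (f : X → ℝ) (x : X) : Prop := ∀ᶠ y in 𝓝 x, S.SmoothAt f y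

/-- the map `φ` from the plane domain `U` to the surface is holomorphic -/
def CS.HolOn (S : CS X) (φ : ℂ → X) (U : Set ℂ) : Prop :=
  ContinuousOn φ U ∧ ∀ e ∈ S.charts, DifferentiableOn ℂ (e ∘ φ) (U ∩ φ ⁻¹' e.source)

/-- `f` is a closed germ family: `f x` is a smooth function near `x`, and `f y - f x` is locally
constant near `y` for `y` near `x`. -/
def CS.Fam (S : CS X) (f : X → X → ℝ) : Prop :=
  ∀ x, S.SmoothNear (f x) x ∧ ∀ᶠ y in 𝓝 x, ∃ c : ℝ, ∀ᶠ z in 𝓝 y, f y z = f x z + c

/-- The complex structures `S` and `S'` on `X` are smoothly equivalent, with the same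
orientation. -/
def SC (S S' : CS X) : Prop :=
  ∀ e ∈ S.charts, ∀ e' ∈ S'.charts, ∀ x ∈ e.source ∩ e'.source,
    ContDiffAt ℝ ∞ (e' ∘ e.symm) (e x) ∧ 0 < (fderiv ℝ (e' ∘ e.symm) (e x)).det

/-- The identity map `(X, S) → (X, S')` is `K`-quasiconformal at `x`. -/
def DilAt (S S' : CS X) (K : ℝ) (x : X) : Prop :=
  ∀ e ∈ S.charts, ∀ e' ∈ S'.charts, x ∈ e.source → x ∈ e'.source →
    ‖fderiv ℝ (e' ∘ e.symm) (e x)‖ ^ 2 ≤ K * (fderiv ℝ (e' ∘ e.symm) (e x)).det

/-- the circle map `∑ x_j u_j + ∑ x_j' v_j` -/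
def comb {g : ℕ} (u v : Fin g → X → UnitAddCircle) (x : Fin g ⊕ Fin g → ℤ) (p : X) :
    UnitAddCircle :=
  ∑ j, x (Sum.inl j) • u j p + ∑ j, x (Sum.inr j) • v j p

/-- the standard symplectic form (the cup product in a symplectic basis) -/
def om {g : ℕ} (x y : Fin g ⊕ Fin g → ℝ) : ℝ :=
  ∑ j, (x (Sum.inl j) * y (Sum.inr j) - x (Sum.inr j) * y (Sum.inl j))

/-- two circle maps in the same class: the difference lifts to a real function -/
def SameClass (w w' : X → UnitAddCircle) : Prop :=
  ∃ f : X → ℝ, Continuous f ∧ ∀ x, w' x = w x + (f x : UnitAddCircle)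

namespace Frame

variable {S : CS X} (F : Frame S)

theorem exists_ix (x : X) : ∃ i, x ∈ F.P i := by
  have h : x ∈ ⋃ i, F.P i := by rw [F.cover]; exact mem_univ x
  exact mem_iUnion.1 h

/-- the index of the piece containing `x` -/
noncomputable def ix (x : X) : Fin F.n := (F.exists_ix x).choose

theorem ix_spec (x : X) : x ∈ F.P (F.ix x) := (F.exists_ix x).choose_spec

theorem ix_eq {x : X} {i : Fin F.n} (h : x ∈ F.P i) : F.ix x = i := by
  by_contra hne
  exact Set.disjoint_left.1 (F.disj hne) (F.ix_spec x) h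

/-- the chart of the frame at `x` -/
noncomputable def ch (x : X) : OpenPartialHomeomorph X ℂ := F.e (F.ix x)

theorem ch_mem (x : X) : F.ch x ∈ S.charts := F.mem _

theorem mem_ch (x : X) : x ∈ (F.ch x).source := F.sub _ (F.ix_spec x)

theorem ch_eq {x : X} {i : Fin F.n} (h : x ∈ F.P i) : F.ch x = F.e i := by
  rw [ch, F.ix_eq h]

/-- the form `dφ` -/
noncomputable def d (φ : X → ℝ) (x : X) : ℂ := cgrad (φ ∘ (F.ch x).symm) (F.ch x x)

/-- the form `du` of a map `u` to the circle -/
noncomputable def dC (u : X → UnitAddCircle) (x : X) : ℂ :=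
  cgradC (u ∘ (F.ch x).symm) (F.ch x x)

/-- the form of a germ family -/
noncomputable def g (f : X → X → ℝ) (x : X) : ℂ := F.d (f x) x

/-- the coefficient of the form `a` in the chart `e` -/
noncomputable def co (e : OpenPartialHomeomorph X ℂ) (a : X → ℂ) (z : ℂ) : ℂ :=
  a (e.symm z) * deriv (F.ch (e.symm z) ∘ e.symm) z

/-- the form `a` is closed and smooth: it has smooth local primitives -/
def Closed (a : X → ℂ) : Prop :=
  ∀ x, ∃ f : X → ℝ, S.SmoothNear f x ∧ ∀ᶠ y in 𝓝 x, a y = F.d f y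

/-- the form `a` is harmonic (the real part of a holomorphic form) on the set `U` -/
def HolIn (U : Set X) (a : X → ℂ) : Prop :=
  ∀ e ∈ S.charts, DifferentiableOn ℂ (F.co e a) (e.target ∩ e.symm ⁻¹' U)

/-- the form `a` is harmonic -/
def Hol (a : X → ℂ) : Prop := F.HolIn univ a

/-- every piece of the frame is contained in a compact subset of the chart domain -/
def Tame : Prop := ∀ i, ∃ K, IsCompact K ∧ F.P i ⊆ K ∧ K ⊆ (F.e i).source

/-- the form with constant coefficients `x` in the basis `u, v` -/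
noncomputable def lin {g : ℕ} (u v : Fin g → X → UnitAddCircle) (x : Fin g ⊕ Fin g → ℝ)
    (p : X) : ℂ :=
  ∑ j, (x (Sum.inl j) : ℂ) * F.dC (u j) p + ∑ j, (x (Sum.inr j) : ℂ) * F.dC (v j) p

/-- `x` is the class of the form `a` in the basis `u, v` -/
def Cls {g : ℕ} (u v : Fin g → X → UnitAddCircle) (a : X → ℂ) (x : Fin g ⊕ Fin g → ℝ) : Prop :=
  ∃ φ : X → ℝ, S.Smooth φ ∧ ∀ p, a p = F.lin u v x p + F.d φ p

section measure

variable [MeasurableSpace X]

/-- the measure on `X` which is Lebesgue measure on the pieces of the frame -/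
noncomputable def nu : Measure X :=
  ∑ i, ((volume : Measure ℂ).restrict (F.e i '' F.P i)).map (F.e i).symm

/-- the Dirichlet energy of the form `a` on the set `A` -/
noncomputable def en (A : Set X) (a : X → ℂ) : ℝ := ∫ x in A, ‖a x‖ ^ 2 ∂F.nu

/-- the complex product of forms `∫ a conj b = ⟨a, b⟩ + i ∫ a ∧ b` -/
noncomputable def ip (a b : X → ℂ) : ℂ := ∫ x, a x * starRingEnd ℂ (b x) ∂F.nu

/-- the inner product of `a` and `b` -/
noncomputable def rp (a b : X → ℂ) : ℝ := (F.ip a b).re

/-- the integral of `a ∧ b` -/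
noncomputable def wd (a b : X → ℂ) : ℝ := (F.ip a b).im

/-- `a` is in the `L²`-closure of the exact forms -/
def Lim (a : X → ℂ) : Prop :=
  MemLp a 2 F.nu ∧ ∀ ε : ℝ, 0 < ε → ∃ φ : X → ℝ, S.Smooth φ ∧
    F.en univ (fun x => a x - F.d φ x) < ε

end measure

/-- the harmonic form of the class `x` -/
noncomputable def harm {g : ℕ} (u v : Fin g → X → UnitAddCircle) (x : Fin g ⊕ Fin g → ℝ) :
    X → ℂ := Classical.epsilon (fun a => F.Hol a ∧ F.Cls u v a x)

end Frame

end Pool.Agent.Lib.MP_cca10c_ag
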