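import Pool.Agent.Lib.MP_cca10c_ag.H00_Defs

/-!
# Charts of a complex structure (stub H01)

Transition maps, one-chart criteria for smoothness and holomorphy, restriction of charts,
composition with a holomorphic homeomorphism, disc charts.

Hints. For `e e' ∈ S.charts` the set `e '' (e.source ∩ e'.source)` is open
(`e.isOpen_image_of_subset_source`), so `S.compat` gives complex differentiability of the transition
maps at every point of it and (`DifferentiableOn.contDiffOn` / `DifferentiableOn.analyticOnNhd` on an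
open set) they are `ContDiffAt ℂ ∞`, hence `ContDiffAt ℝ ∞` (`ContDiffAt.restrict_scalars`). The two
transition maps are inverse to each other near the points, which gives the statements on the
derivatives by the chain rule. New charts are added by `S.max`.
-/

set_option autoImplicit false

open Topology Set
open scoped ContDiff

namespace Pool.Agent.Lib.MP_cca10c_ag

variable {X : Type} [TopologicalSpace X] {S : CS X}
variable {e e' e'' : OpenPartialHomeomorph X ℂ} {x : X}

private theorem h01_open (e e' : OpenPartialHomeomorph X ℂ) :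
    IsOpen (e '' (e.source ∩ e'.source)) :=
  e.isOpen_image_of_subset_source (e.open_source.inter e'.open_source) inter_subset_left

private theorem h01_mem (hx : x ∈ e.source) (hx' : x ∈ e'.source) :
    e x ∈ e '' (e.source ∩ e'.source) := ⟨x, ⟨hx, hx'⟩, rfl⟩

theorem CS.eventually_trans_differentiableAt (he : e ∈ S.charts) (he' : e' ∈ S.charts)
    (hx : x ∈ e.source) (hx' : x ∈ e'.source) :
    ∀ᶠ z in 𝓝 (e x), DifferentiableAt ℂ (e' ∘ e.symm) z := by
  have h1 := (h01_open e e').mem_nhds (h01_mem hx hx')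
  filter_upwards [h1] with z hz
  exact ((S.compat e he e' he').1 z hz).differentiableAt ((h01_open e e').mem_nhds hz)

theorem CS.trans_differentiableAt (he : e ∈ S.charts) (he' : e' ∈ S.charts)
    (hx : x ∈ e.source) (hx' : x ∈ e'.source) : DifferentiableAt ℂ (e' ∘ e.symm) (e x) :=
  (CS.eventually_trans_differentiableAt he he' hx hx').self_of_nhds

theorem CS.trans_contDiffAt (he : e ∈ S.charts) (he' : e' ∈ S.charts)
    (hx : x ∈ e.source) (hx' : x ∈ e'.source) : ContDiffAt ℝ ∞ (e' ∘ e.symm) (e x) := by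
  have h1 : ContDiffOn ℂ ∞ (e' ∘ e.symm) (e '' (e.source ∩ e'.source)) :=
    ((S.compat e he e' he').1).contDiffOn (h01_open e e')
  exact (h1.contDiffAt ((h01_open e e').mem_nhds (h01_mem hx hx'))).restrict_scalars ℝ

theorem deriv_trans_self (hx : x ∈ e.source) : deriv (e ∘ e.symm) (e x) = 1 := by
  have h1 : (e ∘ e.symm) =ᶠ[𝓝 (e x)] id := by
    filter_upwards [e.open_target.mem_nhds (e.map_source hx)] with z hz
    exact e.right_inv hz
  rw [h1.deriv_eq, deriv_id]

private theorem h01_symm_eventually (hx : x ∈ e.source) (hx' : x ∈ e'.source) :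
    ∀ᶠ z in 𝓝 (e x), e.symm z ∈ e'.source := by
  have h1 : Filter.Tendsto e.symm (𝓝 (e x)) (𝓝 x) := e.tendsto_symm hx
  exact h1.eventually (e'.open_source.mem_nhds hx')

private theorem h01_factor {Y : Type*} (f : X → Y) (hx : x ∈ e.source) (hx' : x ∈ e'.source) :
    (f ∘ e.symm) =ᶠ[𝓝 (e x)] (f ∘ e'.symm) ∘ (e' ∘ e.symm) := by
  filter_upwards [h01_symm_eventually hx hx'] with z hz
  simp only [Function.comp_apply]
  rw [e'.left_inv hz]

private theorem h01_val (hx : x ∈ e.source) : (e' ∘ e.symm) (e x) = e' x := by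
  rw [Function.comp_apply, e.left_inv hx]

theorem CS.deriv_trans_comp (he : e ∈ S.charts) (he' : e' ∈ S.charts) (he'' : e'' ∈ S.charts)
    (hx : x ∈ e.source) (hx' : x ∈ e'.source) (hx'' : x ∈ e''.source) :
    deriv (e'' ∘ e.symm) (e x) = deriv (e'' ∘ e'.symm) (e' x) * deriv (e' ∘ e.symm) (e x) := by
  rw [(h01_factor (e'' : X → ℂ) hx hx').deriv_eq]
  have h1 : DifferentiableAt ℂ (e'' ∘ e'.symm) ((e' ∘ e.symm) (e x)) := by
    rw [h01_val hx]
    exact CS.trans_differentiableAt he' he'' hx' hx''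
  rw [deriv_comp _ h1 (CS.trans_differentiableAt he he' hx hx'), h01_val hx]

theorem CS.deriv_trans_ne_zero (he : e ∈ S.charts) (he' : e' ∈ S.charts)
    (hx : x ∈ e.source) (hx' : x ∈ e'.source) : deriv (e' ∘ e.symm) (e x) ≠ 0 := by
  have h1 := CS.deriv_trans_comp he he' he hx hx' hx
  rw [deriv_trans_self hx] at h1
  intro h2
  rw [h2, mul_zero] at h1
  exact one_ne_zero h1

private theorem h01_smooth {f : X → ℝ} (he : e ∈ S.charts) (he' : e' ∈ S.charts)
    (hx : x ∈ e.source) (hx' : x ∈ e'.source) (h : ContDiffAt ℝ ∞ (f ∘ e'.symm) (e' x)) :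
    ContDiffAt ℝ ∞ (f ∘ e.symm) (e x) := by
  have h1 : ContDiffAt ℝ ∞ (f ∘ e'.symm) ((e' ∘ e.symm) (e x)) := by
    rw [h01_val hx]
    exact h
  exact (h1.comp (e x) (CS.trans_contDiffAt he he' hx hx')).congr_of_eventuallyEq
    (h01_factor f hx hx')

theorem CS.smoothAt_iff {f : X → ℝ} (he : e ∈ S.charts) (hx : x ∈ e.source) :
    S.SmoothAt f x ↔ ContDiffAt ℝ ∞ (f ∘ e.symm) (e x) :=
  ⟨fun h => h e he hx, fun h _ he1 hx1 => h01_smooth he1 he hx1 hx h⟩

private theorem h01_ev (hx : x ∈ e.source) {P : ℂ → Prop} :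
    (∀ᶠ z in 𝓝 (e x), P z) ↔ ∀ᶠ y in 𝓝 x, P (e y) := by
  rw [← e.map_nhds_eq hx, Filter.eventually_map]

theorem CS.smoothNear_iff {f : X → ℝ} (he : e ∈ S.charts) (hx : x ∈ e.source) :
    S.SmoothNear f x ↔ ∀ᶠ z in 𝓝 (e x), ContDiffAt ℝ ∞ (f ∘ e.symm) z := by
  rw [h01_ev hx]
  unfold CS.SmoothNear
  refine Filter.eventually_congr ?_
  filter_upwards [e.open_source.mem_nhds hx] with y hy
  exact CS.smoothAt_iff he hy

theorem CS.holAt_iff {f : X → ℂ} (he : e ∈ S.charts) (hx : x ∈ e.source) :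
    S.HolAt f x ↔ ∀ᶠ z in 𝓝 (e x), DifferentiableAt ℂ (f ∘ e.symm) z := by
  refine ⟨fun h => h e he hx, fun h e1 he1 hx1 => ?_⟩
  rw [h01_ev hx1]
  rw [h01_ev hx] at h
  filter_upwards [h, e.open_source.mem_nhds hx, e1.open_source.mem_nhds hx1] with y h1 hy hy1
  have h2 : DifferentiableAt ℂ (f ∘ e.symm) ((e ∘ e1.symm) (e1 y)) := by
    rw [h01_val hy1]
    exact h1
  exact (h2.comp (e1 y) (CS.trans_differentiableAt he1 he hy1 hy)).congr_of_eventuallyEq
    (h01_factor f hy1 hy)

theorem CS.SmoothAt.continuousAt {f : X → ℝ} (h : S.SmoothAt f x) : ContinuousAt f x := by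
  obtain ⟨e, he, hx⟩ := S.cover x
  have h1 : ContinuousAt (f ∘ e.symm) (e x) := (h e he hx).continuousAt
  have h2 : ContinuousAt ((f ∘ e.symm) ∘ e) x := ContinuousAt.comp h1 (e.continuousAt hx)
  refine h2.congr ?_
  filter_upwards [e.open_source.mem_nhds hx] with y hy
  simp only [Function.comp_apply]
  rw [e.left_inv hy]

/-- the restriction of a chart to an open set is a chart -/
theorem CS.restr_mem (he : e ∈ S.charts) {U : Set X} (hU : IsOpen U) :
    e.restr U ∈ S.charts := by
  refine S.max _ fun e' he' => ?_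
  have hs : (e.restr U).source ⊆ e.source := by
    rw [e.restr_source]
    exact inter_subset_left
  constructor
  · refine ((S.compat e he e' he').1).mono ?_
    rintro _ ⟨y, hy, rfl⟩
    exact ⟨y, ⟨hs hy.1, hy.2⟩, rfl⟩
  · refine ((S.compat e he e' he').2).mono ?_
    rintro _ ⟨y, hy, rfl⟩
    exact ⟨y, ⟨hs hy.1, hy.2⟩, rfl⟩

/-- a chart followed by a biholomorphic map between open subsets of `ℂ` is a chart -/
theorem CS.trans_mem (he : e ∈ S.charts) (ψ : OpenPartialHomeomorph ℂ ℂ)
    (h : DifferentiableOn ℂ ψ ψ.source) (h' : DifferentiableOn ℂ ψ.symm ψ.target) :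
    e.trans ψ ∈ S.charts := by
  refine S.max _ fun e' he' => ?_
  have hsrc : ∀ y, y ∈ (e.trans ψ).source → y ∈ e.source ∧ e y ∈ ψ.source := by
    intro y hy
    rw [OpenPartialHomeomorph.trans_source] at hy
    exact hy
  constructor
  · have h1 : (e' ∘ (e.trans ψ).symm) = (e' ∘ e.symm) ∘ ψ.symm := by
      funext z
      rfl
    rw [h1]
    refine DifferentiableOn.comp ((S.compat e he e' he').1) (h'.mono ?_) ?_
    · rintro _ ⟨y, hy, rfl⟩
      exact ψ.map_source (hsrc y hy.1).2
    · rintro _ ⟨y, hy, rfl⟩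
      refine ⟨y, ⟨(hsrc y hy.1).1, hy.2⟩, ?_⟩
      exact (ψ.left_inv (hsrc y hy.1).2).symm
  · have h1 : ((e.trans ψ) ∘ e'.symm) = ψ ∘ (e ∘ e'.symm) := by
      funext z
      rfl
    rw [h1]
    refine DifferentiableOn.comp h (((S.compat e he e' he').2).mono ?_) ?_
    · rintro _ ⟨y, hy, rfl⟩
      exact ⟨y, ⟨(hsrc y hy.1).1, hy.2⟩, rfl⟩
    · rintro _ ⟨y, hy, rfl⟩
      simp only [Function.comp_apply]
      rw [e'.left_inv hy.2]
      exact (hsrc y hy.1).2

/-- small disc charts of arbitrary radius -/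
theorem CS.exists_disc (S : CS X) (x : X) {U : Set X} (hU : U ∈ 𝓝 x) {R : ℝ} (hR : 0 < R) :
    ∃ e ∈ S.charts, x ∈ e.source ∧ e x = 0 ∧ e.source ⊆ U ∧ e.target = Metric.ball 0 R := by
  obtain ⟨e, he, hx⟩ := S.cover x
  have hO : IsOpen (e '' (e.source ∩ interior U)) :=
    e.isOpen_image_of_subset_source (e.open_source.inter isOpen_interior) inter_subset_left
  have hxO : e x ∈ e '' (e.source ∩ interior U) :=
    ⟨x, ⟨hx, mem_interior_iff_mem_nhds.mpr hU⟩, rfl⟩
  obtain ⟨r, hr, hball⟩ := Metric.isOpen_iff.mp hO (e x) hxO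
  -- the restriction to the preimage of the ball
  have hVo : IsOpen (e.source ∩ e ⁻¹' Metric.ball (e x) r) :=
    e.isOpen_inter_preimage Metric.isOpen_ball
  set V := e.source ∩ e ⁻¹' Metric.ball (e x) r with hV
  have he1 := CS.restr_mem he hVo
  have hs1 : (e.restr V).source = V := by
    rw [e.restr_source, hVo.interior_eq, hV, ← inter_assoc, inter_self]
  have ht : ∀ z, z ∈ Metric.ball (e x) r → z ∈ e.target := by
    intro z hz
    obtain ⟨y, hy, rfl⟩ := hball hz
    exact e.map_source hy.1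
  have ht1 : (e.restr V).target = Metric.ball (e x) r := by
    rw [← (e.restr V).image_source_eq_target, hs1]
    ext z
    constructor
    · rintro ⟨y, hy, rfl⟩
      exact hy.2
    · intro hz
      refine ⟨e.symm z, ⟨e.map_target (ht z hz), ?_⟩, e.right_inv (ht z hz)⟩
      rw [mem_preimage, e.right_inv (ht z hz)]
      exact hz
  -- the affine map
  have hc : ((R / r : ℝ) : ℂ) ≠ 0 := by
    have : R / r ≠ 0 := (div_pos hR hr).ne'
    exact_mod_cast this
  set h : ℂ ≃ₜ ℂ := (Homeomorph.addRight (-(e x))).trans (Homeomorph.mulLeft₀ _ hc) with hh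
  have hval : ∀ z, h z = ((R / r : ℝ) : ℂ) * (z - e x) := by
    intro z
    rw [hh, sub_eq_add_neg]
    rfl
  have hd : Differentiable ℂ h := by
    have : (h : ℂ → ℂ) = fun z => ((R / r : ℝ) : ℂ) * (z - e x) := funext hval
    rw [this]
    fun_prop
  have hsymm : ∀ z, h.symm z = z / ((R / r : ℝ) : ℂ) + e x := by
    intro z
    rw [Homeomorph.symm_apply_eq, hval, add_sub_cancel_right, mul_div_cancel₀ _ hc]
  have hd' : Differentiable ℂ h.symm := by
    have : (h.symm : ℂ → ℂ) = fun z => z / ((R / r : ℝ) : ℂ) + e x := funext hsymm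
    rw [this]
    fun_prop
  refine ⟨(e.restr V).trans h.toOpenPartialHomeomorph, CS.trans_mem he1 _ hd.differentiableOn
    hd'.differentiableOn, ?_, ?_, ?_, ?_⟩
  · rw [OpenPartialHomeomorph.trans_source, hs1]
    refine ⟨⟨hx, ?_⟩, mem_univ _⟩
    exact Metric.mem_ball_self hr
  · change h (e x) = 0
    rw [hval, sub_self, mul_zero]
  · rw [OpenPartialHomeomorph.trans_source, hs1]
    rintro y ⟨hy, _⟩
    obtain ⟨y', hy', hyy⟩ := hball hy.2
    have : y' = y := e.injOn hy'.1 hy.1 hyy
    rw [← this]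
    exact interior_subset hy'.2
  · rw [OpenPartialHomeomorph.trans_target, ht1]
    ext z
    constructor
    · rintro ⟨_, hz⟩
      have h1 : h.symm z ∈ Metric.ball (e x) r := hz
      rw [hsymm, Metric.mem_ball, dist_eq_norm, add_sub_cancel_right, norm_div,
        Complex.norm_real, Real.norm_of_nonneg (div_pos hR hr).le, div_lt_iff₀ (div_pos hR hr)] at h1
      rw [Metric.mem_ball, dist_zero_right]
      calc ‖z‖ < r * (R / r) := h1
        _ = R := by field_simp
    · intro hz
      rw [Metric.mem_ball, dist_zero_right] at hz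
      refine ⟨mem_univ _, ?_⟩
      change h.symm z ∈ Metric.ball (e x) r
      rw [hsymm, Metric.mem_ball, dist_eq_norm, add_sub_cancel_right, norm_div,
        Complex.norm_real, Real.norm_of_nonneg (div_pos hR hr).le, div_lt_iff₀ (div_pos hR hr)]
      calc ‖z‖ < R := hz
        _ = r * (R / r) := by field_simp

end Pool.Agent.Lib.MP_cca10c_ag
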