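import Mathlib

/-!
# Injective holomorphic functions (stub H02, no dependency)

Hint. If `deriv f z₀ = 0` and `f` is not constant near `z₀` then
`f z - f z₀ = (z - z₀) ^ k * g z` near `z₀` with `k ≥ 2` and `g z₀ ≠ 0`
(`AnalyticAt.exists_eventuallyEq_pow_smul_nonzero_iff`); `g = h ^ k` near `z₀` with `h` holomorphic
(`h = exp (log (g z / g z₀) / k) * c`), the function `w z = (z - z₀) * h z` has derivative
`h z₀ ≠ 0` at `z₀`, so it is a local homeomorphism near `z₀` (`HasStrictDerivAt.toOpenPartialHomeomorph`)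
and `f z - f z₀ = (w z) ^ k` takes the same value at `w⁻¹ ε` and `w⁻¹ (ζ ε)`, `ζ = exp (2 π i / k)`.
The inverse map is continuous because `f` is open (`AnalyticOnNhd.eqOn_or_eventually...`,
`AnalyticOnNhd.is_constant_or_isOpen`, or directly from the inverse function theorem once the
derivative is known to be non-zero), and holomorphic by `HasDerivAt.of_local_left_inverse` /
`OpenPartialHomeomorph.hasDerivAt_symm`.
-/

set_option autoImplicit false

open Topology Set

namespace Pool.Agent.Lib.MP_cca10c_ag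

/-- an injective holomorphic function has non-zero derivative -/
theorem deriv_ne_zero_of_injOn {f : ℂ → ℂ} {U : Set ℂ} (hU : IsOpen U)
    (hf : DifferentiableOn ℂ f U) (hi : InjOn f U) {z : ℂ} (hz : z ∈ U) : deriv f z ≠ 0 := by
  have hd := hf
  intro hder
  have hUn : U ∈ 𝓝 z := hU.mem_nhds hz
  have han : AnalyticAt ℂ f z := hd.analyticAt hUn
  have han2 : AnalyticAt ℂ (fun w => f w - f z) z := han.sub analyticAt_const
  -- the function is not locally constant
  have hnc : ¬ ∀ᶠ w in 𝓝 z, f w - f z = 0 := by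
    intro hc
    have h1 : ∀ᶠ w in 𝓝[≠] z, f w - f z = 0 ∧ w ∈ U :=
      (hc.and hUn).filter_mono nhdsWithin_le_nhds
    obtain ⟨w, ⟨hw1, hw2⟩, hw3⟩ := (h1.and self_mem_nhdsWithin).exists
    exact hw3 (hi hw2 hz (sub_eq_zero.mp hw1))
  obtain ⟨n, g, hg, hg0, hfg⟩ := han2.exists_eventuallyEq_pow_smul_nonzero_iff.mpr hnc
  simp only [smul_eq_mul] at hfg
  have hn0 : n ≠ 0 := by
    rintro rfl
    have := hfg.self_of_nhds
    simp only [sub_self, pow_zero, one_mul] at this
    exact hg0 this.symm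
  have hn1 : n ≠ 1 := by
    rintro rfl
    have h1 : HasDerivAt (fun w => (w - z) * g w) (1 * g z + (z - z) * deriv g z) z :=
      ((hasDerivAt_id z).sub_const z).mul hg.differentiableAt.hasDerivAt
    have h2 : deriv (fun w => f w - f z) z = 0 := by
      rw [deriv_sub_const, hder]
    have h3 : (fun w => f w - f z) =ᶠ[𝓝 z] fun w => (w - z) * g w := by
      filter_upwards [hfg] with w hw
      rw [hw, pow_one]
    rw [h3.deriv_eq, h1.deriv] at h2
    apply hg0
    simpa using h2
  have hn2 : 2 ≤ n := by omega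
  have hnC : (n : ℂ) ≠ 0 := by exact_mod_cast hn0
  -- local n-th root of `g`
  set h : ℂ → ℂ := fun w => Complex.exp ((Complex.log (g w / g z) + Complex.log (g z)) / n)
    with hh
  have hhn : ∀ w, g w ≠ 0 → h w ^ n = g w := by
    intro w hw
    rw [hh]
    simp only
    rw [← Complex.exp_nat_mul, mul_div_cancel₀ _ hnC, Complex.exp_add,
      Complex.exp_log (div_ne_zero hw hg0), Complex.exp_log hg0, div_mul_cancel₀ _ hg0]
  have hhan : AnalyticAt ℂ h z := by
    have h1 : AnalyticAt ℂ (fun w => g w / g z) z := hg.div_const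
    have h2 : g z / g z ∈ Complex.slitPlane := by
      rw [div_self hg0]
      exact Complex.one_mem_slitPlane
    have h3 : AnalyticAt ℂ (fun w => Complex.log (g w / g z)) z := h1.clog h2
    exact ((h3.add analyticAt_const).div_const).cexp
  set ψ : ℂ → ℂ := fun w => (w - z) * h w with hψ
  have hψd : HasStrictDerivAt ψ (h z) z := by
    have h1 : HasStrictDerivAt (fun w : ℂ => w - z) 1 z := (hasStrictDerivAt_id z).sub_const z
    have h2 : HasStrictDerivAt ψ (1 * h z + (z - z) * deriv h z) z :=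
      h1.mul hhan.hasStrictDerivAt
    have e : 1 * h z + (z - z) * deriv h z = h z := by ring
    rwa [e] at h2
  have hhz : h z ≠ 0 := Complex.exp_ne_zero _
  have hmap := hψd.map_nhds_eq hhz
  have hψz : ψ z = 0 := by rw [hψ]; simp
  rw [hψz] at hmap
  -- a neighbourhood where everything holds
  have hev : ∀ᶠ w in 𝓝 z, w ∈ U ∧ f w - f z = ψ w ^ n := by
    filter_upwards [hUn, hfg, hg.continuousAt.eventually_ne hg0] with w h1 h2 h3
    refine ⟨h1, ?_⟩
    rw [h2, hψ]
    simp only
    rw [mul_pow, hhn w h3]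
  have himg : ψ '' {w | w ∈ U ∧ f w - f z = ψ w ^ n} ∈ 𝓝 (0 : ℂ) := by
    rw [← hmap]
    exact Filter.image_mem_map hev
  obtain ⟨r, hr, hball⟩ := Metric.mem_nhds_iff.mp himg
  -- a primitive root of unity
  set ω : ℂ := Complex.exp (2 * Real.pi * Complex.I / n) with hω
  have hprim : IsPrimitiveRoot ω n := Complex.isPrimitiveRoot_exp n hn0
  have hω1 : ω ≠ 1 := hprim.ne_one (by omega)
  have hωn : ω ^ n = 1 := hprim.pow_eq_one
  have hωnorm : ‖ω‖ = 1 := hprim.norm'_eq_one hn0
  set ε : ℂ := ((r / 2 : ℝ) : ℂ) with hε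
  have hεnorm : ‖ε‖ = r / 2 := by
    rw [hε, Complex.norm_real, Real.norm_of_nonneg (by linarith)]
  have hε0 : ε ≠ 0 := by
    rw [← norm_pos_iff, hεnorm]
    linarith
  obtain ⟨w1, ⟨hw1U, hw1⟩, hw1e⟩ := hball (show ε ∈ Metric.ball (0 : ℂ) r by
    rw [mem_ball_zero_iff, hεnorm]; linarith)
  obtain ⟨w2, ⟨hw2U, hw2⟩, hw2e⟩ := hball (show ε * ω ∈ Metric.ball (0 : ℂ) r by
    rw [mem_ball_zero_iff, norm_mul, hωnorm, mul_one, hεnorm]; linarith)
  have h1 : f w1 = f w2 := by
    have e1 : f w1 - f z = ε ^ n := by rw [hw1, hw1e]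
    have e2 : f w2 - f z = ε ^ n := by rw [hw2, hw2e, mul_pow, hωn, mul_one]
    have := e1.trans e2.symm
    exact sub_left_injective this
  have h2 := hi hw1U hw2U h1
  rw [h2, hw2e] at hw1e
  have h3 : ε * (ω - 1) = 0 := by
    rw [mul_sub, hw1e, mul_one, sub_self]
  rcases mul_eq_zero.mp h3 with h4 | h4
  · exact hε0 h4
  · exact hω1 (sub_eq_zero.mp h4)

/-- an injective holomorphic function is a homeomorphism onto an open set, with holomorphic
inverse -/
theorem exists_homeo_of_injOn {f : ℂ → ℂ} {U : Set ℂ} (hU : IsOpen U)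
    (hf : DifferentiableOn ℂ f U) (hi : InjOn f U) :
    ∃ ψ : OpenPartialHomeomorph ℂ ℂ, ψ.source = U ∧ ψ.target = f '' U ∧ (∀ z, ψ z = f z) ∧
      DifferentiableOn ℂ ψ.symm ψ.target := by
  have hst : ∀ z ∈ U, HasStrictDerivAt f (deriv f z) z := fun z hz =>
    (hf.analyticAt (hU.mem_nhds hz)).hasStrictDerivAt
  have hmap : ∀ z ∈ U, Filter.map f (𝓝 z) = 𝓝 (f z) := fun z hz =>
    (hst z hz).map_nhds_eq (deriv_ne_zero_of_injOn hU hf hi hz)
  have ho : IsOpenMap (U.domRestrict f) := by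
    rw [isOpenMap_iff_nhds_le]
    intro x
    have h1 : U.domRestrict f = f ∘ (Subtype.val : U → ℂ) := rfl
    rw [h1, ← Filter.map_map, map_nhds_subtype_coe_eq_nhds x.2 (hU.mem_nhds x.2)]
    exact (hmap x.1 x.2).ge
  set e : PartialEquiv ℂ ℂ := hi.toPartialEquiv f U with he
  set ψ : OpenPartialHomeomorph ℂ ℂ :=
    OpenPartialHomeomorph.ofContinuousOpenRestrict e hf.continuousOn ho hU with hψ
  refine ⟨ψ, rfl, rfl, fun z => rfl, fun w hw => ?_⟩
  have h2 : ψ.symm w ∈ U := ψ.map_target hw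
  exact (ψ.hasDerivAt_symm hw (deriv_ne_zero_of_injOn hU hf hi h2)
    (hst _ h2).hasDerivAt).differentiableAt.differentiableWithinAt

end Pool.Agent.Lib.MP_cca10c_ag
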