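import Pool.Agent.Lib.MP_cca10c_ag.H01_Charts
import Pool.Agent.Lib.MP_cca10c_ag.H02_Inj

/-!
# Holomorphic maps from plane domains to a Riemann surface, and charts (stub H03)
-/

set_option autoImplicit false

open Topology Set
open scoped ContDiff

namespace Pool.Agent.Lib.MP_cca10c_ag

variable {X : Type} [TopologicalSpace X]

variable {S : CS X}

private theorem H03_isOpen_pre {φ : ℂ → X} {U : Set ℂ} (hU : IsOpen U) (h : S.HolOn φ U)
    (e : OpenPartialHomeomorph X ℂ) : IsOpen (U ∩ φ ⁻¹' e.source) :=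
  h.1.isOpen_inter_preimage hU e.open_source

private theorem H03_isOpen_image (e e' : OpenPartialHomeomorph X ℂ) :
    IsOpen (e' '' (e.source ∩ e'.source)) :=
  e'.isOpen_image_of_subset_source (e.open_source.inter e'.open_source) inter_subset_right

/-- it is enough to check holomorphy of the chart map near every point, in one chart -/
theorem CS.mem_of_hol (e : OpenPartialHomeomorph X ℂ)
    (h : ∀ x ∈ e.source, S.HolAt e x) : e ∈ S.charts := by
  apply S.max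
  intro e' he'
  have h2 : DifferentiableOn ℂ (e ∘ e'.symm) (e' '' (e.source ∩ e'.source)) := by
    rintro z ⟨x, ⟨hx, hx'⟩, rfl⟩
    exact ((h x hx e' he' hx').self_of_nhds).differentiableWithinAt
  have hi : InjOn (e ∘ e'.symm) (e' '' (e.source ∩ e'.source)) := by
    rintro z ⟨x, ⟨hx, hx'⟩, rfl⟩ w ⟨y, ⟨hy, hy'⟩, rfl⟩ hzw
    simp only [Function.comp_apply, e'.left_inv hx', e'.left_inv hy'] at hzw
    rw [e.injOn hx hy hzw]
  obtain ⟨ψ, h3, h4, h5, h6⟩ := exists_homeo_of_injOn (H03_isOpen_image e e') h2 hi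
  refine ⟨?_, h2⟩
  have h7 : ∀ x ∈ e.source ∩ e'.source, ψ.symm (e x) = e' x ∧ e x ∈ ψ.target := by
    rintro x ⟨hx, hx'⟩
    have hm : e' x ∈ ψ.source := by
      rw [h3]
      exact ⟨x, ⟨hx, hx'⟩, rfl⟩
    have h8 : ψ (e' x) = e x := by
      rw [h5, Function.comp_apply, e'.left_inv hx']
    constructor
    · rw [← h8, ψ.left_inv hm]
    · rw [← h8]
      exact ψ.map_source hm
  rintro z ⟨x, hx, rfl⟩
  have h8 := (h6 (e x) (h7 x hx).2).differentiableAt (ψ.open_target.mem_nhds (h7 x hx).2)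
  have h9 : e' ∘ e.symm =ᶠ[𝓝 (e x)] ψ.symm := by
    have ho : IsOpen (e '' (e.source ∩ e'.source)) :=
      e.isOpen_image_of_subset_source (e.open_source.inter e'.open_source) inter_subset_left
    filter_upwards [ho.mem_nhds ⟨x, hx, rfl⟩] with w hw
    obtain ⟨y, hy, rfl⟩ := hw
    rw [Function.comp_apply, e.left_inv hy.1, (h7 y hy).1]
  exact (h8.congr_of_eventuallyEq h9).differentiableWithinAt

theorem CS.holOn_symm {e : OpenPartialHomeomorph X ℂ} (he : e ∈ S.charts) :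
    S.HolOn e.symm e.target := by
  refine ⟨e.continuousOn_symm, fun e' he' => ?_⟩
  refine (S.compat e he e' he').1.mono ?_
  rintro z ⟨hz, hz'⟩
  exact ⟨e.symm z, ⟨e.map_target hz, hz'⟩, e.right_inv hz⟩

theorem CS.HolOn.mono {φ : ℂ → X} {U V : Set ℂ} (h : S.HolOn φ U) (hV : V ⊆ U) :
    S.HolOn φ V :=
  ⟨h.1.mono hV, fun e he => (h.2 e he).mono (inter_subset_inter_left _ hV)⟩

theorem CS.HolOn.congr {φ ψ : ℂ → X} {U : Set ℂ} (h : S.HolOn φ U) (hφ : EqOn ψ φ U) :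
    S.HolOn ψ U := by
  refine ⟨h.1.congr hφ, fun e he => ?_⟩
  have h1 : U ∩ ψ ⁻¹' e.source ⊆ U ∩ φ ⁻¹' e.source := by
    rintro z ⟨hz, hz'⟩
    refine ⟨hz, ?_⟩
    rw [mem_preimage, ← hφ hz]
    exact hz'
  refine ((h.2 e he).mono h1).congr ?_
  rintro z ⟨hz, -⟩
  rw [Function.comp_apply, Function.comp_apply, hφ hz]

/-- holomorphic after composition with a holomorphic map -/
theorem CS.HolOn.comp {φ : ℂ → X} {U V : Set ℂ} (h : S.HolOn φ U) {f : ℂ → ℂ}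
    (hV : IsOpen V) (hU : IsOpen U) (hf : DifferentiableOn ℂ f V) (hm : MapsTo f V U) :
    S.HolOn (φ ∘ f) V := by
  refine ⟨h.1.comp hf.continuousOn hm, fun e he => ?_⟩
  have h1 : MapsTo f (V ∩ (φ ∘ f) ⁻¹' e.source) (U ∩ φ ⁻¹' e.source) := by
    rintro z ⟨hz, hz'⟩
    exact ⟨hm hz, hz'⟩
  exact (h.2 e he).comp (hf.mono inter_subset_left) h1

/-- holomorphy is local -/
theorem CS.holOn_of_local {φ : ℂ → X} {U : Set ℂ} (hU : IsOpen U)
    (h : ∀ z ∈ U, ContinuousAt φ z ∧ ∃ e ∈ S.charts, φ z ∈ e.source ∧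
      ∀ᶠ w in 𝓝 z, DifferentiableAt ℂ (e ∘ φ) w) : S.HolOn φ U := by
  refine ⟨fun z hz => (h z hz).1.continuousWithinAt, fun e' he' => ?_⟩
  rintro z ⟨hz, hz'⟩
  obtain ⟨hc, e, he, hze, hd⟩ := h z hz
  have h1 : DifferentiableAt ℂ (e' ∘ e.symm) ((e ∘ φ) z) :=
    CS.trans_differentiableAt he he' hze hz'
  have h2 : DifferentiableAt ℂ ((e' ∘ e.symm) ∘ (e ∘ φ)) z := h1.comp z hd.self_of_nhds
  have h3 : e' ∘ φ =ᶠ[𝓝 z] (e' ∘ e.symm) ∘ (e ∘ φ) := by
    filter_upwards [hc (e.open_source.mem_nhds hze)] with w hw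
    have hw' : φ w ∈ e.source := hw
    simp only [Function.comp_apply, e.left_inv hw']
  exact (h2.congr_of_eventuallyEq h3).differentiableWithinAt

/-- the inverse of `e ∘ φ` -/
private theorem H03_exists_inv {φ : ℂ → X} {U : Set ℂ} (hU : IsOpen U) (h : S.HolOn φ U)
    (hi : InjOn φ U) {e : OpenPartialHomeomorph X ℂ} (he : e ∈ S.charts) :
    ∃ ψ : OpenPartialHomeomorph ℂ ℂ, ψ.source = U ∩ φ ⁻¹' e.source ∧
      (∀ z, ψ z = e (φ z)) ∧ DifferentiableOn ℂ ψ.symm ψ.target := by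
  have hi2 : InjOn (e ∘ φ) (U ∩ φ ⁻¹' e.source) := by
    rintro z ⟨hz, hz'⟩ w ⟨hw, hw'⟩ hzw
    exact hi hz hw (e.injOn hz' hw' hzw)
  obtain ⟨ψ, h3, -, h5, h6⟩ := exists_homeo_of_injOn (H03_isOpen_pre hU h e) (h.2 e he) hi2
  exact ⟨ψ, h3, h5, h6⟩

private theorem H03_open_image {φ : ℂ → X} {U : Set ℂ} (hU : IsOpen U) (h : S.HolOn φ U)
    (hi : InjOn φ U) {W : Set ℂ} (hW : IsOpen W) (hWU : W ⊆ U) : IsOpen (φ '' W) := by
  rw [isOpen_iff_mem_nhds]
  rintro x ⟨z, hz, rfl⟩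
  obtain ⟨e, he, hze⟩ := S.cover (φ z)
  obtain ⟨ψ, h3, h5, -⟩ := H03_exists_inv hU h hi he
  have hWo : IsOpen (W ∩ ψ.source) := hW.inter ψ.open_source
  have hzs : z ∈ ψ.source := by
    rw [h3]
    exact ⟨hWU hz, hze⟩
  have h6 : IsOpen (ψ '' (W ∩ ψ.source)) :=
    ψ.isOpen_image_of_subset_source hWo inter_subset_right
  have h7 : ψ '' (W ∩ ψ.source) ⊆ e.target := by
    rintro y ⟨w, ⟨-, hw⟩, rfl⟩
    rw [h3] at hw
    rw [h5]
    exact e.map_source hw.2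
  have h8 : IsOpen (e.symm '' (ψ '' (W ∩ ψ.source))) :=
    e.symm.isOpen_image_of_subset_source h6 h7
  refine Filter.mem_of_superset (h8.mem_nhds ?_) ?_
  · refine ⟨ψ z, ⟨z, ⟨hz, hzs⟩, rfl⟩, ?_⟩
    rw [h5, e.left_inv hze]
  · rintro y ⟨w', ⟨w, ⟨hw, hw2⟩, rfl⟩, rfl⟩
    refine ⟨w, hw, ?_⟩
    rw [h3] at hw2
    have hw3 : φ w ∈ e.source := hw2.2
    rw [h5, e.left_inv hw3]

/-- an injective holomorphic map from a plane domain to `X` is the inverse of a chart -/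
theorem CS.HolOn.exists_chart {φ : ℂ → X} {U : Set ℂ} (hU : IsOpen U) (h : S.HolOn φ U)
    (hi : InjOn φ U) : ∃ e ∈ S.charts, e.target = U ∧ e.source = φ '' U ∧ ∀ z, e.symm z = φ z := by
  have hopen : IsOpenMap (U.restrict φ) := by
    intro W hW
    obtain ⟨W', hW', rfl⟩ := isOpen_induced_iff.1 hW
    have h1 : U.restrict φ '' (Subtype.val ⁻¹' W') = φ '' (W' ∩ U) := by
      ext y
      constructor
      · rintro ⟨⟨w, hw⟩, hw', rfl⟩
        exact ⟨w, ⟨hw', hw⟩, rfl⟩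
      · rintro ⟨w, ⟨hw', hw⟩, rfl⟩
        exact ⟨⟨w, hw⟩, hw', rfl⟩
    rw [h1]
    exact H03_open_image hU h hi (hW'.inter hU) inter_subset_right
  let E : OpenPartialHomeomorph ℂ X :=
    OpenPartialHomeomorph.ofContinuousOpenRestrict (hi.toPartialEquiv φ U) h.1 hopen hU
  have hE : ∀ z, E z = φ z := fun z => rfl
  have hEs : E.source = U := rfl
  have hEt : E.target = φ '' U := rfl
  refine ⟨E.symm, ?_, rfl, rfl, fun z => rfl⟩
  apply CS.mem_of_hol
  intro x hx e' he' hx'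
  obtain ⟨ψ, h3, h5, h6⟩ := H03_exists_inv hU h hi he'
  obtain ⟨z, hz, rfl⟩ : x ∈ φ '' U := hx
  have hzs : z ∈ ψ.source := by
    rw [h3]
    exact ⟨hz, hx'⟩
  have hmem : e' (φ z) ∈ ψ.target := by
    rw [← h5]
    exact ψ.map_source hzs
  have heq : ∀ w ∈ ψ.target, (E.symm ∘ e'.symm) w = ψ.symm w := by
    intro w hw
    have h7 : ψ.symm w ∈ ψ.source := ψ.map_target hw
    have h7' := h7
    rw [h3] at h7'
    have h8 : e' (φ (ψ.symm w)) = w := by
      rw [← h5, ψ.right_inv hw]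
    have h9 : e'.symm w = φ (ψ.symm w) := by
      have h10 : φ (ψ.symm w) ∈ e'.source := h7'.2
      rw [← e'.left_inv h10, h8]
    rw [Function.comp_apply, h9, ← hE, E.left_inv (x := ψ.symm w) (by rw [hEs]; exact h7'.1)]
  filter_upwards [ψ.open_target.mem_nhds hmem] with w hw
  have h11 : DifferentiableAt ℂ ψ.symm w :=
    (h6 w hw).differentiableAt (ψ.open_target.mem_nhds hw)
  refine h11.congr_of_eventuallyEq ?_
  filter_upwards [ψ.open_target.mem_nhds hw] with v hv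
  exact heq v hv

private theorem H03_comp {φ : ℂ → X} {U : Set ℂ} (hU : IsOpen U) (h : S.HolOn φ U) {z : ℂ}
    (hz : z ∈ U) {e : OpenPartialHomeomorph X ℂ} (he : e ∈ S.charts) (hze : φ z ∈ e.source) :
    (∀ᶠ w in 𝓝 z, DifferentiableAt ℂ (e ∘ φ) w) ∧ ∀ᶠ w in 𝓝 z, φ w ∈ e.source := by
  have h1 := H03_isOpen_pre hU h e
  have h2 : z ∈ U ∩ φ ⁻¹' e.source := ⟨hz, hze⟩
  constructor
  · filter_upwards [h1.mem_nhds h2] with w hw
    exact (h.2 e he w hw).differentiableAt (h1.mem_nhds hw)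
  · filter_upwards [h1.mem_nhds h2] with w hw
    exact hw.2

/-- `f ∘ φ` is holomorphic if `f` is holomorphic near the points of the image -/
theorem CS.HolOn.comp_hol {φ : ℂ → X} {U : Set ℂ} (hU : IsOpen U) (h : S.HolOn φ U)
    {f : X → ℂ} (hf : ∀ z ∈ U, S.HolAt f (φ z)) : DifferentiableOn ℂ (f ∘ φ) U := by
  intro z hz
  obtain ⟨e, he, hze⟩ := S.cover (φ z)
  obtain ⟨h1, h2⟩ := H03_comp hU h hz he hze
  have h3 : DifferentiableAt ℂ (f ∘ e.symm) ((e ∘ φ) z) := (hf z hz e he hze).self_of_nhds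
  have h4 := h3.comp z h1.self_of_nhds
  refine (h4.congr_of_eventuallyEq ?_).differentiableWithinAt
  filter_upwards [h2] with w hw
  simp only [Function.comp_apply, e.left_inv hw]

/-- `f ∘ φ` is smooth if `f` is smooth at the points of the image -/
theorem CS.HolOn.comp_smooth {φ : ℂ → X} {U : Set ℂ} (hU : IsOpen U) (h : S.HolOn φ U)
    {f : X → ℝ} (hf : ∀ z ∈ U, S.SmoothAt f (φ z)) {z : ℂ} (hz : z ∈ U) :
    ContDiffAt ℝ ∞ (f ∘ φ) z := by
  obtain ⟨e, he, hze⟩ := S.cover (φ z)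
  obtain ⟨h1, h2⟩ := H03_comp hU h hz he hze
  have h3 : ContDiffAt ℝ ∞ (f ∘ e.symm) ((e ∘ φ) z) := hf z hz e he hze
  have h4 : AnalyticAt ℂ (e ∘ φ) z := by
    rw [Complex.analyticAt_iff_eventually_differentiableAt]
    exact h1
  have h5 : ContDiffAt ℝ ∞ (e ∘ φ) z := h4.contDiffAt.restrict_scalars ℝ
  have h6 := h3.comp z h5
  refine h6.congr_of_eventuallyEq ?_
  filter_upwards [h2] with w hw
  simp only [Function.comp_apply, e.left_inv hw]

end Pool.Agent.Lib.MP_cca10c_ag
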