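import Pool.Agent.Lib.MP_cca10c_ag.H01_Charts

/-!
# Smooth functions and smooth maps to the circle (stub H04)

Algebra of smooth germs, lifts of circle maps. Everything reduces to one chart by `CS.smoothAt_iff`.
-/

set_option autoImplicit false

open Topology Set
open scoped ContDiff

namespace Pool.Agent.Lib.MP_cca10c_ag

variable {X : Type} [TopologicalSpace X] {S : CS X} {x : X} {f h : X → ℝ}
variable {u w : X → UnitAddCircle}

theorem CS.SmoothAt.congr (hf : S.SmoothAt f x) (hh : h =ᶠ[𝓝 x] f) : S.SmoothAt h x := by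
  intro e he hx
  have h1 := hf e he hx
  refine h1.congr_of_eventuallyEq ?_
  have h2 : Filter.Tendsto e.symm (𝓝 (e x)) (𝓝 x) := by
    have := e.continuousAt_symm (e.map_source hx)
    rwa [ContinuousAt, e.left_inv hx] at this
  filter_upwards [h2.eventually hh] with z hz
  exact hz

theorem CS.SmoothAt.const (c : ℝ) : S.SmoothAt (fun _ => c) x := by
  intro e _ _
  exact contDiffAt_const

theorem CS.SmoothAt.add (hf : S.SmoothAt f x) (hh : S.SmoothAt h x) :
    S.SmoothAt (fun y => f y + h y) x := by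
  intro e he hx
  exact (hf e he hx).add (hh e he hx)

theorem CS.SmoothAt.sub (hf : S.SmoothAt f x) (hh : S.SmoothAt h x) :
    S.SmoothAt (fun y => f y - h y) x := by
  intro e he hx
  exact (hf e he hx).sub (hh e he hx)

theorem CS.SmoothAt.mul (hf : S.SmoothAt f x) (hh : S.SmoothAt h x) :
    S.SmoothAt (fun y => f y * h y) x := by
  intro e he hx
  exact (hf e he hx).mul (hh e he hx)

theorem CS.SmoothAt.const_mul (c : ℝ) (hf : S.SmoothAt f x) :
    S.SmoothAt (fun y => c * f y) x := by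
  intro e he hx
  exact contDiffAt_const.mul (hf e he hx)

theorem CS.SmoothAt.sum {ι : Type} {s : Finset ι} {F : ι → X → ℝ}
    (hF : ∀ i ∈ s, S.SmoothAt (F i) x) : S.SmoothAt (fun y => ∑ i ∈ s, F i y) x := by
  intro e he hx
  exact ContDiffAt.sum (f := fun i z => F i (e.symm z)) (fun i hi => hF i hi e he hx)

theorem CS.SmoothAt.comp {k : ℝ → ℝ} (hk : ContDiffAt ℝ ∞ k (f x)) (hf : S.SmoothAt f x) :
    S.SmoothAt (fun y => k (f y)) x := by
  intro e he hx
  have h1 := hf e he hx
  have h2 : ContDiffAt ℝ ∞ k ((f ∘ e.symm) (e x)) := by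
    rw [Function.comp_apply, e.left_inv hx]
    exact hk
  exact h2.comp (e x) h1

/-- a function of the chart -/
theorem CS.SmoothAt.of_chart {e : OpenPartialHomeomorph X ℂ} (he : e ∈ S.charts)
    (hx : x ∈ e.source) {k : ℂ → ℝ} (hk : ContDiffAt ℝ ∞ k (e x)) :
    S.SmoothAt (fun y => k (e y)) x := by
  rw [CS.smoothAt_iff he hx]
  refine hk.congr_of_eventuallyEq ?_
  filter_upwards [e.open_target.mem_nhds (e.map_source hx)] with z hz
  simp only [Function.comp_apply, e.right_inv hz]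

private theorem contDiffAt_real_of_hol {k : ℂ → ℂ} {z : ℂ}
    (hk : ∀ᶠ w in 𝓝 z, DifferentiableAt ℂ k w) : ContDiffAt ℝ ∞ k z := by
  have h1 : AnalyticAt ℂ k z := by
    rw [Complex.analyticAt_iff_eventually_differentiableAt]
    exact hk
  exact h1.contDiffAt.restrict_scalars ℝ

/-- real and imaginary parts of holomorphic functions are smooth -/
theorem CS.HolAt.smoothAt_re {k : X → ℂ} (hk : S.HolAt k x) :
    S.SmoothAt (fun y => (k y).re) x := by
  intro e he hx
  exact Complex.reCLM.contDiff.contDiffAt.comp (e x) (contDiffAt_real_of_hol (hk e he hx))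

theorem CS.HolAt.smoothAt_im {k : X → ℂ} (hk : S.HolAt k x) :
    S.SmoothAt (fun y => (k y).im) x := by
  intro e he hx
  exact Complex.imCLM.contDiff.contDiffAt.comp (e x) (contDiffAt_real_of_hol (hk e he hx))

theorem CS.SmoothNear.smoothAt (hf : S.SmoothNear f x) : S.SmoothAt f x :=
  hf.self_of_nhds

theorem CS.Smooth.smoothNear (hf : S.Smooth f) : S.SmoothNear f x :=
  Filter.Eventually.of_forall hf

theorem CS.Smooth.continuous (hf : S.Smooth f) : Continuous f :=
  continuous_iff_continuousAt.2 fun x => (hf x).continuousAt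

/-! ### lifts -/

theorem LiftAt.add {k l : X → ℝ} (hk : LiftAt u k x) (hl : LiftAt w l x) :
    LiftAt (fun y => u y + w y) (fun y => k y + l y) x := by
  refine ⟨hk.1.add hl.1, ?_⟩
  filter_upwards [hk.2, hl.2] with y h1 h2
  rw [h1, h2, AddCircle.coe_add]

theorem LiftAt.neg {k : X → ℝ} (hk : LiftAt u k x) :
    LiftAt (fun y => - u y) (fun y => - k y) x := by
  refine ⟨hk.1.neg, ?_⟩
  filter_upwards [hk.2] with y h1
  rw [h1, AddCircle.coe_neg]

theorem LiftAt.zsmul {k : X → ℝ} (hk : LiftAt u k x) (n : ℤ) :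
    LiftAt (fun y => n • u y) (fun y => n * k y) x := by
  refine ⟨continuousAt_const.mul hk.1, ?_⟩
  filter_upwards [hk.2] with y h1
  rw [h1, ← zsmul_eq_mul, AddCircle.coe_zsmul]

theorem LiftAt.coe {k : X → ℝ} (hk : ContinuousAt k x) :
    LiftAt (fun y => (k y : UnitAddCircle)) k x :=
  ⟨hk, Filter.Eventually.of_forall fun _ => rfl⟩

/-- two lifts differ by an integer -/
theorem LiftAt.unique {k l : X → ℝ} (hk : LiftAt u k x) (hl : LiftAt u l x) :
    ∃ n : ℤ, ∀ᶠ y in 𝓝 x, l y = k y + n := by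
  have hint : ∀ᶠ y in 𝓝 x, ∃ n : ℤ, l y = k y + n := by
    filter_upwards [hk.2, hl.2] with y h1 h2
    rw [h1] at h2
    have h3 : ((l y - k y : ℝ) : UnitAddCircle) = 0 := by
      rw [AddCircle.coe_sub, h2, sub_self]
    rw [AddCircle.coe_eq_zero_iff] at h3
    obtain ⟨n, hn⟩ := h3
    refine ⟨n, ?_⟩
    rw [zsmul_eq_mul, mul_one] at hn
    linarith
  obtain ⟨n, hn⟩ := hint.self_of_nhds
  refine ⟨n, ?_⟩
  have hc : ContinuousAt (fun y => l y - k y) x := hl.1.sub hk.1
  have h1 : ∀ᶠ y in 𝓝 x, |(l y - k y) - (l x - k x)| < 1 := by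
    have := Metric.tendsto_nhds.1 hc 1 one_pos
    filter_upwards [this] with y hy
    rwa [Real.dist_eq] at hy
  filter_upwards [hint, h1] with y hy1 hy2
  obtain ⟨m, hm⟩ := hy1
  rw [hm, hn] at hy2
  have h3 : |((m - n : ℤ) : ℝ)| < 1 := by
    push_cast
    have : (k y + (m : ℝ) - k y - (k x + (n : ℝ) - k x)) = (m : ℝ) - n := by ring
    rwa [this] at hy2
  have h4 : |m - n| < 1 := by exact_mod_cast h3
  have h5 : m = n := by
    have := Int.abs_lt_one_iff.1 h4
    omega
  rw [hm, h5]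

/-- a lift at `x` is a lift at the points near `x`, if it is continuous near `x` -/
theorem LiftAt.eventually {k : X → ℝ} (hk : LiftAt u k x) (hc : ∀ᶠ y in 𝓝 x, ContinuousAt k y) :
    ∀ᶠ y in 𝓝 x, LiftAt u k y := by
  filter_upwards [hc, hk.2.eventually_nhds] with y h1 h2
  exact ⟨h1, h2⟩

private theorem exists_lift_near (hu : Continuous u) (x : X) :
    ∃ k : X → ℝ, ∀ᶠ y in 𝓝 x, LiftAt u k y := by
  obtain ⟨a, ha⟩ := QuotientAddGroup.mk_surjective (u x)
  have hF : Fact ((0 : ℝ) < 1) := ⟨one_pos⟩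
  -- the local inverse of the covering map on the interval of length one around `a`
  let ψ := AddCircle.openPartialHomeomorphCoe (p := (1 : ℝ)) (a - 1 / 2)
  have hsrc : ψ.source = Set.Ioo (a - 1 / 2) (a - 1 / 2 + 1) := rfl
  have hcoe : ∀ t : ℝ, ψ t = (t : UnitAddCircle) := fun _ => rfl
  have hmem : a ∈ ψ.source := by
    rw [hsrc]
    constructor <;> linarith
  have hux : u x ∈ ψ.target := by
    have := ψ.map_source hmem
    rw [hcoe] at this
    rwa [← ha]
  refine ⟨fun y => ψ.symm (u y), ?_⟩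
  filter_upwards [hu.continuousAt (ψ.open_target.mem_nhds hux)] with y hy
  refine ⟨?_, ?_⟩
  · exact ContinuousAt.comp (g := ψ.symm) (ψ.continuousAt_symm hy) hu.continuousAt
  · filter_upwards [hu.continuousAt (ψ.open_target.mem_nhds hy)] with z hz
    rw [← hcoe, ψ.right_inv hz]

/-- continuous circle maps have lifts at every point -/
theorem exists_lift (hu : Continuous u) (x : X) : ∃ k : X → ℝ, LiftAt u k x := by
  obtain ⟨k, hk⟩ := exists_lift_near hu x
  exact ⟨k, hk.self_of_nhds⟩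

theorem CS.SmoothC.continuous (hu : S.SmoothC u) : Continuous u := by
  rw [continuous_iff_continuousAt]
  intro x
  obtain ⟨f, hf, -⟩ := hu x
  have h1 : ContinuousAt (fun y => (f y : UnitAddCircle)) x :=
    (AddCircle.continuous_mk' (1 : ℝ)).continuousAt.comp hf.1
  exact h1.congr (hf.2.mono fun y hy => hy.symm)

/-- the lifts of a smooth circle map are smooth -/
theorem CS.SmoothC.smoothAt_lift (hu : S.SmoothC u) {k : X → ℝ} (hk : LiftAt u k x) :
    S.SmoothAt k x := by
  obtain ⟨f, hf, hs⟩ := hu x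
  obtain ⟨n, hn⟩ := hf.unique hk
  exact (hs.add (CS.SmoothAt.const (n : ℝ))).congr hn

theorem CS.SmoothC.exists_lift (hu : S.SmoothC u) (x : X) :
    ∃ k : X → ℝ, LiftAt u k x ∧ S.SmoothNear k x := by
  obtain ⟨k, hk⟩ := exists_lift_near hu.continuous x
  exact ⟨k, hk.self_of_nhds, hk.mono fun y hy => hu.smoothAt_lift hy⟩

theorem CS.SmoothC.add (hu : S.SmoothC u) (hw : S.SmoothC w) :
    S.SmoothC (fun y => u y + w y) := by
  intro x
  obtain ⟨f, hf, hfs⟩ := hu x
  obtain ⟨h, hh, hhs⟩ := hw x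
  exact ⟨_, hf.add hh, hfs.add hhs⟩

theorem CS.SmoothC.neg (hu : S.SmoothC u) : S.SmoothC (fun y => - u y) := by
  intro x
  obtain ⟨f, hf, hfs⟩ := hu x
  refine ⟨_, hf.neg, ?_⟩
  have h1 := hfs.const_mul (-1)
  refine h1.congr (Filter.Eventually.of_forall fun y => ?_)
  show - f y = -1 * f y
  ring

theorem CS.SmoothC.zsmul (hu : S.SmoothC u) (n : ℤ) : S.SmoothC (fun y => n • u y) := by
  intro x
  obtain ⟨f, hf, hfs⟩ := hu x
  exact ⟨_, hf.zsmul n, hfs.const_mul (n : ℝ)⟩

theorem CS.Smooth.smoothC (hf : S.Smooth f) : S.SmoothC (fun y => (f y : UnitAddCircle)) := by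
  intro x
  exact ⟨f, LiftAt.coe (hf x).continuousAt, hf x⟩

theorem CS.SmoothC.sum {ι : Type} {s : Finset ι} {F : ι → X → UnitAddCircle}
    (hF : ∀ i ∈ s, S.SmoothC (F i)) : S.SmoothC (fun y => ∑ i ∈ s, F i y) := by
  classical
  induction s using Finset.induction_on with
  | empty =>
    simp only [Finset.sum_empty]
    intro x
    exact ⟨fun _ => 0, ⟨continuousAt_const, Filter.Eventually.of_forall fun _ => by simp⟩,
      CS.SmoothAt.const 0⟩
  | insert i s hi ih =>
    simp only [Finset.sum_insert hi]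
    exact (hF i (Finset.mem_insert_self i s)).add
      (ih fun j hj => hF j (Finset.mem_insert_of_mem hj))

theorem CS.SmoothC.comb {g : ℕ} {u v : Fin g → X → UnitAddCircle} (hu : ∀ j, S.SmoothC (u j))
    (hv : ∀ j, S.SmoothC (v j)) (m : Fin g ⊕ Fin g → ℤ) : S.SmoothC (comb u v m) := by
  have h1 : S.SmoothC (fun p => ∑ j, m (Sum.inl j) • u j p) :=
    CS.SmoothC.sum (F := fun j p => m (Sum.inl j) • u j p) (fun j _ => (hu j).zsmul _)
  have h2 : S.SmoothC (fun p => ∑ j, m (Sum.inr j) • v j p) :=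
    CS.SmoothC.sum (F := fun j p => m (Sum.inr j) • v j p) (fun j _ => (hv j).zsmul _)
  exact h1.add h2

/-- a continuous real lift of a smooth circle map is smooth -/
theorem CS.SmoothC.smooth_of_eq (hu : S.SmoothC u) (hf : Continuous f)
    (h : ∀ x, u x = (f x : UnitAddCircle)) : S.Smooth f := by
  intro x
  exact hu.smoothAt_lift ⟨hf.continuousAt, Filter.Eventually.of_forall h⟩

end Pool.Agent.Lib.MP_cca10c_ag
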