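import Pool.Agent.Lib.MP_cca10c_ag.H01_Charts

/-!
# Integrals over the domain of a chart

For a chart `e` of `S` the measure `F.nu` on `e.source` is the image under `e.symm` of the measure
`|d(z_F)/d(z_e)|² dz` on `e.target` (`Frame.nu_restrict_chart_h`). So
`∫_{e.source} a conj b dν = ∫_{e.target} (co a) conj (co b)`. Harmonic forms are measurable and, on a
tame frame, square integrable.
-/

set_option autoImplicit false

open Topology Set MeasureTheory
open scoped ContDiff ENNReal

namespace Pool.Agent.Lib.MP_cca10c_ag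

private theorem H04x_meas_inter {Y Z : Type} [TopologicalSpace Y] [MeasurableSpace Y]
    [BorelSpace Y] [TopologicalSpace Z] [MeasurableSpace Z] [BorelSpace Z] {f : Y → Z} {s : Set Y}
    (hs : MeasurableSet s) (hf : ContinuousOn f s) {B : Set Z} (hB : MeasurableSet B) :
    MeasurableSet (s ∩ f ⁻¹' B) := by
  have h1 : Measurable (s.domRestrict f) :=
    (continuousOn_iff_continuous_domRestrict.1 hf).measurable
  have h2 := hs.subtype_image (h1 hB)
  convert h2 using 1
  ext y
  constructor
  · rintro ⟨hy, hyB⟩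
    exact ⟨⟨y, hy⟩, hyB, rfl⟩
  · rintro ⟨⟨y, hy⟩, hyB, rfl⟩
    exact ⟨hy, hyB⟩

/-- `deriv` of a transition map as a real determinant -/
private theorem H04x_det {h : ℂ → ℂ} {z : ℂ} :
    |(((ContinuousLinearMap.toSpanSingleton ℂ (deriv h z)).restrictScalars ℝ : ℂ →L[ℝ] ℂ)).det| =
      ‖deriv h z‖ ^ 2 := by
  have h1 : (((ContinuousLinearMap.toSpanSingleton ℂ (deriv h z)).restrictScalars ℝ :
      ℂ →L[ℝ] ℂ)).det = ‖deriv h z‖ ^ 2 := by
    simp [ContinuousLinearMap.det, LinearMap.det_restrictScalars,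
      Algebra.norm_complex_eq, Complex.normSq_eq_norm_sq]
  rw [h1, abs_of_nonneg (sq_nonneg _)]

variable {X : Type} [TopologicalSpace X] {S : CS X} (F : Frame S)

/-- the factor of a change of charts -/
noncomputable def Frame.jacE (e : OpenPartialHomeomorph X ℂ) (z : ℂ) : ℝ≥0∞ :=
  ENNReal.ofReal (‖deriv (F.ch (e.symm z) ∘ e.symm) z‖ ^ 2)

variable [MeasurableSpace X] [BorelSpace X]

theorem Frame.measurableSet_P (i : Fin F.n) : MeasurableSet (F.P i) := by
  have h := F.meas i
  rwa [← BorelSpace.measurable_eq (α := X)] at h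

/-- the image of a Borel set under a chart is Borel -/
theorem measurableSet_image_chart (e : OpenPartialHomeomorph X ℂ) {A : Set X}
    (hA : MeasurableSet A) (hs : A ⊆ e.source) : MeasurableSet (e '' A) := by
  have h := H04x_meas_inter e.open_target.measurableSet e.continuousOn_symm hA
  convert h using 1
  ext z
  constructor
  · rintro ⟨x, hx, rfl⟩
    refine ⟨e.map_source (hs hx), ?_⟩
    rw [mem_preimage, e.left_inv (hs hx)]
    exact hx
  · rintro ⟨hz, hz'⟩
    exact ⟨e.symm z, hz', e.right_inv hz⟩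

theorem Frame.lintegral_nu_sum {g : X → ℝ≥0∞} (hg : Measurable g) :
    ∫⁻ x, g x ∂F.nu = ∑ i, ∫⁻ z in F.e i '' F.P i, g ((F.e i).symm z) := by
  unfold Frame.nu
  rw [lintegral_finsetSum_measure]
  refine Finset.sum_congr rfl fun i _ => ?_
  have hm := measurableSet_image_chart (F.e i) (F.measurableSet_P i) (F.sub i)
  have hsub : F.e i '' F.P i ⊆ (F.e i).target := by
    rintro _ ⟨x, hx, rfl⟩
    exact (F.e i).map_source (F.sub i hx)
  have hsymm : AEMeasurable (F.e i).symm ((volume : Measure ℂ).restrict (F.e i '' F.P i)) :=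
    ((F.e i).continuousOn_symm.mono hsub).aemeasurable hm
  rw [lintegral_map' hg.aemeasurable hsymm]

/-- change of charts for `F.nu` -/
theorem Frame.lintegral_chart_h {e : OpenPartialHomeomorph X ℂ} (he : e ∈ S.charts)
    {g : X → ℝ≥0∞} (hg : Measurable g) :
    ∫⁻ x in e.source, g x ∂F.nu = ∫⁻ z in e.target, F.jacE e z * g (e.symm z) := by
  have hso : MeasurableSet e.source := e.open_source.measurableSet
  have hPm : ∀ i, MeasurableSet (F.P i ∩ e.source) := fun i => (F.measurableSet_P i).inter hso
  have hsm : ∀ i, MeasurableSet (e '' (F.P i ∩ e.source)) := fun i =>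
    measurableSet_image_chart e (hPm i) inter_subset_right
  rw [← lintegral_indicator hso, F.lintegral_nu_sum (hg.indicator hso)]
  have htarget : e.target = ⋃ i, e '' (F.P i ∩ e.source) := by
    ext z
    rw [mem_iUnion]
    constructor
    · intro hz
      have hx : e.symm z ∈ e.source := e.map_target hz
      refine ⟨F.ix (e.symm z), e.symm z, ⟨F.ix_spec _, hx⟩, e.right_inv hz⟩
    · rintro ⟨i, x, hx, rfl⟩
      exact e.map_source hx.2
  have hdisj : Pairwise (fun i j => Disjoint (e '' (F.P i ∩ e.source))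
      (e '' (F.P j ∩ e.source))) := by
    intro i j hij
    rw [Set.disjoint_left]
    rintro _ ⟨x, hx, rfl⟩ ⟨y, hy, hxy⟩
    have : y = x := e.injOn hy.2 hx.2 hxy
    rw [this] at hy
    exact Set.disjoint_left.1 (F.disj hij) hx.1 hy.1
  rw [htarget, lintegral_iUnion hsm hdisj, tsum_fintype]
  refine Finset.sum_congr rfl fun i _ => ?_
  have hA := measurableSet_image_chart (F.e i) (F.measurableSet_P i) (F.sub i)
  have hB := measurableSet_image_chart (F.e i) (hPm i) (inter_subset_left.trans (F.sub i))
  have h1 : ∫⁻ z in F.e i '' F.P i, e.source.indicator g ((F.e i).symm z) =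
      ∫⁻ z in F.e i '' (F.P i ∩ e.source), g ((F.e i).symm z) := by
    rw [← lintegral_indicator hA, ← lintegral_indicator hB]
    congr 1
    funext z
    by_cases hzB : z ∈ F.e i '' (F.P i ∩ e.source)
    · obtain ⟨x, hx, rfl⟩ := hzB
      have m1 : F.e i x ∈ F.e i '' F.P i := ⟨x, hx.1, rfl⟩
      have m2 : F.e i x ∈ F.e i '' (F.P i ∩ e.source) := ⟨x, hx, rfl⟩
      rw [indicator_of_mem m1, indicator_of_mem m2,
        (F.e i).left_inv (F.sub i hx.1), indicator_of_mem hx.2]
    · rw [indicator_of_notMem hzB]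
      by_cases hzA : z ∈ F.e i '' F.P i
      · rw [indicator_of_mem hzA]
        obtain ⟨x, hx, rfl⟩ := hzA
        rw [(F.e i).left_inv (F.sub i hx)]
        refine indicator_of_notMem (fun hxs => hzB ⟨x, ⟨hx, hxs⟩, rfl⟩) _
      · rw [indicator_of_notMem hzA]
  rw [h1]
  set h : ℂ → ℂ := F.e i ∘ e.symm with hh
  have himage : F.e i '' (F.P i ∩ e.source) = h '' (e '' (F.P i ∩ e.source)) := by
    rw [image_image]
    refine image_congr fun x hx => ?_
    rw [hh, Function.comp_apply, e.left_inv hx.2]
  have hderiv : ∀ z ∈ e '' (F.P i ∩ e.source), HasFDerivWithinAt h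
      ((ContinuousLinearMap.toSpanSingleton ℂ (deriv h z)).restrictScalars ℝ : ℂ →L[ℝ] ℂ)
      (e '' (F.P i ∩ e.source)) z := by
    rintro _ ⟨x, hx, rfl⟩
    have h2 := CS.trans_differentiableAt he (F.mem i) hx.2 (F.sub i hx.1)
    exact (h2.hasDerivAt.hasFDerivAt.restrictScalars ℝ).hasFDerivWithinAt
  have hinj : InjOn h (e '' (F.P i ∩ e.source)) := by
    rintro _ ⟨x, hx, rfl⟩ _ ⟨y, hy, rfl⟩ hxy
    rw [hh, Function.comp_apply, Function.comp_apply, e.left_inv hx.2, e.left_inv hy.2] at hxy
    rw [(F.e i).injOn (F.sub i hx.1) (F.sub i hy.1) hxy]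
  rw [himage, lintegral_image_eq_lintegral_abs_det_fderiv_mul volume (hsm i) hderiv hinj]
  refine setLIntegral_congr_fun (hsm i) ?_
  rintro _ ⟨x, hx, rfl⟩
  simp only
  rw [H04x_det, Frame.jacE, e.left_inv hx.2, F.ch_eq hx.1]
  congr 2
  rw [hh, Function.comp_apply, e.left_inv hx.2, (F.e i).left_inv (F.sub i hx.1)]

omit [MeasurableSpace X] [BorelSpace X] in
private theorem Frame.H04x_target (e : OpenPartialHomeomorph X ℂ) :
    e.target = ⋃ i, e '' (F.P i ∩ e.source) := by
  ext z
  rw [mem_iUnion]
  constructor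
  · intro hz
    have hx : e.symm z ∈ e.source := e.map_target hz
    exact ⟨F.ix (e.symm z), e.symm z, ⟨F.ix_spec _, hx⟩, e.right_inv hz⟩
  · rintro ⟨i, x, hx, rfl⟩
    exact e.map_source hx.2

private theorem Frame.H04x_meas (e : OpenPartialHomeomorph X ℂ) (i : Fin F.n) :
    MeasurableSet (e '' (F.P i ∩ e.source)) :=
  measurableSet_image_chart e ((F.measurableSet_P i).inter e.open_source.measurableSet)
    inter_subset_right

theorem Frame.aemeasurable_jacE (e : OpenPartialHomeomorph X ℂ) :
    AEMeasurable (F.jacE e) ((volume : Measure ℂ).restrict e.target) := by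
  rw [F.H04x_target e, aemeasurable_iUnion_iff]
  intro i
  have h1 : Measurable fun z => ENNReal.ofReal (‖deriv (F.e i ∘ e.symm) z‖ ^ 2) :=
    ((measurable_deriv _).norm.pow_const 2).ennreal_ofReal
  refine h1.aemeasurable.congr ?_
  refine (ae_restrict_iff' (F.H04x_meas e i)).2 (Filter.Eventually.of_forall ?_)
  rintro _ ⟨x, hx, rfl⟩
  simp only
  rw [Frame.jacE, e.left_inv hx.2, F.ch_eq hx.1]

theorem aemeasurable_symm_chart (e : OpenPartialHomeomorph X ℂ) :
    AEMeasurable e.symm ((volume : Measure ℂ).restrict e.target) :=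
  e.continuousOn_symm.aemeasurable e.open_target.measurableSet

/-- the measure of the frame on the domain of a chart -/
theorem Frame.nu_restrict_chart_h {e : OpenPartialHomeomorph X ℂ} (he : e ∈ S.charts) :
    F.nu.restrict e.source =
      (((volume : Measure ℂ).restrict e.target).withDensity (F.jacE e)).map e.symm := by
  have hsymm : AEMeasurable e.symm
      (((volume : Measure ℂ).restrict e.target).withDensity (F.jacE e)) :=
    (aemeasurable_symm_chart e).mono_ac (withDensity_absolutelyContinuous _ _)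
  refine Measure.ext fun A hA => ?_
  have hg : Measurable (A.indicator (1 : X → ℝ≥0∞)) := measurable_one.indicator hA
  rw [← lintegral_indicator_one hA, ← lintegral_indicator_one hA,
    F.lintegral_chart_h he hg, lintegral_map' hg.aemeasurable hsymm,
    lintegral_withDensity_eq_lintegral_mul₀ (F.aemeasurable_jacE e)]
  · rfl
  · exact hg.comp_aemeasurable (aemeasurable_symm_chart e)

omit [MeasurableSpace X] [BorelSpace X] in
theorem Frame.jacE_toReal (e : OpenPartialHomeomorph X ℂ) (z : ℂ) :
    (F.jacE e z).toReal = ‖deriv (F.ch (e.symm z) ∘ e.symm) z‖ ^ 2 :=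
  ENNReal.toReal_ofReal (sq_nonneg _)

/-- change of charts for Bochner integrals -/
theorem Frame.integral_chart_h {e : OpenPartialHomeomorph X ℂ} (he : e ∈ S.charts) {E : Type}
    [NormedAddCommGroup E] [NormedSpace ℝ E] {f : X → E}
    (hf : AEStronglyMeasurable f (F.nu.restrict e.source)) :
    ∫ x in e.source, f x ∂F.nu =
      ∫ z in e.target, ‖deriv (F.ch (e.symm z) ∘ e.symm) z‖ ^ 2 • f (e.symm z) := by
  have hsymm : AEMeasurable e.symm
      (((volume : Measure ℂ).restrict e.target).withDensity (F.jacE e)) :=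
    (aemeasurable_symm_chart e).mono_ac (withDensity_absolutelyContinuous _ _)
  rw [F.nu_restrict_chart_h he] at hf ⊢
  rw [integral_map hsymm hf, integral_withDensity_eq_integral_toReal_smul₀ (F.aemeasurable_jacE e)]
  · refine integral_congr_ae (Filter.Eventually.of_forall fun z => ?_)
    simp only
    rw [F.jacE_toReal]
  · exact Filter.Eventually.of_forall fun z => ENNReal.ofReal_lt_top

/-- change of charts for integrability -/
theorem Frame.integrableOn_chart_h {e : OpenPartialHomeomorph X ℂ} (he : e ∈ S.charts) {E : Type}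
    [NormedAddCommGroup E] [NormedSpace ℝ E] {f : X → E}
    (hf : AEStronglyMeasurable f (F.nu.restrict e.source)) :
    IntegrableOn f e.source F.nu ↔
      IntegrableOn (fun z => ‖deriv (F.ch (e.symm z) ∘ e.symm) z‖ ^ 2 • f (e.symm z)) e.target := by
  have hsymm : AEMeasurable e.symm
      (((volume : Measure ℂ).restrict e.target).withDensity (F.jacE e)) :=
    (aemeasurable_symm_chart e).mono_ac (withDensity_absolutelyContinuous _ _)
  unfold IntegrableOn
  rw [F.nu_restrict_chart_h he] at hf ⊢
  rw [integrable_map_measure hf hsymm, integrable_withDensity_iff_integrable_smul₀'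
    (F.aemeasurable_jacE e) (Filter.Eventually.of_forall fun z => ENNReal.ofReal_lt_top)]
  refine integrable_congr (Filter.Eventually.of_forall fun z => ?_)
  simp only [Function.comp_apply]
  rw [F.jacE_toReal]

/-- the energy of a form over the domain of a chart -/
theorem Frame.en_chart_h {e : OpenPartialHomeomorph X ℂ} (he : e ∈ S.charts) {a : X → ℂ}
    (ha : Measurable a) : F.en e.source a = ∫ z in e.target, ‖F.co e a z‖ ^ 2 := by
  unfold Frame.en
  rw [F.integral_chart_h he (ha.norm.pow_const 2).aestronglyMeasurable]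
  refine integral_congr_ae (Filter.Eventually.of_forall fun z => ?_)
  simp only [Frame.co]
  rw [norm_mul, mul_pow, smul_eq_mul, mul_comm]

theorem Frame.integrableOn_sq_chart {e : OpenPartialHomeomorph X ℂ} (he : e ∈ S.charts)
    {a : X → ℂ} (ha : Measurable a) : IntegrableOn (fun x => ‖a x‖ ^ 2) e.source F.nu ↔
      IntegrableOn (fun z => ‖F.co e a z‖ ^ 2) e.target := by
  rw [F.integrableOn_chart_h he (ha.norm.pow_const 2).aestronglyMeasurable]
  have h : (fun z => ‖deriv (F.ch (e.symm z) ∘ e.symm) z‖ ^ 2 • ‖a (e.symm z)‖ ^ 2) =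
      fun z => ‖F.co e a z‖ ^ 2 := by
    funext z
    simp only [Frame.co]
    rw [norm_mul, mul_pow, smul_eq_mul, mul_comm]
  rw [h]

/-- the complex product over the domain of a chart -/
theorem Frame.ip_chart_h {e : OpenPartialHomeomorph X ℂ} (he : e ∈ S.charts) {a b : X → ℂ}
    (ha : Measurable a) (hb : Measurable b) :
    ∫ x in e.source, a x * starRingEnd ℂ (b x) ∂F.nu =
      ∫ z in e.target, F.co e a z * starRingEnd ℂ (F.co e b z) := by
  have hm : Measurable fun x => a x * starRingEnd ℂ (b x) :=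
    ha.mul (Complex.continuous_conj.measurable.comp hb)
  rw [F.integral_chart_h he hm.aestronglyMeasurable]
  refine integral_congr_ae (Filter.Eventually.of_forall fun z => ?_)
  simp only [Frame.co]
  rw [map_mul, Complex.real_smul]
  push_cast
  rw [← Complex.mul_conj']
  ring

omit [MeasurableSpace X] [BorelSpace X] in
/-- the coefficient in a chart of the frame -/
theorem Frame.co_self {i : Fin F.n} {x : X} (hx : x ∈ F.P i) (a : X → ℂ) :
    F.co (F.e i) a (F.e i x) = a x := by
  have hs := F.sub i hx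
  rw [Frame.co, (F.e i).left_inv hs, F.ch_eq hx, deriv_trans_self hs, mul_one]

theorem Frame.measurable_of_co {a : X → ℂ}
    (h : ∀ i, ContinuousOn (F.co (F.e i) a) (F.e i).target) : Measurable a := by
  intro B hB
  have h1 : a ⁻¹' B = ⋃ i, (F.P i ∩ ((F.e i).source ∩ (F.co (F.e i) a ∘ F.e i) ⁻¹' B)) := by
    ext x
    rw [mem_iUnion]
    constructor
    · intro hx
      refine ⟨F.ix x, F.ix_spec x, F.sub _ (F.ix_spec x), ?_⟩
      rw [mem_preimage, Function.comp_apply, F.co_self (F.ix_spec x)]
      exact hx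
    · rintro ⟨i, hx, _, hB'⟩
      rw [mem_preimage, Function.comp_apply, F.co_self hx] at hB'
      exact hB'
  rw [h1]
  refine MeasurableSet.iUnion fun i => (F.measurableSet_P i).inter ?_
  refine H04x_meas_inter (F.e i).open_source.measurableSet ?_ hB
  exact (h i).comp (F.e i).continuousOn (F.e i).mapsTo

theorem Frame.measurable_of_hol {a : X → ℂ} (h : F.Hol a) : Measurable a := by
  refine F.measurable_of_co fun i => ?_
  have := (h (F.e i) (F.mem i)).continuousOn
  simpa using this

theorem Frame.isFiniteMeasure_nu (hF : F.Tame) : IsFiniteMeasure F.nu := by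
  refine ⟨?_⟩
  have h1 : F.nu univ = ∫⁻ x, (1 : X → ℝ≥0∞) x ∂F.nu := by simp
  rw [h1, F.lintegral_nu_sum measurable_one]
  refine ENNReal.sum_lt_top.2 fun i _ => ?_
  simp only [Pi.one_apply, lintegral_one, Measure.restrict_apply, MeasurableSet.univ, univ_inter]
  obtain ⟨K, hK, hPK, hKs⟩ := hF i
  have hc : IsCompact (F.e i '' K) := hK.image_of_continuousOn ((F.e i).continuousOn.mono hKs)
  exact (measure_mono (image_mono hPK)).trans_lt hc.measure_lt_top

omit [MeasurableSpace X] [BorelSpace X] in
theorem Frame.bounded_of_co (hF : F.Tame) {a : X → ℂ}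
    (h : ∀ i, ContinuousOn (F.co (F.e i) a) (F.e i).target) : ∃ C : ℝ, ∀ x, ‖a x‖ ≤ C := by
  have h1 : ∀ i, ∃ C : ℝ, ∀ x ∈ F.P i, ‖a x‖ ≤ C := by
    intro i
    obtain ⟨K, hK, hPK, hKs⟩ := hF i
    have hcont : ContinuousOn (F.co (F.e i) a ∘ F.e i) K :=
      (h i).comp ((F.e i).continuousOn.mono hKs) fun x hx => (F.e i).map_source (hKs hx)
    obtain ⟨C, hC⟩ := hK.exists_bound_of_continuousOn hcont
    refine ⟨C, fun x hx => ?_⟩
    have := hC x (hPK hx)
    rwa [Function.comp_apply, F.co_self hx] at this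
  choose C hC using h1
  refine ⟨∑ i, |C i|, fun x => ?_⟩
  have h2 := hC _ x (F.ix_spec x)
  have h3 : |C (F.ix x)| ≤ ∑ i, |C i| :=
    Finset.single_le_sum (f := fun i => |C i|) (fun i _ => abs_nonneg _) (Finset.mem_univ _)
  exact h2.trans ((le_abs_self _).trans h3)

theorem Frame.memLp_of_co (hF : F.Tame) {a : X → ℂ}
    (h : ∀ i, ContinuousOn (F.co (F.e i) a) (F.e i).target) : MemLp a 2 F.nu := by
  have := F.isFiniteMeasure_nu hF
  obtain ⟨C, hC⟩ := F.bounded_of_co hF h
  exact MemLp.of_bound (F.measurable_of_co h).aestronglyMeasurable C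
    (Filter.Eventually.of_forall hC)

/-- harmonic forms are square integrable -/
theorem Frame.memLp_of_hol (hF : F.Tame) {a : X → ℂ} (h : F.Hol a) : MemLp a 2 F.nu := by
  refine F.memLp_of_co hF fun i => ?_
  have := (h (F.e i) (F.mem i)).continuousOn
  simpa using this

theorem Frame.integrable_sq_of_hol (hF : F.Tame) {a : X → ℂ} (h : F.Hol a) :
    Integrable (fun x => ‖a x‖ ^ 2) F.nu :=
  (memLp_two_iff_integrable_sq_norm (F.measurable_of_hol h).aestronglyMeasurable).1
    (F.memLp_of_hol hF h)

/-- the energy in a chart is at most the total energy -/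
theorem Frame.en_chart_le_h (hF : F.Tame) {e : OpenPartialHomeomorph X ℂ} (he : e ∈ S.charts)
    {a : X → ℂ} (h : F.Hol a) : ∫ z in e.target, ‖F.co e a z‖ ^ 2 ≤ F.en univ a := by
  rw [← F.en_chart_h he (F.measurable_of_hol h)]
  unfold Frame.en
  exact setIntegral_mono_set (F.integrable_sq_of_hol hF h).integrableOn
    (Filter.Eventually.of_forall fun x => sq_nonneg _) (subset_univ _).eventuallyLE

end Pool.Agent.Lib.MP_cca10c_ag
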