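import Pool.Agent.Lib.MP_cca10c_ag.H00_Defs

/-!
# The complex gradient of a function in the plane (stub H05)

`cgrad f z = f_x - i f_y`. For holomorphic `h`: `cgrad (f ∘ h) z = cgrad f (h z) * h' z`. For
holomorphic `k`: `cgrad (Re k) z = k' z`. For a circle map `u` with local lift `f`,
`cgradC u z = cgrad f z` (differentiate `U = exp (2 π i f)`: `conj U * dU = 2 π i df`).
-/

set_option autoImplicit false

open Topology Set
open scoped ContDiff

namespace Pool.Agent.Lib.MP_cca10c_ag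

theorem cgrad_congr {f h : ℂ → ℝ} {z : ℂ} (hh : f =ᶠ[𝓝 z] h) : cgrad f z = cgrad h z := by
  unfold cgrad
  rw [hh.fderiv_eq]

theorem cgrad_const (c : ℝ) (z : ℂ) : cgrad (fun _ => c) z = 0 := by
  unfold cgrad
  have h : fderiv ℝ (fun _ : ℂ => c) z = 0 := fderiv_const_apply c
  rw [h]
  simp

theorem cgrad_add {f h : ℂ → ℝ} {z : ℂ} (hf : DifferentiableAt ℝ f z)
    (hh : DifferentiableAt ℝ h z) : cgrad (fun w => f w + h w) z = cgrad f z + cgrad h z := by
  unfold cgrad
  have h1 : fderiv ℝ (fun w => f w + h w) z = fderiv ℝ f z + fderiv ℝ h z :=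
    (hf.hasFDerivAt.add hh.hasFDerivAt).fderiv
  rw [h1]
  simp only [ContinuousLinearMap.add_apply]
  push_cast
  ring

theorem cgrad_sub {f h : ℂ → ℝ} {z : ℂ} (hf : DifferentiableAt ℝ f z)
    (hh : DifferentiableAt ℝ h z) : cgrad (fun w => f w - h w) z = cgrad f z - cgrad h z := by
  unfold cgrad
  have h1 : fderiv ℝ (fun w => f w - h w) z = fderiv ℝ f z - fderiv ℝ h z :=
    (hf.hasFDerivAt.sub hh.hasFDerivAt).fderiv
  rw [h1]
  simp only [ContinuousLinearMap.sub_apply]
  push_cast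
  ring

theorem cgrad_const_mul {f : ℂ → ℝ} {z : ℂ} (c : ℝ) (hf : DifferentiableAt ℝ f z) :
    cgrad (fun w => c * f w) z = c * cgrad f z := by
  unfold cgrad
  have h1 : fderiv ℝ (fun w => c * f w) z = c • fderiv ℝ f z :=
    (hf.hasFDerivAt.const_mul c).fderiv
  rw [h1]
  simp only [ContinuousLinearMap.smul_apply, smul_eq_mul]
  push_cast
  ring

theorem cgrad_mul {f h : ℂ → ℝ} {z : ℂ} (hf : DifferentiableAt ℝ f z)
    (hh : DifferentiableAt ℝ h z) :
    cgrad (fun w => f w * h w) z = f z * cgrad h z + h z * cgrad f z := by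
  unfold cgrad
  have h1 : fderiv ℝ (fun w => f w * h w) z = f z • fderiv ℝ h z + h z • fderiv ℝ f z :=
    (hf.hasFDerivAt.mul hh.hasFDerivAt).fderiv
  rw [h1]
  simp only [ContinuousLinearMap.add_apply, ContinuousLinearMap.smul_apply, smul_eq_mul]
  push_cast
  ring

/-- `‖cgrad f z‖ = ‖df‖`, and `cgrad` determines the derivative -/
theorem fderiv_eq_cgrad {f : ℂ → ℝ} {z v : ℂ} : fderiv ℝ f z v = (cgrad f z * v).re := by
  have hv : v = v.re • (1 : ℂ) + v.im • Complex.I := by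
    simp only [Complex.real_smul, mul_one]
    exact (Complex.re_add_im v).symm
  have h1 : fderiv ℝ f z v = v.re * fderiv ℝ f z 1 + v.im * fderiv ℝ f z Complex.I := by
    conv_lhs => rw [hv]
    rw [map_add, map_smul, map_smul, smul_eq_mul, smul_eq_mul]
  rw [h1]
  unfold cgrad
  simp only [Complex.mul_re, Complex.sub_re, Complex.sub_im, Complex.ofReal_re, Complex.ofReal_im,
    Complex.mul_im, Complex.I_re, Complex.I_im]
  ring

theorem cgrad_eq_zero_iff {f : ℂ → ℝ} {z : ℂ} : cgrad f z = 0 ↔ fderiv ℝ f z = 0 := by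
  constructor
  · intro h
    ext v
    rw [fderiv_eq_cgrad, h, zero_mul]
    simp
  · intro h
    unfold cgrad
    rw [h]
    simp

theorem norm_cgrad {f : ℂ → ℝ} {z : ℂ} : ‖cgrad f z‖ = ‖fderiv ℝ f z‖ := by
  apply le_antisymm
  · rcases eq_or_ne (cgrad f z) 0 with h | h
    · rw [h, norm_zero]
      exact norm_nonneg _
    · have hpos : 0 < ‖cgrad f z‖ := norm_pos_iff.2 h
      have h1 : fderiv ℝ f z ((starRingEnd ℂ) (cgrad f z)) = ‖cgrad f z‖ ^ 2 := by
        rw [fderiv_eq_cgrad, Complex.mul_conj', ← Complex.ofReal_pow, Complex.ofReal_re]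
      have h2 := (fderiv ℝ f z).le_opNorm ((starRingEnd ℂ) (cgrad f z))
      rw [h1, Complex.norm_conj, Real.norm_eq_abs, abs_of_nonneg (by positivity), pow_two] at h2
      exact le_of_mul_le_mul_right h2 hpos
  · apply ContinuousLinearMap.opNorm_le_bound _ (norm_nonneg _)
    intro v
    rw [fderiv_eq_cgrad, ← norm_mul, Real.norm_eq_abs]
    exact Complex.abs_re_le_norm _

theorem cgrad_comp {f : ℂ → ℝ} {h : ℂ → ℂ} {z : ℂ} (hf : DifferentiableAt ℝ f (h z))
    (hh : DifferentiableAt ℂ h z) : cgrad (f ∘ h) z = cgrad f (h z) * deriv h z := by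
  have h1 : fderiv ℝ (f ∘ h) z = (fderiv ℝ f (h z)).comp (fderiv ℝ h z) :=
    fderiv_comp z hf (hh.restrictScalars ℝ)
  have h2 : ∀ v, fderiv ℝ h z v = deriv h z * v := by
    intro v
    have h3 : fderiv ℝ h z = (fderiv ℂ h z).restrictScalars ℝ :=
      (hh.hasFDerivAt.restrictScalars ℝ).fderiv
    rw [h3]
    show fderiv ℂ h z v = _
    have h4 : fderiv ℂ h z v = v • fderiv ℂ h z 1 := by
      rw [← map_smul, smul_eq_mul, mul_one]
    rw [h4, fderiv_apply_one_eq_deriv, smul_eq_mul, mul_comm]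
  have e1 : fderiv ℝ (f ∘ h) z 1 = (cgrad f (h z) * deriv h z).re := by
    rw [h1, ContinuousLinearMap.comp_apply, h2, mul_one, fderiv_eq_cgrad]
  have e2 : fderiv ℝ (f ∘ h) z Complex.I = (cgrad f (h z) * (deriv h z * Complex.I)).re := by
    rw [h1, ContinuousLinearMap.comp_apply, h2, fderiv_eq_cgrad]
  unfold cgrad at e1 e2 ⊢
  rw [e1, e2]
  apply Complex.ext
  · simp
  · simp
    ring

theorem cgrad_re {k : ℂ → ℂ} {z : ℂ} (hk : DifferentiableAt ℂ k z) :
    cgrad (fun w => (k w).re) z = deriv k z := by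
  have h := cgrad_comp (f := fun w : ℂ => w.re) (h := k) (z := z)
    (Complex.reCLM.differentiableAt) hk
  have h1 : cgrad (fun w : ℂ => w.re) (k z) = 1 := by
    have h2 : fderiv ℝ (fun w : ℂ => w.re) (k z) = Complex.reCLM := Complex.reCLM.fderiv
    unfold cgrad
    rw [h2]
    simp
  rw [h1, one_mul] at h
  exact h

theorem cgrad_im {k : ℂ → ℂ} {z : ℂ} (hk : DifferentiableAt ℂ k z) :
    cgrad (fun w => (k w).im) z = -Complex.I * deriv k z := by
  have h := cgrad_comp (f := fun w : ℂ => w.im) (h := k) (z := z)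
    (Complex.imCLM.differentiableAt) hk
  have h1 : cgrad (fun w : ℂ => w.im) (k z) = -Complex.I := by
    have h2 : fderiv ℝ (fun w : ℂ => w.im) (k z) = Complex.imCLM := Complex.imCLM.fderiv
    unfold cgrad
    rw [h2]
    simp
  rw [h1] at h
  exact h

theorem cgradC_eq {u : ℂ → UnitAddCircle} {f : ℂ → ℝ} {z : ℂ}
    (h : ∀ᶠ w in 𝓝 z, u w = (f w : UnitAddCircle)) (hf : DifferentiableAt ℝ f z) :
    cgradC u z = cgrad f z := by
  have hc : ∀ t : ℝ, ((AddCircle.toCircle (t : UnitAddCircle) : Circle) : ℂ)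
      = Complex.exp ((2 * Real.pi * t : ℝ) * Complex.I) := by
    intro t
    rw [AddCircle.toCircle_apply_mk, Circle.coe_exp]
    congr 2
    push_cast
    ring
  have hU : (fun w => ((AddCircle.toCircle (u w) : Circle) : ℂ)) =ᶠ[𝓝 z]
      fun w => Complex.exp ((2 * Real.pi * f w : ℝ) * Complex.I) := by
    filter_upwards [h] with w hw
    rw [hw, hc]
  have hz : ((AddCircle.toCircle (u z) : Circle) : ℂ)
      = Complex.exp ((2 * Real.pi * f z : ℝ) * Complex.I) := hU.self_of_nhds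
  have hd : HasFDerivAt (fun w => Complex.exp ((2 * Real.pi * f w : ℝ) * Complex.I))
      (Complex.exp ((2 * Real.pi * f z : ℝ) * Complex.I) •
        ((Complex.ofRealCLM.comp ((2 * Real.pi) • fderiv ℝ f z)).smulRight Complex.I)) z := by
    have h1 : HasFDerivAt (fun w => 2 * Real.pi * f w) ((2 * Real.pi) • fderiv ℝ f z) z :=
      hf.hasFDerivAt.const_mul (2 * Real.pi)
    have h2 : HasFDerivAt (fun w => ((2 * Real.pi * f w : ℝ) : ℂ))
        (Complex.ofRealCLM.comp ((2 * Real.pi) • fderiv ℝ f z)) z :=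
      Complex.ofRealCLM.hasFDerivAt.comp z h1
    have h3 : HasFDerivAt (fun w => ((2 * Real.pi * f w : ℝ) : ℂ) * Complex.I)
        ((Complex.ofRealCLM.comp ((2 * Real.pi) • fderiv ℝ f z)).smulRight Complex.I) z := by
      have := h2.mul_const' Complex.I
      exact this
    exact h3.cexp
  have hv : ∀ v : ℂ, ((starRingEnd ℂ (((AddCircle.toCircle (u z) : Circle) : ℂ)) *
      fderiv ℝ (fun w => ((AddCircle.toCircle (u w) : Circle) : ℂ)) z v).im / (2 * Real.pi) : ℝ)
      = fderiv ℝ f z v := by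
    intro v
    rw [hU.fderiv_eq, hd.fderiv, hz]
    have h1 : starRingEnd ℂ (Complex.exp ((2 * Real.pi * f z : ℝ) * Complex.I)) *
        Complex.exp ((2 * Real.pi * f z : ℝ) * Complex.I) = 1 := by
      rw [Complex.conj_mul', Complex.norm_exp_ofReal_mul_I]
      norm_num
    have h2 : starRingEnd ℂ (Complex.exp ((2 * Real.pi * f z : ℝ) * Complex.I)) *
        (Complex.exp ((2 * Real.pi * f z : ℝ) * Complex.I) •
        ((Complex.ofRealCLM.comp ((2 * Real.pi) • fderiv ℝ f z)).smulRight Complex.I)) v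
        = ((2 * Real.pi * fderiv ℝ f z v : ℝ) : ℂ) * Complex.I := by
      rw [ContinuousLinearMap.smul_apply, smul_eq_mul, ← mul_assoc, h1, one_mul]
      simp
    rw [h2]
    have hpi : (0 : ℝ) < 2 * Real.pi := by positivity
    rw [Complex.mul_I_im, Complex.ofReal_re]
    field_simp
  unfold cgradC cgrad
  simp only
  rw [hv, hv]

theorem contDiffAt_cgrad {f : ℂ → ℝ} {z : ℂ} (hf : ∀ᶠ w in 𝓝 z, ContDiffAt ℝ ∞ f w) :
    ContDiffAt ℝ ∞ (cgrad f) z := by
  have h1 : ContDiffAt ℝ ∞ (fderiv ℝ f) z := hf.self_of_nhds.fderiv_right (by norm_num)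
  have h2 : ∀ v : ℂ, ContDiffAt ℝ ∞ (fun w => ((fderiv ℝ f w v : ℝ) : ℂ)) z := by
    intro v
    exact Complex.ofRealCLM.contDiff.contDiffAt.comp z (h1.clm_apply contDiffAt_const)
  have h3 : ContDiffAt ℝ ∞ (fun w => ((fderiv ℝ f w 1 : ℝ) : ℂ) -
      Complex.I * ((fderiv ℝ f w Complex.I : ℝ) : ℂ)) z :=
    (h2 1).sub (contDiffAt_const.mul (h2 Complex.I))
  exact h3

end Pool.Agent.Lib.MP_cca10c_ag
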