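import Pool.Agent.Lib.MP_cca10c_ag.H04_Smooth
import Pool.Agent.Lib.MP_cca10c_ag.H05_Grad

/-!
# Coefficients of forms in charts (stub H06)

`F.co e a` transforms by the derivative of the transition map (`CS.deriv_trans_comp`); for
`a = F.d f` it is the complex gradient of `f` in the chart `e` (`cgrad_comp` for the transition
map from `e` to the chart of the frame); for circle maps use local lifts.
-/

set_option autoImplicit false

open Topology Set
open scoped ContDiff

namespace Pool.Agent.Lib.MP_cca10c_ag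

variable {X : Type} [TopologicalSpace X] {S : CS X} (F : Frame S) {x : X} {f h : X → ℝ}
variable {e e' : OpenPartialHomeomorph X ℂ} {u w : X → UnitAddCircle} {a b : X → ℂ}

/-- pull back of a property near `x` along the inverse of a chart -/
private theorem H06_symm_ev {X : Type} [TopologicalSpace X] {e : OpenPartialHomeomorph X ℂ} {x : X}
    (hx : x ∈ e.source) {P : X → Prop} (h : ∀ᶠ y in 𝓝 x, P y) : ∀ᶠ z in 𝓝 (e x), P (e.symm z) := by
  have h1 : ContinuousAt e.symm (e x) := e.continuousAt_symm (e.map_source hx)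
  have h2 : Filter.Tendsto e.symm (𝓝 (e x)) (𝓝 x) := by
    have h3 := h1.tendsto
    rwa [e.left_inv hx] at h3
  exact h2.eventually h

namespace Frame

private theorem H06_diff (hf : S.SmoothAt f x) :
    DifferentiableAt ℝ (f ∘ (F.ch x).symm) (F.ch x x) :=
  (hf (F.ch x) (F.ch_mem x) (F.mem_ch x)).differentiableAt (by simp)

private theorem H06_dC_eq_d {k : X → ℝ} (hk : LiftAt u k x) (hk' : S.SmoothAt k x) :
    F.dC u x = F.d k x := by
  unfold dC d
  refine cgradC_eq ?_ (F.H06_diff hk')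
  have h1 := H06_symm_ev (F.mem_ch x) hk.2
  filter_upwards [h1] with z hz
  exact hz

theorem co_at (hx : x ∈ e.source) : F.co e a (e x) = a x * deriv (F.ch x ∘ e.symm) (e x) := by
  unfold co
  rw [e.left_inv hx]

/-- the coefficient in the chart of the frame -/
theorem co_ch : F.co (F.ch x) a (F.ch x x) = a x := by
  rw [F.co_at (F.mem_ch x), deriv_trans_self (F.mem_ch x), mul_one]

/-- change of charts -/
theorem co_trans (he : e ∈ S.charts) (he' : e' ∈ S.charts) (hx : x ∈ e.source)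
    (hx' : x ∈ e'.source) :
    F.co e a (e x) = F.co e' a (e' x) * deriv (e' ∘ e.symm) (e x) := by
  rw [F.co_at hx, F.co_at hx', CS.deriv_trans_comp he he' (F.ch_mem x) hx hx' (F.mem_ch x)]
  ring

theorem co_eq_zero_iff (he : e ∈ S.charts) (hx : x ∈ e.source) :
    F.co e a (e x) = 0 ↔ a x = 0 := by
  rw [F.co_at hx, mul_eq_zero]
  exact or_iff_left (CS.deriv_trans_ne_zero he (F.ch_mem x) hx (F.mem_ch x))

/-- a form is determined by its coefficients in charts around the points -/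
theorem eq_of_co (he : e ∈ S.charts) (hx : x ∈ e.source) (h : F.co e a (e x) = F.co e b (e x)) :
    a x = b x := by
  rw [F.co_at hx, F.co_at hx] at h
  exact mul_right_cancel₀ (CS.deriv_trans_ne_zero he (F.ch_mem x) hx (F.mem_ch x)) h

theorem co_d (he : e ∈ S.charts) (hx : x ∈ e.source) (hf : S.SmoothAt f x) :
    F.co e (F.d f) (e x) = cgrad (f ∘ e.symm) (e x) := by
  have hd : DifferentiableAt ℝ (f ∘ (F.ch x).symm) ((F.ch x ∘ e.symm) (e x)) := by
    have h1 := hf (F.ch x) (F.ch_mem x) (F.mem_ch x)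
    have h2 : (F.ch x ∘ e.symm) (e x) = F.ch x x := by
      simp only [Function.comp, e.left_inv hx]
    rw [h2]
    exact h1.differentiableAt (by simp)
  have h3 := cgrad_comp hd (CS.trans_differentiableAt he (F.ch_mem x) hx (F.mem_ch x))
  have h4 : (f ∘ (F.ch x).symm) ∘ (F.ch x ∘ e.symm) =ᶠ[𝓝 (e x)] f ∘ e.symm := by
    have h5 := H06_symm_ev hx ((F.ch x).open_source.mem_nhds (F.mem_ch x))
    filter_upwards [h5] with z hz
    simp only [Function.comp]
    rw [(F.ch x).left_inv hz]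
  rw [F.co_at hx, ← cgrad_congr h4, h3]
  simp only [Function.comp, e.left_inv hx]
  rfl

theorem co_dC (he : e ∈ S.charts) (hx : x ∈ e.source) {k : X → ℝ} (hk : LiftAt u k x)
    (hk' : S.SmoothAt k x) : F.co e (F.dC u) (e x) = cgrad (k ∘ e.symm) (e x) := by
  rw [F.co_at hx, F.H06_dC_eq_d hk hk', ← F.co_at (a := F.d k) hx, F.co_d he hx hk']

theorem dC_eq_d {k : X → ℝ} (hk : LiftAt u k x) (hk' : S.SmoothAt k x) :
    F.dC u x = F.d k x := by
  exact F.H06_dC_eq_d hk hk'

theorem d_congr (hfh : f =ᶠ[𝓝 x] h) : F.d f x = F.d h x := by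
  unfold d
  refine cgrad_congr ?_
  have h1 := H06_symm_ev (F.mem_ch x) hfh
  filter_upwards [h1] with z hz
  exact hz

theorem d_const (c : ℝ) : F.d (fun _ => c) x = 0 := by
  unfold d
  exact cgrad_const c _

theorem d_add (hf : S.SmoothAt f x) (hh : S.SmoothAt h x) :
    F.d (fun y => f y + h y) x = F.d f x + F.d h x := by
  exact cgrad_add (F.H06_diff hf) (F.H06_diff hh)

theorem d_sub (hf : S.SmoothAt f x) (hh : S.SmoothAt h x) :
    F.d (fun y => f y - h y) x = F.d f x - F.d h x := by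
  exact cgrad_sub (F.H06_diff hf) (F.H06_diff hh)

theorem d_const_mul (c : ℝ) (hf : S.SmoothAt f x) :
    F.d (fun y => c * f y) x = c * F.d f x := by
  exact cgrad_const_mul c (F.H06_diff hf)

theorem d_mul (hf : S.SmoothAt f x) (hh : S.SmoothAt h x) :
    F.d (fun y => f y * h y) x = f x * F.d h x + h x * F.d f x := by
  have h1 := cgrad_mul (F.H06_diff hf) (F.H06_diff hh)
  simp only [Function.comp, (F.ch x).left_inv (F.mem_ch x)] at h1
  exact h1

theorem d_sum {ι : Type} {s : Finset ι} {φ : ι → X → ℝ}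
    (hF : ∀ i ∈ s, S.SmoothAt (φ i) x) :
    F.d (fun y => ∑ i ∈ s, φ i y) x = ∑ i ∈ s, F.d (φ i) x := by
  classical
  induction s using Finset.induction_on with
  | empty =>
    simp only [Finset.sum_empty]
    exact F.d_const 0
  | insert i s hi ih =>
    have h1 : ∀ j ∈ s, S.SmoothAt (φ j) x := fun j hj => hF j (Finset.mem_insert_of_mem hj)
    have h2 := F.d_add (hF i (Finset.mem_insert_self i s)) (CS.SmoothAt.sum h1)
    rw [Finset.sum_insert hi, ← ih h1, ← h2]
    congr 1
    funext y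
    rw [Finset.sum_insert hi]

/-- vanishing differential near `x` means locally constant -/
theorem eventually_eq_of_d_eq_zero (hf : S.SmoothNear f x) (h0 : ∀ᶠ y in 𝓝 x, F.d f y = 0) :
    ∀ᶠ y in 𝓝 x, f y = f x := by
  have hs : ∀ᶠ y in 𝓝 x, y ∈ (F.ch x).source := (F.ch x).open_source.mem_nhds (F.mem_ch x)
  have h1 : ∀ᶠ z in 𝓝 (F.ch x x), DifferentiableAt ℝ (f ∘ (F.ch x).symm) z ∧
      fderiv ℝ (f ∘ (F.ch x).symm) z = 0 := by
    have h2 := H06_symm_ev (F.mem_ch x) (hf.and (h0.and hs))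
    have h3 : ∀ᶠ z in 𝓝 (F.ch x x), z ∈ (F.ch x).target :=
      (F.ch x).open_target.mem_nhds ((F.ch x).map_source (F.mem_ch x))
    filter_upwards [h2, h3] with z hz hzt
    obtain ⟨h4, h5, h6⟩ := hz
    have h7 : (F.ch x) ((F.ch x).symm z) = z := (F.ch x).right_inv hzt
    have h8 := F.co_d (F.ch_mem x) h6 h4
    rw [(F.co_eq_zero_iff (F.ch_mem x) h6).2 h5, h7] at h8
    have h9 := h4 (F.ch x) (F.ch_mem x) h6
    rw [h7] at h9
    exact ⟨h9.differentiableAt (by simp), cgrad_eq_zero_iff.1 h8.symm⟩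
  obtain ⟨r, hr, hball⟩ := Metric.eventually_nhds_iff_ball.1 h1
  have h10 : ∀ᶠ y in 𝓝 x, (F.ch x) y ∈ Metric.ball (F.ch x x) r :=
    ((F.ch x).continuousAt (F.mem_ch x)) (Metric.ball_mem_nhds _ hr)
  filter_upwards [h10, hs] with y hy hys
  have h11 : (f ∘ (F.ch x).symm) ((F.ch x) y) = (f ∘ (F.ch x).symm) (F.ch x x) := by
    refine (convex_ball (F.ch x x) r).is_const_of_fderivWithin_eq_zero (𝕜 := ℝ) ?_ ?_ hy
      (Metric.mem_ball_self hr)
    · intro z hz
      exact (hball z hz).1.differentiableWithinAt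
    · intro z hz
      rw [fderivWithin_of_isOpen Metric.isOpen_ball hz]
      exact (hball z hz).2
  simp only [Function.comp] at h11
  rwa [(F.ch x).left_inv hys, (F.ch x).left_inv (F.mem_ch x)] at h11

/-- two functions with the same differential near `x` differ by a constant near `x` -/
theorem eventually_eq_of_d_eq (hf : S.SmoothNear f x) (hh : S.SmoothNear h x)
    (h0 : ∀ᶠ y in 𝓝 x, F.d f y = F.d h y) :
    ∀ᶠ y in 𝓝 x, f y = h y + (f x - h x) := by
  have h1 : S.SmoothNear (fun y => f y - h y) x := by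
    unfold CS.SmoothNear at hf hh ⊢
    filter_upwards [hf, hh] with y hy1 hy2
    exact hy1.sub hy2
  have h2 : ∀ᶠ y in 𝓝 x, F.d (fun y => f y - h y) y = 0 := by
    filter_upwards [hf, hh, h0] with y hy1 hy2 hy3
    rw [F.d_sub hy1 hy2, hy3, sub_self]
  filter_upwards [F.eventually_eq_of_d_eq_zero h1 h2] with y hy
  linarith

theorem dC_add (hu : S.SmoothC u) (hw : S.SmoothC w) :
    F.dC (fun y => u y + w y) x = F.dC u x + F.dC w x := by
  obtain ⟨k, hk, hk'⟩ := hu x
  obtain ⟨l, hl, hl'⟩ := hw x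
  rw [F.dC_eq_d (hk.add hl) (hk'.add hl'), F.d_add hk' hl', F.dC_eq_d hk hk', F.dC_eq_d hl hl']

theorem dC_neg (hu : S.SmoothC u) : F.dC (fun y => - u y) x = - F.dC u x := by
  obtain ⟨k, hk, hk'⟩ := hu x
  have h1 : (fun y => - k y) = fun y => (-1 : ℝ) * k y := by
    funext y
    ring
  have h2 : S.SmoothAt (fun y => - k y) x := by
    rw [h1]
    exact hk'.const_mul (-1)
  rw [F.dC_eq_d hk.neg h2, h1, F.d_const_mul (-1) hk', F.dC_eq_d hk hk']
  push_cast
  ring

theorem dC_zsmul (hu : S.SmoothC u) (n : ℤ) : F.dC (fun y => n • u y) x = n * F.dC u x := by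
  obtain ⟨k, hk, hk'⟩ := hu x
  rw [F.dC_eq_d (hk.zsmul n) (hk'.const_mul (n : ℝ)), F.d_const_mul (n : ℝ) hk', F.dC_eq_d hk hk']
  push_cast
  rfl

theorem dC_coe (hf : S.Smooth f) : F.dC (fun y => (f y : UnitAddCircle)) x = F.d f x := by
  exact F.dC_eq_d (LiftAt.coe (hf.continuous.continuousAt)) (hf x)

theorem dC_add_coe (hu : S.SmoothC u) (hf : S.Smooth f) :
    F.dC (fun y => u y + (f y : UnitAddCircle)) x = F.dC u x + F.d f x := by
  rw [F.dC_add hu hf.smoothC, F.dC_coe hf]

private theorem H06_dC_sum {ι : Type} (s : Finset ι) (φ : ι → X → UnitAddCircle)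
    (hφ : ∀ i ∈ s, S.SmoothC (φ i)) :
    F.dC (fun y => ∑ i ∈ s, φ i y) x = ∑ i ∈ s, F.dC (φ i) x := by
  classical
  induction s using Finset.induction_on with
  | empty =>
    simp only [Finset.sum_empty]
    have h1 : (fun _ : X => (0 : UnitAddCircle)) = fun _ : X => ((0 : ℝ) : UnitAddCircle) := by
      funext y
      simp
    have h2 : S.Smooth (fun _ : X => (0 : ℝ)) := fun y => CS.SmoothAt.const 0
    rw [h1, F.dC_coe h2, F.d_const]
  | insert i s hi ih =>
    have h1 : ∀ j ∈ s, S.SmoothC (φ j) := fun j hj => hφ j (Finset.mem_insert_of_mem hj)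
    have h2 := F.dC_add (x := x) (hφ i (Finset.mem_insert_self i s)) (CS.SmoothC.sum h1)
    rw [Finset.sum_insert hi, ← ih h1, ← h2]
    congr 1
    funext y
    rw [Finset.sum_insert hi]

theorem dC_comb {g : ℕ} {u v : Fin g → X → UnitAddCircle} (hu : ∀ j, S.SmoothC (u j))
    (hv : ∀ j, S.SmoothC (v j)) (m : Fin g ⊕ Fin g → ℤ) :
    F.dC (comb u v m) x = F.lin u v (fun i => (m i : ℝ)) x := by
  have hU : S.SmoothC (fun p => ∑ j, m (Sum.inl j) • u j p) :=
    CS.SmoothC.sum fun j _ => (hu j).zsmul _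
  have hV : S.SmoothC (fun p => ∑ j, m (Sum.inr j) • v j p) :=
    CS.SmoothC.sum fun j _ => (hv j).zsmul _
  have h1 := F.dC_add (x := x) hU hV
  have h2 : comb u v m = fun p => (∑ j, m (Sum.inl j) • u j p) + ∑ j, m (Sum.inr j) • v j p := rfl
  rw [h2, h1, F.H06_dC_sum _ _ (fun j _ => (hu j).zsmul _), F.H06_dC_sum _ _ (fun j _ => (hv j).zsmul _)]
  unfold lin
  congr 1
  · refine Finset.sum_congr rfl fun j _ => ?_
    rw [F.dC_zsmul (hu j)]
    push_cast
    rfl
  · refine Finset.sum_congr rfl fun j _ => ?_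
    rw [F.dC_zsmul (hv j)]
    push_cast
    rfl

end Frame

end Pool.Agent.Lib.MP_cca10c_ag
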