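import Pool.Agent.Lib.MP_cca10c_ag.H06_Forms

/-!
# Closed forms and harmonic forms (stub H07)

Local primitives of harmonic forms: in a disc chart the coefficient has a holomorphic primitive
(`DifferentiableOn.isExactOn_ball` or similar in Mathlib), extended arbitrarily outside the chart.
-/

set_option autoImplicit false

open Topology Set
open scoped ContDiff

namespace Pool.Agent.Lib.MP_cca10c_ag

variable {X : Type} [TopologicalSpace X] {S : CS X} {F : Frame S} {x : X} {f h : X → ℝ}
variable {e e' : OpenPartialHomeomorph X ℂ} {u w : X → UnitAddCircle} {a b : X → ℂ}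

/-! ### auxiliary facts -/

private theorem h07_symm_ev {e : OpenPartialHomeomorph X ℂ} {x : X} (hx : x ∈ e.source)
    {p : X → Prop} (h : ∀ᶠ y in 𝓝 x, p y) : ∀ᶠ w in 𝓝 (e x), p (e.symm w) := by
  have h1 := e.symm.continuousAt (e.map_source hx)
  have h2 : Filter.Tendsto e.symm (𝓝 (e x)) (𝓝 x) := by
    have := h1.tendsto
    rwa [e.left_inv hx] at this
  exact h2.eventually h

private theorem h07_ev {e : OpenPartialHomeomorph X ℂ} {x : X} (hx : x ∈ e.source)
    {p : ℂ → Prop} (h : ∀ᶠ z in 𝓝 (e x), p z) : ∀ᶠ y in 𝓝 x, p (e y) :=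
  (e.continuousAt hx).tendsto.eventually h

/-- holomorphy at `x` is holomorphy near `x` -/
private theorem h07_hol_ev {k : X → ℂ} {x : X} (hk : S.HolAt k x) : ∀ᶠ y in 𝓝 x, S.HolAt k y := by
  obtain ⟨e, he, hx⟩ := S.cover x
  have h1 := (hk e he hx).eventually_nhds
  have h2 := h07_ev hx h1
  filter_upwards [h2, e.open_source.mem_nhds hx] with y hy hye
  exact (CS.holAt_iff he hye).2 hy

private theorem h07_near_add (hf : S.SmoothNear f x) (hh : S.SmoothNear h x) :
    S.SmoothNear (fun y => f y + h y) x :=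
  (Filter.Eventually.and hf hh).mono fun _ hy => hy.1.add hy.2

private theorem h07_near_sub (hf : S.SmoothNear f x) (hh : S.SmoothNear h x) :
    S.SmoothNear (fun y => f y - h y) x :=
  (Filter.Eventually.and hf hh).mono fun _ hy => hy.1.sub hy.2

/-- the real part of a holomorphic function, in a chart -/
private theorem h07_co_re (F : Frame S) (he : e ∈ S.charts) {k : X → ℂ} {y : X} (hy : y ∈ e.source)
    (hk : S.HolAt k y) : F.co e (F.d fun z => (k z).re) (e y) = deriv (k ∘ e.symm) (e y) := by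
  rw [Frame.co_d F he hy hk.smoothAt_re]
  have h1 : DifferentiableAt ℂ (k ∘ e.symm) (e y) := (hk e he hy).self_of_nhds
  exact cgrad_re h1

namespace Frame

theorem closed_d (F : Frame S) (hf : S.Smooth f) : F.Closed (F.d f) :=
  fun _ => ⟨f, hf.smoothNear, Filter.Eventually.of_forall fun _ => rfl⟩

theorem closed_dC (F : Frame S) (hu : S.SmoothC u) : F.Closed (F.dC u) := by
  intro x
  obtain ⟨k, hk, hks⟩ := hu.exists_lift x
  refine ⟨k, hks, ?_⟩
  have h1 := hk.eventually (hks.mono fun y hy => hy.continuousAt)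
  exact (h1.and hks).mono fun y hy => dC_eq_d F hy.1 hy.2

theorem Closed.add (ha : F.Closed a) (hb : F.Closed b) : F.Closed (fun y => a y + b y) := by
  intro x
  obtain ⟨f, hf, hfa⟩ := ha x
  obtain ⟨h, hh, hhb⟩ := hb x
  refine ⟨fun y => f y + h y, h07_near_add hf hh, ?_⟩
  filter_upwards [hf, hh, hfa, hhb] with y h1 h2 h3 h4
  rw [h3, h4, d_add F h1 h2]

theorem Closed.sub (ha : F.Closed a) (hb : F.Closed b) : F.Closed (fun y => a y - b y) := by
  intro x
  obtain ⟨f, hf, hfa⟩ := ha x
  obtain ⟨h, hh, hhb⟩ := hb x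
  refine ⟨fun y => f y - h y, h07_near_sub hf hh, ?_⟩
  filter_upwards [hf, hh, hfa, hhb] with y h1 h2 h3 h4
  rw [h3, h4, d_sub F h1 h2]

theorem Closed.const_mul (c : ℝ) (ha : F.Closed a) : F.Closed (fun y => c * a y) := by
  intro x
  obtain ⟨f, hf, hfa⟩ := ha x
  refine ⟨fun y => c * f y, hf.mono fun y hy => hy.const_mul c, ?_⟩
  filter_upwards [hf, hfa] with y h1 h3
  rw [h3, d_const_mul F c h1]

private theorem h07_closed_zero (F : Frame S) : F.Closed (fun _ => 0) := by
  have h1 : S.Smooth (fun _ => (0 : ℝ)) := fun x => CS.SmoothAt.const 0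
  have h2 := closed_d F h1
  have h3 : F.d (fun _ => (0 : ℝ)) = fun _ => 0 := by
    funext x
    exact d_const F 0
  rwa [h3] at h2

private theorem h07_closed_sum (F : Frame S) {ι : Type} (s : Finset ι) {A : ι → X → ℂ}
    (hA : ∀ i ∈ s, F.Closed (A i)) : F.Closed (fun y => ∑ i ∈ s, A i y) := by
  classical
  induction s using Finset.induction_on with
  | empty => simpa using h07_closed_zero F
  | insert j s hj ih =>
    have h1 := (hA j (Finset.mem_insert_self _ _)).add
      (ih fun i hi => hA i (Finset.mem_insert_of_mem hi))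
    have h2 : (fun y => ∑ i ∈ insert j s, A i y) = fun y => A j y + ∑ i ∈ s, A i y := by
      funext y
      rw [Finset.sum_insert hj]
    rw [h2]
    exact h1

theorem closed_lin (F : Frame S) {g : ℕ} {u v : Fin g → X → UnitAddCircle} (hu : ∀ j, S.SmoothC (u j))
    (hv : ∀ j, S.SmoothC (v j)) (m : Fin g ⊕ Fin g → ℝ) : F.Closed (F.lin u v m) := by
  have h1 : F.Closed (fun p => ∑ j, (m (Sum.inl j) : ℂ) * F.dC (u j) p) :=
    h07_closed_sum F _ fun j _ => (closed_dC F (hu j)).const_mul _
  have h2 : F.Closed (fun p => ∑ j, (m (Sum.inr j) : ℂ) * F.dC (v j) p) :=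
    h07_closed_sum F _ fun j _ => (closed_dC F (hv j)).const_mul _
  exact h1.add h2

theorem HolIn.add {U : Set X} (ha : F.HolIn U a) (hb : F.HolIn U b) :
    F.HolIn U (fun y => a y + b y) := by
  intro e he
  refine ((ha e he).add (hb e he)).congr fun z _ => ?_
  show (a (e.symm z) + b (e.symm z)) * _ = a (e.symm z) * _ + b (e.symm z) * _
  ring

/-- multiplication by a complex constant (in particular the Hodge star) preserves harmonic forms -/
theorem HolIn.const_mul {U : Set X} (c : ℂ) (ha : F.HolIn U a) :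
    F.HolIn U (fun y => c * a y) := by
  intro e he
  refine ((ha e he).const_mul c).congr fun z _ => ?_
  show c * a (e.symm z) * _ = c * (a (e.symm z) * _)
  ring

/-- harmonic forms have local primitives which are real parts of holomorphic functions -/
theorem HolIn.exists_primitive {U : Set X} (hU : IsOpen U) (ha : F.HolIn U a) (hx : x ∈ U) :
    ∃ k : X → ℂ, S.HolAt k x ∧ ∀ᶠ y in 𝓝 x, a y = F.d (fun z => (k z).re) y := by
  obtain ⟨e, he, hxe, -, hsub, htar⟩ := CS.exists_disc S x (hU.mem_nhds hx) one_pos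
  have h1 : DifferentiableOn ℂ (F.co e a) (Metric.ball 0 1) := by
    refine (ha e he).mono fun z hz => ?_
    rw [← htar] at hz
    exact ⟨hz, hsub (e.map_target hz)⟩
  obtain ⟨K, hK⟩ := h1.isExactOn_ball
  have hK' : ∀ y ∈ e.source, HasDerivAt K (F.co e a (e y)) (e y) := by
    intro y hy
    refine hK (e y) ?_
    rw [← htar]
    exact e.map_source hy
  have h2 : ∀ y ∈ e.source, (fun w => K (e (e.symm w))) =ᶠ[𝓝 (e y)] K := by
    intro y hy
    filter_upwards [e.eventually_right_inverse (e.map_source hy)] with w hw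
    rw [hw]
  have h3 : ∀ y ∈ e.source, S.HolAt (fun p => K (e p)) y := by
    intro y hy
    rw [CS.holAt_iff he hy]
    filter_upwards [e.open_target.mem_nhds (e.map_source hy)] with z hz
    have h4 := h2 (e.symm z) (e.map_target hz)
    rw [e.right_inv hz] at h4
    have h5 := hK' (e.symm z) (e.map_target hz)
    rw [e.right_inv hz] at h5
    exact h5.differentiableAt.congr_of_eventuallyEq h4
  refine ⟨fun p => K (e p), h3 x hxe, ?_⟩
  filter_upwards [e.open_source.mem_nhds hxe] with y hy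
  refine eq_of_co F he hy ?_
  rw [h07_co_re F he hy (h3 y hy)]
  have h6 : deriv ((fun p => K (e p)) ∘ e.symm) (e y) = deriv K (e y) := (h2 y hy).deriv_eq
  rw [h6, (hK' y hy).deriv]

theorem Hol.closed (ha : F.Hol a) : F.Closed a := by
  intro x
  obtain ⟨k, hk, hka⟩ := HolIn.exists_primitive isOpen_univ ha (mem_univ x)
  exact ⟨fun z => (k z).re, (h07_hol_ev hk).mono fun y hy => hy.smoothAt_re, hka⟩

/-- if `a` has a primitive near the points of `U` which is the real part of a holomorphic function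
then `a` is harmonic in `U` -/
theorem holIn_of_primitive {U : Set X} (hU : IsOpen U)
    (h : ∀ x ∈ U, ∃ k : X → ℂ, S.HolAt k x ∧ ∀ᶠ y in 𝓝 x, a y = F.d (fun z => (k z).re) y) :
    F.HolIn U a := by
  intro e he z hz
  obtain ⟨hz1, hz2⟩ := hz
  have hxe : e.symm z ∈ e.source := e.map_target hz1
  obtain ⟨k, hk, hka⟩ := h _ hz2
  have h1 := (h07_hol_ev hk).and (hka.and (e.open_source.mem_nhds hxe))
  have h2 := h07_symm_ev hxe h1
  rw [e.right_inv hz1] at h2
  have h3 : F.co e a =ᶠ[𝓝 z] deriv (k ∘ e.symm) := by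
    filter_upwards [h2, e.open_target.mem_nhds hz1] with w hw hwt
    obtain ⟨hw1, hw2, hw3⟩ := hw
    have h4 := h07_co_re F he hw3 hw1
    rw [e.right_inv hwt] at h4
    rw [← h4]
    unfold Frame.co
    rw [hw2]
  have h5 : ∀ᶠ w in 𝓝 z, DifferentiableAt ℂ (k ∘ e.symm) w := by
    have := hk e he hxe
    rwa [e.right_inv hz1] at this
  have h6 : AnalyticAt ℂ (k ∘ e.symm) z := by
    rw [Complex.analyticAt_iff_eventually_differentiableAt]
    exact h5
  exact (h6.deriv.differentiableAt.congr_of_eventuallyEq h3).differentiableWithinAt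

/-- germ families and closed forms -/
theorem closed_g (F : Frame S) {k : X → X → ℝ} (hk : S.Fam k) : F.Closed (F.g k) := by
  intro x
  obtain ⟨h1, h2⟩ := hk x
  refine ⟨k x, h1, ?_⟩
  filter_upwards [h1, h2] with y hy1 hy2
  obtain ⟨c, hc⟩ := hy2
  show F.d (k y) y = F.d (k x) y
  have h3 : k y =ᶠ[𝓝 y] fun z => k x z + c := hc
  rw [d_congr F h3, d_add F hy1 (CS.SmoothAt.const c), d_const F c, add_zero]

theorem Closed.exists_fam (ha : F.Closed a) : ∃ k : X → X → ℝ, S.Fam k ∧ F.g k = a ∧
    ∀ x, ∀ᶠ y in 𝓝 x, F.d (k x) y = a y := by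
  choose k hk hka using ha
  have h3 : ∀ x, ∀ᶠ y in 𝓝 x, F.d (k x) y = a y := fun x => (hka x).mono fun y hy => hy.symm
  refine ⟨k, fun x => ⟨hk x, ?_⟩, ?_, h3⟩
  · have h1 : ∀ᶠ y in 𝓝 x, S.SmoothNear (k x) y := (hk x).eventually_nhds
    have h2 : ∀ᶠ y in 𝓝 x, ∀ᶠ z in 𝓝 y, F.d (k x) z = a z := (h3 x).eventually_nhds
    filter_upwards [h1, h2] with y hy1 hy2
    refine ⟨k y y - k x y, ?_⟩
    refine eventually_eq_of_d_eq F (hk y) hy1 ?_
    filter_upwards [hy2, h3 y] with z hz1 hz2
    rw [hz1, hz2]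
  · funext x
    exact (h3 x).self_of_nhds

end Frame

end Pool.Agent.Lib.MP_cca10c_ag
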