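import Pool.Agent.Lib.MP_cca10c_ag.H04_Smooth

/-!
# Extension by zero, bump functions, partitions of unity (H08)

`exists_ext`: near a point outside `e.source` the function vanishes, because
`e.symm '' tsupport ψ` is compact, hence closed (`T2Space`). Bump functions: finitely many
`ContDiffBump`s in disc charts cover `K`; compose the sum with a smooth step
(`Real.smoothTransition`). Partition of unity: shrink the cover
(`exists_iUnion_eq_closure_subset`, normal space), take bump functions and divide by the sum.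
-/

set_option autoImplicit false

open Topology Set
open scoped ContDiff

namespace Pool.Agent.Lib.MP_cca10c_ag

variable {X : Type} [TopologicalSpace X] {S : CS X}

/-- extension by zero of a test function in a chart -/
theorem CS.smooth_ext [T2Space X] {e : OpenPartialHomeomorph X ℂ} (he : e ∈ S.charts)
    {ψ : ℂ → ℝ} (hψ : ContDiff ℝ ∞ ψ) (hc : HasCompactSupport ψ) (hs : tsupport ψ ⊆ e.target) :
    S.Smooth (e.source.indicator (fun x => ψ (e x))) := by
  intro x
  by_cases hx : x ∈ e.source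
  · refine CS.SmoothAt.congr (CS.SmoothAt.of_chart he hx hψ.contDiffAt) ?_
    filter_upwards [e.open_source.mem_nhds hx] with y hy
    simp [Set.indicator_of_mem hy]
  · have hK : IsCompact (e.symm '' tsupport ψ) :=
      (show IsCompact (tsupport ψ) from hc).image_of_continuousOn (e.continuousOn_symm.mono hs)
    have hxK : x ∉ e.symm '' tsupport ψ := by
      rintro ⟨z, hz, rfl⟩
      exact hx (e.map_target (hs hz))
    refine CS.SmoothAt.congr (CS.SmoothAt.const 0) ?_
    filter_upwards [hK.isClosed.isOpen_compl.mem_nhds hxK] with y hy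
    by_cases hys : y ∈ e.source
    · rw [Set.indicator_of_mem hys]
      by_contra hne
      have : e y ∈ tsupport ψ := subset_tsupport _ hne
      exact hy ⟨e y, this, e.left_inv hys⟩
    · rw [Set.indicator_of_notMem hys]

/-- extension by zero of a smooth function with compact support in an open set -/
theorem CS.smooth_indicator [T2Space X] {U K : Set X} {f : X → ℝ} (hK : IsCompact K)
    (hU : IsOpen U) (hKU : K ⊆ U) (hf : ∀ x ∈ U, S.SmoothAt f x)
    (h0 : ∀ x ∈ U, x ∉ K → f x = 0) : S.Smooth (U.indicator f) := by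
  intro x
  by_cases hx : x ∈ U
  · refine CS.SmoothAt.congr (hf x hx) ?_
    filter_upwards [hU.mem_nhds hx] with y hy
    rw [Set.indicator_of_mem hy]
  · have hxK : x ∉ K := fun h => hx (hKU h)
    refine CS.SmoothAt.congr (CS.SmoothAt.const 0) ?_
    filter_upwards [hK.isClosed.isOpen_compl.mem_nhds hxK] with y hy
    by_cases hys : y ∈ U
    · rw [Set.indicator_of_mem hys]
      exact h0 y hys hy
    · rw [Set.indicator_of_notMem hys]

theorem CS.exists_bump [T2Space X] (S : CS X) {U K : Set X} (hK : IsCompact K)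
    (hU : IsOpen U) (hKU : K ⊆ U) : ∃ φ : X → ℝ, S.Smooth φ ∧ (∀ x, 0 ≤ φ x ∧ φ x ≤ 1) ∧
      (∃ V, IsOpen V ∧ K ⊆ V ∧ ∀ x ∈ V, φ x = 1) ∧ HasCompactSupport φ ∧ tsupport φ ⊆ U := by
  classical
  -- the bump function in the plane
  let ψ : ContDiffBump (0 : ℂ) := ⟨1, 2, one_pos, by norm_num⟩
  have hψ1 : ∀ z ∈ Metric.ball (0 : ℂ) 1, ψ z = 1 := fun z hz =>
    ψ.one_of_mem_closedBall (Metric.ball_subset_closedBall hz)
  have hψs : tsupport (ψ : ℂ → ℝ) = Metric.closedBall 0 2 := ψ.tsupport_eq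
  have hch : ∀ x : X, ∃ e ∈ S.charts, x ∈ e.source ∧ e x = 0 ∧ (x ∈ K → e.source ⊆ U) ∧
      e.target = Metric.ball 0 3 := by
    intro x
    by_cases hx : x ∈ K
    · obtain ⟨e, he, h1, h2, h3, h4⟩ :=
        S.exists_disc x (hU.mem_nhds (hKU hx)) (R := 3) (by norm_num)
      exact ⟨e, he, h1, h2, fun _ => h3, h4⟩
    · obtain ⟨e, he, h1, h2, _, h4⟩ :=
        S.exists_disc x (U := univ) Filter.univ_mem (R := 3) (by norm_num)
      exact ⟨e, he, h1, h2, fun h => absurd h hx, h4⟩
  choose e he hxe hex heU het using hch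
  -- the local bump functions
  let φ : X → X → ℝ := fun x => (e x).source.indicator (fun y => ψ (e x y))
  have hsub : ∀ x ∈ K, tsupport (ψ : ℂ → ℝ) ⊆ (e x).target := by
    intro x hx
    rw [hψs, het x]
    exact Metric.closedBall_subset_ball (by norm_num)
  have hφs : ∀ x ∈ K, S.Smooth (φ x) := fun x hx =>
    CS.smooth_ext (he x) ψ.contDiff ψ.hasCompactSupport (hsub x hx)
  have hφ0 : ∀ x y, 0 ≤ φ x y := by
    intro x y
    exact Set.indicator_nonneg (f := fun z => ψ (e x z)) (fun z _ => ψ.nonneg) y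
  let V : X → Set X := fun x => (e x).source ∩ (e x) ⁻¹' Metric.ball 0 1
  have hVo : ∀ x ∈ K, IsOpen (V x) := fun x _ =>
    (e x).isOpen_inter_preimage Metric.isOpen_ball
  have hVx : ∀ x ∈ K, x ∈ V x := by
    intro x hx
    refine ⟨hxe x, ?_⟩
    simp [hex x]
  have hφV : ∀ x ∈ K, ∀ y ∈ V x, φ x y = 1 := by
    intro x _ y hy
    have : φ x y = ψ (e x y) := Set.indicator_of_mem hy.1 _
    rw [this]
    exact hψ1 _ hy.2
  -- finite subcover
  obtain ⟨t, htK, htc⟩ := hK.elim_nhds_subcover V (fun x hx => (hVo x hx).mem_nhds (hVx x hx))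
  -- the compact set containing the support
  let L : Set X := ⋃ x ∈ t, (e x).symm '' tsupport (ψ : ℂ → ℝ)
  have hLc : IsCompact L := by
    refine t.isCompact_biUnion fun x hx => ?_
    exact (show IsCompact (tsupport (ψ : ℂ → ℝ)) from ψ.hasCompactSupport).image_of_continuousOn
      ((e x).continuousOn_symm.mono (hsub x (htK x hx)))
  have hLU : L ⊆ U := by
    intro y hy
    simp only [L, mem_iUnion] at hy
    obtain ⟨x, hx, z, hz, rfl⟩ := hy
    exact heU x (htK x hx) ((e x).map_target (hsub x (htK x hx) hz))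
  let Φ : X → ℝ := fun y => ∑ x ∈ t, φ x y
  have hΦs : S.Smooth Φ := fun y => CS.SmoothAt.sum fun x hx => hφs x (htK x hx) y
  have hΦ0 : ∀ y, y ∉ L → Φ y = 0 := by
    intro y hy
    refine Finset.sum_eq_zero fun x hx => ?_
    by_cases hys : y ∈ (e x).source
    · have h1 : φ x y = ψ (e x y) := Set.indicator_of_mem hys _
      rw [h1]
      by_contra hne
      apply hy
      simp only [L, mem_iUnion]
      exact ⟨x, hx, e x y, subset_tsupport _ hne, (e x).left_inv hys⟩
    · exact Set.indicator_of_notMem hys _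
  have hsupp : Function.support (fun y => Real.smoothTransition (Φ y)) ⊆ L := by
    intro y hy
    by_contra hyL
    apply hy
    show Real.smoothTransition (Φ y) = 0
    rw [hΦ0 y hyL]
    exact Real.smoothTransition.zero_of_nonpos le_rfl
  have htsupp : tsupport (fun y => Real.smoothTransition (Φ y)) ⊆ L :=
    closure_minimal hsupp hLc.isClosed
  refine ⟨fun y => Real.smoothTransition (Φ y), ?_, ?_, ⟨⋃ x ∈ t, V x, ?_, htc, ?_⟩, ?_, ?_⟩
  · intro y
    exact CS.SmoothAt.comp (Real.smoothTransition.contDiff.contDiffAt) (hΦs y)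
  · intro y
    exact ⟨Real.smoothTransition.nonneg _, Real.smoothTransition.le_one _⟩
  · exact isOpen_biUnion fun x hx => hVo x (htK x hx)
  · intro y hy
    simp only [mem_iUnion] at hy
    obtain ⟨x, hx, hxy⟩ := hy
    refine Real.smoothTransition.one_of_one_le ?_
    calc (1 : ℝ) = φ x y := (hφV x (htK x hx) y hxy).symm
      _ ≤ Φ y := Finset.single_le_sum (f := fun x => φ x y) (fun z _ => hφ0 z y) hx
  · exact hLc.of_isClosed_subset (isClosed_tsupport _) htsupp
  · exact htsupp.trans hLU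

theorem CS.exists_partition [T2Space X] [CompactSpace X] (S : CS X) {ι : Type} [Fintype ι]
    {U : ι → Set X} (hU : ∀ i, IsOpen (U i)) (hcov : ⋃ i, U i = univ) :
    ∃ χ : ι → X → ℝ, (∀ i, S.Smooth (χ i)) ∧ (∀ i x, 0 ≤ χ i x) ∧ (∀ x, ∑ i, χ i x = 1) ∧
      ∀ i, tsupport (χ i) ⊆ U i := by
  classical
  obtain ⟨v, hvU, hvo, hvc⟩ := exists_iUnion_eq_closure_subset hU
    (fun x => Set.toFinite _) hcov
  have hb : ∀ i, ∃ φ : X → ℝ, S.Smooth φ ∧ (∀ x, 0 ≤ φ x ∧ φ x ≤ 1) ∧
      (∃ V, IsOpen V ∧ closure (v i) ⊆ V ∧ ∀ x ∈ V, φ x = 1) ∧ HasCompactSupport φ ∧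
      tsupport φ ⊆ U i := fun i => S.exists_bump isClosed_closure.isCompact (hU i) (hvc i)
  choose φ hφs hφ01 hφV _ hφU using hb
  let Φ : X → ℝ := fun x => ∑ i, φ i x
  have hΦ : ∀ x, 1 ≤ Φ x := by
    intro x
    have hx : x ∈ ⋃ i, v i := by rw [hvU]; trivial
    obtain ⟨i, hi⟩ := mem_iUnion.1 hx
    obtain ⟨V, _, hV, h1⟩ := hφV i
    calc (1 : ℝ) = φ i x := (h1 x (hV (subset_closure hi))).symm
      _ ≤ Φ x := Finset.single_le_sum (f := fun i => φ i x) (fun j _ => (hφ01 j x).1)
          (Finset.mem_univ i)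
  have hΦpos : ∀ x, 0 < Φ x := fun x => lt_of_lt_of_le one_pos (hΦ x)
  have hΦs : S.Smooth Φ := fun y => CS.SmoothAt.sum fun i _ => hφs i y
  refine ⟨fun i x => φ i x * (Φ x)⁻¹, ?_, ?_, ?_, ?_⟩
  · intro i x
    refine CS.SmoothAt.mul (hφs i x) ?_
    exact CS.SmoothAt.comp (k := fun t => t⁻¹) (contDiffAt_inv ℝ (hΦpos x).ne') (hΦs x)
  · intro i x
    exact mul_nonneg (hφ01 i x).1 (inv_nonneg.2 (hΦpos x).le)
  · intro x
    rw [← Finset.sum_mul]
    exact mul_inv_cancel₀ (hΦpos x).ne'
  · intro i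
    exact (tsupport_mul_subset_left).trans (hφU i)

/-- a finite cover of a compact surface by disc charts inside given neighbourhoods -/
theorem CS.exists_disc_cover [CompactSpace X] (S : CS X) {W : X → Set X}
    (hW : ∀ x, W x ∈ 𝓝 x) : ∃ (n : ℕ) (x : Fin n → X) (e : Fin n → OpenPartialHomeomorph X ℂ),
      (∀ i, e i ∈ S.charts) ∧ (∀ i, (e i).target = Metric.ball 0 1) ∧
      (∀ i, (e i).source ⊆ W (x i)) ∧ ⋃ i, (e i).source = univ := by
  classical
  have hch : ∀ x : X, ∃ e ∈ S.charts, x ∈ e.source ∧ e x = 0 ∧ e.source ⊆ W x ∧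
      e.target = Metric.ball 0 1 := fun x => S.exists_disc x (hW x) one_pos
  choose e he hxe _ heW het using hch
  obtain ⟨t, ht⟩ := CompactSpace.elim_nhds_subcover (fun x => (e x).source)
    (fun x => (e x).open_source.mem_nhds (hxe x))
  refine ⟨t.card, fun i => (t.equivFin.symm i : X), fun i => e (t.equivFin.symm i : X),
    fun i => he _, fun i => het _, fun i => heW _, ?_⟩
  refine eq_univ_of_forall fun y => ?_
  have hy : y ∈ ⋃ x ∈ t, (e x).source := by rw [ht]; trivial
  simp only [mem_iUnion] at hy ⊢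
  obtain ⟨x, hx, hxy⟩ := hy
  refine ⟨t.equivFin ⟨x, hx⟩, ?_⟩
  simpa using hxy

end Pool.Agent.Lib.MP_cca10c_ag
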