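import Pool.Agent.Lib.MP_cca10c_ag.H07_Closed
import Pool.Agent.Lib.MP_cca10c_ag.H04x_ChartInt

/-!
# Tame frames exist; measurability and boundedness of forms (stub H09)

Tame frame: cover the compact space by finitely many open sets `V i` with compact closure in a chart
domain (`e i.symm '' closedBall 0 1`, chart with target `ball 0 2`), and
`P i = V i \ ⋃ j < i, V j`. The measure `F.nu` is the sum of the images of the Lebesgue measures on
`e i '' P i` (measurable, bounded). A form which is continuous on every piece in the sense of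
`measurable_of_pieces` is measurable; closed forms have this property because near every point
`F.co e a` is the gradient of a smooth function, and `a x = F.co (F.e i) a (F.e i x)` on `P i`.
-/

set_option autoImplicit false

open Topology Set MeasureTheory
open scoped ContDiff ENNReal

namespace Pool.Agent.Lib.MP_cca10c_ag

variable {X : Type} [TopologicalSpace X] {S : CS X}

theorem CS.exists_tame [CompactSpace X] [T2Space X] (S : CS X) : ∃ F : Frame S, F.Tame := by
  classical
  choose e he hxe using S.cover
  have hK : ∀ x, ∃ K : Set X, IsCompact K ∧ x ∈ interior K ∧ K ⊆ (e x).source := fun x =>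
    exists_compact_subset (e x).open_source (hxe x)
  choose K hKc hxK hKs using hK
  obtain ⟨t, ht⟩ := isCompact_univ.elim_finite_subcover (fun x => interior (K x))
    (fun x => isOpen_interior) (fun x _ => mem_iUnion.2 ⟨x, hxK x⟩)
  set n := t.card with hn
  let p : Fin n → X := fun i => (t.equivFin.symm i : X)
  let V : Fin n → Set X := fun i => interior (K (p i))
  have hVcover : ⋃ i, V i = univ := by
    refine eq_univ_of_univ_subset fun x hx => ?_
    have h1 := ht hx
    simp only [mem_iUnion] at h1
    obtain ⟨y, hy, hxy⟩ := h1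
    refine mem_iUnion.2 ⟨t.equivFin ⟨y, hy⟩, ?_⟩
    simp only [V, p, Equiv.symm_apply_apply]
    exact hxy
  let P : Fin n → Set X := fun i => V i \ ⋃ j, ⋃ (_ : j < i), V j
  have hPsub : ∀ i, P i ⊆ K (p i) := fun i => diff_subset.trans interior_subset
  refine ⟨{ n := n
            e := fun i => e (p i)
            mem := fun i => he _
            P := P
            meas := ?_
            sub := fun i => (hPsub i).trans (hKs _)
            disj := ?_
            cover := ?_ }, ?_⟩
  · intro i
    letI : MeasurableSpace X := borel X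
    haveI : BorelSpace X := ⟨rfl⟩
    exact isOpen_interior.measurableSet.diff
      (MeasurableSet.iUnion fun j => MeasurableSet.iUnion fun _ => isOpen_interior.measurableSet)
  · intro i j hij
    rw [Set.disjoint_left]
    intro x hxi hxj
    rcases lt_or_gt_of_ne hij with h | h
    · exact hxj.2 (mem_iUnion.2 ⟨i, mem_iUnion.2 ⟨h, hxi.1⟩⟩)
    · exact hxi.2 (mem_iUnion.2 ⟨j, mem_iUnion.2 ⟨h, hxj.1⟩⟩)
  · refine eq_univ_of_univ_subset fun x _ => ?_
    have hx : x ∈ ⋃ i, V i := by rw [hVcover]; exact mem_univ x
    obtain ⟨i, hi⟩ := mem_iUnion.1 hx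
    have hne : (Finset.univ.filter fun i => x ∈ V i).Nonempty := ⟨i, by simp [hi]⟩
    set i0 := (Finset.univ.filter fun i => x ∈ V i).min' hne with hi0
    have h1 : x ∈ V i0 := by
      have := Finset.min'_mem _ hne
      rw [← hi0, Finset.mem_filter] at this
      exact this.2
    refine mem_iUnion.2 ⟨i0, h1, ?_⟩
    intro h2
    simp only [mem_iUnion] at h2
    obtain ⟨j, hj, hxj⟩ := h2
    have h3 : i0 ≤ j := Finset.min'_le _ _ (by simp [hxj])
    exact absurd hj (not_lt.2 h3)
  · intro i
    exact ⟨K (p i), hKc _, hPsub i, hKs _⟩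

namespace Frame

variable {F : Frame S}

/-- the coefficient of a closed form in a chart is smooth -/
theorem Closed.contDiffAt_co {a : X → ℂ} (ha : F.Closed a) {e : OpenPartialHomeomorph X ℂ}
    (he : e ∈ S.charts) {z : ℂ} (hz : z ∈ e.target) : ContDiffAt ℝ ∞ (F.co e a) z := by
  obtain ⟨f, hf, hfa⟩ := ha (e.symm z)
  have hx : e.symm z ∈ e.source := e.map_target hz
  have h1 := (CS.smoothNear_iff he hx).1 hf
  rw [e.right_inv hz] at h1
  have h2 : ContDiffAt ℝ ∞ (cgrad (f ∘ e.symm)) z := contDiffAt_cgrad h1
  refine h2.congr_of_eventuallyEq ?_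
  have hcont : Filter.Tendsto e.symm (𝓝 z) (𝓝 (e.symm z)) := e.continuousAt_symm hz
  filter_upwards [hcont.eventually hfa, hcont.eventually hf, e.open_target.mem_nhds hz]
    with w hw1 hw2 hw3
  have h3 := F.co_d he (e.map_target hw3) hw2
  rw [e.right_inv hw3] at h3
  rw [← h3]
  simp only [Frame.co]
  rw [hw1]

variable [MeasurableSpace X] [BorelSpace X]

theorem measurable_of_pieces {a : X → ℂ}
    (h : ∀ i, ∃ b : X → ℂ, ContinuousOn b (F.e i).source ∧ EqOn a b (F.P i)) :
    Measurable a := by
  choose b hb hab using h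
  intro B hB
  have h1 : a ⁻¹' B = ⋃ i, (F.P i ∩ ((F.e i).source ∩ (b i) ⁻¹' B)) := by
    ext x
    rw [mem_iUnion]
    constructor
    · intro hx
      refine ⟨F.ix x, F.ix_spec x, F.sub _ (F.ix_spec x), ?_⟩
      rw [mem_preimage, ← hab _ (F.ix_spec x)]
      exact hx
    · rintro ⟨i, hx, _, hB'⟩
      rw [mem_preimage, ← hab i hx] at hB'
      exact hB'
  rw [h1]
  refine MeasurableSet.iUnion fun i => (F.measurableSet_P i).inter ?_
  have hs : MeasurableSet (F.e i).source := (F.e i).open_source.measurableSet
  have h2 : Measurable ((F.e i).source.domRestrict (b i)) :=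
    (continuousOn_iff_continuous_domRestrict.1 (hb i)).measurable
  have h3 := hs.subtype_image (h2 hB)
  convert h3 using 1
  ext y
  constructor
  · rintro ⟨hy, hyB⟩
    exact ⟨⟨y, hy⟩, hyB, rfl⟩
  · rintro ⟨⟨y, hy⟩, hyB, rfl⟩
    exact ⟨hy, hyB⟩

private theorem H09_co {a : X → ℂ} (ha : F.Closed a) (i : Fin F.n) :
    ContinuousOn (F.co (F.e i) a) (F.e i).target := fun _ hz =>
  (Closed.contDiffAt_co ha (F.mem i) hz).continuousAt.continuousWithinAt

theorem Closed.measurable {a : X → ℂ} (ha : F.Closed a) : Measurable a :=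
  F.measurable_of_co fun i => H09_co ha i

theorem Tame.isFiniteMeasure (hF : F.Tame) : IsFiniteMeasure F.nu := F.isFiniteMeasure_nu hF

theorem Closed.bounded (hF : F.Tame) {a : X → ℂ} (ha : F.Closed a) : ∃ C : ℝ, ∀ x, ‖a x‖ ≤ C :=
  F.bounded_of_co hF fun i => H09_co ha i

theorem Closed.memLp (hF : F.Tame) {a : X → ℂ} (ha : F.Closed a) : MemLp a 2 F.nu :=
  F.memLp_of_co hF fun i => H09_co ha i

end Frame

end Pool.Agent.Lib.MP_cca10c_ag
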