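import Pool.Agent.Lib.MP_cca10c_ag.H09_Frame
import Pool.Agent.Lib.MP_cca10c_ag.H04x_ChartInt

/-!
# Change of variables for the measure of a frame (stub H10)

On `A ∩ P i` the map `e i ∘ e.symm` is holomorphic and injective with Jacobian determinant
`‖deriv ..‖ ^ 2` (`MeasureTheory.lintegral_image_eq_lintegral_abs_det_fderiv_mul`); sum over `i`.
`(F.ch (e.symm z) ∘ e.symm)` is the function `F.e i ∘ e.symm` for `z ∈ e '' (A ∩ P i)`.
-/

set_option autoImplicit false

open Topology Set MeasureTheory
open scoped ContDiff ENNReal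

namespace Pool.Agent.Lib.MP_cca10c_ag

variable {X : Type} [TopologicalSpace X] {S : CS X}

namespace Frame

variable (F : Frame S) [MeasurableSpace X] [BorelSpace X]

omit [MeasurableSpace X] [BorelSpace X] in
private theorem H10_image {e : OpenPartialHomeomorph X ℂ} {A : Set X} (hAe : A ⊆ e.source) {z : ℂ}
    (hz : z ∈ e.target) : z ∈ e '' A ↔ e.symm z ∈ A := by
  constructor
  · rintro ⟨x, hx, rfl⟩
    rwa [e.left_inv (hAe hx)]
  · intro h
    exact ⟨e.symm z, h, e.right_inv hz⟩

omit [MeasurableSpace X] [BorelSpace X] in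
private theorem H10_sub {e : OpenPartialHomeomorph X ℂ} {A : Set X} (hAe : A ⊆ e.source) :
    e '' A ⊆ e.target := by
  rintro _ ⟨x, hx, rfl⟩
  exact e.map_source (hAe hx)

theorem lintegral_nu {e : OpenPartialHomeomorph X ℂ} (he : e ∈ S.charts) {A : Set X}
    (hA : MeasurableSet A) (hAe : A ⊆ e.source) {f : X → ℝ≥0∞} (hf : Measurable f) :
    ∫⁻ x in A, f x ∂F.nu = ∫⁻ z in e '' A,
      ENNReal.ofReal (‖deriv (F.ch (e.symm z) ∘ e.symm) z‖ ^ 2) * f (e.symm z) := by
  have hAm := measurableSet_image_chart e hA hAe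
  have h1 := F.lintegral_chart_h he (hf.indicator hA)
  rw [setLIntegral_indicator hA, inter_eq_left.2 hAe] at h1
  rw [h1]
  have h2 : ∀ z ∈ e.target, F.jacE e z * A.indicator f (e.symm z) =
      (e '' A).indicator (fun z => ENNReal.ofReal (‖deriv (F.ch (e.symm z) ∘ e.symm) z‖ ^ 2) *
        f (e.symm z)) z := by
    intro z hz
    by_cases hzA : z ∈ e '' A
    · rw [indicator_of_mem hzA, indicator_of_mem ((H10_image hAe hz).1 hzA), Frame.jacE]
    · rw [indicator_of_notMem hzA, indicator_of_notMem (fun h => hzA ((H10_image hAe hz).2 h)),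
        mul_zero]
  rw [setLIntegral_congr_fun e.open_target.measurableSet h2, setLIntegral_indicator hAm,
    inter_eq_left.2 (H10_sub hAe)]

private theorem H10_aem_jac {e : OpenPartialHomeomorph X ℂ} {A : Set X} (hAe : A ⊆ e.source) :
    AEMeasurable (F.jacE e) ((volume : Measure ℂ).restrict (e '' A)) :=
  (F.aemeasurable_jacE e).mono_measure (Measure.restrict_mono (H10_sub hAe) le_rfl)

private theorem H10_aem_symm {e : OpenPartialHomeomorph X ℂ} {A : Set X} (hAe : A ⊆ e.source) :
    AEMeasurable e.symm ((volume : Measure ℂ).restrict (e '' A)) :=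
  (aemeasurable_symm_chart e).mono_measure (Measure.restrict_mono (H10_sub hAe) le_rfl)

/-- the measure of the frame on a Borel subset of the domain of a chart -/
private theorem H10_nu_restrict {e : OpenPartialHomeomorph X ℂ} (he : e ∈ S.charts) {A : Set X}
    (hA : MeasurableSet A) (hAe : A ⊆ e.source) :
    F.nu.restrict A =
      (((volume : Measure ℂ).restrict (e '' A)).withDensity (F.jacE e)).map e.symm := by
  have hsymm : AEMeasurable e.symm
      (((volume : Measure ℂ).restrict (e '' A)).withDensity (F.jacE e)) :=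
    (H10_aem_symm hAe).mono_ac (withDensity_absolutelyContinuous _ _)
  refine Measure.ext fun B hB => ?_
  have hg : Measurable (B.indicator (1 : X → ℝ≥0∞)) := measurable_one.indicator hB
  rw [← lintegral_indicator_one hB, ← lintegral_indicator_one hB,
    F.lintegral_nu he hA hAe hg, lintegral_map' hg.aemeasurable hsymm,
    lintegral_withDensity_eq_lintegral_mul₀ (F.H10_aem_jac hAe)]
  · rfl
  · exact hg.comp_aemeasurable (H10_aem_symm hAe)

/-- the inverse of a chart as a measurable embedding of its target -/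
private theorem H10_emb (e : OpenPartialHomeomorph X ℂ) :
    MeasurableEmbedding (fun z : e.target => e.symm z) := by
  have h1 : MeasurableEmbedding (Subtype.val : e.source → X) :=
    MeasurableEmbedding.subtype_coe e.open_source.measurableSet
  have h2 : MeasurableEmbedding (e.symm.toHomeomorphSourceTarget : e.target → e.source) :=
    e.symm.toHomeomorphSourceTarget.measurableEmbedding
  exact h1.comp h2

private theorem H10_map {e : OpenPartialHomeomorph X ℂ} {μ : Measure ℂ}
    (hμ : μ.restrict e.target = μ) (hsymm : AEMeasurable e.symm μ) :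
    μ.map e.symm = (μ.comap (Subtype.val : e.target → ℂ)).map (fun z : e.target => e.symm z) := by
  have h1 : (μ.comap (Subtype.val : e.target → ℂ)).map (Subtype.val : e.target → ℂ) = μ := by
    rw [map_comap_subtype_coe e.open_target.measurableSet, hμ]
  conv_lhs => rw [← h1]
  rw [← h1] at hsymm
  rw [AEMeasurable.map_map_of_aemeasurable hsymm measurable_subtype_coe.aemeasurable]
  rfl

private theorem H10_restrict {e : OpenPartialHomeomorph X ℂ} {A : Set X}
    (hAe : A ⊆ e.source) :
    ((((volume : Measure ℂ).restrict (e '' A)).withDensity (F.jacE e))).restrict e.target =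
      (((volume : Measure ℂ).restrict (e '' A)).withDensity (F.jacE e)) := by
  rw [restrict_withDensity e.open_target.measurableSet,
    Measure.restrict_restrict e.open_target.measurableSet, inter_eq_right.2 (H10_sub hAe)]

private theorem H10_aem_symm' {e : OpenPartialHomeomorph X ℂ} {A : Set X}
    (hAe : A ⊆ e.source) : AEMeasurable e.symm
      (((volume : Measure ℂ).restrict (e '' A)).withDensity (F.jacE e)) :=
  (H10_aem_symm hAe).mono_ac (withDensity_absolutelyContinuous _ _)

/-- the same for Bochner integrals (no integrability needed) -/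
theorem integral_nu {E : Type} [NormedAddCommGroup E] [NormedSpace ℝ E]
    {e : OpenPartialHomeomorph X ℂ} (he : e ∈ S.charts) {A : Set X}
    (hA : MeasurableSet A) (hAe : A ⊆ e.source) (f : X → E) :
    ∫ x in A, f x ∂F.nu = ∫ z in e '' A,
      (‖deriv (F.ch (e.symm z) ∘ e.symm) z‖ ^ 2) • f (e.symm z) := by
  set μ : Measure ℂ := ((volume : Measure ℂ).restrict (e '' A)).withDensity (F.jacE e) with hμ
  have h1 : ∫ x in A, f x ∂F.nu = ∫ z, f (e.symm z) ∂μ := by
    rw [F.H10_nu_restrict he hA hAe, H10_map (F.H10_restrict hAe) (F.H10_aem_symm' hAe),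
      (H10_emb e).integral_map]
    have h2 := (MeasurableEmbedding.subtype_coe e.open_target.measurableSet).integral_map
      (μ := μ.comap (Subtype.val : e.target → ℂ)) (fun z : ℂ => f (e.symm z))
    rw [map_comap_subtype_coe e.open_target.measurableSet, F.H10_restrict hAe] at h2
    exact h2.symm
  rw [h1, hμ, integral_withDensity_eq_integral_toReal_smul₀ (F.H10_aem_jac hAe)]
  · refine integral_congr_ae (Filter.Eventually.of_forall fun z => ?_)
    simp only
    rw [F.jacE_toReal]
  · exact Filter.Eventually.of_forall fun z => ENNReal.ofReal_lt_top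

theorem integrableOn_nu_iff {E : Type} [NormedAddCommGroup E] [NormedSpace ℝ E]
    {e : OpenPartialHomeomorph X ℂ} (he : e ∈ S.charts) {A : Set X}
    (hA : MeasurableSet A) (hAe : A ⊆ e.source) (f : X → E) :
    IntegrableOn f A F.nu ↔ IntegrableOn (fun z =>
      (‖deriv (F.ch (e.symm z) ∘ e.symm) z‖ ^ 2) • f (e.symm z)) (e '' A) := by
  set μ : Measure ℂ := ((volume : Measure ℂ).restrict (e '' A)).withDensity (F.jacE e) with hμ
  have h1 : IntegrableOn f A F.nu ↔ Integrable (fun z => f (e.symm z)) μ := by
    unfold IntegrableOn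
    rw [F.H10_nu_restrict he hA hAe, H10_map (F.H10_restrict hAe) (F.H10_aem_symm' hAe),
      (H10_emb e).integrable_map_iff]
    have h2 := (MeasurableEmbedding.subtype_coe e.open_target.measurableSet).integrable_map_iff
      (μ := μ.comap (Subtype.val : e.target → ℂ)) (g := fun z : ℂ => f (e.symm z))
    rw [map_comap_subtype_coe e.open_target.measurableSet, F.H10_restrict hAe] at h2
    exact h2.symm
  rw [h1, hμ, integrable_withDensity_iff_integrable_smul₀' (F.H10_aem_jac hAe)
    (Filter.Eventually.of_forall fun z => ENNReal.ofReal_lt_top)]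
  unfold IntegrableOn
  refine integrable_congr (Filter.Eventually.of_forall fun z => ?_)
  simp only
  rw [F.jacE_toReal]

/-- null sets -/
theorem nu_eq_zero_iff {e : OpenPartialHomeomorph X ℂ} (he : e ∈ S.charts) {A : Set X}
    (hA : MeasurableSet A) (hAe : A ⊆ e.source) : F.nu A = 0 ↔ volume (e '' A) = 0 := by
  have hAm := measurableSet_image_chart e hA hAe
  have h1 : F.nu A = ∫⁻ z in e '' A, F.jacE e z := by
    have h2 := F.lintegral_nu he hA hAe (measurable_one : Measurable (1 : X → ℝ≥0∞))
    simp only [Pi.one_apply, mul_one, lintegral_one, Measure.restrict_apply, MeasurableSet.univ,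
      univ_inter] at h2
    exact h2
  rw [h1, lintegral_eq_zero_iff' (F.H10_aem_jac hAe)]
  constructor
  · intro h
    have h2 : ∀ᵐ z ∂((volume : Measure ℂ).restrict (e '' A)), False := by
      filter_upwards [h, self_mem_ae_restrict hAm] with z hz hzA
      obtain ⟨x, hx, rfl⟩ := hzA
      have hne := CS.deriv_trans_ne_zero he (F.ch_mem x) (hAe hx) (F.mem_ch x)
      simp only [Frame.jacE, Pi.zero_apply, ENNReal.ofReal_eq_zero] at hz
      rw [e.left_inv (hAe hx)] at hz
      have : 0 < ‖deriv (F.ch x ∘ e.symm) (e x)‖ ^ 2 := by positivity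
      linarith
    have h3 : (volume : Measure ℂ).restrict (e '' A) = 0 := ae_eq_bot.1 (Filter.eventually_false_iff_eq_bot.1 h2)
    exact Measure.restrict_eq_zero.1 h3
  · intro h
    rw [Measure.restrict_eq_zero.2 h]
    exact Filter.EventuallyEq.refl _ _ |>.trans (by simp [Filter.EventuallyEq])

theorem nu_pos_of_isOpen {U : Set X} (hU : IsOpen U) (hne : U.Nonempty) : 0 < F.nu U := by
  obtain ⟨x, hx⟩ := hne
  obtain ⟨e, he, hxe⟩ := S.cover x
  have hopen : IsOpen (U ∩ e.source) := hU.inter e.open_source
  have h1 : F.nu (U ∩ e.source) ≠ 0 := by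
    rw [Ne, F.nu_eq_zero_iff he hopen.measurableSet inter_subset_right]
    have h2 : IsOpen (e '' (U ∩ e.source)) :=
      e.isOpen_image_of_subset_source hopen inter_subset_right
    exact (h2.measure_pos volume ⟨e x, x, ⟨hx, hxe⟩, rfl⟩).ne'
  exact (pos_iff_ne_zero.2 h1).trans_le (measure_mono inter_subset_left)

theorem en_eq {e : OpenPartialHomeomorph X ℂ} (he : e ∈ S.charts) {A : Set X}
    (hA : MeasurableSet A) (hAe : A ⊆ e.source) (a : X → ℂ) :
    F.en A a = ∫ z in e '' A, ‖F.co e a z‖ ^ 2 := by
  unfold Frame.en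
  rw [F.integral_nu he hA hAe]
  refine integral_congr_ae (Filter.Eventually.of_forall fun z => ?_)
  simp only [Frame.co]
  rw [norm_mul, mul_pow, smul_eq_mul, mul_comm]

theorem setIntegral_mul_conj {e : OpenPartialHomeomorph X ℂ} (he : e ∈ S.charts) {A : Set X}
    (hA : MeasurableSet A) (hAe : A ⊆ e.source) (a b : X → ℂ) :
    ∫ x in A, a x * starRingEnd ℂ (b x) ∂F.nu =
      ∫ z in e '' A, F.co e a z * starRingEnd ℂ (F.co e b z) := by
  rw [F.integral_nu he hA hAe]
  refine integral_congr_ae (Filter.Eventually.of_forall fun z => ?_)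
  simp only [Frame.co]
  rw [map_mul, Complex.real_smul]
  push_cast
  rw [← Complex.mul_conj']
  ring

/-- if `b` vanishes outside `A`, a Borel subset of the chart domain -/
theorem ip_eq_of_support {e : OpenPartialHomeomorph X ℂ} (he : e ∈ S.charts) {A : Set X}
    (hA : MeasurableSet A) (hAe : A ⊆ e.source) (a b : X → ℂ) (hb : ∀ x, x ∉ A → b x = 0) :
    F.ip a b = ∫ z in e '' A, F.co e a z * starRingEnd ℂ (F.co e b z) := by
  rw [← F.setIntegral_mul_conj he hA hAe]
  unfold Frame.ip
  rw [setIntegral_eq_integral_of_forall_compl_eq_zero]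
  intro x hx
  rw [hb x hx, map_zero, mul_zero]

end Frame

end Pool.Agent.Lib.MP_cca10c_ag
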