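import Pool.Agent.Lib.MP_cca10c_ag.H05_Grad

/-!
# Planar integration by parts (stub H11)

`Im (cgrad ψ * conj (cgrad f)) = ψ_x f_y - ψ_y f_x`. Multiply `f` by a cutoff which is `1` near the
support of `ψ`, integrate by parts on the whole plane (`integral_mul_fderiv_eq_neg_fderiv_mul_of_integrable`
or `integral_fderiv...` of Mathlib) and use the symmetry of the second derivative. For holomorphic
`k`: `∂bar (k ψ) = k ∂bar ψ` and `∫ ∂bar (compactly supported) = 0`.
-/

set_option autoImplicit false

open Topology Set MeasureTheory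
open scoped ContDiff

namespace Pool.Agent.Lib.MP_cca10c_ag

theorem continuous_cgrad {ψ : ℂ → ℝ} (hψ : ContDiff ℝ ∞ ψ) : Continuous (cgrad ψ) := by
  have h1 : Continuous (fderiv ℝ ψ) := hψ.continuous_fderiv (by simp)
  unfold cgrad
  have h2 : Continuous fun z => fderiv ℝ ψ z 1 := h1.clm_apply continuous_const
  have h3 : Continuous fun z => fderiv ℝ ψ z Complex.I := h1.clm_apply continuous_const
  exact (Complex.continuous_ofReal.comp h2).sub
    (continuous_const.mul (Complex.continuous_ofReal.comp h3))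

theorem hasCompactSupport_cgrad {ψ : ℂ → ℝ} (hc : HasCompactSupport ψ) :
    HasCompactSupport (cgrad ψ) := by
  have h1 : HasCompactSupport (fderiv ℝ ψ) := hc.fderiv (𝕜 := ℝ)
  refine h1.mono ?_
  intro z hz
  rw [Function.mem_support] at hz ⊢
  intro h0
  apply hz
  simp [cgrad, h0]

private theorem H11_int {𝕜 : Type*} [RCLike 𝕜] {h φ : ℂ → 𝕜} (hφ : Continuous φ)
    (hc : HasCompactSupport φ) (hh : ∀ z ∈ tsupport φ, ContinuousAt h z) :
    Integrable (fun z => h z * φ z) := by
  have hs : tsupport (fun z => h z * φ z) ⊆ tsupport φ := by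
    apply closure_mono
    intro z hz
    rw [Function.mem_support] at hz ⊢
    intro h0
    exact hz (by simp [h0])
  have hcont : Continuous (fun z => h z * φ z) := by
    apply continuous_of_tsupport
    intro z hz
    exact (hh z (hs hz)).mul hφ.continuousAt
  exact hcont.integrable_of_hasCompactSupport (hc.mul_left)

/-- `∫ dψ ∧ df = 0` for a test function `ψ` -/
theorem integral_cgrad_wedge {ψ f : ℂ → ℝ} (hψ : ContDiff ℝ ∞ ψ) (hc : HasCompactSupport ψ)
    (hf : ∀ z ∈ tsupport ψ, ∀ᶠ w in 𝓝 z, ContDiffAt ℝ ∞ f w) :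
    ∫ z, (cgrad ψ z * starRingEnd ℂ (cgrad f z)).im = 0 := by
  have h1 : Continuous (fderiv ℝ ψ) := hψ.continuous_fderiv (by simp)
  have hd : HasCompactSupport (fderiv ℝ ψ) := hc.fderiv (𝕜 := ℝ)
  have hsub : ∀ v : ℂ, tsupport (fun z => fderiv ℝ ψ z v) ⊆ tsupport ψ := by
    intro v
    refine subset_trans ?_ (tsupport_fderiv_subset ℝ)
    apply closure_mono
    intro z hz
    rw [Function.mem_support] at hz ⊢
    intro h0
    exact hz (by simp [h0])
  have hcs : ∀ v : ℂ, HasCompactSupport (fun z => fderiv ℝ ψ z v) := by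
    intro v
    refine hd.mono ?_
    intro z hz
    rw [Function.mem_support] at hz ⊢
    intro h0
    exact hz (by simp [h0])
  have hcv : ∀ v : ℂ, Continuous (fun z => fderiv ℝ ψ z v) := fun v =>
    h1.clm_apply continuous_const
  -- derivatives of `f`
  have hfd : ∀ z ∈ tsupport ψ, ContDiffAt ℝ ∞ (fderiv ℝ f) z := by
    intro z hz
    have := (hf z hz).self_of_nhds
    exact this.fderiv_right (m := ∞) (by simp)
  have hfv : ∀ v : ℂ, ∀ z ∈ tsupport ψ, ContDiffAt ℝ ∞ (fun w => fderiv ℝ f w v) z := by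
    intro v z hz
    exact (hfd z hz).clm_apply contDiffAt_const
  have hfd2 : ∀ v u : ℂ, ∀ z ∈ tsupport ψ,
      ContinuousAt (fun w => fderiv ℝ (fun w => fderiv ℝ f w v) w u) z := by
    intro v u z hz
    have h2 : ContDiffAt ℝ ∞ (fderiv ℝ (fun w => fderiv ℝ f w v)) z :=
      (hfv v z hz).fderiv_right (m := ∞) (by simp)
    exact (h2.continuousAt).clm_apply continuousAt_const
  have key : ∀ v u : ℂ, ∫ z, fderiv ℝ f z v * fderiv ℝ ψ z u =
      - ∫ z, fderiv ℝ (fun w => fderiv ℝ f w v) z u * ψ z := by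
    intro v u
    refine integral_mul_fderiv_eq_neg_fderiv_mul_of_integrable (f := fun w => fderiv ℝ f w v)
      (g := ψ) (v := u) ?_ ?_ ?_ ?_ ?_
    · exact H11_int hψ.continuous hc (hfd2 v u)
    · exact H11_int (hcv u) (hcs u) (fun z hz => (hfv v z (hsub u hz)).continuousAt)
    · exact H11_int hψ.continuous hc (fun z hz => (hfv v z hz).continuousAt)
    · exact fun z hz => (hfv v z hz).differentiableAt (by simp)
    · exact fun z _ => (hψ.differentiable (by simp)).differentiableAt
  have hint : ∀ v u : ℂ, Integrable (fun z => fderiv ℝ f z v * fderiv ℝ ψ z u) := fun v u =>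
    H11_int (hcv u) (hcs u) (fun z hz => (hfv v z (hsub u hz)).continuousAt)
  have hsymm : ∀ z, fderiv ℝ (fun w => fderiv ℝ f w Complex.I) z 1 * ψ z =
      fderiv ℝ (fun w => fderiv ℝ f w 1) z Complex.I * ψ z := by
    intro z
    by_cases hz : z ∈ tsupport ψ
    · have hs : IsSymmSndFDerivAt ℝ f z :=
        (hf z hz).self_of_nhds.isSymmSndFDerivAt
          (by simp only [minSmoothness_of_isRCLikeNormedField]; exact WithTop.coe_le_coe.2 le_top)
      have hdd : DifferentiableAt ℝ (fderiv ℝ f) z := (hfd z hz).differentiableAt (by simp)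
      have e : ∀ v u : ℂ, fderiv ℝ (fun w => fderiv ℝ f w v) z u =
          fderiv ℝ (fderiv ℝ f) z u v := by
        intro v u
        rw [fderiv_clm_apply hdd (differentiableAt_const v)]
        simp
      rw [e, e, hs.eq]
    · have : ψ z = 0 := by
        by_contra h
        exact hz (subset_tsupport _ h)
      simp [this]
  have hre : ∀ z, (cgrad ψ z * starRingEnd ℂ (cgrad f z)).im =
      fderiv ℝ f z Complex.I * fderiv ℝ ψ z 1 - fderiv ℝ f z 1 * fderiv ℝ ψ z Complex.I := by
    intro z
    simp only [cgrad]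
    simp
    ring
  simp_rw [hre]
  rw [integral_sub (hint _ _) (hint _ _), key, key]
  simp_rw [hsymm]
  ring

/-- `∫ k ∂bar ψ = 0` for `k` holomorphic near the support of the test function `ψ` -/
theorem integral_mul_conj_cgrad {ψ : ℂ → ℝ} {k : ℂ → ℂ} (hψ : ContDiff ℝ ∞ ψ)
    (hc : HasCompactSupport ψ) {U : Set ℂ} (hU : IsOpen U) (hk : DifferentiableOn ℂ k U)
    (hs : tsupport ψ ⊆ U) : ∫ z, k z * starRingEnd ℂ (cgrad ψ z) = 0 := by
  -- the complex valued test function
  have hψ' : ContDiff ℝ ∞ (fun z => (ψ z : ℂ)) := Complex.ofRealCLM.contDiff.comp hψ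
  have hts : tsupport (fun z => (ψ z : ℂ)) = tsupport ψ := by
    apply congrArg closure
    ext z
    simp
  have hc' : HasCompactSupport (fun z => (ψ z : ℂ)) := by
    unfold HasCompactSupport
    rw [hts]
    exact hc
  have h1 : Continuous (fderiv ℝ (fun z => (ψ z : ℂ))) := hψ'.continuous_fderiv (by simp)
  have hd : HasCompactSupport (fderiv ℝ (fun z => (ψ z : ℂ))) := hc'.fderiv (𝕜 := ℝ)
  have hsub : ∀ v : ℂ, tsupport (fun z => fderiv ℝ (fun z => (ψ z : ℂ)) z v) ⊆ tsupport ψ := by
    intro v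
    rw [← hts]
    refine subset_trans ?_ (tsupport_fderiv_subset ℝ)
    apply closure_mono
    intro z hz
    rw [Function.mem_support] at hz ⊢
    intro h0
    exact hz (by simp [h0])
  have hcs : ∀ v : ℂ, HasCompactSupport (fun z => fderiv ℝ (fun z => (ψ z : ℂ)) z v) := by
    intro v
    refine hd.mono ?_
    intro z hz
    rw [Function.mem_support] at hz ⊢
    intro h0
    exact hz (by simp [h0])
  have hcv : ∀ v : ℂ, Continuous (fun z => fderiv ℝ (fun z => (ψ z : ℂ)) z v) := fun v =>
    h1.clm_apply continuous_const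
  have hkan : ∀ z ∈ tsupport ψ, AnalyticAt ℂ k z := fun z hz =>
    (hk.analyticAt (hU.mem_nhds (hs hz)))
  have hkd : ∀ z ∈ tsupport ψ, DifferentiableAt ℝ k z := fun z hz =>
    (hkan z hz).differentiableAt.restrictScalars ℝ
  have hkv : ∀ z ∈ tsupport ψ, ∀ v : ℂ, fderiv ℝ k z v = v * deriv k z := by
    intro z hz v
    have h := (hkan z hz).differentiableAt.hasDerivAt.hasFDerivAt.restrictScalars ℝ
    rw [h.fderiv]
    simp
  have hkev : ∀ z ∈ tsupport ψ, ∀ v : ℂ, ∀ᶠ w in 𝓝 z, fderiv ℝ k w v = v * deriv k w := by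
    intro z hz v
    have : ∀ᶠ w in 𝓝 z, AnalyticAt ℂ k w := (hkan z hz).eventually_analyticAt
    filter_upwards [this] with w hw
    have h := hw.differentiableAt.hasDerivAt.hasFDerivAt.restrictScalars ℝ
    rw [h.fderiv]
    simp
  have hkc : ∀ v : ℂ, ∀ z ∈ tsupport ψ, ContinuousAt (fun w => fderiv ℝ k w v) z := by
    intro v z hz
    have h2 : ContinuousAt (fun w => v * deriv k w) z :=
      continuousAt_const.mul (hkan z hz).deriv.continuousAt
    exact h2.congr ((hkev z hz v).mono fun w hw => hw.symm)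
  have key : ∀ v : ℂ, ∫ z, k z * fderiv ℝ (fun z => (ψ z : ℂ)) z v =
      - (v * ∫ z, deriv k z * (ψ z : ℂ)) := by
    intro v
    rw [integral_mul_fderiv_eq_neg_fderiv_mul_of_integrable (f := k)
      (g := fun z => (ψ z : ℂ)) (v := v)]
    · rw [← integral_const_mul]
      congr 1
      apply integral_congr_ae
      refine Filter.Eventually.of_forall fun z => ?_
      by_cases hz : z ∈ tsupport ψ
      · simp only [hkv z hz v]
        ring
      · have : ψ z = 0 := by
          by_contra h
          exact hz (subset_tsupport _ h)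
        simp [this]
    · exact H11_int hψ'.continuous hc' (by rw [hts]; exact hkc v)
    · exact H11_int (hcv v) (hcs v) (fun z hz => (hkan z (hsub v hz)).continuousAt)
    · exact H11_int hψ'.continuous hc' (by rw [hts]; exact fun z hz => (hkan z hz).continuousAt)
    · rw [hts]; exact hkd
    · exact fun z _ => (hψ'.differentiable (by simp)).differentiableAt
  have hint : ∀ v : ℂ, Integrable (fun z => k z * fderiv ℝ (fun z => (ψ z : ℂ)) z v) := fun v =>
    H11_int (hcv v) (hcs v) (fun z hz => (hkan z (hsub v hz)).continuousAt)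
  have hfd : ∀ z v : ℂ, fderiv ℝ (fun z => (ψ z : ℂ)) z v = ((fderiv ℝ ψ z v : ℝ) : ℂ) := by
    intro z v
    have h := (Complex.ofRealCLM.hasFDerivAt (x := ψ z)).comp z
      ((hψ.differentiable (by simp)).differentiableAt (x := z)).hasFDerivAt
    have h' : HasFDerivAt (fun z => (ψ z : ℂ)) (Complex.ofRealCLM.comp (fderiv ℝ ψ z)) z := h
    rw [h'.fderiv]
    simp
  have hre : ∀ z, k z * starRingEnd ℂ (cgrad ψ z) =
      k z * fderiv ℝ (fun z => (ψ z : ℂ)) z 1 +
        Complex.I * (k z * fderiv ℝ (fun z => (ψ z : ℂ)) z Complex.I) := by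
    intro z
    rw [hfd, hfd]
    simp only [cgrad]
    simp
    ring
  simp_rw [hre]
  rw [integral_add (hint _) ((hint _).const_mul _), integral_const_mul, key, key]
  linear_combination (-(1 : ℂ) * (∫ z, deriv k z * (ψ z : ℂ))) * Complex.I_mul_I

end Pool.Agent.Lib.MP_cca10c_ag
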