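import Pool.Agent.Lib.MP_cca10c_ag.H08_Bump
import Pool.Agent.Lib.MP_cca10c_ag.H10_Nu
import Pool.Agent.Lib.MP_cca10c_ag.H11_PStokes

/-!
# Stokes formula on a closed surface; bilinearity (stub H12)

Stokes: cover `X` by discs on which `a = df` (`CS.exists_disc_cover`), take a partition of unity
`χ i`, `φ = ∑ χ i φ`, and compute `∫ d (χ i φ) ∧ a` in the chart with `ip_eq_of_support` and
`integral_cgrad_wedge`. For harmonic `a` the complex product vanishes, because `-i a` is closed too.
Here `F.ip a b = ∫ a conj b`, `F.wd = Im`, `F.rp = Re`.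
-/

set_option autoImplicit false

open Topology Set MeasureTheory
open scoped ContDiff

namespace Pool.Agent.Lib.MP_cca10c_ag

variable {X : Type} [TopologicalSpace X] [CompactSpace X] [T2Space X] {S : CS X}
variable {F : Frame S} [MeasurableSpace X] [BorelSpace X]

namespace Frame

variable {a b c : X → ℂ}

/-! ### bilinearity; all forms in `L²` -/

theorem integrable_mul_conj (ha : MemLp a 2 F.nu) (hb : MemLp b 2 F.nu) :
    Integrable (fun x => a x * starRingEnd ℂ (b x)) F.nu := by
  have hb' : MemLp (star b) 2 F.nu := hb.star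
  exact ha.integrable_mul hb'

theorem integrable_normSq (ha : MemLp a 2 F.nu) : Integrable (fun x => ‖a x‖ ^ 2) F.nu :=
  ha.norm.integrable_sq

theorem ip_add_left (ha : MemLp a 2 F.nu) (hb : MemLp b 2 F.nu) (hc : MemLp c 2 F.nu) :
    F.ip (fun x => a x + b x) c = F.ip a c + F.ip b c := by
  unfold Frame.ip
  rw [← integral_add (integrable_mul_conj ha hc) (integrable_mul_conj hb hc)]
  refine integral_congr_ae (Filter.Eventually.of_forall fun x => ?_)
  simp only [add_mul]

theorem ip_add_right (ha : MemLp a 2 F.nu) (hb : MemLp b 2 F.nu) (hc : MemLp c 2 F.nu) :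
    F.ip c (fun x => a x + b x) = F.ip c a + F.ip c b := by
  unfold Frame.ip
  rw [← integral_add (integrable_mul_conj hc ha) (integrable_mul_conj hc hb)]
  refine integral_congr_ae (Filter.Eventually.of_forall fun x => ?_)
  simp only [map_add, mul_add]

theorem ip_const_mul_left (r : ℂ) : F.ip (fun x => r * a x) b = r * F.ip a b := by
  unfold Frame.ip
  rw [← integral_const_mul]
  refine integral_congr_ae (Filter.Eventually.of_forall fun x => ?_)
  simp only [mul_assoc]

theorem ip_const_mul_right (r : ℂ) :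
    F.ip a (fun x => r * b x) = starRingEnd ℂ r * F.ip a b := by
  unfold Frame.ip
  rw [← integral_const_mul]
  refine integral_congr_ae (Filter.Eventually.of_forall fun x => ?_)
  simp only [map_mul]
  ring

theorem ip_conj_symm : F.ip b a = starRingEnd ℂ (F.ip a b) := by
  unfold Frame.ip
  rw [← integral_conj]
  refine integral_congr_ae (Filter.Eventually.of_forall fun x => ?_)
  simp only [map_mul, Complex.conj_conj]
  ring

theorem ip_self : F.ip a a = (F.en univ a : ℂ) := by
  unfold Frame.ip Frame.en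
  rw [setIntegral_univ, ← integral_complex_ofReal]
  refine integral_congr_ae (Filter.Eventually.of_forall fun x => ?_)
  simp only [Complex.mul_conj, Complex.normSq_eq_norm_sq]

theorem norm_ip_le (ha : MemLp a 2 F.nu) (hb : MemLp b 2 F.nu) :
    ‖F.ip a b‖ ^ 2 ≤ F.en univ a * F.en univ b := by
  have h1 : ‖F.ip a b‖ ≤ ∫ x, ‖a x‖ * ‖b x‖ ∂F.nu := by
    unfold Frame.ip
    refine (norm_integral_le_integral_norm _).trans (le_of_eq ?_)
    refine integral_congr_ae (Filter.Eventually.of_forall fun x => ?_)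
    simp only [norm_mul, RCLike.norm_conj]
  have h2 : ∫ x, ‖a x‖ * ‖b x‖ ∂F.nu ≤
      (∫ x, ‖a x‖ ^ (2 : ℝ) ∂F.nu) ^ (1 / (2 : ℝ)) * (∫ x, ‖b x‖ ^ (2 : ℝ) ∂F.nu) ^ (1 / (2 : ℝ)) := by
    refine integral_mul_le_Lp_mul_Lq_of_nonneg Real.HolderConjugate.two_two
      (Filter.Eventually.of_forall fun x => norm_nonneg _)
      (Filter.Eventually.of_forall fun x => norm_nonneg _) ?_ ?_
    · simpa using ha.norm
    · simpa using hb.norm
  have e1 : ∀ d : X → ℂ, ∫ x, ‖d x‖ ^ (2 : ℝ) ∂F.nu = F.en univ d := by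
    intro d
    unfold Frame.en
    rw [setIntegral_univ]
    refine integral_congr_ae (Filter.Eventually.of_forall fun x => ?_)
    simp only [Real.rpow_two]
  rw [e1, e1] at h2
  have n1 : 0 ≤ F.en univ a := integral_nonneg fun _ => sq_nonneg _
  have n2 : 0 ≤ F.en univ b := integral_nonneg fun _ => sq_nonneg _
  rw [← Real.sqrt_eq_rpow, ← Real.sqrt_eq_rpow] at h2
  have h3 := h1.trans h2
  calc ‖F.ip a b‖ ^ 2 ≤ (Real.sqrt (F.en univ a) * Real.sqrt (F.en univ b)) ^ 2 :=
        pow_le_pow_left₀ (norm_nonneg _) h3 2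
    _ = F.en univ a * F.en univ b := by
        rw [mul_pow, Real.sq_sqrt n1, Real.sq_sqrt n2]

theorem en_nonneg (A : Set X) : 0 ≤ F.en A a :=
  integral_nonneg fun _ => sq_nonneg _

theorem en_mono {A B : Set X} (hAB : A ⊆ B) (ha : MemLp a 2 F.nu) : F.en A a ≤ F.en B a := by
  unfold Frame.en
  exact setIntegral_mono_set (integrable_normSq ha).integrableOn
    (Filter.Eventually.of_forall fun x => sq_nonneg _) hAB.eventuallyLE

theorem en_union {A B : Set X} (hA : MeasurableSet A) (hAB : Disjoint A B)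
    (ha : MemLp a 2 F.nu) : F.en (B ∪ A) a = F.en B a + F.en A a := by
  unfold Frame.en
  exact setIntegral_union hAB.symm hA (integrable_normSq ha).integrableOn
    (integrable_normSq ha).integrableOn

theorem en_add (ha : MemLp a 2 F.nu) (hb : MemLp b 2 F.nu) :
    F.en univ (fun x => a x + b x) = F.en univ a + 2 * F.rp a b + F.en univ b := by
  have h := ip_self (F := F) (a := fun x => a x + b x)
  have hab : MemLp (fun x => a x + b x) 2 F.nu := ha.add hb
  rw [ip_add_left ha hb hab, ip_add_right ha hb ha, ip_add_right ha hb hb, ip_self, ip_self,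
    ip_conj_symm (a := a) (b := b)] at h
  have h' := congrArg Complex.re h
  simp only [Complex.add_re, Complex.ofReal_re, Complex.conj_re] at h'
  unfold Frame.rp
  linarith

/-- a closed form of energy zero is zero -/
theorem eq_zero_of_en (hF : F.Tame) (ha : F.Closed a) (h : F.en univ a = 0) (x : X) :
    a x = 0 := by
  by_contra hne
  have hL := ha.memLp hF
  have hi := integrable_normSq hL
  unfold Frame.en at h
  rw [setIntegral_univ] at h
  have h0 : (fun x => ‖a x‖ ^ 2) =ᵐ[F.nu] 0 :=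
    (integral_eq_zero_iff_of_nonneg (fun x => sq_nonneg _) hi).1 h
  have he := F.ch_mem x
  have hx := F.mem_ch x
  have hc : ContinuousAt (F.co (F.ch x) a) (F.ch x x) :=
    (ha.contDiffAt_co he ((F.ch x).map_source hx)).continuousAt
  have hne' : F.co (F.ch x) a (F.ch x x) ≠ 0 := by rwa [co_ch]
  have h1 : ∀ᶠ z in 𝓝 (F.ch x x), F.co (F.ch x) a z ≠ 0 := hc.eventually_ne hne'
  have h2 : ∀ᶠ y in 𝓝 x, F.co (F.ch x) a (F.ch x y) ≠ 0 :=
    ((F.ch x).continuousAt hx).eventually h1
  have h3 : ∀ᶠ y in 𝓝 x, y ∈ (F.ch x).source := (F.ch x).open_source.mem_nhds hx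
  have h4 : ∀ᶠ y in 𝓝 x, a y ≠ 0 := by
    filter_upwards [h2, h3] with y hy hy' h0
    exact hy ((co_eq_zero_iff F he hy').2 h0)
  obtain ⟨U, hU, hUo, hxU⟩ := mem_nhds_iff.1 h4
  have h5 := F.nu_pos_of_isOpen hUo ⟨x, hxU⟩
  have h6 : F.nu U = 0 := by
    refine measure_mono_null ?_ h0
    intro y hy hy0
    have : ‖a y‖ ^ 2 = 0 := hy0
    exact hU hy (by simpa using this)
  exact h5.ne' h6

/-! ### Stokes -/

/-- a test function of a chart as a function on the plane -/
private theorem H12_plane {e : OpenPartialHomeomorph X ℂ} (he : e ∈ S.charts) {ψ : X → ℝ}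
    (hψ : S.Smooth ψ) (hs : tsupport ψ ⊆ e.source) :
    ∃ Ψ : ℂ → ℝ, ContDiff ℝ ∞ Ψ ∧ HasCompactSupport Ψ ∧ tsupport Ψ ⊆ e.target ∧
      (∀ z ∈ e.target, Ψ =ᶠ[𝓝 z] ψ ∘ e.symm) := by
  have hKc : IsCompact (tsupport ψ) := (isClosed_tsupport ψ).isCompact
  have hK : IsCompact (e '' tsupport ψ) := hKc.image_of_continuousOn (e.continuousOn.mono hs)
  have hKt : e '' tsupport ψ ⊆ e.target := by
    rintro _ ⟨x, hx, rfl⟩
    exact e.map_source (hs hx)
  have h0 : ∀ z, z ∉ e '' tsupport ψ → e.target.indicator (ψ ∘ e.symm) z = 0 := by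
    intro z hz
    by_cases hzt : z ∈ e.target
    · rw [indicator_of_mem hzt, Function.comp_apply]
      refine image_eq_zero_of_notMem_tsupport fun h => hz ⟨_, h, e.right_inv hzt⟩
    · exact indicator_of_notMem hzt _
  have hev : ∀ z ∈ e.target, e.target.indicator (ψ ∘ e.symm) =ᶠ[𝓝 z] ψ ∘ e.symm := by
    intro z hz
    filter_upwards [e.open_target.mem_nhds hz] with w hw
    exact indicator_of_mem hw _
  refine ⟨e.target.indicator (ψ ∘ e.symm), ?_, ?_, ?_, hev⟩
  · rw [contDiff_iff_contDiffAt]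
    intro z
    by_cases hz : z ∈ e.target
    · have h1 : ContDiffAt ℝ ∞ (ψ ∘ e.symm) z := by
        have h2 := (CS.smoothAt_iff he (e.map_target hz)).1 (hψ (e.symm z))
        rwa [e.right_inv hz] at h2
      exact h1.congr_of_eventuallyEq (hev z hz)
    · have hz' : z ∉ e '' tsupport ψ := fun h => hz (hKt h)
      have h1 : e.target.indicator (ψ ∘ e.symm) =ᶠ[𝓝 z] fun _ => 0 := by
        filter_upwards [hK.isClosed.isOpen_compl.mem_nhds hz'] with w hw
        exact h0 w hw
      exact contDiffAt_const.congr_of_eventuallyEq h1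
  · exact HasCompactSupport.intro hK fun z hz => h0 z hz
  · refine (closure_minimal ?_ hK.isClosed).trans hKt
    intro z hz
    by_contra hz'
    exact hz (h0 z hz')

private theorem H12_d_zero {e : OpenPartialHomeomorph X ℂ} {ψ : X → ℝ}
    (hs : tsupport ψ ⊆ e.source) (x : X) (hx : x ∉ e.source) : F.d ψ x = 0 := by
  have hx' : x ∉ tsupport ψ := fun h => hx (hs h)
  have h1 : ψ =ᶠ[𝓝 x] fun _ => 0 := by
    filter_upwards [(isClosed_tsupport ψ).isOpen_compl.mem_nhds hx'] with y hy
    exact image_eq_zero_of_notMem_tsupport hy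
  rw [d_congr F h1, d_const]

/-- the product with the differential of a test function, in the chart -/
private theorem H12_ip {e : OpenPartialHomeomorph X ℂ} (he : e ∈ S.charts) {ψ : X → ℝ}
    (hψ : S.Smooth ψ) (hs : tsupport ψ ⊆ e.source) {Ψ : ℂ → ℝ}
    (hev : ∀ z ∈ e.target, Ψ =ᶠ[𝓝 z] ψ ∘ e.symm) (a : X → ℂ) :
    F.ip a (F.d ψ) = ∫ z in e.target, F.co e a z * starRingEnd ℂ (cgrad Ψ z) := by
  have h1 := F.ip_eq_of_support he e.open_source.measurableSet (Subset.refl e.source) a (F.d ψ)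
    (fun x hx => H12_d_zero hs x hx)
  rw [e.image_source_eq_target] at h1
  rw [h1]
  refine setIntegral_congr_fun e.open_target.measurableSet fun z hz => ?_
  have h2 := co_d F he (e.map_target hz) (hψ (e.symm z))
  rw [e.right_inv hz] at h2
  simp only [h2, cgrad_congr (hev z hz)]

private theorem H12_zero {e : OpenPartialHomeomorph X ℂ} {Ψ : ℂ → ℝ}
    (hs : tsupport Ψ ⊆ e.target) (z : ℂ) (hz : z ∉ e.target) : cgrad Ψ z = 0 := by
  have hz' : z ∉ tsupport Ψ := fun h => hz (hs h)
  have h1 : Ψ =ᶠ[𝓝 z] fun _ => 0 := by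
    filter_upwards [(isClosed_tsupport Ψ).isOpen_compl.mem_nhds hz'] with y hy
    exact image_eq_zero_of_notMem_tsupport hy
  rw [cgrad_congr h1, cgrad_const]

/-- Stokes formula for a test function of a chart -/
private theorem H12_local (hF : F.Tame) {e : OpenPartialHomeomorph X ℂ} (he : e ∈ S.charts)
    {ψ : X → ℝ} (hψ : S.Smooth ψ) (hs : tsupport ψ ⊆ e.source) (ha : F.Closed a) {f : X → ℝ}
    (hf : ∀ x ∈ e.source, S.SmoothNear f x) (haf : ∀ x ∈ e.source, a x = F.d f x) :
    (F.ip a (F.d ψ)).im = 0 := by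
  obtain ⟨Ψ, hΨ, hΨc, hΨs, hev⟩ := H12_plane he hψ hs
  have hco : ∀ z ∈ e.target, F.co e a z = cgrad (f ∘ e.symm) z := by
    intro z hz
    have hx := e.map_target hz
    have h2 := co_d F he hx (hf _ hx).smoothAt
    rw [e.right_inv hz] at h2
    rw [← h2]
    unfold Frame.co
    rw [haf _ hx]
  have hI : IntegrableOn (fun z => F.co e a z * starRingEnd ℂ (cgrad Ψ z)) e.target := by
    have h1 : Integrable (fun x => a x * starRingEnd ℂ (F.d ψ x)) F.nu :=
      integrable_mul_conj (ha.memLp hF) ((F.closed_d hψ).memLp hF)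
    have h2 := (F.integrableOn_nu_iff he e.open_source.measurableSet (Subset.refl e.source)
      (fun x => a x * starRingEnd ℂ (F.d ψ x))).1 h1.integrableOn
    rw [e.image_source_eq_target] at h2
    refine h2.congr_fun (fun z hz => ?_) e.open_target.measurableSet
    have h3 := co_d F he (e.map_target hz) (hψ (e.symm z))
    rw [e.right_inv hz] at h3
    simp only [cgrad_congr (hev z hz), ← h3]
    unfold Frame.co
    rw [map_mul, Complex.real_smul, ← Complex.normSq_eq_norm_sq, ← Complex.mul_conj]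
    ring
  have h1 : (F.ip a (F.d ψ)).im =
      ∫ z in e.target, (F.co e a z * starRingEnd ℂ (cgrad Ψ z)).im := by
    rw [H12_ip he hψ hs hev a]
    exact (integral_im hI).symm
  have h2 : ∫ z in e.target, (F.co e a z * starRingEnd ℂ (cgrad Ψ z)).im =
      ∫ z in e.target, -(cgrad Ψ z * starRingEnd ℂ (cgrad (f ∘ e.symm) z)).im := by
    refine setIntegral_congr_fun e.open_target.measurableSet fun z hz => ?_
    simp only [hco z hz, Complex.mul_im, Complex.conj_re, Complex.conj_im]
    ring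
  have h3 : ∫ z in e.target, (cgrad Ψ z * starRingEnd ℂ (cgrad (f ∘ e.symm) z)).im =
      ∫ z, (cgrad Ψ z * starRingEnd ℂ (cgrad (f ∘ e.symm) z)).im := by
    refine setIntegral_eq_integral_of_forall_compl_eq_zero fun z hz => ?_
    rw [H12_zero hΨs z hz, zero_mul, Complex.zero_im]
  rw [h1, h2, integral_neg, h3, integral_cgrad_wedge hΨ hΨc, neg_zero]
  intro z hz
  have hzt := hΨs hz
  have h4 := (CS.smoothNear_iff he (e.map_target hzt)).1 (hf _ (e.map_target hzt))
  rwa [e.right_inv hzt] at h4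

/-- decomposition by a partition of unity -/
private theorem H12_decomp (hF : F.Tame) {φ : X → ℝ} (hφ : S.Smooth φ) (ha : MemLp a 2 F.nu)
    {ι : Type} [Fintype ι] {χ : ι → X → ℝ} (hχ : ∀ i, S.Smooth (χ i))
    (h1 : ∀ x, ∑ i, χ i x = 1) :
    F.ip a (F.d φ) = ∑ i, F.ip a (F.d (fun y => χ i y * φ y)) := by
  have hsm : ∀ i, S.Smooth (fun y => χ i y * φ y) := fun i x => (hχ i x).mul (hφ x)
  have hφe : φ = fun y => ∑ i, χ i y * φ y := by
    funext y
    rw [← Finset.sum_mul, h1, one_mul]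
  have hd : ∀ x, F.d φ x = ∑ i, F.d (fun y => χ i y * φ y) x := by
    intro x
    conv_lhs => rw [hφe]
    exact d_sum F (fun i _ => hsm i x)
  unfold Frame.ip
  rw [← integral_finsetSum]
  · refine integral_congr_ae (Filter.Eventually.of_forall fun x => ?_)
    simp only [hd x, map_sum, Finset.mul_sum]
  · intro i _
    exact integrable_mul_conj ha ((F.closed_d (hsm i)).memLp hF)

private theorem H12_tsupport {χ φ : X → ℝ} {U : Set X} (h : tsupport χ ⊆ U) :
    tsupport (fun y => χ y * φ y) ⊆ U :=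
  (tsupport_mul_subset_left (f := χ) (g := φ)).trans h

private theorem H12_stokes (hF : F.Tame) {φ : X → ℝ} (hφ : S.Smooth φ) (ha : F.Closed a) :
    F.wd a (F.d φ) = 0 := by
  have ha' := ha
  unfold Frame.Closed at ha'
  choose f hf haf using ha'
  have hW : ∀ x, {y | S.SmoothNear (f x) y ∧ a y = F.d (f x) y} ∈ 𝓝 x := by
    intro x
    have h1 : ∀ᶠ y in 𝓝 x, S.SmoothNear (f x) y := eventually_eventually_nhds.2 (hf x)
    filter_upwards [h1, haf x] with y h2 h3
    exact ⟨h2, h3⟩
  obtain ⟨n, x, e, he, -, hsub, hcov⟩ := S.exists_disc_cover hW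
  obtain ⟨χ, hχ, -, h1, hs⟩ := S.exists_partition (fun i => (e i).open_source) hcov
  unfold Frame.wd
  rw [H12_decomp hF hφ (ha.memLp hF) hχ h1, Complex.im_sum]
  refine Finset.sum_eq_zero fun i _ => ?_
  exact H12_local hF (he i) (fun y => (hχ i y).mul (hφ y)) (H12_tsupport (hs i)) ha
    (fun y hy => (hsub i hy).1) (fun y hy => (hsub i hy).2)

theorem stokes (hF : F.Tame) {φ : X → ℝ} (hφ : S.Smooth φ) (ha : F.Closed a) :
    F.wd (F.d φ) a = 0 := by
  have h := H12_stokes hF hφ ha
  unfold Frame.wd at h ⊢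
  rw [ip_conj_symm (a := a) (b := F.d φ), Complex.conj_im, h, neg_zero]

theorem stokes' (hF : F.Tame) {φ : X → ℝ} (hφ : S.Smooth φ) (ha : F.Closed a) :
    F.wd a (F.d φ) = 0 := H12_stokes hF hφ ha

private theorem H12_hol (hF : F.Tame) {φ : X → ℝ} (hφ : S.Smooth φ) (ha : F.Hol a) :
    F.ip a (F.d φ) = 0 := by
  obtain ⟨n, x, e, he, -, -, hcov⟩ := S.exists_disc_cover (W := fun _ => univ)
    (fun x => Filter.univ_mem)
  obtain ⟨χ, hχ, -, h1, hs⟩ := S.exists_partition (fun i => (e i).open_source) hcov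
  rw [H12_decomp hF hφ (ha.closed.memLp hF) hχ h1]
  refine Finset.sum_eq_zero fun i _ => ?_
  have hsm : S.Smooth (fun y => χ i y * φ y) := fun y => (hχ i y).mul (hφ y)
  have hts : tsupport (fun y => χ i y * φ y) ⊆ (e i).source := H12_tsupport (hs i)
  obtain ⟨Ψ, hΨ, hΨc, hΨs, hev⟩ := H12_plane (he i) hsm hts
  rw [H12_ip (he i) hsm hts hev a]
  have h3 : ∫ z in (e i).target, F.co (e i) a z * starRingEnd ℂ (cgrad Ψ z) =
      ∫ z, F.co (e i) a z * starRingEnd ℂ (cgrad Ψ z) := by
    refine setIntegral_eq_integral_of_forall_compl_eq_zero fun z hz => ?_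
    rw [H12_zero hΨs z hz, map_zero, mul_zero]
  rw [h3]
  have hk : DifferentiableOn ℂ (F.co (e i) a) (e i).target := by
    have := ha (e i) (he i)
    rwa [preimage_univ, inter_univ] at this
  exact integral_mul_conj_cgrad hΨ hΨc (e i).open_target hk hΨs

/-- harmonic forms are orthogonal to exact forms -/
theorem ip_hol_d (hF : F.Tame) {φ : X → ℝ} (hφ : S.Smooth φ) (ha : F.Hol a) :
    F.ip a (F.d φ) = 0 := H12_hol hF hφ ha

theorem ip_d_hol (hF : F.Tame) {φ : X → ℝ} (hφ : S.Smooth φ) (ha : F.Hol a) :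
    F.ip (F.d φ) a = 0 := by
  rw [ip_conj_symm (a := a) (b := F.d φ), H12_hol hF hφ ha, map_zero]

end Frame

end Pool.Agent.Lib.MP_cca10c_ag
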