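import Pool.Agent.Lib.MP_cca10c_ag.H05_Grad

/-!
# Weyl's lemma, part 1: mollification (H13)

`moll ρ a w = ∫ a z ρ (w - z)`. Differentiate under the integral; the
function `z ↦ ρ (w - z)` is a test function with `cgrad` equal to `-(cgrad ρ) (w - z)`. So the
Cauchy-Riemann equations hold. Almost everywhere convergence:
`ContDiffBump.ae_convolution_tendsto_right_of_locallyIntegrable`.
-/

set_option autoImplicit false

open Topology Set MeasureTheory Metric
open scoped ContDiff

namespace Pool.Agent.Lib.MP_cca10c_ag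

/-- the function `a` on the open set `Ω` is weakly holomorphic -/
def WeakHol (a : ℂ → ℂ) (Ω : Set ℂ) : Prop :=
  ∀ ψ : ℂ → ℝ, ContDiff ℝ ∞ ψ → HasCompactSupport ψ → tsupport ψ ⊆ Ω →
    ∫ z, a z * starRingEnd ℂ (cgrad ψ z) = 0

/-- convolution with a real function -/
noncomputable def moll (ρ : ℂ → ℝ) (a : ℂ → ℂ) (w : ℂ) : ℂ := ∫ z, (ρ (w - z) : ℂ) * a z

/-- the mollified function is holomorphic where the support of the mollifier stays in `Ω` -/
theorem moll_differentiableAt {a : ℂ → ℂ} {Ω : Set ℂ} (ha : Integrable a)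
    (hw : WeakHol a Ω) {ρ : ℂ → ℝ} {ε : ℝ} (hρ : ContDiff ℝ ∞ ρ)
    (hs : tsupport ρ ⊆ closedBall 0 ε) {w : ℂ} (hB : ∃ r > ε, closedBall w r ⊆ Ω) :
    DifferentiableAt ℂ (moll ρ a) w := by
  obtain ⟨r, hr, hB⟩ := hB
  have hcs : HasCompactSupport ρ :=
    (isCompact_closedBall (0 : ℂ) ε).of_isClosed_subset (isClosed_tsupport ρ) hs
  have hd : Differentiable ℝ ρ := hρ.differentiable (by simp)
  have hc : Continuous ρ := hρ.continuous
  have hc' : Continuous (fderiv ℝ ρ) := hρ.continuous_fderiv (by simp)
  obtain ⟨C0, hC0⟩ := hc.bounded_above_of_compact_support hcs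
  obtain ⟨C, hC⟩ := hc'.bounded_above_of_compact_support (hcs.fderiv ℝ)
  have hmoll : moll ρ a = fun w' => ∫ z, ρ (w' - z) • a z := by
    ext w'
    simp only [moll, Complex.real_smul]
  have hcw : ∀ w' : ℂ, Continuous fun z : ℂ => ρ (w' - z) := fun w' =>
    hc.comp (continuous_const.sub continuous_id)
  have hcw' : ∀ w' : ℂ, Continuous fun z : ℂ => fderiv ℝ ρ (w' - z) := fun w' =>
    hc'.comp (continuous_const.sub continuous_id)
  have hmeas' : AEStronglyMeasurable (fun z => (fderiv ℝ ρ (w - z)).smulRight (a z)) volume :=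
    (ContinuousLinearMap.smulRightL ℝ ℂ ℂ).aestronglyMeasurable_comp₂
      (hcw' w).aestronglyMeasurable ha.aestronglyMeasurable
  have hbd : ∀ w' z : ℂ, ‖(fderiv ℝ ρ (w' - z)).smulRight (a z)‖ ≤ C * ‖a z‖ := by
    intro w' z
    rw [ContinuousLinearMap.norm_smulRight_apply]
    exact mul_le_mul_of_nonneg_right (hC _) (norm_nonneg _)
  have hint' : Integrable (fun z => (fderiv ℝ ρ (w - z)).smulRight (a z)) volume :=
    (ha.norm.const_mul C).mono' hmeas' (Filter.Eventually.of_forall fun z => hbd w z)
  have hder : HasFDerivAt (moll ρ a) (∫ z, (fderiv ℝ ρ (w - z)).smulRight (a z)) w := by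
    rw [hmoll]
    refine hasFDerivAt_integral_of_dominated_of_fderiv_le (𝕜 := ℝ) (μ := volume)
      (F := fun w' z => ρ (w' - z) • a z)
      (F' := fun w' z => (fderiv ℝ ρ (w' - z)).smulRight (a z)) (x₀ := w) (s := univ)
      (bound := fun z => C * ‖a z‖) Filter.univ_mem ?_ ?_ ?_ ?_ ?_ ?_
    · exact Filter.Eventually.of_forall fun w' =>
        (hcw w').aestronglyMeasurable.smul ha.aestronglyMeasurable
    · refine (ha.norm.const_mul C0).mono'
        ((hcw w).aestronglyMeasurable.smul ha.aestronglyMeasurable)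
        (Filter.Eventually.of_forall fun z => ?_)
      rw [norm_smul]
      exact mul_le_mul_of_nonneg_right (hC0 _) (norm_nonneg _)
    · exact hmeas'
    · exact Filter.Eventually.of_forall fun z w' _ => hbd w' z
    · exact ha.norm.const_mul C
    · refine Filter.Eventually.of_forall fun z w' _ => ?_
      have h1 : HasFDerivAt (fun w'' : ℂ => ρ (w'' - z)) (fderiv ℝ ρ (w' - z)) w' := by
        have := (hd (w' - z)).hasFDerivAt.comp w' ((hasFDerivAt_id w').sub_const z)
        exact this.congr_fderiv (ContinuousLinearMap.comp_id _)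
      exact h1.smul_const (a z)
  rw [differentiableAt_complex_iff_differentiableAt_real]
  refine ⟨hder.differentiableAt, ?_⟩
  rw [hder.fderiv, ContinuousLinearMap.integral_apply hint',
    ContinuousLinearMap.integral_apply hint']
  simp only [ContinuousLinearMap.smulRight_apply]
  -- the test function
  have hψd : ∀ z v : ℂ, fderiv ℝ (fun z : ℂ => ρ (w - z)) z v = - fderiv ℝ ρ (w - z) v := by
    intro z v
    have := (hd (w - z)).hasFDerivAt.comp z ((hasFDerivAt_id z).const_sub w)
    have h2 : fderiv ℝ (fun z : ℂ => ρ (w - z)) z =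
        (fderiv ℝ ρ (w - z)).comp (-ContinuousLinearMap.id ℝ ℂ) := this.fderiv
    rw [h2]
    simp
  have hsup : ∀ z, ρ (w - z) ≠ 0 → z ∈ closedBall w ε := by
    intro z hz
    have := hs (subset_tsupport _ hz)
    rw [mem_closedBall, dist_zero_right] at this
    rw [mem_closedBall, dist_comm, dist_eq_norm]
    exact this
  have htest := hw (fun z => ρ (w - z)) (hρ.comp (contDiff_const.sub contDiff_id))
    (HasCompactSupport.intro (isCompact_closedBall w ε) fun z hz => by
      by_contra h
      exact hz (hsup z h))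
    (((closure_minimal (fun z hz => hsup z hz) isClosed_closedBall).trans
      (closedBall_subset_closedBall hr.le)).trans hB)
  have hI1 : Integrable fun z => fderiv ℝ ρ (w - z) 1 • a z := by
    have := hint'.apply_continuousLinearMap (1 : ℂ)
    simpa using this
  have hI2 : Integrable fun z => fderiv ℝ ρ (w - z) Complex.I • a z := by
    have := hint'.apply_continuousLinearMap Complex.I
    simpa using this
  have hsum : ∫ z, a z * starRingEnd ℂ (cgrad (fun z => ρ (w - z)) z) =
      - (∫ z, fderiv ℝ ρ (w - z) 1 • a z) -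
        Complex.I * ∫ z, fderiv ℝ ρ (w - z) Complex.I • a z := by
    have hn : Integrable fun z => -(fderiv ℝ ρ (w - z) 1 • a z) := hI1.neg
    have hm : Integrable fun z => Complex.I * (fderiv ℝ ρ (w - z) Complex.I • a z) :=
      hI2.const_mul _
    rw [← integral_neg, ← integral_const_mul, ← integral_sub hn hm]
    refine integral_congr_ae (Filter.Eventually.of_forall fun z => ?_)
    simp only [cgrad, hψd, map_sub, map_mul, Complex.conj_ofReal, Complex.conj_I,
      Complex.real_smul]
    push_cast
    ring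
  rw [hsum] at htest
  rw [smul_eq_mul]
  have hI : Complex.I * Complex.I = -1 := Complex.I_mul_I
  linear_combination (Complex.I) * htest +
    (∫ z, fderiv ℝ ρ (w - z) Complex.I • a z) * hI

/-- a sequence of mollifiers converging almost everywhere, with the `L¹` bound -/
theorem exists_moll (a : ℂ → ℂ) (ha : Integrable a) :
    ∃ ρ : ℕ → ℂ → ℝ, (∀ n, ContDiff ℝ ∞ (ρ n)) ∧ (∀ n z, 0 ≤ ρ n z) ∧
      (∀ n, tsupport (ρ n) ⊆ closedBall 0 (1 / (n + 1))) ∧ (∀ n, ∫ z, ρ n z = 1) ∧
      (∀ᵐ w, Filter.Tendsto (fun n => moll (ρ n) a w) Filter.atTop (𝓝 (a w))) ∧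
      ∀ n, Integrable (moll (ρ n) a) ∧ ∫ w, ‖moll (ρ n) a w‖ ≤ ∫ w, ‖a w‖ := by
  have hpos : ∀ n : ℕ, (0 : ℝ) < (n : ℝ) + 1 := fun n => by positivity
  let φ : ℕ → ContDiffBump (0 : ℂ) := fun n =>
    ⟨1 / (2 * ((n : ℝ) + 1)), 1 / ((n : ℝ) + 1), by positivity, by
      rw [one_div_lt_one_div (by positivity) (hpos n)]
      linarith [hpos n]⟩
  have hconv : ∀ (n : ℕ) (w : ℂ), moll ((φ n).normed volume) a w =
      (convolution ((φ n).normed volume) a (ContinuousLinearMap.lsmul ℝ ℝ) volume) w := by
    intro n w
    rw [convolution_lsmul_swap]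
    simp only [moll, Complex.real_smul]
  have hint : ∀ n, Integrable ((φ n).normed volume) := fun n => (φ n).integrable_normed
  refine ⟨fun n => (φ n).normed volume, fun n => (φ n).contDiff_normed, fun n z =>
    (φ n).nonneg_normed z, fun n => ?_, fun n => (φ n).integral_normed, ?_, fun n => ?_⟩
  · exact ((φ n).tsupport_normed_eq).subset
  · have h1 := ContDiffBump.ae_convolution_tendsto_right_of_locallyIntegrable (φ := φ)
      (μ := volume) (l := Filter.atTop) (K := 2) (g := a) ?_ ?_ ha.locallyIntegrable
    · filter_upwards [h1] with w hw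
      exact hw.congr fun n => (hconv n w).symm
    · exact tendsto_one_div_add_atTop_nhds_zero_nat
    · refine Filter.Eventually.of_forall fun n => ?_
      change 1 / ((n : ℝ) + 1) ≤ 2 * (1 / (2 * ((n : ℝ) + 1)))
      have := hpos n
      apply le_of_eq
      field_simp
  · have hI : Integrable (moll ((φ n).normed volume) a) := by
      have := (hint n).integrable_convolution (ContinuousLinearMap.lsmul ℝ ℝ) ha
      refine this.congr (Filter.Eventually.of_forall fun w => (hconv n w).symm)
    refine ⟨hI, ?_⟩
    have hI2 : Integrable (convolution ((φ n).normed volume) (fun z => ‖a z‖)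
        (ContinuousLinearMap.lsmul ℝ ℝ) volume) :=
      (hint n).integrable_convolution (ContinuousLinearMap.lsmul ℝ ℝ) ha.norm
    calc ∫ w, ‖moll ((φ n).normed volume) a w‖
        ≤ ∫ w, convolution ((φ n).normed volume) (fun z => ‖a z‖)
            (ContinuousLinearMap.lsmul ℝ ℝ) volume w := by
          refine integral_mono hI.norm hI2 fun w => ?_
          simp only
          rw [convolution_lsmul_swap, moll]
          refine (norm_integral_le_integral_norm _).trans (le_of_eq ?_)
          refine integral_congr_ae (Filter.Eventually.of_forall fun z => ?_)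
          simp only
          rw [norm_mul, Complex.norm_real, Real.norm_of_nonneg ((φ n).nonneg_normed _),
            smul_eq_mul]
      _ = _ := by
          rw [integral_convolution (ContinuousLinearMap.lsmul ℝ ℝ) (hint n) ha.norm]
          simp [(φ n).integral_normed]

end Pool.Agent.Lib.MP_cca10c_ag
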