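import Mathlib

/-!
# Weyl's lemma, part 2: holomorphic functions with bounded `L¹` norm (stub H14, no dependency)

Mean value property over discs (integrate the circle averages in polar coordinates, or use the area
formula), Cauchy estimates, equicontinuity.
-/

set_option autoImplicit false

open Topology Set MeasureTheory Metric

namespace Pool.Agent.Lib.MP_cca10c_ag

open scoped ENNReal in
/-- circle version: the mean value inequality on a circle of radius `ρ < r` -/
private theorem H14_circle {g : ℂ → ℂ} {r ρ : ℝ} (hρ : 0 < ρ) (hρr : ρ < r)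
    (hg : DifferentiableOn ℂ g (ball 0 r)) :
    ENNReal.ofReal (2 * Real.pi) * ‖g 0‖ₑ ≤
      ∫⁻ θ in Ioo (-Real.pi) Real.pi, ‖g (ρ * (Real.cos θ + Real.sin θ * Complex.I))‖ₑ := by
  have hcl : closedBall (0 : ℂ) |ρ| ⊆ ball 0 r := by
    rw [abs_of_pos hρ]
    exact closedBall_subset_ball hρr
  have hd : DiffContOnCl ℂ g (ball 0 |ρ|) := by
    apply DifferentiableOn.diffContOnCl
    rw [closure_ball _ (by rw [abs_of_pos hρ]; exact hρ.ne')]
    exact hg.mono hcl
  have h1 := hd.circleAverage
  have h2 : (2 * Real.pi : ℝ) • g 0 = ∫ θ in (-Real.pi)..Real.pi, g (circleMap 0 ρ θ) := by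
    rw [← h1, Real.circleAverage_def]
    rw [smul_smul, mul_inv_cancel₀ (by positivity), one_smul]
    have hper : Function.Periodic (fun θ => g (circleMap 0 ρ θ)) (2 * Real.pi) :=
      (periodic_circleMap 0 ρ).comp g
    have := hper.intervalIntegral_add_eq 0 (-Real.pi)
    rw [zero_add] at this
    rw [this]
    congr 1
    ring
  have h3 : ‖(2 * Real.pi : ℝ) • g 0‖ₑ ≤ ∫⁻ θ in Ioc (-Real.pi) Real.pi, ‖g (circleMap 0 ρ θ)‖ₑ := by
    rw [h2, intervalIntegral.integral_of_le (by linarith [Real.pi_pos])]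
    exact enorm_integral_le_lintegral_enorm _
  rw [enorm_smul] at h3
  have h4 : ‖(2 * Real.pi : ℝ)‖ₑ = ENNReal.ofReal (2 * Real.pi) := by
    rw [Real.enorm_eq_ofReal (by positivity)]
  rw [h4] at h3
  refine h3.trans (le_of_eq ?_)
  rw [setLIntegral_congr (Ioo_ae_eq_Ioc (μ := volume)).symm]
  refine lintegral_congr fun θ => ?_
  congr 2
  rw [circleMap_zero, Complex.exp_mul_I]
  push_cast
  ring

open scoped ENNReal in
private theorem H14_key0 {g : ℂ → ℂ} {r : ℝ} (hr : 0 < r)
    (hg : DifferentiableOn ℂ g (ball 0 r)) :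
    ENNReal.ofReal (Real.pi * r ^ 2) * ‖g 0‖ₑ ≤ ∫⁻ z in ball (0 : ℂ) r, ‖g z‖ₑ := by
  have hcont : ContinuousOn (fun z => ‖g z‖ₑ) (ball 0 r) := hg.continuousOn.enorm
  set G : ℂ → ℝ≥0∞ := (ball (0 : ℂ) r).indicator (fun z => ‖g z‖ₑ) with hG
  have hGm : Measurable G := by
    classical
    have h := (hcont.measurable_piecewise (g := fun _ => (0 : ℝ≥0∞)) continuousOn_const
      measurableSet_ball)
    have e : (ball (0 : ℂ) r).piecewise (fun z => ‖g z‖ₑ) (fun _ => (0 : ℝ≥0∞)) = G := by
      ext z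
      by_cases hz : z ∈ ball (0 : ℂ) r
      · rw [Set.piecewise_eq_of_mem _ _ _ hz, hG, Set.indicator_of_mem hz]
      · rw [Set.piecewise_eq_of_notMem _ _ _ hz, hG, Set.indicator_of_notMem hz]
    rwa [e] at h
  rw [← lintegral_indicator measurableSet_ball, ← hG, ← Complex.lintegral_comp_polarCoord_symm,
    polarCoord_target, Measure.volume_eq_prod, setLIntegral_prod]
  swap
  · refine (Measurable.aemeasurable ?_)
    have hm : Measurable fun p : ℝ × ℝ => Complex.polarCoord.symm p := by
      simp only [Complex.polarCoord_symm_apply]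
      fun_prop
    exact (ENNReal.measurable_ofReal.comp measurable_fst).smul (hGm.comp hm)
  have hstep : ∀ ρ ∈ Ioo (0 : ℝ) r,
      ENNReal.ofReal ρ * (ENNReal.ofReal (2 * Real.pi) * ‖g 0‖ₑ) ≤
      ∫⁻ θ in Ioo (-Real.pi) Real.pi, ENNReal.ofReal ρ • G (Complex.polarCoord.symm (ρ, θ)) := by
    intro ρ hρ
    have h1 := H14_circle hρ.1 hρ.2 hg
    calc ENNReal.ofReal ρ * (ENNReal.ofReal (2 * Real.pi) * ‖g 0‖ₑ)
        ≤ ENNReal.ofReal ρ * ∫⁻ θ in Ioo (-Real.pi) Real.pi,
          ‖g (ρ * (Real.cos θ + Real.sin θ * Complex.I))‖ₑ := by gcongr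
      _ = ∫⁻ θ in Ioo (-Real.pi) Real.pi, ENNReal.ofReal ρ *
          ‖g (ρ * (Real.cos θ + Real.sin θ * Complex.I))‖ₑ := by
          rw [lintegral_const_mul']
          exact ENNReal.ofReal_ne_top
      _ = _ := by
          refine lintegral_congr fun θ => ?_
          rw [smul_eq_mul, hG, Set.indicator_of_mem, Complex.polarCoord_symm_apply]
          rw [mem_ball_zero_iff, Complex.norm_polarCoord_symm]
          simpa [abs_of_pos hρ.1] using hρ.2
  calc ENNReal.ofReal (Real.pi * r ^ 2) * ‖g 0‖ₑ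
      = (∫⁻ ρ in Ioo (0 : ℝ) r, ENNReal.ofReal ρ) * (ENNReal.ofReal (2 * Real.pi) * ‖g 0‖ₑ) := by
        have hint : ∫⁻ ρ in Ioo (0 : ℝ) r, ENNReal.ofReal ρ = ENNReal.ofReal (r ^ 2 / 2) := by
          rw [← ofReal_integral_eq_lintegral_ofReal]
          · congr 1
            rw [← integral_Ioc_eq_integral_Ioo, ← intervalIntegral.integral_of_le hr.le,
              integral_id]
            ring
          · exact (continuous_id.integrableOn_Icc (a := 0) (b := r)).mono_set Ioo_subset_Icc_self
          · refine (ae_restrict_iff' measurableSet_Ioo).2 (Filter.Eventually.of_forall ?_)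
            intro x hx
            exact hx.1.le
        rw [hint, ← mul_assoc, ← ENNReal.ofReal_mul (by positivity)]
        congr 2
        ring
    _ = ∫⁻ ρ in Ioo (0 : ℝ) r, ENNReal.ofReal ρ * (ENNReal.ofReal (2 * Real.pi) * ‖g 0‖ₑ) := by
        rw [lintegral_mul_const _ ENNReal.measurable_ofReal]
    _ ≤ ∫⁻ ρ in Ioo (0 : ℝ) r, ∫⁻ θ in Ioo (-Real.pi) Real.pi,
          ENNReal.ofReal ρ • G (Complex.polarCoord.symm (ρ, θ)) :=
        setLIntegral_mono' measurableSet_Ioo hstep
    _ ≤ _ := lintegral_mono_set (fun x hx => hx.1)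

open scoped ENNReal in
private theorem H14_key {f : ℂ → ℂ} {w : ℂ} {r : ℝ} (hr : 0 < r)
    (hf : DifferentiableOn ℂ f (ball w r)) :
    ENNReal.ofReal (Real.pi * r ^ 2) * ‖f w‖ₑ ≤ ∫⁻ z in ball w r, ‖f z‖ₑ := by
  have hmaps : MapsTo (fun z : ℂ => w + z) (ball 0 r) (ball w r) := by
    intro z hz
    simpa [mem_ball, dist_eq_norm] using hz
  have hg : DifferentiableOn ℂ (fun z => f (w + z)) (ball 0 r) :=
    hf.comp (by fun_prop) hmaps
  have h1 := H14_key0 hr hg
  simp only [add_zero] at h1
  refine h1.trans (le_of_eq ?_)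
  have hpre : (fun z : ℂ => w + z) ⁻¹' (ball w r) = ball 0 r := by
    ext z
    simp [mem_ball, dist_eq_norm]
  have hmp : MeasurePreserving (fun z : ℂ => w + z) volume volume :=
    measurePreserving_add_left volume w
  have := hmp.setLIntegral_comp_preimage_emb (measurableEmbedding_addLeft w)
    (fun z => ‖f z‖ₑ) (ball w r)
  rw [hpre] at this
  exact this

/-- area mean value inequality -/
theorem norm_le_integral_ball {f : ℂ → ℂ} {w : ℂ} {r : ℝ} (hr : 0 < r)
    (hf : DifferentiableOn ℂ f (ball w r)) (hi : IntegrableOn f (ball w r)) :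
    Real.pi * r ^ 2 * ‖f w‖ ≤ ∫ z in ball w r, ‖f z‖ := by
  have h1 := H14_key hr hf
  rw [← ofReal_norm, ← ENNReal.ofReal_mul (by positivity)] at h1
  rw [integral_norm_eq_lintegral_enorm hi.1]
  rw [ENNReal.ofReal_le_iff_le_toReal hi.2.ne] at h1
  exact h1

/-- the `L²` version -/
theorem sq_norm_le_integral_ball {f : ℂ → ℂ} {w : ℂ} {r : ℝ} (hr : 0 < r)
    (hf : DifferentiableOn ℂ f (ball w r)) (hi : IntegrableOn (fun z => ‖f z‖ ^ 2) (ball w r)) :
    Real.pi * r ^ 2 * ‖f w‖ ^ 2 ≤ ∫ z in ball w r, ‖f z‖ ^ 2 := by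
  have hf2 : DifferentiableOn ℂ (fun z => f z ^ 2) (ball w r) := hf.pow 2
  have hi2 : IntegrableOn (fun z => f z ^ 2) (ball w r) := by
    rw [IntegrableOn, ← integrable_norm_iff
      (hf2.continuousOn.aestronglyMeasurable measurableSet_ball)]
    have hi' : Integrable (fun z => ‖f z‖ ^ 2) (volume.restrict (ball w r)) := hi
    simpa only [norm_pow] using hi'
  have h := norm_le_integral_ball hr hf2 hi2
  simpa only [norm_pow] using h

/-- a sequence of holomorphic functions bounded by `M` on the ball of radius `2 r` which converges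
almost everywhere on the ball of radius `r` has a holomorphic limit there -/
theorem exists_hol_limit {f : ℕ → ℂ → ℂ} {a : ℂ → ℂ} {w : ℂ} {r M : ℝ} (hr : 0 < r)
    (hf : ∀ᶠ n in Filter.atTop, DifferentiableOn ℂ (f n) (ball w (2 * r)))
    (hM : ∀ᶠ n in Filter.atTop, ∀ z ∈ ball w (2 * r), ‖f n z‖ ≤ M)
    (ha : ∀ᵐ z ∂(volume.restrict (ball w r)),
      Filter.Tendsto (fun n => f n z) Filter.atTop (𝓝 (a z))) :
    ∃ b : ℂ → ℂ, DifferentiableOn ℂ b (ball w r) ∧
      ∀ᵐ z ∂(volume.restrict (ball w r)), a z = b z := by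
  have hM0 : 0 ≤ M := by
    obtain ⟨n, hn⟩ := hM.exists
    exact (norm_nonneg _).trans (hn w (mem_ball_self (by positivity)))
  -- equi-Lipschitz
  have hlip : ∀ᶠ n in Filter.atTop, ∀ z ∈ ball w r, ∀ z' ∈ ball w r,
      ‖f n z - f n z'‖ ≤ (2 * M / r) * ‖z - z'‖ := by
    filter_upwards [hf, hM] with n hn hMn z hz z' hz'
    have hsub : ∀ x ∈ ball w r, closedBall x (r / 2) ⊆ ball w (2 * r) := by
      intro x hx y hy
      rw [mem_ball] at hx ⊢
      rw [mem_closedBall] at hy
      linarith [dist_triangle y x w]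
    have hder : ∀ x ∈ ball w r, ‖deriv (f n) x‖ ≤ 2 * M / r := by
      intro x hx
      have h1 : DiffContOnCl ℂ (f n) (ball x (r / 2)) := by
        apply DifferentiableOn.diffContOnCl
        rw [closure_ball _ (by positivity)]
        exact hn.mono (hsub x hx)
      have h2 := Complex.norm_deriv_le_of_forall_mem_sphere_norm_le (c := x) (R := r / 2)
        (by positivity) h1 (C := M)
        (fun y hy => hMn y (hsub x hx (sphere_subset_closedBall hy)))
      refine h2.trans (le_of_eq ?_)
      field_simp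
    have hdiff : ∀ x ∈ ball w r, DifferentiableAt ℂ (f n) x := fun x hx =>
      (hn x (hsub x hx (mem_closedBall_self (by positivity)))).differentiableAt
        (isOpen_ball.mem_nhds (hsub x hx (mem_closedBall_self (by positivity))))
    exact (convex_ball w r).norm_image_sub_le_of_norm_deriv_le hdiff hder hz' hz
  set L : ℝ := 2 * M / r with hL
  have hL0 : 0 ≤ L := by positivity
  -- the good set is dense in the ball
  set A : Set ℂ := {z ∈ ball w r | Filter.Tendsto (fun n => f n z) Filter.atTop (𝓝 (a z))} with hA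
  have hdense : ∀ z ∈ ball w r, ∀ δ > 0, ∃ y ∈ A, dist z y < δ := by
    intro z hz δ hδ
    by_contra hcon
    push Not at hcon
    have h1 : (ball z δ ∩ ball w r) ⊆ {x ∈ ball w r |
        ¬ Filter.Tendsto (fun n => f n x) Filter.atTop (𝓝 (a x))} := by
      intro x hx
      refine ⟨hx.2, fun ht => ?_⟩
      have := hcon x ⟨hx.2, ht⟩
      have h2 : dist z x < δ := by rw [dist_comm]; exact hx.1
      linarith
    have h0 : volume {x ∈ ball w r |
        ¬ Filter.Tendsto (fun n => f n x) Filter.atTop (𝓝 (a x))} = 0 := by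
      rw [ae_restrict_iff' measurableSet_ball, ae_iff] at ha
      refine measure_mono_null ?_ ha
      intro x hx
      simp only [Set.mem_ofPred_eq] at hx ⊢
      intro h
      exact hx.2 (h hx.1)
    have h3 : volume (ball z δ ∩ ball w r) = 0 := measure_mono_null h1 h0
    have h4 : 0 < volume (ball z δ ∩ ball w r) :=
      (isOpen_ball.inter isOpen_ball).measure_pos volume ⟨z, mem_ball_self hδ, hz⟩
    exact h4.ne' h3
  -- uniformly Cauchy
  have hcau : ∀ ε > 0, ∃ N, ∀ m ≥ N, ∀ n ≥ N, ∀ z ∈ ball w r, dist (f m z) (f n z) < ε := by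
    intro ε hε
    set δ : ℝ := ε / (8 * (L + 1)) with hδ
    have hδ0 : 0 < δ := by positivity
    have htb : TotallyBounded A := by
      refine TotallyBounded.subset (fun z hz => ball_subset_closedBall hz.1)
        (isCompact_closedBall w r).totallyBounded
    obtain ⟨t, htA, htf, htc⟩ := finite_approx_of_totallyBounded htb δ hδ0
    have hev : ∀ᶠ N in Filter.atTop, ∀ m ≥ N, ∀ n ≥ N, ∀ y ∈ t, dist (f m y) (f n y) < ε / 4 := by
      have : ∀ y ∈ t, ∀ᶠ N in Filter.atTop, ∀ m ≥ N, ∀ n ≥ N, dist (f m y) (f n y) < ε / 4 := by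
        intro y hy
        have hc : CauchySeq (fun n => f n y) := (htA hy).2.cauchySeq
        obtain ⟨N, hN⟩ := Metric.cauchySeq_iff.1 hc (ε / 4) (by positivity)
        filter_upwards [Filter.eventually_ge_atTop N] with N' hN' m hm n hn
        exact hN m (le_trans hN' hm) n (le_trans hN' hn)
      have h5 := (Filter.eventually_all_finite htf).2 this
      filter_upwards [h5] with N hN m hm n hn y hy
      exact hN y hy m hm n hn
    obtain ⟨N1, hN1⟩ := Filter.eventually_atTop.1 hlip
    obtain ⟨N2, hN2⟩ := Filter.eventually_atTop.1 hev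
    refine ⟨max N1 N2, fun m hm n hn z hz => ?_⟩
    obtain ⟨y', hy'A, hy'⟩ := hdense z hz δ hδ0
    obtain ⟨y, hyt, hy⟩ := mem_iUnion₂.1 (htc hy'A)
    have hzy : ‖z - y‖ ≤ 2 * δ := by
      rw [← dist_eq_norm]
      have := dist_triangle z y' y
      rw [mem_ball] at hy
      linarith
    have hyb : y ∈ ball w r := (htA hyt).1
    have e1 := hN1 m (le_trans (le_max_left _ _) hm) z hz y hyb
    have e2 := hN1 n (le_trans (le_max_left _ _) hn) z hz y hyb
    have e3 := hN2 (max N1 N2) (le_max_right _ _) m hm n hn y hyt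
    have e4 : L * ‖z - y‖ ≤ ε / 4 := by
      calc L * ‖z - y‖ ≤ L * (2 * δ) := by gcongr
        _ ≤ (L + 1) * (2 * δ) := by nlinarith
        _ = ε / 4 := by rw [hδ]; field_simp; ring
    rw [dist_eq_norm] at e3 ⊢
    have e5 : f m z - f n z = (f m z - f m y) + (f m y - f n y) - (f n z - f n y) := by ring
    rw [e5]
    have e6 := norm_sub_le ((f m z - f m y) + (f m y - f n y)) (f n z - f n y)
    have e7 := norm_add_le (f m z - f m y) (f m y - f n y)
    linarith
  -- pointwise limit
  have hlim : ∀ z ∈ ball w r, ∃ l, Filter.Tendsto (fun n => f n z) Filter.atTop (𝓝 l) := by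
    intro z hz
    apply cauchySeq_tendsto_of_complete
    rw [Metric.cauchySeq_iff]
    intro ε hε
    obtain ⟨N, hN⟩ := hcau ε hε
    exact ⟨N, fun m hm n hn => hN m hm n hn z hz⟩
  classical
  set b : ℂ → ℂ := fun z => if h : z ∈ ball w r then (hlim z h).choose else 0 with hb
  have hbt : ∀ z ∈ ball w r, Filter.Tendsto (fun n => f n z) Filter.atTop (𝓝 (b z)) := by
    intro z hz
    simp only [hb, dif_pos hz]
    exact (hlim z hz).choose_spec
  refine ⟨b, ?_, ?_⟩
  · have hunif : TendstoUniformlyOn f b Filter.atTop (ball w r) := by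
      apply UniformCauchySeqOn.tendstoUniformlyOn_of_tendsto
      · rw [Metric.uniformCauchySeqOn_iff]
        intro ε hε
        obtain ⟨N, hN⟩ := hcau ε hε
        exact ⟨N, fun m hm n hn z hz => hN m hm n hn z hz⟩
      · exact hbt
    refine hunif.tendstoLocallyUniformlyOn.differentiableOn ?_ isOpen_ball
    filter_upwards [hf] with n hn
    exact hn.mono (ball_subset_ball (by linarith))
  · filter_upwards [ha, ae_restrict_mem measurableSet_ball] with z hz hzb
    exact tendsto_nhds_unique hz (hbt z hzb)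

end Pool.Agent.Lib.MP_cca10c_ag
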