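import Pool.Agent.Lib.MP_cca10c_ag.H13_Moll
import Pool.Agent.Lib.MP_cca10c_ag.H14_MeanVal

/-!
# Weyl's lemma (H15)

Local step: on a ball `ball w (4 r) ⊆ Ω` on which `a` is integrable replace `a` by its restriction
to the ball, mollify, `norm_le_integral_ball` bounds the mollified functions on `ball w (2 r)`, and
`exists_hol_limit` gives a holomorphic function on `ball w r` equal to `a` almost everywhere.
Global step: two holomorphic functions which agree almost everywhere on an open set agree; define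
`b z` by the local function.
-/

set_option autoImplicit false

open Topology Set MeasureTheory Metric
open scoped ContDiff

namespace Pool.Agent.Lib.MP_cca10c_ag

private theorem weyl_cgrad_zero {ψ : ℂ → ℝ} {z : ℂ} (hz : z ∉ tsupport ψ) : cgrad ψ z = 0 := by
  have h : ψ =ᶠ[𝓝 z] fun _ => (0 : ℝ) := by
    have := notMem_tsupport_iff_eventuallyEq.mp hz
    exact this
  rw [cgrad_congr h, cgrad_const]

private theorem weyl_mono {a : ℂ → ℂ} {Ω Ω' : Set ℂ} (hw : WeakHol a Ω) (h : Ω' ⊆ Ω) :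
    WeakHol a Ω' := fun ψ h1 h2 h3 => hw ψ h1 h2 (h3.trans h)

theorem weyl_ball {a : ℂ → ℂ} {w : ℂ} {r : ℝ} (hr : 0 < r)
    (ha : IntegrableOn a (ball w (4 * r))) (hw : WeakHol a (ball w (4 * r))) :
    ∃ b : ℂ → ℂ, DifferentiableOn ℂ b (ball w r) ∧
      ∀ᵐ z ∂(volume.restrict (ball w r)), a z = b z := by
  set a₀ : ℂ → ℂ := (ball w (4 * r)).indicator a with ha₀
  have hint : Integrable a₀ := (integrable_indicator_iff measurableSet_ball).mpr ha
  have hwh : WeakHol a₀ (ball w (4 * r)) := by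
    intro ψ h1 h2 h3
    rw [← hw ψ h1 h2 h3]
    refine integral_congr_ae (Filter.Eventually.of_forall fun z => ?_)
    by_cases hz : z ∈ ball w (4 * r)
    · simp only [ha₀, indicator_of_mem hz]
    · have : cgrad ψ z = 0 := weyl_cgrad_zero fun h => hz (h3 h)
      simp only [this, map_zero, mul_zero]
  obtain ⟨ρ, h1, -, h3, -, h5, h6⟩ := exists_moll a₀ hint
  have hsmall : ∀ᶠ n : ℕ in Filter.atTop, 1 / ((n : ℝ) + 1) < r :=
    tendsto_one_div_add_atTop_nhds_zero_nat.eventually (gt_mem_nhds hr)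
  have hdiff : ∀ᶠ n : ℕ in Filter.atTop, ∀ z ∈ ball w (3 * r),
      DifferentiableAt ℂ (moll (ρ n) a₀) z := by
    filter_upwards [hsmall] with n hn z hz
    refine moll_differentiableAt hint hwh (h1 n) (h3 n) ⟨r, hn, ?_⟩
    intro y hy
    rw [mem_closedBall] at hy
    rw [mem_ball] at hz ⊢
    linarith [dist_triangle y z w]
  refine ?_
  have hlim := exists_hol_limit (f := fun n => moll (ρ n) a₀) (a := a₀) (w := w) (r := r)
    (M := (∫ z, ‖a₀ z‖) / (Real.pi * r ^ 2)) hr ?_ ?_ (ae_restrict_of_ae h5)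
  · obtain ⟨b, hb1, hb2⟩ := hlim
    refine ⟨b, hb1, ?_⟩
    filter_upwards [hb2, ae_restrict_mem measurableSet_ball] with z hz hz'
    rw [← hz, ha₀, indicator_of_mem]
    exact ball_subset_ball (by linarith) hz'
  · filter_upwards [hdiff] with n hn z hz
    exact (hn z (ball_subset_ball (by linarith) hz)).differentiableWithinAt
  · filter_upwards [hdiff] with n hn z hz
    have hsub : ball z r ⊆ ball w (3 * r) := by
      intro y hy
      rw [mem_ball] at hy hz ⊢
      linarith [dist_triangle y z w]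
    have h7 := norm_le_integral_ball (f := moll (ρ n) a₀) (w := z) hr
      (fun y hy => (hn y (hsub hy)).differentiableWithinAt) (h6 n).1.integrableOn
    have h8 : ∫ y in ball z r, ‖moll (ρ n) a₀ y‖ ≤ ∫ y, ‖moll (ρ n) a₀ y‖ :=
      setIntegral_le_integral (h6 n).1.norm (Filter.Eventually.of_forall fun y => norm_nonneg _)
    have hpos : 0 < Real.pi * r ^ 2 := by positivity
    rw [le_div_iff₀ hpos, mul_comm]
    linarith [(h6 n).2]

/-- Weyl's lemma: a locally integrable weakly holomorphic function is holomorphic -/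
theorem weyl {a : ℂ → ℂ} {Ω : Set ℂ} (hΩ : IsOpen Ω)
    (ha : ∀ w ∈ Ω, ∃ r > 0, ball w r ⊆ Ω ∧ IntegrableOn a (ball w r)) (hw : WeakHol a Ω) :
    ∃ b : ℂ → ℂ, DifferentiableOn ℂ b Ω ∧ ∀ᵐ z ∂(volume.restrict Ω), a z = b z := by
  classical
  have hloc : ∀ w : ℂ, ∃ (r : ℝ) (b : ℂ → ℂ), w ∈ Ω → 0 < r ∧ ball w r ⊆ Ω ∧
      DifferentiableOn ℂ b (ball w r) ∧ ∀ᵐ z ∂(volume.restrict (ball w r)), a z = b z := by
    intro w
    by_cases hwΩ : w ∈ Ω
    · obtain ⟨r, hr, hsub, hint⟩ := ha w hwΩ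
      have e : 4 * (r / 4) = r := by ring
      obtain ⟨b, hb1, hb2⟩ := weyl_ball (a := a) (w := w) (r := r / 4) (by positivity)
        (by rw [e]; exact hint) (by rw [e]; exact weyl_mono hw hsub)
      exact ⟨r / 4, b, fun _ => ⟨by positivity,
        (ball_subset_ball (by linarith)).trans hsub, hb1, hb2⟩⟩
    · exact ⟨0, 0, fun h => absurd h hwΩ⟩
  choose r b hb using hloc
  have hagree : ∀ w ∈ Ω, ∀ z ∈ Ω, z ∈ ball w (r w) → b z z = b w z := by
    intro w hwΩ z hzΩ hz
    obtain ⟨-, -, hw3, hw4⟩ := hb w hwΩ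
    obtain ⟨hz1, -, hz3, hz4⟩ := hb z hzΩ
    have hae : b z =ᵐ[volume.restrict (ball w (r w) ∩ ball z (r z))] b w := by
      have e1 := ae_restrict_of_ae_restrict_of_subset
        (inter_subset_left : ball w (r w) ∩ ball z (r z) ⊆ ball w (r w)) hw4
      have e2 := ae_restrict_of_ae_restrict_of_subset
        (inter_subset_right : ball w (r w) ∩ ball z (r z) ⊆ ball z (r z)) hz4
      filter_upwards [e1, e2] with y h1 h2
      rw [← h1, ← h2]
    exact Measure.eqOn_open_of_ae_eq hae (isOpen_ball.inter isOpen_ball)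
      (hz3.continuousOn.mono inter_subset_right) (hw3.continuousOn.mono inter_subset_left)
      ⟨hz, mem_ball_self hz1⟩
  refine ⟨fun z => b z z, fun w hwΩ => ?_, ?_⟩
  · obtain ⟨hw1, hw2, hw3, -⟩ := hb w hwΩ
    have hd : DifferentiableAt ℂ (b w) w := hw3.differentiableAt (ball_mem_nhds w hw1)
    refine (hd.congr_of_eventuallyEq ?_).differentiableWithinAt
    filter_upwards [ball_mem_nhds w hw1] with z hz
    exact hagree w hwΩ z (hw2 hz) hz
  · rw [ae_restrict_iff' hΩ.measurableSet, ae_iff]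
    refine measure_null_of_locally_null _ fun x hx => ?_
    simp only [mem_ofPred_eq, Classical.not_imp] at hx
    obtain ⟨hx1, hx2, -, hx4⟩ := hb x hx.1
    refine ⟨{z | ¬(z ∈ Ω → a z = b z z)} ∩ ball x (r x),
      inter_mem_nhdsWithin _ (ball_mem_nhds x hx1), ?_⟩
    rw [ae_restrict_iff' measurableSet_ball, ae_iff] at hx4
    refine measure_mono_null ?_ hx4
    rintro z ⟨hz1, hz2⟩
    simp only [mem_ofPred_eq, Classical.not_imp] at hz1 ⊢
    refine ⟨hz2, ?_⟩
    rw [← hagree x hx.1 z hz1.1 hz2]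
    exact hz1.2

end Pool.Agent.Lib.MP_cca10c_ag
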