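import Pool.Agent.Lib.MP_cca10c_ag.H12_Stokes
import Pool.Agent.Lib.MP_cca10c_ag.H15_Weyl

/-!
# Forms orthogonal to the exact and coexact forms are harmonic; the Hodge projection (stub H16)

`holIn_of_orthogonal`: in a chart `e` with source in `U`, test functions `ψ` on `e.target` extend by
zero to smooth functions `φ` on `X` (`CS.smooth_ext`), and `ip_eq_of_support` gives
`0 = F.ip h (F.d φ) = ∫ co h * conj (cgrad ψ)`: the coefficient is weakly holomorphic, so (Weyl) a.e.
equal to a holomorphic function. Define `b x` as the value in the chart `F.ch x` (restricted to `U`)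
of that function; by continuity the functions of different charts are compatible.

`exists_decomp`: in the real Hilbert space `Lp ℂ 2 F.nu` (`InnerProductSpace ℝ`, product
`⟪f, g⟫ = ∫ Re (conj f g)`), let `E` be the closure of the subspace of the `F.d φ`. By `stokes` the
subspaces `E` and `i E` are orthogonal, so `E ⊕ i E` is closed; the orthogonal projection of `a` on it
is `b + i c` and `a - b - i c` is orthogonal to all `F.d φ` and `i F.d φ`.
-/

set_option autoImplicit false
set_option linter.unusedSectionVars false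

open Topology Set MeasureTheory
open scoped ContDiff

namespace Pool.Agent.Lib.MP_cca10c_ag

variable {X : Type} [TopologicalSpace X] [CompactSpace X] [T2Space X] {S : CS X}
variable {F : Frame S} [MeasurableSpace X] [BorelSpace X]

private theorem H16_meas_inter {Y Z : Type} [TopologicalSpace Y] [MeasurableSpace Y]
    [BorelSpace Y] [TopologicalSpace Z] [MeasurableSpace Z] [BorelSpace Z] {f : Y → Z} {s : Set Y}
    (hs : MeasurableSet s) (hf : ContinuousOn f s) {B : Set Z} (hB : MeasurableSet B) :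
    MeasurableSet (s ∩ f ⁻¹' B) := by
  have h1 : Measurable (s.domRestrict f) :=
    (continuousOn_iff_continuous_domRestrict.1 hf).measurable
  have h2 := hs.subtype_image (h1 hB)
  convert h2 using 1
  ext y
  constructor
  · rintro ⟨hy, hyB⟩
    exact ⟨⟨y, hy⟩, hyB, rfl⟩
  · rintro ⟨⟨y, hy⟩, hyB, rfl⟩
    exact ⟨hy, hyB⟩

namespace Frame

/-- null sets in a chart -/
private theorem H16_null (F : Frame S) {e : OpenPartialHomeomorph X ℂ} (he : e ∈ S.charts)
    {B : Set X} (hB : B ⊆ e.source) : F.nu B = 0 ↔ volume (e '' B) = 0 := by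
  constructor
  · intro h
    have hMm : MeasurableSet (toMeasurable F.nu B ∩ e.source) :=
      (measurableSet_toMeasurable _ _).inter e.open_source.measurableSet
    have h0 : F.nu (toMeasurable F.nu B ∩ e.source) = 0 :=
      measure_mono_null inter_subset_left (by rw [measure_toMeasurable]; exact h)
    have h1 := (F.nu_eq_zero_iff he hMm inter_subset_right).1 h0
    exact measure_mono_null (image_mono (subset_inter (subset_toMeasurable _ _) hB)) h1
  · intro h
    have hMm : MeasurableSet (e.source ∩ e ⁻¹' (toMeasurable volume (e '' B))) :=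
      H16_meas_inter e.open_source.measurableSet e.continuousOn (measurableSet_toMeasurable _ _)
    have h1 : volume (e '' (e.source ∩ e ⁻¹' (toMeasurable volume (e '' B)))) = 0 := by
      have h2 : e '' (e.source ∩ e ⁻¹' (toMeasurable volume (e '' B)))
          ⊆ toMeasurable volume (e '' B) := by
        rintro _ ⟨x, hx, rfl⟩
        exact hx.2
      exact measure_mono_null h2 (by rw [measure_toMeasurable]; exact h)
    have h0 := (F.nu_eq_zero_iff he hMm inter_subset_left).2 h1
    have h3 : B ⊆ e.source ∩ e ⁻¹' (toMeasurable volume (e '' B)) := fun x hx =>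
      ⟨hB hx, subset_toMeasurable _ _ ⟨x, hx, rfl⟩⟩
    exact measure_mono_null h3 h0

/-- almost everywhere statements in a chart -/
private theorem H16_ae (F : Frame S) {e : OpenPartialHomeomorph X ℂ} (he : e ∈ S.charts)
    {A : Set X} (hA : IsOpen A) (hAe : A ⊆ e.source) {P : X → Prop} :
    (∀ᵐ x ∂(F.nu.restrict A), P x) ↔
      ∀ᵐ z ∂((volume : Measure ℂ).restrict (e '' A)), P (e.symm z) := by
  have hA' : IsOpen (e '' A) := e.isOpen_image_of_subset_source hA hAe
  rw [ae_restrict_iff' hA.measurableSet, ae_restrict_iff' hA'.measurableSet, ae_iff, ae_iff]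
  have h1 : {x | ¬(x ∈ A → P x)} ⊆ e.source := fun x hx => by
    by_contra hn
    exact hx fun h => absurd (hAe h) hn
  rw [F.H16_null he h1]
  have h2 : e '' {x | ¬(x ∈ A → P x)} = {z | ¬(z ∈ e '' A → P (e.symm z))} := by
    ext z
    constructor
    · rintro ⟨x, hx, rfl⟩ hn
      refine hx fun hxA => ?_
      have h3 := hn ⟨x, hxA, rfl⟩
      rwa [e.left_inv (hAe hxA)] at h3
    · intro hz
      have hz' : z ∈ e '' A := by
        by_contra hn
        exact hz fun h => absurd h hn
      obtain ⟨x, hx, rfl⟩ := hz'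
      refine ⟨x, fun hn => hz fun _ => ?_, rfl⟩
      rw [e.left_inv (hAe hx)]
      exact hn hx
  rw [h2]

private theorem H16_tsupport {e : OpenPartialHomeomorph X ℂ} {ψ : ℂ → ℝ}
    (hc : HasCompactSupport ψ) (hs : tsupport ψ ⊆ e.target) :
    tsupport (e.source.indicator (fun x => ψ (e x))) ⊆ e.symm '' tsupport ψ := by
  have hcomp : IsCompact (e.symm '' tsupport ψ) :=
    hc.isCompact.image_of_continuousOn (e.continuousOn_symm.mono hs)
  refine closure_minimal ?_ hcomp.isClosed
  intro x hx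
  rw [Function.mem_support] at hx
  have hxs : x ∈ e.source := by
    by_contra hn
    exact hx (indicator_of_notMem hn _)
  rw [indicator_of_mem hxs] at hx
  exact ⟨e x, subset_tsupport _ hx, e.left_inv hxs⟩

private theorem H16_d_zero (F : Frame S) {φ : X → ℝ} {x : X} (hx : x ∉ tsupport φ) :
    F.d φ x = 0 := by
  have h1 : φ =ᶠ[𝓝 x] fun _ => 0 := notMem_tsupport_iff_eventuallyEq.1 hx
  rw [F.d_congr h1, F.d_const]

private theorem H16_co_ext (F : Frame S) {e : OpenPartialHomeomorph X ℂ} (he : e ∈ S.charts)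
    {ψ : ℂ → ℝ} (hψ : ContDiff ℝ ∞ ψ) (hc : HasCompactSupport ψ) (hs : tsupport ψ ⊆ e.target)
    {z : ℂ} (hz : z ∈ e.target) :
    F.co e (F.d (e.source.indicator (fun x => ψ (e x)))) z = cgrad ψ z := by
  set φ := e.source.indicator (fun x => ψ (e x)) with hφ
  have hφs : S.Smooth φ := CS.smooth_ext he hψ hc hs
  have hx : e.symm z ∈ e.source := e.map_target hz
  have h1 := F.co_d he hx (hφs (e.symm z))
  rw [e.right_inv hz] at h1
  rw [h1]
  refine cgrad_congr ?_
  filter_upwards [e.open_target.mem_nhds hz] with w hw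
  show φ (e.symm w) = ψ w
  rw [hφ, indicator_of_mem (e.map_target hw), e.right_inv hw]

private theorem H16_weak (F : Frame S) {U : Set X} {h : X → ℂ}
    (ho : ∀ φ : X → ℝ, S.Smooth φ → tsupport φ ⊆ U → F.ip h (F.d φ) = 0)
    {e : OpenPartialHomeomorph X ℂ} (he : e ∈ S.charts) (heU : e.source ⊆ U) :
    WeakHol (F.co e h) e.target := by
  intro ψ hψ hc hs
  set φ := e.source.indicator (fun x => ψ (e x)) with hφ
  have hφs : S.Smooth φ := CS.smooth_ext he hψ hc hs
  have hsub : tsupport φ ⊆ e.source := by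
    refine (H16_tsupport hc hs).trans ?_
    rintro _ ⟨z, hz, rfl⟩
    exact e.map_target (hs hz)
  have h1 := ho φ hφs (hsub.trans heU)
  rw [F.ip_eq_of_support he e.open_source.measurableSet subset_rfl h (F.d φ)
    (fun x hx => F.H16_d_zero (fun h => hx (hsub h))), e.image_source_eq_target] at h1
  have h2 : ∫ z in e.target, F.co e h z * starRingEnd ℂ (F.co e (F.d φ) z)
      = ∫ z in e.target, F.co e h z * starRingEnd ℂ (cgrad ψ z) := by
    refine setIntegral_congr_fun e.open_target.measurableSet fun z hz => ?_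
    show F.co e h z * starRingEnd ℂ (F.co e (F.d φ) z) = _
    rw [hφ, F.H16_co_ext he hψ hc hs hz]
  rw [h2] at h1
  rw [← h1]
  refine (setIntegral_eq_integral_of_forall_compl_eq_zero fun z hz => ?_).symm
  have h4 : z ∉ tsupport ψ := fun h => hz (hs h)
  have h3 : ψ =ᶠ[𝓝 z] fun _ => 0 := notMem_tsupport_iff_eventuallyEq.1 h4
  rw [cgrad_congr h3, cgrad_const, map_zero, mul_zero]

private theorem H16_int (hF : F.Tame) {U : Set X} {h : X → ℂ}
    (hh : ∀ K ⊆ U, IsCompact K → MemLp h 2 (F.nu.restrict K))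
    {e : OpenPartialHomeomorph X ℂ} (he : e ∈ S.charts) (heU : e.source ⊆ U) {w : ℂ}
    (hw : w ∈ e.target) :
    ∃ r > 0, Metric.ball w r ⊆ e.target ∧ IntegrableOn (F.co e h) (Metric.ball w r) := by
  have hfin := hF.isFiniteMeasure
  obtain ⟨R, hR, hball⟩ := Metric.isOpen_iff.1 e.open_target w hw
  let f : ContDiffBump w := ⟨R / 4, R / 2, by linarith, by linarith⟩
  set ψ : ℂ → ℝ := fun z => f z * z.re with hψ
  have hψs : ContDiff ℝ ∞ ψ := f.contDiff.mul Complex.reCLM.contDiff
  have hsupp : tsupport ψ ⊆ Metric.closedBall w (R / 2) :=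
    tsupport_mul_subset_left.trans f.tsupport_eq.subset
  have hc : HasCompactSupport ψ :=
    (isCompact_closedBall w (R / 2)).of_isClosed_subset (isClosed_tsupport _) hsupp
  have hs : tsupport ψ ⊆ e.target :=
    hsupp.trans ((Metric.closedBall_subset_ball (by linarith)).trans hball)
  set φ := e.source.indicator (fun x => ψ (e x)) with hφ
  have hφs : S.Smooth φ := CS.smooth_ext he hψs hc hs
  have hcl : F.Closed (F.d φ) := F.closed_d hφs
  have hcg : ∀ z ∈ Metric.ball w (R / 4), cgrad ψ z = 1 := fun z hz => by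
    have h1 : ψ =ᶠ[𝓝 z] fun z => (id z : ℂ).re := by
      filter_upwards [Metric.isOpen_ball.mem_nhds hz] with y hy
      show f y * y.re = y.re
      rw [f.one_of_mem_closedBall (Metric.ball_subset_closedBall hy), one_mul]
    rw [cgrad_congr h1, cgrad_re differentiableAt_id, deriv_id]
  have hsub8 : Metric.ball w (R / 8) ⊆ Metric.ball w (R / 4) :=
    Metric.ball_subset_ball (by linarith)
  have hcb : Metric.closedBall w (R / 8) ⊆ e.target :=
    (Metric.closedBall_subset_ball (by linarith)).trans hball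
  have hbt : Metric.ball w (R / 8) ⊆ e.target := Metric.ball_subset_closedBall.trans hcb
  have hK : IsCompact (e.symm '' Metric.closedBall w (R / 8)) :=
    (isCompact_closedBall w (R / 8)).image_of_continuousOn (e.continuousOn_symm.mono hcb)
  have hKs : e.symm '' Metric.closedBall w (R / 8) ⊆ e.source := by
    rintro _ ⟨z, hz, rfl⟩
    exact e.map_target (hcb hz)
  set A := e.symm '' Metric.ball w (R / 8) with hAdef
  have hAK : A ⊆ e.symm '' Metric.closedBall w (R / 8) :=
    image_mono Metric.ball_subset_closedBall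
  have hA : IsOpen A := e.isOpen_image_symm_of_subset_target Metric.isOpen_ball hbt
  have hAe : A ⊆ e.source := hAK.trans hKs
  have hm : MemLp h 2 (F.nu.restrict A) :=
    (hh _ (hKs.trans heU) hK).mono_measure (Measure.restrict_mono hAK le_rfl)
  have hi : Integrable h (F.nu.restrict A) := hm.integrable one_le_two
  obtain ⟨C, hC⟩ := hcl.bounded hF
  have hi2 : IntegrableOn (fun x => h x * starRingEnd ℂ (F.d φ x)) A F.nu := by
    refine hi.mul_bdd (c := C) ?_ (Filter.Eventually.of_forall fun x => ?_)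
    · exact (Complex.continuous_conj.measurable.comp hcl.measurable).aestronglyMeasurable
    · rw [RCLike.norm_conj]
      exact hC x
  have hi3 := (F.integrableOn_nu_iff he hA.measurableSet hAe _).1 hi2
  have himg : e '' A = Metric.ball w (R / 8) :=
    e.toPartialEquiv.image_symm_image_of_subset_target hbt
  rw [himg] at hi3
  refine ⟨R / 8, by linarith, hbt, ?_⟩
  refine hi3.congr_fun (fun z hz => ?_) measurableSet_ball
  simp only
  have h5 : F.co e (F.d φ) z = 1 := by
    rw [hφ, F.H16_co_ext he hψs hc hs (hbt hz), hcg z (hsub8 hz)]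
  unfold Frame.co at h5 ⊢
  set D := deriv (F.ch (e.symm z) ∘ e.symm) z with hD
  have h6 : ((‖D‖ ^ 2 : ℝ) : ℂ) = D * starRingEnd ℂ D := by
    rw [Complex.mul_conj']
    push_cast
    rfl
  rw [Complex.real_smul, h6]
  have h7 : starRingEnd ℂ (F.d φ (e.symm z)) * starRingEnd ℂ D = 1 := by
    rw [← map_mul, h5, map_one]
  linear_combination (h (e.symm z) * D) * h7

/-- the holomorphic function of a chart -/
private theorem H16_beta (hF : F.Tame) {U : Set X} (hU : IsOpen U) {h : X → ℂ}
    (hh : ∀ K ⊆ U, IsCompact K → MemLp h 2 (F.nu.restrict K))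
    (ho : ∀ φ : X → ℝ, S.Smooth φ → tsupport φ ⊆ U → F.ip h (F.d φ) = 0)
    {e : OpenPartialHomeomorph X ℂ} (he : e ∈ S.charts) :
    ∃ β : ℂ → ℂ, DifferentiableOn ℂ β (e.target ∩ e.symm ⁻¹' U) ∧
      ∀ᵐ x ∂(F.nu.restrict (e.source ∩ U)), F.co e h (e x) = β (e x) := by
  set e' := e.restr U with he'
  have he'S : e' ∈ S.charts := CS.restr_mem he hU
  have hsrc : e'.source = e.source ∩ U := e.restr_source' U hU
  have htgt : e'.target = e.target ∩ e.symm ⁻¹' U := by
    show e.target ∩ e.symm ⁻¹' (interior U) = _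
    rw [hU.interior_eq]
  have hsU : e'.source ⊆ U := by
    rw [hsrc]
    exact inter_subset_right
  obtain ⟨β, hβ, hae⟩ := weyl e'.open_target (fun w hw => H16_int hF hh he'S hsU hw)
    (F.H16_weak ho he'S hsU)
  refine ⟨β, ?_, ?_⟩
  · rw [← htgt]
    exact hβ
  · rw [← hsrc, F.H16_ae he'S e'.open_source subset_rfl, e'.image_source_eq_target,
      ae_restrict_iff' e'.open_target.measurableSet]
    rw [ae_restrict_iff' e'.open_target.measurableSet] at hae
    filter_upwards [hae] with z hz hzt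
    have h1 := hz hzt
    have h2 : e (e'.symm z) = z := e'.right_inv hzt
    rw [h2]
    exact h1

/-- local version, for forms which are square integrable near every point of `U` -/
theorem holIn_of_orthogonal (hF : F.Tame) {U : Set X} (hU : IsOpen U) {h : X → ℂ}
    (hh : ∀ K ⊆ U, IsCompact K → MemLp h 2 (F.nu.restrict K))
    (ho : ∀ φ : X → ℝ, S.Smooth φ → tsupport φ ⊆ U → F.ip h (F.d φ) = 0) :
    ∃ b : X → ℂ, F.HolIn U b ∧ ∀ᵐ x ∂(F.nu.restrict U), h x = b x := by
  have key : ∀ e : {e // e ∈ S.charts}, ∃ β : ℂ → ℂ,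
      DifferentiableOn ℂ β (e.1.target ∩ e.1.symm ⁻¹' U) ∧
        ∀ᵐ x ∂(F.nu.restrict (e.1.source ∩ U)), F.co e.1 h (e.1 x) = β (e.1 x) :=
    fun e => H16_beta hF hU hh ho e.2
  choose β hβd hβ using key
  have hopen : ∀ e : OpenPartialHomeomorph X ℂ, IsOpen (e.target ∩ e.symm ⁻¹' U) := fun e =>
    e.isOpen_inter_preimage_symm hU
  -- compatibility
  have comp : ∀ e e' : {e // e ∈ S.charts}, ∀ x ∈ e.1.source, x ∈ e'.1.source → x ∈ U →
      β e (e.1 x) = β e' (e'.1 x) * deriv (e'.1 ∘ e.1.symm) (e.1 x) := by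
    intro e e' x hx hx' hxU
    set A := e.1.source ∩ e'.1.source ∩ U with hAdef
    have hA : IsOpen A := (e.1.open_source.inter e'.1.open_source).inter hU
    have hAe : A ⊆ e.1.source := fun y hy => hy.1.1
    have hAe' : A ⊆ e'.1.source := fun y hy => hy.1.2
    have hAU : A ⊆ U := fun y hy => hy.2
    have hA' : IsOpen (e.1 '' A) := e.1.isOpen_image_of_subset_source hA hAe
    have hsub : e.1 '' A ⊆ e.1.target ∩ e.1.symm ⁻¹' U := by
      rintro _ ⟨y, hy, rfl⟩
      refine ⟨e.1.map_source (hAe hy), ?_⟩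
      rw [mem_preimage, e.1.left_inv (hAe hy)]
      exact hAU hy
    have hmaps : MapsTo (e'.1 ∘ e.1.symm) (e.1 '' A) (e'.1.target ∩ e'.1.symm ⁻¹' U) := by
      rintro _ ⟨y, hy, rfl⟩
      rw [Function.comp_apply, e.1.left_inv (hAe hy)]
      refine ⟨e'.1.map_source (hAe' hy), ?_⟩
      rw [mem_preimage, e'.1.left_inv (hAe' hy)]
      exact hAU hy
    have hdt : DifferentiableOn ℂ (e'.1 ∘ e.1.symm) (e.1 '' A) := by
      rintro _ ⟨y, hy, rfl⟩
      exact (CS.trans_differentiableAt e.2 e'.2 (hAe hy) (hAe' hy)).differentiableWithinAt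
    have hcG : ContinuousOn (β e) (e.1 '' A) := (hβd e).continuousOn.mono hsub
    have hcH : ContinuousOn (fun z => β e' ((e'.1 ∘ e.1.symm) z) * deriv (e'.1 ∘ e.1.symm) z)
        (e.1 '' A) :=
      ((hβd e').continuousOn.comp hdt.continuousOn hmaps).mul (hdt.deriv hA').continuousOn
    have hae : ∀ᵐ y ∂(F.nu.restrict A),
        β e (e.1 y) = β e' (e'.1 y) * deriv (e'.1 ∘ e.1.symm) (e.1 y) := by
      have hs1 : A ⊆ e.1.source ∩ U := fun y hy => ⟨hAe hy, hAU hy⟩
      have hs2 : A ⊆ e'.1.source ∩ U := fun y hy => ⟨hAe' hy, hAU hy⟩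
      have h1 : ∀ᵐ y ∂(F.nu.restrict A), F.co e.1 h (e.1 y) = β e (e.1 y) :=
        ae_restrict_of_ae_restrict_of_subset hs1 (hβ e)
      have h2 : ∀ᵐ y ∂(F.nu.restrict A), F.co e'.1 h (e'.1 y) = β e' (e'.1 y) :=
        ae_restrict_of_ae_restrict_of_subset hs2 (hβ e')
      have h3 : ∀ᵐ y ∂(F.nu.restrict A), y ∈ A := ae_restrict_mem hA.measurableSet
      filter_upwards [h1, h2, h3] with y hy1 hy2 hy3
      rw [← hy1, ← hy2]
      exact F.co_trans e.2 e'.2 (hAe hy3) (hAe' hy3)
    rw [F.H16_ae e.2 hA hAe] at hae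
    have hae2 : β e =ᵐ[(volume : Measure ℂ).restrict (e.1 '' A)]
        fun z => β e' ((e'.1 ∘ e.1.symm) z) * deriv (e'.1 ∘ e.1.symm) z := by
      have h3 : ∀ᵐ z ∂((volume : Measure ℂ).restrict (e.1 '' A)), z ∈ e.1 '' A :=
        ae_restrict_mem hA'.measurableSet
      filter_upwards [hae, h3] with z hz hzA
      have h4 : e.1 (e.1.symm z) = z := e.1.right_inv (hsub hzA).1
      rw [h4] at hz
      exact hz
    have h5 := Measure.eqOn_open_of_ae_eq hae2 hA' hcG hcH
    have h6 := h5 ⟨x, ⟨⟨hx, hx'⟩, hxU⟩, rfl⟩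
    simp only [Function.comp_apply] at h6
    rw [e.1.left_inv hx] at h6
    exact h6
  set b : X → ℂ := fun x => β ⟨F.ch x, F.ch_mem x⟩ (F.ch x x) with hb
  have hco : ∀ e : {e // e ∈ S.charts}, ∀ x ∈ e.1.source, x ∈ U →
      F.co e.1 b (e.1 x) = β e (e.1 x) := by
    intro e x hx hxU
    rw [F.co_at hx, comp e ⟨F.ch x, F.ch_mem x⟩ x hx (F.mem_ch x) hxU]
  refine ⟨b, fun e he => ?_, ?_⟩
  · refine (hβd ⟨e, he⟩).congr fun z hz => ?_
    have h1 := hco ⟨e, he⟩ (e.symm z) (e.map_target hz.1) hz.2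
    simp only at h1
    rw [e.right_inv hz.1] at h1
    exact h1
  · have hUc : U = ⋃ i, (F.e i).source ∩ U := by
      ext x
      rw [mem_iUnion]
      constructor
      · intro hx
        exact ⟨F.ix x, F.mem_ch x, hx⟩
      · rintro ⟨i, hi⟩
        exact hi.2
    rw [hUc, ae_restrict_iUnion_iff]
    intro i
    have h1 := hβ ⟨F.e i, F.mem i⟩
    have h2 : ∀ᵐ x ∂(F.nu.restrict ((F.e i).source ∩ U)), x ∈ (F.e i).source ∩ U :=
      ae_restrict_mem ((F.e i).open_source.inter hU).measurableSet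
    filter_upwards [h1, h2] with x hx1 hx2
    refine F.eq_of_co (F.mem i) hx2.1 ?_
    rw [hco ⟨F.e i, F.mem i⟩ x hx2.1 hx2.2]
    exact hx1

theorem hol_of_orthogonal (hF : F.Tame) {h : X → ℂ} (hh : MemLp h 2 F.nu)
    (ho : ∀ φ : X → ℝ, S.Smooth φ → F.ip h (F.d φ) = 0) :
    ∃ b : X → ℂ, F.Hol b ∧ ∀ᵐ x ∂F.nu, h x = b x := by
  obtain ⟨b, hb, hae⟩ := holIn_of_orthogonal hF isOpen_univ
    (fun K _ _ => hh.restrict K) (fun φ hφ _ => ho φ hφ)
  rw [Measure.restrict_univ] at hae
  exact ⟨b, hb, hae⟩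

private theorem H16_d_memLp (hF : F.Tame) {φ : X → ℝ} (hφ : S.Smooth φ) :
    MemLp (F.d φ) 2 F.nu := (F.closed_d hφ).memLp hF

private theorem H16_inner (f g : Lp ℂ 2 F.nu) :
    inner ℝ f g = F.rp (fun x => f x) (fun x => g x) := by
  rw [L2.inner_def]
  unfold Frame.rp Frame.ip
  have hi : Integrable (fun x => (f : X → ℂ) x * starRingEnd ℂ ((g : X → ℂ) x)) F.nu := by
    have h1 := L2.integrable_inner (𝕜 := ℂ) g f
    refine h1.congr (Filter.Eventually.of_forall fun x => ?_)
    simp only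
    rw [RCLike.inner_apply]
  have h2 := integral_re hi
  refine Eq.trans ?_ h2
  refine integral_congr_ae (Filter.Eventually.of_forall fun x => ?_)
  simp only
  rw [Complex.inner]
  simp only [Complex.mul_re, Complex.conj_re, Complex.conj_im, RCLike.re_to_complex]
  ring

private theorem H16_norm (f : Lp ℂ 2 F.nu) : F.en univ (fun x => f x) = ‖f‖ ^ 2 := by
  rw [← real_inner_self_eq_norm_sq, H16_inner, Frame.rp, ip_self, Complex.ofReal_re]

private theorem H16_en_congr {a b : X → ℂ} (h : a =ᵐ[F.nu] b) : F.en univ a = F.en univ b := by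
  unfold Frame.en
  rw [Measure.restrict_univ]
  refine integral_congr_ae ?_
  filter_upwards [h] with x hx
  rw [hx]

private theorem H16_ip_congr {a b a' b' : X → ℂ} (h : a =ᵐ[F.nu] a') (h' : b =ᵐ[F.nu] b') :
    F.ip a b = F.ip a' b' := by
  unfold Frame.ip
  refine integral_congr_ae ?_
  filter_upwards [h, h'] with x hx hx'
  rw [hx, hx']

/-- the real projection on the closure of the exact forms -/
private theorem H16_proj (hF : F.Tame) {a : X → ℂ} (ha : MemLp a 2 F.nu) :
    ∃ b : X → ℂ, F.Lim b ∧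
      ∀ φ : X → ℝ, S.Smooth φ → F.rp (fun x => a x - b x) (F.d φ) = 0 := by
  let D : Submodule ℝ (Lp ℂ 2 F.nu) :=
    { carrier := {f | ∃ φ : X → ℝ, S.Smooth φ ∧ (f : X → ℂ) =ᵐ[F.nu] F.d φ}
      add_mem' := by
        rintro f g ⟨φ, hφ, hf⟩ ⟨χ, hχ, hg⟩
        refine ⟨fun x => φ x + χ x, fun x => CS.SmoothAt.add (hφ x) (hχ x), ?_⟩
        filter_upwards [hf, hg, Lp.coeFn_add f g] with x h1 h2 h3
        rw [h3, Pi.add_apply, h1, h2, F.d_add (hφ x) (hχ x)]
      zero_mem' := by
        refine ⟨fun _ => 0, fun x => CS.SmoothAt.const 0, ?_⟩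
        filter_upwards [Lp.coeFn_zero ℂ 2 F.nu] with x h1
        rw [h1, F.d_const]
        rfl
      smul_mem' := by
        rintro c f ⟨φ, hφ, hf⟩
        refine ⟨fun x => c * φ x, fun x => CS.SmoothAt.const_mul c (hφ x), ?_⟩
        filter_upwards [hf, Lp.coeFn_smul c f] with x h1 h2
        rw [h2, Pi.smul_apply, h1, F.d_const_mul c (hφ x), Complex.real_smul] }
  let E : Submodule ℝ (Lp ℂ 2 F.nu) := D.topologicalClosure
  have hEc : CompleteSpace E := D.isClosed_topologicalClosure.completeSpace_coe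
  let A : Lp ℂ 2 F.nu := ha.toLp a
  let B : Lp ℂ 2 F.nu := E.starProjection A
  have hBE : B ∈ E := Submodule.starProjection_apply_mem E A
  refine ⟨fun x => B x, ⟨Lp.memLp B, fun ε hε => ?_⟩, fun φ hφ => ?_⟩
  · have hBc : B ∈ closure (D : Set (Lp ℂ 2 F.nu)) := hBE
    obtain ⟨g, ⟨φ, hφ, hg⟩, hd⟩ := Metric.mem_closure_iff.1 hBc (√ε) (Real.sqrt_pos.2 hε)
    refine ⟨φ, hφ, ?_⟩
    have h1 : (fun x => (B : X → ℂ) x - F.d φ x) =ᵐ[F.nu] fun x => (B - g : Lp ℂ 2 F.nu) x := by
      filter_upwards [hg, Lp.coeFn_sub B g] with x h1 h2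
      rw [h2, Pi.sub_apply, h1]
    rw [H16_en_congr h1, H16_norm]
    rw [dist_eq_norm] at hd
    calc ‖B - g‖ ^ 2 < √ε ^ 2 := pow_lt_pow_left₀ hd (norm_nonneg _) two_ne_zero
      _ = ε := Real.sq_sqrt hε.le
  · have hm := H16_d_memLp hF hφ
    have hg : hm.toLp (F.d φ) ∈ E :=
      D.le_topologicalClosure ⟨φ, hφ, hm.coeFn_toLp⟩
    have h1 : inner ℝ (A - B) (hm.toLp (F.d φ)) = 0 :=
      Submodule.starProjection_inner_eq_zero A _ hg
    rw [H16_inner] at h1
    rw [← h1]
    unfold Frame.rp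
    congr 1
    refine H16_ip_congr ?_ ?_
    · filter_upwards [Lp.coeFn_sub A B, ha.coeFn_toLp] with x h2 h3
      rw [h2, Pi.sub_apply, h3]
    · filter_upwards [hm.coeFn_toLp] with x h2
      rw [h2]

private theorem H16_sq_le (hF : F.Tame) {a b : X → ℂ} (ha : F.Lim a) (hb : MemLp b 2 F.nu)
    {r : ℂ → ℝ} (hr : ∀ z w, r (z + w) = r z + r w) (hr1 : ∀ z, |r z| ≤ ‖z‖)
    (h0 : ∀ φ : X → ℝ, S.Smooth φ → r (F.ip (F.d φ) b) = 0) : r (F.ip a b) = 0 := by
  by_contra hne
  have hpos : 0 < r (F.ip a b) ^ 2 := by positivity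
  have hB := en_nonneg (F := F) (a := b) univ
  have hε : 0 < r (F.ip a b) ^ 2 / (2 * (F.en univ b + 1)) := by positivity
  obtain ⟨φ, hφ, hlt⟩ := ha.2 _ hε
  have hm := H16_d_memLp hF hφ
  have hs : MemLp (fun x => a x - F.d φ x) 2 F.nu := ha.1.sub hm
  have h1 : F.ip a b = F.ip (fun x => a x - F.d φ x) b + F.ip (F.d φ) b := by
    rw [← ip_add_left hs hm hb]
    congr 1
    funext x
    ring
  have h2 := norm_ip_le hs hb
  have h3 : r (F.ip a b) = r (F.ip (fun x => a x - F.d φ x) b) := by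
    rw [h1, hr, h0 φ hφ, add_zero]
  have h4 : r (F.ip a b) ^ 2 ≤ ‖F.ip (fun x => a x - F.d φ x) b‖ ^ 2 := by
    rw [h3, ← sq_abs]
    exact pow_le_pow_left₀ (abs_nonneg _) (hr1 _) 2
  have h5 : F.en univ (fun x => a x - F.d φ x) * F.en univ b
      ≤ r (F.ip a b) ^ 2 / (2 * (F.en univ b + 1)) * F.en univ b :=
    mul_le_mul_of_nonneg_right hlt.le hB
  have h6 : r (F.ip a b) ^ 2 / (2 * (F.en univ b + 1)) * F.en univ b
      < r (F.ip a b) ^ 2 := by
    rw [div_mul_eq_mul_div, div_lt_iff₀ (by positivity)]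
    nlinarith
  linarith

/-- limits of exact forms have vanishing product with closed forms -/
theorem Lim.wd_eq_zero (hF : F.Tame) {a b : X → ℂ} (ha : F.Lim a) (hb : F.Closed b) :
    F.wd a b = 0 ∧ F.wd b a = 0 := by
  have h1 : F.wd a b = 0 :=
    H16_sq_le hF ha (hb.memLp hF) (r := Complex.im) Complex.add_im Complex.abs_im_le_norm
      fun φ hφ => stokes hF hφ hb
  refine ⟨h1, ?_⟩
  unfold Frame.wd at h1 ⊢
  rw [ip_conj_symm, Complex.conj_im, h1, neg_zero]

theorem Lim.rp_hol (hF : F.Tame) {a b : X → ℂ} (ha : F.Lim a) (hb : F.Hol b) :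
    F.ip a b = 0 ∧ F.ip b a = 0 := by
  have hbm := hb.closed.memLp hF
  have h1 : (F.ip a b).im = 0 := ha.wd_eq_zero hF hb.closed |>.1
  have h2 : (F.ip a b).re = 0 :=
    H16_sq_le hF ha hbm (r := Complex.re) Complex.add_re Complex.abs_re_le_norm
      fun φ hφ => by rw [ip_d_hol hF hφ hb, Complex.zero_re]
  have h3 : F.ip a b = 0 := Complex.ext h2 h1
  refine ⟨h3, ?_⟩
  rw [ip_conj_symm, h3, map_zero]

private theorem H16_lim_lim (hF : F.Tame) {a b : X → ℂ} (ha : F.Lim a) (hb : F.Lim b) :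
    F.wd a b = 0 :=
  H16_sq_le hF ha hb.1 (r := Complex.im) Complex.add_im Complex.abs_im_le_norm
    fun _ hφ => (hb.wd_eq_zero hF (F.closed_d hφ)).2

theorem exists_decomp (hF : F.Tame) {a : X → ℂ} (ha : MemLp a 2 F.nu) :
    ∃ b c h : X → ℂ, F.Lim b ∧ F.Lim c ∧ F.Hol h ∧
      ∀ᵐ x ∂F.nu, a x = b x + Complex.I * c x + h x := by
  obtain ⟨b, hb, hbo⟩ := H16_proj hF ha
  have hma : MemLp (fun x => -Complex.I * a x) 2 F.nu := ha.const_mul _
  obtain ⟨c, hc, hco⟩ := H16_proj hF hma
  have hIc : MemLp (fun x => Complex.I * c x) 2 F.nu := hc.1.const_mul _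
  have hab : MemLp (fun x => a x - b x) 2 F.nu := ha.sub hb.1
  have haIc : MemLp (fun x => a x - Complex.I * c x) 2 F.nu := ha.sub hIc
  have hh : MemLp (fun x => a x - b x - Complex.I * c x) 2 F.nu := hab.sub hIc
  have ho : ∀ φ : X → ℝ, S.Smooth φ →
      F.ip (fun x => a x - b x - Complex.I * c x) (F.d φ) = 0 := by
    intro φ hφ
    have hm := H16_d_memLp hF hφ
    have hcl := F.closed_d hφ
    have hwb : (F.ip b (F.d φ)).im = 0 := (hb.wd_eq_zero hF hcl).1
    have hwc : (F.ip c (F.d φ)).im = 0 := (hc.wd_eq_zero hF hcl).1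
    have e1 : F.ip (fun x => a x - b x - Complex.I * c x) (F.d φ)
        = F.ip (fun x => a x - b x) (F.d φ) - Complex.I * F.ip c (F.d φ) := by
      have h1 : F.ip (fun x => a x - b x) (F.d φ)
          = F.ip (fun x => a x - b x - Complex.I * c x) (F.d φ)
            + F.ip (fun x => Complex.I * c x) (F.d φ) := by
        rw [← ip_add_left hh hIc hm]
        congr 1
        funext x
        ring
      rw [h1, ip_const_mul_left]
      ring
    have e2 : F.ip (fun x => a x - b x - Complex.I * c x) (F.d φ)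
        = F.ip (fun x => a x - Complex.I * c x) (F.d φ) - F.ip b (F.d φ) := by
      have h1 : F.ip (fun x => a x - Complex.I * c x) (F.d φ)
          = F.ip (fun x => a x - b x - Complex.I * c x) (F.d φ) + F.ip b (F.d φ) := by
        rw [← ip_add_left hh hb.1 hm]
        congr 1
        funext x
        ring
      rw [h1]
      ring
    have e3 : F.ip (fun x => -Complex.I * a x - c x) (F.d φ)
        = -Complex.I * F.ip (fun x => a x - Complex.I * c x) (F.d φ) := by
      rw [← ip_const_mul_left]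
      congr 1
      funext x
      linear_combination (-c x) * Complex.I_mul_I
    have hre : (F.ip (fun x => a x - b x) (F.d φ)).re = 0 := hbo φ hφ
    have him : (F.ip (fun x => -Complex.I * a x - c x) (F.d φ)).re = 0 := hco φ hφ
    refine Complex.ext ?_ ?_
    · rw [e1, Complex.sub_re, hre, Complex.mul_re, Complex.I_re, Complex.I_im, hwc]
      simp
    · rw [e3, Complex.mul_re, Complex.neg_re, Complex.neg_im, Complex.I_re, Complex.I_im] at him
      rw [e2, Complex.sub_im, hwb]
      simp at him ⊢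
      exact him
  obtain ⟨h, hh1, hh2⟩ := hol_of_orthogonal hF hh ho
  refine ⟨b, c, h, hb, hc, hh1, ?_⟩
  filter_upwards [hh2] with x hx
  rw [← hx]
  ring

/-- decomposition of a closed form into a limit of exact forms and a harmonic form -/
theorem Closed.exists_decomp (hF : F.Tame) {a : X → ℂ} (ha : F.Closed a) :
    ∃ b h : X → ℂ, F.Closed b ∧ F.Lim b ∧ F.Hol h ∧ ∀ x, a x = b x + h x := by
  obtain ⟨b, c, h, hb, hc, hh, hae⟩ := Frame.exists_decomp hF (ha.memLp hF)
  have hhm := hh.closed.memLp hF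
  have hIc : MemLp (fun x => Complex.I * c x) 2 F.nu := hc.1.const_mul _
  -- `c = 0` almost everywhere
  have hc0 : F.en univ c = 0 := by
    have h1 : F.ip c a = F.ip c b + F.ip c (fun x => Complex.I * c x) + F.ip c h := by
      have hbI : MemLp (fun x => b x + Complex.I * c x) 2 F.nu := hb.1.add hIc
      rw [H16_ip_congr (Filter.EventuallyEq.refl _ c) hae,
        ip_add_right hbI hhm hc.1, ip_add_right hb.1 hIc hc.1]
    have h2 : (F.ip c a).im = 0 := (hc.wd_eq_zero hF ha).1
    have h3 : (F.ip c b).im = 0 := H16_lim_lim hF hc hb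
    have h4 : F.ip c h = 0 := (hc.rp_hol hF hh).1
    have h5 : F.ip c (fun x => Complex.I * c x) = -Complex.I * (F.en univ c : ℂ) := by
      rw [ip_const_mul_right, ip_self, Complex.conj_I]
    rw [h1, h4, h5, add_zero, Complex.add_im, h3] at h2
    simpa using h2
  have hc0' : ∀ᵐ x ∂F.nu, c x = 0 := by
    have h1 := integrable_normSq hc.1
    unfold Frame.en at hc0
    rw [Measure.restrict_univ] at hc0
    rw [integral_eq_zero_iff_of_nonneg (fun x => sq_nonneg _) h1] at hc0
    filter_upwards [hc0] with x hx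
    have h2 : ‖c x‖ ^ 2 = 0 := hx
    exact norm_eq_zero.1 (pow_eq_zero_iff two_ne_zero |>.1 h2)
  have hbe : (fun x => a x - h x) =ᵐ[F.nu] b := by
    filter_upwards [hae, hc0'] with x h1 h2
    rw [h1, h2]
    ring
  refine ⟨fun x => a x - h x, h, ha.sub hh.closed, ⟨hb.1.ae_eq hbe.symm, fun ε hε => ?_⟩, hh,
    fun x => by ring⟩
  obtain ⟨φ, hφ, hlt⟩ := hb.2 ε hε
  refine ⟨φ, hφ, ?_⟩
  have h3 : (fun x => a x - h x - F.d φ x) =ᵐ[F.nu] fun x => b x - F.d φ x := by
    filter_upwards [hbe] with x hx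
    rw [hx]
  rw [H16_en_congr h3]
  exact hlt

end Frame

end Pool.Agent.Lib.MP_cca10c_ag
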