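import Mathlib

/-!
# Finitely many real numbers in an integral basis (stub H17, no dependency)

The `ℤ`-span of a finite set of reals is finitely generated and torsion free, hence free
(`Module.finBasisOfFiniteTorsionFree`, `Module.Free.chooseBasis`); the coordinates are additive.
-/

set_option autoImplicit false

namespace Pool.Agent.Lib.MP_cca10c_ag

/-- There are reals `r k` and integer valued coordinates on the `ℤ`-span `G` of the finite set `D`
which are additive on `G`. -/
theorem exists_int_coords (D : Set ℝ) (hD : D.Finite) :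
    ∃ (N : ℕ) (r : Fin N → ℝ) (n : ℝ → Fin N → ℤ),
      (∀ d ∈ AddSubgroup.closure D, d = ∑ k, n d k * r k) ∧
      (∀ d ∈ AddSubgroup.closure D, ∀ d' ∈ AddSubgroup.closure D, n (d + d') = n d + n d') := by
  classical
  have hmem : ∀ d : ℝ, d ∈ AddSubgroup.closure D → d ∈ Submodule.span ℤ D := by
    intro d hd
    induction hd using AddSubgroup.closure_induction with
    | mem x hx => exact Submodule.subset_span hx
    | zero => exact Submodule.zero_mem _
    | add x y _ _ hx hy => exact Submodule.add_mem _ hx hy
    | neg x _ hx => exact Submodule.neg_mem _ hx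
  haveI : Module.Finite ℤ (Submodule.span ℤ D) := Module.Finite.span_of_finite ℤ hD
  haveI : Module.Free ℤ (Submodule.span ℤ D) := inferInstance
  let B := Module.finBasis ℤ (Submodule.span ℤ D)
  refine ⟨_, fun k => ((B k : Submodule.span ℤ D) : ℝ),
    fun d k => if h : d ∈ Submodule.span ℤ D then B.repr ⟨d, h⟩ k else 0, ?_, ?_⟩
  · intro d hd
    have h := hmem d hd
    have h1 := B.sum_repr ⟨d, h⟩
    have h2 := congrArg (Submodule.subtype (Submodule.span ℤ D)) h1
    rw [map_sum] at h2
    simp only [h, dif_pos]
    rw [Submodule.subtype_apply] at h2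
    conv_lhs => rw [show d = ((⟨d, h⟩ : Submodule.span ℤ D) : ℝ) from rfl, ← h2]
    refine Finset.sum_congr rfl fun k _ => ?_
    rw [map_smul, Submodule.subtype_apply, zsmul_eq_mul]
  · intro d hd d' hd'
    have h := hmem d hd
    have h' := hmem d' hd'
    have h'' : d + d' ∈ Submodule.span ℤ D := Submodule.add_mem _ h h'
    funext k
    simp only [h, h', h'', dif_pos, Pi.add_apply]
    have : (⟨d + d', h''⟩ : Submodule.span ℤ D) = ⟨d, h⟩ + ⟨d', h'⟩ := rfl
    rw [this, map_add, Finsupp.add_apply]

end Pool.Agent.Lib.MP_cca10c_ag
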