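import Pool.Agent.Lib.MP_cca10c_ag.H07_Closed
import Pool.Agent.Lib.MP_cca10c_ag.H08_Bump
import Pool.Agent.Lib.MP_cca10c_ag.H17_Cocycle

/-!
# Every closed form is a real combination of circle maps and an exact form (stub H18)

Finite cover of `X` by open sets `V i` with smooth primitives `f i` of `a` on a neighbourhood of the
compact closure of `V i`. On `closure (V i) ∩ closure (V j)` the function `f i - f j` is locally
constant (near every point of this set), so it takes finitely many values there. Let `D` be the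
finite set of all these values, and `r, n` as in `exists_int_coords`. Partition of unity `χ`
subordinate to `V`. For `x ∈ V i` put `l k i x = ∑ j, χ j x * n (f i x - f j x) k` (the sum over the
`j` with `x ∈ V j`): smooth on `V i`, and `l k i - l k j = n (f i x - f j x) k` is an integer on
`V i ∩ V j` by additivity. So `u k x = l k i x` mod `1` is a smooth circle map, and
`φ x = f i x - ∑ k, r k * l k i x` does not depend on `i`.
-/

set_option autoImplicit false

open Topology Set
open scoped ContDiff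

namespace Pool.Agent.Lib.MP_cca10c_ag

variable {X : Type} [TopologicalSpace X] [CompactSpace X] [T2Space X] {S : CS X}
variable {F : Frame S}

private theorem H18_finite_image {Y : Type} [TopologicalSpace Y] {K : Set Y} (hK : IsCompact K)
    {h : Y → ℝ} (hh : ∀ x ∈ K, ∀ᶠ y in 𝓝 x, h y = h x) : (h '' K).Finite := by
  obtain ⟨t, -, ht⟩ := hK.elim_nhds_subcover (fun x => {y | h y = h x}) (fun x hx => hh x hx)
  refine (t.finite_toSet.image h).subset ?_
  rintro _ ⟨y, hy, rfl⟩
  obtain ⟨x, hx, hxy⟩ := mem_iUnion₂.1 (ht hy)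
  exact ⟨x, hx, hxy.symm⟩

/-- finite cover with primitives -/
private theorem H18_cover {a : X → ℂ} (ha : F.Closed a) :
    ∃ (n : ℕ) (V : Fin n → Set X) (f : Fin n → X → ℝ), (∀ i, IsOpen (V i)) ∧ ⋃ i, V i = univ ∧
      ∀ i, ∀ x ∈ closure (V i), S.SmoothNear (f i) x ∧ ∀ᶠ y in 𝓝 x, a y = F.d (f i) y := by
  choose f hf1 hf2 using ha
  have hW : ∀ x, ∃ V : Set X, V ∈ 𝓝 x ∧ ∀ z ∈ closure V, S.SmoothNear (f x) z ∧
      ∀ᶠ y in 𝓝 z, a y = F.d (f x) y := by
    intro x
    have h1 : ∀ᶠ z in 𝓝 x, S.SmoothNear (f x) z ∧ ∀ᶠ y in 𝓝 z, a y = F.d (f x) y :=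
      (eventually_eventually_nhds.2 (hf1 x)).and (eventually_eventually_nhds.2 (hf2 x))
    obtain ⟨V, hV, hVc, hVs⟩ := exists_mem_nhds_isClosed_subset h1
    exact ⟨V, hV, fun z hz => hVs (by rwa [hVc.closure_eq] at hz)⟩
  choose W hW1 hW2 using hW
  obtain ⟨n, x, e, -, -, he, hc⟩ := CS.exists_disc_cover S hW1
  exact ⟨n, fun i => (e i).source, fun i => f (x i), fun i => (e i).open_source, hc,
    fun i z hz => hW2 (x i) z (closure_mono (he i) hz)⟩

theorem Frame.Closed.exists_real_class {a : X → ℂ} (ha : F.Closed a) :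
    ∃ (N : ℕ) (u : Fin N → X → UnitAddCircle) (r : Fin N → ℝ) (φ : X → ℝ),
      (∀ k, S.SmoothC (u k)) ∧ S.Smooth φ ∧
      ∀ x, a x = ∑ k, (r k : ℂ) * F.dC (u k) x + F.d φ x := by
  classical
  obtain ⟨M, V, f, hVo, hVc, hV⟩ := H18_cover ha
  -- the differences are locally constant
  have hloc : ∀ i j, ∀ x ∈ closure (V i) ∩ closure (V j),
      ∀ᶠ y in 𝓝 x, f i y - f j y = f i x - f j x := by
    rintro i j x ⟨hi, hj⟩
    obtain ⟨hi1, hi2⟩ := hV i x hi
    obtain ⟨hj1, hj2⟩ := hV j x hj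
    have h1 := F.eventually_eq_of_d_eq hi1 hj1 (by
      filter_upwards [hi2, hj2] with y h2 h3
      rw [← h2, h3])
    filter_upwards [h1] with y hy
    rw [hy]
    ring
  -- the finite set of values
  set D : Set ℝ := ⋃ i, ⋃ j, (fun x => f i x - f j x) '' (closure (V i) ∩ closure (V j)) with hD
  have hDf : D.Finite := by
    refine Set.finite_iUnion fun i => Set.finite_iUnion fun j => ?_
    exact H18_finite_image ((isClosed_closure.inter isClosed_closure).isCompact) (hloc i j)
  have hmem : ∀ i j x, x ∈ V i → x ∈ V j → f i x - f j x ∈ AddSubgroup.closure D := by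
    intro i j x hi hj
    refine AddSubgroup.subset_closure ?_
    rw [hD]
    exact mem_iUnion.2 ⟨i, mem_iUnion.2 ⟨j, x, ⟨subset_closure hi, subset_closure hj⟩, rfl⟩⟩
  obtain ⟨N, r, c, hc1, hc2⟩ := exists_int_coords D hDf
  obtain ⟨χ, hχ1, -, hχ3, hχ4⟩ := CS.exists_partition S hVo hVc
  have hχ0 : ∀ j x, x ∉ V j → χ j x = 0 := fun j x hx =>
    image_eq_zero_of_notMem_tsupport fun h => hx (hχ4 j h)
  set l : Fin N → Fin M → X → ℝ := fun k i x => ∑ j, χ j x * (c (f i x - f j x) k : ℝ) with hl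
  -- change of index
  have hchg : ∀ k i j x, x ∈ V i → x ∈ V j → l k i x = l k j x + (c (f i x - f j x) k : ℝ) := by
    intro k i j x hi hj
    have h1 : ∀ m, χ m x * (c (f i x - f m x) k : ℝ) =
        χ m x * (c (f j x - f m x) k : ℝ) + χ m x * (c (f i x - f j x) k : ℝ) := by
      intro m
      by_cases hm : x ∈ V m
      · have h2 := hc2 _ (hmem i j x hi hj) _ (hmem j m x hj hm)
        have h3 : (f i x - f j x) + (f j x - f m x) = f i x - f m x := by ring
        rw [h3] at h2
        rw [h2, Pi.add_apply]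
        push_cast
        ring
      · rw [hχ0 m x hm]
        ring
    show ∑ m, χ m x * (c (f i x - f m x) k : ℝ) =
      ∑ m, χ m x * (c (f j x - f m x) k : ℝ) + (c (f i x - f j x) k : ℝ)
    rw [Finset.sum_congr rfl fun m _ => h1 m, Finset.sum_add_distrib, ← Finset.sum_mul, hχ3,
      one_mul]
  -- smoothness
  have hls : ∀ k i x, x ∈ V i → S.SmoothAt (l k i) x := by
    intro k i x hi
    refine CS.SmoothAt.sum (F := fun j y => χ j y * (c (f i y - f j y) k : ℝ)) fun j _ => ?_
    by_cases hj : x ∈ tsupport (χ j)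
    · have hxj : x ∈ V j := hχ4 j hj
      have h1 := hloc i j x ⟨subset_closure hi, subset_closure hxj⟩
      refine ((hχ1 j x).mul (CS.SmoothAt.const (c (f i x - f j x) k : ℝ))).congr ?_
      filter_upwards [h1] with y hy
      rw [hy]
    · have h1 : ∀ᶠ y in 𝓝 x, y ∉ tsupport (χ j) :=
        (isClosed_tsupport (χ j)).isOpen_compl.mem_nhds hj
      refine (CS.SmoothAt.const (0 : ℝ)).congr ?_
      filter_upwards [h1] with y hy
      rw [image_eq_zero_of_notMem_tsupport hy, zero_mul]
  -- the choice of an index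
  have hix : ∀ x, ∃ i, x ∈ V i := fun x => by
    have : x ∈ ⋃ i, V i := by rw [hVc]; exact mem_univ x
    exact mem_iUnion.1 this
  choose ι hι using hix
  have hint : ∀ m : ℤ, ((m : ℝ) : UnitAddCircle) = 0 := by
    intro m
    rw [AddCircle.coe_eq_zero_iff]
    exact ⟨m, by simp⟩
  have hu : ∀ k i x, x ∈ V i → ((l k (ι x) x : ℝ) : UnitAddCircle) = ((l k i x : ℝ) : UnitAddCircle) := by
    intro k i x hx
    rw [hchg k (ι x) i x (hι x) hx, AddCircle.coe_add, hint, add_zero]
  have hφ : ∀ i x, x ∈ V i → f (ι x) x - ∑ k, r k * l k (ι x) x =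
      f i x - ∑ k, r k * l k i x := by
    intro i x hx
    have h1 : ∑ k, r k * l k (ι x) x = ∑ k, r k * l k i x + (f (ι x) x - f i x) := by
      conv_rhs => rw [hc1 _ (hmem (ι x) i x (hι x) hx)]
      rw [← Finset.sum_add_distrib]
      refine Finset.sum_congr rfl fun k _ => ?_
      rw [hchg k (ι x) i x (hι x) hx]
      ring
    rw [h1]
    ring
  have hlift : ∀ k x, LiftAt (fun y => ((l k (ι y) y : ℝ) : UnitAddCircle)) (l k (ι x)) x := by
    intro k x
    refine ⟨(hls k (ι x) x (hι x)).continuousAt, ?_⟩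
    filter_upwards [(hVo (ι x)).mem_nhds (hι x)] with y hy
    exact hu k (ι x) y hy
  have hfs : ∀ x, S.SmoothAt (f (ι x)) x := fun x =>
    (hV (ι x) x (subset_closure (hι x))).1.smoothAt
  have hsum : ∀ x, S.SmoothAt (fun y => ∑ k, r k * l k (ι x) y) x := fun x =>
    CS.SmoothAt.sum (F := fun k y => r k * l k (ι x) y) fun k _ =>
      (hls k (ι x) x (hι x)).const_mul (r k)
  have hφe : ∀ x, (fun y => f (ι y) y - ∑ k, r k * l k (ι y) y) =ᶠ[𝓝 x]
      fun y => f (ι x) y - ∑ k, r k * l k (ι x) y := by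
    intro x
    filter_upwards [(hVo (ι x)).mem_nhds (hι x)] with y hy
    exact hφ (ι x) y hy
  refine ⟨N, fun k y => ((l k (ι y) y : ℝ) : UnitAddCircle), r,
    fun y => f (ι y) y - ∑ k, r k * l k (ι y) y,
    fun k x => ⟨l k (ι x), hlift k x, hls k (ι x) x (hι x)⟩, fun x => ?_, fun x => ?_⟩
  · exact ((hfs x).sub (hsum x)).congr (hφe x)
  · have h1 : a x = F.d (f (ι x)) x := (hV (ι x) x (subset_closure (hι x))).2.self_of_nhds
    have h2 : ∀ k, F.dC (fun y => ((l k (ι y) y : ℝ) : UnitAddCircle)) x = F.d (l k (ι x)) x :=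
      fun k => F.dC_eq_d (hlift k x) (hls k (ι x) x (hι x))
    rw [F.d_congr (hφe x), F.d_sub (hfs x) (hsum x),
      F.d_sum (φ := fun k y => r k * l k (ι x) y) fun k _ =>
        (hls k (ι x) x (hι x)).const_mul (r k), h1,
      Finset.sum_congr rfl fun k _ => by rw [h2 k]]
    have h3 : ∑ k, F.d (fun y => r k * l k (ι x) y) x = ∑ k, (r k : ℂ) * F.d (l k (ι x)) x :=
      Finset.sum_congr rfl fun k _ => F.d_const_mul (r k) (hls k (ι x) x (hι x))
    rw [h3]
    ring

end Pool.Agent.Lib.MP_cca10c_ag
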