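import Pool.Agent.Lib.MP_cca10c_ag.H12_Stokes
import Pool.Agent.Lib.MP_cca10c_ag.H18_RealClass

/-!
# Classes of closed forms and of circle maps in a symplectic basis (stub H19)

`wedge_eq`: `Frame.wedge` of the statement is `F.wd` of the forms (sum over the pieces, `integral_nu`
or directly the definition of `F.nu`). Existence of the class: `exists_real_class`, and `gen` of the
symplectic basis for each `u k` (the continuous real function there is smooth,
`CS.SmoothC.smooth_of_eq`). Uniqueness and `wd_eq_om`: bilinearity, `SymplBasis.uu, vv, uv` and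
`stokes`.
-/

set_option autoImplicit false

open Topology Set MeasureTheory
open scoped ContDiff

namespace Pool.Agent.Lib.MP_cca10c_ag

variable {X : Type} [TopologicalSpace X] [CompactSpace X] [T2Space X] {S : CS X}
variable {F : Frame S} [MeasurableSpace X] [BorelSpace X]
variable {g : ℕ} {u v : Fin g → X → UnitAddCircle} {a b : X → ℂ}

omit [CompactSpace X] [T2Space X] [MeasurableSpace X] [BorelSpace X] in
private theorem h19_ch {i : Fin F.n} {z : ℂ} (hz : z ∈ F.e i '' F.P i) :
    F.ch ((F.e i).symm z) = F.e i ∧ F.e i ((F.e i).symm z) = z ∧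
      deriv (F.ch ((F.e i).symm z) ∘ (F.e i).symm) z = 1 := by
  obtain ⟨x, hx, rfl⟩ := hz
  have hxs := F.sub i hx
  have h1 : (F.e i).symm (F.e i x) = x := (F.e i).left_inv hxs
  have h2 : F.ch ((F.e i).symm (F.e i x)) = F.e i := by rw [h1]; exact F.ch_eq hx
  refine ⟨h2, by rw [h1], ?_⟩
  rw [h2]
  have h3 : (F.e i ∘ (F.e i).symm) =ᶠ[𝓝 (F.e i x)] id :=
    (F.e i).eventually_right_inverse ((F.e i).map_source hxs)
  rw [h3.deriv_eq]
  exact deriv_id _

omit [CompactSpace X] [T2Space X] in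
private theorem h19_image (e : OpenPartialHomeomorph X ℂ) {A : Set X} (hA : MeasurableSet A)
    (hAe : A ⊆ e.source) : MeasurableSet (e '' A) := by
  have h1 : e '' A = Subtype.val '' (e.toHomeomorphSourceTarget '' (Subtype.val ⁻¹' A)) := by
    ext z
    constructor
    · rintro ⟨x, hx, rfl⟩
      exact ⟨⟨e x, e.map_source (hAe hx)⟩, ⟨⟨x, hAe hx⟩, hx, rfl⟩, rfl⟩
    · rintro ⟨_, ⟨⟨x, hxs⟩, hx, rfl⟩, rfl⟩
      exact ⟨x, hx, rfl⟩
  rw [h1]
  refine e.open_target.measurableSet.subtype_image ?_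
  exact (e.toHomeomorphSourceTarget.toMeasurableEquiv.measurableSet_image).2
    (measurable_subtype_coe hA)

theorem Frame.wedge_eq (hF : F.Tame) {w w' : X → UnitAddCircle} (hw : S.SmoothC w)
    (hw' : S.SmoothC w') : F.wedge w w' = F.wd (F.dC w) (F.dC w') := by
  have hm : ∀ i, MeasurableSet (F.P i) := fun i => by
    have := F.meas i
    rwa [← BorelSpace.measurable_eq (α := X)] at this
  have hint : Integrable (fun x => F.dC w x * starRingEnd ℂ (F.dC w' x)) F.nu :=
    Frame.integrable_mul_conj ((F.closed_dC hw).memLp hF) ((F.closed_dC hw').memLp hF)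
  have h1 : F.wd (F.dC w) (F.dC w') =
      ∫ x, (F.dC w x * starRingEnd ℂ (F.dC w' x)).im ∂F.nu := by
    unfold Frame.wd Frame.ip
    have h2 := integral_im (𝕜 := ℂ) hint
    exact h2.symm
  have hint2 : Integrable (fun x => (F.dC w x * starRingEnd ℂ (F.dC w' x)).im) F.nu := hint.im
  rw [h1, ← setIntegral_univ, ← F.cover, integral_iUnion_fintype hm F.disj
    (fun i => hint2.integrableOn)]
  unfold Frame.wedge
  refine Finset.sum_congr rfl fun i _ => ?_
  rw [F.integral_nu (F.mem i) (hm i) (F.sub i)]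
  refine setIntegral_congr_fun ?_ fun z hz => ?_
  · exact h19_image (F.e i) (hm i) (F.sub i)
  · obtain ⟨h3, h4, h5⟩ := h19_ch hz
    simp only [h5, norm_one, one_pow, one_smul]
    unfold Frame.dC
    rw [h3, h4]

/-! ### the forms with constant coefficients -/

omit [CompactSpace X] [T2Space X] [MeasurableSpace X] [BorelSpace X] in
private theorem h19_lin (x : Fin g ⊕ Fin g → ℝ) :
    F.lin u v x = fun p => ∑ i : Fin g ⊕ Fin g, (x i : ℂ) * F.dC (Sum.elim u v i) p := by
  funext p
  rw [Fintype.sum_sum_type]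
  rfl

omit [CompactSpace X] [T2Space X] [MeasurableSpace X] [BorelSpace X] in
private theorem h19_lin_add (x y : Fin g ⊕ Fin g → ℝ) (p : X) :
    F.lin u v (fun i => x i + y i) p = F.lin u v x p + F.lin u v y p := by
  simp only [h19_lin]
  rw [← Finset.sum_add_distrib]
  refine Finset.sum_congr rfl fun i _ => ?_
  push_cast
  ring

omit [CompactSpace X] [T2Space X] [MeasurableSpace X] [BorelSpace X] in
private theorem h19_lin_mul (c : ℝ) (x : Fin g ⊕ Fin g → ℝ) (p : X) :
    F.lin u v (fun i => c * x i) p = c * F.lin u v x p := by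
  simp only [h19_lin]
  rw [Finset.mul_sum]
  refine Finset.sum_congr rfl fun i _ => ?_
  push_cast
  ring

omit [CompactSpace X] [T2Space X] [MeasurableSpace X] [BorelSpace X] in
private theorem h19_lin_zero (p : X) : F.lin u v (fun _ => 0) p = 0 := by
  simp only [h19_lin]
  simp

omit [CompactSpace X] [T2Space X] [MeasurableSpace X] [BorelSpace X] in
private theorem h19_smooth_zero : S.Smooth (fun _ : X => (0 : ℝ)) :=
  fun _ => CS.SmoothAt.const 0

namespace Frame.Cls

variable {x y : Fin g ⊕ Fin g → ℝ}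

theorem closed (hb : SymplBasis S g u v) (ha : F.Cls u v a x) : F.Closed a := by
  obtain ⟨φ, hφ, h⟩ := ha
  have h1 : a = fun p => F.lin u v x p + F.d φ p := funext h
  rw [h1]
  exact (F.closed_lin hb.smooth_u hb.smooth_v x).add (F.closed_d hφ)

theorem add (ha : F.Cls u v a x) (hb : F.Cls u v b y) :
    F.Cls u v (fun p => a p + b p) (fun i => x i + y i) := by
  obtain ⟨φ, hφ, h⟩ := ha
  obtain ⟨ψ, hψ, h'⟩ := hb
  refine ⟨fun p => φ p + ψ p, fun p => (hφ p).add (hψ p), fun p => ?_⟩
  rw [h19_lin_add, F.d_add (hφ p) (hψ p)]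
  show a p + b p = _
  rw [h p, h' p]
  ring

theorem const_mul (c : ℝ) (ha : F.Cls u v a x) :
    F.Cls u v (fun p => c * a p) (fun i => c * x i) := by
  obtain ⟨φ, hφ, h⟩ := ha
  refine ⟨fun p => c * φ p, fun p => (hφ p).const_mul c, fun p => ?_⟩
  rw [h19_lin_mul, F.d_const_mul c (hφ p)]
  show c * a p = _
  rw [h p]
  ring

theorem sub (ha : F.Cls u v a x) (hb : F.Cls u v b y) :
    F.Cls u v (fun p => a p - b p) (fun i => x i - y i) := by
  have h := ha.add (hb.const_mul (-1))
  have e1 : (fun p => a p + ((-1 : ℝ) : ℂ) * b p) = fun p => a p - b p := by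
    funext p
    push_cast
    ring
  have e2 : (fun i => x i + (-1) * y i) = fun i => x i - y i := by
    funext i
    ring
  rw [e1, e2] at h
  exact h

theorem add_d {φ : X → ℝ} (hφ : S.Smooth φ) (ha : F.Cls u v a x) :
    F.Cls u v (fun p => a p + F.d φ p) x := by
  obtain ⟨ψ, hψ, h⟩ := ha
  refine ⟨fun p => ψ p + φ p, fun p => (hψ p).add (hφ p), fun p => ?_⟩
  rw [F.d_add (hψ p) (hφ p)]
  show a p + F.d φ p = _
  rw [h p]
  ring

theorem lin (x : Fin g ⊕ Fin g → ℝ) : F.Cls u v (F.lin u v x) x := by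
  refine ⟨fun _ => 0, h19_smooth_zero, fun p => ?_⟩
  rw [F.d_const, add_zero]

theorem exact {φ : X → ℝ} (hφ : S.Smooth φ) : F.Cls u v (F.d φ) (fun _ => 0) := by
  refine ⟨φ, hφ, fun p => ?_⟩
  rw [h19_lin_zero, zero_add]

end Frame.Cls

/-! ### bilinearity for sums -/

private theorem h19_wd_add_left {a b c : X → ℂ} (ha : MemLp a 2 F.nu) (hb : MemLp b 2 F.nu)
    (hc : MemLp c 2 F.nu) : F.wd (fun x => a x + b x) c = F.wd a c + F.wd b c := by
  unfold Frame.wd
  rw [Frame.ip_add_left ha hb hc, Complex.add_im]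

private theorem h19_wd_add_right {a b c : X → ℂ} (ha : MemLp a 2 F.nu) (hb : MemLp b 2 F.nu)
    (hc : MemLp c 2 F.nu) : F.wd c (fun x => a x + b x) = F.wd c a + F.wd c b := by
  unfold Frame.wd
  rw [Frame.ip_add_right ha hb hc, Complex.add_im]

private theorem h19_wd_mul_left (r : ℝ) : F.wd (fun x => (r : ℂ) * a x) b = r * F.wd a b := by
  unfold Frame.wd
  rw [Frame.ip_const_mul_left, Complex.im_ofReal_mul]

private theorem h19_wd_mul_right (r : ℝ) : F.wd a (fun x => (r : ℂ) * b x) = r * F.wd a b := by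
  unfold Frame.wd
  rw [Frame.ip_const_mul_right, Complex.conj_ofReal, Complex.im_ofReal_mul]

private theorem h19_wd_symm : F.wd b a = - F.wd a b := by
  unfold Frame.wd
  rw [Frame.ip_conj_symm, Complex.conj_im]

private theorem h19_memLp_sum {ι : Type} (s : Finset ι) (c : ι → ℝ) (A : ι → X → ℂ)
    (hA : ∀ i, MemLp (A i) 2 F.nu) : MemLp (fun p => ∑ i ∈ s, (c i : ℂ) * A i p) 2 F.nu := by
  have := memLp_finsetSum s (f := fun i p => (c i : ℂ) * A i p) (fun i _ => (hA i).const_mul _)
  exact this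

private theorem h19_wd_sum_left {ι : Type} (s : Finset ι) (c : ι → ℝ) (A : ι → X → ℂ)
    (hA : ∀ i, MemLp (A i) 2 F.nu) (hb : MemLp b 2 F.nu) :
    F.wd (fun p => ∑ i ∈ s, (c i : ℂ) * A i p) b = ∑ i ∈ s, c i * F.wd (A i) b := by
  classical
  induction s using Finset.induction_on with
  | empty =>
    simp only [Finset.sum_empty]
    unfold Frame.wd Frame.ip
    simp
  | insert i s hi ih =>
    have e : (fun p => ∑ j ∈ insert i s, (c j : ℂ) * A j p) =
        fun p => (c i : ℂ) * A i p + ∑ j ∈ s, (c j : ℂ) * A j p := by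
      funext p
      rw [Finset.sum_insert hi]
    rw [e, h19_wd_add_left ((hA i).const_mul _) (h19_memLp_sum s c A hA) hb, ih,
      h19_wd_mul_left, Finset.sum_insert hi]

private theorem h19_wd_sum_right {ι : Type} (s : Finset ι) (c : ι → ℝ) (A : ι → X → ℂ)
    (hA : ∀ i, MemLp (A i) 2 F.nu) (hb : MemLp b 2 F.nu) :
    F.wd b (fun p => ∑ i ∈ s, (c i : ℂ) * A i p) = ∑ i ∈ s, c i * F.wd b (A i) := by
  rw [h19_wd_symm, h19_wd_sum_left s c A hA hb, ← Finset.sum_neg_distrib]
  refine Finset.sum_congr rfl fun i _ => ?_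
  rw [h19_wd_symm (a := b) (b := A i)]
  ring

private theorem h19_wd_lin (hb : SymplBasis S g u v) (hF : F.Tame) (x y : Fin g ⊕ Fin g → ℝ) :
    F.wd (F.lin u v x) (F.lin u v y) = om x y := by
  have hs : ∀ i : Fin g ⊕ Fin g, S.SmoothC (Sum.elim u v i) := by
    rintro (i | i)
    · exact hb.smooth_u i
    · exact hb.smooth_v i
  have hm : ∀ i : Fin g ⊕ Fin g, MemLp (F.dC (Sum.elim u v i)) 2 F.nu :=
    fun i => (F.closed_dC (hs i)).memLp hF
  have hmy : MemLp (F.lin u v y) 2 F.nu :=
    (F.closed_lin hb.smooth_u hb.smooth_v y).memLp hF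
  have h1 : F.wd (F.lin u v x) (F.lin u v y) =
      ∑ i, x i * ∑ j, y j * F.wd (F.dC (Sum.elim u v i)) (F.dC (Sum.elim u v j)) := by
    rw [h19_lin (F := F) x, h19_wd_sum_left Finset.univ x _ hm hmy]
    refine Finset.sum_congr rfl fun i _ => ?_
    rw [h19_lin (F := F) y, h19_wd_sum_right Finset.univ y _ hm (hm i)]
  have huu : ∀ j k, F.wd (F.dC (u j)) (F.dC (u k)) = 0 := fun j k => by
    rw [← F.wedge_eq hF (hb.smooth_u j) (hb.smooth_u k)]; exact hb.uu F j k
  have hvv : ∀ j k, F.wd (F.dC (v j)) (F.dC (v k)) = 0 := fun j k => by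
    rw [← F.wedge_eq hF (hb.smooth_v j) (hb.smooth_v k)]; exact hb.vv F j k
  have huv : ∀ j k, F.wd (F.dC (u j)) (F.dC (v k)) = if j = k then 1 else 0 := fun j k => by
    rw [← F.wedge_eq hF (hb.smooth_u j) (hb.smooth_v k)]; exact hb.uv F j k
  have hvu : ∀ j k, F.wd (F.dC (v j)) (F.dC (u k)) = - if k = j then 1 else 0 := fun j k => by
    rw [h19_wd_symm, huv]
  rw [h1, Fintype.sum_sum_type]
  simp only [Fintype.sum_sum_type, Sum.elim_inl, Sum.elim_inr, huu, hvv, huv, hvu]
  unfold om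
  rw [Finset.sum_sub_distrib, sub_eq_add_neg, ← Finset.sum_neg_distrib]
  congr 1
  · refine Finset.sum_congr rfl fun j _ => ?_
    simp
  · refine Finset.sum_congr rfl fun j _ => ?_
    simp

namespace Frame.Cls

variable {x y : Fin g ⊕ Fin g → ℝ}

theorem wd_eq_om (hb : SymplBasis S g u v) (hF : F.Tame) (ha : F.Cls u v a x)
    (hb' : F.Cls u v b y) : F.wd a b = om x y := by
  have hbc := hb'.closed hb
  have hbm := hbc.memLp hF
  obtain ⟨φ, hφ, h⟩ := ha
  obtain ⟨ψ, hψ, h'⟩ := hb'
  have ea : a = fun p => F.lin u v x p + F.d φ p := funext h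
  have eb : b = fun p => F.lin u v y p + F.d ψ p := funext h'
  have hlx := F.closed_lin hb.smooth_u hb.smooth_v x
  have hly := F.closed_lin hb.smooth_u hb.smooth_v y
  rw [ea, h19_wd_add_left (hlx.memLp hF) ((F.closed_d hφ).memLp hF) hbm,
    F.stokes hF hφ hbc, add_zero, eb,
    h19_wd_add_right (hly.memLp hF) ((F.closed_d hψ).memLp hF) (hlx.memLp hF),
    F.stokes' hF hψ hlx, add_zero, h19_wd_lin hb hF]

theorem unique (hb : SymplBasis S g u v) (hF : F.Tame) (ha : F.Cls u v a x)
    (ha' : F.Cls u v a y) : x = y := by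
  classical
  have key : ∀ z, om x z = om y z := fun z => by
    rw [← ha.wd_eq_om hb hF (Frame.Cls.lin z), ← ha'.wd_eq_om hb hF (Frame.Cls.lin z)]
  funext i
  rcases i with k | k
  · have h := key (Pi.single (Sum.inr k) 1)
    unfold om at h
    simpa [Pi.single_apply, Finset.sum_ite_eq] using h
  · have h := key (Pi.single (Sum.inl k) 1)
    unfold om at h
    simpa [Pi.single_apply, Finset.sum_ite_eq] using h

end Frame.Cls

/-- the class of a circle map is integral -/
theorem exists_int_cls (hb : SymplBasis S g u v) {w : X → UnitAddCircle} (hw : Continuous w) :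
    ∃ m : Fin g ⊕ Fin g → ℤ, SameClass (comb u v m) w := by
  obtain ⟨m, n, f, hf, h⟩ := hb.gen w hw
  exact ⟨Sum.elim m n, f, hf, h⟩

theorem cls_of_sameClass (hb : SymplBasis S g u v) {w : X → UnitAddCircle} (hw : S.SmoothC w)
    {m : Fin g ⊕ Fin g → ℤ} (h : SameClass (comb u v m) w) :
    F.Cls u v (F.dC w) (fun i => (m i : ℝ)) := by
  obtain ⟨f, hf, h⟩ := h
  have hc : S.SmoothC (comb u v m) := CS.SmoothC.comb hb.smooth_u hb.smooth_v m
  have hfs : S.Smooth f := by
    refine (hw.add hc.neg).smooth_of_eq hf fun p => ?_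
    rw [h p]
    abel
  have e : w = fun p => comb u v m p + (f p : UnitAddCircle) := funext h
  refine ⟨f, hfs, fun p => ?_⟩
  rw [e, F.dC_add_coe hc hfs, F.dC_comb hb.smooth_u hb.smooth_v]

/-- `gen` and uniqueness of the class of the form -/
theorem sameClass_of_cls (hb : SymplBasis S g u v) (hF : F.Tame)
    {w : X → UnitAddCircle} (hw : S.SmoothC w) {m : Fin g ⊕ Fin g → ℤ}
    (h : F.Cls u v (F.dC w) (fun i => (m i : ℝ))) : SameClass (comb u v m) w := by
  obtain ⟨m', hm'⟩ := exists_int_cls hb hw.continuous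
  have h1 := (cls_of_sameClass (F := F) hb hw hm').unique hb hF h
  have h2 : m' = m := by
    funext i
    have := congrFun h1 i
    exact_mod_cast this
  rw [← h2]
  exact hm'

theorem Frame.Closed.exists_cls (hb : SymplBasis S g u v) (ha : F.Closed a) :
    ∃ x, F.Cls u v a x := by
  classical
  obtain ⟨N, w, r, φ, hw, hφ, h⟩ := ha.exists_real_class
  have h1 : ∀ k, ∃ x, F.Cls u v (F.dC (w k)) x := fun k => by
    obtain ⟨m, hm⟩ := exists_int_cls hb (hw k).continuous
    exact ⟨_, cls_of_sameClass hb (hw k) hm⟩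
  have h2 : ∀ s : Finset (Fin N), ∃ x, F.Cls u v (fun p => ∑ k ∈ s, (r k : ℂ) * F.dC (w k) p) x := by
    intro s
    induction s using Finset.induction_on with
    | empty =>
      refine ⟨fun _ => 0, fun _ => 0, h19_smooth_zero, fun p => ?_⟩
      rw [h19_lin_zero, F.d_const]
      simp
    | insert k s hk ih =>
      obtain ⟨x, hx⟩ := ih
      obtain ⟨y, hy⟩ := h1 k
      have h3 := (hy.const_mul (r k)).add hx
      have e : (fun p => ∑ j ∈ insert k s, (r j : ℂ) * F.dC (w j) p) =
          fun p => (r k : ℂ) * F.dC (w k) p + ∑ j ∈ s, (r j : ℂ) * F.dC (w j) p := by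
        funext p
        rw [Finset.sum_insert hk]
      rw [e]
      exact ⟨_, h3⟩
  obtain ⟨x, hx⟩ := h2 Finset.univ
  refine ⟨x, ?_⟩
  have h4 := hx.add_d hφ
  have e : a = fun p => ∑ k, (r k : ℂ) * F.dC (w k) p + F.d φ p := funext h
  rw [e]
  exact h4

end Pool.Agent.Lib.MP_cca10c_ag
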