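import Pool.Agent.Lib.MP_cca10c_ag.H19_Classes

/-!
# Independence of the frame (stub H20)

`F.tr F' a` is the same form written in the frame `F'`. Decompose into the pieces `P i` of one frame
and use the change of variables for both measures. For arbitrary (not tame) frames the wedge integral
of smooth circle maps is still the same (the integrals over the pieces converge absolutely because
they do in a tame frame).
-/

set_option autoImplicit false

open Topology Set MeasureTheory
open scoped ContDiff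

namespace Pool.Agent.Lib.MP_cca10c_ag

variable {X : Type} [TopologicalSpace X] {S : CS X}

namespace Frame

/-- the form `a` (in the frame `F`) written in the frame `F'` -/
noncomputable def tr (F F' : Frame S) (a : X → ℂ) (x : X) : ℂ := F.co (F'.ch x) a (F'.ch x x)

/-- `tr` is pointwise multiplication by a function -/
private theorem H20_tr_eq (F F' : Frame S) (a : X → ℂ) (x : X) :
    F.tr F' a x = a x * deriv (F.ch x ∘ (F'.ch x).symm) (F'.ch x x) := by
  unfold tr
  exact F.co_at (F'.mem_ch x)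

theorem co_tr (F F' : Frame S) (a : X → ℂ) {e : OpenPartialHomeomorph X ℂ} (he : e ∈ S.charts)
    {z : ℂ} (hz : z ∈ e.target) : F'.co e (F.tr F' a) z = F.co e a z := by
  obtain ⟨x, hx, rfl⟩ : ∃ x ∈ e.source, e x = z := ⟨e.symm z, e.map_target hz, e.right_inv hz⟩
  rw [F'.co_at hx, F.co_trans he (F'.ch_mem x) hx (F'.mem_ch x)]
  rfl

theorem tr_d (F F' : Frame S) {φ : X → ℝ} {x : X} (hφ : S.SmoothAt φ x) :
    F.tr F' (F.d φ) x = F'.d φ x := by
  unfold tr
  rw [F.co_d (F'.ch_mem x) (F'.mem_ch x) hφ]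
  rfl

theorem tr_dC (F F' : Frame S) {w : X → UnitAddCircle} (hw : S.SmoothC w) (x : X) :
    F.tr F' (F.dC w) x = F'.dC w x := by
  obtain ⟨k, hk, hks⟩ := hw.exists_lift x
  have hk' := hks.smoothAt
  unfold tr
  rw [F.co_dC (F'.ch_mem x) (F'.mem_ch x) hk hk', F'.dC_eq_d hk hk']
  rfl

theorem closed_tr (F F' : Frame S) {a : X → ℂ} (ha : F.Closed a) : F'.Closed (F.tr F' a) := by
  intro x
  obtain ⟨f, hf, hfa⟩ := ha x
  refine ⟨f, hf, ?_⟩
  filter_upwards [hfa, hf] with y hy hfy
  rw [← F.tr_d F' hfy, H20_tr_eq, H20_tr_eq, hy]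

theorem holIn_tr (F F' : Frame S) {a : X → ℂ} {U : Set X} (hU : IsOpen U) (ha : F.HolIn U a) :
    F'.HolIn U (F.tr F' a) := by
  intro e he
  exact (ha e he).congr fun z hz => F.co_tr F' a he hz.1

theorem cls_tr (F F' : Frame S) {g : ℕ} {u v : Fin g → X → UnitAddCircle}
    (hu : ∀ j, S.SmoothC (u j)) (hv : ∀ j, S.SmoothC (v j)) {a : X → ℂ}
    {x : Fin g ⊕ Fin g → ℝ} (ha : F.Cls u v a x) : F'.Cls u v (F.tr F' a) x := by
  obtain ⟨φ, hφ, h⟩ := ha
  refine ⟨φ, hφ, fun p => ?_⟩
  have h1 : ∀ j, F.dC (u j) p * deriv (F.ch p ∘ (F'.ch p).symm) (F'.ch p p) = F'.dC (u j) p := by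
    intro j
    rw [← H20_tr_eq, F.tr_dC F' (hu j)]
  have h2 : ∀ j, F.dC (v j) p * deriv (F.ch p ∘ (F'.ch p).symm) (F'.ch p p) = F'.dC (v j) p := by
    intro j
    rw [← H20_tr_eq, F.tr_dC F' (hv j)]
  have h3 : F.d φ p * deriv (F.ch p ∘ (F'.ch p).symm) (F'.ch p p) = F'.d φ p := by
    rw [← H20_tr_eq, F.tr_d F' (hφ p)]
  rw [H20_tr_eq, h p]
  unfold lin
  rw [add_mul, add_mul, Finset.sum_mul, Finset.sum_mul, h3]
  congr 2
  · refine Finset.sum_congr rfl fun j _ => ?_
    rw [mul_assoc, h1 j]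
  · refine Finset.sum_congr rfl fun j _ => ?_
    rw [mul_assoc, h2 j]

section

variable [MeasurableSpace X] [BorelSpace X]

private theorem H20_P_meas (F : Frame S) (i : Fin F.n) : MeasurableSet (F.P i) := by
  have h := F.meas i
  rwa [← BorelSpace.measurable_eq (α := X)] at h

/-- integration over the pieces of another frame -/
private theorem H20_pieces {E : Type} [NormedAddCommGroup E] [NormedSpace ℝ E] (F F' : Frame S)
    {A : Set X} (hA : MeasurableSet A) {f : X → E} (hf : IntegrableOn f A F'.nu) :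
    ∫ x in A, f x ∂F'.nu = ∑ i, ∫ x in A ∩ F.P i, f x ∂F'.nu := by
  have hAe : A = ⋃ i, A ∩ F.P i := by
    rw [← inter_iUnion, F.cover, inter_univ]
  conv_lhs => rw [hAe]
  rw [integral_iUnion_fintype (fun i => hA.inter (H20_P_meas F i))]
  · intro i j hij
    exact (F.disj hij).mono inter_subset_right inter_subset_right
  · intro i
    exact hf.mono_set inter_subset_left

/-- functions which are related by the factor of the change of frames -/
private theorem H20_transfer {E : Type} [NormedAddCommGroup E] [NormedSpace ℝ E] (F F' : Frame S)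
    {A : Set X} (hA : MeasurableSet A) {f f' : X → E}
    (h : ∀ e ∈ S.charts, ∀ x ∈ e.source, ‖deriv (F.ch x ∘ e.symm) (e x)‖ ^ 2 • f x =
      ‖deriv (F'.ch x ∘ e.symm) (e x)‖ ^ 2 • f' x)
    (hf : IntegrableOn f A F.nu) :
    ∫ x in A, f x ∂F.nu = ∫ x in A, f' x ∂F'.nu := by
  have hAi : ∀ i, MeasurableSet (A ∩ F.P i) := fun i => hA.inter (H20_P_meas F i)
  have hAs : ∀ i, A ∩ F.P i ⊆ (F.e i).source := fun i => inter_subset_right.trans (F.sub i)
  have hm : ∀ i, MeasurableSet (F.e i '' (A ∩ F.P i)) := by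
    intro i
    have h1 : Measurable ((F.e i).target.domRestrict (F.e i).symm) :=
      (continuousOn_iff_continuous_domRestrict.1 (F.e i).continuousOn_symm).measurable
    have h2 := (F.e i).open_target.measurableSet.subtype_image (h1 (hAi i))
    convert h2 using 1
    ext z
    constructor
    · rintro ⟨x, hx, rfl⟩
      refine ⟨⟨F.e i x, (F.e i).map_source (hAs i hx)⟩, ?_, rfl⟩
      rw [mem_preimage]
      change (F.e i).symm (F.e i x) ∈ _
      rw [(F.e i).left_inv (hAs i hx)]
      exact hx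
    · rintro ⟨⟨z, hz⟩, hzA, rfl⟩
      exact ⟨(F.e i).symm z, hzA, (F.e i).right_inv hz⟩
  have hz : ∀ i, ∀ z ∈ F.e i '' (A ∩ F.P i),
      ‖deriv (F.ch ((F.e i).symm z) ∘ (F.e i).symm) z‖ ^ 2 • f ((F.e i).symm z) =
      ‖deriv (F'.ch ((F.e i).symm z) ∘ (F.e i).symm) z‖ ^ 2 • f' ((F.e i).symm z) := by
    rintro i _ ⟨x, hx, rfl⟩
    rw [(F.e i).left_inv (hAs i hx)]
    exact h _ (F.mem i) x (hAs i hx)
  have hf' : IntegrableOn f' A F'.nu := by
    have hAe : A = ⋃ i, A ∩ F.P i := by
      rw [← inter_iUnion, F.cover, inter_univ]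
    rw [hAe]
    refine integrableOn_finite_iUnion.2 fun i => ?_
    rw [F'.integrableOn_nu_iff (F.mem i) (hAi i) (hAs i)]
    have h1 := (F.integrableOn_nu_iff (F.mem i) (hAi i) (hAs i) f).1
      (hf.mono_set inter_subset_left)
    exact h1.congr_fun (hz i) (hm i)
  rw [H20_pieces F F hA hf, H20_pieces F F' hA hf']
  refine Finset.sum_congr rfl fun i _ => ?_
  rw [F.integral_nu (F.mem i) (hAi i) (hAs i), F'.integral_nu (F.mem i) (hAi i) (hAs i)]
  exact setIntegral_congr_fun (hm i) (hz i)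

end

/-- the factors of the two frames -/
private theorem H20_factor (F F' : Frame S) (a : X → ℂ) {e : OpenPartialHomeomorph X ℂ}
    (he : e ∈ S.charts) {x : X} (hx : x ∈ e.source) :
    a x * deriv (F.ch x ∘ e.symm) (e x) = F.tr F' a x * deriv (F'.ch x ∘ e.symm) (e x) := by
  rw [← F.co_at hx, ← F'.co_at hx]
  exact (F.co_tr F' a he (e.map_source hx)).symm

variable [CompactSpace X] [T2Space X] [MeasurableSpace X] [BorelSpace X]

theorem en_tr {F F' : Frame S} (hF : F.Tame) (hF' : F'.Tame) {A : Set X} (hA : MeasurableSet A)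
    {a : X → ℂ} (ha : MemLp a 2 F.nu) : F'.en A (F.tr F' a) = F.en A a := by
  unfold en
  refine (H20_transfer F F' hA ?_ (integrable_normSq ha).integrableOn).symm
  intro e he x hx
  have h := congrArg (fun c : ℂ => ‖c‖ ^ 2) (H20_factor F F' a he hx)
  simp only [norm_mul, mul_pow] at h
  rw [smul_eq_mul, smul_eq_mul, mul_comm, h, mul_comm]

theorem ip_tr {F F' : Frame S} (hF : F.Tame) (hF' : F'.Tame) {a b : X → ℂ}
    (ha : MemLp a 2 F.nu) (hb : MemLp b 2 F.nu) :
    F'.ip (F.tr F' a) (F.tr F' b) = F.ip a b := by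
  unfold ip
  have h0 := (H20_transfer F F' MeasurableSet.univ (f := fun x => a x * starRingEnd ℂ (b x))
    (f' := fun x => F.tr F' a x * starRingEnd ℂ (F.tr F' b x)) ?_
    (integrable_mul_conj ha hb).integrableOn).symm
  · rwa [Measure.restrict_univ, Measure.restrict_univ] at h0
  intro e he x hx
  have h1 := H20_factor F F' a he hx
  have h2 := congrArg (starRingEnd ℂ) (H20_factor F F' b he hx)
  rw [map_mul, map_mul] at h2
  have h3 : ∀ c : ℂ, ((‖c‖ ^ 2 : ℝ) : ℂ) = c * starRingEnd ℂ c := by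
    intro c
    rw [Complex.mul_conj, Complex.normSq_eq_norm_sq]
  rw [Complex.real_smul, Complex.real_smul, h3, h3]
  calc _ = (a x * deriv (F.ch x ∘ e.symm) (e x)) *
        (starRingEnd ℂ (b x) * starRingEnd ℂ (deriv (F.ch x ∘ e.symm) (e x))) := by ring
    _ = _ := by rw [h1, h2]; ring

omit [MeasurableSpace X] [BorelSpace X] in
/-- the wedge integral in any frame, in terms of a tame frame -/
private theorem H20_wedge (F F₀ : Frame S) (hF₀ : F₀.Tame) {w w' : X → UnitAddCircle}
    (hw : S.SmoothC w) (hw' : S.SmoothC w') [MeasurableSpace X] [BorelSpace X] :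
    F.wedge w w' = ∫ x, (F₀.dC w x * starRingEnd ℂ (F₀.dC w' x)).im ∂F₀.nu := by
  have hi : Integrable (fun x => (F₀.dC w x * starRingEnd ℂ (F₀.dC w' x)).im) F₀.nu :=
    (integrable_mul_conj ((F₀.closed_dC hw).memLp hF₀) ((F₀.closed_dC hw').memLp hF₀)).im
  have h1 := H20_pieces F F₀ MeasurableSet.univ hi.integrableOn
  rw [Measure.restrict_univ] at h1
  rw [h1]
  unfold wedge
  refine Finset.sum_congr rfl fun i _ => ?_
  rw [univ_inter, F₀.integral_nu (F.mem i) (H20_P_meas F i) (F.sub i)]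
  have hm : MeasurableSet (F.e i '' F.P i) := by
    have h1 : Measurable ((F.e i).target.domRestrict (F.e i).symm) :=
      (continuousOn_iff_continuous_domRestrict.1 (F.e i).continuousOn_symm).measurable
    have h2 := (F.e i).open_target.measurableSet.subtype_image (h1 (H20_P_meas F i))
    convert h2 using 1
    ext z
    constructor
    · rintro ⟨x, hx, rfl⟩
      refine ⟨⟨F.e i x, (F.e i).map_source (F.sub i hx)⟩, ?_, rfl⟩
      rw [mem_preimage]
      change (F.e i).symm (F.e i x) ∈ _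
      rw [(F.e i).left_inv (F.sub i hx)]
      exact hx
    · rintro ⟨⟨z, hz⟩, hzA, rfl⟩
      exact ⟨(F.e i).symm z, hzA, (F.e i).right_inv hz⟩
  refine setIntegral_congr_fun hm ?_
  rintro _ ⟨x, hx, rfl⟩
  have hxs : x ∈ (F.e i).source := F.sub i hx
  have hco : ∀ {w : X → UnitAddCircle}, S.SmoothC w →
      cgradC (w ∘ (F.e i).symm) (F.e i x) =
        F₀.dC w x * deriv (F₀.ch x ∘ (F.e i).symm) (F.e i x) := by
    intro w hw
    obtain ⟨k, hk, hks⟩ := hw.exists_lift x
    have hk' := hks.smoothAt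
    rw [← F₀.co_at hxs, F₀.co_dC (F.mem i) hxs hk hk']
    refine cgradC_eq (f := k ∘ (F.e i).symm) ?_ ?_
    · have h3 := (F.e i).symm.continuousAt ((F.e i).map_source hxs)
      have h4 : Filter.Tendsto (F.e i).symm (𝓝 (F.e i x)) (𝓝 x) := by
        have h5 := h3.tendsto
        rwa [(F.e i).left_inv hxs] at h5
      exact h4.eventually hk.2
    · exact (hk' _ (F.mem i) hxs).differentiableAt (by simp)
  simp only
  rw [(F.e i).left_inv hxs, hco hw, hco hw', smul_eq_mul]
  set c := deriv (F₀.ch x ∘ (F.e i).symm) (F.e i x)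
  have h6 : F₀.dC w x * c * starRingEnd ℂ (F₀.dC w' x * c) =
      ((‖c‖ ^ 2 : ℝ) : ℂ) * (F₀.dC w x * starRingEnd ℂ (F₀.dC w' x)) := by
    have h3 : ((‖c‖ ^ 2 : ℝ) : ℂ) = c * starRingEnd ℂ c := by
      rw [Complex.mul_conj, Complex.normSq_eq_norm_sq]
    rw [h3, map_mul]
    ring
  rw [h6, Complex.im_ofReal_mul]

omit [MeasurableSpace X] [BorelSpace X] in
/-- the wedge integral of the statement does not depend on the frame -/
theorem wedge_indep (F F' : Frame S) {w w' : X → UnitAddCircle} (hw : S.SmoothC w)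
    (hw' : S.SmoothC w') : F.wedge w w' = F'.wedge w w' := by
  obtain ⟨F₀, hF₀⟩ := S.exists_tame
  let _ : MeasurableSpace X := borel X
  have : BorelSpace X := ⟨rfl⟩
  rw [H20_wedge F F₀ hF₀ hw hw', H20_wedge F' F₀ hF₀ hw hw']

end Frame

end Pool.Agent.Lib.MP_cca10c_ag
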