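import Pool.Agent.Lib.MP_cca10c_ag.H16_Proj
import Pool.Agent.Lib.MP_cca10c_ag.H19_Classes

/-!
# The Hodge theorem and the Dirichlet principle (stub H21)

Exactness: let `b` be closed and a limit of exact forms, `x` its class. `F.wd b (F.dC (u j)) = 0` and
`F.wd b (F.dC (v j)) = 0` by `Lim.wd_eq_zero`, so `x = 0` by `wd_eq_om`.
Harmonic representative: decompose `F.lin u v x` by `Closed.exists_decomp`.
Uniqueness: a harmonic exact form has energy `0` by `ip_hol_d`.
Dirichlet principle: `a = harm + d φ`, `en_add`, `ip_hol_d`.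
-/

set_option autoImplicit false

open Topology Set MeasureTheory
open scoped ContDiff

namespace Pool.Agent.Lib.MP_cca10c_ag

variable {X : Type} [TopologicalSpace X] [CompactSpace X] [T2Space X] {S : CS X}
variable {F : Frame S} [MeasurableSpace X] [BorelSpace X]
variable {g : ℕ} {u v : Fin g → X → UnitAddCircle} {a b : X → ℂ}
variable {x y : Fin g ⊕ Fin g → ℝ}

omit [TopologicalSpace X] [CompactSpace X] [T2Space X] [MeasurableSpace X] [BorelSpace X] in
private theorem H21_om {x : Fin g ⊕ Fin g → ℝ} (h : ∀ y, om x y = 0) : x = 0 := by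
  funext i
  rcases i with i | i
  · have h1 := h (Pi.single (Sum.inr i) 1)
    unfold om at h1
    rw [Finset.sum_eq_single i] at h1
    · simpa using h1
    · intro j _ hj
      have h2 : (Sum.inr j : Fin g ⊕ Fin g) ≠ Sum.inr i := fun h => hj (Sum.inr_injective h)
      simp [h2]
    · simp
  · have h1 := h (Pi.single (Sum.inl i) 1)
    unfold om at h1
    rw [Finset.sum_eq_single i] at h1
    · simpa using h1
    · intro j _ hj
      have h2 : (Sum.inl j : Fin g ⊕ Fin g) ≠ Sum.inl i := fun h => hj (Sum.inl_injective h)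
      simp [h2]
    · simp

omit [CompactSpace X] [T2Space X] [MeasurableSpace X] [BorelSpace X] in
private theorem H21_lin_zero (p : X) : F.lin u v (fun _ => 0) p = 0 := by
  simp [Frame.lin]

/-- closed forms which are limits of exact forms are exact -/
theorem Frame.Lim.exact (hb : SymplBasis S g u v) (hF : F.Tame) (ha : F.Closed a)
    (hl : F.Lim a) : ∃ φ : X → ℝ, S.Smooth φ ∧ ∀ p, a p = F.d φ p := by
  obtain ⟨x, hx⟩ := ha.exists_cls hb
  have h0 : x = 0 := by
    apply H21_om
    intro y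
    rw [← Frame.Cls.wd_eq_om hb hF hx (Frame.Cls.lin y)]
    exact (hl.wd_eq_zero hF (F.closed_lin hb.smooth_u hb.smooth_v y)).1
  rw [h0] at hx
  obtain ⟨φ, hφ, h⟩ := hx
  refine ⟨φ, hφ, fun p => ?_⟩
  rw [h p]
  have : F.lin u v 0 p = 0 := H21_lin_zero p
  rw [this, zero_add]

theorem Frame.exists_harm (hb : SymplBasis S g u v) (hF : F.Tame) (x : Fin g ⊕ Fin g → ℝ) :
    ∃ a, F.Hol a ∧ F.Cls u v a x := by
  obtain ⟨b, h, hbc, hbl, hh, heq⟩ :=
    (F.closed_lin hb.smooth_u hb.smooth_v x).exists_decomp hF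
  obtain ⟨φ, hφ, hd⟩ := Frame.Lim.exact hb hF hbc hbl
  refine ⟨h, hh, ?_⟩
  have h1 : F.Cls u v (fun p => F.lin u v x p - F.d φ p) (fun i => x i - 0) :=
    (Frame.Cls.lin x).sub (Frame.Cls.exact hφ)
  have h2 : (fun p => F.lin u v x p - F.d φ p) = h := by
    funext p
    rw [heq p, hd p]
    ring
  rw [h2] at h1
  simpa using h1

theorem Frame.hol_harm (hb : SymplBasis S g u v) (hF : F.Tame) (x : Fin g ⊕ Fin g → ℝ) :
    F.Hol (F.harm u v x) :=
  (Classical.epsilon_spec (Frame.exists_harm hb hF x)).1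

theorem Frame.cls_harm (hb : SymplBasis S g u v) (hF : F.Tame) (x : Fin g ⊕ Fin g → ℝ) :
    F.Cls u v (F.harm u v x) x :=
  (Classical.epsilon_spec (Frame.exists_harm hb hF x)).2

private theorem H21_zero (hF : F.Tame) (ha : F.Hol a) {φ : X → ℝ} (hφ : S.Smooth φ)
    (h : ∀ p, a p = F.d φ p) : a = 0 := by
  have h1 : a = F.d φ := funext h
  have h2 : F.ip a a = 0 := by
    conv_lhs => rw [h1]
    rw [← h1]
    nth_rewrite 2 [h1]
    exact Frame.ip_hol_d hF hφ ha
  have h3 : F.en univ a = 0 := by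
    have := Frame.ip_self (F := F) (a := a)
    rw [h2] at this
    exact_mod_cast this.symm
  funext p
  exact Frame.eq_zero_of_en hF ha.closed h3 p

theorem Frame.eq_harm (hb : SymplBasis S g u v) (hF : F.Tame) (ha : F.Hol a)
    (hx : F.Cls u v a x) : a = F.harm u v x := by
  have hh := Frame.hol_harm hb hF x
  have hc := Frame.cls_harm hb hF x
  obtain ⟨φ, hφ, h1⟩ := hx
  obtain ⟨ψ, hψ, h2⟩ := hc
  have h3 : F.Hol (fun y => a y + (-1) * F.harm u v x y) := ha.add (hh.const_mul (-1))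
  have h4 : S.Smooth (fun p => φ p - ψ p) := fun p => (hφ p).sub (hψ p)
  have h5 : (fun y => a y + (-1) * F.harm u v x y) = 0 := by
    refine H21_zero hF h3 h4 ?_
    intro p
    rw [F.d_sub (hφ p) (hψ p), h1 p, h2 p]
    ring
  funext p
  have h6 := congrFun h5 p
  simp only [Pi.zero_apply] at h6
  linear_combination h6

theorem Frame.harm_add (hb : SymplBasis S g u v) (hF : F.Tame) :
    F.harm u v (fun i => x i + y i) = fun p => F.harm u v x p + F.harm u v y p :=
  (Frame.eq_harm hb hF ((Frame.hol_harm hb hF x).add (Frame.hol_harm hb hF y))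
    ((Frame.cls_harm hb hF x).add (Frame.cls_harm hb hF y))).symm

theorem Frame.harm_mul (hb : SymplBasis S g u v) (hF : F.Tame) (c : ℝ) :
    F.harm u v (fun i => c * x i) = fun p => c * F.harm u v x p :=
  (Frame.eq_harm hb hF ((Frame.hol_harm hb hF x).const_mul (c : ℂ))
    ((Frame.cls_harm hb hF x).const_mul c)).symm

private theorem H21_diff (hb : SymplBasis S g u v) (hF : F.Tame) (ha : F.Cls u v a x) :
    ∃ φ : X → ℝ, S.Smooth φ ∧ ∀ p, a p = F.harm u v x p + F.d φ p := by
  obtain ⟨φ, hφ, h1⟩ := ha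
  obtain ⟨ψ, hψ, h2⟩ := Frame.cls_harm hb hF x
  refine ⟨fun p => φ p - ψ p, fun p => (hφ p).sub (hψ p), fun p => ?_⟩
  rw [F.d_sub (hφ p) (hψ p), h1 p, h2 p]
  ring

/-- Dirichlet principle -/
theorem Frame.en_eq_harm (hb : SymplBasis S g u v) (hF : F.Tame) (ha : F.Cls u v a x) :
    ∃ φ : X → ℝ, S.Smooth φ ∧ (∀ p, a p = F.harm u v x p + F.d φ p) ∧
      F.en univ a = F.en univ (F.harm u v x) + F.en univ (F.d φ) := by
  obtain ⟨φ, hφ, h⟩ := H21_diff hb hF ha
  refine ⟨φ, hφ, h, ?_⟩
  have hh := Frame.hol_harm hb hF x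
  have h1 : a = fun p => F.harm u v x p + F.d φ p := funext h
  rw [h1, Frame.en_add (hh.closed.memLp hF) ((F.closed_d hφ).memLp hF), Frame.rp,
    Frame.ip_hol_d hF hφ hh]
  simp

theorem Frame.en_harm_le (hb : SymplBasis S g u v) (hF : F.Tame) (ha : F.Cls u v a x) :
    F.en univ (F.harm u v x) ≤ F.en univ a := by
  obtain ⟨φ, hφ, h, he⟩ := Frame.en_eq_harm hb hF ha
  rw [he]
  have := Frame.en_nonneg (F := F) (a := F.d φ) univ
  linarith

/-- product of a closed form with a harmonic form depends only on the class -/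
theorem Frame.ip_harm (hb : SymplBasis S g u v) (hF : F.Tame) (ha : F.Cls u v a x) (hh : F.Hol b) :
    F.ip a b = F.ip (F.harm u v x) b := by
  obtain ⟨φ, hφ, h⟩ := H21_diff hb hF ha
  have h1 : a = fun p => F.harm u v x p + F.d φ p := funext h
  rw [h1, Frame.ip_add_left ((Frame.hol_harm hb hF x).closed.memLp hF) ((F.closed_d hφ).memLp hF)
    (hh.closed.memLp hF), Frame.ip_d_hol hF hφ hh, add_zero]

/-- a harmonic circle map in every integral class -/
theorem Frame.exists_harm_circle (hb : SymplBasis S g u v) (hF : F.Tame)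
    (m : Fin g ⊕ Fin g → ℤ) : ∃ w : X → UnitAddCircle, S.SmoothC w ∧
      SameClass (comb u v m) w ∧ F.dC w = F.harm u v (fun i => (m i : ℝ)) := by
  obtain ⟨ψ, hψ, h⟩ := Frame.cls_harm hb hF (fun i => (m i : ℝ))
  have hc : S.SmoothC (comb u v m) := CS.SmoothC.comb hb.smooth_u hb.smooth_v m
  refine ⟨fun p => comb u v m p + (ψ p : UnitAddCircle), hc.add hψ.smoothC,
    ⟨ψ, hψ.continuous, fun p => rfl⟩, ?_⟩
  funext p
  rw [F.dC_add_coe hc hψ, F.dC_comb hb.smooth_u hb.smooth_v m, h p]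

end Pool.Agent.Lib.MP_cca10c_ag
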