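import Pool.Agent.Lib.MP_cca10c_ag.H21_Hodge

/-!
# Period matrices in terms of holomorphic forms (stub H22)

`F.IsPer u v Z`: for every `j` there is a holomorphic form `a dz` whose real part has class
`(e_j, Re Z_j)` and whose imaginary part (the form of `-i a`) has class `(0, Im Z_j)`.
From `IsPeriod`: `k = f + ∑ Z_jl k_l + h` is holomorphic near every point; its real and imaginary
parts are smooth, so `Re h`, `Im h` are smooth, and `a = F.d (Re k)`, `-i a = F.d (Im k)`.
Conversely put `h = φ + i ψ` with the functions `φ`, `ψ` of the two classes; lifts `f`, `k l` are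
smooth near `x` because they agree near `x` with smooth lifts up to constants (`LiftAt.unique`), and
`cgrad (Re k) = A`, `cgrad (Im k) = -i A` near `x` gives the Cauchy-Riemann equations.
-/

set_option autoImplicit false

open Topology Set MeasureTheory
open scoped ContDiff

namespace Pool.Agent.Lib.MP_cca10c_ag

/-- Cauchy-Riemann equations in terms of `cgrad` -/
theorem differentiableAt_of_cgrad {k : ℂ → ℂ} {z : ℂ}
    (hr : DifferentiableAt ℝ (fun w => (k w).re) z) (hi : DifferentiableAt ℝ (fun w => (k w).im) z)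
    (h : cgrad (fun w => (k w).im) z = -Complex.I * cgrad (fun w => (k w).re) z) :
    DifferentiableAt ℂ k z := by
  set A : ℂ := cgrad (fun w => (k w).re) z with hA
  have h1 := Complex.ofRealCLM.hasFDerivAt.comp z hr.hasFDerivAt
  have h2 := Complex.ofRealCLM.hasFDerivAt.comp z hi.hasFDerivAt
  have h3 := h1.add (h2.const_mul Complex.I)
  have h4 : HasFDerivAt (𝕜 := ℝ) k _ z := h3.congr_of_eventuallyEq (by
    refine Filter.Eventually.of_forall fun w => ?_
    show k w = ((k w).re : ℂ) + Complex.I * ((k w).im : ℂ)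
    rw [mul_comm]
    exact (Complex.re_add_im (k w)).symm)
  have h5 := hasFDerivAt_of_restrictScalars ℝ
    (f' := (ContinuousLinearMap.toSpanSingleton ℂ A : ℂ →L[ℂ] ℂ)) h4 (by
      ext v
      show v • A = ((fderiv ℝ (fun w => (k w).re) z v : ℝ) : ℂ) +
        Complex.I * ((fderiv ℝ (fun w => (k w).im) z v : ℝ) : ℂ)
      rw [fderiv_eq_cgrad, fderiv_eq_cgrad, h, ← hA, smul_eq_mul]
      apply Complex.ext
      · simp
        ring
      · simp
        ring)
  exact h5.differentiableAt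

variable {X : Type} [TopologicalSpace X] {S : CS X}
variable {g : ℕ} {u v : Fin g → X → UnitAddCircle} {Z : Matrix (Fin g) (Fin g) ℂ}

/-- the matrix of the holomorphic forms with `a`-periods `δ` -/
def Frame.IsPer (F : Frame S) (u v : Fin g → X → UnitAddCircle)
    (Z : Matrix (Fin g) (Fin g) ℂ) : Prop :=
  ∀ j, ∃ a : X → ℂ, F.Hol a ∧
    F.Cls u v a (Sum.elim (Pi.single j 1) (fun l => (Z j l).re)) ∧
    F.Cls u v (fun p => -Complex.I * a p) (Sum.elim (fun _ => 0) (fun l => (Z j l).im))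

private theorem H22_lin0 (F : Frame S) {p : X} {k : Fin g → X → ℝ}
    (hk : ∀ l, LiftAt (v l) (k l) p) (hks : ∀ l, S.SmoothAt (k l) p) (c : Fin g → ℝ) :
    F.lin u v (Sum.elim (fun _ => 0) c) p = F.d (fun y => ∑ l, c l * k l y) p := by
  rw [Frame.d_sum F fun l _ => (hks l).const_mul (c l)]
  unfold Frame.lin
  simp only [Sum.elim_inl, Sum.elim_inr, Complex.ofReal_zero, zero_mul, Finset.sum_const_zero,
    zero_add]
  refine Finset.sum_congr rfl fun l _ => ?_
  rw [Frame.d_const_mul F (c l) (hks l), Frame.dC_eq_d F (hk l) (hks l)]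

private theorem H22_lin1 (F : Frame S) {p : X} {j : Fin g} {f : X → ℝ} {k : Fin g → X → ℝ}
    (hf : LiftAt (u j) f p) (hfs : S.SmoothAt f p)
    (hk : ∀ l, LiftAt (v l) (k l) p) (hks : ∀ l, S.SmoothAt (k l) p) (c : Fin g → ℝ) :
    F.lin u v (Sum.elim (Pi.single j 1) c) p = F.d (fun y => f y + ∑ l, c l * k l y) p := by
  rw [Frame.d_add F hfs (CS.SmoothAt.sum fun l _ => (hks l).const_mul (c l)),
    ← H22_lin0 (u := u) F hk hks c]
  unfold Frame.lin
  simp only [Sum.elim_inl, Sum.elim_inr, Complex.ofReal_zero, zero_mul, Finset.sum_const_zero,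
    zero_add]
  congr 1
  rw [Finset.sum_eq_single j]
  · rw [Pi.single_eq_same, Complex.ofReal_one, one_mul, Frame.dC_eq_d F hf hfs]
  · intro i _ hij
    rw [Pi.single_eq_of_ne hij, Complex.ofReal_zero, zero_mul]
  · intro h
    exact absurd (Finset.mem_univ _) h

private theorem H22_re {j : Fin g} {f : X → ℝ} {k : Fin g → X → ℝ} {h : X → ℂ} (y : X) :
    ((f y : ℂ) + ∑ l, Z j l * (k l y : ℂ) + h y).re =
      (f y + ∑ l, (Z j l).re * k l y) + (h y).re := by
  simp [Complex.re_sum, Complex.mul_re]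

private theorem H22_im {j : Fin g} {f : X → ℝ} {k : Fin g → X → ℝ} {h : X → ℂ} (y : X) :
    ((f y : ℂ) + ∑ l, Z j l * (k l y : ℂ) + h y).im =
      (∑ l, (Z j l).im * k l y) + (h y).im := by
  simp [Complex.im_sum, Complex.mul_im]

private theorem H22_holD (F : Frame S) {K : X → ℂ} {p : X} (hK : S.HolAt K p) :
    F.d (fun y => (K y).im) p = -Complex.I * F.d (fun y => (K y).re) p := by
  have h1 : DifferentiableAt ℂ (K ∘ (F.ch p).symm) (F.ch p p) :=
    (hK _ (F.ch_mem p) (F.mem_ch p)).self_of_nhds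
  have h2 := cgrad_re h1
  have h3 := cgrad_im h1
  have h4 : F.d (fun y => (K y).im) p = -Complex.I * deriv (K ∘ (F.ch p).symm) (F.ch p p) := h3
  have h5 : F.d (fun y => (K y).re) p = deriv (K ∘ (F.ch p).symm) (F.ch p p) := h2
  rw [h4, h5]

private theorem H22_lifts (hu : ∀ j, S.SmoothC (u j)) (hv : ∀ j, S.SmoothC (v j)) (j : Fin g)
    (x : X) : ∃ (f : X → ℝ) (k : Fin g → X → ℝ), LiftAt (u j) f x ∧ (∀ l, LiftAt (v l) (k l) x) ∧
      S.SmoothNear f x ∧ ∀ l, S.SmoothNear (k l) x := by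
  obtain ⟨f, hf, hfs⟩ := (hu j).exists_lift x
  choose k hk hks using fun l => (hv l).exists_lift x
  exact ⟨f, k, hf, hk, hfs, hks⟩

private theorem H22_near {f : X → ℝ} {w : X → UnitAddCircle} {x : X} (hf : LiftAt w f x)
    (hfs : S.SmoothNear f x) : ∀ᶠ y in 𝓝 x, LiftAt w f y ∧ S.SmoothAt f y := by
  have h1 : ∀ᶠ y in 𝓝 x, ContinuousAt f y := hfs.mono fun y hy => hy.continuousAt
  exact (hf.eventually h1).and hfs

theorem IsPeriod.isPer (h : IsPeriod S u v Z) (F : Frame S) : F.IsPer u v Z := by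
  intro j
  obtain ⟨hb, hper⟩ := h
  obtain ⟨h, hc, hh⟩ := hper j
  -- the parts of `h` are smooth
  have hre : S.Smooth (fun y => (h y).re) := by
    intro x
    obtain ⟨f, k, hf, hk, hfs, hks⟩ := H22_lifts hb.smooth_u hb.smooth_v j x
    have h1 := (hh x f k hf hk).smoothAt_re
    have h2 : S.SmoothAt (fun y => f y + ∑ l, (Z j l).re * k l y) x :=
      hfs.smoothAt.add (CS.SmoothAt.sum fun l _ => (hks l).smoothAt.const_mul _)
    refine (h1.sub h2).congr (Filter.Eventually.of_forall fun y => ?_)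
    show (h y).re = ((f y : ℂ) + ∑ l, Z j l * (k l y : ℂ) + h y).re -
      (f y + ∑ l, (Z j l).re * k l y)
    rw [H22_re]
    ring
  have him : S.Smooth (fun y => (h y).im) := by
    intro x
    obtain ⟨f, k, hf, hk, hfs, hks⟩ := H22_lifts hb.smooth_u hb.smooth_v j x
    have h1 := (hh x f k hf hk).smoothAt_im
    have h2 : S.SmoothAt (fun y => ∑ l, (Z j l).im * k l y) x :=
      CS.SmoothAt.sum fun l _ => (hks l).smoothAt.const_mul _
    refine (h1.sub h2).congr (Filter.Eventually.of_forall fun y => ?_)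
    show (h y).im = ((f y : ℂ) + ∑ l, Z j l * (k l y : ℂ) + h y).im -
      ∑ l, (Z j l).im * k l y
    rw [H22_im]
    ring
  -- the form and its conjugate at a point with lifts
  have key : ∀ (p : X) (f : X → ℝ) (k : Fin g → X → ℝ), LiftAt (u j) f p → S.SmoothAt f p →
      (∀ l, LiftAt (v l) (k l) p) → (∀ l, S.SmoothAt (k l) p) →
      (F.lin u v (Sum.elim (Pi.single j 1) (fun l => (Z j l).re)) p +
        F.d (fun y => (h y).re) p =
        F.d (fun y => ((f y : ℂ) + ∑ l, Z j l * (k l y : ℂ) + h y).re) p) ∧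
      (F.lin u v (Sum.elim (fun _ => 0) (fun l => (Z j l).im)) p +
        F.d (fun y => (h y).im) p =
        F.d (fun y => ((f y : ℂ) + ∑ l, Z j l * (k l y : ℂ) + h y).im) p) := by
    intro p f k hf hfs hk hks
    constructor
    · rw [H22_lin1 F hf hfs hk hks, ← Frame.d_add F
        (hfs.add (CS.SmoothAt.sum fun l _ => (hks l).const_mul _)) (hre p)]
      exact Frame.d_congr F (Filter.Eventually.of_forall fun y => (H22_re y).symm)
    · rw [H22_lin0 F hk hks, ← Frame.d_add F
        (CS.SmoothAt.sum fun l _ => (hks l).const_mul _) (him p)]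
      exact Frame.d_congr F (Filter.Eventually.of_forall fun y => (H22_im y).symm)
  refine ⟨fun p => F.lin u v (Sum.elim (Pi.single j 1) (fun l => (Z j l).re)) p +
    F.d (fun y => (h y).re) p, ?_, ⟨_, hre, fun p => rfl⟩, ⟨_, him, fun p => ?_⟩⟩
  · refine Frame.holIn_of_primitive isOpen_univ fun x _ => ?_
    obtain ⟨f, k, hf, hk, hfs, hks⟩ := H22_lifts hb.smooth_u hb.smooth_v j x
    refine ⟨_, hh x f k hf hk, ?_⟩
    have h1 := H22_near hf hfs
    have h2 : ∀ᶠ y in 𝓝 x, ∀ l, LiftAt (v l) (k l) y ∧ S.SmoothAt (k l) y :=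
      Filter.eventually_all.2 fun l => H22_near (hk l) (hks l)
    filter_upwards [h1, h2] with y hy1 hy2
    exact (key y f k hy1.1 hy1.2 (fun l => (hy2 l).1) (fun l => (hy2 l).2)).1
  · obtain ⟨f, k, hf, hk, hfs, hks⟩ := H22_lifts hb.smooth_u hb.smooth_v j p
    have h1 := key p f k hf hfs.smoothAt hk (fun l => (hks l).smoothAt)
    show -Complex.I * (F.lin u v (Sum.elim (Pi.single j 1) (fun l => (Z j l).re)) p +
      F.d (fun y => (h y).re) p) = _
    rw [h1.1, h1.2, ← H22_holD F (hh p f k hf hk)]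

theorem Frame.IsPer.isPeriod {F : Frame S} (hb : SymplBasis S g u v) (h : F.IsPer u v Z) :
    IsPeriod S u v Z := by
  refine ⟨hb, fun j => ?_⟩
  obtain ⟨a, -, ⟨φ, hφ, hφa⟩, ⟨ψ, hψ, hψa⟩⟩ := h j
  have hcont : Continuous (fun y => (φ y : ℂ) + Complex.I * (ψ y : ℂ)) :=
    (Complex.continuous_ofReal.comp hφ.continuous).add
      (continuous_const.mul (Complex.continuous_ofReal.comp hψ.continuous))
  refine ⟨fun y => (φ y : ℂ) + Complex.I * (ψ y : ℂ), hcont, ?_⟩
  intro x f k hf hk
  have hre : ∀ y, ((φ y : ℂ) + Complex.I * (ψ y : ℂ)).re = φ y := by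
    intro y
    simp
  have him : ∀ y, ((φ y : ℂ) + Complex.I * (ψ y : ℂ)).im = ψ y := by
    intro y
    simp
  -- the lifts are smooth near `x`
  have hnear : ∀ {w : X → UnitAddCircle} {f : X → ℝ}, S.SmoothC w → LiftAt w f x →
      S.SmoothNear f x := by
    intro w f hw hf
    obtain ⟨f0, hf0, hf0s⟩ := hw.exists_lift x
    obtain ⟨n, hn⟩ := hf0.unique hf
    have hn' := eventually_eventually_nhds.2 hn
    unfold CS.SmoothNear at hf0s ⊢
    filter_upwards [hf0s, hn'] with y hy1 hy2
    exact (hy1.add (CS.SmoothAt.const (n : ℝ))).congr hy2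
  have hfs := hnear (hb.smooth_u j) hf
  have hks := fun l => hnear (hb.smooth_v l) (hk l)
  have h1 := H22_near hf hfs
  have h2 : ∀ᶠ y in 𝓝 x, ∀ l, LiftAt (v l) (k l) y ∧ S.SmoothAt (k l) y :=
    Filter.eventually_all.2 fun l => H22_near (hk l) (hks l)
  intro e he hx
  have h3 : ∀ᶠ z in 𝓝 (e x), z ∈ e.target := e.open_target.mem_nhds (e.map_source hx)
  have h4 := (e.tendsto_symm hx).eventually (h1.and h2)
  filter_upwards [h3, h4] with z hz hy
  obtain ⟨⟨hy1, hy1s⟩, hy2⟩ := hy
  set y := e.symm z with hyz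
  have hye : y ∈ e.source := e.map_target hz
  have hez : e y = z := e.right_inv hz
  have hk1 := fun l => (hy2 l).1
  have hk2 := fun l => (hy2 l).2
  set K : X → ℂ := fun y => (f y : ℂ) + ∑ l, Z j l * (k l y : ℂ) +
    ((φ y : ℂ) + Complex.I * (ψ y : ℂ)) with hK
  have hKr : (fun y => (K y).re) = fun y => (f y + ∑ l, (Z j l).re * k l y) + φ y := by
    funext y
    rw [hK]
    simp only
    rw [H22_re (h := fun y => (φ y : ℂ) + Complex.I * (ψ y : ℂ)), hre]
  have hKi : (fun y => (K y).im) = fun y => (∑ l, (Z j l).im * k l y) + ψ y := by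
    funext y
    rw [hK]
    simp only
    rw [H22_im (h := fun y => (φ y : ℂ) + Complex.I * (ψ y : ℂ)), him]
  have sm1 : S.SmoothAt (fun y => f y + ∑ l, (Z j l).re * k l y) y :=
    hy1s.add (CS.SmoothAt.sum fun l _ => (hk2 l).const_mul _)
  have sm2 : S.SmoothAt (fun y => ∑ l, (Z j l).im * k l y) y :=
    CS.SmoothAt.sum fun l _ => (hk2 l).const_mul _
  have sr : S.SmoothAt (fun y => (K y).re) y := by
    rw [hKr]
    exact sm1.add (hφ y)
  have si : S.SmoothAt (fun y => (K y).im) y := by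
    rw [hKi]
    exact sm2.add (hψ y)
  have dr : F.d (fun y => (K y).re) y = a y := by
    rw [hKr, Frame.d_add F sm1 (hφ y), ← H22_lin1 F hy1 hy1s hk1 hk2, hφa]
  have di : F.d (fun y => (K y).im) y = -Complex.I * a y := by
    rw [hKi, Frame.d_add F sm2 (hψ y), ← H22_lin0 F hk1 hk2]
    exact (hψa y).symm
  have c1 := Frame.co_d F he hye sr
  have c2 := Frame.co_d F he hye si
  rw [hez] at c1 c2
  have c3 : F.co e (F.d fun y => (K y).im) z = -Complex.I * F.co e (F.d fun y => (K y).re) z := by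
    unfold Frame.co
    rw [← hyz, dr, di]
    ring
  rw [c1, c2] at c3
  have e1 : DifferentiableAt ℝ ((fun y => (K y).re) ∘ e.symm) z := by
    have := (sr e he hye).differentiableAt (by simp)
    rwa [hez] at this
  have e2 : DifferentiableAt ℝ ((fun y => (K y).im) ∘ e.symm) z := by
    have := (si e he hye).differentiableAt (by simp)
    rwa [hez] at this
  exact differentiableAt_of_cgrad (k := K ∘ e.symm) e1 e2 c3

end Pool.Agent.Lib.MP_cca10c_ag
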