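import Pool.Agent.Lib.MP_cca10c_ag.P01_PZ
import Pool.Agent.Lib.MP_cca10c_ag.H22_IsPer

/-!
# The period matrix exists, lies in the Siegel space, and gives the norm of the classes (stub H23)

For harmonic `a`, `b` with classes `x`, `y`, and `x'`, `y'` the classes of `-i a`, `-i b`:
`ip (-i a) (-i b) = ip a b`, so `om x y = om x' y'`; `wd a (-i b) = rp a b`, so
`rp a b = om x y'`. With the forms `a_j` of `IsPer` and `x_j = (e_j, Re Z_j)`, `x_j' = (0, Im Z_j)`:
`om x_j x_k = Re Z_kj - Re Z_jk = om x_j' x_k' = 0` and `rp a_j a_k = om x_j x_k' = Im Z_kj`.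
So `Z` is symmetric and `ip a_j a_k = Im Z_jk`; positivity because `∑ c_j a_j = 0` only for `c = 0`.
Quadratic form: with `c = m + i t`, `t = Y⁻¹ (X m - n)`, the form `A = ∑ c_j a_j` is harmonic with
class `(m, X m - Y t) = (m, n)` and `ip A A = mᵀ Y m + tᵀ Y t`, compare `QF_PZ`.
Existence: the real linear map `x ↦ (first half of x, first half of the class of -i harm x)` of
`ℝ^(2g)` is injective, because `om x x' = en (harm x)`; take `x_j` with image `(e_j, 0)`.
-/

set_option autoImplicit false

open Topology Set MeasureTheory Matrix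
open scoped ContDiff

namespace Pool.Agent.Lib.MP_cca10c_ag

variable {X : Type} [TopologicalSpace X] [CompactSpace X] [T2Space X] {S : CS X}
variable {g : ℕ} {u v : Fin g → X → UnitAddCircle} {Z : Matrix (Fin g) (Fin g) ℂ}

section aux

variable {F : Frame S} [MeasurableSpace X] [BorelSpace X] {a b : X → ℂ}
variable {x y y' : Fin g ⊕ Fin g → ℝ}

private theorem H23_rot (hb : SymplBasis S g u v) (hF : F.Tame) (ha : F.Cls u v a x)
    (hb' : F.Cls u v (fun p => -Complex.I * b p) y') : F.rp a b = om x y' := by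
  rw [← Frame.Cls.wd_eq_om hb hF ha hb']
  unfold Frame.wd Frame.rp
  rw [Frame.ip_const_mul_right]
  simp

private theorem H23_rotrot :
    F.ip (fun p => -Complex.I * a p) (fun p => -Complex.I * b p) = F.ip a b := by
  rw [Frame.ip_const_mul_left, Frame.ip_const_mul_right, ← mul_assoc]
  simp

private theorem H23_ip_sum {n : ℕ} {A B : Fin n → X → ℂ} (hA : ∀ j, MemLp (A j) 2 F.nu)
    (hB : ∀ j, MemLp (B j) 2 F.nu) (c d : Fin n → ℂ) :
    F.ip (fun p => ∑ j, c j * A j p) (fun p => ∑ k, d k * B k p) =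
      ∑ j, ∑ k, c j * starRingEnd ℂ (d k) * F.ip (A j) (B k) := by
  unfold Frame.ip
  have h1 : ∀ p, (∑ j, c j * A j p) * starRingEnd ℂ (∑ k, d k * B k p) =
      ∑ j, ∑ k, (c j * starRingEnd ℂ (d k)) * (A j p * starRingEnd ℂ (B k p)) := by
    intro p
    rw [map_sum, Finset.sum_mul_sum]
    refine Finset.sum_congr rfl fun j _ => Finset.sum_congr rfl fun k _ => ?_
    rw [map_mul]
    ring
  simp_rw [h1]
  rw [integral_finsetSum]
  · refine Finset.sum_congr rfl fun j _ => ?_
    rw [integral_finsetSum]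
    · refine Finset.sum_congr rfl fun k _ => ?_
      rw [integral_const_mul]
    · intro k _
      exact (Frame.integrable_mul_conj (hA j) (hB k)).const_mul _
  · intro j _
    exact integrable_finsetSum _ fun k _ =>
      (Frame.integrable_mul_conj (hA j) (hB k)).const_mul _

private theorem H23_cls_zero : F.Cls u v (fun _ => 0) (fun _ => 0) := by
  have h1 : F.Cls u v (F.d (fun _ => (0 : ℝ))) (fun _ => 0) :=
    Frame.Cls.exact (fun _ => CS.SmoothAt.const 0)
  have h2 : F.d (fun _ => (0 : ℝ)) = (fun _ => 0 : X → ℂ) := funext fun p => F.d_const 0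
  rwa [h2] at h1

private theorem H23_cls_sum {n : ℕ} {A : Fin n → X → ℂ} {x : Fin n → Fin g ⊕ Fin g → ℝ}
    (h : ∀ j, F.Cls u v (A j) (x j)) (c : Fin n → ℝ) (s : Finset (Fin n)) :
    F.Cls u v (fun p => ∑ j ∈ s, (c j : ℂ) * A j p) (fun i => ∑ j ∈ s, c j * x j i) := by
  classical
  induction s using Finset.induction_on with
  | empty => simpa using H23_cls_zero
  | insert j s hj ih =>
    simp only [Finset.sum_insert hj]
    exact ((h j).const_mul (c j)).add ih

private theorem H23_hol_sum {n : ℕ} {A : Fin n → X → ℂ} (h : ∀ j, F.Hol (A j)) (c : Fin n → ℂ)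
    (s : Finset (Fin n)) : F.Hol (fun p => ∑ j ∈ s, c j * A j p) := by
  classical
  induction s using Finset.induction_on with
  | empty =>
    intro e he
    have : F.co e (fun _ => (0 : ℂ)) = fun _ => 0 := by
      funext z
      simp [Frame.co]
    simp only [Finset.sum_empty]
    rw [this]
    exact differentiableOn_const _
  | insert j s hj ih =>
    simp only [Finset.sum_insert hj]
    exact ((h j).const_mul (c j)).add ih

private theorem H23_om_single (j : Fin g) (p q : Fin g → ℝ) :
    om (Sum.elim (Pi.single j 1) p) (Sum.elim (fun _ => 0) q) = q j := by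
  classical
  unfold om
  simp [Pi.single_apply]

private theorem H23_om_single2 (j k : Fin g) (p q : Fin g → ℝ) :
    om (Sum.elim (Pi.single j 1) p) (Sum.elim (Pi.single k 1) q) = q j - p k := by
  classical
  unfold om
  simp [Pi.single_apply, Finset.sum_sub_distrib]

private theorem H23_om_zero (p q : Fin g → ℝ) :
    om (Sum.elim (fun _ => 0) p) (Sum.elim (fun _ => 0) q) = 0 := by
  unfold om
  simp

/-- the basic relations of the forms of a period matrix -/
private theorem H23_data (hb : SymplBasis S g u v) (hF : F.Tame) (h : F.IsPer u v Z) :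
    Z.transpose = Z ∧ ∃ A : Fin g → X → ℂ, (∀ j, F.Hol (A j)) ∧
      (∀ j, F.Cls u v (A j) (Sum.elim (Pi.single j 1) (fun l => (Z j l).re))) ∧
      (∀ j, F.Cls u v (fun p => -Complex.I * A j p)
        (Sum.elim (fun _ => 0) (fun l => (Z j l).im))) ∧
      ∀ j k, F.ip (A j) (A k) = ((Z j k).im : ℂ) := by
  choose A hA hc hc' using h
  have h1 : ∀ j k, F.wd (A j) (A k) = 0 := by
    intro j k
    have h2 := Frame.Cls.wd_eq_om hb hF (hc' j) (hc' k)
    unfold Frame.wd at h2 ⊢
    rw [H23_rotrot, H23_om_zero] at h2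
    exact h2
  have h3 : ∀ j k, (Z k j).re = (Z j k).re := by
    intro j k
    have h2 := Frame.Cls.wd_eq_om hb hF (hc j) (hc k)
    rw [h1, H23_om_single2] at h2
    linarith
  have h4 : ∀ j k, F.rp (A j) (A k) = (Z k j).im := by
    intro j k
    rw [H23_rot hb hF (hc j) (hc' k), H23_om_single]
  have h5 : ∀ j k, (Z k j).im = (Z j k).im := by
    intro j k
    rw [← h4 j k, ← h4 k j]
    unfold Frame.rp
    rw [Frame.ip_conj_symm (a := A k) (b := A j)]
    simp
  refine ⟨?_, A, hA, hc, hc', ?_⟩
  · ext j k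
    rw [Matrix.transpose_apply]
    exact Complex.ext (h3 j k) (h5 j k)
  · intro j k
    apply Complex.ext
    · have := h4 j k
      unfold Frame.rp at this
      rw [this, h5 j k]
      simp
    · have := h1 j k
      unfold Frame.wd at this
      rw [this]
      simp

private theorem H23_en (hF : F.Tame) {A : Fin g → X → ℂ} (hA : ∀ j, F.Hol (A j))
    (hip : ∀ j k, F.ip (A j) (A k) = ((Z j k).im : ℂ)) (m t : Fin g → ℝ) :
    F.en univ (fun p => ∑ j, ((m j : ℂ) + Complex.I * t j) * A j p) =
      m ⬝ᵥ ((Z.map Complex.im) *ᵥ m) + t ⬝ᵥ ((Z.map Complex.im) *ᵥ t) +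
        ∑ j, ∑ k, 0 * (Z j k).im := by
  have hm : ∀ j, MemLp (A j) 2 F.nu := fun j => (hA j).closed.memLp hF
  have h1 := Frame.ip_self (F := F) (a := fun p => ∑ j, ((m j : ℂ) + Complex.I * t j) * A j p)
  rw [H23_ip_sum hm hm] at h1
  have h2 := congrArg Complex.re h1
  rw [Complex.ofReal_re] at h2
  rw [← h2, Complex.re_sum]
  simp only [zero_mul, Finset.sum_const_zero, add_zero]
  simp only [dotProduct, Matrix.mulVec, Matrix.map_apply]
  rw [← Finset.sum_add_distrib]
  refine Finset.sum_congr rfl fun j _ => ?_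
  rw [Complex.re_sum, Finset.mul_sum, Finset.mul_sum, ← Finset.sum_add_distrib]
  refine Finset.sum_congr rfl fun k _ => ?_
  rw [hip j k]
  simp
  ring

end aux

theorem exists_isPeriod (hb : SymplBasis S g u v) : ∃ Z, IsPeriod S u v Z := by
  let _ : MeasurableSpace X := borel X
  have : BorelSpace X := ⟨rfl⟩
  obtain ⟨F, hF⟩ := S.exists_tame
  have hex : ∀ x : Fin g ⊕ Fin g → ℝ, ∃ y, F.Cls u v (fun p => -Complex.I * F.harm u v x p) y :=
    fun x => (Frame.Hol.closed ((Frame.hol_harm hb hF x).const_mul (-Complex.I))).exists_cls hb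
  choose J hJ using hex
  have hadd : ∀ x y, J (x + y) = J x + J y := by
    intro x y
    have h1 : (fun p => -Complex.I * F.harm u v (x + y) p) =
        fun p => -Complex.I * F.harm u v x p + -Complex.I * F.harm u v y p := by
      funext p
      have h2 : F.harm u v (x + y) = fun p => F.harm u v x p + F.harm u v y p :=
        Frame.harm_add hb hF (x := x) (y := y)
      rw [h2]
      ring
    have h2 := (hJ x).add (hJ y)
    rw [← h1] at h2
    exact Frame.Cls.unique hb hF (hJ (x + y)) h2
  have hsmul : ∀ (c : ℝ) x, J (c • x) = c • J x := by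
    intro c x
    have h1 : (fun p => -Complex.I * F.harm u v (c • x) p) =
        fun p => (c : ℂ) * (-Complex.I * F.harm u v x p) := by
      funext p
      have h2 : F.harm u v (c • x) = fun p => (c : ℂ) * F.harm u v x p :=
        Frame.harm_mul hb hF (x := x) c
      rw [h2]
      ring
    have h2 := (hJ x).const_mul c
    rw [← h1] at h2
    exact Frame.Cls.unique hb hF (hJ (c • x)) h2
  let T : (Fin g ⊕ Fin g → ℝ) →ₗ[ℝ] (Fin g ⊕ Fin g → ℝ) :=
    { toFun := fun x => Sum.elim (fun j => x (Sum.inl j)) (fun j => J x (Sum.inl j))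
      map_add' := by
        intro x y
        funext i
        rcases i with i | i
        · simp
        · simp [hadd]
      map_smul' := by
        intro c x
        funext i
        rcases i with i | i
        · simp
        · simp [hsmul] }
  have hinj : Function.Injective T := by
    rw [← LinearMap.ker_eq_bot, LinearMap.ker_eq_bot']
    intro x hx
    have h1 : ∀ j, x (Sum.inl j) = 0 := fun j => congrFun hx (Sum.inl j)
    have h2 : ∀ j, J x (Sum.inl j) = 0 := fun j => congrFun hx (Sum.inr j)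
    have h3 : om x (J x) = 0 := by
      unfold om
      simp [h1, h2]
    have h4 : F.rp (F.harm u v x) (F.harm u v x) = 0 := by
      rw [H23_rot hb hF (Frame.cls_harm hb hF x) (hJ x), h3]
    have h5 : F.en univ (F.harm u v x) = 0 := by
      unfold Frame.rp at h4
      rw [Frame.ip_self] at h4
      exact_mod_cast h4
    have h6 : F.harm u v x = fun _ => 0 := funext fun p =>
      Frame.eq_zero_of_en hF (Frame.hol_harm hb hF x).closed h5 p
    have h7 := Frame.cls_harm hb hF x
    rw [h6] at h7
    exact Frame.Cls.unique hb hF h7 H23_cls_zero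
  have hsurj := LinearMap.injective_iff_surjective.1 hinj
  choose y hy using fun j : Fin g => hsurj (Sum.elim (Pi.single j 1) (fun _ => 0))
  refine ⟨Matrix.of fun j l => ⟨y j (Sum.inr l), J (y j) (Sum.inr l)⟩,
    Frame.IsPer.isPeriod (F := F) hb ?_⟩
  intro j
  refine ⟨F.harm u v (y j), Frame.hol_harm hb hF _, ?_, ?_⟩
  · have h1 : y j = Sum.elim (Pi.single j 1) (fun l => (Matrix.of (fun j l =>
        (⟨y j (Sum.inr l), J (y j) (Sum.inr l)⟩ : ℂ)) j l).re) := by
      funext i
      rcases i with l | l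
      · exact congrFun (hy j) (Sum.inl l)
      · rfl
    rw [← h1]
    exact Frame.cls_harm hb hF _
  · have h1 : J (y j) = Sum.elim (fun _ => 0) (fun l => (Matrix.of (fun j l =>
        (⟨y j (Sum.inr l), J (y j) (Sum.inr l)⟩ : ℂ)) j l).im) := by
      funext i
      rcases i with l | l
      · exact congrFun (hy j) (Sum.inr l)
      · rfl
    rw [← h1]
    exact hJ _

theorem IsPeriod.mem_siegel (h : IsPeriod S u v Z) : Z ∈ Siegel g := by
  let _ : MeasurableSpace X := borel X
  have : BorelSpace X := ⟨rfl⟩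
  obtain ⟨F, hF⟩ := S.exists_tame
  have hb : SymplBasis S g u v := h.1
  obtain ⟨hsymm, A, hA, hc, hc', hip⟩ := H23_data hb hF (h.isPer F)
  refine ⟨hsymm, Matrix.PosDef.of_dotProduct_mulVec_pos ?_ ?_⟩
  · unfold Matrix.IsHermitian
    rw [Matrix.conjTranspose_eq_transpose_of_trivial, ← Matrix.transpose_map, hsymm]
  · intro m hm
    rw [star_trivial]
    have h1 := H23_en hF hA hip m 0
    simp only [zero_mul, Finset.sum_const_zero, add_zero, Matrix.mulVec_zero, dotProduct_zero]
      at h1
    rw [← h1]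
    refine lt_of_le_of_ne (Frame.en_nonneg _) fun h0 => hm ?_
    have h2 : F.Cls u v (fun p => ∑ j, (m j : ℂ) * A j p) (fun i => ∑ j, m j *
        (Sum.elim (Pi.single j 1) (fun l => (Z j l).re) : Fin g ⊕ Fin g → ℝ) i) :=
      H23_cls_sum hc m Finset.univ
    have h3 : F.Hol (fun p => ∑ j, (m j : ℂ) * A j p) := H23_hol_sum hA _ Finset.univ
    have h4 : (fun p => ∑ j, ((m j : ℂ) + Complex.I * ((0 : Fin g → ℝ) j : ℝ)) * A j p) =
        fun p => ∑ j, (m j : ℂ) * A j p := by
      funext p
      simp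
    rw [h4] at h0
    have h5 : (fun p => ∑ j, (m j : ℂ) * A j p) = fun _ => (0 : ℂ) := funext fun p =>
      Frame.eq_zero_of_en hF h3.closed h0.symm p
    rw [h5] at h2
    have h6 := Frame.Cls.unique hb hF h2 H23_cls_zero
    funext l
    have h7 := congrFun h6 (Sum.inl l)
    simpa [Pi.single_apply] using h7

theorem IsPeriod.mem_schottky [ConnectedSpace X] (h : IsPeriod S u v Z) : Z ∈ Schottky g :=
  ⟨h.mem_siegel, X, inferInstance, inferInstance, inferInstance, inferInstance, S, u, v, h⟩

variable {F : Frame S} [MeasurableSpace X] [BorelSpace X]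

/-- the energy of the harmonic form of a class -/
theorem IsPeriod.quad (h : IsPeriod S u v Z) (hF : F.Tame) (x : Fin g ⊕ Fin g → ℝ) :
    QF (PZ Z) x = F.en univ (F.harm u v x) := by
  have hZ := h.mem_siegel
  have hb : SymplBasis S g u v := h.1
  obtain ⟨hsymm, A, hA, hc, hc', hip⟩ := H23_data hb hF (h.isPer F)
  obtain ⟨m, hm⟩ : ∃ m : Fin g → ℝ, m = x ∘ Sum.inl := ⟨_, rfl⟩
  obtain ⟨n, hn⟩ : ∃ n : Fin g → ℝ, n = x ∘ Sum.inr := ⟨_, rfl⟩
  have hx : x = Sum.elim m n := by rw [hm, hn, Sum.elim_comp_inl_inr]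
  set Y : Matrix (Fin g) (Fin g) ℝ := Z.map Complex.im with hY
  set R : Matrix (Fin g) (Fin g) ℝ := Z.map Complex.re with hR
  have hdet : IsUnit Y.det := (Matrix.isUnit_iff_isUnit_det _).1 hZ.2.isUnit
  set w : Fin g → ℝ := R *ᵥ m - n with hw
  set t : Fin g → ℝ := Y⁻¹ *ᵥ w with ht
  have hYt : Y *ᵥ t = w := by
    rw [ht, Matrix.mulVec_mulVec, Matrix.mul_nonsing_inv _ hdet, Matrix.one_mulVec]
  have h1 := H23_en hF hA hip m t
  simp only [zero_mul, Finset.sum_const_zero, add_zero] at h1
  have hcls : F.Cls u v (fun p => ∑ j, ((m j : ℂ) + Complex.I * t j) * A j p) x := by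
    have h2 : F.Cls u v (fun p => ∑ j, (m j : ℂ) * A j p) (fun i => ∑ j, m j *
        (Sum.elim (Pi.single j 1) (fun l => (Z j l).re) : Fin g ⊕ Fin g → ℝ) i) :=
      H23_cls_sum hc m Finset.univ
    have h3 := H23_cls_sum hc' (fun j => - t j) Finset.univ
    have h4 := h2.add h3
    have h5 : (fun p => ∑ j, ((m j : ℂ) + Complex.I * t j) * A j p) =
        fun p => ∑ j, (m j : ℂ) * A j p +
          ∑ j, (((fun j => - t j) j : ℝ) : ℂ) * (-Complex.I * A j p) := by
      funext p
      rw [← Finset.sum_add_distrib]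
      refine Finset.sum_congr rfl fun j _ => ?_
      push_cast
      ring
    rw [h5]
    convert h4 using 1
    funext i
    rcases i with l | l
    · rw [hx]
      simp [Pi.single_apply]
    · rw [hx]
      have h6 : (R *ᵥ m) l = ∑ j, m j * (Z j l).re := by
        simp only [Matrix.mulVec, dotProduct, hR, Matrix.map_apply]
        refine Finset.sum_congr rfl fun j _ => ?_
        have : Z l j = Z j l := by
          conv_lhs => rw [← hsymm]
          rfl
        rw [this, mul_comm]
      have h7 : (Y *ᵥ t) l = ∑ j, t j * (Z j l).im := by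
        simp only [Matrix.mulVec, dotProduct, hY, Matrix.map_apply]
        refine Finset.sum_congr rfl fun j _ => ?_
        have : Z l j = Z j l := by
          conv_lhs => rw [← hsymm]
          rfl
        rw [this, mul_comm]
      have h8 : (Y *ᵥ t) l = (R *ᵥ m) l - n l := by
        rw [hYt, hw]
        rfl
      simp only [Sum.elim_inr, neg_mul, Finset.sum_neg_distrib]
      rw [← h6, ← h7, h8]
      ring
  have hhol : F.Hol (fun p => ∑ j, ((m j : ℂ) + Complex.I * t j) * A j p) :=
    H23_hol_sum hA _ Finset.univ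
  rw [← Frame.eq_harm hb hF hhol hcls, h1, hx, QF_PZ Z m n hZ, ← hY, ← hR, hYt]
  congr 1
  have h9 : n - R *ᵥ m = -w := by
    rw [hw]
    simp
  rw [h9, Matrix.mulVec_neg, neg_dotProduct_neg, ← ht, dotProduct_comm]

/-- the minimum property -/
theorem IsPeriod.quad_le (h : IsPeriod S u v Z) (hF : F.Tame) {a : X → ℂ}
    {x : Fin g ⊕ Fin g → ℝ} (ha : F.Cls u v a x) : QF (PZ Z) x ≤ F.en univ a := by
  rw [h.quad hF]
  exact Frame.en_harm_le h.1 hF ha

omit [MeasurableSpace X] [BorelSpace X] in
/-- Cauchy-Schwarz -/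
theorem IsPeriod.om_sq_le (h : IsPeriod S u v Z) (x y : Fin g ⊕ Fin g → ℝ) :
    om x y ^ 2 ≤ QF (PZ Z) x * QF (PZ Z) y := by
  let _ : MeasurableSpace X := borel X
  have : BorelSpace X := ⟨rfl⟩
  obtain ⟨F, hF⟩ := S.exists_tame
  have hb : SymplBasis S g u v := h.1
  rw [h.quad hF, h.quad hF, ← Frame.Cls.wd_eq_om hb hF (Frame.cls_harm hb hF x)
    (Frame.cls_harm hb hF y)]
  refine le_trans ?_ (Frame.norm_ip_le ((Frame.hol_harm hb hF x).closed.memLp hF)
    ((Frame.hol_harm hb hF y).closed.memLp hF))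
  unfold Frame.wd
  rw [← sq_abs]
  exact pow_le_pow_left₀ (abs_nonneg _) (Complex.abs_im_le_norm _) 2

end Pool.Agent.Lib.MP_cca10c_ag
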