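import Pool.Agent.Lib.MP_cca10c_ag.P05_LE
import Pool.Agent.Lib.MP_cca10c_ag.H23_Period

/-!
# Change of the symplectic basis, isomorphic surfaces (H24)

`gen` of the first basis applied to the maps of the second one gives an integral matrix `T` with
`comb u' v' x' ~ comb u v (T x')`; `T` preserves `om` (`wd_eq_om`), so it is symplectic
(`SymplecticGroup.mem_iff'`, note `om x y = - x ⬝ᵥ J y`). By uniqueness of harmonic forms
`harm u' v' x' = harm u v (T x')`, so `QF (PZ Z') x' = QF (PZ Z) (T x')`; `exists_act` gives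
`PZ (act M Z) = PZ Z'` (polarisation), and `PZ` is injective on the Siegel space. For isomorphic
surfaces transport the basis.
-/

set_option autoImplicit false

open Topology Set MeasureTheory Matrix
open scoped ContDiff

namespace Pool.Agent.Lib.MP_cca10c_ag

theorem PZ_injective {g : ℕ} {Z W : Matrix (Fin g) (Fin g) ℂ} (hZ : Z ∈ Siegel g)
    (hW : W ∈ Siegel g) (h : PZ Z = PZ W) : Z = W := by
  have hYu : IsUnit (Z.map Complex.im).det := by
    rw [← Matrix.isUnit_iff_isUnit_det]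
    exact hZ.2.isUnit
  have hQu : IsUnit (W.map Complex.im).det := by
    rw [← Matrix.isUnit_iff_isUnit_det]
    exact hW.2.isUnit
  unfold PZ at h
  obtain ⟨-, h12, -, h22⟩ := Matrix.fromBlocks_inj.1 h
  have hY : Z.map Complex.im = W.map Complex.im := by
    rw [← Matrix.nonsing_inv_nonsing_inv _ hYu, h22, Matrix.nonsing_inv_nonsing_inv _ hQu]
  have h12' : Z.map Complex.re * (W.map Complex.im)⁻¹ =
      W.map Complex.re * (W.map Complex.im)⁻¹ := by
    have := neg_inj.1 h12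
    rwa [h22] at this
  have hX : Z.map Complex.re = W.map Complex.re := by
    have := congrArg (fun A => A * (W.map Complex.im)) h12'
    simpa only [Matrix.mul_assoc, Matrix.nonsing_inv_mul _ hQu, Matrix.mul_one] using this
  ext i j
  apply Complex.ext
  · exact congrFun (congrFun hX i) j
  · exact congrFun (congrFun hY i) j

private theorem H24_om {g : ℕ} (x y : Fin g ⊕ Fin g → ℝ) :
    om x y = -(x ⬝ᵥ (Matrix.J (Fin g) ℝ *ᵥ y)) := by
  have h1 : Matrix.J (Fin g) ℝ *ᵥ y =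
      Sum.elim (fun j => -y (Sum.inr j)) (fun j => y (Sum.inl j)) := by
    unfold Matrix.J
    rw [Matrix.fromBlocks_mulVec]
    ext i
    rcases i with i | i
    · simp [Matrix.neg_mulVec]
    · simp
  rw [h1]
  unfold om dotProduct
  rw [Fintype.sum_sum_type, ← Finset.sum_add_distrib, ← Finset.sum_neg_distrib]
  refine Finset.sum_congr rfl fun j _ => ?_
  simp only [Sum.elim_inl, Sum.elim_inr]
  ring

/-- the standard form in terms of the symplectic group -/
theorem symplectic_of_om {g : ℕ} (T : Matrix (Fin g ⊕ Fin g) (Fin g ⊕ Fin g) ℤ)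
    (h : ∀ x y : Fin g ⊕ Fin g → ℝ, om (rM T *ᵥ x) (rM T *ᵥ y) = om x y) :
    T ∈ Matrix.symplecticGroup (Fin g) ℤ := by
  rw [SymplecticGroup.mem_iff']
  have h1 : (rM T)ᵀ * Matrix.J (Fin g) ℝ * rM T = Matrix.J (Fin g) ℝ := by
    apply Matrix.ext_of_mulVec_single
    intro j
    apply dotProduct_eq
    intro x
    have h2 := h x (Pi.single j 1)
    rw [H24_om, H24_om, neg_inj] at h2
    rw [dotProduct_comm, ← Matrix.mulVec_mulVec, ← Matrix.mulVec_mulVec,
      Matrix.dotProduct_mulVec x, Matrix.vecMul_transpose, h2, dotProduct_comm]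
  have h3 : rM (Tᵀ * Matrix.J (Fin g) ℤ * T) = rM (Matrix.J (Fin g) ℤ) := by
    have eJ : rM (Matrix.J (Fin g) ℤ) = Matrix.J (Fin g) ℝ := by
      unfold rM Matrix.J
      rw [Matrix.fromBlocks_map]
      congr 1 <;> ext i j <;> simp [Matrix.one_apply]
      all_goals split_ifs <;> simp
    have em : ∀ A B : Matrix (Fin g ⊕ Fin g) (Fin g ⊕ Fin g) ℤ, rM (A * B) = rM A * rM B :=
      fun A B => Matrix.map_mul (f := Int.castRingHom ℝ)
    rw [em, em, eJ]
    exact h1
  ext i j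
  have h4 := congrFun (congrFun h3 i) j
  exact Int.cast_injective (α := ℝ) h4

variable {X : Type} [TopologicalSpace X] [CompactSpace X] [T2Space X] {S : CS X}
variable {g : ℕ} {u v u' v' : Fin g → X → UnitAddCircle} {Z Z' : Matrix (Fin g) (Fin g) ℂ}

private theorem H24_sym {n : Type} [Fintype n] [DecidableEq n] {P Q : Matrix n n ℝ}
    (hP : Pᵀ = P) (hQ : Qᵀ = Q) (h : ∀ x, QF P x = QF Q x) : P = Q := by
  have key : ∀ x y : n → ℝ, x ⬝ᵥ (P *ᵥ y) = x ⬝ᵥ (Q *ᵥ y) := by
    intro x y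
    have hxy := h (x + y)
    have hx := h x
    have hy := h y
    unfold QF at hxy hx hy
    have sP : y ⬝ᵥ (P *ᵥ x) = x ⬝ᵥ (P *ᵥ y) := by
      rw [Matrix.dotProduct_mulVec, ← Matrix.mulVec_transpose, hP, dotProduct_comm]
    have sQ : y ⬝ᵥ (Q *ᵥ x) = x ⬝ᵥ (Q *ᵥ y) := by
      rw [Matrix.dotProduct_mulVec, ← Matrix.mulVec_transpose, hQ, dotProduct_comm]
    simp only [Matrix.mulVec_add, add_dotProduct, dotProduct_add] at hxy
    rw [sP, sQ] at hxy
    linarith
  ext i j
  have := key (Pi.single i 1) (Pi.single j 1)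
  simpa using this

private theorem H24_sum_cls [MeasurableSpace X] [BorelSpace X] {F : Frame S} (n : ℕ) (a : Fin n → X → ℂ)
    (m : Fin n → (Fin g ⊕ Fin g → ℝ)) (c : Fin n → ℝ)
    (h : ∀ j, F.Cls u v (a j) (m j)) :
    F.Cls u v (fun p => ∑ j, (c j : ℂ) * a j p) (fun i => ∑ j, c j * m j i) := by
  induction n with
  | zero =>
    have h0 := Frame.Cls.exact (F := F) (u := u) (v := v) (φ := fun _ => (0 : ℝ))
      (fun x => CS.SmoothAt.const 0)
    have e : (F.d fun _ => (0 : ℝ)) = fun _ : X => (0 : ℂ) := by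
      funext p
      exact F.d_const 0
    rw [e] at h0
    simpa using h0
  | succ n ih =>
    have h1 := ih (fun j => a j.castSucc) (fun j => m j.castSucc) (fun j => c j.castSucc)
      (fun j => h _)
    have h2 := (h (Fin.last n)).const_mul (c (Fin.last n))
    have h3 := h1.add h2
    simpa only [Fin.sum_univ_castSucc] using h3

private theorem H24_cls [MeasurableSpace X] [BorelSpace X] {F : Frame S} (hb : SymplBasis S g u v) (hb' : SymplBasis S g u' v')
    (T : Matrix (Fin g ⊕ Fin g) (Fin g ⊕ Fin g) ℤ)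
    (hTu : ∀ j, SameClass (comb u v (fun i => T i (Sum.inl j))) (u' j))
    (hTv : ∀ j, SameClass (comb u v (fun i => T i (Sum.inr j))) (v' j))
    {a : X → ℂ} {x : Fin g ⊕ Fin g → ℝ} (ha : F.Cls u' v' a x) :
    F.Cls u v a (rM T *ᵥ x) := by
  obtain ⟨φ, hφ, hφa⟩ := ha
  have h1 := H24_sum_cls (F := F) (u := u) (v := v) g (fun j => F.dC (u' j))
    (fun j i => ((T i (Sum.inl j) : ℤ) : ℝ)) (fun j => x (Sum.inl j))
    (fun j => cls_of_sameClass hb (hb'.smooth_u j) (hTu j))
  have h2 := H24_sum_cls (F := F) (u := u) (v := v) g (fun j => F.dC (v' j))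
    (fun j i => ((T i (Sum.inr j) : ℤ) : ℝ)) (fun j => x (Sum.inr j))
    (fun j => cls_of_sameClass hb (hb'.smooth_v j) (hTv j))
  have h3 := (h1.add h2).add_d hφ
  have e1 : (fun p => ∑ j, (x (Sum.inl j) : ℂ) * F.dC (u' j) p +
      ∑ j, (x (Sum.inr j) : ℂ) * F.dC (v' j) p + F.d φ p) = a := by
    funext p
    rw [hφa p]
    rfl
  have e2 : (fun i => ∑ j, x (Sum.inl j) * ((T i (Sum.inl j) : ℤ) : ℝ) +
      ∑ j, x (Sum.inr j) * ((T i (Sum.inr j) : ℤ) : ℝ)) = rM T *ᵥ x := by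
    funext i
    unfold Matrix.mulVec dotProduct rM
    rw [Fintype.sum_sum_type]
    congr 1 <;> refine Finset.sum_congr rfl fun j _ => ?_ <;> simp [mul_comm]
  rw [e1, e2] at h3
  exact h3

theorem samePt_of_isPeriod (h : IsPeriod S u v Z) (h' : IsPeriod S u' v' Z') : SamePt Z Z' := by
  let _ : MeasurableSpace X := borel X
  have _ : BorelSpace X := ⟨rfl⟩
  obtain ⟨F, hF⟩ := S.exists_tame
  have hb := h.1
  have hb' := h'.1
  choose mu hmu using fun j => exists_int_cls hb (hb'.smooth_u j).continuous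
  choose mv hmv using fun j => exists_int_cls hb (hb'.smooth_v j).continuous
  let T : Matrix (Fin g ⊕ Fin g) (Fin g ⊕ Fin g) ℤ :=
    Matrix.of fun i j => Sum.elim (fun k => mu k i) (fun k => mv k i) j
  have hTu : ∀ j, SameClass (comb u v (fun i => T i (Sum.inl j))) (u' j) := fun j => hmu j
  have hTv : ∀ j, SameClass (comb u v (fun i => T i (Sum.inr j))) (v' j) := fun j => hmv j
  have hcls : ∀ (a : X → ℂ) (x : Fin g ⊕ Fin g → ℝ), F.Cls u' v' a x →
      F.Cls u v a (rM T *ᵥ x) := fun a x ha => H24_cls hb hb' T hTu hTv ha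
  have hT : T ∈ Matrix.symplecticGroup (Fin g) ℤ := by
    apply symplectic_of_om
    intro x y
    have h1 := Frame.Cls.lin (F := F) (u := u') (v := v') x
    have h2 := Frame.Cls.lin (F := F) (u := u') (v := v') y
    rw [← (h1.wd_eq_om hb' hF h2), ← ((hcls _ _ h1).wd_eq_om hb hF (hcls _ _ h2))]
  obtain ⟨M, hM, hMe⟩ := exists_act hT
  have hZ := h.mem_siegel
  have hZ' := h'.mem_siegel
  refine ⟨M, hM, ?_⟩
  refine (PZ_injective hZ' (act_mem hM hZ) ?_)
  apply H24_sym
  · have := (PZ_posDef hZ').1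
    rwa [Matrix.IsHermitian, Matrix.conjTranspose_eq_transpose_of_trivial] at this
  · have := (PZ_posDef (act_mem hM hZ)).1
    rwa [Matrix.IsHermitian, Matrix.conjTranspose_eq_transpose_of_trivial] at this
  · intro x
    have e1 : QF (PZ (act M Z)) x = QF (PZ Z) (rM T *ᵥ x) := by
      rw [hMe Z hZ]
      unfold QF
      rw [← Matrix.mulVec_mulVec, ← Matrix.mulVec_mulVec, Matrix.dotProduct_mulVec x,
        Matrix.vecMul_transpose]
    rw [e1, h'.quad hF, h.quad hF]
    have h3 : F.harm u' v' x = F.harm u v (rM T *ᵥ x) :=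
      Frame.eq_harm hb hF (Frame.hol_harm hb' hF x) (hcls _ _ (Frame.cls_harm hb' hF x))
    rw [h3]

variable {X' : Type} [TopologicalSpace X'] {S' : CS X'}

/-- the homeomorphism `Φ` is holomorphic -/
def IsIso (S : CS X) (S' : CS X') (Φ : X ≃ₜ X') : Prop :=
  ∀ e' ∈ S'.charts, Φ.toOpenPartialHomeomorph.trans e' ∈ S.charts

theorem IsIso.symm {Φ : X ≃ₜ X'} (hΦ : IsIso S S' Φ) : IsIso S' S Φ.symm := by
  intro e he
  apply S'.max
  intro e' he'
  have h := S.compat e he _ (hΦ e' he')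
  have hset1 : (Φ.symm.toOpenPartialHomeomorph.trans e) ''
      ((Φ.symm.toOpenPartialHomeomorph.trans e).source ∩ e'.source) =
      e '' (e.source ∩ (Φ.toOpenPartialHomeomorph.trans e').source) := by
    ext z
    constructor
    · rintro ⟨y, ⟨hy1, hy2⟩, rfl⟩
      refine ⟨Φ.symm y, ⟨?_, ?_⟩, rfl⟩
      · simpa using hy1
      · simpa using hy2
    · rintro ⟨y, ⟨hy1, hy2⟩, rfl⟩
      refine ⟨Φ y, ⟨?_, ?_⟩, ?_⟩
      · simpa using hy1
      · simpa using hy2
      · simp
  have hset2 : e' '' ((Φ.symm.toOpenPartialHomeomorph.trans e).source ∩ e'.source) =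
      (Φ.toOpenPartialHomeomorph.trans e') ''
        (e.source ∩ (Φ.toOpenPartialHomeomorph.trans e').source) := by
    ext z
    constructor
    · rintro ⟨y, ⟨hy1, hy2⟩, rfl⟩
      refine ⟨Φ.symm y, ⟨?_, ?_⟩, ?_⟩
      · simpa using hy1
      · simpa using hy2
      · simp
    · rintro ⟨y, ⟨hy1, hy2⟩, rfl⟩
      refine ⟨Φ y, ⟨?_, ?_⟩, ?_⟩
      · simpa using hy1
      · simpa using hy2
      · simp
  constructor
  · rw [hset1]
    exact h.1
  · rw [hset2]
    exact h.2

private theorem H24_smoothAt {Φ : X ≃ₜ X'} (hΦ : IsIso S S' Φ) {f : X' → ℝ} {x : X}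
    (hf : S'.SmoothAt f (Φ x)) : S.SmoothAt (f ∘ Φ) x := by
  intro e he hx
  have h := hf _ (hΦ.symm e he) (by simpa using hx)
  have e1 : (Φ.symm.toOpenPartialHomeomorph.trans e) (Φ x) = e x := by simp
  rw [e1] at h
  exact h

private theorem H24_holAt {Φ : X ≃ₜ X'} (hΦ : IsIso S S' Φ) {f : X' → ℂ} {x : X}
    (hf : S'.HolAt f (Φ x)) : S.HolAt (f ∘ Φ) x := by
  intro e he hx
  have h := hf _ (hΦ.symm e he) (by simpa using hx)
  have e1 : (Φ.symm.toOpenPartialHomeomorph.trans e) (Φ x) = e x := by simp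
  rw [e1] at h
  exact h

private theorem H24_lift (Φ : X ≃ₜ X') {w : X' → UnitAddCircle} {f : X' → ℝ} {x : X}
    (hf : LiftAt w f (Φ x)) : LiftAt (w ∘ Φ) (f ∘ Φ) x :=
  ⟨hf.1.comp Φ.continuous.continuousAt, Φ.continuous.continuousAt.eventually hf.2⟩

private theorem H24_smoothC {Φ : X ≃ₜ X'} (hΦ : IsIso S S' Φ) {w : X' → UnitAddCircle}
    (hw : S'.SmoothC w) : S.SmoothC (w ∘ Φ) := by
  intro x
  obtain ⟨f, hf, hs⟩ := hw (Φ x)
  exact ⟨f ∘ Φ, H24_lift Φ hf, H24_smoothAt hΦ hs⟩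

/-- the frame transported by the isomorphism -/
private noncomputable def H24_frame {Φ : X ≃ₜ X'} (hΦ : IsIso S S' Φ) (F : Frame S) :
    Frame S' where
  n := F.n
  e := fun i => Φ.symm.toOpenPartialHomeomorph.trans (F.e i)
  mem := fun i => hΦ.symm _ (F.mem i)
  P := fun i => Φ.symm ⁻¹' F.P i
  meas := fun i => by
    let _ : MeasurableSpace X := borel X
    have _ : BorelSpace X := ⟨rfl⟩
    let _ : MeasurableSpace X' := borel X'
    have _ : BorelSpace X' := ⟨rfl⟩
    exact Φ.symm.continuous.measurable (F.meas i)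
  sub := fun i y hy => by
    have := F.sub i hy
    simpa using this
  disj := fun i j hij => (F.disj hij).preimage _
  cover := by
    rw [← preimage_iUnion, F.cover, preimage_univ]

private theorem H24_wedge {Φ : X ≃ₜ X'} (hΦ : IsIso S S' Φ) (F : Frame S)
    (w w' : X' → UnitAddCircle) :
    (H24_frame hΦ F).wedge w w' = F.wedge (w ∘ Φ) (w' ∘ Φ) := by
  unfold Frame.wedge
  refine Finset.sum_congr rfl fun i _ => ?_
  have hset : (Φ.symm.toOpenPartialHomeomorph.trans (F.e i)) '' (Φ.symm ⁻¹' F.P i) =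
      F.e i '' F.P i := by
    ext z
    constructor
    · rintro ⟨y, hy, rfl⟩
      exact ⟨Φ.symm y, hy, rfl⟩
    · rintro ⟨y, hy, rfl⟩
      exact ⟨Φ y, by simpa using hy, by simp⟩
  change (∫ z in (Φ.symm.toOpenPartialHomeomorph.trans (F.e i)) '' (Φ.symm ⁻¹' F.P i),
    (cgradC (w ∘ (Φ.symm.toOpenPartialHomeomorph.trans (F.e i)).symm) z * starRingEnd ℂ
      (cgradC (w' ∘ (Φ.symm.toOpenPartialHomeomorph.trans (F.e i)).symm) z)).im) = _
  rw [hset]
  rfl

theorem IsIso.isPeriod {Φ : X ≃ₜ X'} (hΦ : IsIso S S' Φ) {u v : Fin g → X' → UnitAddCircle}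
    (h : IsPeriod S' u v Z) : IsPeriod S (fun j => u j ∘ Φ) (fun j => v j ∘ Φ) Z := by
  refine ⟨⟨fun j => H24_smoothC hΦ (h.1.smooth_u j), fun j => H24_smoothC hΦ (h.1.smooth_v j),
    fun F j k => ?_, fun F j k => ?_, fun F j k => ?_, fun w hw => ?_⟩, fun j => ?_⟩
  · rw [← H24_wedge hΦ]
    exact h.1.uu _ j k
  · rw [← H24_wedge hΦ]
    exact h.1.vv _ j k
  · rw [← H24_wedge hΦ]
    exact h.1.uv _ j k
  · obtain ⟨m, n, f, hf, he⟩ := h.1.gen (w ∘ Φ.symm) (hw.comp Φ.symm.continuous)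
    refine ⟨m, n, f ∘ Φ, hf.comp Φ.continuous, fun x => ?_⟩
    have := he (Φ x)
    simpa using this
  · obtain ⟨h0, hc, hh⟩ := h.2 j
    refine ⟨h0 ∘ Φ, hc.comp Φ.continuous, fun x f k hf hk => ?_⟩
    have hinv : ∀ w : X' → UnitAddCircle, (w ∘ Φ) ∘ Φ.symm = w := by
      intro w
      funext y
      simp
    have lft : ∀ (w : X' → UnitAddCircle) (f : X → ℝ), LiftAt (w ∘ Φ) f x →
        LiftAt w (f ∘ Φ.symm) (Φ x) := by
      intro w f hf
      have hx : Φ.symm (Φ x) = x := by simp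
      refine ⟨?_, ?_⟩
      · refine ContinuousAt.comp (g := f) (f := Φ.symm) ?_ Φ.symm.continuous.continuousAt
        rw [hx]
        exact hf.1
      · have h2 : ∀ᶠ y in 𝓝 (Φ.symm (Φ x)), (w ∘ Φ) y = (f y : UnitAddCircle) := by
          rw [hx]
          exact hf.2
        have h3 := (Φ.symm.continuous.continuousAt (x := Φ x)).eventually h2
        filter_upwards [h3] with y hy
        simpa using hy
    have h1 := hh (Φ x) (f ∘ Φ.symm) (fun l => k l ∘ Φ.symm) (lft _ _ hf)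
      (fun l => lft _ _ (hk l))
    have h2 := H24_holAt hΦ h1
    have e2 : (fun y => ((f ∘ Φ.symm) y : ℂ) + ∑ l, Z j l * ((k l ∘ Φ.symm) y : ℂ) + h0 y) ∘ Φ =
        fun y => (f y : ℂ) + ∑ l, Z j l * (k l y : ℂ) + (h0 ∘ Φ) y := by
      funext y
      simp
    rw [e2] at h2
    exact h2

/-- isomorphic surfaces have the same point of the moduli space -/
theorem IsIso.samePt {Φ : X ≃ₜ X'} (hΦ : IsIso S S' Φ) (h : IsPeriod S u v Z)
    {u' v' : Fin g → X' → UnitAddCircle} (h' : IsPeriod S' u' v' Z') : SamePt Z Z' :=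
  samePt_of_isPeriod h (hΦ.isPeriod h')

end Pool.Agent.Lib.MP_cca10c_ag
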