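import Pool.Agent.Lib.MP_cca10c_ag.H12_Stokes

/-!
# The cut-off principal part (stub H25)

Chart `e` with `e p = 0`. Choose a test function `ψ` in `e.target` which is `1` near `0` and put
`U0 x = ψ (e x) Re (c / e x)`, `V0 x = ψ (e x) Im (c / e x)` on `e.source \ {p}`, and `0` elsewhere.
Near `p` (but not at `p`) one has `cgrad Re (c / z) = - c / z ^ 2` and
`cgrad Im (c / z) = i c / z ^ 2`, so `d U0 - i d V0 = 0` there.
-/

set_option autoImplicit false

open Topology Set MeasureTheory Metric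
open scoped ContDiff

namespace Pool.Agent.Lib.MP_cca10c_ag

variable {X : Type} [TopologicalSpace X] {S : CS X}

/-- real part of the cut-off principal part `c / z` in the chart `e` at `p` -/
structure CutPP (S : CS X) (e : OpenPartialHomeomorph X ℂ) (p : X) (c : ℂ)
    (U0 V0 : X → ℝ) (r : ℝ) : Prop where
  r_pos : 0 < r
  ball_sub : ball 0 r ⊆ e.target
  smooth_u : ∀ x, x ≠ p → S.SmoothNear U0 x
  smooth_v : ∀ x, x ≠ p → S.SmoothNear V0 x
  eq_u : ∀ z ∈ ball (0 : ℂ) r, z ≠ 0 → U0 (e.symm z) = (c / z).re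
  eq_v : ∀ z ∈ ball (0 : ℂ) r, z ≠ 0 → V0 (e.symm z) = (c / z).im

variable [T2Space X]

private theorem H25_div (c : ℂ) {z : ℂ} (hz : z ≠ 0) :
    ContDiffAt ℝ ∞ (fun w : ℂ => c / w) z := by
  have h1 : ContDiffAt ℂ ∞ (fun w : ℂ => c * w⁻¹) z := contDiffAt_const.mul (contDiffAt_inv ℂ hz)
  have h2 : ContDiffAt ℝ ∞ (fun w : ℂ => c * w⁻¹) z := h1.restrict_scalars ℝ
  simpa only [div_eq_mul_inv] using h2

private theorem H25_ne {p x : X} (h : x ≠ p) : ∀ᶠ y in 𝓝 x, y ≠ p :=
  isOpen_compl_singleton.mem_nhds h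

/-- removing the singularity by a cut-off -/
private theorem H25_cut {p : X} {U0 : X → ℝ} (hU : ∀ x, x ≠ p → S.SmoothNear U0 x) {O : Set X}
    (hO : IsOpen O) (hp : p ∈ O) :
    ∃ U : X → ℝ, S.Smooth U ∧ ∀ x, x ∉ O → U =ᶠ[𝓝 x] U0 := by
  obtain ⟨φ, hφ, -, ⟨V, hV, hpV, hV1⟩, -, hsupp⟩ := S.exists_bump (K := {p}) isCompact_singleton hO
    (singleton_subset_iff.mpr hp)
  refine ⟨fun x => (1 - φ x) * U0 x, fun x => ?_, fun x hx => ?_⟩
  · by_cases hx : x = p
    · subst hx
      have h1 : (fun y => (1 - φ y) * U0 y) =ᶠ[𝓝 x] fun _ => 0 := by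
        filter_upwards [hV.mem_nhds (singleton_subset_iff.mp hpV)] with y hy
        rw [hV1 y hy, sub_self, zero_mul]
      exact (CS.SmoothAt.const 0).congr h1
    · exact ((CS.SmoothAt.const 1).sub (hφ x)).mul (hU x hx).smoothAt
  · have hx' : x ∉ tsupport φ := fun h => hx (hsupp h)
    filter_upwards [(isClosed_tsupport φ).isOpen_compl.mem_nhds hx'] with y hy
    rw [image_eq_zero_of_notMem_tsupport hy, sub_zero, one_mul]

/-- the construction is linear in `c`: there are `U1, V1` for `c = 1`, and the pair for `c` is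
`(Re c U1 - Im c V1, Re c V1 + Im c U1)` -/
theorem exists_cutPP {e : OpenPartialHomeomorph X ℂ} (he : e ∈ S.charts) {p : X}
    (hp : p ∈ e.source) (hep : e p = 0) {W : Set X} (hW : W ∈ 𝓝 p) :
    ∃ (r : ℝ) (U1 V1 : X → ℝ), (∀ x, x ∉ W → U1 x = 0 ∧ V1 x = 0) ∧
      (∀ x, x ∉ e.source → U1 x = 0 ∧ V1 x = 0) ∧
      ∀ c : ℂ, CutPP S e p c (fun x => c.re * U1 x - c.im * V1 x)
        (fun x => c.re * V1 x + c.im * U1 x) r := by
  have hUo : IsOpen (e.source ∩ interior W) := e.open_source.inter isOpen_interior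
  have hpU : p ∈ e.source ∩ interior W := ⟨hp, mem_interior_iff_mem_nhds.mpr hW⟩
  obtain ⟨φ, hφ, -, ⟨V, hV, hpV, hV1⟩, -, hsupp⟩ := S.exists_bump (K := {p}) isCompact_singleton
    hUo (singleton_subset_iff.mpr hpU)
  have hpV' : p ∈ V := singleton_subset_iff.mp hpV
  have hφ0 : ∀ x, x ∉ e.source ∩ interior W → φ x = 0 := fun x hx =>
    image_eq_zero_of_notMem_tsupport fun h => hx (hsupp h)
  -- the radius
  have hO : IsOpen (e '' (e.source ∩ V)) :=
    e.isOpen_image_of_subset_source (e.open_source.inter hV) inter_subset_left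
  have h0 : (0 : ℂ) ∈ e '' (e.source ∩ V) := ⟨p, ⟨hp, hpV'⟩, hep⟩
  obtain ⟨r, hr, hball⟩ := Metric.isOpen_iff.mp hO 0 h0
  -- smoothness of the two functions
  have hsm : ∀ k : ℂ → ℝ, (∀ z, z ≠ 0 → ContDiffAt ℝ ∞ k z) → ∀ x, x ≠ p →
      S.SmoothAt (fun y => φ y * k (e y)) x := by
    intro k hk x hx
    by_cases hxe : x ∈ e.source
    · refine (hφ x).mul (CS.SmoothAt.of_chart he hxe (hk _ ?_))
      intro h
      exact hx (e.injOn hxe hp (by rw [h, hep]))
    · have hx' : x ∉ tsupport φ := fun h => hxe (hsupp h).1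
      have h1 : (fun y => φ y * k (e y)) =ᶠ[𝓝 x] fun _ => 0 := by
        filter_upwards [(isClosed_tsupport φ).isOpen_compl.mem_nhds hx'] with y hy
        rw [image_eq_zero_of_notMem_tsupport hy, zero_mul]
      exact (CS.SmoothAt.const 0).congr h1
  have hinv : ∀ z : ℂ, z ≠ 0 → ContDiffAt ℝ ∞ (fun w : ℂ => 1 / w) z := fun z hz =>
    H25_div 1 hz
  have hre : ∀ x, x ≠ p → S.SmoothAt (fun y => φ y * (1 / e y).re) x :=
    hsm (fun w => (1 / w).re) fun z hz =>
      Complex.reCLM.contDiff.contDiffAt.comp z (hinv z hz)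
  have him : ∀ x, x ≠ p → S.SmoothAt (fun y => φ y * (1 / e y).im) x :=
    hsm (fun w => (1 / w).im) fun z hz =>
      Complex.imCLM.contDiff.contDiffAt.comp z (hinv z hz)
  refine ⟨r, fun x => φ x * (1 / e x).re, fun x => φ x * (1 / e x).im, ?_, ?_, fun c => ?_⟩
  · intro x hx
    have : φ x = 0 := hφ0 x fun h => hx (interior_subset h.2)
    simp only [this, zero_mul, and_self]
  · intro x hx
    have : φ x = 0 := hφ0 x fun h => hx h.1
    simp only [this, zero_mul, and_self]
  · have hval : ∀ z ∈ ball (0 : ℂ) r, φ (e.symm z) = 1 ∧ e (e.symm z) = z ∧ z ∈ e.target := by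
      intro z hz
      obtain ⟨y, hy, rfl⟩ := hball hz
      rw [e.left_inv hy.1]
      exact ⟨hV1 y hy.2, rfl, e.map_source hy.1⟩
    refine ⟨hr, fun z hz => (hval z hz).2.2, ?_, ?_, ?_, ?_⟩
    · intro x hx
      filter_upwards [H25_ne hx] with y hy
      exact ((hre y hy).const_mul c.re).sub ((him y hy).const_mul c.im)
    · intro x hx
      filter_upwards [H25_ne hx] with y hy
      exact ((him y hy).const_mul c.re).add ((hre y hy).const_mul c.im)
    · intro z hz _
      obtain ⟨h1, h2, -⟩ := hval z hz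
      beta_reduce
      rw [h1, h2, one_mul, one_mul, ← Complex.mul_re, mul_one_div]
    · intro z hz _
      obtain ⟨h1, h2, -⟩ := hval z hz
      beta_reduce
      rw [h1, h2, one_mul, one_mul, ← Complex.mul_im, mul_one_div]

/-- the form `d U0 - i d V0`, which vanishes near `p` -/
theorem CutPP.d_eq {F : Frame S} {e : OpenPartialHomeomorph X ℂ} (he : e ∈ S.charts) {p : X}
    {c : ℂ} {U0 V0 : X → ℝ} {r : ℝ} (h : CutPP S e p c U0 V0 r) {z : ℂ}
    (hz : z ∈ ball (0 : ℂ) r) (hz0 : z ≠ 0) :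
    F.d U0 (e.symm z) - Complex.I * F.d V0 (e.symm z) = 0 ∧
      F.co e (F.d U0) z = -c / z ^ 2 := by
  have hzt : z ∈ e.target := h.ball_sub hz
  have hx : e.symm z ∈ e.source := e.map_target hzt
  have hex : e (e.symm z) = z := e.right_inv hzt
  have hd : HasDerivAt (fun w : ℂ => c / w) (-c / z ^ 2) z := by
    have h1 := (hasDerivAt_inv hz0).const_mul c
    have h2 : c * -(z ^ 2)⁻¹ = -c / z ^ 2 := by ring
    rw [h2] at h1
    exact h1
  have hev : ∀ᶠ w in 𝓝 z, w ∈ ball (0 : ℂ) r ∧ w ≠ 0 :=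
    Filter.Eventually.and (isOpen_ball.mem_nhds hz) (isOpen_compl_singleton.mem_nhds hz0)
  have hu : (U0 ∘ e.symm) =ᶠ[𝓝 z] fun w => (c / w).re := by
    filter_upwards [hev] with w hw
    exact h.eq_u w hw.1 hw.2
  have hv : (V0 ∘ e.symm) =ᶠ[𝓝 z] fun w => (c / w).im := by
    filter_upwards [hev] with w hw
    exact h.eq_v w hw.1 hw.2
  have hc : ContDiffAt ℝ ∞ (fun w : ℂ => c / w) z := H25_div c hz0
  have hsu : S.SmoothAt U0 (e.symm z) := by
    rw [CS.smoothAt_iff he hx, hex]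
    exact (Complex.reCLM.contDiff.contDiffAt.comp z hc).congr_of_eventuallyEq hu
  have hsv : S.SmoothAt V0 (e.symm z) := by
    rw [CS.smoothAt_iff he hx, hex]
    exact (Complex.imCLM.contDiff.contDiffAt.comp z hc).congr_of_eventuallyEq hv
  have hcu : F.co e (F.d U0) z = -c / z ^ 2 := by
    have h1 := Frame.co_d F he hx hsu
    rw [hex, cgrad_congr hu, cgrad_re hd.differentiableAt, hd.deriv] at h1
    exact h1
  have hcv : F.co e (F.d V0) z = -Complex.I * (-c / z ^ 2) := by
    have h1 := Frame.co_d F he hx hsv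
    rw [hex, cgrad_congr hv, cgrad_im hd.differentiableAt, hd.deriv] at h1
    exact h1
  refine ⟨?_, hcu⟩
  have h1 : F.co e (fun y => F.d U0 y - Complex.I * F.d V0 y) (e (e.symm z)) = 0 := by
    have h2 : F.co e (fun y => F.d U0 y - Complex.I * F.d V0 y) z =
        F.co e (F.d U0) z - Complex.I * F.co e (F.d V0) z := by
      unfold Frame.co
      ring
    rw [hex, h2, hcu, hcv]
    linear_combination (-c / z ^ 2) * Complex.I_mul_I
  exact (Frame.co_eq_zero_iff F he hx).mp h1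

variable [CompactSpace X] [MeasurableSpace X] [BorelSpace X]

theorem CutPP.memLp {F : Frame S} (hF : F.Tame) {e : OpenPartialHomeomorph X ℂ}
    (he : e ∈ S.charts) {p : X} (hp : p ∈ e.source) (hep : e p = 0)
    {c : ℂ} {U0 V0 : X → ℝ} {r : ℝ} (h : CutPP S e p c U0 V0 r) :
    MemLp (({p}ᶜ : Set X).indicator fun x => F.d U0 x - Complex.I * F.d V0 x) 2 F.nu ∧
      ∀ K : Set X, IsCompact K → p ∉ K →
        MemLp (F.d U0) 2 (F.nu.restrict K) ∧ MemLp (F.d V0) 2 (F.nu.restrict K) := by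
  have hL : ∀ {φ : X → ℝ}, S.Smooth φ → MemLp (F.d φ) 2 F.nu := fun hφ =>
    (F.closed_d hφ).memLp hF
  constructor
  · have hO : IsOpen (e.source ∩ e ⁻¹' ball 0 r) := e.isOpen_inter_preimage isOpen_ball
    have hpO : p ∈ e.source ∩ e ⁻¹' ball 0 r := by
      refine ⟨hp, ?_⟩
      rw [mem_preimage, hep]
      exact mem_ball_self h.r_pos
    obtain ⟨U, hU, hUe⟩ := H25_cut h.smooth_u hO hpO
    obtain ⟨V, hV, hVe⟩ := H25_cut h.smooth_v hO hpO
    have hm : MemLp (fun x => F.d U x - Complex.I * F.d V x) 2 F.nu :=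
      (hL hU).sub ((hL hV).const_mul Complex.I)
    have heq : ({p}ᶜ : Set X).indicator (fun x => F.d U0 x - Complex.I * F.d V0 x) =
        (e.source ∩ e ⁻¹' ball 0 r)ᶜ.indicator (fun x => F.d U x - Complex.I * F.d V x) := by
      funext x
      by_cases hx : x ∈ e.source ∩ e ⁻¹' ball 0 r
      · rw [indicator_of_notMem (show x ∉ (e.source ∩ e ⁻¹' ball 0 r)ᶜ from fun hh => hh hx)]
        by_cases hxp : x = p
        · rw [indicator_of_notMem (show x ∉ ({p}ᶜ : Set X) from fun hh => hh hxp)]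
        · rw [indicator_of_mem (show x ∈ ({p}ᶜ : Set X) from hxp)]
          have hz0 : e x ≠ 0 := by
            intro hh
            exact hxp (e.injOn hx.1 hp (by rw [hh, hep]))
          have h1 := (h.d_eq (F := F) he (z := e x) hx.2 hz0).1
          rwa [e.left_inv hx.1] at h1
      · have hxp : x ≠ p := fun hh => hx (hh ▸ hpO)
        rw [indicator_of_mem (show x ∈ (e.source ∩ e ⁻¹' ball 0 r)ᶜ from hx),
          indicator_of_mem (show x ∈ ({p}ᶜ : Set X) from hxp), Frame.d_congr F (hUe x hx),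
          Frame.d_congr F (hVe x hx)]
    rw [heq]
    exact hm.indicator hO.measurableSet.compl
  · intro K hK hpK
    have hO : IsOpen Kᶜ := hK.isClosed.isOpen_compl
    have key : ∀ {A : X → ℝ}, (∀ x, x ≠ p → S.SmoothNear A x) →
        MemLp (F.d A) 2 (F.nu.restrict K) := by
      intro A hA
      obtain ⟨U, hU, hUe⟩ := H25_cut hA hO hpK
      refine ((hL hU).restrict K).ae_eq ?_
      filter_upwards [ae_restrict_mem hK.isClosed.measurableSet] with x hx
      exact Frame.d_congr F (hUe x fun hh => hh hx)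
    exact ⟨key h.smooth_u, key h.smooth_v⟩

/-- Stokes for a function with a singularity at `p` and a test function supported off `p` -/
theorem stokes_sing {F : Frame S} (hF : F.Tame) {p : X} {U0 φ : X → ℝ}
    (hU : ∀ x, x ≠ p → S.SmoothNear U0 x) (hφ : S.Smooth φ) (hp : p ∉ tsupport φ) :
    F.wd (F.d U0) (F.d φ) = 0 := by
  obtain ⟨U, hUs, hUe⟩ := H25_cut hU (isClosed_tsupport φ).isOpen_compl hp
  have h1 := Frame.stokes' hF hφ (F.closed_d hUs)
  have h2 : F.wd (F.d U0) (F.d φ) = F.wd (F.d U) (F.d φ) := by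
    unfold Frame.wd Frame.ip
    congr 1
    refine integral_congr_ae (Filter.Eventually.of_forall fun x => ?_)
    by_cases hx : x ∈ tsupport φ
    · simp only [Frame.d_congr F (hUe x fun hh => hh hx)]
    · have h3 : φ =ᶠ[𝓝 x] fun _ => 0 := by
        filter_upwards [(isClosed_tsupport φ).isOpen_compl.mem_nhds hx] with y hy
        exact image_eq_zero_of_notMem_tsupport hy
      simp only [Frame.d_congr F h3, Frame.d_const, map_zero, mul_zero]
  rw [h2, h1]

end Pool.Agent.Lib.MP_cca10c_ag
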