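import Pool.Agent.Lib.MP_cca10c_ag.H16_Proj
import Pool.Agent.Lib.MP_cca10c_ag.H25_Cut

/-!
# Dipoles (H26)

`Ψ = d U0 - i d V0` (`0` at `p`) is in `L²` and vanishes near `p`. Decompose (`exists_decomp`)
`Ψ = b + i c' + h` a.e. with `b`, `c'` limits of exact forms and `h` harmonic.
Off `p`: `Θ = d U0 - b = i d V0 + i c' + h` a.e. is orthogonal to `d φ` for `tsupport φ ⊆ {p}ᶜ`: the
imaginary part of `ip Θ (d φ)` is computed with the first expression (`stokes_sing`, `Lim.wd_eq_zero`),
the real part with the second one. So (`holIn_of_orthogonal`) `Θ` is a.e. equal to `Θ'` harmonic off `p`.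
Near `p`: `ip b (d φ) = 0` for `φ` supported in the ball where `Ψ = 0`: imaginary part because `b` is a
limit of exact forms, real part because `b = Ψ - i c' - h`. So `b` is a.e. harmonic near `p`.
Hence the form `d U0 - Θ'` extends over `p` to a closed form which is a limit of exact forms; it is
`d φ₀` by `ExL`. Take `U = U0 - φ₀`.
-/

set_option autoImplicit false

open Topology Set MeasureTheory Metric
open scoped ContDiff

namespace Pool.Agent.Lib.MP_cca10c_ag

variable {X : Type} [TopologicalSpace X] {S : CS X}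

/-- closed forms in the closure of the exact forms are exact -/
def Frame.ExL (F : Frame S) [MeasurableSpace X] : Prop :=
  ∀ a : X → ℂ, F.Closed a → F.Lim a → ∃ φ : X → ℝ, S.Smooth φ ∧ ∀ p, a p = F.d φ p

private theorem h26_symm_ev {e : OpenPartialHomeomorph X ℂ} {x : X} (hx : x ∈ e.source)
    {p : X → Prop} (h : ∀ᶠ y in 𝓝 x, p y) : ∀ᶠ w in 𝓝 (e x), p (e.symm w) := by
  have h1 := e.symm.continuousAt (e.map_source hx)
  have h2 : Filter.Tendsto e.symm (𝓝 (e x)) (𝓝 x) := by
    have := h1.tendsto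
    rwa [e.left_inv hx] at this
  exact h2.eventually h

/-- holomorphy at `x` is holomorphy near `x` -/
private theorem h26_hol_ev {k : X → ℂ} {x : X} (hk : S.HolAt k x) : ∀ᶠ y in 𝓝 x, S.HolAt k y := by
  obtain ⟨e, he, hx⟩ := S.cover x
  have h1 := (hk e he hx).eventually_nhds
  have h2 : ∀ᶠ y in 𝓝 x, ∀ᶠ z in 𝓝 (e y), DifferentiableAt ℂ (k ∘ e.symm) z :=
    (e.continuousAt hx).tendsto.eventually h1
  filter_upwards [h2, e.open_source.mem_nhds hx] with y hy hye
  exact (CS.holAt_iff he hye).2 hy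

/-- the differential of a function vanishes off its support -/
private theorem h26_d_supp {F : Frame S} {φ : X → ℝ} {x : X} (hx : x ∉ tsupport φ) :
    F.d φ x = 0 := by
  have h : φ =ᶠ[𝓝 x] fun _ => (0 : ℝ) := notMem_tsupport_iff_eventuallyEq.1 hx
  rw [F.d_congr h, F.d_const]

variable [CompactSpace X] [T2Space X] [MeasurableSpace X] [BorelSpace X]

/-- a smooth function whose differential vanishes almost everywhere near `x` -/
private theorem h26_d_zero {F : Frame S} {f : X → ℝ} {V : Set X} (hV : IsOpen V) {x : X}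
    (hx : x ∈ V) (hf : S.SmoothNear f x) (h0 : ∀ᵐ y ∂(F.nu.restrict V), F.d f y = 0) :
    F.d f x = 0 := by
  by_contra hne
  obtain ⟨e, he, hxe⟩ := S.cover x
  have h1 := (CS.smoothNear_iff he hxe).1 hf
  have h2 : ContinuousAt (cgrad (f ∘ e.symm)) (e x) := (contDiffAt_cgrad h1).continuousAt
  have h3 : cgrad (f ∘ e.symm) (e x) ≠ 0 := by
    rw [← F.co_d he hxe hf.smoothAt]
    exact fun h => hne ((F.co_eq_zero_iff he hxe).1 h)
  have h4 : ∀ᶠ z in 𝓝 (e x), cgrad (f ∘ e.symm) z ≠ 0 := h2.eventually_ne h3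
  have h5 : ∀ᶠ y in 𝓝 x, cgrad (f ∘ e.symm) (e y) ≠ 0 := (e.continuousAt hxe).tendsto.eventually h4
  have h6 : ∀ᶠ y in 𝓝 x, y ∈ V ∧ F.d f y ≠ 0 := by
    filter_upwards [h5, hf, e.open_source.mem_nhds hxe, hV.mem_nhds hx] with y hy hs hye hyV
    refine ⟨hyV, fun h => hy ?_⟩
    rw [← F.co_d he hye hs]
    exact (F.co_eq_zero_iff he hye).2 h
  obtain ⟨W, hW, hWo, hxW⟩ := eventually_nhds_iff.1 h6
  have h7 := F.nu_pos_of_isOpen hWo ⟨x, hxW⟩
  have h8 : F.nu W = 0 := by
    have h9 : (F.nu.restrict V) {y | ¬ F.d f y = 0} = 0 := ae_iff.1 h0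
    have h10 : (F.nu.restrict V) W = F.nu W := by
      rw [Measure.restrict_apply hWo.measurableSet, inter_eq_left.2 fun y hy => (hW y hy).1]
    rw [← h10]
    exact measure_mono_null (fun y hy => (hW y hy).2) h9
  exact h7.ne' h8

private theorem h26_nu_point {F : Frame S} (p : X) : F.nu {p} = 0 := by
  obtain ⟨e, he, hp⟩ := S.cover p
  rw [F.nu_eq_zero_iff he (measurableSet_singleton p) (singleton_subset_iff.2 hp), image_singleton]
  exact measure_singleton _

/-- product with an exact form depends only on the values on the support -/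
private theorem h26_ip_ind {F : Frame S} {φ : X → ℝ} (a : X → ℂ) :
    F.ip ((tsupport φ).indicator a) (F.d φ) = F.ip a (F.d φ) := by
  unfold Frame.ip
  congr 1
  funext x
  by_cases hx : x ∈ tsupport φ
  · rw [indicator_of_mem hx]
  · rw [h26_d_supp hx]
    simp

private theorem h26_ip_congr {F : Frame S} {a b c : X → ℂ}
    (h : ∀ᵐ x ∂F.nu, a x * starRingEnd ℂ (c x) = b x * starRingEnd ℂ (c x)) :
    F.ip a c = F.ip b c := by
  unfold Frame.ip
  exact integral_congr_ae h

private theorem h26_ind_memLp {F : Frame S} {φ : X → ℝ} {a : X → ℂ}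
    (h : MemLp a 2 (F.nu.restrict (tsupport φ))) : MemLp ((tsupport φ).indicator a) 2 F.nu :=
  (memLp_indicator_iff_restrict (isClosed_tsupport φ).measurableSet).2 h

private theorem h26_lim_congr {F : Frame S} {a b : X → ℂ} (h : ∀ᵐ x ∂F.nu, a x = b x)
    (hb : F.Lim b) : F.Lim a := by
  refine ⟨(memLp_congr_ae h).2 hb.1, fun ε hε => ?_⟩
  obtain ⟨φ, hφ, hφε⟩ := hb.2 ε hε
  refine ⟨φ, hφ, ?_⟩
  have e1 : F.en univ (fun x => a x - F.d φ x) = F.en univ (fun x => b x - F.d φ x) := by
    unfold Frame.en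
    refine integral_congr_ae ?_
    rw [Measure.restrict_univ]
    filter_upwards [h] with x hx
    rw [hx]
  rw [e1]
  exact hφε

theorem exists_dipole {F : Frame S} (hF : F.Tame) (hE : F.ExL)
    {e : OpenPartialHomeomorph X ℂ} (he : e ∈ S.charts) {p : X} (hp : p ∈ e.source)
    (hep : e p = 0) {c : ℂ} {U0 V0 : X → ℝ} {r : ℝ} (h : CutPP S e p c U0 V0 r) :
    ∃ φ : X → ℝ, S.Smooth φ ∧ F.HolIn {p}ᶜ (F.d (fun x => U0 x - φ x)) ∧
      ∃ (f : ℂ → ℂ) (s : ℝ), 0 < s ∧ s ≤ r ∧ DifferentiableOn ℂ f (ball 0 s) ∧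
        ∀ z ∈ ball (0 : ℂ) s, φ (e.symm z) = (f z).re := by
  obtain ⟨hΨ, hK⟩ := h.memLp hF he hp hep
  set Ψ : X → ℂ := ({p}ᶜ : Set X).indicator fun x => F.d U0 x - Complex.I * F.d V0 x with hΨdef
  obtain ⟨b, c', h0, hb, hc', hh0, hdec⟩ := Frame.exists_decomp hF hΨ
  have hpo : IsOpen ({p}ᶜ : Set X) := isOpen_compl_singleton
  -- the product of a limit of exact forms with an exact form is real
  have hwd : ∀ (a : X → ℂ), F.Lim a → ∀ φ : X → ℝ, S.Smooth φ → (F.ip a (F.d φ)).im = 0 :=
    fun a ha φ hφ => (ha.wd_eq_zero hF (F.closed_d hφ)).1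
  have hdm : ∀ φ : X → ℝ, S.Smooth φ → MemLp (F.d φ) 2 F.nu := fun φ hφ =>
    (F.closed_d hφ).memLp hF
  have hhm : MemLp h0 2 F.nu := hh0.closed.memLp hF
  -- step 1: off the point `p`
  have hΘm : ∀ K ⊆ ({p}ᶜ : Set X), IsCompact K →
      MemLp (fun x => F.d U0 x - b x) 2 (F.nu.restrict K) := by
    intro K hKs hKc
    exact (hK K hKc fun hpK => hKs hpK rfl).1.sub (hb.1.restrict K)
  have hΘo : ∀ φ : X → ℝ, S.Smooth φ → tsupport φ ⊆ ({p}ᶜ : Set X) →
      F.ip (fun x => F.d U0 x - b x) (F.d φ) = 0 := by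
    intro φ hφ hφp
    have hpφ : p ∉ tsupport φ := fun hpK => hφp hpK rfl
    have hKφ : IsCompact (tsupport φ) := (isClosed_tsupport φ).isCompact
    have m1 := h26_ind_memLp (hK _ hKφ hpφ).1
    have m2 := h26_ind_memLp (hK _ hKφ hpφ).2
    have m3 := hdm φ hφ
    apply Complex.ext
    · -- the real part
      have e1 : F.ip (fun x => F.d U0 x - b x) (F.d φ) =
          F.ip (fun x => (Complex.I * (tsupport φ).indicator (F.d V0) x + Complex.I * c' x) + h0 x)
            (F.d φ) := by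
        apply h26_ip_congr
        filter_upwards [hdec] with x hx
        by_cases hxs : x ∈ tsupport φ
        · have hxp : x ∈ ({p}ᶜ : Set X) := hφp hxs
          rw [hΨdef, indicator_of_mem hxp] at hx
          rw [indicator_of_mem hxs]
          congr 1
          linear_combination hx
        · rw [h26_d_supp hxs]
          simp
      have m4 : MemLp (fun x => Complex.I * (tsupport φ).indicator (F.d V0) x) 2 F.nu :=
        m2.const_mul _
      have m5 : MemLp (fun x => Complex.I * c' x) 2 F.nu := hc'.1.const_mul _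
      have m6 : MemLp (fun x => Complex.I * (tsupport φ).indicator (F.d V0) x +
        Complex.I * c' x) 2 F.nu := m4.add m5
      rw [e1, Frame.ip_add_left m6 hhm m3,
        Frame.ip_add_left m4 m5 m3, Frame.ip_const_mul_left,
        Frame.ip_const_mul_left, Frame.ip_hol_d hF hφ hh0, h26_ip_ind]
      have e2 : (F.ip (F.d V0) (F.d φ)).im = 0 := stokes_sing hF h.smooth_v hφ hpφ
      have e3 := hwd c' hc' φ hφ
      simp [e2, e3]
    · -- the imaginary part
      have e1 : F.ip (fun x => F.d U0 x - b x) (F.d φ) =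
          F.ip (fun x => (tsupport φ).indicator (F.d U0) x + (-1 : ℂ) * b x) (F.d φ) := by
        apply h26_ip_congr
        refine Filter.Eventually.of_forall fun x => ?_
        by_cases hxs : x ∈ tsupport φ
        · simp only [indicator_of_mem hxs]
          ring
        · rw [h26_d_supp hxs]
          simp
      rw [e1, Frame.ip_add_left m1 (hb.1.const_mul _) m3, Frame.ip_const_mul_left, h26_ip_ind]
      have e2 : (F.ip (F.d U0) (F.d φ)).im = 0 := stokes_sing hF h.smooth_u hφ hpφ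
      have e3 := hwd b hb φ hφ
      simp [e2, e3]
  obtain ⟨Θ, hΘ, hΘae⟩ := Frame.holIn_of_orthogonal hF hpo hΘm hΘo
  -- step 2: near the point `p`
  set B : Set X := e.source ∩ e ⁻¹' ball 0 r with hB
  have hBo : IsOpen B := e.isOpen_inter_preimage isOpen_ball
  have hpB : p ∈ B := ⟨hp, by
    show e p ∈ ball 0 r
    rw [hep]
    exact mem_ball_self h.r_pos⟩
  have hΨB : ∀ x ∈ B, Ψ x = 0 := by
    intro x hx
    by_cases hxp : x = p
    · rw [hΨdef, indicator_of_notMem]
      simp [hxp]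
    · rw [hΨdef, indicator_of_mem (by exact hxp)]
      have hz0 : e x ≠ 0 := by
        intro hz
        exact hxp (e.injOn hx.1 hp (by rw [hz, hep]))
      have := (h.d_eq (F := F) he hx.2 hz0).1
      rwa [e.left_inv hx.1] at this
  have hbo : ∀ φ : X → ℝ, S.Smooth φ → tsupport φ ⊆ B → F.ip b (F.d φ) = 0 := by
    intro φ hφ hφB
    have m3 := hdm φ hφ
    apply Complex.ext
    · have e1 : F.ip b (F.d φ) = F.ip (fun x => (-Complex.I) * c' x + (-1 : ℂ) * h0 x) (F.d φ) := by
        apply h26_ip_congr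
        filter_upwards [hdec] with x hx
        by_cases hxs : x ∈ tsupport φ
        · rw [hΨB x (hφB hxs)] at hx
          congr 1
          linear_combination -hx
        · rw [h26_d_supp hxs]
          simp
      rw [e1, Frame.ip_add_left (hc'.1.const_mul _) (hhm.const_mul _) m3, Frame.ip_const_mul_left,
        Frame.ip_const_mul_left, Frame.ip_hol_d hF hφ hh0]
      have e3 := hwd c' hc' φ hφ
      simp [e3]
    · exact hwd b hb φ hφ
  obtain ⟨β, hβ, hβae⟩ := Frame.holIn_of_orthogonal hF hBo (h := b)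
    (fun K _ _ => hb.1.restrict K) hbo
  -- step 3: the closed form
  have hΘβ : ∀ x ∈ B, x ≠ p → F.d U0 x - Θ x = β x := by
    intro x hxB hxp
    obtain ⟨k1, hk1, hk1'⟩ := hΘ.exists_primitive hpo (x := x) hxp
    obtain ⟨k2, hk2, hk2'⟩ := hβ.exists_primitive hBo hxB
    have hs : S.SmoothNear (fun y => (U0 y - (k1 y).re) - (k2 y).re) x := by
      filter_upwards [h.smooth_u x hxp, h26_hol_ev hk1, h26_hol_ev hk2] with y h1 h2 h3
      exact (h1.sub h2.smoothAt_re).sub h3.smoothAt_re
    have hd : ∀ᶠ y in 𝓝 x, y ∈ B ∧ y ≠ p ∧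
        F.d (fun y => (U0 y - (k1 y).re) - (k2 y).re) y = F.d U0 y - Θ y - β y := by
      filter_upwards [h.smooth_u x hxp, h26_hol_ev hk1, h26_hol_ev hk2, hk1', hk2',
        hBo.mem_nhds hxB, hpo.mem_nhds hxp] with y h1 h2 h3 h4 h5 h6 h7
      refine ⟨h6, h7, ?_⟩
      rw [F.d_sub (h1.sub h2.smoothAt_re) h3.smoothAt_re, F.d_sub h1 h2.smoothAt_re, h4, h5]
    obtain ⟨V, hV, hVo, hxV⟩ := eventually_nhds_iff.1 hd
    have h1 : ∀ᵐ y ∂(F.nu.restrict V),
        F.d (fun y => (U0 y - (k1 y).re) - (k2 y).re) y = 0 := by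
      have h2 : ∀ᵐ y ∂(F.nu.restrict V), F.d U0 y - b y = Θ y :=
        ae_restrict_of_ae_restrict_of_subset (fun y hy => (hV y hy).2.1) hΘae
      have h3 : ∀ᵐ y ∂(F.nu.restrict V), b y = β y :=
        ae_restrict_of_ae_restrict_of_subset (fun y hy => (hV y hy).1) hβae
      filter_upwards [h2, h3, ae_restrict_mem hVo.measurableSet] with y h4 h5 h6
      rw [(hV y h6).2.2]
      rw [← h4, ← h5]
      ring
    have h2 := h26_d_zero hVo hxV hs h1
    rw [(hV x hxV).2.2] at h2
    exact sub_eq_zero.1 h2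
  classical
  let a : X → ℂ := fun x => if x = p then β p else F.d U0 x - Θ x
  have haB : ∀ x ∈ B, a x = β x := by
    intro x hx
    by_cases hxp : x = p
    · subst hxp
      simp only [a, if_true]
    · simp only [a, if_neg hxp]
      exact hΘβ x hx hxp
  have haΘ : ∀ x, x ≠ p → a x = F.d U0 x - Θ x := by
    intro x hxp
    simp only [a, if_neg hxp]
  have hac : F.Closed a := by
    intro x
    by_cases hxp : x = p
    · obtain ⟨k, hk, hk'⟩ := hβ.exists_primitive hBo (x := x) (by rw [hxp]; exact hpB)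
      refine ⟨fun y => (k y).re, (h26_hol_ev hk).mono fun y hy => hy.smoothAt_re, ?_⟩
      filter_upwards [hk', hBo.mem_nhds (by rw [hxp]; exact hpB : x ∈ B)] with y h1 h2
      rw [haB y h2, h1]
    · obtain ⟨k, hk, hk'⟩ := hΘ.exists_primitive hpo (x := x) hxp
      refine ⟨fun y => U0 y - (k y).re, ?_, ?_⟩
      · filter_upwards [h.smooth_u x hxp, h26_hol_ev hk] with y h1 h2
        exact h1.sub h2.smoothAt_re
      · filter_upwards [h.smooth_u x hxp, h26_hol_ev hk, hk', hpo.mem_nhds hxp] with y h1 h2 h3 h4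
        rw [haΘ y h4, h3, F.d_sub h1 h2.smoothAt_re]
  have hab : ∀ᵐ x ∂F.nu, a x = b x := by
    have h1 : ∀ᵐ x ∂F.nu, x ≠ p := by
      rw [ae_iff]
      simpa using h26_nu_point (F := F) p
    have h2 : ∀ᵐ x ∂F.nu, x ∈ ({p}ᶜ : Set X) → F.d U0 x - b x = Θ x :=
      (ae_restrict_iff' hpo.measurableSet).1 hΘae
    filter_upwards [h1, h2] with x h3 h4
    rw [haΘ x h3, ← h4 h3]
    ring
  obtain ⟨φ, hφ, hφa⟩ := hE a hac (h26_lim_congr hab hb)
  refine ⟨φ, hφ, ?_, ?_⟩
  · -- the form `d (U0 - φ)` is harmonic off `p`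
    intro e' he'
    refine (hΘ e' he').congr ?_
    intro z hz
    have hzp : e'.symm z ≠ p := hz.2
    unfold Frame.co
    congr 1
    rw [F.d_sub (h.smooth_u _ hzp).smoothAt (hφ _), ← hφa, haΘ _ hzp]
    ring
  · have h1 : DifferentiableOn ℂ (F.co e β) (ball 0 r) := by
      refine (hβ e he).mono fun z hz => ?_
      have hzt := h.ball_sub hz
      refine ⟨hzt, e.map_target hzt, ?_⟩
      show e (e.symm z) ∈ ball 0 r
      rw [e.right_inv hzt]
      exact hz
    obtain ⟨f, hf0, hf⟩ := (h1.isExactOn_ball).with_val_at 0 ((φ p : ℝ) : ℂ)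
    refine ⟨f, r, h.r_pos, le_rfl, fun z hz => (hf z hz).differentiableAt.differentiableWithinAt,
      ?_⟩
    have h2 : ∀ z ∈ ball (0 : ℂ) r, ContDiffAt ℝ ∞ (φ ∘ e.symm) z := by
      intro z hz
      have hzt := h.ball_sub hz
      have := (CS.smoothAt_iff he (e.map_target hzt)).1 (hφ (e.symm z))
      rwa [e.right_inv hzt] at this
    have h3 : ∀ z ∈ ball (0 : ℂ) r, DifferentiableAt ℝ (fun w => (f w).re) z := by
      intro z hz
      exact Complex.reCLM.differentiableAt.comp z
        ((hf z hz).differentiableAt.restrictScalars ℝ)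
    have h4 : ∀ z ∈ ball (0 : ℂ) r, fderiv ℝ (φ ∘ e.symm) z = fderiv ℝ (fun w => (f w).re) z := by
      intro z hz
      have hzt := h.ball_sub hz
      have h5 : cgrad (φ ∘ e.symm) z = cgrad (fun w => (f w).re) z := by
        rw [cgrad_re (hf z hz).differentiableAt, (hf z hz).deriv]
        have h6 := F.co_d he (e.map_target hzt) (hφ (e.symm z))
        rw [e.right_inv hzt] at h6
        rw [← h6]
        unfold Frame.co
        congr 1
        rw [← hφa]
        refine haB _ ⟨e.map_target hzt, ?_⟩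
        show e (e.symm z) ∈ ball 0 r
        rw [e.right_inv hzt]
        exact hz
      ext v
      rw [fderiv_eq_cgrad, fderiv_eq_cgrad, h5]
    intro z hz
    have h7 : (φ ∘ e.symm) 0 = (fun w => (f w).re) 0 := by
      show φ (e.symm 0) = (f 0).re
      rw [hf0, ← hep, e.left_inv hp]
      simp
    exact isOpen_ball.eqOn_of_fderiv_eq (convex_ball (0 : ℂ) r).isPreconnected
      (fun w hw => ((h2 w hw).differentiableAt (by simp)).differentiableWithinAt)
      (fun w hw => (h3 w hw).differentiableWithinAt) h4 (mem_ball_self h.r_pos) h7 hz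

end Pool.Agent.Lib.MP_cca10c_ag
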