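import Pool.Agent.Lib.MP_cca10c_ag.H21_Hodge
import Pool.Agent.Lib.MP_cca10c_ag.H22_IsPer
import Pool.Agent.Lib.MP_cca10c_ag.H26_Dipole

/-!
# Meromorphic functions with simple poles (H27)

`MerF S P E c f`: `f` is holomorphic off the points `P k` and `f = c k / z + holomorphic` in the chart
`E k` near `P k`. The values `f (P k)` are irrelevant.

`exists_merF`: for each `k` let `U1, V1` be the cut-off principal parts for `c = 1`
(`exists_cutPP`, with disjoint supports for different `k`), and by `exists_dipole` (with `c = 1` and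
`c = i`) smooth `φ k`, `φ' k`; then `U_c = ∑ (Re c_k) (U1 k - φ k) + (Im c_k) (- V1 k - φ' k)` is harmonic
off the poles with principal part `Re (c_k / z)`; `V_c = ∑ Re c_k V1 k + Im c_k U1 k`. The form
`- i d U_c - d V_c` extends over the poles to a closed form, whose class is an `ℝ`-linear function of
`c ∈ ℂ^N = ℝ^(2N)` with values in `ℝ^(2g)`. On its kernel `K` the form is `d φ`, and
`f = U_c + i (V_c + φ)` is the required function (Cauchy-Riemann, `differentiableAt_of_cgrad`; near a
pole `f - c_k / z` has bounded, hence removable singularity, or is directly `U + i V` of smooth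
functions satisfying the Cauchy-Riemann equations).
-/

set_option autoImplicit false

open Topology Set MeasureTheory Metric
open scoped ContDiff

namespace Pool.Agent.Lib.MP_cca10c_ag

variable {X : Type} [TopologicalSpace X]

/-- `f` is meromorphic with at most simple poles at the points `P k`, with principal parts
`c k / z` in the charts `E k` -/
structure MerF (S : CS X) {N : ℕ} (P : Fin N → X) (E : Fin N → OpenPartialHomeomorph X ℂ)
    (c : Fin N → ℂ) (f : X → ℂ) : Prop where
  hol : ∀ x, (∀ k, x ≠ P k) → S.HolAt f x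
  pole : ∀ k, ∃ h : ℂ → ℂ, (∀ᶠ z in 𝓝 0, DifferentiableAt ℂ h z) ∧
    ∀ᶠ z in 𝓝[≠] (0 : ℂ), f ((E k).symm z) = c k / z + h z

/-- points and charts at the points -/
structure PolePts (S : CS X) {N : ℕ} (P : Fin N → X)
    (E : Fin N → OpenPartialHomeomorph X ℂ) : Prop where
  inj : Function.Injective P
  mem : ∀ k, E k ∈ S.charts
  src : ∀ k, P k ∈ (E k).source
  zero : ∀ k, (E k) (P k) = 0

variable {S : CS X} {N : ℕ} {P : Fin N → X} {E : Fin N → OpenPartialHomeomorph X ℂ}

private theorem h27_symm_ev {e : OpenPartialHomeomorph X ℂ} {x : X} (hx : x ∈ e.source)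
    {p : X → Prop} (h : ∀ᶠ y in 𝓝 x, p y) : ∀ᶠ w in 𝓝 (e x), p (e.symm w) := by
  have h1 := e.symm.continuousAt (e.map_source hx)
  have h2 : Filter.Tendsto e.symm (𝓝 (e x)) (𝓝 x) := by
    have := h1.tendsto
    rwa [e.left_inv hx] at this
  exact h2.eventually h

private theorem h27_ev {e : OpenPartialHomeomorph X ℂ} {x : X} (hx : x ∈ e.source)
    {p : ℂ → Prop} (h : ∀ᶠ z in 𝓝 (e x), p z) : ∀ᶠ y in 𝓝 x, p (e y) :=
  (e.continuousAt hx).tendsto.eventually h

private theorem h27_symm_zero (hP : PolePts S P E) (k : Fin N) : (E k).symm 0 = P k := by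
  rw [← hP.zero k]
  exact (E k).left_inv (hP.src k)

private theorem h27_npole [T1Space X] {x : X} (hx : ∀ k, x ≠ P k) :
    ∀ᶠ y in 𝓝 x, ∀ k, y ≠ P k := by
  have h1 : IsClosed (Set.range P) := (Set.finite_range P).isClosed
  filter_upwards [h1.isOpen_compl.mem_nhds (by rintro ⟨k, hk⟩; exact hx k hk.symm)] with y hy k h
  exact hy ⟨k, h.symm⟩

private theorem h27_near_pole [T1Space X] (hP : PolePts S P E) (k : Fin N) :
    ∀ᶠ z in 𝓝[≠] (0 : ℂ), z ∈ (E k).target ∧ ∀ j, (E k).symm z ≠ P j := by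
  have h1 : IsClosed (P '' {j | j ≠ k}) := ((Set.toFinite _).image P).isClosed
  have h2 : P k ∉ P '' {j | j ≠ k} := by
    rintro ⟨j, hj, hjk⟩
    exact hj (hP.inj hjk)
  have h3 : ∀ᶠ y in 𝓝 (P k), y ∉ P '' {j | j ≠ k} := h1.isOpen_compl.mem_nhds h2
  have h4 := h27_symm_ev (hP.src k) h3
  have h5 : ∀ᶠ z in 𝓝 ((E k) (P k)), z ∈ (E k).target :=
    (E k).open_target.mem_nhds ((E k).map_source (hP.src k))
  rw [hP.zero k] at h4 h5
  rw [eventually_nhdsWithin_iff]
  filter_upwards [h4, h5] with z h6 h7 hz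
  refine ⟨h7, ?_⟩
  intro j hj
  by_cases hjk : j = k
  · subst hjk
    apply hz
    have h8 : (E j) ((E j).symm z) = (E j) (P j) := by rw [hj]
    rw [(E j).right_inv h7, hP.zero j] at h8
    exact h8
  · exact h6 ⟨j, hjk, hj.symm⟩

theorem MerF.add {c c' : Fin N → ℂ} {f f' : X → ℂ} (h : MerF S P E c f) (h' : MerF S P E c' f') :
    MerF S P E (c + c') (fun x => f x + f' x) := by
  refine ⟨fun x hx e he hxe => ?_, fun k => ?_⟩
  · filter_upwards [h.hol x hx e he hxe, h'.hol x hx e he hxe] with z h1 h2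
    exact h1.add h2
  · obtain ⟨h1, h2, h3⟩ := h.pole k
    obtain ⟨h4, h5, h6⟩ := h'.pole k
    refine ⟨fun z => h1 z + h4 z, ?_, ?_⟩
    · filter_upwards [h2, h5] with z a b
      exact a.add b
    · filter_upwards [h3, h6] with z a b
      rw [a, b, Pi.add_apply]
      ring

theorem MerF.const_mul {c : Fin N → ℂ} {f : X → ℂ} (a : ℂ) (h : MerF S P E c f) :
    MerF S P E (fun k => a * c k) (fun x => a * f x) := by
  refine ⟨fun x hx e he hxe => ?_, fun k => ?_⟩
  · filter_upwards [h.hol x hx e he hxe] with z h1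
    exact h1.const_mul a
  · obtain ⟨h1, h2, h3⟩ := h.pole k
    refine ⟨fun z => a * h1 z, ?_, ?_⟩
    · filter_upwards [h2] with z b
      exact b.const_mul a
    · filter_upwards [h3] with z b
      rw [b]
      ring

theorem merF_const (a : ℂ) : MerF S P E (fun _ => 0) (fun _ => a) := by
  refine ⟨fun x hx e he hxe => ?_, fun k => ?_⟩
  · exact Filter.Eventually.of_forall fun z => differentiableAt_const a
  · refine ⟨fun _ => a, Filter.Eventually.of_forall fun z => differentiableAt_const a, ?_⟩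
    exact Filter.Eventually.of_forall fun z => by simp

private theorem h27_cont_of_hol {G : X → ℂ} (hG : ∀ x, S.HolAt G x) : Continuous G := by
  rw [continuous_iff_continuousAt]
  intro x
  obtain ⟨e, he, hx⟩ := S.cover x
  have h1 : DifferentiableAt ℂ (G ∘ e.symm) (e x) := (hG x e he hx).self_of_nhds
  have h2 : ContinuousAt ((G ∘ e.symm) ∘ e) x := h1.continuousAt.comp (e.continuousAt hx)
  refine h2.congr ?_
  filter_upwards [e.open_source.mem_nhds hx] with y hy
  show G (e.symm (e y)) = G y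
  rw [e.left_inv hy]

variable [CompactSpace X] [T2Space X]

/-- a meromorphic function without poles is constant -/
theorem MerF.eq_const [ConnectedSpace X] (hP : PolePts S P E) {f : X → ℂ}
    (h : MerF S P E (fun _ => 0) f) : ∃ a : ℂ, ∀ x, (∀ k, x ≠ P k) → f x = a := by
  classical
  choose hh h1 h2 using h.pole
  obtain ⟨G, hGdef⟩ : ∃ G : X → ℂ, G = fun x => if hx : ∃ k, x = P k then hh hx.choose 0 else f x :=
    ⟨_, rfl⟩
  have hG0 : ∀ x, (∀ k, x ≠ P k) → G x = f x := by
    intro x hx
    have hx' : ¬ ∃ k, x = P k := by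
      rintro ⟨k, hk⟩
      exact hx k hk
    rw [hGdef]
    simp only
    rw [dif_neg hx']
  have hGP : ∀ k, G (P k) = hh k 0 := by
    intro k
    have hx : ∃ j, P k = P j := ⟨k, rfl⟩
    rw [hGdef]
    simp only
    rw [dif_pos hx]
    have h3 := hP.inj hx.choose_spec
    rw [← h3]
  have hG : ∀ x, S.HolAt G x := by
    intro x
    by_cases hx : ∃ k, x = P k
    · obtain ⟨k, rfl⟩ := hx
      rw [CS.holAt_iff (hP.mem k) (hP.src k), hP.zero k]
      have h5 : ∀ᶠ z in 𝓝 (0 : ℂ), (G ∘ (E k).symm) z = hh k z := by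
        have h3 := h2 k
        have h4 := h27_near_pole hP k
        rw [eventually_nhdsWithin_iff] at h3 h4
        filter_upwards [h3, h4] with z h5 h6
        by_cases hz : z = 0
        · subst hz
          show G ((E k).symm 0) = _
          rw [h27_symm_zero hP k, hGP]
        · show G ((E k).symm z) = _
          rw [hG0 _ (h6 hz).2, h5 hz]
          simp
      filter_upwards [h5.eventually_nhds, h1 k] with z h6 h7
      exact h7.congr_of_eventuallyEq h6
    · have hx' : ∀ k, x ≠ P k := fun k hk => hx ⟨k, hk⟩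
      intro e he hxe
      have h3 := h.hol x hx' e he hxe
      have h4 : ∀ᶠ z in 𝓝 (e x), (G ∘ e.symm) z = (f ∘ e.symm) z :=
        h27_symm_ev hxe ((h27_npole hx').mono fun y hy => hG0 y hy)
      filter_upwards [h3, h4.eventually_nhds] with z h5 h6
      exact h5.congr_of_eventuallyEq h6
  have hGc : Continuous G := h27_cont_of_hol hG
  obtain ⟨x0, -, hx0⟩ := isCompact_univ.exists_isMaxOn (univ_nonempty (α := X))
    (continuous_norm.comp hGc).continuousOn
  have hmax : ∀ y, ‖G y‖ ≤ ‖G x0‖ := fun y => hx0 (mem_univ y)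
  have hclo : IsClosed {x | G x = G x0} := isClosed_eq hGc continuous_const
  have hope : IsOpen {x | G x = G x0} := by
    rw [isOpen_iff_mem_nhds]
    intro x hx
    obtain ⟨e, he, hxe⟩ := S.cover x
    have hx' : G x = G x0 := hx
    have h3 : IsLocalMax (norm ∘ (G ∘ e.symm)) (e x) := by
      refine Filter.Eventually.of_forall fun z => ?_
      show ‖G (e.symm z)‖ ≤ ‖G (e.symm (e x))‖
      rw [e.left_inv hxe, hx']
      exact hmax _
    have h4 := Complex.eventually_eq_of_isLocalMax_norm (hG x e he hxe) h3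
    have h5 := h27_ev hxe h4
    filter_upwards [h5, e.open_source.mem_nhds hxe] with y h6 h7
    have h8 : G (e.symm (e y)) = G (e.symm (e x)) := h6
    rw [e.left_inv h7, e.left_inv hxe] at h8
    show G y = G x0
    rw [h8, hx']
  have huniv : {x | G x = G x0} = univ := IsClopen.eq_univ ⟨hclo, hope⟩ ⟨x0, rfl⟩
  refine ⟨G x0, fun x hx => ?_⟩
  rw [← hG0 x hx]
  have : x ∈ {x | G x = G x0} := by rw [huniv]; trivial
  exact this

omit [CompactSpace X] [T2Space X] in
private theorem h27_hol_of_co {F : Frame S} {b : X → ℂ}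
    (h : ∀ x, ∃ e ∈ S.charts, x ∈ e.source ∧ ∀ᶠ z in 𝓝 (e x), DifferentiableAt ℂ (F.co e b) z) :
    F.Hol b := by
  intro e' he' z hz
  obtain ⟨hz1, -⟩ := hz
  obtain ⟨e, he, hxe, hd⟩ := h (e'.symm z)
  have hx' : e'.symm z ∈ e'.source := e'.map_target hz1
  have h1 : ∀ᶠ w in 𝓝 z, w ∈ e'.target := e'.open_target.mem_nhds hz1
  have h2 : ∀ᶠ w in 𝓝 z, e'.symm w ∈ e.source := by
    have h3 := h27_symm_ev hx' (e.open_source.mem_nhds hxe)
    rwa [e'.right_inv hz1] at h3
  have h4 : F.co e' b =ᶠ[𝓝 z] fun w => F.co e b ((e ∘ e'.symm) w) * deriv (e ∘ e'.symm) w := by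
    filter_upwards [h1, h2] with w hw1 hw2
    have h5 := Frame.co_trans F (a := b) he' he (e'.map_target hw1) hw2
    rw [e'.right_inv hw1] at h5
    exact h5
  have h6 : ∀ᶠ w in 𝓝 z, DifferentiableAt ℂ (e ∘ e'.symm) w := by
    have h7 := CS.eventually_trans_differentiableAt he' he hx' hxe
    rwa [e'.right_inv hz1] at h7
  have h8 : AnalyticAt ℂ (e ∘ e'.symm) z := by
    rw [Complex.analyticAt_iff_eventually_differentiableAt]
    exact h6
  have h9 : DifferentiableAt ℂ (deriv (e ∘ e'.symm)) z := h8.deriv.differentiableAt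
  have h10 : DifferentiableAt ℂ (fun w => F.co e b ((e ∘ e'.symm) w)) z := by
    have h11 : DifferentiableAt ℂ (F.co e b) ((e ∘ e'.symm) z) := hd.self_of_nhds
    exact h11.comp z h6.self_of_nhds
  exact ((h10.mul h9).congr_of_eventuallyEq h4).differentiableWithinAt

/-- multiplication of a harmonic form vanishing at the poles -/
theorem MerF.mul_hol {F : Frame S} (hP : PolePts S P E) {c : Fin N → ℂ} {f : X → ℂ}
    (h : MerF S P E c f) {a : X → ℂ} (ha : F.Hol a) (h0 : ∀ k, a (P k) = 0) :
    ∃ b : X → ℂ, F.Hol b ∧ ∀ x, (∀ k, x ≠ P k) → b x = f x * a x := by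
  classical
  choose hh h1 h2 using h.pole
  obtain ⟨D, hD⟩ : ∃ D : Fin N → ℂ → ℂ, D = fun k z =>
      c k * dslope (F.co (E k) a) 0 z + hh k z * F.co (E k) a z := ⟨_, rfl⟩
  obtain ⟨b, hbdef⟩ : ∃ b : X → ℂ, b = fun x => if hx : ∃ k, x = P k then
      D hx.choose 0 / deriv (F.ch (P hx.choose) ∘ (E hx.choose).symm) 0 else f x * a x := ⟨_, rfl⟩
  have hb0 : ∀ x, (∀ k, x ≠ P k) → b x = f x * a x := by
    intro x hx
    have hx' : ¬ ∃ k, x = P k := by
      rintro ⟨k, hk⟩
      exact hx k hk
    rw [hbdef]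
    simp only
    rw [dif_neg hx']
  have hbP : ∀ k, b (P k) = D k 0 / deriv (F.ch (P k) ∘ (E k).symm) 0 := by
    intro k
    have hx : ∃ j, P k = P j := ⟨k, rfl⟩
    rw [hbdef]
    simp only
    rw [dif_pos hx]
    have h3 := hP.inj hx.choose_spec
    rw [← h3]
  refine ⟨b, ?_, hb0⟩
  apply h27_hol_of_co
  intro x
  by_cases hx : ∃ k, x = P k
  · obtain ⟨k, rfl⟩ := hx
    refine ⟨E k, hP.mem k, hP.src k, ?_⟩
    rw [hP.zero k]
    have hA : ∀ᶠ z in 𝓝 (0 : ℂ), DifferentiableAt ℂ (F.co (E k) a) z := by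
      have h3 : (0 : ℂ) ∈ (E k).target := by
        rw [← hP.zero k]
        exact (E k).map_source (hP.src k)
      filter_upwards [(E k).open_target.mem_nhds h3] with z hz
      have h4 := ha (E k) (hP.mem k)
      rw [preimage_univ, inter_univ] at h4
      exact h4.differentiableAt ((E k).open_target.mem_nhds hz)
    have hA0 : F.co (E k) a 0 = 0 := by
      have h3 := Frame.co_at F (a := a) (hP.src k)
      rw [hP.zero k, h0 k, zero_mul] at h3
      exact h3
    have hDd : ∀ᶠ z in 𝓝 (0 : ℂ), DifferentiableAt ℂ (D k) z := by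
      obtain ⟨s, hs1, hs2⟩ := eventually_nhds_iff_ball.1 (hA.and (h1 k))
      have h3 : DifferentiableOn ℂ (dslope (F.co (E k) a) 0) (ball 0 s) := by
        rw [Complex.differentiableOn_dslope (ball_mem_nhds 0 hs1)]
        intro z hz
        exact (hs2 z hz).1.differentiableWithinAt
      filter_upwards [ball_mem_nhds (0 : ℂ) hs1] with z hz
      rw [hD]
      exact ((h3.differentiableAt (isOpen_ball.mem_nhds hz)).const_mul _).add
        ((hs2 z hz).2.mul (hs2 z hz).1)
    have hco : ∀ᶠ z in 𝓝 (0 : ℂ), F.co (E k) b z = D k z := by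
      have h3 := h2 k
      have h4 := h27_near_pole hP k
      rw [eventually_nhdsWithin_iff] at h3 h4
      filter_upwards [h3, h4] with z h5 h6
      by_cases hz : z = 0
      · subst hz
        unfold Frame.co
        rw [h27_symm_zero hP k, hbP]
        have h7 := CS.deriv_trans_ne_zero (hP.mem k) (F.ch_mem (P k)) (hP.src k) (F.mem_ch (P k))
        rw [hP.zero k] at h7
        exact div_mul_cancel₀ _ h7
      · have h8 : F.co (E k) b z = f ((E k).symm z) * F.co (E k) a z := by
          unfold Frame.co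
          rw [hb0 _ (h6 hz).2]
          ring
        rw [h8, h5 hz, hD]
        simp only
        rw [dslope_of_ne _ hz, slope_def_field, hA0]
        ring
    filter_upwards [hco.eventually_nhds, hDd] with z h6 h7
    exact h7.congr_of_eventuallyEq h6
  · have hx' : ∀ k, x ≠ P k := fun k hk => hx ⟨k, hk⟩
    obtain ⟨e, he, hxe⟩ := S.cover x
    refine ⟨e, he, hxe, ?_⟩
    have h3 := h.hol x hx' e he hxe
    have h4 : ∀ᶠ z in 𝓝 (e x), F.co e b z = (f ∘ e.symm) z * F.co e a z := by
      filter_upwards [h27_symm_ev hxe (h27_npole hx')] with z hz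
      unfold Frame.co
      rw [hb0 _ hz]
      show _ = f (e.symm z) * _
      ring
    have h5 : ∀ᶠ z in 𝓝 (e x), DifferentiableAt ℂ (F.co e a) z := by
      filter_upwards [e.open_target.mem_nhds (e.map_source hxe)] with z hz
      have h4 := ha e he
      rw [preimage_univ, inter_univ] at h4
      exact h4.differentiableAt (e.open_target.mem_nhds hz)
    filter_upwards [h3, h4.eventually_nhds, h5] with z h6 h7 h8
    exact (h6.mul h8).congr_of_eventuallyEq h7

/-- data at a single pole -/
private structure h27_SP (F : Frame S) (e : OpenPartialHomeomorph X ℂ) (p : X) (c : ℂ)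
    (U V : X → ℝ) (β : X → ℂ) : Prop where
  su : ∀ x, x ≠ p → S.SmoothNear U x
  sv : ∀ x, x ≠ p → S.SmoothNear V x
  cl : F.Closed β
  eq : ∀ x, x ≠ p → β x = -Complex.I * F.d U x - F.d V x
  loc : ∃ R : ℂ → ℝ, ContinuousAt R 0 ∧ ∀ᶠ z in 𝓝[≠] (0 : ℂ),
    U (e.symm z) = (c / z).re + R z ∧ V (e.symm z) = (c / z).im

private theorem h27_contDiff_im {k : ℂ → ℂ} {z : ℂ}
    (hk : ∀ᶠ w in 𝓝 z, DifferentiableAt ℂ k w) : ContDiffAt ℝ ∞ (fun w => (k w).im) z := by
  have h1 : AnalyticAt ℂ k z := by
    rw [Complex.analyticAt_iff_eventually_differentiableAt]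
    exact hk
  have h2 : ContDiffAt ℝ ∞ k z := (h1.contDiffAt).restrict_scalars ℝ
  exact Complex.imCLM.contDiff.contDiffAt.comp z h2

private theorem h27_exists_SP [MeasurableSpace X] [BorelSpace X] {F : Frame S} (hF : F.Tame)
    (hE : F.ExL) {e : OpenPartialHomeomorph X ℂ} (he : e ∈ S.charts) {p : X} (hp : p ∈ e.source)
    (hep : e p = 0) (c : ℂ) : ∃ U V β, h27_SP F e p c U V β := by
  classical
  obtain ⟨r, U1, V1, -, -, hc⟩ := exists_cutPP he hp hep (Filter.univ_mem (f := 𝓝 p))
  have h := hc c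
  generalize (fun x => c.re * U1 x - c.im * V1 x) = U0 at h
  generalize (fun x => c.re * V1 x + c.im * U1 x) = V0 at h
  obtain ⟨φ, hφ, hhol, f, s, hs, hsr, hf, hfz⟩ := exists_dipole hF hE he hp hep h
  have hfd : ∀ z ∈ ball (0 : ℂ) s, ∀ᶠ w in 𝓝 z, DifferentiableAt ℂ f w := by
    intro z hz
    filter_upwards [isOpen_ball.mem_nhds hz] with w hw
    exact hf.differentiableAt (isOpen_ball.mem_nhds hw)
  have hUs : ∀ x, x ≠ p → S.SmoothNear (fun x => U0 x - φ x) x := by
    intro x hx
    exact (Filter.Eventually.and (h.smooth_u x hx) hφ.smoothNear).mono fun _ hy => hy.1.sub hy.2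
  have hnear : ∀ᶠ y in 𝓝 p, y ∈ e.source ∧ e y ∈ ball (0 : ℂ) s := by
    refine Filter.Eventually.and (e.open_source.mem_nhds hp) ?_
    apply h27_ev hp
    rw [hep]
    exact ball_mem_nhds 0 hs
  have hball : ∀ z ∈ ball (0 : ℂ) s, z ∈ e.target := fun z hz =>
    h.ball_sub (ball_subset_ball hsr hz)
  refine ⟨fun x => U0 x - φ x, V0, fun x => if x = p then F.d (fun y => (-(f (e y))).im) p else
    -Complex.I * F.d (fun x => U0 x - φ x) x - F.d V0 x, hUs, h.smooth_v, ?_, ?_, ?_⟩
  · intro x
    by_cases hx : x = p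
    · subst hx
      have hks : ∀ y, y ∈ e.source → e y ∈ ball (0 : ℂ) s →
          S.SmoothAt (fun y => (-(f (e y))).im) y := by
        intro y hy1 hy2
        refine CS.SmoothAt.of_chart (k := fun w => (-(f w)).im) he hy1 ?_
        apply h27_contDiff_im (k := fun w => -(f w))
        exact (hfd _ hy2).mono fun w hw => hw.neg
      refine ⟨fun y => (-(f (e y))).im, hnear.mono fun y hy => hks y hy.1 hy.2, ?_⟩
      filter_upwards [hnear] with y hy
      obtain ⟨hy1, hy2⟩ := hy
      by_cases hyp : y = x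
      · rw [if_pos hyp, hyp]
      · rw [if_neg hyp]
        have hz0 : e y ≠ 0 := by
          intro h3
          apply hyp
          apply e.injOn hy1 hp
          rw [h3, hep]
        have hdiv : DifferentiableAt ℂ (fun z : ℂ => c / z) (e y) :=
          (differentiableAt_const c).div differentiableAt_id hz0
        have hfy : DifferentiableAt ℂ f (e y) := (hfd _ hy2).self_of_nhds
        have hnz : ∀ᶠ z in 𝓝 (e y), z ∈ ball (0 : ℂ) s ∧ z ≠ 0 :=
          Filter.Eventually.and (isOpen_ball.mem_nhds hy2) (isOpen_ne.mem_nhds hz0)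
        have hcU : F.co e (F.d (fun x => U0 x - φ x)) (e y) =
            deriv (fun z => c / z - f z) (e y) := by
          rw [Frame.co_d F he hy1 (hUs y hyp).smoothAt]
          have h3 : ((fun x => U0 x - φ x) ∘ e.symm) =ᶠ[𝓝 (e y)] fun z => (c / z - f z).re := by
            filter_upwards [hnz] with z hz
            show U0 (e.symm z) - φ (e.symm z) = _
            rw [h.eq_u z (ball_subset_ball hsr hz.1) hz.2, hfz z hz.1, Complex.sub_re]
          rw [cgrad_congr h3]
          exact cgrad_re (hdiv.sub hfy)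
        have hcV : F.co e (F.d V0) (e y) = -Complex.I * deriv (fun z => c / z) (e y) := by
          rw [Frame.co_d F he hy1 (h.smooth_v y hyp).smoothAt]
          have h3 : (V0 ∘ e.symm) =ᶠ[𝓝 (e y)] fun z => (c / z).im := by
            filter_upwards [hnz] with z hz
            exact h.eq_v z (ball_subset_ball hsr hz.1) hz.2
          rw [cgrad_congr h3]
          exact cgrad_im hdiv
        have hcK : F.co e (F.d (fun y => (-(f (e y))).im)) (e y) =
            -Complex.I * deriv (fun z => -(f z)) (e y) := by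
          rw [Frame.co_d F he hy1 (hks y hy1 hy2)]
          have h3 : ((fun y => (-(f (e y))).im) ∘ e.symm) =ᶠ[𝓝 (e y)] fun z => (-(f z)).im := by
            filter_upwards [hnz] with z hz
            show (-(f (e (e.symm z)))).im = _
            rw [e.right_inv (hball z hz.1)]
          rw [cgrad_congr h3]
          exact cgrad_im hfy.neg
        have h4 : F.co e (fun x => -Complex.I * F.d (fun x => U0 x - φ x) x - F.d V0 x) (e y) =
            -Complex.I * F.co e (F.d (fun x => U0 x - φ x)) (e y) - F.co e (F.d V0) (e y) := by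
          unfold Frame.co
          ring
        have h5 : F.co e (fun x => -Complex.I * F.d (fun x => U0 x - φ x) x - F.d V0 x) (e y) =
            F.co e (F.d (fun y => (-(f (e y))).im)) (e y) := by
          rw [h4, hcU, hcV, hcK]
          have h6 : deriv (fun z => c / z - f z) (e y) = deriv (fun z => c / z) (e y) -
              deriv f (e y) := deriv_fun_sub hdiv hfy
          have h7 : deriv (fun z => -(f z)) (e y) = -deriv f (e y) := deriv.fun_neg
          rw [h6, h7]
          ring
        exact Frame.eq_of_co F he hy1 h5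
    · have h3 : F.HolIn {p}ᶜ (fun y => -Complex.I * F.d (fun x => U0 x - φ x) y) :=
        hhol.const_mul _
      obtain ⟨k, hk, hka⟩ := h3.exists_primitive isOpen_compl_singleton
        (show x ∈ ({p}ᶜ : Set X) from hx)
      have hkh : ∀ᶠ y in 𝓝 x, S.HolAt k y := by
        obtain ⟨e1, he1, hx1⟩ := S.cover x
        have h4 := (hk e1 he1 hx1).eventually_nhds
        have h5 := h27_ev hx1 h4
        filter_upwards [h5, e1.open_source.mem_nhds hx1] with y hy hye
        exact (CS.holAt_iff he1 hye).2 hy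
      have hsm : ∀ᶠ y in 𝓝 x, S.SmoothAt (fun z => (k z).re) y ∧ S.SmoothAt V0 y :=
        Filter.Eventually.and (hkh.mono fun y hy => hy.smoothAt_re) (h.smooth_v x hx)
      refine ⟨fun y => (k y).re - V0 y, hsm.mono fun y hy => hy.1.sub hy.2, ?_⟩
      filter_upwards [hsm, hka, isOpen_compl_singleton.mem_nhds
        (show x ∈ ({p}ᶜ : Set X) from hx)] with y h4 h5 h6
      rw [if_neg (show y ≠ p from h6), h5, F.d_sub h4.1 h4.2]
  · intro x hx
    rw [if_neg hx]
  · refine ⟨fun z => -(f z).re, ?_, ?_⟩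
    · have h3 : ContinuousAt f 0 := (hfd 0 (mem_ball_self hs)).self_of_nhds.continuousAt
      exact (Complex.continuous_re.continuousAt.comp h3).neg
    · rw [eventually_nhdsWithin_iff]
      filter_upwards [ball_mem_nhds (0 : ℂ) hs] with z hz hz0
      refine ⟨?_, h.eq_v z (ball_subset_ball hsr hz) hz0⟩
      rw [h.eq_u z (ball_subset_ball hsr hz) hz0, hfz z hz]
      ring

omit [CompactSpace X] in
private theorem h27_mk {F : Frame S} (hP : PolePts S P E) {c : Fin N → ℂ} {U V φ : X → ℝ}
    (hU : ∀ x, (∀ k, x ≠ P k) → S.SmoothNear U x)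
    (hV : ∀ x, (∀ k, x ≠ P k) → S.SmoothNear V x) (hφ : S.Smooth φ)
    (hd : ∀ x, (∀ k, x ≠ P k) → F.d φ x = -Complex.I * F.d U x - F.d V x)
    (hl : ∀ k, ∃ R I : ℂ → ℝ, ContinuousAt R 0 ∧ ContinuousAt I 0 ∧ ∀ᶠ z in 𝓝[≠] (0 : ℂ),
      U ((E k).symm z) = (c k / z).re + R z ∧ V ((E k).symm z) = (c k / z).im + I z) :
    ∃ f, MerF S P E c f := by
  obtain ⟨f, hf⟩ : ∃ f : X → ℂ, f = fun x => (U x : ℂ) + Complex.I * ((V x + φ x : ℝ) : ℂ) :=
    ⟨_, rfl⟩
  have hfre : ∀ x, (f x).re = U x := by
    intro x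
    rw [hf]
    simp
  have hfim : ∀ x, (f x).im = V x + φ x := by
    intro x
    rw [hf]
    simp
  have hhol : ∀ x, (∀ k, x ≠ P k) → S.HolAt f x := by
    intro x hx e he hxe
    have h1 : ∀ᶠ y in 𝓝 x, (∀ k, y ≠ P k) ∧ S.SmoothAt U y ∧ S.SmoothAt V y ∧ y ∈ e.source := by
      filter_upwards [h27_npole hx, hU x hx, hV x hx, e.open_source.mem_nhds hxe] with y a b c d
      exact ⟨a, b, c, d⟩
    filter_upwards [h27_symm_ev hxe h1, e.open_target.mem_nhds (e.map_source hxe)] with z hz hzt
    obtain ⟨hz1, hz2, hz3, hz4⟩ := hz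
    have hzz : e (e.symm z) = z := e.right_inv hzt
    have hUd : DifferentiableAt ℝ (U ∘ e.symm) z := by
      have := (hz2 e he hz4).differentiableAt (by simp)
      rwa [hzz] at this
    have hVd : DifferentiableAt ℝ (V ∘ e.symm) z := by
      have := (hz3 e he hz4).differentiableAt (by simp)
      rwa [hzz] at this
    have hφd : DifferentiableAt ℝ (φ ∘ e.symm) z := by
      have := (hφ _ e he hz4).differentiableAt (by simp)
      rwa [hzz] at this
    have e1 : (fun w => ((f ∘ e.symm) w).re) = U ∘ e.symm := by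
      funext w
      exact hfre _
    have e2 : (fun w => ((f ∘ e.symm) w).im) = fun w => (V ∘ e.symm) w + (φ ∘ e.symm) w := by
      funext w
      exact hfim _
    refine differentiableAt_of_cgrad ?_ ?_ ?_
    · rw [e1]
      exact hUd
    · rw [e2]
      exact hVd.add hφd
    · rw [e1, e2, cgrad_add hVd hφd]
      have c1 := Frame.co_d F he hz4 hz2
      have c2 := Frame.co_d F he hz4 hz3
      have c3 := Frame.co_d F he hz4 (hφ (e.symm z))
      have c4 := hd _ hz1
      rw [Frame.co_at F hz4, hzz] at c1 c2 c3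
      rw [← c1, ← c2, ← c3, c4]
      ring
  refine ⟨f, hhol, fun k => ?_⟩
  obtain ⟨R, I, hR, hI, hRI⟩ := hl k
  have h1 : ∀ᶠ z in 𝓝[≠] (0 : ℂ), f ((E k).symm z) =
      c k / z + ((R z : ℂ) + Complex.I * ((I z + φ ((E k).symm z) : ℝ) : ℂ)) := by
    filter_upwards [hRI] with z hz
    apply Complex.ext
    · rw [hfre, hz.1]
      simp
    · rw [hfim, hz.2]
      simp
      ring
  refine ⟨fun z => (R z : ℂ) + Complex.I * ((I z + φ ((E k).symm z) : ℝ) : ℂ), ?_, h1⟩
  have h2 : ∀ᶠ z in 𝓝[≠] (0 : ℂ), DifferentiableAt ℂ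
      (fun z => (R z : ℂ) + Complex.I * ((I z + φ ((E k).symm z) : ℝ) : ℂ)) z := by
    have h3 := eventually_eventually_nhdsWithin.2 h1
    have h4 := h27_near_pole hP k
    filter_upwards [h3, h4, self_mem_nhdsWithin] with z h5 h6 h7
    have h8 : 𝓝[≠] (0 : ℂ) = 𝓝[{(0 : ℂ)}ᶜ] 0 := rfl
    have h9 : 𝓝[{(0 : ℂ)}ᶜ] z = 𝓝 z := isOpen_compl_singleton.nhdsWithin_eq h7
    rw [h9] at h5
    have h10 : DifferentiableAt ℂ (f ∘ (E k).symm) z := by
      have := (hhol _ h6.2 (E k) (hP.mem k) ((E k).map_target h6.1)).self_of_nhds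
      rwa [(E k).right_inv h6.1] at this
    have h11 : DifferentiableAt ℂ (fun z : ℂ => c k / z) z :=
      (differentiableAt_const _).div differentiableAt_id h7
    refine (h10.sub h11).congr_of_eventuallyEq ?_
    filter_upwards [h5] with w hw
    show _ = f ((E k).symm w) - c k / w
    rw [hw]
    ring
  have h3 : ContinuousAt
      (fun z => (R z : ℂ) + Complex.I * ((I z + φ ((E k).symm z) : ℝ) : ℂ)) 0 := by
    have h4 : ContinuousAt (fun z => φ ((E k).symm z)) 0 := by
      have h5 : (0 : ℂ) ∈ (E k).target := by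
        rw [← hP.zero k]
        exact (E k).map_source (hP.src k)
      exact hφ.continuous.continuousAt.comp ((E k).symm.continuousAt h5)
    exact (Complex.continuous_ofReal.continuousAt.comp hR).add
      (continuousAt_const.mul (Complex.continuous_ofReal.continuousAt.comp (hI.add h4)))
  obtain ⟨s, hs1, hs2⟩ := Metric.eventually_nhds_iff_ball.1 (eventually_nhdsWithin_iff.1 h2)
  have h5 : DifferentiableOn ℂ
      (fun z => (R z : ℂ) + Complex.I * ((I z + φ ((E k).symm z) : ℝ) : ℂ)) (ball 0 s) := by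
    rw [← Complex.differentiableOn_compl_singleton_and_continuousAt_iff (ball_mem_nhds 0 hs1)]
    refine ⟨?_, h3⟩
    intro z hz
    exact (hs2 z hz.1 hz.2).differentiableWithinAt
  filter_upwards [ball_mem_nhds (0 : ℂ) hs1] with z hz
  exact h5.differentiableAt (isOpen_ball.mem_nhds hz)

private theorem h27_cls_sum [MeasurableSpace X] [BorelSpace X] {F : Frame S} {g : ℕ} {u v : Fin g → X → UnitAddCircle} {ι : Type}
    (s : Finset ι) {A : ι → X → ℂ} {y : ι → Fin g ⊕ Fin g → ℝ}
    (h : ∀ k ∈ s, F.Cls u v (A k) (y k)) :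
    F.Cls u v (fun p => ∑ k ∈ s, A k p) (fun i => ∑ k ∈ s, y k i) := by
  classical
  induction s using Finset.induction_on with
  | empty =>
    refine ⟨fun _ => 0, fun x => CS.SmoothAt.const 0, fun p => ?_⟩
    simp [Frame.lin, F.d_const]
  | insert j s hj ih =>
    have h1 := (h j (Finset.mem_insert_self _ _)).add
      (ih fun i hi => h i (Finset.mem_insert_of_mem hi))
    have h2 : (fun p => ∑ k ∈ insert j s, A k p) = fun p => A j p + ∑ k ∈ s, A k p := by
      funext p
      rw [Finset.sum_insert hj]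
    have h3 : (fun i => ∑ k ∈ insert j s, y k i) = fun i => y j i + ∑ k ∈ s, y k i := by
      funext p
      rw [Finset.sum_insert hj]
    rw [h2, h3]
    exact h1

private theorem h27_re (c z : ℂ) : c.re * (1 / z).re + c.im * (Complex.I / z).re = (c / z).re := by
  have h : c / z = (c.re : ℂ) * (1 / z) + (c.im : ℂ) * (Complex.I / z) := by
    conv_lhs => rw [← Complex.re_add_im c]
    ring
  rw [h, Complex.add_re, Complex.re_ofReal_mul, Complex.re_ofReal_mul]

private theorem h27_im (c z : ℂ) : c.re * (1 / z).im + c.im * (Complex.I / z).im = (c / z).im := by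
  have h : c / z = (c.re : ℂ) * (1 / z) + (c.im : ℂ) * (Complex.I / z) := by
    conv_lhs => rw [← Complex.re_add_im c]
    ring
  rw [h, Complex.add_im, Complex.im_ofReal_mul, Complex.im_ofReal_mul]

/-- existence, genus `g` -/
theorem exists_merF {g : ℕ} {u v : Fin g → X → UnitAddCircle} (hb : SymplBasis S g u v)
    (hP : PolePts S P E) :
    ∃ K : Submodule ℝ (Fin N → ℂ), 2 * N ≤ Module.finrank ℝ K + 2 * g ∧
      ∀ c ∈ K, ∃ f, MerF S P E c f := by
  classical
  letI : MeasurableSpace X := borel X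
  haveI : BorelSpace X := ⟨rfl⟩
  obtain ⟨F, hF⟩ := CS.exists_tame S
  have hE : F.ExL := fun a ha hl => Frame.Lim.exact hb hF ha hl
  have h1 : ∀ k, ∃ U V β, h27_SP F (E k) (P k) 1 U V β := fun k =>
    h27_exists_SP hF hE (hP.mem k) (hP.src k) (hP.zero k) 1
  have h2 : ∀ k, ∃ U V β, h27_SP F (E k) (P k) Complex.I U V β := fun k =>
    h27_exists_SP hF hE (hP.mem k) (hP.src k) (hP.zero k) Complex.I
  choose U1 V1 β1 h1 using h1
  choose U2 V2 β2 h2 using h2
  have hx1 : ∀ k, ∃ x, F.Cls u v (β1 k) x := fun k => (h1 k).cl.exists_cls hb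
  have hx2 : ∀ k, ∃ x, F.Cls u v (β2 k) x := fun k => (h2 k).cl.exists_cls hb
  choose x1 hx1 using hx1
  choose x2 hx2 using hx2
  let L : (Fin N → ℂ) →ₗ[ℝ] (Fin g ⊕ Fin g → ℝ) :=
    ∑ k, ((Complex.reLm ∘ₗ (LinearMap.proj k : (Fin N → ℂ) →ₗ[ℝ] ℂ)).smulRight (x1 k) +
      (Complex.imLm ∘ₗ (LinearMap.proj k : (Fin N → ℂ) →ₗ[ℝ] ℂ)).smulRight (x2 k))
  have hL : ∀ c i, L c i = ∑ k, ((c k).re * x1 k i + (c k).im * x2 k i) := by
    intro c i
    simp [L, LinearMap.sum_apply, Finset.sum_apply]
  refine ⟨LinearMap.ker L, ?_, ?_⟩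
  · have h3 := LinearMap.finrank_range_add_finrank_ker L
    have h4 : Module.finrank ℝ (Fin N → ℂ) = N * 2 := by
      rw [Module.finrank_pi_fintype]
      simp [Complex.finrank_real_complex]
    have h5 : Module.finrank ℝ (LinearMap.range L) ≤ 2 * g := by
      refine (Submodule.finrank_le _).trans ?_
      rw [Module.finrank_fintype_fun_eq_card]
      simp
      omega
    omega
  · intro c hc
    have hLc : ∀ i, ∑ k, ((c k).re * x1 k i + (c k).im * x2 k i) = 0 := by
      intro i
      rw [← hL, LinearMap.mem_ker.1 hc]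
      rfl
    have h3 : F.Cls u v (fun p => ∑ k, (((c k).re : ℂ) * β1 k p + ((c k).im : ℂ) * β2 k p))
        (fun i => ∑ k, ((c k).re * x1 k i + (c k).im * x2 k i)) :=
      h27_cls_sum Finset.univ fun k _ => ((hx1 k).const_mul _).add ((hx2 k).const_mul _)
    obtain ⟨φ, hφ, h4⟩ := h3
    have h5 : ∀ p, ∑ k, (((c k).re : ℂ) * β1 k p + ((c k).im : ℂ) * β2 k p) = F.d φ p := by
      intro p
      refine (h4 p).trans ?_
      simp [Frame.lin, hLc]
    have hs1 : ∀ x, (∀ k, x ≠ P k) → ∀ᶠ y in 𝓝 x, ∀ k ∈ Finset.univ,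
        S.SmoothAt (fun y => (c k).re * U1 k y + (c k).im * U2 k y) y ∧
        S.SmoothAt (fun y => (c k).re * V1 k y + (c k).im * V2 k y) y := by
      intro x hx
      rw [Filter.eventually_all_finset]
      intro k _
      filter_upwards [(h1 k).su x (hx k), (h2 k).su x (hx k), (h1 k).sv x (hx k),
        (h2 k).sv x (hx k)] with y a b c' d
      exact ⟨(a.const_mul _).add (b.const_mul _), (c'.const_mul _).add (d.const_mul _)⟩
    refine h27_mk (F := F) hP (U := fun x => ∑ k, ((c k).re * U1 k x + (c k).im * U2 k x))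
      (V := fun x => ∑ k, ((c k).re * V1 k x + (c k).im * V2 k x)) (φ := φ) ?_ ?_ hφ ?_ ?_
    · intro x hx
      filter_upwards [hs1 x hx] with y hy
      exact CS.SmoothAt.sum fun k hk => (hy k hk).1
    · intro x hx
      filter_upwards [hs1 x hx] with y hy
      exact CS.SmoothAt.sum fun k hk => (hy k hk).2
    · intro x hx
      have h6 := (hs1 x hx).self_of_nhds
      rw [F.d_sum fun k hk => (h6 k hk).1, F.d_sum fun k hk => (h6 k hk).2, ← h5 x,
        Finset.mul_sum, ← Finset.sum_sub_distrib]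
      refine Finset.sum_congr rfl fun k _ => ?_
      rw [F.d_add (((h1 k).su x (hx k)).smoothAt.const_mul _)
        (((h2 k).su x (hx k)).smoothAt.const_mul _),
        F.d_add (((h1 k).sv x (hx k)).smoothAt.const_mul _)
        (((h2 k).sv x (hx k)).smoothAt.const_mul _),
        F.d_const_mul _ ((h1 k).su x (hx k)).smoothAt,
        F.d_const_mul _ ((h2 k).su x (hx k)).smoothAt,
        F.d_const_mul _ ((h1 k).sv x (hx k)).smoothAt,
        F.d_const_mul _ ((h2 k).sv x (hx k)).smoothAt, (h1 k).eq x (hx k), (h2 k).eq x (hx k)]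
      ring
    · intro k
      obtain ⟨R1, hR1, hl1⟩ := (h1 k).loc
      obtain ⟨R2, hR2, hl2⟩ := (h2 k).loc
      have hcs : ContinuousAt (E k).symm 0 := by
        apply (E k).symm.continuousAt
        rw [← hP.zero k]
        exact (E k).map_source (hP.src k)
      have hcomp : ∀ {W : X → ℝ}, S.SmoothAt W (P k) →
          ContinuousAt (fun z => W ((E k).symm z)) 0 := by
        intro W hW
        have h7 : ContinuousAt W ((E k).symm 0) := by
          rw [h27_symm_zero hP k]
          exact hW.continuousAt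
        exact h7.comp hcs
      refine ⟨fun z => (c k).re * R1 z + (c k).im * R2 z +
        ∑ j ∈ Finset.univ.erase k, ((c j).re * U1 j ((E k).symm z) + (c j).im * U2 j ((E k).symm z)),
        fun z => ∑ j ∈ Finset.univ.erase k,
          ((c j).re * V1 j ((E k).symm z) + (c j).im * V2 j ((E k).symm z)), ?_, ?_, ?_⟩
      · refine ((continuousAt_const.mul hR1).add (continuousAt_const.mul hR2)).add ?_
        refine tendsto_finsetSum _ fun j hj => ?_
        have hjk : P k ≠ P j := fun h7 => (Finset.ne_of_mem_erase hj) (hP.inj h7).symm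
        exact (continuousAt_const.mul (hcomp ((h1 j).su _ hjk).smoothAt)).add
          (continuousAt_const.mul (hcomp ((h2 j).su _ hjk).smoothAt))
      · refine tendsto_finsetSum _ fun j hj => ?_
        have hjk : P k ≠ P j := fun h7 => (Finset.ne_of_mem_erase hj) (hP.inj h7).symm
        exact (continuousAt_const.mul (hcomp ((h1 j).sv _ hjk).smoothAt)).add
          (continuousAt_const.mul (hcomp ((h2 j).sv _ hjk).smoothAt))
      · filter_upwards [hl1, hl2] with z hz1 hz2
        constructor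
        · rw [← Finset.add_sum_erase _ _ (Finset.mem_univ k), hz1.1, hz2.1, ← h27_re (c k) z]
          ring
        · rw [← Finset.add_sum_erase _ _ (Finset.mem_univ k), hz1.2, hz2.2, ← h27_im (c k) z]

/-- existence, if all closed forms are exact -/
theorem exists_merF_one {F : Frame S} (hF : F.Tame)
    (hex : ∀ a : X → ℂ, F.Closed a → ∃ φ : X → ℝ, S.Smooth φ ∧ ∀ p, a p = F.d φ p)
    {P : Fin 1 → X} {E : Fin 1 → OpenPartialHomeomorph X ℂ} (hP : PolePts S P E) :
    ∃ f, MerF S P E (fun _ => 1) f := by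
  letI : MeasurableSpace X := borel X
  haveI : BorelSpace X := ⟨rfl⟩
  have hE : F.ExL := fun a ha _ => hex a ha
  obtain ⟨U, V, β, h⟩ := h27_exists_SP hF hE (hP.mem 0) (hP.src 0) (hP.zero 0) 1
  obtain ⟨φ, hφ, h1⟩ := hex β h.cl
  refine h27_mk (F := F) hP (U := U) (V := V) (φ := φ) ?_ ?_ hφ ?_ ?_
  · intro x hx
    exact h.su x (hx 0)
  · intro x hx
    exact h.sv x (hx 0)
  · intro x hx
    rw [← h1 x]
    exact h.eq x (hx 0)
  · intro k
    obtain rfl : k = 0 := Subsingleton.elim _ _
    obtain ⟨R, hR, hl⟩ := h.loc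
    refine ⟨R, fun _ => 0, hR, continuousAt_const, ?_⟩
    filter_upwards [hl] with z hz
    exact ⟨hz.1, by rw [hz.2, add_zero]⟩

end Pool.Agent.Lib.MP_cca10c_ag
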