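import Pool.Agent.Lib.MP_cca10c_ag.H27_Mer

/-!
# Number of zeros of a harmonic form (stub H28)

Let `P : Fin N → X` be distinct zeros of `a`, charts `E k` at them (`CS.exists_disc`). The functions
`f` with `MerF S P E c f` give harmonic forms `f a` (`MerF.mul_hol`), and `f a = 0` only if `f = 0` off
the zeros of `a`, because the zeros of `a` are isolated (identity theorem on the connected surface) and
`f` is continuous off the poles. The space of harmonic forms has dimension `2 g` over `ℝ` (`harm` is a
linear bijection from `ℝ^(2g)`). Take a basis `c_i` of the space `K` of `exists_merF` and functions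
`f_i` for it: the forms `f_i a`, `a`, `i a` are linearly independent over `ℝ` (principal parts first, then
constants), so `dim K + 2 ≤ 2 g`, and `2 N ≤ dim K + 2 g`.
-/

set_option autoImplicit false

open Topology Set MeasureTheory Metric
open scoped ContDiff

namespace Pool.Agent.Lib.MP_cca10c_ag

variable {X : Type} [TopologicalSpace X] {S : CS X} [CompactSpace X] [ConnectedSpace X] [T2Space X]

omit [CompactSpace X] [ConnectedSpace X] [T2Space X] in
/-- local alternative -/
private theorem h28_alt {F : Frame S} {a : X → ℂ} (ha : F.Hol a) (x : X) :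
    (∀ᶠ y in 𝓝 x, a y = 0) ∨ (∀ᶠ y in 𝓝[≠] x, a y ≠ 0) := by
  set e := F.ch x with he0
  have he : e ∈ S.charts := F.ch_mem x
  have hx : x ∈ e.source := F.mem_ch x
  have h1 : DifferentiableOn ℂ (F.co e a) e.target := by
    refine (ha e he).mono ?_
    intro z hz
    exact ⟨hz, mem_univ _⟩
  have h2 : AnalyticAt ℂ (F.co e a) (e x) :=
    h1.analyticAt (e.open_target.mem_nhds (e.map_source hx))
  have h3 : Filter.Tendsto e (𝓝 x) (𝓝 (e x)) := e.continuousAt hx
  have h4 : ∀ᶠ y in 𝓝 x, y ∈ e.source := e.open_source.mem_nhds hx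
  rcases h2.eventually_eq_zero_or_eventually_ne_zero with h | h
  · left
    filter_upwards [h3.eventually h, h4] with y hy hys
    exact (F.co_eq_zero_iff he hys).1 hy
  · right
    rw [eventually_nhdsWithin_iff] at h ⊢
    filter_upwards [h3.eventually h, h4] with y hy hys hyx
    have h5 : e y ∈ ({e x}ᶜ : Set ℂ) := by
      intro h6
      exact hyx (e.injOn hys hx h6)
    intro h7
    exact hy h5 ((F.co_eq_zero_iff he hys).2 h7)

/-- the zeros of a nonzero harmonic form are isolated -/
theorem Frame.Hol.eventually_ne {F : Frame S} {a : X → ℂ} (ha : F.Hol a) (h0 : ∃ x, a x ≠ 0)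
    (p : X) : ∀ᶠ x in 𝓝[≠] p, a x ≠ 0 := by
  rcases h28_alt ha p with hp | hp
  · exfalso
    set Z : Set X := {x | ∀ᶠ y in 𝓝 x, a y = 0} with hZ
    have hZo : IsOpen Z := by
      rw [isOpen_iff_mem_nhds]
      intro x hx
      exact Filter.Eventually.eventually_nhds hx
    have hZc : IsClosed Z := by
      rw [← closure_subset_iff_isClosed]
      intro x hx
      rcases h28_alt ha x with h | h
      · exact h
      · rw [eventually_nhdsWithin_iff] at h
        rw [mem_closure_iff_nhds] at hx
        obtain ⟨y, hy1, hy2⟩ := hx _ h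
        have h5 : a y = 0 := (show ∀ᶠ z in 𝓝 y, a z = 0 from hy2).self_of_nhds
        by_cases hyx : y = x
        · rw [← hyx]
          exact hy2
        · exact absurd h5 (hy1 hyx)
    have h6 : Z = univ := IsClopen.eq_univ ⟨hZc, hZo⟩ ⟨p, hp⟩
    obtain ⟨x, hx⟩ := h0
    have h7 : x ∈ Z := by
      rw [h6]
      exact mem_univ x
    exact hx (show ∀ᶠ z in 𝓝 x, a z = 0 from h7).self_of_nhds
  · exact hp

omit [CompactSpace X] [ConnectedSpace X] [T2Space X] in
/-- finite combinations of meromorphic functions -/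
private theorem h28_sum {N m : ℕ} {P : Fin N → X} {E : Fin N → OpenPartialHomeomorph X ℂ}
    {c : Fin m → Fin N → ℂ} {f : Fin m → X → ℂ} (h : ∀ i, MerF S P E (c i) (f i)) (t : Fin m → ℂ)
    (s : Finset (Fin m)) :
    MerF S P E (fun k => ∑ i ∈ s, t i * c i k) (fun x => ∑ i ∈ s, t i * f i x) := by
  classical
  induction s using Finset.induction_on with
  | empty =>
    simp only [Finset.sum_empty]
    exact merF_const 0
  | insert i s hi ih =>
    have h1 := ((h i).const_mul (t i)).add ih
    have h2 : (fun k => ∑ j ∈ insert i s, t j * c j k) =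
        (fun k => t i * c i k) + (fun k => ∑ j ∈ s, t j * c j k) := by
      funext k
      rw [Finset.sum_insert hi]
      rfl
    have h3 : (fun x => ∑ j ∈ insert i s, t j * f j x) =
        (fun x => t i * f i x + ∑ j ∈ s, t j * f j x) := by
      funext x
      rw [Finset.sum_insert hi]
    rw [h2, h3]
    exact h1

omit [CompactSpace X] [ConnectedSpace X] [T2Space X] in
private theorem h28_symm_ev {e : OpenPartialHomeomorph X ℂ} {x : X} (hx : x ∈ e.source)
    {p : X → Prop} (h : ∀ᶠ y in 𝓝[≠] x, p y) : ∀ᶠ z in 𝓝[≠] (e x), p (e.symm z) := by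
  rw [eventually_nhdsWithin_iff] at h ⊢
  have h2 : Filter.Tendsto e.symm (𝓝 (e x)) (𝓝 x) := e.tendsto_symm hx
  filter_upwards [h2.eventually h, e.open_target.mem_nhds (e.map_source hx)] with z hz hzt hzx
  refine hz ?_
  intro h3
  apply hzx
  have h4 : e.symm z = x := h3
  rw [mem_singleton_iff, ← h4, e.right_inv hzt]

/-- a function with `c / z + h z = 0` near `0` has `c = 0` -/
private theorem h28_pp {c : ℂ} {h : ℂ → ℂ} (hh : ∀ᶠ z in 𝓝 0, DifferentiableAt ℂ h z)
    (h0 : ∀ᶠ z in 𝓝[≠] (0 : ℂ), c / z + h z = 0) : c = 0 := by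
  have h1 : ContinuousAt h 0 := hh.self_of_nhds.continuousAt
  have h2 : Filter.Tendsto (fun z : ℂ => c + z * h z) (𝓝[≠] 0) (𝓝 (c + 0 * h 0)) := by
    have h3 : ContinuousAt (fun z : ℂ => c + z * h z) 0 :=
      continuousAt_const.add (continuousAt_id.mul h1)
    exact h3.tendsto.mono_left nhdsWithin_le_nhds
  have h4 : (fun z : ℂ => c + z * h z) =ᶠ[𝓝[≠] 0] fun _ => 0 := by
    filter_upwards [h0, self_mem_nhdsWithin] with z hz hz0
    have hz1 : z ≠ 0 := hz0
    have h5 : z * (c / z + h z) = 0 := by rw [hz, mul_zero]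
    rw [mul_add, mul_div_cancel₀ c hz1] at h5
    exact h5
  have h6 : Filter.Tendsto (fun z : ℂ => c + z * h z) (𝓝[≠] 0) (𝓝 0) :=
    (tendsto_const_nhds).congr' h4.symm
  have h7 := tendsto_nhds_unique h2 h6
  rw [zero_mul, add_zero] at h7
  exact h7

theorem card_zeros_le {F : Frame S} (hF : F.Tame) {g : ℕ} {u v : Fin g → X → UnitAddCircle}
    (hb : SymplBasis S g u v) {a : X → ℂ} (ha : F.Hol a) (h0 : ∃ x, a x ≠ 0) (s : Finset X)
    (hs : ∀ p ∈ s, a p = 0) : s.card + 1 ≤ 2 * g := by
  classical
  let _ : MeasurableSpace X := borel X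
  have : BorelSpace X := ⟨rfl⟩
  set N := s.card with hN
  set P : Fin N → X := fun k => (s.equivFin.symm k : X) with hPdef
  have hPinj : Function.Injective P := by
    intro k l hkl
    exact s.equivFin.symm.injective (Subtype.ext hkl)
  have hPs : ∀ k, a (P k) = 0 := fun k => hs _ (s.equivFin.symm k).2
  have hE : ∀ k, ∃ e ∈ S.charts, P k ∈ e.source ∧ e (P k) = 0 := by
    intro k
    obtain ⟨e, he, h1, h2, -, -⟩ := S.exists_disc (P k) Filter.univ_mem one_pos
    exact ⟨e, he, h1, h2⟩
  choose E hE1 hE2 hE3 using hE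
  have hP : PolePts S P E := ⟨hPinj, hE1, hE2, hE3⟩
  obtain ⟨K, hK1, hK2⟩ := exists_merF hb hP
  -- the space of harmonic forms
  let L : (Fin g ⊕ Fin g → ℝ) →ₗ[ℝ] (X → ℂ) :=
    { toFun := fun x => F.harm u v x
      map_add' := by
        intro x y
        exact Frame.harm_add hb hF
      map_smul' := by
        intro c x
        have h1 := Frame.harm_mul (x := x) hb hF c
        funext p
        have h2 := congrFun h1 p
        simp only [RingHom.id_apply, Pi.smul_apply, Complex.real_smul]
        exact h2 }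
  have hL : ∀ b : X → ℂ, F.Hol b → b ∈ LinearMap.range L := by
    intro b hbh
    obtain ⟨x, hx⟩ := hbh.closed.exists_cls hb
    exact ⟨x, (Frame.eq_harm hb hF hbh hx).symm⟩
  have hLfin : Module.finrank ℝ (LinearMap.range L) ≤ 2 * g := by
    have h1 := LinearMap.finrank_range_le L
    have h2 : Module.finrank ℝ (Fin g ⊕ Fin g → ℝ) = 2 * g := by
      rw [Module.finrank_pi]
      simp [two_mul]
    rwa [h2] at h1
  -- a basis of `K` and the functions
  set m := Module.finrank ℝ K with hm
  let bK : Module.Basis (Fin m) ℝ K := Module.finBasis ℝ K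
  have hf : ∀ i : Fin m, ∃ f, MerF S P E (bK i : Fin N → ℂ) f := fun i => hK2 _ (bK i).2
  choose f hf1 using hf
  have hB : ∀ i : Fin m, ∃ B : X → ℂ, F.Hol B ∧ ∀ x, (∀ k, x ≠ P k) → B x = f i x * a x :=
    fun i => MerF.mul_hol hP (hf1 i) ha hPs
  choose B hB1 hB2 using hB
  have hBsum : ∀ (t : Fin m → ℝ) (s : Finset (Fin m)), F.Hol (fun x => ∑ i ∈ s, (t i : ℂ) * B i x) := by
    intro t s
    induction s using Finset.induction_on with
    | empty =>
      have h1 := ha.const_mul 0
      have h2 : (fun y => (0 : ℂ) * a y) = fun x => ∑ i ∈ (∅ : Finset (Fin m)), (t i : ℂ) * B i x := by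
        funext y
        simp
      rw [h2] at h1
      exact h1
    | insert i s hi ih =>
      have h1 := ((hB1 i).const_mul (t i : ℂ)).add ih
      have h2 : (fun x => ∑ j ∈ insert i s, (t j : ℂ) * B j x) =
          fun x => (t i : ℂ) * B i x + ∑ j ∈ s, (t j : ℂ) * B j x := by
        funext x
        rw [Finset.sum_insert hi]
      rw [h2]
      exact h1
  let T : ((Fin m → ℝ) × ℂ) →ₗ[ℝ] (X → ℂ) :=
    { toFun := fun q x => ∑ i, (q.1 i : ℂ) * B i x + q.2 * a x
      map_add' := by
        intro q q'
        funext x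
        simp only [Prod.fst_add, Prod.snd_add, Pi.add_apply, Complex.ofReal_add, add_mul,
          Finset.sum_add_distrib]
        ring
      map_smul' := by
        intro c q
        funext x
        simp only [Prod.smul_fst, Prod.smul_snd, Pi.smul_apply, smul_eq_mul, Complex.ofReal_mul,
          RingHom.id_apply, Complex.real_smul, mul_add, Finset.mul_sum, mul_assoc] }
  have hTr : ∀ q, T q ∈ LinearMap.range L := by
    intro q
    apply hL
    exact (hBsum q.1 Finset.univ).add (ha.const_mul q.2)
  have hTinj : ∀ q, T q = 0 → q = 0 := by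
    intro q hq
    have hqx : ∀ x, ∑ i, (q.1 i : ℂ) * B i x + q.2 * a x = 0 := fun x => congrFun hq x
    -- the function
    have hM : MerF S P E ((fun k => ∑ i, (q.1 i : ℂ) * (bK i : Fin N → ℂ) k) + fun _ => 0)
        (fun x => ∑ i, (q.1 i : ℂ) * f i x + q.2) :=
      (h28_sum hf1 (fun i => (q.1 i : ℂ)) Finset.univ).add (merF_const q.2)
    have hz : ∀ x, a x ≠ 0 → ∑ i, (q.1 i : ℂ) * f i x + q.2 = 0 := by
      intro x hx
      have h1 : ∀ k, x ≠ P k := by
        intro k hk
        apply hx
        rw [hk]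
        exact hPs k
      have h2 := hqx x
      have h3 : ∑ i, (q.1 i : ℂ) * B i x = (∑ i, (q.1 i : ℂ) * f i x) * a x := by
        rw [Finset.sum_mul]
        refine Finset.sum_congr rfl fun i _ => ?_
        rw [hB2 i x h1, mul_assoc]
      rw [h3, ← add_mul] at h2
      exact (mul_eq_zero.1 h2).resolve_right hx
    have hc : ∀ k, ∑ i, (q.1 i : ℂ) * (bK i : Fin N → ℂ) k = 0 := by
      intro k
      obtain ⟨h, hh1, hh2⟩ := hM.pole k
      have h1 : ∀ᶠ x in 𝓝[≠] (P k), a x ≠ 0 := ha.eventually_ne h0 (P k)
      have h2 := h28_symm_ev (hE2 k) h1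
      rw [hE3 k] at h2
      refine h28_pp hh1 ?_
      filter_upwards [h2, hh2] with z hz1 hz2
      rw [hz _ hz1] at hz2
      simp only [Pi.add_apply, add_zero] at hz2
      exact hz2.symm
    have hK0 : ∑ i, q.1 i • bK i = 0 := by
      apply Subtype.ext
      funext k
      have h1 := hc k
      rw [Submodule.coe_sum]
      simp only [Finset.sum_apply, SetLike.val_smul, Pi.smul_apply, Complex.real_smul,
        ZeroMemClass.coe_zero, Pi.zero_apply]
      exact h1
    have ht : ∀ i, q.1 i = 0 := by
      have h1 := Fintype.linearIndependent_iff.1 bK.linearIndependent q.1 hK0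
      exact h1
    have hq2 : q.2 = 0 := by
      obtain ⟨x, hx⟩ := h0
      have h1 := hz x hx
      simpa [ht] using h1
    exact Prod.ext (funext ht) hq2
  have hfin : m + 2 ≤ Module.finrank ℝ (LinearMap.range L) := by
    have h1 : Function.Injective (T.codRestrict (LinearMap.range L) hTr) := by
      rw [← LinearMap.ker_eq_bot, LinearMap.ker_eq_bot']
      intro q hq
      apply hTinj
      exact congrArg Subtype.val hq
    have h2 := LinearMap.finrank_le_finrank_of_injective h1
    rw [Module.finrank_prod, Module.finrank_fin_fun, Complex.finrank_real_complex] at h2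
    exact h2
  omega

end Pool.Agent.Lib.MP_cca10c_ag
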