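import Pool.Agent.Lib.MP_cca10c_ag.H27_Mer

/-!
# A surface on which closed forms are exact is the sphere (stub H29)

Let `f_p` be the function of `exists_merF_one` with pole at `p`. Injectivity: suppose `q ≠ q'`,
`q, q' ≠ p`, `f_p q = f_p q'`. The product `G = f_q (f_p - f_p q)` has no pole at `q` (simple pole times
zero) and at most a simple pole at `p`, so `G - c f_p` has no poles for a constant `c`, and is a constant
`d` (`MerF.eq_const`, with two points). At `q'`: `0 = c f_p q' + d`, so `G = c (f_p - f_p q)`, that is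
`(f_q - c) (f_p - f_p q) = 0` off `p`, `q`. Near `q` the first factor is not zero, so `f_p` is constant
near `q`, hence (identity theorem) constant off `p`, which contradicts the pole.
Onto: the image of `{p}ᶜ` is open (open mapping in charts) and closed (compactness, `f_p → ∞` at `p`).
-/

set_option autoImplicit false

open Topology Set MeasureTheory Metric
open scoped ContDiff

namespace Pool.Agent.Lib.MP_cca10c_ag

variable {X : Type} [TopologicalSpace X] {S : CS X} [ConnectedSpace X]

/-! ### auxiliary facts -/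

omit [ConnectedSpace X] in
private theorem h29_symm_nhds {e : OpenPartialHomeomorph X ℂ} {x : X} (hx : x ∈ e.source)
    {p : X → Prop} (h : ∀ᶠ y in 𝓝 x, p y) : ∀ᶠ z in 𝓝 (e x), p (e.symm z) := by
  have h2 : Filter.Tendsto e.symm (𝓝 (e x)) (𝓝 x) := e.tendsto_symm hx
  exact h2.eventually h

omit [ConnectedSpace X] in
private theorem h29_symm_punct {e : OpenPartialHomeomorph X ℂ} {x : X} (hx : x ∈ e.source)
    {p : X → Prop} (h : ∀ᶠ y in 𝓝[≠] x, p y) : ∀ᶠ z in 𝓝[≠] (e x), p (e.symm z) := by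
  rw [eventually_nhdsWithin_iff] at h ⊢
  have h2 : Filter.Tendsto e.symm (𝓝 (e x)) (𝓝 x) := e.tendsto_symm hx
  filter_upwards [h2.eventually h, e.open_target.mem_nhds (e.map_source hx)] with z hz hzt hzx
  refine hz ?_
  intro h3
  apply hzx
  have h4 : e.symm z = x := h3
  rw [mem_singleton_iff, ← h4, e.right_inv hzt]

omit [ConnectedSpace X] in
private theorem h29_punct {e : OpenPartialHomeomorph X ℂ} {x : X} (hx : x ∈ e.source)
    {p : ℂ → Prop} (h : ∀ᶠ z in 𝓝[≠] (e x), p z) : ∀ᶠ y in 𝓝[≠] x, p (e y) := by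
  rw [eventually_nhdsWithin_iff] at h ⊢
  have h3 : Filter.Tendsto e (𝓝 x) (𝓝 (e x)) := e.continuousAt hx
  filter_upwards [h3.eventually h, e.open_source.mem_nhds hx] with y hy hys hyx
  refine hy ?_
  intro h6
  exact hyx (e.injOn hys hx h6)

omit [ConnectedSpace X] in
private theorem h29_analytic {f : X → ℂ} {x : X} (hf : S.HolAt f x) {e : OpenPartialHomeomorph X ℂ}
    (he : e ∈ S.charts) (hx : x ∈ e.source) : AnalyticAt ℂ (f ∘ e.symm) (e x) := by
  rw [Complex.analyticAt_iff_eventually_differentiableAt]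
  exact hf e he hx

omit [ConnectedSpace X] in
private theorem h29_cont {f : X → ℂ} {x : X} (hf : S.HolAt f x) : ContinuousAt f x := by
  obtain ⟨e, he, hx⟩ := S.cover x
  have h1 : ContinuousAt (f ∘ e.symm) (e x) := (h29_analytic hf he hx).continuousAt
  have h2 : ContinuousAt ((f ∘ e.symm) ∘ e) x := ContinuousAt.comp h1 (e.continuousAt hx)
  refine h2.congr ?_
  filter_upwards [e.open_source.mem_nhds hx] with y hy
  simp only [Function.comp_apply]
  rw [e.left_inv hy]

omit [ConnectedSpace X] in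
/-- local alternative for two holomorphic functions -/
private theorem h29_alt {f h : X → ℂ} {x : X} (hf : S.HolAt f x) (hh : S.HolAt h x) :
    (∀ᶠ y in 𝓝 x, f y = h y) ∨ (∀ᶠ y in 𝓝[≠] x, f y ≠ h y) := by
  obtain ⟨e, he, hx⟩ := S.cover x
  have h3 : Filter.Tendsto e (𝓝 x) (𝓝 (e x)) := e.continuousAt hx
  have h4 : ∀ᶠ y in 𝓝 x, y ∈ e.source := e.open_source.mem_nhds hx
  rcases (h29_analytic hf he hx).eventually_eq_or_eventually_ne (h29_analytic hh he hx) with h5 | h5
  · left
    filter_upwards [h3.eventually h5, h4] with y hy hys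
    simp only [Function.comp_apply, e.left_inv hys] at hy
    exact hy
  · right
    have h6 := h29_punct hx h5
    have h7 : ∀ᶠ y in 𝓝[≠] x, y ∈ e.source := h4.filter_mono nhdsWithin_le_nhds
    filter_upwards [h6, h7] with y hy hys
    simp only [Function.comp_apply, e.left_inv hys] at hy
    exact hy

/-- identity theorem for functions -/
theorem CS.identity {U : Set X} (hU : IsOpen U) (hc : IsPreconnected U) {f h : X → ℂ}
    (hf : ∀ x ∈ U, S.HolAt f x) (hh : ∀ x ∈ U, S.HolAt h x) {p : X} (hp : p ∈ U)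
    (he : f =ᶠ[𝓝 p] h) : EqOn f h U := by
  set Z : Set X := {x | ∀ᶠ y in 𝓝 x, f y = h y} with hZ
  have hZo : IsOpen Z := by
    rw [isOpen_iff_mem_nhds]
    intro x hx
    exact Filter.Eventually.eventually_nhds hx
  have h1 : closure Z ∩ U ⊆ Z := by
    rintro x ⟨hx, hxU⟩
    rcases h29_alt (hf x hxU) (hh x hxU) with h2 | h2
    · exact h2
    · rw [eventually_nhdsWithin_iff] at h2
      rw [mem_closure_iff_nhds] at hx
      obtain ⟨y, hy1, hy2⟩ := hx _ h2
      have h5 : f y = h y := (show ∀ᶠ z in 𝓝 y, f z = h z from hy2).self_of_nhds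
      by_cases hyx : y = x
      · rw [← hyx]
        exact hy2
      · exact absurd h5 (hy1 hyx)
  have h2 : U ⊆ Z := hc.subset_of_closure_inter_subset hZo ⟨p, hp, he⟩ h1
  intro x hx
  exact (show ∀ᶠ z in 𝓝 x, f z = h z from h2 hx).self_of_nhds

/-- the punctured disc is preconnected -/
private theorem h29_disc : IsPreconnected (Metric.ball (0 : ℂ) 1 \ {0}) := by
  have h1 : Convex ℝ {w : ℂ | w.re < 0} := convex_halfSpace_re_lt 0
  have h2 : Metric.ball (0 : ℂ) 1 \ {0} = Complex.exp '' {w : ℂ | w.re < 0} := by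
    ext z
    constructor
    · rintro ⟨hz, hz0⟩
      have hz1 : z ≠ 0 := hz0
      refine ⟨Complex.log z, ?_, Complex.exp_log hz1⟩
      rw [mem_ofPred_eq, Complex.log_re]
      rw [Metric.mem_ball, dist_zero_right] at hz
      exact Real.log_neg (norm_pos_iff.2 hz1) hz
    · rintro ⟨w, hw, rfl⟩
      refine ⟨?_, Complex.exp_ne_zero w⟩
      rw [Metric.mem_ball, dist_zero_right, Complex.norm_exp]
      exact Real.exp_lt_one_iff.2 hw
  rw [h2]
  exact h1.isPreconnected.image _ Complex.continuous_exp.continuousOn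

/-- a connected surface stays connected when a point is removed -/
theorem CS.isPreconnected_compl_singleton [T2Space X] (S : CS X) (p : X) :
    IsPreconnected ({p}ᶜ : Set X) := by
  obtain ⟨e, he, hpe, hep, -, htar⟩ := S.exists_disc p Filter.univ_mem one_pos
  have hD : IsPreconnected (e.source \ {p}) := by
    have h1 : e.source \ {p} = e.symm '' (Metric.ball (0 : ℂ) 1 \ {0}) := by
      ext x
      constructor
      · rintro ⟨hx, hxp⟩
        refine ⟨e x, ⟨?_, ?_⟩, e.left_inv hx⟩
        · rw [← htar]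
          exact e.map_source hx
        · intro h2
          apply hxp
          have h3 : e x = 0 := h2
          rw [← hep] at h3
          exact e.injOn hx hpe h3
      · rintro ⟨z, ⟨hz, hz0⟩, rfl⟩
        rw [← htar] at hz
        refine ⟨e.map_target hz, ?_⟩
        intro h2
        apply hz0
        have h3 : e.symm z = p := h2
        rw [mem_singleton_iff, ← e.right_inv hz, h3, hep]
    rw [h1]
    refine h29_disc.image _ (e.continuousOn_symm.mono ?_)
    rw [htar]
    exact sdiff_subset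
  -- the main step
  have key : ∀ U V : Set X, IsOpen U → IsOpen V → ({p}ᶜ : Set X) ⊆ U ∪ V →
      (({p}ᶜ : Set X) ∩ V).Nonempty → ¬ (({p}ᶜ : Set X) ∩ (U ∩ V)).Nonempty →
      e.source \ {p} ⊆ U → False := by
    intro U V hU hV hUV hVn hn hDU
    have hc : IsOpen ({p}ᶜ : Set X) := isOpen_compl_singleton
    have h1 : IsOpen ((U ∩ {p}ᶜ) ∪ e.source) := (hU.inter hc).union e.open_source
    have h2 : IsOpen (V ∩ {p}ᶜ) := hV.inter hc
    have h3 : (univ : Set X) ⊆ ((U ∩ {p}ᶜ) ∪ e.source) ∪ (V ∩ {p}ᶜ) := by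
      intro x _
      by_cases hx : x = p
      · left; right
        rw [hx]
        exact hpe
      · rcases hUV hx with h4 | h4
        · exact Or.inl (Or.inl ⟨h4, hx⟩)
        · exact Or.inr ⟨h4, hx⟩
    have h4 := isPreconnected_univ _ _ h1 h2 h3 ⟨p, mem_univ _, Or.inr hpe⟩
      (by
        obtain ⟨x, hx, hxV⟩ := hVn
        exact ⟨x, mem_univ _, hxV, hx⟩)
    obtain ⟨x, -, hx1, hx2, hx3⟩ := h4
    apply hn
    rcases hx1 with hx1 | hx1
    · exact ⟨x, hx3, hx1.1, hx2⟩
    · exact ⟨x, hx3, hDU ⟨hx1, hx3⟩, hx2⟩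
  intro U V hU hV hUV hUn hVn
  by_contra hn
  have hDsub : e.source \ {p} ⊆ ({p}ᶜ : Set X) := fun x hx => hx.2
  have hDUV : e.source \ {p} ⊆ U ∨ e.source \ {p} ⊆ V := by
    by_cases h1 : ((e.source \ {p}) ∩ U).Nonempty
    · left
      intro x hx
      rcases hUV (hDsub hx) with h2 | h2
      · exact h2
      · exfalso
        apply hn
        obtain ⟨y, hy1, hy2⟩ := hD U V hU hV (hDsub.trans hUV) h1 ⟨x, hx, h2⟩
        exact ⟨y, hDsub hy1, hy2⟩
    · right
      intro x hx
      rcases hUV (hDsub hx) with h2 | h2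
      · exact absurd ⟨x, hx, h2⟩ h1
      · exact h2
  rcases hDUV with h1 | h1
  · exact key U V hU hV hUV hVn hn h1
  · refine key V U hV hU ?_ hUn ?_ h1
    · rw [union_comm]
      exact hUV
    · rw [inter_comm V U]
      exact hn

omit [ConnectedSpace X] in
private theorem h29_hol_mul {f h : X → ℂ} {x : X} (hf : S.HolAt f x) (hh : S.HolAt h x) :
    S.HolAt (fun y => f y * h y) x := by
  intro e he hx
  filter_upwards [hf e he hx, hh e he hx] with z h1 h2
  exact h1.mul h2

omit [ConnectedSpace X] in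
private theorem h29_hol_sub_const {f : X → ℂ} {x : X} (hf : S.HolAt f x) (c : ℂ) :
    S.HolAt (fun y => f y - c) x := by
  intro e he hx
  filter_upwards [hf e he hx] with z h1
  exact h1.sub_const c

omit [ConnectedSpace X] in
private theorem h29_hol_const {x : X} (c : ℂ) : S.HolAt (fun _ => c) x := by
  intro e he hx
  exact Filter.Eventually.of_forall fun z => differentiableAt_const c

/-- division of a holomorphic function by `z` -/
private theorem h29_dslope {k : ℂ → ℂ} (hk : ∀ᶠ z in 𝓝 0, DifferentiableAt ℂ k z) :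
    ∃ m : ℂ → ℂ, (∀ᶠ z in 𝓝 0, DifferentiableAt ℂ m z) ∧ ∀ z, z ≠ 0 → k z / z = k 0 / z + m z := by
  have h1 : AnalyticAt ℂ k 0 := by
    rw [Complex.analyticAt_iff_eventually_differentiableAt]
    exact hk
  refine ⟨dslope k 0, ?_, ?_⟩
  · rw [Metric.eventually_nhds_iff_ball] at hk
    obtain ⟨r, hr, hb⟩ := hk
    have h2 : DifferentiableOn ℂ k (Metric.ball 0 r) := fun z hz =>
      (hb z hz).differentiableWithinAt
    have h3 : DifferentiableOn ℂ (dslope k 0) (Metric.ball 0 r) :=
      (Complex.differentiableOn_dslope (Metric.ball_mem_nhds 0 hr)).2 h2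
    filter_upwards [Metric.ball_mem_nhds (0 : ℂ) hr] with z hz
    exact h3.differentiableAt (Metric.isOpen_ball.mem_nhds hz)
  · intro z hz
    rw [dslope_of_ne _ hz, slope_def_field, sub_zero]
    field_simp
    ring

/-- no pole from a constant function -/
private theorem h29_no_pole {a : ℂ} {h : ℂ → ℂ} (hh : ∀ᶠ z in 𝓝 0, DifferentiableAt ℂ h z)
    (h0 : ∃ᶠ z in 𝓝[≠] (0 : ℂ), 1 / z + h z = a) : False := by
  have h1 : ContinuousAt h 0 := hh.self_of_nhds.continuousAt
  have h3 : ContinuousAt (fun z : ℂ => 1 + z * h z - a * z) 0 :=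
    (continuousAt_const.add (continuousAt_id.mul h1)).sub (continuousAt_const.mul continuousAt_id)
  have h4 : ∀ᶠ z in 𝓝 (0 : ℂ), 1 + z * h z - a * z ≠ 0 := by
    refine h3.eventually_ne ?_
    simp
  obtain ⟨z, hz, hz1, hz2⟩ := (h0.and_eventually
    ((h4.filter_mono nhdsWithin_le_nhds).and self_mem_nhdsWithin)).exists
  have hz3 : z ≠ 0 := hz2
  apply hz1
  have h5 : z * (1 / z + h z) = z * a := by rw [hz]
  rw [mul_add, mul_one_div_cancel hz3] at h5
  rw [h5]
  ring

theorem sphere [CompactSpace X] [T2Space X] {F : Frame S} (hF : F.Tame)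
    (hex : ∀ a : X → ℂ, F.Closed a → ∃ φ : X → ℝ, S.Smooth φ ∧ ∀ p, a p = F.d φ p) (p : X)
    {e : OpenPartialHomeomorph X ℂ} (he : e ∈ S.charts) (hp : p ∈ e.source) (hep : e p = 0) :
    ∃ f : X → ℂ, (∀ x, x ≠ p → S.HolAt f x) ∧ InjOn f {p}ᶜ ∧ f '' {p}ᶜ = univ ∧
      ∃ h : ℂ → ℂ, (∀ᶠ z in 𝓝 0, DifferentiableAt ℂ h z) ∧
        ∀ᶠ z in 𝓝[≠] (0 : ℂ), f (e.symm z) = 1 / z + h z := by
  -- functions with one pole
  have hone : ∀ (q : X) (e' : OpenPartialHomeomorph X ℂ), e' ∈ S.charts → q ∈ e'.source →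
      e' q = 0 → ∃ f : X → ℂ, (∀ x, x ≠ q → S.HolAt f x) ∧
      ∃ h : ℂ → ℂ, (∀ᶠ z in 𝓝 0, DifferentiableAt ℂ h z) ∧
        ∀ᶠ z in 𝓝[≠] (0 : ℂ), f (e'.symm z) = 1 / z + h z := by
    intro q e' he' hq heq
    have hP : PolePts S (fun _ : Fin 1 => q) (fun _ : Fin 1 => e') :=
      ⟨fun a b _ => Subsingleton.elim a b, fun _ => he', fun _ => hq, fun _ => heq⟩
    obtain ⟨f, hf⟩ := exists_merF_one hF hex hP
    refine ⟨f, fun x hx => hf.hol x fun _ => hx, ?_⟩
    exact hf.pole 0
  obtain ⟨f, hf1, h, hh1, hh2⟩ := hone p e he hp hep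
  have hinj : InjOn f {p}ᶜ := by
    intro q hq q' hq' hqq
    have hqp : q ≠ p := hq
    have hq'p : q' ≠ p := hq'
    by_contra hne
    obtain ⟨e', he', hqe, heq, -, -⟩ := S.exists_disc q Filter.univ_mem one_pos
    obtain ⟨fq, hfq1, k, hk1, hk2⟩ := hone q e' he' hqe heq
    set P : Fin 2 → X := ![q, p] with hPdef
    set E : Fin 2 → OpenPartialHomeomorph X ℂ := ![e', e] with hEdef
    have hP : PolePts S P E := by
      refine ⟨?_, ?_, ?_, ?_⟩
      · intro i j hij
        fin_cases i <;> fin_cases j <;> simp_all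
      · intro i
        fin_cases i
        · exact he'
        · exact he
      · intro i
        fin_cases i
        · exact hqe
        · exact hp
      · intro i
        fin_cases i
        · exact heq
        · exact hep
    -- the function `f` with respect to the two points
    have hMf : MerF S P E ![0, 1] f := by
      refine ⟨fun x hx => hf1 x (hx 1), ?_⟩
      intro i
      fin_cases i
      · refine ⟨f ∘ e'.symm, ?_, ?_⟩
        · have h1 := hf1 q hqp e' he' hqe
          rwa [heq] at h1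
        · refine Filter.Eventually.of_forall fun z => ?_
          change f (e'.symm z) = 0 / z + f (e'.symm z)
          rw [zero_div, zero_add]
      · exact ⟨h, hh1, hh2⟩
    -- the product
    set c : ℂ := fq p with hc
    have hMG : MerF S P E ![0, c] (fun x => fq x * (f x - f q)) := by
      refine ⟨fun x hx => h29_hol_mul (hfq1 x (hx 0)) (h29_hol_sub_const (hf1 x (hx 1)) _), ?_⟩
      intro i
      fin_cases i
      · -- at `q`
        have h1 : ∀ᶠ z in 𝓝 0, DifferentiableAt ℂ (fun z => f (e'.symm z) - f q) z := by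
          have h2 := (h29_hol_sub_const (hf1 q hqp) (f q)) e' he' hqe
          rwa [heq] at h2
        obtain ⟨m, hm1, hm2⟩ := h29_dslope h1
        have h3 : f (e'.symm 0) - f q = 0 := by
          have h9 : e'.symm 0 = q := by
            rw [← heq, e'.left_inv hqe]
          rw [h9, sub_self]
        refine ⟨fun z => m z + k z * (f (e'.symm z) - f q), ?_, ?_⟩
        · filter_upwards [hm1, hk1, h1] with z h4 h5 h6
          exact h4.add (h5.mul h6)
        · filter_upwards [hk2, self_mem_nhdsWithin] with z hz hz0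
          have h7 := hm2 z hz0
          rw [h3, zero_div, zero_add] at h7
          change fq (e'.symm z) * (f (e'.symm z) - f q) = 0 / z + _
          rw [hz, zero_div, zero_add, ← h7]
          ring
      · -- at `p`
        have h1 : ∀ᶠ z in 𝓝 0, DifferentiableAt ℂ (fun z => fq (e.symm z)) z := by
          have h2 := (hfq1 p hqp.symm) e he hp
          rwa [hep] at h2
        obtain ⟨m, hm1, hm2⟩ := h29_dslope h1
        have h3 : fq (e.symm 0) = c := by
          rw [← hep, e.left_inv hp]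
        refine ⟨fun z => m z + fq (e.symm z) * (h z - f q), ?_, ?_⟩
        · filter_upwards [hm1, hh1, h1] with z h4 h5 h6
          exact h4.add (h6.mul (h5.sub_const _))
        · filter_upwards [hh2, self_mem_nhdsWithin] with z hz hz0
          have h7 := hm2 z hz0
          simp only [h3] at h7
          change fq (e.symm z) * (f (e.symm z) - f q) = c / z + _
          rw [hz]
          have h8 : c / z + (m z + fq (e.symm z) * (h z - f q)) =
              (c / z + m z) + fq (e.symm z) * (h z - f q) := by ring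
          rw [h8, ← h7]
          ring
    have hMD := hMG.add (hMf.const_mul (-c))
    have hpp : (![0, c] : Fin 2 → ℂ) + (fun k => -c * (![0, 1] : Fin 2 → ℂ) k) = fun _ => 0 := by
      funext i
      fin_cases i <;> simp
    rw [hpp] at hMD
    obtain ⟨d, hd⟩ := MerF.eq_const hP hMD
    have hd' : ∀ x, x ≠ q → x ≠ p → fq x * (f x - f q) + -c * f x = d := by
      intro x h1 h2
      apply hd x
      intro i
      fin_cases i
      · exact h1
      · exact h2
    have h1 := hd' q' (Ne.symm hne) hq'p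
    rw [← hqq, sub_self, mul_zero, zero_add] at h1
    have h2 : ∀ x, x ≠ q → x ≠ p → (fq x - c) * (f x - f q) = 0 := by
      intro x hx1 hx2
      have h3 := hd' x hx1 hx2
      rw [← h1] at h3
      linear_combination h3
    -- near `q`
    have h3 : ∀ᶠ z in 𝓝[≠] (0 : ℂ), 1 / z + k z ≠ c := by
      rw [← Filter.not_frequently]
      intro h4
      exact h29_no_pole hk1 h4
    have h4 : ∀ᶠ z in 𝓝[≠] (e' q), fq (e'.symm z) ≠ c := by
      rw [heq]
      filter_upwards [h3, hk2] with z hz1 hz2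
      rw [hz2]
      exact hz1
    have h5 : ∀ᶠ x in 𝓝[≠] q, fq x ≠ c := by
      have h6 := h29_punct hqe h4
      have h7 : ∀ᶠ y in 𝓝[≠] q, y ∈ e'.source :=
        (show ∀ᶠ y in 𝓝 q, y ∈ e'.source from e'.open_source.mem_nhds hqe).filter_mono
          nhdsWithin_le_nhds
      filter_upwards [h6, h7] with y hy hys
      rwa [e'.left_inv hys] at hy
    have h6 : f =ᶠ[𝓝 q] fun _ => f q := by
      rw [eventually_nhdsWithin_iff] at h5
      have h7 : ∀ᶠ x in 𝓝 q, x ≠ p := isOpen_compl_singleton.mem_nhds hqp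
      filter_upwards [h5, h7] with x hx hxp
      by_cases hxq : x = q
      · rw [hxq]
      · have h8 := h2 x hxq hxp
        have h9 : fq x - c ≠ 0 := sub_ne_zero.2 (hx hxq)
        exact sub_eq_zero.1 ((mul_eq_zero.1 h8).resolve_left h9)
    have h7 : EqOn f (fun _ => f q) ({p}ᶜ : Set X) :=
      CS.identity isOpen_compl_singleton (S.isPreconnected_compl_singleton p)
        (fun x hx => hf1 x hx) (fun x _ => h29_hol_const _) hqp h6
    -- the pole at `p`
    have h8 : ∀ᶠ z in 𝓝[≠] (e p), f (e.symm z) = f q := by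
      refine h29_symm_punct hp (p := fun y => f y = f q) ?_
      filter_upwards [self_mem_nhdsWithin] with y hy
      exact h7 hy
    rw [hep] at h8
    refine h29_no_pole (a := f q) hh1 ?_
    refine Filter.Eventually.frequently ?_
    filter_upwards [h8, hh2] with z hz1 hz2
    rw [← hz2, hz1]
  refine ⟨f, hf1, hinj, ?_, h, hh1, hh2⟩
  have hne : ({p}ᶜ : Set X).Nonempty := by
    obtain ⟨z, hz1, hz2⟩ : ∃ z ∈ e.target, z ≠ 0 := by
      have h1 : ∀ᶠ z in 𝓝[≠] (0 : ℂ), z ∈ e.target ∧ z ≠ 0 := by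
        have h2 : e.target ∈ 𝓝 (0 : ℂ) := by
          rw [← hep]
          exact e.open_target.mem_nhds (e.map_source hp)
        exact (show ∀ᶠ z in 𝓝 (0 : ℂ), z ∈ e.target from h2).filter_mono nhdsWithin_le_nhds |>.and
          self_mem_nhdsWithin
      exact h1.exists
    refine ⟨e.symm z, ?_⟩
    intro h1
    apply hz2
    have h3 : e.symm z = p := h1
    rw [← e.right_inv hz1, h3, hep]
  have hopen : IsOpen (f '' {p}ᶜ) := by
    rw [isOpen_iff_mem_nhds]
    rintro _ ⟨x, hx, rfl⟩
    have hxp : x ≠ p := hx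
    obtain ⟨e', he', hxe⟩ := S.cover x
    have h1 := h29_analytic (hf1 x hxp) he' hxe
    have h0 : (f ∘ e'.symm) (e' x) = f x := by
      rw [Function.comp_apply, e'.left_inv hxe]
    rcases h1.eventually_constant_or_nhds_le_map_nhds with h2 | h2
    · exfalso
      have h3 : ∀ᶠ z in 𝓝 (e' x), e'.symm z ≠ p :=
        h29_symm_nhds hxe (isOpen_compl_singleton.mem_nhds hxp)
      have h4 : ∀ᶠ z in 𝓝 (e' x), z ∈ e'.target :=
        e'.open_target.mem_nhds (e'.map_source hxe)
      have h5 : ∀ᶠ z in 𝓝[≠] (e' x), ((f ∘ e'.symm) z = (f ∘ e'.symm) (e' x) ∧ e'.symm z ≠ p ∧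
          z ∈ e'.target) ∧ z ≠ e' x :=
        ((h2.and (h3.and h4)).filter_mono nhdsWithin_le_nhds).and self_mem_nhdsWithin
      obtain ⟨z, ⟨hz1, hz2, hz3⟩, hz4⟩ := h5.exists
      rw [h0] at hz1
      have h6 : e'.symm z = x := hinj hz2 hxp hz1
      apply hz4
      rw [← h6, e'.right_inv hz3]
    · rw [h0] at h2
      apply h2
      have h3 : ∀ᶠ z in 𝓝 (e' x), e'.symm z ≠ p :=
        h29_symm_nhds hxe (isOpen_compl_singleton.mem_nhds hxp)
      rw [Filter.mem_map]
      filter_upwards [h3] with z hz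
      exact ⟨e'.symm z, hz, rfl⟩
  have hclosed : IsClosed (f '' {p}ᶜ) := by
    rw [← closure_subset_iff_isClosed]
    intro w hw
    -- near `p` the function is large
    have h1 : ∀ᶠ z in 𝓝[≠] (0 : ℂ), ‖w‖ + 1 < ‖1 / z + h z‖ := by
      have h2 : Filter.Tendsto (fun z : ℂ => ‖1 / z + h z‖) (𝓝[≠] 0) Filter.atTop := by
        have h3 : Filter.Tendsto (fun z : ℂ => ‖z⁻¹‖) (𝓝[≠] 0) Filter.atTop :=
          tendsto_norm_inv_nhdsNE_zero_atTop
        have h4 : ContinuousAt h 0 := hh1.self_of_nhds.continuousAt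
        have h5 : ∀ᶠ z in 𝓝[≠] (0 : ℂ), ‖h z‖ ≤ ‖h 0‖ + 1 := by
          have h6 : ∀ᶠ z in 𝓝 (0 : ℂ), ‖h z‖ < ‖h 0‖ + 1 :=
            h4.norm.eventually_lt_const (lt_add_one _)
          exact (h6.mono fun _ hz => hz.le).filter_mono nhdsWithin_le_nhds
        refine Filter.tendsto_atTop_mono' _ ?_ (Filter.tendsto_atTop_add_const_right _ (-(‖h 0‖ + 1)) h3)
        filter_upwards [h5] with z hz
        have h7 : ‖z⁻¹‖ ≤ ‖1 / z + h z‖ + ‖h z‖ := by
          have h8 : z⁻¹ = (1 / z + h z) - h z := by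
            rw [one_div]
            ring
          calc ‖z⁻¹‖ = ‖(1 / z + h z) - h z‖ := by rw [← h8]
            _ ≤ _ := norm_sub_le _ _
        linarith
      exact h2.eventually_gt_atTop _
    have h2 : ∀ᶠ z in 𝓝[≠] (e p), ‖w‖ + 1 < ‖f (e.symm z)‖ := by
      rw [hep]
      filter_upwards [h1, hh2] with z hz1 hz2
      rw [hz2]
      exact hz1
    have h3 : ∀ᶠ x in 𝓝[≠] p, ‖w‖ + 1 < ‖f x‖ := by
      have h6 := h29_punct hp h2
      have h7 : ∀ᶠ y in 𝓝[≠] p, y ∈ e.source :=
        (show ∀ᶠ y in 𝓝 p, y ∈ e.source from e.open_source.mem_nhds hp).filter_mono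
          nhdsWithin_le_nhds
      filter_upwards [h6, h7] with y hy hys
      rwa [e.left_inv hys] at hy
    rw [eventually_nhdsWithin_iff] at h3
    obtain ⟨O, hO1, hO2, hO3⟩ := mem_nhds_iff.1 h3
    have hK : IsCompact (Oᶜ : Set X) := hO2.isClosed_compl.isCompact
    have hKp : (Oᶜ : Set X) ⊆ {p}ᶜ := by
      intro x hx hxp
      apply hx
      rw [show x = p from hxp]
      exact hO3
    have hfc : ContinuousOn f (Oᶜ : Set X) := fun x hx =>
      (h29_cont (hf1 x (hKp hx))).continuousWithinAt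
    have hKc : IsClosed (f '' Oᶜ) := (hK.image_of_continuousOn hfc).isClosed
    have h4 : f '' {p}ᶜ ⊆ {w' | ‖w‖ + 1 ≤ ‖w'‖} ∪ f '' Oᶜ := by
      rintro _ ⟨x, hx, rfl⟩
      by_cases hxO : x ∈ O
      · left
        exact (hO1 hxO hx).le
      · right
        exact ⟨x, hxO, rfl⟩
    have h5 : IsClosed ({w' : ℂ | ‖w‖ + 1 ≤ ‖w'‖} ∪ f '' Oᶜ) :=
      (isClosed_le continuous_const continuous_norm).union hKc
    have h6 := closure_minimal h4 h5 hw
    rcases h6 with h6 | h6
    · exfalso
      have h7 : ‖w‖ + 1 ≤ ‖w‖ := h6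
      linarith
    · exact image_mono hKp h6
  exact IsClopen.eq_univ ⟨hclosed, hopen⟩ (hne.image f)

end Pool.Agent.Lib.MP_cca10c_ag
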