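import Pool.Agent.Lib.MP_cca10c_ag.Statement

/-!
# A surface of genus zero is the sphere: the form used in module Q
-/

set_option autoImplicit false

open Topology Set Filter

namespace Pool.Agent.Lib.MP_cca10c_ag

/-- `f` is an isomorphism of `Y` minus the point `q` with the plane, with a pole at `q` -/
structure IsSphereMap {Y : Type} [TopologicalSpace Y] (T : CS Y) (q : Y) (f : Y → ℂ) : Prop where
  hol : ∀ y, y ≠ q → T.HolAt f y
  inj : InjOn f {q}ᶜ
  surj : f '' {q}ᶜ = univ
  pole : Tendsto (fun y => ‖f y‖) (𝓝[≠] q) atTop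

end Pool.Agent.Lib.MP_cca10c_ag
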