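import Pool.Agent.Lib.MP_cca10c_ag.H29_Sphere
import Pool.Agent.Lib.MP_cca10c_ag.Q05_Sphere
import Pool.Agent.Lib.MP_cca10c_ag.H19_Classes

/-!
# The sphere theorem in the form used in module Q (stub H30)

Genus `0` symplectic basis: every closed form is exact (`Frame.Closed.exists_cls`, the linear combination
is empty). Take a disc chart at `q`.
-/

set_option autoImplicit false

open Topology Set Filter

namespace Pool.Agent.Lib.MP_cca10c_ag

theorem exists_sphereMap {Y : Type} [TopologicalSpace Y] [CompactSpace Y] [ConnectedSpace Y]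
    [T2Space Y] (T : CS Y) {u' v' : Fin 0 → Y → UnitAddCircle} (hb : SymplBasis T 0 u' v') (q : Y) :
    ∃ f : Y → ℂ, IsSphereMap T q f := by
  borelize Y
  obtain ⟨F, hF⟩ := T.exists_tame
  have hex : ∀ a : Y → ℂ, F.Closed a → ∃ φ : Y → ℝ, T.Smooth φ ∧ ∀ p, a p = F.d φ p := by
    intro a ha
    obtain ⟨x, φ, hφ, h⟩ := ha.exists_cls hb
    refine ⟨φ, hφ, fun p => ?_⟩
    rw [h p]
    simp [Frame.lin]
  obtain ⟨e, he, hq, heq, -, -⟩ := T.exists_disc q (U := univ) Filter.univ_mem one_pos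
  obtain ⟨f, hf1, hf2, hf3, h, hh, hfh⟩ := sphere hF hex q he hq heq
  refine ⟨f, hf1, hf2, hf3, ?_⟩
  have h2 : Tendsto (fun z : ℂ => ‖1 / z + h z‖) (𝓝[≠] 0) atTop := by
    have h3 : Tendsto (fun z : ℂ => ‖z⁻¹‖) (𝓝[≠] 0) atTop := tendsto_norm_inv_nhdsNE_zero_atTop
    have h4 : ContinuousAt h 0 := hh.self_of_nhds.continuousAt
    have h5 : ∀ᶠ z in 𝓝[≠] (0 : ℂ), ‖h z‖ ≤ ‖h 0‖ + 1 := by
      have h6 : ∀ᶠ z in 𝓝 (0 : ℂ), ‖h z‖ < ‖h 0‖ + 1 :=
        h4.norm.eventually_lt_const (lt_add_one _)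
      exact (h6.mono fun _ hz => hz.le).filter_mono nhdsWithin_le_nhds
    refine tendsto_atTop_mono' _ ?_ (tendsto_atTop_add_const_right _ (-(‖h 0‖ + 1)) h3)
    filter_upwards [h5] with z hz
    have h7 : ‖z⁻¹‖ ≤ ‖1 / z + h z‖ + ‖h z‖ := by
      have h8 : z⁻¹ = (1 / z + h z) - h z := by
        rw [one_div]
        ring
      calc ‖z⁻¹‖ = ‖(1 / z + h z) - h z‖ := by rw [← h8]
        _ ≤ _ := norm_sub_le _ _
    linarith
  have h3 : Tendsto (fun z : ℂ => ‖f (e.symm z)‖) (𝓝[≠] 0) atTop := by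
    refine h2.congr' ?_
    filter_upwards [hfh] with z hz
    rw [hz]
  have h4 : Tendsto e (𝓝[≠] q) (𝓝[≠] 0) := by
    rw [tendsto_nhdsWithin_iff]
    refine ⟨?_, ?_⟩
    · rw [← heq]
      exact (e.continuousAt hq).mono_left nhdsWithin_le_nhds
    · have h5 : ∀ᶠ y in 𝓝[≠] q, y ∈ e.source :=
        (show ∀ᶠ y in 𝓝 q, y ∈ e.source from e.open_source.mem_nhds hq).filter_mono
          nhdsWithin_le_nhds
      filter_upwards [h5, self_mem_nhdsWithin] with y hy hyq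
      intro h6
      apply hyq
      have h7 : e y = 0 := h6
      rw [← heq] at h7
      exact e.injOn hy hq h7
  have h5 := h3.comp h4
  refine h5.congr' ?_
  have h6 : ∀ᶠ y in 𝓝[≠] q, y ∈ e.source :=
    (show ∀ᶠ y in 𝓝 q, y ∈ e.source from e.open_source.mem_nhds hq).filter_mono
      nhdsWithin_le_nhds
  filter_upwards [h6] with y hy
  simp only [Function.comp_apply]
  rw [e.left_inv hy]

end Pool.Agent.Lib.MP_cca10c_ag
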