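import Pool.Agent.Lib.MP_cca10c_ag.P00_Defs

/-! Minkowski's theorem for a box in the coordinates of a matrix of determinant `± 1`. -/

set_option autoImplicit false

open Topology Set Matrix
open scoped ENNReal

namespace Pool.Agent.Lib.MP_cca10c_ag

/-- Minkowski's theorem for a box. -/
theorem K01a_box {n : Type*} [Fintype n] [DecidableEq n] (A : Matrix n n ℝ) (hA : |A.det| = 1)
    (ρ : n → ℝ) (hρ : ∀ j, 0 < ρ j) (hprod : 1 < ∏ j, ρ j) :
    ∃ x : n → ℤ, x ≠ 0 ∧ ∀ j, |(A *ᵥ (fun i => (x i : ℝ))) j| < ρ j := by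
  classical
  set L : AddSubgroup (n → ℝ) :=
    (Submodule.span ℤ (Set.range (Pi.basisFun ℝ n))).toAddSubgroup with hL
  have hcount : Countable L := by
    haveI : DiscreteTopology (Submodule.span ℤ (Set.range (Pi.basisFun ℝ n))) :=
      ZSpan.discreteTopology_pi_basisFun
    exact inferInstanceAs (Countable (Submodule.span ℤ (Set.range (Pi.basisFun ℝ n))))
  set box : Set (n → ℝ) := Set.pi Set.univ (fun j => Set.Ioo (-ρ j) (ρ j)) with hbox
  set s : Set (n → ℝ) := (Matrix.toLin' A) ⁻¹' box with hs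
  have hmem : ∀ x, x ∈ s ↔ ∀ j, |(A *ᵥ x) j| < ρ j := by
    intro x
    rw [hs, Set.mem_preimage, hbox, Set.mem_univ_pi]
    refine forall_congr' (fun j => ?_)
    rw [Matrix.toLin'_apply, Set.mem_Ioo, abs_lt]
  have hdet : LinearMap.det (Matrix.toLin' A) ≠ 0 := by
    rw [LinearMap.det_toLin']
    intro h
    rw [h] at hA
    simp at hA
  have hvol : MeasureTheory.volume s = ENNReal.ofReal (∏ j, (2 * ρ j)) := by
    rw [hs, MeasureTheory.Measure.addHaar_preimage_linearMap _ hdet, LinearMap.det_toLin',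
      abs_inv, hA, inv_one, ENNReal.ofReal_one, one_mul, hbox, Real.volume_pi_Ioo,
      ENNReal.ofReal_prod_of_nonneg]
    · refine Finset.prod_congr rfl (fun j _ => ?_)
      congr 1
      ring
    · intro j _
      have := hρ j
      positivity
  have hconv : Convex ℝ s := by
    refine Convex.linear_preimage ?_ _
    exact convex_pi (fun j _ => convex_Ioo _ _)
  have hsymm : ∀ x ∈ s, -x ∈ s := by
    intro x hx
    rw [hmem] at hx ⊢
    intro j
    rw [Matrix.mulVec_neg, Pi.neg_apply, abs_neg]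
    exact hx j
  have hfund := ZSpan.isAddFundamentalDomain' (Pi.basisFun ℝ n)
    (MeasureTheory.volume : MeasureTheory.Measure (n → ℝ))
  have hlt : MeasureTheory.volume (ZSpan.fundamentalDomain (Pi.basisFun ℝ n)) *
      2 ^ Module.finrank ℝ (n → ℝ) < MeasureTheory.volume s := by
    rw [ZSpan.fundamentalDomain_pi_basisFun, MeasureTheory.volume_pi_pi]
    simp only [Real.volume_Ico, sub_zero, ENNReal.ofReal_one, Finset.prod_const_one, one_mul]
    rw [hvol, Module.finrank_fintype_fun_eq_card, Finset.prod_mul_distrib, Finset.prod_const,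
      Finset.card_univ, ENNReal.ofReal_mul (by positivity), ENNReal.ofReal_pow (by norm_num)]
    have h2 : ENNReal.ofReal (2 : ℝ) = 2 := by norm_num
    rw [h2]
    conv_lhs => rw [← mul_one ((2 : ℝ≥0∞) ^ Fintype.card n)]
    refine (ENNReal.mul_lt_mul_iff_right (by positivity) (by finiteness)).2 ?_
    rw [← ENNReal.ofReal_one]
    exact (ENNReal.ofReal_lt_ofReal_iff (by linarith)).2 hprod
  obtain ⟨x, hx0, hxs⟩ :=
    MeasureTheory.exists_ne_zero_mem_lattice_of_measure_mul_two_pow_lt_measure (L := L)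
      hfund hsymm hconv hlt
  have hxL : (x : n → ℝ) ∈ Submodule.span ℤ (Set.range (Pi.basisFun ℝ n)) := x.2
  rw [Module.Basis.mem_span_iff_repr_mem] at hxL
  choose y hy using hxL
  have hy' : (fun i => ((y i : ℤ) : ℝ)) = (x : n → ℝ) := by
    funext i
    have := hy i
    simpa using this
  refine ⟨y, ?_, ?_⟩
  · intro h
    apply hx0
    apply Subtype.ext
    rw [← hy', h]
    funext i
    simp
  · rw [hy']
    exact (hmem _).1 hxs

end Pool.Agent.Lib.MP_cca10c_ag
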