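import Pool.Agent.Lib.MP_cca10c_ag.P00_Defs

/-! Orthogonal frames for two copies of a lattice basis. -/

set_option autoImplicit false

open Topology Set Matrix
open scoped ENNReal

namespace Pool.Agent.Lib.MP_cca10c_ag

/-- completion of two orthogonal families with the same Gram matrix by an orthonormal family -/
theorem K01b_frame {n : Type*} [Fintype n] [DecidableEq n] {k : ℕ}
    (β γ : Fin k → EuclideanSpace ℝ n) (hβ : LinearIndependent ℝ β)
    (hγ : ∀ i j, inner ℝ (γ i) (γ j) = inner ℝ (β i) (β j))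
    (hβγ : ∀ i j, inner ℝ (β i) (γ j) = 0) :
    ∃ (m : ℕ) (e : Fin m → EuclideanSpace ℝ n), k + k + m = Fintype.card n ∧
      (∀ l l', inner ℝ (e l) (e l') = if l = l' then (1 : ℝ) else 0) ∧
      (∀ l i, inner ℝ (e l) (β i) = 0) ∧ (∀ l i, inner ℝ (e l) (γ i) = 0) ∧
      (∀ z, (∀ i, inner ℝ (β i) z = 0) → (∀ i, inner ℝ (γ i) z = 0) →
        inner ℝ z z = ∑ l, (inner ℝ (e l) z) ^ 2) := by
  classical
  set v : Fin k ⊕ Fin k → EuclideanSpace ℝ n := Sum.elim β γ with hv
  have hG : (Matrix.gram ℝ β).det ≠ 0 := Matrix.det_gram_ne_zero_iff_linearIndependent.2 hβ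
  have hgram : Matrix.gram ℝ v =
      Matrix.fromBlocks (Matrix.gram ℝ β) 0 0 (Matrix.gram ℝ β) := by
    ext a a'
    rcases a with i | i <;> rcases a' with j | j
    · simp [hv, Matrix.gram_apply]
    · simp [hv, Matrix.gram_apply, hβγ]
    · simp only [hv, Matrix.gram_apply, Sum.elim_inr, Sum.elim_inl, Matrix.fromBlocks_apply₂₁,
        Matrix.zero_apply]
      rw [real_inner_comm, hβγ]
    · simp only [hv, Matrix.gram_apply, Sum.elim_inr, Matrix.fromBlocks_apply₂₂]
      exact hγ i j
  have hlin : LinearIndependent ℝ v := by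
    rw [← Matrix.det_gram_ne_zero_iff_linearIndependent, hgram, Matrix.det_fromBlocks_zero₂₁]
    exact mul_ne_zero hG hG
  set K : Submodule ℝ (EuclideanSpace ℝ n) := Submodule.span ℝ (Set.range v) with hK
  have hKdim : Module.finrank ℝ K = k + k := by
    rw [hK, finrank_span_eq_card hlin]
    simp
  have hsum := Submodule.finrank_add_finrank_orthogonal K
  set B := stdOrthonormalBasis ℝ Kᗮ with hB
  have hperp : ∀ (l) (a : Fin k ⊕ Fin k), inner ℝ ((B l : EuclideanSpace ℝ n)) (v a) = 0 := by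
    intro l a
    have hva : v a ∈ K := Submodule.subset_span ⟨a, rfl⟩
    exact Submodule.inner_left_of_mem_orthogonal hva (B l).2
  refine ⟨Module.finrank ℝ Kᗮ, fun l => (B l : EuclideanSpace ℝ n), ?_, ?_, ?_, ?_, ?_⟩
  · rw [← hKdim, hsum]
    simp
  · intro l l'
    have := (orthonormal_iff_ite.1 B.orthonormal) l l'
    rw [← this]
    rfl
  · intro l i
    exact hperp l (Sum.inl i)
  · intro l i
    exact hperp l (Sum.inr i)
  · intro z hz1 hz2
    have hzK : z ∈ Kᗮ := by
      rw [Submodule.mem_orthogonal]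
      intro u hu
      induction hu using Submodule.span_induction with
      | mem x hx =>
        obtain ⟨a, rfl⟩ := hx
        rcases a with i | i
        · exact hz1 i
        · exact hz2 i
      | zero => exact inner_zero_left _
      | add x y _ _ hx hy => rw [inner_add_left, hx, hy, add_zero]
      | smul c x _ hx => rw [inner_smul_left, hx, mul_zero]
    have h := B.sum_sq_norm_inner_right ⟨z, hzK⟩
    have h2 : ‖(⟨z, hzK⟩ : Kᗮ)‖ ^ 2 = inner ℝ z z := by
      rw [real_inner_self_eq_norm_sq]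
      rfl
    rw [← h2, ← h]
    refine Finset.sum_congr rfl (fun l _ => ?_)
    rw [Real.norm_eq_abs, sq_abs]
    rfl

/-- The determinant of the adapted frame is `± 1`. -/
theorem K01b_det {n : Type*} [Fintype n] [DecidableEq n] {k m : ℕ}
    (β γ : Fin k → EuclideanSpace ℝ n) (hβ : LinearIndependent ℝ β)
    (hγ : ∀ i j, inner ℝ (γ i) (γ j) = inner ℝ (β i) (β j))
    (hβγ : ∀ i j, inner ℝ (β i) (γ j) = 0)
    (e : Fin m → EuclideanSpace ℝ n)
    (he : ∀ l l', inner ℝ (e l) (e l') = if l = l' then (1 : ℝ) else 0)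
    (heβ : ∀ l i, inner ℝ (e l) (β i) = 0) (heγ : ∀ l i, inner ℝ (e l) (γ i) = 0)
    (φ : Fin k ⊕ (Fin k ⊕ Fin m) ≃ n) :
    |(Matrix.of fun a b : n =>
      (Sum.elim (fun i => ∑ j, (Matrix.gram ℝ β)⁻¹ i j • β j) (Sum.elim γ e) (φ.symm a) :
        EuclideanSpace ℝ n) b).det| = 1 := by
  classical
  set G := Matrix.gram ℝ β with hGdef
  have hG : G.det ≠ 0 := Matrix.det_gram_ne_zero_iff_linearIndependent.2 hβ
  have hGu : IsUnit G.det := isUnit_iff_ne_zero.2 hG
  have hGsymm : Gᵀ = G := by
    have := Matrix.isHermitian_gram ℝ β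
    rw [Matrix.IsHermitian, Matrix.conjTranspose_eq_transpose_of_trivial] at this
    exact this
  have hGisymm : (G⁻¹)ᵀ = G⁻¹ := by rw [Matrix.transpose_nonsing_inv, hGsymm]
  set R : Fin k ⊕ (Fin k ⊕ Fin m) → EuclideanSpace ℝ n :=
    Sum.elim (fun i => ∑ j, G⁻¹ i j • β j) (Sum.elim γ e) with hR
  set M : Matrix n n ℝ := Matrix.of fun a b : n => (R (φ.symm a)) b with hM
  have hGapp : ∀ i j, inner ℝ (β i) (β j) = G i j := fun i j => rfl
  have hdual : ∀ i j, inner ℝ (∑ j', G⁻¹ i j' • β j') (β j) = (1 : Matrix (Fin k) (Fin k) ℝ) i j := by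
    intro i j
    rw [sum_inner, ← Matrix.nonsing_inv_mul G hGu, Matrix.mul_apply]
    refine Finset.sum_congr rfl (fun j' _ => ?_)
    rw [real_inner_smul_left, hGapp]
  have hgram : Matrix.gram ℝ R = Matrix.fromBlocks G⁻¹ 0 0 (Matrix.fromBlocks G 0 0 1) := by
    ext a a'
    rcases a with i | i | l <;> rcases a' with j | j | l'
    · simp only [hR, Matrix.gram_apply, Sum.elim_inl, Matrix.fromBlocks_apply₁₁]
      rw [inner_sum]
      simp only [real_inner_smul_right, hdual]
      rw [Finset.sum_eq_single i]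
      · rw [Matrix.one_apply_eq, mul_one]
        conv_rhs => rw [← hGisymm]
        rfl
      · intro b _ hb
        rw [Matrix.one_apply_ne (Ne.symm hb), mul_zero]
      · intro h; exact absurd (Finset.mem_univ _) h
    · simp only [hR, Matrix.gram_apply, Sum.elim_inl, Sum.elim_inr, Matrix.fromBlocks_apply₁₂,
        Matrix.zero_apply]
      rw [sum_inner]
      refine Finset.sum_eq_zero (fun b _ => ?_)
      rw [real_inner_smul_left, hβγ, mul_zero]
    · simp only [hR, Matrix.gram_apply, Sum.elim_inl, Sum.elim_inr, Matrix.fromBlocks_apply₁₂,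
        Matrix.zero_apply]
      rw [sum_inner]
      refine Finset.sum_eq_zero (fun b _ => ?_)
      rw [real_inner_smul_left, real_inner_comm, heβ, mul_zero]
    · simp only [hR, Matrix.gram_apply, Sum.elim_inl, Sum.elim_inr, Matrix.fromBlocks_apply₂₁,
        Matrix.zero_apply]
      rw [inner_sum]
      refine Finset.sum_eq_zero (fun b _ => ?_)
      rw [real_inner_smul_right, real_inner_comm, hβγ, mul_zero]
    · simp only [hR, Matrix.gram_apply, Sum.elim_inl, Sum.elim_inr, Matrix.fromBlocks_apply₂₂,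
        Matrix.fromBlocks_apply₁₁]
      rw [hγ, hGapp]
    · simp only [hR, Matrix.gram_apply, Sum.elim_inl, Sum.elim_inr, Matrix.fromBlocks_apply₂₂,
        Matrix.fromBlocks_apply₁₂, Matrix.zero_apply]
      rw [real_inner_comm, heγ]
    · simp only [hR, Matrix.gram_apply, Sum.elim_inl, Sum.elim_inr, Matrix.fromBlocks_apply₂₁,
        Matrix.zero_apply]
      rw [inner_sum]
      refine Finset.sum_eq_zero (fun b _ => ?_)
      rw [real_inner_smul_right, heβ, mul_zero]
    · simp only [hR, Matrix.gram_apply, Sum.elim_inl, Sum.elim_inr, Matrix.fromBlocks_apply₂₂,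
        Matrix.fromBlocks_apply₂₁, Matrix.zero_apply]
      rw [heγ]
    · simp only [hR, Matrix.gram_apply, Sum.elim_inr, Matrix.fromBlocks_apply₂₂]
      rw [he, Matrix.one_apply]
  have hMM : M * Mᵀ = (Matrix.gram ℝ R).submatrix φ.symm φ.symm := by
    ext a a'
    rw [Matrix.mul_apply, Matrix.submatrix_apply, Matrix.gram_apply, PiLp.inner_apply]
    refine Finset.sum_congr rfl (fun b _ => ?_)
    rw [Matrix.transpose_apply, hM, Matrix.of_apply, Matrix.of_apply]
    simp [mul_comm]
  have hdet : M.det * M.det = 1 := by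
    have h1 : (M * Mᵀ).det = M.det * M.det := by rw [Matrix.det_mul, Matrix.det_transpose]
    rw [← h1, hMM, Matrix.det_submatrix_equiv_self, hgram, Matrix.det_fromBlocks_zero₂₁,
      Matrix.det_fromBlocks_zero₂₁, Matrix.det_one, mul_one, Matrix.det_nonsing_inv,
      Ring.inverse_eq_inv']
    exact inv_mul_cancel₀ hG
  have := abs_mul_abs_self M.det
  rw [hdet] at this
  have h0 := abs_nonneg M.det
  nlinarith

end Pool.Agent.Lib.MP_cca10c_ag
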