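import Pool.Agent.Lib.MP_cca10c_ag.P00_Defs
import Pool.Agent.Lib.MP_cca10c_ag.K01a_Box
import Pool.Agent.Lib.MP_cca10c_ag.K01b_Frame

/-! Module K: Minkowski for a quotient of a symplectic lattice. -/

set_option autoImplicit false

open Topology Set Matrix
open scoped ENNReal

namespace Pool.Agent.Lib.MP_cca10c_ag

/-- the standard symplectic form -/
def omJ {g : ℕ} (x y : Fin g ⊕ Fin g → ℝ) : ℝ := x ⬝ᵥ (Matrix.J (Fin g) ℝ *ᵥ y)

/-- bilinear form of a matrix -/
def BF {n : Type*} [Fintype n] (P : Matrix n n ℝ) (x y : n → ℝ) : ℝ := x ⬝ᵥ (P *ᵥ y)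

/-- integral vector as a real vector -/
def rV {n : Type*} (x : n → ℤ) : n → ℝ := fun i => (x i : ℝ)

/-- the span of integral vectors -/
def spn {n : Type*} {k : ℕ} (b : Fin k → n → ℤ) : Submodule ℝ (n → ℝ) :=
  Submodule.span ℝ (Set.range fun i => rV (b i))

open scoped MatrixOrder in
private theorem K01_sqrt {n : Type*} [Fintype n] [DecidableEq n] {P : Matrix n n ℝ}
    (hP : P.PosDef) : ∃ B : Matrix n n ℝ, P = Bᵀ * B := by
  obtain ⟨B, hB⟩ := CStarAlgebra.nonneg_iff_eq_star_mul_self.mp hP.posSemidef.nonneg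
  refine ⟨B, ?_⟩
  rw [hB, Matrix.star_eq_conjTranspose, Matrix.conjTranspose_eq_transpose_of_trivial]

private theorem K01_om_int {g : ℕ} (x y : Fin g ⊕ Fin g → ℤ) : ∃ z : ℤ, omJ (rV x) (rV y) = z := by
  refine ⟨x ⬝ᵥ (Matrix.J (Fin g) ℤ *ᵥ y), ?_⟩
  have hJ : Matrix.J (Fin g) ℝ = (Matrix.J (Fin g) ℤ).map (Int.cast : ℤ → ℝ) := by
    have := Matrix.map_J (l := Fin g) (Int.castRingHom ℝ)
    exact this.symm
  rw [omJ, hJ]
  simp only [dotProduct, Matrix.mulVec, Matrix.map_apply, rV]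
  push_cast
  rfl

private theorem K01_int_zero {u : ℝ} (hu : ∃ z : ℤ, u = z) (h : |u| < 1) : u = 0 := by
  obtain ⟨z, rfl⟩ := hu
  have h1 : |z| < 1 := by exact_mod_cast h
  rw [Int.abs_lt_one_iff] at h1
  simp [h1]

/-- Minkowski.  `W` = real span of the `b i`, `J_P` = complex structure with `P = ω(·, J_P ·)`,
`V'` = orthogonal complement of `W + J_P W`.  In the basis `(b i; a i ∈ J_P W dual to b; orthonormal
basis of V')` the matrix of `ω` is block diagonal with blocks `J` and an orthogonal matrix, so the basis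
has determinant `± 1`; apply Minkowski to the box `|coefficient of b i|, |coefficient of a i| < 1`,
`|coefficients in V'| < r` with `r` slightly larger than 1. -/
theorem minkowski_quot {g k : ℕ} (hk : k < g) {P : Matrix (Fin g ⊕ Fin g) (Fin g ⊕ Fin g) ℝ}
    (hP : P.PosDef) (hPs : P ∈ Matrix.symplecticGroup (Fin g) ℝ) (b : Fin k → Fin g ⊕ Fin g → ℤ)
    (hb : LinearIndependent ℝ (fun i => rV (b i))) (hiso : ∀ i j, omJ (rV (b i)) (rV (b j)) = 0)
    (hsat : ∀ t : Fin k → ℝ, (∃ x : Fin g ⊕ Fin g → ℤ, rV x = ∑ i, t i • rV (b i)) →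
      ∀ i, ∃ m : ℤ, t i = m) :
    ∃ (x : Fin g ⊕ Fin g → ℤ) (t : Fin k → ℝ), (∀ i, omJ (rV x) (rV (b i)) = 0) ∧
      rV x ∉ spn b ∧ (∀ i, BF P (rV x - ∑ j, t j • rV (b j)) (rV (b i)) = 0) ∧
      QF P (rV x - ∑ j, t j • rV (b j)) ≤ 2 * g + 1 := by
  classical
  have hsymm : Pᵀ = P := by
    have := hP.isHermitian
    rwa [Matrix.IsHermitian, Matrix.conjTranspose_eq_transpose_of_trivial] at this
  have hPJP : P * Matrix.J (Fin g) ℝ * P = Matrix.J (Fin g) ℝ := by
    have := SymplecticGroup.mem_iff.1 hPs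
    rwa [hsymm] at this
  have hJJ : (Matrix.J (Fin g) ℝ)ᵀ * Matrix.J (Fin g) ℝ = 1 := by
    rw [Matrix.J_transpose, neg_mul, Matrix.J_squared, neg_neg]
  obtain ⟨B, hB⟩ := K01_sqrt hP
  have hBdet : |B.det| = 1 := by
    have h1 : P.det = 1 := SymplecticGroup.det_eq_one hPs
    rw [hB, Matrix.det_mul, Matrix.det_transpose] at h1
    have := abs_mul_abs_self B.det
    rw [h1] at this
    have h0 := abs_nonneg B.det
    nlinarith
  set T : (Fin g ⊕ Fin g → ℝ) →ₗ[ℝ] EuclideanSpace ℝ (Fin g ⊕ Fin g) :=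
    (WithLp.linearEquiv 2 ℝ (Fin g ⊕ Fin g → ℝ)).symm.toLinearMap ∘ₗ B.mulVecLin with hTdef
  have hTapp : ∀ x a, T x a = (B *ᵥ x) a := fun x a => rfl
  have hT : ∀ x y, inner ℝ (T x) (T y) = BF P x y := by
    intro x y
    rw [PiLp.inner_apply, BF, hB, ← Matrix.mulVec_mulVec, Matrix.dotProduct_mulVec,
      Matrix.vecMul_transpose, dotProduct]
    refine Finset.sum_congr rfl (fun a _ => ?_)
    rw [hTapp, hTapp]
    simp [mul_comm]
  have hBFsymm : ∀ x y, BF P x y = BF P y x := by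
    intro x y
    rw [← hT, real_inner_comm, hT]
  have hTinj : Function.Injective T := by
    rw [injective_iff_map_eq_zero]
    intro x hx
    by_contra hne
    have h1 := hP.dotProduct_mulVec_pos hne
    have h2 : BF P x x = 0 := by rw [← hT, hx, inner_zero_left]
    rw [BF] at h2
    rw [star_trivial, h2] at h1
    exact lt_irrefl _ h1
  set c : Fin k → Fin g ⊕ Fin g → ℝ :=
    fun i => -(Matrix.J (Fin g) ℝ *ᵥ (P *ᵥ rV (b i))) with hc
  have hBFc : ∀ x i, BF P x (c i) = - omJ x (rV (b i)) := by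
    intro x i
    rw [BF, hc, omJ, Matrix.mulVec_neg, dotProduct_neg, Matrix.mulVec_mulVec,
      Matrix.mulVec_mulVec, hPJP]
  set β : Fin k → EuclideanSpace ℝ (Fin g ⊕ Fin g) := fun i => T (rV (b i)) with hβdef
  set γ : Fin k → EuclideanSpace ℝ (Fin g ⊕ Fin g) := fun i => T (c i) with hγdef
  have hβ : LinearIndependent ℝ β := hb.map' T (LinearMap.ker_eq_bot.2 hTinj)
  have hγ : ∀ i j, inner ℝ (γ i) (γ j) = inner ℝ (β i) (β j) := by
    intro i j
    rw [hβdef, hγdef]
    simp only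
    rw [hT, hT, hBFc, hBFsymm (rV (b i)) (rV (b j)), omJ, hc]
    simp only
    rw [neg_dotProduct, neg_neg, Matrix.dotProduct_mulVec, ← Matrix.mulVec_transpose,
      Matrix.mulVec_mulVec, hJJ, Matrix.one_mulVec, dotProduct_comm]
    rfl
  have hβγ : ∀ i j, inner ℝ (β i) (γ j) = 0 := by
    intro i j
    rw [hβdef, hγdef]
    simp only
    rw [hT, hBFc, hiso, neg_zero]
  obtain ⟨m, e, hcard, he, heβ, heγ, hPars⟩ := K01b_frame β γ hβ hγ hβγ
  rw [Fintype.card_sum, Fintype.card_fin] at hcard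
  have hm0 : m ≠ 0 := by omega
  have hm2 : m ≤ 2 * g := by omega
  have hg0 : 0 < g := by omega
  set φ : Fin k ⊕ (Fin k ⊕ Fin m) ≃ Fin g ⊕ Fin g := Fintype.equivOfCardEq (by
    simp only [Fintype.card_sum, Fintype.card_fin]
    omega) with hφ
  have hMdet := K01b_det β γ hβ hγ hβγ e he heβ heγ φ
  set G := Matrix.gram ℝ β with hGdef
  have hG : G.det ≠ 0 := Matrix.det_gram_ne_zero_iff_linearIndependent.2 hβ
  have hGu : IsUnit G.det := isUnit_iff_ne_zero.2 hG
  set R : Fin k ⊕ (Fin k ⊕ Fin m) → EuclideanSpace ℝ (Fin g ⊕ Fin g) :=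
    Sum.elim (fun i => ∑ j, G⁻¹ i j • β j) (Sum.elim γ e) with hR
  set M : Matrix (Fin g ⊕ Fin g) (Fin g ⊕ Fin g) ℝ :=
    Matrix.of fun a b => (R (φ.symm a)) b with hM
  have hAdet : |(M * B).det| = 1 := by
    rw [Matrix.det_mul, abs_mul, hMdet, hBdet, one_mul]
  have hAx : ∀ (x : Fin g ⊕ Fin g → ℝ) a, ((M * B) *ᵥ x) a = inner ℝ (R (φ.symm a)) (T x) := by
    intro x a
    rw [← Matrix.mulVec_mulVec, PiLp.inner_apply, Matrix.mulVec, dotProduct]
    refine Finset.sum_congr rfl (fun d _ => ?_)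
    rw [hM, Matrix.of_apply, hTapp]
    simp [mul_comm]
  set r : ℝ := Real.sqrt (1 + 1 / (2 * g)) with hr
  have hg0' : (0 : ℝ) < g := by exact_mod_cast hg0
  have hr2 : r ^ 2 = 1 + 1 / (2 * g) := Real.sq_sqrt (by positivity)
  have hr1 : 1 < r := by
    rw [hr, Real.lt_sqrt (by norm_num)]
    have : 0 < 1 / (2 * (g : ℝ)) := by positivity
    linarith
  set ρ : Fin k ⊕ (Fin k ⊕ Fin m) → ℝ :=
    Sum.elim (fun _ => 1) (Sum.elim (fun _ => 1) (fun _ => r)) with hρ
  have hρpos : ∀ a, 0 < ρ a := by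
    rintro (a | a | a)
    · exact one_pos
    · exact one_pos
    · exact lt_trans one_pos hr1
  have hρprod : 1 < ∏ a : Fin g ⊕ Fin g, ρ (φ.symm a) := by
    rw [Equiv.prod_comp φ.symm ρ, Fintype.prod_sum_type, Fintype.prod_sum_type]
    simp only [hρ, Sum.elim_inl, Sum.elim_inr, Finset.prod_const_one, one_mul,
      Finset.prod_const, Finset.card_univ, Fintype.card_fin]
    exact one_lt_pow₀ hr1 hm0
  obtain ⟨x, hx0, hx⟩ := K01a_box (M * B) hAdet (fun a => ρ (φ.symm a)) (fun a => hρpos _) hρprod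
  have hx' : ∀ a, |inner ℝ (R a) (T (rV x))| < ρ a := by
    intro a
    have := hx (φ a)
    have h2 := hAx (rV x) (φ a)
    rw [Equiv.symm_apply_apply] at h2
    rw [Equiv.symm_apply_apply] at this
    rw [← h2]
    exact this
  have hu : ∀ i, omJ (rV x) (rV (b i)) = 0 := by
    intro i
    refine K01_int_zero (K01_om_int _ _) ?_
    have := hx' (Sum.inr (Sum.inl i))
    have h2 : inner ℝ (R (Sum.inr (Sum.inl i))) (T (rV x)) = - omJ (rV x) (rV (b i)) := by
      rw [← hBFc, hBFsymm, ← hT]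
      rfl
    rw [h2, abs_neg] at this
    exact this
  set p : Fin k → ℝ := fun i => inner ℝ (β i) (T (rV x)) with hp
  set t : Fin k → ℝ := G⁻¹ *ᵥ p with ht
  have htabs : ∀ i, |t i| < 1 := by
    intro i
    have := hx' (Sum.inl i)
    have h2 : inner ℝ (R (Sum.inl i)) (T (rV x)) = t i := by
      rw [hR, Sum.elim_inl, sum_inner, ht, Matrix.mulVec, dotProduct]
      refine Finset.sum_congr rfl (fun j _ => ?_)
      rw [real_inner_smul_left]
    rw [h2] at this
    exact this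
  have hGt : G *ᵥ t = p := by
    rw [ht, Matrix.mulVec_mulVec, Matrix.mul_nonsing_inv G hGu, Matrix.one_mulVec]
  have hBFsum : ∀ (τ : Fin k → ℝ) (y : Fin g ⊕ Fin g → ℝ),
      BF P (∑ j, τ j • rV (b j)) y = ∑ j, τ j * BF P (rV (b j)) y := by
    intro τ y
    rw [← hT, map_sum, sum_inner]
    refine Finset.sum_congr rfl (fun j _ => ?_)
    rw [map_smul, real_inner_smul_left, hT]
  have hGBF : ∀ (τ : Fin k → ℝ) i, (G *ᵥ τ) i = BF P (∑ j, τ j • rV (b j)) (rV (b i)) := by
    intro τ i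
    rw [hBFsum, Matrix.mulVec, dotProduct]
    refine Finset.sum_congr rfl (fun j _ => ?_)
    rw [mul_comm, hBFsymm, ← hT]
    rfl
  have hBFsub : ∀ x y z, BF P (x - y) z = BF P x z - BF P y z := by
    intro x y z
    rw [← hT, map_sub, inner_sub_left, hT, hT]
  have hort : ∀ i, BF P (rV x - ∑ j, t j • rV (b j)) (rV (b i)) = 0 := by
    intro i
    rw [hBFsub, ← hGBF, hGt, hp]
    simp only
    rw [real_inner_comm, hT, sub_self]
  refine ⟨x, t, hu, ?_, hort, ?_⟩
  · intro hmem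
    rw [spn, Submodule.mem_span_range_iff_exists_fun] at hmem
    obtain ⟨τ, hτ⟩ := hmem
    have hint := hsat τ ⟨x, hτ.symm⟩
    have hτt : τ = t := by
      have h1 : G *ᵥ τ = p := by
        funext i
        rw [hGBF, hτ, hp]
        simp only
        rw [real_inner_comm, hT]
      rw [ht, ← h1, Matrix.mulVec_mulVec, Matrix.nonsing_inv_mul G hGu, Matrix.one_mulVec]
    have hτ0 : τ = 0 := by
      funext i
      exact K01_int_zero (hint i) (by rw [hτt]; exact htabs i)
    apply hx0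
    funext a
    have h2 := congrFun hτ a
    rw [hτ0] at h2
    simp only [Pi.zero_apply, zero_smul, Finset.sum_const_zero, rV] at h2
    have h3 : (x a : ℝ) = 0 := h2.symm
    exact_mod_cast h3
  · have h1 : QF P (rV x - ∑ j, t j • rV (b j)) =
        BF P (rV x - ∑ j, t j • rV (b j)) (rV x - ∑ j, t j • rV (b j)) := rfl
    rw [h1, ← hT, hPars _ (fun i => ?_) (fun i => ?_)]
    · have h2 : ∀ l, (inner ℝ (e l) (T (rV x - ∑ j, t j • rV (b j)))) ^ 2 ≤ r ^ 2 := by
        intro l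
        have h3 : inner ℝ (e l) (T (rV x - ∑ j, t j • rV (b j))) = inner ℝ (e l) (T (rV x)) := by
          rw [map_sub, inner_sub_right, map_sum, inner_sum, Finset.sum_eq_zero, sub_zero]
          intro j _
          rw [map_smul, real_inner_smul_right, heβ, mul_zero]
        rw [h3, ← sq_abs]
        have h4 : |inner ℝ (e l) (T (rV x))| < r := hx' (Sum.inr (Sum.inr l))
        exact pow_le_pow_left₀ (abs_nonneg _) h4.le 2
      calc ∑ l, (inner ℝ (e l) (T (rV x - ∑ j, t j • rV (b j)))) ^ 2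
          ≤ ∑ _l : Fin m, r ^ 2 := Finset.sum_le_sum (fun l _ => h2 l)
        _ = m * (1 + 1 / (2 * g)) := by
            rw [Finset.sum_const, Finset.card_univ, Fintype.card_fin, nsmul_eq_mul, hr2]
        _ ≤ (2 * g) * (1 + 1 / (2 * g)) := by
            have hm2' : (m : ℝ) ≤ 2 * g := by exact_mod_cast hm2
            gcongr
        _ = 2 * g + 1 := by field_simp
    · rw [real_inner_comm, hT]
      exact hort i
    · rw [real_inner_comm, hT, hBFc]
      have h5 : omJ (rV x - ∑ j, t j • rV (b j)) (rV (b i)) = 0 := by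
        have h6 := hBFc (rV x - ∑ j, t j • rV (b j)) i
        rw [hBFsub, hBFc, hu, hBFsum] at h6
        have h7 : ∑ j, t j * BF P (rV (b j)) (c i) = 0 := by
          refine Finset.sum_eq_zero (fun j _ => ?_)
          rw [hBFc, hiso]
          simp
        rw [h7] at h6
        linarith
      rw [h5, neg_zero]

end Pool.Agent.Lib.MP_cca10c_ag
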