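import Pool.Agent.Lib.MP_cca10c_ag.P00_Defs

/-! Module P: simultaneous diagonalisation. -/

set_option autoImplicit false

open Topology Set Matrix
open scoped ENNReal

namespace Pool.Agent.Lib.MP_cca10c_ag

/-- orthogonal diagonalisation of a positive definite real matrix -/
private theorem P02_orth {n : Type} [Fintype n] [DecidableEq n] {P : Matrix n n ℝ}
    (hP : P.PosDef) : ∃ (U : Matrix n n ℝ) (d : n → ℝ), Uᵀ * U = 1 ∧ (∀ i, 0 < d i) ∧
      Uᵀ * P * U = Matrix.diagonal d := by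
  have hH := hP.isHermitian
  have hs := hH.conjStarAlgAut_star_eigenvectorUnitary
  have hu : (hH.eigenvectorUnitary : Matrix n n ℝ)ᵀ * (hH.eigenvectorUnitary : Matrix n n ℝ) = 1 := by
    have := (Unitary.mem_iff.1 hH.eigenvectorUnitary.2).1
    rwa [Matrix.star_eq_conjTranspose, Matrix.conjTranspose_eq_transpose_of_trivial] at this
  refine ⟨hH.eigenvectorUnitary, hH.eigenvalues, hu, fun i => hP.eigenvalues_pos i, ?_⟩
  rw [Unitary.conjStarAlgAut_apply] at hs
  simp only [Unitary.coe_star, star_star] at hs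
  rw [Matrix.star_eq_conjTranspose, Matrix.conjTranspose_eq_transpose_of_trivial] at hs
  rw [hs]
  rfl

/-- simultaneous diagonalisation of two positive definite forms -/
theorem sim_diag {n : Type} [Fintype n] [DecidableEq n] {P Q : Matrix n n ℝ} (hP : P.PosDef)
    (hQ : Q.PosDef) : ∃ (T : Matrix n n ℝ) (d : n → ℝ), IsUnit T.det ∧ (∀ i, 0 < d i) ∧
      Tᵀ * P * T = 1 ∧ Tᵀ * Q * T = Matrix.diagonal d := by
  obtain ⟨U, e, hU, he, hPe⟩ := P02_orth hP
  let S : Matrix n n ℝ := Matrix.diagonal fun i => (Real.sqrt (e i))⁻¹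
  have hS : Sᵀ * Matrix.diagonal e * S = 1 := by
    simp only [S, Matrix.diagonal_transpose, Matrix.diagonal_mul_diagonal]
    rw [← Matrix.diagonal_one]
    congr 1
    funext i
    have h1 : Real.sqrt (e i) ≠ 0 := (Real.sqrt_pos.2 (he i)).ne'
    have h2 : Real.sqrt (e i) * Real.sqrt (e i) = e i := Real.mul_self_sqrt (he i).le
    field_simp
    nlinarith
  let T0 := U * S
  have hT0 : T0ᵀ * P * T0 = 1 := by
    have : T0ᵀ * P * T0 = Sᵀ * (Uᵀ * P * U) * S := by
      simp only [T0, Matrix.transpose_mul, Matrix.mul_assoc]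
    rw [this, hPe, hS]
  have hdet0 : IsUnit T0.det := by
    have := congrArg Matrix.det hT0
    rw [Matrix.det_mul, Matrix.det_mul, Matrix.det_one] at this
    exact IsUnit.of_mul_eq_one_right _ this
  have hQ' : (T0ᵀ * Q * T0).PosDef := by
    have h1 : (T0ᴴ * Q * T0).PosDef := by
      apply hQ.conjTranspose_mul_mul_same
      exact Matrix.mulVec_injective_iff_isUnit.2 ((Matrix.isUnit_iff_isUnit_det _).2 hdet0)
    rwa [Matrix.conjTranspose_eq_transpose_of_trivial] at h1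
  obtain ⟨V, d, hV, hd, hVd⟩ := P02_orth hQ'
  refine ⟨T0 * V, d, ?_, hd, ?_, ?_⟩
  · rw [Matrix.det_mul]
    refine hdet0.mul ?_
    have := congrArg Matrix.det hV
    rw [Matrix.det_mul, Matrix.det_one] at this
    exact IsUnit.of_mul_eq_one_right _ this
  · have : (T0 * V)ᵀ * P * (T0 * V) = Vᵀ * (T0ᵀ * P * T0) * V := by
      simp only [Matrix.transpose_mul, Matrix.mul_assoc]
    rw [this, hT0, Matrix.mul_one, hV]
  · have : (T0 * V)ᵀ * Q * (T0 * V) = Vᵀ * (T0ᵀ * Q * T0) * V := by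
      simp only [Matrix.transpose_mul, Matrix.mul_assoc]
    rw [this, hVd]

/-- the roots of the characteristic polynomial of `P⁻¹ Q` -/
theorem roots_diag {n : Type} [Fintype n] [DecidableEq n] {P Q T : Matrix n n ℝ} {d : n → ℝ}
    (hT : IsUnit T.det) (h1 : Tᵀ * P * T = 1) (h2 : Tᵀ * Q * T = Matrix.diagonal d) :
    (P⁻¹ * Q).charpoly.roots = Finset.univ.val.map d := by
  have hTt : IsUnit (Tᵀ).det := by rwa [Matrix.det_transpose]
  have e1 : T⁻¹ * (T * Tᵀ * Q) * T = Matrix.diagonal d := by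
    rw [← h2]
    have : T⁻¹ * (T * Tᵀ * Q) * T = (T⁻¹ * T) * (Tᵀ * Q * T) := by
      simp only [Matrix.mul_assoc]
    rw [this, Matrix.nonsing_inv_mul _ hT, Matrix.one_mul]
  have e2 : P⁻¹ = T * Tᵀ := by
    apply Matrix.inv_eq_left_inv
    have h3 : Tᵀ * (P * T) = 1 := by rw [← Matrix.mul_assoc]; exact h1
    have h4 : P * T * Tᵀ = 1 := mul_eq_one_comm.1 h3
    have h5 : P * (T * Tᵀ) = 1 := by rw [← Matrix.mul_assoc]; exact h4
    exact mul_eq_one_comm.1 h5
  have e3 : (P⁻¹ * Q).charpoly = (Matrix.diagonal d).charpoly := by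
    rw [← e1, e2]
    have e4 : (T⁻¹ * (T * Tᵀ * Q) * T).charpoly = (T * (T⁻¹ * (T * Tᵀ * Q))).charpoly :=
      Matrix.charpoly_mul_comm _ _
    rw [e4, ← Matrix.mul_assoc T T⁻¹, Matrix.mul_nonsing_inv _ hT, Matrix.one_mul]
  rw [e3, Matrix.charpoly_diagonal, Polynomial.roots_prod]
  · simp
  · simp [Finset.prod_ne_zero_iff, Polynomial.X_sub_C_ne_zero]

theorem QF_diag {n : Type} [Fintype n] [DecidableEq n] {P Q T : Matrix n n ℝ} {d : n → ℝ}
    (h1 : Tᵀ * P * T = 1) (h2 : Tᵀ * Q * T = Matrix.diagonal d) (y : n → ℝ) :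
    QF P (T *ᵥ y) = ∑ i, y i ^ 2 ∧ QF Q (T *ᵥ y) = ∑ i, d i * y i ^ 2 := by
  have key : ∀ A : Matrix n n ℝ, QF A (T *ᵥ y) = y ⬝ᵥ ((Tᵀ * A * T) *ᵥ y) := by
    intro A
    rw [QF, ← Matrix.mulVec_mulVec, ← Matrix.mulVec_mulVec, Matrix.dotProduct_mulVec y Tᵀ,
      Matrix.vecMul_transpose]
  rw [key, key, h1, h2]
  constructor
  · simp [dotProduct, pow_two]
  · simp only [dotProduct, Matrix.mulVec_diagonal]
    refine Finset.sum_congr rfl fun i _ => ?_
    ring

end Pool.Agent.Lib.MP_cca10c_ag
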