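import Pool.Agent.Lib.MP_cca10c_ag.K01_Mink
import Pool.Agent.Lib.MP_cca10c_ag.P02_Diag

/-! Module K: minimal vector for the quotient norm. -/

set_option autoImplicit false

open Topology Set Matrix
open scoped ENNReal

namespace Pool.Agent.Lib.MP_cca10c_ag

private theorem K01c_lower {n : Type} [Fintype n] [DecidableEq n] {P : Matrix n n ℝ}
    (hP : P.PosDef) : ∃ c : ℝ, 0 < c ∧ ∀ x : n → ℝ, c * ∑ i, x i ^ 2 ≤ QF P x := by
  obtain ⟨T, d, hT, hd, h1, h2⟩ := sim_diag (Matrix.PosDef.one (n := n) (R := ℝ)) hP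
  have hsum : 0 ≤ ∑ j, (d j)⁻¹ := Finset.sum_nonneg fun j _ => (inv_pos.2 (hd j)).le
  refine ⟨(1 + ∑ j, (d j)⁻¹)⁻¹, by positivity, fun x => ?_⟩
  have hc : ∀ i, (1 + ∑ j, (d j)⁻¹)⁻¹ ≤ d i := by
    intro i
    have h3 : (d i)⁻¹ ≤ 1 + ∑ j, (d j)⁻¹ := by
      have := Finset.single_le_sum (f := fun j => (d j)⁻¹) (fun j _ => (inv_pos.2 (hd j)).le)
        (Finset.mem_univ i)
      linarith
    exact inv_le_of_inv_le₀ (hd i) h3
  have hx : x = T *ᵥ (T⁻¹ *ᵥ x) := by
    rw [Matrix.mulVec_mulVec, Matrix.mul_nonsing_inv _ hT, Matrix.one_mulVec]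
  obtain ⟨q1, q2⟩ := QF_diag h1 h2 (T⁻¹ *ᵥ x)
  rw [← hx] at q1 q2
  have q3 : QF (1 : Matrix n n ℝ) x = ∑ i, x i ^ 2 := by
    simp [QF, dotProduct, pow_two]
  rw [← q3, q1, q2, Finset.mul_sum]
  exact Finset.sum_le_sum fun i _ => mul_le_mul_of_nonneg_right (hc i) (sq_nonneg _)

private theorem K01c_symm {n : Type} [Fintype n] [DecidableEq n] {P : Matrix n n ℝ}
    (hP : P.PosDef) (x y : n → ℝ) : BF P x y = BF P y x := by
  have h : Pᵀ = P := by
    have := hP.isHermitian.eq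
    rwa [Matrix.conjTranspose_eq_transpose_of_trivial] at this
  rw [BF, BF, Matrix.dotProduct_mulVec, ← Matrix.mulVec_transpose, h, dotProduct_comm]

private theorem K01c_add {n : Type} [Fintype n] (P : Matrix n n ℝ) (x y z : n → ℝ) :
    BF P (x + y) z = BF P x z + BF P y z := by
  rw [BF, BF, BF, add_dotProduct]

private theorem K01c_sum_right {n : Type} [Fintype n] {k : ℕ} (P : Matrix n n ℝ) (x : n → ℝ)
    (t : Fin k → ℝ) (b : Fin k → n → ℝ) :
    BF P x (∑ j, t j • b j) = ∑ j, t j * BF P x (b j) := by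
  rw [BF, Matrix.mulVec_sum, dotProduct_sum]
  refine Finset.sum_congr rfl fun j _ => ?_
  rw [Matrix.mulVec_smul, dotProduct_smul, smul_eq_mul, BF]

private theorem K01c_QF_add {n : Type} [Fintype n] [DecidableEq n] {P : Matrix n n ℝ}
    (hP : P.PosDef) (v u : n → ℝ) (h : BF P v u = 0) : QF P (v + u) = QF P v + QF P u := by
  have e : QF P (v + u) = BF P (v + u) (v + u) := rfl
  have e1 : QF P v = BF P v v := rfl
  have e2 : QF P u = BF P u u := rfl
  rw [e, e1, e2, K01c_add, K01c_symm hP v (v + u), K01c_symm hP u (v + u), K01c_add, K01c_add,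
    K01c_symm hP u v, h]
  ring

/-- orthogonal projection -/
private theorem K01c_proj {n : Type} [Fintype n] [DecidableEq n] {k : ℕ} {P : Matrix n n ℝ}
    (hP : P.PosDef) (b : Fin k → n → ℝ) (hb : LinearIndependent ℝ b) (y : n → ℝ) :
    ∃ t : Fin k → ℝ, ∀ i, BF P (y - ∑ j, t j • b j) (b i) = 0 := by
  let L : (Fin k → ℝ) →ₗ[ℝ] (Fin k → ℝ) :=
    { toFun := fun t i => BF P (∑ j, t j • b j) (b i)
      map_add' := by
        intro s t
        funext i
        simp only [Pi.add_apply, add_smul, Finset.sum_add_distrib, K01c_add]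
      map_smul' := by
        intro c t
        funext i
        have : ∑ j, (c • t) j • b j = c • ∑ j, t j • b j := by
          rw [Finset.smul_sum]
          refine Finset.sum_congr rfl fun j _ => ?_
          rw [Pi.smul_apply, smul_assoc]
        rw [this]
        simp only [BF, smul_dotProduct, RingHom.id_apply, Pi.smul_apply] }
  have hinj : Function.Injective L := by
    rw [← LinearMap.ker_eq_bot, LinearMap.ker_eq_bot']
    intro t ht
    have h0 : QF P (∑ j, t j • b j) = 0 := by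
      show BF P (∑ j, t j • b j) (∑ j, t j • b j) = 0
      rw [K01c_sum_right]
      refine Finset.sum_eq_zero fun i _ => ?_
      have : BF P (∑ j, t j • b j) (b i) = 0 := congrFun ht i
      rw [this, mul_zero]
    obtain ⟨c, hc, hcl⟩ := K01c_lower hP
    have h1 := hcl (∑ j, t j • b j)
    rw [h0] at h1
    have h2 : ∑ i, (∑ j, t j • b j) i ^ 2 = 0 := by
      have h3 : 0 ≤ ∑ i, (∑ j, t j • b j) i ^ 2 := Finset.sum_nonneg fun i _ => sq_nonneg _
      nlinarith
    have h3 : ∑ j, t j • b j = 0 := by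
      funext i
      have := (Finset.sum_eq_zero_iff_of_nonneg (fun i _ => sq_nonneg _)).1 h2 i
        (Finset.mem_univ i)
      exact pow_eq_zero_iff (two_ne_zero) |>.1 this
    funext j
    exact (Fintype.linearIndependent_iff.1 hb) t h3 j
  have hsurj := LinearMap.surjective_of_injective hinj
  obtain ⟨t, ht⟩ := hsurj (fun i => BF P y (b i))
  refine ⟨t, fun i => ?_⟩
  have h1 : BF P (∑ j, t j • b j) (b i) = BF P y (b i) := congrFun ht i
  rw [BF, sub_dotProduct]
  rw [BF, BF] at h1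
  rw [h1, sub_self]

/-- minimal vector for the quotient norm -/
theorem minkowski_min {g k : ℕ} (hk : k < g) {P : Matrix (Fin g ⊕ Fin g) (Fin g ⊕ Fin g) ℝ}
    (hP : P.PosDef) (hPs : P ∈ Matrix.symplecticGroup (Fin g) ℝ) (b : Fin k → Fin g ⊕ Fin g → ℤ)
    (hb : LinearIndependent ℝ (fun i => rV (b i))) (hiso : ∀ i j, omJ (rV (b i)) (rV (b j)) = 0)
    (hsat : ∀ t : Fin k → ℝ, (∃ x : Fin g ⊕ Fin g → ℤ, rV x = ∑ i, t i • rV (b i)) →
      ∀ i, ∃ m : ℤ, t i = m) :
    ∃ (x : Fin g ⊕ Fin g → ℤ) (t : Fin k → ℝ), (∀ i, omJ (rV x) (rV (b i)) = 0) ∧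
      rV x ∉ spn b ∧ (∀ i, BF P (rV x - ∑ j, t j • rV (b j)) (rV (b i)) = 0) ∧
      QF P (rV x - ∑ j, t j • rV (b j)) ≤ 2 * g + 1 ∧
      ∀ y : Fin g ⊕ Fin g → ℤ, (∀ i, omJ (rV y) (rV (b i)) = 0) → rV y ∉ spn b →
        QF P (rV x - ∑ j, t j • rV (b j)) ≤ QF P (rV y) := by
  obtain ⟨c, hc, hcl⟩ := K01c_lower hP
  -- the admissible pairs
  let Ad : (Fin g ⊕ Fin g → ℤ) → (Fin k → ℝ) → Prop := fun x t =>
    (∀ i, omJ (rV x) (rV (b i)) = 0) ∧ rV x ∉ spn b ∧
      (∀ i, BF P (rV x - ∑ j, t j • rV (b j)) (rV (b i)) = 0)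
  -- uniqueness of the coefficients
  have huniq : ∀ (x : Fin g ⊕ Fin g → ℤ) (s t : Fin k → ℝ), Ad x s → Ad x t →
      QF P (rV x - ∑ j, s j • rV (b j)) ≤ QF P (rV x - ∑ j, t j • rV (b j)) := by
    intro x s t hs _
    have e : rV x - ∑ j, t j • rV (b j) =
        (rV x - ∑ j, s j • rV (b j)) + ∑ j, (s j - t j) • rV (b j) := by
      simp only [sub_smul, Finset.sum_sub_distrib]
      abel
    rw [e, K01c_QF_add hP]
    · have : 0 ≤ QF P (∑ j, (s j - t j) • rV (b j)) :=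
        le_trans (mul_nonneg hc.le (Finset.sum_nonneg fun i _ => sq_nonneg _)) (hcl _)
      linarith
    · rw [K01c_sum_right]
      exact Finset.sum_eq_zero fun i _ => by rw [hs.2.2 i, mul_zero]
  -- reduction of the coefficients
  have hred : ∀ (x : Fin g ⊕ Fin g → ℤ) (t : Fin k → ℝ), Ad x t → ∃ x' t', Ad x' t' ∧
      (∀ i, |t' i| ≤ 1) ∧
      rV x' - ∑ j, t' j • rV (b j) = rV x - ∑ j, t j • rV (b j) := by
    intro x t hx
    have e0 : rV (x - ∑ j, (round (t j)) • b j) = rV x - ∑ j, ((round (t j) : ℤ) : ℝ) • rV (b j) := by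
      funext i
      simp [rV, Finset.sum_apply]
    have e : rV (x - ∑ j, (round (t j)) • b j) - ∑ j, (t j - round (t j)) • rV (b j) =
        rV x - ∑ j, t j • rV (b j) := by
      rw [e0]
      simp only [sub_smul, Finset.sum_sub_distrib]
      abel
    refine ⟨x - ∑ j, (round (t j)) • b j, fun j => t j - round (t j), ⟨?_, ?_, ?_⟩, ?_, e⟩
    · intro i
      rw [e0, omJ, sub_dotProduct]
      have h1 := hx.1 i
      rw [omJ] at h1
      rw [h1, sum_dotProduct, zero_sub, neg_eq_zero]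
      refine Finset.sum_eq_zero fun j _ => ?_
      rw [smul_dotProduct]
      have h2 := hiso j i
      rw [omJ] at h2
      rw [h2, smul_zero]
    · intro hmem
      apply hx.2.1
      have h1 : rV x = rV (x - ∑ j, (round (t j)) • b j) +
          ∑ j, ((round (t j) : ℤ) : ℝ) • rV (b j) := by
        rw [e0]; abel
      rw [h1]
      refine Submodule.add_mem _ hmem (Submodule.sum_mem _ fun j _ => Submodule.smul_mem _ _ ?_)
      exact Submodule.subset_span ⟨j, rfl⟩
    · intro i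
      rw [e]
      exact hx.2.2 i
    · intro i
      exact (abs_sub_round (t i)).trans (by norm_num)
  -- the finite set of candidates
  obtain ⟨x0, t0, h1, h2, h3, h4⟩ := minkowski_quot hk hP hPs b hb hiso hsat
  obtain ⟨x1, t1, had1, ht1, hv1⟩ := hred x0 t0 ⟨h1, h2, h3⟩
  let B : ℝ := 2 * g + 1 + ∑ i : Fin k, ∑ j : Fin k, |BF P (rV (b i)) (rV (b j))|
  let S : Set (Fin g ⊕ Fin g → ℤ) := {x | QF P (rV x) ≤ B}
  have hS : S.Finite := by
    obtain ⟨M, hM⟩ := exists_nat_gt (B / c)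
    refine (Set.finite_Icc (fun _ => -(M : ℤ)) (fun _ => (M : ℤ))).subset ?_
    intro x hx
    have h5 := (hcl (rV x)).trans hx
    have h6 : ∀ i, (x i : ℝ) ^ 2 ≤ M := by
      intro i
      have h7 := Finset.single_le_sum (f := fun j => rV x j ^ 2) (fun j _ => sq_nonneg _)
        (Finset.mem_univ i)
      have h8 : c * (x i : ℝ) ^ 2 ≤ B := le_trans (mul_le_mul_of_nonneg_left h7 hc.le) h5
      have h9 : (x i : ℝ) ^ 2 ≤ B / c := by
        rw [le_div_iff₀ hc]; linarith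
      linarith
    have h7 : ∀ i, |x i| ≤ (M : ℤ) := by
      intro i
      have h8 : (x i) ^ 2 ≤ (M : ℤ) := by exact_mod_cast h6 i
      rcases Int.natAbs_eq (x i) with h | h <;> rw [abs_le] <;> constructor <;> nlinarith
    exact ⟨fun i => (abs_le.1 (h7 i)).1, fun i => (abs_le.1 (h7 i)).2⟩
  have hmemS : ∀ x t, Ad x t → (∀ i, |t i| ≤ 1) →
      QF P (rV x - ∑ j, t j • rV (b j)) ≤ 2 * g + 1 → x ∈ S := by
    intro x t hx ht hq
    have e : rV x = (rV x - ∑ j, t j • rV (b j)) + ∑ j, t j • rV (b j) := by abel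
    show QF P (rV x) ≤ B
    rw [e, K01c_QF_add hP]
    · have h5 : QF P (∑ j, t j • rV (b j)) ≤
          ∑ i : Fin k, ∑ j : Fin k, |BF P (rV (b i)) (rV (b j))| := by
        have e1 : QF P (∑ j, t j • rV (b j)) =
            ∑ i, ∑ j, t i * (t j * BF P (rV (b i)) (rV (b j))) := by
          show BF P (∑ j, t j • rV (b j)) (∑ j, t j • rV (b j)) = _
          rw [K01c_symm hP, K01c_sum_right]
          refine Finset.sum_congr rfl fun i _ => ?_
          rw [K01c_symm hP, K01c_sum_right, Finset.mul_sum]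
        rw [e1]
        refine Finset.sum_le_sum fun i _ => Finset.sum_le_sum fun j _ => ?_
        refine (le_abs_self _).trans ?_
        rw [abs_mul, abs_mul]
        have h6 : |t i| * |t j| ≤ 1 := mul_le_one₀ (ht i) (abs_nonneg _) (ht j)
        calc |t i| * (|t j| * |BF P (rV (b i)) (rV (b j))|)
            = (|t i| * |t j|) * |BF P (rV (b i)) (rV (b j))| := by ring
          _ ≤ 1 * |BF P (rV (b i)) (rV (b j))| :=
              mul_le_mul_of_nonneg_right h6 (abs_nonneg _)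
          _ = _ := one_mul _
      show _ ≤ 2 * (g : ℝ) + 1 + _
      linarith
    · rw [K01c_sum_right]
      exact Finset.sum_eq_zero fun i _ => by rw [hx.2.2 i, mul_zero]
  -- choose the coefficients as a function
  have hproj : ∀ x : Fin g ⊕ Fin g → ℤ, ∃ t : Fin k → ℝ,
      ∀ i, BF P (rV x - ∑ j, t j • rV (b j)) (rV (b i)) = 0 :=
    fun x => K01c_proj hP (fun i => rV (b i)) hb (rV x)
  choose τ hτ using hproj
  let A : Set (Fin g ⊕ Fin g → ℤ) := {x | x ∈ S ∧ (∀ i, omJ (rV x) (rV (b i)) = 0) ∧ rV x ∉ spn b}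
  have hA : A.Finite := hS.subset fun x hx => hx.1
  have hq1 : QF P (rV x1 - ∑ j, t1 j • rV (b j)) ≤ 2 * g + 1 := by rw [hv1]; exact h4
  have hx1A : x1 ∈ A := ⟨hmemS x1 t1 had1 ht1 hq1, had1.1, had1.2.1⟩
  obtain ⟨x, hxA, hxmin⟩ := Set.exists_min_image A
    (fun x => QF P (rV x - ∑ j, τ x j • rV (b j))) hA ⟨x1, hx1A⟩
  have hadτ : ∀ y ∈ A, Ad y (τ y) := fun y hy => ⟨hy.2.1, hy.2.2, hτ y⟩
  have hqx : QF P (rV x - ∑ j, τ x j • rV (b j)) ≤ 2 * g + 1 :=
    (hxmin x1 hx1A).trans ((huniq x1 (τ x1) t1 (hadτ x1 hx1A) had1).trans hq1)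
  refine ⟨x, τ x, hxA.2.1, hxA.2.2, hτ x, hqx, fun y hy1 hy2 => ?_⟩
  have hady : Ad y (τ y) := ⟨hy1, hy2, hτ y⟩
  have hyq : QF P (rV y - ∑ j, τ y j • rV (b j)) ≤ QF P (rV y) := by
    have e : rV y = (rV y - ∑ j, τ y j • rV (b j)) + ∑ j, τ y j • rV (b j) := by abel
    have h5 : QF P (rV y) = QF P (rV y - ∑ j, τ y j • rV (b j)) +
        QF P (∑ j, τ y j • rV (b j)) := by
      conv_lhs => rw [e]
      apply K01c_QF_add hP
      rw [K01c_sum_right]
      exact Finset.sum_eq_zero fun i _ => by rw [hτ y i, mul_zero]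
    have h6 : 0 ≤ QF P (∑ j, τ y j • rV (b j)) :=
      le_trans (mul_nonneg hc.le (Finset.sum_nonneg fun i _ => sq_nonneg _)) (hcl _)
    linarith
  refine le_trans ?_ hyq
  rcases le_or_gt (QF P (rV y - ∑ j, τ y j • rV (b j))) (2 * g + 1) with hle | hgt
  · obtain ⟨y', t', hady', ht', hv'⟩ := hred y (τ y) hady
    have hq' : QF P (rV y' - ∑ j, t' j • rV (b j)) ≤ 2 * g + 1 := by rw [hv']; exact hle
    have hy'A : y' ∈ A := ⟨hmemS y' t' hady' ht' hq', hady'.1, hady'.2.1⟩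
    calc QF P (rV x - ∑ j, τ x j • rV (b j)) ≤ QF P (rV y' - ∑ j, τ y' j • rV (b j)) :=
          hxmin y' hy'A
      _ ≤ QF P (rV y' - ∑ j, t' j • rV (b j)) := huniq y' (τ y') t' (hadτ y' hy'A) hady'
      _ = _ := by rw [hv']
  · exact hqx.trans hgt.le

end Pool.Agent.Lib.MP_cca10c_ag
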