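import Pool.Agent.Lib.MP_cca10c_ag.T06_Cut
import Pool.Agent.Lib.MP_cca10c_ag.H19_Classes

/-!
# Module K: the circle map off the cores

`WMap F h e W`: off the cores of the annuli the circle map `W` has the form `h`.
-/

set_option autoImplicit false

open Topology Set MeasureTheory
open scoped ContDiff

namespace Pool.Agent.Lib.MP_cca10c_ag

variable {X : Type} [TopologicalSpace X] {S : CS X}

/-- off the cores of the `e i` the circle map `W` has the form `h` -/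
def WMap (F : Frame S) (h : X → ℂ) {k : ℕ} (e : Fin k → OpenPartialHomeomorph X ℂ)
    (W : X → UnitAddCircle) : Prop :=
  ∀ p, (∀ i, p ∉ core (e i)) → ∃ f : X → ℝ, LiftAt W f p ∧ S.SmoothNear f p ∧
    ∀ᶠ y in 𝓝 p, h y = F.d f y

/-- points off the cores have neighbourhoods off the cores -/
theorem k02_off [T2Space X] {k : ℕ} {e : Fin k → OpenPartialHomeomorph X ℂ} {l : Fin k → ℝ}
    (he : ∀ i, IsAnn S (e i) (l i)) {p : X} (hp : ∀ i, p ∉ core (e i)) :
    ∀ᶠ y in 𝓝 p, ∀ i, y ∉ core (e i) := by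
  rw [Filter.eventually_all]
  intro i
  exact (T06.core_closed (he i)).isOpen_compl.mem_nhds (hp i)

private theorem k02_lin (F : Frame S) {g k : ℕ} (u v : Fin g → X → UnitAddCircle)
    (x : Fin g ⊕ Fin g → ℝ) (t : Fin k → ℝ) (b : Fin k → Fin g ⊕ Fin g → ℝ) (p : X) :
    F.lin u v (x - ∑ i, t i • b i) p = F.lin u v x p - ∑ i, (t i : ℂ) * F.lin u v (b i) p := by
  unfold Frame.lin
  simp only [Pi.sub_apply, Finset.sum_apply, Pi.smul_apply, smul_eq_mul, Complex.ofReal_sub,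
    Complex.ofReal_sum, Complex.ofReal_mul, sub_mul, Finset.sum_sub_distrib, mul_add,
    Finset.sum_add_distrib, Finset.mul_sum, Finset.sum_mul, mul_assoc]
  rw [Finset.sum_comm, Finset.sum_comm (s := Finset.univ (α := Fin g)) (t := Finset.univ (α := Fin k))
    (f := fun j i => (t i : ℂ) * (((b i (Sum.inr j) : ℝ) : ℂ) * F.dC (v j) p))]
  ring

/-- With `h = lin (x - ∑ t b) + dφ₀` and `be i = lin (b i) + dφ i` take
`W = comb u v x - ∑ t i phiE (e i) + (∑ t i φ i + φ₀)`. -/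
theorem exists_WMap [CompactSpace X] [T2Space X] (F : Frame S) (hF : F.Tame) {g k : ℕ}
    {u v : Fin g → X → UnitAddCircle} (hB : SymplBasis S g u v)
    {e : Fin k → OpenPartialHomeomorph X ℂ} {l : Fin k → ℝ} (he : ∀ i, IsAnn S (e i) (l i))
    {b : Fin k → Fin g ⊕ Fin g → ℤ} (hb : ∀ i, AnnCls F u v (e i) (l i) (b i))
    {h : X → ℂ} (x : Fin g ⊕ Fin g → ℤ) (t : Fin k → ℝ)
    (hcl : F.Cls u v h (zV x - ∑ i, t i • zV (b i))) : ∃ W : X → UnitAddCircle, WMap F h e W := by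
  obtain ⟨φ₀, hφ₀, hh⟩ := hcl
  have ha : ∀ i, 0 < l i / 2 := fun i => half_pos (he i).2.1
  have hal : ∀ i, l i / 2 < l i := fun i => half_lt_self (he i).2.1
  choose φ hφ hbe using fun i => hb i (l i / 2) (ha i) (hal i)
  have hcomb : S.SmoothC (comb u v x) := CS.SmoothC.comb hB.smooth_u hB.smooth_v x
  refine ⟨fun p => comb u v x p + ((∑ i, t i * (φ i p - phiE (e i) (l i / 2) p) + φ₀ p : ℝ) :
    UnitAddCircle), ?_⟩
  intro p hp
  obtain ⟨k, hk, hks⟩ := hcomb.exists_lift p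
  have hoff := k02_off he hp
  have hg : ∀ y, (∀ i, y ∉ core (e i)) →
      S.SmoothAt (fun q => ∑ i, t i * (φ i q - phiE (e i) (l i / 2) q) + φ₀ q) y := by
    intro y hy
    refine CS.SmoothAt.add (CS.SmoothAt.sum fun i _ => ?_) (hφ₀ y)
    exact CS.SmoothAt.const_mul _ (CS.SmoothAt.sub (hφ i y)
      (phiE_smooth (he i) (ha i) (hal i) (hy i)).smoothAt)
  refine ⟨fun q => k q + (∑ i, t i * (φ i q - phiE (e i) (l i / 2) q) + φ₀ q), ?_, ?_, ?_⟩
  · exact LiftAt.add hk (LiftAt.coe (CS.SmoothAt.continuousAt (hg p hp)))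
  · filter_upwards [hoff, hks] with y hy hky
    exact CS.SmoothAt.add hky (hg y hy)
  · have hlift : ∀ᶠ y in 𝓝 p, LiftAt (comb u v x) k y :=
      hk.eventually (hks.mono fun y hy => hy.continuousAt)
    filter_upwards [hoff, hks, hlift] with y hy hky hly
    have hs1 : ∀ i ∈ Finset.univ, S.SmoothAt (fun q => t i * (φ i q - phiE (e i) (l i / 2) q)) y :=
      fun i _ => CS.SmoothAt.const_mul _ (CS.SmoothAt.sub (hφ i y)
        (phiE_smooth (he i) (ha i) (hal i) (hy i)).smoothAt)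
    rw [F.d_add hky (hg y hy), F.d_add (CS.SmoothAt.sum hs1) (hφ₀ y), F.d_sum hs1,
      ← F.dC_eq_d hly hky, F.dC_comb hB.smooth_u hB.smooth_v, hh y, k02_lin]
    have hi : ∀ i ∈ Finset.univ, F.d (fun q => t i * (φ i q - phiE (e i) (l i / 2) q)) y =
        - ((t i : ℂ) * F.lin u v (zV (b i)) y) := by
      intro i _
      have h1 := phiE_smooth (he i) (ha i) (hal i) (hy i)
      rw [F.d_const_mul _ (CS.SmoothAt.sub (hφ i y) h1.smoothAt), F.d_sub (hφ i y) h1.smoothAt,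
        ← be_phi F (he i) (ha i) (hal i) (hy i), hbe i y]
      ring
    rw [Finset.sum_congr rfl hi, Finset.sum_neg_distrib]
    unfold zV
    ring

private theorem k02_cls_sum {F : Frame S} [CompactSpace X] [T2Space X] [MeasurableSpace X]
    [BorelSpace X] {g m : ℕ} {u v : Fin g → X → UnitAddCircle} (a : Fin m → X → ℂ)
    (y : Fin m → Fin g ⊕ Fin g → ℝ) (h : ∀ i, F.Cls u v (a i) (y i)) (s : Fin m → ℝ)
    (I : Finset (Fin m)) :
    F.Cls u v (fun p => ∑ i ∈ I, (s i : ℂ) * a i p) (fun j => ∑ i ∈ I, s i * y i j) := by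
  classical
  induction I using Finset.induction_on with
  | empty =>
    simp only [Finset.sum_empty]
    refine ⟨fun _ => 0, fun x => CS.SmoothAt.const 0, fun p => ?_⟩
    rw [F.d_const]
    simp [Frame.lin]
  | insert i I hi ih =>
    simp only [Finset.sum_insert hi]
    exact Frame.Cls.add (Frame.Cls.const_mul (s i) (h i)) ih

/-- the representative of `W` in `[θ, θ + 1)` near a point with `W p ≠ θ` -/
theorem k02_rep {W : X → UnitAddCircle} {f : X → ℝ} {p : X} (hf : LiftAt W f p) {θ : ℝ}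
    (hp : W p ≠ (θ : UnitAddCircle)) :
    ∃ n : ℤ, (θ < f p - n ∧ f p - n < θ + 1) ∧ ∀ᶠ y in 𝓝 p,
      ((AddCircle.equivIco (1 : ℝ) θ (W y) : Set.Ico θ (θ + 1)) : ℝ) = f y - n := by
  have h1 : 0 ≤ f p - θ - ⌊f p - θ⌋ := by
    have := Int.floor_le (f p - θ)
    linarith
  have h2 : f p - θ - ⌊f p - θ⌋ < 1 := by
    have := Int.lt_floor_add_one (f p - θ)
    linarith
  have hcast : ∀ r : ℝ, ((r - (⌊f p - θ⌋ : ℤ) : ℝ) : UnitAddCircle) = (r : UnitAddCircle) := by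
    intro r
    rw [AddCircle.coe_sub]
    have h : (((⌊f p - θ⌋ : ℤ) : ℝ) : UnitAddCircle) = 0 :=
      (AddCircle.coe_eq_zero_iff (1 : ℝ)).2 ⟨⌊f p - θ⌋, by simp⟩
    rw [h, sub_zero]
  have h3 : f p - θ - ⌊f p - θ⌋ ≠ 0 := by
    intro h0
    apply hp
    rw [hf.2.self_of_nhds, ← hcast (f p)]
    congr 1
    linarith
  have h4 : 0 < f p - θ - ⌊f p - θ⌋ := lt_of_le_of_ne h1 (Ne.symm h3)
  refine ⟨⌊f p - θ⌋, ⟨by linarith, by linarith⟩, ?_⟩
  have h5 : ∀ᶠ y in 𝓝 p, θ < f y - ⌊f p - θ⌋ :=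
    (hf.1.sub continuousAt_const).eventually
      (lt_mem_nhds (show θ < f p - ⌊f p - θ⌋ by linarith))
  have h6 : ∀ᶠ y in 𝓝 p, f y - ⌊f p - θ⌋ < θ + 1 :=
    (hf.1.sub continuousAt_const).eventually
      (gt_mem_nhds (show f p - ⌊f p - θ⌋ < θ + 1 by linarith))
  filter_upwards [h5, h6, hf.2] with y h5 h6 h7
  rw [h7, ← hcast (f y), AddCircle.equivIco_coe_eq ⟨h5.le, h6⟩]

/-- If `W` misses `θ` then it lifts to a real function `Ψ` off the cores, and `cut_lemma` gives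
`h = ∑ s i be i + dφ`, so `y = ∑ s i b i` by uniqueness of classes. -/
theorem WMap_surj [CompactSpace X] [T2Space X] [ConnectedSpace X] (F : Frame S) (hF : F.Tame)
    {g k : ℕ} {u v : Fin g → X → UnitAddCircle} (hB : SymplBasis S g u v)
    {e : Fin k → OpenPartialHomeomorph X ℂ} {l : Fin k → ℝ} (he : ∀ i, IsAnn S (e i) (l i))
    (hd : Pairwise fun i j => Disjoint (e i).source (e j).source)
    {b : Fin k → Fin g ⊕ Fin g → ℤ} (hb : ∀ i, AnnCls F u v (e i) (l i) (b i))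
    {h : X → ℂ} {y : Fin g ⊕ Fin g → ℝ} (hcl : F.Cls u v h y) (hh : F.Closed h)
    (hy : y ∉ Submodule.span ℝ (Set.range fun i => zV (b i))) {W : X → UnitAddCircle}
    (hW : WMap F h e W) (θ : UnitAddCircle) : ∃ p, (∀ i, p ∉ core (e i)) ∧ W p = θ := by
  by_contra hcon
  push Not at hcon
  obtain ⟨θ₀, rfl⟩ := QuotientAddGroup.mk_surjective θ
  have ha : ∀ i, 0 < l i / 2 := fun i => half_pos (he i).2.1
  have hal : ∀ i, l i / 2 < l i := fun i => half_lt_self (he i).2.1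
  have hΨ : ∀ x, (∀ i, x ∉ core (e i)) →
      S.SmoothNear (fun y => ((AddCircle.equivIco (1 : ℝ) θ₀ (W y) : Set.Ico θ₀ (θ₀ + 1)) : ℝ)) x ∧
      ∀ᶠ y in 𝓝 x, h y =
        F.d (fun y => ((AddCircle.equivIco (1 : ℝ) θ₀ (W y) : Set.Ico θ₀ (θ₀ + 1)) : ℝ)) y := by
    intro x hx
    obtain ⟨f, hf, hfs, hfd⟩ := hW x hx
    obtain ⟨n, -, hn⟩ := k02_rep hf (hcon x hx)
    have hn' := hn.eventually_nhds
    constructor
    · filter_upwards [hn', hfs] with y hy hfy
      exact CS.SmoothAt.congr (CS.SmoothAt.sub hfy (CS.SmoothAt.const (n : ℝ))) hy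
    · filter_upwards [hn', hfs, hfd] with y hy hfy hdy
      rw [F.d_congr hy, F.d_sub hfy (CS.SmoothAt.const (n : ℝ)), F.d_const, sub_zero]
      exact hdy
  obtain ⟨s, φ, hφ, hφh, -⟩ := cut_lemma F he ha hal hd hh hΨ
  borelize X
  have h1 : F.Cls u v h (fun j => ∑ i, s i * zV (b i) j) := by
    have h2 := k02_cls_sum (F := F) (u := u) (v := v) (fun i => F.be (e i) (l i / 2))
      (fun i => zV (b i)) (fun i => hb i (l i / 2) (ha i) (hal i)) s Finset.univ
    have h3 := Frame.Cls.add_d hφ h2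
    have h4 : h = fun p => ∑ i, (s i : ℂ) * F.be (e i) (l i / 2) p + F.d φ p := funext hφh
    rw [h4]
    exact h3
  have h5 := Frame.Cls.unique hB hF hcl h1
  apply hy
  rw [h5]
  have h6 : (fun j => ∑ i, s i * zV (b i) j) = ∑ i, s i • zV (b i) := by
    funext j
    simp
  rw [h6]
  exact Submodule.sum_mem _ fun i _ => Submodule.smul_mem _ _
    (Submodule.subset_span ⟨i, rfl⟩)

end Pool.Agent.Lib.MP_cca10c_ag
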