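import Mathlib

/-!
# Module K: a free arc of the circle
-/

set_option autoImplicit false

open Topology Set

namespace Pool.Agent.Lib.MP_cca10c_ag

/-- Divide the circle into `4 N` arcs of length `1 / (4 N)`; an interval of half length
`δ < 1 / (8 N)` meets at most three of them (in fact two), so some arc is free. -/
theorem exists_free_arc {ι : Type*} [Fintype ι] (N : ℕ) (hN : 0 < N) (hι : Fintype.card ι ≤ N)
    (A : ι → ℝ) (δ : ℝ) (hδ : δ < 1 / (8 * N)) :
    ∃ θ : ℝ, ∀ i, ∀ s : ℝ, |s| ≤ δ → ∀ τ : ℝ, 0 < τ → τ < 1 / (4 * N) →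
      ((A i + s : ℝ) : UnitAddCircle) ≠ ((θ + τ : ℝ) : UnitAddCircle) := by
  classical
  have hN0 : (0 : ℝ) < N := by exact_mod_cast hN
  let f : ι → ℤ := fun i => ⌊4 * (N : ℝ) * (A i - δ)⌋
  let B : Finset ℕ := (Finset.univ : Finset (ι × Bool)).image
    (fun q => ((f q.1 + (if q.2 then 1 else 0)) % (4 * N : ℤ)).toNat)
  have hB : B.card < (Finset.range (4 * N)).card := by
    rw [Finset.card_range]
    have h1 : B.card ≤ Fintype.card (ι × Bool) :=
      Finset.card_image_le.trans (le_of_eq Finset.card_univ)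
    have h2 : Fintype.card (ι × Bool) = Fintype.card ι * 2 := by
      rw [Fintype.card_prod, Fintype.card_bool]
    omega
  obtain ⟨m, hm, hmB⟩ := Finset.exists_mem_notMem_of_card_lt_card hB
  rw [Finset.mem_range] at hm
  refine ⟨m / (4 * N), ?_⟩
  intro i s hs τ hτ0 hτ1 heq
  apply hmB
  obtain ⟨k, hk⟩ := AddSubgroup.mem_zmultiples_iff.1 (QuotientAddGroup.eq.1 heq)
  have hk' : (k : ℝ) = -(A i + s) + ((m : ℝ) / (4 * N) + τ) := by
    rw [← hk]
    simp
  have hz : 4 * (N : ℝ) * (A i + s) = m + 4 * N * τ - 4 * N * k := by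
    rw [hk']
    field_simp
    ring
  have hτ2 : 4 * (N : ℝ) * τ < 1 := by
    rw [lt_div_iff₀ (by positivity)] at hτ1
    linarith
  have hτ3 : 0 < 4 * (N : ℝ) * τ := by positivity
  have hfl : ⌊4 * (N : ℝ) * (A i + s)⌋ = (m : ℤ) - 4 * N * k := by
    rw [Int.floor_eq_iff, hz]
    push_cast
    constructor <;> linarith
  have hδ2 : 8 * (N : ℝ) * δ < 1 := by
    rw [lt_div_iff₀ (by positivity)] at hδ
    linarith
  have hs' := abs_le.1 hs
  have hf1 := Int.floor_le (4 * (N : ℝ) * (A i - δ))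
  have hf2 := Int.lt_floor_add_one (4 * (N : ℝ) * (A i - δ))
  have hg1 := Int.floor_le (4 * (N : ℝ) * (A i + s))
  have hg2 := Int.lt_floor_add_one (4 * (N : ℝ) * (A i + s))
  have hd1 : 0 ≤ 4 * (N : ℝ) * (s + δ) := by
    have : 0 ≤ s + δ := by linarith
    positivity
  have hd2 : 4 * (N : ℝ) * (s + δ) ≤ 8 * (N : ℝ) * δ := by nlinarith
  have hlo : f i ≤ ⌊4 * (N : ℝ) * (A i + s)⌋ := by
    apply Int.floor_le_floor
    linarith
  have hhi : ⌊4 * (N : ℝ) * (A i + s)⌋ < f i + 2 := by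
    have h1 : (⌊4 * (N : ℝ) * (A i + s)⌋ : ℝ) < (f i : ℝ) + 2 := by
      have h2 : (f i : ℝ) = (⌊4 * (N : ℝ) * (A i - δ)⌋ : ℝ) := rfl
      rw [h2]
      linarith
    exact_mod_cast h1
  have hcase : ⌊4 * (N : ℝ) * (A i + s)⌋ = f i ∨ ⌊4 * (N : ℝ) * (A i + s)⌋ = f i + 1 := by omega
  have hmod : ((m : ℤ) - 4 * N * k) % (4 * N : ℤ) = m := by
    rw [Int.sub_mul_emod_self_left]
    exact Int.emod_eq_of_lt (by positivity) (by exact_mod_cast hm)
  simp only [B, Finset.mem_image, Finset.mem_univ, true_and]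
  rcases hcase with h | h
  · refine ⟨(i, false), ?_⟩
    have h3 : f i + (if (false : Bool) = true then 1 else 0) = (m : ℤ) - 4 * N * k := by
      simp only [Bool.false_eq_true, if_false, add_zero]
      rw [← h, hfl]
    show ((f i + (if (false : Bool) = true then 1 else 0)) % (4 * N : ℤ)).toNat = m
    rw [h3, hmod]
    simp
  · refine ⟨(i, true), ?_⟩
    have h3 : f i + (if (true : Bool) = true then 1 else 0) = (m : ℤ) - 4 * N * k := by
      simp only [if_true]
      rw [← h, hfl]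
    show ((f i + (if (true : Bool) = true then 1 else 0)) % (4 * N : ℤ)).toNat = m
    rw [h3, hmod]
    simp

end Pool.Agent.Lib.MP_cca10c_ag
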