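import Pool.Agent.Lib.MP_cca10c_ag.K02_Circ
import Pool.Agent.Lib.MP_cca10c_ag.F05_Ann

/-!
# Module K: the new annulus
-/

set_option autoImplicit false

open Topology Set MeasureTheory
open scoped ContDiff

namespace Pool.Agent.Lib.MP_cca10c_ag

variable {X : Type} [TopologicalSpace X] {S : CS X}

/-- the representative of `W p` in `[θ, θ + 1)` -/
private noncomputable def k04_G (W : X → UnitAddCircle) (θ : ℝ) (p : X) : ℝ :=
  ((AddCircle.equivIco (1 : ℝ) θ (W p) : Set.Ico θ (θ + 1)) : ℝ)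

omit [TopologicalSpace X] in
private theorem k04_mem (W : X → UnitAddCircle) (θ : ℝ) (p : X) :
    θ ≤ k04_G W θ p ∧ k04_G W θ p < θ + 1 :=
  ⟨(AddCircle.equivIco (1 : ℝ) θ (W p)).2.1, (AddCircle.equivIco (1 : ℝ) θ (W p)).2.2⟩

omit [TopologicalSpace X] in
private theorem k04_coe (W : X → UnitAddCircle) (θ : ℝ) (p : X) :
    W p = ((k04_G W θ p : ℝ) : UnitAddCircle) := by
  have h := (AddCircle.equivIco (1 : ℝ) θ).symm_apply_apply (W p)
  exact h.symm

omit [TopologicalSpace X] in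
private theorem k04_eq {W : X → UnitAddCircle} {θ r : ℝ} {p : X} (h0 : θ ≤ r) (h1 : r < θ + 1)
    (h : W p = ((r : ℝ) : UnitAddCircle)) : k04_G W θ p = r := by
  unfold k04_G
  rw [h, AddCircle.equivIco_coe_eq ⟨h0, h1⟩]

/-- near a point where the representative is not `θ` it is a lift -/
private theorem k04_near {W : X → UnitAddCircle} {f : X → ℝ} {p : X} (hf : LiftAt W f p) {θ : ℝ}
    (hp : k04_G W θ p ≠ θ) : ∃ n : ℤ, ∀ᶠ y in 𝓝 p, k04_G W θ y = f y - n := by
  have h1 : W p ≠ (θ : UnitAddCircle) := by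
    intro h
    exact hp (k04_eq le_rfl (by linarith) h)
  obtain ⟨n, -, hn⟩ := k02_rep hf h1
  exact ⟨n, hn⟩

private theorem k04_cgrad_log {ζ : ℂ} (hζ : ζ ≠ 0) (θ c : ℝ) :
    cgrad (fun w => θ + c * Real.log ‖w‖) ζ = (c : ℂ) / ζ := by
  have h1 : DifferentiableAt ℂ (fun w : ℂ => Complex.log (w / ζ)) ζ := by
    refine DifferentiableAt.clog (by fun_prop) ?_
    rw [div_self hζ]
    exact Complex.one_mem_slitPlane
  have h2 : (fun w : ℂ => θ + c * Real.log ‖w‖) =ᶠ[𝓝 ζ]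
      fun w => ((θ + c * Real.log ‖ζ‖ : ℝ) + (c : ℂ) * Complex.log (w / ζ)).re := by
    filter_upwards [isOpen_ne.mem_nhds hζ] with w hw
    have hw' : w ≠ 0 := hw
    rw [Complex.add_re, Complex.ofReal_re, Complex.re_ofReal_mul, Complex.log_re, norm_div,
      Real.log_div (norm_ne_zero_iff.2 hw') (norm_ne_zero_iff.2 hζ)]
    ring
  have h3 : HasDerivAt (fun w : ℂ => ((θ + c * Real.log ‖ζ‖ : ℝ) : ℂ) +
      (c : ℂ) * Complex.log (w / ζ)) ((c : ℂ) / ζ) ζ := by
    have h4 : HasDerivAt (fun w : ℂ => w / ζ) (1 / ζ) ζ := (hasDerivAt_id ζ).div_const ζ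
    have h5 : HasDerivAt (fun w : ℂ => Complex.log (w / ζ)) (1 / ζ / (ζ / ζ)) ζ := by
      refine h4.clog ?_
      rw [div_self hζ]
      exact Complex.one_mem_slitPlane
    have h6 := (h5.const_mul (c : ℂ)).const_add ((θ + c * Real.log ‖ζ‖ : ℝ) : ℂ)
    refine h6.congr_deriv ?_
    rw [div_self hζ, div_one, mul_one_div]
  rw [cgrad_congr h2, cgrad_re h3.differentiableAt, h3.deriv]

/-- `flat_annulus` on `U = {p off the cores, W p in the arc (θ, θ + δ)}`, with `G` the lift of `W` with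
values in `(θ, θ + δ)`, `a = θ + δ/4`, `b = θ + 3δ/4`. The set `{a ≤ G ≤ b}` is closed in `X`, because `W`
takes no value of the arc in the neighbourhoods `midA (e i) (t i)` of the cores. -/
theorem new_annulus [CompactSpace X] [T2Space X] (F : Frame S) (hF : F.Tame) {k : ℕ}
    {e : Fin k → OpenPartialHomeomorph X ℂ} {l t : Fin k → ℝ} (he : ∀ i, IsAnn S (e i) (l i))
    (ht : ∀ i, 0 < t i) (htl : ∀ i, t i < l i) {h : X → ℂ} (hh : F.Hol h) {W : X → UnitAddCircle}
    (hW : WMap F h e W) {θ δ : ℝ} (hδ : 0 < δ) (hδ1 : δ < 1)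
    (hcrit : ∀ p, (∀ i, p ∉ core (e i)) → h p = 0 → ∀ τ : ℝ, 0 < τ → τ < δ →
      W p ≠ ((θ + τ : ℝ) : UnitAddCircle))
    (hmid : ∀ i, ∀ p ∈ midA (e i) (t i), p ∉ core (e i) → ∀ τ : ℝ, 0 < τ → τ < δ →
      W p ≠ ((θ + τ : ℝ) : UnitAddCircle))
    (hsurj : ∃ p, (∀ i, p ∉ core (e i)) ∧ W p = ((θ + δ / 2 : ℝ) : UnitAddCircle)) :
    ∃ (l' : ℝ) (e' : OpenPartialHomeomorph X ℂ), IsAnn S e' l' ∧
      (∀ i, Disjoint e'.source (midA (e i) (t i))) ∧
      ∀ p ∈ e'.source, W p =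
        ((θ + δ / 2 + δ / (4 * l') * Real.log ‖e' p‖ : ℝ) : UnitAddCircle) := by
  set U : Set X := {p | (∀ i, p ∉ core (e i)) ∧ θ < k04_G W θ p ∧ k04_G W θ p < θ + δ} with hUdef
  have hWG : ∀ p, W p = ((θ + (k04_G W θ p - θ) : ℝ) : UnitAddCircle) := by
    intro p
    rw [add_sub_cancel]
    exact k04_coe W θ p
  -- local description of the representative
  have hloc : ∀ p ∈ U, ContinuousAt (k04_G W θ) p ∧ S.SmoothNear (k04_G W θ) p ∧
      ∀ᶠ y in 𝓝 p, h y = F.d (k04_G W θ) y := by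
    intro p hp
    obtain ⟨f, hf, hfs, hfd⟩ := hW p hp.1
    obtain ⟨n, hn⟩ := k04_near hf hp.2.1.ne'
    have hn' := hn.eventually_nhds
    have hs : S.SmoothNear (k04_G W θ) p := by
      filter_upwards [hn', hfs] with y hy hfy
      exact CS.SmoothAt.congr (CS.SmoothAt.sub hfy (CS.SmoothAt.const (n : ℝ))) hy
    refine ⟨CS.SmoothAt.continuousAt hs.smoothAt, hs, ?_⟩
    filter_upwards [hn', hfs, hfd] with y hy hfy hdy
    rw [F.d_congr hy, F.d_sub hfy (CS.SmoothAt.const (n : ℝ)), F.d_const, sub_zero]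
    exact hdy
  have hU : IsOpen U := by
    rw [isOpen_iff_mem_nhds]
    intro p hp
    have hc := (hloc p hp).1
    filter_upwards [k02_off he hp.1, hc.eventually (lt_mem_nhds hp.2.1),
      hc.eventually (gt_mem_nhds hp.2.2)] with y h1 h2 h3
    exact ⟨h1, h2, h3⟩
  have hN : ∀ p ∈ U, NCrit S (k04_G W θ) p := by
    intro p hp
    obtain ⟨-, hs, hd⟩ := hloc p hp
    obtain ⟨k, hk, hkd⟩ := Frame.HolIn.exists_primitive isOpen_univ hh (mem_univ p)
    have hkev : ∀ᶠ y in 𝓝 p, S.HolAt k y := by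
      obtain ⟨e₀, he₀, hpe⟩ := S.cover p
      have h1 := ((CS.holAt_iff he₀ hpe).1 hk).eventually_nhds
      have h2 : Filter.Tendsto e₀ (𝓝 p) (𝓝 (e₀ p)) := e₀.continuousAt hpe
      filter_upwards [h2.eventually h1, e₀.open_source.mem_nhds hpe] with y hy hye
      exact (CS.holAt_iff he₀ hye).2 hy
    have hks : S.SmoothNear (fun z => (k z).re) p :=
      hkev.mono fun y hy => CS.HolAt.smoothAt_re hy
    have hd0 : ∀ᶠ y in 𝓝 p, F.d (k04_G W θ) y = F.d (fun z => (k z).re) y := by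
      filter_upwards [hd, hkd] with y h1 h2
      rw [← h1, h2]
    have hc := F.eventually_eq_of_d_eq hs hks hd0
    refine ⟨fun y => k y + ((k04_G W θ p - (k p).re : ℝ) : ℂ), ?_, ?_, ?_⟩
    · intro e₀ he₀ hpe
      filter_upwards [hk e₀ he₀ hpe] with z hz
      exact hz.add_const _
    · filter_upwards [hc] with y hy
      rw [hy, Complex.add_re, Complex.ofReal_re]
    · intro e₀ he₀ hpe h0
      have h1 : deriv (k ∘ e₀.symm) (e₀ p) = 0 := by
        have h2 : (fun y => k y + ((k04_G W θ p - (k p).re : ℝ) : ℂ)) ∘ e₀.symm =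
            fun z => (k ∘ e₀.symm) z + ((k04_G W θ p - (k p).re : ℝ) : ℂ) := rfl
        rw [h2, deriv_add_const] at h0
        exact h0
      have h3 : cgrad (fun w => ((k ∘ e₀.symm) w).re) (e₀ p) = 0 := by
        rw [cgrad_re (hk e₀ he₀ hpe).self_of_nhds, h1]
      have h4 : F.co e₀ (F.d fun z => (k z).re) (e₀ p) = 0 := by
        rw [F.co_d he₀ hpe hks.smoothAt]
        exact h3
      have h5 := (F.co_eq_zero_iff he₀ hpe).1 h4
      have h6 : h p = 0 := by rw [hkd.self_of_nhds, h5]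
      exact hcrit p hp.1 h6 (k04_G W θ p - θ) (by linarith [hp.2.1]) (by linarith [hp.2.2]) (hWG p)
  have hK : IsCompact {x | x ∈ U ∧ θ + δ / 4 ≤ k04_G W θ x ∧ k04_G W θ x ≤ θ + 3 * δ / 4} := by
    apply IsClosed.isCompact
    rw [← isOpen_compl_iff, isOpen_iff_mem_nhds]
    intro p hp
    by_cases hc : ∀ i, p ∉ core (e i)
    · obtain ⟨f, hf, hfs, hfd⟩ := hW p hc
      have hWc : ContinuousAt W p := by
        have h1 : ContinuousAt (fun y => ((f y : ℝ) : UnitAddCircle)) p :=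
          (AddCircle.continuous_mk' (1 : ℝ)).continuousAt.comp hf.1
        exact h1.congr (hf.2.mono fun y hy => hy.symm)
      have hA : IsCompact ((fun r : ℝ => (r : UnitAddCircle)) ''
          Set.Icc (θ + δ / 4) (θ + 3 * δ / 4)) :=
        isCompact_Icc.image (AddCircle.continuous_mk' (1 : ℝ))
      have hpA : W p ∉ (fun r : ℝ => (r : UnitAddCircle)) ''
          Set.Icc (θ + δ / 4) (θ + 3 * δ / 4) := by
        rintro ⟨r, hr, hrp⟩
        have hG : k04_G W θ p = r := k04_eq (by linarith [hr.1]) (by linarith [hr.2]) hrp.symm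
        apply hp
        refine ⟨⟨hc, ?_, ?_⟩, ?_, ?_⟩ <;> rw [hG] <;> linarith [hr.1, hr.2]
      filter_upwards [hWc.eventually (hA.isClosed.isOpen_compl.mem_nhds hpA)] with y hy hyK
      exact hy ⟨k04_G W θ y, ⟨hyK.2.1, hyK.2.2⟩, (k04_coe W θ y).symm⟩
    · push Not at hc
      obtain ⟨i, hi⟩ := hc
      have h1 : ∀ᶠ y in 𝓝 p, y ∈ midA (e i) (t i) := by
        have hne : ‖(e i) p‖ ≠ 0 := by rw [hi.2]; exact one_ne_zero
        have h2 : ContinuousAt (fun y => |Real.log ‖(e i) y‖|) p :=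
          (((e i).continuousAt hi.1).norm.log hne).abs
        have h3 : |Real.log ‖(e i) p‖| < t i := by
          rw [hi.2, Real.log_one, abs_zero]
          exact ht i
        filter_upwards [(e i).open_source.mem_nhds hi.1, h2.eventually (gt_mem_nhds h3)] with y h4 h5
        exact ⟨h4, h5.le⟩
      filter_upwards [h1] with y hy hyK
      exact hmid i y hy (hyK.1.1 i) (k04_G W θ y - θ) (by linarith [hyK.1.2.1])
        (by linarith [hyK.1.2.2]) (hWG y)
  obtain ⟨p, hp, hWp⟩ := hsurj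
  have hGp : k04_G W θ p = θ + δ / 2 := k04_eq (by linarith) (by linarith) hWp
  have hpU : p ∈ U := ⟨hp, by rw [hGp]; linarith, by rw [hGp]; linarith⟩
  obtain ⟨l', hl', e', he', hsub, htar, hG⟩ := flat_annulus S hU hN
    (show θ + δ / 4 < θ + 3 * δ / 4 by linarith) hK hpU (by rw [hGp]; ring)
  refine ⟨l', e', ⟨he', hl', htar⟩, fun i => ?_, fun q hq => ?_⟩
  · rw [Set.disjoint_left]
    intro q hq hqm
    have hqU := hsub hq
    exact hmid i q hqm (hqU.1 i) (k04_G W θ q - θ) (by linarith [hqU.2.1])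
      (by linarith [hqU.2.2]) (hWG q)
  · rw [k04_coe W θ q, hG q hq]
    congr 1
    field_simp
    ring

/-- the coefficient of `h` in the new annulus is `δ / (4 l') / ζ` -/
theorem new_annulus_co [CompactSpace X] [T2Space X] (F : Frame S) (hF : F.Tame) {k : ℕ}
    {e : Fin k → OpenPartialHomeomorph X ℂ} {h : X → ℂ} {W : X → UnitAddCircle}
    (hW : WMap F h e W) {θ δ l' : ℝ} {e' : OpenPartialHomeomorph X ℂ} (he' : IsAnn S e' l')
    (hcore : ∀ i, Disjoint e'.source (core (e i)))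
    (hWe : ∀ p ∈ e'.source, W p =
      ((θ + δ / (4 * l') * Real.log ‖e' p‖ : ℝ) : UnitAddCircle)) {ζ : ℂ} (hζ : ζ ∈ e'.target) :
    F.co e' h ζ = ((δ / (4 * l') : ℝ) : ℂ) / ζ := by
  have hx : e'.symm ζ ∈ e'.source := e'.map_target hζ
  have hζ0 : ζ ≠ 0 := by
    have h1 := hζ
    rw [he'.2.2] at h1
    exact norm_pos_iff.1 ((Real.exp_pos _).trans h1.1)
  obtain ⟨f, hf, hfs, hfd⟩ := hW (e'.symm ζ) fun i hi => Set.disjoint_left.1 (hcore i) hx hi
  have hl : LiftAt W (fun q => θ + δ / (4 * l') * Real.log ‖e' q‖) (e'.symm ζ) := by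
    constructor
    · have h1 : ‖e' (e'.symm ζ)‖ ≠ 0 := by
        rw [e'.right_inv hζ]
        exact norm_ne_zero_iff.2 hζ0
      exact continuousAt_const.add (continuousAt_const.mul ((e'.continuousAt hx).norm.log h1))
    · filter_upwards [e'.open_source.mem_nhds hx] with q hq
      exact hWe q hq
  obtain ⟨n, hn⟩ := LiftAt.unique hl hf
  have h2 : F.co e' h ζ = F.co e' (F.d f) ζ := by
    unfold Frame.co
    rw [hfd.self_of_nhds]
  have h3 : F.co e' (F.d f) ζ = cgrad (f ∘ e'.symm) ζ := by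
    have h4 := F.co_d he'.1 hx hfs.smoothAt
    rwa [e'.right_inv hζ] at h4
  rw [h2, h3, ← k04_cgrad_log hζ0 (θ + n) (δ / (4 * l'))]
  refine cgrad_congr ?_
  have h5 : Filter.Tendsto e'.symm (𝓝 ζ) (𝓝 (e'.symm ζ)) := e'.symm.continuousAt hζ
  filter_upwards [h5.eventually hn, e'.eventually_right_inverse hζ] with w hw hw'
  show f (e'.symm w) = _
  rw [hw, hw']
  ring

end Pool.Agent.Lib.MP_cca10c_ag
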