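import Pool.Agent.Lib.MP_cca10c_ag.T03_Prod

/-!
# Module K: energy and product for a form with coefficient `κ / ζ` in an annulus
-/

set_option autoImplicit false

open Topology Set MeasureTheory
open scoped ContDiff

namespace Pool.Agent.Lib.MP_cca10c_ag

/-- polar coordinates for a function supported in a closed annulus -/
private theorem K05_polar {E : Type*} [NormedAddCommGroup E] [NormedSpace ℝ E] [CompleteSpace E]
    (g : ℂ → E) {s t : ℝ} (hs : 0 < s) (hst : s ≤ t)
    (hg : ContinuousOn g {ζ | s ≤ ‖ζ‖ ∧ ‖ζ‖ ≤ t})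
    (h0 : ∀ ζ, ¬ (s ≤ ‖ζ‖ ∧ ‖ζ‖ ≤ t) → g ζ = 0) :
    ∫ ζ, g ζ = ∫ ρ in s..t, ρ • ∫ θ in (0 : ℝ)..2 * Real.pi, g (circleMap 0 ρ θ) := by
  have hpolar : ∀ p : ℝ × ℝ, Complex.polarCoord.symm p = circleMap 0 p.1 p.2 := by
    intro p
    rw [Complex.polarCoord_symm_apply, circleMap, zero_add, Complex.exp_mul_I]
    push_cast
    rfl
  rw [← Complex.integral_comp_polarCoord_symm]
  have e1 : ∫ p in polarCoord.target, p.1 • g (Complex.polarCoord.symm p) =
      ∫ p in Icc s t ×ˢ Ioo (-Real.pi) Real.pi, p.1 • g (circleMap 0 p.1 p.2) := by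
    simp only [hpolar]
    refine setIntegral_eq_of_subset_of_forall_sdiff_eq_zero ?_ ?_ ?_
    · exact measurableSet_Ioi.prod measurableSet_Ioo
    · intro p hp
      exact ⟨hs.trans_le hp.1.1, hp.2⟩
    · intro p hp
      have hp1 : 0 < p.1 := hp.1.1
      rw [h0, smul_zero]
      rw [norm_circleMap_zero, abs_of_pos hp1]
      intro h
      exact hp.2 ⟨⟨h.1, h.2⟩, hp.1.2⟩
  have hcont : ContinuousOn (fun p : ℝ × ℝ => p.1 • g (circleMap 0 p.1 p.2))
      (Icc s t ×ˢ Icc (-Real.pi) Real.pi) := by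
    refine continuous_fst.continuousOn.smul ?_
    refine hg.comp ?_ ?_
    · apply Continuous.continuousOn
      unfold circleMap
      fun_prop
    · intro p hp
      have hp1 : 0 < p.1 := hs.trans_le hp.1.1
      rw [mem_ofPred_eq, norm_circleMap_zero, abs_of_pos hp1]
      exact hp.1
  have hint : IntegrableOn (fun p : ℝ × ℝ => p.1 • g (circleMap 0 p.1 p.2))
      (Icc s t ×ˢ Ioo (-Real.pi) Real.pi) (volume.prod volume) := by
    refine (hcont.integrableOn_compact (isCompact_Icc.prod isCompact_Icc)).mono_set ?_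
    exact prod_mono_right Ioo_subset_Icc_self
  rw [e1, Measure.volume_eq_prod, setIntegral_prod _ hint, intervalIntegral.integral_of_le hst,
    integral_Icc_eq_integral_Ioc]
  refine setIntegral_congr_fun measurableSet_Ioc fun ρ hρ => ?_
  simp only
  rw [integral_smul]
  congr 1
  rw [← integral_Ioc_eq_integral_Ioo, ← intervalIntegral.integral_of_le (by linarith [Real.pi_pos])]
  have hp : Function.Periodic (fun θ : ℝ => g (circleMap 0 ρ θ)) (2 * Real.pi) := by
    intro θ
    simp only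
    rw [periodic_circleMap 0 ρ θ]
  have := hp.intervalIntegral_add_eq (-Real.pi) 0
  rw [zero_add, show -Real.pi + 2 * Real.pi = Real.pi by ring] at this
  exact this


private theorem K05_ann (l : ℝ) : {ζ : ℂ | Real.exp (-l) < ‖ζ‖ ∧ ‖ζ‖ < Real.exp l} =
    CcaPl.ann 0 (Real.exp (-l)) (Real.exp l) := by
  ext ζ
  simp [CcaPl.ann]

variable {X : Type} [TopologicalSpace X] [CompactSpace X] [T2Space X] [MeasurableSpace X]
  [BorelSpace X] {S : CS X} {e : OpenPartialHomeomorph X ℂ} {l : ℝ}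

omit [CompactSpace X] [T2Space X] [MeasurableSpace X] [BorelSpace X] in
/-- on a piece of the frame the form is its coefficient in the chart of the frame -/
private theorem K05_co (F : Frame S) {h : X → ℂ} {i : Fin F.n} {x : X} (hx : x ∈ F.P i) :
    h x = F.co (F.e i) h (F.e i x) := by
  have hs : x ∈ (F.e i).source := F.sub i hx
  unfold Frame.co
  rw [(F.e i).left_inv hs, F.ch_eq hx]
  have h1 : (F.e i ∘ (F.e i).symm) =ᶠ[𝓝 (F.e i x)] id := by
    filter_upwards [(F.e i).open_target.mem_nhds ((F.e i).map_source hs)] with z hz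
    exact (F.e i).right_inv hz
  rw [h1.deriv_eq, deriv_id, mul_one]

omit [CompactSpace X] [T2Space X] [MeasurableSpace X] [BorelSpace X] in
private theorem K05_cont (F : Frame S) {h : X → ℂ} (hh : F.Hol h) (i : Fin F.n) :
    ContinuousOn (F.co (F.e i) h ∘ F.e i) (F.e i).source := by
  have h1 := hh (F.e i) (F.mem i)
  rw [preimage_univ, inter_univ] at h1
  exact h1.continuousOn.comp (F.e i).continuousOn (fun x hx => (F.e i).map_source hx)

omit [CompactSpace X] [T2Space X] [MeasurableSpace X] [BorelSpace X] in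
private theorem K05_bound (F : Frame S) (hF : F.Tame) {h : X → ℂ} (hh : F.Hol h) :
    ∃ M : ℝ, ∀ x, ‖h x‖ ≤ M := by
  have h1 : ∀ i : Fin F.n, ∃ M : ℝ, ∀ x ∈ F.P i, ‖h x‖ ≤ M := by
    intro i
    obtain ⟨K, hK, hPK, hKs⟩ := hF i
    obtain ⟨M, hM⟩ := hK.exists_bound_of_continuousOn ((K05_cont F hh i).mono hKs)
    refine ⟨M, fun x hx => ?_⟩
    rw [K05_co F (h := h) hx]
    exact hM x (hPK hx)
  choose M hM using h1
  refine ⟨∑ i, |M i|, fun x => ?_⟩
  have h2 := hM (F.ix x) x (F.ix_spec x)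
  refine h2.trans ((le_abs_self _).trans ?_)
  exact Finset.single_le_sum (f := fun i => |M i|) (fun i _ => abs_nonneg _) (Finset.mem_univ _)

omit [CompactSpace X] [T2Space X] in
private theorem K05_fin (F : Frame S) (hF : F.Tame) : IsFiniteMeasure F.nu := by
  constructor
  rw [F.nu_apply MeasurableSet.univ]
  refine ENNReal.sum_lt_top.2 fun i _ => ?_
  obtain ⟨K, hK, hPK, hKs⟩ := hF i
  rw [inter_univ]
  refine (measure_mono (image_mono hPK)).trans_lt ?_
  exact (hK.image_of_continuousOn ((F.e i).continuousOn.mono hKs)).measure_lt_top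

omit [CompactSpace X] [T2Space X] in
private theorem K05_int (F : Frame S) (hF : F.Tame) {h : X → ℂ} (hh : F.Hol h) :
    Integrable (fun x => ‖h x‖ ^ 2) F.nu := by
  have := K05_fin F hF
  obtain ⟨M, hM⟩ := K05_bound F hF hh
  have hm : AEStronglyMeasurable h F.nu := by
    rw [← Measure.restrict_univ (μ := F.nu), ← F.cover, aestronglyMeasurable_iUnion_iff]
    intro i
    have h1 : AEStronglyMeasurable (F.co (F.e i) h ∘ F.e i) (F.nu.restrict (F.P i)) :=
      ((K05_cont F hh i).mono (F.sub i)).aestronglyMeasurable (F.P_meas i)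
    refine h1.congr ?_
    refine (ae_restrict_iff' (F.P_meas i)).2 (Filter.Eventually.of_forall fun x hx => ?_)
    exact (K05_co F hx).symm
  refine Integrable.of_bound (hm.norm.pow 2) (M ^ 2) (Filter.Eventually.of_forall fun x => ?_)
  rw [Real.norm_eq_abs, abs_of_nonneg (by positivity)]
  exact pow_le_pow_left₀ (norm_nonneg _) (hM x) 2

/-- energy of `κ / ζ` in a closed annulus -/
private theorem K05_plane {κ a : ℝ} (ha : 0 < a) :
    ∫ ζ in {ζ : ℂ | Real.exp (-a) ≤ ‖ζ‖ ∧ ‖ζ‖ ≤ Real.exp a}, ‖(κ : ℂ) / ζ‖ ^ 2 =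
      4 * Real.pi * a * κ ^ 2 := by
  set A : Set ℂ := {ζ | Real.exp (-a) ≤ ‖ζ‖ ∧ ‖ζ‖ ≤ Real.exp a} with hA
  have hAn : ∀ ζ ∈ A, 0 < ‖ζ‖ := fun ζ hζ => (Real.exp_pos _).trans_le hζ.1
  have hAcl : IsClosed A := by
    have h1 : IsClosed {ζ : ℂ | Real.exp (-a) ≤ ‖ζ‖} := isClosed_le continuous_const continuous_norm
    have h2 : IsClosed {ζ : ℂ | ‖ζ‖ ≤ Real.exp a} := isClosed_le continuous_norm continuous_const
    exact h1.inter h2
  set f : ℂ → ℝ := fun ζ => ‖(κ : ℂ) / ζ‖ ^ 2 with hf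
  have hle : Real.exp (-a) ≤ Real.exp a := Real.exp_le_exp.2 (by linarith)
  have hfc : ContinuousOn f A := by
    refine ContinuousOn.pow (ContinuousOn.norm ?_) 2
    refine ContinuousOn.div continuousOn_const continuousOn_id ?_
    intro ζ hζ
    exact norm_pos_iff.1 (hAn ζ hζ)
  rw [← integral_indicator hAcl.measurableSet,
    K05_polar (A.indicator f) (t := Real.exp a) (Real.exp_pos (-a)) hle
    (hfc.congr fun ζ hζ => indicator_of_mem hζ f)
    (fun ζ hζ => indicator_of_notMem (show ζ ∉ A from hζ) f)]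
  have e2 : ∀ ρ ∈ Icc (Real.exp (-a)) (Real.exp a),
      ρ • ∫ θ in (0 : ℝ)..2 * Real.pi, A.indicator f (circleMap 0 ρ θ) =
        2 * Real.pi * κ ^ 2 * ρ⁻¹ := by
    intro ρ hρ
    have hρ0 : 0 < ρ := (Real.exp_pos _).trans_le hρ.1
    have hfθ : ∀ θ : ℝ, A.indicator f (circleMap 0 ρ θ) = κ ^ 2 / ρ ^ 2 := by
      intro θ
      have hm : circleMap 0 ρ θ ∈ A := by
        rw [hA, mem_ofPred_eq, norm_circleMap_zero, abs_of_pos hρ0]
        exact hρ
      rw [indicator_of_mem hm, hf]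
      simp only
      rw [norm_div, norm_circleMap_zero, abs_of_pos hρ0, Complex.norm_real, div_pow, Real.norm_eq_abs,
        sq_abs]
    simp_rw [hfθ]
    rw [intervalIntegral.integral_const, smul_eq_mul, smul_eq_mul, sub_zero]
    field_simp
  rw [intervalIntegral.integral_congr (g := fun ρ => 2 * Real.pi * κ ^ 2 * ρ⁻¹)
    (by rw [uIcc_of_le hle]; exact e2),
    intervalIntegral.integral_const_mul, integral_inv_of_pos (Real.exp_pos _) (Real.exp_pos _),
    Real.log_div (Real.exp_pos _).ne' (Real.exp_pos _).ne', Real.log_exp, Real.log_exp]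
  ring

/-- `∫_{annulus} κ² / |ζ|² = 4 π l κ²` -/
theorem en_ge_of_co (F : Frame S) (hF : F.Tame) (he : IsAnn S e l) {h : X → ℂ} (hh : F.Hol h)
    {κ : ℝ} (hκ : ∀ ζ ∈ e.target, F.co e h ζ = (κ : ℂ) / ζ) :
    4 * Real.pi * l * κ ^ 2 ≤ F.en univ h := by
  have hint := K05_int F hF hh
  have key : ∀ a : ℝ, 0 < a → a < l → 4 * Real.pi * a * κ ^ 2 ≤ F.en univ h := by
    intro a ha hal
    set A : Set ℂ := {ζ | Real.exp (-a) ≤ ‖ζ‖ ∧ ‖ζ‖ ≤ Real.exp a} with hA
    have hAt : A ⊆ e.target := by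
      intro ζ hζ
      rw [he.2.2]
      exact ⟨(Real.exp_lt_exp.2 (by linarith)).trans_le hζ.1, hζ.2.trans_lt (Real.exp_lt_exp.2 hal)⟩
    have hAcl : IsClosed A := by
      have h1 : IsClosed {ζ : ℂ | Real.exp (-a) ≤ ‖ζ‖} := isClosed_le continuous_const continuous_norm
      have h2 : IsClosed {ζ : ℂ | ‖ζ‖ ≤ Real.exp a} := isClosed_le continuous_norm continuous_const
      exact h1.inter h2
    have hAc : IsCompact A := by
      refine Metric.isCompact_of_isClosed_isBounded hAcl ?_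
      refine (Metric.isBounded_closedBall (x := (0 : ℂ)) (r := Real.exp a)).subset ?_
      intro ζ hζ
      rw [mem_closedBall_zero_iff]
      exact hζ.2
    have hB : IsCompact (e.symm '' A) := hAc.image_of_continuousOn (e.continuousOn_symm.mono hAt)
    have hBs : e.symm '' A ⊆ e.source := by
      rintro _ ⟨ζ, hζ, rfl⟩
      exact e.map_target (hAt hζ)
    have him : e '' (e.symm '' A) = A := by
      rw [← image_comp]
      refine (image_congr fun ζ hζ => ?_).trans (image_id A)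
      exact e.right_inv (hAt hζ)
    have h1 : F.en (e.symm '' A) h = 4 * Real.pi * a * κ ^ 2 := by
      rw [F.en_chartOn he.1 hB.measurableSet hBs, him, ← K05_plane (κ := κ) ha]
      refine setIntegral_congr_fun hAcl.measurableSet fun ζ hζ => ?_
      rw [hκ ζ (hAt hζ)]
    rw [← h1]
    unfold Frame.en
    rw [Measure.restrict_univ]
    exact setIntegral_le_integral hint (Filter.Eventually.of_forall fun x => by positivity)
  have hlim : Filter.Tendsto (fun a : ℝ => 4 * Real.pi * a * κ ^ 2) (𝓝[<] l)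
      (𝓝 (4 * Real.pi * l * κ ^ 2)) := by
    have : Continuous (fun a : ℝ => 4 * Real.pi * a * κ ^ 2) := by fun_prop
    exact (this.tendsto l).mono_left nhdsWithin_le_nhds
  refine le_of_tendsto hlim ?_
  have h2 : Ioo 0 l ∈ 𝓝[<] l := Ioo_mem_nhdsLT he.2.1
  filter_upwards [h2] with a ha
  exact key a ha.1 ha.2

/-- `ip_be` with residue `κ` -/
theorem ip_of_co (F : Frame S) (hF : F.Tame) (he : IsAnn S e l) {h : X → ℂ} (hh : F.Hol h)
    {κ : ℝ} (hκ : ∀ ζ ∈ e.target, F.co e h ζ = (κ : ℂ) / ζ) {a : ℝ} (ha : 0 < a) (hal : a < l) :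
    F.ip h (F.be e a) = 2 * Real.pi * κ := by
  have hh' : F.HolIn e.source h := by
    intro e' he'
    exact (hh e' he').mono fun z hz => ⟨hz.1, mem_univ _⟩
  rw [ip_be F hF he ha hal hh']
  congr 1
  have h1 : ∀ θ : ℝ, circleMap 0 1 θ ∈ e.target := by
    intro θ
    rw [he.2.2, mem_ofPred_eq, norm_circleMap_zero, abs_one]
    refine ⟨?_, ?_⟩
    · rw [Real.exp_lt_one_iff]; linarith [he.2.1]
    · rw [Real.one_lt_exp_iff]; exact he.2.1
  unfold CcaPl.res
  have h2 : (∮ z in C(0, 1), F.co e h z) = ∮ z in C(0, 1), (κ : ℂ) * z⁻¹ := by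
    rw [circleIntegral, circleIntegral]
    refine intervalIntegral.integral_congr fun θ _ => ?_
    rw [hκ _ (h1 θ), div_eq_mul_inv]
  rw [h2, circleIntegral.integral_const_mul]
  have h3 : (∮ z in C(0, 1), z⁻¹) = 2 * Real.pi * Complex.I := by
    have := circleIntegral.integral_sub_center_inv (0 : ℂ) (R := 1) one_ne_zero
    simpa using this
  rw [h3]
  have hpi : (Real.pi : ℂ) ≠ 0 := by exact_mod_cast Real.pi_ne_zero
  have hI := Complex.I_ne_zero
  field_simp

end Pool.Agent.Lib.MP_cca10c_ag
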