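import Pool.Agent.Lib.MP_cca10c_ag.T02_Form

/-!
# Module K: restriction of an annulus to a shorter one
-/

set_option autoImplicit false

open Topology Set MeasureTheory
open scoped ContDiff

namespace Pool.Agent.Lib.MP_cca10c_ag

variable {X : Type} [TopologicalSpace X] {S : CS X}

/-- the restriction to `{|log |ζ|| < l'}` -/
theorem ann_restr [T2Space X] {e : OpenPartialHomeomorph X ℂ} {l l' : ℝ} (he : IsAnn S e l)
    (h0 : 0 < l') (hl : l' ≤ l) : ∃ e' : OpenPartialHomeomorph X ℂ, IsAnn S e' l' ∧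
      e'.source = {x | x ∈ e.source ∧ |Real.log ‖e x‖| < l'} ∧ (∀ x ∈ e'.source, e' x = e x) ∧
      core e' = core e ∧ (∀ a : ℝ, 0 < a → a < l' → ∀ x, betaC e' a x = betaC e a x) ∧
      ∀ a : ℝ, 0 < a → a < l' → ∀ x, phiE e' a x = phiE e a x := by
  have hpos : ∀ x ∈ e.source, 0 < ‖e x‖ := fun x hx => by
    have h := e.map_source hx
    rw [he.2.2] at h
    exact (Real.exp_pos _).trans h.1
  set V : Set ℂ := {ζ | Real.exp (-l') < ‖ζ‖ ∧ ‖ζ‖ < Real.exp l'} with hV
  have hVo : IsOpen V := (isOpen_lt continuous_const continuous_norm).inter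
    (isOpen_lt continuous_norm continuous_const)
  set U : Set X := e.source ∩ e ⁻¹' V with hU
  have hUo : IsOpen U := e.isOpen_inter_preimage hVo
  have hVt : V ⊆ e.target := by
    intro ζ hζ
    rw [he.2.2]
    exact ⟨(Real.exp_le_exp.2 (by linarith)).trans_lt hζ.1, hζ.2.trans_le (Real.exp_le_exp.2 hl)⟩
  have hsrc : (e.restr U).source = U := by
    rw [e.restr_source, hUo.interior_eq]
    exact inter_eq_right.2 inter_subset_left
  have hlog : ∀ x ∈ e.source, (e x ∈ V ↔ |Real.log ‖e x‖| < l') := by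
    intro x hx
    rw [hV, mem_ofPred_eq, abs_lt, Real.lt_log_iff_exp_lt (hpos x hx),
      Real.log_lt_iff_lt_exp (hpos x hx)]
  have hs : (e.restr U).source = {x | x ∈ e.source ∧ |Real.log ‖e x‖| < l'} := by
    rw [hsrc]
    ext x
    constructor
    · rintro ⟨hx, h⟩
      exact ⟨hx, (hlog x hx).1 h⟩
    · rintro ⟨hx, h⟩
      exact ⟨hx, (hlog x hx).2 h⟩
  have hev : ∀ x, (e.restr U) x = e x := fun x => rfl
  have htar : (e.restr U).target = V := by
    rw [← (e.restr U).image_source_eq_target, hsrc]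
    ext ζ
    constructor
    · rintro ⟨x, hx, rfl⟩
      exact hx.2
    · intro hζ
      refine ⟨e.symm ζ, ⟨e.map_target (hVt hζ), ?_⟩, ?_⟩
      · rw [mem_preimage, e.right_inv (hVt hζ)]
        exact hζ
      · rw [hev, e.right_inv (hVt hζ)]
  have hphi : ∀ a : ℝ, 0 < a → a < l' → ∀ x, phiE (e.restr U) a x = phiE e a x := by
    intro a ha hal x
    by_cases hx : x ∈ (e.restr U).source
    · have hx' := hx
      rw [hs] at hx'
      unfold phiE
      rw [if_pos hx, if_pos hx'.1]
      rfl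
    · have h1 : x ∉ midA (e.restr U) a := fun h => hx h.1
      have h2 : x ∉ midA e a := by
        intro h
        apply hx
        rw [hs]
        exact ⟨h.1, h.2.trans_lt hal⟩
      rw [phiE_zero ha h1, phiE_zero ha h2]
  refine ⟨e.restr U, ⟨S.restr_mem he.1 hUo, h0, htar⟩, hs, fun x _ => rfl, ?_, ?_, hphi⟩
  · ext x
    constructor
    · rintro ⟨hx, h⟩
      rw [hs] at hx
      exact ⟨hx.1, h⟩
    · rintro ⟨hx, h⟩
      refine ⟨?_, h⟩
      rw [hs]
      refine ⟨hx, ?_⟩
      have h' : ‖e x‖ = 1 := h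
      rw [h', Real.log_one, abs_zero]
      exact h0
  · intro a ha hal x
    unfold betaC
    rw [hphi a ha hal x]

end Pool.Agent.Lib.MP_cca10c_ag
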