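import Pool.Agent.Lib.MP_cca10c_ag.T04_Dec
import Pool.Agent.Lib.MP_cca10c_ag.H01_Charts

/-!
# Module T: oscillation of a circle map on half of an annulus

`w` is a circle map defined off the core whose form is `α`. In the coordinate `t + i θ`
(`ζ = exp (t + i θ)`) the half annulus becomes a strip, `w` lifts to a real function there, and the
gradient of the lift is at most `|ζ k ζ| ≤ C √E exp (-(l - |t|))`.
-/

set_option autoImplicit false

open Topology Set MeasureTheory
open scoped ContDiff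

namespace Pool.Agent.Lib.MP_cca10c_ag

private theorem t05_exists_rep (x : UnitAddCircle) :
    ∃ s : ℝ, |s| = ‖x‖ ∧ (s : UnitAddCircle) = x := by
  obtain ⟨r, rfl⟩ := QuotientAddGroup.mk_surjective x
  refine ⟨r - round r, ?_, ?_⟩
  · exact UnitAddCircle.norm_eq.symm
  · have h : (((round r : ℤ) : ℝ) : UnitAddCircle) = 0 := by
      rw [AddCircle.coe_eq_zero_iff]
      exact ⟨round r, by simp⟩
    rw [AddCircle.coe_sub, h, sub_zero]

private theorem t05_norm_coe_le (x : ℝ) : ‖(x : UnitAddCircle)‖ ≤ |x| := by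
  rw [UnitAddCircle.norm_eq]
  simpa using round_le x 0

/-- mean value inequality for circle maps -/
private theorem t05_mv {h : ℝ → UnitAddCircle} {a b : ℝ} (hab : a ≤ b) {B B' : ℝ → ℝ}
    (hh : ∀ t ∈ Icc a b, ∃ (f : ℝ → ℝ) (f' : ℝ), (∀ᶠ s in 𝓝 t, h s = (f s : UnitAddCircle)) ∧
      HasDerivAt f f' t ∧ |f'| ≤ B' t)
    (hB : ∀ t, HasDerivAt B (B' t) t) : dist (h b) (h a) ≤ B b - B a := by
  have hcont : ∀ t ∈ Icc a b, ContinuousAt h t := by
    intro t ht
    obtain ⟨f, f', hf, hf', -⟩ := hh t ht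
    have h1 : ContinuousAt (fun s => (f s : UnitAddCircle)) t :=
      (AddCircle.continuous_mk' (1 : ℝ)).continuousAt.comp hf'.continuousAt
    exact h1.congr (hf.mono fun s hs => hs.symm)
  have hdc : ∀ t ∈ Icc a b, ContinuousAt (fun t => dist (h t) (h a)) t := fun t ht =>
    Filter.Tendsto.dist (hcont t ht) tendsto_const_nhds
  have key := image_le_of_liminf_slope_right_le_deriv_boundary
    (f := fun t => dist (h t) (h a)) (a := a) (b := b) (B := fun t => B t - B a) (B' := B')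
    (fun t ht => (hdc t ht).continuousWithinAt)
    (by simp)
    (fun t _ => ((hB t).sub_const (B a)).continuousAt.continuousWithinAt)
    (fun t _ => ((hB t).sub_const (B a)).hasDerivWithinAt)
    (fun x hx r hr => by
      obtain ⟨f, f', hf, hf', hb⟩ := hh x (Ico_subset_Icc_self hx)
      have h1 : Filter.Tendsto (fun z => |slope f x z|) (𝓝[>] x) (𝓝 |f'|) :=
        (((hasDerivAt_iff_tendsto_slope.1 hf').mono_left
          (nhdsWithin_mono x fun z hz => ne_of_gt hz)).abs)
      have h2 : ∀ᶠ z in 𝓝[>] x, |slope f x z| < r :=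
        (tendsto_order.1 h1).2 r (hb.trans_lt hr)
      have h3 : ∀ᶠ z in 𝓝[>] x, h z = (f z : UnitAddCircle) := hf.filter_mono nhdsWithin_le_nhds
      have h4 : h x = (f x : UnitAddCircle) := hf.self_of_nhds
      refine Filter.Eventually.frequently ?_
      filter_upwards [h2, h3, self_mem_nhdsWithin] with z hz2 hz3 hz4
      have hz5 : 0 < z - x := sub_pos.2 hz4
      refine lt_of_le_of_lt ?_ hz2
      rw [slope_def_field, slope_def_field, abs_div, abs_of_pos hz5]
      refine div_le_div_of_nonneg_right ?_ hz5.le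
      have h6 : dist (h z) (h a) - dist (h x) (h a) ≤ dist (h z) (h x) := by
        linarith [dist_triangle (h z) (h x) (h a)]
      refine h6.trans ?_
      rw [hz3, h4, dist_eq_norm, ← AddCircle.coe_sub]
      exact t05_norm_coe_le _)
  exact key (right_mem_Icc.2 hab)

/-- plane version: a smooth circle map on a half strip with exponentially decaying gradient has small
image -/
theorem osc_plane {W : ℂ → UnitAddCircle} {l y M : ℝ} (hy : 1 ≤ y) (hyl : y < l) (hM : 0 ≤ M)
    (hW : ∀ z : ℂ, 0 < z.re → z.re ≤ l - y → ∃ f : ℂ → ℝ, (∀ᶠ z' in 𝓝 z, W z' = (f z' : ℝ)) ∧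
      (∀ᶠ z' in 𝓝 z, DifferentiableAt ℝ f z') ∧ ‖fderiv ℝ f z‖ ≤ M * Real.exp (-(l - z.re))) :
    ∃ θ : ℝ, ∀ z : ℂ, 0 < z.re → z.re ≤ l - y → 0 ≤ z.im → z.im ≤ 2 * Real.pi →
      ∃ s : ℝ, |s| ≤ 8 * M * Real.exp (-y) ∧ W z = ((θ + s : ℝ) : UnitAddCircle) := by
  have _ := hy
  obtain ⟨θ, hθ⟩ := QuotientAddGroup.mk_surjective (W (((l - y : ℝ) : ℂ) + ((0 : ℝ) : ℂ) * Complex.I))
  refine ⟨θ, fun z hz0 hz1 hi0 hi1 => ?_⟩
  -- the path in a direction `v` of norm 1
  have hpath : ∀ (γ : ℝ → ℂ) (v : ℂ) (t : ℝ), ‖v‖ = 1 → HasDerivAt γ v t → 0 < (γ t).re →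
      (γ t).re ≤ l - y → ∃ (f : ℝ → ℝ) (f' : ℝ), (∀ᶠ s in 𝓝 t, W (γ s) = (f s : UnitAddCircle)) ∧
        HasDerivAt f f' t ∧ |f'| ≤ M * Real.exp (-(l - (γ t).re)) := by
    intro γ v t hv hγ h0 h1
    obtain ⟨f, hf1, hf2, hf3⟩ := hW (γ t) h0 h1
    refine ⟨fun s => f (γ s), fderiv ℝ f (γ t) v, hγ.continuousAt.eventually hf1, ?_, ?_⟩
    · exact (hf2.self_of_nhds.hasFDerivAt).comp_hasDerivAt t hγ
    · have h2 := (fderiv ℝ f (γ t)).le_opNorm v
      rw [hv, mul_one, Real.norm_eq_abs] at h2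
      exact h2.trans hf3
  -- vertical path
  have hv : dist (W (((l - y : ℝ) : ℂ) + ((z.im : ℝ) : ℂ) * Complex.I))
      (W (((l - y : ℝ) : ℂ) + ((0 : ℝ) : ℂ) * Complex.I)) ≤
      M * Real.exp (-y) * z.im - M * Real.exp (-y) * 0 := by
    refine t05_mv (h := fun t : ℝ => W (((l - y : ℝ) : ℂ) + (t : ℂ) * Complex.I)) hi0
      (B := fun t => M * Real.exp (-y) * t) (B' := fun _ => M * Real.exp (-y)) (fun t _ => ?_)
      (fun t => by simpa using (hasDerivAt_id t).const_mul (M * Real.exp (-y)))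
    have h1 : HasDerivAt (fun t : ℝ => ((l - y : ℝ) : ℂ) + (t : ℂ) * Complex.I) Complex.I t := by
      have h2 := ((Complex.ofRealCLM.hasDerivAt (x := t)).mul_const Complex.I).const_add
        ((l - y : ℝ) : ℂ)
      simpa using h2
    have hre : (((l - y : ℝ) : ℂ) + (t : ℂ) * Complex.I).re = l - y := by simp
    obtain ⟨f, f', g1, g2, g3⟩ := hpath _ Complex.I t (by simp) h1
      (by show 0 < (((l - y : ℝ) : ℂ) + (t : ℂ) * Complex.I).re; rw [hre]; linarith)
      (by show (((l - y : ℝ) : ℂ) + (t : ℂ) * Complex.I).re ≤ l - y; rw [hre])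
    refine ⟨f, f', g1, g2, ?_⟩
    rw [hre] at g3
    convert g3 using 3
    ring
  -- horizontal path
  have hh : dist (W (((l - y : ℝ) : ℂ) + ((z.im : ℝ) : ℂ) * Complex.I))
      (W (((z.re : ℝ) : ℂ) + ((z.im : ℝ) : ℂ) * Complex.I)) ≤
      M * Real.exp (-(l - (l - y))) - M * Real.exp (-(l - z.re)) := by
    refine t05_mv (h := fun t : ℝ => W ((t : ℂ) + ((z.im : ℝ) : ℂ) * Complex.I)) hz1
      (B := fun t => M * Real.exp (-(l - t))) (B' := fun t => M * Real.exp (-(l - t)))
      (fun t ht => ?_) (fun t => ?_)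
    · have h1 : HasDerivAt (fun t : ℝ => (t : ℂ) + ((z.im : ℝ) : ℂ) * Complex.I) 1 t := by
        have h2 := (Complex.ofRealCLM.hasDerivAt (x := t)).add_const (((z.im : ℝ) : ℂ) * Complex.I)
        simpa using h2
      have hre : ((t : ℂ) + ((z.im : ℝ) : ℂ) * Complex.I).re = t := by simp
      obtain ⟨f, f', g1, g2, g3⟩ := hpath _ 1 t (by simp) h1
        (by show 0 < ((t : ℂ) + ((z.im : ℝ) : ℂ) * Complex.I).re; rw [hre]; linarith [ht.1])
        (by show ((t : ℂ) + ((z.im : ℝ) : ℂ) * Complex.I).re ≤ l - y; rw [hre]; exact ht.2)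
      refine ⟨f, f', g1, g2, ?_⟩
      rwa [hre] at g3
    · have h1 : HasDerivAt (fun t : ℝ => -(l - t)) 1 t := by
        have e1 : (fun t : ℝ => -(l - t)) = fun t => t - l := by funext t; ring
        rw [e1]
        exact (hasDerivAt_id t).sub_const l
      simpa using (h1.exp).const_mul M
  have hz : ((z.re : ℝ) : ℂ) + ((z.im : ℝ) : ℂ) * Complex.I = z := Complex.re_add_im z
  rw [hz] at hh
  have htot : dist (W z) (W (((l - y : ℝ) : ℂ) + ((0 : ℝ) : ℂ) * Complex.I)) ≤
      8 * M * Real.exp (-y) := by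
    have h1 := dist_triangle_left (W z) (W (((l - y : ℝ) : ℂ) + ((0 : ℝ) : ℂ) * Complex.I))
      (W (((l - y : ℝ) : ℂ) + ((z.im : ℝ) : ℂ) * Complex.I))
    have h2 : (-(l - (l - y))) = -y := by ring
    rw [h2] at hh
    have h3 : 0 ≤ M * Real.exp (-(l - z.re)) := by positivity
    have h4 : 0 ≤ M * Real.exp (-y) := by positivity
    have h5 : M * Real.exp (-y) * z.im ≤ M * Real.exp (-y) * 7 := by
      refine mul_le_mul_of_nonneg_left ?_ h4
      linarith [Real.pi_lt_d2]
    linarith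
  obtain ⟨s, hs1, hs2⟩ := t05_exists_rep
    (W z - W (((l - y : ℝ) : ℂ) + ((0 : ℝ) : ℂ) * Complex.I))
  refine ⟨s, ?_, ?_⟩
  · rw [hs1, ← dist_eq_norm]
    exact htot
  · rw [AddCircle.coe_add, hs2]
    have hθ' : (θ : UnitAddCircle) = W (((l - y : ℝ) : ℂ) + ((0 : ℝ) : ℂ) * Complex.I) := hθ
    rw [hθ']
    abel

private theorem t05_cgrad_comp {G : ℂ → ℝ} {φ : ℂ → ℂ} {ζ : ℂ} (hG : DifferentiableAt ℝ G (φ ζ))
    (hφ : DifferentiableAt ℂ φ ζ) : cgrad (G ∘ φ) ζ = cgrad G (φ ζ) * deriv φ ζ := by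
  have h1 : HasFDerivAt φ (((1 : ℂ →L[ℂ] ℂ).smulRight (deriv φ ζ)).restrictScalars ℝ) ζ :=
    hφ.hasDerivAt.hasFDerivAt.restrictScalars ℝ
  have h2 : fderiv ℝ (G ∘ φ) ζ = (fderiv ℝ G (φ ζ)).comp
      (((1 : ℂ →L[ℂ] ℂ).smulRight (deriv φ ζ)).restrictScalars ℝ) :=
    (hG.hasFDerivAt.comp ζ h1).fderiv
  have h3 : ∀ v : ℂ, fderiv ℝ G (φ ζ) v =
      v.re * fderiv ℝ G (φ ζ) 1 + v.im * fderiv ℝ G (φ ζ) Complex.I := by
    intro v
    have h4 : v = v.re • (1 : ℂ) + v.im • Complex.I := by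
      simp [Complex.re_add_im]
    conv_lhs => rw [h4]
    rw [map_add, map_smul, map_smul, smul_eq_mul, smul_eq_mul]
  have h5 : fderiv ℝ (G ∘ φ) ζ 1 = fderiv ℝ G (φ ζ) (deriv φ ζ) := by
    rw [h2]
    simp
  have h6 : fderiv ℝ (G ∘ φ) ζ Complex.I = fderiv ℝ G (φ ζ) (Complex.I * deriv φ ζ) := by
    rw [h2]
    simp
  unfold cgrad
  rw [h5, h6, h3 (deriv φ ζ), h3 (Complex.I * deriv φ ζ)]
  apply Complex.ext <;> simp <;> ring

private theorem t05_norm_fderiv_le (G : ℂ → ℝ) (ζ : ℂ) : ‖fderiv ℝ G ζ‖ ≤ ‖cgrad G ζ‖ := by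
  refine ContinuousLinearMap.opNorm_le_bound _ (norm_nonneg _) fun v => ?_
  have h3 : fderiv ℝ G ζ v = (cgrad G ζ * v).re := by
    have h4 : v = v.re • (1 : ℂ) + v.im • Complex.I := by
      simp [Complex.re_add_im]
    have h5 : fderiv ℝ G ζ v =
        v.re * fderiv ℝ G ζ 1 + v.im * fderiv ℝ G ζ Complex.I := by
      conv_lhs => rw [h4]
      rw [map_add, map_smul, map_smul, smul_eq_mul, smul_eq_mul]
    rw [h5]
    unfold cgrad
    simp
    ring
  rw [h3, Real.norm_eq_abs, ← norm_mul]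
  exact Complex.abs_re_le_norm _

/-- `w` is a circle map with form `α` off the core (`σ = 1`: outer half, `σ = -1`: inner half) -/
theorem osc_surf : ∃ C : ℝ, 0 < C ∧ ∀ (X : Type) [TopologicalSpace X] [CompactSpace X] [T2Space X]
    [MeasurableSpace X] [BorelSpace X] (S : CS X) (F : Frame S), F.Tame →
    ∀ (e : OpenPartialHomeomorph X ℂ) (l a : ℝ), IsAnn S e l → 0 < a → a < l →
    ∀ α : X → ℂ, F.Hol α → F.ip α (F.be e a) = 0 →
    ∀ w : X → UnitAddCircle, (∀ x ∈ e.source, x ∉ core e → ∃ f : X → ℝ, LiftAt w f x ∧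
      S.SmoothNear f x ∧ ∀ᶠ y in 𝓝 x, α y = F.d f y) →
    ∀ (y : ℝ), 1 ≤ y → y < l → ∀ σ : ℝ, (σ = 1 ∨ σ = -1) →
      ∃ θ : ℝ, ∀ x ∈ e.source, 0 < σ * Real.log ‖e x‖ → σ * Real.log ‖e x‖ ≤ l - y →
        ∃ s : ℝ, |s| ≤ C * Real.sqrt (F.en univ α) * Real.exp (-y) ∧
          w x = ((θ + s : ℝ) : UnitAddCircle) := by
  obtain ⟨C, hC, hdec⟩ := dec_surf
  refine ⟨8 * C, by positivity, ?_⟩
  intro X _ _ _ _ _ S F hF e l a he ha hal α hα hip w hw y hy hyl σ hσ
  have hσ2 : σ * σ = 1 := by rcases hσ with h | h <;> rw [h] <;> norm_num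
  have hσa : |σ| = 1 := by rcases hσ with h | h <;> rw [h] <;> norm_num
  have hl1 : 1 ≤ l := by linarith
  set M : ℝ := C * Real.sqrt (F.en univ α) with hM
  have hM0 : 0 ≤ M := by positivity
  set E : ℂ → ℂ := fun z => Complex.exp ((σ : ℂ) * z) with hE
  have hEd : ∀ z, HasDerivAt E (E z * (σ : ℂ)) z := by
    intro z
    have h1 : HasDerivAt (fun z : ℂ => (σ : ℂ) * z) (σ : ℂ) z := by
      simpa using (hasDerivAt_id z).const_mul (σ : ℂ)
    exact h1.cexp
  have hEn : ∀ z, ‖E z‖ = Real.exp (σ * z.re) := by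
    intro z
    rw [hE]
    simp only
    rw [Complex.norm_exp, Complex.re_ofReal_mul]
  have hEl : ∀ z, Real.log ‖E z‖ = σ * z.re := by
    intro z
    rw [hEn, Real.log_exp]
  have hplane := osc_plane (W := fun z => w (e.symm (E z))) hy hyl hM0 (fun z hz0 hz1 => by
    have hσz : |σ * z.re| = z.re := by rw [abs_mul, hσa, one_mul, abs_of_pos hz0]
    have hbd := abs_le.1 hσz.le
    have htar : E z ∈ e.target := by
      rw [he.2.2]
      show Real.exp (-l) < ‖E z‖ ∧ ‖E z‖ < Real.exp l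
      rw [hEn]
      constructor
      · apply Real.exp_lt_exp.2
        linarith [hbd.1]
      · apply Real.exp_lt_exp.2
        linarith [hbd.2]
    set x := e.symm (E z) with hx
    have hxs : x ∈ e.source := e.map_target htar
    have hex : e x = E z := e.right_inv htar
    have hxc : x ∉ core e := by
      rintro ⟨-, h1⟩
      rw [hex, hEn, Real.exp_eq_one_iff] at h1
      rw [h1, abs_zero] at hσz
      linarith
    obtain ⟨f, hf1, hf2, hf3⟩ := hw x hxs hxc
    have hcx : ContinuousAt (fun z' => e.symm (E z')) z :=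
      (e.continuousAt_symm htar).comp (hEd z).continuousAt
    have hfd := (CS.smoothNear_iff he.1 hxs).1 hf2
    rw [hex] at hfd
    refine ⟨fun z' => f (e.symm (E z')), hcx.eventually hf1.2, ?_, ?_⟩
    · have h1 := (hEd z).continuousAt.eventually hfd
      filter_upwards [h1] with z' hz'
      have h2 : DifferentiableAt ℝ (f ∘ e.symm) (E z') := hz'.differentiableAt (by simp)
      have h3 : DifferentiableAt ℝ E z' := (hEd z').differentiableAt.restrictScalars ℝ
      exact h2.comp z' h3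
    · have h2 : DifferentiableAt ℝ (f ∘ e.symm) (E z) :=
        hfd.self_of_nhds.differentiableAt (by simp)
      have h4 : cgrad (fun z' => f (e.symm (E z'))) z =
          cgrad (f ∘ e.symm) (E z) * (E z * (σ : ℂ)) := by
        have h5 := t05_cgrad_comp (G := f ∘ e.symm) (φ := E) h2 (hEd z).differentiableAt
        rw [(hEd z).deriv] at h5
        exact h5
      -- the coefficient
      have hk : cgrad (f ∘ e.symm) (E z) = F.co e α (E z) := by
        have h6 : α x = F.d f x := hf3.self_of_nhds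
        have hxch : x ∈ (F.ch x).source := F.mem_ch x
        have h7 : DifferentiableAt ℂ (F.ch x ∘ e.symm) (E z) := by
          have := CS.trans_differentiableAt he.1 (F.ch_mem x) hxs hxch
          rwa [hex] at this
        have h8 : DifferentiableAt ℝ (f ∘ (F.ch x).symm) ((F.ch x ∘ e.symm) (E z)) := by
          have h9 : S.SmoothAt f x := hf2.self_of_nhds
          exact (h9 _ (F.ch_mem x) hxch).differentiableAt (by simp)
        have h10 := t05_cgrad_comp h8 h7
        have h11 : (f ∘ (F.ch x).symm) ∘ (F.ch x ∘ e.symm) =ᶠ[𝓝 (E z)] f ∘ e.symm := by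
          have h12 : ∀ᶠ ζ in 𝓝 (E z), e.symm ζ ∈ (F.ch x).source :=
            (e.continuousAt_symm htar).eventually ((F.ch x).open_source.mem_nhds hxch)
          filter_upwards [h12] with ζ hζ
          show f ((F.ch x).symm (F.ch x (e.symm ζ))) = f (e.symm ζ)
          rw [(F.ch x).left_inv hζ]
        have h13 : cgrad ((f ∘ (F.ch x).symm) ∘ (F.ch x ∘ e.symm)) (E z) =
            cgrad (f ∘ e.symm) (E z) := by
          unfold cgrad
          rw [h11.fderiv_eq]
        rw [← h13, h10]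
        show cgrad (f ∘ (F.ch x).symm) (F.ch x x) * deriv (F.ch x ∘ e.symm) (E z) =
          α x * deriv (F.ch x ∘ e.symm) (E z)
        rw [h6]
        rfl
      refine (t05_norm_fderiv_le _ _).trans ?_
      rw [h4, hk]
      have h14 : ‖F.co e α (E z) * (E z * (σ : ℂ))‖ = ‖E z * F.co e α (E z)‖ := by
        rw [norm_mul, norm_mul, norm_mul, Complex.norm_real, Real.norm_eq_abs, hσa, mul_one,
          mul_comm]
      rw [h14]
      have h15 : |Real.log ‖E z‖| = z.re := by rw [hEl, hσz]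
      have h16 := hdec X S F hF e l a he hl1 ha hal α hα hip (E z) (Complex.exp_ne_zero _)
        (by rw [h15]; linarith)
      rw [h15] at h16
      exact h16)
  obtain ⟨θ, hθ⟩ := hplane
  refine ⟨θ, fun x hx h0 h1 => ?_⟩
  have hex0 : e x ≠ 0 := by
    intro h
    rw [h] at h0
    simp at h0
  obtain ⟨z, hz, hzr, hzi0, hzi1⟩ : ∃ z : ℂ, E z = e x ∧ z.re = σ * Real.log ‖e x‖ ∧ 0 ≤ z.im ∧
      z.im ≤ 2 * Real.pi := by
    have hz0 : E ((σ : ℂ) * Complex.log (e x)) = e x := by
      rw [hE]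
      simp only
      rw [← mul_assoc, ← Complex.ofReal_mul, hσ2, Complex.ofReal_one, one_mul,
        Complex.exp_log hex0]
    have hre : ((σ : ℂ) * Complex.log (e x)).re = σ * Real.log ‖e x‖ := by
      rw [Complex.re_ofReal_mul, Complex.log_re]
    have him : ((σ : ℂ) * Complex.log (e x)).im = σ * (e x).arg := by
      rw [Complex.im_ofReal_mul, Complex.log_im]
    have harg : |σ * (e x).arg| ≤ Real.pi := by
      rw [abs_mul, hσa, one_mul]
      exact Complex.abs_arg_le_pi _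
    have hpi := abs_le.1 harg
    rcases le_or_gt 0 (σ * (e x).arg) with hs | hs
    · exact ⟨_, hz0, hre, by rw [him]; exact hs, by rw [him]; linarith [Real.pi_pos, hpi.2]⟩
    · refine ⟨(σ : ℂ) * Complex.log (e x) + 2 * Real.pi * Complex.I, ?_, ?_, ?_, ?_⟩
      · have h6 : E ((σ : ℂ) * Complex.log (e x) + 2 * Real.pi * Complex.I) =
            E ((σ : ℂ) * Complex.log (e x)) * Complex.exp ((σ : ℂ) * (2 * Real.pi * Complex.I)) := by
          rw [hE]
          simp only
          rw [mul_add, Complex.exp_add]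
        rw [h6, hz0]
        have h5 : Complex.exp ((σ : ℂ) * (2 * Real.pi * Complex.I)) = 1 := by
          rcases hσ with h | h
          · rw [h, Complex.ofReal_one, one_mul, Complex.exp_two_pi_mul_I]
          · rw [h]
            push_cast
            rw [neg_mul, one_mul, Complex.exp_neg, Complex.exp_two_pi_mul_I, inv_one]
        rw [h5, mul_one]
      · simp [hre]
      · have : ((σ : ℂ) * Complex.log (e x) + 2 * Real.pi * Complex.I).im =
            σ * (e x).arg + 2 * Real.pi := by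
          rw [Complex.add_im, him]
          simp
        rw [this]
        linarith [Real.pi_pos, hpi.1]
      · have : ((σ : ℂ) * Complex.log (e x) + 2 * Real.pi * Complex.I).im =
            σ * (e x).arg + 2 * Real.pi := by
          rw [Complex.add_im, him]
          simp
        rw [this]
        linarith [Real.pi_pos]
  obtain ⟨s, hs1, hs2⟩ := hθ z (by rw [hzr]; exact h0) (by rw [hzr]; exact h1) hzi0 hzi1
  refine ⟨s, ?_, ?_⟩
  · rw [hM] at hs1
    linarith
  · rw [← hs2]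
    show w x = w (e.symm (E z))
    rw [hz, e.left_inv hx]

end Pool.Agent.Lib.MP_cca10c_ag
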