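import Pool.Agent.Lib.MP_cca10c_ag.T02_Form

/-!
# Module T: the class of an annulus as a homotopy class of circle maps
-/

set_option autoImplicit false

open Topology Set MeasureTheory
open scoped ContDiff

namespace Pool.Agent.Lib.MP_cca10c_ag

/-! ### plane gradients -/

private theorem t08_fderiv (f : ℂ → ℝ) (z w : ℂ) : fderiv ℝ f z w = (cgrad f z * w).re := by
  have h : w = w.re • (1 : ℂ) + w.im • Complex.I := by
    apply Complex.ext <;> simp
  have h2 : fderiv ℝ f z w = w.re * fderiv ℝ f z 1 + w.im * fderiv ℝ f z Complex.I := by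
    conv_lhs => rw [h, map_add, map_smul, map_smul]
    simp
  rw [h2]
  simp [cgrad, Complex.mul_re, Complex.sub_re, Complex.sub_im, Complex.mul_im]
  ring

private theorem t08_cgrad_of {f : ℂ → ℝ} {z c : ℂ} (h : ∀ w, fderiv ℝ f z w = (c * w).re) :
    cgrad f z = c := by
  unfold cgrad
  rw [h, h]
  apply Complex.ext <;> simp

private theorem t08_fderiv_hol {φ : ℂ → ℂ} {z : ℂ} (hφ : DifferentiableAt ℂ φ z) (w : ℂ) :
    fderiv ℝ φ z w = deriv φ z * w := by
  have h := (hφ.hasDerivAt.hasFDerivAt.restrictScalars ℝ).fderiv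
  rw [h]
  simp [mul_comm]

private theorem t08_cgrad_comp {f : ℂ → ℝ} {φ : ℂ → ℂ} {z : ℂ} (hφ : DifferentiableAt ℂ φ z)
    (hf : DifferentiableAt ℝ f (φ z)) : cgrad (f ∘ φ) z = cgrad f (φ z) * deriv φ z := by
  apply t08_cgrad_of
  intro w
  rw [fderiv_comp z hf (hφ.restrictScalars ℝ), ContinuousLinearMap.comp_apply,
    t08_fderiv_hol hφ, t08_fderiv]
  congr 1
  ring

private theorem t08_cgrad_congr {f f' : ℂ → ℝ} {z : ℂ} (h : f =ᶠ[𝓝 z] f') :
    cgrad f z = cgrad f' z := by
  unfold cgrad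
  rw [h.fderiv_eq]

private theorem t08_cgradC {u : ℂ → UnitAddCircle} {f : ℂ → ℝ} {z : ℂ}
    (hf : DifferentiableAt ℝ f z) (h : ∀ᶠ w in 𝓝 z, u w = (f w : UnitAddCircle)) :
    cgradC u z = cgrad f z := by
  have hU : (fun w => ((AddCircle.toCircle (u w) : Circle) : ℂ)) =ᶠ[𝓝 z]
      fun w => Complex.exp (((2 * Real.pi * f w : ℝ) : ℂ) * Complex.I) := by
    filter_upwards [h] with w hw
    rw [hw]
    have h1 := AddCircle.toCircle_apply_mk (T := (1 : ℝ)) (f w)
    have h2 : (AddCircle.toCircle ((f w : ℝ) : UnitAddCircle)) = Circle.exp (2 * Real.pi / 1 * f w) :=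
      h1
    rw [h2, Circle.coe_exp]
    congr 2
    push_cast
    ring
  have hg : HasFDerivAt (fun w => ((2 * Real.pi * f w : ℝ) : ℂ) * Complex.I)
      (Complex.I • (Complex.ofRealCLM.comp ((2 * Real.pi) • fderiv ℝ f z))) z := by
    have h1 : HasFDerivAt (fun w => 2 * Real.pi * f w) ((2 * Real.pi) • fderiv ℝ f z) z :=
      hf.hasFDerivAt.const_mul (2 * Real.pi)
    have h2 : HasFDerivAt (fun w => ((2 * Real.pi * f w : ℝ) : ℂ))
        (Complex.ofRealCLM.comp ((2 * Real.pi) • fderiv ℝ f z)) z :=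
      Complex.ofRealCLM.hasFDerivAt.comp z h1
    exact h2.mul_const Complex.I
  have hE := hg.cexp
  have hk : ∀ v : ℂ, (starRingEnd ℂ (((AddCircle.toCircle (u z) : Circle) : ℂ)) *
      fderiv ℝ (fun w => ((AddCircle.toCircle (u w) : Circle) : ℂ)) z v).im / (2 * Real.pi) =
      fderiv ℝ f z v := by
    intro v
    rw [hU.fderiv_eq, hU.eq_of_nhds, hE.fderiv]
    set E := Complex.exp (((2 * Real.pi * f z : ℝ) : ℂ) * Complex.I) with hEdef
    have hn : starRingEnd ℂ E * E = 1 := by
      rw [← Complex.normSq_eq_conj_mul_self, Complex.normSq_eq_norm_sq, hEdef,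
        Complex.norm_exp_ofReal_mul_I]
      norm_num
    have : starRingEnd ℂ E * ((E • (Complex.I •
        (Complex.ofRealCLM.comp ((2 * Real.pi) • fderiv ℝ f z)))) v) =
        ((2 * Real.pi * fderiv ℝ f z v : ℝ) : ℂ) * Complex.I := by
      simp only [smul_apply, ContinuousLinearMap.comp_apply, smul_eq_mul,
        Complex.ofRealCLM_apply]
      calc _ = (starRingEnd ℂ E * E) * (Complex.I * ((2 * Real.pi * fderiv ℝ f z v : ℝ) : ℂ)) := by
            ring
        _ = _ := by rw [hn]; ring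
    rw [this]
    have hpi : (2 * Real.pi) ≠ 0 := by positivity
    have h3 : (((2 * Real.pi * fderiv ℝ f z v : ℝ) : ℂ) * Complex.I).im =
        2 * Real.pi * fderiv ℝ f z v := by
      simp [Complex.mul_im]
    rw [h3]
    field_simp
  unfold cgradC cgrad
  simp only [hk]

/-! ### gradients on the surface -/

section surf

variable {X : Type} [TopologicalSpace X] {S : CS X} (F : Frame S)

private theorem t08_symm_ev {e : OpenPartialHomeomorph X ℂ} {x : X} (hx : x ∈ e.source)
    {p : X → Prop} (h : ∀ᶠ y in 𝓝 x, p y) : ∀ᶠ w in 𝓝 (e x), p (e.symm w) := by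
  have h1 := e.symm.continuousAt (e.map_source hx)
  have h2 : Filter.Tendsto e.symm (𝓝 (e x)) (𝓝 x) := by
    have := h1.tendsto
    rwa [e.left_inv hx] at this
  exact h2.eventually h

private theorem t08_diff {f : X → ℝ} {x : X} (hf : S.SmoothAt f x) :
    DifferentiableAt ℝ (f ∘ (F.ch x).symm) (F.ch x x) :=
  (hf _ (F.ch_mem x) (F.mem_ch x)).differentiableAt (by simp)

private theorem t08_dC_lift {u : X → UnitAddCircle} {f : X → ℝ} {x : X} (h : LiftAt u f x)
    (hf : S.SmoothAt f x) : F.dC u x = F.d f x := by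
  unfold Frame.dC Frame.d
  exact t08_cgradC (t08_diff F hf) (t08_symm_ev (F.mem_ch x) h.2)

private theorem t08_d_congr {f f' : X → ℝ} {x : X} (h : f =ᶠ[𝓝 x] f') : F.d f x = F.d f' x := by
  unfold Frame.d
  exact t08_cgrad_congr (t08_symm_ev (F.mem_ch x) h)

private theorem t08_smoothAt_congr {f f' : X → ℝ} {x : X} (h : f =ᶠ[𝓝 x] f')
    (hf : S.SmoothAt f x) : S.SmoothAt f' x := by
  intro e he hx
  refine (hf e he hx).congr_of_eventuallyEq ?_
  exact (t08_symm_ev hx h).mono fun w hw => hw.symm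

private theorem t08_d_const (c : ℝ) (x : X) : F.d (fun _ => c) x = 0 := by
  unfold Frame.d
  have : ((fun _ : X => c) ∘ (F.ch x).symm) = fun _ => c := rfl
  rw [this]
  unfold cgrad
  simp

private theorem t08_d_add {f f' : X → ℝ} {x : X} (hf : S.SmoothAt f x) (hf' : S.SmoothAt f' x) :
    F.d (fun y => f y + f' y) x = F.d f x + F.d f' x := by
  unfold Frame.d
  have h := fderiv_add (t08_diff F hf) (t08_diff F hf')
  have e1 : ((fun y => f y + f' y) ∘ (F.ch x).symm) =
    (f ∘ (F.ch x).symm) + (f' ∘ (F.ch x).symm) := rfl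
  rw [e1]
  unfold cgrad
  rw [h]
  simp only [add_apply]
  push_cast
  ring

private theorem t08_d_mul {f : X → ℝ} {x : X} (c : ℝ) (hf : S.SmoothAt f x) :
    F.d (fun y => c * f y) x = (c : ℂ) * F.d f x := by
  unfold Frame.d
  have h := fderiv_const_mul (t08_diff F hf) c
  have e1 : ((fun y => c * f y) ∘ (F.ch x).symm) =
    fun w => c * (f ∘ (F.ch x).symm) w := rfl
  rw [e1]
  unfold cgrad
  rw [h]
  simp only [smul_apply, smul_eq_mul]
  push_cast
  ring

private theorem t08_smoothAt_add {f f' : X → ℝ} {x : X} (hf : S.SmoothAt f x)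
    (hf' : S.SmoothAt f' x) : S.SmoothAt (fun y => f y + f' y) x :=
  fun e he hx => (hf e he hx).add (hf' e he hx)

private theorem t08_smoothAt_mul {f : X → ℝ} {x : X} (c : ℝ) (hf : S.SmoothAt f x) :
    S.SmoothAt (fun y => c * f y) x :=
  fun _ he hx => contDiffAt_const.mul (hf _ he hx)

private theorem t08_smoothAt_const (c : ℝ) (x : X) : S.SmoothAt (fun _ => c) x :=
  fun _ _ _ => contDiffAt_const

private theorem t08_smoothAt_sum {ι : Type*} (s : Finset ι) {f : ι → X → ℝ} {x : X} (c : ι → ℝ)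
    (hf : ∀ i ∈ s, S.SmoothAt (f i) x) : S.SmoothAt (fun y => ∑ i ∈ s, c i * f i y) x := by
  intro e he hx
  have : ((fun y => ∑ i ∈ s, c i * f i y) ∘ e.symm) = fun w => ∑ i ∈ s, c i * (f i ∘ e.symm) w :=
    rfl
  rw [this]
  exact ContDiffAt.sum fun i hi => contDiffAt_const.mul (hf i hi e he hx)

private theorem t08_d_sum {ι : Type*} (s : Finset ι) {f : ι → X → ℝ} {x : X} (c : ι → ℝ)
    (hf : ∀ i ∈ s, S.SmoothAt (f i) x) :
    F.d (fun y => ∑ i ∈ s, c i * f i y) x = ∑ i ∈ s, (c i : ℂ) * F.d (f i) x := by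
  classical
  induction s using Finset.induction_on with
  | empty => simpa using t08_d_const F 0 x
  | insert a s ha ih =>
    have h1 : (fun y => ∑ i ∈ insert a s, c i * f i y) =
        fun y => c a * f a y + ∑ i ∈ s, c i * f i y := by
      funext y
      rw [Finset.sum_insert ha]
    rw [h1, t08_d_add F (t08_smoothAt_mul _ (hf a (Finset.mem_insert_self _ _)))
      (t08_smoothAt_sum s c fun i hi => hf i (Finset.mem_insert_of_mem hi)),
      t08_d_mul F _ (hf a (Finset.mem_insert_self _ _)),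
      ih fun i hi => hf i (Finset.mem_insert_of_mem hi), Finset.sum_insert ha]

end surf

/-! ### the logarithm of the absolute value -/

private theorem t08_contDiff_stp {a : ℝ} (ha : 0 < a) {ζ : ℂ} (hζ : ζ ≠ 0) :
    ContDiffAt ℝ ∞ (fun w => stp a (Real.log ‖w‖)) ζ := by
  have h1 : ContDiffAt ℝ ∞ (fun w : ℂ => ‖w‖) ζ := contDiffAt_norm ℝ hζ
  have h2 : ContDiffAt ℝ ∞ (fun w : ℂ => Real.log ‖w‖) ζ := h1.log (norm_ne_zero_iff.2 hζ)
  exact (stp_contDiff ha).contDiffAt.comp ζ h2

variable {X : Type} [TopologicalSpace X] [CompactSpace X] [T2Space X] {S : CS X}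
variable {e : OpenPartialHomeomorph X ℂ} {l a : ℝ}

omit [CompactSpace X] [T2Space X] in
private theorem t08_ne {x : X} (he : IsAnn S e l) (hx : x ∈ e.source) : e x ≠ 0 := by
  have h := e.map_source hx
  rw [he.2.2] at h
  have h1 := (Real.exp_pos (-l)).trans h.1
  exact norm_pos_iff.1 h1

/-- the standard lift -/
private noncomputable def t08_st (e : OpenPartialHomeomorph X ℂ) (a : ℝ) (x : X) : ℝ :=
  stp a (Real.log ‖e x‖)

omit [CompactSpace X] [T2Space X] in
private theorem t08_st_smooth (he : IsAnn S e l) (ha : 0 < a) {x : X} (hx : x ∈ e.source) :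
    S.SmoothAt (t08_st e a) x := by
  rw [CS.smoothAt_iff he.1 hx]
  refine (t08_contDiff_stp ha (t08_ne he hx)).congr_of_eventuallyEq ?_
  have h := e.eventually_right_inverse (e.map_source hx)
  filter_upwards [h] with w hw
  show stp a (Real.log ‖e (e.symm w)‖) = stp a (Real.log ‖w‖)
  rw [hw]

omit [CompactSpace X] [T2Space X] in
private theorem t08_st_lift (he : IsAnn S e l) (ha : 0 < a) {x : X} (hx : x ∈ e.source) :
    LiftAt (betaC e a) (t08_st e a) x := by
  refine ⟨(t08_st_smooth he ha hx).continuousAt, ?_⟩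
  filter_upwards [e.open_source.mem_nhds hx] with y hy
  exact betaC_eq hy

omit [CompactSpace X] [T2Space X] in
private theorem t08_be_st (F : Frame S) (he : IsAnn S e l) (ha : 0 < a) {x : X}
    (hx : x ∈ e.source) : F.be e a x = F.d (t08_st e a) x :=
  t08_dC_lift F (t08_st_lift he ha hx) (t08_st_smooth he ha hx)

omit [CompactSpace X] [T2Space X] in
private theorem t08_phi (F : Frame S) {x : X}
    (h : S.SmoothAt (phiE e a) x) : F.be e a x = F.d (phiE e a) x := by
  refine t08_dC_lift F ⟨h.continuousAt, ?_⟩ h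
  exact Filter.Eventually.of_forall fun y => rfl

omit [CompactSpace X] [T2Space X] in
private theorem t08_int {D : X → ℝ} {x : X} (hD : ContinuousAt D x)
    (h : ∀ᶠ y in 𝓝 x, ((D y : ℝ) : UnitAddCircle) = 0) : D =ᶠ[𝓝 x] fun _ => D x := by
  have h0 := h.self_of_nhds
  have key : ∀ r : ℝ, ((r : ℝ) : UnitAddCircle) = 0 → ∃ k : ℤ, r = k := by
    intro r hr
    obtain ⟨n, hn⟩ := AddCircle.coe_eq_zero_iff (1 : ℝ) |>.1 hr
    exact ⟨n, by rw [← hn]; simp⟩
  obtain ⟨k0, hk0⟩ := key _ h0
  have h1 : ∀ᶠ y in 𝓝 x, |D y - D x| < 1 := by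
    have := Metric.tendsto_nhds.1 hD.tendsto 1 one_pos
    simpa [Real.dist_eq] using this
  filter_upwards [h, h1] with y hy hy1
  obtain ⟨k, hk⟩ := key _ hy
  rw [hk, hk0] at hy1 ⊢
  have h2 : |((k - k0 : ℤ) : ℝ)| < 1 := by push_cast; exact hy1
  have h3 : |k - k0| < 1 := by exact_mod_cast h2
  have h4 : k - k0 = 0 := Int.abs_lt_one_iff.1 h3
  have h5 : k = k0 := by omega
  rw [h5]

omit [CompactSpace X] [T2Space X] in
/-- a continuous difference of a smooth circle map and an integral combination of smooth circle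
maps is smooth, and the forms add up -/
private theorem t08_comb (F : Frame S) {g : ℕ} {u v : Fin g → X → UnitAddCircle}
    (hu : ∀ j, S.SmoothC (u j)) (hv : ∀ j, S.SmoothC (v j)) {w : X → UnitAddCircle}
    (hw : S.SmoothC w) {m n : Fin g → ℤ} {f : X → ℝ} (hf : Continuous f)
    (h : ∀ x, w x = ∑ j, m j • u j x + ∑ j, n j • v j x + (f x : UnitAddCircle)) (x : X) :
    S.SmoothAt f x ∧ F.dC w x = F.lin u v (zV (Sum.elim m n)) x + F.d f x := by
  choose fu hfu hfu' using fun j => hu j x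
  choose fv hfv hfv' using fun j => hv j x
  obtain ⟨fw, hfw, hfw'⟩ := hw x
  have hsu : S.SmoothAt (fun y => ∑ j, (m j : ℝ) * fu j y) x :=
    t08_smoothAt_sum _ _ fun j _ => hfu' j
  have hsv : S.SmoothAt (fun y => ∑ j, (n j : ℝ) * fv j y) x :=
    t08_smoothAt_sum _ _ fun j _ => hfv' j
  set D : X → ℝ := fun y => f y + ((∑ j, (m j : ℝ) * fu j y) + (∑ j, (n j : ℝ) * fv j y)) - fw y
    with hDdef
  have hDc : ContinuousAt D x :=
    (hf.continuousAt.add (hsu.continuousAt.add hsv.continuousAt)).sub hfw.1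
  have hD0 : ∀ᶠ y in 𝓝 x, ((D y : ℝ) : UnitAddCircle) = 0 := by
    have h1 : ∀ᶠ y in 𝓝 x, ∀ j, u j y = (fu j y : UnitAddCircle) :=
      Filter.eventually_all.2 fun j => (hfu j).2
    have h2 : ∀ᶠ y in 𝓝 x, ∀ j, v j y = (fv j y : UnitAddCircle) :=
      Filter.eventually_all.2 fun j => (hfv j).2
    filter_upwards [h1, h2, hfw.2] with y hy1 hy2 hy3
    have h3 := h y
    rw [hy3] at h3
    have h4 : ∀ (c : Fin g → ℤ) (r : Fin g → ℝ),
        ((∑ j, (c j : ℝ) * r j : ℝ) : UnitAddCircle) = ∑ j, c j • ((r j : ℝ) : UnitAddCircle) := by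
      intro c r
      have h5 : ((∑ j, (c j : ℝ) * r j : ℝ) : UnitAddCircle) =
          ∑ j, (((c j : ℝ) * r j : ℝ) : UnitAddCircle) :=
        map_sum (QuotientAddGroup.mk' (AddSubgroup.zmultiples (1 : ℝ))) _ _
      rw [h5]
      refine Finset.sum_congr rfl fun j _ => ?_
      rw [← zsmul_eq_mul]
      exact AddCircle.coe_zsmul _
    have h6 : ((D y : ℝ) : UnitAddCircle) = ((f y : ℝ) : UnitAddCircle) +
        (((∑ j, (m j : ℝ) * fu j y : ℝ) : UnitAddCircle) +
          ((∑ j, (n j : ℝ) * fv j y : ℝ) : UnitAddCircle)) - ((fw y : ℝ) : UnitAddCircle) := by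
      rfl
    rw [h6, h4, h4, h3]
    simp only [hy1, hy2]
    abel
  have hD := t08_int hDc hD0
  have hfe : f =ᶠ[𝓝 x] fun y => fw y + ((-1) * (∑ j, (m j : ℝ) * fu j y) +
      ((-1) * (∑ j, (n j : ℝ) * fv j y) + D x)) := by
    filter_upwards [hD] with y hy
    have : D y = f y + ((∑ j, (m j : ℝ) * fu j y) + (∑ j, (n j : ℝ) * fv j y)) - fw y := rfl
    rw [← hy, this]
    ring
  have s1 := t08_smoothAt_mul (-1) hsu
  have s2 := t08_smoothAt_mul (-1) hsv
  have s3 := t08_smoothAt_const (S := S) (D x) x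
  have s4 := t08_smoothAt_add s2 s3
  have s5 := t08_smoothAt_add s1 s4
  have s6 := t08_smoothAt_add hfw' s5
  refine ⟨t08_smoothAt_congr hfe.symm s6, ?_⟩
  rw [t08_d_congr F hfe, t08_d_add F hfw' s5, t08_d_add F s1 s4, t08_d_add F s2 s3,
    t08_d_mul F _ hsu, t08_d_mul F _ hsv, t08_d_const, t08_dC_lift F hfw hfw',
    t08_d_sum F _ _ fun j _ => hfu' j, t08_d_sum F _ _ fun j _ => hfv' j]
  have h7 : F.lin u v (zV (Sum.elim m n)) x =
      ∑ j, (((m j : ℝ)) : ℂ) * F.d (fu j) x + ∑ j, (((n j : ℝ)) : ℂ) * F.d (fv j) x := by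
    unfold Frame.lin
    congr 1
    · refine Finset.sum_congr rfl fun j _ => ?_
      rw [t08_dC_lift F (hfu j) (hfu' j)]
      rfl
    · refine Finset.sum_congr rfl fun j _ => ?_
      rw [t08_dC_lift F (hfv j) (hfv' j)]
      rfl
  rw [h7]
  push_cast
  ring

omit [CompactSpace X] in
/-- change of the profile -/
private theorem t08_psi (he : IsAnn S e l) {a a' : ℝ} (ha : 0 < a) (hal : a < l)
    (ha' : 0 < a') (hal' : a' < l) (x : X) :
    S.SmoothAt (fun y => phiE e a y + (-1) * phiE e a' y) x := by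
  by_cases hx : x ∈ e.source
  · have h1 : (fun y => phiE e a y + (-1) * phiE e a' y) =ᶠ[𝓝 x]
        fun y => t08_st e a y + (-1) * t08_st e a' y := by
      filter_upwards [e.open_source.mem_nhds hx] with y hy
      unfold phiE t08_st
      rw [if_pos hy, if_pos hy]
      split_ifs <;> ring
    have s1 := t08_st_smooth he ha hx
    have s2 := t08_smoothAt_mul (-1) (t08_st_smooth he ha' hx)
    exact t08_smoothAt_congr h1.symm (t08_smoothAt_add s1 s2)
  · have hc : x ∉ core e := fun h => hx h.1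
    have s1 := (phiE_smooth he ha hal hc).self_of_nhds
    have s2 := (phiE_smooth he ha' hal' hc).self_of_nhds
    exact t08_smoothAt_add s1 (t08_smoothAt_mul (-1) s2)

section main

variable {X : Type} [TopologicalSpace X]

/-- the class of the annulus `e` of half length `l` is `b` (independent of the structure) -/
def AnnTop {g : ℕ} (u v : Fin g → X → UnitAddCircle) (e : OpenPartialHomeomorph X ℂ) (l : ℝ)
    (b : Fin g ⊕ Fin g → ℤ) : Prop :=
  ∀ a : ℝ, 0 < a → a < l → SameClass (comb u v b) (betaC e a)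

theorem annTop_exists [CompactSpace X] [T2Space X] {S : CS X} {e : OpenPartialHomeomorph X ℂ}
    {l : ℝ} {g : ℕ} {u v : Fin g → X → UnitAddCircle} (hB : SymplBasis S g u v)
    (he : IsAnn S e l) : ∃ b : Fin g ⊕ Fin g → ℤ, AnnTop u v e l b := by
  have hl : 0 < l := he.2.1
  have ha0 : 0 < l / 2 := by linarith
  have hal0 : l / 2 < l := by linarith
  have hs := betaC_smooth he ha0 hal0
  have hcont : Continuous (betaC e (l / 2)) := by
    rw [continuous_iff_continuousAt]
    intro x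
    obtain ⟨f, hf, -⟩ := hs x
    have h1 : ContinuousAt (fun y => ((f y : ℝ) : UnitAddCircle)) x :=
      (AddCircle.continuous_mk' (1 : ℝ)).continuousAt.comp hf.1
    exact h1.congr (hf.2.mono fun y hy => hy.symm)
  obtain ⟨m, n, f, hf, h⟩ := hB.gen _ hcont
  refine ⟨Sum.elim m n, fun a ha hal => ?_⟩
  refine ⟨fun y => f y + (phiE e a y + (-1) * phiE e (l / 2) y), ?_, fun x => ?_⟩
  · refine hf.add ?_
    rw [continuous_iff_continuousAt]
    intro x
    exact (t08_psi (S := S) he ha hal ha0 hal0 x).continuousAt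
  · have h1 : betaC e a x = betaC e (l / 2) x +
        ((phiE e a x + (-1) * phiE e (l / 2) x : ℝ) : UnitAddCircle) := by
      unfold betaC
      rw [← AddCircle.coe_add]
      congr 1
      ring
    have h2 : comb u v (Sum.elim m n) x = ∑ j, m j • u j x + ∑ j, n j • v j x := rfl
    have h3 : ((f x + (phiE e a x + (-1) * phiE e (l / 2) x) : ℝ) : UnitAddCircle) =
        ((f x : ℝ) : UnitAddCircle) +
          ((phiE e a x + (-1) * phiE e (l / 2) x : ℝ) : UnitAddCircle) := rfl
    show betaC e a x = comb u v (Sum.elim m n) x +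
      ((f x + (phiE e a x + (-1) * phiE e (l / 2) x) : ℝ) : UnitAddCircle)
    rw [h3, h1, h x, h2, add_assoc]

theorem AnnTop.annCls [CompactSpace X] [T2Space X] {S : CS X} (F : Frame S) (hF : F.Tame)
    {e : OpenPartialHomeomorph X ℂ} {l : ℝ} {g : ℕ} {u v : Fin g → X → UnitAddCircle}
    (hB : SymplBasis S g u v) (he : IsAnn S e l) {b : Fin g ⊕ Fin g → ℤ} (h : AnnTop u v e l b) :
    AnnCls F u v e l b := by
  intro a ha hal
  obtain ⟨f, hf, hfe⟩ := h a ha hal
  have hs := betaC_smooth he ha hal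
  have key := t08_comb F hB.smooth_u hB.smooth_v hs (m := fun j => b (Sum.inl j))
    (n := fun j => b (Sum.inr j)) hf (fun x => hfe x)
  refine ⟨f, fun x => (key x).1, fun x => ?_⟩
  have h2 := (key x).2
  have h3 : Sum.elim (fun j => b (Sum.inl j)) (fun j => b (Sum.inr j)) = b := by
    funext i
    cases i <;> rfl
  rw [h3] at h2
  exact h2

end main

end Pool.Agent.Lib.MP_cca10c_ag
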