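import Pool.Agent.Lib.MP_cca10c_ag.T07_Ind
import Pool.Agent.Lib.MP_cca10c_ag.T08_Class
import Pool.Agent.Lib.MP_cca10c_ag.T05_Osc
import Pool.Agent.Lib.MP_cca10c_ag.K03_Arc
import Pool.Agent.Lib.MP_cca10c_ag.K04_New
import Pool.Agent.Lib.MP_cca10c_ag.K05_Ener
import Pool.Agent.Lib.MP_cca10c_ag.K06_Restr

/-!
# Module K: state of the cutting process
-/

set_option autoImplicit false

open Topology Set MeasureTheory
open scoped ContDiff

namespace Pool.Agent.Lib.MP_cca10c_ag

/-- State of the cutting process: `k` disjoint annuli with independent classes `b i`, chosen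
greedily: classes outside the span of `b j`, `j < i`, have energy at least `c / l i`. -/
structure CutSt {X : Type} [TopologicalSpace X] (S : CS X) {g : ℕ}
    (u v : Fin g → X → UnitAddCircle) (Z : Matrix (Fin g) (Fin g) ℂ) {k : ℕ}
    (e : Fin k → OpenPartialHomeomorph X ℂ) (l : Fin k → ℝ) (b : Fin k → Fin g ⊕ Fin g → ℤ)
    (c : ℝ) : Prop where
  per : IsPeriod S u v Z
  ann : ∀ i, IsAnn S (e i) (l i)
  disj : Pairwise fun i j => Disjoint (e i).source (e j).source
  cls : ∀ i, AnnTop u v (e i) (l i) (b i)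
  ind : LinearIndependent ℝ fun i => zV (b i)
  greedy : ∀ i, ∀ x : Fin g ⊕ Fin g → ℤ,
    zV x ∉ Submodule.span ℝ (Set.range fun j : {j : Fin k // j < i} => zV (b j)) →
      c / l i ≤ QF (PZ Z) (zV x)

end Pool.Agent.Lib.MP_cca10c_ag
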