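import Pool.Agent.Lib.MP_cca10c_ag.K07_State
import Pool.Agent.Lib.MP_cca10c_ag.H28_Zeros

/-!
# Module K: a circle map of the form `h` and a free arc
-/

set_option autoImplicit false

open Topology Set MeasureTheory
open scoped ContDiff

namespace Pool.Agent.Lib.MP_cca10c_ag

private theorem K08b_zeros {X : Type} [TopologicalSpace X] [CompactSpace X] [T2Space X]
    [ConnectedSpace X] {S : CS X} (F : Frame S) (hF : F.Tame) {g : ℕ}
    {u v : Fin g → X → UnitAddCircle} (hB : SymplBasis S g u v) {h : X → ℂ} (hh : F.Hol h)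
    (h0 : h ≠ 0) : {p | h p = 0}.Finite ∧ {p | h p = 0}.ncard ≤ 2 * g - 1 := by
  have h1 : ∃ x, h x ≠ 0 := by
    by_contra hcon
    push Not at hcon
    exact h0 (funext hcon)
  have h2 : ∀ s : Finset X, (∀ p ∈ s, h p = 0) → s.card + 1 ≤ 2 * g := fun s hs =>
    card_zeros_le hF hB hh h1 s hs
  have hfin : {p | h p = 0}.Finite := by
    by_contra hinf
    obtain ⟨s, hs, hc⟩ := Set.Infinite.exists_subset_card_eq hinf (2 * g)
    have := h2 s (fun p hp => hs hp)
    omega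
  refine ⟨hfin, ?_⟩
  rw [Set.ncard_eq_toFinset_card _ hfin]
  have := h2 hfin.toFinset (fun p hp => by simpa using hp)
  omega

/-- `N = 4 g`, arc of length `1 / (16 g)`. Special intervals: the values of `W` at the zeros of `h`
(a nonzero harmonic form has at most `2 g - 1` zeros, helper76) and the images of the `2 k` half annuli
`{0 < ± log |ζ| ≤ l i - y0}`, of half length `C √(2g+1) exp (-y0) < 1 / (32 g)` by `osc_surf`; together at
most `4 g - 3`; `exists_free_arc`. -/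
theorem cut_arc (g : ℕ) (hg : 1 ≤ g) : ∃ y0 : ℝ, 1 ≤ y0 ∧ ∀ (k : ℕ), k < g →
    ∀ (X : Type) [TopologicalSpace X] [CompactSpace X] [ConnectedSpace X] [T2Space X]
      [MeasurableSpace X] [BorelSpace X] (S : CS X) (F : Frame S), F.Tame →
    ∀ (u v : Fin g → X → UnitAddCircle), SymplBasis S g u v →
    ∀ (e : Fin k → OpenPartialHomeomorph X ℂ) (l : Fin k → ℝ), (∀ i, IsAnn S (e i) (l i)) →
      (Pairwise fun i j => Disjoint (e i).source (e j).source) →
      (∀ i, 2 * y0 ≤ l i) → ∀ (h : X → ℂ), F.Hol h → F.en univ h ≤ 2 * g + 1 → h ≠ 0 →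
      (∀ i, ∀ a : ℝ, 0 < a → a < l i → F.ip h (F.be (e i) a) = 0) →
    ∀ W : X → UnitAddCircle, WMap F h e W → ∃ θ : ℝ,
      (∀ p, (∀ i, p ∉ core (e i)) → h p = 0 → ∀ τ : ℝ, 0 < τ → τ < 1 / (16 * g) →
        W p ≠ ((θ + τ : ℝ) : UnitAddCircle)) ∧
      ∀ i, ∀ p ∈ midA (e i) (l i - y0), p ∉ core (e i) → ∀ τ : ℝ, 0 < τ → τ < 1 / (16 * g) →
        W p ≠ ((θ + τ : ℝ) : UnitAddCircle) := by
  obtain ⟨C, hC, hosc⟩ := osc_surf
  have hg0 : (0 : ℝ) < g := by exact_mod_cast hg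
  -- choice of y0
  obtain ⟨y0, hy1, hy0⟩ : ∃ y0 : ℝ, 1 ≤ y0 ∧
      C * Real.sqrt (2 * g + 1) * Real.exp (-y0) < 1 / (32 * g) := by
    have h1 : Filter.Tendsto (fun y : ℝ => C * Real.sqrt (2 * g + 1) * Real.exp (-y)) Filter.atTop
        (𝓝 (C * Real.sqrt (2 * g + 1) * 0)) :=
      (Real.tendsto_exp_neg_atTop_nhds_zero).const_mul _
    rw [mul_zero] at h1
    have h2 : (0 : ℝ) < 1 / (32 * g) := by positivity
    obtain ⟨y, hy, hy'⟩ := ((h1.eventually (gt_mem_nhds h2)).and (Filter.eventually_ge_atTop 1)).exists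
    exact ⟨y, hy', hy⟩
  refine ⟨y0, hy1, ?_⟩
  intro k hk X _ _ _ _ _ _ S F hF u v hB e l he hd hl h hh hen h0 hip W hW
  obtain ⟨hfin, hcard⟩ := K08b_zeros F hF hB hh h0
  set δ : ℝ := C * Real.sqrt (2 * g + 1) * Real.exp (-y0) with hδ
  have hδ0 : 0 ≤ δ := by positivity
  -- the oscillation on the half annuli
  have hWi : ∀ i, ∀ x ∈ (e i).source, x ∉ core (e i) → ∃ f : X → ℝ, LiftAt W f x ∧
      S.SmoothNear f x ∧ ∀ᶠ y in 𝓝 x, h y = F.d f y := by
    intro i x hx hxc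
    refine hW x ?_
    intro j hj
    by_cases hji : j = i
    · subst hji
      exact hxc hj
    · exact Set.disjoint_left.1 (hd hji) hj.1 hx
  have hsg : ∀ b : Bool, ((if b then 1 else -1 : ℝ) = 1 ∨ (if b then 1 else -1 : ℝ) = -1) := by
    intro b
    cases b <;> simp
  have hyl : ∀ i, y0 < l i := fun i => by linarith [hl i]
  have H : ∀ i : Fin k, ∀ b : Bool, ∃ θ : ℝ, ∀ x ∈ (e i).source,
      0 < (if b then 1 else -1 : ℝ) * Real.log ‖e i x‖ →
      (if b then 1 else -1 : ℝ) * Real.log ‖e i x‖ ≤ l i - y0 →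
        ∃ s : ℝ, |s| ≤ C * Real.sqrt (F.en univ h) * Real.exp (-y0) ∧
          W x = ((θ + s : ℝ) : UnitAddCircle) := by
    intro i b
    have hli : 0 < l i := (he i).2.1
    exact hosc X S F hF (e i) (l i) (l i / 2) (he i) (by linarith) (by linarith) h hh
      (hip i (l i / 2) (by linarith) (by linarith)) W (hWi i) y0 hy1 (hyl i) _ (hsg b)
  choose θ1 hθ1 using H
  have hrep : ∀ p : X, ∃ r : ℝ, W p = (r : UnitAddCircle) := by
    intro p
    obtain ⟨r, hr⟩ := QuotientAddGroup.mk_surjective (W p)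
    exact ⟨r, hr.symm⟩
  choose r hr using hrep
  have : Finite {p | h p = 0} := hfin
  have : Fintype {p | h p = 0} := Fintype.ofFinite _
  have hN : 0 < 4 * g := by omega
  have hcd : Fintype.card ({p | h p = 0} ⊕ (Fin k × Bool)) ≤ 4 * g := by
    rw [Fintype.card_sum, Fintype.card_prod, Fintype.card_fin, Fintype.card_bool]
    have : Fintype.card {p | h p = 0} = {p | h p = 0}.ncard := by
      rw [← Nat.card_eq_fintype_card, Nat.card_coe_set_eq]
    rw [this]
    omega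
  obtain ⟨θ, hθ⟩ := exists_free_arc (4 * g) hN hcd
    (Sum.elim (fun p => r p) (fun ib => θ1 ib.1 ib.2)) δ (by
      have : (8 * ((4 * g : ℕ) : ℝ)) = 32 * g := by push_cast; ring
      rw [this]
      exact hy0)
  have h4 : (1 : ℝ) / (4 * ((4 * g : ℕ) : ℝ)) = 1 / (16 * g) := by push_cast; ring
  rw [h4] at hθ
  refine ⟨θ, ?_, ?_⟩
  · intro p _ hp τ hτ hτ'
    have h5 := hθ (Sum.inl ⟨p, hp⟩) 0 (by rw [abs_zero]; exact hδ0) τ hτ hτ'
    rw [hr p]
    simpa using h5
  · intro i p hp hpc τ hτ hτ'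
    have hne : Real.log ‖e i p‖ ≠ 0 := by
      intro h6
      apply hpc
      refine ⟨hp.1, ?_⟩
      have hpos : 0 < ‖e i p‖ := by
        have h7 := (e i).map_source hp.1
        rw [(he i).2.2] at h7
        exact (Real.exp_pos _).trans h7.1
      exact Real.eq_one_of_pos_of_log_eq_zero hpos h6
    have hle : C * Real.sqrt (F.en univ h) * Real.exp (-y0) ≤ δ := by
      rw [hδ]
      gcongr
    have key : ∃ b : Bool, 0 < (if b then 1 else -1 : ℝ) * Real.log ‖e i p‖ ∧
        (if b then 1 else -1 : ℝ) * Real.log ‖e i p‖ ≤ l i - y0 := by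
      have habs := hp.2
      rcases lt_or_gt_of_ne hne with h8 | h8
      · refine ⟨false, ?_, ?_⟩
        · simpa using h8
        · rw [abs_of_neg h8] at habs
          simpa using habs
      · refine ⟨true, ?_, ?_⟩
        · simpa using h8
        · rw [abs_of_pos h8] at habs
          simpa using habs
    obtain ⟨b, hb1, hb2⟩ := key
    obtain ⟨s, hs, hWs⟩ := hθ1 i b p hp.1 hb1 hb2
    have h5 := hθ (Sum.inr (i, b)) s (hs.trans hle) τ hτ hτ'
    rw [hWs]
    exact h5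

end Pool.Agent.Lib.MP_cca10c_ag
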