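import Pool.Agent.Lib.MP_cca10c_ag.K08a_Form
import Pool.Agent.Lib.MP_cca10c_ag.K08b_Arc
import Pool.Agent.Lib.MP_cca10c_ag.H21_Hodge
import Pool.Agent.Lib.MP_cca10c_ag.H23_Period

/-!
# Module K: one more annulus

Section (K3) of the paper, a) to f). `cut_form`, `exists_WMap`, `cut_arc`, `WMap_surj`, `new_annulus`
(`δ = 1 / (16 g)`, `t i = l i - y0`), `new_annulus_co`, `en_ge_of_co`, `ip_of_co` (independence: the product
with `h` vanishes for the old classes, not for the new one); restrict the old annuli (`ann_restr`) to the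
half lengths `l i - y0`. Greedy property of the new index: for `x'` outside the span of the old classes,
if `om x' (b i) ≠ 0` for some `i` then `1 ≤ QF x' * QF (b i)` (Cauchy–Schwarz for the symplectic form)
and `ann_class_energy`; otherwise the last statement of `cut_form`.
-/

set_option autoImplicit false

open Topology Set MeasureTheory
open scoped ContDiff

namespace Pool.Agent.Lib.MP_cca10c_ag

/-- the part of the step before the bookkeeping -/
theorem cut_new (g : ℕ) (hg : 1 ≤ g) : ∃ y0 : ℝ, 1 ≤ y0 ∧ ∀ (k : ℕ), k < g →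
    ∀ (X : Type) [TopologicalSpace X] [CompactSpace X] [ConnectedSpace X] [T2Space X]
      [MeasurableSpace X] [BorelSpace X] (S : CS X) (F : Frame S), F.Tame →
    ∀ (u v : Fin g → X → UnitAddCircle) (Z : Matrix (Fin g) (Fin g) ℂ)
      (e : Fin k → OpenPartialHomeomorph X ℂ) (l : Fin k → ℝ) (b : Fin k → Fin g ⊕ Fin g → ℤ)
      (c : ℝ), CutSt S u v Z e l b c → (∀ i, 2 * y0 ≤ l i) →
      ∃ (h : X → ℂ) (e' : OpenPartialHomeomorph X ℂ) (l' : ℝ), IsAnn S e' l' ∧
        (∀ i, Disjoint e'.source (midA (e i) (l i - y0))) ∧ F.Hol h ∧ F.Closed h ∧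
        F.en univ h ≤ 2 * g + 1 ∧ Real.pi * (1 / (32 * g)) ^ 2 / l' ≤ F.en univ h ∧
        (∀ i, ∀ a : ℝ, 0 < a → a < l i → F.ip h (F.be (e i) a) = 0) ∧
        (∀ a : ℝ, 0 < a → a < l' → F.ip h (F.be e' a) ≠ 0) ∧
        ∀ y : Fin g ⊕ Fin g → ℤ, (∀ i, om (zV y) (zV (b i)) = 0) →
          zV y ∉ Submodule.span ℝ (Set.range fun i => zV (b i)) →
            F.en univ h ≤ QF (PZ Z) (zV y) := by
  obtain ⟨y0, hy1, harc⟩ := cut_arc g hg
  have hg0 : (1 : ℝ) ≤ g := by exact_mod_cast hg
  refine ⟨y0, hy1, ?_⟩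
  intro k hk X _ _ _ _ _ _ S F hF u v Z e l b c hst hl
  obtain ⟨x, t, h, hhol, hcl, hcls, hspan, hen, hip, hmin⟩ := cut_form hk F hF hst
  have hB : SymplBasis S g u v := hst.per.1
  have hb : ∀ i, AnnCls F u v (e i) (l i) (b i) := fun i =>
    (hst.cls i).annCls F hF hB (hst.ann i)
  have h0 : h ≠ 0 := by
    rintro rfl
    apply hspan
    have h1 : F.Cls u v (F.d (fun _ => (0 : ℝ))) (fun _ => 0) :=
      Frame.Cls.exact (fun _ => CS.SmoothAt.const 0)
    have h2 : F.d (fun _ => (0 : ℝ)) = (0 : X → ℂ) := funext fun p => F.d_const 0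
    rw [h2] at h1
    have h3 := Frame.Cls.unique hB hF hcls h1
    rw [h3]
    exact Submodule.zero_mem _
  obtain ⟨W, hW⟩ := exists_WMap F hF hB hst.ann hb x t hcls
  obtain ⟨θ, hθ1, hθ2⟩ := harc k hk X S F hF u v hB e l hst.ann hst.disj hl h hhol hen h0 hip W hW
  set δ : ℝ := 1 / (16 * g) with hδ
  have hδ0 : 0 < δ := by positivity
  have hδ1 : δ < 1 := by
    rw [hδ, div_lt_one (by positivity)]
    linarith
  obtain ⟨p, hp1, hp2⟩ := WMap_surj F hF hB hst.ann hst.disj hb hcls hcl hspan hW
    ((θ + δ / 2 : ℝ) : UnitAddCircle)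
  obtain ⟨l', e', he', hdis, hWe⟩ := new_annulus F hF hst.ann (t := fun i => l i - y0)
    (fun i => by linarith [hl i]) (fun i => by linarith) hhol hW (θ := θ) (δ := δ) hδ0 hδ1
    hθ1 hθ2 ⟨p, hp1, hp2⟩
  have hl' : 0 < l' := he'.2.1
  have hcore : ∀ i, Disjoint e'.source (core (e i)) := by
    intro i
    refine (hdis i).mono_right ?_
    rintro q ⟨hq, hq'⟩
    refine ⟨hq, ?_⟩
    rw [hq', Real.log_one, abs_zero]
    linarith [hl i]
  have hco : ∀ ζ ∈ e'.target, F.co e' h ζ = ((δ / (4 * l') : ℝ) : ℂ) / ζ := fun ζ hζ =>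
    new_annulus_co F hF hW (θ := θ + δ / 2) he' hcore hWe hζ
  refine ⟨h, e', l', he', hdis, hhol, hcl, hen, ?_, hip, ?_, hmin⟩
  · have h4 := en_ge_of_co F hF he' hhol hco
    refine le_trans (le_of_eq ?_) h4
    rw [hδ]
    field_simp
    ring
  · intro a ha hal
    rw [ip_of_co F hF he' hhol hco ha hal]
    have h5 : (0 : ℝ) < 2 * Real.pi * (δ / (4 * l')) := by positivity
    have h6 : (2 * (Real.pi : ℂ) * ((δ / (4 * l') : ℝ) : ℂ)) =
        ((2 * Real.pi * (δ / (4 * l')) : ℝ) : ℂ) := by push_cast; ring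
    rw [h6]
    exact_mod_cast h5.ne'

/-- the product with a harmonic form vanishes for the classes in the span -/
private theorem K08_span {X : Type} [TopologicalSpace X] [CompactSpace X] [T2Space X]
    [MeasurableSpace X] [BorelSpace X] {S : CS X} (F : Frame S) (hF : F.Tame) {g : ℕ}
    {u v : Fin g → X → UnitAddCircle} (hB : SymplBasis S g u v) {h : X → ℂ} (hh : F.Hol h)
    {ι : Type*} {B : ι → Fin g ⊕ Fin g → ℝ} {β : ι → X → ℂ} (hβ : ∀ i, F.Cls u v (β i) (B i))
    (h0 : ∀ i, F.ip h (β i) = 0) {y : Fin g ⊕ Fin g → ℝ} {α : X → ℂ} (hα : F.Cls u v α y)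
    (hy : y ∈ Submodule.span ℝ (Set.range B)) : F.ip h α = 0 := by
  have hm : ∀ x, MemLp (F.harm u v x) 2 F.nu := fun x =>
    (Frame.Hol.closed (Frame.hol_harm hB hF x)).memLp hF
  have hmh : MemLp h 2 F.nu := hh.closed.memLp hF
  let L : (Fin g ⊕ Fin g → ℝ) →ₗ[ℝ] ℂ :=
    { toFun := fun y => F.ip (F.harm u v y) h
      map_add' := by
        intro x y
        have h1 := Frame.harm_add hB hF (x := x) (y := y)
        have h2 : F.harm u v (x + y) = fun p => F.harm u v x p + F.harm u v y p := h1
        rw [h2, Frame.ip_add_left (hm x) (hm y) hmh]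
      map_smul' := by
        intro c x
        have h1 := Frame.harm_mul hB hF (x := x) c
        have h2 : F.harm u v (c • x) = fun p => (c : ℂ) * F.harm u v x p := h1
        rw [h2, Frame.ip_const_mul_left]
        simp }
  have hL : ∀ (y : Fin g ⊕ Fin g → ℝ) (α : X → ℂ), F.Cls u v α y →
      L y = starRingEnd ℂ (F.ip h α) := by
    intro y α hα
    show F.ip (F.harm u v y) h = _
    rw [← Frame.ip_harm hB hF hα hh, Frame.ip_conj_symm]
  have hker : Submodule.span ℝ (Set.range B) ≤ LinearMap.ker L := by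
    rw [Submodule.span_le]
    rintro _ ⟨i, rfl⟩
    show L (B i) = 0
    rw [hL _ _ (hβ i), h0 i, map_zero]
  have h1 : L y = 0 := hker hy
  rw [hL _ _ hα] at h1
  simpa using h1

theorem cut_step (g : ℕ) (hg : 1 ≤ g) : ∃ (y0 c0 : ℝ), 0 < c0 ∧ 1 ≤ y0 ∧ ∀ (k : ℕ), k < g →
    ∀ (X : Type) [TopologicalSpace X] [CompactSpace X] [ConnectedSpace X] [T2Space X] (S : CS X)
      (u v : Fin g → X → UnitAddCircle) (Z : Matrix (Fin g) (Fin g) ℂ)
      (e : Fin k → OpenPartialHomeomorph X ℂ) (l : Fin k → ℝ) (b : Fin k → Fin g ⊕ Fin g → ℤ)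
      (c : ℝ), 0 < c → CutSt S u v Z e l b c → (∀ i, 2 * y0 ≤ l i) →
      ∃ (e' : Fin (k + 1) → OpenPartialHomeomorph X ℂ) (l' : Fin (k + 1) → ℝ)
        (b' : Fin (k + 1) → Fin g ⊕ Fin g → ℤ),
        CutSt S u v Z e' l' b' (min (c / 2) c0) ∧ (∀ i : Fin k, l' i.castSucc = l i - y0) ∧
        (∀ i : Fin k, b' i.castSucc = b i) ∧ c0 ≤ l' (Fin.last k) := by
  obtain ⟨y0, hy1, hnew⟩ := cut_new g hg
  obtain ⟨C, hC, hE⟩ := ann_class_energy
  have hg0 : (1 : ℝ) ≤ g := by exact_mod_cast hg
  set m : ℝ := Real.pi * (1 / (32 * g)) ^ 2 with hm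
  have hm0 : 0 < m := by positivity
  set m1 : ℝ := m / (2 * g + 1) with hm1
  have hm10 : 0 < m1 := by positivity
  refine ⟨y0, min m (min m1 (m1 / C)), by positivity, hy1, ?_⟩
  set c0 : ℝ := min m (min m1 (m1 / C)) with hc0
  have hc00 : 0 < c0 := by positivity
  have hc1 : c0 ≤ m := min_le_left _ _
  have hc2 : c0 ≤ m1 := (min_le_right _ _).trans (min_le_left _ _)
  have hc3 : c0 ≤ m1 / C := (min_le_right _ _).trans (min_le_right _ _)
  intro k hk X _ _ _ _ S u v Z e l b c hc hst hl
  let _ : MeasurableSpace X := borel X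
  have : BorelSpace X := ⟨rfl⟩
  obtain ⟨F, hF⟩ := S.exists_tame
  obtain ⟨h, en, ln, hen, hdis, hhol, hcl, hE1, hE2, hip, hipn, hmin⟩ :=
    hnew k hk X S F hF u v Z e l b c hst hl
  have hB : SymplBasis S g u v := hst.per.1
  have hln : 0 < ln := hen.2.1
  obtain ⟨bn, hbn⟩ := annTop_exists hB hen
  have hr : ∀ i, ∃ e' : OpenPartialHomeomorph X ℂ, IsAnn S e' (l i - y0) ∧
      e'.source = {x | x ∈ (e i).source ∧ |Real.log ‖e i x‖| < l i - y0} ∧
      (∀ x ∈ e'.source, e' x = e i x) ∧
      core e' = core (e i) ∧ (∀ a : ℝ, 0 < a → a < l i - y0 → ∀ x, betaC e' a x = betaC (e i) a x) ∧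
      ∀ a : ℝ, 0 < a → a < l i - y0 → ∀ x, phiE e' a x = phiE (e i) a x := fun i =>
    ann_restr (hst.ann i) (by linarith [hl i]) (by linarith)
  choose e1 he1 hsrc _ _ hbeta _ using hr
  have hlnm : m1 ≤ ln := by
    have h1 : m / ln ≤ 2 * g + 1 := hE2.trans hE1
    rw [div_le_iff₀ hln] at h1
    rw [hm1, div_le_iff₀ (by positivity)]
    linarith
  have hcls1 : ∀ i, AnnTop u v (e1 i) (l i - y0) (b i) := by
    intro i a ha hal
    have h1 : betaC (e1 i) a = betaC (e i) a := funext (hbeta i a ha hal)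
    rw [h1]
    exact hst.cls i a ha (by linarith)
  have hcard : ∀ i : Fin k, 0 < l i - y0 := fun i => by linarith [hl i]
  -- independence
  have hnot : zV bn ∉ Submodule.span ℝ (Set.range fun i => zV (b i)) := by
    intro hmem
    refine hipn (ln / 2) (by linarith) (by linarith) ?_
    exact K08_span F hF hB hhol (B := fun i => zV (b i)) (β := fun i => F.be (e i) (l i / 2))
      (fun i => (hst.cls i).annCls F hF hB (hst.ann i) (l i / 2)
        (by linarith [(hst.ann i).2.1]) (by linarith [(hst.ann i).2.1]))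
      (fun i => hip i (l i / 2) (by linarith [(hst.ann i).2.1]) (by linarith [(hst.ann i).2.1]))
      (hbn.annCls F hF hB hen (ln / 2) (by linarith) (by linarith)) hmem
  refine ⟨Fin.snoc e1 en, Fin.snoc (fun i => l i - y0) ln, Fin.snoc b bn, ?_, ?_, ?_, ?_⟩
  · refine ⟨hst.per, ?_, ?_, ?_, ?_, ?_⟩
    · intro i
      refine Fin.lastCases ?_ (fun i => ?_) i
      · simpa using hen
      · simpa using he1 i
    · have hd1 : ∀ i, Disjoint (e1 i).source en.source := by
        intro i
        refine ((hdis i).mono_right ?_).symm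
        rw [hsrc i]
        rintro q ⟨hq, hq'⟩
        exact ⟨hq, hq'.le⟩
      have hd2 : ∀ i j, i ≠ j → Disjoint (e1 i).source (e1 j).source := by
        intro i j hij
        refine (hst.disj hij).mono ?_ ?_
        · rw [hsrc i]
          exact fun q hq => hq.1
        · rw [hsrc j]
          exact fun q hq => hq.1
      intro i j hij
      revert hij
      refine Fin.lastCases ?_ (fun i => ?_) i
      · refine Fin.lastCases ?_ (fun j => ?_) j
        · intro hij
          exact absurd rfl hij
        · intro _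
          simpa using (hd1 j).symm
      · refine Fin.lastCases ?_ (fun j => ?_) j
        · intro _
          simpa using hd1 i
        · intro hij
          have hij' : i ≠ j := fun h => hij (by rw [h])
          simpa using hd2 i j hij'
    · intro i
      refine Fin.lastCases ?_ (fun i => ?_) i
      · simpa using hbn
      · simpa using hcls1 i
    · have h1 : (fun i => zV ((Fin.snoc b bn : Fin (k + 1) → Fin g ⊕ Fin g → ℤ) i)) =
          (Fin.snoc (fun i => zV (b i)) (zV bn) : Fin (k + 1) → Fin g ⊕ Fin g → ℝ) := by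
        funext i
        refine Fin.lastCases ?_ (fun i => ?_) i
        · simp
        · simp
      rw [h1]
      exact linearIndependent_finSnoc.2 ⟨hst.ind, hnot⟩
    · intro i
      refine Fin.lastCases ?_ (fun i => ?_) i
      · intro x hx
        have hsub : Submodule.span ℝ (Set.range fun i => zV (b i)) ≤
            Submodule.span ℝ (Set.range fun j : {j : Fin (k + 1) // j < Fin.last k} =>
              zV ((Fin.snoc b bn : Fin (k + 1) → Fin g ⊕ Fin g → ℤ) j)) := by
          refine Submodule.span_mono ?_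
          rintro _ ⟨j, rfl⟩
          refine ⟨⟨j.castSucc, Fin.castSucc_lt_last j⟩, ?_⟩
          simp
        have hx' : zV x ∉ Submodule.span ℝ (Set.range fun i => zV (b i)) := fun h => hx (hsub h)
        rw [Fin.snoc_last]
        by_cases hom : ∀ i, om (zV x) (zV (b i)) = 0
        · calc min (c / 2) c0 / ln ≤ m / ln := by
                gcongr
                exact (min_le_right _ _).trans hc1
            _ ≤ F.en univ h := hE2
            _ ≤ _ := hmin x hom hx'
        · push Not at hom
          obtain ⟨i, hi⟩ := hom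
          have h2 : ∃ n : ℤ, om (zV x) (zV (b i)) = n := by
            refine ⟨∑ j, (x (Sum.inl j) * b i (Sum.inr j) - x (Sum.inr j) * b i (Sum.inl j)), ?_⟩
            unfold om zV
            push_cast
            rfl
          obtain ⟨n, hn⟩ := h2
          have h3 : (1 : ℝ) ≤ om (zV x) (zV (b i)) ^ 2 := by
            have hn0 : n ≠ 0 := by
              rintro rfl
              exact hi (by rw [hn]; simp)
            rw [hn]
            have : (1 : ℤ) ≤ n ^ 2 := by
              have := sq_pos_of_ne_zero hn0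
              omega
            exact_mod_cast this
          have h4 := hst.per.om_sq_le (zV x) (zV (b i))
          have h5 : QF (PZ Z) (zV (b i)) ≤ C / l i := hE g X S u v Z hst.per (e i) (l i)
            (hst.ann i) (b i) (hst.cls i)
          have hli : 1 ≤ l i := by linarith [hl i]
          have h6 : C / l i ≤ C := div_le_self hC.le hli
          have h7 : 0 < QF (PZ Z) (zV (b i)) ∧ 0 < QF (PZ Z) (zV x) := by
            have h8 : 0 < QF (PZ Z) (zV x) * QF (PZ Z) (zV (b i)) := by linarith
            have h9 : 0 ≤ QF (PZ Z) (zV x) := by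
              rw [hst.per.quad hF]
              exact Frame.en_nonneg _
            have h10 : 0 ≤ QF (PZ Z) (zV (b i)) := by
              rw [hst.per.quad hF]
              exact Frame.en_nonneg _
            rcases (mul_pos_iff.1 h8) with h | h
            · exact ⟨h.2, h.1⟩
            · exact absurd h.1 (not_lt.2 h9)
          have h8 : 1 / C ≤ QF (PZ Z) (zV x) := by
            rw [div_le_iff₀ hC]
            calc (1 : ℝ) ≤ QF (PZ Z) (zV x) * QF (PZ Z) (zV (b i)) := h3.trans h4
              _ ≤ QF (PZ Z) (zV x) * C := by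
                gcongr
                · exact h7.2.le
                · exact h5.trans h6
          calc min (c / 2) c0 / ln ≤ (m1 / C) / m1 := by
                gcongr
                exact (min_le_right _ _).trans hc3
            _ = 1 / C := by field_simp
            _ ≤ _ := h8
      · intro x hx
        have hsub : Submodule.span ℝ (Set.range fun j : {j : Fin k // j < i} => zV (b j)) ≤
            Submodule.span ℝ (Set.range fun j : {j : Fin (k + 1) // j < i.castSucc} =>
              zV ((Fin.snoc b bn : Fin (k + 1) → Fin g ⊕ Fin g → ℤ) j)) := by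
          refine Submodule.span_mono ?_
          rintro _ ⟨j, rfl⟩
          refine ⟨⟨j.1.castSucc, Fin.castSucc_lt_castSucc_iff.2 j.2⟩, ?_⟩
          simp
        have hx' := hst.greedy i x (fun h => hx (hsub h))
        rw [Fin.snoc_castSucc]
        have h1 : l i / 2 ≤ l i - y0 := by linarith [hl i]
        have h2 : 0 < l i := by linarith [hl i]
        calc min (c / 2) c0 / (l i - y0) ≤ (c / 2) / (l i / 2) := by
              gcongr
              exact min_le_left _ _
          _ = c / l i := by field_simp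
          _ ≤ _ := hx'
  · intro i
    simp
  · intro i
    simp
  · rw [Fin.snoc_last]
    exact hc2.trans hlnm

end Pool.Agent.Lib.MP_cca10c_ag
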