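import Pool.Agent.Lib.MP_cca10c_ag.P00_Defs

/-! Module P: the matrix `PZ Z`. -/

set_option autoImplicit false

open Topology Set Matrix
open scoped ENNReal

namespace Pool.Agent.Lib.MP_cca10c_ag

private theorem P01_X {g : ℕ} {Z : Matrix (Fin g) (Fin g) ℂ} (hZ : Z ∈ Siegel g) :
    (Z.map Complex.re)ᵀ = Z.map Complex.re := by
  rw [← Matrix.transpose_map, hZ.1]

private theorem P01_Y {g : ℕ} {Z : Matrix (Fin g) (Fin g) ℂ} (hZ : Z ∈ Siegel g) :
    (Z.map Complex.im)ᵀ = Z.map Complex.im := by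
  rw [← Matrix.transpose_map, hZ.1]

private theorem P01_V {g : ℕ} {Z : Matrix (Fin g) (Fin g) ℂ} (hZ : Z ∈ Siegel g) :
    ((Z.map Complex.im)⁻¹)ᵀ = (Z.map Complex.im)⁻¹ := by
  rw [Matrix.transpose_nonsing_inv, P01_Y hZ]

private theorem P01_det {g : ℕ} {Z : Matrix (Fin g) (Fin g) ℂ} (hZ : Z ∈ Siegel g) :
    IsUnit (Z.map Complex.im).det :=
  (Matrix.isUnit_iff_isUnit_det _).1 hZ.2.isUnit

private theorem P01_eq {g : ℕ} (Z : Matrix (Fin g) (Fin g) ℂ) :
    PZ Z = Matrix.fromBlocks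
      (Z.map Complex.im + Z.map Complex.re * (Z.map Complex.im)⁻¹ * Z.map Complex.re)
      (-(Z.map Complex.re * (Z.map Complex.im)⁻¹)) (-((Z.map Complex.im)⁻¹ * Z.map Complex.re))
      (Z.map Complex.im)⁻¹ := rfl

theorem QF_PZ {g : ℕ} (Z : Matrix (Fin g) (Fin g) ℂ) (m n : Fin g → ℝ) (hZ : Z ∈ Siegel g) :
    QF (PZ Z) (Sum.elim m n) = m ⬝ᵥ ((Z.map Complex.im) *ᵥ m) +
      (n - (Z.map Complex.re) *ᵥ m) ⬝ᵥ ((Z.map Complex.im)⁻¹ *ᵥ (n - (Z.map Complex.re) *ᵥ m)) := by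
  have hX := P01_X hZ
  unfold QF
  rw [P01_eq]
  generalize (Z.map Complex.im)⁻¹ = V
  generalize Z.map Complex.im = Y
  generalize Z.map Complex.re = X at hX
  have hXs : ∀ a b : Fin g → ℝ, (X *ᵥ a) ⬝ᵥ b = a ⬝ᵥ (X *ᵥ b) := by
    intro a b
    rw [Matrix.dotProduct_mulVec, ← Matrix.mulVec_transpose, hX]
  simp only [Matrix.fromBlocks_mulVec, Sum.elim_comp_inl, Sum.elim_comp_inr,
    sumElim_dotProduct_sumElim, Matrix.add_mulVec, Matrix.neg_mulVec, Matrix.mulVec_sub,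
    dotProduct_add, dotProduct_sub, sub_dotProduct, dotProduct_neg, ← Matrix.mulVec_mulVec, hXs]
  ring

private theorem P01_symm {g : ℕ} {Z : Matrix (Fin g) (Fin g) ℂ} (hZ : Z ∈ Siegel g) :
    (PZ Z)ᵀ = PZ Z := by
  have hX := P01_X hZ
  have hY := P01_Y hZ
  have hV := P01_V hZ
  rw [P01_eq]
  generalize (Z.map Complex.im)⁻¹ = V at hV
  generalize Z.map Complex.im = Y at hY
  generalize Z.map Complex.re = X at hX
  simp only [Matrix.fromBlocks_transpose, Matrix.transpose_add, Matrix.transpose_mul,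
    Matrix.transpose_neg, hX, hY, hV, Matrix.mul_assoc]

theorem PZ_posDef {g : ℕ} {Z : Matrix (Fin g) (Fin g) ℂ} (hZ : Z ∈ Siegel g) : (PZ Z).PosDef := by
  refine Matrix.PosDef.of_dotProduct_mulVec_pos ?_ ?_
  · unfold Matrix.IsHermitian
    rw [Matrix.conjTranspose_eq_transpose_of_trivial]
    exact P01_symm hZ
  · intro x hx
    rw [star_trivial]
    have h1 := QF_PZ Z (x ∘ Sum.inl) (x ∘ Sum.inr) hZ
    rw [Sum.elim_comp_inl_inr] at h1
    have h2 : x ⬝ᵥ (PZ Z *ᵥ x) = QF (PZ Z) x := rfl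
    rw [h2, h1]
    have hY : ∀ m : Fin g → ℝ, 0 ≤ m ⬝ᵥ ((Z.map Complex.im) *ᵥ m) := by
      intro m
      have := hZ.2.posSemidef.dotProduct_mulVec_nonneg m
      rwa [star_trivial] at this
    have hV : ∀ m : Fin g → ℝ, 0 ≤ m ⬝ᵥ ((Z.map Complex.im)⁻¹ *ᵥ m) := by
      intro m
      have := hZ.2.inv.posSemidef.dotProduct_mulVec_nonneg m
      rwa [star_trivial] at this
    by_cases hm : x ∘ Sum.inl = 0
    · have hn : x ∘ Sum.inr ≠ 0 := by
        intro hn
        apply hx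
        rw [← Sum.elim_comp_inl_inr x, hm, hn]
        funext i
        rcases i with i | i <;> rfl
      rw [hm]
      simp only [Matrix.mulVec_zero, sub_zero, dotProduct_zero, zero_add]
      have := hZ.2.inv.dotProduct_mulVec_pos hn
      rwa [star_trivial] at this
    · have h3 := hZ.2.dotProduct_mulVec_pos hm
      rw [star_trivial] at h3
      have h4 := hV (x ∘ Sum.inr - (Z.map Complex.re) *ᵥ (x ∘ Sum.inl))
      linarith

set_option linter.unusedSimpArgs false in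
theorem PZ_symp {g : ℕ} {Z : Matrix (Fin g) (Fin g) ℂ} (hZ : Z ∈ Siegel g) :
    PZ Z ∈ Matrix.symplecticGroup (Fin g) ℝ := by
  rw [SymplecticGroup.mem_iff, P01_symm hZ]
  have h1 : (Z.map Complex.im) * (Z.map Complex.im)⁻¹ = 1 := Matrix.mul_nonsing_inv _ (P01_det hZ)
  have h2 : (Z.map Complex.im)⁻¹ * (Z.map Complex.im) = 1 := Matrix.nonsing_inv_mul _ (P01_det hZ)
  rw [P01_eq]
  unfold Matrix.J
  generalize (Z.map Complex.im)⁻¹ = V at h1 h2
  generalize Z.map Complex.im = Y at h1 h2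
  generalize Z.map Complex.re = X
  simp only [Matrix.fromBlocks_multiply]
  have h3 : ∀ A : Matrix (Fin g) (Fin g) ℝ, V * (Y * A) = A := by
    intro A
    rw [← Matrix.mul_assoc, h2, Matrix.one_mul]
  have h4 : ∀ A : Matrix (Fin g) (Fin g) ℝ, Y * (V * A) = A := by
    intro A
    rw [← Matrix.mul_assoc, h1, Matrix.one_mul]
  congr 1
  · simp only [Matrix.mul_zero, Matrix.zero_mul, Matrix.mul_one, Matrix.mul_neg, Matrix.neg_mul,
      Matrix.mul_add, Matrix.add_mul, Matrix.mul_assoc, h3, h4, zero_add, add_zero, h2]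
    abel
  · simp only [Matrix.mul_zero, Matrix.zero_mul, Matrix.mul_one, Matrix.mul_neg, Matrix.neg_mul,
      Matrix.mul_add, Matrix.add_mul, Matrix.mul_assoc, h3, h4, zero_add, add_zero, h1]
    abel
  · simp only [Matrix.mul_zero, Matrix.zero_mul, Matrix.mul_one, Matrix.mul_neg, Matrix.neg_mul,
      Matrix.mul_add, Matrix.add_mul, Matrix.mul_assoc, h3, h4, zero_add, add_zero, h2]
    abel
  · simp only [Matrix.mul_zero, Matrix.zero_mul, Matrix.mul_one, Matrix.mul_neg, Matrix.neg_mul,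
      Matrix.mul_add, Matrix.add_mul, Matrix.mul_assoc, h3, h4, zero_add, add_zero]
    abel

end Pool.Agent.Lib.MP_cca10c_ag
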