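import Pool.Agent.Lib.MP_cca10c_ag.K07_State
import Pool.Agent.Lib.MP_cca10c_ag.K01c_Min
import Pool.Agent.Lib.MP_cca10c_ag.P01_PZ
import Pool.Agent.Lib.MP_cca10c_ag.H23_Period

/-!
# Module K: the harmonic form without flux and period through the old annuli
-/

set_option autoImplicit false

open Topology Set MeasureTheory
open scoped ContDiff

namespace Pool.Agent.Lib.MP_cca10c_ag

section facts

variable {X : Type} [TopologicalSpace X] [CompactSpace X] [T2Space X] [MeasurableSpace X]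
  [BorelSpace X] {S : CS X} (F : Frame S) {g : ℕ} {u v : Fin g → X → UnitAddCircle}

private theorem k8_harm (hF : F.Tame) (hB : SymplBasis S g u v) (x : Fin g ⊕ Fin g → ℝ) :
    F.Hol (F.harm u v x) ∧ F.Cls u v (F.harm u v x) x :=
  ⟨Frame.hol_harm hB hF x, Frame.cls_harm hB hF x⟩

private theorem k8_closed (hF : F.Tame) {a : X → ℂ} (ha : F.Hol a) : F.Closed a :=
  Frame.Hol.closed ha

private theorem k8_memLp (hF : F.Tame) {a : X → ℂ} (ha : F.Closed a) : MemLp a 2 F.nu :=
  Frame.Closed.memLp hF ha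

private theorem k8_memLp_d (hF : F.Tame) {φ : X → ℝ} (hφ : S.Smooth φ) :
    MemLp (F.d φ) 2 F.nu := Frame.Closed.memLp hF (Frame.closed_d F hφ)

private theorem k8_wd (hF : F.Tame) (hB : SymplBasis S g u v) {a b : X → ℂ}
    {x y : Fin g ⊕ Fin g → ℝ} (hx : F.Cls u v a x)
    (hy : F.Cls u v b y) : F.wd a b = om x y := Frame.Cls.wd_eq_om hB hF hx hy

private theorem k8_orth (hF : F.Tame) {h : X → ℂ} (hh : F.Hol h) {φ : X → ℝ} (hφ : S.Smooth φ) :
    F.ip h (F.d φ) = 0 := Frame.ip_hol_d hF hφ hh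

private theorem k8_QF (hF : F.Tame) {Z : Matrix (Fin g) (Fin g) ℂ} (hZ : IsPeriod S u v Z)
    (x : Fin g ⊕ Fin g → ℝ) : QF (PZ Z) x = F.en univ (F.harm u v x) := hZ.quad hF x

end facts

/-! ### algebra of `om` -/

private theorem k8_om_sub {g : ℕ} (x y z : Fin g ⊕ Fin g → ℝ) :
    om (x - y) z = om x z - om y z := by
  unfold om
  rw [← Finset.sum_sub_distrib]
  refine Finset.sum_congr rfl fun j _ => ?_
  simp only [Pi.sub_apply]
  ring

private theorem k8_om_smul {g : ℕ} (c : ℝ) (x z : Fin g ⊕ Fin g → ℝ) :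
    om (c • x) z = c * om x z := by
  unfold om
  rw [Finset.mul_sum]
  refine Finset.sum_congr rfl fun j _ => ?_
  simp only [Pi.smul_apply, smul_eq_mul]
  ring

private theorem k8_om_sum {g k : ℕ} (f : Fin k → Fin g ⊕ Fin g → ℝ) (z : Fin g ⊕ Fin g → ℝ) :
    om (∑ i, f i) z = ∑ i, om (f i) z := by
  unfold om
  rw [Finset.sum_comm]
  refine Finset.sum_congr rfl fun j _ => ?_
  simp only [Finset.sum_apply, Finset.sum_mul, ← Finset.sum_sub_distrib]

private theorem k8_om_self {g : ℕ} (x : Fin g ⊕ Fin g → ℝ) : om x x = 0 := by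
  unfold om
  refine Finset.sum_eq_zero fun j _ => ?_
  ring

private theorem k8_omJ {g : ℕ} (x y : Fin g ⊕ Fin g → ℝ) : omJ x y = - om x y := by
  unfold omJ om
  rw [Matrix.J, Matrix.fromBlocks_mulVec]
  simp only [dotProduct, Fintype.sum_sum_type, Sum.elim_inl, Sum.elim_inr, Matrix.zero_mulVec,
    Matrix.neg_mulVec, Matrix.one_mulVec, zero_add, add_zero, Pi.neg_apply, Function.comp_apply,
    Finset.sum_sub_distrib]
  simp only [mul_neg, Finset.sum_neg_distrib]
  ring

/-! ### bilinear form -/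

private theorem k8_BF_QF {n : Type*} [Fintype n] {P : Matrix n n ℝ} (hP : P.transpose = P)
    (x y : n → ℝ) : QF P (x + y) = QF P x + QF P y + 2 * BF P x y := by
  have hs : y ⬝ᵥ (P.mulVec x) = x ⬝ᵥ (P.mulVec y) := by
    rw [Matrix.dotProduct_mulVec, ← Matrix.mulVec_transpose, hP, dotProduct_comm]
  unfold QF BF
  rw [Matrix.mulVec_add, dotProduct_add, add_dotProduct, add_dotProduct, hs]
  ring

section

variable {X : Type} [TopologicalSpace X] [CompactSpace X] [T2Space X] [MeasurableSpace X]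
  [BorelSpace X] {S : CS X} (F : Frame S) {g : ℕ} {u v : Fin g → X → UnitAddCircle}

private theorem k8_ip_int {a b : X → ℂ} (ha : MemLp a 2 F.nu) (hb : MemLp b 2 F.nu) :
    Integrable (fun x => a x * starRingEnd ℂ (b x)) F.nu := by
  have hb' : MemLp (fun x => starRingEnd ℂ (b x)) 2 F.nu := by
    have := hb.star
    exact this
  exact MemLp.integrable_mul ha hb'

private theorem k8_ip_add_left {a a' b : X → ℂ} (ha : MemLp a 2 F.nu) (ha' : MemLp a' 2 F.nu)
    (hb : MemLp b 2 F.nu) : F.ip (fun x => a x + a' x) b = F.ip a b + F.ip a' b := by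
  unfold Frame.ip
  rw [← integral_add (k8_ip_int F ha hb) (k8_ip_int F ha' hb)]
  refine integral_congr_ae (Filter.Eventually.of_forall fun x => ?_)
  simp only [add_mul]

private theorem k8_ip_add_right {a b b' : X → ℂ} (ha : MemLp a 2 F.nu) (hb : MemLp b 2 F.nu)
    (hb' : MemLp b' 2 F.nu) : F.ip a (fun x => b x + b' x) = F.ip a b + F.ip a b' := by
  unfold Frame.ip
  rw [← integral_add (k8_ip_int F ha hb) (k8_ip_int F ha hb')]
  refine integral_congr_ae (Filter.Eventually.of_forall fun x => ?_)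
  simp only [map_add, mul_add]

private theorem k8_ip_conj (a b : X → ℂ) : F.ip b a = starRingEnd ℂ (F.ip a b) := by
  unfold Frame.ip
  rw [← integral_conj]
  refine integral_congr_ae (Filter.Eventually.of_forall fun x => ?_)
  simp only [map_mul, Complex.conj_conj]
  ring

private theorem k8_en (a : X → ℂ) : F.en univ a = F.rp a a := by
  unfold Frame.en Frame.rp Frame.ip
  rw [Measure.restrict_univ]
  have h : ∀ x, a x * starRingEnd ℂ (a x) = ((‖a x‖ ^ 2 : ℝ) : ℂ) := by
    intro x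
    rw [Complex.mul_conj, Complex.normSq_eq_norm_sq]
  simp only [h]
  rw [integral_complex_ofReal, Complex.ofReal_re]

private theorem k8_d_sub {φ ψ : X → ℝ} (hφ : S.Smooth φ) (hψ : S.Smooth ψ) (x : X) :
    F.d (fun y => φ y - ψ y) x = F.d φ x - F.d ψ x := by
  have h1 : DifferentiableAt ℝ (φ ∘ (F.ch x).symm) (F.ch x x) :=
    (hφ x _ (F.ch_mem x) (F.mem_ch x)).differentiableAt (by simp)
  have h2 : DifferentiableAt ℝ (ψ ∘ (F.ch x).symm) (F.ch x x) :=
    (hψ x _ (F.ch_mem x) (F.mem_ch x)).differentiableAt (by simp)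
  have h3 : fderiv ℝ ((fun y => φ y - ψ y) ∘ (F.ch x).symm) (F.ch x x) =
      fderiv ℝ (φ ∘ (F.ch x).symm) (F.ch x x) - fderiv ℝ (ψ ∘ (F.ch x).symm) (F.ch x x) :=
    fderiv_sub h1 h2
  unfold Frame.d cgrad
  rw [h3]
  simp only [ContinuousLinearMap.sub_apply, Complex.ofReal_sub]
  ring

private theorem k8_smooth_sub {φ ψ : X → ℝ} (hφ : S.Smooth φ) (hψ : S.Smooth ψ) :
    S.Smooth (fun y => φ y - ψ y) := fun x e he hx => (hφ x e he hx).sub (hψ x e he hx)

/-- two forms of the same class differ by an exact form -/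
private theorem k8_diff {a b : X → ℂ} {x : Fin g ⊕ Fin g → ℝ} (ha : F.Cls u v a x)
    (hb : F.Cls u v b x) : ∃ ψ : X → ℝ, S.Smooth ψ ∧ b = fun p => a p + F.d ψ p := by
  obtain ⟨φ, hφ, hφa⟩ := ha
  obtain ⟨χ, hχ, hχb⟩ := hb
  refine ⟨fun y => χ y - φ y, k8_smooth_sub hχ hφ, ?_⟩
  funext p
  rw [k8_d_sub F hχ hφ, hφa, hχb]
  ring

private theorem k8_lin_add (x y : Fin g ⊕ Fin g → ℝ) (p : X) :
    F.lin u v (x + y) p = F.lin u v x p + F.lin u v y p := by
  unfold Frame.lin
  simp only [Pi.add_apply, Complex.ofReal_add, add_mul, Finset.sum_add_distrib]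
  ring

private theorem k8_cls_add {a b : X → ℂ} {x y : Fin g ⊕ Fin g → ℝ} (ha : F.Cls u v a x)
    (hb : F.Cls u v b y) : F.Cls u v (fun p => a p + b p) (x + y) := by
  obtain ⟨φ, hφ, hφa⟩ := ha
  obtain ⟨χ, hχ, hχb⟩ := hb
  have hneg : S.Smooth (fun y => - χ y) := fun x e he hx => (hχ x e he hx).neg
  have hneg' : ∀ p, F.d (fun y => - χ y) p = - F.d χ p := by
    intro p
    have h0 : S.Smooth (fun _ : X => (0 : ℝ)) := fun x e he hx => contDiffAt_const
    have h1 := k8_d_sub F h0 hχ p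
    have h2 : F.d (fun _ : X => (0 : ℝ)) p = 0 := by
      unfold Frame.d cgrad
      have : ((fun _ : X => (0 : ℝ)) ∘ (F.ch p).symm) = fun _ => (0 : ℝ) := rfl
      rw [this]
      simp
    rw [h2] at h1
    simpa using h1
  refine ⟨fun y => φ y - (fun y => - χ y) y, k8_smooth_sub hφ hneg, fun p => ?_⟩
  rw [k8_d_sub F hφ hneg, hneg']
  show a p + b p = _
  rw [hφa, hχb, k8_lin_add]
  ring

/-- the product of a harmonic form with a closed form depends only on the class -/
private theorem k8_rp_cls (hF : F.Tame) {h : X → ℂ} (hh : F.Hol h) {a b : X → ℂ}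
    (ha : F.Closed a) {x : Fin g ⊕ Fin g → ℝ} (hx : F.Cls u v a x)
    (hy : F.Cls u v b x) : F.ip h b = F.ip h a := by
  obtain ⟨ψ, hψ, rfl⟩ := k8_diff F hx hy
  rw [k8_ip_add_right F (k8_memLp F hF (k8_closed F hF hh)) (k8_memLp F hF ha)
    (k8_memLp_d F hF hψ), k8_orth F hF hh hψ, add_zero]

private theorem k8_BF (hF : F.Tame) {Z : Matrix (Fin g) (Fin g) ℂ} (hZ : IsPeriod S u v Z)
    (x y : Fin g ⊕ Fin g → ℝ) :
    F.rp (F.harm u v x) (F.harm u v y) = BF (PZ Z) x y := by
  have hP : (PZ Z).transpose = PZ Z := by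
    have := (PZ_posDef hZ.mem_siegel).isHermitian
    rwa [Matrix.IsHermitian, Matrix.conjTranspose_eq_transpose_of_trivial] at this
  obtain ⟨hx1, hx2⟩ := k8_harm F hF hZ.1 x
  obtain ⟨hy1, hy2⟩ := k8_harm F hF hZ.1 y
  obtain ⟨hs1, hs2⟩ := k8_harm F hF hZ.1 (x + y)
  have mx := k8_memLp F hF (k8_closed F hF hx1)
  have my := k8_memLp F hF (k8_closed F hF hy1)
  have ms := k8_memLp F hF (k8_closed F hF hs1)
  have hc := k8_cls_add F hx2 hy2
  -- `en (harm (x + y)) = ip (harm (x + y)) (harm x + harm y)`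
  have h1 : F.ip (F.harm u v (x + y)) (fun p => F.harm u v x p + F.harm u v y p) =
      F.ip (F.harm u v (x + y)) (F.harm u v (x + y)) :=
    k8_rp_cls F hF hs1 (k8_closed F hF hs1) hs2 hc
  have h2 : F.ip (F.harm u v (x + y)) (F.harm u v x) =
      starRingEnd ℂ (F.ip (F.harm u v x) (F.harm u v x) + F.ip (F.harm u v x) (F.harm u v y)) := by
    rw [k8_ip_conj F (F.harm u v x)]
    congr 1
    obtain ⟨ψ, hψ, hψe⟩ := k8_diff F hc hs2
    rw [hψe]
    have m1 : MemLp (fun p => F.harm u v x p + F.harm u v y p) 2 F.nu := mx.add my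
    rw [k8_ip_add_right F mx m1 (k8_memLp_d F hF hψ), k8_orth F hF hx1 hψ, add_zero,
      k8_ip_add_right F mx mx my]
  have h3 : F.ip (F.harm u v (x + y)) (F.harm u v y) =
      starRingEnd ℂ (F.ip (F.harm u v y) (F.harm u v x) + F.ip (F.harm u v y) (F.harm u v y)) := by
    rw [k8_ip_conj F (F.harm u v y)]
    congr 1
    obtain ⟨ψ, hψ, hψe⟩ := k8_diff F hc hs2
    rw [hψe]
    have m1 : MemLp (fun p => F.harm u v x p + F.harm u v y p) 2 F.nu := mx.add my
    rw [k8_ip_add_right F my m1 (k8_memLp_d F hF hψ), k8_orth F hF hy1 hψ, add_zero,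
      k8_ip_add_right F my mx my]
  have h4 : F.rp (F.harm u v y) (F.harm u v x) = F.rp (F.harm u v x) (F.harm u v y) := by
    unfold Frame.rp
    rw [k8_ip_conj F (F.harm u v x), Complex.conj_re]
  have h5 : F.rp (F.harm u v (x + y)) (F.harm u v (x + y)) =
      F.rp (F.harm u v x) (F.harm u v x) + F.rp (F.harm u v y) (F.harm u v y) +
        2 * F.rp (F.harm u v x) (F.harm u v y) := by
    have h6 : F.rp (F.harm u v (x + y)) (F.harm u v (x + y)) =
        (F.ip (F.harm u v (x + y)) (F.harm u v x) +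
          F.ip (F.harm u v (x + y)) (F.harm u v y)).re := by
      rw [← k8_ip_add_right F ms mx my, h1]
      rfl
    rw [h6, h2, h3]
    simp only [map_add, Complex.add_re, Complex.conj_re]
    unfold Frame.rp at h4 ⊢
    rw [h4]
    ring
  have h6 := k8_BF_QF hP x y
  rw [k8_QF F hF hZ, k8_QF F hF hZ, k8_QF F hF hZ, k8_en, k8_en, k8_en, h5] at h6
  linarith

end

/-- `x, t` from `minkowski_min` for `P = PZ Z`, the vectors `b` (isotropic because the annuli are
disjoint, saturated by `sat_of_indep`), `h = F.harm u v (zV x - ∑ t i • zV (b i))`; the real part of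
`F.ip h (be i)` is the bilinear form of the classes, the imaginary part is `om`. -/
theorem cut_form {g k : ℕ} (hk : k < g) {X : Type} [TopologicalSpace X] [CompactSpace X]
    [ConnectedSpace X] [T2Space X] [MeasurableSpace X] [BorelSpace X] {S : CS X} (F : Frame S)
    (hF : F.Tame) {u v : Fin g → X → UnitAddCircle} {Z : Matrix (Fin g) (Fin g) ℂ}
    {e : Fin k → OpenPartialHomeomorph X ℂ} {l : Fin k → ℝ} {b : Fin k → Fin g ⊕ Fin g → ℤ} {c : ℝ}
    (hst : CutSt S u v Z e l b c) :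
    ∃ (x : Fin g ⊕ Fin g → ℤ) (t : Fin k → ℝ) (h : X → ℂ), F.Hol h ∧ F.Closed h ∧
      F.Cls u v h (zV x - ∑ i, t i • zV (b i)) ∧
      zV x - ∑ i, t i • zV (b i) ∉ Submodule.span ℝ (Set.range fun i => zV (b i)) ∧
      F.en univ h ≤ 2 * g + 1 ∧
      (∀ i, ∀ a : ℝ, 0 < a → a < l i → F.ip h (F.be (e i) a) = 0) ∧
      ∀ y : Fin g ⊕ Fin g → ℤ, (∀ i, om (zV y) (zV (b i)) = 0) →
        zV y ∉ Submodule.span ℝ (Set.range fun i => zV (b i)) → F.en univ h ≤ QF (PZ Z) (zV y) := by
  have hB := hst.per.1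
  have hcls : ∀ i, AnnCls F u v (e i) (l i) (b i) := fun i =>
    (hst.cls i).annCls F hF hB (hst.ann i)
  have hiso : ∀ i j, om (zV (b i)) (zV (b j)) = 0 := by
    intro i j
    by_cases hij : i = j
    · subst hij
      exact k8_om_self _
    · have hi := (hst.ann i).2.1
      have hj := (hst.ann j).2.1
      have h1 := ip_be_disj F (hst.ann i) (half_pos hi) (half_lt_self hi) (hst.ann j)
        (half_pos hj) (half_lt_self hj) (hst.disj hij)
      have h2 := k8_wd F hF hB
        (hcls i _ (half_pos hi) (half_lt_self hi)) (hcls j _ (half_pos hj) (half_lt_self hj))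
      rw [← h2, Frame.wd, h1, Complex.zero_im]
  have hZ := hst.per.mem_siegel
  obtain ⟨x, t, hx1, hx2, hx3, hx4, hx5⟩ := minkowski_min hk (PZ_posDef hZ) (PZ_symp hZ) b hst.ind
    (fun i j => by
      have := hiso i j
      rw [k8_omJ]
      show - om (zV (b i)) (zV (b j)) = 0
      rw [this, neg_zero])
    (fun t ⟨y, hy⟩ i => sat_of_indep F hF hB hst.ann hst.disj hcls hst.ind t y hy i)
  have hx1' : ∀ i, om (zV x) (zV (b i)) = 0 := fun i => by
    have := hx1 i
    rw [k8_omJ, neg_eq_zero] at this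
    exact this
  have hmem : ∑ i, t i • zV (b i) ∈ Submodule.span ℝ (Set.range fun i => zV (b i)) :=
    Submodule.sum_mem _ fun i _ => Submodule.smul_mem _ _ (Submodule.subset_span ⟨i, rfl⟩)
  obtain ⟨h1, h2⟩ := k8_harm F hF hB (zV x - ∑ i, t i • zV (b i))
  have h3 := k8_closed F hF h1
  refine ⟨x, t, F.harm u v (zV x - ∑ i, t i • zV (b i)), h1, h3, h2, ?_, ?_, ?_, ?_⟩
  · intro hcon
    apply hx2
    have := Submodule.add_mem _ hcon hmem
    rw [sub_add_cancel] at this
    exact this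
  · rw [← k8_QF F hF hst.per]
    exact hx4
  · intro i a ha hal
    have hbc := hcls i a ha hal
    apply Complex.ext
    · show F.rp _ _ = 0
      have h5 := k8_BF F hF hst.per (zV x - ∑ i, t i • zV (b i)) (zV (b i))
      obtain ⟨h6, h7⟩ := k8_harm F hF hB (zV (b i))
      have h8 := k8_rp_cls F hF h1 (k8_closed F hF h6) h7 hbc
      unfold Frame.rp
      rw [h8]
      have h9 := hx3 i
      exact h5.trans h9
    · show F.wd _ _ = 0
      rw [k8_wd F hF hB h2 hbc, k8_om_sub, k8_om_sum, hx1' i, zero_sub, neg_eq_zero]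
      refine Finset.sum_eq_zero fun j _ => ?_
      rw [k8_om_smul, hiso j i, mul_zero]
  · intro y hy1 hy2
    rw [← k8_QF F hF hst.per]
    refine hx5 y (fun i => ?_) hy2
    rw [k8_omJ]
    show - om (zV y) (zV (b i)) = 0
    rw [hy1 i, neg_zero]

/-- the energy of the class of an annulus -/
theorem ann_class_energy : ∃ C : ℝ, 0 < C ∧ ∀ (g : ℕ) (X : Type) [TopologicalSpace X] [CompactSpace X]
    [ConnectedSpace X] [T2Space X] (S : CS X) (u v : Fin g → X → UnitAddCircle)
    (Z : Matrix (Fin g) (Fin g) ℂ), IsPeriod S u v Z → ∀ (e : OpenPartialHomeomorph X ℂ) (l : ℝ),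
    IsAnn S e l → ∀ b : Fin g ⊕ Fin g → ℤ, AnnTop u v e l b → QF (PZ Z) (zV b) ≤ C / l := by
  obtain ⟨C, hC, h⟩ := be_en
  refine ⟨2 * C, by positivity, ?_⟩
  intro g X _ _ _ _ S u v Z hZ e l he b hb
  let _ : MeasurableSpace X := borel X
  have _ : BorelSpace X := ⟨rfl⟩
  obtain ⟨F, hF⟩ := S.exists_tame
  have hl := he.2.1
  have h1 := h X S F hF e l (l / 2) he (half_pos hl) (half_lt_self hl)
  have h2 := hZ.quad_le hF
    (hb.annCls F hF hZ.1 he _ (half_pos hl) (half_lt_self hl))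
  refine h2.trans (h1.trans_eq ?_)
  field_simp

end Pool.Agent.Lib.MP_cca10c_ag
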