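import Pool.Agent.Lib.MP_cca10c_ag.P05_LE

/-! Module P: costs of paths. -/

set_option autoImplicit false

open Topology Set Matrix
open scoped ENNReal

namespace Pool.Agent.Lib.MP_cca10c_ag

private theorem mem_siegel {g : ℕ} {Z : Matrix (Fin g) (Fin g) ℂ} (h : Z ∈ Schottky g) :
    Z ∈ Siegel g := h.1

private theorem samePt_refl {g : ℕ} (Z : Matrix (Fin g) (Fin g) ℂ) : SamePt Z Z := by
  refine ⟨1, one_mem _, ?_⟩
  unfold act
  have h11 : (1 : Matrix (Fin g ⊕ Fin g) (Fin g ⊕ Fin g) ℤ).toBlocks₁₁ = 1 := by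
    ext i j; simp [Matrix.toBlocks₁₁, Matrix.one_apply]
  have h12 : (1 : Matrix (Fin g ⊕ Fin g) (Fin g ⊕ Fin g) ℤ).toBlocks₁₂ = 0 := by
    ext i j; simp [Matrix.toBlocks₁₂, Matrix.one_apply]
  have h21 : (1 : Matrix (Fin g ⊕ Fin g) (Fin g ⊕ Fin g) ℤ).toBlocks₂₁ = 0 := by
    ext i j; simp [Matrix.toBlocks₂₁, Matrix.one_apply]
  have h22 : (1 : Matrix (Fin g ⊕ Fin g) (Fin g ⊕ Fin g) ℤ).toBlocks₂₂ = 1 := by
    ext i j; simp [Matrix.toBlocks₂₂, Matrix.one_apply]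
  rw [h11, h12, h21, h22]
  have e1 : (1 : Matrix (Fin g) (Fin g) ℤ).map (Int.cast : ℤ → ℂ) = 1 := by
    ext i j; by_cases h : i = j <;> simp [Matrix.one_apply, h]
  have e0 : (0 : Matrix (Fin g) (Fin g) ℤ).map (Int.cast : ℤ → ℂ) = 0 := by
    ext i j; simp
  rw [e1, e0]
  simp

private theorem LE'_zero_refl {g : ℕ} (Z : Matrix (Fin g) (Fin g) ℂ) : LE' 0 Z Z := by
  refine ⟨1, one_mem _, fun x => ?_⟩
  have e1 : rM (1 : Matrix (Fin g ⊕ Fin g) (Fin g ⊕ Fin g) ℤ) = 1 := by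
    ext i j; by_cases h : i = j <;> simp [rM, Matrix.one_apply, h]
  rw [e1]
  simp

theorem Conn.refl {g : ℕ} {Z : Matrix (Fin g) (Fin g) ℂ} (hZ : Z ∈ Schottky g) : Conn g Z Z 0 := by
  refine ⟨fun _ => Z, fun _ => 0, fun t _ => hZ, fun a _ b _ _ => le_rfl, continuousOn_const,
    by norm_num, samePt_refl Z, samePt_refl Z, fun s _ t _ _ => ?_⟩
  simpa using LE'_zero_refl Z

theorem Conn.mono {g : ℕ} {Z W : Matrix (Fin g) (Fin g) ℂ} {C C' : ℝ} (h : Conn g Z W C)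
    (hC : C ≤ C') : Conn g Z W C' := by
  obtain ⟨γ, ν, h1, h2, h3, h4, h5, h6, h7⟩ := h
  exact ⟨γ, ν, h1, h2, h3, h4.trans hC, h5, h6, h7⟩

private theorem one_sub_mem {t : ℝ} (ht : t ∈ Icc (0 : ℝ) 1) : 1 - t ∈ Icc (0 : ℝ) 1 :=
  ⟨by linarith [ht.2], by linarith [ht.1]⟩

theorem Conn.symm {g : ℕ} {Z W : Matrix (Fin g) (Fin g) ℂ} {C : ℝ} (h : Conn g Z W C) :
    Conn g W Z C := by
  obtain ⟨γ, ν, h1, h2, h3, h4, h5, h6, h7⟩ := h
  refine ⟨fun t => γ (1 - t), fun t => -ν (1 - t), fun t ht => h1 _ (one_sub_mem ht), ?_, ?_, ?_,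
    ?_, ?_, ?_⟩
  · intro a ha b hb hab
    have := h2 (one_sub_mem hb) (one_sub_mem ha) (by linarith)
    simp only
    linarith
  · refine ContinuousOn.neg ?_
    exact h3.comp (continuousOn_const.sub continuousOn_id) (fun t ht => one_sub_mem ht)
  · simp only [sub_self, sub_zero]
    linarith
  · simpa using h6
  · simpa using h5
  · intro s hs t ht hst
    have := h7 _ (one_sub_mem ht) _ (one_sub_mem hs) (by linarith)
    have h8 := LE'_symm (mem_siegel (h1 _ (one_sub_mem ht))) (mem_siegel (h1 _ (one_sub_mem hs)))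
      this
    have e : -ν (1 - t) - -ν (1 - s) = ν (1 - s) - ν (1 - t) := by ring
    rw [e]
    exact h8

theorem Conn.trans {g : ℕ} {Z W V : Matrix (Fin g) (Fin g) ℂ} {C C' : ℝ}
    (hZ : Z ∈ Siegel g) (hW : W ∈ Siegel g) (hV : V ∈ Siegel g) (h : Conn g Z W C)
    (h' : Conn g W V C') : Conn g Z V (C + C') := by
  obtain ⟨γ, ν, h1, h2, h3, h4, h5, h6, h7⟩ := h
  obtain ⟨γ', ν', k1, k2, k3, k4, k5, k6, k7⟩ := h'
  have hmin : ∀ t ∈ Icc (0 : ℝ) 1, min (2 * t) 1 ∈ Icc (0 : ℝ) 1 := fun t ht =>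
    ⟨le_min (by linarith [ht.1]) zero_le_one, min_le_right _ _⟩
  have hmax : ∀ t ∈ Icc (0 : ℝ) 1, max (2 * t - 1) 0 ∈ Icc (0 : ℝ) 1 := fun t ht =>
    ⟨le_max_right _ _, max_le (by linarith [ht.2]) zero_le_one⟩
  have m0 : (0 : ℝ) ∈ Icc (0 : ℝ) 1 := ⟨le_rfl, zero_le_one⟩
  have m1 : (1 : ℝ) ∈ Icc (0 : ℝ) 1 := ⟨zero_le_one, le_rfl⟩
  refine ⟨fun t => if t ≤ 1 / 2 then γ (2 * t) else γ' (2 * t - 1),
    fun t => ν (min (2 * t) 1) + ν' (max (2 * t - 1) 0), ?_, ?_, ?_, ?_, ?_, ?_, ?_⟩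
  · intro t ht
    simp only
    split_ifs with hh
    · exact h1 _ ⟨by linarith [ht.1], by linarith⟩
    · exact k1 _ ⟨by push Not at hh; linarith, by linarith [ht.2]⟩
  · intro a ha b hb hab
    have e1 := h2 (hmin a ha) (hmin b hb) (min_le_min (by linarith) le_rfl)
    have e2 := k2 (hmax a ha) (hmax b hb) (max_le_max (by linarith) le_rfl)
    simp only
    linarith
  · refine ContinuousOn.add ?_ ?_
    · exact h3.comp (Continuous.continuousOn (by fun_prop)) hmin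
    · exact k3.comp (Continuous.continuousOn (by fun_prop)) hmax
  · norm_num
    linarith
  · simpa using h5
  · norm_num
    exact k6
  · intro s hs t ht hst
    simp only
    by_cases hs2 : s ≤ 1 / 2
    · by_cases ht2 : t ≤ 1 / 2
      · rw [if_pos hs2, if_pos ht2]
        have e1 : min (2 * t) 1 = 2 * t := min_eq_left (by linarith)
        have e2 : min (2 * s) 1 = 2 * s := min_eq_left (by linarith)
        have e3 : max (2 * t - 1) 0 = 0 := max_eq_right (by linarith)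
        have e4 : max (2 * s - 1) 0 = 0 := max_eq_right (by linarith)
        rw [e1, e2, e3, e4]
        have := h7 (2 * s) ⟨by linarith [hs.1], by linarith⟩ (2 * t)
          ⟨by linarith [ht.1], by linarith⟩ (by linarith)
        have e : ν (2 * t) + ν' 0 - (ν (2 * s) + ν' 0) = ν (2 * t) - ν (2 * s) := by ring
        rw [e]
        exact this
      · rw [if_pos hs2, if_neg ht2]
        push Not at ht2
        have e1 : min (2 * t) 1 = 1 := min_eq_right (by linarith)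
        have e2 : min (2 * s) 1 = 2 * s := min_eq_left (by linarith)
        have e3 : max (2 * t - 1) 0 = 2 * t - 1 := max_eq_left (by linarith)
        have e4 : max (2 * s - 1) 0 = 0 := max_eq_right (by linarith)
        rw [e1, e2, e3, e4]
        have a1 := h7 (2 * s) ⟨by linarith [hs.1], by linarith⟩ 1 m1 (by linarith)
        have a2 := LE'_same (mem_siegel (h1 1 m1)) h6
        have a3 := LE'_symm (mem_siegel (k1 0 m0)) hW (LE'_same (mem_siegel (k1 0 m0)) k5)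
        have a4 := k7 0 m0 (2 * t - 1) ⟨by linarith, by linarith [ht.2]⟩ (by linarith)
        have a5 := LE'_trans a1 (LE'_trans a2 (LE'_trans a3 a4))
        have e : ν 1 + ν' (2 * t - 1) - (ν (2 * s) + ν' 0) =
            ν 1 - ν (2 * s) + (0 + (0 + (ν' (2 * t - 1) - ν' 0))) := by ring
        rw [e]
        exact a5
    · have ht2 : ¬ t ≤ 1 / 2 := fun h => hs2 (hst.trans h)
      rw [if_neg hs2, if_neg ht2]
      push Not at hs2 ht2
      have e1 : min (2 * t) 1 = 1 := min_eq_right (by linarith)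
      have e2 : min (2 * s) 1 = 1 := min_eq_right (by linarith)
      have e3 : max (2 * t - 1) 0 = 2 * t - 1 := max_eq_left (by linarith)
      have e4 : max (2 * s - 1) 0 = 2 * s - 1 := max_eq_left (by linarith)
      rw [e1, e2, e3, e4]
      have := k7 (2 * s - 1) ⟨by linarith, by linarith [hs.2]⟩ (2 * t - 1)
        ⟨by linarith, by linarith [ht.2]⟩ (by linarith)
      have e : ν 1 + ν' (2 * t - 1) - (ν 1 + ν' (2 * s - 1)) =
          ν' (2 * t - 1) - ν' (2 * s - 1) := by ring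
      rw [e]
      exact this

theorem Conn.nonneg {g : ℕ} {Z W : Matrix (Fin g) (Fin g) ℂ} {C : ℝ} (h : Conn g Z W C) :
    0 ≤ C := by
  obtain ⟨γ, ν, h1, h2, h3, h4, h5, h6, h7⟩ := h
  have := h2 (⟨le_rfl, zero_le_one⟩ : (0 : ℝ) ∈ Icc (0 : ℝ) 1)
    (⟨zero_le_one, le_rfl⟩ : (1 : ℝ) ∈ Icc (0 : ℝ) 1) zero_le_one
  linarith

/-- the comparison of the end points -/
theorem Conn.le {g : ℕ} {Z W : Matrix (Fin g) (Fin g) ℂ} {C : ℝ}
    (hZ : Z ∈ Siegel g) (hW : W ∈ Siegel g) (h : Conn g Z W C) : LE' C Z W := by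
  obtain ⟨γ, ν, h1, h2, h3, h4, h5, h6, h7⟩ := h
  have m0 : (0 : ℝ) ∈ Icc (0 : ℝ) 1 := ⟨le_rfl, zero_le_one⟩
  have m1 : (1 : ℝ) ∈ Icc (0 : ℝ) 1 := ⟨zero_le_one, le_rfl⟩
  have a1 := LE'_symm (mem_siegel (h1 0 m0)) hZ (LE'_same (mem_siegel (h1 0 m0)) h5)
  have a2 := h7 0 m0 1 m1 zero_le_one
  have a3 := LE'_same (mem_siegel (h1 1 m1)) h6
  have a4 := LE'_trans a1 (LE'_trans a2 a3)
  refine LE'_mono hZ a4 ?_
  linarith

end Pool.Agent.Lib.MP_cca10c_ag
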