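import Pool.Agent.Lib.MP_cca10c_ag.M02_Energy
import Pool.Agent.Lib.MP_cca10c_ag.P06_Conn
import Pool.Agent.Lib.MP_cca10c_ag.H24_Base

/-!
# Module M: the path lemma (stub M03)

`γ t` = a period matrix of `S t` in the fixed basis (`SymplBasis.of_SC`, `exists_isPeriod`; take `Z` for
`t = 0`), `ν t = cost * t`, `LE'` with `N = 1`. Basic: `quad_le_of_dil` with `K = exp (A |t - s|)`.
Refined: `quad_le_refined` gives `QF (PZ (γ t)) x ≤ (1 + (exp (A |t-s|) - 1) η) QF (PZ (γ s)) x`, and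
`(exp (A r) - 1) ≤ A r exp A` for `0 ≤ r ≤ 1`. Membership in `Schottky`: `IsPeriod.mem_schottky`.
-/

set_option autoImplicit false
set_option linter.unusedSimpArgs false

open Topology Set MeasureTheory
open scoped ContDiff

namespace Pool.Agent.Lib.MP_cca10c_ag

variable {X : Type} [TopologicalSpace X] [CompactSpace X] [T2Space X] [ConnectedSpace X]

private theorem m03_samePt_refl {g : ℕ} (Z : Matrix (Fin g) (Fin g) ℂ) : SamePt Z Z := by
  refine ⟨1, one_mem _, ?_⟩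
  unfold act
  have h11 : (1 : Matrix (Fin g ⊕ Fin g) (Fin g ⊕ Fin g) ℤ).toBlocks₁₁ = 1 := by
    ext i j; simp [Matrix.toBlocks₁₁, Matrix.one_apply]
  have h12 : (1 : Matrix (Fin g ⊕ Fin g) (Fin g ⊕ Fin g) ℤ).toBlocks₁₂ = 0 := by
    ext i j; simp [Matrix.toBlocks₁₂, Matrix.one_apply]
  have h21 : (1 : Matrix (Fin g ⊕ Fin g) (Fin g ⊕ Fin g) ℤ).toBlocks₂₁ = 0 := by
    ext i j; simp [Matrix.toBlocks₂₁, Matrix.one_apply]
  have h22 : (1 : Matrix (Fin g ⊕ Fin g) (Fin g ⊕ Fin g) ℤ).toBlocks₂₂ = 1 := by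
    ext i j; simp [Matrix.toBlocks₂₂, Matrix.one_apply]
  rw [h11, h12, h21, h22]
  have e1 : (1 : Matrix (Fin g) (Fin g) ℤ).map (Int.cast : ℤ → ℂ) = 1 := by
    ext i j; by_cases h : i = j <;> simp [Matrix.one_apply, h]
  have e0 : (0 : Matrix (Fin g) (Fin g) ℤ).map (Int.cast : ℤ → ℂ) = 0 := by
    ext i j; simp
  rw [e1, e0]
  simp

private theorem m03_le {g : ℕ} {C : ℝ} {Z W : Matrix (Fin g) (Fin g) ℂ}
    (h : ∀ x, QF (PZ W) x ≤ Real.exp C * QF (PZ Z) x) : LE' C Z W := by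
  refine ⟨1, one_mem _, fun x => ?_⟩
  have e1 : rM (1 : Matrix (Fin g ⊕ Fin g) (Fin g ⊕ Fin g) ℤ) = 1 := by
    ext i j; by_cases h : i = j <;> simp [rM, Matrix.one_apply, h]
  rw [e1, Matrix.one_mulVec]
  exact h x

/-- common part of the two path lemmas -/
private theorem m03_path {g : ℕ} {u v : Fin g → X → UnitAddCircle} (S : ℝ → CS X) (c : ℝ)
    (hc : 0 ≤ c) (hSC : ∀ s ∈ Icc (0 : ℝ) 1, ∀ t ∈ Icc (0 : ℝ) 1, SC (S s) (S t))
    (hq : ∀ s ∈ Icc (0 : ℝ) 1, ∀ t ∈ Icc (0 : ℝ) 1, ∀ Zs Zt : Matrix (Fin g) (Fin g) ℂ,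
      IsPeriod (S s) u v Zs → IsPeriod (S t) u v Zt →
        ∀ x, QF (PZ Zt) x ≤ Real.exp (c * |t - s|) * QF (PZ Zs) x)
    {Z : Matrix (Fin g) (Fin g) ℂ} (hZ : IsPeriod (S 0) u v Z) :
    ∃ Z', IsPeriod (S 1) u v Z' ∧ Conn g Z Z' c ∧ LEq c Z Z' := by
  have m0 : (0 : ℝ) ∈ Icc (0 : ℝ) 1 := ⟨le_rfl, zero_le_one⟩
  have m1 : (1 : ℝ) ∈ Icc (0 : ℝ) 1 := ⟨zero_le_one, le_rfl⟩
  have hex : ∀ t : ℝ, ∃ W : Matrix (Fin g) (Fin g) ℂ,
      (t ∈ Icc (0 : ℝ) 1 → IsPeriod (S t) u v W) ∧ (t = 0 → W = Z) := by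
    intro t
    rcases eq_or_ne t 0 with rfl | h0
    · exact ⟨Z, fun _ => hZ, fun _ => rfl⟩
    · by_cases ht : t ∈ Icc (0 : ℝ) 1
      · obtain ⟨W, hW⟩ := exists_isPeriod (SymplBasis.of_SC (hSC 0 m0 t ht) hZ.1)
        exact ⟨W, fun _ => hW, fun h => absurd h h0⟩
      · exact ⟨Z, fun h => absurd h ht, fun _ => rfl⟩
  choose γ hγ hγ0 using hex
  refine ⟨γ 1, hγ 1 m1, ⟨γ, fun t => c * t, fun t ht => (hγ t ht).mem_schottky, ?_, ?_, ?_, ?_,
    m03_samePt_refl _, ?_⟩, ?_, ?_⟩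
  · intro a _ b _ hab
    exact mul_le_mul_of_nonneg_left hab hc
  · exact (continuous_const.mul continuous_id).continuousOn
  · simp
  · rw [hγ0 0 rfl]
    exact m03_samePt_refl _
  · intro s hs t ht hst
    refine m03_le fun x => ?_
    have h1 := hq s hs t ht _ _ (hγ s hs) (hγ t ht) x
    rw [abs_of_nonneg (sub_nonneg.2 hst), mul_sub] at h1
    exact h1
  · intro x
    have h1 := hq 0 m0 1 m1 _ _ hZ (hγ 1 m1) x
    rw [sub_zero, abs_one, mul_one] at h1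
    exact h1
  · intro x
    have h1 := hq 1 m1 0 m0 _ _ (hγ 1 m1) hZ x
    rw [zero_sub, abs_neg, abs_one, mul_one] at h1
    exact h1

/-- basic path lemma -/
theorem path_basic {g : ℕ} {u v : Fin g → X → UnitAddCircle} (S : ℝ → CS X) (A : ℝ) (hA : 0 ≤ A)
    (hSC : ∀ s ∈ Icc (0 : ℝ) 1, ∀ t ∈ Icc (0 : ℝ) 1, SC (S s) (S t))
    (hd : ∀ s ∈ Icc (0 : ℝ) 1, ∀ t ∈ Icc (0 : ℝ) 1, ∀ x, DilAt (S s) (S t) (Real.exp (A * |t - s|)) x)
    {Z : Matrix (Fin g) (Fin g) ℂ} (hZ : IsPeriod (S 0) u v Z) :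
    ∃ Z', IsPeriod (S 1) u v Z' ∧ Conn g Z Z' A ∧ LEq A Z Z' :=
  m03_path S A hA hSC (fun s hs t ht _ _ hZs hZt x =>
    quad_le_of_dil (hSC s hs t ht) hZs hZt (hd s hs t ht) x) hZ

variable [MeasurableSpace X] [BorelSpace X]

/-- refined path lemma: the structures differ only on `K`, which carries at most the fraction `η` of the energy of every harmonic form -/
theorem path_refined {g : ℕ} {u v : Fin g → X → UnitAddCircle} (S : ℝ → CS X) (K : Set X) (hK : IsCompact K) (A η : ℝ) (hA : 0 ≤ A)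
    (hη : 0 ≤ η)
    (hSC : ∀ s ∈ Icc (0 : ℝ) 1, ∀ t ∈ Icc (0 : ℝ) 1, SC (S s) (S t))
    (hd : ∀ s ∈ Icc (0 : ℝ) 1, ∀ t ∈ Icc (0 : ℝ) 1, ∀ x, DilAt (S s) (S t) (Real.exp (A * |t - s|)) x)
    (hd1 : ∀ s ∈ Icc (0 : ℝ) 1, ∀ t ∈ Icc (0 : ℝ) 1, ∀ x ∉ K, DilAt (S s) (S t) 1 x)
    (he : ∀ s ∈ Icc (0 : ℝ) 1, ∀ F : Frame (S s), F.Tame → ∀ a : X → ℂ, F.Hol a → F.en K a ≤ η * F.en univ a)
    {Z : Matrix (Fin g) (Fin g) ℂ} (hZ : IsPeriod (S 0) u v Z) :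
    ∃ Z', IsPeriod (S 1) u v Z' ∧ Conn g Z Z' (A * Real.exp A * η) ∧ LEq (A * Real.exp A * η) Z Z' := by
  refine m03_path S (A * Real.exp A * η) (mul_nonneg (mul_nonneg hA (Real.exp_pos A).le) hη) hSC
    (fun s hs t ht Zs Zt hZs hZt x => ?_) hZ
  obtain ⟨F, hF⟩ := (S s).exists_tame
  have h1 := quad_le_refined (hSC s hs t ht) hZs hZt hF hK.isClosed.measurableSet
    (fun p _ => hd s hs t ht p) (hd1 s hs t ht) x
  have h2 := he s hs F hF (F.harm u v x) (Frame.hol_harm hZs.1 hF x)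
  rw [← hZs.quad hF x] at h2
  have h3 : 0 ≤ QF (PZ Zs) x := by
    rw [hZs.quad hF x]
    exact Frame.en_nonneg _
  set r : ℝ := |t - s| with hr
  have hr0 : 0 ≤ r := abs_nonneg _
  have hr1 : r ≤ 1 := by
    rw [hr, abs_le]
    constructor <;> linarith [hs.1, hs.2, ht.1, ht.2]
  have hAr : 0 ≤ A * r := mul_nonneg hA hr0
  have h4 : Real.exp (A * r) - 1 ≤ A * r * Real.exp A := by
    have h5 : Real.exp (A * r) - 1 ≤ A * r * Real.exp (A * r) := by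
      have h6 := Real.add_one_le_exp (-(A * r))
      have h7 : Real.exp (-(A * r)) * Real.exp (A * r) = 1 := by
        rw [← Real.exp_add]
        simp
      have h8 := mul_le_mul_of_nonneg_right h6 (Real.exp_pos (A * r)).le
      rw [h7] at h8
      linarith
    refine h5.trans (mul_le_mul_of_nonneg_left (Real.exp_le_exp.2 ?_) hAr)
    calc A * r ≤ A * 1 := mul_le_mul_of_nonneg_left hr1 hA
      _ = A := mul_one A
  have h5 : 0 ≤ Real.exp (A * r) - 1 := by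
    have := Real.add_one_le_exp (A * r)
    linarith
  have h6 : (Real.exp (A * r) - 1) * F.en K (F.harm u v x) ≤
      (A * Real.exp A * η * r) * QF (PZ Zs) x := by
    calc (Real.exp (A * r) - 1) * F.en K (F.harm u v x)
        ≤ (Real.exp (A * r) - 1) * (η * QF (PZ Zs) x) := mul_le_mul_of_nonneg_left h2 h5
      _ ≤ (A * r * Real.exp A) * (η * QF (PZ Zs) x) :=
        mul_le_mul_of_nonneg_right h4 (mul_nonneg hη h3)
      _ = _ := by ring
  have h7 : (1 + A * Real.exp A * η * r) * QF (PZ Zs) x ≤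
      Real.exp (A * Real.exp A * η * r) * QF (PZ Zs) x := by
    refine mul_le_mul_of_nonneg_right ?_ h3
    have := Real.add_one_le_exp (A * Real.exp A * η * r)
    linarith
  linarith

end Pool.Agent.Lib.MP_cca10c_ag
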