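import Pool.Agent.Lib.MP_cca10c_ag.M04_Family
import Pool.Agent.Lib.MP_cca10c_ag.Pl.QcRad

/-!
# Module M: radial stretches and twists of a round annulus (stub M05)

`Θ s = radMap (fun x => s * c * χ x)`, `χ` a smooth function of `x = log ‖z‖`, constant near the two ends
of the annulus. In logarithmic coordinates `x + i y ↦ x + i y + s c χ x`. Injective because
`x + s Re c χ x` is strictly increasing and determines `x`; derivative `radMap_hasFDerivAt`, `radLin_det`,
`rad_close`; passage from close parameters to all by `close_of_local`.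
`stepDown`: `χ = 1` for `x ≤ x₀`, `χ = 0` for `x ≥ x₁`, `‖χ'‖ ≤ M / (x₁ - x₀)` with a universal `M`
(`Real.smoothTransition` has bounded derivative: it is constant off `[0, 1]`).
-/

set_option autoImplicit false

open Topology Set MeasureTheory
open scoped ContDiff

namespace Pool.Agent.Lib.MP_cca10c_ag

open Pool.Agent.CcaPl

/-- open annulus in the logarithmic variable -/
def LAn (a b : ℝ) : Set ℂ := {z | Real.exp a < ‖z‖ ∧ ‖z‖ < Real.exp b}

/-- smooth step from `1` (for `x ≤ x₀`) to `0` (for `x ≥ x₁`) -/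
noncomputable def stepDown (x₀ x₁ x : ℝ) : ℝ := Real.smoothTransition ((x₁ - x) / (x₁ - x₀))

theorem contDiff_stepDown (x₀ x₁ : ℝ) : ContDiff ℝ ∞ (stepDown x₀ x₁) := by
  have h : ContDiff ℝ ∞ (fun x : ℝ => (x₁ - x) / (x₁ - x₀)) :=
    (contDiff_const.sub contDiff_id).div_const _
  exact Real.smoothTransition.contDiff.comp h

theorem stepDown_of_le {x₀ x₁ x : ℝ} (h : x₀ < x₁) (hx : x ≤ x₀) : stepDown x₀ x₁ x = 1 := by
  unfold stepDown
  apply Real.smoothTransition.one_of_one_le
  rw [le_div_iff₀ (by linarith)]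
  linarith

theorem stepDown_of_ge {x₀ x₁ x : ℝ} (h : x₀ < x₁) (hx : x₁ ≤ x) : stepDown x₀ x₁ x = 0 := by
  unfold stepDown
  apply Real.smoothTransition.zero_of_nonpos
  apply div_nonpos_of_nonpos_of_nonneg <;> linarith

theorem stepDown_mem (x₀ x₁ x : ℝ) : stepDown x₀ x₁ x ∈ Icc (0 : ℝ) 1 :=
  ⟨Real.smoothTransition.nonneg _, Real.smoothTransition.le_one _⟩

private theorem m05_st : ∃ M : ℝ, 1 ≤ M ∧ ∀ t : ℝ, |deriv Real.smoothTransition t| ≤ M := by
  have hst : ContDiff ℝ ∞ Real.smoothTransition := Real.smoothTransition.contDiff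
  have hstc : Continuous (deriv Real.smoothTransition) := hst.continuous_deriv (by simp)
  obtain ⟨M, hM⟩ := (isCompact_Icc (a := (0 : ℝ)) (b := 1)).exists_bound_of_continuousOn
    hstc.continuousOn
  refine ⟨max M 1, le_max_right _ _, fun t => ?_⟩
  by_cases ht : t ∈ Icc (0 : ℝ) 1
  · exact (hM t ht).trans (le_max_left _ _)
  · have h0 : deriv Real.smoothTransition t = 0 := by
      rw [mem_Icc, not_and_or, not_le, not_le] at ht
      rcases ht with h | h
      · have he : Real.smoothTransition =ᶠ[𝓝 t] fun _ => (0 : ℝ) := by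
          filter_upwards [gt_mem_nhds h] with y hy
          exact Real.smoothTransition.zero_of_nonpos hy.le
        rw [he.deriv_eq, deriv_const]
      · have he : Real.smoothTransition =ᶠ[𝓝 t] fun _ => (1 : ℝ) := by
          filter_upwards [lt_mem_nhds h] with y hy
          exact Real.smoothTransition.one_of_one_le hy.le
        rw [he.deriv_eq, deriv_const]
    rw [h0, abs_zero]
    exact zero_le_one.trans (le_max_right _ _)

theorem exists_stepDown_bound : ∃ M : ℝ, 1 ≤ M ∧ ∀ x₀ x₁ x : ℝ, x₀ < x₁ →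
    |deriv (stepDown x₀ x₁) x| ≤ M / (x₁ - x₀) := by
  obtain ⟨M, hM1, hM⟩ := m05_st
  refine ⟨M, hM1, fun x₀ x₁ x h => ?_⟩
  have hpos : 0 < x₁ - x₀ := by linarith
  have hst : ContDiff ℝ ∞ Real.smoothTransition := Real.smoothTransition.contDiff
  have h2 : HasDerivAt (fun x : ℝ => (x₁ - x) / (x₁ - x₀)) (-1 / (x₁ - x₀)) x :=
    ((hasDerivAt_id x).const_sub x₁).div_const _
  have h3 : HasDerivAt Real.smoothTransition
      (deriv Real.smoothTransition ((x₁ - x) / (x₁ - x₀))) ((x₁ - x) / (x₁ - x₀)) :=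
    (hst.differentiable (by simp) _).hasDerivAt
  have h4 : HasDerivAt (stepDown x₀ x₁)
      (deriv Real.smoothTransition ((x₁ - x) / (x₁ - x₀)) * (-1 / (x₁ - x₀))) x := h3.comp x h2
  rw [h4.deriv, abs_mul, abs_div, abs_neg, abs_one, abs_of_pos hpos, mul_one_div]
  exact div_le_div_of_nonneg_right (hM _) hpos.le

/-- the exponent -/
private noncomputable def m05W (x₀ x₁ : ℝ) (c : ℂ) (s x : ℝ) : ℂ :=
  (s : ℂ) * c * (stepDown x₀ x₁ x : ℂ)

private theorem m05_hasDerivAt (x₀ x₁ : ℝ) (c : ℂ) (s x : ℝ) :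
    HasDerivAt (m05W x₀ x₁ c s) ((s : ℂ) * c * ((deriv (stepDown x₀ x₁) x : ℝ) : ℂ)) x := by
  have h1 : HasDerivAt (stepDown x₀ x₁) (deriv (stepDown x₀ x₁) x) x :=
    ((contDiff_stepDown x₀ x₁).differentiable (by simp) x).hasDerivAt
  exact h1.ofReal_comp.const_mul ((s : ℂ) * c)

private theorem m05_re (x₀ x₁ : ℝ) (c : ℂ) (s x : ℝ) :
    (m05W x₀ x₁ c s x).re = s * c.re * stepDown x₀ x₁ x := by
  unfold m05W
  rw [Complex.re_mul_ofReal, Complex.re_ofReal_mul]

private theorem m05_det (α z t : ℂ) (hz : z ≠ 0) :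
    (α • radLin z t).det = ‖α‖ ^ 2 * (1 + t.re) := by
  obtain ⟨p, q, hpq, -, hdet⟩ := exists_ab (radLin z t)
  obtain ⟨p', q', hpq', -, hdet'⟩ := exists_ab (α • radLin z t)
  have e1 := hpq 1
  have e2 := hpq Complex.I
  have e1' := hpq' 1
  have e2' := hpq' Complex.I
  simp only [ContinuousLinearMap.smul_apply, smul_eq_mul, map_one, mul_one, Complex.conj_I] at e1 e2 e1' e2'
  rw [e1] at e1'
  rw [e2] at e2'
  have hI := Complex.I_ne_zero
  have e3 : α * (p - q) = p' - q' := by
    have : (α * (p - q)) * Complex.I = (p' - q') * Complex.I := by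
      linear_combination e2'
    exact mul_right_cancel₀ hI this
  have hp : p' = α * p := by linear_combination -(e1' + e3) / 2
  have hq : q' = α * q := by linear_combination (e3 - e1') / 2
  rw [hdet', hp, hq, norm_mul, norm_mul, mul_pow, mul_pow, ← radLin_det z t hz, hdet]
  ring

private theorem m05_ne {a b : ℝ} {z : ℂ} (hz : z ∈ LAn a b) : z ≠ 0 :=
  norm_pos_iff.1 ((Real.exp_pos a).trans hz.1)

private theorem m05_far {x₀ x₁ : ℝ} (h : x₀ < x₁) (c : ℂ) (s : ℝ) {z : ℂ}
    (hz : Real.exp x₁ ≤ ‖z‖) : radMap (m05W x₀ x₁ c s) z = z := by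
  have hpos : 0 < ‖z‖ := (Real.exp_pos _).trans_le hz
  have hlog : x₁ ≤ Real.log ‖z‖ := (Real.le_log_iff_exp_le hpos).2 hz
  unfold radMap m05W
  rw [stepDown_of_ge h hlog]
  simp

private theorem m05_near {x₀ x₁ : ℝ} (h : x₀ < x₁) (c : ℂ) (s : ℝ) {z : ℂ} (hz0 : z ≠ 0)
    (hz : ‖z‖ ≤ Real.exp x₀) : radMap (m05W x₀ x₁ c s) z = z * Complex.exp (s * c) := by
  have hpos : 0 < ‖z‖ := norm_pos_iff.2 hz0
  have hlog : Real.log ‖z‖ ≤ x₀ := (Real.log_le_iff_le_exp hpos).2 hz
  unfold radMap m05W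
  rw [stepDown_of_le h hlog]
  simp

private theorem m05_contDiffAt (x₀ x₁ : ℝ) (c : ℂ) (s : ℝ) {z : ℂ} (hz : z ≠ 0) :
    ContDiffAt ℝ ∞ (radMap (m05W x₀ x₁ c s)) z := by
  unfold radMap m05W
  have hn : ContDiffAt ℝ ∞ (fun z : ℂ => ‖z‖) z := contDiffAt_id.norm ℝ hz
  have hl : ContDiffAt ℝ ∞ (fun z : ℂ => Real.log ‖z‖) z := hn.log (norm_ne_zero_iff.2 hz)
  have hw : ContDiffAt ℝ ∞ (fun z : ℂ => stepDown x₀ x₁ (Real.log ‖z‖)) z :=
    (contDiff_stepDown x₀ x₁).contDiffAt.comp z hl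
  have hwc : ContDiffAt ℝ ∞ (fun z : ℂ => ((stepDown x₀ x₁ (Real.log ‖z‖) : ℝ) : ℂ)) z :=
    Complex.ofRealCLM.contDiff.contDiffAt.comp z hw
  exact contDiffAt_id.mul (contDiffAt_const.mul hwc).cexp

/-- the family of radial maps; the constant `c` (real part: stretching, imaginary part: twist) is
small with respect to the length of the transition interval -/
theorem exists_radFam : ∃ δ A0 : ℝ, 0 < δ ∧ 0 < A0 ∧ ∀ (a b x₀ x₁ : ℝ) (c : ℂ), a < x₀ → x₀ < x₁ →
    x₁ < b → ‖c‖ ≤ δ * (x₁ - x₀) →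
    QcFam (LAn a b) {z | Real.exp x₀ ≤ ‖z‖ ∧ ‖z‖ ≤ Real.exp x₁} (A0 * ‖c‖ / (x₁ - x₀))
      (fun s => radMap (fun x => (s : ℂ) * c * (stepDown x₀ x₁ x : ℂ))) ∧
    ∀ s ∈ Icc (0 : ℝ) 1,
      radMap (fun x => (s : ℂ) * c * (stepDown x₀ x₁ x : ℂ)) '' LAn a b = LAn (a + s * c.re) b ∧
      (∀ z, Real.exp x₁ ≤ ‖z‖ →
        radMap (fun x => (s : ℂ) * c * (stepDown x₀ x₁ x : ℂ)) z = z) ∧
      ∀ z, z ≠ 0 → ‖z‖ ≤ Real.exp x₀ →
        radMap (fun x => (s : ℂ) * c * (stepDown x₀ x₁ x : ℂ)) z = z * Complex.exp (s * c) := by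
  obtain ⟨M, hM1, hM⟩ := exists_stepDown_bound
  obtain ⟨C, hC1, hC⟩ := rad_close (c := 1 / 2) (by norm_num) (by norm_num)
  have hM0 : 0 < M := by linarith
  have hC0 : 0 < C := by linarith
  refine ⟨1 / (4 * M), C * M, by positivity, by positivity, ?_⟩
  intro a b x₀ x₁ c ha h01 hb hc
  have hd : 0 < x₁ - x₀ := by linarith
  set κ : ℝ := M * ‖c‖ / (x₁ - x₀) with hκ
  have hκ0 : 0 ≤ κ := by positivity
  have hκ4 : κ ≤ 1 / 4 := by
    rw [hκ, div_le_iff₀ hd]
    calc M * ‖c‖ ≤ M * (1 / (4 * M) * (x₁ - x₀)) := mul_le_mul_of_nonneg_left hc hM0.le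
      _ = 1 / 4 * (x₁ - x₀) := by field_simp
  -- size of the derivative of the exponent
  have hder : ∀ x, ‖c‖ * |deriv (stepDown x₀ x₁) x| ≤ κ := by
    intro x
    calc ‖c‖ * |deriv (stepDown x₀ x₁) x| ≤ ‖c‖ * (M / (x₁ - x₀)) :=
          mul_le_mul_of_nonneg_left (hM x₀ x₁ x h01) (norm_nonneg c)
      _ = κ := by rw [hκ]; ring
  have hnorm : ∀ s ∈ Icc (0 : ℝ) 1, ∀ x, ‖(s : ℂ) * c * ((deriv (stepDown x₀ x₁) x : ℝ) : ℂ)‖ ≤ κ := by
    intro s hs x
    rw [norm_mul, norm_mul, Complex.norm_real, Complex.norm_real, Real.norm_eq_abs,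
      Real.norm_eq_abs, abs_of_nonneg hs.1, mul_assoc]
    have h1 := hder x
    have h2 : 0 ≤ ‖c‖ * |deriv (stepDown x₀ x₁) x| := by positivity
    calc s * (‖c‖ * |deriv (stepDown x₀ x₁) x|) ≤ 1 * (‖c‖ * |deriv (stepDown x₀ x₁) x|) :=
          mul_le_mul_of_nonneg_right hs.2 h2
      _ ≤ κ := by linarith
  have hre : ∀ s ∈ Icc (0 : ℝ) 1, ∀ x,
      3 / 4 ≤ 1 + ((s : ℂ) * c * ((deriv (stepDown x₀ x₁) x : ℝ) : ℂ)).re := by
    intro s hs x
    have h1 := (abs_le.1 (Complex.abs_re_le_norm ((s : ℂ) * c *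
      ((deriv (stepDown x₀ x₁) x : ℝ) : ℂ)))).1
    have h2 := hnorm s hs x
    linarith
  have hF : ∀ (s : ℝ) (z : ℂ), z ≠ 0 → HasFDerivAt (radMap (m05W x₀ x₁ c s))
      (Complex.exp (m05W x₀ x₁ c s (Real.log ‖z‖)) •
        radLin z ((s : ℂ) * c * ((deriv (stepDown x₀ x₁) (Real.log ‖z‖) : ℝ) : ℂ))) z := fun s z hz =>
    radMap_hasFDerivAt _ _ z hz (m05_hasDerivAt x₀ x₁ c s _)
  have hdet : ∀ s ∈ Icc (0 : ℝ) 1, ∀ z : ℂ, z ≠ 0 →
      0 < (fderiv ℝ (radMap (m05W x₀ x₁ c s)) z).det := by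
    intro s hs z hz
    rw [(hF s z hz).fderiv, m05_det _ _ _ hz]
    have h1 := hre s hs (Real.log ‖z‖)
    have h2 : 0 < ‖Complex.exp (m05W x₀ x₁ c s (Real.log ‖z‖))‖ ^ 2 :=
      pow_pos (norm_pos_iff.2 (Complex.exp_ne_zero _)) 2
    exact mul_pos h2 (by linarith)
  -- the real function
  have hmono : ∀ s ∈ Icc (0 : ℝ) 1, StrictMono (fun x => x + (m05W x₀ x₁ c s x).re) := by
    intro s hs
    have h1 : ∀ x, HasDerivAt (fun x => x + (m05W x₀ x₁ c s x).re)
        (1 + ((s : ℂ) * c * ((deriv (stepDown x₀ x₁) x : ℝ) : ℂ)).re) x := by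
      intro x
      have h2 : HasDerivAt (fun x => (m05W x₀ x₁ c s x).re)
          ((s : ℂ) * c * ((deriv (stepDown x₀ x₁) x : ℝ) : ℂ)).re x := by
        have h3 := (Complex.reCLM.hasFDerivAt (x := m05W x₀ x₁ c s x)).comp_hasDerivAt x
          (m05_hasDerivAt x₀ x₁ c s x)
        exact h3
      exact (hasDerivAt_id x).add h2
    refine strictMono_of_deriv_pos fun x => ?_
    rw [(h1 x).deriv]
    have := hre s hs x
    linarith
  have hinj : ∀ s ∈ Icc (0 : ℝ) 1, ∀ z z' : ℂ, z ≠ 0 → z' ≠ 0 →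
      radMap (m05W x₀ x₁ c s) z = radMap (m05W x₀ x₁ c s) z' → z = z' := by
    intro s hs z z' hz hz' h
    have h1 : Real.log ‖z‖ = Real.log ‖z'‖ := by
      apply (hmono s hs).injective
      simp only
      rw [← radMap_norm _ z hz, ← radMap_norm _ z' hz', h]
    unfold radMap at h
    rw [h1] at h
    exact mul_right_cancel₀ (Complex.exp_ne_zero _) h
  have hK : ({z : ℂ | Real.exp x₀ ≤ ‖z‖ ∧ ‖z‖ ≤ Real.exp x₁}) ⊆ LAn a b := by
    intro z hz
    exact ⟨(Real.exp_lt_exp.2 ha).trans_le hz.1, hz.2.trans_lt (Real.exp_lt_exp.2 hb)⟩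
  refine ⟨?_, ?_⟩
  · have hfam : QcFam (LAn a b) {z | Real.exp x₀ ≤ ‖z‖ ∧ ‖z‖ ≤ Real.exp x₁}
        (C * M * ‖c‖ / (x₁ - x₀)) (fun s => radMap (m05W x₀ x₁ c s)) := by
      refine ⟨by positivity, ?_, hK, ?_, ?_, ?_, ?_, ?_, ?_⟩
      · apply Metric.isCompact_of_isClosed_isBounded
        · exact (isClosed_le continuous_const continuous_norm).inter
            (isClosed_le continuous_norm continuous_const)
        · rw [Metric.isBounded_iff_subset_closedBall 0]
          refine ⟨Real.exp x₁, fun ζ hζ => ?_⟩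
          rw [mem_closedBall_zero_iff]
          exact hζ.2
      · intro z _
        simp [radMap, m05W]
      · intro s _ z hz
        exact (m05_contDiffAt x₀ x₁ c s (m05_ne hz)).contDiffWithinAt
      · intro s hs z hz z' hz' h
        exact hinj s hs z z' (m05_ne hz) (m05_ne hz') h
      · intro s hs z hz
        exact hdet s hs z (m05_ne hz)
      · intro s _ z hz
        have hz0 := m05_ne hz.1
        have h1 : ‖z‖ < Real.exp x₀ ∨ Real.exp x₁ < ‖z‖ := by
          by_contra hcon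
          rw [not_or, not_lt, not_lt] at hcon
          exact hz.2 hcon
        rcases h1 with h1 | h1
        · have he : radMap (m05W x₀ x₁ c s) =ᶠ[𝓝 z] fun z => z * Complex.exp (s * c) := by
            filter_upwards [(isOpen_lt continuous_norm continuous_const).mem_nhds h1,
              isOpen_ne.mem_nhds hz0] with y hy hy0
            exact m05_near h01 c s hy0 (le_of_lt hy)
          have h2 : DifferentiableAt ℂ (fun z : ℂ => z * Complex.exp (s * c)) z :=
            differentiableAt_id.mul_const _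
          exact (h2.congr_of_eventuallyEq he).differentiableWithinAt
        · have he : radMap (m05W x₀ x₁ c s) =ᶠ[𝓝 z] fun z => z := by
            filter_upwards [(isOpen_lt continuous_const continuous_norm).mem_nhds h1] with y hy
            exact m05_far h01 c s (le_of_lt hy)
          exact (differentiableAt_id.congr_of_eventuallyEq he).differentiableWithinAt
      · intro s hs t ht z hz B hB
        have hz0 := m05_ne hz
        have hA : 0 ≤ C * M * ‖c‖ / (x₁ - x₀) := by positivity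
        have hAκ : C * M * ‖c‖ / (x₁ - x₀) = C * κ := by rw [hκ]; ring
        refine close_of_local hA (δ := 1 / C) (by positivity)
          (fun s => fderiv ℝ (radMap (m05W x₀ x₁ c s)) z) (fun e he => hdet e he z hz0) ?_
          s hs t ht B hB
        intro e he e' he' hee B hB
        rw [(hF e' z hz0).fderiv]
        rw [(hF e z hz0).fderiv] at hB
        set T := fun e : ℝ => (e : ℂ) * c * ((deriv (stepDown x₀ x₁) (Real.log ‖z‖) : ℝ) : ℂ) with hT
        have hdiff : ‖T e' - T e‖ ≤ κ * |e' - e| := by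
          have h1 : T e' - T e = ((e' - e : ℝ) : ℂ) * (c *
              ((deriv (stepDown x₀ x₁) (Real.log ‖z‖) : ℝ) : ℂ)) := by
            rw [hT]
            push_cast
            ring
          rw [h1, norm_mul, norm_mul, Complex.norm_real, Complex.norm_real, Real.norm_eq_abs,
            Real.norm_eq_abs, mul_comm]
          exact mul_le_mul_of_nonneg_right (hder _) (abs_nonneg _)
        have h2 : C * ‖T e' - T e‖ ≤ 1 := by
          have h3 : C * |e' - e| ≤ 1 := by
            rw [le_div_iff₀ hC0] at hee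
            linarith
          calc C * ‖T e' - T e‖ ≤ C * (κ * |e' - e|) := mul_le_mul_of_nonneg_left hdiff hC0.le
            _ = κ * (C * |e' - e|) := by ring
            _ ≤ κ * 1 := mul_le_mul_of_nonneg_left h3 hκ0
            _ ≤ 1 := by linarith
        have h4 := hC z (T e) (T e') _ (Complex.exp (m05W x₀ x₁ c e' (Real.log ‖z‖))) B hz0
          (Complex.exp_ne_zero (m05W x₀ x₁ c e (Real.log ‖z‖))) (Complex.exp_ne_zero _)
          (by have := hre e he (Real.log ‖z‖); simp only [hT]; linarith)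
          (by have := hnorm e he (Real.log ‖z‖); simp only [hT]; linarith) h2 hB
        refine h4.mono ?_
        rw [hAκ]
        have h5 := mul_le_mul_of_nonneg_left hdiff hC0.le
        linarith
    exact hfam
  · intro s hs
    refine ⟨?_, fun z hz => m05_far h01 c s hz, fun z hz0 hz => m05_near h01 c s hz0 hz⟩
    have hab : a < b := by linarith
    have hG := hmono s hs
    have hGa : a + (m05W x₀ x₁ c s a).re = a + s * c.re := by
      rw [m05_re, stepDown_of_le h01 ha.le, mul_one]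
    have hGb : b + (m05W x₀ x₁ c s b).re = b := by
      rw [m05_re, stepDown_of_ge h01 hb.le, mul_zero, add_zero]
    have hlt : a + s * c.re < b := by
      have := hG hab
      simp only at this
      rw [hGa, hGb] at this
      exact this
    have hcont : Continuous (fun x => x + (m05W x₀ x₁ c s x).re) := by
      have h1 : Continuous (stepDown x₀ x₁) := (contDiff_stepDown x₀ x₁).continuous
      have h2 : (fun x => x + (m05W x₀ x₁ c s x).re) =
          fun x => x + s * c.re * stepDown x₀ x₁ x := by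
        funext x
        rw [m05_re]
      rw [h2]
      fun_prop
    have hbij : Set.BijOn (fun x => x + (m05W x₀ x₁ c s x).re)
        (Ioo (Real.log (Real.exp a)) (Real.log (Real.exp b)))
        (Ioo (Real.log (Real.exp (a + s * c.re))) (Real.log (Real.exp b))) := by
      rw [Real.log_exp, Real.log_exp, Real.log_exp]
      refine ⟨?_, hG.injective.injOn, ?_⟩
      · intro x hx
        have h1 := hG hx.1
        have h2 := hG hx.2
        simp only at h1 h2
        rw [hGa] at h1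
        rw [hGb] at h2
        exact ⟨h1, h2⟩
      · have h1 := intermediate_value_Ioo hab.le hcont.continuousOn
        rw [hGa, hGb] at h1
        exact h1
    have h1 := radMap_bijOn (m05W x₀ x₁ c s) (Real.exp_pos a) (Real.exp_lt_exp.2 hab)
      (Real.exp_pos (a + s * c.re)) (Real.exp_lt_exp.2 hlt) hbij
    exact h1.image_eq

end Pool.Agent.Lib.MP_cca10c_ag
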