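import Pool.Agent.Lib.MP_cca10c_ag.P07_Len

/-! Module P: the distortion is linear as soon as every point of the Schottky locus is at bounded
cost from a standard one. -/

set_option autoImplicit false

open Topology Set Matrix
open scoped ENNReal

namespace Pool.Agent.Lib.MP_cca10c_ag

private theorem log_diff {a b C R : ℝ} (ha : 0 < a) (hb : 0 < b) (hC : 1 ≤ C)
    (h1 : a ≤ C * Real.exp R * b) (h2 : b ≤ C * Real.exp R * a) :
    |Real.log a - Real.log b| ≤ Real.log C + R := by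
  have hC0 : (0 : ℝ) < C := by linarith
  have e1 := Real.log_le_log ha h1
  have e2 := Real.log_le_log hb h2
  rw [Real.log_mul (by positivity) hb.ne', Real.log_mul hC0.ne' (Real.exp_pos _).ne',
    Real.log_exp] at e1
  rw [Real.log_mul (by positivity) ha.ne', Real.log_mul hC0.ne' (Real.exp_pos _).ne',
    Real.log_exp] at e2
  rw [abs_le]
  constructor <;> linarith

private theorem conn_of_same {g : ℕ} {Z W : Matrix (Fin g) (Fin g) ℂ} (hZ : Z ∈ Schottky g)
    (h0 : SamePt Z Z) (h : SamePt Z W) : Conn g Z W 0 := by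
  refine ⟨fun _ => Z, fun _ => 0, fun t _ => hZ, fun a _ b _ _ => le_rfl, continuousOn_const,
    by norm_num, h0, h, fun s _ t _ _ => ?_⟩
  simpa using LE'_same hZ.1 h0

theorem assembly (g : ℕ) (C l0 : ℝ) (hC : 1 ≤ C) (hl0 : 0 < l0)
    (Std : (Fin g → ℝ) → Set (Matrix (Fin g) (Fin g) ℂ))
    (h1 : ∀ lam, Adm l0 lam → ∀ W ∈ Std lam, W ∈ Schottky g)
    (h1' : ∀ lam, Adm l0 lam → ∀ W ∈ Std lam, ∀ W' ∈ Std lam, SamePt W W')
    (h2 : ∀ Z ∈ Schottky g, ∃ lam, Adm l0 lam ∧ ∃ W ∈ Std lam, Conn g Z W C)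
    (h3 : ∀ lam lam', Adm l0 lam → Adm l0 lam' → ∀ W ∈ Std lam, ∃ W' ∈ Std lam',
      Conn g W W' (C * ∑ i, |Real.log (lam i) - Real.log (lam' i)|))
    (h4 : ∀ lam lam', Adm l0 lam → Adm l0 lam' → ∀ W ∈ Std lam, ∀ W' ∈ Std lam', ∀ r : ℝ, 0 ≤ r →
      LE' r W W' → ∀ i, lam i ≤ C * Real.exp r * lam' i) :
    SameGrowth (distortion g) (fun r => ENNReal.ofReal r) := by
  have hlogC : 0 ≤ Real.log C := Real.log_nonneg hC
  have hq : 0 ≤ Real.sqrt (2 * g) := Real.sqrt_nonneg _
  -- the main estimate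
  have main : ∀ Z ∈ Schottky g, ∀ W ∈ Schottky g, ∀ r : ℝ, 0 ≤ r → dA Z W ≤ r →
      dS Z W ≤ ENNReal.ofReal (Real.sqrt (2 * g) *
        (C + (C * (g * (Real.log C + (C + (r + 1 + C)))) + (0 + C)))) := by
    intro Z hZ W hW r hr hd
    obtain ⟨lam, hlam, V, hV, hZV⟩ := h2 Z hZ
    obtain ⟨lam', hlam', V', hV', hWV'⟩ := h2 W hW
    have hVS := h1 lam hlam V hV
    have hVS' := h1 lam' hlam' V' hV'
    have a1 : LE' (r + 1) Z W := LE'_of_dA hZ.1 hW.1 hd (by linarith)
    have a2 : LE' C V Z := Conn.le hVS.1 hZ.1 hZV.symm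
    have a3 : LE' C W V' := Conn.le hW.1 hVS'.1 hWV'
    have a4 : LE' (C + (r + 1 + C)) V V' := LE'_trans a2 (LE'_trans a1 a3)
    have a5 : LE' (C + (r + 1 + C)) V' V := LE'_symm hVS.1 hVS'.1 a4
    have hR : 0 ≤ C + (r + 1 + C) := by linarith
    have b1 := h4 lam lam' hlam hlam' V hV V' hV' _ hR a4
    have b2 := h4 lam' lam hlam' hlam V' hV' V hV _ hR a5
    obtain ⟨U, hU, hc⟩ := h3 lam lam' hlam hlam' V hV
    have hUS := h1 lam' hlam' U hU
    have hsum : ∑ i, |Real.log (lam i) - Real.log (lam' i)| ≤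
        g * (Real.log C + (C + (r + 1 + C))) := by
      calc ∑ i, |Real.log (lam i) - Real.log (lam' i)|
          ≤ ∑ _i : Fin g, (Real.log C + (C + (r + 1 + C))) :=
            Finset.sum_le_sum fun i _ => log_diff (hl0.trans_le (hlam.2 i))
              (hl0.trans_le (hlam'.2 i)) hC (b1 i) (b2 i)
        _ = g * (Real.log C + (C + (r + 1 + C))) := by
            rw [Finset.sum_const, Finset.card_univ, Fintype.card_fin, nsmul_eq_mul]
    have hc' : Conn g V U (C * (g * (Real.log C + (C + (r + 1 + C))))) :=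
      hc.mono (mul_le_mul_of_nonneg_left hsum (by linarith))
    have hs : Conn g U V' 0 := conn_of_same hUS (h1' lam' hlam' U hU U hU)
      (h1' lam' hlam' U hU V' hV')
    have t1 : Conn g U W (0 + C) := Conn.trans hUS.1 hVS'.1 hW.1 hs hWV'.symm
    have t2 := Conn.trans hVS.1 hUS.1 hW.1 hc' t1
    have t3 := Conn.trans hZ.1 hVS.1 hW.1 hZV t2
    exact t3.dS_le
  refine ⟨?_, ?_⟩
  · refine ⟨1 + Real.sqrt (2 * g) *
        (C + (C * (g * (Real.log C + (C + (1 + C)))) + (0 + C))) +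
        Real.sqrt (2 * g) * (C * g), ?_, fun r hr => ?_⟩
    · have : 0 ≤ Real.sqrt (2 * g) *
        (C + (C * (g * (Real.log C + (C + (1 + C)))) + (0 + C))) := by positivity
      have : 0 ≤ Real.sqrt (2 * g) * (C * g) := by positivity
      linarith
    · unfold distortion
      refine iSup_le ?_
      rintro ⟨q, hq1, hq2, hq3⟩
      simp only
      refine (main q.1 hq1 q.2 hq2 r hr hq3).trans ?_
      refine le_trans (ENNReal.ofReal_le_ofReal ?_) le_add_self
      have e1 : 0 ≤ Real.sqrt (2 * g) *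
        (C + (C * (g * (Real.log C + (C + (1 + C)))) + (0 + C))) := by positivity
      have e2 : 0 ≤ Real.sqrt (2 * g) * (C * g) := by positivity
      have e3 : Real.sqrt (2 * g) *
        (C + (C * (g * (Real.log C + (C + (r + 1 + C)))) + (0 + C))) =
        Real.sqrt (2 * g) *
        (C + (C * (g * (Real.log C + (C + (1 + C)))) + (0 + C))) +
        Real.sqrt (2 * g) * (C * g) * r := by ring
      rw [e3]
      nlinarith [mul_nonneg e1 hr, mul_nonneg e2 hr]
  · refine ⟨1, le_rfl, fun r hr => ?_⟩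
    simp only
    refine le_trans (ENNReal.ofReal_le_ofReal ?_) le_add_self
    linarith

end Pool.Agent.Lib.MP_cca10c_ag
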