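import Pool.Agent.Lib.MP_cca10c_ag.K07_State
import Pool.Agent.Lib.MP_cca10c_ag.P08_Asm
import Pool.Agent.Lib.MP_cca10c_ag.M03_Path
import Pool.Agent.Lib.MP_cca10c_ag.M05_Radial
import Pool.Agent.Lib.MP_cca10c_ag.Pl.QcRad
import Pool.Agent.Lib.MP_cca10c_ag.Pl.QcFam

/-!
# Module K: lengthening an annulus (from module M)

`Θ_s (ζ) = ζ exp (s σ (log |ζ|))` on `e.target`, `σ t = (L - l) (1 - 2 stepDown (-l/2) (l/2) t)` (smooth,
increasing, `-(L - l)` for `t ≤ -l/2`, `L - l` for `t ≥ l/2`); `K = {e^(-l/2) ≤ |ζ| ≤ e^(l/2)}`.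
`exists_family`, `path_basic`. The new annulus chart is `Θ_1 ∘ e`.
`betaC` of the old and of the new chart: both are reductions of functions with the jump `-1` at the same core and
`0` outside the annulus, so the difference is the reduction of a continuous real function.
-/

set_option autoImplicit false

open Topology Set MeasureTheory
open scoped ContDiff

namespace Pool.Agent.Lib.MP_cca10c_ag

open Pool.Agent.CcaPl

/-- the profile -/
private noncomputable def k09σ (l L x : ℝ) : ℝ := (L - l) * (1 - 2 * stepDown (-(l / 2)) (l / 2) x)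

/-- the exponent -/
private noncomputable def k09W (l L s x : ℝ) : ℂ := ((s * k09σ l L x : ℝ) : ℂ)

private theorem k09_hasDerivAt (l L x : ℝ) :
    HasDerivAt (k09σ l L) ((L - l) * (-(2 * deriv (stepDown (-(l / 2)) (l / 2)) x))) x := by
  have h1 : HasDerivAt (stepDown (-(l / 2)) (l / 2)) (deriv (stepDown (-(l / 2)) (l / 2)) x) x :=
    ((contDiff_stepDown _ _).differentiable (by simp) x).hasDerivAt
  exact ((h1.const_mul 2).const_sub 1).const_mul (L - l)

private theorem k09_deriv_nonneg {l L : ℝ} (hl : 0 < l) (hL : l ≤ L) (x : ℝ) :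
    0 ≤ deriv (k09σ l L) x := by
  have h1 : Monotone (k09σ l L) := by
    intro x y hxy
    unfold k09σ
    have h2 : stepDown (-(l / 2)) (l / 2) y ≤ stepDown (-(l / 2)) (l / 2) x := by
      unfold stepDown
      apply Real.smoothTransition.monotone
      apply div_le_div_of_nonneg_right _ (by linarith)
      linarith
    apply mul_le_mul_of_nonneg_left _ (by linarith)
    linarith
  exact h1.deriv_nonneg

private theorem k09_half : Real.smoothTransition (1 / 2) = 1 / 2 := by
  unfold Real.smoothTransition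
  have h : (1 : ℝ) - 1 / 2 = 1 / 2 := by norm_num
  have h1 : 0 < expNegInvGlue (1 / 2) := expNegInvGlue.pos_of_pos (by norm_num)
  rw [h]
  field_simp
  norm_num

private theorem k09_zero {l L : ℝ} (hl : 0 < l) : k09σ l L 0 = 0 := by
  unfold k09σ stepDown
  have h : (l / 2 - 0) / (l / 2 - -(l / 2)) = 1 / 2 := by
    rw [div_eq_div_iff (by linarith) (by norm_num)]
    ring
  rw [h, k09_half]
  norm_num

private theorem k09_le {l L x : ℝ} (hl : 0 < l) (hx : x ≤ -(l / 2)) : k09σ l L x = -(L - l) := by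
  unfold k09σ
  rw [stepDown_of_le (by linarith) hx]
  ring

private theorem k09_ge {l L x : ℝ} (hl : 0 < l) (hx : l / 2 ≤ x) : k09σ l L x = L - l := by
  unfold k09σ
  rw [stepDown_of_ge (by linarith) hx]
  ring

private theorem k09_mono {l L : ℝ} (hl : 0 < l) (hL : l ≤ L) {s : ℝ} (hs : s ∈ Icc (0 : ℝ) 1) :
    StrictMono (fun x => x + (k09W l L s x).re) := by
  have h1 : ∀ x, HasDerivAt (fun x => x + (k09W l L s x).re) (1 + s * deriv (k09σ l L) x) x := by
    intro x
    have h2 : HasDerivAt (k09σ l L) (deriv (k09σ l L) x) x := (k09_hasDerivAt l L x).differentiableAt.hasDerivAt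
    have h3 := (hasDerivAt_id x).add (h2.const_mul s)
    have h4 : (fun x => x + (k09W l L s x).re) = id + fun y => s * k09σ l L y := by
      funext y
      unfold k09W
      rw [Complex.ofReal_re]
      rfl
    rw [h4]
    exact h3
  refine strictMono_of_deriv_pos fun x => ?_
  rw [(h1 x).deriv]
  have := mul_nonneg hs.1 (k09_deriv_nonneg hl hL x)
  linarith

private theorem k09_fderiv (l L s : ℝ) (z : ℂ) (hz : z ≠ 0) :
    HasFDerivAt (radMap (k09W l L s)) (Complex.exp (k09W l L s (Real.log ‖z‖)) •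
      radLin z ((s * deriv (k09σ l L) (Real.log ‖z‖) : ℝ) : ℂ)) z := by
  refine radMap_hasFDerivAt _ _ z hz ?_
  have h2 : HasDerivAt (k09σ l L) (deriv (k09σ l L) (Real.log ‖z‖)) (Real.log ‖z‖) :=
    (k09_hasDerivAt l L _).differentiableAt.hasDerivAt
  exact (h2.const_mul s).ofReal_comp

/-- determinant of a complex multiple -/
private theorem k09_det (α z t : ℂ) (hz : z ≠ 0) :
    (α • radLin z t).det = ‖α‖ ^ 2 * (1 + t.re) := by
  obtain ⟨p, q, hpq, -, hdet⟩ := exists_ab (radLin z t)
  obtain ⟨p', q', hpq', -, hdet'⟩ := exists_ab (α • radLin z t)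
  have e1 := hpq 1
  have e2 := hpq Complex.I
  have e1' := hpq' 1
  have e2' := hpq' Complex.I
  simp only [_root_.smul_apply, smul_eq_mul, map_one, mul_one, Complex.conj_I] at e1 e2 e1' e2'
  rw [e1] at e1'
  rw [e2] at e2'
  have hI := Complex.I_ne_zero
  have e3 : α * (p - q) = p' - q' := by
    have : (α * (p - q)) * Complex.I = (p' - q') * Complex.I := by
      linear_combination e2'
    exact mul_right_cancel₀ hI this
  have hp : p' = α * p := by linear_combination -(e1' + e3) / 2
  have hq : q' = α * q := by linear_combination (e3 - e1') / 2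
  rw [hdet', hp, hq, norm_mul, norm_mul, mul_pow, mul_pow, ← radLin_det z t hz, hdet]
  ring

private theorem k09_contDiffAt (l L s : ℝ) {z : ℂ} (hz : z ≠ 0) :
    ContDiffAt ℝ ∞ (radMap (k09W l L s)) z := by
  unfold radMap k09W k09σ
  have hn : ContDiffAt ℝ ∞ (fun z : ℂ => ‖z‖) z := contDiffAt_id.norm ℝ hz
  have hl : ContDiffAt ℝ ∞ (fun z : ℂ => Real.log ‖z‖) z := hn.log (norm_ne_zero_iff.2 hz)
  have hw : ContDiffAt ℝ ∞ (fun z : ℂ => stepDown (-(l / 2)) (l / 2) (Real.log ‖z‖)) z :=
    (contDiff_stepDown _ _).contDiffAt.comp z hl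
  have hwc : ContDiffAt ℝ ∞ (fun z : ℂ =>
      ((s * ((L - l) * (1 - 2 * stepDown (-(l / 2)) (l / 2) (Real.log ‖z‖))) : ℝ) : ℂ)) z :=
    Complex.ofRealCLM.contDiff.contDiffAt.comp z
      (contDiffAt_const.mul (contDiffAt_const.mul (contDiffAt_const.sub (contDiffAt_const.mul hw))))
  exact contDiffAt_id.mul hwc.cexp

/-- the family -/
private theorem k09_qcFam {c0 L : ℝ} (hc0 : 0 < c0) : ∃ A : ℝ, 0 ≤ A ∧ ∀ l : ℝ, c0 ≤ l → l ≤ L →
    QcFam {ζ : ℂ | Real.exp (-l) < ‖ζ‖ ∧ ‖ζ‖ < Real.exp l}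
      {z | Real.exp (-(l / 2)) ≤ ‖z‖ ∧ ‖z‖ ≤ Real.exp (l / 2)} A
      (fun s => radMap (k09W l L s)) := by
  obtain ⟨M, hM1, hM⟩ := exists_stepDown_bound
  set κ : ℝ := 2 * |L| * M / c0 with hκ
  have hκ0 : 0 ≤ κ := by positivity
  obtain ⟨C, hC1, hC⟩ := rad_close (c := 1 / (1 + κ)) (by positivity)
    (by rw [div_le_one (by positivity)]; linarith)
  have hC0 : 0 < C := by linarith
  refine ⟨C * κ, by positivity, fun l hcl hlL => ?_⟩
  have hl : 0 < l := lt_of_lt_of_le hc0 hcl
  have hder : ∀ x, deriv (k09σ l L) x ≤ κ := by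
    intro x
    rw [(k09_hasDerivAt l L x).deriv]
    have h1 := hM (-(l / 2)) (l / 2) x (by linarith)
    have h2 : l / 2 - -(l / 2) = l := by ring
    rw [h2] at h1
    have h3 : -(2 * deriv (stepDown (-(l / 2)) (l / 2)) x) ≤ 2 * (M / l) := by
      have := neg_le_abs (deriv (stepDown (-(l / 2)) (l / 2)) x)
      linarith
    have h4 : L - l ≤ |L| := by
      have := le_abs_self L
      linarith
    have h5 : M / l ≤ M / c0 := by
      apply div_le_div_of_nonneg_left (by linarith) hc0 hcl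
    have h6 : 0 ≤ M / l := by positivity
    calc (L - l) * -(2 * deriv (stepDown (-(l / 2)) (l / 2)) x)
        ≤ (L - l) * (2 * (M / l)) := mul_le_mul_of_nonneg_left h3 (by linarith)
      _ ≤ |L| * (2 * (M / c0)) := mul_le_mul h4 (by linarith) (by positivity) (abs_nonneg _)
      _ = κ := by rw [hκ]; ring
  have hne : ∀ z ∈ {ζ : ℂ | Real.exp (-l) < ‖ζ‖ ∧ ‖ζ‖ < Real.exp l}, z ≠ 0 := fun z hz =>
    norm_pos_iff.1 ((Real.exp_pos _).trans hz.1)
  have hdet : ∀ s ∈ Icc (0 : ℝ) 1, ∀ z : ℂ, z ≠ 0 →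
      0 < (fderiv ℝ (radMap (k09W l L s)) z).det := by
    intro s hs z hz
    rw [(k09_fderiv l L s z hz).fderiv, k09_det _ _ _ hz]
    have h1 := mul_nonneg hs.1 (k09_deriv_nonneg hl hlL (Real.log ‖z‖))
    have h2 : 0 < ‖Complex.exp (k09W l L s (Real.log ‖z‖))‖ ^ 2 :=
      pow_pos (norm_pos_iff.2 (Complex.exp_ne_zero _)) 2
    rw [Complex.ofReal_re]
    exact mul_pos h2 (by linarith)
  refine ⟨by positivity, ?_, ?_, ?_, ?_, ?_, ?_, ?_, ?_⟩
  · apply Metric.isCompact_of_isClosed_isBounded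
    · exact (isClosed_le continuous_const continuous_norm).inter
        (isClosed_le continuous_norm continuous_const)
    · rw [Metric.isBounded_iff_subset_closedBall 0]
      refine ⟨Real.exp (l / 2), fun ζ hζ => ?_⟩
      rw [mem_closedBall_zero_iff]
      exact hζ.2
  · intro z hz
    exact ⟨(Real.exp_lt_exp.2 (by linarith)).trans_le hz.1,
      hz.2.trans_lt (Real.exp_lt_exp.2 (by linarith))⟩
  · intro z _
    simp [radMap, k09W]
  · intro s _ z hz
    exact (k09_contDiffAt l L s (hne z hz)).contDiffWithinAt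
  · intro s hs z hz z' hz' h
    have h1 : Real.log ‖z‖ = Real.log ‖z'‖ := by
      apply (k09_mono hl hlL hs).injective
      simp only
      rw [← radMap_norm _ z (hne z hz), ← radMap_norm _ z' (hne z' hz')]
      exact congrArg (fun w => Real.log ‖w‖) h
    simp only [radMap] at h
    rw [h1] at h
    exact mul_right_cancel₀ (Complex.exp_ne_zero _) h
  · intro s hs z hz
    exact hdet s hs z (hne z hz)
  · intro s _ z hz
    have hz0 := hne z hz.1
    have h1 : ‖z‖ < Real.exp (-(l / 2)) ∨ Real.exp (l / 2) < ‖z‖ := by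
      by_contra hcon
      rw [not_or, not_lt, not_lt] at hcon
      exact hz.2 hcon
    rcases h1 with h1 | h1
    · have he : radMap (k09W l L s) =ᶠ[𝓝 z] fun z => z * Complex.exp ((s * -(L - l) : ℝ) : ℂ) := by
        filter_upwards [(isOpen_lt continuous_norm continuous_const).mem_nhds h1,
          isOpen_ne.mem_nhds hz0] with y hy hy0
        unfold radMap k09W
        rw [k09_le hl ((Real.log_le_iff_le_exp (norm_pos_iff.2 hy0)).2 (le_of_lt hy))]
      have h2 : DifferentiableAt ℂ (fun z : ℂ => z * Complex.exp ((s * -(L - l) : ℝ) : ℂ)) z :=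
        differentiableAt_id.mul_const _
      exact (h2.congr_of_eventuallyEq he).differentiableWithinAt
    · have he : radMap (k09W l L s) =ᶠ[𝓝 z] fun z => z * Complex.exp ((s * (L - l) : ℝ) : ℂ) := by
        filter_upwards [(isOpen_lt continuous_const continuous_norm).mem_nhds h1,
          isOpen_ne.mem_nhds hz0] with y hy hy0
        unfold radMap k09W
        rw [k09_ge hl ((Real.le_log_iff_exp_le (norm_pos_iff.2 hy0)).2 (le_of_lt hy))]
      have h2 : DifferentiableAt ℂ (fun z : ℂ => z * Complex.exp ((s * (L - l) : ℝ) : ℂ)) z :=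
        differentiableAt_id.mul_const _
      exact (h2.congr_of_eventuallyEq he).differentiableWithinAt
  · intro s hs t ht z hz B hB
    have hz0 := hne z hz
    refine close_of_local (by positivity) (δ := 1 / (C * (1 + κ))) (by positivity)
      (fun s => fderiv ℝ (radMap (k09W l L s)) z) (fun e he => hdet e he z hz0) ?_
      s hs t ht B hB
    intro e he e' he' hee B hB
    rw [(k09_fderiv l L e' z hz0).fderiv]
    rw [(k09_fderiv l L e z hz0).fderiv] at hB
    have hd0 := k09_deriv_nonneg hl hlL (Real.log ‖z‖)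
    have hd1 := hder (Real.log ‖z‖)
    have hdiff : ‖((e' * deriv (k09σ l L) (Real.log ‖z‖) : ℝ) : ℂ) -
        ((e * deriv (k09σ l L) (Real.log ‖z‖) : ℝ) : ℂ)‖ ≤ κ * |e' - e| := by
      rw [← Complex.ofReal_sub, Complex.norm_real, Real.norm_eq_abs, ← sub_mul, abs_mul,
        abs_of_nonneg hd0, mul_comm]
      exact mul_le_mul_of_nonneg_right hd1 (abs_nonneg _)
    have h2 : C * ‖((e' * deriv (k09σ l L) (Real.log ‖z‖) : ℝ) : ℂ) -
        ((e * deriv (k09σ l L) (Real.log ‖z‖) : ℝ) : ℂ)‖ ≤ 1 := by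
      have h3 : |e' - e| * (C * (1 + κ)) ≤ 1 := by
        rwa [le_div_iff₀ (by positivity)] at hee
      calc C * _ ≤ C * (κ * |e' - e|) := mul_le_mul_of_nonneg_left hdiff hC0.le
        _ ≤ |e' - e| * (C * (1 + κ)) := by
            have := mul_nonneg hC0.le (abs_nonneg (e' - e))
            nlinarith
        _ ≤ 1 := h3
    have he0 := mul_nonneg he.1 hd0
    have h4 := hC z ((e * deriv (k09σ l L) (Real.log ‖z‖) : ℝ) : ℂ)
      ((e' * deriv (k09σ l L) (Real.log ‖z‖) : ℝ) : ℂ) _
      (Complex.exp (k09W l L e' (Real.log ‖z‖))) B hz0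
      (Complex.exp_ne_zero (k09W l L e (Real.log ‖z‖))) (Complex.exp_ne_zero _)
      (by
        rw [Complex.ofReal_re]
        have : 1 / (1 + κ) ≤ 1 := by
          rw [div_le_one (by positivity)]; linarith
        linarith)
      (by
        rw [Complex.norm_real, Real.norm_eq_abs, abs_of_nonneg he0, one_div_one_div]
        have : e * deriv (k09σ l L) (Real.log ‖z‖) ≤ 1 * κ :=
          mul_le_mul he.2 hd1 hd0 zero_le_one
        linarith) h2 hB
    refine h4.mono ?_
    have h5 := mul_le_mul_of_nonneg_left hdiff hC0.le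
    linarith

/-- the image of the annulus -/
private theorem k09_image {l L : ℝ} (hl : 0 < l) (hL : l ≤ L) :
    radMap (k09W l L 1) '' {ζ : ℂ | Real.exp (-l) < ‖ζ‖ ∧ ‖ζ‖ < Real.exp l} =
      {ζ | Real.exp (-L) < ‖ζ‖ ∧ ‖ζ‖ < Real.exp L} := by
  have hG := k09_mono hl hL (s := 1) (by simp)
  have hGa : -l + (k09W l L 1 (-l)).re = -L := by
    unfold k09W
    rw [Complex.ofReal_re, k09_le hl (by linarith)]
    ring
  have hGb : l + (k09W l L 1 l).re = L := by
    unfold k09W
    rw [Complex.ofReal_re, k09_ge hl (by linarith)]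
    ring
  have hcont : Continuous (fun x => x + (k09W l L 1 x).re) := by
    have h1 : Continuous (stepDown (-(l / 2)) (l / 2)) := (contDiff_stepDown _ _).continuous
    have h2 : (fun x => x + (k09W l L 1 x).re) =
        fun x => x + (1 * ((L - l) * (1 - 2 * stepDown (-(l / 2)) (l / 2) x))) := by
      funext x
      unfold k09W k09σ
      rw [Complex.ofReal_re]
    rw [h2]
    fun_prop
  have hbij : Set.BijOn (fun x => x + (k09W l L 1 x).re)
      (Ioo (Real.log (Real.exp (-l))) (Real.log (Real.exp l)))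
      (Ioo (Real.log (Real.exp (-L))) (Real.log (Real.exp L))) := by
    rw [Real.log_exp, Real.log_exp, Real.log_exp, Real.log_exp]
    refine ⟨?_, hG.injective.injOn, ?_⟩
    · intro x hx
      have h1 := hG hx.1
      have h2 := hG hx.2
      simp only at h1 h2
      rw [hGa] at h1
      rw [hGb] at h2
      exact ⟨h1, h2⟩
    · have h1 := intermediate_value_Ioo (by linarith : -l ≤ l) hcont.continuousOn
      rw [hGa, hGb] at h1
      exact h1
  have h1 := radMap_bijOn (k09W l L 1) (Real.exp_pos (-l)) (Real.exp_lt_exp.2 (by linarith))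
    (Real.exp_pos (-L)) (Real.exp_lt_exp.2 (by linarith)) hbij
  exact h1.image_eq

theorem ann_stretch (g : ℕ) (c0 L : ℝ) (hc0 : 0 < c0) : ∃ C : ℝ, 0 ≤ C ∧
    ∀ (X : Type) [TopologicalSpace X] [CompactSpace X] [ConnectedSpace X] [T2Space X] (S : CS X)
      (u v : Fin g → X → UnitAddCircle) (Z : Matrix (Fin g) (Fin g) ℂ), IsPeriod S u v Z →
    ∀ (e : OpenPartialHomeomorph X ℂ) (l : ℝ), IsAnn S e l → c0 ≤ l → l ≤ L →
    ∃ (S' : CS X) (Z' : Matrix (Fin g) (Fin g) ℂ) (e' : OpenPartialHomeomorph X ℂ),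
      SC S S' ∧ IsPeriod S' u v Z' ∧ IsAnn S' e' L ∧ e'.source = e.source ∧ core e' = core e ∧
      (∀ a a' : ℝ, 0 < a → a < l → 0 < a' → a' < L → SameClass (betaC e a) (betaC e' a')) ∧
      (∀ e₁ ∈ S.charts, Disjoint e₁.source e.source → e₁ ∈ S'.charts) ∧
      Conn g Z Z' C ∧ ∀ x, QF (PZ Z') x ≤ Real.exp C * QF (PZ Z) x := by
  obtain ⟨A, hA, hfam⟩ := k09_qcFam (L := L) hc0
  refine ⟨A, hA, fun X _ _ _ _ S u v Z hZ e l he hcl hlL => ?_⟩
  have hl : 0 < l := he.2.1
  have hF := hfam l hcl hlL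
  rw [← he.2.2] at hF
  obtain ⟨T, hT0, hSC, hdil, -, hT⟩ := exists_family S he.1 hF
  have hZ0 : IsPeriod (T 0) u v Z := by rw [hT0]; exact hZ
  obtain ⟨Z', hZ', hconn, hle⟩ := path_basic T A hA hSC hdil hZ0
  obtain ⟨hch, e', he', hsrc, hval, htar⟩ := hT 1 (by simp)
  have hsc : SC S (T 1) := by
    have := hSC 0 (by simp) 1 (by simp)
    rwa [hT0] at this
  have hann : IsAnn (T 1) e' L := by
    refine ⟨he', by linarith, ?_⟩
    rw [htar, he.2.2]
    exact k09_image hl hlL
  have hpos : ∀ x ∈ e.source, e x ≠ 0 := fun x hx => by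
    have h := e.map_source hx
    rw [he.2.2] at h
    exact norm_pos_iff.1 ((Real.exp_pos _).trans h.1)
  have hG := k09_mono hl hlL (s := 1) (by simp)
  have hG0 : (0 : ℝ) + (k09W l L 1 0).re = 0 := by
    unfold k09W
    rw [Complex.ofReal_re, k09_zero hl]
    ring
  have hlog : ∀ x ∈ e.source, Real.log ‖e' x‖ =
      Real.log ‖e x‖ + (k09W l L 1 (Real.log ‖e x‖)).re := fun x hx => by
    rw [hval x hx, radMap_norm _ _ (hpos x hx)]
  have hpos' : ∀ x ∈ e.source, 0 < ‖e' x‖ := fun x hx => by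
    rw [hval x hx]
    exact norm_pos_iff.2 (mul_ne_zero (hpos x hx) (Complex.exp_ne_zero _))
  have hlt : ∀ x ∈ e.source, (‖e' x‖ < 1 ↔ ‖e x‖ < 1) := by
    intro x hx
    rw [← Real.log_neg_iff (hpos' x hx), ← Real.log_neg_iff (norm_pos_iff.2 (hpos x hx)), hlog x hx]
    have h := hG.lt_iff_lt (a := Real.log ‖e x‖) (b := 0)
    rw [hG0] at h
    exact h
  have heq : ∀ x ∈ e.source, (‖e' x‖ = 1 ↔ ‖e x‖ = 1) := by
    intro x hx
    have h1 : ∀ r : ℝ, 0 < r → (r = 1 ↔ Real.log r = 0) := by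
      intro r hr
      constructor
      · intro h; rw [h, Real.log_one]
      · intro h
        exact Real.eq_one_of_pos_of_log_eq_zero hr h
    rw [h1 _ (hpos' x hx), h1 _ (norm_pos_iff.2 (hpos x hx)), hlog x hx]
    have h := hG.injective.eq_iff (a := Real.log ‖e x‖) (b := 0)
    rw [hG0] at h
    exact h
  refine ⟨T 1, Z', e', hsc, hZ', hann, hsrc, ?_, ?_, ?_, hconn, hle.1⟩
  · ext x
    constructor
    · rintro ⟨hx, h⟩
      rw [hsrc] at hx
      exact ⟨hx, (heq x hx).1 h⟩
    · rintro ⟨hx, h⟩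
      refine ⟨?_, (heq x hx).2 h⟩
      rw [hsrc]
      exact hx
  · intro a a' ha hal ha' hal'
    refine ⟨fun x => phiE e' a' x - phiE e a x, ?_, ?_⟩
    · rw [continuous_iff_continuousAt]
      intro x
      by_cases hx : x ∈ e.source
      · have h1 : (fun x => phiE e' a' x - phiE e a x) =ᶠ[𝓝 x]
            fun x => stp a' (Real.log ‖e' x‖) - stp a (Real.log ‖e x‖) := by
          filter_upwards [e.open_source.mem_nhds hx] with y hy
          have hy' : y ∈ e'.source := by rw [hsrc]; exact hy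
          unfold phiE
          rw [if_pos hy, if_pos hy']
          by_cases h2 : ‖e y‖ < 1
          · rw [if_pos h2, if_pos ((hlt y hy).2 h2)]
          · rw [if_neg h2, if_neg (fun h => h2 ((hlt y hy).1 h))]
            ring
        refine ContinuousAt.congr ?_ h1.symm
        have hx' : x ∈ e'.source := by rw [hsrc]; exact hx
        have h3 : ContinuousAt (fun y => Real.log ‖e y‖) x :=
          (e.continuousAt hx).norm.log (norm_ne_zero_iff.2 (hpos x hx))
        have h4 : ContinuousAt (fun y => Real.log ‖e' y‖) x :=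
          (e'.continuousAt hx').norm.log (hpos' x hx).ne'
        exact ((stp_contDiff ha').continuous.continuousAt.comp h4).sub
          ((stp_contDiff ha).continuous.continuousAt.comp h3)
      · have hc1 : IsClosed (midA e a) := (midA_compact he hal).isClosed
        have hc2 : IsClosed (midA e' a') := (midA_compact hann hal').isClosed
        have h1 : ∀ᶠ y in 𝓝 x, y ∉ midA e a := hc1.isOpen_compl.mem_nhds fun h => hx h.1
        have h2 : ∀ᶠ y in 𝓝 x, y ∉ midA e' a' := hc2.isOpen_compl.mem_nhds fun h => hx (by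
          have := h.1
          rwa [hsrc] at this)
        refine ContinuousAt.congr (f := fun _ => (0 : ℝ)) continuousAt_const ?_
        filter_upwards [h1, h2] with y h1 h2
        rw [phiE_zero ha h1, phiE_zero ha' h2, sub_zero]
    · intro x
      unfold betaC
      rw [← AddCircle.coe_add]
      congr 1
      ring
  · intro e₁ he₁ hdis
    refine hch e₁ he₁ (hdis.mono_right ?_)
    rintro _ ⟨z, hz, rfl⟩
    exact e.map_target (hF.sub hz)

end Pool.Agent.Lib.MP_cca10c_ag
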