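import Pool.Agent.Lib.MP_cca10c_ag.K08_Step
import Pool.Agent.Lib.MP_cca10c_ag.K09_Stretch

/-!
# Module K: Theorem A

Induction on `k`: for `k + 1 ≤ g` and `L` take the state for `k` with half lengths at least
`max (L + y0) (2 * y0)`, then `cut_step`, then `ann_stretch` if the new annulus is shorter than `L`.
The greedy property survives because all energies change by bounded factors (self-duality for the lower
bound).
-/

set_option autoImplicit false

open Topology Set MeasureTheory
open scoped ContDiff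

namespace Pool.Agent.Lib.MP_cca10c_ag

private theorem k10_same_trans {X : Type} [TopologicalSpace X] {w w' w'' : X → UnitAddCircle}
    (h : SameClass w w') (h' : SameClass w' w'') : SameClass w w'' := by
  obtain ⟨f, hf, e⟩ := h
  obtain ⟨f', hf', e'⟩ := h'
  refine ⟨fun x => f x + f' x, hf.add hf', fun x => ?_⟩
  rw [e' x, e x, AddCircle.coe_add, add_assoc]

private theorem k10_siegel {g : ℕ} {Z W : Matrix (Fin g) (Fin g) ℂ} {C : ℝ} (h : Conn g Z W C) :
    W ∈ Siegel g := by
  obtain ⟨γ, ν, h1, h2, h3, h4, h5, h6, h7⟩ := h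
  obtain ⟨M, hM, e⟩ := h6
  rw [e]
  exact act_mem hM (h1 1 ⟨zero_le_one, le_rfl⟩).1

private theorem k10_QF_nonneg {g : ℕ} {Z : Matrix (Fin g) (Fin g) ℂ} (hZ : Z ∈ Siegel g)
    (x : Fin g ⊕ Fin g → ℝ) : 0 ≤ QF (PZ Z) x := by
  have h := (PZ_posDef hZ).posSemidef.dotProduct_mulVec_nonneg x
  simpa [QF] using h

private theorem k10_weak {X : Type} [TopologicalSpace X] {S : CS X} {g : ℕ}
    {u v : Fin g → X → UnitAddCircle} {Z : Matrix (Fin g) (Fin g) ℂ} {k : ℕ}
    {e : Fin k → OpenPartialHomeomorph X ℂ} {l : Fin k → ℝ} {b : Fin k → Fin g ⊕ Fin g → ℤ}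
    {c c' : ℝ} (h : CutSt S u v Z e l b c) (hc : c' ≤ c) : CutSt S u v Z e l b c' := by
  refine ⟨h.per, h.ann, h.disj, h.cls, h.ind, fun i x hx => ?_⟩
  refine le_trans ?_ (h.greedy i x hx)
  exact div_le_div_of_nonneg_right hc (h.ann i).2.1.le

theorem theoremA_aux (g : ℕ) (hg : 1 ≤ g) (k : ℕ) (hk : k ≤ g) (L : ℝ) : ∃ C c : ℝ, 0 ≤ C ∧ 0 < c ∧
    ∀ (X : Type) [TopologicalSpace X] [CompactSpace X] [ConnectedSpace X] [T2Space X] (S : CS X)
      (u v : Fin g → X → UnitAddCircle) (Z : Matrix (Fin g) (Fin g) ℂ), Z ∈ Siegel g →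
      IsPeriod S u v Z →
      ∃ (S' : CS X) (Z' : Matrix (Fin g) (Fin g) ℂ) (e : Fin k → OpenPartialHomeomorph X ℂ)
        (l : Fin k → ℝ) (b : Fin k → Fin g ⊕ Fin g → ℤ),
        Z' ∈ Siegel g ∧ CutSt S' u v Z' e l b c ∧ (∀ i, L ≤ l i) ∧
        Conn g Z Z' C ∧ ∀ x, QF (PZ Z') x ≤ Real.exp C * QF (PZ Z) x := by
  induction k generalizing L with
  | zero =>
    refine ⟨0, 1, le_rfl, one_pos, ?_⟩
    intro X _ _ _ _ S u v Z hZ hP
    refine ⟨S, Z, Fin.elim0, Fin.elim0, Fin.elim0, hZ,
      ⟨hP, fun i => i.elim0, fun i => i.elim0, fun i => i.elim0, linearIndependent_empty_type,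
        fun i => i.elim0⟩, fun i => i.elim0,
      Conn.refl ⟨hZ, X, ‹_›, ‹_›, ‹_›, ‹_›, S, u, v, hP⟩, fun x => by simp⟩
  | succ k ih =>
    obtain ⟨y0, c0, hc0, hy0, H⟩ := cut_step g hg
    obtain ⟨C1, c1, hC1, hc1, IH⟩ := ih (by omega) (max (L + y0) (2 * y0))
    obtain ⟨C2, hC2, HS⟩ := ann_stretch g c0 L hc0
    have hcc : 0 < min (c1 / 2) c0 := lt_min (by linarith) hc0
    have hexp : Real.exp (-C2) ≤ 1 := by
      rw [Real.exp_le_one_iff]
      linarith
    refine ⟨C1 + C2, min (c1 / 2) c0 * Real.exp (-C2), add_nonneg hC1 hC2,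
      mul_pos hcc (Real.exp_pos _), ?_⟩
    intro X _ _ _ _ S u v Z hZ hP
    obtain ⟨S1, Z1, e, l, b, hZ1, hst, hl, hconn, hQ⟩ := IH X S u v Z hZ hP
    obtain ⟨e', l', b', hst', hl', hb', hlast⟩ := H k (by omega) X S1 u v Z1 e l b c1 hc1 hst
      (fun i => (le_max_right _ _).trans (hl i))
    have hlj : ∀ i : Fin k, L ≤ l' i.castSucc := by
      intro i
      rw [hl']
      have h1 := (le_max_left (L + y0) (2 * y0)).trans (hl i)
      linarith
    by_cases hL : L ≤ l' (Fin.last k)
    · refine ⟨S1, Z1, e', l', b', hZ1, k10_weak hst' ?_, ?_, hconn.mono (by linarith), ?_⟩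
      · exact mul_le_of_le_one_right hcc.le hexp
      · intro i
        refine Fin.lastCases hL hlj i
      · intro x
        refine (hQ x).trans ?_
        refine mul_le_mul_of_nonneg_right ?_ (k10_QF_nonneg hZ x)
        exact Real.exp_le_exp.2 (by linarith)
    · push Not at hL
      obtain ⟨S2, Z2, e'', hSC, hP2, hA2, hsrc, hcore, hcls, hch, hconn2, hQ2⟩ :=
        HS X S1 u v Z1 hst'.per (e' (Fin.last k)) (l' (Fin.last k)) (hst'.ann _) hlast hL.le
      have hZ2 : Z2 ∈ Siegel g := k10_siegel hconn2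
      have hl0 : 0 < l' (Fin.last k) := lt_of_lt_of_le hc0 hlast
      have hll : ∀ i, l' i ≤ Function.update l' (Fin.last k) L i := by
        intro i
        rcases eq_or_ne i (Fin.last k) with rfl | hi
        · rw [Function.update_self]
          exact hL.le
        · rw [Function.update_of_ne hi]
      refine ⟨S2, Z2, Function.update e' (Fin.last k) e'', Function.update l' (Fin.last k) L, b',
        hZ2, ⟨hP2, ?_, ?_, ?_, hst'.ind, ?_⟩, ?_, Conn.trans hZ hZ1 hZ2 hconn hconn2, ?_⟩
      · intro i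
        rcases eq_or_ne i (Fin.last k) with rfl | hi
        · rw [Function.update_self, Function.update_self]
          exact hA2
        · rw [Function.update_of_ne hi, Function.update_of_ne hi]
          exact ⟨hch (e' i) (hst'.ann i).1 (hst'.disj hi), (hst'.ann i).2⟩
      · intro i j hij
        rcases eq_or_ne i (Fin.last k) with rfl | hi
        · rw [Function.update_self, Function.update_of_ne hij.symm, hsrc]
          exact hst'.disj hij
        · rw [Function.update_of_ne hi]
          rcases eq_or_ne j (Fin.last k) with rfl | hj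
          · rw [Function.update_self, hsrc]
            exact hst'.disj hij
          · rw [Function.update_of_ne hj]
            exact hst'.disj hij
      · intro i
        rcases eq_or_ne i (Fin.last k) with rfl | hi
        · rw [Function.update_self, Function.update_self]
          intro a ha haL
          exact k10_same_trans (hst'.cls (Fin.last k) (l' (Fin.last k) / 2) (by linarith)
            (by linarith)) (hcls _ a (by linarith) (by linarith) ha haL)
        · rw [Function.update_of_ne hi, Function.update_of_ne hi]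
          exact hst'.cls i
      · intro i x hx
        have h1 := hst'.greedy i x hx
        have h2 := QF_dual (PZ_posDef hZ1) (PZ_posDef hZ2) (PZ_symp hZ1) (PZ_symp hZ2)
          (Real.exp_pos C2) hQ2 (zV x)
        have hli : 0 < l' i := (hst'.ann i).2.1
        have h3 : min (c1 / 2) c0 * Real.exp (-C2) / Function.update l' (Fin.last k) L i ≤
            min (c1 / 2) c0 * Real.exp (-C2) / l' i :=
          div_le_div_of_nonneg_left (mul_pos hcc (Real.exp_pos _)).le hli (hll i)
        refine h3.trans ?_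
        have h4 : min (c1 / 2) c0 * Real.exp (-C2) / l' i =
            Real.exp (-C2) * (min (c1 / 2) c0 / l' i) := by ring
        rw [h4]
        calc Real.exp (-C2) * (min (c1 / 2) c0 / l' i) ≤ Real.exp (-C2) * QF (PZ Z1) (zV x) :=
              mul_le_mul_of_nonneg_left h1 (Real.exp_pos _).le
          _ ≤ Real.exp (-C2) * (Real.exp C2 * QF (PZ Z2) (zV x)) :=
              mul_le_mul_of_nonneg_left h2 (Real.exp_pos _).le
          _ = QF (PZ Z2) (zV x) := by
              rw [← mul_assoc, ← Real.exp_add, neg_add_cancel, Real.exp_zero, one_mul]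
      · intro i
        refine Fin.lastCases ?_ (fun j => ?_) i
        · rw [Function.update_self]
        · rw [Function.update_of_ne (Fin.castSucc_lt_last j).ne]
          exact hlj j
      · intro x
        refine (hQ2 x).trans ?_
        rw [add_comm C1 C2, Real.exp_add, mul_assoc]
        exact mul_le_mul_of_nonneg_left (hQ x) (Real.exp_pos _).le

/-- Theorem A -/
theorem theoremA (g : ℕ) (hg : 1 ≤ g) (L : ℝ) : ∃ C c : ℝ, 0 ≤ C ∧ 0 < c ∧
    ∀ (X : Type) [TopologicalSpace X] [CompactSpace X] [ConnectedSpace X] [T2Space X] (S : CS X)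
      (u v : Fin g → X → UnitAddCircle) (Z : Matrix (Fin g) (Fin g) ℂ), Z ∈ Siegel g →
      IsPeriod S u v Z →
      ∃ (S' : CS X) (Z' : Matrix (Fin g) (Fin g) ℂ) (e : Fin g → OpenPartialHomeomorph X ℂ)
        (l : Fin g → ℝ) (b : Fin g → Fin g ⊕ Fin g → ℤ),
        Z' ∈ Siegel g ∧ CutSt S' u v Z' e l b c ∧ (∀ i, L ≤ l i) ∧
        Conn g Z Z' C ∧ ∀ x, QF (PZ Z') x ≤ Real.exp C * QF (PZ Z) x :=
  theoremA_aux g hg g le_rfl L

end Pool.Agent.Lib.MP_cca10c_ag
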