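import Pool.Agent.Lib.MP_cca10c_ag.Q07_Data

/-!
# Module Q: the planar data of a sphere map are admissible
-/

set_option autoImplicit false

open Topology Set Filter

namespace Pool.Agent.Lib.MP_cca10c_ag

variable {X : Type} {g : ℕ} [TopologicalSpace X] [CompactSpace X] [T2Space X] {S : CS X}
variable {e : Fin g → OpenPartialHomeomorph X ℂ} {l : Fin g → ℝ} {T : CS (Capd e)}
variable {c : Fin g × Bool → OpenPartialHomeomorph (Capd e) ℂ} {κ : Capd e → X}

omit [CompactSpace X] [T2Space X] in
/-- the only added point in the disc of `c j` is its centre -/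
private theorem Q07a_cap (hκ : IsKappa S e l T c κ) {j : Fin g × Bool} {i : Fin g} {s : Bool}
    (h : (Capd.cap i s : Capd e) ∈ (c j).source) : j = (i, !s) ∧ c j (Capd.cap i s) = 0 := by
  have h1 := (hκ.cap j).src
  rw [h1] at h
  rcases h with h | ⟨x, hx, h, -⟩
  · have h2 : i = j.1 ∧ s = !j.2 := by simpa using h
    refine ⟨?_, ?_⟩
    · refine Prod.ext h2.1.symm ?_
      simp [h2.2]
    · have h3 := (hκ.cap j).zero
      rw [← h] at h3
      exact h3
  · exact absurd h (by simp)

omit [CompactSpace X] [T2Space X] in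
private theorem Q07a_tgt (hκ : IsKappa S e l T c κ) (j : Fin g × Bool) {z : ℂ} (hz : ‖z‖ < 1) :
    z * (Real.exp (l j.1) : ℂ) ∈ (c j).target := by
  rw [(hκ.cap j).tgt, mem_ball_zero_iff, norm_mul, Complex.norm_real, Real.norm_of_nonneg
    (Real.exp_pos _).le]
  have := Real.exp_pos (l j.1)
  nlinarith

omit [CompactSpace X] [T2Space X] in
private theorem Q07a_E (j : Fin g × Bool) : (Real.exp (l j.1) : ℂ) ≠ 0 :=
  Complex.ofReal_ne_zero.mpr (Real.exp_pos _).ne'

omit [CompactSpace X] [T2Space X] in
/-- the point of the disc is not an added point, unless it is the centre -/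
private theorem Q07a_eq (hκ : IsKappa S e l T c κ) {j : Fin g × Bool} {z : ℂ} (hz : ‖z‖ < 1)
    {i : Fin g} {s : Bool}
    (h : (c j).symm (z * (Real.exp (l j.1) : ℂ)) = Capd.cap i s) : j = (i, !s) ∧ z = 0 := by
  have ht := Q07a_tgt hκ j hz
  have h1 := (c j).map_target ht
  rw [h] at h1
  obtain ⟨h2, h3⟩ := Q07a_cap hκ h1
  refine ⟨h2, ?_⟩
  rw [← h, (c j).right_inv ht] at h3
  exact (mul_eq_zero.mp h3).resolve_right (Q07a_E j)

omit [CompactSpace X] [T2Space X] in
private theorem Q07a_diff (hκ : IsKappa S e l T c κ) {f : Capd e → ℂ} {q : Capd e}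
    (hf : IsSphereMap T q f) (j : Fin g × Bool) {z : ℂ} (hz : ‖z‖ < 1)
    (hq : (c j).symm (z * (Real.exp (l j.1) : ℂ)) ≠ q) :
    DifferentiableAt ℂ (fun z => f ((c j).symm (z * (Real.exp (l j.1) : ℂ)))) z := by
  have ht := Q07a_tgt hκ j hz
  have h1 := (hf.hol _ hq (c j) (hκ.mem j) ((c j).map_target ht)).self_of_nhds
  rw [(c j).right_inv ht] at h1
  exact DifferentiableAt.comp z (g := f ∘ (c j).symm)
    (f := fun z => z * (Real.exp (l j.1) : ℂ)) h1 (differentiableAt_id.mul_const _)

theorem sphD_valid (h : CapHyp S e l) (hκ : IsKappa S e l T c κ) {f : Capd e → ℂ} {i0 : Fin g}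
    (hf : IsSphereMap T (Capd.cap i0 false) f) (h0 : f (Capd.cap i0 true) = 0) :
    (sphD e l c f i0).Valid := by
  -- points of the discs away from the pole
  have hnq : ∀ (j : Fin g × Bool) (z : ℂ), ‖z‖ < 1 → (j = (i0, true) → z ≠ 0) →
      (c j).symm (z * (Real.exp (l j.1) : ℂ)) ≠ Capd.cap i0 false := by
    intro j z hz hj he
    obtain ⟨h1, h2⟩ := Q07a_eq hκ hz he
    exact hj h1 h2
  have hinj : ∀ (j k : Fin g × Bool) (z w : ℂ), ‖z‖ < 1 → ‖w‖ < 1 → (j = (i0, true) → z ≠ 0) →
      (k = (i0, true) → w ≠ 0) → f ((c j).symm (z * (Real.exp (l j.1) : ℂ))) =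
        f ((c k).symm (w * (Real.exp (l k.1) : ℂ))) → j = k ∧ z = w := by
    intro j k z w hz hw hzj hwk he
    have h1 := hf.inj (hnq j z hz hzj) (hnq k w hw hwk) he
    have hzt := Q07a_tgt hκ j hz
    have hwt := Q07a_tgt hκ k hw
    have h2 := (c j).map_target hzt
    have h3 := (c k).map_target hwt
    have hjk : j = k := by
      by_contra hne
      rw [h1] at h2
      exact Set.disjoint_left.mp (hκ.disj hne) h2 h3
    subst hjk
    refine ⟨rfl, ?_⟩
    have h4 := (c j).symm.injOn hzt hwt h1
    exact mul_right_cancel₀ (Q07a_E j) h4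
  -- `f` does not vanish in the disc of the foot at infinity
  have hne0 : ∀ z : ℂ, ‖z‖ < 1 → z ≠ 0 →
      f ((c (i0, true)).symm (z * (Real.exp (l ((i0, true) : Fin g × Bool).1) : ℂ))) ≠ 0 := by
    intro z hz hz0 he
    have h1 : (c (i0, true)).symm (z * (Real.exp (l ((i0, true) : Fin g × Bool).1) : ℂ)) =
        Capd.cap i0 true := by
      refine hf.inj (hnq (i0, true) z hz fun _ => hz0) ?_ (he.trans h0.symm)
      simp
    exact hz0 (Q07a_eq hκ hz h1).2
  have hfj : ∀ j, j ≠ (i0, true) → (sphD e l c f i0).f j =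
      fun z => f ((c j).symm (z * (Real.exp (l j.1) : ℂ))) := by
    intro j hj
    funext z
    unfold sphD
    simp only [if_neg hj]
  have hfi : (sphD e l c f i0).f (i0, true) = fun z => if z = 0 then 0 else
      (f ((c (i0, true)).symm (z * (Real.exp (l ((i0, true) : Fin g × Bool).1) : ℂ))))⁻¹ := by
    funext z
    unfold sphD
    simp only [if_true]
  have hF := sphD_F (e := e) (l := l) (c := c) i0 f
  refine
    { diff := ?_
      inj := ?_
      zero := ?_
      disj := ?_
      q0 := ?_
      q1 := ?_ }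
  · intro j
    by_cases hj : j = (i0, true)
    · subst hj
      rw [hfi]
      have hb : Metric.ball (0 : ℂ) 1 ∈ 𝓝 (0 : ℂ) := Metric.ball_mem_nhds _ one_pos
      rw [← Complex.differentiableOn_compl_singleton_and_continuousAt_iff hb]
      constructor
      · rintro z ⟨hz, hz0⟩
        have hz0' : z ≠ 0 := hz0
        have hz1 : ‖z‖ < 1 := mem_ball_zero_iff.mp hz
        have h1 := (Q07a_diff hκ hf (i0, true) hz1 (hnq _ z hz1 fun _ => hz0')).inv
          (hne0 z hz1 hz0')
        refine (h1.congr_of_eventuallyEq ?_).differentiableWithinAt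
        filter_upwards [isOpen_compl_singleton.mem_nhds hz0'] with w hw
        have hw' : w ≠ 0 := hw
        show (if w = 0 then 0 else _) = _
        rw [if_neg hw']
        rfl
      · rw [continuousAt_iff_punctured_nhds]
        rw [if_pos rfl]
        have hc : Tendsto (fun z : ℂ => (c (i0, true)).symm
            (z * (Real.exp (l ((i0, true) : Fin g × Bool).1) : ℂ))) (𝓝[≠] 0)
            (𝓝[≠] (Capd.cap i0 false)) := by
          rw [tendsto_nhdsWithin_iff]
          constructor
          · have ht := Q07a_tgt hκ (i0, true) (z := 0) (by simp)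
            have h1 : ContinuousAt (fun z : ℂ => (c (i0, true)).symm
              (z * (Real.exp (l ((i0, true) : Fin g × Bool).1) : ℂ))) 0 := by
              have h2 := (c (i0, true)).continuousAt_symm ht
              exact ContinuousAt.comp (g := (c (i0, true)).symm)
                (f := fun z : ℂ => z * (Real.exp (l ((i0, true) : Fin g × Bool).1) : ℂ)) h2
                (continuousAt_id.mul_const _)
            have h2 : (c (i0, true)).symm (0 * (Real.exp (l ((i0, true) : Fin g × Bool).1) : ℂ)) =
                Capd.cap i0 false := by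
              have h3 := (hκ.cap (i0, true)).zero
              have h4 : (Capd.cap i0 false : Capd e) ∈ (c (i0, true)).source := by
                rw [(hκ.cap (i0, true)).src]
                exact Or.inl rfl
              have h5 := (c (i0, true)).left_inv h4
              rw [zero_mul]
              have h6 : c (i0, true) (Capd.cap i0 false) = 0 := h3
              rw [← h6, h5]
            have h3 := h1.tendsto
            simp only [h2] at h3
            exact h3.mono_left nhdsWithin_le_nhds
          · have h1 : ∀ᶠ z : ℂ in 𝓝[≠] 0, z ∈ Metric.ball (0 : ℂ) 1 :=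
              nhdsWithin_le_nhds (Metric.ball_mem_nhds _ one_pos)
            filter_upwards [h1, self_mem_nhdsWithin] with z hz hz0
            exact hnq (i0, true) z (mem_ball_zero_iff.mp hz) fun _ => hz0
        have h1 := hf.pole.comp hc
        rw [tendsto_zero_iff_norm_tendsto_zero]
        have h2 := h1.inv_tendsto_atTop
        refine h2.congr' ?_
        filter_upwards [self_mem_nhdsWithin] with z hz0
        have hz0' : z ≠ 0 := hz0
        rw [if_neg hz0', norm_inv]
        rfl
    · rw [hfj j hj]
      intro z hz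
      have hz1 : ‖z‖ < 1 := mem_ball_zero_iff.mp hz
      exact (Q07a_diff hκ hf j hz1 (hnq j z hz1 fun h' => absurd h' hj)).differentiableWithinAt
  · intro j z hz w hw he
    have hz1 : ‖z‖ < 1 := mem_ball_zero_iff.mp hz
    have hw1 : ‖w‖ < 1 := mem_ball_zero_iff.mp hw
    by_cases hj : j = (i0, true)
    · subst hj
      rw [hfi] at he
      simp only at he
      by_cases hz0 : z = 0
      · by_cases hw0 : w = 0
        · rw [hz0, hw0]
        · rw [if_pos hz0, if_neg hw0] at he
          exact absurd he.symm (inv_ne_zero (hne0 w hw1 hw0))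
      · by_cases hw0 : w = 0
        · rw [if_neg hz0, if_pos hw0] at he
          exact absurd he (inv_ne_zero (hne0 z hz1 hz0))
        · rw [if_neg hz0, if_neg hw0] at he
          exact (hinj _ _ z w hz1 hw1 (fun _ => hz0) (fun _ => hw0) (inv_injective he)).2
    · rw [hfj j hj] at he
      exact (hinj j j z w hz1 hw1 (fun h' => absurd h' hj) (fun h' => absurd h' hj) he).2
  · show (sphD e l c f i0).f (i0, true) 0 = 0
    rw [hfi]
    simp
  · intro j k hjk
    rw [Set.disjoint_left]
    rintro w ⟨z, ⟨hz, hz1⟩, rfl⟩ ⟨z', ⟨hz', hz1'⟩, he⟩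
    have hz : j = (i0, true) → z ≠ 0 := hz
    have hz' : k = (i0, true) → z' ≠ 0 := hz'
    rw [hF j hz, hF k hz'] at he
    exact hjk (hinj k j z' z hz1' hz1 hz' hz he).1.symm
  · intro i
    exact Complex.ofReal_ne_zero.mpr (Real.exp_pos _).ne'
  · intro i
    show ‖(Real.exp (-(2 * l i)) : ℂ)‖ < 1
    rw [Complex.norm_real, Real.norm_of_nonneg (Real.exp_pos _).le, Real.exp_lt_one_iff]
    have := h.len i
    linarith

end Pool.Agent.Lib.MP_cca10c_ag
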