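import Pool.Agent.Lib.MP_cca10c_ag.Q05_Sphere
import Pool.Agent.Lib.MP_cca10c_ag.H03_HolOn

/-!
# Module Q: the inverse of a sphere map
-/

set_option autoImplicit false

open Topology Set Filter

namespace Pool.Agent.Lib.MP_cca10c_ag

/-- the inverse of the sphere map is holomorphic -/
theorem sphere_symm {Y : Type} [TopologicalSpace Y] [CompactSpace Y] [T2Space Y] {T : CS Y} {q : Y}
    {f : Y → ℂ} (hf : IsSphereMap T q f) : ∃ F : ℂ → Y, T.HolOn F univ ∧ (∀ z, F z ≠ q) ∧
      (∀ z, f (F z) = z) ∧ ∀ y, y ≠ q → F (f y) = y := by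
  have hsurj : ∀ z : ℂ, ∃ y, y ≠ q ∧ f y = z := fun z => by
    have hz : z ∈ f '' {q}ᶜ := by
      rw [hf.surj]
      trivial
    obtain ⟨y, hy, hyz⟩ := hz
    exact ⟨y, hy, hyz⟩
  choose F hFq hFf using hsurj
  have hFi : ∀ y, y ≠ q → F (f y) = y := fun y hy => hf.inj (hFq _) hy (hFf _)
  refine ⟨F, ?_, hFq, hFf, hFi⟩
  refine CS.holOn_of_local isOpen_univ fun z0 _ => ?_
  obtain ⟨e, he, hye, -, hsub, -⟩ := T.exists_disc (F z0) (U := {q}ᶜ)
    (isOpen_compl_singleton.mem_nhds (hFq z0)) one_pos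
  have hd : DifferentiableOn ℂ (f ∘ e.symm) e.target := fun z hz => by
    have h1 := hf.hol (e.symm z) (hsub (e.map_target hz)) e he (e.map_target hz)
    rw [e.right_inv hz] at h1
    exact h1.self_of_nhds.differentiableWithinAt
  have hi : InjOn (f ∘ e.symm) e.target := fun z hz w hw hzw => by
    have h1 : e.symm z = e.symm w := hf.inj (hsub (e.map_target hz)) (hsub (e.map_target hw)) hzw
    rw [← e.right_inv hz, ← e.right_inv hw, h1]
  obtain ⟨ψ, h3, h4, h5, h6⟩ := exists_homeo_of_injOn e.open_target hd hi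
  have hFe : ∀ w ∈ ψ.target, F w = e.symm (ψ.symm w) := fun w hw => by
    have h1 : ψ.symm w ∈ e.target := by
      rw [← h3]
      exact ψ.map_target hw
    have h2 : f (e.symm (ψ.symm w)) = w := by
      have h7 := h5 (ψ.symm w)
      rw [ψ.right_inv hw] at h7
      exact h7.symm
    have h8 := hFi (e.symm (ψ.symm w)) (hsub (e.map_target h1))
    rw [h2] at h8
    exact h8
  have hz0 : z0 ∈ ψ.target := by
    rw [h4]
    refine ⟨e (F z0), e.map_source hye, ?_⟩
    rw [Function.comp_apply, e.left_inv hye, hFf]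
  have hnhds : ψ.target ∈ 𝓝 z0 := ψ.open_target.mem_nhds hz0
  refine ⟨?_, e, he, hye, ?_⟩
  · have h1 : ContinuousAt (fun w => e.symm (ψ.symm w)) z0 := by
      refine ContinuousAt.comp (f := ψ.symm) (g := e.symm) ?_ (ψ.symm.continuousAt hz0)
      refine e.symm.continuousAt ?_
      have h2 : ψ.symm z0 ∈ e.target := by
        rw [← h3]
        exact ψ.map_target hz0
      exact h2
    refine h1.congr ?_
    filter_upwards [hnhds] with w hw
    exact (hFe w hw).symm
  · filter_upwards [eventually_eventually_nhds.2 hnhds] with w hw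
    have hw' : w ∈ ψ.target := hw.self_of_nhds
    have h1 : DifferentiableAt ℂ ψ.symm w := (h6 w hw').differentiableAt hw
    refine h1.congr_of_eventuallyEq ?_
    filter_upwards [hw] with v hv
    rw [Function.comp_apply, hFe v hv, e.right_inv]
    rw [← h3]
    exact ψ.map_target hv

end Pool.Agent.Lib.MP_cca10c_ag
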