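import Pool.Agent.Lib.MP_cca10c_ag.Q07_Data
import Pool.Agent.Lib.MP_cca10c_ag.Q07b_Symm

/-!
# Module Q: the presentation

The map is `κ ∘ F`, `F` the inverse of the sphere map; `w ∈ Om` iff `F w ∈ capDom l c`.
-/

set_option autoImplicit false

open Topology Set Filter

namespace Pool.Agent.Lib.MP_cca10c_ag

variable {X : Type} {g : ℕ} [TopologicalSpace X] [CompactSpace X] [T2Space X] {S : CS X}
variable {e : Fin g → OpenPartialHomeomorph X ℂ} {l : Fin g → ℝ} {T : CS (Capd e)}
variable {c : Fin g × Bool → OpenPartialHomeomorph (Capd e) ℂ} {κ : Capd e → X}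

omit [CompactSpace X] [T2Space X] in
private theorem q07c_src (hκ : IsKappa S e l T c κ) (i0 : Fin g) :
    (Capd.cap i0 false : Capd e) ∈ (c (i0, true)).source := by
  rw [(hκ.cap (i0, true)).src]
  exact Or.inl rfl

omit [CompactSpace X] [T2Space X] in
private theorem q07c_zero (hκ : IsKappa S e l T c κ) (i0 : Fin g) :
    c (i0, true) (Capd.cap i0 false : Capd e) = 0 :=
  (hκ.cap (i0, true)).zero

omit [CompactSpace X] [T2Space X] in
private theorem q07c_ne (hκ : IsKappa S e l T c κ) {i0 : Fin g} {j : Fin g × Bool} {u : ℂ}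
    (hu : u ∈ (c j).target) (hj : j = (i0, true) → u ≠ 0) :
    (c j).symm u ≠ Capd.cap i0 false := by
  intro h
  have h1 : (Capd.cap i0 false : Capd e) ∈ (c j).source := by
    rw [← h]
    exact (c j).map_target hu
  by_cases hji : j = (i0, true)
  · have h2 : c j (Capd.cap i0 false) = u := by rw [← h, (c j).right_inv hu]
    rw [hji, q07c_zero hκ i0] at h2
    exact hj hji h2.symm
  · exact Set.disjoint_left.1 (hκ.disj hji) h1 (q07c_src hκ i0)

omit [CompactSpace X] [T2Space X] in
private theorem q07c_tgt (hκ : IsKappa S e l T c κ) (j : Fin g × Bool) {u : ℂ}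
    (hu : ‖u‖ < Real.exp (l j.1)) : u ∈ (c j).target := by
  rw [(hκ.cap j).tgt]
  simpa using hu

private theorem q07c_norm (a : ℝ) (z : ℂ) : ‖z * (Real.exp a : ℂ)‖ = ‖z‖ * Real.exp a := by
  rw [norm_mul, Complex.norm_real, Real.norm_of_nonneg (Real.exp_pos _).le]

private theorem q07c_q (i0 : Fin g) (f : Capd e → ℂ) (i : Fin g) :
    ‖(sphD e l c f i0).q i‖ = Real.exp (-(2 * l i)) := by
  show ‖((Real.exp (-(2 * l i)) : ℝ) : ℂ)‖ = _
  rw [Complex.norm_real, Real.norm_of_nonneg (Real.exp_pos _).le]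

theorem sphD_pres (h : CapHyp S e l) (hκ : IsKappa S e l T c κ) {f : Capd e → ℂ} {i0 : Fin g}
    (hf : IsSphereMap T (Capd.cap i0 false) f) (h0 : f (Capd.cap i0 true) = 0) :
    ∃ P : Pres S (sphD e l c f i0), ∀ i z, Real.exp (-(2 * l i)) < ‖z‖ → ‖z‖ < 1 →
      P.ι i z = (e i).symm (z * (Real.exp (l i) : ℂ)) := by
  have _ := h0
  have : T2Space (Capd e) := Capd.t2 h
  have : CompactSpace (Capd e) := Capd.compact h
  obtain ⟨F, hFh, hFq, hfF, hFf⟩ := sphere_symm hf
  set D := sphD e l c f i0 with hD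
  have hinf : D.inf = (i0, true) := rfl
  have hlen : ∀ i, (2 : ℝ) ≤ l i := h.len
  -- the domain
  have hOm : ∀ w, w ∈ D.Om ↔ F w ∈ capDom l c := by
    intro w
    constructor
    · intro hw j hj
      by_contra hcon
      rw [not_lt] at hcon
      refine hw j ⟨c j (F w) * (Real.exp (-l j.1) : ℂ), ⟨?_, ?_⟩, ?_⟩
      · intro hji hz
        rw [hinf] at hji
        have h1 : (c j) (F w) = 0 := by
          rcases mul_eq_zero.1 hz with h2 | h2
          · exact h2
          · exact absurd h2 (by exact_mod_cast (Real.exp_pos _).ne')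
        apply hFq w
        apply (c j).injOn hj
        · rw [hji]; exact q07c_src hκ i0
        · rw [h1, hji]; exact (q07c_zero hκ i0).symm
      · rw [q07c_norm, q07c_q]
        calc ‖c j (F w)‖ * Real.exp (-l j.1) ≤ Real.exp (-l j.1) * Real.exp (-l j.1) :=
              mul_le_mul_of_nonneg_right hcon (Real.exp_pos _).le
          _ = Real.exp (-(2 * l j.1)) := by rw [← Real.exp_add]; congr 1; ring
      · have hz : j = (i0, true) → c j (F w) * (Real.exp (-l j.1) : ℂ) ≠ 0 := by
          intro hji hz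
          have h1 : (c j) (F w) = 0 := by
            rcases mul_eq_zero.1 hz with h2 | h2
            · exact h2
            · exact absurd h2 (by exact_mod_cast (Real.exp_pos _).ne')
          apply hFq w
          apply (c j).injOn hj
          · rw [hji]; exact q07c_src hκ i0
          · rw [h1, hji]; exact (q07c_zero hκ i0).symm
        rw [hD, sphD_F i0 f j hz]
        have h2 : c j (F w) * (Real.exp (-l j.1) : ℂ) * (Real.exp (l j.1) : ℂ) = c j (F w) := by
          rw [mul_assoc, ← Complex.ofReal_mul, ← Real.exp_add]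
          simp
        rw [h2, (c j).left_inv hj, hfF]
    · intro hw j hcd
      obtain ⟨z, ⟨hz, hzr⟩, hzw⟩ := hcd
      have hz' : j = (i0, true) → z ≠ 0 := hz
      rw [hD, sphD_F i0 f j hz'] at hzw
      rw [q07c_q] at hzr
      have hn : ‖z * (Real.exp (l j.1) : ℂ)‖ ≤ Real.exp (-l j.1) := by
        rw [q07c_norm]
        calc ‖z‖ * Real.exp (l j.1) ≤ Real.exp (-(2 * l j.1)) * Real.exp (l j.1) :=
              mul_le_mul_of_nonneg_right hzr (Real.exp_pos _).le
          _ = Real.exp (-l j.1) := by rw [← Real.exp_add]; congr 1; ring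
      have ht : z * (Real.exp (l j.1) : ℂ) ∈ (c j).target :=
        q07c_tgt hκ j (hn.trans_lt (Real.exp_lt_exp.2 (by linarith [hlen j.1])))
      have hne : (c j).symm (z * (Real.exp (l j.1) : ℂ)) ≠ Capd.cap i0 false :=
        q07c_ne hκ ht fun hji hcon => hz' hji (by
          rcases mul_eq_zero.1 hcon with h2 | h2
          · exact h2
          · exact absurd h2 (by exact_mod_cast (Real.exp_pos _).ne'))
      have hFw : F w = (c j).symm (z * (Real.exp (l j.1) : ℂ)) := by
        rw [← hzw, hFf _ hne]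
      have h1 := hw j (by rw [hFw]; exact (c j).map_target ht)
      rw [hFw, (c j).right_inv ht] at h1
      exact absurd h1 (not_lt.2 hn)
  -- the foot maps in terms of `F`
  have hfoot : ∀ (j : Fin g × Bool) (z : ℂ), (j = (i0, true) → z ≠ 0) → ‖z‖ < 1 →
      F (D.F j z) = (c j).symm (z * (Real.exp (l j.1) : ℂ)) := by
    intro j z hz hz1
    rw [hD, sphD_F i0 f j hz]
    have hn : ‖z * (Real.exp (l j.1) : ℂ)‖ < Real.exp (l j.1) := by
      rw [q07c_norm]
      have := Real.exp_pos (l j.1)
      nlinarith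
    refine hFf _ (q07c_ne hκ (q07c_tgt hκ j hn) fun hji hcon => hz hji ?_)
    rcases mul_eq_zero.1 hcon with h2 | h2
    · exact h2
    · exact absurd h2 (by exact_mod_cast (Real.exp_pos _).ne')
  -- glueing
  have hGlue : ∀ w w', D.Glue w w' ↔ ∃ (i : Fin g) (z : ℂ), Real.exp (-l i) < ‖z‖ ∧
      ‖z‖ < Real.exp (l i) ∧ F w = (c (i, false)).symm z ∧ F w' = (c (i, true)).symm z⁻¹ := by
    intro w w'
    constructor
    · rintro ⟨i, z, hz1, hz2, rfl, rfl⟩
      rw [q07c_q] at hz1
      have hz0 : z ≠ 0 := by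
        rintro rfl
        rw [norm_zero] at hz1
        exact absurd hz1 (not_lt.2 (Real.exp_pos _).le)
      have hzp : 0 < ‖z‖ := norm_pos_iff.2 hz0
      have hq : D.q i = ((Real.exp (-(2 * l i)) : ℝ) : ℂ) := rfl
      refine ⟨i, z * (Real.exp (l i) : ℂ), ?_, ?_, ?_, ?_⟩
      · rw [q07c_norm]
        calc Real.exp (-l i) = Real.exp (-(2 * l i)) * Real.exp (l i) := by
              rw [← Real.exp_add]; congr 1; ring
          _ < ‖z‖ * Real.exp (l i) := mul_lt_mul_of_pos_right hz1 (Real.exp_pos _)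
      · rw [q07c_norm]
        have := Real.exp_pos (l i)
        nlinarith
      · exact hfoot (i, false) z (fun hc => by simp at hc) hz2
      · have hqz : D.q i / z ≠ 0 := by
          rw [hq]
          exact div_ne_zero (by exact_mod_cast (Real.exp_pos _).ne') hz0
        have hqz1 : ‖D.q i / z‖ < 1 := by
          rw [norm_div, q07c_q, div_lt_one hzp]
          exact hz1
        rw [hfoot (i, true) (D.q i / z) (fun _ => hqz) hqz1]
        · congr 1
          show D.q i / z * (Real.exp (l i) : ℂ) = (z * (Real.exp (l i) : ℂ))⁻¹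
          have hE : ((Real.exp (l i) : ℝ) : ℂ) ≠ 0 := by exact_mod_cast (Real.exp_pos _).ne'
          rw [hq, mul_inv, div_mul_eq_mul_div, ← Complex.ofReal_mul, ← Real.exp_add,
            show -(2 * l i) + l i = -l i by ring, Real.exp_neg, Complex.ofReal_inv]
          field_simp
    · rintro ⟨i, z, hz1, hz2, h1, h2⟩
      have hz0 : z ≠ 0 := by
        rintro rfl
        rw [norm_zero] at hz1
        exact absurd hz1 (not_lt.2 (Real.exp_pos _).le)
      have hzp : 0 < ‖z‖ := norm_pos_iff.2 hz0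
      have hq : D.q i = ((Real.exp (-(2 * l i)) : ℝ) : ℂ) := rfl
      have hE : ((Real.exp (l i) : ℝ) : ℂ) ≠ 0 := by exact_mod_cast (Real.exp_pos _).ne'
      have hE' : ((Real.exp (-l i) : ℝ) : ℂ) ≠ 0 := by exact_mod_cast (Real.exp_pos _).ne'
      have hzz : z * (Real.exp (-l i) : ℂ) * (Real.exp (l i) : ℂ) = z := by
        rw [mul_assoc, ← Complex.ofReal_mul, ← Real.exp_add]
        simp
      have hqn0 : D.q i / (z * (Real.exp (-l i) : ℂ)) ≠ 0 := by
        rw [hq]
        exact div_ne_zero (by exact_mod_cast (Real.exp_pos _).ne') (mul_ne_zero hz0 hE')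
      have hzn : ‖D.q i‖ < ‖z * (Real.exp (-l i) : ℂ)‖ := by
        rw [q07c_norm, q07c_q]
        calc Real.exp (-(2 * l i)) = Real.exp (-l i) * Real.exp (-l i) := by
              rw [← Real.exp_add]; congr 1; ring
          _ < ‖z‖ * Real.exp (-l i) := mul_lt_mul_of_pos_right hz1 (Real.exp_pos _)
      refine ⟨i, z * (Real.exp (-l i) : ℂ), hzn, ?_, ?_, ?_⟩
      · rw [q07c_norm]
        calc ‖z‖ * Real.exp (-l i) < Real.exp (l i) * Real.exp (-l i) :=
              mul_lt_mul_of_pos_right hz2 (Real.exp_pos _)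
          _ = 1 := by rw [← Real.exp_add]; simp
      · rw [hD, sphD_F i0 f (i, false) (fun hc => by simp at hc)]
        show w = f ((c (i, false)).symm (z * (Real.exp (-l i) : ℂ) * (Real.exp (l i) : ℂ)))
        rw [hzz, ← h1, hfF]
      · have h3 := sphD_F (e := e) (l := l) (c := c) i0 f (i, true)
          (z := D.q i / (z * (Real.exp (-l i) : ℂ))) (fun _ => hqn0)
        rw [← hD] at h3
        rw [h3]
        show w' = f ((c (i, true)).symm (D.q i / (z * (Real.exp (-l i) : ℂ)) * (Real.exp (l i) : ℂ)))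
        have h4 : D.q i / (z * (Real.exp (-l i) : ℂ)) * (Real.exp (l i) : ℂ) = z⁻¹ := by
          rw [hq, show -(2 * l i) = -l i + -l i by ring, Real.exp_add, Complex.ofReal_mul,
            Real.exp_neg, Complex.ofReal_inv]
          field_simp
        rw [h4, ← h2, hfF]
  -- holomorphy
  have hFc : Continuous F := continuousOn_univ.1 hFh.1
  have hhol : S.HolOn (κ ∘ F) D.Om := by
    have key : ∀ w ∈ D.Om, ∃ V : Set ℂ, IsOpen V ∧ w ∈ V ∧ S.HolOn (κ ∘ F) V := by
      intro w hw
      rw [hOm] at hw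
      obtain ⟨d, hd, hwd⟩ := T.cover (F w)
      have hV : IsOpen (F ⁻¹' (d.source ∩ capDom l c)) :=
        (d.open_source.inter hκ.opn).preimage hFc
      have hU : IsOpen (d.target ∩ d.symm ⁻¹' capDom l c) :=
        d.isOpen_inter_preimage_symm hκ.opn
      refine ⟨F ⁻¹' (d.source ∩ capDom l c), hV, ⟨hwd, hw⟩, ?_⟩
      have h1 : DifferentiableOn ℂ (d ∘ F) (F ⁻¹' (d.source ∩ capDom l c)) := by
        refine (hFh.2 d hd).mono ?_
        rintro z ⟨hz, -⟩
        exact ⟨mem_univ _, hz⟩
      have h2 : MapsTo (d ∘ F) (F ⁻¹' (d.source ∩ capDom l c))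
          (d.target ∩ d.symm ⁻¹' capDom l c) := by
        rintro z ⟨hz, hz'⟩
        refine ⟨d.map_source hz, ?_⟩
        show d.symm (d (F z)) ∈ capDom l c
        rw [d.left_inv hz]
        exact hz'
      have h3 := (hκ.hol d hd).comp hV hU h1 h2
      refine h3.congr ?_
      rintro z ⟨hz, -⟩
      show κ (F z) = κ (d.symm (d (F z)))
      rw [d.left_inv hz]
    refine ⟨fun w hw => ?_, fun e' he' w hw => ?_⟩
    · obtain ⟨V, hV, hwV, hVh⟩ := key w hw
      exact ((hVh.1 w hwV).continuousAt (hV.mem_nhds hwV)).continuousWithinAt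
    · obtain ⟨V, hV, hwV, hVh⟩ := key w hw.1
      have h1 := hVh.2 e' he' w ⟨hwV, hw.2⟩
      have h2 : IsOpen (V ∩ (κ ∘ F) ⁻¹' e'.source) := hVh.1.isOpen_inter_preimage hV e'.open_source
      exact (h1.differentiableAt (h2.mem_nhds ⟨hwV, hw.2⟩)).differentiableWithinAt
  refine ⟨⟨κ ∘ F, hhol, ?_, ?_⟩, ?_⟩
  · intro w hw w' hw'
    rw [hOm] at hw hw'
    have h1 := hκ.fib (F w) hw (F w') hw'
    show κ (F w) = κ (F w') ↔ _
    rw [h1, hGlue, hGlue]
    have h2 : F w = F w' ↔ w = w' := by
      constructor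
      · intro h3
        rw [← hfF w, h3, hfF]
      · rintro rfl
        rfl
    rw [h2]
  · intro x
    obtain ⟨y, hy, hyx⟩ := hκ.onto x
    have hne : y ≠ Capd.cap i0 false := by
      rintro rfl
      have h1 := hy (i0, true) (q07c_src hκ i0)
      rw [q07c_zero hκ i0, norm_zero] at h1
      exact absurd h1 (not_lt.2 (Real.exp_pos _).le)
    refine ⟨f y, ?_, ?_⟩
    · rw [hOm, hFf y hne]
      exact hy
    · show κ (F (f y)) = x
      rw [hFf y hne, hyx]
  · intro i z hz1 hz2
    show κ (F (D.F (i, false) z)) = _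
    rw [hfoot (i, false) z (fun hc => by simp at hc) hz2]
    refine hκ.eqF i _ ?_ ?_
    · rw [q07c_norm]
      calc Real.exp (-l i) = Real.exp (-(2 * l i)) * Real.exp (l i) := by
            rw [← Real.exp_add]; congr 1; ring
        _ < ‖z‖ * Real.exp (l i) := mul_lt_mul_of_pos_right hz1 (Real.exp_pos _)
    · rw [q07c_norm]
      have := Real.exp_pos (l i)
      nlinarith

end Pool.Agent.Lib.MP_cca10c_ag
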