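import Pool.Agent.Lib.MP_cca10c_ag.Q04_H1
import Pool.Agent.Lib.MP_cca10c_ag.Q07a_Valid
import Pool.Agent.Lib.MP_cca10c_ag.Q07c_Pres
import Pool.Agent.Lib.MP_cca10c_ag.K07_State
import Pool.Agent.Lib.MP_cca10c_ag.H09_Frame

/-!
# Module Q: Theorem B

`compl_cores_connected`, `exists_capCS`, `Capd.symplBasis`, `exists_kappa`, the sphere theorem for the point
`cap i0 false`, subtract the value at `cap i0 true`, `sphD_valid`, `sphD_pres`.
-/

set_option autoImplicit false

open Topology Set Filter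

namespace Pool.Agent.Lib.MP_cca10c_ag

private theorem q08_sub {Y : Type} [TopologicalSpace Y] {T : CS Y} {q : Y} {f : Y → ℂ}
    (hf : IsSphereMap T q f) (a : ℂ) : IsSphereMap T q (fun y => f y - a) := by
  refine ⟨?_, ?_, ?_, ?_⟩
  · intro y hy e he hye
    filter_upwards [hf.hol y hy e he hye] with z hz
    exact hz.sub_const a
  · intro y hy y' hy' h
    exact hf.inj hy hy' (sub_left_injective h)
  · rw [eq_univ_iff_forall]
    intro w
    have h1 : w + a ∈ f '' {q}ᶜ := by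
      rw [hf.surj]
      exact mem_univ _
    obtain ⟨y, hy, h2⟩ := h1
    exact ⟨y, hy, by simp only [h2, add_sub_cancel_right]⟩
  · refine tendsto_atTop_mono (fun y => ?_) (tendsto_atTop_add_const_right _ (-‖a‖) hf.pole)
    have := norm_sub_norm_le (f y) a
    linarith

/-- the planar presentation of a surface cut along `g` annuli with independent classes -/
theorem theoremB {g : ℕ} (i0 : Fin g)
    (sph : ∀ (Y : Type) [TopologicalSpace Y] [CompactSpace Y] [ConnectedSpace Y] [T2Space Y]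
      (T : CS Y) (u' v' : Fin 0 → Y → UnitAddCircle), SymplBasis T 0 u' v' → ∀ q : Y,
        ∃ f : Y → ℂ, IsSphereMap T q f)
    {X : Type} [TopologicalSpace X] [CompactSpace X] [ConnectedSpace X] [T2Space X] {S : CS X}
    {u v : Fin g → X → UnitAddCircle} {Z : Matrix (Fin g) (Fin g) ℂ}
    {e : Fin g → OpenPartialHomeomorph X ℂ} {l : Fin g → ℝ} {b : Fin g → Fin g ⊕ Fin g → ℤ}
    {c : ℝ} (h : CutSt S u v Z e l b c) (hl : ∀ i, 2 ≤ l i) :
    ∃ (D : PData g) (P : Pres S D), D.Valid ∧ D.i0 = i0 ∧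
      (∀ i, D.q i = (Real.exp (-(2 * l i)) : ℂ)) ∧
      ∀ i z, ‖D.q i‖ < ‖z‖ → ‖z‖ < 1 → P.ι i z = (e i).symm (z * (Real.exp (l i) : ℂ)) := by
  have hB : SymplBasis S g u v := h.per.1
  obtain ⟨F, hF⟩ := CS.exists_tame S
  have hyp : CapHyp S e l :=
    { ann := h.ann
      disj := h.disj
      len := hl
      conn := compl_cores_connected F hF hB h.ann h.disj
        (fun i => (h.cls i).annCls F hF hB (h.ann i)) h.ind }
  obtain ⟨T, hT⟩ := exists_capCS hyp
  obtain ⟨c', κ, hκ⟩ := exists_kappa hyp hT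
  haveI := Capd.t2 hyp
  haveI := Capd.compact hyp
  haveI : ConnectedSpace (Capd e) := Capd.connected hyp (Fin.pos i0)
  obtain ⟨f0, hf0⟩ := sph (Capd e) T (fun j => j.elim0) (fun j => j.elim0)
    (Capd.symplBasis hyp hB h.cls h.ind T _ _) (Capd.cap i0 false)
  have hf : IsSphereMap T (Capd.cap i0 false) (fun y => f0 y - f0 (Capd.cap i0 true)) :=
    q08_sub hf0 _
  obtain ⟨P, hP⟩ := sphD_pres hyp hκ hf (sub_self _)
  refine ⟨_, P, sphD_valid hyp hκ hf (sub_self _), rfl, fun i => rfl,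
    fun i z hz1 hz2 => hP i z ?_ hz2⟩
  have hq : ‖(sphD e l c' (fun y => f0 y - f0 (Capd.cap i0 true)) i0).q i‖ =
      Real.exp (-(2 * l i)) := by
    change ‖((Real.exp (-(2 * l i)) : ℝ) : ℂ)‖ = _
    rw [Complex.norm_real, Real.norm_eq_abs, abs_of_pos (Real.exp_pos _)]
  rwa [hq] at hz1

end Pool.Agent.Lib.MP_cca10c_ag
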