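import Pool.Agent.Lib.MP_cca10c_ag.Statement

/-! Module P: quadratic forms, comparison of points of the Siegel space, cost of paths. -/

set_option autoImplicit false

open Topology Set Matrix
open scoped ENNReal

namespace Pool.Agent.Lib.MP_cca10c_ag

/-- quadratic form of a matrix -/
def QF {n : Type*} [Fintype n] (P : Matrix n n ℝ) (x : n → ℝ) : ℝ := x ⬝ᵥ (P *ᵥ x)

/-- integral matrix as a real matrix -/
def rM {n : Type*} (N : Matrix n n ℤ) : Matrix n n ℝ := N.map (Int.cast : ℤ → ℝ)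

/-- After an integral symplectic change of basis the form of `W` is at most `exp ν` times the form
of `Z`. -/
def LE' {g : ℕ} (ν : ℝ) (Z W : Matrix (Fin g) (Fin g) ℂ) : Prop :=
  ∃ N ∈ Matrix.symplecticGroup (Fin g) ℤ, ∀ x, QF (PZ W) (rM N *ᵥ x) ≤ Real.exp ν * QF (PZ Z) x

/-- `Z` and `W` are connected in the Schottky locus by a path of cost at most `C`. -/
def Conn (g : ℕ) (Z W : Matrix (Fin g) (Fin g) ℂ) (C : ℝ) : Prop :=
  ∃ (γ : ℝ → Matrix (Fin g) (Fin g) ℂ) (ν : ℝ → ℝ),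
    (∀ t ∈ Icc (0 : ℝ) 1, γ t ∈ Schottky g) ∧ MonotoneOn ν (Icc 0 1) ∧
    ContinuousOn ν (Icc 0 1) ∧ ν 1 - ν 0 ≤ C ∧ SamePt (γ 0) Z ∧ SamePt (γ 1) W ∧
    ∀ s ∈ Icc (0 : ℝ) 1, ∀ t ∈ Icc (0 : ℝ) 1, s ≤ t → LE' (ν t - ν s) (γ s) (γ t)

/-- admissible parameters of standard surfaces -/
def Adm {g : ℕ} (l0 : ℝ) (lam : Fin g → ℝ) : Prop := Antitone lam ∧ ∀ i, l0 ≤ lam i

end Pool.Agent.Lib.MP_cca10c_ag
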