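import Pool.Agent.Lib.MP_cca10c_ag.H00_Defs
import Pool.Agent.Lib.MP_cca10c_ag.P00_Defs

/-!
# Module M: comparison of period matrices for the same marking
-/

set_option autoImplicit false

open Topology Set MeasureTheory
open scoped ContDiff

namespace Pool.Agent.Lib.MP_cca10c_ag

/-- the forms of `Z` and `Z'` (same marking) differ at most by the factor `exp C` -/
def LEq {g : ℕ} (C : ℝ) (Z Z' : Matrix (Fin g) (Fin g) ℂ) : Prop :=
  (∀ x, QF (PZ Z') x ≤ Real.exp C * QF (PZ Z) x) ∧ ∀ x, QF (PZ Z) x ≤ Real.exp C * QF (PZ Z') x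

end Pool.Agent.Lib.MP_cca10c_ag
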