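import Pool.Agent.Lib.MP_cca10c_ag.R00_Defs
import Pool.Agent.Lib.MP_cca10c_ag.T08_Class
import Pool.Agent.Lib.MP_cca10c_ag.P06_Conn
import Pool.Agent.Lib.MP_cca10c_ag.M00_Defs

/-!
# Module R: states of the planar part: definitions

`St D b Z`: `Z` is a period matrix of a surface presented by the planar data `D`, and the classes of the handle annuli (in the symplectic basis which
gives `Z`) are `b`. `Mv D D' C`: every surface presented by `D` is joined to one presented by `D'` at cost `C`, with the same marking.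
-/

set_option autoImplicit false

open Topology Set Metric
open scoped ContDiff

namespace Pool.Agent.Lib.MP_cca10c_ag

section

variable {X : Type} [TopologicalSpace X] {S : CS X} {g : ℕ} {D : PData g}

/-- `e` is the chart of the handle annulus `i`, with coordinate `ζ = z / √|q i|` -/
def Pres.IsHandle (P : Pres S D) (i : Fin g) (e : OpenPartialHomeomorph X ℂ) : Prop :=
  IsAnn S e (D.L i / 2) ∧ ∀ ζ ∈ e.target, e.symm ζ = P.ι i ((Real.sqrt ‖D.q i‖ : ℂ) * ζ)

/-- the classes of the handle annuli are `b` -/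
def Pres.Marked (P : Pres S D) (u v : Fin g → X → UnitAddCircle) (b : Fin g → Fin g ⊕ Fin g → ℤ) : Prop :=
  ∀ i e, P.IsHandle i e → AnnTop u v e (D.L i / 2) (b i)

end

variable {g : ℕ}

/-- `Z` is a period matrix of a surface presented by `D`; the classes of the handles are `b` -/
def St (D : PData g) (b : Fin g → Fin g ⊕ Fin g → ℤ) (Z : Matrix (Fin g) (Fin g) ℂ) : Prop :=
  D.Valid ∧ Z ∈ Siegel g ∧ ∃ (X : Type) (_ : TopologicalSpace X) (_ : CompactSpace X) (_ : ConnectedSpace X)
    (_ : T2Space X) (S : CS X) (u v : Fin g → X → UnitAddCircle) (P : Pres S D), IsPeriod S u v Z ∧ P.Marked u v b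

/-- every surface presented by `D` is joined to one presented by `D'` at cost `C` -/
def Mv (D D' : PData g) (C : ℝ) : Prop :=
  ∀ b Z, St D b Z → ∃ Z', St D' b Z' ∧ Conn g Z Z' C ∧ LEq C Z Z'

/-- greedy property -/
def Gr (c : ℝ) (l : Fin g → ℝ) (b : Fin g → Fin g ⊕ Fin g → ℤ) (Z : Matrix (Fin g) (Fin g) ℂ) : Prop :=
  ∀ i, ∀ x : Fin g ⊕ Fin g → ℤ,
    zV x ∉ Submodule.span ℝ (Set.range fun j : {j : Fin g // j < i} => zV (b j)) →
      c / l i ≤ QF (PZ Z) (zV x)

/-- integral quadratic form of an integral class -/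
noncomputable def En (Z : Matrix (Fin g) (Fin g) ℂ) (x : Fin g ⊕ Fin g → ℤ) : ℝ := QF (PZ Z) (zV x)

end Pool.Agent.Lib.MP_cca10c_ag
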