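import Pool.Agent.Lib.MP_cca10c_ag.K10_ThmA
import Pool.Agent.Lib.MP_cca10c_ag.Q08_ThmB
import Pool.Agent.Lib.MP_cca10c_ag.H30_SphereMap
import Pool.Agent.Lib.MP_cca10c_ag.R01_St

/-!
# Theorems A and B together: the input of the planar part
-/

set_option autoImplicit false

open Topology Set

namespace Pool.Agent.Lib.MP_cca10c_ag

private theorem kq_phiE {X : Type} [TopologicalSpace X] {e e' : OpenPartialHomeomorph X ℂ}
    (h1 : e.target = e'.target) (h2 : ∀ ζ ∈ e.target, e.symm ζ = e'.symm ζ) (a : ℝ) :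
    phiE e a = phiE e' a := by
  have hs : e.source = e'.source := by
    rw [← e.symm_image_target_eq_source, ← e'.symm_image_target_eq_source, ← h1]
    exact image_congr h2
  have hv : ∀ x ∈ e.source, e x = e' x := by
    intro x hx
    have h3 : e x ∈ e.target := e.map_source hx
    have h4 := h2 _ h3
    rw [e.left_inv hx] at h4
    have h5 : e' x = e' (e'.symm (e x)) := by rw [← h4]
    rw [h5, e'.right_inv (h1 ▸ h3)]
  funext x
  unfold phiE
  by_cases hx : x ∈ e.source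
  · have hx' : x ∈ e'.source := hs ▸ hx
    simp only [if_pos hx, if_pos hx', hv x hx]
  · have hx' : x ∉ e'.source := hs ▸ hx
    simp only [if_neg hx, if_neg hx']

/-- the input of the planar part -/
theorem kq_input (g : ℕ) (hg : 1 ≤ g) (L0 : ℝ) : ∃ C c : ℝ, 0 ≤ C ∧ 0 < c ∧ ∀ Z ∈ Schottky g,
    ∃ (D : PData g) (b : Fin g → Fin g ⊕ Fin g → ℤ) (Z' : Matrix (Fin g) (Fin g) ℂ),
      Conn g Z Z' C ∧ St D b Z' ∧ LinearIndependent ℝ (fun i => zV (b i)) ∧
      (∀ i, L0 ≤ D.L i) ∧ Gr c D.L b Z' ∧ D.i0 = ⟨0, hg⟩ := by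
  obtain ⟨C, c, hC, hc, hA⟩ := theoremA g hg (max 2 L0)
  refine ⟨C, c, hC, hc, fun Z hZ => ?_⟩
  obtain ⟨hZs, X, tX, cX, coX, t2X, S, u, v, hP⟩ := hZ
  obtain ⟨S', Z', e, l, b, hZ', hst, hl, hconn, -⟩ := hA X S u v Z hZs hP
  have hl2 : ∀ i, 2 ≤ l i := fun i => (le_max_left _ _).trans (hl i)
  obtain ⟨D, P, hD, hi0, hq, hι⟩ := theoremB (⟨0, hg⟩ : Fin g)
    (fun Y _ _ _ _ T u' v' hB q => exists_sphereMap T hB q) hst hl2
  have hnq : ∀ i, ‖D.q i‖ = Real.exp (-(2 * l i)) := by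
    intro i
    rw [hq i, Complex.norm_real, Real.norm_eq_abs, abs_of_pos (Real.exp_pos _)]
  have hL : ∀ i, D.L i = 2 * l i := by
    intro i
    rw [PData.L, hnq i, Real.log_exp, neg_neg]
  refine ⟨D, b, Z', hconn, ⟨hD, hZ', X, tX, cX, coX, t2X, S', u, v, P, hst.per, ?_⟩, hst.ind,
    fun i => ?_, ?_, hi0⟩
  · intro i e' he' a ha hal
    have hLi : D.L i / 2 = l i := by rw [hL i]; ring
    rw [hLi] at hal
    have h1 := hst.cls i a ha hal
    have htar : e'.target = (e i).target := by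
      rw [he'.1.2.2, (hst.ann i).2.2, hLi]
    have hsym : ∀ ζ ∈ e'.target, e'.symm ζ = (e i).symm ζ := by
      intro ζ hζ
      rw [he'.2 ζ hζ]
      have hs : Real.sqrt ‖D.q i‖ = Real.exp (-l i) := by
        rw [hnq i, show -(2 * l i) = -l i + -l i by ring, Real.exp_add,
          Real.sqrt_mul_self (Real.exp_pos _).le]
      have hζ' : Real.exp (-l i) < ‖ζ‖ ∧ ‖ζ‖ < Real.exp (l i) := by
        rw [htar, (hst.ann i).2.2] at hζ
        exact hζ
      have hn : ‖((Real.sqrt ‖D.q i‖ : ℝ) : ℂ) * ζ‖ = Real.exp (-l i) * ‖ζ‖ := by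
        rw [norm_mul, hs, Complex.norm_real, Real.norm_eq_abs, abs_of_pos (Real.exp_pos _)]
      rw [hι i]
      · rw [hs]
        congr 1
        have h2 : ((Real.exp (-l i) : ℝ) : ℂ) * ((Real.exp (l i) : ℝ) : ℂ) = 1 := by
          rw [← Complex.ofReal_mul, ← Real.exp_add, neg_add_cancel, Real.exp_zero,
            Complex.ofReal_one]
        calc ((Real.exp (-l i) : ℝ) : ℂ) * ζ * ((Real.exp (l i) : ℝ) : ℂ)
            = ζ * (((Real.exp (-l i) : ℝ) : ℂ) * ((Real.exp (l i) : ℝ) : ℂ)) := by ring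
          _ = ζ := by rw [h2, mul_one]
      · rw [hn, hnq i, show -(2 * l i) = -l i + -l i by ring, Real.exp_add]
        exact mul_lt_mul_of_pos_left hζ'.1 (Real.exp_pos _)
      · rw [hn]
        calc Real.exp (-l i) * ‖ζ‖ < Real.exp (-l i) * Real.exp (l i) :=
              mul_lt_mul_of_pos_left hζ'.2 (Real.exp_pos _)
          _ = 1 := by rw [← Real.exp_add, neg_add_cancel, Real.exp_zero]
    have h3 : betaC e' a = betaC (e i) a := by
      funext x
      unfold betaC
      rw [kq_phiE htar hsym a]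
    rw [h3]
    exact h1
  · rw [hL i]
    have h1 := (le_max_right 2 L0).trans (hl i)
    have h2 := hl2 i
    linarith
  · intro i x hx
    have h1 := hst.greedy i x hx
    refine le_trans ?_ h1
    rw [hL i]
    have h2 := hl2 i
    have h3 : 0 < l i := by linarith
    rw [div_le_div_iff₀ (by linarith) h3]
    nlinarith

end Pool.Agent.Lib.MP_cca10c_ag
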