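import Pool.Agent.Lib.MP_cca10c_ag.M00_Defs
import Pool.Agent.Lib.MP_cca10c_ag.H01_Charts
import Pool.Agent.Lib.MP_cca10c_ag.Pl.QcLin

/-!
# Module M: modification of a complex structure inside a compact subset of a chart (stub M01)

`exists_CS`: the charts of `S` are all `e` which are compatible with every chart of `A` (compatibility of
two such `e` is checked near every point through a chart of `A` at the point).
`exists_mod`: `Θ` is a local diffeomorphism (inverse function theorem), so `Θ ∘ e` is an open partial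
homeomorphism with source `e.source`. Atlas: the charts `c` of `S` with source disjoint from the compact
(hence closed, `T2Space`) set `e.symm '' K`, and `Θ ∘ e`. The inverse of `Θ` on `Θ '' (e.target \ K)` is
holomorphic (derivative of `Θ` is complex linear and invertible there).
Linear algebra: `Pl/QcLin.lean` (`QC.comp`, `QC.inv`, `exists_ab`).
-/

set_option autoImplicit false

open Topology Set MeasureTheory
open scoped ContDiff

namespace Pool.Agent.Lib.MP_cca10c_ag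

variable {X : Type} [TopologicalSpace X]

/-! ### tools -/

private theorem m01_factor {Y : Type*} {e e' : OpenPartialHomeomorph X ℂ} {x : X} (f : X → Y)
    (hx : x ∈ e.source) (hx' : x ∈ e'.source) :
    (f ∘ e.symm) =ᶠ[𝓝 (e x)] (f ∘ e'.symm) ∘ (e' ∘ e.symm) := by
  have h1 : Filter.Tendsto e.symm (𝓝 (e x)) (𝓝 x) := e.tendsto_symm hx
  filter_upwards [h1.eventually (e'.open_source.mem_nhds hx')] with z hz
  simp only [Function.comp_apply]
  rw [e'.left_inv hz]

private theorem m01_val {Y : Type*} {e : OpenPartialHomeomorph X ℂ} {x : X} (f : X → Y)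
    (hx : x ∈ e.source) : (f ∘ e.symm) (e x) = f x := by
  rw [Function.comp_apply, e.left_inv hx]

private theorem m01_compat_iff {e e' : OpenPartialHomeomorph X ℂ} :
    Compat e e' ↔ ∀ x, x ∈ e.source → x ∈ e'.source →
      DifferentiableAt ℂ (e' ∘ e.symm) (e x) ∧ DifferentiableAt ℂ (e ∘ e'.symm) (e' x) := by
  have ho : ∀ a b : OpenPartialHomeomorph X ℂ, IsOpen (a '' (a.source ∩ b.source)) := fun a b =>
    a.isOpen_image_of_subset_source (a.open_source.inter b.open_source) inter_subset_left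
  have ho' : IsOpen (e' '' (e.source ∩ e'.source)) := by
    rw [inter_comm]
    exact ho e' e
  constructor
  · intro h x hx hx'
    exact ⟨(h.1 _ ⟨x, ⟨hx, hx'⟩, rfl⟩).differentiableAt ((ho e e').mem_nhds ⟨x, ⟨hx, hx'⟩, rfl⟩),
      (h.2 _ ⟨x, ⟨hx, hx'⟩, rfl⟩).differentiableAt (ho'.mem_nhds ⟨x, ⟨hx, hx'⟩, rfl⟩)⟩
  · intro h
    constructor
    · rintro _ ⟨x, ⟨hx, hx'⟩, rfl⟩
      exact (h x hx hx').1.differentiableWithinAt
    · rintro _ ⟨x, ⟨hx, hx'⟩, rfl⟩
      exact (h x hx hx').2.differentiableWithinAt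

private theorem m01_compat_symm {e e' : OpenPartialHomeomorph X ℂ} (h : Compat e e') :
    Compat e' e := by
  rw [m01_compat_iff] at h ⊢
  exact fun x hx hx' => (h x hx' hx).symm

private theorem m01_diff_comp {𝕜 : Type} [NontriviallyNormedField 𝕜] [NormedAlgebra 𝕜 ℂ]
    {e e' e'' : OpenPartialHomeomorph X ℂ} {x : X} (hx : x ∈ e.source) (hx' : x ∈ e'.source)
    (h : DifferentiableAt 𝕜 (e' ∘ e.symm) (e x)) (h' : DifferentiableAt 𝕜 (e'' ∘ e'.symm) (e' x)) :
    DifferentiableAt 𝕜 (e'' ∘ e.symm) (e x) := by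
  have h1 : DifferentiableAt 𝕜 (e'' ∘ e'.symm) ((e' ∘ e.symm) (e x)) := by
    rwa [m01_val _ hx]
  exact (h1.comp (e x) h).congr_of_eventuallyEq (m01_factor _ hx hx')

private theorem m01_cont_comp
    {e e' e'' : OpenPartialHomeomorph X ℂ} {x : X} (hx : x ∈ e.source) (hx' : x ∈ e'.source)
    (h : ContDiffAt ℝ ∞ (e' ∘ e.symm) (e x)) (h' : ContDiffAt ℝ ∞ (e'' ∘ e'.symm) (e' x)) :
    ContDiffAt ℝ ∞ (e'' ∘ e.symm) (e x) := by
  have h1 : ContDiffAt ℝ ∞ (e'' ∘ e'.symm) ((e' ∘ e.symm) (e x)) := by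
    rwa [m01_val _ hx]
  exact (h1.comp (e x) h).congr_of_eventuallyEq (m01_factor _ hx hx')

private theorem m01_fderiv_comp
    {e e' e'' : OpenPartialHomeomorph X ℂ} {x : X} (hx : x ∈ e.source) (hx' : x ∈ e'.source)
    (h : DifferentiableAt ℝ (e' ∘ e.symm) (e x)) (h' : DifferentiableAt ℝ (e'' ∘ e'.symm) (e' x)) :
    fderiv ℝ (e'' ∘ e.symm) (e x) =
      (fderiv ℝ (e'' ∘ e'.symm) (e' x)).comp (fderiv ℝ (e' ∘ e.symm) (e x)) := by
  have h1 : DifferentiableAt ℝ (e'' ∘ e'.symm) ((e' ∘ e.symm) (e x)) := by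
    rwa [m01_val _ hx]
  rw [(m01_factor _ hx hx').fderiv_eq, fderiv_comp _ h1 h, m01_val _ hx]

private theorem m01_det_comp (A B : ℂ →L[ℝ] ℂ) : (A.comp B).det = A.det * B.det := by
  have h0 : (A.comp B).det = LinearMap.det ((A : ℂ →ₗ[ℝ] ℂ).comp (B : ℂ →ₗ[ℝ] ℂ)) := rfl
  rw [h0, LinearMap.det_comp]

/-- the derivative of a transition map is complex linear -/
private theorem m01_CL {S : CS X} {e e' : OpenPartialHomeomorph X ℂ} {x : X} (he : e ∈ S.charts)
    (he' : e' ∈ S.charts) (hx : x ∈ e.source) (hx' : x ∈ e'.source) :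
    CcaPl.CL (fderiv ℝ (e' ∘ e.symm) (e x)) := by
  refine ⟨deriv (e' ∘ e.symm) (e x), CS.deriv_trans_ne_zero he he' hx hx', fun v => ?_⟩
  have h1 := (CS.trans_differentiableAt he he' hx hx').hasDerivAt.hasFDerivAt.restrictScalars ℝ
  rw [h1.fderiv]
  simp [mul_comm]

private theorem m01_self {e : OpenPartialHomeomorph X ℂ} {x : X} (hx : x ∈ e.source) :
    HasFDerivAt (𝕜 := ℝ) (e ∘ e.symm) (ContinuousLinearMap.id ℝ ℂ) (e x) := by
  have h1 : (e ∘ e.symm) =ᶠ[𝓝 (e x)] id := by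
    filter_upwards [e.open_target.mem_nhds (e.map_source hx)] with z hz
    exact e.right_inv hz
  exact (hasFDerivAt_id (e x)).congr_of_eventuallyEq h1

private theorem m01_selfC {e : OpenPartialHomeomorph X ℂ} {x : X} (hx : x ∈ e.source) :
    DifferentiableAt ℂ (e ∘ e.symm) (e x) := by
  have h1 : (e ∘ e.symm) =ᶠ[𝓝 (e x)] id := by
    filter_upwards [e.open_target.mem_nhds (e.map_source hx)] with z hz
    exact e.right_inv hz
  exact differentiableAt_id.congr_of_eventuallyEq h1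

/-- an atlas (a set of pairwise compatible charts covering `X`) is contained in a complex structure -/
theorem exists_CS (A : Set (OpenPartialHomeomorph X ℂ)) (hc : ∀ x, ∃ e ∈ A, x ∈ e.source)
    (h : ∀ e ∈ A, ∀ e' ∈ A, Compat e e') : ∃ S : CS X, A ⊆ S.charts := by
  refine ⟨⟨{e | ∀ a ∈ A, Compat e a}, ?_, ?_, ?_⟩, fun e he => h e he⟩
  · intro x
    obtain ⟨e, he, hx⟩ := hc x
    exact ⟨e, h e he, hx⟩
  · intro e he e' he'
    rw [m01_compat_iff]
    intro x hx hx'
    obtain ⟨a, ha, hxa⟩ := hc x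
    have h1 := m01_compat_iff.1 (he a ha) x hx hxa
    have h2 := m01_compat_iff.1 (he' a ha) x hx' hxa
    exact ⟨m01_diff_comp hx hxa h1.1 h2.2, m01_diff_comp hx' hxa h2.1 h1.2⟩
  · intro e he a ha
    exact he a (h a ha)

/-- one pair of charts is enough: the change of the charts is complex linear -/
private theorem m01_change {S S' : CS X} {x : X} {a e a' e' : OpenPartialHomeomorph X ℂ}
    (ha : a ∈ S.charts) (he : e ∈ S.charts) (ha' : a' ∈ S'.charts) (he' : e' ∈ S'.charts)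
    (hxa : x ∈ a.source) (hxe : x ∈ e.source) (hxa' : x ∈ a'.source) (hxe' : x ∈ e'.source)
    (hd : DifferentiableAt ℝ (e' ∘ e.symm) (e x)) :
    DifferentiableAt ℝ (a' ∘ a.symm) (a x) ∧ ∃ B' B : ℂ →L[ℝ] ℂ, CcaPl.CL B' ∧ CcaPl.CL B ∧
      fderiv ℝ (a' ∘ a.symm) (a x) = B'.comp ((fderiv ℝ (e' ∘ e.symm) (e x)).comp B) := by
  have d1 : DifferentiableAt ℝ (e ∘ a.symm) (a x) :=
    (CS.trans_differentiableAt ha he hxa hxe).restrictScalars ℝ
  have d2 : DifferentiableAt ℝ (a' ∘ e'.symm) (e' x) :=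
    (CS.trans_differentiableAt he' ha' hxe' hxa').restrictScalars ℝ
  have d3 : DifferentiableAt ℝ (a' ∘ e.symm) (e x) := m01_diff_comp hxe hxe' hd d2
  refine ⟨m01_diff_comp hxa hxe d1 d3, fderiv ℝ (a' ∘ e'.symm) (e' x), fderiv ℝ (e ∘ a.symm) (a x),
    m01_CL he' ha' hxe' hxa', m01_CL ha he hxa hxe, ?_⟩
  rw [m01_fderiv_comp hxa hxe d1 d3, m01_fderiv_comp hxe hxe' hd d2]
  rfl

/-- one pair of charts is enough to check smooth equivalence at a point -/
theorem SC.of_local {S S' : CS X} (h : ∀ x, ∃ e ∈ S.charts, ∃ e' ∈ S'.charts, x ∈ e.source ∧ x ∈ e'.source ∧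
    ContDiffAt ℝ ∞ (e' ∘ e.symm) (e x) ∧ 0 < (fderiv ℝ (e' ∘ e.symm) (e x)).det) : SC S S' := by
  intro a ha a' ha' x hx
  obtain ⟨e, he, e', he', hxe, hxe', hcd, hdet⟩ := h x
  have hd : DifferentiableAt ℝ (e' ∘ e.symm) (e x) := hcd.differentiableAt (by simp)
  obtain ⟨-, B', B, hB', hB, hf⟩ := m01_change ha he ha' he' hx.1 hxe hx.2 hxe' hd
  refine ⟨?_, ?_⟩
  · have c1 : ContDiffAt ℝ ∞ (e ∘ a.symm) (a x) := CS.trans_contDiffAt ha he hx.1 hxe
    have c2 : ContDiffAt ℝ ∞ (a' ∘ e'.symm) (e' x) := CS.trans_contDiffAt he' ha' hxe' hx.2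
    exact m01_cont_comp hx.1 hxe c1 (m01_cont_comp hxe hxe' hcd c2)
  · rw [hf, m01_det_comp, m01_det_comp]
    exact mul_pos hB'.qc.1 (mul_pos hdet hB.qc.1)

theorem SC.refl (S : CS X) : SC S S := by
  intro e he e' he' x hx
  exact ⟨CS.trans_contDiffAt he he' hx.1 hx.2, (m01_CL he he' hx.1 hx.2).qc.1⟩

/-- the derivatives of the two changes of charts are inverse to each other -/
private theorem m01_inv {e e' : OpenPartialHomeomorph X ℂ} {x : X} (hx : x ∈ e.source)
    (hx' : x ∈ e'.source) (h : DifferentiableAt ℝ (e' ∘ e.symm) (e x))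
    (h' : DifferentiableAt ℝ (e ∘ e'.symm) (e' x)) (v : ℂ) :
    fderiv ℝ (e' ∘ e.symm) (e x) (fderiv ℝ (e ∘ e'.symm) (e' x) v) = v := by
  have h1 := m01_fderiv_comp hx' hx h' h
  rw [(m01_self hx').fderiv] at h1
  have h2 := congrArg (fun T : ℂ →L[ℝ] ℂ => T v) h1
  simpa using h2.symm

theorem SC.symm {S S' : CS X} (h : SC S S') : SC S' S := by
  intro e he e' he' x hx
  obtain ⟨h1, h2⟩ := h e' he' e he x ⟨hx.2, hx.1⟩
  have hd : DifferentiableAt ℝ (e ∘ e'.symm) (e' x) := h1.differentiableAt (by simp)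
  have hcd : ContDiffAt ℝ ∞ (e' ∘ e.symm) (e x) := by
    have ha : e x ∈ (e'.symm.trans e).target := by
      rw [OpenPartialHomeomorph.trans_target]
      refine ⟨e.map_source hx.1, ?_⟩
      rw [mem_preimage, e.left_inv hx.1, OpenPartialHomeomorph.symm_target]
      exact hx.2
    have hv : (e'.symm.trans e).symm (e x) = e' x := by
      rw [OpenPartialHomeomorph.trans_symm_eq_symm_trans_symm, OpenPartialHomeomorph.coe_trans,
        OpenPartialHomeomorph.symm_symm, Function.comp_apply, e.left_inv hx.1]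
    have hc : ((e'.symm.trans e) : ℂ → ℂ) = e ∘ e'.symm := rfl
    have hc' : ((e'.symm.trans e).symm : ℂ → ℂ) = e' ∘ e.symm := rfl
    have key := (e'.symm.trans e).contDiffAt_symm (n := ∞) (𝕜 := ℝ)
      (f₀' := (fderiv ℝ (e ∘ e'.symm) (e' x)).toContinuousLinearEquivOfDetNeZero h2.ne') ha
      (by
        rw [hv, hc, ContinuousLinearMap.coe_toContinuousLinearEquivOfDetNeZero]
        exact hd.hasFDerivAt)
      (by
        rw [hv, hc]
        exact h1)
    rwa [hc'] at key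
  refine ⟨hcd, ?_⟩
  have hd' : DifferentiableAt ℝ (e' ∘ e.symm) (e x) := hcd.differentiableAt (by simp)
  have h3 := m01_fderiv_comp hx.1 hx.2 hd' hd
  rw [(m01_self hx.1).fderiv] at h3
  have h4 := congrArg (fun T : ℂ →L[ℝ] ℂ => T.det) h3
  simp only [m01_det_comp] at h4
  have h5 : (ContinuousLinearMap.id ℝ ℂ).det = 1 := by
    have h0 : (ContinuousLinearMap.id ℝ ℂ).det = LinearMap.det (LinearMap.id : ℂ →ₗ[ℝ] ℂ) := rfl
    rw [h0, LinearMap.det_id]
  rw [h5] at h4
  by_contra hcon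
  rw [not_lt] at hcon
  have := mul_nonpos_of_nonneg_of_nonpos h2.le hcon
  linarith

theorem SC.trans {S S' S'' : CS X} (h : SC S S') (h' : SC S' S'') : SC S S'' := by
  intro e he e'' he'' x hx
  obtain ⟨e', he', hx'⟩ := S'.cover x
  obtain ⟨h1, h2⟩ := h e he e' he' x ⟨hx.1, hx'⟩
  obtain ⟨h3, h4⟩ := h' e' he' e'' he'' x ⟨hx', hx.2⟩
  refine ⟨m01_cont_comp hx.1 hx' h1 h3, ?_⟩
  rw [m01_fderiv_comp hx.1 hx' (h1.differentiableAt (by simp)) (h3.differentiableAt (by simp)),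
    m01_det_comp]
  exact mul_pos h4 h2

/-- one pair of charts is enough to check the dilatation at a point -/
theorem DilAt.of_charts {S S' : CS X} {K : ℝ} {x : X} {e e' : OpenPartialHomeomorph X ℂ} (he : e ∈ S.charts)
    (he' : e' ∈ S'.charts) (hx : x ∈ e.source) (hx' : x ∈ e'.source) (hd : DifferentiableAt ℝ (e' ∘ e.symm) (e x))
    (h : ‖fderiv ℝ (e' ∘ e.symm) (e x)‖ ^ 2 ≤ K * (fderiv ℝ (e' ∘ e.symm) (e x)).det) : DilAt S S' K x := by
  intro a ha a' ha' hxa hxa'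
  obtain ⟨-, B', B, hB', hB, hf⟩ := m01_change ha he ha' he' hxa hx hxa' hx' hd
  rw [hf, m01_det_comp, m01_det_comp]
  set A := fderiv ℝ (e' ∘ e.symm) (e x)
  have n1 : ‖B'.comp (A.comp B)‖ ≤ ‖B'‖ * (‖A‖ * ‖B‖) :=
    (B'.opNorm_comp_le _).trans (mul_le_mul_of_nonneg_left (A.opNorm_comp_le B) (norm_nonneg _))
  have q1 := hB'.qc.2
  have q2 := hB.qc.2
  have p1 := hB'.qc.1
  have p2 := hB.qc.1
  rw [one_mul] at q1 q2
  calc ‖B'.comp (A.comp B)‖ ^ 2 ≤ (‖B'‖ * (‖A‖ * ‖B‖)) ^ 2 :=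
        pow_le_pow_left₀ (norm_nonneg _) n1 2
    _ = ‖B'‖ ^ 2 * (‖A‖ ^ 2 * ‖B‖ ^ 2) := by ring
    _ ≤ B'.det * ((K * A.det) * B.det) := by
        refine mul_le_mul q1 ?_ (by positivity) p1.le
        exact mul_le_mul h q2 (sq_nonneg _) ((sq_nonneg _).trans h)
    _ = K * (B'.det * (A.det * B.det)) := by ring

theorem DilAt.mono {S S' : CS X} (hSC : SC S S') {K K' : ℝ} (hK : K ≤ K') {x : X} (h : DilAt S S' K x) :
    DilAt S S' K' x := by
  intro e he e' he' hx hx'
  exact (h e he e' he' hx hx').trans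
    (mul_le_mul_of_nonneg_right hK (hSC e he e' he' x ⟨hx, hx'⟩).2.le)

theorem DilAt.symm {S S' : CS X} (hSC : SC S S') {K : ℝ} {x : X} (h : DilAt S S' K x) : DilAt S' S K x := by
  intro e he e' he' hx hx'
  obtain ⟨h1, h2⟩ := hSC e' he' e he x ⟨hx', hx⟩
  obtain ⟨h3, h4⟩ := hSC.symm e he e' he' x ⟨hx, hx'⟩
  have hq : CcaPl.QC K (fderiv ℝ (e ∘ e'.symm) (e' x)) := ⟨h2, h e' he' e he hx' hx⟩
  exact (hq.inv (m01_inv hx' hx (h1.differentiableAt (by simp))
    (h3.differentiableAt (by simp)))).2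

theorem DilAt.trans {S S' S'' : CS X} (hSC : SC S S') (hSC' : SC S' S'') {K K' : ℝ} {x : X} (h : DilAt S S' K x)
    (h' : DilAt S' S'' K' x) : DilAt S S'' (K * K') x := by
  intro e he e'' he'' hx hx''
  obtain ⟨e', he', hx'⟩ := S'.cover x
  obtain ⟨h1, h2⟩ := hSC e he e' he' x ⟨hx, hx'⟩
  obtain ⟨h3, h4⟩ := hSC' e' he' e'' he'' x ⟨hx', hx''⟩
  have q1 : CcaPl.QC K (fderiv ℝ (e' ∘ e.symm) (e x)) := ⟨h2, h e he e' he' hx hx'⟩
  have q2 : CcaPl.QC K' (fderiv ℝ (e'' ∘ e'.symm) (e' x)) := ⟨h4, h' e' he' e'' he'' hx' hx''⟩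
  have q3 := (q2.comp q1).2
  rw [m01_fderiv_comp hx hx' (h1.differentiableAt (by simp)) (h3.differentiableAt (by simp)),
    mul_comm K K']
  exact q3

private theorem m01_ext {S S' : CS X} (h : S.charts = S'.charts) : S = S' := by
  cases S
  cases S'
  cases h
  rfl

private theorem m01_hol {S S' : CS X} (hSC : SC S S') {x : X} (h : DilAt S S' 1 x)
    {e e' : OpenPartialHomeomorph X ℂ} (he : e ∈ S.charts) (he' : e' ∈ S'.charts)
    (hx : x ∈ e.source) (hx' : x ∈ e'.source) : DifferentiableAt ℂ (e' ∘ e.symm) (e x) := by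
  obtain ⟨h1, h2⟩ := hSC e he e' he' x ⟨hx, hx'⟩
  have h3 := h e he e' he' hx hx'
  obtain ⟨α, β, hA, hn, hdet⟩ := CcaPl.exists_ab (fderiv ℝ (e' ∘ e.symm) (e x))
  rw [hn, hdet, one_mul] at h3
  have hβ : ‖β‖ = 0 := by
    have h4 := norm_nonneg α
    have h5 := norm_nonneg β
    nlinarith
  rw [norm_eq_zero] at hβ
  rw [differentiableAt_complex_iff_differentiableAt_real]
  refine ⟨h1.differentiableAt (by simp), ?_⟩
  rw [hA, hA, hβ]
  simp [mul_comm]

private theorem m01_sub {S S' : CS X} (hSC : SC S S') (h : ∀ x, DilAt S S' 1 x) :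
    S.charts ⊆ S'.charts := by
  intro e he
  refine S'.max e fun e' he' => ?_
  rw [m01_compat_iff]
  intro x hx hx'
  exact ⟨m01_hol hSC (h x) he he' hx hx', m01_hol hSC.symm ((h x).symm hSC) he' he hx' hx⟩

/-- same holomorphic structure -/
theorem eq_of_dil_one {S S' : CS X} (hSC : SC S S') (h : ∀ x, DilAt S S' 1 x) : S = S' :=
  m01_ext (Subset.antisymm (m01_sub hSC h) (m01_sub hSC.symm fun x => (h x).symm hSC))

/-- the open partial homeomorphism given by an injective local diffeomorphism -/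
private theorem m01_exists_psi {U : Set ℂ} (hU : IsOpen U) {Θ : ℂ → ℂ} (hΘ : ContDiffOn ℝ ∞ Θ U)
    (hi : InjOn Θ U) (hdet : ∀ z ∈ U, 0 < (fderiv ℝ Θ z).det) :
    ∃ ψ : OpenPartialHomeomorph ℂ ℂ, ψ.source = U ∧ ∀ z, ψ z = Θ z := by
  have hopen : IsOpenMap (U.domRestrict Θ) := by
    intro W hW
    rw [isOpen_iff_mem_nhds]
    rintro _ ⟨⟨z, hz⟩, hzW, rfl⟩
    have h1 : ContDiffAt ℝ ∞ Θ z := hΘ.contDiffAt (hU.mem_nhds hz)
    have h2 : HasStrictFDerivAt Θ (fderiv ℝ Θ z) z := h1.hasStrictFDerivAt (by simp)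
    have h3 : HasStrictFDerivAt Θ
        (((fderiv ℝ Θ z).toContinuousLinearEquivOfDetNeZero (hdet z hz).ne' : ℂ ≃L[ℝ] ℂ) :
          ℂ →L[ℝ] ℂ) z := by
      rw [ContinuousLinearMap.coe_toContinuousLinearEquivOfDetNeZero]
      exact h2
    have h4 := h3.map_nhds_eq_of_equiv
    have h5 : Subtype.val '' W ∈ 𝓝 z := by
      have h6 : IsOpen (Subtype.val '' W) := hU.isOpenMap_subtype_val W hW
      exact h6.mem_nhds ⟨⟨z, hz⟩, hzW, rfl⟩
    have h6 : Θ '' (Subtype.val '' W) ∈ 𝓝 (Θ z) := by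
      rw [← h4]
      exact Filter.image_mem_map h5
    refine Filter.mem_of_superset h6 ?_
    rintro _ ⟨_, ⟨w, hw, rfl⟩, rfl⟩
    exact ⟨w, hw, rfl⟩
  exact ⟨OpenPartialHomeomorph.ofContinuousOpenRestrict (hi.toPartialEquiv Θ U) hΘ.continuousOn
    hopen hU, rfl, fun z => rfl⟩

/-- modification of the structure `S` by the smooth map `Θ` in the chart `e`; `Θ` is holomorphic off the compact set `K` -/
theorem exists_mod [T2Space X] (S : CS X) {e : OpenPartialHomeomorph X ℂ} (he : e ∈ S.charts) {K : Set ℂ}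
    (hK : IsCompact K) (hKe : K ⊆ e.target) {Θ : ℂ → ℂ} (hΘ : ContDiffOn ℝ ∞ Θ e.target) (hi : InjOn Θ e.target)
    (hdet : ∀ z ∈ e.target, 0 < (fderiv ℝ Θ z).det) (hh : DifferentiableOn ℂ Θ (e.target \ K)) :
    ∃ S' : CS X, SC S S' ∧ (∀ c ∈ S.charts, Disjoint c.source (e.symm '' K) → c ∈ S'.charts) ∧
      ∃ c ∈ S'.charts, c.source = e.source ∧ ∀ x ∈ e.source, c x = Θ (e x) := by
  obtain ⟨ψ, hψs, hψ⟩ := m01_exists_psi e.open_target hΘ hi hdet
  have hCc : IsCompact (e.symm '' K) := hK.image_of_continuousOn (e.continuousOn_symm.mono hKe)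
  have hCs : e.symm '' K ⊆ e.source := by
    rintro _ ⟨z, hz, rfl⟩
    exact e.map_target (hKe hz)
  have hc0s : (e.trans ψ).source = e.source := by
    rw [OpenPartialHomeomorph.trans_source, hψs]
    refine inter_eq_left.2 fun x hx => ?_
    exact e.map_source hx
  have hc0 : ∀ x, (e.trans ψ) x = Θ (e x) := fun x => by
    rw [OpenPartialHomeomorph.coe_trans, Function.comp_apply, hψ]
  have hKc : IsClosed K := hK.isClosed
  -- compatibility of a chart away from `K`
  have hcomp : ∀ c ∈ S.charts, Disjoint c.source (e.symm '' K) → Compat c (e.trans ψ) := by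
    intro c hc hdis
    rw [m01_compat_iff]
    intro x hx hx'
    rw [hc0s] at hx'
    have hxK : e x ∉ K := fun h =>
      Set.disjoint_left.1 hdis hx ⟨e x, h, e.left_inv hx'⟩
    have ho : IsOpen (e.target \ K) := e.open_target.sdiff hKc
    have hd : DifferentiableAt ℂ Θ (e x) :=
      (hh _ ⟨e.map_source hx', hxK⟩).differentiableAt (ho.mem_nhds ⟨e.map_source hx', hxK⟩)
    constructor
    · have h1 : ((e.trans ψ) ∘ c.symm) = Θ ∘ (e ∘ c.symm) := by
        funext z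
        simp only [Function.comp_apply, hc0]
      rw [h1]
      have h2 : DifferentiableAt ℂ Θ ((e ∘ c.symm) (c x)) := by
        rwa [m01_val _ hx]
      exact h2.comp _ (CS.trans_differentiableAt hc he hx hx')
    · have h1 : (c ∘ (e.trans ψ).symm) = (c ∘ e.symm) ∘ ψ.symm := by
        funext z
        rfl
      rw [h1, hc0]
      have hxt : e x ∈ ψ.source := by
        rw [hψs]
        exact e.map_source hx'
      have hinv : ψ.symm (Θ (e x)) = e x := by
        rw [← hψ, ψ.left_inv hxt]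
      have h2 : DifferentiableAt ℂ (c ∘ e.symm) (ψ.symm (Θ (e x))) := by
        rw [hinv]
        exact CS.trans_differentiableAt he hc hx' hx
      refine h2.comp _ ?_
      have hmem : Θ (e x) ∈ ψ.target := by
        rw [← hψ]
        exact ψ.map_source hxt
      have hne : deriv Θ (e x) ≠ 0 := by
        intro h0
        have h3 := hdet (e x) (e.map_source hx')
        have h4 := hd.hasDerivAt.hasFDerivAt.restrictScalars ℝ
        rw [h4.fderiv, h0] at h3
        have h5 : ((ContinuousLinearMap.toSpanSingleton ℂ (0 : ℂ)).restrictScalars ℝ :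
            ℂ →L[ℝ] ℂ).det = 0 := by
          have h6 : ((ContinuousLinearMap.toSpanSingleton ℂ (0 : ℂ)).restrictScalars ℝ :
            ℂ →L[ℝ] ℂ) = 0 := by
            ext v
            simp
          rw [h6]
          have h7 : (0 : ℂ →L[ℝ] ℂ).det = LinearMap.det (0 : ℂ →ₗ[ℝ] ℂ) := rfl
          rw [h7, LinearMap.det_zero]
          simp
        rw [h5] at h3
        exact lt_irrefl _ h3
      have hψe : (ψ : ℂ → ℂ) = Θ := funext hψ
      exact (ψ.hasDerivAt_symm hmem hne (by rw [hinv, hψe]; exact hd.hasDerivAt)).differentiableAt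
  have hself : ∀ c : OpenPartialHomeomorph X ℂ, Compat c c := by
    intro c
    rw [m01_compat_iff]
    exact fun x hx _ => ⟨m01_selfC hx, m01_selfC hx⟩
  have hfar : ∀ x, x ∉ e.source → ∃ c ∈ S.charts, x ∈ c.source ∧ Disjoint c.source (e.symm '' K) := by
    intro x hx
    obtain ⟨c, hc, hxc⟩ := S.cover x
    have hO : IsOpen (e.symm '' K)ᶜ := hCc.isClosed.isOpen_compl
    refine ⟨c.restr (e.symm '' K)ᶜ, CS.restr_mem hc hO, ?_, ?_⟩
    · rw [c.restr_source, hO.interior_eq]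
      exact ⟨hxc, fun h => hx (hCs h)⟩
    · rw [c.restr_source, hO.interior_eq, Set.disjoint_left]
      exact fun y hy hy' => hy.2 hy'
  obtain ⟨S', hS'⟩ := exists_CS
    ({c | c ∈ S.charts ∧ Disjoint c.source (e.symm '' K)} ∪ {e.trans ψ}) (by
      intro x
      by_cases hx : x ∈ e.source
      · refine ⟨e.trans ψ, Or.inr rfl, ?_⟩
        rw [hc0s]
        exact hx
      · obtain ⟨c, hc, hxc, hdis⟩ := hfar x hx
        exact ⟨c, Or.inl ⟨hc, hdis⟩, hxc⟩) (by
      rintro a (ha | rfl) b (hb | rfl)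
      · exact S.compat a ha.1 b hb.1
      · exact hcomp a ha.1 ha.2
      · exact m01_compat_symm (hcomp b hb.1 hb.2)
      · exact hself _)
  refine ⟨S', ?_, fun c hc hdis => hS' (Or.inl ⟨hc, hdis⟩), e.trans ψ, hS' (Or.inr rfl), hc0s,
    fun x _ => hc0 x⟩
  refine SC.of_local fun x => ?_
  by_cases hx : x ∈ e.source
  · refine ⟨e, he, e.trans ψ, hS' (Or.inr rfl), hx, by rw [hc0s]; exact hx, ?_⟩
    have h1 : ((e.trans ψ) ∘ e.symm) =ᶠ[𝓝 (e x)] Θ := by
      filter_upwards [e.open_target.mem_nhds (e.map_source hx)] with z hz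
      rw [Function.comp_apply, hc0, e.right_inv hz]
    refine ⟨(hΘ.contDiffAt (e.open_target.mem_nhds (e.map_source hx))).congr_of_eventuallyEq h1, ?_⟩
    rw [h1.fderiv_eq]
    exact hdet _ (e.map_source hx)
  · obtain ⟨c, hc, hxc, hdis⟩ := hfar x hx
    exact ⟨c, hc, c, hS' (Or.inl ⟨hc, hdis⟩), hxc, hxc,
      SC.refl S c hc c hc x ⟨hxc, hxc⟩⟩

end Pool.Agent.Lib.MP_cca10c_ag
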