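import Pool.Agent.Lib.MP_cca10c_ag.M01_Mod
import Pool.Agent.Lib.MP_cca10c_ag.H20_Indep
import Pool.Agent.Lib.MP_cca10c_ag.H23_Period

/-!
# Module M: the energy of a class in two smoothly equivalent structures (stub M02)

For `T = e' ∘ e.symm` (`e` a chart of `S`, `e'` of `S'`), `D = fderiv ℝ T z` and a function `f`:
`cgrad (f ∘ e.symm) z = c`, `cgrad (f ∘ e'.symm) (T z) = c'` satisfy `Re (c v) = Re (c' (D v))` for all
`v`. With `D v = α v + β conj v` this is `c = c' α + conj (c' β)`, so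
`‖c'‖² det D ≤ K ‖c‖²` if `‖D‖² ≤ K det D`, and `Im (c₁ conj c₂) = det D * Im (c₁' conj c₂')`.
Change of variables by `T` on the (finitely many) Borel pieces `P i ∩ P' j` of the two frames gives the
comparison of the energies and the invariance of the wedge integral.
-/

set_option autoImplicit false

open Topology Set MeasureTheory
open scoped ContDiff

namespace Pool.Agent.Lib.MP_cca10c_ag

private theorem m02_pull_eq {D : ℂ →L[ℝ] ℂ} {α β c c' : ℂ}
    (hD : ∀ v, D v = α * v + β * (starRingEnd ℂ) v) (h : ∀ v, (c * v).re = (c' * D v).re) :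
    c = c' * α + (starRingEnd ℂ) (c' * β) := by
  have h1 := h 1
  have h2 := h Complex.I
  rw [hD] at h1 h2
  apply Complex.ext
  · simp only [Complex.mul_re, Complex.mul_im, Complex.add_re, Complex.add_im, Complex.one_re,
      Complex.one_im, map_one, map_mul, Complex.conj_re, Complex.conj_im] at h1 ⊢
    linarith
  · simp only [Complex.mul_re, Complex.mul_im, Complex.add_re, Complex.add_im, Complex.I_re,
      Complex.I_im, Complex.conj_I, map_mul, Complex.conj_re, Complex.conj_im, Complex.neg_re,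
      Complex.neg_im] at h2 ⊢
    linarith

/-- linear algebra of the pull-back of covectors -/
theorem pull_norm_le {D : ℂ →L[ℝ] ℂ} {K : ℝ} (hdet : 0 < D.det) (hK : ‖D‖ ^ 2 ≤ K * D.det)
    {c c' : ℂ} (h : ∀ v, (c * v).re = (c' * D v).re) : ‖c'‖ ^ 2 * D.det ≤ K * ‖c‖ ^ 2 := by
  obtain ⟨α, β, hD, hn, hd⟩ := Pool.Agent.CcaPl.exists_ab D
  have hc := m02_pull_eq hD h
  have h1 : ‖c'‖ * (‖α‖ - ‖β‖) ≤ ‖c‖ := by
    have h2 : ‖c' * α‖ - ‖(starRingEnd ℂ) (c' * β)‖ ≤ ‖c' * α + (starRingEnd ℂ) (c' * β)‖ := by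
      have h3 := norm_sub_norm_le (c' * α) (-(starRingEnd ℂ) (c' * β))
      rwa [norm_neg, sub_neg_eq_add] at h3
    rw [← hc, Complex.norm_conj, norm_mul, norm_mul] at h2
    linarith
  have hα := norm_nonneg α
  have hβ := norm_nonneg β
  have hc' := norm_nonneg c'
  rw [hd] at hdet hK ⊢
  rw [hn] at hK
  have hlt : ‖β‖ < ‖α‖ := by nlinarith
  have hpos : 0 < ‖α‖ + ‖β‖ := by linarith
  have h4 : ‖α‖ + ‖β‖ ≤ K * (‖α‖ - ‖β‖) := by
    have h5 : (‖α‖ + ‖β‖) * (‖α‖ + ‖β‖) ≤ (K * (‖α‖ - ‖β‖)) * (‖α‖ + ‖β‖) := by nlinarith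
    exact le_of_mul_le_mul_right h5 hpos
  have hKpos : 0 ≤ K := by
    by_contra hneg
    push Not at hneg
    nlinarith
  have h6 : (‖c'‖ * (‖α‖ - ‖β‖)) ^ 2 ≤ ‖c‖ ^ 2 := by
    refine pow_le_pow_left₀ ?_ h1 2
    exact mul_nonneg hc' (by linarith)
  have h7 : ‖c'‖ ^ 2 * (‖α‖ ^ 2 - ‖β‖ ^ 2) ≤ K * (‖c'‖ * (‖α‖ - ‖β‖)) ^ 2 := by
    have h8 : 0 ≤ ‖c'‖ ^ 2 * (‖α‖ - ‖β‖) := mul_nonneg (by positivity) (by linarith)
    nlinarith [mul_le_mul_of_nonneg_left h4 h8]
  exact h7.trans (mul_le_mul_of_nonneg_left h6 hKpos)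

theorem pull_wedge {D : ℂ →L[ℝ] ℂ} {c₁ c₁' c₂ c₂' : ℂ}
    (h₁ : ∀ v, (c₁ * v).re = (c₁' * D v).re) (h₂ : ∀ v, (c₂ * v).re = (c₂' * D v).re) :
    (c₁ * starRingEnd ℂ c₂).im = D.det * (c₁' * starRingEnd ℂ c₂').im := by
  obtain ⟨α, β, hD, hn, hd⟩ := Pool.Agent.CcaPl.exists_ab D
  rw [m02_pull_eq hD h₁, m02_pull_eq hD h₂, hd, ← Complex.normSq_eq_norm_sq,
    ← Complex.normSq_eq_norm_sq, Complex.normSq_apply, Complex.normSq_apply]
  simp only [Complex.mul_re, Complex.mul_im, Complex.add_re, Complex.add_im, map_add, map_mul,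
    Complex.conj_re, Complex.conj_im]
  ring

variable {X : Type} [TopologicalSpace X] {S S' : CS X}

private theorem m02_symm_ev {e : OpenPartialHomeomorph X ℂ} {x : X} (hx : x ∈ e.source)
    {p : X → Prop} (h : ∀ᶠ y in 𝓝 x, p y) : ∀ᶠ w in 𝓝 (e x), p (e.symm w) := by
  have h1 := e.symm.continuousAt (e.map_source hx)
  have h2 : Filter.Tendsto e.symm (𝓝 (e x)) (𝓝 x) := by
    have := h1.tendsto
    rwa [e.left_inv hx] at this
  exact h2.eventually h

private theorem m02_factor {Y : Type*} (f : X → Y) {e e' : OpenPartialHomeomorph X ℂ} {x : X}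
    (hx : x ∈ e.source) (hx' : x ∈ e'.source) :
    (f ∘ e.symm) =ᶠ[𝓝 (e x)] (f ∘ e'.symm) ∘ (e' ∘ e.symm) := by
  filter_upwards [m02_symm_ev hx (e'.open_source.mem_nhds hx')] with z hz
  simp only [Function.comp_apply]
  rw [e'.left_inv hz]

private theorem m02_smooth (h : SC S S') {f : X → ℝ} {x : X} (hf : S'.SmoothAt f x) :
    S.SmoothAt f x := by
  intro e he hx
  obtain ⟨e', he', hx'⟩ := S'.cover x
  have h1 := hf e' he' hx'
  have h2 : ContDiffAt ℝ ∞ (f ∘ e'.symm) ((e' ∘ e.symm) (e x)) := by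
    rw [Function.comp_apply, e.left_inv hx]
    exact h1
  exact (h2.comp (e x) (h e he e' he' x ⟨hx, hx'⟩).1).congr_of_eventuallyEq (m02_factor f hx hx')

/-- the differentials in two charts are related by the derivative of the transition map -/
private theorem m02_pull (h : SC S S') {e e' : OpenPartialHomeomorph X ℂ} (he : e ∈ S.charts)
    (he' : e' ∈ S'.charts) {x : X} (hx : x ∈ e.source) (hx' : x ∈ e'.source) {φ : X → ℝ}
    (hφ : S'.SmoothAt φ x) (v : ℂ) : (cgrad (φ ∘ e.symm) (e x) * v).re =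
      (cgrad (φ ∘ e'.symm) (e' x) * fderiv ℝ (e' ∘ e.symm) (e x) v).re := by
  have h0 : (e' ∘ e.symm) (e x) = e' x := by
    rw [Function.comp_apply, e.left_inv hx]
  have h1 : DifferentiableAt ℝ (φ ∘ e'.symm) ((e' ∘ e.symm) (e x)) := by
    rw [h0]
    exact (hφ e' he' hx').differentiableAt (by simp)
  have h2 : DifferentiableAt ℝ (e' ∘ e.symm) (e x) :=
    (h e he e' he' x ⟨hx, hx'⟩).1.differentiableAt (by simp)
  rw [← fderiv_eq_cgrad, ← fderiv_eq_cgrad, (m02_factor φ hx hx').fderiv_eq,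
    fderiv_comp (e x) h1 h2, h0]
  rfl

theorem SC.smoothAt_iff (h : SC S S') {f : X → ℝ} {x : X} : S.SmoothAt f x ↔ S'.SmoothAt f x :=
  ⟨m02_smooth h.symm, m02_smooth h⟩

theorem SC.smoothNear_iff (h : SC S S') {f : X → ℝ} {x : X} :
    S.SmoothNear f x ↔ S'.SmoothNear f x :=
  Filter.eventually_congr (Filter.Eventually.of_forall fun _ => h.smoothAt_iff)

theorem SC.smooth_iff (h : SC S S') {f : X → ℝ} : S.Smooth f ↔ S'.Smooth f :=
  forall_congr' fun _ => h.smoothAt_iff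

theorem SC.smoothC_iff (h : SC S S') {w : X → UnitAddCircle} : S.SmoothC w ↔ S'.SmoothC w :=
  forall_congr' fun _ => exists_congr fun _ => and_congr_right fun _ => h.smoothAt_iff

/-- `a` (in the frame `F` of `S`) and `a'` (in the frame `F'` of `S'`) are the same closed form -/
def SameForm (F : Frame S) (F' : Frame S') (a a' : X → ℂ) : Prop :=
  ∀ p, ∃ f : X → ℝ, S.SmoothNear f p ∧ S'.SmoothNear f p ∧ (∀ᶠ y in 𝓝 p, a y = F.d f y) ∧
    ∀ᶠ y in 𝓝 p, a' y = F'.d f y

private theorem m02_add {F : Frame S} {F' : Frame S'} (h : SC S S') {a a' b b' : X → ℂ}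
    (ha : SameForm F F' a a') (hb : SameForm F F' b b') :
    SameForm F F' (fun p => a p + b p) (fun p => a' p + b' p) := by
  intro p
  obtain ⟨f, hf, hf', hfa, hfa'⟩ := ha p
  obtain ⟨k, hk, hk', hkb, hkb'⟩ := hb p
  have hs : S.SmoothNear (fun y => f y + k y) p := by
    filter_upwards [hf, hk] with y h1 h2
    exact h1.add h2
  refine ⟨fun y => f y + k y, hs, h.smoothNear_iff.1 hs, ?_, ?_⟩
  · filter_upwards [hf, hk, hfa, hkb] with y h1 h2 h3 h4
    rw [h3, h4, F.d_add h1 h2]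
  · filter_upwards [hf', hk', hfa', hkb'] with y h1 h2 h3 h4
    rw [h3, h4, F'.d_add h1 h2]

private theorem m02_mul {F : Frame S} {F' : Frame S'} (h : SC S S') {a a' : X → ℂ} (c : ℝ)
    (ha : SameForm F F' a a') : SameForm F F' (fun p => c * a p) (fun p => c * a' p) := by
  intro p
  obtain ⟨f, hf, hf', hfa, hfa'⟩ := ha p
  have hs : S.SmoothNear (fun y => c * f y) p := by
    filter_upwards [hf] with y h1
    exact h1.const_mul c
  refine ⟨fun y => c * f y, hs, h.smoothNear_iff.1 hs, ?_, ?_⟩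
  · filter_upwards [hf, hfa] with y h1 h3
    rw [h3, F.d_const_mul c h1]
  · filter_upwards [hf', hfa'] with y h1 h3
    rw [h3, F'.d_const_mul c h1]

private theorem m02_d {F : Frame S} {F' : Frame S'} (h : SC S S') {φ : X → ℝ}
    (hφ : S.Smooth φ) : SameForm F F' (F.d φ) (F'.d φ) := fun _ =>
  ⟨φ, hφ.smoothNear, h.smoothNear_iff.1 hφ.smoothNear, Filter.Eventually.of_forall fun _ => rfl,
    Filter.Eventually.of_forall fun _ => rfl⟩

private theorem m02_zero {F : Frame S} {F' : Frame S'} (h : SC S S') :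
    SameForm F F' (fun _ => 0) (fun _ => 0) := by
  have h1 : S.Smooth (fun _ => (0 : ℝ)) := fun x => CS.SmoothAt.const 0
  have h2 := m02_d (F := F) (F' := F') h h1
  have h3 : F.d (fun _ => (0 : ℝ)) = fun _ => 0 := by
    funext x
    exact F.d_const 0
  have h4 : F'.d (fun _ => (0 : ℝ)) = fun _ => 0 := by
    funext x
    exact F'.d_const 0
  rwa [h3, h4] at h2

private theorem m02_dC {F : Frame S} {F' : Frame S'} (h : SC S S') {w : X → UnitAddCircle}
    (hw : S.SmoothC w) : SameForm F F' (F.dC w) (F'.dC w) := by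
  intro p
  obtain ⟨k, hk, hks⟩ := hw.exists_lift p
  have hks' := h.smoothNear_iff.1 hks
  have h1 := hk.eventually (hks.mono fun y hy => hy.continuousAt)
  refine ⟨k, hks, hks', ?_, ?_⟩
  · exact (h1.and hks).mono fun y hy => F.dC_eq_d hy.1 hy.2
  · exact (h1.and hks').mono fun y hy => F'.dC_eq_d hy.1 hy.2

private theorem m02_sum {F : Frame S} {F' : Frame S'} (h : SC S S') {ι : Type} (s : Finset ι)
    {A A' : ι → X → ℂ} (hA : ∀ i ∈ s, SameForm F F' (A i) (A' i)) :
    SameForm F F' (fun y => ∑ i ∈ s, A i y) (fun y => ∑ i ∈ s, A' i y) := by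
  classical
  induction s using Finset.induction_on with
  | empty => simpa using m02_zero (F := F) (F' := F') h
  | insert j s hj ih =>
    have h1 := m02_add h (hA j (Finset.mem_insert_self _ _))
      (ih fun i hi => hA i (Finset.mem_insert_of_mem hi))
    have h2 : (fun y => ∑ i ∈ insert j s, A i y) = fun y => A j y + ∑ i ∈ s, A i y := by
      funext y
      rw [Finset.sum_insert hj]
    have h3 : (fun y => ∑ i ∈ insert j s, A' i y) = fun y => A' j y + ∑ i ∈ s, A' i y := by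
      funext y
      rw [Finset.sum_insert hj]
    rw [h2, h3]
    exact h1

theorem sameForm_lin {F : Frame S} {F' : Frame S'} (h : SC S S') {g : ℕ}
    {u v : Fin g → X → UnitAddCircle} (hb : SymplBasis S g u v) (x : Fin g ⊕ Fin g → ℝ)
    {φ : X → ℝ} (hφ : S.Smooth φ) :
    SameForm F F' (fun p => F.lin u v x p + F.d φ p) (fun p => F'.lin u v x p + F'.d φ p) := by
  have h1 : SameForm F F' (fun p => ∑ j, (x (Sum.inl j) : ℂ) * F.dC (u j) p)
      (fun p => ∑ j, (x (Sum.inl j) : ℂ) * F'.dC (u j) p) :=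
    m02_sum h _ fun j _ => m02_mul h _ (m02_dC h (hb.smooth_u j))
  have h2 : SameForm F F' (fun p => ∑ j, (x (Sum.inr j) : ℂ) * F.dC (v j) p)
      (fun p => ∑ j, (x (Sum.inr j) : ℂ) * F'.dC (v j) p) :=
    m02_sum h _ fun j _ => m02_mul h _ (m02_dC h (hb.smooth_v j))
  exact m02_add h (m02_add h h1 h2) (m02_d h hφ)

private theorem m02_closed {F : Frame S} {F' : Frame S'} {a a' : X → ℂ}
    (ha : SameForm F F' a a') : F.Closed a ∧ F'.Closed a' := by
  constructor
  · intro p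
    obtain ⟨f, hf, -, h1, -⟩ := ha p
    exact ⟨f, hf, h1⟩
  · intro p
    obtain ⟨f, -, hf, -, h1⟩ := ha p
    exact ⟨f, hf, h1⟩

/-- the values of the same form at a point -/
private theorem m02_point {F : Frame S} {F' : Frame S'} (h : SC S S') {a a' : X → ℂ}
    (ha : SameForm F F' a a') (x : X) (v : ℂ) :
    (a x * v).re = (a' x * fderiv ℝ (F'.ch x ∘ (F.ch x).symm) (F.ch x x) v).re := by
  obtain ⟨f, -, hf, h1, h2⟩ := ha x
  rw [h1.self_of_nhds, h2.self_of_nhds]
  exact m02_pull h (F.ch_mem x) (F'.ch_mem x) (F.mem_ch x) (F'.mem_ch x) hf.self_of_nhds v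

private theorem m02_deriv (F : Frame S) {i : Fin F.n} {x : X} (hx : x ∈ F.P i) :
    deriv (F.ch x ∘ (F.e i).symm) (F.e i x) = 1 := by
  rw [F.ch_eq hx]
  exact deriv_trans_self (F.sub i hx)

/-- change of variables between the measures of frames of two structures -/
private theorem m02_transfer [MeasurableSpace X] [BorelSpace X] {F : Frame S} {F' : Frame S'}
    (h : SC S S') {A : Set X} (hA : MeasurableSet A) {f f' : X → ℝ}
    (hpt : ∀ x ∈ A, (fderiv ℝ (F'.ch x ∘ (F.ch x).symm) (F.ch x x)).det * f' x ≤ f x)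
    (hf : IntegrableOn f A F.nu) (hf' : IntegrableOn f' A F'.nu) :
    ∫ x in A, f' x ∂F'.nu ≤ ∫ x in A, f x ∂F.nu := by
  have hcov : A = ⋃ q : Fin F.n × Fin F'.n, A ∩ (F.P q.1 ∩ F'.P q.2) := by
    ext x
    simp only [mem_iUnion, mem_inter_iff]
    constructor
    · intro hx
      exact ⟨(F.ix x, F'.ix x), hx, F.ix_spec x, F'.ix_spec x⟩
    · rintro ⟨q, hx, -⟩
      exact hx
  have hm : ∀ q : Fin F.n × Fin F'.n, MeasurableSet (A ∩ (F.P q.1 ∩ F'.P q.2)) := fun q =>
    hA.inter ((F.measurableSet_P q.1).inter (F'.measurableSet_P q.2))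
  have hd : Pairwise (Function.onFun Disjoint
      fun q : Fin F.n × Fin F'.n => A ∩ (F.P q.1 ∩ F'.P q.2)) := by
    intro q r hqr
    rw [Function.onFun, Set.disjoint_left]
    rintro x ⟨-, h1, h2⟩ ⟨-, h3, h4⟩
    apply hqr
    have e1 : q.1 = r.1 := (F.ix_eq h1).symm.trans (F.ix_eq h3)
    have e2 : q.2 = r.2 := (F'.ix_eq h2).symm.trans (F'.ix_eq h4)
    exact Prod.ext e1 e2
  have e1 : ∫ x in A, f x ∂F.nu =
      ∑ q : Fin F.n × Fin F'.n, ∫ x in A ∩ (F.P q.1 ∩ F'.P q.2), f x ∂F.nu := by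
    conv_lhs => rw [hcov]
    exact integral_iUnion_fintype hm hd fun q => hf.mono_set inter_subset_left
  have e2 : ∫ x in A, f' x ∂F'.nu =
      ∑ q : Fin F.n × Fin F'.n, ∫ x in A ∩ (F.P q.1 ∩ F'.P q.2), f' x ∂F'.nu := by
    conv_lhs => rw [hcov]
    exact integral_iUnion_fintype hm hd fun q => hf'.mono_set inter_subset_left
  rw [e1, e2]
  refine Finset.sum_le_sum fun q _ => ?_
  obtain ⟨i, j⟩ := q
  simp only
  set B : Set X := A ∩ (F.P i ∩ F'.P j) with hB
  have hBm : MeasurableSet B := hm (i, j)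
  have hs : B ⊆ (F.e i).source := fun x hx => F.sub i hx.2.1
  have hs' : B ⊆ (F'.e j).source := fun x hx => F'.sub j hx.2.2
  have hfB : IntegrableOn f B F.nu := hf.mono_set inter_subset_left
  have hfB' : IntegrableOn f' B F'.nu := hf'.mono_set inter_subset_left
  rw [F.integrableOn_nu_iff (F.mem i) hBm hs] at hfB
  rw [F'.integrableOn_nu_iff (F'.mem j) hBm hs'] at hfB'
  rw [F.integral_nu (F.mem i) hBm hs, F'.integral_nu (F'.mem j) hBm hs']
  have him : (F'.e j) '' B = ((F'.e j) ∘ (F.e i).symm) '' ((F.e i) '' B) := by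
    rw [← image_comp]
    refine image_congr fun x hx => ?_
    simp only [Function.comp_apply]
    rw [(F.e i).left_inv (hs hx)]
  have hmB : MeasurableSet ((F.e i) '' B) := measurableSet_image_chart (F.e i) hBm hs
  have hder : ∀ z ∈ (F.e i) '' B, HasFDerivWithinAt ((F'.e j) ∘ (F.e i).symm)
      (fderiv ℝ ((F'.e j) ∘ (F.e i).symm) z) ((F.e i) '' B) z := by
    rintro _ ⟨x, hx, rfl⟩
    exact ((h _ (F.mem i) _ (F'.mem j) x ⟨hs hx, hs' hx⟩).1.differentiableAt
      (by simp)).hasFDerivAt.hasFDerivWithinAt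
  have hinj : InjOn ((F'.e j) ∘ (F.e i).symm) ((F.e i) '' B) := by
    rintro _ ⟨x, hx, rfl⟩ _ ⟨y, hy, rfl⟩ hxy
    simp only [Function.comp_apply] at hxy
    rw [(F.e i).left_inv (hs hx), (F.e i).left_inv (hs hy)] at hxy
    rw [(F'.e j).injOn (hs' hx) (hs' hy) hxy]
  rw [him] at hfB' ⊢
  rw [integral_image_eq_integral_abs_det_fderiv_smul volume hmB hder hinj]
  rw [integrableOn_image_iff_integrableOn_abs_det_fderiv_smul volume hmB hder hinj] at hfB'
  refine setIntegral_mono_on hfB' hfB hmB ?_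
  rintro _ ⟨x, hx, rfl⟩
  have hp := (h _ (F.mem i) _ (F'.mem j) x ⟨hs hx, hs' hx⟩).2
  have hpx := hpt x hx.1
  rw [F.ch_eq hx.2.1, F'.ch_eq hx.2.2] at hpx
  simp only [Function.comp_apply, (F.e i).left_inv (hs hx), (F'.e j).left_inv (hs' hx)]
  rw [abs_of_pos hp]
  have e3 := m02_deriv F hx.2.1
  have e4 := m02_deriv F' hx.2.2
  have e5 : deriv (F'.ch x ∘ (F'.e j).symm) (F'.e j x) = 1 := e4
  rw [e3, e5]
  simpa using hpx

variable [CompactSpace X] [T2Space X]

section measure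

variable [MeasurableSpace X] [BorelSpace X] {F : Frame S} {F' : Frame S'} {a a' b b' : X → ℂ}

theorem SameForm.en_le (h : SC S S') (hF : F.Tame) (hF' : F'.Tame) {A : Set X}
    (hA : MeasurableSet A) {K : ℝ} (hK : ∀ p ∈ A, DilAt S S' K p) (ha : SameForm F F' a a') :
    F'.en A a' ≤ K * F.en A a := by
  obtain ⟨h1, h2⟩ := m02_closed ha
  unfold Frame.en
  rw [← integral_const_mul]
  refine m02_transfer h hA ?_ ?_ ?_
  · intro x hx
    have hx1 := F.mem_ch x
    have hx2 := F'.mem_ch x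
    have h3 := (h _ (F.ch_mem x) _ (F'.ch_mem x) x ⟨hx1, hx2⟩).2
    have h4 := hK x hx _ (F.ch_mem x) _ (F'.ch_mem x) hx1 hx2
    have h5 := pull_norm_le h3 h4 (m02_point h ha x)
    rw [mul_comm]
    exact h5
  · exact ((Frame.integrable_normSq (h1.memLp hF)).const_mul K).integrableOn
  · exact (Frame.integrable_normSq (h2.memLp hF')).integrableOn

theorem SameForm.wd_eq (h : SC S S') (hF : F.Tame) (hF' : F'.Tame) (ha : SameForm F F' a a')
    (hb : SameForm F F' b b') : F'.wd a' b' = F.wd a b := by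
  obtain ⟨h1, h2⟩ := m02_closed ha
  obtain ⟨h3, h4⟩ := m02_closed hb
  have hi : Integrable (fun x => a x * starRingEnd ℂ (b x)) F.nu :=
    Frame.integrable_mul_conj (h1.memLp hF) (h3.memLp hF)
  have hi' : Integrable (fun x => a' x * starRingEnd ℂ (b' x)) F'.nu :=
    Frame.integrable_mul_conj (h2.memLp hF') (h4.memLp hF')
  have e1 : F.wd a b = ∫ x in univ, (a x * starRingEnd ℂ (b x)).im ∂F.nu := by
    unfold Frame.wd Frame.ip
    rw [Measure.restrict_univ]
    exact (integral_im (𝕜 := ℂ) hi).symm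
  have e2 : F'.wd a' b' = ∫ x in univ, (a' x * starRingEnd ℂ (b' x)).im ∂F'.nu := by
    unfold Frame.wd Frame.ip
    rw [Measure.restrict_univ]
    exact (integral_im (𝕜 := ℂ) hi').symm
  have hj : IntegrableOn (fun x => (a x * starRingEnd ℂ (b x)).im) univ F.nu :=
    (hi.im).integrableOn
  have hj' : IntegrableOn (fun x => (a' x * starRingEnd ℂ (b' x)).im) univ F'.nu :=
    (hi'.im).integrableOn
  have hpt : ∀ x, (a x * starRingEnd ℂ (b x)).im =
      (fderiv ℝ (F'.ch x ∘ (F.ch x).symm) (F.ch x x)).det *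
        (a' x * starRingEnd ℂ (b' x)).im := fun x =>
    pull_wedge (m02_point h ha x) (m02_point h hb x)
  rw [e1, e2]
  apply le_antisymm
  · exact m02_transfer h MeasurableSet.univ (fun x _ => (hpt x).ge) hj hj'
  · have h5 := m02_transfer h MeasurableSet.univ
      (f := fun x => -(a x * starRingEnd ℂ (b x)).im)
      (f' := fun x => -(a' x * starRingEnd ℂ (b' x)).im)
      (fun x _ => by rw [hpt x]; linarith) hj.neg hj'.neg
    rw [integral_neg, integral_neg] at h5
    linarith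

end measure

/-- a symplectic basis for `S` is one for every smoothly equivalent `S'` -/
theorem SymplBasis.of_SC (h : SC S S') {g : ℕ} {u v : Fin g → X → UnitAddCircle}
    (hB : SymplBasis S g u v) : SymplBasis S' g u v := by
  let _ : MeasurableSpace X := borel X
  have : BorelSpace X := ⟨rfl⟩
  obtain ⟨F, hF⟩ := S.exists_tame
  obtain ⟨F₀, hF₀⟩ := S'.exists_tame
  have key : ∀ (F' : Frame S') {w w' : X → UnitAddCircle}, S.SmoothC w → S.SmoothC w' →
      F'.wedge w w' = F.wedge w w' := by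
    intro F' w w' hw hw'
    rw [F'.wedge_indep F₀ (h.smoothC_iff.1 hw) (h.smoothC_iff.1 hw'),
      Frame.wedge_eq hF₀ (h.smoothC_iff.1 hw) (h.smoothC_iff.1 hw'), Frame.wedge_eq hF hw hw']
    exact SameForm.wd_eq h hF hF₀ (m02_dC h hw) (m02_dC h hw')
  exact
    { smooth_u := fun j => h.smoothC_iff.1 (hB.smooth_u j)
      smooth_v := fun j => h.smoothC_iff.1 (hB.smooth_v j)
      uu := fun F' j k => by rw [key F' (hB.smooth_u j) (hB.smooth_u k)]; exact hB.uu F j k
      vv := fun F' j k => by rw [key F' (hB.smooth_v j) (hB.smooth_v k)]; exact hB.vv F j k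
      uv := fun F' j k => by rw [key F' (hB.smooth_u j) (hB.smooth_v k)]; exact hB.uv F j k
      gen := hB.gen }

variable {g : ℕ} {u v : Fin g → X → UnitAddCircle} {Z Z' : Matrix (Fin g) (Fin g) ℂ}

theorem quad_le_of_dil (h : SC S S') (hZ : IsPeriod S u v Z) (hZ' : IsPeriod S' u v Z') {K : ℝ}
    (hK : ∀ p, DilAt S S' K p) (x : Fin g ⊕ Fin g → ℝ) : QF (PZ Z') x ≤ K * QF (PZ Z) x := by
  let _ : MeasurableSpace X := borel X
  have : BorelSpace X := ⟨rfl⟩
  obtain ⟨F, hF⟩ := S.exists_tame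
  obtain ⟨F', hF'⟩ := S'.exists_tame
  rw [hZ.quad hF]
  obtain ⟨φ, hφ, ha⟩ := Frame.cls_harm hZ.1 hF x
  have hsf : SameForm F F' (F.harm u v x) (fun p => F'.lin u v x p + F'.d φ p) := by
    rw [funext ha]
    exact sameForm_lin h hZ.1 x hφ
  have h1 := hZ'.quad_le hF' (a := fun p => F'.lin u v x p + F'.d φ p) (x := x)
    ⟨φ, h.smooth_iff.1 hφ, fun p => rfl⟩
  exact h1.trans (hsf.en_le h hF hF' MeasurableSet.univ fun p _ => hK p)

theorem quad_le_refined [MeasurableSpace X] [BorelSpace X] (h : SC S S') (hZ : IsPeriod S u v Z)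
    (hZ' : IsPeriod S' u v Z') {F : Frame S} (hF : F.Tame) {A : Set X} (hA : MeasurableSet A)
    {K : ℝ} (hK : ∀ p ∈ A, DilAt S S' K p) (h1 : ∀ p ∉ A, DilAt S S' 1 p)
    (x : Fin g ⊕ Fin g → ℝ) :
    QF (PZ Z') x ≤ QF (PZ Z) x + (K - 1) * F.en A (F.harm u v x) := by
  have hone := h1
  obtain ⟨F', hF'⟩ := S'.exists_tame
  rw [hZ.quad hF]
  obtain ⟨φ, hφ, ha⟩ := Frame.cls_harm hZ.1 hF x
  have hsf : SameForm F F' (F.harm u v x) (fun p => F'.lin u v x p + F'.d φ p) := by
    rw [funext ha]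
    exact sameForm_lin h hZ.1 x hφ
  have h0 := hZ'.quad_le hF' (a := fun p => F'.lin u v x p + F'.d φ p) (x := x)
    ⟨φ, h.smooth_iff.1 hφ, fun p => rfl⟩
  obtain ⟨h2, h3⟩ := m02_closed hsf
  have h4 := hsf.en_le h hF hF' hA hK
  have h5 := hsf.en_le h hF hF' hA.compl (K := 1) fun p hp => hone p hp
  have e1 := Frame.en_union hA (B := Aᶜ) disjoint_compl_right (h2.memLp hF)
  have e2 := Frame.en_union hA (B := Aᶜ) disjoint_compl_right (h3.memLp hF')
  rw [compl_union_self] at e1 e2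
  rw [e2] at h0
  rw [e1]
  linarith

end Pool.Agent.Lib.MP_cca10c_ag
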