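import Pool.Agent.Lib.MP_cca10c_ag.M01_Mod
import Pool.Agent.Lib.MP_cca10c_ag.Pl.QcFam

/-!
# Module M: families of modifications (stub M04)

`T s` is the structure of `exists_mod` for `Θ s` (and `T 0 = S`, as `Θ 0` is the identity). Smooth
equivalence of `T s` and `T t`: `SC.symm.trans`. Dilatation at a point of `e.source`: charts
`Θ s ∘ e` and `Θ t ∘ e`, the transition map is `Θ t ∘ (Θ s)⁻¹`, with derivative
`fderiv (Θ t) z ∘ B`, `B` the inverse of `fderiv (Θ s) z` (`hclose`). At the points outside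
`e.symm '' K` there are common charts or the transition map is holomorphic: dilatation `1`.
-/

set_option autoImplicit false

open Topology Set MeasureTheory
open scoped ContDiff

namespace Pool.Agent.Lib.MP_cca10c_ag

variable {X : Type} [TopologicalSpace X]

/-- a family of smooth injective maps `Θ s` on the open set `U`, holomorphic off the compact set
`K`, starting at the identity, with dilatation depending in a Lipschitz way on `s` -/
structure QcFam (U K : Set ℂ) (A : ℝ) (Θ : ℝ → ℂ → ℂ) : Prop where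
  A0 : 0 ≤ A
  compact : IsCompact K
  sub : K ⊆ U
  zero : ∀ z ∈ U, Θ 0 z = z
  smooth : ∀ s ∈ Icc (0 : ℝ) 1, ContDiffOn ℝ ∞ (Θ s) U
  inj : ∀ s ∈ Icc (0 : ℝ) 1, InjOn (Θ s) U
  det : ∀ s ∈ Icc (0 : ℝ) 1, ∀ z ∈ U, 0 < (fderiv ℝ (Θ s) z).det
  hol : ∀ s ∈ Icc (0 : ℝ) 1, DifferentiableOn ℂ (Θ s) (U \ K)
  close : ∀ s ∈ Icc (0 : ℝ) 1, ∀ t ∈ Icc (0 : ℝ) 1, ∀ z ∈ U, ∀ B : ℂ →L[ℝ] ℂ,
    (∀ v, fderiv ℝ (Θ s) z (B v) = v) →
      Pool.Agent.CcaPl.QC (Real.exp (A * |t - s|)) ((fderiv ℝ (Θ t) z).comp B)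

/-! ### tools (copies of the private lemmas of M01) -/

private theorem m04_factor {Y : Type*} {e e' : OpenPartialHomeomorph X ℂ} {x : X} (f : X → Y)
    (hx : x ∈ e.source) (hx' : x ∈ e'.source) :
    (f ∘ e.symm) =ᶠ[𝓝 (e x)] (f ∘ e'.symm) ∘ (e' ∘ e.symm) := by
  have h1 : Filter.Tendsto e.symm (𝓝 (e x)) (𝓝 x) := e.tendsto_symm hx
  filter_upwards [h1.eventually (e'.open_source.mem_nhds hx')] with z hz
  simp only [Function.comp_apply]
  rw [e'.left_inv hz]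

private theorem m04_val {Y : Type*} {e : OpenPartialHomeomorph X ℂ} {x : X} (f : X → Y)
    (hx : x ∈ e.source) : (f ∘ e.symm) (e x) = f x := by
  rw [Function.comp_apply, e.left_inv hx]

private theorem m04_fderiv_comp
    {e e' e'' : OpenPartialHomeomorph X ℂ} {x : X} (hx : x ∈ e.source) (hx' : x ∈ e'.source)
    (h : DifferentiableAt ℝ (e' ∘ e.symm) (e x)) (h' : DifferentiableAt ℝ (e'' ∘ e'.symm) (e' x)) :
    fderiv ℝ (e'' ∘ e.symm) (e x) =
      (fderiv ℝ (e'' ∘ e'.symm) (e' x)).comp (fderiv ℝ (e' ∘ e.symm) (e x)) := by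
  have h1 : DifferentiableAt ℝ (e'' ∘ e'.symm) ((e' ∘ e.symm) (e x)) := by
    rwa [m04_val _ hx]
  rw [(m04_factor _ hx hx').fderiv_eq, fderiv_comp _ h1 h, m04_val _ hx]

private theorem m04_self {e : OpenPartialHomeomorph X ℂ} {x : X} (hx : x ∈ e.source) :
    HasFDerivAt (𝕜 := ℝ) (e ∘ e.symm) (ContinuousLinearMap.id ℝ ℂ) (e x) := by
  have h1 : (e ∘ e.symm) =ᶠ[𝓝 (e x)] id := by
    filter_upwards [e.open_target.mem_nhds (e.map_source hx)] with z hz
    exact e.right_inv hz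
  exact (hasFDerivAt_id (e x)).congr_of_eventuallyEq h1

private theorem m04_inv {e e' : OpenPartialHomeomorph X ℂ} {x : X} (hx : x ∈ e.source)
    (hx' : x ∈ e'.source) (h : DifferentiableAt ℝ (e' ∘ e.symm) (e x))
    (h' : DifferentiableAt ℝ (e ∘ e'.symm) (e' x)) (v : ℂ) :
    fderiv ℝ (e' ∘ e.symm) (e x) (fderiv ℝ (e ∘ e'.symm) (e' x) v) = v := by
  have h1 := m04_fderiv_comp hx' hx h' h
  rw [(m04_self hx').fderiv] at h1
  have h2 := congrArg (fun T : ℂ →L[ℝ] ℂ => T v) h1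
  simpa using h2.symm

/-- a common chart at `x` gives dilatation `1` -/
private theorem m04_common {S S' : CS X} {c : OpenPartialHomeomorph X ℂ} (hc : c ∈ S.charts)
    (hc' : c ∈ S'.charts) {x : X} (hx : x ∈ c.source) : DilAt S S' 1 x := by
  refine DilAt.of_charts hc hc' hx hx (m04_self hx).differentiableAt ?_
  rw [(m04_self hx).fderiv]
  have h5 : (ContinuousLinearMap.id ℝ ℂ).det = 1 := by
    have h0 : (ContinuousLinearMap.id ℝ ℂ).det = LinearMap.det (LinearMap.id : ℂ →ₗ[ℝ] ℂ) := rfl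
    rw [h0, LinearMap.det_id]
  rw [h5, ContinuousLinearMap.norm_id]
  norm_num

/-- a chart around a point off the modified compact set -/
private theorem m04_far [T2Space X] (S : CS X) {e : OpenPartialHomeomorph X ℂ} {K : Set ℂ}
    (hK : IsCompact K) (hKe : K ⊆ e.target) {x : X} (hx : x ∉ e.symm '' K) :
    ∃ c ∈ S.charts, x ∈ c.source ∧ Disjoint c.source (e.symm '' K) := by
  have hCc : IsCompact (e.symm '' K) := hK.image_of_continuousOn (e.continuousOn_symm.mono hKe)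
  obtain ⟨c, hc, hxc⟩ := S.cover x
  have hO : IsOpen (e.symm '' K)ᶜ := hCc.isClosed.isOpen_compl
  refine ⟨c.restr (e.symm '' K)ᶜ, CS.restr_mem hc hO, ?_, ?_⟩
  · rw [c.restr_source, hO.interior_eq]
    exact ⟨hxc, hx⟩
  · rw [c.restr_source, hO.interior_eq, Set.disjoint_left]
    exact fun y hy hy' => hy.2 hy'

/-- the dilatation on the modified set -/
private theorem m04_near {S S1 S2 : CS X} {e c1 c2 : OpenPartialHomeomorph X ℂ} (he : e ∈ S.charts)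
    {K : Set ℂ} {A : ℝ} {Θ : ℝ → ℂ → ℂ} (h : QcFam e.target K A Θ) {s t : ℝ}
    (hs : s ∈ Icc (0 : ℝ) 1) (ht : t ∈ Icc (0 : ℝ) 1) (h1 : SC S S1) (h2 : SC S S2)
    (hc1 : c1 ∈ S1.charts) (hc2 : c2 ∈ S2.charts) (hs1 : c1.source = e.source)
    (hs2 : c2.source = e.source) (hv1 : ∀ x ∈ e.source, c1 x = Θ s (e x))
    (hv2 : ∀ x ∈ e.source, c2 x = Θ t (e x)) {x : X} (hx : x ∈ e.source) :
    DilAt S1 S2 (Real.exp (A * |t - s|)) x := by
  have hx1 : x ∈ c1.source := by rw [hs1]; exact hx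
  have hx2 : x ∈ c2.source := by rw [hs2]; exact hx
  have d1 : DifferentiableAt ℝ (c1 ∘ e.symm) (e x) :=
    (h1 e he c1 hc1 x ⟨hx, hx1⟩).1.differentiableAt (by simp)
  have d2 : DifferentiableAt ℝ (c2 ∘ e.symm) (e x) :=
    (h2 e he c2 hc2 x ⟨hx, hx2⟩).1.differentiableAt (by simp)
  have d1' : DifferentiableAt ℝ (e ∘ c1.symm) (c1 x) :=
    (h1.symm c1 hc1 e he x ⟨hx1, hx⟩).1.differentiableAt (by simp)
  have d3 : DifferentiableAt ℝ (c2 ∘ c1.symm) (c1 x) :=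
    ((h1.symm.trans h2) c1 hc1 c2 hc2 x ⟨hx1, hx2⟩).1.differentiableAt (by simp)
  have e1 : (c1 ∘ e.symm) =ᶠ[𝓝 (e x)] Θ s := by
    filter_upwards [e.open_target.mem_nhds (e.map_source hx)] with z hz
    rw [Function.comp_apply, hv1 _ (e.map_target hz), e.right_inv hz]
  have e2 : (c2 ∘ e.symm) =ᶠ[𝓝 (e x)] Θ t := by
    filter_upwards [e.open_target.mem_nhds (e.map_source hx)] with z hz
    rw [Function.comp_apply, hv2 _ (e.map_target hz), e.right_inv hz]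
  have hB : ∀ v, fderiv ℝ (Θ s) (e x) (fderiv ℝ (e ∘ c1.symm) (c1 x) v) = v := by
    intro v
    rw [← e1.fderiv_eq]
    exact m04_inv hx hx1 d1 d1' v
  have hq := h.close s hs t ht (e x) (e.map_source hx) _ hB
  refine DilAt.of_charts hc1 hc2 hx1 hx2 d3 ?_
  rw [m04_fderiv_comp hx1 hx d1' d2, e2.fderiv_eq]
  exact hq.2

theorem exists_family [T2Space X] (S : CS X) {e : OpenPartialHomeomorph X ℂ} (he : e ∈ S.charts)
    {K : Set ℂ} {A : ℝ} {Θ : ℝ → ℂ → ℂ} (h : QcFam e.target K A Θ) :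
    ∃ T : ℝ → CS X, T 0 = S ∧
      (∀ s ∈ Icc (0 : ℝ) 1, ∀ t ∈ Icc (0 : ℝ) 1, SC (T s) (T t)) ∧
      (∀ s ∈ Icc (0 : ℝ) 1, ∀ t ∈ Icc (0 : ℝ) 1, ∀ x,
        DilAt (T s) (T t) (Real.exp (A * |t - s|)) x) ∧
      (∀ s ∈ Icc (0 : ℝ) 1, ∀ t ∈ Icc (0 : ℝ) 1, ∀ x ∉ e.symm '' K, DilAt (T s) (T t) 1 x) ∧
      ∀ s ∈ Icc (0 : ℝ) 1,
        (∀ c ∈ S.charts, Disjoint c.source (e.symm '' K) → c ∈ (T s).charts) ∧
        ∃ c ∈ (T s).charts, c.source = e.source ∧ (∀ x ∈ e.source, c x = Θ s (e x)) ∧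
          c.target = Θ s '' e.target := by
  have hex : ∀ s : ℝ, ∃ S' : CS X, (s = 0 → S' = S) ∧ (s ∈ Icc (0 : ℝ) 1 → SC S S' ∧
      (∀ c ∈ S.charts, Disjoint c.source (e.symm '' K) → c ∈ S'.charts) ∧
      ∃ c ∈ S'.charts, c.source = e.source ∧ ∀ x ∈ e.source, c x = Θ s (e x)) := by
    intro s
    by_cases h0 : s = 0
    · subst h0
      refine ⟨S, fun _ => rfl, fun _ => ⟨SC.refl S, fun c hc _ => hc, e, he, rfl, ?_⟩⟩
      intro x hx
      rw [h.zero _ (e.map_source hx)]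
    · by_cases hs : s ∈ Icc (0 : ℝ) 1
      · obtain ⟨S', h1, h2, h3⟩ := exists_mod S he h.compact h.sub (h.smooth s hs) (h.inj s hs)
          (h.det s hs) (h.hol s hs)
        exact ⟨S', fun h => absurd h h0, fun _ => ⟨h1, h2, h3⟩⟩
      · exact ⟨S, fun _ => rfl, fun h => absurd h hs⟩
  choose T hT0 hT using hex
  have hfar : ∀ s ∈ Icc (0 : ℝ) 1, ∀ t ∈ Icc (0 : ℝ) 1, ∀ x ∉ e.symm '' K,
      DilAt (T s) (T t) 1 x := by
    intro s hs t ht x hx
    obtain ⟨c, hc, hxc, hdis⟩ := m04_far S h.compact h.sub hx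
    exact m04_common ((hT s hs).2.1 c hc hdis) ((hT t ht).2.1 c hc hdis) hxc
  have hSC : ∀ s ∈ Icc (0 : ℝ) 1, ∀ t ∈ Icc (0 : ℝ) 1, SC (T s) (T t) := fun s hs t ht =>
    (hT s hs).1.symm.trans (hT t ht).1
  refine ⟨T, hT0 0 rfl, hSC, ?_, hfar, ?_⟩
  · intro s hs t ht x
    by_cases hx : x ∈ e.symm '' K
    · have hxe : x ∈ e.source := by
        obtain ⟨z, hz, rfl⟩ := hx
        exact e.map_target (h.sub hz)
      obtain ⟨c1, hc1, hs1, hv1⟩ := (hT s hs).2.2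
      obtain ⟨c2, hc2, hs2, hv2⟩ := (hT t ht).2.2
      exact m04_near he h hs ht (hT s hs).1 (hT t ht).1 hc1 hc2 hs1 hs2 hv1 hv2 hxe
    · refine (hfar s hs t ht x hx).mono (hSC s hs t ht) ?_
      exact Real.one_le_exp (mul_nonneg h.A0 (abs_nonneg _))
  · intro s hs
    obtain ⟨c, hc, hsrc, hv⟩ := (hT s hs).2.2
    refine ⟨(hT s hs).2.1, c, hc, hsrc, hv, ?_⟩
    rw [← c.image_source_eq_target, ← e.image_source_eq_target, hsrc, image_image]
    exact image_congr hv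

end Pool.Agent.Lib.MP_cca10c_ag
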