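import Pool.Agent.Lib.MP_cca10c_ag.P01_PZ
import Pool.Agent.Lib.MP_cca10c_ag.P02_Diag

/-! Module P: the distance `dH` and the comparison of quadratic forms; self-duality. -/

set_option autoImplicit false

open Topology Set Matrix
open scoped ENNReal

namespace Pool.Agent.Lib.MP_cca10c_ag

private theorem P03_dH {g : ℕ} {Z W : Matrix (Fin g) (Fin g) ℂ} (hZ : Z ∈ Siegel g)
    (hW : W ∈ Siegel g) :
    ∃ (T : Matrix (Fin g ⊕ Fin g) (Fin g ⊕ Fin g) ℝ) (d : Fin g ⊕ Fin g → ℝ), IsUnit T.det ∧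
      (∀ i, 0 < d i) ∧ (∀ y, QF (PZ Z) (T *ᵥ y) = ∑ i, y i ^ 2) ∧
      (∀ y, QF (PZ W) (T *ᵥ y) = ∑ i, d i * y i ^ 2) ∧
      dH Z W = Real.sqrt (∑ i, (Real.log (d i)) ^ 2) := by
  obtain ⟨T, d, hT, hd, h1, h2⟩ := sim_diag (PZ_posDef hZ) (PZ_posDef hW)
  refine ⟨T, d, hT, hd, fun y => (QF_diag h1 h2 y).1, fun y => (QF_diag h1 h2 y).2, ?_⟩
  unfold dH
  rw [roots_diag hT h1 h2, Multiset.map_map]
  rfl

private theorem P03_single {n : Type*} [Fintype n] [DecidableEq n] (c : n → ℝ) (i : n) :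
    ∑ j, c j * (Pi.single (M := fun _ : n => ℝ) i 1) j ^ 2 = c i := by
  rw [Finset.sum_eq_single i]
  · simp
  · intro j _ hj
    simp [hj]
  · intro h
    exact absurd (Finset.mem_univ i) h

private theorem P03_single1 {n : Type*} [Fintype n] [DecidableEq n] (i : n) :
    ∑ j, (Pi.single (M := fun _ : n => ℝ) i 1) j ^ 2 = 1 := by
  have h := P03_single (fun _ : n => (1 : ℝ)) i
  simpa using h

theorem dH_le {g : ℕ} {Z W : Matrix (Fin g) (Fin g) ℂ} (hZ : Z ∈ Siegel g) (hW : W ∈ Siegel g)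
    {ν : ℝ} (hν : 0 ≤ ν) (h1 : ∀ x, QF (PZ W) x ≤ Real.exp ν * QF (PZ Z) x)
    (h2 : ∀ x, QF (PZ Z) x ≤ Real.exp ν * QF (PZ W) x) : dH Z W ≤ Real.sqrt (2 * g) * ν := by
  obtain ⟨T, d, hT, hd, e1, e2, e3⟩ := P03_dH hZ hW
  rw [e3]
  have hlog : ∀ i, |Real.log (d i)| ≤ ν := by
    intro i
    have a1 := h1 (T *ᵥ (Pi.single (M := fun _ => ℝ) i 1))
    have a2 := h2 (T *ᵥ (Pi.single (M := fun _ => ℝ) i 1))
    rw [e1, e2, P03_single, P03_single1] at a1 a2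
    rw [mul_one] at a1
    rw [abs_le]
    constructor
    · have h3 : Real.exp (-ν) ≤ d i := by
        rw [Real.exp_neg, inv_le_iff_one_le_mul₀ (Real.exp_pos ν), mul_comm]
        exact a2
      have h4 := Real.log_le_log (Real.exp_pos _) h3
      rwa [Real.log_exp] at h4
    · have h4 := Real.log_le_log (hd i) a1
      rwa [Real.log_exp] at h4
  have hsum : ∑ i, (Real.log (d i)) ^ 2 ≤ 2 * g * ν ^ 2 := by
    calc ∑ i, (Real.log (d i)) ^ 2 ≤ ∑ _i : Fin g ⊕ Fin g, ν ^ 2 := by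
          refine Finset.sum_le_sum (fun i _ => ?_)
          exact sq_le_sq' (abs_le.1 (hlog i)).1 (abs_le.1 (hlog i)).2
      _ = 2 * g * ν ^ 2 := by
          rw [Finset.sum_const, Finset.card_univ, Fintype.card_sum, Fintype.card_fin, nsmul_eq_mul]
          push_cast
          ring
  calc Real.sqrt (∑ i, (Real.log (d i)) ^ 2) ≤ Real.sqrt (2 * g * ν ^ 2) := Real.sqrt_le_sqrt hsum
    _ = Real.sqrt (2 * g) * ν := by
        rw [Real.sqrt_mul (by positivity), Real.sqrt_sq hν]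

theorem le_of_dH {g : ℕ} {Z W : Matrix (Fin g) (Fin g) ℂ} (hZ : Z ∈ Siegel g) (hW : W ∈ Siegel g)
    {r : ℝ} (h : dH Z W ≤ r) (x : Fin g ⊕ Fin g → ℝ) :
    QF (PZ W) x ≤ Real.exp r * QF (PZ Z) x := by
  obtain ⟨T, d, hT, hd, e1, e2, e3⟩ := P03_dH hZ hW
  rw [e3] at h
  have hdr : ∀ i, d i ≤ Real.exp r := by
    intro i
    have h1 : (Real.log (d i)) ^ 2 ≤ ∑ i, (Real.log (d i)) ^ 2 :=
      Finset.single_le_sum (f := fun i => (Real.log (d i)) ^ 2) (fun j _ => sq_nonneg _)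
        (Finset.mem_univ i)
    have h2 := (Real.abs_le_sqrt h1).trans h
    rw [← Real.exp_log (hd i)]
    exact Real.exp_le_exp.2 ((le_abs_self _).trans h2)
  have hx : x = T *ᵥ (T⁻¹ *ᵥ x) := by
    rw [Matrix.mulVec_mulVec, Matrix.mul_nonsing_inv _ hT, Matrix.one_mulVec]
  rw [hx, e1, e2, Finset.mul_sum]
  exact Finset.sum_le_sum (fun i _ => mul_le_mul_of_nonneg_right (hdr i) (sq_nonneg _))

private theorem P03_inv {n : Type} [Fintype n] [DecidableEq n] {P T : Matrix n n ℝ} {d : n → ℝ}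
    (hd : ∀ i, 0 < d i) (h : Tᵀ * P * T = Matrix.diagonal d) :
    P⁻¹ = T * Matrix.diagonal (fun i => (d i)⁻¹) * Tᵀ := by
  apply Matrix.inv_eq_right_inv
  have h1 : Tᵀ * (P * T * Matrix.diagonal (fun i => (d i)⁻¹)) = 1 := by
    rw [← Matrix.mul_assoc, ← Matrix.mul_assoc, h, Matrix.diagonal_mul_diagonal]
    rw [← Matrix.diagonal_one]
    congr 1
    funext i
    exact mul_inv_cancel₀ (hd i).ne'
  have h2 := mul_eq_one_comm.1 h1
  rw [← h2]
  simp only [Matrix.mul_assoc]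

private theorem P03_QF {n : Type} [Fintype n] [DecidableEq n] {T : Matrix n n ℝ} (c : n → ℝ)
    (x : n → ℝ) :
    QF (T * Matrix.diagonal c * Tᵀ) x = ∑ i, c i * (Tᵀ *ᵥ x) i ^ 2 := by
  unfold QF
  rw [Matrix.mul_assoc, ← Matrix.mulVec_mulVec, Matrix.dotProduct_mulVec, ← Matrix.mulVec_transpose,
    ← Matrix.mulVec_mulVec]
  simp only [dotProduct, Matrix.mulVec_diagonal]
  refine Finset.sum_congr rfl (fun i _ => ?_)
  ring

private theorem P03_J {g : ℕ} {P : Matrix (Fin g ⊕ Fin g) (Fin g ⊕ Fin g) ℝ} (hP : P.PosDef)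
    (hPs : P ∈ Matrix.symplecticGroup (Fin g) ℝ) (x : Fin g ⊕ Fin g → ℝ) :
    QF P⁻¹ x = QF P (Matrix.J (Fin g) ℝ *ᵥ x) := by
  have hPt : Pᵀ = P := by
    have h := hP.1
    unfold Matrix.IsHermitian at h
    rwa [Matrix.conjTranspose_eq_transpose_of_trivial] at h
  rw [SymplecticGroup.mem_iff, hPt] at hPs
  have h1 : P⁻¹ = (Matrix.J (Fin g) ℝ)ᵀ * P * Matrix.J (Fin g) ℝ := by
    apply Matrix.inv_eq_right_inv
    rw [Matrix.J_transpose, Matrix.neg_mul, Matrix.neg_mul, Matrix.mul_neg, ← Matrix.mul_assoc,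
      ← Matrix.mul_assoc, hPs, Matrix.J_squared, neg_neg]
  rw [h1]
  unfold QF
  rw [← Matrix.mulVec_mulVec, ← Matrix.mulVec_mulVec, Matrix.dotProduct_mulVec,
    Matrix.vecMul_transpose]

/-- self-duality of symplectic positive definite forms: `P⁻¹ = Jᵀ P J` -/
theorem QF_dual {g : ℕ} {P Q : Matrix (Fin g ⊕ Fin g) (Fin g ⊕ Fin g) ℝ} (hP : P.PosDef)
    (hQ : Q.PosDef) (hPs : P ∈ Matrix.symplecticGroup (Fin g) ℝ)
    (hQs : Q ∈ Matrix.symplecticGroup (Fin g) ℝ) {K : ℝ} (hK : 0 < K)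
    (h : ∀ x, QF Q x ≤ K * QF P x) (x : Fin g ⊕ Fin g → ℝ) : QF P x ≤ K * QF Q x := by
  obtain ⟨T, d, hT, hd, h1, h2⟩ := sim_diag hP hQ
  have hdK : ∀ i, d i ≤ K := by
    intro i
    have a1 := h (T *ᵥ (Pi.single (M := fun _ => ℝ) i 1))
    rw [(QF_diag h1 h2 _).1, (QF_diag h1 h2 _).2, P03_single, P03_single1, mul_one] at a1
    exact a1
  have hd1 : Tᵀ * P * T = Matrix.diagonal (fun _ => (1 : ℝ)) := by
    rw [h1]
    exact Matrix.diagonal_one.symm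
  have iP := P03_inv (fun _ => one_pos) hd1
  have iQ := P03_inv hd h2
  have key : ∀ y, QF P⁻¹ y ≤ K * QF Q⁻¹ y := by
    intro y
    rw [iP, iQ, P03_QF, P03_QF, Finset.mul_sum]
    refine Finset.sum_le_sum (fun i _ => ?_)
    rw [inv_one, ← mul_assoc]
    refine mul_le_mul_of_nonneg_right ?_ (sq_nonneg _)
    rw [← div_eq_mul_inv, one_le_div (hd i)]
    exact hdK i
  have hx := key (-(Matrix.J (Fin g) ℝ *ᵥ x))
  rw [P03_J hP hPs, P03_J hQ hQs] at hx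
  have hJ : Matrix.J (Fin g) ℝ *ᵥ (-(Matrix.J (Fin g) ℝ *ᵥ x)) = x := by
    rw [Matrix.mulVec_neg, Matrix.mulVec_mulVec, Matrix.J_squared, Matrix.neg_mulVec,
      Matrix.one_mulVec, neg_neg]
  rwa [hJ] at hx

end Pool.Agent.Lib.MP_cca10c_ag
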