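import Pool.Agent.Lib.MP_cca10c_ag.P01_PZ

/-! Module P: the action of the Siegel modular group.

Put `c = C Z + D`.  It is invertible, `Im (act M Z) = c^{-*} (Im Z) c^{-1}` (conjugate transpose) and
`n - Z m` is the pairing of `(n, m)` with `(Z; 1)` by the symplectic form; `M (Z; 1) = (act M Z; 1) c`.
Hence `PZ (act M Z) = Nᵀ PZ Z N` with `N = S M⁻¹ S`, where `S` exchanges the two blocks. -/

set_option autoImplicit false

open Topology Set Matrix
open scoped ENNReal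

namespace Pool.Agent.Lib.MP_cca10c_ag

/-- real matrix as a complex matrix -/
private noncomputable def p4c {m n : Type*} (P : Matrix m n ℝ) : Matrix m n ℂ := P.map Complex.ofReal

/-- integral matrix as a complex matrix -/
private noncomputable def p4i {m n : Type*} (P : Matrix m n ℤ) : Matrix m n ℂ :=
  P.map (Int.cast : ℤ → ℂ)

private theorem p4c_inj {m n : Type*} {P Q : Matrix m n ℝ} (h : p4c P = p4c Q) : P = Q := by
  ext i j
  have := congrFun (congrFun h i) j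
  exact Complex.ofReal_injective this

private theorem p4c_mul {m n k : Type*} [Fintype n] (P : Matrix m n ℝ) (Q : Matrix n k ℝ) :
    p4c (P * Q) = p4c P * p4c Q := by
  unfold p4c
  exact Matrix.map_mul (f := Complex.ofRealHom)

private theorem p4c_add {m n : Type*} (P Q : Matrix m n ℝ) : p4c (P + Q) = p4c P + p4c Q := by
  ext i j
  simp [p4c]

private theorem p4c_neg {m n : Type*} (P : Matrix m n ℝ) : p4c (-P) = -p4c P := by
  ext i j
  simp [p4c]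

private theorem p4c_one {n : Type*} [DecidableEq n] : p4c (1 : Matrix n n ℝ) = 1 := by
  unfold p4c
  exact Matrix.map_one _ Complex.ofReal_zero Complex.ofReal_one

private theorem p4c_transpose {m n : Type*} (P : Matrix m n ℝ) : p4c Pᵀ = (p4c P)ᵀ := rfl

private theorem p4c_conjT {m n : Type*} (P : Matrix m n ℝ) : (p4c P)ᴴ = (p4c P)ᵀ := by
  ext i j
  simp [p4c]

private theorem p4c_inv {g : ℕ} (P : Matrix (Fin g) (Fin g) ℝ) (hP : IsUnit P.det) :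
    p4c P⁻¹ = (p4c P)⁻¹ := by
  symm
  apply Matrix.inv_eq_left_inv
  rw [← p4c_mul, Matrix.nonsing_inv_mul P hP, p4c_one]

private theorem p4c_det {g : ℕ} (P : Matrix (Fin g) (Fin g) ℝ) (hP : IsUnit P.det) :
    IsUnit (p4c P).det := by
  rw [← Matrix.isUnit_iff_isUnit_det]
  apply IsUnit.of_mul_eq_one (p4c P⁻¹)
  rw [← p4c_mul, Matrix.mul_nonsing_inv P hP, p4c_one]

private theorem p4i_conjT {m n : Type*} (P : Matrix m n ℤ) : (p4i P)ᴴ = (p4i P)ᵀ := by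
  ext i j
  simp [p4i]

private theorem p4_siegel {g : ℕ} {Z : Matrix (Fin g) (Fin g) ℂ} (hZ : Z ∈ Siegel g) :
    Zᵀ = Z ∧ (Z.map Complex.im).PosDef := hZ

private theorem p4_imT {g : ℕ} {Z : Matrix (Fin g) (Fin g) ℂ} (hZ : Zᵀ = Z) :
    (Z.map Complex.im)ᵀ = Z.map Complex.im := by
  have : (Z.map Complex.im)ᵀ = Zᵀ.map Complex.im := rfl
  rw [this, hZ]

private theorem p4_reT {g : ℕ} {Z : Matrix (Fin g) (Fin g) ℂ} (hZ : Zᵀ = Z) :
    (Z.map Complex.re)ᵀ = Z.map Complex.re := by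
  have : (Z.map Complex.re)ᵀ = Zᵀ.map Complex.re := rfl
  rw [this, hZ]

/-- decomposition in real and imaginary part -/
private theorem p4_split {g : ℕ} (Z : Matrix (Fin g) (Fin g) ℂ) :
    Z = p4c (Z.map Complex.re) + Complex.I • p4c (Z.map Complex.im) := by
  ext i j
  simp only [p4c, Matrix.add_apply, Matrix.smul_apply, Matrix.map_apply, smul_eq_mul]
  rw [mul_comm]
  exact (Complex.re_add_im _).symm

private theorem p4_splitH {g : ℕ} {Z : Matrix (Fin g) (Fin g) ℂ} (hZ : Zᵀ = Z) :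
    Zᴴ = p4c (Z.map Complex.re) - Complex.I • p4c (Z.map Complex.im) := by
  conv_lhs => rw [p4_split Z]
  rw [Matrix.conjTranspose_add, Matrix.conjTranspose_smul, p4c_conjT, p4c_conjT, ← p4c_transpose,
    ← p4c_transpose, p4_imT hZ, p4_reT hZ]
  simp [sub_eq_add_neg]

private theorem p4_diff {g : ℕ} {Z : Matrix (Fin g) (Fin g) ℂ} (hZ : Zᵀ = Z) :
    Z - Zᴴ = (2 * Complex.I) • p4c (Z.map Complex.im) := by
  have h1 := p4_split Z
  have h2 := p4_splitH hZ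
  rw [h2]
  nth_rewrite 1 [h1]
  rw [mul_smul, two_smul, add_sub_sub_cancel]

/-- Hermitian form of a real symmetric matrix -/
private theorem p4_quad {g : ℕ} (Y : Matrix (Fin g) (Fin g) ℝ) (hY : Yᵀ = Y) (v : Fin g → ℂ) :
    star v ⬝ᵥ (p4c Y *ᵥ v) = (((fun i => (v i).re) ⬝ᵥ (Y *ᵥ fun i => (v i).re) +
      (fun i => (v i).im) ⬝ᵥ (Y *ᵥ fun i => (v i).im) : ℝ) : ℂ) := by
  have key : ∀ i j, star (v i) * ((Y i j : ℝ) : ℂ) * v j =
      ((((v i).re * Y i j * (v j).re + (v i).im * Y i j * (v j).im : ℝ)) : ℂ) +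
      Complex.I * (((v i).re * Y i j * (v j).im - (v i).im * Y i j * (v j).re : ℝ) : ℂ) := by
    intro i j
    apply Complex.ext
    · simp <;> ring
    · simp <;> ring
  have h0 : ∑ i, ∑ j, ((v i).re * Y i j * (v j).im - (v i).im * Y i j * (v j).re) = 0 := by
    simp only [Finset.sum_sub_distrib]
    rw [sub_eq_zero, Finset.sum_comm]
    refine Finset.sum_congr rfl fun i _ => Finset.sum_congr rfl fun j _ => ?_
    have h1 : Y j i = Y i j := congrFun (congrFun hY i) j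
    rw [h1]
    ring
  simp only [dotProduct, mulVec, Pi.star_apply, Finset.mul_sum]
  have h1 : ∀ i j, star (v i) * (p4c Y i j * v j) =
      ((((v i).re * Y i j * (v j).re + (v i).im * Y i j * (v j).im : ℝ)) : ℂ) +
      Complex.I * (((v i).re * Y i j * (v j).im - (v i).im * Y i j * (v j).re : ℝ) : ℂ) := by
    intro i j
    rw [← key i j, ← mul_assoc]
    rfl
  simp only [h1, Finset.sum_add_distrib, ← Finset.mul_sum, ← Complex.ofReal_sum]
  rw [h0]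
  simp only [Complex.ofReal_zero, mul_zero, add_zero]
  congr 1
  simp only [Finset.mul_sum, ← Finset.sum_add_distrib]
  refine Finset.sum_congr rfl fun i _ => Finset.sum_congr rfl fun j _ => ?_
  ring

private theorem p4_quad_pos {g : ℕ} {Y : Matrix (Fin g) (Fin g) ℝ} (hY : Y.PosDef)
    {v : Fin g → ℂ} (hv : v ≠ 0) : 0 < (star v ⬝ᵥ (p4c Y *ᵥ v)).re := by
  have hT : Yᵀ = Y := by
    have := hY.isHermitian
    rw [Matrix.IsHermitian, Matrix.conjTranspose_eq_transpose_of_trivial] at this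
    exact this
  rw [p4_quad Y hT, Complex.ofReal_re]
  have hnn : ∀ x : Fin g → ℝ, 0 ≤ x ⬝ᵥ (Y *ᵥ x) := by
    intro x
    by_cases hx : x = 0
    · rw [hx]; simp
    · have := hY.dotProduct_mulVec_pos hx
      simpa using this.le
  by_cases hr : (fun i => (v i).re) = 0
  · have hi : (fun i => (v i).im) ≠ 0 := by
      intro hi
      apply hv
      funext i
      exact Complex.ext (congrFun hr i) (congrFun hi i)
    have h1 := hY.dotProduct_mulVec_pos hi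
    have h2 : 0 < (fun i => (v i).im) ⬝ᵥ (Y *ᵥ fun i => (v i).im) := by simpa using h1
    have h3 := hnn (fun i => (v i).re)
    linarith
  · have h1 := hY.dotProduct_mulVec_pos hr
    have h2 : 0 < (fun i => (v i).re) ⬝ᵥ (Y *ᵥ fun i => (v i).re) := by simpa using h1
    have h3 := hnn (fun i => (v i).im)
    linarith

/-- the blocks of a symplectic matrix over the complex numbers -/
private theorem p4_rel {g : ℕ} {M : Matrix (Fin g ⊕ Fin g) (Fin g ⊕ Fin g) ℤ}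
    (hM : M ∈ Matrix.symplecticGroup (Fin g) ℤ) :
    (p4i M.toBlocks₁₁)ᵀ * p4i M.toBlocks₂₁ = (p4i M.toBlocks₂₁)ᵀ * p4i M.toBlocks₁₁ ∧
    (p4i M.toBlocks₁₂)ᵀ * p4i M.toBlocks₂₂ = (p4i M.toBlocks₂₂)ᵀ * p4i M.toBlocks₁₂ ∧
    (p4i M.toBlocks₁₁)ᵀ * p4i M.toBlocks₂₂ - (p4i M.toBlocks₂₁)ᵀ * p4i M.toBlocks₁₂ = 1 := by
  have h1 : M.map (Int.castRingHom ℂ) ∈ Matrix.symplecticGroup (Fin g) ℂ :=
    SymplecticGroup.map_mem hM (Int.castRingHom ℂ)
  have h2 : M.map (Int.castRingHom ℂ) = Matrix.fromBlocks (p4i M.toBlocks₁₁) (p4i M.toBlocks₁₂)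
      (p4i M.toBlocks₂₁) (p4i M.toBlocks₂₂) := by
    conv_lhs => rw [← Matrix.fromBlocks_toBlocks M]
    rw [Matrix.fromBlocks_map]
    rfl
  rw [h2, SymplecticGroup.fromBlocks_mem_iff] at h1
  exact h1

section

variable {g : ℕ} {A B C D Z : Matrix (Fin g) (Fin g) ℂ}

private theorem p4_sym (hZ : Zᵀ = Z) (h1 : Aᵀ * C = Cᵀ * A) (h2 : Bᵀ * D = Dᵀ * B)
    (h3 : Aᵀ * D - Cᵀ * B = 1) : (C * Z + D)ᵀ * (A * Z + B) = (A * Z + B)ᵀ * (C * Z + D) := by
  have h4 : Dᵀ * A - Bᵀ * C = 1 := by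
    have := congrArg Matrix.transpose h3
    rw [Matrix.transpose_sub, Matrix.transpose_mul, Matrix.transpose_mul, Matrix.transpose_transpose,
      Matrix.transpose_transpose, Matrix.transpose_one] at this
    exact this
  rw [Matrix.transpose_add, Matrix.transpose_add, Matrix.transpose_mul, Matrix.transpose_mul, hZ]
  have e1 : (Z * Cᵀ + Dᵀ) * (A * Z + B) =
      Z * (Cᵀ * A) * Z + Z * (Cᵀ * B) + (Dᵀ * A) * Z + Dᵀ * B := by noncomm_ring
  have e2 : (Z * Aᵀ + Bᵀ) * (C * Z + D) =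
      Z * (Aᵀ * C) * Z + Z * (Aᵀ * D) + (Bᵀ * C) * Z + Bᵀ * D := by noncomm_ring
  have e3 : Aᵀ * D = 1 + Cᵀ * B := by rw [← h3]; abel
  have e4 : Dᵀ * A = 1 + Bᵀ * C := by rw [← h4]; abel
  rw [e1, e2, h1, h2, e3, e4]
  noncomm_ring

private theorem p4_herm (hZ : Zᵀ = Z) (hA : Aᴴ = Aᵀ) (hB : Bᴴ = Bᵀ) (hC : Cᴴ = Cᵀ) (hD : Dᴴ = Dᵀ)
    (h1 : Aᵀ * C = Cᵀ * A) (h2 : Bᵀ * D = Dᵀ * B) (h3 : Aᵀ * D - Cᵀ * B = 1) :
    (C * Z + D)ᴴ * (A * Z + B) - (A * Z + B)ᴴ * (C * Z + D) = Z - Zᴴ := by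
  have h4 : Dᵀ * A - Bᵀ * C = 1 := by
    have := congrArg Matrix.transpose h3
    rw [Matrix.transpose_sub, Matrix.transpose_mul, Matrix.transpose_mul, Matrix.transpose_transpose,
      Matrix.transpose_transpose, Matrix.transpose_one] at this
    exact this
  rw [Matrix.conjTranspose_add, Matrix.conjTranspose_add, Matrix.conjTranspose_mul,
    Matrix.conjTranspose_mul, hA, hB, hC, hD]
  have e1 : (Zᴴ * Cᵀ + Dᵀ) * (A * Z + B) =
      Zᴴ * (Cᵀ * A) * Z + Zᴴ * (Cᵀ * B) + (Dᵀ * A) * Z + Dᵀ * B := by noncomm_ring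
  have e2 : (Zᴴ * Aᵀ + Bᵀ) * (C * Z + D) =
      Zᴴ * (Aᵀ * C) * Z + Zᴴ * (Aᵀ * D) + (Bᵀ * C) * Z + Bᵀ * D := by noncomm_ring
  have e3 : Aᵀ * D = 1 + Cᵀ * B := by rw [← h3]; abel
  have e4 : Dᵀ * A = 1 + Bᵀ * C := by rw [← h4]; abel
  rw [e1, e2, h1, h2, e3, e4]
  noncomm_ring

private theorem p4_unit (hZ : Zᵀ = Z) (hY : (Z.map Complex.im).PosDef) (hA : Aᴴ = Aᵀ) (hB : Bᴴ = Bᵀ)
    (hC : Cᴴ = Cᵀ) (hD : Dᴴ = Dᵀ) (h1 : Aᵀ * C = Cᵀ * A) (h2 : Bᵀ * D = Dᵀ * B)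
    (h3 : Aᵀ * D - Cᵀ * B = 1) : IsUnit (C * Z + D).det := by
  rw [isUnit_iff_ne_zero]
  intro h0
  obtain ⟨v, hv, hcv⟩ := Matrix.exists_mulVec_eq_zero_iff.2 h0
  have h4 := p4_herm hZ hA hB hC hD h1 h2 h3
  rw [p4_diff hZ] at h4
  have h5 : star v ⬝ᵥ (((C * Z + D)ᴴ * (A * Z + B) - (A * Z + B)ᴴ * (C * Z + D)) *ᵥ v) = 0 := by
    rw [Matrix.sub_mulVec, dotProduct_sub, ← Matrix.mulVec_mulVec, ← Matrix.mulVec_mulVec, hcv,
      Matrix.mulVec_zero, dotProduct_zero, sub_zero, Matrix.dotProduct_mulVec,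
      ← Matrix.star_mulVec, hcv]
    simp
  rw [h4, Matrix.smul_mulVec, dotProduct_smul] at h5
  have h6 : star v ⬝ᵥ (p4c (Z.map Complex.im) *ᵥ v) = 0 := by
    rcases smul_eq_zero.1 h5 with h7 | h7
    · exfalso
      have : (2 : ℂ) * Complex.I ≠ 0 := mul_ne_zero two_ne_zero Complex.I_ne_zero
      exact this h7
    · exact h7
  have h7 := p4_quad_pos hY hv
  rw [h6] at h7
  simp at h7

/-- the transformed point: symmetry and imaginary part -/
private theorem p4_main (hZ : Zᵀ = Z) (hY : (Z.map Complex.im).PosDef) (hA : Aᴴ = Aᵀ) (hB : Bᴴ = Bᵀ)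
    (hC : Cᴴ = Cᵀ) (hD : Dᴴ = Dᵀ) (h1 : Aᵀ * C = Cᵀ * A) (h2 : Bᵀ * D = Dᵀ * B)
    (h3 : Aᵀ * D - Cᵀ * B = 1) :
    ((A * Z + B) * (C * Z + D)⁻¹)ᵀ = (A * Z + B) * (C * Z + D)⁻¹ ∧
    (C * Z + D)ᴴ * p4c (((A * Z + B) * (C * Z + D)⁻¹).map Complex.im) * (C * Z + D) =
      p4c (Z.map Complex.im) := by
  have hu := p4_unit hZ hY hA hB hC hD h1 h2 h3
  set a := A * Z + B with ha
  set c := C * Z + D with hc
  have hWc0 : a * c⁻¹ * c = a := by
    rw [Matrix.mul_assoc, Matrix.nonsing_inv_mul c hu, Matrix.mul_one]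
  generalize a * c⁻¹ = W at hWc0 ⊢
  have hWc : W * c = a := hWc0
  have hsym := p4_sym (A := A) (B := B) (C := C) (D := D) hZ h1 h2 h3
  rw [← ha, ← hc] at hsym
  have hcT : IsUnit cᵀ.det := by rwa [Matrix.det_transpose]
  have hcH : IsUnit cᴴ.det := by
    rw [Matrix.det_conjTranspose]
    exact hu.star
  have hWT : Wᵀ = W := by
    have e0 : aᵀ = cᵀ * Wᵀ := by rw [← hWc, Matrix.transpose_mul]
    have e1 : cᵀ * Wᵀ * c = cᵀ * W * c := by
      rw [Matrix.mul_assoc cᵀ W c, hWc, hsym, e0]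
    have e2 : cᵀ * Wᵀ = cᵀ * W := by
      have := congrArg (fun X => X * c⁻¹) e1
      simpa [Matrix.mul_assoc, Matrix.mul_nonsing_inv c hu] using this
    have := congrArg (fun X => (cᵀ)⁻¹ * X) e2
    simpa [← Matrix.mul_assoc, Matrix.nonsing_inv_mul cᵀ hcT] using this
  refine ⟨hWT, ?_⟩
  have hherm := p4_herm (A := A) (B := B) (C := C) (D := D) hZ hA hB hC hD h1 h2 h3
  rw [← ha, ← hc, p4_diff hZ] at hherm
  have e3 : cᴴ * (W - Wᴴ) * c = (2 * Complex.I) • p4c (Z.map Complex.im) := by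
    have e0 : aᴴ = cᴴ * Wᴴ := by rw [← hWc, Matrix.conjTranspose_mul]
    rw [← hherm, e0, Matrix.mul_sub, Matrix.sub_mul, Matrix.mul_assoc cᴴ W c, hWc]
  rw [p4_diff hWT, Matrix.mul_smul, Matrix.smul_mul] at e3
  have h2I : (2 : ℂ) * Complex.I ≠ 0 := mul_ne_zero two_ne_zero Complex.I_ne_zero
  exact smul_right_injective _ h2I e3

end

private theorem p4_real {g : ℕ} {M : Matrix (Fin g ⊕ Fin g) (Fin g ⊕ Fin g) ℤ}
    (hM : M ∈ Matrix.symplecticGroup (Fin g) ℤ) {Z : Matrix (Fin g) (Fin g) ℂ} (hZ : Z ∈ Siegel g) :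
    IsUnit (p4i M.toBlocks₂₁ * Z + p4i M.toBlocks₂₂).det ∧ (act M Z)ᵀ = act M Z ∧
    (p4i M.toBlocks₂₁ * Z + p4i M.toBlocks₂₂)ᴴ * p4c ((act M Z).map Complex.im) *
      (p4i M.toBlocks₂₁ * Z + p4i M.toBlocks₂₂) = p4c (Z.map Complex.im) ∧
    act M Z * (p4i M.toBlocks₂₁ * Z + p4i M.toBlocks₂₂) = p4i M.toBlocks₁₁ * Z + p4i M.toBlocks₁₂ := by
  obtain ⟨h1, h2, h3⟩ := p4_rel hM
  have hu := p4_unit hZ.1 hZ.2 (p4i_conjT M.toBlocks₁₁) (p4i_conjT M.toBlocks₁₂)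
    (p4i_conjT M.toBlocks₂₁) (p4i_conjT M.toBlocks₂₂) h1 h2 h3
  have hm := p4_main hZ.1 hZ.2 (p4i_conjT M.toBlocks₁₁) (p4i_conjT M.toBlocks₁₂)
    (p4i_conjT M.toBlocks₂₁) (p4i_conjT M.toBlocks₂₂) h1 h2 h3
  refine ⟨hu, hm.1, hm.2, ?_⟩
  show ((p4i M.toBlocks₁₁ * Z + p4i M.toBlocks₁₂) *
    (p4i M.toBlocks₂₁ * Z + p4i M.toBlocks₂₂)⁻¹) * _ = _
  rw [Matrix.mul_assoc, Matrix.nonsing_inv_mul _ hu, Matrix.mul_one]

theorem act_isUnit {g : ℕ} {M : Matrix (Fin g ⊕ Fin g) (Fin g ⊕ Fin g) ℤ}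
    (hM : M ∈ Matrix.symplecticGroup (Fin g) ℤ) {Z : Matrix (Fin g) (Fin g) ℂ} (hZ : Z ∈ Siegel g) :
    IsUnit (M.toBlocks₂₁.map (Int.cast : ℤ → ℂ) * Z + M.toBlocks₂₂.map (Int.cast : ℤ → ℂ)).det :=
  (p4_real hM hZ).1

theorem act_mem {g : ℕ} {M : Matrix (Fin g ⊕ Fin g) (Fin g ⊕ Fin g) ℤ}
    (hM : M ∈ Matrix.symplecticGroup (Fin g) ℤ) {Z : Matrix (Fin g) (Fin g) ℂ} (hZ : Z ∈ Siegel g) :
    act M Z ∈ Siegel g := by
  obtain ⟨hu, hT, hQ, -⟩ := p4_real hM hZ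
  set c := p4i M.toBlocks₂₁ * Z + p4i M.toBlocks₂₂ with hc
  set Q := (act M Z).map Complex.im with hQdef
  have hQT : Qᵀ = Q := p4_imT hT
  refine ⟨hT, ?_⟩
  apply Matrix.PosDef.of_dotProduct_mulVec_pos
  · rw [Matrix.IsHermitian, Matrix.conjTranspose_eq_transpose_of_trivial]
    exact hQT
  · intro x hx
    -- the complex vector `v = c⁻¹ x`
    set xc : Fin g → ℂ := fun i => (x i : ℂ) with hxc
    set v := c⁻¹ *ᵥ xc with hv
    have hcv : c *ᵥ v = xc := by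
      rw [hv, Matrix.mulVec_mulVec, Matrix.mul_nonsing_inv c hu, Matrix.one_mulVec]
    have hv0 : v ≠ 0 := by
      intro h0
      rw [h0, Matrix.mulVec_zero] at hcv
      apply hx
      funext i
      have := congrFun hcv i
      exact (Complex.ofReal_eq_zero.1 this.symm)
    have h1 := p4_quad_pos hZ.2 hv0
    rw [← hQ, ← Matrix.mulVec_mulVec, ← Matrix.mulVec_mulVec, hcv, Matrix.dotProduct_mulVec,
      ← Matrix.star_mulVec, hcv, p4_quad Q hQT, Complex.ofReal_re] at h1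
    have h2 : (fun i => (xc i).im) = 0 := by
      funext i
      simp [hxc]
    have h3 : (fun i => (xc i).re) = x := by
      funext i
      simp [hxc]
    rw [h2, h3] at h1
    simpa using h1

/-- the exchange of the two blocks -/
def swapB (g : ℕ) (R : Type) [Zero R] [One R] : Matrix (Fin g ⊕ Fin g) (Fin g ⊕ Fin g) R :=
  Matrix.fromBlocks 0 1 1 0

private theorem p4_swap {g : ℕ} {M : Matrix (Fin g ⊕ Fin g) (Fin g ⊕ Fin g) ℤ}
    (hM : M ∈ Matrix.symplecticGroup (Fin g) ℤ) : swapB g ℤ * M⁻¹ * swapB g ℤ =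
      Matrix.fromBlocks M.toBlocks₁₁ᵀ (-M.toBlocks₂₁ᵀ) (-M.toBlocks₁₂ᵀ) M.toBlocks₂₂ᵀ := by
  rw [SymplecticGroup.inv_eq_symplectic_inv M hM]
  conv_lhs => rw [← Matrix.fromBlocks_toBlocks M]
  unfold swapB Matrix.J
  simp [Matrix.fromBlocks_multiply, Matrix.fromBlocks_transpose, Matrix.fromBlocks_neg]

/-- the factorised Hermitian matrix -/
private noncomputable def p4H {g : ℕ} (Z : Matrix (Fin g) (Fin g) ℂ) :
    Matrix (Fin g ⊕ Fin g) (Fin g ⊕ Fin g) ℂ :=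
  (Matrix.fromCols (-Z) (1 : Matrix (Fin g) (Fin g) ℂ))ᴴ * (p4c (Z.map Complex.im))⁻¹ *
    Matrix.fromCols (-Z) (1 : Matrix (Fin g) (Fin g) ℂ)

private theorem p4H_eq {g : ℕ} {Z : Matrix (Fin g) (Fin g) ℂ} (hZ : Z ∈ Siegel g) :
    p4H Z = p4c (PZ Z) + Matrix.fromBlocks 0 (Complex.I • 1) (-(Complex.I • 1)) 0 := by
  have hYu : IsUnit (Z.map Complex.im).det := by
    rw [← Matrix.isUnit_iff_isUnit_det]
    exact hZ.2.isUnit
  have hYc := p4c_det _ hYu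
  have h1 : p4c (PZ Z) = Matrix.fromBlocks
      (p4c (Z.map Complex.im) + p4c (Z.map Complex.re) * (p4c (Z.map Complex.im))⁻¹ *
        p4c (Z.map Complex.re))
      (-(p4c (Z.map Complex.re) * (p4c (Z.map Complex.im))⁻¹))
      (-((p4c (Z.map Complex.im))⁻¹ * p4c (Z.map Complex.re))) (p4c (Z.map Complex.im))⁻¹ := by
    unfold PZ
    show Matrix.map _ _ = _
    rw [Matrix.fromBlocks_map]
    change Matrix.fromBlocks (p4c _) (p4c _) (p4c _) (p4c _) = _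
    rw [p4c_add, p4c_mul, p4c_mul, p4c_neg, p4c_mul, p4c_neg, p4c_mul, p4c_inv _ hYu]
  rw [h1, Matrix.fromBlocks_add]
  unfold p4H
  rw [Matrix.conjTranspose_fromCols_eq_fromRows_conjTranspose, Matrix.fromRows_mul,
    Matrix.fromRows_mul_fromCols]
  set X := p4c (Z.map Complex.re) with hX
  set Y := p4c (Z.map Complex.im) with hY
  have hZs : Z = X + Complex.I • Y := p4_split Z
  have hZH : Zᴴ = X - Complex.I • Y := p4_splitH hZ.1
  have i1 : Y * Y⁻¹ = 1 := Matrix.mul_nonsing_inv Y hYc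
  have i2 : Y⁻¹ * Y = 1 := Matrix.nonsing_inv_mul Y hYc
  rw [Matrix.conjTranspose_neg, Matrix.conjTranspose_one, hZH]
  rw [hZs]
  congr 1
  · simp only [Matrix.neg_mul, Matrix.mul_neg, neg_neg, Matrix.sub_mul, Matrix.mul_add,
      Matrix.smul_mul, Matrix.mul_smul, i1, Matrix.one_mul, Matrix.mul_assoc, i2, Matrix.mul_one,
      add_zero]
    simp only [smul_neg, smul_sub, smul_add, smul_smul, Complex.I_mul_I, neg_smul, one_smul]
    abel
  · simp only [Matrix.neg_mul, Matrix.sub_mul, Matrix.smul_mul, i1, Matrix.mul_one]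
    abel
  · simp only [Matrix.one_mul, Matrix.mul_neg, Matrix.mul_add, Matrix.mul_smul, i2]
    abel
  · simp

theorem PZ_act {g : ℕ} {M : Matrix (Fin g ⊕ Fin g) (Fin g ⊕ Fin g) ℤ}
    (hM : M ∈ Matrix.symplecticGroup (Fin g) ℤ) {Z : Matrix (Fin g) (Fin g) ℂ} (hZ : Z ∈ Siegel g) :
    PZ (act M Z) = (rM (swapB g ℤ * M⁻¹ * swapB g ℤ))ᵀ * PZ Z * rM (swapB g ℤ * M⁻¹ * swapB g ℤ) := by
  have hWmem := act_mem hM hZ
  obtain ⟨hu, hT, hQ, hWc⟩ := p4_real hM hZ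
  rw [p4_swap hM]
  set A := p4i M.toBlocks₁₁ with hA
  set B := p4i M.toBlocks₁₂ with hB
  set C := p4i M.toBlocks₂₁ with hC
  set D := p4i M.toBlocks₂₂ with hD
  set c := C * Z + D with hc
  set W := act M Z with hW
  set N := Matrix.fromBlocks M.toBlocks₁₁ᵀ (-M.toBlocks₂₁ᵀ) (-M.toBlocks₁₂ᵀ) M.toBlocks₂₂ᵀ with hN
  have hNc : p4c (rM N) = Matrix.fromBlocks Aᵀ (-Cᵀ) (-Bᵀ) Dᵀ := by
    rw [hN]
    unfold rM p4c
    rw [Matrix.fromBlocks_map, Matrix.fromBlocks_map]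
    congr 1 <;> ext i j <;> simp [hA, hB, hC, hD, p4i]
  apply p4c_inj
  rw [p4c_mul, p4c_mul, p4c_transpose, hNc]
  set Nc : Matrix (Fin g ⊕ Fin g) (Fin g ⊕ Fin g) ℂ := Matrix.fromBlocks Aᵀ (-Cᵀ) (-Bᵀ) Dᵀ with hNcdef
  have hNH : Ncᵀ = Ncᴴ := by
    rw [← hNc, p4c_conjT]
  -- the factorised matrix
  have hcT : cᵀ * W = (A * Z + B)ᵀ := by
    rw [← hWc, Matrix.transpose_mul, hT]
  have hV : Matrix.fromCols (-Z) (1 : Matrix (Fin g) (Fin g) ℂ) * Nc =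
      cᵀ * Matrix.fromCols (-W) (1 : Matrix (Fin g) (Fin g) ℂ) := by
    have hcTW : cᵀ * -W = -(A * Z + B)ᵀ := by rw [Matrix.mul_neg, hcT]
    rw [hNcdef, Matrix.fromCols_mul_fromBlocks, Matrix.mul_fromCols, hcTW,
      Matrix.mul_one, hc]
    simp only [Matrix.transpose_add, Matrix.transpose_mul, hZ.1]
    congr 1
    · noncomm_ring
    · noncomm_ring
  have hYu : IsUnit (Z.map Complex.im).det := by
    rw [← Matrix.isUnit_iff_isUnit_det]
    exact hZ.2.isUnit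
  have hQu : IsUnit (W.map Complex.im).det := by
    rw [← Matrix.isUnit_iff_isUnit_det]
    exact hWmem.2.isUnit
  have hYc := p4c_det _ hYu
  have hQc := p4c_det _ hQu
  have hcH : IsUnit cᴴ.det := by
    rw [Matrix.det_conjTranspose]
    exact hu.star
  have hinv : c * (p4c (Z.map Complex.im))⁻¹ * cᴴ = (p4c (W.map Complex.im))⁻¹ := by
    symm
    apply Matrix.inv_eq_left_inv
    rw [← hQ, Matrix.mul_inv_rev, Matrix.mul_inv_rev]
    calc c * (c⁻¹ * ((p4c (W.map Complex.im))⁻¹ * (cᴴ)⁻¹)) * cᴴ * p4c (W.map Complex.im) =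
        (c * c⁻¹) * (p4c (W.map Complex.im))⁻¹ * ((cᴴ)⁻¹ * cᴴ) * p4c (W.map Complex.im) := by
          noncomm_ring
      _ = 1 := by
          rw [Matrix.mul_nonsing_inv c hu, Matrix.nonsing_inv_mul _ hcH, Matrix.one_mul,
            Matrix.mul_one, Matrix.nonsing_inv_mul _ hQc]
  have hinvT : (cᵀ)ᴴ * (p4c (Z.map Complex.im))⁻¹ * cᵀ = (p4c (W.map Complex.im))⁻¹ := by
    have h1 := congrArg Matrix.transpose hinv
    rw [Matrix.transpose_mul, Matrix.transpose_mul, Matrix.transpose_nonsing_inv,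
      Matrix.transpose_nonsing_inv, ← p4c_transpose, ← p4c_transpose, p4_imT hZ.1, p4_imT hT] at h1
    rw [← h1, ← Matrix.mul_assoc]
    rfl
  have hHH : Ncᴴ * p4H Z * Nc = p4H W := by
    unfold p4H
    rw [← hinvT]
    calc Ncᴴ * ((Matrix.fromCols (-Z) (1 : Matrix (Fin g) (Fin g) ℂ))ᴴ *
          (p4c (Z.map Complex.im))⁻¹ * Matrix.fromCols (-Z) (1 : Matrix (Fin g) (Fin g) ℂ)) * Nc =
        (Matrix.fromCols (-Z) (1 : Matrix (Fin g) (Fin g) ℂ) * Nc)ᴴ * (p4c (Z.map Complex.im))⁻¹ *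
          (Matrix.fromCols (-Z) (1 : Matrix (Fin g) (Fin g) ℂ) * Nc) := by
          rw [Matrix.conjTranspose_mul]
          simp only [Matrix.mul_assoc]
      _ = _ := by
          rw [hV, Matrix.conjTranspose_mul]
          simp only [Matrix.mul_assoc]
  -- the skew part
  obtain ⟨-, -, -⟩ := p4_rel hM
  have hMT := SymplecticGroup.transpose_mem hM
  obtain ⟨r1, r2, r3⟩ := p4_rel hMT
  have t11 : p4i (Mᵀ).toBlocks₁₁ = Aᵀ := rfl
  have t12 : p4i (Mᵀ).toBlocks₁₂ = Cᵀ := rfl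
  have t21 : p4i (Mᵀ).toBlocks₂₁ = Bᵀ := rfl
  have t22 : p4i (Mᵀ).toBlocks₂₂ = Dᵀ := rfl
  rw [t11, t21, Matrix.transpose_transpose, Matrix.transpose_transpose] at r1
  rw [t12, t22, Matrix.transpose_transpose, Matrix.transpose_transpose] at r2
  rw [t11, t12, t21, t22, Matrix.transpose_transpose, Matrix.transpose_transpose] at r3
  have r4 : D * Aᵀ - C * Bᵀ = 1 := by
    have := congrArg Matrix.transpose r3
    rw [Matrix.transpose_sub, Matrix.transpose_mul, Matrix.transpose_mul, Matrix.transpose_transpose,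
      Matrix.transpose_transpose, Matrix.transpose_one] at this
    exact this
  have hJ : Ncᴴ * Matrix.fromBlocks 0 (Complex.I • 1) (-(Complex.I • 1)) 0 * Nc =
      Matrix.fromBlocks 0 (Complex.I • 1) (-(Complex.I • 1)) 0 := by
    rw [← hNH, hNcdef, Matrix.fromBlocks_transpose, Matrix.fromBlocks_multiply,
      Matrix.fromBlocks_multiply]
    simp only [Matrix.transpose_transpose, Matrix.transpose_neg, Matrix.mul_zero, zero_add,
      add_zero, Matrix.neg_mul, Matrix.mul_neg, neg_neg, Matrix.mul_smul, Matrix.smul_mul,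
      Matrix.mul_one]
    congr 1
    · rw [r1]
      module
    · rw [← r3]
      module
    · rw [← r4]
      module
    · rw [r2]
      module
  have hfin := hHH
  rw [p4H_eq hZ, p4H_eq hWmem, Matrix.mul_add, Matrix.add_mul, hJ] at hfin
  rw [hNH]
  exact (add_right_cancel hfin).symm

theorem act_one {g : ℕ} (Z : Matrix (Fin g) (Fin g) ℂ) : act 1 Z = Z := by
  unfold act
  have h11 : (1 : Matrix (Fin g ⊕ Fin g) (Fin g ⊕ Fin g) ℤ).toBlocks₁₁ = 1 := by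
    rw [← Matrix.fromBlocks_one, Matrix.toBlocks_fromBlocks₁₁]
  have h12 : (1 : Matrix (Fin g ⊕ Fin g) (Fin g ⊕ Fin g) ℤ).toBlocks₁₂ = 0 := by
    rw [← Matrix.fromBlocks_one, Matrix.toBlocks_fromBlocks₁₂]
  have h21 : (1 : Matrix (Fin g ⊕ Fin g) (Fin g ⊕ Fin g) ℤ).toBlocks₂₁ = 0 := by
    rw [← Matrix.fromBlocks_one, Matrix.toBlocks_fromBlocks₂₁]
  have h22 : (1 : Matrix (Fin g ⊕ Fin g) (Fin g ⊕ Fin g) ℤ).toBlocks₂₂ = 1 := by
    rw [← Matrix.fromBlocks_one, Matrix.toBlocks_fromBlocks₂₂]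
  rw [h11, h12, h21, h22]
  have e1 : (1 : Matrix (Fin g) (Fin g) ℤ).map (Int.cast : ℤ → ℂ) = 1 :=
    Matrix.map_one _ Int.cast_zero Int.cast_one
  have e0 : (0 : Matrix (Fin g) (Fin g) ℤ).map (Int.cast : ℤ → ℂ) = 0 := by
    ext i j
    simp
  rw [e1, e0]
  simp

end Pool.Agent.Lib.MP_cca10c_ag
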