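import Pool.Agent.Lib.MP_cca10c_ag.P03_Dist
import Pool.Agent.Lib.MP_cca10c_ag.P04_Act

/-! Module P: the relation `LE'`. -/

set_option autoImplicit false

open Topology Set Matrix
open scoped ENNReal

namespace Pool.Agent.Lib.MP_cca10c_ag

private theorem P05_swap_sq (g : ℕ) : swapB g ℤ * swapB g ℤ = 1 := by
  unfold swapB
  rw [Matrix.fromBlocks_multiply]
  simp

private theorem P05_swap_T (g : ℕ) : (swapB g ℤ)ᵀ = swapB g ℤ := by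
  unfold swapB
  rw [Matrix.fromBlocks_transpose]
  simp

private theorem P05_swap_J (g : ℕ) :
    swapB g ℤ * Matrix.J (Fin g) ℤ * swapB g ℤ = -Matrix.J (Fin g) ℤ := by
  unfold swapB Matrix.J
  rw [Matrix.fromBlocks_multiply, Matrix.fromBlocks_multiply, Matrix.fromBlocks_neg]
  simp

private theorem P05_swap_mem {g : ℕ} {A : Matrix (Fin g ⊕ Fin g) (Fin g ⊕ Fin g) ℤ}
    (hA : A ∈ Matrix.symplecticGroup (Fin g) ℤ) :
    swapB g ℤ * A * swapB g ℤ ∈ Matrix.symplecticGroup (Fin g) ℤ := by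
  rw [SymplecticGroup.mem_iff] at hA ⊢
  have e : swapB g ℤ * A * swapB g ℤ * Matrix.J (Fin g) ℤ * (swapB g ℤ * A * swapB g ℤ)ᵀ =
      swapB g ℤ * (A * (swapB g ℤ * Matrix.J (Fin g) ℤ * swapB g ℤ) * Aᵀ) * swapB g ℤ := by
    rw [Matrix.transpose_mul, Matrix.transpose_mul, P05_swap_T]
    simp only [Matrix.mul_assoc]
  rw [e, P05_swap_J, Matrix.mul_neg, Matrix.neg_mul, hA, Matrix.mul_neg, Matrix.neg_mul, P05_swap_J,
    neg_neg]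

private theorem P05_inv_mem {g : ℕ} {A : Matrix (Fin g ⊕ Fin g) (Fin g ⊕ Fin g) ℤ}
    (hA : A ∈ Matrix.symplecticGroup (Fin g) ℤ) :
    A⁻¹ ∈ Matrix.symplecticGroup (Fin g) ℤ := by
  have h := SymplecticGroup.coe_inv' (⟨A, hA⟩ : Matrix.symplecticGroup (Fin g) ℤ)
  rw [← h]
  exact ((⟨A, hA⟩ : Matrix.symplecticGroup (Fin g) ℤ)⁻¹).2

private theorem P05_det {g : ℕ} {A : Matrix (Fin g ⊕ Fin g) (Fin g ⊕ Fin g) ℤ}
    (hA : A ∈ Matrix.symplecticGroup (Fin g) ℤ) : IsUnit A.det :=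
  SymplecticGroup.symplectic_det hA

/-- every integral symplectic matrix comes from the action (conjugation by `swapB`) -/
theorem exists_act {g : ℕ} {N : Matrix (Fin g ⊕ Fin g) (Fin g ⊕ Fin g) ℤ}
    (hN : N ∈ Matrix.symplecticGroup (Fin g) ℤ) : ∃ M ∈ Matrix.symplecticGroup (Fin g) ℤ,
      ∀ Z ∈ Siegel g, PZ (act M Z) = (rM N)ᵀ * PZ Z * rM N := by
  have hM : swapB g ℤ * N⁻¹ * swapB g ℤ ∈ Matrix.symplecticGroup (Fin g) ℤ :=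
    P05_swap_mem (P05_inv_mem hN)
  refine ⟨_, hM, fun Z hZ => ?_⟩
  have h := PZ_act hM hZ
  have hinv : (swapB g ℤ * N⁻¹ * swapB g ℤ)⁻¹ = swapB g ℤ * N * swapB g ℤ := by
    apply Matrix.inv_eq_right_inv
    have e : swapB g ℤ * N⁻¹ * swapB g ℤ * (swapB g ℤ * N * swapB g ℤ) =
        swapB g ℤ * (N⁻¹ * (swapB g ℤ * swapB g ℤ) * N) * swapB g ℤ := by
      simp only [Matrix.mul_assoc]
    rw [e, P05_swap_sq, Matrix.mul_one, Matrix.nonsing_inv_mul _ (P05_det hN), Matrix.mul_one,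
      P05_swap_sq]
  have h2 : swapB g ℤ * (swapB g ℤ * N⁻¹ * swapB g ℤ)⁻¹ * swapB g ℤ = N := by
    rw [hinv]
    have e : swapB g ℤ * (swapB g ℤ * N * swapB g ℤ) * swapB g ℤ =
        (swapB g ℤ * swapB g ℤ) * N * (swapB g ℤ * swapB g ℤ) := by
      simp only [Matrix.mul_assoc]
    rw [e, P05_swap_sq, Matrix.one_mul, Matrix.mul_one]
  rw [h2] at h
  exact h

private theorem P05_rM_mul {g : ℕ} (A B : Matrix (Fin g ⊕ Fin g) (Fin g ⊕ Fin g) ℤ) :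
    rM (A * B) = rM A * rM B := by
  unfold rM
  exact Matrix.map_mul (f := Int.castRingHom ℝ)

private theorem P05_rM_one {g : ℕ} :
    rM (1 : Matrix (Fin g ⊕ Fin g) (Fin g ⊕ Fin g) ℤ) = 1 := by
  unfold rM
  exact Matrix.map_one (Int.cast : ℤ → ℝ) Int.cast_zero Int.cast_one

private theorem P05_rM_symp {g : ℕ} {N : Matrix (Fin g ⊕ Fin g) (Fin g ⊕ Fin g) ℤ}
    (hN : N ∈ Matrix.symplecticGroup (Fin g) ℤ) : rM N ∈ Matrix.symplecticGroup (Fin g) ℝ := by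
  have e : rM N = N.map (Int.castRingHom ℝ) := by
    ext i j
    rfl
  rw [e]
  exact SymplecticGroup.map_mem hN (Int.castRingHom ℝ)

private theorem P05_QF {n : Type*} [Fintype n] (P N : Matrix n n ℝ) (x : n → ℝ) :
    QF (Nᵀ * P * N) x = QF P (N *ᵥ x) := by
  unfold QF
  rw [← Matrix.mulVec_mulVec, ← Matrix.mulVec_mulVec, Matrix.dotProduct_mulVec,
    Matrix.vecMul_transpose]

private theorem P05_QF_nonneg {g : ℕ} {Z : Matrix (Fin g) (Fin g) ℂ} (hZ : Z ∈ Siegel g)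
    (x : Fin g ⊕ Fin g → ℝ) : 0 ≤ QF (PZ Z) x := by
  have h := (PZ_posDef hZ).posSemidef.dotProduct_mulVec_nonneg x
  rwa [star_trivial] at h

private theorem P05_inv_mulVec {g : ℕ} {N : Matrix (Fin g ⊕ Fin g) (Fin g ⊕ Fin g) ℤ}
    (hN : N ∈ Matrix.symplecticGroup (Fin g) ℤ) (x : Fin g ⊕ Fin g → ℝ) :
    rM N *ᵥ (rM N⁻¹ *ᵥ x) = x := by
  rw [Matrix.mulVec_mulVec, ← P05_rM_mul, Matrix.mul_nonsing_inv _ (P05_det hN), P05_rM_one,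
    Matrix.one_mulVec]

theorem LE'_trans {g : ℕ} {ν μ : ℝ} {Z W V : Matrix (Fin g) (Fin g) ℂ} (h1 : LE' ν Z W)
    (h2 : LE' μ W V) : LE' (ν + μ) Z V := by
  obtain ⟨N, hN, h1⟩ := h1
  obtain ⟨N', hN', h2⟩ := h2
  refine ⟨N' * N, mul_mem hN' hN, fun x => ?_⟩
  rw [P05_rM_mul, ← Matrix.mulVec_mulVec]
  calc QF (PZ V) (rM N' *ᵥ (rM N *ᵥ x)) ≤ Real.exp μ * QF (PZ W) (rM N *ᵥ x) := h2 _
    _ ≤ Real.exp μ * (Real.exp ν * QF (PZ Z) x) :=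
        mul_le_mul_of_nonneg_left (h1 x) (Real.exp_pos _).le
    _ = Real.exp (ν + μ) * QF (PZ Z) x := by
        rw [Real.exp_add]
        ring

theorem LE'_mono {g : ℕ} {ν μ : ℝ} {Z W : Matrix (Fin g) (Fin g) ℂ} (hZ : Z ∈ Siegel g)
    (h1 : LE' ν Z W) (h : ν ≤ μ) : LE' μ Z W := by
  obtain ⟨N, hN, h1⟩ := h1
  refine ⟨N, hN, fun x => (h1 x).trans ?_⟩
  exact mul_le_mul_of_nonneg_right (Real.exp_le_exp.2 h) (P05_QF_nonneg hZ x)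

private theorem P05_pull {g : ℕ} {W : Matrix (Fin g) (Fin g) ℂ} (hW : W ∈ Siegel g)
    {N : Matrix (Fin g ⊕ Fin g) (Fin g ⊕ Fin g) ℤ} (hN : N ∈ Matrix.symplecticGroup (Fin g) ℤ) :
    ((rM N)ᵀ * PZ W * rM N).PosDef ∧
      (rM N)ᵀ * PZ W * rM N ∈ Matrix.symplecticGroup (Fin g) ℝ := by
  have hNr := P05_rM_symp hN
  refine ⟨?_, ?_⟩
  · have h := (PZ_posDef hW).conjTranspose_mul_mul_same (B := rM N) ?_
    · rwa [Matrix.conjTranspose_eq_transpose_of_trivial] at h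
    · refine Matrix.mulVec_injective_of_isUnit ?_
      exact (Matrix.isUnit_iff_isUnit_det _).2 (SymplecticGroup.symplectic_det hNr)
  · exact mul_mem (mul_mem (SymplecticGroup.transpose_mem hNr) (PZ_symp hW)) hNr

private theorem P05_dual {g : ℕ} {ν : ℝ} {Z W : Matrix (Fin g) (Fin g) ℂ} (hZ : Z ∈ Siegel g)
    (hW : W ∈ Siegel g) {N : Matrix (Fin g ⊕ Fin g) (Fin g ⊕ Fin g) ℤ}
    (hN : N ∈ Matrix.symplecticGroup (Fin g) ℤ)
    (h : ∀ x, QF (PZ W) (rM N *ᵥ x) ≤ Real.exp ν * QF (PZ Z) x) (x : Fin g ⊕ Fin g → ℝ) :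
    QF (PZ Z) x ≤ Real.exp ν * QF (PZ W) (rM N *ᵥ x) := by
  obtain ⟨h1, h2⟩ := P05_pull hW hN
  have h3 := QF_dual (PZ_posDef hZ) h1 (PZ_symp hZ) h2 (Real.exp_pos ν)
    (fun x => by rw [P05_QF]; exact h x) x
  rwa [P05_QF] at h3

theorem LE'_symm {g : ℕ} {ν : ℝ} {Z W : Matrix (Fin g) (Fin g) ℂ} (hZ : Z ∈ Siegel g)
    (hW : W ∈ Siegel g) (h : LE' ν Z W) : LE' ν W Z := by
  obtain ⟨N, hN, h1⟩ := h
  refine ⟨N⁻¹, P05_inv_mem hN, fun x => ?_⟩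
  have h2 := P05_dual hZ hW hN h1 (rM N⁻¹ *ᵥ x)
  rwa [P05_inv_mulVec hN] at h2

theorem LE'_same {g : ℕ} {Z W : Matrix (Fin g) (Fin g) ℂ} (hZ : Z ∈ Siegel g)
    (h : SamePt Z W) : LE' 0 Z W := by
  obtain ⟨M, hM, rfl⟩ := h
  have hN : swapB g ℤ * M⁻¹ * swapB g ℤ ∈ Matrix.symplecticGroup (Fin g) ℤ :=
    P05_swap_mem (P05_inv_mem hM)
  refine ⟨_, P05_inv_mem hN, fun x => ?_⟩
  rw [PZ_act hM hZ, P05_QF, P05_inv_mulVec hN, Real.exp_zero, one_mul]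

theorem LE'_of_dA {g : ℕ} {r r' : ℝ} {Z W : Matrix (Fin g) (Fin g) ℂ} (hZ : Z ∈ Siegel g)
    (hW : W ∈ Siegel g) (h : dA Z W ≤ r) (hr : r < r') : LE' r' Z W := by
  have h1 : dA Z W < r' := lt_of_le_of_lt h hr
  have hne : {r : ℝ | ∃ M ∈ Matrix.symplecticGroup (Fin g) ℤ, r = dH Z (act M W)}.Nonempty :=
    ⟨dH Z (act 1 W), 1, one_mem _, rfl⟩
  obtain ⟨s, ⟨M, hM, rfl⟩, hs⟩ := exists_lt_of_csInf_lt hne h1
  have hN : swapB g ℤ * M⁻¹ * swapB g ℤ ∈ Matrix.symplecticGroup (Fin g) ℤ :=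
    P05_swap_mem (P05_inv_mem hM)
  refine ⟨_, hN, fun x => ?_⟩
  have h2 := le_of_dH hZ (act_mem hM hW) hs.le x
  rwa [PZ_act hM hW, P05_QF] at h2

theorem dA_le {g : ℕ} {ν : ℝ} {Z W : Matrix (Fin g) (Fin g) ℂ} (hZ : Z ∈ Siegel g)
    (hW : W ∈ Siegel g) (hν : 0 ≤ ν) (h : LE' ν Z W) : dA Z W ≤ Real.sqrt (2 * g) * ν := by
  obtain ⟨N, hN, h1⟩ := h
  obtain ⟨M, hM, h2⟩ := exists_act hN
  have h3 : dH Z (act M W) ≤ Real.sqrt (2 * g) * ν := by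
    refine dH_le hZ (act_mem hM hW) hν (fun x => ?_) (fun x => ?_)
    · rw [h2 W hW, P05_QF]
      exact h1 x
    · rw [h2 W hW, P05_QF]
      exact P05_dual hZ hW hN h1 x
  have hb : BddBelow {r : ℝ | ∃ M ∈ Matrix.symplecticGroup (Fin g) ℤ, r = dH Z (act M W)} := by
    refine ⟨0, ?_⟩
    rintro s ⟨M', _, rfl⟩
    exact Real.sqrt_nonneg _
  exact (csInf_le hb ⟨M, hM, rfl⟩).trans h3

end Pool.Agent.Lib.MP_cca10c_ag
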