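import Pool.Agent.Lib.MP_cca10c_ag.P06_Conn

/-! Module P: costs bound lengths. -/

set_option autoImplicit false

open Topology Set Matrix
open scoped ENNReal

namespace Pool.Agent.Lib.MP_cca10c_ag

/-- The path of `Conn` is a path of the Schottky locus: continuity from `dA_le` and the continuity
of `ν`; every partition sum is at most `√(2g) (ν 1 - ν 0)` (telescoping). -/
theorem Conn.dS_le {g : ℕ} {Z W : Matrix (Fin g) (Fin g) ℂ} {C : ℝ} (h : Conn g Z W C) :
    dS Z W ≤ ENNReal.ofReal (Real.sqrt (2 * g) * C) := by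
  obtain ⟨γ, ν, h1, h2, h3, h4, h5, h6, h7⟩ := h
  have m0 : (0 : ℝ) ∈ Icc (0 : ℝ) 1 := ⟨le_rfl, zero_le_one⟩
  have m1 : (1 : ℝ) ∈ Icc (0 : ℝ) 1 := ⟨zero_le_one, le_rfl⟩
  have hq : 0 ≤ Real.sqrt (2 * g) := Real.sqrt_nonneg _
  have key : ∀ s ∈ Icc (0 : ℝ) 1, ∀ t ∈ Icc (0 : ℝ) 1, s ≤ t →
      dA (γ s) (γ t) ≤ Real.sqrt (2 * g) * (ν t - ν s) := by
    intro s hs t ht hst
    exact dA_le (h1 s hs).1 (h1 t ht).1 (by linarith [h2 hs ht hst]) (h7 s hs t ht hst)
  have key' : ∀ s ∈ Icc (0 : ℝ) 1, ∀ t ∈ Icc (0 : ℝ) 1, t ≤ s →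
      dA (γ s) (γ t) ≤ Real.sqrt (2 * g) * (ν s - ν t) := by
    intro s hs t ht hst
    exact dA_le (h1 s hs).1 (h1 t ht).1 (by linarith [h2 ht hs hst])
      (LE'_symm (h1 t ht).1 (h1 s hs).1 (h7 t ht s hs hst))
  have hpath : IsPath g γ := by
    refine ⟨h1, fun t ht ε hε => ?_⟩
    have hη : 0 < ε / (Real.sqrt (2 * g) + 1) := by positivity
    obtain ⟨δ, hδ, hd⟩ := Metric.continuousWithinAt_iff.1 (h3 t ht) _ hη
    refine ⟨δ, hδ, fun s hs hst => ?_⟩
    have hd1 := hd hs (by rwa [Real.dist_eq])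
    rw [Real.dist_eq] at hd1
    have hb : dA (γ s) (γ t) ≤ Real.sqrt (2 * g) * |ν s - ν t| := by
      rcases le_total s t with hle | hle
      · refine (key s hs t ht hle).trans ?_
        refine mul_le_mul_of_nonneg_left ?_ hq
        rw [abs_sub_comm]
        exact le_abs_self _
      · refine (key' s hs t ht hle).trans ?_
        exact mul_le_mul_of_nonneg_left (le_abs_self _) hq
    have hc : (Real.sqrt (2 * g) + 1) * |ν s - ν t| < ε := by
      rw [lt_div_iff₀ (by positivity)] at hd1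
      linarith
    have := abs_nonneg (ν s - ν t)
    nlinarith
  have hlen : len γ ≤ ENNReal.ofReal (Real.sqrt (2 * g) * C) := by
    unfold len
    refine iSup_le ?_
    rintro ⟨n, t, htm, htI⟩
    simp only
    calc ∑ i ∈ Finset.range n, ENNReal.ofReal (dA (γ (t i)) (γ (t (i + 1))))
        ≤ ∑ i ∈ Finset.range n, ENNReal.ofReal (Real.sqrt (2 * g) * (ν (t (i + 1)) - ν (t i))) :=
          Finset.sum_le_sum fun i _ => ENNReal.ofReal_le_ofReal
            (key _ (htI i) _ (htI (i + 1)) (htm (Nat.le_succ i)))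
      _ = ENNReal.ofReal (∑ i ∈ Finset.range n, Real.sqrt (2 * g) * (ν (t (i + 1)) - ν (t i))) := by
          rw [ENNReal.ofReal_sum_of_nonneg]
          intro i _
          refine mul_nonneg hq ?_
          linarith [h2 (htI i) (htI (i + 1)) (htm (Nat.le_succ i))]
      _ ≤ ENNReal.ofReal (Real.sqrt (2 * g) * C) := by
          refine ENNReal.ofReal_le_ofReal ?_
          rw [← Finset.mul_sum]
          refine mul_le_mul_of_nonneg_left ?_ hq
          rw [Finset.sum_range_sub (fun i => ν (t i))]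
          have e1 := h2 m0 (htI 0) (htI 0).1
          have e2 := h2 (htI n) m1 (htI n).2
          linarith
  exact (iInf_le _ (⟨γ, hpath, h5, h6⟩ :
    {γ : ℝ → Matrix (Fin g) (Fin g) ℂ // IsPath g γ ∧ SamePt (γ 0) Z ∧ SamePt (γ 1) W})).trans hlen

end Pool.Agent.Lib.MP_cca10c_ag
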