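import Pool.Agent.Lib.MP_cca10c_ag.T00_Defs

/-!
# Module Q (capping): the capped surface

The cores of the annuli `e i` are removed from `X` and two points are added for every annulus.
-/

set_option autoImplicit false

open Topology Set

namespace Pool.Agent.Lib.MP_cca10c_ag

/-- the sign of a side of a core -/
def sg (s : Bool) : ℝ := if s then 1 else -1

variable {X : Type} {g : ℕ}

section

variable [TopologicalSpace X]

/-- one-sided collar of the core of `e` -/
def collar (e : OpenPartialHomeomorph X ℂ) (s : Bool) (ε : ℝ) : Set X :=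
  {x | x ∈ e.source ∧ 0 < sg s * Real.log ‖e x‖ ∧ sg s * Real.log ‖e x‖ < ε}

/-- the capped surface as a set -/
inductive Capd (e : Fin g → OpenPartialHomeomorph X ℂ) : Type
  | pt (x : X) (h : ∀ i, x ∉ core (e i)) : Capd e
  | cap (i : Fin g) (s : Bool) : Capd e

/-- the points of `X` lying in `U` -/
def Capd.pre {e : Fin g → OpenPartialHomeomorph X ℂ} (U : Set (Capd e)) :
    Set {x : X // ∀ i, x ∉ core (e i)} := {x | Capd.pt x.1 x.2 ∈ U}

instance Capd.instTop (e : Fin g → OpenPartialHomeomorph X ℂ) : TopologicalSpace (Capd e) where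
  IsOpen U := IsOpen (Capd.pre U) ∧ ∀ i s, Capd.cap i s ∈ U → ∃ ε : ℝ, 0 < ε ∧
    ∀ x h, x ∈ collar (e i) s ε → Capd.pt x h ∈ U
  isOpen_univ := by
    refine ⟨?_, fun i s _ => ⟨1, one_pos, fun x h _ => mem_univ _⟩⟩
    have : (Capd.pre (univ : Set (Capd e))) = univ := by
      ext x; simp [Capd.pre]
    rw [this]; exact isOpen_univ
  isOpen_inter := by
    rintro U V ⟨hU, hU'⟩ ⟨hV, hV'⟩
    refine ⟨?_, ?_⟩
    · have : Capd.pre (U ∩ V) = Capd.pre U ∩ Capd.pre V := by
        ext x; simp [Capd.pre]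
      rw [this]; exact hU.inter hV
    · rintro i s ⟨h1, h2⟩
      obtain ⟨ε, hε, h3⟩ := hU' i s h1
      obtain ⟨δ, hδ, h4⟩ := hV' i s h2
      refine ⟨min ε δ, lt_min hε hδ, fun x h hx => ⟨h3 x h ?_, h4 x h ?_⟩⟩
      · exact ⟨hx.1, hx.2.1, lt_of_lt_of_le hx.2.2 (min_le_left _ _)⟩
      · exact ⟨hx.1, hx.2.1, lt_of_lt_of_le hx.2.2 (min_le_right _ _)⟩
  isOpen_sUnion := by
    intro s hs
    refine ⟨?_, ?_⟩
    · have : Capd.pre (⋃₀ s) = ⋃ U ∈ s, Capd.pre U := by
        ext x; simp [Capd.pre]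
      rw [this]; exact isOpen_biUnion fun U hU => (hs U hU).1
    · rintro i σ ⟨U, hU, h1⟩
      obtain ⟨ε, hε, h3⟩ := (hs U hU).2 i σ h1
      exact ⟨ε, hε, fun x h hx => ⟨U, hU, h3 x h hx⟩⟩

/-- the standing assumptions: disjoint annuli of half length at least `2`, connected complement of
the cores -/
structure CapHyp (S : CS X) (e : Fin g → OpenPartialHomeomorph X ℂ) (l : Fin g → ℝ) : Prop where
  ann : ∀ i, IsAnn S (e i) (l i)
  disj : Pairwise fun i j => Disjoint (e i).source (e j).source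
  len : ∀ i, 2 ≤ l i
  conn : IsPreconnected {x : X | ∀ i, x ∉ core (e i)}

end

end Pool.Agent.Lib.MP_cca10c_ag
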