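import Pool.Agent.Lib.MP_cca10c_ag.T00_Defs
import Pool.Agent.Lib.MP_cca10c_ag.H01_Charts

/-!
# Module T: the circle map and the closed form of an annulus
-/

set_option autoImplicit false

open Topology Set MeasureTheory
open scoped ContDiff

namespace Pool.Agent.Lib.MP_cca10c_ag

variable {X : Type} [TopologicalSpace X]

theorem stp_contDiff {a : ℝ} (ha : 0 < a) : ContDiff ℝ ∞ (stp a) := by
  have h : ContDiff ℝ ∞ (fun t : ℝ => (t + a) / (2 * a)) :=
    (contDiff_id.add contDiff_const).div_const _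
  exact Real.smoothTransition.contDiff.comp h

theorem stp_zero {a t : ℝ} (ha : 0 < a) (ht : t ≤ -a) : stp a t = 0 := by
  unfold stp
  apply Real.smoothTransition.zero_of_nonpos
  apply div_nonpos_of_nonpos_of_nonneg
  · linarith
  · linarith

theorem stp_one {a t : ℝ} (ha : 0 < a) (ht : a ≤ t) : stp a t = 1 := by
  unfold stp
  apply Real.smoothTransition.one_of_one_le
  rw [le_div_iff₀ (by linarith)]
  linarith

theorem stp_deriv_zero {a t : ℝ} (ha : 0 < a) (ht : a ≤ |t|) : deriv (stp a) t = 0 := by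
  rcases le_total 0 t with h | h
  · rw [abs_of_nonneg h] at ht
    apply IsLocalMax.deriv_eq_zero
    refine Filter.Eventually.of_forall fun s => ?_
    show stp a s ≤ stp a t
    rw [stp_one ha ht]
    exact Real.smoothTransition.le_one _
  · rw [abs_of_nonpos h] at ht
    apply IsLocalMin.deriv_eq_zero
    refine Filter.Eventually.of_forall fun s => ?_
    show stp a t ≤ stp a s
    rw [stp_zero ha (by linarith)]
    exact Real.smoothTransition.nonneg _

private theorem T01_norm_pos {S : CS X} {e : OpenPartialHomeomorph X ℂ} {l : ℝ}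
    (he : IsAnn S e l) {x : X} (hx : x ∈ e.source) : 0 < ‖e x‖ := by
  have h := e.map_source hx
  rw [he.2.2] at h
  exact (Real.exp_pos _).trans h.1

private theorem T01_smooth_log {a : ℝ} (ha : 0 < a) {ζ : ℂ} (hζ : ζ ≠ 0) :
    ContDiffAt ℝ ∞ (fun z : ℂ => stp a (Real.log ‖z‖)) ζ := by
  have h1 : ContDiffAt ℝ ∞ (fun z : ℂ => ‖z‖) ζ := contDiffAt_norm ℝ hζ
  have h2 : ContDiffAt ℝ ∞ (fun z : ℂ => Real.log ‖z‖) ζ := h1.log (norm_ne_zero_iff.mpr hζ)
  exact (stp_contDiff ha).contDiffAt.comp ζ h2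

private theorem T01_congr {S : CS X} {f g : X → ℝ} {x : X} (h : f =ᶠ[𝓝 x] g)
    (hg : S.SmoothAt g x) : S.SmoothAt f x := by
  intro e he hx
  refine (hg e he hx).congr_of_eventuallyEq ?_
  exact (e.tendsto_symm hx).eventually h

private theorem T01_const (S : CS X) (c : ℝ) (x : X) : S.SmoothAt (fun _ => c) x := by
  intro e he hx
  exact contDiffAt_const

private theorem T01_smooth_stp {S : CS X} {e : OpenPartialHomeomorph X ℂ} {l a : ℝ}
    (he : IsAnn S e l) (ha : 0 < a) (c : ℝ) {x : X} (hx : x ∈ e.source) :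
    S.SmoothAt (fun y => stp a (Real.log ‖e y‖) - c) x := by
  rw [CS.smoothAt_iff he.1 hx]
  have h1 : ContDiffAt ℝ ∞ (fun z : ℂ => stp a (Real.log ‖z‖) - c) (e x) :=
    (T01_smooth_log ha (norm_pos_iff.mp (T01_norm_pos he hx))).sub contDiffAt_const
  refine h1.congr_of_eventuallyEq ?_
  have h2 : ∀ᶠ z in 𝓝 (e x), z ∈ e.target := e.open_target.mem_nhds (e.map_source hx)
  filter_upwards [h2] with z hz
  show stp a (Real.log ‖e (e.symm z)‖) - c = stp a (Real.log ‖z‖) - c
  rw [e.right_inv hz]

theorem phiE_zero {e : OpenPartialHomeomorph X ℂ} {a : ℝ} (ha : 0 < a) {x : X}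
    (hx : x ∉ midA e a) : phiE e a x = 0 := by
  unfold phiE
  by_cases h : x ∈ e.source
  · rw [if_pos h]
    have h1 : a < |Real.log ‖e x‖| := by
      by_contra hcon
      exact hx ⟨h, not_lt.mp hcon⟩
    by_cases h2 : ‖e x‖ < 1
    · rw [if_pos h2]
      have h3 : Real.log ‖e x‖ ≤ 0 := Real.log_nonpos (norm_nonneg _) h2.le
      rw [abs_of_nonpos h3] at h1
      exact stp_zero ha (by linarith)
    · rw [if_neg h2]
      have h3 : 0 ≤ Real.log ‖e x‖ := Real.log_nonneg (not_lt.mp h2)
      rw [abs_of_nonneg h3] at h1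
      rw [stp_one ha h1.le, sub_self]
  · rw [if_neg h]

/-- the middle part is compact, hence closed -/
theorem midA_compact {S : CS X} {e : OpenPartialHomeomorph X ℂ} {l a : ℝ}
    (he : IsAnn S e l) (hal : a < l) : IsCompact (midA e a) := by
  set K : Set ℂ := {ζ | Real.exp (-a) ≤ ‖ζ‖ ∧ ‖ζ‖ ≤ Real.exp a} with hK
  have hKc : IsCompact K := by
    apply Metric.isCompact_of_isClosed_isBounded
    · exact (isClosed_le continuous_const continuous_norm).inter
        (isClosed_le continuous_norm continuous_const)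
    · rw [Metric.isBounded_iff_subset_closedBall 0]
      refine ⟨Real.exp a, fun ζ hζ => ?_⟩
      rw [mem_closedBall_zero_iff]
      exact hζ.2
  have hKt : K ⊆ e.target := by
    intro ζ hζ
    rw [he.2.2]
    refine ⟨lt_of_lt_of_le ?_ hζ.1, lt_of_le_of_lt hζ.2 ?_⟩
    · exact Real.exp_lt_exp.mpr (by linarith)
    · exact Real.exp_lt_exp.mpr hal
  have himg : midA e a = e.symm '' K := by
    ext x
    constructor
    · rintro ⟨hx, hl⟩
      have hpos := T01_norm_pos he hx
      refine ⟨e x, ?_, e.left_inv hx⟩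
      rw [abs_le] at hl
      constructor
      · have := Real.exp_le_exp.mpr hl.1
        rwa [Real.exp_log hpos] at this
      · have := Real.exp_le_exp.mpr hl.2
        rwa [Real.exp_log hpos] at this
    · rintro ⟨ζ, hζ, rfl⟩
      have ht := hKt hζ
      refine ⟨e.map_target ht, ?_⟩
      rw [e.right_inv ht, abs_le]
      have hpos : 0 < ‖ζ‖ := (Real.exp_pos _).trans_le hζ.1
      constructor
      · rw [Real.le_log_iff_exp_le hpos]
        exact hζ.1
      · rw [Real.log_le_iff_le_exp hpos]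
        exact hζ.2
  rw [himg]
  exact hKc.image_of_continuousOn (e.continuousOn_symm.mono hKt)

private theorem T01_off [T2Space X] {S : CS X} {e : OpenPartialHomeomorph X ℂ} {l a : ℝ}
    (he : IsAnn S e l) (ha : 0 < a) (hal : a < l) {x : X} (hx : x ∉ e.source) :
    ∀ᶠ y in 𝓝 x, phiE e a y = 0 := by
  have hcl : IsClosed (midA e a) := (midA_compact he hal).isClosed
  have hxm : x ∉ midA e a := fun h => hx h.1
  filter_upwards [hcl.isOpen_compl.mem_nhds hxm] with y hy
  exact phiE_zero ha hy

/-- `phiE` is smooth off the core -/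
theorem phiE_smooth [T2Space X] {S : CS X} {e : OpenPartialHomeomorph X ℂ} {l a : ℝ}
    (he : IsAnn S e l) (ha : 0 < a) (hal : a < l) {x : X} (hx : x ∉ core e) :
    S.SmoothNear (phiE e a) x := by
  by_cases h : x ∈ e.source
  · have hne : ‖e x‖ ≠ 1 := fun h1 => hx ⟨h, h1⟩
    have hsrc : ∀ᶠ y in 𝓝 x, y ∈ e.source := e.open_source.mem_nhds h
    have hc : ContinuousAt (fun y => ‖e y‖) x := (e.continuousAt h).norm
    rcases lt_or_gt_of_ne hne with h1 | h1
    · have h2 : ∀ᶠ y in 𝓝 x, ‖e y‖ < 1 := hc.eventually (gt_mem_nhds h1)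
      have h3 : ∀ᶠ y in 𝓝 x, y ∈ e.source ∧ ‖e y‖ < 1 := hsrc.and h2
      unfold CS.SmoothNear
      filter_upwards [eventually_eventually_nhds.mpr h3, hsrc] with y hy hys
      refine T01_congr ?_ (T01_smooth_stp he ha 0 hys)
      filter_upwards [hy] with w hw
      unfold phiE
      rw [if_pos hw.1, if_pos hw.2, sub_zero]
    · have h2 : ∀ᶠ y in 𝓝 x, 1 < ‖e y‖ := hc.eventually (lt_mem_nhds h1)
      have h3 : ∀ᶠ y in 𝓝 x, y ∈ e.source ∧ 1 < ‖e y‖ := hsrc.and h2
      unfold CS.SmoothNear
      filter_upwards [eventually_eventually_nhds.mpr h3, hsrc] with y hy hys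
      refine T01_congr ?_ (T01_smooth_stp he ha 1 hys)
      filter_upwards [hy] with w hw
      unfold phiE
      rw [if_pos hw.1, if_neg (not_lt.mpr hw.2.le)]
  · unfold CS.SmoothNear
    filter_upwards [eventually_eventually_nhds.mpr (T01_off he ha hal h)] with y hy
    exact T01_congr hy (T01_const S 0 y)

/-- near a point of the annulus the circle map is the reduction of `stp a (log |ζ|)` -/
theorem betaC_eq {e : OpenPartialHomeomorph X ℂ} {a : ℝ} {x : X} (hx : x ∈ e.source) :
    betaC e a x = ((stp a (Real.log ‖e x‖) : ℝ) : UnitAddCircle) := by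
  unfold betaC phiE
  rw [if_pos hx]
  split_ifs
  · rfl
  · rw [AddCircle.coe_sub]
    have : (((1 : ℝ) : ℝ) : UnitAddCircle) = 0 := AddCircle.coe_period 1
    rw [this, sub_zero]

theorem betaC_smooth [T2Space X] {S : CS X} {e : OpenPartialHomeomorph X ℂ} {l a : ℝ}
    (he : IsAnn S e l) (ha : 0 < a) (hal : a < l) : S.SmoothC (betaC e a) := by
  intro x
  by_cases h : x ∈ e.source
  · refine ⟨fun y => stp a (Real.log ‖e y‖) - 0, ⟨?_, ?_⟩, T01_smooth_stp he ha 0 h⟩
    · have hc : ContinuousAt (fun y => ‖e y‖) x := (e.continuousAt h).norm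
      have h1 : ContinuousAt (fun y => Real.log ‖e y‖) x := hc.log (T01_norm_pos he h).ne'
      have h2 : ContinuousAt (fun y => stp a (Real.log ‖e y‖)) x :=
        ContinuousAt.comp (g := stp a) (f := fun y => Real.log ‖e y‖)
          (stp_contDiff ha).continuous.continuousAt h1
      exact h2.sub continuousAt_const
    · filter_upwards [e.open_source.mem_nhds h] with y hy
      rw [betaC_eq hy, sub_zero]
  · refine ⟨fun _ => 0, ⟨continuousAt_const, ?_⟩, T01_const S 0 x⟩
    filter_upwards [T01_off he ha hal h] with y hy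
    unfold betaC
    rw [hy]

end Pool.Agent.Lib.MP_cca10c_ag
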