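import Pool.Agent.Lib.MP_cca10c_ag.Q00_Defs
import Pool.Agent.Lib.MP_cca10c_ag.T01_Ann

/-!
# Module Q: topology of the capped surface
-/

set_option autoImplicit false

open Topology Set

namespace Pool.Agent.Lib.MP_cca10c_ag

variable {X : Type} {g : ℕ} [TopologicalSpace X] [CompactSpace X] [T2Space X] {S : CS X}
variable {e : Fin g → OpenPartialHomeomorph X ℂ} {l : Fin g → ℝ}

omit [CompactSpace X] [T2Space X] in
private theorem Q01_norm_pos (h : CapHyp S e l) (i : Fin g) {x : X} (hx : x ∈ (e i).source) :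
    0 < ‖e i x‖ := by
  have h1 := (e i).map_source hx
  rw [(h.ann i).2.2] at h1
  exact (Real.exp_pos _).trans h1.1

omit [CompactSpace X] in
private theorem Q01_mid_closed (h : CapHyp S e l) (i : Fin g) {t : ℝ} (ht : t < l i) :
    IsClosed (midA (e i) t) := (midA_compact (h.ann i) ht).isClosed

omit [CompactSpace X] [T2Space X] in
private theorem Q01_core_log (h : CapHyp S e l) {i : Fin g} {x : X} (hx : x ∈ (e i).source) :
    x ∈ core (e i) ↔ Real.log ‖e i x‖ = 0 := by
  have hp := Q01_norm_pos h i hx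
  constructor
  · rintro ⟨_, h1⟩
    rw [h1, Real.log_one]
  · intro h1
    refine ⟨hx, ?_⟩
    rcases Real.log_eq_zero.1 h1 with h2 | h2 | h2
    · exact absurd h2 hp.ne'
    · exact h2
    · linarith

omit [CompactSpace X] [T2Space X] in
private theorem Q01_core_mid (h : CapHyp S e l) (i : Fin g) : core (e i) = midA (e i) 0 := by
  ext x
  constructor
  · intro hx
    refine ⟨hx.1, ?_⟩
    rw [(Q01_core_log h hx.1).1 hx, abs_zero]
  · rintro ⟨hx, h1⟩
    exact (Q01_core_log h hx).2 (abs_nonpos_iff.1 h1)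

theorem cores_closed (h : CapHyp S e l) : IsOpen {x : X | ∀ i, x ∉ core (e i)} := by
  have e1 : {x : X | ∀ i, x ∉ core (e i)} = ⋂ i, (core (e i))ᶜ := by
    ext x; simp
  rw [e1]
  refine isOpen_iInter_of_finite fun i => ?_
  rw [Q01_core_mid h i]
  exact (Q01_mid_closed h i (h.ann i).2.1).isOpen_compl

/-- the inclusion of the complement of the cores is an open embedding -/
theorem pt_openEmbedding (e : Fin g → OpenPartialHomeomorph X ℂ) :
    IsOpenEmbedding (fun x : {x : X // ∀ i, x ∉ core (e i)} => (Capd.pt x.1 x.2 : Capd e)) := by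
  refine IsOpenEmbedding.of_continuous_injective_isOpenMap ?_ ?_ ?_
  · exact continuous_def.2 fun U hU => hU.1
  · rintro ⟨x, hx⟩ ⟨y, hy⟩ hxy
    simp only [Capd.pt.injEq] at hxy
    exact Subtype.ext hxy
  · intro V hV
    refine ⟨?_, ?_⟩
    · have : Capd.pre ((fun x : {x : X // ∀ i, x ∉ core (e i)} => (Capd.pt x.1 x.2 : Capd e)) '' V)
          = V := by
        ext x
        constructor
        · rintro ⟨y, hy, hxy⟩
          simp only [Capd.pt.injEq] at hxy
          rwa [← Subtype.ext hxy]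
        · intro hx
          exact ⟨x, hx, rfl⟩
      rw [this]
      exact hV
    · rintro i s ⟨y, hy, hxy⟩
      exact absurd hxy (by simp)

omit [CompactSpace X] [T2Space X] in
private theorem Q01_log_cont (h : CapHyp S e l) (i : Fin g) :
    ContinuousOn (fun x => Real.log ‖e i x‖) (e i).source := by
  refine ContinuousOn.log (e i).continuousOn.norm fun x hx => (Q01_norm_pos h i hx).ne'

omit [CompactSpace X] [T2Space X] in
private theorem Q01_collar_open (h : CapHyp S e l) (i : Fin g) (s : Bool) (ε : ℝ) :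
    IsOpen (collar (e i) s ε) := by
  have h1 : ContinuousOn (fun x => sg s * Real.log ‖e i x‖) (e i).source :=
    continuousOn_const.mul (Q01_log_cont h i)
  have h2 := h1.isOpen_inter_preimage (e i).open_source (isOpen_Ioo (a := (0 : ℝ)) (b := ε))
  exact h2

omit [CompactSpace X] [T2Space X] in
private theorem Q01_capN_open (h : CapHyp S e l) (i : Fin g) (s : Bool) {ε : ℝ} (hε : 0 < ε) :
    IsOpen {y : Capd e | y = Capd.cap i s ∨
      ∃ (x : X) (hx : ∀ i, x ∉ core (e i)), y = Capd.pt x hx ∧ x ∈ collar (e i) s ε} := by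
  refine ⟨?_, ?_⟩
  · have : Capd.pre {y : Capd e | y = Capd.cap i s ∨
        ∃ x hx, y = Capd.pt x hx ∧ x ∈ collar (e i) s ε} =
        Subtype.val ⁻¹' (collar (e i) s ε) := by
      ext x
      constructor
      · rintro (h1 | ⟨y, hy, h1, h2⟩)
        · exact absurd h1 (by simp)
        · simp only [Capd.pt.injEq] at h1
          show x.1 ∈ collar (e i) s ε
          rw [h1]
          exact h2
      · intro hx
        exact Or.inr ⟨x.1, x.2, rfl, hx⟩
    rw [this]
    exact (Q01_collar_open h i s ε).preimage continuous_subtype_val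
  · rintro j s' (h1 | ⟨y, hy, h1, h2⟩)
    · simp only [Capd.cap.injEq] at h1
      obtain ⟨rfl, rfl⟩ := h1
      exact ⟨ε, hε, fun x hx hxc => Or.inr ⟨x, hx, rfl, hxc⟩⟩
    · exact absurd h1 (by simp)

omit [CompactSpace X] [T2Space X] in
private theorem Q01_cap_basis {i : Fin g} {s : Bool} {U : Set (Capd e)}
    (hU : U ∈ 𝓝 (Capd.cap i s : Capd e)) : ∃ ε : ℝ, 0 < ε ∧
      {y : Capd e | y = Capd.cap i s ∨ ∃ x hx, y = Capd.pt x hx ∧ x ∈ collar (e i) s ε} ⊆ U := by
  obtain ⟨V, hVU, hV, hm⟩ := mem_nhds_iff.1 hU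
  obtain ⟨ε, hε, h1⟩ := hV.2 i s hm
  refine ⟨ε, hε, ?_⟩
  rintro y (rfl | ⟨x, hx, rfl, hxc⟩)
  · exact hVU hm
  · exact hVU (h1 x hx hxc)

/-- neighbourhoods of the added points -/
theorem cap_nhds (h : CapHyp S e l) (i : Fin g) (s : Bool) {ε : ℝ} (hε : 0 < ε) :
    {y : Capd e | y = Capd.cap i s ∨ ∃ x hx, y = Capd.pt x hx ∧ x ∈ collar (e i) s ε} ∈
      𝓝 (Capd.cap i s : Capd e) :=
  (Q01_capN_open h i s hε).mem_nhds (Or.inl rfl)

omit [CompactSpace X] [T2Space X] in
private theorem Q01_collar_mid {i : Fin g} {s : Bool} {ε : ℝ} {x : X}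
    (hx : x ∈ collar (e i) s ε) : x ∈ midA (e i) ε := by
  refine ⟨hx.1, ?_⟩
  have h1 := hx.2.1
  have h2 := hx.2.2
  have h3 : |sg s * Real.log ‖e i x‖| = |Real.log ‖e i x‖| := by
    rw [abs_mul]
    cases s <;> simp [sg]
  rw [← h3, abs_of_pos h1]
  exact h2.le

omit [CompactSpace X] [T2Space X] in
private theorem Q01_sep (h : CapHyp S e l) {x : X} (hx : ∀ i, x ∉ core (e i)) (i : Fin g) :
    ∃ δ : ℝ, 0 < δ ∧ δ < l i ∧ x ∉ midA (e i) δ := by
  have hl := h.len i
  by_cases hs : x ∈ (e i).source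
  · have h1 : Real.log ‖e i x‖ ≠ 0 := fun h2 => hx i ((Q01_core_log h hs).2 h2)
    have h2 : 0 < |Real.log ‖e i x‖| := abs_pos.2 h1
    refine ⟨min 1 (|Real.log ‖e i x‖| / 2), lt_min one_pos (by linarith), ?_, ?_⟩
    · exact lt_of_le_of_lt (min_le_left _ _) (by linarith)
    · rintro ⟨_, h3⟩
      have h4 := h3.trans (min_le_right _ _)
      linarith
  · exact ⟨1, one_pos, by linarith, fun h1 => hs h1.1⟩

private theorem Q01_sep_pt_cap (h : CapHyp S e l) {x : X} (hx : ∀ i, x ∉ core (e i)) (i : Fin g)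
    (s : Bool) : ∃ u v : Set (Capd e), IsOpen u ∧ IsOpen v ∧ Capd.pt x hx ∈ u ∧
      Capd.cap i s ∈ v ∧ Disjoint u v := by
  obtain ⟨δ, hδ, hδl, hxδ⟩ := Q01_sep h hx i
  refine ⟨(fun x : {x : X // ∀ i, x ∉ core (e i)} => (Capd.pt x.1 x.2 : Capd e)) ''
      (Subtype.val ⁻¹' (midA (e i) δ)ᶜ), _,
    (pt_openEmbedding e).isOpenMap _
      ((Q01_mid_closed h i hδl).isOpen_compl.preimage continuous_subtype_val),
    Q01_capN_open h i s hδ, ⟨⟨x, hx⟩, hxδ, rfl⟩, Or.inl rfl, ?_⟩
  rw [Set.disjoint_left]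
  rintro _ ⟨⟨y, hy⟩, hyδ, rfl⟩ (h1 | ⟨z, hz, h1, h2⟩)
  · exact absurd h1 (by simp)
  · simp only [Capd.pt.injEq] at h1
    subst h1
    exact hyδ (Q01_collar_mid h2)

theorem Capd.t2 (h : CapHyp S e l) : T2Space (Capd e) := by
  refine ⟨?_⟩
  rintro (⟨x, hx⟩ | ⟨i, s⟩) (⟨y, hy⟩ | ⟨j, s'⟩) hne
  · have hxy : (⟨x, hx⟩ : {x : X // ∀ i, x ∉ core (e i)}) ≠ ⟨y, hy⟩ := by
      intro h1
      apply hne
      simp only [Capd.pt.injEq]
      exact congrArg Subtype.val h1
    obtain ⟨u, v, hu, hv, hxu, hyv, huv⟩ := t2_separation hxy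
    refine ⟨_, _, (pt_openEmbedding e).isOpenMap _ hu, (pt_openEmbedding e).isOpenMap _ hv,
      ⟨_, hxu, rfl⟩, ⟨_, hyv, rfl⟩, ?_⟩
    exact (Set.disjoint_image_iff (pt_openEmbedding e).injective).2 huv
  · exact Q01_sep_pt_cap h hx j s'
  · obtain ⟨u, v, hu, hv, h1, h2, h3⟩ := Q01_sep_pt_cap h hy i s
    exact ⟨v, u, hv, hu, h2, h1, h3.symm⟩
  · refine ⟨_, _, Q01_capN_open h i s one_pos, Q01_capN_open h j s' one_pos, Or.inl rfl,
      Or.inl rfl, ?_⟩
    rw [Set.disjoint_left]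
    rintro z (rfl | ⟨x, hx, rfl, hxc⟩) (h1 | ⟨y, hy, h1, hyc⟩)
    · exact hne h1
    · exact absurd h1 (by simp)
    · exact absurd h1 (by simp)
    · simp only [Capd.pt.injEq] at h1
      subst h1
      by_cases hij : i = j
      · subst hij
        have hss : s ≠ s' := fun hs => hne (by rw [hs])
        have h1 := hxc.2.1
        have h2 := hyc.2.1
        cases s <;> cases s' <;> simp [sg] at h1 h2 hss <;> linarith
      · exact Set.disjoint_left.1 (h.disj hij) hxc.1 hyc.1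

omit [CompactSpace X] [T2Space X] in
private theorem Q01_bool {i : Fin g} {x : X} (hx : x ∈ (e i).source)
    (h0 : Real.log ‖e i x‖ ≠ 0) {ε : ℝ} (h1 : |Real.log ‖e i x‖| < ε) :
    ∃ s, x ∈ collar (e i) s ε := by
  rcases lt_or_gt_of_ne h0 with h2 | h2
  · refine ⟨false, hx, ?_, ?_⟩
    · simp only [sg, Bool.false_eq_true, if_false]; linarith
    · rw [abs_of_neg h2] at h1
      simp only [sg, Bool.false_eq_true, if_false]; linarith
  · refine ⟨true, hx, ?_, ?_⟩
    · simp only [sg, if_true]; linarith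
    · rw [abs_of_pos h2] at h1
      simp only [sg, if_true]; linarith

/-- the complement of the open one-sided collars and cores is compact in `X` -/
theorem Capd.compact (h : CapHyp S e l) : CompactSpace (Capd e) := by
  classical
  refine ⟨isCompact_iff_ultrafilter_le_nhds.2 fun F _ => ?_⟩
  by_cases hc : ∃ i s, (F : Filter (Capd e)) ≤ 𝓝 (Capd.cap i s : Capd e)
  · obtain ⟨i, s, hF⟩ := hc
    exact ⟨_, mem_univ _, hF⟩
  · push Not at hc
    have h1 : ∀ i s, ∃ ε : ℝ, 0 < ε ∧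
        {y : Capd e | y = Capd.cap i s ∨ ∃ x hx, y = Capd.pt x hx ∧ x ∈ collar (e i) s ε} ∉
          (F : Filter (Capd e)) := by
      intro i s
      by_contra hcon
      push Not at hcon
      apply hc i s
      intro U hU
      obtain ⟨ε, hε, hs⟩ := Q01_cap_basis hU
      exact Filter.mem_of_superset (hcon ε hε) hs
    choose ε hε hF using h1
    -- the common size
    obtain ⟨δ, hδ, hδε⟩ : ∃ δ : ℝ, 0 < δ ∧ ∀ i s, δ ≤ ε i s := by
      have h2 : ∃ δ : ℝ, 0 < δ ∧ ∀ q ∈ (Finset.univ : Finset (Fin g × Bool)), δ ≤ ε q.1 q.2 := by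
        refine Finset.induction_on (Finset.univ : Finset (Fin g × Bool))
          ⟨1, one_pos, fun q hq => absurd hq (Finset.notMem_empty q)⟩ ?_
        rintro q s _ ⟨δ, hδ, h3⟩
        refine ⟨min δ (ε q.1 q.2), lt_min hδ (hε _ _), fun r hr => ?_⟩
        rcases Finset.mem_insert.1 hr with rfl | hr
        · exact min_le_right _ _
        · exact (min_le_left _ _).trans (h3 r hr)
      obtain ⟨δ, hδ, h3⟩ := h2
      exact ⟨δ, hδ, fun i s => h3 (i, s) (Finset.mem_univ _)⟩
    -- the compact part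
    set O : Set X := ⋃ i, {x | x ∈ (e i).source ∧ |Real.log ‖e i x‖| < δ} with hO
    have hOo : IsOpen O := by
      refine isOpen_iUnion fun i => ?_
      have h1 : ContinuousOn (fun x => |Real.log ‖e i x‖|) (e i).source := (Q01_log_cont h i).abs
      exact h1.isOpen_inter_preimage (e i).open_source (isOpen_Iio (a := δ))
    have hK : IsCompact Oᶜ := hOo.isClosed_compl.isCompact
    have hsub : Oᶜ ⊆ {x : X | ∀ i, x ∉ core (e i)} := by
      intro x hx i hxi
      apply hx
      refine mem_iUnion.2 ⟨i, hxi.1, ?_⟩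
      rw [(Q01_core_log h hxi.1).1 hxi, abs_zero]
      exact hδ
    have hK' : IsCompact ((fun x : {x : X // ∀ i, x ∉ core (e i)} =>
        (Capd.pt x.1 x.2 : Capd e)) '' (Subtype.val ⁻¹' Oᶜ)) := by
      refine IsCompact.image ?_ (pt_openEmbedding e).continuous
      rw [Subtype.isCompact_iff]
      have h5 : Subtype.val '' (Subtype.val ⁻¹' Oᶜ : Set {x : X // ∀ i, x ∉ core (e i)}) = Oᶜ := by
        ext x
        constructor
        · rintro ⟨y, hy, rfl⟩
          exact hy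
        · intro hx
          exact ⟨⟨x, hsub hx⟩, hx, rfl⟩
      rw [h5]
      exact hK
    have hmem : ((fun x : {x : X // ∀ i, x ∉ core (e i)} =>
        (Capd.pt x.1 x.2 : Capd e)) '' (Subtype.val ⁻¹' Oᶜ)) ∈ (F : Filter (Capd e)) := by
      have h3 : (⋂ i, ⋂ s, {y : Capd e | y = Capd.cap i s ∨
          ∃ x hx, y = Capd.pt x hx ∧ x ∈ collar (e i) s (ε i s)}ᶜ) ∈ (F : Filter (Capd e)) := by
        refine Filter.iInter_mem.2 fun i => Filter.iInter_mem.2 fun s => ?_
        exact Ultrafilter.compl_mem_iff_notMem.2 (hF i s)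
      refine Filter.mem_of_superset h3 ?_
      rintro (⟨x, hx⟩ | ⟨i, s⟩) hy
      · refine ⟨⟨x, hx⟩, ?_, rfl⟩
        intro hxO
        obtain ⟨i, hxs, hxl⟩ := mem_iUnion.1 hxO
        have h0 : Real.log ‖e i x‖ ≠ 0 := fun h2 => hx i ((Q01_core_log h hxs).2 h2)
        obtain ⟨s, hs⟩ := Q01_bool hxs h0 hxl
        have h4 := mem_iInter.1 (mem_iInter.1 hy i) s
        exact h4 (Or.inr ⟨x, hx, rfl, hs.1, hs.2.1, lt_of_lt_of_le hs.2.2 (hδε i s)⟩)
      · have h4 := mem_iInter.1 (mem_iInter.1 hy i) s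
        exact absurd (Or.inl rfl) h4
    obtain ⟨z, _, hz⟩ := isCompact_iff_ultrafilter_le_nhds.1 hK' F (Filter.le_principal_iff.2 hmem)
    exact ⟨z, mem_univ _, hz⟩

omit [CompactSpace X] [T2Space X] in
private theorem Q01_collar_nonempty (h : CapHyp S e l) (i : Fin g) (s : Bool) {ε : ℝ}
    (hε : 0 < ε) : ∃ x, (∀ j, x ∉ core (e j)) ∧ x ∈ collar (e i) s ε := by
  have hl := h.len i
  set t : ℝ := min (ε / 2) 1 with ht
  have ht0 : 0 < t := lt_min (by linarith) one_pos
  have ht1 : t ≤ 1 := min_le_right _ _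
  have htε : t < ε := lt_of_le_of_lt (min_le_left _ _) (by linarith)
  have hsg : sg s * sg s = 1 := by cases s <;> simp [sg]
  have habs : |sg s * t| ≤ 1 := by
    rw [abs_mul, abs_of_pos ht0]
    cases s <;> simp [sg, ht1]
  rw [abs_le] at habs
  set ζ : ℂ := ((Real.exp (sg s * t) : ℝ) : ℂ) with hζ
  have hn : ‖ζ‖ = Real.exp (sg s * t) := by
    rw [hζ, Complex.norm_real, Real.norm_eq_abs, abs_of_pos (Real.exp_pos _)]
  have hζt : ζ ∈ (e i).target := by
    rw [(h.ann i).2.2]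
    show Real.exp (-l i) < ‖ζ‖ ∧ ‖ζ‖ < Real.exp (l i)
    rw [hn]
    exact ⟨Real.exp_lt_exp.2 (by linarith), Real.exp_lt_exp.2 (by linarith)⟩
  have hlog : Real.log ‖e i ((e i).symm ζ)‖ = sg s * t := by
    rw [(e i).right_inv hζt, hn, Real.log_exp]
  have hsrc : (e i).symm ζ ∈ (e i).source := (e i).map_target hζt
  have hcol : (e i).symm ζ ∈ collar (e i) s ε := by
    refine ⟨hsrc, ?_, ?_⟩
    · rw [hlog, ← mul_assoc, hsg, one_mul]; exact ht0
    · rw [hlog, ← mul_assoc, hsg, one_mul]; exact htε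
  refine ⟨_, ?_, hcol⟩
  intro j hj
  by_cases hij : i = j
  · subst hij
    have h1 := (Q01_core_log h hsrc).1 hj
    have h2 := hcol.2.1
    rw [h1, mul_zero] at h2
    exact lt_irrefl _ h2
  · exact Set.disjoint_left.1 (h.disj hij) hsrc hj.1

/-- the added points are in the closure of the connected complement of the cores (collars are not
empty) -/
theorem Capd.connected [Nonempty X] (h : CapHyp S e l) (hg : 0 < g) : ConnectedSpace (Capd e) := by
  have hpre : PreconnectedSpace {x : X // ∀ i, x ∉ core (e i)} :=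
    Subtype.preconnectedSpace h.conn
  have h1 : IsPreconnected (range (fun x : {x : X // ∀ i, x ∉ core (e i)} =>
      (Capd.pt x.1 x.2 : Capd e))) := isPreconnected_range (pt_openEmbedding e).continuous
  have h2 : closure (range (fun x : {x : X // ∀ i, x ∉ core (e i)} =>
      (Capd.pt x.1 x.2 : Capd e))) = univ := by
    refine eq_univ_of_forall ?_
    rintro (⟨x, hx⟩ | ⟨i, s⟩)
    · exact subset_closure ⟨⟨x, hx⟩, rfl⟩
    · rw [mem_closure_iff_nhds]
      intro U hU
      obtain ⟨ε, hε, hs⟩ := Q01_cap_basis hU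
      obtain ⟨x, hx, hxc⟩ := Q01_collar_nonempty h i s hε
      exact ⟨Capd.pt x hx, hs (Or.inr ⟨x, hx, rfl, hxc⟩), ⟨⟨x, hx⟩, rfl⟩⟩
  have h3 := h1.closure
  rw [h2] at h3
  have h4 : PreconnectedSpace (Capd e) := ⟨h3⟩
  exact { toPreconnectedSpace := h4, toNonempty := ⟨Capd.cap ⟨0, hg⟩ true⟩ }

end Pool.Agent.Lib.MP_cca10c_ag
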