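import Pool.Agent.Lib.MP_cca10c_ag.Q01_Top

/-!
# Module Q: the disc charts at the added points
-/

set_option autoImplicit false

open Topology Set

namespace Pool.Agent.Lib.MP_cca10c_ag

variable {X : Type} {g : ℕ} [TopologicalSpace X] [CompactSpace X] [T2Space X] {S : CS X}
variable {e : Fin g → OpenPartialHomeomorph X ℂ} {l : Fin g → ℝ}

/-- the coordinate on the side `s` of the core: `|ζ| > 1` there -/
noncomputable def sideC (e : OpenPartialHomeomorph X ℂ) (s : Bool) (x : X) : ℂ :=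
  if s then e x else (e x)⁻¹

/-- `c` is a disc chart at the added point `(i, s)`, equal to `sideC` at distance at least `1/2` from
the core -/
structure IsCapChart (e : Fin g → OpenPartialHomeomorph X ℂ) (l : Fin g → ℝ) (i : Fin g) (s : Bool)
    (c : OpenPartialHomeomorph (Capd e) ℂ) : Prop where
  tgt : c.target = Metric.ball 0 (Real.exp (l i))
  src : c.source = {y : Capd e | y = Capd.cap i s ∨
    ∃ x hx, y = Capd.pt x hx ∧ x ∈ collar (e i) s (l i)}
  zero : c (Capd.cap i s) = 0
  eq : ∀ x hx, x ∈ collar (e i) s (l i) → 1 / 2 ≤ sg s * Real.log ‖e i x‖ →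
    c (Capd.pt x hx) = sideC (e i) s x
  lt : ∀ x hx, x ∈ collar (e i) s (1 / 2) → ‖c (Capd.pt x hx)‖ < Real.exp (1 / 2)

/-! ### the radial maps -/

/-- the constant `√e` -/
private noncomputable def q02a : ℝ := Real.exp (1 / 2)

private theorem q02a_gt : 1 < q02a := by
  unfold q02a
  exact Real.one_lt_exp_iff.2 (by norm_num)

private noncomputable def q02M (r : ℝ) : ℝ := min (q02a * (r - 1) / (q02a - 1)) r

private noncomputable def q02N (t : ℝ) : ℝ := max (1 + t * (q02a - 1) / q02a) t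

private theorem q02_nm (r : ℝ) : 1 + (q02a * (r - 1) / (q02a - 1)) * (q02a - 1) / q02a = r := by
  have h := q02a_gt
  have h1 : q02a - 1 ≠ 0 := by linarith
  have h2 : q02a ≠ 0 := by linarith
  field_simp
  ring

private theorem q02_mn (t : ℝ) : q02a * ((1 + t * (q02a - 1) / q02a) - 1) / (q02a - 1) = t := by
  have h := q02a_gt
  have h1 : q02a - 1 ≠ 0 := by linarith
  have h2 : q02a ≠ 0 := by linarith
  field_simp
  ring

private theorem q02_n_ge {t : ℝ} (ht : t ≤ q02a) : t ≤ 1 + t * (q02a - 1) / q02a := by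
  have h := q02a_gt
  have h2 : 0 < q02a := by linarith
  have e1 : 1 + t * (q02a - 1) / q02a - t = (q02a - t) / q02a := by
    field_simp
    ring
  have : 0 ≤ (q02a - t) / q02a := div_nonneg (by linarith) h2.le
  linarith

private theorem q02_n_le {t : ℝ} (ht : q02a ≤ t) : 1 + t * (q02a - 1) / q02a ≤ t := by
  have h := q02a_gt
  have h2 : 0 < q02a := by linarith
  have e1 : t - (1 + t * (q02a - 1) / q02a) = (t - q02a) / q02a := by
    field_simp
    ring
  have : 0 ≤ (t - q02a) / q02a := div_nonneg (by linarith) h2.le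
  linarith

private theorem q02_m_le {r : ℝ} (hr : r ≤ q02a) : q02a * (r - 1) / (q02a - 1) ≤ r := by
  have h := q02a_gt
  have h2 : 0 < q02a - 1 := by linarith
  rw [div_le_iff₀ h2]
  nlinarith

private theorem q02_m_ge {r : ℝ} (hr : q02a ≤ r) : r ≤ q02a * (r - 1) / (q02a - 1) := by
  have h := q02a_gt
  have h2 : 0 < q02a - 1 := by linarith
  rw [le_div_iff₀ h2]
  nlinarith

private theorem q02_MN (t : ℝ) : q02M (q02N t) = t := by
  unfold q02M q02N
  rcases le_total t q02a with h | h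
  · rw [max_eq_left (q02_n_ge h), q02_mn, min_eq_left (q02_n_ge h)]
  · rw [max_eq_right (q02_n_le h), min_eq_right (q02_m_ge h)]

private theorem q02_NM (r : ℝ) : q02N (q02M r) = r := by
  unfold q02M q02N
  rcases le_total r q02a with h | h
  · rw [min_eq_left (q02_m_le h), q02_nm, max_eq_left (q02_m_le h)]
  · rw [min_eq_right (q02_m_ge h), max_eq_right (q02_n_le h)]

private theorem q02_M_pos {r : ℝ} (hr : 1 < r) : 0 < q02M r := by
  have h := q02a_gt
  exact lt_min (div_pos (mul_pos (by linarith) (by linarith)) (by linarith)) (by linarith)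

private theorem q02_N_gt {t : ℝ} (ht : 0 < t) : 1 < q02N t := by
  have h := q02a_gt
  have : 0 < t * (q02a - 1) / q02a := div_pos (mul_pos ht (by linarith)) (by linarith)
  exact lt_max_of_lt_left (by linarith)

private theorem q02_N_lt {t b : ℝ} (hb : q02a ≤ b) (ht : t < b) : q02N t < b := by
  have h := q02a_gt
  refine max_lt ?_ ht
  rcases lt_or_ge t q02a with h1 | h1
  · have e1 : 1 + t * (q02a - 1) / q02a < 1 + q02a * (q02a - 1) / q02a := by
      have : t * (q02a - 1) / q02a < q02a * (q02a - 1) / q02a :=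
        div_lt_div_of_pos_right (mul_lt_mul_of_pos_right h1 (by linarith)) (by linarith)
      linarith
    have e2 : 1 + q02a * (q02a - 1) / q02a = q02a := by
      have h2 : q02a ≠ 0 := by linarith
      field_simp
      ring
    linarith
  · exact lt_of_le_of_lt (q02_n_le h1) ht

private theorem q02_M_le (r : ℝ) : q02M r ≤ r := min_le_right _ _

private theorem q02_M_eq {r : ℝ} (hr : q02a ≤ r) : q02M r = r := min_eq_right (q02_m_ge hr)

private theorem q02_M_cont : Continuous q02M := by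
  unfold q02M
  fun_prop

private theorem q02_N_cont : Continuous q02N := by
  unfold q02N
  fun_prop

/-- radial map -/
private noncomputable def q02R (k : ℝ → ℝ) (z : ℂ) : ℂ := ((k ‖z‖ / ‖z‖ : ℝ) : ℂ) * z

private theorem q02R_norm {k : ℝ → ℝ} {z : ℂ} (hz : z ≠ 0) (hk : 0 ≤ k ‖z‖) :
    ‖q02R k z‖ = k ‖z‖ := by
  have hz' : ‖z‖ ≠ 0 := norm_ne_zero_iff.2 hz
  unfold q02R
  rw [norm_mul, Complex.norm_real, Real.norm_eq_abs, abs_of_nonneg (div_nonneg hk (norm_nonneg _)),
    div_mul_cancel₀ _ hz']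

private theorem q02R_comp {k m : ℝ → ℝ} {z : ℂ} (hz : z ≠ 0) (hk : 0 < k ‖z‖)
    (hm : m (k ‖z‖) = ‖z‖) : q02R m (q02R k z) = z := by
  have hz' : ‖z‖ ≠ 0 := norm_ne_zero_iff.2 hz
  have h1 : ‖q02R k z‖ = k ‖z‖ := q02R_norm hz hk.le
  have h2 : q02R m (q02R k z) = ((m ‖q02R k z‖ / ‖q02R k z‖ : ℝ) : ℂ) * q02R k z := rfl
  rw [h2, h1, hm]
  unfold q02R
  rw [← mul_assoc, ← Complex.ofReal_mul, div_mul_div_comm, mul_comm (‖z‖) (k ‖z‖),
    div_self (mul_ne_zero hk.ne' hz')]
  simp

private theorem q02R_contAt {k : ℝ → ℝ} (hk : Continuous k) {z : ℂ} (hz : z ≠ 0) :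
    ContinuousAt (q02R k) z := by
  have hz' : ‖z‖ ≠ 0 := norm_ne_zero_iff.2 hz
  have h1 : ContinuousAt (fun w : ℂ => k ‖w‖ / ‖w‖) z :=
    (hk.continuousAt.comp continuous_norm.continuousAt).div continuous_norm.continuousAt hz'
  exact (Complex.continuous_ofReal.continuousAt.comp h1).mul continuousAt_id

/-! ### the two sides -/

private noncomputable def q02I (s : Bool) (z : ℂ) : ℂ := if s then z else z⁻¹

private theorem q02_side (E : OpenPartialHomeomorph X ℂ) (s : Bool) (x : X) :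
    sideC E s x = q02I s (E x) := rfl

private theorem q02I_I (s : Bool) (z : ℂ) : q02I s (q02I s z) = z := by
  unfold q02I
  cases s <;> simp

private theorem q02I_ne (s : Bool) {z : ℂ} (hz : z ≠ 0) : q02I s z ≠ 0 := by
  unfold q02I
  cases s <;> simp [hz]

private theorem q02I_log (s : Bool) (z : ℂ) : Real.log ‖q02I s z‖ = sg s * Real.log ‖z‖ := by
  unfold q02I sg
  cases s <;> simp

private theorem q02I_cont (s : Bool) {z : ℂ} (hz : z ≠ 0) : ContinuousAt (q02I s) z := by
  cases s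
  · exact continuousAt_inv₀ hz
  · exact continuousAt_id

private theorem q02I_tgt (s : Bool) {z : ℂ} {b : ℝ}
    (hz : Real.exp (-b) < ‖z‖ ∧ ‖z‖ < Real.exp b) :
    Real.exp (-b) < ‖q02I s z‖ ∧ ‖q02I s z‖ < Real.exp b := by
  cases s
  · have h0 : 0 < ‖z‖ := (Real.exp_pos _).trans hz.1
    have e1 : ‖q02I false z‖ = ‖z‖⁻¹ := by simp [q02I]
    rw [Real.exp_neg] at hz
    rw [e1, Real.exp_neg]
    exact ⟨(inv_lt_inv₀ (Real.exp_pos _) h0).2 hz.2, by
      have := (inv_lt_inv₀ h0 (inv_pos.2 (Real.exp_pos b))).2 hz.1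
      rwa [inv_inv] at this⟩
  · exact hz

private theorem q02_ne {E : OpenPartialHomeomorph X ℂ} {L : ℝ} (hE : IsAnn S E L) {x : X}
    (hx : x ∈ E.source) : E x ≠ 0 := by
  have h := E.map_source hx
  rw [hE.2.2] at h
  exact norm_pos_iff.1 ((Real.exp_pos _).trans h.1)

/-- the collar in terms of the side coordinate -/
private theorem q02_collar {E : OpenPartialHomeomorph X ℂ} {L : ℝ} (hE : IsAnn S E L) {s : Bool}
    {ε : ℝ} {x : X} : x ∈ collar E s ε ↔ x ∈ E.source ∧ 1 < ‖sideC E s x‖ ∧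
      ‖sideC E s x‖ < Real.exp ε := by
  unfold collar
  simp only [mem_ofPred_eq]
  refine and_congr_right fun hx => ?_
  have h0 : 0 < ‖sideC E s x‖ := norm_pos_iff.2 (q02I_ne s (q02_ne hE hx))
  have h1 : Real.log ‖sideC E s x‖ = sg s * Real.log ‖E x‖ := q02I_log s _
  rw [← h1, Real.log_pos_iff h0.le, Real.log_lt_iff_lt_exp h0]

private theorem q02_side_cont {E : OpenPartialHomeomorph X ℂ} {L : ℝ} (hE : IsAnn S E L) {s : Bool}
    {x : X} (hx : x ∈ E.source) : ContinuousAt (sideC E s) x :=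
  ContinuousAt.comp (g := q02I s) (q02I_cont s (q02_ne hE hx)) (E.continuousAt hx)

private theorem q02_collar_open {E : OpenPartialHomeomorph X ℂ} {L : ℝ} (hE : IsAnn S E L)
    {s : Bool} {ε : ℝ} : IsOpen (collar E s ε) := by
  rw [isOpen_iff_mem_nhds]
  intro x hx
  have hx' := (q02_collar hE).1 hx
  have h1 := (q02_side_cont hE (s := s) hx'.1).norm
  filter_upwards [E.open_source.mem_nhds hx'.1, h1.eventually_const_lt hx'.2.1,
    h1.eventually_lt_const hx'.2.2] with y h2 h3 h4
  exact (q02_collar hE).2 ⟨h2, h3, h4⟩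

/-- points of the collar are not in the cores -/
private theorem q02_not_core (h : CapHyp S e l) {i : Fin g} {s : Bool} {ε : ℝ} {x : X}
    (hx : x ∈ collar (e i) s ε) (j : Fin g) : x ∉ core (e j) := by
  rintro ⟨hj, hj1⟩
  by_cases hij : j = i
  · subst hij
    have := hx.2.1
    rw [hj1] at this
    simp at this
  · exact Set.disjoint_left.1 (h.disj hij) hj hx.1

/-- the point of the collar with a given disc coordinate -/
private noncomputable def q02g (E : OpenPartialHomeomorph X ℂ) (s : Bool) (w : ℂ) : X :=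
  E.symm (q02I s (q02R q02N w))

private theorem q02_g {E : OpenPartialHomeomorph X ℂ} {L : ℝ} (hE : IsAnn S E L) (hL : 2 ≤ L)
    {s : Bool} {w : ℂ} (hw : w ≠ 0) (hwL : ‖w‖ < Real.exp L) :
    q02g E s w ∈ collar E s L ∧ sideC E s (q02g E s w) = q02R q02N w ∧
      q02I s (q02R q02N w) ∈ E.target := by
  have h0 : 0 < ‖w‖ := norm_pos_iff.2 hw
  have haL : q02a ≤ Real.exp L := Real.exp_le_exp.2 (by linarith)
  have h1 := q02_N_gt h0
  have h2 := q02_N_lt haL hwL
  have h3 : ‖q02R q02N w‖ = q02N ‖w‖ := q02R_norm hw (by linarith)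
  have h4 : q02I s (q02R q02N w) ∈ E.target := by
    rw [hE.2.2]
    refine q02I_tgt s ?_
    rw [h3]
    refine ⟨lt_trans ?_ h1, h2⟩
    rw [Real.exp_lt_one_iff]
    linarith
  have h5 : sideC E s (q02g E s w) = q02R q02N w := by
    rw [q02_side, q02g, E.right_inv h4, q02I_I]
  refine ⟨(q02_collar hE).2 ⟨E.map_target h4, ?_, ?_⟩, h5, h4⟩
  · rw [h5, h3]
    exact h1
  · rw [h5, h3]
    exact h2

private theorem q02_g_cont {E : OpenPartialHomeomorph X ℂ} {L : ℝ} (hE : IsAnn S E L) (hL : 2 ≤ L)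
    {s : Bool} {w : ℂ} (hw : w ≠ 0) (hwL : ‖w‖ < Real.exp L) : ContinuousAt (q02g E s) w := by
  obtain ⟨-, -, h4⟩ := q02_g hE hL (s := s) hw hwL
  have h0 : 0 < ‖w‖ := norm_pos_iff.2 hw
  have h1 := q02_N_gt h0
  have h3 : ‖q02R q02N w‖ = q02N ‖w‖ := q02R_norm hw (by linarith)
  have h5 : q02R q02N w ≠ 0 := norm_pos_iff.1 (by rw [h3]; linarith)
  have c1 : ContinuousAt (q02I s ∘ q02R q02N) w :=
    ContinuousAt.comp (q02I_cont s h5) (q02R_contAt q02_N_cont hw)
  exact ContinuousAt.comp (g := E.symm) (f := q02I s ∘ q02R q02N) (E.symm.continuousAt h4) c1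

/-! ### the chart -/

private noncomputable def q02c (e : Fin g → OpenPartialHomeomorph X ℂ) (i : Fin g) (s : Bool) :
    Capd e → ℂ
  | Capd.pt x _ => q02R q02M (sideC (e i) s x)
  | Capd.cap _ _ => 0

open Classical in
private noncomputable def q02d (h : CapHyp S e l) (i : Fin g) (s : Bool) (w : ℂ) : Capd e :=
  if hw : w ≠ 0 ∧ ‖w‖ < Real.exp (l i) then
    Capd.pt (q02g (e i) s w) (fun j => q02_not_core h (q02_g (h.ann i) (h.len i) hw.1 hw.2).1 j)
  else Capd.cap i s

private theorem q02d_zero (h : CapHyp S e l) (i : Fin g) (s : Bool) :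
    q02d h i s 0 = Capd.cap i s := by
  unfold q02d
  rw [dif_neg (by simp)]

private theorem q02d_pt (h : CapHyp S e l) (i : Fin g) (s : Bool) {w : ℂ} (hw : w ≠ 0)
    (hwL : ‖w‖ < Real.exp (l i)) : ∃ hx, q02d h i s w = Capd.pt (q02g (e i) s w) hx := by
  unfold q02d
  rw [dif_pos ⟨hw, hwL⟩]
  exact ⟨_, rfl⟩

private def q02src (e : Fin g → OpenPartialHomeomorph X ℂ) (l : Fin g → ℝ) (i : Fin g) (s : Bool) :
    Set (Capd e) :=
  {y : Capd e | y = Capd.cap i s ∨ ∃ x hx, y = Capd.pt x hx ∧ x ∈ collar (e i) s (l i)}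

private theorem q02_mem_pt {i : Fin g} {s : Bool} {x : X} {hx : ∀ i, x ∉ core (e i)} :
    (Capd.pt x hx : Capd e) ∈ q02src e l i s ↔ x ∈ collar (e i) s (l i) := by
  constructor
  · rintro (h | ⟨y, hy, h1, h2⟩)
    · cases h
    · cases h1
      exact h2
  · intro h
    exact Or.inr ⟨x, hx, rfl, h⟩

private theorem q02_mem_cap {i j : Fin g} {s t : Bool} :
    (Capd.cap j t : Capd e) ∈ q02src e l i s ↔ j = i ∧ t = s := by
  constructor
  · rintro (h | ⟨y, hy, h1, h2⟩)
    · cases h
      exact ⟨rfl, rfl⟩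
    · cases h1
  · rintro ⟨rfl, rfl⟩
    exact Or.inl rfl

private theorem q02_cR (h : CapHyp S e l) {i : Fin g} {s : Bool} {ε : ℝ} {x : X}
    (hx : x ∈ collar (e i) s ε) : sideC (e i) s x ≠ 0 ∧ 0 < q02M ‖sideC (e i) s x‖ ∧
      ‖q02R q02M (sideC (e i) s x)‖ = q02M ‖sideC (e i) s x‖ ∧
      q02R q02N (q02R q02M (sideC (e i) s x)) = sideC (e i) s x := by
  have h1 := (q02_collar (h.ann i)).1 hx
  have h2 : sideC (e i) s x ≠ 0 := norm_pos_iff.1 (by linarith [h1.2.1])
  have h3 := q02_M_pos h1.2.1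
  exact ⟨h2, h3, q02R_norm h2 h3.le, q02R_comp h2 h3 (q02_NM _)⟩

private theorem q02_toFun (h : CapHyp S e l) (i : Fin g) (s : Bool) {t : Set ℂ} (ht : IsOpen t) :
    IsOpen (q02src e l i s ∩ q02c e i s ⁻¹' t) := by
  refine ⟨?_, ?_⟩
  · have h1 : Capd.pre (q02src e l i s ∩ q02c e i s ⁻¹' t) =
        Subtype.val ⁻¹' {x | x ∈ collar (e i) s (l i) ∧ q02R q02M (sideC (e i) s x) ∈ t} := by
      ext x
      exact and_congr q02_mem_pt Iff.rfl
    rw [h1]
    refine IsOpen.preimage continuous_subtype_val ?_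
    rw [isOpen_iff_mem_nhds]
    rintro x ⟨hx, hxt⟩
    have c1 : ContinuousAt (q02R q02M ∘ sideC (e i) s) x :=
      ContinuousAt.comp (q02R_contAt q02_M_cont (q02_cR h hx).1) (q02_side_cont (h.ann i) hx.1)
    filter_upwards [(q02_collar_open (h.ann i)).mem_nhds hx,
      c1.preimage_mem_nhds (ht.mem_nhds hxt)] with y h2 h3
    exact ⟨h2, h3⟩
  · rintro j s' ⟨h1, h2⟩
    obtain ⟨rfl, rfl⟩ := q02_mem_cap.1 h1
    have h3 : (0 : ℂ) ∈ t := h2
    obtain ⟨r, hr, hrt⟩ := Metric.isOpen_iff.1 ht 0 h3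
    have h4 : ∀ᶠ y in 𝓝 (1 : ℝ), q02M y < r := by
      have : q02M 1 < r := by
        have e1 : q02M 1 = 0 := by
          unfold q02M
          rw [sub_self, mul_zero, zero_div]
          exact min_eq_left zero_le_one
        rw [e1]
        exact hr
      exact q02_M_cont.continuousAt.eventually_lt_const this
    have h5 : ∀ᶠ u in 𝓝 (0 : ℝ), q02M (Real.exp u) < r := by
      have : Filter.Tendsto Real.exp (𝓝 0) (𝓝 1) := by
        have := Real.continuous_exp.tendsto 0
        rwa [Real.exp_zero] at this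
      exact this.eventually h4
    obtain ⟨δ, hδ, hδr⟩ := Metric.eventually_nhds_iff.1 h5
    have hL := h.len j
    refine ⟨min δ 1, lt_min hδ one_pos, fun x hx hxc => ⟨?_, ?_⟩⟩
    · rw [q02_mem_pt]
      exact ⟨hxc.1, hxc.2.1, lt_of_lt_of_le hxc.2.2 ((min_le_right _ _).trans (by linarith))⟩
    · show q02R q02M (sideC (e j) s' x) ∈ t
      apply hrt
      rw [mem_ball_zero_iff, (q02_cR h hxc).2.2.1]
      have h6 := (q02_collar (h.ann j)).1 hxc
      have h7 : ‖sideC (e j) s' x‖ = Real.exp (Real.log ‖sideC (e j) s' x‖) :=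
        (Real.exp_log (by linarith [h6.2.1])).symm
      rw [h7]
      apply hδr
      rw [Real.dist_eq, sub_zero, abs_of_pos (Real.log_pos h6.2.1), q02_side, q02I_log]
      exact lt_of_lt_of_le hxc.2.2 (min_le_left _ _)

private theorem q02_invFun (h : CapHyp S e l) (i : Fin g) (s : Bool) :
    ContinuousOn (q02d h i s) (Metric.ball 0 (Real.exp (l i))) := by
  rw [continuousOn_open_iff Metric.isOpen_ball]
  intro U hU
  rw [isOpen_iff_mem_nhds]
  rintro w ⟨hw, hwU⟩
  have hw' : ‖w‖ < Real.exp (l i) := mem_ball_zero_iff.1 hw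
  have hb : ∀ᶠ z in 𝓝 w, ‖z‖ < Real.exp (l i) :=
    continuous_norm.continuousAt.eventually_lt_const hw'
  by_cases hw0 : w = 0
  · subst hw0
    have hcU : (Capd.cap i s : Capd e) ∈ U := by
      have : q02d h i s 0 ∈ U := hwU
      rwa [q02d_zero] at this
    obtain ⟨ε, hε, hεU⟩ := hU.2 i s hcU
    have h1 : ∀ᶠ z : ℂ in 𝓝 0, q02N ‖z‖ < Real.exp ε := by
      have h2 : q02N ‖(0 : ℂ)‖ < Real.exp ε := by
        rw [norm_zero]
        have e1 : q02N 0 = 1 := by
          unfold q02N
          rw [zero_mul, zero_div, add_zero]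
          exact max_eq_left zero_le_one
        rw [e1]
        exact Real.one_lt_exp_iff.2 hε
      exact (q02_N_cont.comp continuous_norm).continuousAt.eventually_lt_const h2
    filter_upwards [h1, hb] with z h2 h3
    refine ⟨mem_ball_zero_iff.2 h3, ?_⟩
    show q02d h i s z ∈ U
    by_cases hz : z = 0
    · rw [hz, q02d_zero]
      exact hcU
    · obtain ⟨hx, hx'⟩ := q02d_pt h i s hz h3
      rw [hx']
      apply hεU
      obtain ⟨h4, h5, -⟩ := q02_g (h.ann i) (h.len i) (s := s) hz h3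
      have h6 := (q02_collar (h.ann i)).1 h4
      refine (q02_collar (h.ann i)).2 ⟨h6.1, h6.2.1, ?_⟩
      have h7 := q02_N_gt (norm_pos_iff.2 hz)
      rw [h5, q02R_norm hz (by linarith)]
      exact h2
  · obtain ⟨hx, hx'⟩ := q02d_pt h i s hw0 hw'
    have h1 : Capd.pt (q02g (e i) s w) hx ∈ U := by
      rw [← hx']
      exact hwU
    obtain ⟨V, hV, hVU⟩ := isOpen_induced_iff.1 hU.1
    have h2 : ∀ (x : X) (hx : ∀ i, x ∉ core (e i)), (Capd.pt x hx : Capd e) ∈ U ↔ x ∈ V := by
      intro x hx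
      have := Set.ext_iff.1 hVU ⟨x, hx⟩
      exact this.symm
    have h3 : q02g (e i) s w ∈ V := (h2 _ _).1 h1
    have h4 := (q02_g_cont (h.ann i) (h.len i) (s := s) hw0 hw').preimage_mem_nhds
      (hV.mem_nhds h3)
    filter_upwards [h4, hb, isOpen_ne.mem_nhds hw0] with z h5 h6 h7
    refine ⟨mem_ball_zero_iff.2 h6, ?_⟩
    show q02d h i s z ∈ U
    obtain ⟨hy, hy'⟩ := q02d_pt h i s h7 h6
    rw [hy']
    exact (h2 _ _).2 h5

/-- `c (pt x) = η (sideC x)` with `η ζ = ζ` for `|ζ| ≥ √e` and `η ζ = ζ / |ζ| * m (|ζ|)`, `m` an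
increasing affine function of `|ζ|`, `m 1 = 0`, for `1 < |ζ| < √e` -/
theorem exists_capChart (h : CapHyp S e l) (i : Fin g) (s : Bool) :
    ∃ c : OpenPartialHomeomorph (Capd e) ℂ, IsCapChart e l i s c := by
  have hL := h.len i
  have haL : q02a ≤ Real.exp (l i) := Real.exp_le_exp.2 (by linarith)
  have hsrc : IsOpen (q02src e l i s) := by
    have := q02_toFun h i s isOpen_univ
    rwa [preimage_univ, inter_univ] at this
  let c : OpenPartialHomeomorph (Capd e) ℂ :=
    { toFun := q02c e i s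
      invFun := q02d h i s
      source := q02src e l i s
      target := Metric.ball 0 (Real.exp (l i))
      map_source' := by
        rintro (⟨x, hx⟩ | ⟨j, t⟩) hy
        · have h1 := q02_mem_pt.1 hy
          have h2 := (q02_collar (h.ann i)).1 h1
          rw [mem_ball_zero_iff]
          show ‖q02R q02M (sideC (e i) s x)‖ < _
          rw [(q02_cR h h1).2.2.1]
          exact lt_of_le_of_lt (q02_M_le _) h2.2.2
        · rw [mem_ball_zero_iff]
          show ‖(0 : ℂ)‖ < _
          rw [norm_zero]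
          exact Real.exp_pos _
      map_target' := by
        intro w hw
        have hw' : ‖w‖ < Real.exp (l i) := mem_ball_zero_iff.1 hw
        by_cases hw0 : w = 0
        · rw [hw0, q02d_zero]
          exact Or.inl rfl
        · obtain ⟨hx, hx'⟩ := q02d_pt h i s hw0 hw'
          rw [hx', q02_mem_pt]
          exact (q02_g (h.ann i) (h.len i) hw0 hw').1
      left_inv' := by
        rintro (⟨x, hx⟩ | ⟨j, t⟩) hy
        · have h1 := q02_mem_pt.1 hy
          have h2 := (q02_collar (h.ann i)).1 h1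
          obtain ⟨h3, h4, h5, h6⟩ := q02_cR h h1
          have h7 : q02R q02M (sideC (e i) s x) ≠ 0 := norm_pos_iff.1 (by rw [h5]; exact h4)
          have h8 : ‖q02R q02M (sideC (e i) s x)‖ < Real.exp (l i) := by
            rw [h5]
            exact lt_of_le_of_lt (q02_M_le _) h2.2.2
          obtain ⟨hz, hz'⟩ := q02d_pt h i s h7 h8
          show q02d h i s (q02R q02M (sideC (e i) s x)) = _
          rw [hz']
          have h9 : q02g (e i) s (q02R q02M (sideC (e i) s x)) = x := by
            unfold q02g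
            rw [h6, q02_side, q02I_I, (e i).left_inv h1.1]
          congr 1
        · obtain ⟨rfl, rfl⟩ := q02_mem_cap.1 hy
          exact q02d_zero h j t
      right_inv' := by
        intro w hw
        have hw' : ‖w‖ < Real.exp (l i) := mem_ball_zero_iff.1 hw
        by_cases hw0 : w = 0
        · rw [hw0, q02d_zero]
          rfl
        · obtain ⟨hx, hx'⟩ := q02d_pt h i s hw0 hw'
          rw [hx']
          show q02R q02M (sideC (e i) s (q02g (e i) s w)) = w
          rw [(q02_g (h.ann i) (h.len i) hw0 hw').2.1]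
          exact q02R_comp hw0 (by linarith [q02_N_gt (norm_pos_iff.2 hw0)]) (q02_MN _)
      open_source := hsrc
      open_target := Metric.isOpen_ball
      continuousOn_toFun := by
        rw [continuousOn_open_iff hsrc]
        intro t ht
        exact q02_toFun h i s ht
      continuousOn_invFun := q02_invFun h i s }
  refine ⟨c, rfl, rfl, rfl, ?_, ?_⟩
  · intro x hx hxc hx2
    show q02R q02M (sideC (e i) s x) = sideC (e i) s x
    have h1 := (q02_collar (h.ann i)).1 hxc
    have h2 : q02a ≤ ‖sideC (e i) s x‖ := by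
      rw [q02a, ← Real.le_log_iff_exp_le (by linarith [h1.2.1]), q02_side, q02I_log]
      exact hx2
    unfold q02R
    rw [q02_M_eq h2, div_self (by linarith [h1.2.1])]
    simp
  · intro x hx hxc
    show ‖q02R q02M (sideC (e i) s x)‖ < _
    rw [(q02_cR h hxc).2.2.1]
    exact lt_of_le_of_lt (q02_M_le _) ((q02_collar (h.ann i)).1 hxc).2.2

end Pool.Agent.Lib.MP_cca10c_ag
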