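import Pool.Agent.Lib.MP_cca10c_ag.Q02_Chart
import Pool.Agent.Lib.MP_cca10c_ag.H01_Charts

/-!
# Module Q: the complex structure of the capped surface
-/

set_option autoImplicit false

open Topology Set

namespace Pool.Agent.Lib.MP_cca10c_ag

/-! ### compatibility of charts, pointwise -/

private theorem Q03_diff {Y : Type} [TopologicalSpace Y] {c c' : OpenPartialHomeomorph Y ℂ} {p : Y}
    (hp : p ∈ c.source) {F : ℂ → ℂ} (h : ∀ᶠ q in 𝓝 p, c' q = F (c q))
    (hF : DifferentiableAt ℂ F (c p)) : DifferentiableAt ℂ (c' ∘ c.symm) (c p) := by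
  refine hF.congr_of_eventuallyEq ?_
  have h1 : Filter.Tendsto c.symm (𝓝 (c p)) (𝓝 p) := c.tendsto_symm hp
  filter_upwards [h1.eventually h, c.open_target.mem_nhds (c.map_source hp)] with z h2 h3
  rw [Function.comp_apply, h2, c.right_inv h3]

private theorem Q03_compat {Y : Type} [TopologicalSpace Y] {c c' : OpenPartialHomeomorph Y ℂ}
    (h : ∀ p ∈ c.source, p ∈ c'.source → DifferentiableAt ℂ (c' ∘ c.symm) (c p) ∧
      DifferentiableAt ℂ (c ∘ c'.symm) (c' p)) : Compat c c' := by
  constructor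
  · rintro _ ⟨p, hp, rfl⟩
    exact (h p hp.1 hp.2).1.differentiableWithinAt
  · rintro _ ⟨p, hp, rfl⟩
    exact (h p hp.1 hp.2).2.differentiableWithinAt

private theorem Q03_of_compat {Y : Type} [TopologicalSpace Y] {c c' : OpenPartialHomeomorph Y ℂ}
    (h : Compat c c') {p : Y} (hp : p ∈ c.source) (hp' : p ∈ c'.source) :
    DifferentiableAt ℂ (c' ∘ c.symm) (c p) ∧ DifferentiableAt ℂ (c ∘ c'.symm) (c' p) := by
  constructor
  · exact (h.1 (c p) ⟨p, ⟨hp, hp'⟩, rfl⟩).differentiableAt
      ((c.isOpen_image_of_subset_source (c.open_source.inter c'.open_source)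
        inter_subset_left).mem_nhds ⟨p, ⟨hp, hp'⟩, rfl⟩)
  · exact (h.2 (c' p) ⟨p, ⟨hp, hp'⟩, rfl⟩).differentiableAt
      ((c'.isOpen_image_of_subset_source (c.open_source.inter c'.open_source)
        inter_subset_right).mem_nhds ⟨p, ⟨hp, hp'⟩, rfl⟩)

private theorem Q03_symm {Y : Type} [TopologicalSpace Y] {c c' : OpenPartialHomeomorph Y ℂ}
    (h : Compat c c') : Compat c' c :=
  Q03_compat fun _ hp hp' => (Q03_of_compat h hp' hp).symm

private theorem Q03_trans {Y : Type} [TopologicalSpace Y] {c c' b : OpenPartialHomeomorph Y ℂ}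
    (h : Compat c b) (h' : Compat c' b) {p : Y} (hp : p ∈ c.source) (hp' : p ∈ c'.source)
    (hb : p ∈ b.source) : DifferentiableAt ℂ (c' ∘ c.symm) (c p) := by
  have h1 := (Q03_of_compat h hp hb).1
  have h2 := (Q03_of_compat h' hp' hb).2
  refine Q03_diff hp (F := (c' ∘ b.symm) ∘ (b ∘ c.symm)) ?_ ?_
  · filter_upwards [c.open_source.mem_nhds hp, b.open_source.mem_nhds hb] with q h3 h4
    simp only [Function.comp_apply]
    rw [c.left_inv h3, b.left_inv h4]
  · refine DifferentiableAt.comp (c p) ?_ h1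
    rw [Function.comp_apply, c.left_inv hp]
    exact h2

/-- the complex structure generated by an atlas -/
theorem exists_CS_of_atlas {Y : Type} [TopologicalSpace Y] (A : Set (OpenPartialHomeomorph Y ℂ))
    (hcov : ∀ y, ∃ c ∈ A, y ∈ c.source) (hcomp : ∀ c ∈ A, ∀ c' ∈ A, Compat c c') :
    ∃ T : CS Y, A ⊆ T.charts := by
  refine ⟨{ charts := {c | ∀ c' ∈ A, Compat c c'}, cover := ?_, compat := ?_, max := ?_ }, ?_⟩
  · intro y
    obtain ⟨c, hc, hy⟩ := hcov y
    exact ⟨c, fun c' hc' => hcomp c hc c' hc', hy⟩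
  · intro c hc c' hc'
    refine Q03_compat fun p hp hp' => ?_
    obtain ⟨b, hb, hpb⟩ := hcov p
    exact ⟨Q03_trans (hc b hb) (hc' b hb) hp hp' hpb, Q03_trans (hc' b hb) (hc b hb) hp' hp hpb⟩
  · intro c hc c' hc'
    exact hc c' fun c'' hc'' => hcomp c' hc' c'' hc''
  · intro c hc c' hc'
    exact hcomp c hc c' hc'

variable {X : Type} {g : ℕ} [TopologicalSpace X] [CompactSpace X] [T2Space X] {S : CS X}
variable {e : Fin g → OpenPartialHomeomorph X ℂ} {l : Fin g → ℝ}

/-- the function of a lifted chart -/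
private noncomputable def Q03f (e : Fin g → OpenPartialHomeomorph X ℂ)
    (e' : OpenPartialHomeomorph X ℂ) : Capd e → ℂ
  | Capd.pt x _ => e' x
  | Capd.cap _ _ => 0

open Classical in
private noncomputable def Q03g (e : Fin g → OpenPartialHomeomorph X ℂ)
    (e' : OpenPartialHomeomorph X ℂ) (z : ℂ) : Capd e :=
  if h : ∀ i, e'.symm z ∉ core (e i) then Capd.pt (e'.symm z) h
  else Capd.cap (Classical.choose (not_forall.1 h)) true

private def Q03src (e : Fin g → OpenPartialHomeomorph X ℂ) (e' : OpenPartialHomeomorph X ℂ) :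
    Set (Capd e) := {y : Capd e | ∃ x hx, y = Capd.pt x hx ∧ x ∈ e'.source}

private theorem Q03_mem_pt {e' : OpenPartialHomeomorph X ℂ} {x : X} {hx : ∀ i, x ∉ core (e i)} :
    (Capd.pt x hx : Capd e) ∈ Q03src e e' ↔ x ∈ e'.source := by
  constructor
  · rintro ⟨y, hy, h1, h2⟩
    cases h1
    exact h2
  · intro h
    exact ⟨x, hx, rfl, h⟩

private theorem Q03_mem_cap {e' : OpenPartialHomeomorph X ℂ} {i : Fin g} {s : Bool} :
    (Capd.cap i s : Capd e) ∉ Q03src e e' := by
  rintro ⟨y, hy, h1, h2⟩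
  cases h1

/-- a chart of `X` away from the cores as a chart of the capped surface -/
theorem exists_lift_chart (h : CapHyp S e l) (e' : OpenPartialHomeomorph X ℂ)
    (hd : ∀ i, Disjoint e'.source (core (e i))) : ∃ c : OpenPartialHomeomorph (Capd e) ℂ,
      c.target = e'.target ∧ (∀ x hx, Capd.pt x hx ∈ c.source ↔ x ∈ e'.source) ∧
      (∀ i s, (Capd.cap i s : Capd e) ∉ c.source) ∧ ∀ x hx, x ∈ e'.source → c (Capd.pt x hx) = e' x := by
  have hcore : ∀ z ∈ e'.target, ∀ i, e'.symm z ∉ core (e i) := fun z hz i hi =>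
    Set.disjoint_left.1 (hd i) (e'.map_target hz) hi
  have hg : ∀ z (hz : z ∈ e'.target), Q03g e e' z = Capd.pt (e'.symm z) (hcore z hz) := by
    intro z hz
    unfold Q03g
    rw [dif_pos (hcore z hz)]
  have hopen : ∀ t : Set ℂ, IsOpen t → IsOpen (Q03src e e' ∩ Q03f e e' ⁻¹' t) := by
    intro t ht
    refine ⟨?_, ?_⟩
    · have h1 : Capd.pre (Q03src e e' ∩ Q03f e e' ⁻¹' t) =
          Subtype.val ⁻¹' (e'.source ∩ e' ⁻¹' t) := by
        ext x
        exact and_congr Q03_mem_pt Iff.rfl
      rw [h1]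
      exact (e'.isOpen_inter_preimage ht).preimage continuous_subtype_val
    · rintro i s ⟨h1, -⟩
      exact absurd h1 Q03_mem_cap
  have hsrc : IsOpen (Q03src e e') := by
    have := hopen univ isOpen_univ
    rwa [preimage_univ, inter_univ] at this
  let c : OpenPartialHomeomorph (Capd e) ℂ :=
    { toFun := Q03f e e'
      invFun := Q03g e e'
      source := Q03src e e'
      target := e'.target
      map_source' := by
        rintro _ ⟨x, hx, rfl, hxs⟩
        exact e'.map_source hxs
      map_target' := by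
        intro z hz
        rw [hg z hz, Q03_mem_pt]
        exact e'.map_target hz
      left_inv' := by
        rintro _ ⟨x, hx, rfl, hxs⟩
        show Q03g e e' (e' x) = _
        rw [hg _ (e'.map_source hxs)]
        congr 1
        exact e'.left_inv hxs
      right_inv' := by
        intro z hz
        rw [hg z hz]
        exact e'.right_inv hz
      open_source := hsrc
      open_target := e'.open_target
      continuousOn_toFun := by
        rw [continuousOn_open_iff hsrc]
        exact hopen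
      continuousOn_invFun := by
        rw [continuousOn_open_iff e'.open_target]
        intro U hU
        obtain ⟨V, hV, hVU⟩ := isOpen_induced_iff.1 hU.1
        have h2 : ∀ (x : X) (hx : ∀ i, x ∉ core (e i)), (Capd.pt x hx : Capd e) ∈ U ↔ x ∈ V := by
          intro x hx
          have := Set.ext_iff.1 hVU ⟨x, hx⟩
          exact this.symm
        have h3 : e'.target ∩ Q03g e e' ⁻¹' U = e'.target ∩ e'.symm ⁻¹' V := by
          ext z
          constructor
          · rintro ⟨hz, hzU⟩
            refine ⟨hz, ?_⟩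
            rw [mem_preimage, hg z hz, h2] at hzU
            exact hzU
          · rintro ⟨hz, hzV⟩
            refine ⟨hz, ?_⟩
            rw [mem_preimage, hg z hz, h2]
            exact hzV
        rw [h3]
        exact e'.symm.isOpen_inter_preimage hV }
  exact ⟨c, rfl, fun x hx => Q03_mem_pt, fun i s => Q03_mem_cap, fun x hx _ => rfl⟩

/-- the complex structure of the capped surface -/
structure IsCapCS (S : CS X) (e : Fin g → OpenPartialHomeomorph X ℂ) (l : Fin g → ℝ)
    (T : CS (Capd e)) : Prop where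
  cap : ∀ i s, ∃ c ∈ T.charts, IsCapChart e l i s c
  lift : ∀ e' ∈ S.charts, (∀ i, Disjoint e'.source (midA (e i) (1 / 2))) →
    ∃ c ∈ T.charts, c.target = e'.target ∧ (∀ x hx, Capd.pt x hx ∈ c.source ↔ x ∈ e'.source) ∧
      (∀ i s, (Capd.cap i s : Capd e) ∉ c.source) ∧ ∀ x hx, x ∈ e'.source → c (Capd.pt x hx) = e' x

/-- `c` is the lift of `e'` -/
private structure Q03Lift (e : Fin g → OpenPartialHomeomorph X ℂ) (e' : OpenPartialHomeomorph X ℂ)
    (c : OpenPartialHomeomorph (Capd e) ℂ) : Prop where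
  tgt : c.target = e'.target
  src : ∀ x hx, Capd.pt x hx ∈ c.source ↔ x ∈ e'.source
  cap : ∀ i s, (Capd.cap i s : Capd e) ∉ c.source
  eq : ∀ x hx, x ∈ e'.source → c (Capd.pt x hx) = e' x

private theorem Q03_lift_lift {e' e'' : OpenPartialHomeomorph X ℂ}
    {c c' : OpenPartialHomeomorph (Capd e) ℂ} (he' : e' ∈ S.charts) (he'' : e'' ∈ S.charts)
    (hc : Q03Lift e e' c) (hc' : Q03Lift e e'' c') {p : Capd e} (hp : p ∈ c.source)
    (hp' : p ∈ c'.source) : DifferentiableAt ℂ (c' ∘ c.symm) (c p) := by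
  refine Q03_diff hp (F := e'' ∘ e'.symm) ?_ ?_
  · filter_upwards [c.open_source.mem_nhds hp, c'.open_source.mem_nhds hp'] with q h1 h2
    rcases q with ⟨y, hy⟩ | ⟨i, s⟩
    · have h3 := (hc.src y hy).1 h1
      have h4 := (hc'.src y hy).1 h2
      rw [hc.eq y hy h3, hc'.eq y hy h4, Function.comp_apply, e'.left_inv h3]
    · exact absurd h1 (hc.cap i s)
  · rcases p with ⟨y, hy⟩ | ⟨i, s⟩
    · have h3 := (hc.src y hy).1 hp
      have h4 := (hc'.src y hy).1 hp'
      rw [hc.eq y hy h3]
      exact CS.trans_differentiableAt he' he'' h3 h4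
    · exact absurd hp (hc.cap i s)

private theorem Q03_cap_mem {i : Fin g} {s : Bool} {c : OpenPartialHomeomorph (Capd e) ℂ}
    (hc : IsCapChart e l i s c) {x : X} {hx : ∀ i, x ∉ core (e i)} :
    (Capd.pt x hx : Capd e) ∈ c.source ↔ x ∈ collar (e i) s (l i) := by
  rw [hc.src]
  constructor
  · rintro (h | ⟨y, hy, h1, h2⟩)
    · cases h
    · cases h1
      exact h2
  · intro h
    exact Or.inr ⟨x, hx, rfl, h⟩

private theorem Q03_cap_lift (h : CapHyp S e l) {i : Fin g} {s : Bool}
    {e' : OpenPartialHomeomorph X ℂ} {c c' : OpenPartialHomeomorph (Capd e) ℂ}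
    (hc : IsCapChart e l i s c) (he' : e' ∈ S.charts)
    (hd : ∀ i, Disjoint e'.source (midA (e i) (1 / 2))) (hc' : Q03Lift e e' c')
    {p : Capd e} (hp : p ∈ c.source) (hp' : p ∈ c'.source) :
    DifferentiableAt ℂ (c' ∘ c.symm) (c p) ∧ DifferentiableAt ℂ (c ∘ c'.symm) (c' p) := by
  have key : ∀ y hy, (Capd.pt y hy : Capd e) ∈ c.source → (Capd.pt y hy : Capd e) ∈ c'.source →
      y ∈ (e i).source ∧ y ∈ e'.source ∧ c (Capd.pt y hy) = sideC (e i) s y ∧
        c' (Capd.pt y hy) = e' y := by
    intro y hy h1 h2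
    have h3 := (Q03_cap_mem hc).1 h1
    have h4 := (hc'.src y hy).1 h2
    refine ⟨h3.1, h4, ?_, hc'.eq y hy h4⟩
    apply hc.eq y hy h3
    by_contra hcon
    push Not at hcon
    apply Set.disjoint_left.1 (hd i) h4
    refine ⟨h3.1, ?_⟩
    have h5 : |sg s * Real.log ‖e i y‖| = |Real.log ‖e i y‖| := by
      rw [abs_mul]
      cases s <;> simp [sg]
    rw [← h5, abs_of_pos h3.2.1]
    exact hcon.le
  have hne : ∀ y ∈ (e i).source, e i y ≠ 0 := by
    intro y hy
    have h1 := (e i).map_source hy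
    rw [(h.ann i).2.2] at h1
    exact norm_pos_iff.1 ((Real.exp_pos _).trans h1.1)
  rcases p with ⟨x, hx⟩ | ⟨j, t⟩
  swap
  · exact absurd hp' (hc'.cap j t)
  obtain ⟨h1, h2, h3, h4⟩ := key x hx hp hp'
  constructor
  · -- from the cap chart to the lift
    refine Q03_diff hp (F := fun w => (e' ∘ (e i).symm) (if s then w else w⁻¹)) ?_ ?_
    · filter_upwards [c.open_source.mem_nhds hp, c'.open_source.mem_nhds hp'] with q h5 h6
      rcases q with ⟨y, hy⟩ | ⟨j, t⟩
      · obtain ⟨h7, h8, h9, h10⟩ := key y hy h5 h6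
        rw [h9, h10]
        unfold sideC
        cases s
        · simp only [Bool.false_eq_true, if_false, inv_inv, Function.comp_apply]
          rw [(e i).left_inv h7]
        · simp only [if_true, Function.comp_apply]
          rw [(e i).left_inv h7]
      · exact absurd h6 (hc'.cap j t)
    · rw [h3]
      have h5 : DifferentiableAt ℂ (e' ∘ (e i).symm) (e i x) :=
        CS.trans_differentiableAt (h.ann i).1 he' h1 h2
      unfold sideC
      cases s
      · simp only [Bool.false_eq_true, if_false]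
        refine DifferentiableAt.comp (g := e' ∘ (e i).symm) (f := fun w : ℂ => w⁻¹) _ ?_ ?_
        · rw [inv_inv]
          exact h5
        · exact differentiableAt_inv (inv_ne_zero (hne x h1))
      · simp only [if_true]
        exact h5
  · refine Q03_diff hp' (F := fun z => if s then (e i ∘ e'.symm) z else ((e i ∘ e'.symm) z)⁻¹) ?_ ?_
    · filter_upwards [c.open_source.mem_nhds hp, c'.open_source.mem_nhds hp'] with q h5 h6
      rcases q with ⟨y, hy⟩ | ⟨j, t⟩
      · obtain ⟨h7, h8, h9, h10⟩ := key y hy h5 h6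
        rw [h9, h10]
        simp only [Function.comp_apply]
        rw [e'.left_inv h8]
        rfl
      · exact absurd h6 (hc'.cap j t)
    · rw [h4]
      have h5 : DifferentiableAt ℂ (e i ∘ e'.symm) (e' x) :=
        CS.trans_differentiableAt he' (h.ann i).1 h2 h1
      cases s
      · simp only [Bool.false_eq_true, if_false]
        refine h5.inv ?_
        rw [Function.comp_apply, e'.left_inv h2]
        exact hne x h1
      · simp only [if_true]
        exact h5

private theorem Q03_cap_cap (h : CapHyp S e l) {i j : Fin g} {s t : Bool}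
    {c c' : OpenPartialHomeomorph (Capd e) ℂ} (hc : IsCapChart e l i s c)
    (hc' : IsCapChart e l j t c') {p : Capd e} (hp : p ∈ c.source) (hp' : p ∈ c'.source) :
    i = j ∧ s = t := by
  rcases p with ⟨x, hx⟩ | ⟨k, r⟩
  · have h1 := (Q03_cap_mem hc).1 hp
    have h2 := (Q03_cap_mem hc').1 hp'
    have hij : i = j := by
      by_contra hne
      exact Set.disjoint_left.1 (h.disj hne) h1.1 h2.1
    subst hij
    refine ⟨rfl, ?_⟩
    have h3 := h1.2.1
    have h4 := h2.2.1
    by_contra hne
    cases s <;> cases t <;> simp [sg] at h3 h4 hne <;> linarith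
  · have h1 := hp
    have h2 := hp'
    rw [hc.src] at h1
    rw [hc'.src] at h2
    have h3 : k = i ∧ r = s := by
      rcases h1 with h1 | ⟨y, hy, h1, -⟩
      · cases h1
        exact ⟨rfl, rfl⟩
      · cases h1
    have h4 : k = j ∧ r = t := by
      rcases h2 with h2 | ⟨y, hy, h2, -⟩
      · cases h2
        exact ⟨rfl, rfl⟩
      · cases h2
    exact ⟨h3.1.symm.trans h4.1, h3.2.symm.trans h4.2⟩

theorem exists_capCS (h : CapHyp S e l) : ∃ T : CS (Capd e), IsCapCS S e l T := by
  classical
  choose C hC using fun i s => exists_capChart h i s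
  set A : Set (OpenPartialHomeomorph (Capd e) ℂ) :=
    {c | (∃ i s, c = C i s) ∨ ∃ e' ∈ S.charts, (∀ i, Disjoint e'.source (midA (e i) (1 / 2))) ∧
      Q03Lift e e' c} with hA
  have hself : ∀ c : OpenPartialHomeomorph (Capd e) ℂ, Compat c c := by
    intro c
    have h1 : ∀ p ∈ c.source, DifferentiableAt ℂ (c ∘ c.symm) (c p) := fun p hp =>
      Q03_diff hp (F := id) (Filter.Eventually.of_forall fun q => rfl) differentiableAt_id
    exact Q03_compat fun p hp _ => ⟨h1 p hp, h1 p hp⟩
  have hcov : ∀ y : Capd e, ∃ c ∈ A, y ∈ c.source := by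
    rintro (⟨x, hx⟩ | ⟨i, s⟩)
    · by_cases hm : ∃ i, x ∈ midA (e i) (1 / 2)
      · obtain ⟨i, hxi⟩ := hm
        have hlen := h.len i
        have hp : 0 < ‖e i x‖ := by
          have h1 := (e i).map_source hxi.1
          rw [(h.ann i).2.2] at h1
          exact (Real.exp_pos _).trans h1.1
        have h0 : Real.log ‖e i x‖ ≠ 0 := by
          intro h1
          apply hx i
          refine ⟨hxi.1, ?_⟩
          rcases Real.log_eq_zero.1 h1 with h2 | h2 | h2
          · exact absurd h2 hp.ne'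
          · exact h2
          · linarith
        have h3 : ∃ s, x ∈ collar (e i) s (l i) := by
          have h4 := hxi.2
          rcases lt_or_gt_of_ne h0 with h2 | h2
          · refine ⟨false, hxi.1, ?_, ?_⟩
            · simp only [sg, Bool.false_eq_true, if_false]; linarith
            · rw [abs_of_neg h2] at h4
              simp only [sg, Bool.false_eq_true, if_false]; linarith
          · refine ⟨true, hxi.1, ?_, ?_⟩
            · simp only [sg, if_true]; linarith
            · rw [abs_of_pos h2] at h4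
              simp only [sg, if_true]; linarith
        obtain ⟨s, hs⟩ := h3
        exact ⟨C i s, Or.inl ⟨i, s, rfl⟩, (Q03_cap_mem (hC i s)).2 hs⟩
      · push Not at hm
        obtain ⟨e', he', hxe'⟩ := S.cover x
        have hUo : IsOpen (⋂ i, (midA (e i) (1 / 2))ᶜ) := by
          refine isOpen_iInter_of_finite fun i => ?_
          have hlen := h.len i
          exact (midA_compact (h.ann i) (by linarith)).isClosed.isOpen_compl
        have hs : (e'.restr (⋂ i, (midA (e i) (1 / 2))ᶜ)).source = e'.source ∩ ⋂ i, (midA (e i) (1 / 2))ᶜ := by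
          rw [e'.restr_source, hUo.interior_eq]
        have hd : ∀ i, Disjoint (e'.restr (⋂ i, (midA (e i) (1 / 2))ᶜ)).source (midA (e i) (1 / 2)) := by
          intro i
          rw [hs, Set.disjoint_left]
          intro y hy
          exact mem_iInter.1 hy.2 i
        have hd' : ∀ i, Disjoint (e'.restr (⋂ i, (midA (e i) (1 / 2))ᶜ)).source (core (e i)) := by
          intro i
          refine (hd i).mono_right ?_
          rintro y ⟨hy, hy1⟩
          refine ⟨hy, ?_⟩
          rw [hy1, Real.log_one, abs_zero]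
          norm_num
        obtain ⟨c, h1, h2, h3, h4⟩ := exists_lift_chart h _ hd'
        refine ⟨c, Or.inr ⟨_, CS.restr_mem he' hUo, hd, ⟨h1, h2, h3, h4⟩⟩, ?_⟩
        rw [h2, hs]
        exact ⟨hxe', mem_iInter.2 fun i => hm i⟩
    · refine ⟨C i s, Or.inl ⟨i, s, rfl⟩, ?_⟩
      rw [(hC i s).src]
      exact Or.inl rfl
  have hcomp : ∀ c ∈ A, ∀ c' ∈ A, Compat c c' := by
    rintro c (⟨i, s, rfl⟩ | ⟨e', he', hd', hl'⟩) c' (⟨j, t, rfl⟩ | ⟨e'', he'', hd'', hl''⟩)
    · by_cases hij : i = j ∧ s = t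
      · obtain ⟨rfl, rfl⟩ := hij
        exact hself _
      · exact Q03_compat fun p hp hp' => absurd (Q03_cap_cap h (hC i s) (hC j t) hp hp') hij
    · exact Q03_compat fun p hp hp' => Q03_cap_lift h (hC i s) he'' hd'' hl'' hp hp'
    · exact Q03_symm (Q03_compat fun p hp hp' => Q03_cap_lift h (hC j t) he' hd' hl' hp hp')
    · exact Q03_compat fun p hp hp' =>
        ⟨Q03_lift_lift he' he'' hl' hl'' hp hp', Q03_lift_lift he'' he' hl'' hl' hp' hp⟩
  obtain ⟨T, hT⟩ := exists_CS_of_atlas A hcov hcomp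
  refine ⟨T, ⟨fun i s => ⟨C i s, hT (Or.inl ⟨i, s, rfl⟩), hC i s⟩, fun e' he' hd => ?_⟩⟩
  have hd' : ∀ i, Disjoint e'.source (core (e i)) := by
    intro i
    refine (hd i).mono_right ?_
    rintro y ⟨hy, hy1⟩
    refine ⟨hy, ?_⟩
    rw [hy1, Real.log_one, abs_zero]
    norm_num
  obtain ⟨c, h1, h2, h3, h4⟩ := exists_lift_chart h e' hd'
  exact ⟨c, hT (Or.inr ⟨e', he', hd, ⟨h1, h2, h3, h4⟩⟩), h1, h2, h3, h4⟩

end Pool.Agent.Lib.MP_cca10c_ag
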