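import Mathlib

/-!
# Module Q: circle maps on a disc lift
-/

set_option autoImplicit false

open Topology Set

namespace Pool.Agent.Lib.MP_cca10c_ag

/-- a circle map on a disc lifts -/
theorem disc_lift {R : ℝ} (hR : 0 < R) {W : ℂ → UnitAddCircle}
    (hW : ContinuousOn W (Metric.ball 0 R)) : ∃ f : ℂ → ℝ, ContinuousOn f (Metric.ball 0 R) ∧
      ∀ z ∈ Metric.ball (0 : ℂ) R, W z = ((f z : ℝ) : UnitAddCircle) := by
  set e := OpenPartialHomeomorph.univBall (0 : ℂ) R with he
  have hsrc : e.source = univ := OpenPartialHomeomorph.univBall_source _ _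
  have htgt : e.target = Metric.ball 0 R := OpenPartialHomeomorph.univBall_target _ hR
  have hec : Continuous e := by
    rw [← continuousOn_univ, ← hsrc]
    exact e.continuousOn
  have hmem : ∀ z, e z ∈ Metric.ball (0 : ℂ) R := fun z => by
    rw [← htgt]
    exact e.map_source (by rw [hsrc]; trivial)
  have hcont : Continuous fun z => W (e z) := hW.comp_continuous hec hmem
  obtain ⟨t, ht⟩ := QuotientAddGroup.mk_surjective (W (e 0))
  obtain ⟨F, hF, -⟩ := (AddCircle.isCoveringMap_coe (1 : ℝ)).existsUnique_continuousMap_lifts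
    ⟨fun z => W (e z), hcont⟩ 0 t ht
  refine ⟨fun z => F (e.symm z), ?_, fun z hz => ?_⟩
  · rw [← htgt]
    exact F.continuous.comp_continuousOn e.symm.continuousOn
  · have h1 := congrFun hF.2 (e.symm z)
    simp only [Function.comp_apply, ContinuousMap.coe_mk] at h1
    rw [e.right_inv (by rw [htgt]; exact hz)] at h1
    exact h1.symm

end Pool.Agent.Lib.MP_cca10c_ag
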