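import Pool.Agent.Lib.MP_cca10c_ag.T08_Class
import Pool.Agent.Lib.MP_cca10c_ag.H19_Classes

/-!
# Module Q: classes which lift near an annulus are orthogonal to its class
-/

set_option autoImplicit false

open Topology Set

namespace Pool.Agent.Lib.MP_cca10c_ag

private theorem q04b_open {X : Type} [TopologicalSpace X] {S : CS X}
    {e : OpenPartialHomeomorph X ℂ} {l : ℝ} (he : IsAnn S e l) (a : ℝ) :
    IsOpen {x | x ∈ e.source ∧ |Real.log ‖e x‖| < a} := by
  rw [isOpen_iff_mem_nhds]
  rintro x ⟨hx, hxa⟩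
  have hpos : 0 < ‖e x‖ := by
    have h := e.map_source hx
    rw [he.2.2] at h
    exact (Real.exp_pos _).trans h.1
  have h1 : ContinuousAt (fun y => |Real.log ‖e y‖|) x :=
    ((e.continuousAt hx).norm.log hpos.ne').abs
  filter_upwards [e.open_source.mem_nhds hx, h1.eventually (gt_mem_nhds hxa)] with y hy hy'
  exact ⟨hy, hy'⟩

/-- An integral class whose circle map lifts to a real function near the core of `e` is orthogonal to
the class `b` of `e`: `∫ dψ ∧ β = 0` if `ψ` is a real function defined near the support of `β`. -/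
theorem om_zero_of_lift {X : Type} [TopologicalSpace X] [CompactSpace X] [T2Space X]
    [ConnectedSpace X] {S : CS X} {g : ℕ} {u v : Fin g → X → UnitAddCircle}
    (hB : SymplBasis S g u v) {e : OpenPartialHomeomorph X ℂ} {l : ℝ} (he : IsAnn S e l)
    {b : Fin g ⊕ Fin g → ℤ} (hb : AnnTop u v e l b) (n : Fin g ⊕ Fin g → ℤ) {a : ℝ} (ha : 0 < a)
    (hal : a < l) {f : X → ℝ} (hf : ContinuousOn f (midA e a))
    (hl : ∀ x ∈ midA e a, comb u v n x = ((f x : ℝ) : UnitAddCircle)) : om (zV n) (zV b) = 0 := by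
  classical
  let _ : MeasurableSpace X := borel X
  have _ : BorelSpace X := ⟨rfl⟩
  obtain ⟨F, hF⟩ := S.exists_tame
  have ha2 : 0 < a / 2 := by linarith
  have hal2 : a / 2 < l := by linarith
  set U : Set X := {x | x ∈ e.source ∧ |Real.log ‖e x‖| < a} with hU
  have hUo : IsOpen U := q04b_open he a
  have hUm : U ⊆ midA e a := fun x hx => ⟨hx.1, hx.2.le⟩
  have hKU : midA e (a / 2) ⊆ U := fun x hx => ⟨hx.1, lt_of_le_of_lt hx.2 (by linarith)⟩
  have hK : IsCompact (midA e (a / 2)) := midA_compact he hal2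
  have hw : S.SmoothC (comb u v n) := CS.SmoothC.comb hB.smooth_u hB.smooth_v n
  have hlift : ∀ x ∈ U, LiftAt (comb u v n) f x := fun x hx => by
    refine ⟨(hf.mono hUm).continuousAt (hUo.mem_nhds hx), ?_⟩
    filter_upwards [hUo.mem_nhds hx] with y hy
    exact hl y (hUm hy)
  have hfs : ∀ x ∈ U, S.SmoothAt f x := fun x hx => hw.smoothAt_lift (hlift x hx)
  obtain ⟨χ, hχ, -, ⟨V, hVo, hKV, hV1⟩, hχc, hχU⟩ := S.exists_bump hK hUo hKU
  have hφ : S.Smooth (U.indicator fun x => χ x * f x) := by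
    refine CS.smooth_indicator (K := tsupport χ) hχc hUo hχU (fun x hx => (hχ x).mul (hfs x hx)) ?_
    intro x _ hx
    rw [image_eq_zero_of_notMem_tsupport hx, zero_mul]
  have hc1 : F.Cls u v (F.dC (comb u v n)) (fun i => (n i : ℝ)) :=
    cls_of_sameClass hB hw ⟨fun _ => 0, continuous_const, fun x => by
      rw [AddCircle.coe_zero, add_zero]⟩
  have hc2 := hc1.sub (Frame.Cls.exact hφ)
  have hc3 := AnnTop.annCls F hF hB he hb (a / 2) ha2 hal2
  have h1 := hc2.wd_eq_om hB hF hc3
  have h2 : (fun i => (n i : ℝ) - 0) = zV n := by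
    funext i
    rw [sub_zero]
    rfl
  rw [h2] at h1
  rw [← h1]
  have h3 : ∀ x, (F.dC (comb u v n) x - F.d (U.indicator fun x => χ x * f x) x) *
      starRingEnd ℂ (F.be e (a / 2) x) = 0 := by
    intro x
    by_cases hx : x ∈ midA e (a / 2)
    · have hxU := hKU hx
      have e1 : (U.indicator fun x => χ x * f x) =ᶠ[𝓝 x] f := by
        filter_upwards [hUo.mem_nhds hxU, hVo.mem_nhds (hKV hx)] with y hy hy'
        rw [indicator_of_mem hy, hV1 y hy', one_mul]
      rw [F.d_congr e1, F.dC_eq_d (hlift x hxU) (hfs x hxU), sub_self, zero_mul]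
    · rw [be_zero F he ha2 hal2 hx, map_zero, mul_zero]
  unfold Frame.wd Frame.ip
  simp_rw [h3]
  simp

end Pool.Agent.Lib.MP_cca10c_ag
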