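import Pool.Agent.Lib.MP_cca10c_ag.T06_Cut
import Pool.Agent.Lib.MP_cca10c_ag.H19_Classes

/-!
# Module T: independent classes: connected complement of the cores, saturation
-/

set_option autoImplicit false
set_option linter.unusedSectionVars false

open Topology Set MeasureTheory
open scoped ContDiff

namespace Pool.Agent.Lib.MP_cca10c_ag

section aux

variable {X : Type} [TopologicalSpace X] {S : CS X}

/-- differentiable at `y` in all charts -/
private def T07Df (S : CS X) (f : X → ℝ) (y : X) : Prop :=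
  ∀ e ∈ S.charts, y ∈ e.source → DifferentiableAt ℝ (f ∘ e.symm) (e y)

private theorem T07_df {f : X → ℝ} {x : X} (h : S.SmoothAt f x) :
    ∀ᶠ y in 𝓝 x, T07Df S f y := by
  obtain ⟨e₀, he₀, hx⟩ := S.cover x
  have h1 : ContDiffAt ℝ 1 (f ∘ e₀.symm) (e₀ x) := (h e₀ he₀ hx).of_le (by exact_mod_cast le_top)
  have h2 : ∀ᶠ z in 𝓝 (e₀ x), ContDiffAt ℝ 1 (f ∘ e₀.symm) z := h1.eventually (by simp)
  have h3 : ∀ᶠ y in 𝓝 x, ContDiffAt ℝ 1 (f ∘ e₀.symm) (e₀ y) :=
    (e₀.continuousAt hx).eventually h2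
  filter_upwards [h3, e₀.open_source.mem_nhds hx] with y hy hy0
  intro e he hye
  have h4 : DifferentiableAt ℝ (f ∘ e₀.symm) (e₀ y) := hy.differentiableAt (by simp)
  have h5 : DifferentiableAt ℝ (e₀ ∘ e.symm) (e y) :=
    (CS.trans_differentiableAt he he₀ hye hy0).restrictScalars ℝ
  have h6 : e₀ y = (e₀ ∘ e.symm) (e y) := by simp [e.left_inv hye]
  rw [h6] at h4
  refine (h4.comp (e y) h5).congr_of_eventuallyEq ?_
  have h7 : ∀ᶠ z in 𝓝 (e y), e.symm z ∈ e₀.source := by
    have : e.symm (e y) ∈ e₀.source := by rw [e.left_inv hye]; exact hy0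
    exact (e.continuousAt_symm (e.map_source hye)).eventually (e₀.open_source.mem_nhds this)
  filter_upwards [h7] with z hz
  simp [e₀.left_inv hz]

private theorem T07_cgrad_zero {f : ℂ → ℝ} {z : ℂ} (h : cgrad f z = 0) : fderiv ℝ f z = 0 := by
  have h1 : fderiv ℝ f z 1 = 0 := by
    have := congrArg Complex.re h
    simpa [cgrad] using this
  have h2 : fderiv ℝ f z Complex.I = 0 := by
    have := congrArg Complex.im h
    simpa [cgrad] using this
  ext w
  have h3 : w = w.re • (1 : ℂ) + w.im • Complex.I := by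
    apply Complex.ext <;> simp
  rw [h3, map_add, map_smul, map_smul, h1, h2]
  simp

private theorem T07_const {F : Frame S} {f : X → ℝ} {x : X}
    (h : ∀ᶠ y in 𝓝 x, T07Df S f y ∧ F.d f y = 0) : ∀ᶠ y in 𝓝 x, f y = f x := by
  obtain ⟨e, he, hx⟩ := S.cover x
  -- pull back to the chart
  have hxe : e.symm (e x) = x := e.left_inv hx
  have h1 : ∀ᶠ z in 𝓝 (e x), DifferentiableAt ℝ (f ∘ e.symm) z ∧ fderiv ℝ (f ∘ e.symm) z = 0 := by
    have hc : ContinuousAt e.symm (e x) := e.continuousAt_symm (e.map_source hx)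
    have h2 := hc.eventually (by rw [hxe]; exact h)
    filter_upwards [h2, e.open_target.mem_nhds (e.map_source hx)] with z hz hzt
    set y := e.symm z with hy
    have hys : y ∈ e.source := e.map_target hzt
    have hez : e y = z := e.right_inv hzt
    have hd1 := hz.1 e he hys
    rw [hez] at hd1
    refine ⟨hd1, ?_⟩
    -- the chart of the frame at `y`
    have hch := F.mem_ch y
    have hd2 := hz.1 (F.ch y) (F.ch_mem y) hch
    have hg : fderiv ℝ (f ∘ (F.ch y).symm) (F.ch y y) = 0 := T07_cgrad_zero hz.2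
    have ht : DifferentiableAt ℝ (F.ch y ∘ e.symm) (e y) :=
      (CS.trans_differentiableAt he (F.ch_mem y) hys hch).restrictScalars ℝ
    have h6 : F.ch y y = (F.ch y ∘ e.symm) (e y) := by simp [e.left_inv hys]
    have heq : f ∘ e.symm =ᶠ[𝓝 (e y)] (f ∘ (F.ch y).symm) ∘ (F.ch y ∘ e.symm) := by
      have h7 : ∀ᶠ z in 𝓝 (e y), e.symm z ∈ (F.ch y).source := by
        have : e.symm (e y) ∈ (F.ch y).source := by rw [e.left_inv hys]; exact hch
        exact (e.continuousAt_symm (e.map_source hys)).eventually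
          ((F.ch y).open_source.mem_nhds this)
      filter_upwards [h7] with z hz
      simp [(F.ch y).left_inv hz]
    rw [← hez, heq.fderiv_eq, fderiv_comp _ (by rw [← h6]; exact hd2) ht, ← h6, hg]
    simp
  obtain ⟨ε, hε, hball⟩ := Metric.eventually_nhds_iff_ball.1 h1
  have hcst : ∀ z ∈ Metric.ball (e x) ε, (f ∘ e.symm) z = (f ∘ e.symm) (e x) := by
    intro z hz
    exact (convex_ball (e x) ε).is_const_of_fderivWithin_eq_zero (𝕜 := ℝ)
      (fun w hw => (hball w hw).1.differentiableWithinAt)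
      (fun w hw => by
        rw [fderivWithin_of_isOpen Metric.isOpen_ball hw]
        exact (hball w hw).2) hz (Metric.mem_ball_self hε)
  have h3 : ∀ᶠ y in 𝓝 x, e y ∈ Metric.ball (e x) ε :=
    (e.continuousAt hx).eventually (Metric.ball_mem_nhds _ hε)
  filter_upwards [h3, e.open_source.mem_nhds hx] with y hy hys
  have := hcst _ hy
  simpa [e.left_inv hys, hxe] using this

private theorem T07_const_global [PreconnectedSpace X] {F : Frame S} {f : X → ℝ}
    (hs : S.Smooth f) (h : ∀ y, F.d f y = 0) (x y : X) : f x = f y := by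
  have hl : IsLocallyConstant f := by
    rw [IsLocallyConstant.iff_eventually_eq]
    intro x
    refine T07_const (F := F) ?_
    filter_upwards [T07_df (hs x)] with y hy
    exact ⟨hy, h y⟩
  exact hl.apply_eq_of_isPreconnected isPreconnected_univ (mem_univ _) (mem_univ _)

private theorem T07_d_congr {F : Frame S} {f h : X → ℝ} {y : X} (hfh : f =ᶠ[𝓝 y] h) :
    F.d f y = F.d h y := by
  have hy := F.mem_ch y
  have h1 : f ∘ (F.ch y).symm =ᶠ[𝓝 (F.ch y y)] h ∘ (F.ch y).symm := by
    have hc : ContinuousAt (F.ch y).symm (F.ch y y) :=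
      (F.ch y).continuousAt_symm ((F.ch y).map_source hy)
    have := hc.eventually (by rw [(F.ch y).left_inv hy]; exact hfh)
    exact this
  unfold Frame.d cgrad
  rw [h1.fderiv_eq]

private theorem T07_d_const {F : Frame S} (c : ℝ) (y : X) : F.d (fun _ => c) y = 0 := by
  unfold Frame.d cgrad
  have : ((fun _ : X => c) ∘ (F.ch y).symm) = fun _ => c := rfl
  rw [this]
  simp

private theorem T07_d_add {F : Frame S} {f h : X → ℝ} {y : X} (hf : T07Df S f y)
    (hh : T07Df S h y) : F.d (fun x => f x + h x) y = F.d f y + F.d h y := by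
  have h1 := hf (F.ch y) (F.ch_mem y) (F.mem_ch y)
  have h2 := hh (F.ch y) (F.ch_mem y) (F.mem_ch y)
  unfold Frame.d cgrad
  have : ((fun x => f x + h x) ∘ (F.ch y).symm)
      = (f ∘ (F.ch y).symm) + (h ∘ (F.ch y).symm) := rfl
  rw [this, fderiv_add h1 h2]
  simp
  ring

private theorem T07_d_smul {F : Frame S} {f : X → ℝ} {y : X} (hf : T07Df S f y) (c : ℝ) :
    F.d (fun x => c * f x) y = c * F.d f y := by
  have h1 := hf (F.ch y) (F.ch_mem y) (F.mem_ch y)
  unfold Frame.d cgrad
  have : ((fun x => c * f x) ∘ (F.ch y).symm) = c • (f ∘ (F.ch y).symm) := rfl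
  rw [this, fderiv_const_smul h1]
  simp
  ring

private theorem T07Df.add {f h : X → ℝ} {y : X} (hf : T07Df S f y)
    (hh : T07Df S h y) : T07Df S (fun x => f x + h x) y := fun e he hy =>
  (hf e he hy).add (hh e he hy)

private theorem T07Df.smul {f : X → ℝ} {y : X} (hf : T07Df S f y) (c : ℝ) :
    T07Df S (fun x => c * f x) y := fun e he hy => (hf e he hy).const_mul c

private theorem T07Df.sum {ι : Type*} (s : Finset ι) {f : ι → X → ℝ} {y : X}
    (hf : ∀ i, T07Df S (f i) y) : T07Df S (fun x => ∑ i ∈ s, f i x) y := by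
  classical
  induction s using Finset.induction_on with
  | empty =>
    intro e _ _
    simp only [Finset.sum_empty]
    exact differentiableAt_const _
  | insert i s his ih =>
    have : (fun x => ∑ j ∈ insert i s, f j x) = fun x => f i x + ∑ j ∈ s, f j x := by
      funext x
      exact Finset.sum_insert his
    rw [this]
    exact (hf i).add ih

private theorem T07_d_sum {F : Frame S} {ι : Type*} (s : Finset ι) {f : ι → X → ℝ} {y : X}
    (hf : ∀ i, T07Df S (f i) y) : F.d (fun x => ∑ i ∈ s, f i x) y = ∑ i ∈ s, F.d (f i) y := by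
  classical
  induction s using Finset.induction_on with
  | empty =>
    simp only [Finset.sum_empty]
    exact T07_d_const 0 y
  | insert i s his ih =>
    have : (fun x => ∑ j ∈ insert i s, f j x) = fun x => f i x + ∑ j ∈ s, f j x := by
      funext x
      exact Finset.sum_insert his
    rw [this, T07_d_add (hf i) (T07Df.sum s hf), ih, Finset.sum_insert his]

private theorem T07_sm_add {f h : X → ℝ} (hf : S.Smooth f) (hh : S.Smooth h) :
    S.Smooth (fun x => f x + h x) := fun x e he hx => (hf x e he hx).add (hh x e he hx)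

private theorem T07_sm_smul {f : X → ℝ} (hf : S.Smooth f) (c : ℝ) :
    S.Smooth (fun x => c * f x) := fun x e he hx => contDiffAt_const.mul (hf x e he hx)

private theorem T07_sm_sum {ι : Type*} (s : Finset ι) {f : ι → X → ℝ}
    (hf : ∀ i, S.Smooth (f i)) : S.Smooth (fun x => ∑ i ∈ s, f i x) := by
  classical
  induction s using Finset.induction_on with
  | empty =>
    intro x e _ _
    simp only [Finset.sum_empty]
    exact contDiffAt_const
  | insert i s his ih =>
    have : (fun x => ∑ j ∈ insert i s, f j x) = fun x => f i x + ∑ j ∈ s, f j x := by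
      funext x
      exact Finset.sum_insert his
    rw [this]
    exact T07_sm_add (hf i) ih

private theorem T07_core_eq {e : OpenPartialHomeomorph X ℂ} {l : ℝ} (he : IsAnn S e l) :
    core e = midA e 0 := by
  ext x
  constructor
  · rintro ⟨h1, h2⟩
    exact ⟨h1, by rw [h2]; simp⟩
  · rintro ⟨h1, h2⟩
    refine ⟨h1, ?_⟩
    have h3 : e x ∈ e.target := e.map_source h1
    rw [he.2.2] at h3
    have h4 : 0 < ‖e x‖ := (Real.exp_pos _).trans h3.1
    have h5 : Real.log ‖e x‖ = 0 := abs_nonpos_iff.1 h2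
    exact Real.eq_one_of_pos_of_log_eq_zero h4 h5

private theorem T07_core_closed [T2Space X] {e : OpenPartialHomeomorph X ℂ} {l : ℝ}
    (he : IsAnn S e l) : IsClosed (core e) := by
  rw [T07_core_eq he]
  exact (midA_compact he he.2.1).isClosed

private theorem T07_off_open [T2Space X] {m : ℕ} {e : Fin m → OpenPartialHomeomorph X ℂ}
    {l : Fin m → ℝ} (he : ∀ i, IsAnn S (e i) (l i)) :
    IsOpen {x : X | ∀ i, x ∉ core (e i)} := by
  have h1 : {x : X | ∀ i, x ∉ core (e i)} = ⋂ i, (core (e i))ᶜ := by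
    ext x
    simp
  rw [h1]
  exact isOpen_iInter_of_finite fun i => (T07_core_closed (he i)).isOpen_compl

private theorem T07_cgradC {U : ℂ → UnitAddCircle} {f : ℂ → ℝ} {z : ℂ}
    (hU : ∀ᶠ w in 𝓝 z, U w = (f w : UnitAddCircle)) (hf : DifferentiableAt ℝ f z) :
    cgradC U z = cgrad f z := by
  have h1 : (fun w => ((AddCircle.toCircle (U w) : Circle) : ℂ))
      =ᶠ[𝓝 z] fun w => Complex.exp ((f w : ℂ) * (2 * Real.pi * Complex.I)) := by
    filter_upwards [hU] with w hw
    rw [hw, AddCircle.toCircle_apply_mk, Circle.coe_exp]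
    congr 1
    push_cast
    ring
  have h2 : HasFDerivAt (fun w => Complex.exp ((f w : ℂ) * (2 * Real.pi * Complex.I)))
      (Complex.exp ((f z : ℂ) * (2 * Real.pi * Complex.I)) •
        (2 * Real.pi * Complex.I : ℂ) • (Complex.ofRealCLM.comp (fderiv ℝ f z))) z := by
    have h3 : HasFDerivAt (fun w => (f w : ℂ)) (Complex.ofRealCLM.comp (fderiv ℝ f z)) z :=
      Complex.ofRealCLM.hasFDerivAt.comp z hf.hasFDerivAt
    exact (h3.mul_const (2 * Real.pi * Complex.I)).cexp
  have h5 : fderiv ℝ (fun w => ((AddCircle.toCircle (U w) : Circle) : ℂ)) z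
      = Complex.exp ((f z : ℂ) * (2 * Real.pi * Complex.I)) •
        (2 * Real.pi * Complex.I : ℂ) • (Complex.ofRealCLM.comp (fderiv ℝ f z)) := by
    rw [h1.fderiv_eq, h2.fderiv]
  have h6 : ((AddCircle.toCircle (U z) : Circle) : ℂ)
      = Complex.exp ((f z : ℂ) * (2 * Real.pi * Complex.I)) := h1.self_of_nhds
  have h7 : starRingEnd ℂ (Complex.exp ((f z : ℂ) * (2 * Real.pi * Complex.I)))
      * Complex.exp ((f z : ℂ) * (2 * Real.pi * Complex.I)) = 1 := by
    rw [← h6, ← Complex.normSq_eq_conj_mul_self]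
    simp
  have h8 : ∀ v : ℂ, (starRingEnd ℂ ((AddCircle.toCircle (U z) : Circle) : ℂ) *
      fderiv ℝ (fun w => ((AddCircle.toCircle (U w) : Circle) : ℂ)) z v).im / (2 * Real.pi)
      = fderiv ℝ f z v := by
    intro v
    rw [h5, h6]
    simp only [smul_apply,
      ContinuousLinearMap.comp_apply, Complex.ofRealCLM_apply, smul_eq_mul]
    rw [← mul_assoc, h7, one_mul]
    have h9 : (2 * (Real.pi : ℂ) * Complex.I * ((fderiv ℝ f z v : ℝ) : ℂ)).im
        = 2 * Real.pi * fderiv ℝ f z v := by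
      simp
    rw [h9]
    have := Real.pi_pos
    field_simp
  unfold cgradC cgrad
  simp only
  rw [h8, h8]

private theorem T07_dC {F : Frame S} {w : X → UnitAddCircle} {f : X → ℝ} {y : X}
    (hw : ∀ᶠ z in 𝓝 y, w z = (f z : UnitAddCircle)) (hf : T07Df S f y) :
    F.dC w y = F.d f y := by
  have hy := F.mem_ch y
  refine T07_cgradC ?_ (hf _ (F.ch_mem y) hy)
  have hc : ContinuousAt (F.ch y).symm (F.ch y y) :=
    (F.ch y).continuousAt_symm ((F.ch y).map_source hy)
  exact hc.eventually (by rw [(F.ch y).left_inv hy]; exact hw)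

private theorem T07_lift {F : Frame S} {g : ℕ} {u v : Fin g → X → UnitAddCircle}
    (hu : ∀ j, S.SmoothC (u j)) (hv : ∀ j, S.SmoothC (v j)) (x : Fin g ⊕ Fin g → ℤ) (p : X) :
    ∃ L : X → ℝ, ContinuousAt L p ∧ ∀ᶠ y in 𝓝 p, comb u v x y = (L y : UnitAddCircle) ∧
      T07Df S L y ∧ F.lin u v (zV x) y = F.d L y := by
  choose fu hfu hfu' using fun j => hu j p
  choose fv hfv hfv' using fun j => hv j p
  refine ⟨fun y => ∑ j, (x (Sum.inl j) : ℝ) * fu j y + ∑ j, (x (Sum.inr j) : ℝ) * fv j y,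
    ?_, ?_⟩
  · refine ContinuousAt.add ?_ ?_
    · exact tendsto_finsetSum _ fun j _ => ((hfu j).1).const_mul _
    · exact tendsto_finsetSum _ fun j _ => ((hfv j).1).const_mul _
  · have e1 : ∀ᶠ y in 𝓝 p, ∀ j, ∀ᶠ z in 𝓝 y, u j z = (fu j z : UnitAddCircle) :=
      Filter.eventually_all.2 fun j => (hfu j).2.eventually_nhds
    have e2 : ∀ᶠ y in 𝓝 p, ∀ j, ∀ᶠ z in 𝓝 y, v j z = (fv j z : UnitAddCircle) :=
      Filter.eventually_all.2 fun j => (hfv j).2.eventually_nhds
    have e3 : ∀ᶠ y in 𝓝 p, ∀ j, T07Df S (fu j) y :=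
      Filter.eventually_all.2 fun j => T07_df (hfu' j)
    have e4 : ∀ᶠ y in 𝓝 p, ∀ j, T07Df S (fv j) y :=
      Filter.eventually_all.2 fun j => T07_df (hfv' j)
    filter_upwards [e1, e2, e3, e4] with y h1 h2 h3 h4
    have h5 : T07Df S (fun y => ∑ j, (x (Sum.inl j) : ℝ) * fu j y) y :=
      T07Df.sum _ fun j => (h3 j).smul _
    have h6 : T07Df S (fun y => ∑ j, (x (Sum.inr j) : ℝ) * fv j y) y :=
      T07Df.sum _ fun j => (h4 j).smul _
    refine ⟨?_, h5.add h6, ?_⟩
    · unfold comb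
      have a1 : ∀ j, u j y = (fu j y : UnitAddCircle) := fun j => (h1 j).self_of_nhds
      have a2 : ∀ j, v j y = (fv j y : UnitAddCircle) := fun j => (h2 j).self_of_nhds
      simp only [a1, a2]
      have a3 : ∀ (n : ℤ) (r : ℝ), n • (r : UnitAddCircle) = ((n * r : ℝ) : UnitAddCircle) := by
        intro n r
        rw [← zsmul_eq_mul]
        rfl
      have a4 : ∀ r : Fin g → ℝ, ∑ j, ((r j : ℝ) : UnitAddCircle)
          = ((∑ j, r j : ℝ) : UnitAddCircle) := fun r =>
        (map_sum (QuotientAddGroup.mk' (AddSubgroup.zmultiples (1 : ℝ))) r Finset.univ).symm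
      simp only [a3, a4]
      rfl
    · rw [T07_d_add h5 h6, T07_d_sum _ (fun j => (h3 j).smul _), T07_d_sum _ (fun j => (h4 j).smul _)]
      unfold Frame.lin
      congr 1
      · refine Finset.sum_congr rfl fun j _ => ?_
        rw [T07_d_smul (h3 j), T07_dC (h1 j) (h3 j)]
        simp [zV]
      · refine Finset.sum_congr rfl fun j _ => ?_
        rw [T07_d_smul (h4 j), T07_dC (h2 j) (h4 j)]
        simp [zV]

end aux

variable {X : Type} [TopologicalSpace X] [CompactSpace X] [T2Space X] [ConnectedSpace X] {S : CS X}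

/-- uniqueness of classes -/
private theorem T07_cls_zero {F : Frame S} (hF : F.Tame) {g : ℕ} {u v : Fin g → X → UnitAddCircle}
    (hB : SymplBasis S g u v) {x : Fin g ⊕ Fin g → ℝ} {φ : X → ℝ} (hφ : S.Smooth φ)
    (h : ∀ p, F.lin u v x p + F.d φ p = 0) : x = 0 := by
  let _ : MeasurableSpace X := borel X
  have _ : BorelSpace X := ⟨rfl⟩
  have h1 : F.Cls u v (fun _ => 0) x := ⟨φ, hφ, fun p => (h p).symm⟩
  have h2 : F.Cls u v (fun _ => 0) 0 := by
    refine ⟨fun _ => 0, fun x e _ _ => contDiffAt_const, fun p => ?_⟩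
    rw [T07_d_const]
    simp [Frame.lin]
  exact Frame.Cls.unique hB hF h1 h2

private theorem T07_lin_sum {F : Frame S} {g : ℕ} {u v : Fin g → X → UnitAddCircle} {m : ℕ}
    (t : Fin m → ℝ) (b : Fin m → Fin g ⊕ Fin g → ℝ) (p : X) :
    F.lin u v (∑ i, t i • b i) p = ∑ i, (t i : ℂ) * F.lin u v (b i) p := by
  unfold Frame.lin
  simp only [Finset.sum_apply, Pi.smul_apply, smul_eq_mul, Complex.ofReal_sum, Complex.ofReal_mul,
    mul_add, Finset.mul_sum, Finset.sum_mul, Finset.sum_add_distrib]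
  congr 1
  · rw [Finset.sum_comm]
    refine Finset.sum_congr rfl fun i _ => Finset.sum_congr rfl fun j _ => by ring
  · rw [Finset.sum_comm]
    refine Finset.sum_congr rfl fun i _ => Finset.sum_congr rfl fun j _ => by ring

/-- apply `cut_lemma` with `α = 0` and `Ψ` = indicator of a relatively clopen set; the `s i` vanish by
independence and uniqueness of classes, so `Ψ` extends to a smooth function with zero differential -/
theorem compl_cores_connected (F : Frame S) (hF : F.Tame) {g : ℕ} {u v : Fin g → X → UnitAddCircle}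
    (hB : SymplBasis S g u v) {m : ℕ} {e : Fin m → OpenPartialHomeomorph X ℂ} {l : Fin m → ℝ}
    (he : ∀ i, IsAnn S (e i) (l i)) (hd : Pairwise fun i j => Disjoint (e i).source (e j).source)
    {b : Fin m → Fin g ⊕ Fin g → ℤ} (hb : ∀ i, AnnCls F u v (e i) (l i) (b i))
    (hi : LinearIndependent ℝ fun i => zV (b i)) :
    IsPreconnected {x : X | ∀ i, x ∉ core (e i)} := by
  classical
  intro U V hU hV hUV hUn hVn
  by_contra hcon
  have hdisj : ∀ x, (∀ i, x ∉ core (e i)) → x ∈ U → x ∉ V := fun x hx h1 h2 =>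
    hcon ⟨x, hx, h1, h2⟩
  set Ω : Set X := {x : X | ∀ i, x ∉ core (e i)} with hΩ
  have hΩo : IsOpen Ω := T07_off_open he
  set Ψ : X → ℝ := U.indicator (fun _ => (1 : ℝ)) with hΨ
  have hloc : ∀ x ∈ Ω, ∃ c : ℝ, ∀ᶠ y in 𝓝 x, Ψ y = c := by
    intro x hx
    rcases hUV hx with h | h
    · refine ⟨1, ?_⟩
      filter_upwards [hU.mem_nhds h] with y hy
      exact indicator_of_mem hy _
    · refine ⟨0, ?_⟩
      filter_upwards [hV.mem_nhds h, hΩo.mem_nhds hx] with y hy hyΩ
      exact indicator_of_notMem (fun h' => hdisj y hyΩ h' hy) _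
  have hl0 : ∀ i, 0 < l i := fun i => (he i).2.1
  have hα : F.Closed (fun _ => 0) := by
    intro x
    refine ⟨fun _ => 0, Filter.Eventually.of_forall fun y e _ _ => contDiffAt_const,
      Filter.Eventually.of_forall fun y => (T07_d_const 0 y).symm⟩
  have hΨ' : ∀ x, (∀ i, x ∉ core (e i)) →
      S.SmoothNear Ψ x ∧ ∀ᶠ y in 𝓝 x, (fun _ : X => (0 : ℂ)) y = F.d Ψ y := by
    intro x hx
    obtain ⟨c, hc⟩ := hloc x hx
    have hc' := hc.eventually_nhds
    constructor
    · filter_upwards [hc'] with y hy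
      intro e' he' hye
      have h1 : (fun _ => c) =ᶠ[𝓝 (e' y)] Ψ ∘ e'.symm := by
        have hcont : ContinuousAt e'.symm (e' y) := e'.continuousAt_symm (e'.map_source hye)
        have := hcont.eventually (by rw [e'.left_inv hye]; exact hy)
        filter_upwards [this] with z hz
        exact hz.symm
      exact contDiffAt_const.congr_of_eventuallyEq h1.symm
    · filter_upwards [hc'] with y hy
      rw [T07_d_congr (h := fun _ => c) hy, T07_d_const]
  obtain ⟨s, φ, hφ, hα', hφΨ⟩ := cut_lemma F he (a := fun i => l i / 2)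
    (fun i => half_pos (hl0 i)) (fun i => half_lt_self (hl0 i)) hd hα hΨ'
  -- the classes
  choose φi hφi hbi using fun i => hb i (l i / 2) (half_pos (hl0 i)) (half_lt_self (hl0 i))
  have hzero : ∑ i, s i • zV (b i) = 0 := by
    have hsm : S.Smooth (fun x => (∑ i, s i * φi i x) + φ x) :=
      T07_sm_add (T07_sm_sum _ fun i => T07_sm_smul (hφi i) (s i)) hφ
    refine T07_cls_zero hF hB hsm fun p => ?_
    have hdf : ∀ f : X → ℝ, S.Smooth f → T07Df S f p := fun f hf => (T07_df (hf p)).self_of_nhds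
    rw [T07_d_add (hdf _ (T07_sm_sum _ fun i => T07_sm_smul (hφi i) (s i))) (hdf _ hφ),
      T07_d_sum _ (fun i => hdf _ (T07_sm_smul (hφi i) (s i))), T07_lin_sum]
    have h1 := hα' p
    have h2 : ∀ i, F.d (fun x => s i * φi i x) p = s i * F.d (φi i) p := fun i =>
      T07_d_smul (hdf _ (hφi i)) (s i)
    simp only [h2]
    rw [← add_assoc, ← Finset.sum_add_distrib]
    rw [h1]
    congr 1
    refine Finset.sum_congr rfl fun i _ => ?_
    rw [hbi i p]
    ring
  have hs : ∀ i, s i = 0 := Fintype.linearIndependent_iff.1 hi s hzero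
  have hd0 : ∀ y, F.d φ y = 0 := by
    intro y
    have := hα' y
    simp only [hs, Complex.ofReal_zero, zero_mul, Finset.sum_const_zero, zero_add] at this
    exact this.symm
  obtain ⟨x₁, hx₁, hx₁U⟩ := hUn
  obtain ⟨x₂, hx₂, hx₂V⟩ := hVn
  have h1 := hφΨ x₁ hx₁
  have h2 := hφΨ x₂ hx₂
  simp only [hs, zero_mul, Finset.sum_const_zero, sub_zero] at h1 h2
  have h3 : Ψ x₁ = 1 := indicator_of_mem hx₁U _
  have h4 : Ψ x₂ = 0 := indicator_of_notMem (fun h' => hdisj x₂ hx₂ h' hx₂V) _
  have h5 := T07_const_global hφ hd0 x₁ x₂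
  rw [h1, h2, h3, h4] at h5
  exact one_ne_zero h5

/-- for `w = comb u v x` the circle map `w - ∑ t i phiE (e i) + φ` is locally constant off the cores,
hence constant, and its jump across the core of `e i` is `t i` modulo 1 -/
theorem sat_of_indep (F : Frame S) (hF : F.Tame) {g : ℕ} {u v : Fin g → X → UnitAddCircle}
    (hB : SymplBasis S g u v) {m : ℕ} {e : Fin m → OpenPartialHomeomorph X ℂ} {l : Fin m → ℝ}
    (he : ∀ i, IsAnn S (e i) (l i)) (hd : Pairwise fun i j => Disjoint (e i).source (e j).source)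
    {b : Fin m → Fin g ⊕ Fin g → ℤ} (hb : ∀ i, AnnCls F u v (e i) (l i) (b i))
    (hi : LinearIndependent ℝ fun i => zV (b i)) (t : Fin m → ℝ) (x : Fin g ⊕ Fin g → ℤ)
    (hx : zV x = ∑ i, t i • zV (b i)) (i : Fin m) : ∃ n : ℤ, t i = n := by
  classical
  set Ω : Set X := {x : X | ∀ i, x ∉ core (e i)} with hΩ
  have hΩo : IsOpen Ω := T07_off_open he
  have hΩc : IsPreconnected Ω := compl_cores_connected F hF hB he hd hb hi
  have hl0 : ∀ i, 0 < l i := fun i => (he i).2.1
  set a : Fin m → ℝ := fun i => l i / 2 with ha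
  have ha0 : ∀ i, 0 < a i := fun i => half_pos (hl0 i)
  have hal : ∀ i, a i < l i := fun i => half_lt_self (hl0 i)
  choose φi hφi hbi using fun i => hb i (a i) (ha0 i) (hal i)
  set φ' : X → ℝ := fun y => ∑ j, t j * φi j y with hφ'
  have hφ's : S.Smooth φ' := T07_sm_sum _ fun j => T07_sm_smul (hφi j) (t j)
  set w : X → UnitAddCircle := comb u v x with hw
  set R : X → ℝ := fun y => (-1) * (∑ j, t j * phiE (e j) (a j) y) + φ' y with hR
  set W : X → UnitAddCircle := fun y => w y + ((R y : ℝ) : UnitAddCircle) with hW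
  -- `W` is locally constant off the cores
  have hWloc : ∀ y ∈ Ω, ∀ᶠ z in 𝓝 y, W z = W y := by
    intro y hy
    obtain ⟨L, -, hL⟩ := T07_lift (F := F) hB.smooth_u hB.smooth_v x y
    have hph : ∀ᶠ z in 𝓝 y, ∀ j, S.SmoothAt (phiE (e j) (a j)) z :=
      Filter.eventually_all.2 fun j => phiE_smooth (he j) (ha0 j) (hal j) (hy j)
    have hconst : ∀ᶠ z in 𝓝 y, (fun z => L z + R z) z = (fun z => L z + R z) y := by
      refine T07_const (F := F) ?_
      filter_upwards [hL, hph, hΩo.mem_nhds hy] with z hz hz2 hzΩ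
      obtain ⟨-, hLd, hLlin⟩ := hz
      have hpd : ∀ j, T07Df S (phiE (e j) (a j)) z := fun j => (T07_df (hz2 j)).self_of_nhds
      have hφd : ∀ j, T07Df S (φi j) z := fun j => (T07_df (hφi j z)).self_of_nhds
      have hφ'd : T07Df S φ' z := T07Df.sum _ fun j => (hφd j).smul _
      have hsd : T07Df S (fun y => ∑ j, t j * phiE (e j) (a j) y) z :=
        T07Df.sum _ fun j => (hpd j).smul _
      have hRd : T07Df S R z := (hsd.smul (-1)).add hφ'd
      refine ⟨hLd.add hRd, ?_⟩
      rw [T07_d_add hLd hRd, hR, T07_d_add (hsd.smul (-1)) hφ'd, T07_d_smul hsd,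
        T07_d_sum _ (fun j => (hpd j).smul _), hφ', T07_d_sum _ (fun j => (hφd j).smul _),
        ← hLlin, hx, T07_lin_sum]
      have e1 : ∀ j, F.d (fun x => t j * phiE (e j) (a j) x) z
          = t j * (F.lin u v (zV (b j)) z + F.d (φi j) z) := by
        intro j
        rw [T07_d_smul (hpd j), ← be_phi F (he j) (ha0 j) (hal j) (hzΩ j), hbi j z]
      have e2 : ∀ j, F.d (fun x => t j * φi j x) z = t j * F.d (φi j) z := fun j =>
        T07_d_smul (hφd j) (t j)
      simp only [e1, e2, mul_add, Finset.sum_add_distrib]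
      push_cast
      ring
    filter_upwards [hconst, hL] with z hz hz2
    have h1 : W z = ((L z + R z : ℝ) : UnitAddCircle) := by
      have h3 : w z = ((L z : ℝ) : UnitAddCircle) := hz2.1
      rw [hW]
      simp only
      rw [h3]
      rfl
    have h2 : W y = ((L y + R y : ℝ) : UnitAddCircle) := by
      have h3 : w y = ((L y : ℝ) : UnitAddCircle) := hL.self_of_nhds.1
      rw [hW]
      simp only
      rw [h3]
      rfl
    rw [h1, h2]
    exact congrArg _ hz
  have hWconst : ∀ y ∈ Ω, ∀ z ∈ Ω, W z = W y := by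
    intro y hy z hz
    by_contra hne
    have hUo : IsOpen {p | p ∈ Ω ∧ W p = W y} := by
      rw [isOpen_iff_mem_nhds]
      rintro p ⟨hp, hp2⟩
      filter_upwards [hWloc p hp, hΩo.mem_nhds hp] with q hq hqΩ
      exact ⟨hqΩ, hq.trans hp2⟩
    have hVo : IsOpen {p | p ∈ Ω ∧ W p ≠ W y} := by
      rw [isOpen_iff_mem_nhds]
      rintro p ⟨hp, hp2⟩
      filter_upwards [hWloc p hp, hΩo.mem_nhds hp] with q hq hqΩ
      exact ⟨hqΩ, fun h => hp2 (hq.symm.trans h)⟩
    obtain ⟨q, -, hq1, hq2⟩ := hΩc _ _ hUo hVo (fun q hq => by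
      by_cases h : W q = W y
      · exact Or.inl ⟨hq, h⟩
      · exact Or.inr ⟨hq, h⟩) ⟨y, hy, hy, rfl⟩ ⟨z, hz, hz, hne⟩
    exact hq2.2 hq1.2
  -- the radial path through the core of `e i`
  have htgt : (1 : ℂ) ∈ (e i).target := by
    rw [(he i).2.2]
    have := hl0 i
    constructor
    · rw [norm_one]; exact Real.exp_lt_one_iff.2 (by linarith)
    · rw [norm_one]; exact Real.one_lt_exp_iff.2 this
  set q : ℝ → X := fun r => (e i).symm (r : ℂ) with hq
  have hqc : ContinuousAt q 1 := by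
    have h1 : ContinuousAt (e i).symm ((1 : ℝ) : ℂ) := by
      rw [Complex.ofReal_one]
      exact (e i).continuousAt_symm htgt
    exact ContinuousAt.comp (f := fun r : ℝ => (r : ℂ)) h1 Complex.continuous_ofReal.continuousAt
  have hev : ∀ᶠ r : ℝ in 𝓝 1, (r : ℂ) ∈ (e i).target ∧ 0 < r := by
    have h1 : ∀ᶠ r : ℝ in 𝓝 1, (r : ℂ) ∈ (e i).target := by
      refine Complex.continuous_ofReal.continuousAt.eventually ((e i).open_target.mem_nhds ?_)
      rw [Complex.ofReal_one]
      exact htgt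
    exact h1.and (lt_mem_nhds one_pos)
  have hqsrc : ∀ r : ℝ, (r : ℂ) ∈ (e i).target → q r ∈ (e i).source := fun r hr =>
    (e i).map_target hr
  have hqe : ∀ r : ℝ, (r : ℂ) ∈ (e i).target → e i (q r) = r := fun r hr => (e i).right_inv hr
  have hqoff : ∀ r : ℝ, (r : ℂ) ∈ (e i).target → ∀ j, j ≠ i → q r ∉ (e j).source := by
    intro r hr j hj h
    exact Set.disjoint_left.1 (hd hj) h (hqsrc r hr)
  have hqΩ : ∀ r : ℝ, (r : ℂ) ∈ (e i).target → 0 < r → r ≠ 1 → q r ∈ Ω := by
    intro r hr hr0 hr1 j hcore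
    by_cases hj : j = i
    · subst hj
      have := hcore.2
      rw [hqe r hr, Complex.norm_real, Real.norm_of_nonneg hr0.le] at this
      exact hr1 this
    · exact hqoff r hr j hj hcore.1
  -- value of `W` along the path
  set G : ℝ → UnitAddCircle := fun r =>
    w (q r) + ((φ' (q r) - t i * stp (a i) (Real.log r) : ℝ) : UnitAddCircle) with hG
  have hsum : ∀ r : ℝ, (r : ℂ) ∈ (e i).target →
      ∑ j, t j * phiE (e j) (a j) (q r) = t i * phiE (e i) (a i) (q r) := by
    intro r hr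
    refine Finset.sum_eq_single i (fun j _ hj => ?_) (fun h => absurd (Finset.mem_univ i) h)
    rw [phiE, if_neg (hqoff r hr j hj), mul_zero]
  have hleft : ∀ r : ℝ, (r : ℂ) ∈ (e i).target → 0 < r → r < 1 → W (q r) = G r := by
    intro r hr hr0 hr1
    have h1 : phiE (e i) (a i) (q r) = stp (a i) (Real.log r) := by
      rw [phiE, if_pos (hqsrc r hr), hqe r hr, Complex.norm_real, Real.norm_of_nonneg hr0.le,
        if_pos hr1]
    rw [hW, hG]
    simp only
    congr 2
    rw [hR]
    simp only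
    rw [hsum r hr, h1]
    ring
  have hright : ∀ r : ℝ, (r : ℂ) ∈ (e i).target → 0 < r → 1 < r →
      W (q r) = G r + ((t i : ℝ) : UnitAddCircle) := by
    intro r hr hr0 hr1
    have h1 : phiE (e i) (a i) (q r) = stp (a i) (Real.log r) - 1 := by
      rw [phiE, if_pos (hqsrc r hr), hqe r hr, Complex.norm_real, Real.norm_of_nonneg hr0.le,
        if_neg (not_lt.2 hr1.le)]
    rw [hW, hG]
    simp only
    rw [add_assoc, ← AddCircle.coe_add]
    congr 2
    rw [hR]
    simp only
    rw [hsum r hr, h1]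
    ring
  have hq1s : q 1 ∈ (e i).source := hqsrc 1 (by rw [Complex.ofReal_one]; exact htgt)
  have hwc : ContinuousAt w (q 1) := by
    obtain ⟨L, hLc, hL⟩ := T07_lift (F := F) hB.smooth_u hB.smooth_v x (q 1)
    have h1 : ContinuousAt (fun y => ((L y : ℝ) : UnitAddCircle)) (q 1) :=
      (AddCircle.continuous_mk' (1 : ℝ)).continuousAt.comp hLc
    refine h1.congr ?_
    filter_upwards [hL] with y hy
    exact hy.1.symm
  have hφc : ContinuousAt φ' (q 1) := (hφ's (q 1)).continuousAt
  have hGc : ContinuousAt G 1 := by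
    refine ContinuousAt.add ?_ ?_
    · exact ContinuousAt.comp hwc hqc
    · refine (AddCircle.continuous_mk' (1 : ℝ)).continuousAt.comp ?_
      have hφq : ContinuousAt (fun r => φ' (q r)) 1 := ContinuousAt.comp (g := φ') hφc hqc
      refine ContinuousAt.sub hφq (ContinuousAt.mul continuousAt_const ?_)
      exact ((stp_contDiff (ha0 i)).continuous.continuousAt).comp
        (Real.continuousAt_log one_ne_zero)
  -- a base point
  obtain ⟨r₀, hr₀t, hr₀p, hr₀1⟩ : ∃ r : ℝ, (r : ℂ) ∈ (e i).target ∧ 0 < r ∧ r < 1 := by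
    have h1 : ∀ᶠ r : ℝ in 𝓝[<] 1, (r : ℂ) ∈ (e i).target ∧ 0 < r :=
      hev.filter_mono nhdsWithin_le_nhds
    obtain ⟨r, hr, hr2⟩ := (h1.and self_mem_nhdsWithin).exists
    exact ⟨r, hr.1, hr.2, hr2⟩
  have hr₀Ω : q r₀ ∈ Ω := hqΩ r₀ hr₀t hr₀p hr₀1.ne
  have hG1 : G 1 = W (q r₀) := by
    have h1 : Filter.Tendsto G (𝓝[<] 1) (𝓝 (G 1)) := hGc.tendsto.mono_left nhdsWithin_le_nhds
    have h2 : G =ᶠ[𝓝[<] 1] fun _ => W (q r₀) := by
      filter_upwards [hev.filter_mono nhdsWithin_le_nhds, self_mem_nhdsWithin] with r hr hr1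
      rw [← hleft r hr.1 hr.2 hr1]
      exact hWconst _ hr₀Ω _ (hqΩ r hr.1 hr.2 (ne_of_lt hr1))
    exact tendsto_nhds_unique (h1.congr' h2) tendsto_const_nhds
  have hG2 : G 1 + ((t i : ℝ) : UnitAddCircle) = W (q r₀) := by
    have h1 : Filter.Tendsto (fun r => G r + ((t i : ℝ) : UnitAddCircle)) (𝓝[>] 1)
        (𝓝 (G 1 + ((t i : ℝ) : UnitAddCircle))) :=
      (hGc.tendsto.mono_left nhdsWithin_le_nhds).add_const _
    have h2 : (fun r => G r + ((t i : ℝ) : UnitAddCircle)) =ᶠ[𝓝[>] 1] fun _ => W (q r₀) := by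
      filter_upwards [hev.filter_mono nhdsWithin_le_nhds, self_mem_nhdsWithin] with r hr hr1
      rw [← hright r hr.1 hr.2 hr1]
      exact hWconst _ hr₀Ω _ (hqΩ r hr.1 hr.2 (ne_of_gt hr1))
    exact tendsto_nhds_unique (h1.congr' h2) tendsto_const_nhds
  have hti : ((t i : ℝ) : UnitAddCircle) = 0 := by
    rw [← hG1] at hG2
    exact left_eq_add.1 hG2.symm
  obtain ⟨n, hn⟩ := (AddCircle.coe_eq_zero_iff (1 : ℝ)).1 hti
  exact ⟨n, by rw [← hn]; simp⟩

end Pool.Agent.Lib.MP_cca10c_ag
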