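import Pool.Agent.Lib.MP_cca10c_ag.Q03_CS
import Pool.Agent.Lib.MP_cca10c_ag.T07_Ind
import Pool.Agent.Lib.MP_cca10c_ag.T08_Class
import Pool.Agent.Lib.MP_cca10c_ag.Q04a_Disc
import Pool.Agent.Lib.MP_cca10c_ag.Q04b_Om
import Pool.Agent.Lib.MP_cca10c_ag.H09_Frame

/-!
# Module Q: every circle map on the capped surface lifts to a real function
-/

set_option autoImplicit false

open Topology Set

namespace Pool.Agent.Lib.MP_cca10c_ag

/-! ### Lagrangian subspaces -/

private theorem q4h_om_self {g : ℕ} (x : Fin g ⊕ Fin g → ℝ) : om x x = 0 := by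
  unfold om
  refine Finset.sum_eq_zero fun j _ => ?_
  ring

private theorem q4h_om_swap {g : ℕ} (x y : Fin g ⊕ Fin g → ℝ) : om x y = - om y x := by
  unfold om
  rw [← Finset.sum_neg_distrib]
  refine Finset.sum_congr rfl fun j _ => ?_
  ring

private noncomputable def q4hB (g : ℕ) : LinearMap.BilinForm ℝ (Fin g ⊕ Fin g → ℝ) :=
  LinearMap.mk₂ ℝ om
    (by
      intro x y z; unfold om; rw [← Finset.sum_add_distrib]
      refine Finset.sum_congr rfl fun j _ => ?_
      simp only [Pi.add_apply]; ring)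
    (by
      intro c x y; unfold om; rw [smul_eq_mul, Finset.mul_sum]
      refine Finset.sum_congr rfl fun j _ => ?_
      simp only [Pi.smul_apply, smul_eq_mul]; ring)
    (by
      intro x y z; unfold om; rw [← Finset.sum_add_distrib]
      refine Finset.sum_congr rfl fun j _ => ?_
      simp only [Pi.add_apply]; ring)
    (by
      intro c x y; unfold om; rw [smul_eq_mul, Finset.mul_sum]
      refine Finset.sum_congr rfl fun j _ => ?_
      simp only [Pi.smul_apply, smul_eq_mul]; ring)

private theorem q4hB_apply {g : ℕ} (x y : Fin g ⊕ Fin g → ℝ) : q4hB g x y = om x y := rfl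

private theorem q4h_sep {g : ℕ} (x : Fin g ⊕ Fin g → ℝ) (h : ∀ y, om x y = 0) : x = 0 := by
  classical
  funext i
  rcases i with k | k
  · have h1 := h (Pi.single (Sum.inr k) 1)
    unfold om at h1
    rw [Finset.sum_eq_single k] at h1
    · simpa using h1
    · intro j _ hj
      simp [hj]
    · simp
  · have h1 := h (Pi.single (Sum.inl k) 1)
    unfold om at h1
    rw [Finset.sum_eq_single k] at h1
    · simpa using h1
    · intro j _ hj
      simp [hj]
    · simp

/-- a vector orthogonal to `g` independent pairwise orthogonal vectors is in their span -/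
private theorem q4h_lagr {g : ℕ} {c : Fin g → Fin g ⊕ Fin g → ℝ} (hi : LinearIndependent ℝ c)
    (hc : ∀ i j, om (c i) (c j) = 0) {x : Fin g ⊕ Fin g → ℝ} (hx : ∀ i, om x (c i) = 0) :
    ∃ t : Fin g → ℝ, x = ∑ i, t i • c i := by
  have hnd : (q4hB g).Nondegenerate := by
    refine ⟨fun x hx => q4h_sep x hx, fun y hy => q4h_sep y fun x => ?_⟩
    rw [q4h_om_swap, ← q4hB_apply, hy x, neg_zero]
  set W := Submodule.span ℝ (Set.range c) with hW
  have hdW : Module.finrank ℝ W = g := by
    rw [hW, finrank_span_eq_card hi, Fintype.card_fin]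
  have hdO : Module.finrank ℝ ((q4hB g).orthogonal W) = g := by
    rw [LinearMap.BilinForm.finrank_orthogonal hnd, hdW]
    simp
  have hle : W ≤ (q4hB g).orthogonal W := by
    rw [hW, Submodule.span_le]
    rintro _ ⟨i, rfl⟩
    intro y hy
    show q4hB g y (c i) = 0
    refine Submodule.span_induction (p := fun y _ => q4hB g y (c i) = 0) ?_ ?_ ?_ ?_ hy
    · rintro _ ⟨j, rfl⟩; exact hc j i
    · simp
    · intro a b _ _ ha hb; simp [ha, hb]
    · intro r a _ ha; simp [ha]
  have heq : W = (q4hB g).orthogonal W := by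
    apply Submodule.eq_of_le_of_finrank_eq hle
    rw [hdW, hdO]
  have hxW : x ∈ W := by
    rw [heq]
    intro y hy
    show q4hB g y x = 0
    refine Submodule.span_induction (p := fun y _ => q4hB g y x = 0) ?_ ?_ ?_ ?_ hy
    · rintro _ ⟨j, rfl⟩
      rw [q4hB_apply, q4h_om_swap, hx j, neg_zero]
    · simp
    · intro a b _ _ ha hb; simp [ha, hb]
    · intro r a _ ha; simp [ha]
  rw [hW, Submodule.mem_span_range_iff_exists_fun] at hxW
  obtain ⟨t, ht⟩ := hxW
  exact ⟨t, ht.symm⟩

/-! ### collars are connected -/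

private theorem q4h_collar_conn {X : Type} [TopologicalSpace X] {S : CS X}
    {e : OpenPartialHomeomorph X ℂ} {l : ℝ} (h : IsAnn S e l) (s : Bool) {ε : ℝ} (hε : ε ≤ l) :
    IsPreconnected (collar e s ε) := by
  have hl := h.2.1
  have hcv : Convex ℝ {z : ℂ | 0 < sg s * z.re ∧ sg s * z.re < ε} := by
    have h1 : {z : ℂ | 0 < sg s * z.re ∧ sg s * z.re < ε} =
        (sg s • Complex.reLm : ℂ →ₗ[ℝ] ℝ) ⁻¹' (Ioo 0 ε) := by
      ext z
      simp
    rw [h1]
    exact (convex_Ioo 0 ε).linear_preimage _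
  have habs : ∀ z : ℂ, 0 < sg s * z.re → sg s * z.re < ε → Complex.exp z ∈ e.target := by
    intro z h1 h2
    rw [h.2.2]
    have h3 : -l < z.re ∧ z.re < l := by
      cases s <;> simp only [sg, if_true, if_false, Bool.false_eq_true] at h1 h2 <;>
        constructor <;> linarith
    rw [mem_ofPred_eq, Complex.norm_exp]
    exact ⟨Real.exp_lt_exp.2 h3.1, Real.exp_lt_exp.2 h3.2⟩
  have him : collar e s ε =
      (fun z => e.symm (Complex.exp z)) '' {z : ℂ | 0 < sg s * z.re ∧ sg s * z.re < ε} := by
    ext x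
    constructor
    · rintro ⟨hx, h1, h2⟩
      have hne : e x ≠ 0 := by
        have := e.map_source hx
        rw [h.2.2] at this
        exact norm_pos_iff.1 ((Real.exp_pos _).trans this.1)
      refine ⟨Complex.log (e x), ?_, ?_⟩
      · simp only [mem_ofPred_eq, Complex.log_re]
        exact ⟨h1, h2⟩
      · show e.symm (Complex.exp (Complex.log (e x))) = x
        rw [Complex.exp_log hne, e.left_inv hx]
    · rintro ⟨z, ⟨h1, h2⟩, rfl⟩
      have ht := habs z h1 h2
      refine ⟨e.map_target ht, ?_⟩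
      show 0 < sg s * Real.log ‖e (e.symm (Complex.exp z))‖ ∧
        sg s * Real.log ‖e (e.symm (Complex.exp z))‖ < ε
      rw [e.right_inv ht, Complex.norm_exp, Real.log_exp]
      exact ⟨h1, h2⟩
  rw [him]
  refine hcv.isPreconnected.image _ ?_
  intro z hz
  have ht := habs z hz.1 hz.2
  exact ((e.continuousAt_symm ht).comp (f := Complex.exp)
    Complex.continuous_exp.continuousAt).continuousWithinAt

/-- a continuous function with integer values on a connected set is constant -/
private theorem q4h_const_int {X : Type} [TopologicalSpace X] {U : Set X} (hU : IsPreconnected U)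
    {R : X → ℝ} (hR : ContinuousOn R U) (hz : ∀ x ∈ U, ((R x : ℝ) : UnitAddCircle) = 0) :
    ∃ k : ℝ, ((k : ℝ) : UnitAddCircle) = 0 ∧ ∀ x ∈ U, R x = k := by
  have hT : IsDiscrete (Set.range ((↑) : ℤ → ℝ)) := by
    rw [isDiscrete_iff_discreteTopology]
    exact (Int.isClosedEmbedding_coe_real.isEmbedding.toHomeomorph.discreteTopology)
  obtain ⟨k, hk, h⟩ := hU.eqOn_const_of_mapsTo hT hR (fun x hx => by
    obtain ⟨n, hn⟩ := (AddCircle.coe_eq_zero_iff (1 : ℝ)).1 (hz x hx)
    exact ⟨n, by rw [← hn]; simp⟩) ⟨0, 0, by simp⟩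
  refine ⟨k, ?_, h⟩
  obtain ⟨n, rfl⟩ := hk
  rw [AddCircle.coe_eq_zero_iff]
  exact ⟨n, by simp⟩

/-! ### the function supported in a disc -/

/-- the disc at the added point -/
private def q4hD {X : Type} [TopologicalSpace X] {g : ℕ} (e : Fin g → OpenPartialHomeomorph X ℂ)
    (i : Fin g) (s : Bool) (ε : ℝ) : Set (Capd e) :=
  {y | y = Capd.cap i s ∨ ∃ x hx, y = Capd.pt x hx ∧ x ∈ collar (e i) s ε}

/-- continuous cutoff in the disc -/
private noncomputable def q4hχ (z : ℂ) : ℝ :=
  max 0 (min 1 ((Real.exp (3 / 2) - ‖z‖) / (Real.exp (3 / 2) - Real.exp 1)))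

private theorem q4h_den : 0 < Real.exp (3 / 2) - Real.exp 1 :=
  sub_pos.2 (Real.exp_lt_exp.2 (by norm_num))

private theorem q4hχ_cont : Continuous q4hχ := by
  unfold q4hχ
  fun_prop

private theorem q4hχ_one {z : ℂ} (h : ‖z‖ ≤ Real.exp 1) : q4hχ z = 1 := by
  unfold q4hχ
  have h1 : 1 ≤ (Real.exp (3 / 2) - ‖z‖) / (Real.exp (3 / 2) - Real.exp 1) := by
    rw [le_div_iff₀ q4h_den]
    linarith
  rw [min_eq_left h1]
  exact max_eq_right zero_le_one

private theorem q4hχ_zero {z : ℂ} (h : Real.exp (3 / 2) ≤ ‖z‖) : q4hχ z = 0 := by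
  unfold q4hχ
  have h1 : (Real.exp (3 / 2) - ‖z‖) / (Real.exp (3 / 2) - Real.exp 1) ≤ 0 :=
    div_nonpos_of_nonpos_of_nonneg (by linarith) q4h_den.le
  rw [max_eq_left]
  exact (min_le_right _ _).trans h1

section cap

variable {X : Type} {g : ℕ} [TopologicalSpace X] [CompactSpace X] [T2Space X] {S : CS X}
  {e : Fin g → OpenPartialHomeomorph X ℂ} {l : Fin g → ℝ}

omit [CompactSpace X] [T2Space X] in
private theorem q4h_norm_sideC {S : CS X} {e : OpenPartialHomeomorph X ℂ} {l : ℝ}
    (h : IsAnn S e l) {x : X} (hx : x ∈ e.source) (s : Bool) :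
    ‖sideC e s x‖ = Real.exp (sg s * Real.log ‖e x‖) := by
  have hpos : 0 < ‖e x‖ := by
    have := e.map_source hx
    rw [h.2.2] at this
    exact (Real.exp_pos _).trans this.1
  cases s
  · simp [sideC, sg, Real.exp_neg, Real.exp_log hpos]
  · simp [sideC, sg, Real.exp_log hpos]

private theorem q4h_G (h : CapHyp S e l) (i : Fin g) (s : Bool) {w : Capd e → UnitAddCircle}
    (hw : Continuous w) : ∃ G : Capd e → ℝ, Continuous G ∧ (∀ y ∉ q4hD e i s (l i), G y = 0) ∧
      ∀ y ∈ q4hD e i s 1, w y = ((G y : ℝ) : UnitAddCircle) := by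
  classical
  have := Capd.t2 h
  obtain ⟨c, hc⟩ := exists_capChart h i s
  have hsrc : c.source = q4hD e i s (l i) := hc.src
  have hl := h.len i
  have hcw : ContinuousOn (w ∘ c.symm) (Metric.ball 0 (Real.exp (l i))) := by
    rw [← hc.tgt]
    exact hw.comp_continuousOn c.continuousOn_symm
  obtain ⟨f, hf, hWf⟩ := disc_lift (Real.exp_pos (l i)) hcw
  have hf' : ∀ z ∈ c.target, ContinuousAt f z := by
    intro z hz
    refine hf.continuousAt ?_
    rw [← hc.tgt]
    exact c.open_target.mem_nhds hz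
  refine ⟨fun y => if y ∈ c.source then q4hχ (c y) * f (c y) else 0, ?_, ?_, ?_⟩
  · rw [continuous_iff_continuousAt]
    intro y
    by_cases hy : y ∈ c.source
    · have h1 : ContinuousAt (fun y => q4hχ (c y) * f (c y)) y := by
        have h2 := c.continuousAt hy
        exact (q4hχ_cont.continuousAt.comp h2).mul
          (ContinuousAt.comp (hf' _ (c.map_source hy)) h2)
      refine h1.congr ?_
      filter_upwards [c.open_source.mem_nhds hy] with z hz
      rw [if_pos hz]
    · have hsub : Metric.closedBall (0 : ℂ) (Real.exp (3 / 2)) ⊆ c.target := by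
        rw [hc.tgt]
        exact Metric.closedBall_subset_ball (Real.exp_lt_exp.2 (by linarith))
      have hK : IsCompact (c.symm '' Metric.closedBall (0 : ℂ) (Real.exp (3 / 2))) :=
        (isCompact_closedBall _ _).image_of_continuousOn (c.continuousOn_symm.mono hsub)
      have hyK : y ∉ c.symm '' Metric.closedBall (0 : ℂ) (Real.exp (3 / 2)) := by
        rintro ⟨z, hz, rfl⟩
        exact hy (c.map_target (hsub hz))
      have h1 : ContinuousAt (fun _ : Capd e => (0 : ℝ)) y := continuousAt_const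
      refine h1.congr ?_
      filter_upwards [hK.isClosed.isOpen_compl.mem_nhds hyK] with z hz
      by_cases hzs : z ∈ c.source
      · rw [if_pos hzs, q4hχ_zero, zero_mul]
        by_contra hcon
        refine hz ⟨c z, ?_, c.left_inv hzs⟩
        rw [mem_closedBall_zero_iff]
        exact (not_le.1 hcon).le
      · rw [if_neg hzs]
  · intro y hy
    rw [← hsrc] at hy
    exact if_neg hy
  · intro y hy
    have hyD : y ∈ c.source := by
      rw [hsrc]
      rcases hy with hy | ⟨x, hx, rfl, h1, h2, h3⟩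
      · exact Or.inl hy
      · exact Or.inr ⟨x, hx, rfl, h1, h2, by linarith⟩
    have hn : ‖c y‖ ≤ Real.exp 1 := by
      rcases hy with rfl | ⟨x, hx, rfl, h1, h2, h3⟩
      · rw [hc.zero, norm_zero]; exact (Real.exp_pos _).le
      · rcases lt_or_ge (sg s * Real.log ‖e i x‖) (1 / 2) with h4 | h4
        · refine (hc.lt x hx ⟨h1, h2, h4⟩).le.trans ?_
          exact Real.exp_le_exp.2 (by norm_num)
        · rw [hc.eq x hx ⟨h1, h2, by linarith⟩ h4, q4h_norm_sideC (h.ann i) h1]
          exact Real.exp_le_exp.2 h3.le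
    show w y = (((if y ∈ c.source then q4hχ (c y) * f (c y) else 0 : ℝ)) : UnitAddCircle)
    rw [if_pos hyD, q4hχ_one hn, one_mul, ← hWf (c y) (hc.tgt ▸ c.map_source hyD)]
    show w y = w (c.symm (c y))
    rw [c.left_inv hyD]

omit [CompactSpace X] [T2Space X] in
/-- the discs are disjoint -/
private theorem q4h_disj (h : CapHyp S e l) {i j : Fin g} {s t : Bool} {ε δ : ℝ} {y : Capd e}
    (h1 : y ∈ q4hD e i s ε) (h2 : y ∈ q4hD e j t δ) : i = j ∧ s = t := by
  rcases h1 with rfl | ⟨x, hx, rfl, h3, h4, h5⟩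
  · rcases h2 with h2 | ⟨x, hx, h2, -⟩
    · injection h2 with h6 h7
      exact ⟨h6, h7⟩
    · cases h2
  · rcases h2 with h2 | ⟨x', hx', h2, h3', h4', h5'⟩
    · cases h2
    · injection h2 with h6
      subst h6
      have hij : i = j := by
        by_contra hne
        exact Set.disjoint_left.1 (h.disj hne) h3 h3'
      subst hij
      refine ⟨rfl, ?_⟩
      cases s <;> cases t
      · rfl
      · exfalso; simp [sg] at h4 h4'; linarith
      · exfalso; simp [sg] at h4 h4'; linarith
      · rfl

end cap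

/-! ### sums of multiples of circle maps -/

private theorem q4h_comb_sum {X : Type} {g m : ℕ} (u v : Fin g → X → UnitAddCircle)
    (n : Fin m → ℤ) (b : Fin m → Fin g ⊕ Fin g → ℤ) (x : X) :
    comb u v (∑ i, n i • b i) x = ∑ i, n i • comb u v (b i) x := by
  have h1 : ∀ k : Fin g ⊕ Fin g, ∀ c : UnitAddCircle,
      (∑ i, n i • b i) k • c = ∑ i, n i • (b i k • c) := by
    intro k c
    rw [Finset.sum_apply, Finset.sum_smul]
    refine Finset.sum_congr rfl fun i _ => ?_
    rw [Pi.smul_apply, smul_assoc]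
  unfold comb
  simp only [h1]
  rw [Finset.sum_comm, Finset.sum_comm (s := Finset.univ) (t := Finset.univ)
    (f := fun j i => n i • (b i (Sum.inr j) • v j x)), ← Finset.sum_add_distrib]
  refine Finset.sum_congr rfl fun i _ => ?_
  rw [smul_add, Finset.smul_sum, Finset.smul_sum]

private theorem q4h_coe_sum {m : ℕ} (n : Fin m → ℤ) (a : Fin m → ℝ) :
    ((∑ i, (n i : ℝ) * a i : ℝ) : UnitAddCircle) = ∑ i, n i • ((a i : ℝ) : UnitAddCircle) := by
  have h1 : ∀ s : Finset (Fin m), ((∑ i ∈ s, (n i : ℝ) * a i : ℝ) : UnitAddCircle) =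
      ∑ i ∈ s, n i • ((a i : ℝ) : UnitAddCircle) := by
    intro s
    induction s using Finset.cons_induction with
    | empty => simp
    | cons i s hi ih =>
      rw [Finset.sum_cons, Finset.sum_cons, AddCircle.coe_add, ih, ← zsmul_eq_mul]
      rfl
  exact h1 _


variable {X : Type} {g : ℕ} [TopologicalSpace X] [CompactSpace X] [T2Space X] [ConnectedSpace X]
  {S : CS X} {e : Fin g → OpenPartialHomeomorph X ℂ} {l : Fin g → ℝ}

/-- Subtract from `w` real functions supported in the discs `|c| < exp (3/2)` so that the rest `w'`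
vanishes on `|c| ≤ exp 1`; `w'` extended by zero to `X` is `comb u v n + f`; `om (zV n) (zV (b i)) = 0`, the
`b i` span a Lagrangian subspace, so `zV n = ∑ t i • zV (b i)` with integers `t i` (`sat_of_indep`); off
the cores `betaC (e i) a` is the reduction of `phiE (e i) a`. So `w'` lifts off the cores to a real
function which is locally constant near the added points. -/
theorem Capd.lift (h : CapHyp S e l) {u v : Fin g → X → UnitAddCircle} (hB : SymplBasis S g u v)
    {b : Fin g → Fin g ⊕ Fin g → ℤ} (hb : ∀ i, AnnTop u v (e i) (l i) (b i))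
    (hi : LinearIndependent ℝ fun i => zV (b i)) (w : Capd e → UnitAddCircle) (hw : Continuous w) :
    ∃ f : Capd e → ℝ, Continuous f ∧ ∀ y, w y = ((f y : ℝ) : UnitAddCircle) := by
  classical
  choose G hGc hG0 hG1 using fun p : Fin g × Bool => q4h_G h p.1 p.2 hw
  set GS : Capd e → ℝ := fun y => ∑ p, G p y with hGS
  have hGSc : Continuous GS := continuous_finsetSum _ fun p _ => hGc p
  have hGSw : ∀ i s y, y ∈ q4hD e i s 1 → w y = ((GS y : ℝ) : UnitAddCircle) := by
    intro i s y hy
    have h1 : GS y = G (i, s) y := by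
      rw [hGS]
      refine Finset.sum_eq_single (i, s) ?_ (by simp)
      rintro ⟨j, t⟩ - hne
      refine hG0 (j, t) y fun hy' => hne ?_
      obtain ⟨h1, h2⟩ := q4h_disj h hy' hy
      exact Prod.ext h1 h2
    rw [h1]
    exact hG1 (i, s) y hy
  set w' : Capd e → UnitAddCircle := fun y => w y - ((GS y : ℝ) : UnitAddCircle) with hw'
  have hw'c : Continuous w' := hw.sub ((AddCircle.continuous_mk' (1 : ℝ)).comp hGSc)
  have hw'0 : ∀ i s y, y ∈ q4hD e i s 1 → w' y = 0 := fun i s y hy =>
    sub_eq_zero.2 (hGSw i s y hy)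
  set Ω : Set X := {x : X | ∀ i, x ∉ core (e i)} with hΩ
  have hΩo : IsOpen Ω := cores_closed h
  set wX : X → UnitAddCircle := fun x =>
    if hx : ∀ i, x ∉ core (e i) then w' (Capd.pt x hx) else 0 with hwXd
  have hwX : ∀ x (hx : ∀ i, x ∉ core (e i)), wX x = w' (Capd.pt x hx) := fun x hx => dif_pos hx
  have hwX0 : ∀ i x, x ∈ (e i).source → |Real.log ‖e i x‖| < 1 → wX x = 0 := by
    intro i x hxs hx1
    by_cases hx : ∀ j, x ∉ core (e j)
    · rw [hwX x hx]
      have hpos : 0 < ‖e i x‖ := by
        have := (e i).map_source hxs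
        rw [(h.ann i).2.2] at this
        exact (Real.exp_pos _).trans this.1
      have hne : Real.log ‖e i x‖ ≠ 0 := by
        intro h0
        refine hx i ⟨hxs, ?_⟩
        rw [← Real.exp_log hpos, h0, Real.exp_zero]
      rw [abs_lt] at hx1
      rcases lt_or_gt_of_ne hne with h1 | h1
      · refine hw'0 i false _ (Or.inr ⟨x, hx, rfl, hxs, ?_, ?_⟩)
        · simp only [sg, Bool.false_eq_true, if_false]; linarith
        · simp only [sg, Bool.false_eq_true, if_false]; linarith
      · refine hw'0 i true _ (Or.inr ⟨x, hx, rfl, hxs, ?_, ?_⟩)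
        · simp only [sg, if_true]; linarith
        · simp only [sg, if_true]; linarith
    · exact dif_neg hx
  have hwXc : Continuous wX := by
    rw [continuous_iff_continuousAt]
    intro x
    by_cases hx : ∀ i, x ∉ core (e i)
    · have h2 : ContinuousOn wX Ω := by
        rw [continuousOn_iff_continuous_domRestrict]
        have h3 := hw'c.comp (pt_openEmbedding e).continuous
        refine h3.congr fun y => ?_
        exact (hwX y.1 y.2).symm
      exact h2.continuousAt (hΩo.mem_nhds hx)
    · obtain ⟨i, hi'⟩ := not_forall.1 hx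
      obtain ⟨hxs, hxn⟩ := not_not.1 hi'
      have h3 : ContinuousAt (fun y => Real.log ‖e i y‖) x := by
        refine (((e i).continuousAt hxs).norm).log ?_
        rw [hxn]
        exact one_ne_zero
      have h4 : ∀ᶠ y in 𝓝 x, |Real.log ‖e i y‖| < 1 := by
        refine h3.abs.eventually (gt_mem_nhds ?_)
        show |Real.log ‖e i x‖| < 1
        rw [hxn]
        simp
      have h5 : ContinuousAt (fun _ : X => (0 : UnitAddCircle)) x := continuousAt_const
      refine h5.congr ?_
      filter_upwards [h4, (e i).open_source.mem_nhds hxs] with y hy hys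
      exact (hwX0 i y hys hy).symm
  obtain ⟨m, f0, hf0, hm⟩ : ∃ m, SameClass (comb u v m) wX := by
    obtain ⟨m, n, f, hf, h⟩ := hB.gen wX hwXc
    exact ⟨Sum.elim m n, f, hf, h⟩
  have h12 : ∀ i, (1 / 2 : ℝ) < l i := by
    intro i
    have := h.len i
    linarith
  choose fb hfb hfbe using fun i => hb i (1 / 2) (by norm_num) (h12 i)
  have hom : ∀ i, om (zV m) (zV (b i)) = 0 := by
    intro i
    refine om_zero_of_lift hB (h.ann i) (hb i) m (a := 1 / 2) (by norm_num) (h12 i)
      (f := fun x => - f0 x) hf0.neg.continuousOn ?_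
    intro x hx
    have h1 : wX x = 0 := hwX0 i x hx.1 (lt_of_le_of_lt hx.2 (by norm_num))
    rw [hm x] at h1
    rw [AddCircle.coe_neg]
    exact eq_neg_of_add_eq_zero_left h1
  have homb : ∀ i j, om (zV (b i)) (zV (b j)) = 0 := by
    intro i j
    by_cases hij : i = j
    · subst hij
      exact q4h_om_self _
    · refine om_zero_of_lift hB (h.ann j) (hb j) (b i) (a := 1 / 2) (by norm_num) (h12 j)
        (f := fun x => - fb i x) (hfb i).neg.continuousOn ?_
      intro x hx
      have h1 : x ∉ (e i).source := fun h' => Set.disjoint_left.1 (h.disj hij) h' hx.1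
      have h2 : betaC (e i) (1 / 2) x = 0 := by
        unfold betaC phiE
        rw [if_neg h1]
        rfl
      rw [hfbe i x] at h2
      rw [AddCircle.coe_neg]
      exact eq_neg_of_add_eq_zero_left h2
  obtain ⟨t, ht⟩ := q4h_lagr hi homb hom
  obtain ⟨F, hF⟩ := S.exists_tame
  have hn' : ∀ i, ∃ n : ℤ, t i = n := fun i =>
    sat_of_indep F hF hB h.ann h.disj (fun i => (hb i).annCls F hF hB (h.ann i)) hi t m ht i
  choose n hn using hn'
  have hmn : m = ∑ i, n i • b i := by
    funext k
    have h1 := congrFun ht k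
    have h2 : ((m k : ℤ) : ℝ) = (((∑ i, n i • b i) k : ℤ) : ℝ) := by
      rw [Finset.sum_apply] at h1 ⊢
      push_cast
      rw [show zV m k = (m k : ℝ) from rfl] at h1
      rw [h1]
      refine Finset.sum_congr rfl fun i _ => ?_
      simp [zV, hn i]
    exact Int.cast_injective h2
  set R : X → ℝ := fun x => ∑ i, (n i : ℝ) * (phiE (e i) (1 / 2) x - fb i x) + f0 x with hRd
  have hR : ∀ x, wX x = ((R x : ℝ) : UnitAddCircle) := by
    intro x
    have h1 : ∀ i, comb u v (b i) x = ((phiE (e i) (1 / 2) x - fb i x : ℝ) : UnitAddCircle) := by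
      intro i
      have h2 : ((phiE (e i) (1 / 2) x : ℝ) : UnitAddCircle) =
        comb u v (b i) x + ((fb i x : ℝ) : UnitAddCircle) := hfbe i x
      rw [AddCircle.coe_sub, h2]
      abel
    rw [hm x, hmn, q4h_comb_sum]
    simp only [h1]
    rw [← q4h_coe_sum, ← AddCircle.coe_add]
  have hRc : ∀ x ∈ Ω, ContinuousAt R x := by
    intro x hx
    have h1 : ∀ i, ContinuousAt (phiE (e i) (1 / 2)) x := fun i =>
      (phiE_smooth (h.ann i) (by norm_num) (h12 i) (hx i)).self_of_nhds.continuousAt
    refine ContinuousAt.add ?_ hf0.continuousAt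
    refine tendsto_finsetSum _ fun i _ => ?_
    exact continuousAt_const.mul ((h1 i).sub (hfb i).continuousAt)
  have hcol : ∀ i s x, x ∈ collar (e i) s 1 → x ∈ Ω := by
    rintro i s x ⟨h1, h2, -⟩ j ⟨h3, h4⟩
    have hij : i = j := by
      by_contra hne
      exact Set.disjoint_left.1 (h.disj hne) h1 h3
    subst hij
    rw [h4, Real.log_one, mul_zero] at h2
    exact lt_irrefl _ h2
  have hkk : ∀ p : Fin g × Bool, ∃ k : ℝ, ((k : ℝ) : UnitAddCircle) = 0 ∧
      ∀ x ∈ collar (e p.1) p.2 1, R x = k := by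
    rintro ⟨i, s⟩
    refine q4h_const_int (q4h_collar_conn (h.ann i) s (by have := h.len i; linarith))
      (fun x hx => (hRc x (hcol i s x hx)).continuousWithinAt) fun x hx => ?_
    have hxΩ := hcol i s x hx
    rw [← hR x, hwX x hxΩ]
    exact hw'0 i s _ (Or.inr ⟨x, hxΩ, rfl, hx⟩)
  choose k hk0 hk using hkk
  set F' : Capd e → ℝ := fun y => match y with
    | .pt x _ => R x
    | .cap i s => k (i, s) with hF'
  have hF'c : Continuous F' := by
    rw [continuous_iff_continuousAt]
    intro y
    rcases y with ⟨x, hx⟩ | ⟨i, s⟩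
    · have h1 : ContinuousAt (F' ∘ fun x : {x : X // ∀ i, x ∉ core (e i)} =>
          (Capd.pt x.1 x.2 : Capd e)) ⟨x, hx⟩ := by
        have h2 : ContinuousAt (R ∘ (Subtype.val : {x : X // ∀ i, x ∉ core (e i)} → X))
            ⟨x, hx⟩ := ContinuousAt.comp (hRc x hx) continuous_subtype_val.continuousAt
        exact h2
      exact ((pt_openEmbedding e).continuousAt_iff (x := ⟨x, hx⟩)).1 h1
    · have h1 : ContinuousAt (fun _ : Capd e => k (i, s)) (Capd.cap i s) := continuousAt_const
      refine h1.congr ?_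
      filter_upwards [cap_nhds h i s one_pos] with y hy
      rcases hy with rfl | ⟨x, hx, rfl, hxc⟩
      · rfl
      · exact (hk (i, s) x hxc).symm
  have hF'w : ∀ y, w' y = ((F' y : ℝ) : UnitAddCircle) := by
    intro y
    rcases y with ⟨x, hx⟩ | ⟨i, s⟩
    · rw [← hwX x hx, hR x]
    · rw [hw'0 i s _ (Or.inl rfl)]
      exact (hk0 (i, s)).symm
  refine ⟨fun y => F' y + GS y, hF'c.add hGSc, fun y => ?_⟩
  rw [AddCircle.coe_add, ← hF'w y]
  simp only [hw', sub_add_cancel]

/-- the capped surface has genus zero -/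
theorem Capd.symplBasis (h : CapHyp S e l) {u v : Fin g → X → UnitAddCircle}
    (hB : SymplBasis S g u v) {b : Fin g → Fin g ⊕ Fin g → ℤ}
    (hb : ∀ i, AnnTop u v (e i) (l i) (b i)) (hi : LinearIndependent ℝ fun i => zV (b i))
    (T : CS (Capd e)) (u' v' : Fin 0 → Capd e → UnitAddCircle) : SymplBasis T 0 u' v' where
  smooth_u := fun j => j.elim0
  smooth_v := fun j => j.elim0
  uu := fun _ j => j.elim0
  vv := fun _ j => j.elim0
  uv := fun _ j => j.elim0
  gen := fun w hw => by
    obtain ⟨f, hf, h1⟩ := Capd.lift h hB hb hi w hw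
    exact ⟨fun j => j.elim0, fun j => j.elim0, f, hf, fun x => by simp [h1 x]⟩

end Pool.Agent.Lib.MP_cca10c_ag
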