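import Pool.Agent.Lib.MP_cca10c_ag.Q03_CS
import Pool.Agent.Lib.MP_cca10c_ag.H03_HolOn
import Pool.Agent.Lib.MP_cca10c_ag.T01_Ann

/-!
# Module Q: the map from the capped surface (minus small discs) to the surface

`κ (pt x) = x` off the sets `midA (e i) (1/2)`, and `κ = e i ⁻¹` in the disc charts (up to the inversion).
The foot `(i, false)` is the added point `cap i true` on the side `‖ζ‖ > 1` of the annulus, the foot `(i, true)` is
the added point `cap i false`.
The point `y` is in the disc of `c j` or `y = pt x` with `x` off the annuli; in the second case, `κ (pt x') = x'`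
for all `x'` near `x`, because `c j (pt x') = sideC (e i) s x'` if `|log ‖e i x'‖| ≥ 1/2`.
-/

set_option autoImplicit false

open Topology Set

namespace Pool.Agent.Lib.MP_cca10c_ag

variable {X : Type} {g : ℕ} [TopologicalSpace X]

/-- the part of the capped surface which is mapped to `X` -/
def capDom {e : Fin g → OpenPartialHomeomorph X ℂ} (l : Fin g → ℝ)
    (c : Fin g × Bool → OpenPartialHomeomorph (Capd e) ℂ) : Set (Capd e) :=
  {y | ∀ j, y ∈ (c j).source → Real.exp (-l j.1) < ‖c j y‖}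

/-- the properties of the map `κ` -/
structure IsKappa (S : CS X) (e : Fin g → OpenPartialHomeomorph X ℂ) (l : Fin g → ℝ)
    (T : CS (Capd e)) (c : Fin g × Bool → OpenPartialHomeomorph (Capd e) ℂ) (κ : Capd e → X) :
    Prop where
  cap : ∀ j, IsCapChart e l j.1 (!j.2) (c j)
  mem : ∀ j, c j ∈ T.charts
  disj : Pairwise fun j k => Disjoint (c j).source (c k).source
  eqF : ∀ i z, Real.exp (-l i) < ‖z‖ → ‖z‖ < Real.exp (l i) →
    κ ((c (i, false)).symm z) = (e i).symm z
  eqT : ∀ i z, Real.exp (-l i) < ‖z‖ → ‖z‖ < Real.exp (l i) →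
    κ ((c (i, true)).symm z) = (e i).symm z⁻¹
  opn : IsOpen (capDom l c)
  hol : ∀ d ∈ T.charts, S.HolOn (κ ∘ d.symm) (d.target ∩ d.symm ⁻¹' capDom l c)
  onto : ∀ x, ∃ y ∈ capDom l c, κ y = x
  fib : ∀ y ∈ capDom l c, ∀ y' ∈ capDom l c, κ y = κ y' ↔ (y = y' ∨
    (∃ i z, Real.exp (-l i) < ‖z‖ ∧ ‖z‖ < Real.exp (l i) ∧ y = (c (i, false)).symm z ∧
      y' = (c (i, true)).symm z⁻¹) ∨
    (∃ i z, Real.exp (-l i) < ‖z‖ ∧ ‖z‖ < Real.exp (l i) ∧ y' = (c (i, false)).symm z ∧
      y = (c (i, true)).symm z⁻¹))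

variable [CompactSpace X] [T2Space X] {S : CS X}
variable {e : Fin g → OpenPartialHomeomorph X ℂ} {l : Fin g → ℝ}

/-- identity or inversion -/
private noncomputable def Q06_iv (b : Bool) (z : ℂ) : ℂ := if b then z⁻¹ else z

open Classical in
/-- the map `κ` -/
private noncomputable def Q06_kap (e : Fin g → OpenPartialHomeomorph X ℂ)
    (c : Fin g × Bool → OpenPartialHomeomorph (Capd e) ℂ) (y : Capd e) : X :=
  if h : ∃ j, y ∈ (c j).source then (e h.choose.1).symm (Q06_iv h.choose.2 (c h.choose y))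
  else match y with
    | Capd.pt x _ => x
    | Capd.cap i _ => (e i).symm 1

private theorem Q06_norm (h : CapHyp S e l) {i : Fin g} {x : X} (hx : x ∈ (e i).source) :
    Real.exp (-l i) < ‖e i x‖ ∧ ‖e i x‖ < Real.exp (l i) := by
  have h1 := (e i).map_source hx
  rw [(h.ann i).2.2] at h1
  exact h1

private theorem Q06_collar (h : CapHyp S e l) {i : Fin g} {x : X} (hx : x ∈ (e i).source)
    (hc : x ∉ core (e i)) : ∃ s, x ∈ collar (e i) s (l i) := by
  obtain ⟨h1, h2⟩ := Q06_norm h hx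
  have hpos : 0 < ‖e i x‖ := (Real.exp_pos _).trans h1
  have h3 : -l i < Real.log ‖e i x‖ := by
    rwa [Real.lt_log_iff_exp_lt hpos]
  have h4 : Real.log ‖e i x‖ < l i := by
    rwa [Real.log_lt_iff_lt_exp hpos]
  have h5 : Real.log ‖e i x‖ ≠ 0 := by
    intro h6
    rcases Real.log_eq_zero.1 h6 with h7 | h7 | h7
    · exact hpos.ne' h7
    · exact hc ⟨hx, h7⟩
    · linarith
  rcases lt_or_gt_of_ne h5 with h6 | h6
  · refine ⟨false, hx, ?_, ?_⟩
    · simp only [sg, Bool.false_eq_true, if_false]; linarith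
    · simp only [sg, Bool.false_eq_true, if_false]; linarith
  · refine ⟨true, hx, ?_, ?_⟩
    · simp only [sg, if_true]; linarith
    · simp only [sg, if_true]; linarith

section chart

variable {c : Fin g × Bool → OpenPartialHomeomorph (Capd e) ℂ}

private theorem Q06_disj (h : CapHyp S e l) (hc : ∀ j, IsCapChart e l j.1 (!j.2) (c j)) :
    Pairwise fun j k => Disjoint (c j).source (c k).source := by
  intro j k hjk
  rw [Set.disjoint_left]
  intro y hy hy'
  rw [(hc j).src] at hy
  rw [(hc k).src] at hy'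
  rcases hy with rfl | ⟨x, hx, rfl, hxc⟩
  · rcases hy' with h1 | ⟨x, hx, h1, -⟩
    · simp only [Capd.cap.injEq] at h1
      apply hjk
      refine Prod.ext h1.1 ?_
      exact Bool.not_inj h1.2
    · exact absurd h1 (by simp)
  · rcases hy' with h1 | ⟨x', hx', h1, hxc'⟩
    · exact absurd h1 (by simp)
    · simp only [Capd.pt.injEq] at h1
      subst h1
      apply hjk
      have h2 : j.1 = k.1 := by
        by_contra hne
        exact Set.disjoint_left.1 (h.disj hne) hxc.1 hxc'.1
      refine Prod.ext h2 ?_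
      by_contra hne
      have h3 := hxc.2.1
      have h4 := hxc'.2.1
      rw [← h2] at h4
      have h5 : (!j.2) ≠ (!k.2) := fun h => hne (Bool.not_inj h)
      revert h3 h4 h5
      cases hj2 : j.2 <;> cases hk2 : k.2 <;> simp [sg] <;> intro h3 <;> linarith

private theorem Q06_kap_src (h : CapHyp S e l) (hc : ∀ j, IsCapChart e l j.1 (!j.2) (c j))
    {j : Fin g × Bool} {y : Capd e} (hy : y ∈ (c j).source) :
    Q06_kap e c y = (e j.1).symm (Q06_iv j.2 (c j y)) := by
  have hex : ∃ j, y ∈ (c j).source := ⟨j, hy⟩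
  have h1 : hex.choose = j := by
    by_contra hne
    exact Set.disjoint_left.1 (Q06_disj h hc hne) hex.choose_spec hy
  rw [Q06_kap, dif_pos hex, h1]

private theorem Q06_kap_out {y : Capd e} (hy : ∀ j, y ∉ (c j).source) {x : X} {hx}
    (hyx : y = Capd.pt x hx) : Q06_kap e c y = x := by
  subst hyx
  rw [Q06_kap, dif_neg (by push Not; exact hy)]

private theorem Q06_out (h : CapHyp S e l) (hc : ∀ j, IsCapChart e l j.1 (!j.2) (c j))
    {y : Capd e} (hy : ∀ j, y ∉ (c j).source) :
    ∃ x hx, y = Capd.pt x hx ∧ ∀ i, x ∉ (e i).source := by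
  cases y with
  | cap i s =>
    exfalso
    apply hy (i, !s)
    rw [(hc _).src]
    left
    simp
  | pt x hx =>
    refine ⟨x, hx, rfl, fun i hi => ?_⟩
    obtain ⟨s, hs⟩ := Q06_collar h hi (hx i)
    apply hy (i, !s)
    rw [(hc _).src]
    right
    refine ⟨x, hx, rfl, ?_⟩
    simpa using hs

private theorem Q06_out' (hc : ∀ j, IsCapChart e l j.1 (!j.2) (c j)) {x : X} {hx}
    (h1 : ∀ i, x ∉ (e i).source) (j : Fin g × Bool) : (Capd.pt x hx : Capd e) ∉ (c j).source := by
  rw [(hc j).src]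
  rintro (h2 | ⟨x', hx', h2, h3⟩)
  · exact absurd h2 (by simp)
  · simp only [Capd.pt.injEq] at h2
    subst h2
    exact h1 _ h3.1

private theorem Q06_far (h : CapHyp S e l) (hc : ∀ j, IsCapChart e l j.1 (!j.2) (c j))
    {x : X} {hx} (h1 : ∀ i, x ∉ midA (e i) (1 / 2)) :
    Q06_kap e c (Capd.pt x hx) = x := by
  by_cases hex : ∃ j, (Capd.pt x hx : Capd e) ∈ (c j).source
  · obtain ⟨j, hj⟩ := hex
    rw [Q06_kap_src h hc hj]
    rw [(hc j).src] at hj
    rcases hj with h2 | ⟨x', hx', h2, h3⟩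
    · exact absurd h2 (by simp)
    · simp only [Capd.pt.injEq] at h2
      subst h2
      have h4 : 1 / 2 ≤ sg (!j.2) * Real.log ‖e j.1 x‖ := by
        by_contra hlt
        apply h1 j.1
        refine ⟨h3.1, ?_⟩
        have h5 := h3.2.1
        push Not at hlt
        rw [abs_le]
        revert h5 hlt
        cases hj2 : j.2 <;> simp only [sg, Bool.not_false, Bool.not_true, if_true,
          Bool.false_eq_true, if_false] <;> intro h5 hlt <;> constructor <;> linarith
      rw [(hc j).eq x hx h3 h4]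
      have h6 : Q06_iv j.2 (sideC (e j.1) (!j.2) x) = e j.1 x := by
        cases hj2 : j.2 <;> simp [Q06_iv, sideC]
      rw [h6, (e j.1).left_inv h3.1]
  · push Not at hex
    exact Q06_kap_out hex rfl

private theorem Q06_mem_dom (h : CapHyp S e l) (hc : ∀ j, IsCapChart e l j.1 (!j.2) (c j))
    {j : Fin g × Bool} {y : Capd e} (hy : y ∈ (c j).source) (h1 : Real.exp (-l j.1) < ‖c j y‖) :
    y ∈ capDom l c := by
  intro k hk
  have h2 : k = j := by
    by_contra hne
    exact Set.disjoint_left.1 (Q06_disj h hc hne) hk hy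
  subst h2
  exact h1

private theorem Q06_tgt (hc : ∀ j, IsCapChart e l j.1 (!j.2) (c j)) (j : Fin g × Bool) {z : ℂ}
    (hz : ‖z‖ < Real.exp (l j.1)) : z ∈ (c j).target := by
  rw [(hc j).tgt, Metric.mem_ball, dist_zero_right]
  exact hz

private theorem Q06_norm_c (hc : ∀ j, IsCapChart e l j.1 (!j.2) (c j)) (j : Fin g × Bool)
    {y : Capd e} (hy : y ∈ (c j).source) : ‖c j y‖ < Real.exp (l j.1) := by
  have h1 := (c j).map_source hy
  rw [(hc j).tgt, Metric.mem_ball, dist_zero_right] at h1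
  exact h1

private theorem Q06_iv_tgt (h : CapHyp S e l) (j : Fin g × Bool) {z : ℂ}
    (h1 : Real.exp (-l j.1) < ‖z‖) (h2 : ‖z‖ < Real.exp (l j.1)) :
    Q06_iv j.2 z ∈ (e j.1).target := by
  have hpos : 0 < ‖z‖ := (Real.exp_pos _).trans h1
  rw [(h.ann j.1).2.2]
  cases hj : j.2
  · simp only [Q06_iv, Bool.false_eq_true, if_false]
    exact ⟨h1, h2⟩
  · simp only [Q06_iv, if_true, mem_setOf_eq, norm_inv]
    constructor
    · rw [Real.exp_neg]
      exact inv_strictAnti₀ hpos h2
    · rw [Real.exp_neg] at h1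
      exact inv_lt_of_inv_lt₀ (Real.exp_pos _) h1

private theorem Q06_kap_mem (h : CapHyp S e l) (hc : ∀ j, IsCapChart e l j.1 (!j.2) (c j))
    {j : Fin g × Bool} {y : Capd e} (hy : y ∈ (c j).source) (h1 : y ∈ capDom l c) :
    Q06_kap e c y ∈ (e j.1).source ∧ e j.1 (Q06_kap e c y) = Q06_iv j.2 (c j y) := by
  have h2 := Q06_iv_tgt h j (h1 j hy) (Q06_norm_c hc j hy)
  rw [Q06_kap_src h hc hy]
  exact ⟨(e j.1).map_target h2, (e j.1).right_inv h2⟩

private theorem Q06_opn (h : CapHyp S e l) (hc : ∀ j, IsCapChart e l j.1 (!j.2) (c j)) :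
    IsOpen (capDom l c) := by
  haveI := Capd.t2 h
  have h1 : ∀ j : Fin g × Bool,
      IsClosed ((c j).symm '' Metric.closedBall (0 : ℂ) (Real.exp (-l j.1))) := by
    intro j
    apply IsCompact.isClosed
    apply (isCompact_closedBall _ _).image_of_continuousOn
    apply (c j).continuousOn_symm.mono
    intro z hz
    apply Q06_tgt hc
    rw [mem_closedBall_zero_iff] at hz
    refine lt_of_le_of_lt hz (Real.exp_lt_exp.2 ?_)
    have := h.len j.1
    linarith
  have h2 : (capDom l c)ᶜ = ⋃ j : Fin g × Bool,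
      ((c j).symm '' Metric.closedBall (0 : ℂ) (Real.exp (-l j.1))) := by
    ext y
    simp only [capDom, mem_compl_iff, mem_setOf_eq, not_forall, not_lt, mem_iUnion]
    constructor
    · rintro ⟨j, hy, h3⟩
      exact ⟨j, c j y, by rwa [mem_closedBall_zero_iff], (c j).left_inv hy⟩
    · rintro ⟨j, z, hz, rfl⟩
      rw [mem_closedBall_zero_iff] at hz
      have h4 : z ∈ (c j).target := by
        apply Q06_tgt hc
        refine lt_of_le_of_lt hz (Real.exp_lt_exp.2 ?_)
        have := h.len j.1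
        linarith
      refine ⟨j, (c j).map_target h4, ?_⟩
      rw [(c j).right_inv h4]
      exact hz
  rw [← isClosed_compl_iff, h2]
  exact isClosed_iUnion_of_finite h1

private theorem Q06_local (h : CapHyp S e l) {T : CS (Capd e)} (hT : IsCapCS S e l T)
    (hc : ∀ j, IsCapChart e l j.1 (!j.2) (c j)) (hm : ∀ j, c j ∈ T.charts)
    {y : Capd e} (hy : y ∈ capDom l c) : ∃ e' ∈ S.charts, ∃ c' ∈ T.charts, ∃ φ : ℂ → ℂ,
      y ∈ c'.source ∧ (∀ᶠ z in 𝓝 (c' y), DifferentiableAt ℂ φ z) ∧
      ∀ᶠ y' in 𝓝 y, Q06_kap e c y' ∈ e'.source ∧ e' (Q06_kap e c y') = φ (c' y') := by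
  by_cases hex : ∃ j, y ∈ (c j).source
  · obtain ⟨j, hj⟩ := hex
    refine ⟨e j.1, (h.ann j.1).1, c j, hm j, Q06_iv j.2, hj, ?_, ?_⟩
    · have h1 : c j y ≠ 0 := by
        rw [← norm_pos_iff]
        exact (Real.exp_pos _).trans (hy j hj)
      filter_upwards [isOpen_ne.mem_nhds h1] with z hz
      cases j.2
      · have : Q06_iv false = fun z => z := by funext z; simp [Q06_iv]
        rw [this]
        exact differentiableAt_id
      · have : Q06_iv true = fun z => z⁻¹ := by funext z; simp [Q06_iv]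
        rw [this]
        exact differentiableAt_inv hz
    · filter_upwards [(c j).open_source.mem_nhds hj, (Q06_opn h hc).mem_nhds hy] with y' h1 h2
      exact Q06_kap_mem h hc h1 h2
  · push Not at hex
    obtain ⟨x, hx, rfl, hout⟩ := Q06_out h hc hex
    obtain ⟨e1, he1, hx1⟩ := S.cover x
    have hcl : IsClosed (⋃ i, midA (e i) (1 / 2)) := by
      apply isClosed_iUnion_of_finite
      intro i
      have := h.len i
      exact (midA_compact (h.ann i) (by linarith)).isClosed
    have hopen : IsOpen (e1.source ∩ (⋃ i, midA (e i) (1 / 2))ᶜ) :=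
      e1.open_source.inter hcl.isOpen_compl
    have hmem := CS.restr_mem he1 hopen
    have hsrc : (e1.restr (e1.source ∩ (⋃ i, midA (e i) (1 / 2))ᶜ)).source =
        e1.source ∩ (⋃ i, midA (e i) (1 / 2))ᶜ := by
      rw [e1.restr_source, hopen.interior_eq, ← inter_assoc, inter_self]
    set e2 := e1.restr (e1.source ∩ (⋃ i, midA (e i) (1 / 2))ᶜ) with he2
    have hx2 : x ∈ e2.source := by
      rw [hsrc]
      refine ⟨hx1, ?_⟩
      simp only [mem_compl_iff, mem_iUnion, not_exists]
      intro i hi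
      exact hout i hi.1
    have hdis : ∀ i, Disjoint e2.source (midA (e i) (1 / 2)) := by
      intro i
      rw [Set.disjoint_left]
      intro x' h1 h2
      rw [hsrc] at h1
      exact h1.2 (mem_iUnion.2 ⟨i, h2⟩)
    obtain ⟨c', hc', -, h4, h5, h6⟩ := hT.lift e2 hmem hdis
    refine ⟨e2, hmem, c', hc', id, (h4 x hx).2 hx2, ?_, ?_⟩
    · exact Filter.Eventually.of_forall fun z => differentiableAt_id
    · filter_upwards [c'.open_source.mem_nhds ((h4 x hx).2 hx2)] with y' h7
      cases y' with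
      | cap i s => exact absurd h7 (h5 i s)
      | pt x' hx' =>
        have h8 := (h4 x' hx').1 h7
        have h9 : Q06_kap e c (Capd.pt x' hx') = x' := by
          apply Q06_far h hc
          intro i hi
          exact Set.disjoint_left.1 (hdis i) h8 hi
        rw [h9]
        exact ⟨h8, (h6 x' hx' h8).symm⟩

private theorem Q06_fib (h : CapHyp S e l) (hc : ∀ j, IsCapChart e l j.1 (!j.2) (c j))
    {y y' : Capd e} (hy : y ∈ capDom l c) (hy' : y' ∈ capDom l c)
    (heq : Q06_kap e c y = Q06_kap e c y') : (y = y' ∨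
    (∃ i z, Real.exp (-l i) < ‖z‖ ∧ ‖z‖ < Real.exp (l i) ∧ y = (c (i, false)).symm z ∧
      y' = (c (i, true)).symm z⁻¹) ∨
    (∃ i z, Real.exp (-l i) < ‖z‖ ∧ ‖z‖ < Real.exp (l i) ∧ y' = (c (i, false)).symm z ∧
      y = (c (i, true)).symm z⁻¹)) := by
  by_cases hex : ∃ j, y ∈ (c j).source
  · obtain ⟨⟨i, b⟩, hj⟩ := hex
    obtain ⟨h1, h2⟩ := Q06_kap_mem h hc hj hy
    by_cases hex' : ∃ j, y' ∈ (c j).source
    · obtain ⟨⟨i', b'⟩, hj'⟩ := hex'
      obtain ⟨h1', h2'⟩ := Q06_kap_mem h hc hj' hy'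
      simp only at h1 h2 h1' h2'
      have hi : i = i' := by
        by_contra hne
        rw [heq] at h1
        exact Set.disjoint_left.1 (h.disj hne) h1 h1'
      subst hi
      rw [← heq, h2] at h2'
      cases b <;> cases b'
      · left
        simp only [Q06_iv, Bool.false_eq_true, if_false] at h2'
        exact (c (i, false)).injOn hj hj' h2'
      · right; left
        simp only [Q06_iv, Bool.false_eq_true, if_false, if_true] at h2'
        refine ⟨i, c (i, false) y, hy _ hj, Q06_norm_c hc _ hj, ((c (i, false)).left_inv hj).symm, ?_⟩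
        rw [h2', inv_inv, (c (i, true)).left_inv hj']
      · right; right
        simp only [Q06_iv, Bool.false_eq_true, if_false, if_true] at h2'
        refine ⟨i, c (i, false) y', hy' _ hj', Q06_norm_c hc _ hj',
          ((c (i, false)).left_inv hj').symm, ?_⟩
        rw [← h2', inv_inv, (c (i, true)).left_inv hj]
      · left
        simp only [Q06_iv, if_true] at h2'
        exact (c (i, true)).injOn hj hj' (inv_injective h2')
    · push Not at hex'
      obtain ⟨x', hx', rfl, hout⟩ := Q06_out h hc hex'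
      rw [heq, Q06_kap_out hex' rfl] at h1
      exact absurd h1 (hout _)
  · push Not at hex
    obtain ⟨x, hx, rfl, hout⟩ := Q06_out h hc hex
    by_cases hex' : ∃ j, y' ∈ (c j).source
    · obtain ⟨j', hj'⟩ := hex'
      obtain ⟨h1', -⟩ := Q06_kap_mem h hc hj' hy'
      rw [← heq, Q06_kap_out hex rfl] at h1'
      exact absurd h1' (hout _)
    · push Not at hex'
      obtain ⟨x', hx', rfl, -⟩ := Q06_out h hc hex'
      rw [Q06_kap_out hex rfl, Q06_kap_out hex' rfl] at heq
      subst heq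
      left; rfl

end chart

theorem exists_kappa (h : CapHyp S e l) {T : CS (Capd e)} (hT : IsCapCS S e l T) :
    ∃ (c : Fin g × Bool → OpenPartialHomeomorph (Capd e) ℂ) (κ : Capd e → X),
      IsKappa S e l T c κ := by
  choose c0 hc0 hc0' using hT.cap
  set c : Fin g × Bool → OpenPartialHomeomorph (Capd e) ℂ := fun j => c0 j.1 (!j.2) with hcdef
  have hc : ∀ j, IsCapChart e l j.1 (!j.2) (c j) := fun j => hc0' _ _
  have hm : ∀ j, c j ∈ T.charts := fun j => hc0 _ _
  have heqF : ∀ i z, Real.exp (-l i) < ‖z‖ → ‖z‖ < Real.exp (l i) →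
      Q06_kap e c ((c (i, false)).symm z) = (e i).symm z := by
    intro i z h1 h2
    have h3 : z ∈ (c (i, false)).target := Q06_tgt hc (i, false) h2
    rw [Q06_kap_src h hc ((c (i, false)).map_target h3), (c (i, false)).right_inv h3]
    simp [Q06_iv]
  have heqT : ∀ i z, Real.exp (-l i) < ‖z‖ → ‖z‖ < Real.exp (l i) →
      Q06_kap e c ((c (i, true)).symm z) = (e i).symm z⁻¹ := by
    intro i z h1 h2
    have h3 : z ∈ (c (i, true)).target := Q06_tgt hc (i, true) h2
    rw [Q06_kap_src h hc ((c (i, true)).map_target h3), (c (i, true)).right_inv h3]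
    simp [Q06_iv]
  have hinv : ∀ i (z : ℂ), Real.exp (-l i) < ‖z‖ → ‖z‖ < Real.exp (l i) →
      Real.exp (-l i) < ‖z⁻¹‖ ∧ ‖z⁻¹‖ < Real.exp (l i) := by
    intro i z h1 h2
    have hpos : 0 < ‖z‖ := (Real.exp_pos _).trans h1
    rw [norm_inv]
    constructor
    · rw [Real.exp_neg]
      exact inv_strictAnti₀ hpos h2
    · rw [Real.exp_neg] at h1
      exact inv_lt_of_inv_lt₀ (Real.exp_pos _) h1
  refine ⟨c, Q06_kap e c, hc, hm, Q06_disj h hc, heqF, heqT, Q06_opn h hc, ?_, ?_, ?_⟩
  · intro d hd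
    have hop : IsOpen (d.target ∩ d.symm ⁻¹' capDom l c) :=
      d.symm.isOpen_inter_preimage (Q06_opn h hc)
    apply CS.holOn_of_local hop
    rintro z ⟨hz, hz'⟩
    obtain ⟨e', he', c', hc', φ, h1, h2, h3⟩ := Q06_local h hT hc hm hz'
    have hcont : ContinuousAt d.symm z := d.continuousAt_symm hz
    have h4 : ∀ᶠ w in 𝓝 z, Q06_kap e c (d.symm w) ∈ e'.source ∧
        e' (Q06_kap e c (d.symm w)) = φ (c' (d.symm w)) := hcont.eventually h3
    have h5 : ∀ᶠ w in 𝓝 z, DifferentiableAt ℂ (c' ∘ d.symm) w := by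
      have := CS.eventually_trans_differentiableAt hd hc' (d.map_target hz) h1
      rwa [d.right_inv hz] at this
    have h6 : ContinuousAt (fun w => c' (d.symm w)) z := h5.self_of_nhds.continuousAt
    have h7 : ∀ᶠ w in 𝓝 z, DifferentiableAt ℂ (φ ∘ (c' ∘ d.symm)) w := by
      have h8 : ∀ᶠ w in 𝓝 z, DifferentiableAt ℂ φ (c' (d.symm w)) := h6.eventually h2
      filter_upwards [h5, h8] with w h9 h10
      exact h10.comp w h9
    have h8 : ∀ᶠ w in 𝓝 z, DifferentiableAt ℂ (e' ∘ (Q06_kap e c ∘ d.symm)) w := by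
      filter_upwards [h7, h4.eventually_nhds] with w h9 h10
      refine h9.congr_of_eventuallyEq ?_
      filter_upwards [h10] with v hv
      exact hv.2
    refine ⟨?_, e', he', h4.self_of_nhds.1, h8⟩
    have h9 : ContinuousAt (e' ∘ (Q06_kap e c ∘ d.symm)) z := h8.self_of_nhds.continuousAt
    have h10 : (e'.symm ∘ (e' ∘ (Q06_kap e c ∘ d.symm))) =ᶠ[𝓝 z] Q06_kap e c ∘ d.symm := by
      filter_upwards [h4] with w hw
      exact e'.left_inv hw.1
    refine ContinuousAt.congr ?_ h10
    have h11 : ContinuousAt e'.symm ((e' ∘ (Q06_kap e c ∘ d.symm)) z) :=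
      e'.continuousAt_symm (e'.map_source h4.self_of_nhds.1)
    exact ContinuousAt.comp (f := e' ∘ (Q06_kap e c ∘ d.symm)) h11 h9
  · intro x
    by_cases hex : ∃ i, x ∈ (e i).source
    · obtain ⟨i, hi⟩ := hex
      obtain ⟨h1, h2⟩ := Q06_norm h hi
      have h3 : e i x ∈ (c (i, false)).target := Q06_tgt hc (i, false) h2
      refine ⟨(c (i, false)).symm (e i x), ?_, ?_⟩
      · apply Q06_mem_dom h hc ((c (i, false)).map_target h3)
        rw [(c (i, false)).right_inv h3]
        exact h1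
      · rw [heqF i _ h1 h2, (e i).left_inv hi]
    · push Not at hex
      have hx : ∀ i, x ∉ core (e i) := fun i hi => hex i hi.1
      refine ⟨Capd.pt x hx, ?_, ?_⟩
      · intro j hj
        exact absurd hj (Q06_out' hc hex j)
      · exact Q06_kap_out (Q06_out' hc hex) rfl
  · intro y hy y' hy'
    refine ⟨Q06_fib h hc hy hy', ?_⟩
    rintro (rfl | ⟨i, z, h1, h2, rfl, rfl⟩ | ⟨i, z, h1, h2, rfl, rfl⟩)
    · rfl
    · obtain ⟨h3, h4⟩ := hinv i z h1 h2
      rw [heqF i z h1 h2, heqT i _ h3 h4, inv_inv]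
    · obtain ⟨h3, h4⟩ := hinv i z h1 h2
      rw [heqF i z h1 h2, heqT i _ h3 h4, inv_inv]

end Pool.Agent.Lib.MP_cca10c_ag
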