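import Pool.Agent.Lib.MP_cca10c_ag.H00_Defs

/-!
# Planar presentations of a closed Riemann surface (module R, helper12): definitions

FEET are indexed by `Fin g × Bool`. The foot `D.inf = (i0, true)` sits at infinity.
For every foot `j` there is a univalent function `D.f j` on the unit disc; the foot map is `D.F j = D.f j` for a finite foot and
`D.F D.inf z = (D.f D.inf z)⁻¹` (with `D.f D.inf 0 = 0`) for the foot at infinity. The images of the unit disc under the foot maps are disjoint.
`D.Om` is the plane without the sets `F j {‖z‖ ≤ ‖q i‖}`, `j = (i, ±)`. A presentation of `(X, S)` is a holomorphic map `ψ : D.Om → X`, onto,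
whose only identifications are `ψ (F (i,false) z) = ψ (F (i,true) (q i / z))` for `‖q i‖ < ‖z‖ < 1`.
-/

set_option autoImplicit false

open Topology Set Metric
open scoped ContDiff

namespace Pool.Agent.Lib.MP_cca10c_ag

/-- planar data -/
structure PData (g : ℕ) where
  i0 : Fin g
  f : Fin g × Bool → ℂ → ℂ
  q : Fin g → ℂ

namespace PData

variable {g : ℕ} (D : PData g)

/-- the foot at infinity -/
def inf : Fin g × Bool := (D.i0, true)

/-- the foot maps -/
noncomputable def F (j : Fin g × Bool) (z : ℂ) : ℂ := if j = D.inf then (D.f j z)⁻¹ else D.f j z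

/-- the foot map is used at `z` -/
def At (j : Fin g × Bool) (z : ℂ) : Prop := j = D.inf → z ≠ 0

/-- image of the open disc of radius `r` (without the centre, for the foot at infinity) -/
def disc (j : Fin g × Bool) (r : ℝ) : Set ℂ := D.F j '' {z | D.At j z ∧ ‖z‖ < r}

/-- image of the closed disc of radius `r` (without the centre, for the foot at infinity) -/
def cdisc (j : Fin g × Bool) (r : ℝ) : Set ℂ := D.F j '' {z | D.At j z ∧ ‖z‖ ≤ r}

/-- the planar domain which is mapped onto the surface -/
def Om : Set ℂ := {w | ∀ j : Fin g × Bool, w ∉ D.cdisc j ‖D.q j.1‖}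

/-- the planar piece with cut radius `a` -/
def Pa (a : Fin g × Bool → ℝ) : Set ℂ := {w | ∀ j : Fin g × Bool, w ∉ D.cdisc j (a j)}

/-- the identifications -/
def Glue (w w' : ℂ) : Prop :=
  ∃ (i : Fin g) (z : ℂ), ‖D.q i‖ < ‖z‖ ∧ ‖z‖ < 1 ∧ w = D.F (i, false) z ∧ w' = D.F (i, true) (D.q i / z)

/-- admissible planar data -/
structure Valid : Prop where
  diff : ∀ j, DifferentiableOn ℂ (D.f j) (ball 0 1)
  inj : ∀ j, InjOn (D.f j) (ball 0 1)
  zero : D.f D.inf 0 = 0
  disj : ∀ j k, j ≠ k → Disjoint (D.disc j 1) (D.disc k 1)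
  q0 : ∀ i, D.q i ≠ 0
  q1 : ∀ i, ‖D.q i‖ < 1

/-- length of the handle `i` (logarithmic modulus) -/
noncomputable def L (i : Fin g) : ℝ := -Real.log ‖D.q i‖

/-- round planar data: positions `p`, sizes `s > 0`, and `q` -/
noncomputable def round (i0 : Fin g) (p : Fin g × Bool → ℂ) (s : Fin g × Bool → ℝ) (q : Fin g → ℂ) : PData g where
  i0 := i0
  f := fun j z => if j = (i0, true) then z / (s j : ℂ) else p j + (s j : ℂ) * z
  q := q

end PData

variable {X : Type} [TopologicalSpace X]

/-- a presentation of the surface by planar data -/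
structure Pres (S : CS X) {g : ℕ} (D : PData g) where
  ψ : ℂ → X
  hol : S.HolOn ψ D.Om
  fib : ∀ w ∈ D.Om, ∀ w' ∈ D.Om, ψ w = ψ w' ↔ (w = w' ∨ D.Glue w w' ∨ D.Glue w' w)
  onto : ∀ x, ∃ w ∈ D.Om, ψ w = x

namespace Pres

variable {S : CS X} {g : ℕ} {D : PData g} (P : Pres S D)

/-- the map of the handle annulus `‖q i‖ < ‖z‖ < 1` -/
noncomputable def ι (i : Fin g) (z : ℂ) : X := P.ψ (D.F (i, false) z)

end Pres

end Pool.Agent.Lib.MP_cca10c_ag
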