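import Pool.Agent.Lib.MP_cca10c_ag.Q05_Sphere
import Pool.Agent.Lib.MP_cca10c_ag.Q06_Kappa
import Pool.Agent.Lib.MP_cca10c_ag.R00_Defs

/-!
# Module Q: the planar presentation, data

`f` is a sphere map with pole at the foot `(i0, true)`, i.e. at the point `cap i0 false`, and value `0` at the
foot `(i0, false)`, i.e. at `cap i0 true`. `D.f j z = f ((c j).symm (z * exp (l i)))` for `j = (i, s) ≠ (i0, true)`; for `j = (i0, true)` it is
the inverse of this number for `z ≠ 0` and `0` for `z = 0` (removable singularity; `f` does not vanish in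
this disc because `0` is in the disc of `(i0, false)`). `D.q i = exp (-2 l i)`, `ψ = κ ∘ f⁻¹`.
-/

set_option autoImplicit false

open Topology Set Filter

namespace Pool.Agent.Lib.MP_cca10c_ag

variable {X : Type} {g : ℕ} [TopologicalSpace X] [CompactSpace X] [T2Space X] {S : CS X}
variable {e : Fin g → OpenPartialHomeomorph X ℂ} {l : Fin g → ℝ} {T : CS (Capd e)}
variable {c : Fin g × Bool → OpenPartialHomeomorph (Capd e) ℂ} {κ : Capd e → X}

open Classical in
/-- the planar data of a sphere map -/
noncomputable def sphD (e : Fin g → OpenPartialHomeomorph X ℂ) (l : Fin g → ℝ)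
    (c : Fin g × Bool → OpenPartialHomeomorph (Capd e) ℂ) (f : Capd e → ℂ) (i0 : Fin g) :
    PData g where
  i0 := i0
  f := fun j z => if j = (i0, true) then
      (if z = 0 then 0 else (f ((c j).symm (z * (Real.exp (l j.1) : ℂ))))⁻¹)
    else f ((c j).symm (z * (Real.exp (l j.1) : ℂ)))
  q := fun i => (Real.exp (-(2 * l i)) : ℂ)

/-- the foot maps -/
theorem sphD_F (i0 : Fin g) (f : Capd e → ℂ) (j : Fin g × Bool) {z : ℂ}
    (hz : j = (i0, true) → z ≠ 0) :
    (sphD e l c f i0).F j z = f ((c j).symm (z * (Real.exp (l j.1) : ℂ))) := by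
  unfold PData.F PData.inf sphD
  by_cases hj : j = (i0, true)
  · simp only [if_pos hj, if_neg (hz hj), inv_inv]
  · simp only [if_neg hj]

end Pool.Agent.Lib.MP_cca10c_ag
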