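import Pool.Agent.Lib.MP_cca10c_ag.R01_St
import Pool.Agent.Lib.MP_cca10c_ag.H02_Inj

/-!
# Module R: plane topology of planar data (stub R02)

Everything follows from `Valid`: `D.f j` is holomorphic and injective on the unit disc, hence open with holomorphic inverse
(`exists_homeo_of_injOn` of H02, applied to the ball). For the foot at infinity `D.F D.inf z = (D.f D.inf z)⁻¹` with `D.f D.inf z ≠ 0` for `z ≠ 0`.
`isClosed_cdisc`: for a finite foot the set is compact; for the foot at infinity it is `{w | w ≠ 0 ∧ w⁻¹ ∈ f '' closedBall 0 a}`, and it misses a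
neighbourhood of `0` because `f '' closedBall 0 a` is bounded.
-/

set_option autoImplicit false

open Topology Set Metric
open scoped ContDiff

namespace Pool.Agent.Lib.MP_cca10c_ag

namespace PData

variable {g : ℕ} (D : PData g)

/-- the annulus of the handle `i` -/
def An (i : Fin g) : Set ℂ := {z | ‖D.q i‖ < ‖z‖ ∧ ‖z‖ < 1}

/-- the plane without the foot discs -/
def Co : Set ℂ := {w | ∀ j : Fin g × Bool, w ∉ D.disc j 1}

/-- domain of the foot map -/
def Dj (j : Fin g × Bool) (r : ℝ) : Set ℂ := {z | D.At j z ∧ ‖z‖ < r}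

variable {D}

theorem F_of_ne {j : Fin g × Bool} (h : j ≠ D.inf) (z : ℂ) : D.F j z = D.f j z := by
  unfold F
  rw [if_neg h]

theorem F_inf (z : ℂ) : D.F D.inf z = (D.f D.inf z)⁻¹ := by
  unfold F
  rw [if_pos rfl]

theorem false_ne_inf (i : Fin g) : ((i, false) : Fin g × Bool) ≠ D.inf := by
  intro h
  have := congrArg Prod.snd h
  simp [inf] at this

theorem at_of_ne_zero {j : Fin g × Bool} {z : ℂ} (h : z ≠ 0) : D.At j z := fun _ => h

theorem isOpen_Dj (j : Fin g × Bool) (r : ℝ) : IsOpen (D.Dj j r) := by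
  have h1 : IsOpen {z : ℂ | ‖z‖ < r} := isOpen_lt continuous_norm continuous_const
  have h2 : IsOpen {z : ℂ | D.At j z} := by
    by_cases hj : j = D.inf
    · have : {z : ℂ | D.At j z} = {(0 : ℂ)}ᶜ := by
        ext z
        simp [At, hj]
      rw [this]
      exact isOpen_compl_singleton
    · have : {z : ℂ | D.At j z} = univ := by
        ext z
        simp [At, hj]
      rw [this]
      exact isOpen_univ
  exact h2.inter h1

private theorem R02_Dj_mono {j : Fin g × Bool} {r s : ℝ} (h : r ≤ s) : D.Dj j r ⊆ D.Dj j s :=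
  fun _ hz => ⟨hz.1, hz.2.trans_le h⟩

private theorem R02_Dj_ball {j : Fin g × Bool} {z : ℂ} (h : z ∈ D.Dj j 1) : z ∈ ball (0 : ℂ) 1 :=
  mem_ball_zero_iff.2 h.2

namespace Valid

theorem f_inf_ne (hD : D.Valid) {z : ℂ} (hz : z ≠ 0) (h1 : ‖z‖ < 1) : D.f D.inf z ≠ 0 := by
  intro h
  apply hz
  exact hD.inj D.inf (mem_ball_zero_iff.2 h1) (mem_ball_self one_pos) (h.trans hD.zero.symm)

theorem injOn_F (hD : D.Valid) (j : Fin g × Bool) : InjOn (D.F j) (D.Dj j 1) := by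
  intro z hz w hw h
  by_cases hj : j = D.inf
  · subst hj
    rw [F_inf, F_inf, inv_inj] at h
    exact hD.inj _ (R02_Dj_ball hz) (R02_Dj_ball hw) h
  · rw [F_of_ne hj, F_of_ne hj] at h
    exact hD.inj _ (R02_Dj_ball hz) (R02_Dj_ball hw) h

theorem diff_F (hD : D.Valid) (j : Fin g × Bool) : DifferentiableOn ℂ (D.F j) (D.Dj j 1) := by
  have h0 : DifferentiableOn ℂ (D.f j) (D.Dj j 1) := (hD.diff j).mono fun z hz => R02_Dj_ball hz
  by_cases hj : j = D.inf
  · subst hj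
    have h1 : DifferentiableOn ℂ (fun z => (D.f D.inf z)⁻¹) (D.Dj D.inf 1) :=
      h0.inv fun z hz => hD.f_inf_ne (hz.1 rfl) hz.2
    exact h1.congr fun z _ => F_inf z
  · exact h0.congr fun z _ => F_of_ne hj z

theorem isOpen_image (hD : D.Valid) (j : Fin g × Bool) {V : Set ℂ} (hV : IsOpen V) (hV' : V ⊆ D.Dj j 1) :
    IsOpen (D.F j '' V) := by
  obtain ⟨ψ, _, ht, _⟩ := exists_homeo_of_injOn hV ((hD.diff_F j).mono hV')
    ((hD.injOn_F j).mono hV')
  rw [← ht]
  exact ψ.open_target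

theorem isOpen_disc (hD : D.Valid) (j : Fin g × Bool) {r : ℝ} (hr : r ≤ 1) : IsOpen (D.disc j r) :=
  hD.isOpen_image j (isOpen_Dj j r) (R02_Dj_mono hr)

theorem isClosed_cdisc (hD : D.Valid) (j : Fin g × Bool) {a : ℝ} (ha : a < 1) : IsClosed (D.cdisc j a) := by
  have hsub : closedBall (0 : ℂ) a ⊆ ball 0 1 := closedBall_subset_ball ha
  have hS : IsCompact (D.f j '' closedBall (0 : ℂ) a) :=
    (isCompact_closedBall 0 a).image_of_continuousOn ((hD.diff j).continuousOn.mono hsub)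
  by_cases hj : j = D.inf
  · subst hj
    obtain ⟨M, hM⟩ := hS.isBounded.subset_closedBall (0 : ℂ)
    have hM' : ∀ w ∈ D.f D.inf '' closedBall (0 : ℂ) a, ‖w‖ ≤ |M| + 1 := fun w hw => by
      have := mem_closedBall_zero_iff.1 (hM hw)
      have h2 := le_abs_self M
      linarith
    have hMpos : 0 < |M| + 1 := by positivity
    have e : D.cdisc D.inf a = {w : ℂ | (|M| + 1)⁻¹ ≤ ‖w‖} ∩
        (fun w : ℂ => w⁻¹) ⁻¹' (D.f D.inf '' closedBall (0 : ℂ) a) := by
      ext w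
      constructor
      · rintro ⟨z, ⟨hz1, hz2⟩, rfl⟩
        have hz0 : z ≠ 0 := hz1 rfl
        have hf0 : D.f D.inf z ≠ 0 := hD.f_inf_ne hz0 (hz2.trans_lt ha)
        have hmem : D.f D.inf z ∈ D.f D.inf '' closedBall (0 : ℂ) a :=
          ⟨z, mem_closedBall_zero_iff.2 hz2, rfl⟩
        refine ⟨?_, ?_⟩
        · rw [mem_ofPred_eq, F_inf, norm_inv]
          exact inv_anti₀ (norm_pos_iff.2 hf0) (hM' _ hmem)
        · rw [mem_preimage, F_inf, inv_inv]
          exact hmem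
      · rintro ⟨hw1, z, hz, hzw⟩
        have hw0 : w ≠ 0 := by
          intro h
          rw [mem_ofPred_eq, h, norm_zero] at hw1
          exact absurd hw1 (not_le.2 (inv_pos.2 hMpos))
        have hz0 : z ≠ 0 := by
          intro h
          rw [h, hD.zero] at hzw
          exact inv_ne_zero hw0 hzw.symm
        refine ⟨z, ⟨fun _ => hz0, mem_closedBall_zero_iff.1 hz⟩, ?_⟩
        rw [F_inf, hzw, inv_inv]
    rw [e]
    have hc : ContinuousOn (fun w : ℂ => w⁻¹) {w : ℂ | (|M| + 1)⁻¹ ≤ ‖w‖} := by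
      refine continuousOn_id.inv₀ fun w hw => ?_
      intro h
      simp only [id] at h
      rw [mem_ofPred_eq, h, norm_zero] at hw
      exact absurd hw (not_le.2 (inv_pos.2 hMpos))
    exact hc.preimage_isClosed_of_isClosed (isClosed_le continuous_const continuous_norm)
      hS.isClosed
  · have e : D.cdisc j a = D.f j '' closedBall (0 : ℂ) a := by
      unfold cdisc
      have h1 : {z : ℂ | D.At j z ∧ ‖z‖ ≤ a} = closedBall (0 : ℂ) a := by
        ext z
        simp [At, hj]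
      rw [h1]
      exact image_congr fun z _ => F_of_ne hj z
    rw [e]
    exact hS.isClosed

theorem isOpen_Pa (hD : D.Valid) {a : Fin g × Bool → ℝ} (ha : ∀ j, a j < 1) : IsOpen (D.Pa a) := by
  have e : D.Pa a = ⋂ j : Fin g × Bool, (D.cdisc j (a j))ᶜ := by
    ext w
    simp [Pa]
  rw [e]
  exact isOpen_iInter_of_finite fun j => (hD.isClosed_cdisc j (ha j)).isOpen_compl

theorem isOpen_Om (hD : D.Valid) : IsOpen D.Om :=
  hD.isOpen_Pa (a := fun j => ‖D.q j.1‖) fun j => hD.q1 j.1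

theorem isClosed_Co (hD : D.Valid) : IsClosed D.Co := by
  have e : D.Co = ⋂ j : Fin g × Bool, (D.disc j 1)ᶜ := by
    ext w
    simp [Co]
  rw [e]
  exact isClosed_iInter fun j => (hD.isOpen_disc j le_rfl).isClosed_compl

/-- the foot maps have holomorphic inverses -/
theorem exists_inv (hD : D.Valid) (j : Fin g × Bool) : ∃ G : ℂ → ℂ, DifferentiableOn ℂ G (D.disc j 1) ∧
    ∀ z ∈ D.Dj j 1, G (D.F j z) = z := by
  obtain ⟨ψ, hs, ht, hψ, hd⟩ := exists_homeo_of_injOn (isOpen_Dj j 1) (hD.diff_F j) (hD.injOn_F j)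
  refine ⟨ψ.symm, ?_, ?_⟩
  · rw [ht] at hd
    exact hd
  · intro z hz
    rw [← hψ z]
    exact ψ.left_inv (hs ▸ hz)

theorem F_ne (hD : D.Valid) {j k : Fin g × Bool} (h : j ≠ k) {z z' : ℂ} (hz : z ∈ D.Dj j 1) (hz' : z' ∈ D.Dj k 1) :
    D.F j z ≠ D.F k z' := by
  intro e
  exact (Set.disjoint_left.1 (hD.disj j k h)) ⟨z, hz, rfl⟩ ⟨z', hz', e.symm⟩

theorem F_mem_Pa (hD : D.Valid) {a : Fin g × Bool → ℝ} (ha : ∀ j, a j < 1) {j : Fin g × Bool} {z : ℂ}
    (hz : z ∈ D.Dj j 1) : D.F j z ∈ D.Pa a ↔ a j < ‖z‖ := by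
  constructor
  · intro h
    by_contra hn
    exact h j ⟨z, ⟨hz.1, not_lt.1 hn⟩, rfl⟩
  · rintro h k ⟨z', ⟨hz'1, hz'2⟩, e⟩
    have hz' : z' ∈ D.Dj k 1 := ⟨hz'1, hz'2.trans_lt (ha k)⟩
    by_cases hk : j = k
    · subst hk
      have := hD.injOn_F j hz' hz e
      subst this
      exact absurd h (not_lt.2 hz'2)
    · exact hD.F_ne hk hz hz' e.symm

/-- points of a foot disc in `Om` -/
theorem F_mem_Om (hD : D.Valid) {j : Fin g × Bool} {z : ℂ} (hz : z ∈ D.Dj j 1) : D.F j z ∈ D.Om ↔ ‖D.q j.1‖ < ‖z‖ :=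
  hD.F_mem_Pa (a := fun j => ‖D.q j.1‖) (fun j => hD.q1 j.1) hz

theorem Co_sub_Pa {a : Fin g × Bool → ℝ} (ha : ∀ j, a j < 1) : D.Co ⊆ D.Pa a := by
  rintro w hw j ⟨z, ⟨hz1, hz2⟩, e⟩
  exact hw j ⟨z, ⟨hz1, hz2.trans_lt (ha j)⟩, e⟩

theorem Co_sub_Om (hD : D.Valid) : D.Co ⊆ D.Om :=
  Co_sub_Pa (a := fun j => ‖D.q j.1‖) fun j => hD.q1 j.1

theorem Pa_sub_Om {a : Fin g × Bool → ℝ} (ha : ∀ j, ‖D.q j.1‖ ≤ a j) : D.Pa a ⊆ D.Om := by
  rintro w hw j ⟨z, ⟨hz1, hz2⟩, e⟩
  exact hw j ⟨z, ⟨hz1, hz2.trans (ha j)⟩, e⟩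

end Valid

/-- every point lies in `Co` or in exactly one foot disc -/
theorem cases_Co (w : ℂ) : w ∈ D.Co ∨ ∃ j, ∃ z ∈ D.Dj j 1, w = D.F j z := by
  by_cases h : w ∈ D.Co
  · exact Or.inl h
  · right
    unfold Co at h
    simp only [mem_ofPred_eq, not_forall, not_not] at h
    obtain ⟨j, z, hz, e⟩ := h
    exact ⟨j, z, hz, e.symm⟩

theorem not_glue_Co (hD : D.Valid) {w w' : ℂ} (hw : w ∈ D.Co) : ¬ D.Glue w w' ∧ ¬ D.Glue w' w := by
  constructor
  · rintro ⟨i, z, h1, h2, e, -⟩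
    have hz0 : z ≠ 0 := norm_pos_iff.1 ((norm_nonneg _).trans_lt h1)
    exact hw (i, false) ⟨z, ⟨at_of_ne_zero hz0, h2⟩, e.symm⟩
  · rintro ⟨i, z, h1, h2, -, e⟩
    have hz0 : z ≠ 0 := norm_pos_iff.1 ((norm_nonneg _).trans_lt h1)
    have hq : D.q i / z ≠ 0 := div_ne_zero (hD.q0 i) hz0
    refine hw (i, true) ⟨D.q i / z, ⟨at_of_ne_zero hq, ?_⟩, e.symm⟩
    rw [norm_div, div_lt_one (norm_pos_iff.2 hz0)]
    exact h1

/-- the sets of admissible cut radii -/
structure Cut (D : PData g) (a : Fin g × Bool → ℝ) : Prop where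
  le : ∀ j, ‖D.q j.1‖ ≤ a j
  lt : ∀ j, a j < 1
  mul : ∀ i, ‖D.q i‖ ≤ a (i, false) * a (i, true)

theorem Valid.not_glue (hD : D.Valid) {a : Fin g × Bool → ℝ} (ha : D.Cut a) {w w' : ℂ} (hw : w ∈ D.Pa a) (hw' : w' ∈ D.Pa a) :
    ¬ D.Glue w w' := by
  rintro ⟨i, z, h1, h2, e, e'⟩
  have hz0 : z ≠ 0 := norm_pos_iff.1 ((norm_nonneg _).trans_lt h1)
  have hzp : 0 < ‖z‖ := norm_pos_iff.2 hz0
  have hq : D.q i / z ≠ 0 := div_ne_zero (hD.q0 i) hz0
  have hz : z ∈ D.Dj (i, false) 1 := ⟨at_of_ne_zero hz0, h2⟩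
  have hqz : D.q i / z ∈ D.Dj (i, true) 1 := by
    refine ⟨at_of_ne_zero hq, ?_⟩
    rw [norm_div, div_lt_one hzp]
    exact h1
  rw [e, hD.F_mem_Pa ha.lt hz] at hw
  rw [e', hD.F_mem_Pa ha.lt hqz, norm_div, lt_div_iff₀ hzp] at hw'
  have h3 := ha.mul i
  have h4 : 0 < a (i, true) :=
    lt_of_lt_of_le (norm_pos_iff.2 (hD.q0 i)) (ha.le (i, true))
  nlinarith [mul_lt_mul_of_pos_left hw h4]

/-- cut radii `√|q|` -/
theorem Valid.cut_sqrt (hD : D.Valid) : D.Cut (fun j => Real.sqrt ‖D.q j.1‖) where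
  le j := by
    have h0 := norm_nonneg (D.q j.1)
    have h1 := hD.q1 j.1
    apply Real.le_sqrt_of_sq_le
    nlinarith
  lt j := by
    rw [Real.sqrt_lt' one_pos, one_pow]
    exact hD.q1 j.1
  mul i := by
    rw [Real.mul_self_sqrt (norm_nonneg _)]

/-- every point of `Om` survives some cut -/
theorem Valid.exists_cut (hD : D.Valid) {w : ℂ} (hw : w ∈ D.Om) : ∃ a, D.Cut a ∧ w ∈ D.Pa a := by
  rcases cases_Co (D := D) w with h | ⟨j, z, hz, rfl⟩
  · exact ⟨_, hD.cut_sqrt, Valid.Co_sub_Pa hD.cut_sqrt.lt h⟩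
  · rw [hD.F_mem_Om hz] at hw
    have hq : 0 < ‖D.q j.1‖ := norm_pos_iff.2 (hD.q0 j.1)
    have hz1 : ‖z‖ < 1 := hz.2
    set t : ℝ := (‖D.q j.1‖ + ‖z‖) / 2 with ht
    have ht1 : ‖D.q j.1‖ < t := by rw [ht]; linarith
    have ht2 : t < ‖z‖ := by rw [ht]; linarith
    have ht0 : 0 < t := hq.trans ht1
    have hs1 : ‖D.q j.1‖ / t < 1 := by rw [div_lt_one ht0]; exact ht1
    have hs2 : ‖D.q j.1‖ ≤ ‖D.q j.1‖ / t := by
      rw [le_div_iff₀ ht0]
      nlinarith
    let a : Fin g × Bool → ℝ := fun k =>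
      if k.1 = j.1 then (if k.2 = j.2 then t else ‖D.q j.1‖ / t) else Real.sqrt ‖D.q k.1‖
    have hcut : D.Cut a := by
      refine ⟨fun k => ?_, fun k => ?_, fun i => ?_⟩
      · by_cases h1 : k.1 = j.1
        · by_cases h2 : k.2 = j.2
          · simp only [a, h1, h2, if_true]
            exact ht1.le
          · simp only [a, h1, h2, if_true, if_false]
            exact hs2
        · simp only [a, h1, if_false]
          exact hD.cut_sqrt.le k
      · by_cases h1 : k.1 = j.1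
        · by_cases h2 : k.2 = j.2
          · simp only [a, h1, h2, if_true]
            linarith
          · simp only [a, h1, h2, if_true, if_false]
            exact hs1
        · simp only [a, h1, if_false]
          exact hD.cut_sqrt.lt k
      · by_cases h1 : i = j.1
        · subst h1
          rcases hb : j.2 with _ | _
          · simp only [a, hb, if_true, Bool.true_eq_false, if_false]
            rw [mul_div_cancel₀ _ ht0.ne']
          · simp only [a, hb, if_true, Bool.false_eq_true, if_false]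
            rw [div_mul_cancel₀ _ ht0.ne']
        · simp only [a, h1, if_false]
          exact hD.cut_sqrt.mul i
    refine ⟨a, hcut, ?_⟩
    rw [hD.F_mem_Pa hcut.lt hz]
    simp only [a, if_true]
    exact ht2

end PData

end Pool.Agent.Lib.MP_cca10c_ag
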