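import Pool.Agent.Lib.MP_cca10c_ag.R02_Plane
import Pool.Agent.Lib.MP_cca10c_ag.H03_HolOn

/-!
# Module R: presentations from pieces (stub R03)

`exists_pres`: `Ψ w := ι i z` if `w = F (i,false) z` (`z` in the unit disc), `ι i (q i / z)` if `w = F (i,true) z`, and `ψ w` if `w ∈ Co`. By `out`,
`inn` it is equal to `ψ` on the open set `Pa ρ`; on the open set `F j '' {‖q‖ < ‖z‖ < 1}` it is `ι i` composed with a holomorphic map
(`Valid.exists_inv`); these open sets cover `Om` (`cases_Co`). The fibres are read off from the decomposition of `X` into the disjoint sets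
`ψ '' Co` and `ι i '' An i`.
-/

set_option autoImplicit false

open Topology Set Metric
open scoped ContDiff

namespace Pool.Agent.Lib.MP_cca10c_ag

variable {X : Type} [TopologicalSpace X] {S : CS X} {g : ℕ} {D : PData g}

/-- the surface is the disjoint union of `ψ '' Co` and the annuli `ι i '' An i`, glued along collars -/
structure PData.Pieces (D : PData g) (S : CS X) (ψ : ℂ → X) (ι : Fin g → ℂ → X) (ρ : Fin g × Bool → ℝ) : Prop where
  ρ0 : ∀ j, ‖D.q j.1‖ < ρ j
  ρ1 : ∀ j, ρ j < 1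
  hol : S.HolOn ψ (D.Pa ρ)
  holι : ∀ i, S.HolOn (ι i) (D.An i)
  out : ∀ i z, ρ (i, false) < ‖z‖ → ‖z‖ < 1 → ι i z = ψ (D.F (i, false) z)
  inn : ∀ i z, ρ (i, true) < ‖z‖ → ‖z‖ < 1 → ι i (D.q i / z) = ψ (D.F (i, true) z)
  inj : InjOn ψ D.Co
  injι : ∀ i, InjOn (ι i) (D.An i)
  disj : ∀ i, Disjoint (ι i '' D.An i) (ψ '' D.Co)
  disjι : ∀ i k, i ≠ k → Disjoint (ι i '' D.An i) (ι k '' D.An k)
  onto : ∀ x, (∃ w ∈ D.Co, ψ w = x) ∨ ∃ i, ∃ z ∈ D.An i, ι i z = x

/-- holomorphy on a union of open sets -/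
theorem CS.HolOn.iUnion {κ : Type} {φ : ℂ → X} {U : κ → Set ℂ} (hU : ∀ k, IsOpen (U k)) (h : ∀ k, S.HolOn φ (U k)) :
    S.HolOn φ (⋃ k, U k) := by
  constructor
  · intro z hz
    obtain ⟨k, hk⟩ := mem_iUnion.1 hz
    exact ((h k).1.continuousAt ((hU k).mem_nhds hk)).continuousWithinAt
  · rintro e he z ⟨hz, hze⟩
    obtain ⟨k, hk⟩ := mem_iUnion.1 hz
    have ho : IsOpen (U k ∩ φ ⁻¹' e.source) := (h k).1.isOpen_inter_preimage (hU k) e.open_source
    exact (((h k).2 e he).differentiableAt (ho.mem_nhds ⟨hk, hze⟩)).differentiableWithinAt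

private theorem R03_An_Dj {i : Fin g} {z : ℂ} (hz : z ∈ D.An i) (s : Bool) : z ∈ D.Dj (i, s) 1 :=
  ⟨PData.at_of_ne_zero (norm_pos_iff.1 ((norm_nonneg _).trans_lt hz.1)), hz.2⟩

private theorem R03_ne {i : Fin g} {z : ℂ} (hz : z ∈ D.An i) : z ≠ 0 :=
  norm_pos_iff.1 ((norm_nonneg _).trans_lt hz.1)

private theorem R03_div (hD : D.Valid) {i : Fin g} {z : ℂ} (hz : z ∈ D.An i) :
    D.q i / z ∈ D.An i := by
  have h0 : 0 < ‖z‖ := norm_pos_iff.2 (R03_ne hz)
  have hq : 0 < ‖D.q i‖ := norm_pos_iff.2 (hD.q0 i)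
  constructor
  · rw [norm_div, lt_div_iff₀ h0]
    have := hz.2
    nlinarith
  · rw [norm_div, div_lt_one h0]
    exact hz.1

private theorem R03_divdiv (hD : D.Valid) (i : Fin g) (z : ℂ) : D.q i / (D.q i / z) = z :=
  div_div_cancel₀ (hD.q0 i)

private theorem R03_isOpen_An (i : Fin g) : IsOpen (D.An i) :=
  (isOpen_lt continuous_const continuous_norm).inter (isOpen_lt continuous_norm continuous_const)

private theorem R03_mem_An (hD : D.Valid) {j : Fin g × Bool} {z : ℂ} (hz : z ∈ D.Dj j 1)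
    (h : D.F j z ∈ D.Om) : z ∈ D.An j.1 := ⟨(hD.F_mem_Om hz).1 h, hz.2⟩

private theorem R03_mem_Om (hD : D.Valid) {i : Fin g} {z : ℂ} (hz : z ∈ D.An i) (s : Bool) :
    D.F (i, s) z ∈ D.Om := (hD.F_mem_Om (R03_An_Dj hz s)).2 hz.1

/-- the handle coordinate -/
private noncomputable def R03_c (D : PData g) (j : Fin g × Bool) (z : ℂ) : ℂ :=
  if j.2 then D.q j.1 / z else z

private theorem R03_c_mem (hD : D.Valid) {j : Fin g × Bool} {z : ℂ} (hz : z ∈ D.An j.1) :
    R03_c D j z ∈ D.An j.1 := by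
  unfold R03_c
  split_ifs
  · exact R03_div hD hz
  · exact hz

/-- the map defined by cases -/
private theorem R03_exists (hD : D.Valid) (ψ : ℂ → X) (ι : Fin g → ℂ → X) :
    ∃ Ψ : ℂ → X, (∀ w ∈ D.Co, Ψ w = ψ w) ∧
      ∀ j, ∀ z ∈ D.Dj j 1, Ψ (D.F j z) = ι j.1 (R03_c D j z) := by
  classical
  refine ⟨fun w => if h : ∃ p : (Fin g × Bool) × ℂ, p.2 ∈ D.Dj p.1 1 ∧ w = D.F p.1 p.2 then
    ι h.choose.1.1 (R03_c D h.choose.1 h.choose.2) else ψ w, ?_, ?_⟩
  · intro w hw
    have h : ¬ ∃ p : (Fin g × Bool) × ℂ, p.2 ∈ D.Dj p.1 1 ∧ w = D.F p.1 p.2 := by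
      rintro ⟨p, hp, rfl⟩
      exact hw p.1 ⟨p.2, hp, rfl⟩
    exact dif_neg h
  · intro j z hz
    have h : ∃ p : (Fin g × Bool) × ℂ, p.2 ∈ D.Dj p.1 1 ∧ D.F j z = D.F p.1 p.2 :=
      ⟨(j, z), hz, rfl⟩
    have h1 : h.choose = (j, z) := by
      obtain ⟨h2, h3⟩ := h.choose_spec
      have h4 : j = h.choose.1 := by
        by_contra hne
        exact hD.F_ne hne hz h2 h3
      have h5 : z = h.choose.2 := by
        rw [← h4] at h2 h3
        exact hD.injOn_F j hz h2 h3
      exact Prod.ext h4.symm h5.symm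
    show (if h : ∃ p : (Fin g × Bool) × ℂ, p.2 ∈ D.Dj p.1 1 ∧ D.F j z = D.F p.1 p.2 then
      ι h.choose.1.1 (R03_c D h.choose.1 h.choose.2) else ψ (D.F j z)) = _
    rw [dif_pos h, h1]

theorem PData.Pieces.exists_pres (hD : D.Valid) {ψ : ℂ → X} {ι : Fin g → ℂ → X} {ρ : Fin g × Bool → ℝ}
    (h : D.Pieces S ψ ι ρ) :
    ∃ P : Pres S D, (∀ w ∈ D.Pa ρ, P.ψ w = ψ w) ∧ ∀ i, ∀ z ∈ D.An i, P.ι i z = ι i z := by
  obtain ⟨Ψ, hCo, hF⟩ := R03_exists hD ψ ι
  have hFf : ∀ i, ∀ z ∈ D.Dj (i, false) 1, Ψ (D.F (i, false) z) = ι i z := fun i z hz =>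
    hF (i, false) z hz
  have hFt : ∀ i, ∀ z ∈ D.Dj (i, true) 1, Ψ (D.F (i, true) z) = ι i (D.q i / z) := fun i z hz =>
    hF (i, true) z hz
  -- `Ψ = ψ` on `Pa ρ`
  have hPa : EqOn Ψ ψ (D.Pa ρ) := by
    intro w hw
    rcases PData.cases_Co (D := D) w with hw' | ⟨⟨i, s⟩, z, hz, rfl⟩
    · exact hCo w hw'
    · have h1 := (hD.F_mem_Pa h.ρ1 hz).1 hw
      cases s with
      | false => rw [hFf i z hz, h.out i z h1 hz.2]
      | true => rw [hFt i z hz, h.inn i z h1 hz.2]
  -- holomorphy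
  have hol : S.HolOn Ψ D.Om := by
    have hcov : D.Om ⊆ ⋃ k : Option (Fin g × Bool),
        (match k with | none => D.Pa ρ | some j => D.F j '' D.An j.1) := by
      intro w hw
      rcases PData.cases_Co (D := D) w with hw' | ⟨j, z, hz, rfl⟩
      · exact mem_iUnion.2 ⟨none, PData.Valid.Co_sub_Pa h.ρ1 hw'⟩
      · exact mem_iUnion.2 ⟨some j, ⟨z, R03_mem_An hD hz hw, rfl⟩⟩
    have ho : ∀ j : Fin g × Bool, IsOpen (D.F j '' D.An j.1) := fun j =>
      hD.isOpen_image j (R03_isOpen_An j.1) fun z hz => R03_An_Dj hz j.2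
    refine (CS.HolOn.iUnion ?_ ?_).mono hcov
    · rintro (_ | j)
      · exact hD.isOpen_Pa h.ρ1
      · exact ho j
    · rintro (_ | ⟨i, s⟩)
      · exact h.hol.congr hPa
      · show S.HolOn Ψ (D.F (i, s) '' D.An i)
        obtain ⟨G, hG, hG'⟩ := hD.exists_inv (i, s)
        have hsub : D.F (i, s) '' D.An i ⊆ D.disc (i, s) 1 := by
          rintro _ ⟨z, hz, rfl⟩
          exact ⟨z, R03_An_Dj hz s, rfl⟩
        have hGm : ∀ w ∈ D.F (i, s) '' D.An i, G w ∈ D.An i := by
          rintro _ ⟨z, hz, rfl⟩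
          rw [hG' z (R03_An_Dj hz s)]
          exact hz
        cases s with
        | false =>
          have h1 : S.HolOn (ι i ∘ G) (D.F (i, false) '' D.An i) :=
            (h.holι i).comp (ho (i, false)) (R03_isOpen_An i) (hG.mono hsub) hGm
          refine h1.congr ?_
          rintro _ ⟨z, hz, rfl⟩
          show Ψ (D.F (i, false) z) = ι i (G (D.F (i, false) z))
          rw [hG' z (R03_An_Dj hz false), hFf i z (R03_An_Dj hz false)]
        | true =>
          have h1 : S.HolOn (ι i ∘ fun w => D.q i / G w) (D.F (i, true) '' D.An i) := by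
            refine (h.holι i).comp (ho (i, true)) (R03_isOpen_An i) ?_ fun w hw =>
              R03_div hD (hGm w hw)
            exact (differentiableOn_const _).div (hG.mono hsub) fun w hw => R03_ne (hGm w hw)
          refine h1.congr ?_
          rintro _ ⟨z, hz, rfl⟩
          show Ψ (D.F (i, true) z) = ι i (D.q i / G (D.F (i, true) z))
          rw [hG' z (R03_An_Dj hz true), hFt i z (R03_An_Dj hz true)]
  have hglue : ∀ w w', D.Glue w w' → Ψ w = Ψ w' := by
    rintro w w' ⟨i, z, hz, hz1, rfl, rfl⟩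
    have hzA : z ∈ D.An i := ⟨hz, hz1⟩
    rw [hFf i z (R03_An_Dj hzA false), hFt i _ (R03_An_Dj (R03_div hD hzA) true),
      R03_divdiv hD]
  refine ⟨⟨Ψ, hol, ?_, ?_⟩, hPa, ?_⟩
  · intro w hw w' hw'
    constructor
    · intro he
      rcases PData.cases_Co (D := D) w with h1 | ⟨⟨i, s⟩, z, hz, rfl⟩
      · rcases PData.cases_Co (D := D) w' with h2 | ⟨⟨k, s'⟩, z', hz', rfl⟩
        · rw [hCo w h1, hCo w' h2] at he
          exact Or.inl (h.inj h1 h2 he)
        · exfalso
          rw [hCo w h1, hF _ _ hz'] at he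
          refine Set.disjoint_left.1 (h.disj k) ?_ ⟨w, h1, rfl⟩
          rw [he]
          exact ⟨_, R03_c_mem hD (j := (k, s')) (R03_mem_An hD hz' hw'), rfl⟩
      · have hzA := R03_mem_An hD hz hw
        rcases PData.cases_Co (D := D) w' with h2 | ⟨⟨k, s'⟩, z', hz', rfl⟩
        · exfalso
          rw [hCo w' h2, hF _ _ hz] at he
          refine Set.disjoint_left.1 (h.disj i) ?_ ⟨w', h2, rfl⟩
          rw [← he]
          exact ⟨_, R03_c_mem hD (j := (i, s)) hzA, rfl⟩
        · have hzA' := R03_mem_An hD hz' hw'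
          rw [hF _ _ hz, hF _ _ hz'] at he
          have hm := R03_c_mem hD (j := (i, s)) hzA
          have hm' := R03_c_mem hD (j := (k, s')) hzA'
          have hik : i = k := by
            by_contra hne
            refine Set.disjoint_left.1 (h.disjι i k hne) ⟨_, hm, rfl⟩ ?_
            show ι i (R03_c D (i, s) z) ∈ _
            rw [show ι i (R03_c D (i, s) z) = ι k (R03_c D (k, s') z') from he]
            exact ⟨_, hm', rfl⟩
          subst hik
          have he' : R03_c D (i, s) z = R03_c D (i, s') z' := h.injι i hm hm' he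
          cases s with
          | false =>
            cases s' with
            | false =>
              have h3 : z = z' := he'
              exact Or.inl (by rw [h3])
            | true =>
              have h3 : z = D.q i / z' := he'
              refine Or.inr (Or.inl ⟨i, z, hzA.1, hzA.2, rfl, ?_⟩)
              rw [h3, R03_divdiv hD]
          | true =>
            cases s' with
            | false =>
              have h3 : D.q i / z = z' := he'
              refine Or.inr (Or.inr ⟨i, z', hzA'.1, hzA'.2, rfl, ?_⟩)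
              rw [← h3, R03_divdiv hD]
            | true =>
              have h3 : D.q i / z = D.q i / z' := he'
              have h4 : z = z' := by
                rw [← R03_divdiv hD i z, h3, R03_divdiv hD]
              exact Or.inl (by rw [h4])
    · rintro (rfl | hg | hg)
      · rfl
      · exact hglue _ _ hg
      · exact (hglue _ _ hg).symm
  · intro x
    rcases h.onto x with ⟨w, hw, rfl⟩ | ⟨i, z, hz, rfl⟩
    · exact ⟨w, hD.Co_sub_Om hw, hCo w hw⟩
    · exact ⟨D.F (i, false) z, R03_mem_Om hD hz false, hFf i z (R03_An_Dj hz false)⟩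
  · intro i z hz
    exact hFf i z (R03_An_Dj hz false)

/-- the other side of a handle -/
private theorem R03_inn (P : Pres S D) (hD : D.Valid) {i : Fin g} {z : ℂ} (hz : z ∈ D.An i) :
    P.ι i (D.q i / z) = P.ψ (D.F (i, true) z) := by
  have h1 := R03_div hD hz
  refine (P.fib _ (R03_mem_Om hD h1 false) _ (R03_mem_Om hD hz true)).2 (Or.inr (Or.inl ?_))
  refine ⟨i, D.q i / z, h1.1, h1.2, rfl, ?_⟩
  rw [R03_divdiv hD]

private theorem R03_not_glue (hD : D.Valid) {w w' : ℂ} (hg : D.Glue w w') :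
    ∀ i, ∀ z ∈ D.An i, w' ≠ D.F (i, false) z := by
  obtain ⟨k, z', hz', hz1', rfl, rfl⟩ := hg
  intro i z hz
  have hzA : z' ∈ D.An k := ⟨hz', hz1'⟩
  exact hD.F_ne (by simp) (R03_An_Dj (R03_div hD hzA) true) (R03_An_Dj hz false)

theorem Pres.pieces (hD : D.Valid) (P : Pres S D) {ρ : Fin g × Bool → ℝ} (h0 : ∀ j, ‖D.q j.1‖ < ρ j)
    (h1 : ∀ j, ρ j < 1) : D.Pieces S P.ψ P.ι ρ := by
  refine
    { ρ0 := h0
      ρ1 := h1
      hol := P.hol.mono (PData.Valid.Pa_sub_Om fun j => (h0 j).le)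
      holι := ?_
      out := fun i z _ _ => rfl
      inn := fun i z hz hz1 => R03_inn P hD ⟨(h0 (i, true)).trans hz, hz1⟩
      inj := ?_
      injι := ?_
      disj := ?_
      disjι := ?_
      onto := ?_ }
  · intro i
    exact P.hol.comp (R03_isOpen_An i) hD.isOpen_Om
      ((hD.diff_F (i, false)).mono fun z hz => R03_An_Dj hz false)
      fun z hz => R03_mem_Om hD hz false
  · intro w hw w' hw' he
    rcases (P.fib w (hD.Co_sub_Om hw) w' (hD.Co_sub_Om hw')).1 he with h | h | h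
    · exact h
    · exact absurd h (PData.not_glue_Co hD hw).1
    · exact absurd h (PData.not_glue_Co hD hw).2
  · intro i z hz z' hz' he
    rcases (P.fib _ (R03_mem_Om hD hz false) _ (R03_mem_Om hD hz' false)).1 he with h | h | h
    · exact hD.injOn_F (i, false) (R03_An_Dj hz false) (R03_An_Dj hz' false) h
    · exact absurd rfl (R03_not_glue hD h i z' hz')
    · exact absurd rfl (R03_not_glue hD h i z hz)
  · intro i
    rw [Set.disjoint_left]
    rintro _ ⟨z, hz, rfl⟩ ⟨w, hw, he⟩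
    rcases (P.fib w (hD.Co_sub_Om hw) _ (R03_mem_Om hD hz false)).1 he with h | h | h
    · exact hw (i, false) (by rw [h]; exact ⟨z, R03_An_Dj hz false, rfl⟩)
    · exact absurd h (PData.not_glue_Co hD hw).1
    · exact absurd h (PData.not_glue_Co hD hw).2
  · intro i k hik
    rw [Set.disjoint_left]
    rintro _ ⟨z, hz, rfl⟩ ⟨z', hz', he⟩
    rcases (P.fib _ (R03_mem_Om hD hz' false) _ (R03_mem_Om hD hz false)).1 he with h | h | h
    · exact hD.F_ne (by simpa using fun h' => hik h'.symm) (R03_An_Dj hz' false) (R03_An_Dj hz false) h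
    · exact absurd rfl (R03_not_glue hD h i z hz)
    · exact absurd rfl (R03_not_glue hD h k z' hz')
  · intro x
    obtain ⟨w, hw, rfl⟩ := P.onto x
    rcases PData.cases_Co (D := D) w with h2 | ⟨⟨i, s⟩, z, hz, rfl⟩
    · exact Or.inl ⟨w, h2, rfl⟩
    · have hzA := R03_mem_An hD hz hw
      cases s with
      | false => exact Or.inr ⟨i, z, hzA, rfl⟩
      | true => exact Or.inr ⟨i, D.q i / z, R03_div hD hzA, R03_inn P hD hzA⟩

/-- the other side of a handle -/
theorem Pres.ι_inn (P : Pres S D) (hD : D.Valid) {i : Fin g} {z : ℂ} (hz : z ∈ D.An i) :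
    P.ι i (D.q i / z) = P.ψ (D.F (i, true) z) :=
  R03_inn P hD hz

end Pool.Agent.Lib.MP_cca10c_ag
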