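import Pool.Agent.Lib.MP_cca10c_ag.R03_Pieces

/-!
# Module R: charts from a presentation (stub R04)

`InjOn` from `fib` and `Valid.not_glue`, charts from `CS.HolOn.exists_chart` (H03). Handle chart: the map `ζ ↦ ι i (√|q i| ζ)` on
`{exp (-L/2) < ‖ζ‖ < exp (L/2)}`, note `exp (-L i / 2) = √‖q i‖`.
-/

set_option autoImplicit false

open Topology Set Metric
open scoped ContDiff

namespace Pool.Agent.Lib.MP_cca10c_ag

variable {X : Type} [TopologicalSpace X] {S : CS X} {g : ℕ} {D : PData g}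

namespace Pres

theorem injOn_Pa (P : Pres S D) (hD : D.Valid) {a : Fin g × Bool → ℝ} (ha : D.Cut a) : InjOn P.ψ (D.Pa a) := by
  intro w hw w' hw' h
  have h1 : D.Pa a ⊆ D.Om := PData.Valid.Pa_sub_Om ha.le
  rcases (P.fib w (h1 hw) w' (h1 hw')).1 h with h2 | h2 | h2
  · exact h2
  · exact absurd h2 (hD.not_glue ha hw hw')
  · exact absurd h2 (hD.not_glue ha hw' hw)

/-- the planar chart with cut radii `a` -/
theorem exists_chart (P : Pres S D) (hD : D.Valid) {a : Fin g × Bool → ℝ} (ha : D.Cut a) :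
    ∃ e ∈ S.charts, e.target = D.Pa a ∧ e.source = P.ψ '' D.Pa a ∧ ∀ z, e.symm z = P.ψ z :=
  (P.hol.mono (PData.Valid.Pa_sub_Om ha.le)).exists_chart (hD.isOpen_Pa ha.lt) (P.injOn_Pa hD ha)

/-- the chart of an open subset of the plane on which `ψ` is injective -/
theorem exists_chart' (P : Pres S D) {U : Set ℂ} (hU : IsOpen U) (hU' : U ⊆ D.Om) (hi : InjOn P.ψ U) :
    ∃ e ∈ S.charts, e.target = U ∧ e.source = P.ψ '' U ∧ ∀ z, e.symm z = P.ψ z :=
  (P.hol.mono hU').exists_chart hU hi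

theorem isOpen_image (P : Pres S D) (hD : D.Valid) {U : Set ℂ} (hU : IsOpen U) (hU' : U ⊆ D.Om) : IsOpen (P.ψ '' U) := by
  rw [isOpen_iff_mem_nhds]
  rintro _ ⟨w, hw, rfl⟩
  obtain ⟨a, ha, hwa⟩ := hD.exists_cut (hU' hw)
  have hV : IsOpen (U ∩ D.Pa a) := hU.inter (hD.isOpen_Pa ha.lt)
  obtain ⟨e, he, het, hes, -⟩ := P.exists_chart' hV (inter_subset_left.trans hU')
    ((P.injOn_Pa hD ha).mono inter_subset_right)
  have h1 : P.ψ '' (U ∩ D.Pa a) ∈ 𝓝 (P.ψ w) := by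
    rw [← hes]
    exact e.open_source.mem_nhds (hes ▸ ⟨w, ⟨hw, hwa⟩, rfl⟩)
  exact Filter.mem_of_superset h1 (image_mono inter_subset_left)

private theorem R04_pieces (P : Pres S D) (hD : D.Valid) : ∃ ρ, D.Pieces S P.ψ P.ι ρ := by
  refine ⟨fun j => (‖D.q j.1‖ + 1) / 2, P.pieces hD (fun j => ?_) (fun j => ?_)⟩
  · have := hD.q1 j.1
    show ‖D.q j.1‖ < (‖D.q j.1‖ + 1) / 2
    linarith
  · have := hD.q1 j.1
    show (‖D.q j.1‖ + 1) / 2 < 1
    linarith

theorem injOn_ι (P : Pres S D) (hD : D.Valid) (i : Fin g) : InjOn (P.ι i) (D.An i) := by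
  obtain ⟨ρ, h⟩ := R04_pieces P hD
  exact h.injι i

theorem holOn_ι (P : Pres S D) (hD : D.Valid) (i : Fin g) : S.HolOn (P.ι i) (D.An i) := by
  obtain ⟨ρ, h⟩ := R04_pieces P hD
  exact h.holι i

private theorem R04_sqrt_pos (hD : D.Valid) (i : Fin g) : 0 < Real.sqrt ‖D.q i‖ :=
  Real.sqrt_pos.2 (norm_pos_iff.2 (hD.q0 i))

private theorem R04_exp_neg (hD : D.Valid) (i : Fin g) :
    Real.exp (-(D.L i / 2)) = Real.sqrt ‖D.q i‖ := by
  have h0 : 0 < ‖D.q i‖ := norm_pos_iff.2 (hD.q0 i)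
  have h1 : -(D.L i / 2) = Real.log ‖D.q i‖ / 2 := by
    unfold PData.L
    ring
  rw [h1, Real.exp_half, Real.exp_log h0]

private theorem R04_exp_pos (hD : D.Valid) (i : Fin g) :
    Real.exp (D.L i / 2) = (Real.sqrt ‖D.q i‖)⁻¹ := by
  rw [← R04_exp_neg hD i, Real.exp_neg, inv_inv]

private theorem R04_norm (hD : D.Valid) (i : Fin g) (ζ : ℂ) :
    ‖(Real.sqrt ‖D.q i‖ : ℂ) * ζ‖ = Real.sqrt ‖D.q i‖ * ‖ζ‖ := by
  rw [norm_mul, Complex.norm_real, Real.norm_of_nonneg (R04_sqrt_pos hD i).le]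

private theorem R04_mem (hD : D.Valid) (i : Fin g) (ζ : ℂ) :
    (Real.sqrt ‖D.q i‖ : ℂ) * ζ ∈ D.An i ↔
      ζ ∈ {ζ : ℂ | Real.exp (-(D.L i / 2)) < ‖ζ‖ ∧ ‖ζ‖ < Real.exp (D.L i / 2)} := by
  have h0 := R04_sqrt_pos hD i
  have hs : ‖D.q i‖ = Real.sqrt ‖D.q i‖ * Real.sqrt ‖D.q i‖ :=
    (Real.mul_self_sqrt (norm_nonneg _)).symm
  rw [mem_ofPred_eq, R04_exp_neg hD, R04_exp_pos hD]
  show ‖D.q i‖ < ‖(Real.sqrt ‖D.q i‖ : ℂ) * ζ‖ ∧ ‖(Real.sqrt ‖D.q i‖ : ℂ) * ζ‖ < 1 ↔ _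
  rw [R04_norm hD]
  constructor
  · rintro ⟨h1, h2⟩
    refine ⟨?_, ?_⟩
    · have h3 : Real.sqrt ‖D.q i‖ * Real.sqrt ‖D.q i‖ < Real.sqrt ‖D.q i‖ * ‖ζ‖ := by
        rw [← hs]
        exact h1
      exact lt_of_mul_lt_mul_left h3 h0.le
    · rw [lt_inv_comm₀ (by
        rcases (norm_nonneg ζ).lt_or_eq with h | h
        · exact h
        · exfalso
          rw [← h, mul_zero] at h1
          exact absurd h1 (not_lt.2 (norm_nonneg _))) h0]
      rw [← one_div, lt_div_iff₀]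
      · exact h2
      · rcases (norm_nonneg ζ).lt_or_eq with h | h
        · exact h
        · exfalso
          rw [← h, mul_zero] at h1
          exact absurd h1 (not_lt.2 (norm_nonneg _))
  · rintro ⟨h1, h2⟩
    refine ⟨?_, ?_⟩
    · calc ‖D.q i‖ = Real.sqrt ‖D.q i‖ * Real.sqrt ‖D.q i‖ := hs
        _ < _ := mul_lt_mul_of_pos_left h1 h0
    · calc Real.sqrt ‖D.q i‖ * ‖ζ‖ < Real.sqrt ‖D.q i‖ * (Real.sqrt ‖D.q i‖)⁻¹ :=
            mul_lt_mul_of_pos_left h2 h0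
        _ = 1 := mul_inv_cancel₀ h0.ne'

private theorem R04_L_pos (hD : D.Valid) (i : Fin g) : 0 < D.L i := by
  unfold PData.L
  have := Real.log_neg (norm_pos_iff.2 (hD.q0 i)) (hD.q1 i)
  linarith

private theorem R04_isOpen_ann (r s : ℝ) : IsOpen {ζ : ℂ | r < ‖ζ‖ ∧ ‖ζ‖ < s} :=
  (isOpen_lt continuous_const continuous_norm).inter (isOpen_lt continuous_norm continuous_const)

theorem exists_handle (P : Pres S D) (hD : D.Valid) (i : Fin g) : ∃ e, P.IsHandle i e := by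
  set T : Set ℂ := {ζ : ℂ | Real.exp (-(D.L i / 2)) < ‖ζ‖ ∧ ‖ζ‖ < Real.exp (D.L i / 2)} with hT
  have hTo : IsOpen T := R04_isOpen_ann _ _
  have hm : MapsTo (fun ζ : ℂ => (Real.sqrt ‖D.q i‖ : ℂ) * ζ) T (D.An i) :=
    fun ζ hζ => (R04_mem hD i ζ).2 hζ
  have h1 : S.HolOn (P.ι i ∘ fun ζ : ℂ => (Real.sqrt ‖D.q i‖ : ℂ) * ζ) T :=
    (P.holOn_ι hD i).comp hTo (R04_isOpen_ann _ _)
      ((differentiable_const _).mul differentiable_id).differentiableOn hm
  have h0 : (Real.sqrt ‖D.q i‖ : ℂ) ≠ 0 := by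
    exact_mod_cast (R04_sqrt_pos hD i).ne'
  have h2 : InjOn (P.ι i ∘ fun ζ : ℂ => (Real.sqrt ‖D.q i‖ : ℂ) * ζ) T := by
    intro ζ hζ ζ' hζ' h
    exact mul_left_cancel₀ h0 (P.injOn_ι hD i (hm hζ) (hm hζ') h)
  obtain ⟨e, he, het, hes, hsymm⟩ := h1.exists_chart hTo h2
  exact ⟨e, ⟨he, by have := R04_L_pos hD i; linarith, het⟩, fun ζ _ => hsymm ζ⟩

theorem IsHandle.source_eq {P : Pres S D} (hD : D.Valid) {i : Fin g} {e : OpenPartialHomeomorph X ℂ} (h : P.IsHandle i e) :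
    e.source = P.ι i '' D.An i := by
  have h0 : (Real.sqrt ‖D.q i‖ : ℂ) ≠ 0 := by
    exact_mod_cast (R04_sqrt_pos hD i).ne'
  rw [← e.symm_image_target_eq_source]
  ext x
  constructor
  · rintro ⟨ζ, hζ, rfl⟩
    rw [h.2 ζ hζ]
    have h1 := hζ
    rw [h.1.2.2] at h1
    exact ⟨_, (R04_mem hD i ζ).2 h1, rfl⟩
  · rintro ⟨z, hz, rfl⟩
    have hz' : (Real.sqrt ‖D.q i‖ : ℂ) * (z / (Real.sqrt ‖D.q i‖ : ℂ)) = z := by
      field_simp
    have h1 : z / (Real.sqrt ‖D.q i‖ : ℂ) ∈ e.target := by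
      rw [h.1.2.2]
      apply (R04_mem hD i _).1
      rw [hz']
      exact hz
    exact ⟨_, h1, by rw [h.2 _ h1, hz']⟩

theorem IsHandle.apply {P : Pres S D} (hD : D.Valid) {i : Fin g} {e : OpenPartialHomeomorph X ℂ} (h : P.IsHandle i e) {z : ℂ}
    (hz : z ∈ D.An i) : e (P.ι i z) = z / (Real.sqrt ‖D.q i‖ : ℂ) := by
  have h0 : (Real.sqrt ‖D.q i‖ : ℂ) ≠ 0 := by
    exact_mod_cast (R04_sqrt_pos hD i).ne'
  have hz' : (Real.sqrt ‖D.q i‖ : ℂ) * (z / (Real.sqrt ‖D.q i‖ : ℂ)) = z := by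
    field_simp
  have h1 : z / (Real.sqrt ‖D.q i‖ : ℂ) ∈ e.target := by
    rw [h.1.2.2]
    apply (R04_mem hD i _).1
    rw [hz']
    exact hz
  have h2 : P.ι i z = e.symm (z / (Real.sqrt ‖D.q i‖ : ℂ)) := by
    rw [h.2 _ h1, hz']
  rw [h2, e.right_inv h1]

/-- normal form of the points of the surface -/
theorem cases (P : Pres S D) (hD : D.Valid) (x : X) : (∃ w ∈ D.Co, P.ψ w = x) ∨ ∃ i, ∃ z ∈ D.An i, P.ι i z = x := by
  obtain ⟨ρ, h⟩ := R04_pieces P hD
  exact h.onto x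

theorem ι_ne_Co (P : Pres S D) (hD : D.Valid) {i : Fin g} {z w : ℂ} (hz : z ∈ D.An i) (hw : w ∈ D.Co) : P.ι i z ≠ P.ψ w := by
  obtain ⟨ρ, h⟩ := R04_pieces P hD
  intro he
  exact Set.disjoint_left.1 (h.disj i) ⟨z, hz, rfl⟩ ⟨w, hw, he.symm⟩

theorem ι_ne_ι (P : Pres S D) (hD : D.Valid) {i k : Fin g} (h : i ≠ k) {z z' : ℂ} (hz : z ∈ D.An i) (hz' : z' ∈ D.An k) :
    P.ι i z ≠ P.ι k z' := by
  obtain ⟨ρ, hP⟩ := R04_pieces P hD
  intro he
  exact Set.disjoint_left.1 (hP.disjι i k h) ⟨z, hz, rfl⟩ ⟨z', hz', he.symm⟩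

end Pres

private theorem R04_An_sub {i : Fin g} {z : ℂ} (hz : z ∈ D.An i) (j : Fin g × Bool) : z ∈ D.Dj j 1 := by
  have h0 : z ≠ 0 := by
    rintro rfl
    have h1 := hz.1
    rw [norm_zero] at h1
    exact absurd h1 (not_lt.2 (norm_nonneg _))
  exact ⟨PData.at_of_ne_zero h0, hz.2⟩

private theorem R04_An_ne {i : Fin g} {z : ℂ} (hz : z ∈ D.An i) : z ≠ 0 := by
  rintro rfl
  have h1 := hz.1
  rw [norm_zero] at h1
  exact absurd h1 (not_lt.2 (norm_nonneg _))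

private theorem R04_inv (hD : D.Valid) {i : Fin g} {z : ℂ} (hz : z ∈ D.An i) : D.q i / z ∈ D.An i := by
  have h0 : 0 < ‖z‖ := norm_pos_iff.2 (R04_An_ne hz)
  have hq : 0 < ‖D.q i‖ := norm_pos_iff.2 (hD.q0 i)
  refine ⟨?_, ?_⟩
  · rw [norm_div, lt_div_iff₀ h0]
    have := mul_lt_mul_of_pos_left hz.2 hq
    linarith
  · rw [norm_div, div_lt_one h0]
    exact hz.1

private theorem R04_closed (P : Pres S D) (hD : D.Valid) (i : Fin g) {K : Set ℂ} (hK : IsCompact K)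
    (hKs : K ⊆ D.An i) : IsClosed (P.ι i '' K) := by
  have hA : IsCompact (D.F (i, false) '' K) :=
    hK.image_of_continuousOn ((hD.diff_F (i, false)).continuousOn.mono fun z hz => R04_An_sub (hKs hz) _)
  have hB : IsCompact ((fun z => D.F (i, true) (D.q i / z)) '' K) := by
    refine hK.image_of_continuousOn ?_
    refine ContinuousOn.comp (g := D.F (i, true)) (f := fun z => D.q i / z) (t := D.Dj (i, true) 1)
      (hD.diff_F (i, true)).continuousOn ?_ ?_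
    · exact continuousOn_const.div continuousOn_id fun z hz => R04_An_ne (hKs hz)
    · exact fun z hz => R04_An_sub (R04_inv hD (hKs hz)) _
  have hO : IsOpen (P.ψ '' (D.Om \ (D.F (i, false) '' K ∪ (fun z => D.F (i, true) (D.q i / z)) '' K))) :=
    P.isOpen_image hD (hD.isOpen_Om.sdiff (hA.isClosed.union hB.isClosed)) sdiff_subset
  have hAn : ∀ z ∈ D.An i, D.F (i, false) z ∈ D.Om := fun z hz => (hD.F_mem_Om (R04_An_sub hz _)).2 hz.1
  rw [← isOpen_compl_iff]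
  convert hO using 1
  ext x
  constructor
  · intro hx
    obtain ⟨w, hw, rfl⟩ := P.onto x
    refine ⟨w, ⟨hw, ?_⟩, rfl⟩
    rintro (⟨z, hz, rfl⟩ | ⟨z, hz, rfl⟩)
    · exact hx ⟨z, hz, rfl⟩
    · refine hx ⟨z, hz, ?_⟩
      have h1 := P.ι_inn hD (R04_inv hD (hKs hz))
      rw [div_div_cancel₀ (hD.q0 i)] at h1
      exact h1
  · rintro ⟨w, ⟨hw, hw'⟩, rfl⟩ ⟨z, hz, hzw⟩
    rcases (P.fib _ (hAn z (hKs hz)) w hw).1 hzw with h | ⟨k, z', h1, h2, h3, h4⟩ | ⟨k, z', h1, h2, h3, h4⟩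
    · exact hw' (Or.inl ⟨z, hz, h⟩)
    · have hz' : z' ∈ D.An k := ⟨h1, h2⟩
      by_cases hki : k = i
      · subst hki
        have h5 : z = z' := hD.injOn_F (k, false) (R04_An_sub (hKs hz) _) (R04_An_sub hz' _) h3
        subst h5
        exact hw' (Or.inr ⟨z, hz, h4.symm⟩)
      · refine hD.F_ne (j := (i, false)) (k := (k, false)) ?_ (R04_An_sub (hKs hz) _) (R04_An_sub hz' _) h3
        intro h
        exact hki (congrArg Prod.fst h).symm
    · have hz' : z' ∈ D.An k := ⟨h1, h2⟩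
      refine hD.F_ne (j := (i, false)) (k := (k, true)) ?_ (R04_An_sub (hKs hz) _)
        (R04_An_sub (R04_inv hD hz') _) h4
      intro h
      exact absurd (congrArg Prod.snd h) (by simp)

/-- two handle charts define the same functions -/
private theorem R04_phiE {P : Pres S D} (hD : D.Valid) {i : Fin g} {e e' : OpenPartialHomeomorph X ℂ}
    (h : P.IsHandle i e) (h' : P.IsHandle i e') (a : ℝ) : phiE e' a = phiE e a := by
  funext x
  unfold phiE
  rw [h.source_eq hD, h'.source_eq hD]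
  by_cases hx : x ∈ P.ι i '' D.An i
  · rw [if_pos hx, if_pos hx]
    obtain ⟨z, hz, rfl⟩ := hx
    rw [h.apply hD hz, h'.apply hD hz]
  · rw [if_neg hx, if_neg hx]

private theorem R04_cont {P : Pres S D} (hD : D.Valid) {i : Fin g} {e : OpenPartialHomeomorph X ℂ}
    (h : P.IsHandle i e) {a a' : ℝ} (ha : 0 < a) (hal : a < D.L i / 2) (ha' : 0 < a') (hal' : a' < D.L i / 2) :
    Continuous fun y => phiE e a' y - phiE e a y := by
  have hm : max a a' < D.L i / 2 := max_lt hal hal'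
  have hclosed : IsClosed (midA e (max a a')) := by
    have hcomp : IsCompact (midA e (max a a')) := midA_compact h.1 hm
    have hK : IsCompact (e '' midA e (max a a')) :=
      hcomp.image_of_continuousOn (e.continuousOn.mono fun x hx => hx.1)
    have hK' : IsCompact ((fun ζ : ℂ => (Real.sqrt ‖D.q i‖ : ℂ) * ζ) '' (e '' midA e (max a a'))) :=
      hK.image (continuous_const.mul continuous_id)
    have hmem : ∀ x ∈ midA e (max a a'), (Real.sqrt ‖D.q i‖ : ℂ) * e x ∈ D.An i := by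
      intro x hx
      rw [Pres.R04_mem hD i, ← h.1.2.2]
      exact e.map_source hx.1
    have h1 := R04_closed P hD i hK' (by
      rintro _ ⟨_, ⟨x, hx, rfl⟩, rfl⟩
      exact hmem x hx)
    convert h1 using 1
    ext x
    constructor
    · intro hx
      refine ⟨_, ⟨_, ⟨x, hx, rfl⟩, rfl⟩, ?_⟩
      rw [← h.2 (e x) (e.map_source hx.1), e.left_inv hx.1]
    · rintro ⟨_, ⟨_, ⟨y, hy, rfl⟩, rfl⟩, rfl⟩
      show P.ι i ((Real.sqrt ‖D.q i‖ : ℂ) * e y) ∈ _
      rw [← h.2 (e y) (e.map_source hy.1), e.left_inv hy.1]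
      exact hy
  rw [continuous_iff_continuousAt]
  intro x
  by_cases hx : x ∈ e.source
  · have h0 : ‖e x‖ ≠ 0 := by
      have h2 := e.map_source hx
      rw [h.1.2.2] at h2
      exact ((Real.exp_pos _).trans h2.1).ne'
    have hc : ContinuousAt (fun y => Real.log ‖e y‖) x := ((e.continuousAt hx).norm).log h0
    have h1 : ContinuousAt (fun y => stp a' (Real.log ‖e y‖) - stp a (Real.log ‖e y‖)) x :=
      (((stp_contDiff ha').continuous.continuousAt).comp hc).sub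
        (((stp_contDiff ha).continuous.continuousAt).comp hc)
    refine h1.congr ?_
    filter_upwards [e.open_source.mem_nhds hx] with y hy
    unfold phiE
    rw [if_pos hy, if_pos hy]
    split_ifs <;> ring
  · have hx' : x ∉ midA e (max a a') := fun h1 => hx h1.1
    have h1 : ContinuousAt (fun _ : X => (0 : ℝ)) x := continuousAt_const
    refine h1.congr ?_
    filter_upwards [hclosed.isOpen_compl.mem_nhds hx'] with y hy
    have hy1 : y ∉ midA e a := fun h2 => hy ⟨h2.1, h2.2.trans (le_max_left _ _)⟩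
    have hy2 : y ∉ midA e a' := fun h2 => hy ⟨h2.1, h2.2.trans (le_max_right _ _)⟩
    rw [phiE_zero ha hy1, phiE_zero ha' hy2, sub_zero]

/-- marking is enough for one handle chart: `betaC` does not depend on the choice of `e` -/
theorem Pres.marked_of_one {P : Pres S D} (hD : D.Valid) {u v : Fin g → X → UnitAddCircle} {b : Fin g → Fin g ⊕ Fin g → ℤ}
    (h : ∀ i, ∃ e, P.IsHandle i e ∧ ∃ a : ℝ, 0 < a ∧ a < D.L i / 2 ∧ SameClass (comb u v (b i)) (betaC e a)) : P.Marked u v b := by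
  intro i e' he' a' ha' hal'
  obtain ⟨e, he, a, ha, hal, f, hf, hfe⟩ := h i
  refine ⟨fun y => f y + (phiE e a' y - phiE e a y), hf.add (R04_cont hD he ha hal ha' hal'), fun x => ?_⟩
  have h1 : betaC e' a' x = betaC e a x + ((phiE e a' x - phiE e a x : ℝ) : UnitAddCircle) := by
    unfold betaC
    rw [R04_phiE hD he he', ← AddCircle.coe_add]
    congr 1
    ring
  rw [h1, hfe x]
  show comb u v (b i) x + ((f x : ℝ) : UnitAddCircle) + ((phiE e a' x - phiE e a x : ℝ) : UnitAddCircle) = _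
  rw [add_assoc, ← AddCircle.coe_add]

/-- every presentation is marked by some classes -/
theorem Pres.exists_marked [CompactSpace X] [T2Space X] (P : Pres S D) (hD : D.Valid) {u v : Fin g → X → UnitAddCircle}
    (hB : SymplBasis S g u v) : ∃ b : Fin g → Fin g ⊕ Fin g → ℤ, P.Marked u v b := by
  choose e he using fun i => P.exists_handle hD i
  choose b hb using fun i => annTop_exists hB (he i).1
  refine ⟨b, Pres.marked_of_one hD fun i => ⟨e i, he i, D.L i / 4, ?_, ?_, ?_⟩⟩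
  · have := (he i).1.2.1
    linarith
  · have := (he i).1.2.1
    linarith
  · have := (he i).1.2.1
    exact hb i _ (by linarith) (by linarith)

end Pool.Agent.Lib.MP_cca10c_ag
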