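import Pool.Agent.Lib.MP_cca10c_ag.R04_Pres
import Pool.Agent.Lib.MP_cca10c_ag.M01_Mod

/-!
# Module R: change of the complex structure away from a plane domain (stub R05)
-/

set_option autoImplicit false

open Topology Set Metric
open scoped ContDiff

namespace Pool.Agent.Lib.MP_cca10c_ag

variable {X : Type} [TopologicalSpace X] {S S' : CS X} {g : ℕ} {D : PData g}

/-- `S'` contains all charts of `S` whose domain does not meet the closed set `M`: maps which avoid `M` remain holomorphic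
(restrict the charts of `S` to the complement of `M`, `CS.restr_mem`; `CS.holOn_of_local`) -/
theorem CS.HolOn.transfer {M : Set X} (hM : IsClosed M) (h : ∀ c ∈ S.charts, Disjoint c.source M → c ∈ S'.charts)
    {φ : ℂ → X} {U : Set ℂ} (hU : IsOpen U) (hφ : S.HolOn φ U) (hd : ∀ z ∈ U, φ z ∉ M) : S'.HolOn φ U := by
  refine CS.holOn_of_local hU fun z hz => ?_
  have hcont : ContinuousAt φ z := hφ.1.continuousAt (hU.mem_nhds hz)
  refine ⟨hcont, ?_⟩
  obtain ⟨c, hc, hzc⟩ := S.cover (φ z)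
  have hO : IsOpen Mᶜ := hM.isOpen_compl
  have hc' : c.restr Mᶜ ∈ S.charts := CS.restr_mem hc hO
  have hs : (c.restr Mᶜ).source = c.source ∩ Mᶜ := by
    rw [c.restr_source, hO.interior_eq]
  refine ⟨c.restr Mᶜ, h _ hc' ?_, ?_, ?_⟩
  · rw [hs, Set.disjoint_left]
    exact fun y hy hy' => hy.2 hy'
  · rw [hs]
    exact ⟨hzc, hd z hz⟩
  · have h1 : IsOpen (U ∩ φ ⁻¹' (c.restr Mᶜ).source) :=
      hφ.1.isOpen_inter_preimage hU (c.restr Mᶜ).open_source
    have h2 : z ∈ U ∩ φ ⁻¹' (c.restr Mᶜ).source := by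
      refine ⟨hz, ?_⟩
      rw [mem_preimage, hs]
      exact ⟨hzc, hd z hz⟩
    filter_upwards [h1.mem_nhds h2] with w hw
    exact (hφ.2 _ hc' w hw).differentiableAt (h1.mem_nhds hw)

/-- the chart of the modified structure is holomorphic where it is needed: `c x = Θ (e x)`, so `e.symm ∘ Θ⁻¹ = c.symm`; here in the form:
a map `φ` with `φ (Θ w) = e.symm w` for `w ∈ U ⊆ e.target` is holomorphic on `Θ '' U` -/
theorem CS.holOn_of_modified {e c : OpenPartialHomeomorph X ℂ} (hc : c ∈ S'.charts) {Θ : ℂ → ℂ} (hs : c.source = e.source)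
    (hce : ∀ x ∈ e.source, c x = Θ (e x)) {U : Set ℂ} (hU : U ⊆ e.target) {φ : ℂ → X} (hφ : ∀ w ∈ U, φ (Θ w) = e.symm w) :
    S'.HolOn φ (Θ '' U) := by
  have key : ∀ w ∈ U, Θ w ∈ c.target ∧ φ (Θ w) = c.symm (Θ w) := by
    intro w hw
    have hx : e.symm w ∈ e.source := e.map_target (hU hw)
    have hx' : e.symm w ∈ c.source := by rw [hs]; exact hx
    have h1 : c (e.symm w) = Θ w := by rw [hce _ hx, e.right_inv (hU hw)]
    refine ⟨?_, ?_⟩
    · rw [← h1]
      exact c.map_source hx'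
    · rw [hφ w hw, ← h1, c.left_inv hx']
  have h1 : S'.HolOn c.symm (Θ '' U) := (CS.holOn_symm hc).mono (by
    rintro _ ⟨w, hw, rfl⟩
    exact (key w hw).1)
  refine h1.congr ?_
  rintro _ ⟨w, hw, rfl⟩
  exact (key w hw).2

end Pool.Agent.Lib.MP_cca10c_ag
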