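import Pool.Agent.Lib.MP_cca10c_ag.R02_Plane

/-!
# Module R: image of planar data under a homeomorphism of the plane (R06)

`map_valid`: only the foot at infinity needs care: near `0` the function `z ↦ (σ (f z)⁻¹)⁻¹` is holomorphic off `0` (`(f z)⁻¹` leaves the compact
set `K`) and tends to `0` at `0`, because `σ w → ∞` for `w → ∞` (a homeomorphism of `ℂ` is proper); removable singularity
(`Complex.differentiableOn_update_limUnder_of_isLittleO` / `Complex.analyticAt_of_differentiable_on_punctured_nhds_of_continuousAt`).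
It does not vanish for `z ≠ 0` and is holomorphic there because `σ (f z)⁻¹ ≠ 0`, see the hypothesis `h0`.
-/

set_option autoImplicit false

open Topology Set Metric
open scoped ContDiff

namespace Pool.Agent.Lib.MP_cca10c_ag

namespace PData

variable {g : ℕ}

/-- image of the data under the map `σ` of the plane -/
noncomputable def map (D : PData g) (σ : ℂ → ℂ) : PData g where
  i0 := D.i0
  f := fun j z => if j = D.inf then (if z = 0 then 0 else (σ (D.f j z)⁻¹)⁻¹) else σ (D.f j z)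
  q := D.q

variable {D : PData g}

private theorem R06_inf (σ : ℂ → ℂ) : (D.map σ).inf = D.inf := rfl

private theorem R06_f (σ : ℂ → ℂ) (j : Fin g × Bool) (z : ℂ) : (D.map σ).f j z =
    if j = D.inf then (if z = 0 then 0 else (σ (D.f j z)⁻¹)⁻¹) else σ (D.f j z) := rfl

theorem map_F (σ : ℂ → ℂ) {j : Fin g × Bool} {z : ℂ} (h : D.At j z) : (D.map σ).F j z = σ (D.F j z) := by
  by_cases hj : j = D.inf
  · subst hj
    have hz : z ≠ 0 := h rfl
    have h1 : (D.map σ).F D.inf z = ((D.map σ).f D.inf z)⁻¹ := F_inf (D := D.map σ) z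
    rw [h1, R06_f, if_pos rfl, if_neg hz, inv_inv, F_inf]
  · have h1 : (D.map σ).F j z = (D.map σ).f j z := F_of_ne (D := D.map σ) hj z
    rw [h1, R06_f, if_neg hj, F_of_ne hj]

private theorem R06_image (σ : ℂ → ℂ) (j : Fin g × Bool) (p : ℂ → Prop) :
    (D.map σ).F j '' {z | (D.map σ).At j z ∧ p z} = σ '' (D.F j '' {z | D.At j z ∧ p z}) := by
  rw [image_image]
  apply image_congr
  intro z hz
  exact map_F σ hz.1

theorem map_disc (σ : ℂ → ℂ) (j : Fin g × Bool) (r : ℝ) : (D.map σ).disc j r = σ '' D.disc j r :=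
  R06_image σ j fun z => ‖z‖ < r

theorem map_cdisc (σ : ℂ → ℂ) (j : Fin g × Bool) (r : ℝ) : (D.map σ).cdisc j r = σ '' D.cdisc j r :=
  R06_image σ j fun z => ‖z‖ ≤ r

private theorem R06_mem (σ : ℂ ≃ₜ ℂ) (A : Set ℂ) (w : ℂ) : w ∈ σ '' A ↔ σ.symm w ∈ A := by
  constructor
  · rintro ⟨z, hz, rfl⟩
    rwa [σ.symm_apply_apply]
  · intro h
    exact ⟨σ.symm w, h, σ.apply_symm_apply w⟩

private theorem R06_compl (σ : ℂ ≃ₜ ℂ) (A : Fin g × Bool → Set ℂ) :
    {w | ∀ j, w ∉ σ '' A j} = σ '' {w | ∀ j, w ∉ A j} := by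
  ext w
  rw [R06_mem]
  constructor
  · intro h j hj
    exact h j ((R06_mem σ _ w).2 hj)
  · intro h j hj
    exact h j ((R06_mem σ _ w).1 hj)

theorem map_Om (σ : ℂ ≃ₜ ℂ) : (D.map σ).Om = σ '' D.Om := by
  have h : (D.map σ).Om = {w | ∀ j, w ∉ σ '' D.cdisc j ‖D.q j.1‖} := by
    unfold Om
    ext w
    simp only [map_cdisc]
    rfl
  rw [h, R06_compl]
  rfl

theorem map_Pa (σ : ℂ ≃ₜ ℂ) (a : Fin g × Bool → ℝ) : (D.map σ).Pa a = σ '' D.Pa a := by
  have h : (D.map σ).Pa a = {w | ∀ j, w ∉ σ '' D.cdisc j (a j)} := by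
    unfold Pa
    ext w
    simp only [map_cdisc]
  rw [h, R06_compl]
  rfl

theorem map_Co (σ : ℂ ≃ₜ ℂ) : (D.map σ).Co = σ '' D.Co := by
  have h : (D.map σ).Co = {w | ∀ j, w ∉ σ '' D.disc j 1} := by
    unfold Co
    ext w
    simp only [map_disc]
  rw [h, R06_compl]
  rfl

theorem map_id (hD : D.Valid) {σ : ℂ → ℂ} (h : ∀ z, σ z = z) : D.map σ = D := by
  have h1 : (D.map σ).f = D.f := by
    funext j z
    rw [R06_f]
    by_cases hj : j = D.inf
    · subst hj
      rw [if_pos rfl]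
      by_cases hz : z = 0
      · rw [if_pos hz, hz, hD.zero]
      · rw [if_neg hz, h, inv_inv]
    · rw [if_neg hj, h]
  have h2 : D.map σ = ⟨D.i0, (D.map σ).f, D.q⟩ := rfl
  rw [h2, h1]

theorem map_map (σ τ : ℂ → ℂ) {j : Fin g × Bool} {z : ℂ} (h : D.At j z) :
    ((D.map σ).map τ).F j z = (D.map (τ ∘ σ)).F j z := by
  have h' : (D.map σ).At j z := h
  rw [map_F τ h', map_F σ h, map_F (τ ∘ σ) h]
  rfl

theorem zero_not_mem_disc (hD : D.Valid) : (0 : ℂ) ∉ D.disc D.inf 1 := by
  rintro ⟨z, ⟨hz1, hz2⟩, h⟩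
  rw [F_inf] at h
  exact hD.f_inf_ne (hz1 rfl) hz2 (inv_eq_zero.1 h)

theorem map_valid (hD : D.Valid) (σ : ℂ ≃ₜ ℂ) {K : Set ℂ} (hK : IsCompact K) (hKd : ∀ j, Disjoint K (D.disc j 1))
    (hσ : ∀ z ∉ K, DifferentiableAt ℂ σ z) (h0 : (0 : ℂ) ∉ σ '' D.disc D.inf 1) : (D.map σ).Valid := by
  have hF : ∀ j z, D.At j z → ‖z‖ < 1 → D.F j z ∉ K := by
    intro j z h1 h2 h3
    exact Set.disjoint_left.1 (hKd j) h3 ⟨z, ⟨h1, h2⟩, rfl⟩
  have hne : ∀ z, z ≠ 0 → ‖z‖ < 1 → σ (D.f D.inf z)⁻¹ ≠ 0 := by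
    intro z h1 h2 h3
    apply h0
    refine ⟨(D.f D.inf z)⁻¹, ⟨z, ⟨fun _ => h1, h2⟩, F_inf z⟩, h3⟩
  refine ⟨?_, ?_, ?_, ?_, hD.q0, hD.q1⟩
  · intro j
    by_cases hj : j = D.inf
    · subst hj
      have hball : ball (0 : ℂ) 1 ∈ 𝓝 (0 : ℂ) := ball_mem_nhds 0 one_pos
      rw [← Complex.differentiableOn_compl_singleton_and_continuousAt_iff hball]
      constructor
      · intro z hz
        have hz0 : z ≠ 0 := hz.2
        have hz1 : ‖z‖ < 1 := mem_ball_zero_iff.1 hz.1
        have hfz : DifferentiableAt ℂ (D.f D.inf) z :=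
          (hD.diff D.inf).differentiableAt (isOpen_ball.mem_nhds hz.1)
        have h1 : DifferentiableAt ℂ (fun z => (D.f D.inf z)⁻¹) z := hfz.inv (hD.f_inf_ne hz0 hz1)
        have h2 : DifferentiableAt ℂ σ (D.f D.inf z)⁻¹ := by
          apply hσ
          rw [← F_inf]
          exact hF _ _ (fun _ => hz0) hz1
        have h3 : DifferentiableAt ℂ (fun z => σ (D.f D.inf z)⁻¹) z := h2.comp z h1
        have h4 : DifferentiableAt ℂ (fun z => (σ (D.f D.inf z)⁻¹)⁻¹) z := h3.inv (hne z hz0 hz1)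
        have h5 : (D.map σ).f D.inf =ᶠ[𝓝 z] fun z => (σ (D.f D.inf z)⁻¹)⁻¹ := by
          filter_upwards [isOpen_ne.mem_nhds hz0] with w hw
          rw [R06_f, if_pos rfl, if_neg hw]
        exact (h4.congr_of_eventuallyEq h5).differentiableWithinAt
      · have hv : (D.map σ).f D.inf 0 = 0 := by
          rw [R06_f, if_pos rfl, if_pos rfl]
        have hfc : ContinuousAt (D.f D.inf) 0 :=
          ((hD.diff D.inf).differentiableAt hball).continuousAt
        have h1 : Filter.Tendsto (D.f D.inf) (𝓝[≠] 0) (𝓝[≠] 0) := by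
          rw [tendsto_nhdsWithin_iff]
          constructor
          · have h2 := hfc.tendsto
            rw [hD.zero] at h2
            exact h2.mono_left nhdsWithin_le_nhds
          · rw [eventually_nhdsWithin_iff]
            filter_upwards [hball] with z hz hz0
            exact hD.f_inf_ne hz0 (mem_ball_zero_iff.1 hz)
        have h2 : Filter.Tendsto (fun z => (D.f D.inf z)⁻¹) (𝓝[≠] 0) (Bornology.cobounded ℂ) :=
          Filter.tendsto_inv₀_nhdsNE_zero.comp h1
        have h3 : Filter.Tendsto σ (Bornology.cobounded ℂ) (Bornology.cobounded ℂ) := by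
          rw [Metric.cobounded_eq_cocompact]
          exact σ.isClosedEmbedding.tendsto_cocompact
        have h4 : Filter.Tendsto (fun z => (σ (D.f D.inf z)⁻¹)⁻¹) (𝓝[≠] 0) (𝓝 0) :=
          Filter.tendsto_inv₀_cobounded.comp (h3.comp h2)
        rw [continuousAt_iff_punctured_nhds, hv]
        refine h4.congr' ?_
        filter_upwards [self_mem_nhdsWithin] with z hz
        have hz' : z ≠ 0 := hz
        rw [R06_f, if_pos rfl, if_neg hz']
    · have h1 : (D.map σ).f j = fun z => σ (D.f j z) := by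
        funext z
        rw [R06_f, if_neg hj]
      rw [h1]
      intro z hz
      have hz1 : ‖z‖ < 1 := mem_ball_zero_iff.1 hz
      have hfz : DifferentiableAt ℂ (D.f j) z := (hD.diff j).differentiableAt (isOpen_ball.mem_nhds hz)
      have h2 : DifferentiableAt ℂ σ (D.f j z) := by
        apply hσ
        rw [← F_of_ne hj]
        exact hF _ _ (fun h => absurd h hj) hz1
      exact (h2.comp z hfz).differentiableWithinAt
  · intro j z hz w hw h
    have hz1 : ‖z‖ < 1 := mem_ball_zero_iff.1 hz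
    have hw1 : ‖w‖ < 1 := mem_ball_zero_iff.1 hw
    rw [R06_f, R06_f] at h
    by_cases hj : j = D.inf
    · subst hj
      rw [if_pos rfl, if_pos rfl] at h
      by_cases hz0 : z = 0
      · by_cases hw0 : w = 0
        · rw [hz0, hw0]
        · exfalso
          rw [if_pos hz0, if_neg hw0] at h
          exact hne w hw0 hw1 (inv_eq_zero.1 h.symm)
      · by_cases hw0 : w = 0
        · exfalso
          rw [if_neg hz0, if_pos hw0] at h
          exact hne z hz0 hz1 (inv_eq_zero.1 h)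
        · rw [if_neg hz0, if_neg hw0, inv_inj] at h
          exact hD.inj D.inf hz hw (inv_inj.1 (σ.injective h))
    · rw [if_neg hj, if_neg hj] at h
      exact hD.inj j hz hw (σ.injective h)
  · show (D.map σ).f D.inf 0 = 0
    rw [R06_f, if_pos rfl, if_pos rfl]
  · intro j k hjk
    rw [map_disc, map_disc]
    exact (disjoint_image_iff σ.injective).2 (hD.disj j k hjk)

end PData

end Pool.Agent.Lib.MP_cca10c_ag
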