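import Pool.Agent.Lib.MP_cca10c_ag.R05_Transfer
import Pool.Agent.Lib.MP_cca10c_ag.R06_Map
import Pool.Agent.Lib.MP_cca10c_ag.Pl.QcFam

/-!
# Module R: moving the planar part (stub R07)

`exists_move`: apply `exists_mod` to the planar chart `e` with cut radii `√‖q‖` (`Pres.exists_chart`, `Valid.cut_sqrt`; `K ⊆ Co ⊆ e.target`) and
`Θ = σ`. The new presentation comes from `Pieces.exists_pres` for the data `D.map σ`, with `ψ' = ψ ∘ σ⁻¹`, `ι' = ι`, `ρ j = (1 + √‖q j‖) / 2`: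
`ψ'` is holomorphic on `Pa' ρ = σ '' Pa ρ` by `CS.holOn_of_modified`, `ι'` by `CS.HolOn.transfer` with `M = ψ '' K` (`Pres.ι_ne_Co`).
For `w ∈ Om` outside `Pa ρ` use `P'.ι = P.ι` and `Pres.ι_inn`.

`dil_family`: near `w ∈ Om` choose a cut `a` with `w ∈ Pa a`; `ψ` is injective on `U = Pa a`, so `P1.ψ` is injective on `σ1 '' U`, `P2.ψ` on
`σ2 '' U` (`Pres.exists_chart'`); the transition between these two charts is `σ2 ∘ σ1⁻¹`. Use `SC.of_local`, `DilAt.of_charts`; the inverse of `σ1` is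
smooth by the inverse function theorem (`det > 0`).
-/

set_option autoImplicit false

open Topology Set Metric
open scoped ContDiff

namespace Pool.Agent.Lib.MP_cca10c_ag

variable {X : Type} [TopologicalSpace X] {S S1 S2 : CS X} {g : ℕ} {D D1 D2 : PData g}

private theorem r07_An (D : PData g) (σ : ℂ → ℂ) (i : Fin g) : (D.map σ).An i = D.An i := rfl

private theorem r07_open_An (D : PData g) (i : Fin g) : IsOpen (D.An i) :=
  (isOpen_lt continuous_const continuous_norm).inter (isOpen_lt continuous_norm continuous_const)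

private theorem r07_ne_zero {D : PData g} {i : Fin g} {z : ℂ} (h : z ∈ D.An i) : z ≠ 0 :=
  norm_pos_iff.1 ((norm_nonneg _).trans_lt h.1)

private theorem r07_div {D : PData g} (hD : D.Valid) {i : Fin g} {z : ℂ} (h : z ∈ D.An i) :
    D.q i / z ∈ D.An i := by
  have hz0 := r07_ne_zero h
  have hzp : 0 < ‖z‖ := norm_pos_iff.2 hz0
  have hq : 0 < ‖D.q i‖ := norm_pos_iff.2 (hD.q0 i)
  constructor
  · rw [norm_div, lt_div_iff₀ hzp]
    nlinarith [h.2]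
  · rw [norm_div, div_lt_one hzp]
    exact h.1

theorem Pres.exists_move [T2Space X] (P : Pres S D) (hD : D.Valid) (σ : ℂ ≃ₜ ℂ) (hσ : ContDiff ℝ ∞ σ)
    (hdet : ∀ z, 0 < (fderiv ℝ σ z).det) {K : Set ℂ} (hK : IsCompact K) (hKd : ∀ j, Disjoint K (D.disc j 1))
    (hh : ∀ z ∉ K, DifferentiableAt ℂ σ z) (h0 : (0 : ℂ) ∉ σ '' D.disc D.inf 1) :
    ∃ (S' : CS X) (P' : Pres S' (D.map σ)), SC S S' ∧ (∀ w ∈ D.Om, P'.ψ (σ w) = P.ψ w) ∧
      (∀ c ∈ S.charts, Disjoint c.source (P.ψ '' K) → c ∈ S'.charts) ∧ ∀ i, ∀ z ∈ D.An i, P'.ι i z = P.ι i z := by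
  have hcut := hD.cut_sqrt
  obtain ⟨e, he, het, hes, hesymm⟩ := P.exists_chart hD hcut
  have hKCo : K ⊆ D.Co := fun w hw j hj => Set.disjoint_left.1 (hKd j) hw hj
  have hKe : K ⊆ e.target := by
    rw [het]
    exact hKCo.trans (PData.Valid.Co_sub_Pa hcut.lt)
  obtain ⟨S', hSC, hch, c0, hc0, hc0s, hc0e⟩ := exists_mod S he hK hKe (Θ := σ) hσ.contDiffOn
    σ.injective.injOn (fun z _ => hdet z) (fun z hz => (hh z hz.2).differentiableWithinAt)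
  have hM : e.symm '' K = P.ψ '' K := Set.image_congr fun z _ => hesymm z
  have hMc : IsClosed (P.ψ '' K) := by
    rw [← hM]
    exact (hK.image_of_continuousOn (e.continuousOn_symm.mono hKe)).isClosed
  rw [hM] at hch
  have hD' : (D.map σ).Valid := PData.map_valid hD σ hK hKd hh h0
  set ρ : Fin g × Bool → ℝ := fun j => (1 + Real.sqrt ‖D.q j.1‖) / 2 with hρ
  have hρ1 : ∀ j, ρ j < 1 := fun j => by
    have := hcut.lt j
    simp only [hρ]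
    linarith
  have hρa : ∀ j, Real.sqrt ‖D.q j.1‖ ≤ ρ j := fun j => by
    have := hcut.lt j
    simp only [hρ]
    linarith
  have hρ0 : ∀ j, ‖D.q j.1‖ < ρ j := fun j => by
    have h1 := hcut.lt j
    have h2 := hcut.le j
    simp only [hρ]
    linarith
  have hPaρ : D.Pa ρ ⊆ D.Pa (fun j => Real.sqrt ‖D.q j.1‖) := by
    rintro w hw j ⟨z, ⟨hz1, hz2⟩, e⟩
    exact hw j ⟨z, ⟨hz1, hz2.trans (hρa j)⟩, e⟩
  have hinj := P.injOn_Pa hD hcut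
  have hp : (D.map σ).Pieces S' (P.ψ ∘ σ.symm) P.ι ρ := by
    refine ⟨hρ0, hρ1, ?_, ?_, ?_, ?_, ?_, ?_, ?_, ?_, ?_⟩
    · rw [PData.map_Pa]
      refine CS.holOn_of_modified (e := e) hc0 hc0s hc0e (by rw [het]; exact hPaρ) fun w _ => ?_
      rw [Function.comp_apply, σ.symm_apply_apply, hesymm]
    · intro i
      rw [r07_An]
      refine CS.HolOn.transfer hMc hch (r07_open_An D i) (P.holOn_ι hD i) fun z hz => ?_
      rintro ⟨w, hw, hw'⟩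
      exact P.ι_ne_Co hD hz (hKCo hw) hw'.symm
    · intro i z h1 h2
      have hz0 : z ≠ 0 := norm_pos_iff.1 (((norm_nonneg _).trans_lt (hρ0 (i, false))).trans h1)
      rw [PData.map_F σ (PData.at_of_ne_zero hz0), Function.comp_apply, σ.symm_apply_apply]
      rfl
    · intro i z h1 h2
      have hz0 : z ≠ 0 := norm_pos_iff.1 (((norm_nonneg _).trans_lt (hρ0 (i, true))).trans h1)
      rw [PData.map_F σ (PData.at_of_ne_zero hz0), Function.comp_apply, σ.symm_apply_apply]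
      exact P.ι_inn hD ⟨(hρ0 (i, true)).trans h1, h2⟩
    · rw [PData.map_Co]
      rintro _ ⟨w, hw, rfl⟩ _ ⟨w', hw', rfl⟩ h
      rw [Function.comp_apply, Function.comp_apply, σ.symm_apply_apply, σ.symm_apply_apply] at h
      rw [hinj (PData.Valid.Co_sub_Pa hcut.lt hw) (PData.Valid.Co_sub_Pa hcut.lt hw') h]
    · intro i
      rw [r07_An]
      exact P.injOn_ι hD i
    · intro i
      rw [r07_An, PData.map_Co, Set.disjoint_left]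
      rintro _ ⟨z, hz, rfl⟩ ⟨_, ⟨w, hw, rfl⟩, hw'⟩
      rw [Function.comp_apply, σ.symm_apply_apply] at hw'
      exact P.ι_ne_Co hD hz hw hw'.symm
    · intro i k hik
      rw [r07_An, r07_An, Set.disjoint_left]
      rintro _ ⟨z, hz, rfl⟩ ⟨z', hz', h⟩
      exact P.ι_ne_ι hD hik hz hz' h.symm
    · intro x
      rcases P.cases hD x with ⟨w, hw, hx⟩ | ⟨i, z, hz, hx⟩
      · refine Or.inl ⟨σ w, ?_, ?_⟩
        · rw [PData.map_Co]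
          exact ⟨w, hw, rfl⟩
        · rw [Function.comp_apply, σ.symm_apply_apply, hx]
      · exact Or.inr ⟨i, z, hz, hx⟩
  obtain ⟨P', hP'1, hP'2⟩ := hp.exists_pres hD'
  have hι : ∀ i, ∀ z ∈ D.An i, P'.ι i z = P.ι i z := fun i z hz => hP'2 i z hz
  refine ⟨S', P', hSC, fun w hw => ?_, hch, hι⟩
  rcases PData.cases_Co (D := D) w with h | ⟨⟨i, b⟩, z, hz, rfl⟩
  · have h1 : σ w ∈ (D.map σ).Pa ρ := by
      rw [PData.map_Pa]
      exact ⟨w, PData.Valid.Co_sub_Pa hρ1 h, rfl⟩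
    rw [hP'1 _ h1, Function.comp_apply, σ.symm_apply_apply]
  · rw [hD.F_mem_Om hz] at hw
    have hzA : z ∈ D.An i := ⟨hw, hz.2⟩
    have hz0 := r07_ne_zero hzA
    rw [← PData.map_F σ (PData.at_of_ne_zero hz0)]
    cases b with
    | false => exact hι i z hzA
    | true =>
      have hzA' : z ∈ (D.map σ).An i := hzA
      rw [← P'.ι_inn hD' hzA', ← P.ι_inn hD hzA]
      exact hι i _ (r07_div hD hzA)

private theorem r07_qc {A : ℂ →L[ℝ] ℂ} (h : 0 < A.det) : CcaPl.QC (‖A‖ ^ 2 / A.det) A :=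
  ⟨h, by rw [div_mul_cancel₀ _ h.ne']⟩

private theorem r07_equiv {A : ℂ →L[ℝ] ℂ} (h : 0 < A.det) :
    ∃ E : ℂ ≃L[ℝ] ℂ, (E : ℂ →L[ℝ] ℂ) = A :=
  ⟨A.toContinuousLinearEquivOfDetNeZero h.ne', by ext <;> rfl⟩

private theorem r07_symm (σ : ℂ ≃ₜ ℂ) (hσ : ContDiff ℝ ∞ σ) (hdet : ∀ z, 0 < (fderiv ℝ σ z).det) :
    ContDiff ℝ ∞ σ.symm := by
  choose E hE using fun z => r07_equiv (hdet z)
  refine σ.contDiff_symm (f₀' := E) (fun a => ?_) hσ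
  rw [hE]
  exact (hσ.differentiable (by simp) a).hasFDerivAt

private theorem r07_symm_fderiv (σ : ℂ ≃ₜ ℂ) (hσ : ContDiff ℝ ∞ σ)
    (hdet : ∀ z, 0 < (fderiv ℝ σ z).det) (w v : ℂ) :
    fderiv ℝ σ w (fderiv ℝ σ.symm (σ w) v) = v := by
  have h1 : DifferentiableAt ℝ σ.symm (σ w) := (r07_symm σ hσ hdet).differentiable (by simp) _
  have h2 : DifferentiableAt ℝ σ (σ.symm (σ w)) := hσ.differentiable (by simp) _
  have h3 : fderiv ℝ (σ ∘ σ.symm) (σ w) = (fderiv ℝ σ (σ.symm (σ w))).comp (fderiv ℝ σ.symm (σ w)) :=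
    fderiv_comp _ h2 h1
  have h4 : (σ ∘ σ.symm : ℂ → ℂ) = id := by
    funext z
    simp
  rw [h4, fderiv_id, σ.symm_apply_apply] at h3
  have h5 := congrArg (fun T : ℂ →L[ℝ] ℂ => T v) h3
  simpa using h5.symm

/-- the two charts near a point -/
private theorem r07_charts (P : Pres S D) (hD : D.Valid) {σ1 σ2 : ℂ ≃ₜ ℂ} (P1 : Pres S1 D1) (P2 : Pres S2 D2)
    (h1 : ∀ w ∈ D.Om, σ1 w ∈ D1.Om ∧ P1.ψ (σ1 w) = P.ψ w)
    (h2 : ∀ w ∈ D.Om, σ2 w ∈ D2.Om ∧ P2.ψ (σ2 w) = P.ψ w) {w : ℂ} (hw : w ∈ D.Om) :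
    ∃ e1 ∈ S1.charts, ∃ e2 ∈ S2.charts, P.ψ w ∈ e1.source ∧ P.ψ w ∈ e2.source ∧ e1 (P.ψ w) = σ1 w ∧
      (e2 ∘ e1.symm) =ᶠ[𝓝 (σ1 w)] (σ2 ∘ σ1.symm) := by
  obtain ⟨a, ha, hwa⟩ := hD.exists_cut hw
  have hU : IsOpen (D.Pa a) := hD.isOpen_Pa ha.lt
  have hUO : D.Pa a ⊆ D.Om := PData.Valid.Pa_sub_Om ha.le
  have hi := P.injOn_Pa hD ha
  have key : ∀ {S' : CS X} {D' : PData g} (P' : Pres S' D') (σ : ℂ ≃ₜ ℂ),
      (∀ w ∈ D.Om, σ w ∈ D'.Om ∧ P'.ψ (σ w) = P.ψ w) →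
      ∃ e ∈ S'.charts, e.target = σ '' D.Pa a ∧ e.source = P.ψ '' D.Pa a ∧
        ∀ u ∈ D.Pa a, e.symm (σ u) = P.ψ u := by
    intro S' D' P' σ h
    obtain ⟨e, he, het, hes, hesy⟩ := P'.exists_chart' (U := σ '' D.Pa a)
      (σ.isOpenMap _ hU) (by
        rintro _ ⟨u, hu, rfl⟩
        exact (h u (hUO hu)).1) (by
        rintro _ ⟨u, hu, rfl⟩ _ ⟨u', hu', rfl⟩ huu
        rw [(h u (hUO hu)).2, (h u' (hUO hu')).2] at huu
        rw [hi hu hu' huu])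
    refine ⟨e, he, het, ?_, fun u hu => ?_⟩
    · rw [hes, Set.image_image]
      exact Set.image_congr fun u hu => (h u (hUO hu)).2
    · rw [hesy, (h u (hUO hu)).2]
  obtain ⟨e1, he1, het1, hes1, hsy1⟩ := key P1 σ1 h1
  obtain ⟨e2, he2, het2, hes2, hsy2⟩ := key P2 σ2 h2
  refine ⟨e1, he1, e2, he2, ?_, ?_, ?_, ?_⟩
  · rw [hes1]; exact ⟨w, hwa, rfl⟩
  · rw [hes2]; exact ⟨w, hwa, rfl⟩
  · rw [← hsy1 w hwa]
    exact e1.right_inv (by rw [het1]; exact ⟨w, hwa, rfl⟩)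
  · have hO : IsOpen (σ1 '' D.Pa a) := σ1.isOpenMap _ hU
    filter_upwards [hO.mem_nhds ⟨w, hwa, rfl⟩] with y hy
    obtain ⟨u, hu, rfl⟩ := hy
    rw [Function.comp_apply, Function.comp_apply, σ1.symm_apply_apply, hsy1 u hu, ← hsy2 u hu]
    exact e2.right_inv (by rw [het2]; exact ⟨u, hu, rfl⟩)

/-- two structures obtained from the same presentation by `σ1` and `σ2` -/
theorem Pres.dil_family (P : Pres S D) (hD : D.Valid) {σ1 σ2 : ℂ ≃ₜ ℂ} (hs1 : ContDiff ℝ ∞ σ1) (hs2 : ContDiff ℝ ∞ σ2)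
    (hd1 : ∀ z, 0 < (fderiv ℝ σ1 z).det) (hd2 : ∀ z, 0 < (fderiv ℝ σ2 z).det) (P1 : Pres S1 D1) (P2 : Pres S2 D2)
    (hD1 : D1.Valid) (hD2 : D2.Valid) (h1 : ∀ w ∈ D.Om, σ1 w ∈ D1.Om ∧ P1.ψ (σ1 w) = P.ψ w)
    (h2 : ∀ w ∈ D.Om, σ2 w ∈ D2.Om ∧ P2.ψ (σ2 w) = P.ψ w) :
    SC S1 S2 ∧ ∀ w ∈ D.Om, ∀ κ : ℝ, (∀ B : ℂ →L[ℝ] ℂ, (∀ v, fderiv ℝ σ1 w (B v) = v) →
      CcaPl.QC κ ((fderiv ℝ σ2 w).comp B)) → DilAt S1 S2 κ (P.ψ w) := by
  have _ := hD1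
  have _ := hD2
  have hsy := r07_symm σ1 hs1 hd1
  have hcd : ContDiff ℝ ∞ (σ2 ∘ σ1.symm) := hs2.comp hsy
  have hfd : ∀ w, fderiv ℝ (σ2 ∘ σ1.symm) (σ1 w) = (fderiv ℝ σ2 w).comp (fderiv ℝ σ1.symm (σ1 w)) := by
    intro w
    have a1 : DifferentiableAt ℝ σ1.symm (σ1 w) := hsy.differentiable (by simp) _
    have a2 : DifferentiableAt ℝ σ2 (σ1.symm (σ1 w)) := hs2.differentiable (by simp) _
    rw [fderiv_comp _ a2 a1, σ1.symm_apply_apply]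
  have hB := fun w => r07_symm_fderiv σ1 hs1 hd1 w
  constructor
  · refine SC.of_local fun x => ?_
    obtain ⟨w, hw, rfl⟩ := P.onto x
    obtain ⟨e1, he1, e2, he2, hx1, hx2, hv, hev⟩ := r07_charts P hD P1 P2 h1 h2 hw
    refine ⟨e1, he1, e2, he2, hx1, hx2, ?_, ?_⟩
    · rw [hv]
      exact hcd.contDiffAt.congr_of_eventuallyEq hev
    · rw [hv, hev.fderiv_eq, hfd]
      exact ((r07_qc (hd2 w)).comp ((r07_qc (hd1 w)).inv (hB w))).1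
  · intro w hw κ hκ
    obtain ⟨e1, he1, e2, he2, hx1, hx2, hv, hev⟩ := r07_charts P hD P1 P2 h1 h2 hw
    refine DilAt.of_charts he1 he2 hx1 hx2 ?_ ?_
    · rw [hv]
      exact (hcd.contDiffAt.congr_of_eventuallyEq hev).differentiableAt (by simp)
    · rw [hv, hev.fderiv_eq, hfd]
      exact (hκ _ (hB w)).2

/-- conformal where both maps are holomorphic -/
theorem CcaPl.qc_one_of_hol {σ1 σ2 : ℂ → ℂ} {w : ℂ} (h1 : DifferentiableAt ℂ σ1 w) (h2 : DifferentiableAt ℂ σ2 w)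
    (hd1 : 0 < (fderiv ℝ σ1 w).det) (hd2 : 0 < (fderiv ℝ σ2 w).det) (B : ℂ →L[ℝ] ℂ) (hB : ∀ v, fderiv ℝ σ1 w (B v) = v) :
    CcaPl.QC 1 ((fderiv ℝ σ2 w).comp B) := by
  have _ := hd1
  have e1 : ∀ v, fderiv ℝ σ1 w v = deriv σ1 w * v := fun v => by
    rw [(h1.hasDerivAt.hasFDerivAt.restrictScalars ℝ).fderiv]
    simp [mul_comm]
  have e2 : ∀ v, fderiv ℝ σ2 w v = deriv σ2 w * v := fun v => by
    rw [(h2.hasDerivAt.hasFDerivAt.restrictScalars ℝ).fderiv]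
    simp [mul_comm]
  have n1 : deriv σ1 w ≠ 0 := by
    intro h
    have := hB 1
    rw [e1, h, zero_mul] at this
    exact one_ne_zero this.symm
  have n2 : deriv σ2 w ≠ 0 := by
    intro h
    obtain ⟨E, hE⟩ := r07_equiv hd2
    have h3 : (E : ℂ →L[ℝ] ℂ) 1 = 0 := by
      rw [hE, e2, h, zero_mul]
    have h4 : E 1 = E 0 := by
      rw [map_zero]
      exact h3
    exact one_ne_zero (E.injective h4)
  have hBv : ∀ v, B v = (deriv σ1 w)⁻¹ * v := fun v => by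
    have := hB v
    rw [e1] at this
    rw [eq_inv_mul_iff_mul_eq₀ n1]
    exact this
  apply CcaPl.CL.qc
  refine ⟨deriv σ2 w * (deriv σ1 w)⁻¹, mul_ne_zero n2 (inv_ne_zero n1), fun v => ?_⟩
  rw [ContinuousLinearMap.comp_apply, hBv, e2, mul_assoc]

/-- the path of structures given by a family of homeomorphisms -/
theorem Pres.exists_path [T2Space X] (P : Pres S D) (hD : D.Valid) {K : Set ℂ} {C : ℝ} (F : CcaPl.QcFamily K C)
    (hKd : ∀ j, Disjoint K (D.disc j 1)) (h0 : ∀ e ∈ Icc (0 : ℝ) 1, (0 : ℂ) ∉ F.σ e '' D.disc D.inf 1) :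
    ∃ Sf : ℝ → CS X, Sf 0 = S ∧
      (∀ t ∈ Icc (0 : ℝ) 1, (D.map (F.σ t)).Valid ∧ ∃ P' : Pres (Sf t) (D.map (F.σ t)),
        (∀ w ∈ D.Om, P'.ψ (F.σ t w) = P.ψ w) ∧ ∀ i, ∀ z ∈ D.An i, P'.ι i z = P.ι i z) ∧
      (∀ s ∈ Icc (0 : ℝ) 1, ∀ t ∈ Icc (0 : ℝ) 1, SC (Sf s) (Sf t)) ∧
      (∀ s ∈ Icc (0 : ℝ) 1, ∀ t ∈ Icc (0 : ℝ) 1, ∀ x, DilAt (Sf s) (Sf t) (Real.exp (C * |t - s|)) x) ∧
      ∀ s ∈ Icc (0 : ℝ) 1, ∀ t ∈ Icc (0 : ℝ) 1, ∀ x ∉ P.ψ '' K, DilAt (Sf s) (Sf t) 1 x := by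
  have hval : ∀ t ∈ Icc (0 : ℝ) 1, (D.map (F.σ t)).Valid := fun t ht =>
    PData.map_valid hD (F.σ t) F.compact hKd (F.conf t ht) (h0 t ht)
  have hex : ∀ t : ℝ, ∃ S' : CS X, (t = 0 → S' = S) ∧ (t ∈ Icc (0 : ℝ) 1 →
      ∃ P' : Pres S' (D.map (F.σ t)), (∀ w ∈ D.Om, P'.ψ (F.σ t w) = P.ψ w) ∧
        ∀ i, ∀ z ∈ D.An i, P'.ι i z = P.ι i z) := by
    intro t
    by_cases ht0 : t = 0
    · subst ht0
      refine ⟨S, fun _ => rfl, fun _ => ?_⟩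
      have hm : D.map (F.σ 0) = D := PData.map_id hD F.zero
      rw [hm]
      exact ⟨P, fun w _ => by rw [F.zero], fun i z _ => rfl⟩
    · by_cases ht : t ∈ Icc (0 : ℝ) 1
      · obtain ⟨S', P', -, hψ, -, hι⟩ := P.exists_move hD (F.σ t) (F.smooth t ht) (F.det t ht)
          F.compact hKd (F.conf t ht) (h0 t ht)
        exact ⟨S', fun h => absurd h ht0, fun _ => ⟨P', hψ, hι⟩⟩
      · exact ⟨S, fun _ => rfl, fun h => absurd h ht⟩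
  choose Sf hSf0 hSf using hex
  have hfam : ∀ s ∈ Icc (0 : ℝ) 1, ∀ t ∈ Icc (0 : ℝ) 1, SC (Sf s) (Sf t) ∧
      ∀ w ∈ D.Om, ∀ κ : ℝ, (∀ B : ℂ →L[ℝ] ℂ, (∀ v, fderiv ℝ (F.σ s) w (B v) = v) →
      CcaPl.QC κ ((fderiv ℝ (F.σ t) w).comp B)) → DilAt (Sf s) (Sf t) κ (P.ψ w) := by
    intro s hs t ht
    obtain ⟨P1, hP1, -⟩ := hSf s hs
    obtain ⟨P2, hP2, -⟩ := hSf t ht
    refine P.dil_family hD (F.smooth s hs) (F.smooth t ht) (F.det s hs) (F.det t ht) P1 P2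
      (hval s hs) (hval t ht) (fun w hw => ⟨?_, hP1 w hw⟩) (fun w hw => ⟨?_, hP2 w hw⟩)
    · rw [PData.map_Om]
      exact ⟨w, hw, rfl⟩
    · rw [PData.map_Om]
      exact ⟨w, hw, rfl⟩
  refine ⟨Sf, hSf0 0 rfl, fun t ht => ⟨hval t ht, hSf t ht⟩, fun s hs t ht => (hfam s hs t ht).1,
    fun s hs t ht x => ?_, fun s hs t ht x hx => ?_⟩
  · obtain ⟨w, hw, rfl⟩ := P.onto x
    exact (hfam s hs t ht).2 w hw _ fun B hB => F.close s hs t ht w B hB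
  · obtain ⟨w, hw, rfl⟩ := P.onto x
    have hwK : w ∉ K := fun h => hx ⟨w, h, rfl⟩
    exact (hfam s hs t ht).2 w hw _ fun B hB => CcaPl.qc_one_of_hol (F.conf s hs w hwK)
      (F.conf t ht w hwK) (F.det s hs w) (F.det t ht w) B hB

end Pool.Agent.Lib.MP_cca10c_ag
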