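import Pool.Agent.Lib.MP_cca10c_ag.R07_Move
import Pool.Agent.Lib.MP_cca10c_ag.M03_Path
import Pool.Agent.Lib.MP_cca10c_ag.H24_Base

/-!
# Module R: moves between planar data (stub R08)

`mv_family`: `Pres.exists_path` and `path_basic`. Put the Borel structure on `X` (`borel X`) where measurable spaces are needed.
`mv_conf`: `exists_move` with `K = ∅` (holomorphic on the whole plane), then all charts of `S` are charts of `S'`, so `S = S'`.
-/

set_option autoImplicit false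

open Topology Set Metric
open scoped ContDiff

namespace Pool.Agent.Lib.MP_cca10c_ag

section

variable {g : ℕ} {Z Z' Z'' : Matrix (Fin g) (Fin g) ℂ} {C C' : ℝ}

private theorem R08_QF_nonneg (hZ : Z ∈ Siegel g) (x : Fin g ⊕ Fin g → ℝ) : 0 ≤ QF (PZ Z) x := by
  have h := (PZ_posDef hZ).posSemidef.dotProduct_mulVec_nonneg x
  rwa [star_trivial] at h

theorem LEq.refl (hZ : Z ∈ Siegel g) (hC : 0 ≤ C) : LEq C Z Z := by
  have key : ∀ x, QF (PZ Z) x ≤ Real.exp C * QF (PZ Z) x := fun x =>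
    le_mul_of_one_le_left (R08_QF_nonneg hZ x) (Real.one_le_exp hC)
  exact ⟨key, key⟩

theorem LEq.symm (h : LEq C Z Z') : LEq C Z' Z := ⟨h.2, h.1⟩

theorem LEq.trans (h : LEq C Z Z') (h' : LEq C' Z' Z'') : LEq (C + C') Z Z'' := by
  refine ⟨fun x => ?_, fun x => ?_⟩
  · calc QF (PZ Z'') x ≤ Real.exp C' * QF (PZ Z') x := h'.1 x
      _ ≤ Real.exp C' * (Real.exp C * QF (PZ Z) x) :=
          mul_le_mul_of_nonneg_left (h.1 x) (Real.exp_pos _).le
      _ = Real.exp (C + C') * QF (PZ Z) x := by rw [Real.exp_add]; ring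
  · calc QF (PZ Z) x ≤ Real.exp C * QF (PZ Z') x := h.2 x
      _ ≤ Real.exp C * (Real.exp C' * QF (PZ Z'') x) :=
          mul_le_mul_of_nonneg_left (h'.2 x) (Real.exp_pos _).le
      _ = Real.exp (C + C') * QF (PZ Z'') x := by rw [Real.exp_add]; ring

theorem LEq.mono (hZ : Z ∈ Siegel g) (hZ' : Z' ∈ Siegel g) (h : LEq C Z Z') (hC : C ≤ C') : LEq C' Z Z' :=
  ⟨fun x => (h.1 x).trans (mul_le_mul_of_nonneg_right (Real.exp_le_exp.2 hC) (R08_QF_nonneg hZ x)),
    fun x => (h.2 x).trans (mul_le_mul_of_nonneg_right (Real.exp_le_exp.2 hC) (R08_QF_nonneg hZ' x))⟩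

/-- greedy property along a comparison, with other lengths -/
theorem Gr.of_LEq {c κ : ℝ} {l l' : Fin g → ℝ} {b : Fin g → Fin g ⊕ Fin g → ℤ} (hc : 0 ≤ c) (hκ : 0 < κ) (hl : ∀ i, 0 < l i)
    (h : Gr c l b Z) (hZ : LEq C Z Z') (hll : ∀ i, κ * l i ≤ l' i) : Gr (c * κ * Real.exp (-C)) l' b Z' := by
  intro i x hx
  have h1 := (h i x hx).trans (hZ.2 (zV x))
  have hli := hl i
  have hl' : 0 < l' i := (mul_pos hκ hli).trans_le (hll i)
  have he := Real.exp_pos (-C)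
  have h2 : Real.exp (-C) * (c / l i) ≤ QF (PZ Z') (zV x) := by
    have h3 := mul_le_mul_of_nonneg_left h1 he.le
    rwa [← mul_assoc, ← Real.exp_add, neg_add_cancel, Real.exp_zero, one_mul] at h3
  refine le_trans ?_ h2
  rw [div_le_iff₀ hl']
  have h4 : κ ≤ l' i / l i := by
    rw [le_div_iff₀ hli]
    exact hll i
  calc c * κ * Real.exp (-C) = Real.exp (-C) * c * κ := by ring
    _ ≤ Real.exp (-C) * c * (l' i / l i) := mul_le_mul_of_nonneg_left h4 (by positivity)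
    _ = Real.exp (-C) * (c / l i) * l' i := by ring

end

section

variable {X : Type} [TopologicalSpace X] {S S' : CS X} {g : ℕ} {D D' : PData g}

private theorem R08_betaC {e e' : OpenPartialHomeomorph X ℂ} (hs : e.source = e'.source)
    (h : ∀ x ∈ e.source, e x = e' x) (a : ℝ) : betaC e a = betaC e' a := by
  funext x
  unfold betaC phiE
  by_cases hx : x ∈ e.source
  · have hx' : x ∈ e'.source := hs ▸ hx
    rw [if_pos hx, if_pos hx', h x hx]
  · have hx' : x ∉ e'.source := hs ▸ hx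
    rw [if_neg hx, if_neg hx']

private theorem R08_An {D : PData g} (hD : D.Valid) (i : Fin g) {e : OpenPartialHomeomorph X ℂ} {S : CS X}
    (he : IsAnn S e (D.L i / 2)) {ζ : ℂ} (hζ : ζ ∈ e.target) :
    (Real.sqrt ‖D.q i‖ : ℂ) * ζ ∈ D.An i := by
  have hq : 0 < ‖D.q i‖ := norm_pos_iff.2 (hD.q0 i)
  have hs : 0 < Real.sqrt ‖D.q i‖ := Real.sqrt_pos.2 hq
  have hss : Real.sqrt ‖D.q i‖ * Real.sqrt ‖D.q i‖ = ‖D.q i‖ := Real.mul_self_sqrt hq.le
  have h1 : Real.exp (-(D.L i / 2)) = Real.sqrt ‖D.q i‖ := by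
    unfold PData.L
    rw [Real.sqrt_eq_rpow, Real.rpow_def_of_pos hq]
    congr 1
    ring
  have h2 : Real.exp (D.L i / 2) = (Real.sqrt ‖D.q i‖)⁻¹ := by
    rw [← h1, Real.exp_neg, inv_inv]
  rw [he.2.2, mem_ofPred_eq, h1, h2] at hζ
  have hn : ‖(Real.sqrt ‖D.q i‖ : ℂ) * ζ‖ = Real.sqrt ‖D.q i‖ * ‖ζ‖ := by
    rw [norm_mul, Complex.norm_real, Real.norm_of_nonneg hs.le]
  refine ⟨?_, ?_⟩
  · rw [hn]
    calc ‖D.q i‖ = Real.sqrt ‖D.q i‖ * Real.sqrt ‖D.q i‖ := hss.symm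
      _ < Real.sqrt ‖D.q i‖ * ‖ζ‖ := mul_lt_mul_of_pos_left hζ.1 hs
  · rw [hn]
    calc Real.sqrt ‖D.q i‖ * ‖ζ‖ < Real.sqrt ‖D.q i‖ * (Real.sqrt ‖D.q i‖)⁻¹ :=
          mul_lt_mul_of_pos_left hζ.2 hs
      _ = 1 := mul_inv_cancel₀ hs.ne'

private theorem R08_transfer {P : Pres S D} {P' : Pres S' D'} (hD : D.Valid) (hq : D'.q = D.q)
    (hι : ∀ i, ∀ z ∈ D.An i, P'.ι i z = P.ι i z) {u v : Fin g → X → UnitAddCircle} {b : Fin g → Fin g ⊕ Fin g → ℤ}
    (h : P.Marked u v b) : P'.Marked u v b := by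
  intro i e' he'
  obtain ⟨e, he⟩ := P.exists_handle hD i
  have hL : D'.L i = D.L i := by unfold PData.L; rw [hq]
  have hann := he'.1
  rw [hL] at hann
  have ht : e'.target = e.target := by rw [hann.2.2, he.1.2.2]
  have hsymm : ∀ ζ ∈ e.target, e.symm ζ = e'.symm ζ := by
    intro ζ hζ
    rw [he.2 ζ hζ, he'.2 ζ (ht ▸ hζ), hq]
    exact (hι i _ (R08_An hD i he.1 hζ)).symm
  have hs : e.source = e'.source := by
    rw [← e.symm_image_target_eq_source, ← e'.symm_image_target_eq_source, ht]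
    exact image_congr hsymm
  have hx : ∀ x ∈ e.source, e x = e' x := by
    intro x hx
    have h1 := e.map_source hx
    have h2 := hsymm _ h1
    rw [e.left_inv hx] at h2
    calc e x = e' (e'.symm (e x)) := (e'.right_inv (ht ▸ h1)).symm
      _ = e' x := by rw [← h2]
  intro a ha hal
  rw [hL] at hal
  rw [← R08_betaC hs hx a]
  exact h i e he a ha hal

end

section

variable {g : ℕ} {D D' D'' : PData g} {C C' : ℝ}

private theorem R08_siegel {b : Fin g → Fin g ⊕ Fin g → ℤ} {Z : Matrix (Fin g) (Fin g) ℂ} (h : St D b Z) :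
    Z ∈ Siegel g := h.2.1

private theorem R08_schottky {b : Fin g → Fin g ⊕ Fin g → ℤ} {Z : Matrix (Fin g) (Fin g) ℂ} (h : St D b Z) :
    Z ∈ Schottky g := by
  obtain ⟨-, hZ, X, i1, i2, i3, i4, S, u, v, -, hP, -⟩ := h
  exact ⟨hZ, X, i1, i2, i3, i4, S, u, v, hP⟩

theorem Mv.refl (D : PData g) : Mv D D 0 := by
  intro b Z h
  exact ⟨Z, h, Conn.refl (R08_schottky h), LEq.refl (R08_siegel h) le_rfl⟩

theorem Mv.mono (h : Mv D D' C) (hC : C ≤ C') : Mv D D' C' := by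
  intro b Z hZ
  obtain ⟨Z', h1, h2, h3⟩ := h b Z hZ
  exact ⟨Z', h1, h2.mono hC, h3.mono (R08_siegel hZ) (R08_siegel h1) hC⟩

theorem Mv.trans (h : Mv D D' C) (h' : Mv D' D'' C') : Mv D D'' (C + C') := by
  intro b Z hZ
  obtain ⟨Z', h1, h2, h3⟩ := h b Z hZ
  obtain ⟨Z'', k1, k2, k3⟩ := h' b Z' h1
  exact ⟨Z'', k1, Conn.trans (R08_siegel hZ) (R08_siegel h1) (R08_siegel k1) h2 k2, h3.trans k3⟩

theorem St.valid {b : Fin g → Fin g ⊕ Fin g → ℤ} {Z : Matrix (Fin g) (Fin g) ℂ} (h : St D b Z) : D.Valid := h.1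

theorem St.mem_schottky {b : Fin g → Fin g ⊕ Fin g → ℤ} {Z : Matrix (Fin g) (Fin g) ℂ} (h : St D b Z) : Z ∈ Schottky g :=
  R08_schottky h

/-- the data agree where they are used -/
structure PData.Same (D D' : PData g) : Prop where
  i0 : D'.i0 = D.i0
  q : D'.q = D.q
  f : ∀ j z, ‖z‖ < 1 → D'.f j z = D.f j z

private theorem R08_same_F (h : D.Same D') {j : Fin g × Bool} {z : ℂ} (hz : ‖z‖ < 1) : D'.F j z = D.F j z := by
  have hi : D'.inf = D.inf := by unfold PData.inf; rw [h.i0]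
  unfold PData.F
  rw [hi, h.f j z hz]

private theorem R08_same_At (h : D.Same D') (j : Fin g × Bool) (z : ℂ) : D'.At j z ↔ D.At j z := by
  have hi : D'.inf = D.inf := by unfold PData.inf; rw [h.i0]
  unfold PData.At
  rw [hi]

private theorem R08_same_disc (h : D.Same D') (j : Fin g × Bool) : D'.disc j 1 = D.disc j 1 := by
  unfold PData.disc
  ext w
  constructor
  · rintro ⟨z, ⟨hz, hz1⟩, rfl⟩
    exact ⟨z, ⟨(R08_same_At h j z).1 hz, hz1⟩, (R08_same_F h hz1).symm⟩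
  · rintro ⟨z, ⟨hz, hz1⟩, rfl⟩
    exact ⟨z, ⟨(R08_same_At h j z).2 hz, hz1⟩, R08_same_F h hz1⟩

private theorem R08_same_valid (h : D.Same D') (hD : D.Valid) : D'.Valid where
  diff := fun j => (hD.diff j).congr fun z hz => h.f j z (mem_ball_zero_iff.1 hz)
  inj := fun j z hz w hw hzw => by
    rw [h.f j z (mem_ball_zero_iff.1 hz), h.f j w (mem_ball_zero_iff.1 hw)] at hzw
    exact hD.inj j hz hw hzw
  zero := by
    have hi : D'.inf = D.inf := by unfold PData.inf; rw [h.i0]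
    rw [hi, h.f _ 0 (by simp)]
    exact hD.zero
  disj := fun j k hjk => by
    rw [R08_same_disc h, R08_same_disc h]
    exact hD.disj j k hjk
  q0 := fun i => by rw [h.q]; exact hD.q0 i
  q1 := fun i => by rw [h.q]; exact hD.q1 i

private theorem R08_same_Om (h : D.Same D') (hD : D.Valid) : D'.Om = D.Om := by
  have key : ∀ j : Fin g × Bool, D'.cdisc j ‖D'.q j.1‖ = D.cdisc j ‖D.q j.1‖ := by
    intro j
    rw [h.q]
    unfold PData.cdisc
    have h1 := hD.q1 j.1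
    ext w
    constructor
    · rintro ⟨z, ⟨hz, hz1⟩, rfl⟩
      exact ⟨z, ⟨(R08_same_At h j z).1 hz, hz1⟩, (R08_same_F h (hz1.trans_lt h1)).symm⟩
    · rintro ⟨z, ⟨hz, hz1⟩, rfl⟩
      exact ⟨z, ⟨(R08_same_At h j z).2 hz, hz1⟩, R08_same_F h (hz1.trans_lt h1)⟩
  unfold PData.Om
  ext w
  exact forall_congr' fun j => by rw [key j]

private theorem R08_same_glue (h : D.Same D') (hD : D.Valid) (w w' : ℂ) : D'.Glue w w' ↔ D.Glue w w' := by
  have key : ∀ i : Fin g, ∀ z : ℂ, ‖D.q i‖ < ‖z‖ → ‖z‖ < 1 →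
      D'.F (i, false) z = D.F (i, false) z ∧ D'.F (i, true) (D.q i / z) = D.F (i, true) (D.q i / z) := by
    intro i z h1 h2
    have hz : 0 < ‖z‖ := (norm_nonneg _).trans_lt h1
    refine ⟨R08_same_F h h2, R08_same_F h ?_⟩
    rw [norm_div, div_lt_one hz]
    exact h1
  have _ := hD
  unfold PData.Glue
  rw [h.q]
  constructor
  · rintro ⟨i, z, h1, h2, rfl, rfl⟩
    exact ⟨i, z, h1, h2, (key i z h1 h2).1, (key i z h1 h2).2⟩
  · rintro ⟨i, z, h1, h2, rfl, rfl⟩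
    exact ⟨i, z, h1, h2, (key i z h1 h2).1.symm, (key i z h1 h2).2.symm⟩

theorem PData.Same.mv (h : D.Same D') : Mv D D' 0 := by
  intro b Z hZ
  have hs := hZ.mem_schottky
  obtain ⟨hD, hZs, X, i1, i2, i3, i4, S, u, v, P, hP, hM⟩ := hZ
  have hO := R08_same_Om h hD
  let P' : Pres S D' :=
    { ψ := P.ψ
      hol := by rw [hO]; exact P.hol
      fib := fun w hw w' hw' => by
        rw [hO] at hw hw'
        rw [R08_same_glue h hD, R08_same_glue h hD]
        exact P.fib w hw w' hw'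
      onto := fun x => by rw [hO]; exact P.onto x }
  refine ⟨Z, ⟨R08_same_valid h hD, hZs, X, i1, i2, i3, i4, S, u, v, P', hP, ?_⟩, Conn.refl hs,
    LEq.refl hZs le_rfl⟩
  refine R08_transfer (P := P) (P' := P') hD h.q (fun i z hz => ?_) hM
  show P.ψ (D'.F (i, false) z) = P.ψ (D.F (i, false) z)
  rw [R08_same_F h hz.2]

end

section

variable {X : Type} [TopologicalSpace X] {S S' : CS X} {g : ℕ} {D D' : PData g}

/-- the handles of the two presentations are the same -/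
theorem Pres.Marked.transfer {P : Pres S D} {P' : Pres S' D'} (hD : D.Valid) (hD' : D'.Valid) (hq : D'.q = D.q)
    (hι : ∀ i, ∀ z ∈ D.An i, P'.ι i z = P.ι i z) {u v : Fin g → X → UnitAddCircle} {b : Fin g → Fin g ⊕ Fin g → ℤ}
    (h : P.Marked u v b) : P'.Marked u v b := by
  have _ := hD'
  exact R08_transfer hD hq hι h

end

section

variable {g : ℕ} {D : PData g}

theorem mv_family {K : Set ℂ} {C : ℝ} (F : CcaPl.QcFamily K C) (hKd : ∀ j, Disjoint K (D.disc j 1))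
    (h0 : ∀ e ∈ Icc (0 : ℝ) 1, (0 : ℂ) ∉ F.σ e '' D.disc D.inf 1) : Mv D (D.map (F.σ 1)) C := by
  intro b Z hZ
  obtain ⟨hD, hZs, X, i1, i2, i3, i4, S, u, v, P, hP, hM⟩ := hZ
  obtain ⟨Sf, hS0, hval, hSC, hdil, -⟩ := P.exists_path hD F hKd h0
  have m1 : (1 : ℝ) ∈ Icc (0 : ℝ) 1 := ⟨zero_le_one, le_rfl⟩
  obtain ⟨hV, P', hψ, hι⟩ := hval 1 m1
  obtain ⟨Z', hZ', hC, hL⟩ := path_basic Sf C (zero_le_one.trans F.one_le) hSC hdil
    (u := u) (v := v) (Z := Z) (by rw [hS0]; exact hP)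
  have hM' : P'.Marked u v b := R08_transfer (P := P) (P' := P') hD rfl hι hM
  exact ⟨Z', ⟨hV, hZ'.mem_siegel, X, i1, i2, i3, i4, Sf 1, u, v, P', hZ', hM'⟩, hC, hL⟩

private theorem R08_ext {X : Type} [TopologicalSpace X] {S S' : CS X} (h : S.charts ⊆ S'.charts) : S' = S := by
  have h2 : S.charts = S'.charts :=
    Subset.antisymm h fun c hc => S.max c fun e he => S'.compat c hc e (h he)
  cases S
  cases S'
  cases h2
  rfl

/-- a homeomorphism which is holomorphic everywhere (an affine map) -/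
theorem mv_conf (σ : ℂ ≃ₜ ℂ) (hσ : ∀ z, DifferentiableAt ℂ σ z) (h0 : (0 : ℂ) ∉ σ '' D.disc D.inf 1) :
    Mv D (D.map σ) 0 := by
  intro b Z hZ
  have hs := hZ.mem_schottky
  obtain ⟨hD, hZs, X, i1, i2, i3, i4, S, u, v, P, hP, hM⟩ := hZ
  have hdiff : Differentiable ℂ σ := hσ
  have hcd : ContDiff ℝ ∞ σ := (hdiff.contDiff (n := ∞)).restrict_scalars ℝ
  have hne : ∀ z, deriv σ z ≠ 0 := fun z =>
    deriv_ne_zero_of_injOn isOpen_univ hdiff.differentiableOn σ.injective.injOn (mem_univ z)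
  have hdet : ∀ z, 0 < (fderiv ℝ σ z).det := by
    intro z
    have h1 : CcaPl.CL (fderiv ℝ σ z) := by
      refine ⟨deriv σ z, hne z, fun w => ?_⟩
      have h2 := (hσ z).hasDerivAt.hasFDerivAt.restrictScalars ℝ
      rw [h2.fderiv]
      simp [mul_comm]
    exact h1.qc.1
  have hKd : ∀ j, Disjoint (∅ : Set ℂ) (D.disc j 1) := fun j => empty_disjoint _
  obtain ⟨S', P', -, -, hch, hι⟩ := P.exists_move hD σ hcd hdet isCompact_empty hKd
    (fun z _ => hσ z) h0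
  have hSS : S' = S := R08_ext fun c hc => hch c hc (by
    rw [image_empty]
    exact disjoint_empty _)
  have hV : (D.map σ).Valid := PData.map_valid hD σ isCompact_empty hKd (fun z _ => hσ z) h0
  have hM' : P'.Marked u v b := R08_transfer (P := P) (P' := P') hD rfl hι hM
  have hP' : IsPeriod S' u v Z := by rw [hSS]; exact hP
  exact ⟨Z, ⟨hV, hZs, X, i1, i2, i3, i4, S', u, v, P', hP', hM'⟩,
    Conn.refl hs, LEq.refl hZs le_rfl⟩

end

end Pool.Agent.Lib.MP_cca10c_ag
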