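import Pool.Agent.Lib.MP_cca10c_ag.R08_MvFam

/-!
# Module R: other foot discs for the same surface (stub R09)

`D.rescale c`: `f j (c j * z)`, `q i / (c (i,false) * c (i,true))`, `0 < ‖c j‖ ≤ 1`: the foot discs shrink to `F j {‖z‖ < ‖c j‖}`.
`shrink`: `Pieces` with `ψ' = ψ`, `ι' i z = ι i (c (i,false) * z)` (or directly: `ψ' = ψ`, `D'.Om ⊆ D.Om`, every point of `X` is still hit).
`enlarge`: from `P' : Pres S (D.rescale c)` define `ψ := P'.ψ` near `Co`, and on the annulus `An i` of `D` put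
`ι i z := P'.ψ (D.F (i,false) z)` if `‖q i‖ / ‖c (i,true)‖ < ‖z‖` and `P'.ψ (D.F (i,true) (q i / z))` otherwise; the two formulas agree on
`‖q i‖ / ‖c (i,true)‖ < ‖z‖ < ‖c (i,false)‖`. Marking: the handle chart changes by a constant factor, the two circle maps `betaC` differ by
a real function (`Pres.marked_of_one`); prove `sameClass_scaled` first.
-/

set_option autoImplicit false

open Topology Set Metric
open scoped ContDiff

namespace Pool.Agent.Lib.MP_cca10c_ag

namespace PData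

variable {g : ℕ}

/-- smaller (or rotated) foot discs -/
noncomputable def rescale (D : PData g) (c : Fin g × Bool → ℂ) : PData g where
  i0 := D.i0
  f := fun j z => D.f j (c j * z)
  q := fun i => D.q i / (c (i, false) * c (i, true))

/-- admissible factors -/
structure Resc (D : PData g) (c : Fin g × Bool → ℂ) : Prop where
  pos : ∀ j, c j ≠ 0
  le : ∀ j, ‖c j‖ ≤ 1
  lt : ∀ i, ‖D.q i‖ < ‖c (i, false)‖ * ‖c (i, true)‖

variable {D : PData g} {c : Fin g × Bool → ℂ}

private theorem R09_F (D : PData g) (c : Fin g × Bool → ℂ) (j : Fin g × Bool) (z : ℂ) :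
    (D.rescale c).F j z = D.F j (c j * z) := rfl

private theorem R09_At (h : D.Resc c) (j : Fin g × Bool) (z : ℂ) :
    (D.rescale c).At j z ↔ D.At j (c j * z) := by
  unfold At
  constructor
  · intro h1 h2
    exact mul_ne_zero (h.pos j) (h1 h2)
  · intro h1 h2
    exact right_ne_zero_of_mul (h1 h2)

private theorem R09_cpos (h : D.Resc c) (j : Fin g × Bool) : 0 < ‖c j‖ := norm_pos_iff.2 (h.pos j)

private theorem R09_ball (h : D.Resc c) {j : Fin g × Bool} {z : ℂ} (hz : z ∈ ball (0 : ℂ) 1) :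
    c j * z ∈ ball (0 : ℂ) 1 := by
  rw [mem_ball_zero_iff] at hz ⊢
  rw [norm_mul]
  calc ‖c j‖ * ‖z‖ ≤ 1 * ‖z‖ := mul_le_mul_of_nonneg_right (h.le j) (norm_nonneg _)
    _ < 1 := by rw [one_mul]; exact hz

theorem Resc.disc (h : D.Resc c) (j : Fin g × Bool) (r : ℝ) : (D.rescale c).disc j r = D.disc j (‖c j‖ * r) := by
  have hc := R09_cpos h j
  ext w
  constructor
  · rintro ⟨z, ⟨h1, h2⟩, rfl⟩
    refine ⟨c j * z, ⟨(R09_At h j z).1 h1, ?_⟩, rfl⟩
    rw [norm_mul]
    exact mul_lt_mul_of_pos_left h2 hc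
  · rintro ⟨z, ⟨h1, h2⟩, rfl⟩
    have e : c j * (z / c j) = z := mul_div_cancel₀ z (h.pos j)
    refine ⟨z / c j, ⟨(R09_At h j _).2 (by rw [e]; exact h1), ?_⟩, ?_⟩
    · rw [norm_div, div_lt_iff₀ hc, mul_comm]
      exact h2
    · rw [R09_F, e]

private theorem R09_cdisc (h : D.Resc c) (j : Fin g × Bool) (r : ℝ) :
    (D.rescale c).cdisc j r = D.cdisc j (‖c j‖ * r) := by
  have hc := R09_cpos h j
  ext w
  constructor
  · rintro ⟨z, ⟨h1, h2⟩, rfl⟩
    refine ⟨c j * z, ⟨(R09_At h j z).1 h1, ?_⟩, rfl⟩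
    rw [norm_mul]
    exact mul_le_mul_of_nonneg_left h2 hc.le
  · rintro ⟨z, ⟨h1, h2⟩, rfl⟩
    have e : c j * (z / c j) = z := mul_div_cancel₀ z (h.pos j)
    refine ⟨z / c j, ⟨(R09_At h j _).2 (by rw [e]; exact h1), ?_⟩, ?_⟩
    · rw [norm_div, div_le_iff₀ hc, mul_comm]
      exact h2
    · rw [R09_F, e]

theorem Resc.valid (h : D.Resc c) (hD : D.Valid) : (D.rescale c).Valid where
  diff := fun j => by
    have h1 : DifferentiableOn ℂ (fun z => c j * z) (ball 0 1) :=
      (differentiableOn_const _).mul differentiableOn_id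
    exact (hD.diff j).comp h1 fun z hz => R09_ball h hz
  inj := fun j z hz w hw hzw =>
    mul_left_cancel₀ (h.pos j) (hD.inj j (R09_ball h hz) (R09_ball h hw) hzw)
  zero := by
    show D.f D.inf (c D.inf * 0) = 0
    rw [mul_zero]
    exact hD.zero
  disj := fun j k hjk => by
    have hm : ∀ j, (D.rescale c).disc j 1 ⊆ D.disc j 1 := by
      intro j
      rw [h.disc]
      rintro w ⟨z, ⟨h1, h2⟩, rfl⟩
      refine ⟨z, ⟨h1, h2.trans_le ?_⟩, rfl⟩
      rw [mul_one]
      exact h.le j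
    exact (hD.disj j k hjk).mono (hm j) (hm k)
  q0 := fun i => div_ne_zero (hD.q0 i) (mul_ne_zero (h.pos _) (h.pos _))
  q1 := fun i => by
    show ‖D.q i / (c (i, false) * c (i, true))‖ < 1
    rw [norm_div, norm_mul, div_lt_one (mul_pos (R09_cpos h _) (R09_cpos h _))]
    exact h.lt i

theorem Resc.L (h : D.Resc c) (hD : D.Valid) (i : Fin g) :
    (D.rescale c).L i = D.L i + Real.log ‖c (i, false)‖ + Real.log ‖c (i, true)‖ := by
  show -Real.log ‖D.q i / (c (i, false) * c (i, true))‖ = -Real.log ‖D.q i‖ + _ + _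
  rw [norm_div, norm_mul, Real.log_div (norm_pos_iff.2 (hD.q0 i)).ne'
    (mul_pos (R09_cpos h _) (R09_cpos h _)).ne', Real.log_mul (R09_cpos h _).ne' (R09_cpos h _).ne']
  ring

/-- the cut radii of the domain of the rescaled data -/
private noncomputable def R09_a (D : PData g) (c : Fin g × Bool → ℂ) (j : Fin g × Bool) : ℝ :=
  ‖D.q j.1‖ / ‖c (j.1, !j.2)‖

private theorem R09_a_lt (h : D.Resc c) (j : Fin g × Bool) : R09_a D c j < ‖c j‖ := by
  unfold R09_a
  rw [div_lt_iff₀ (R09_cpos h _)]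
  obtain ⟨i, s⟩ := j
  cases s with
  | false => exact h.lt i
  | true =>
    rw [mul_comm]
    exact h.lt i

private theorem R09_a_lt1 (h : D.Resc c) (j : Fin g × Bool) : R09_a D c j < 1 :=
  (R09_a_lt h j).trans_le (h.le j)

private theorem R09_a_ge (h : D.Resc c) (j : Fin g × Bool) : ‖D.q j.1‖ ≤ R09_a D c j := by
  unfold R09_a
  rw [le_div_iff₀ (R09_cpos h _)]
  exact mul_le_of_le_one_right (norm_nonneg _) (h.le _)

private theorem R09_Om (h : D.Resc c) : (D.rescale c).Om = D.Pa (R09_a D c) := by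
  have key : ∀ j : Fin g × Bool, (D.rescale c).cdisc j ‖(D.rescale c).q j.1‖ =
      D.cdisc j (R09_a D c j) := by
    intro j
    rw [R09_cdisc h]
    congr 1
    show ‖c j‖ * ‖D.q j.1 / (c (j.1, false) * c (j.1, true))‖ = _
    unfold R09_a
    rw [norm_div, norm_mul]
    obtain ⟨i, s⟩ := j
    have h1 := (R09_cpos h (i, false)).ne'
    have h2 := (R09_cpos h (i, true)).ne'
    cases s with
    | false =>
      simp only [Bool.not_false]
      field_simp
    | true =>
      simp only [Bool.not_true]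
      field_simp
  unfold Om Pa
  ext w
  exact forall_congr' fun j => by rw [key j]

private theorem R09_Om_sub (h : D.Resc c) : (D.rescale c).Om ⊆ D.Om := by
  rw [R09_Om h]
  exact Valid.Pa_sub_Om (R09_a_ge h)

private theorem R09_q (h : D.Resc c) (i : Fin g) {z : ℂ} (hz : z ≠ 0) :
    c (i, true) * ((D.rescale c).q i / z) = D.q i / (c (i, false) * z) := by
  show c (i, true) * (D.q i / (c (i, false) * c (i, true)) / z) = _
  have h1 := h.pos (i, false)
  have h2 := h.pos (i, true)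
  field_simp

private theorem R09_Dj (h : D.Resc c) {i : Fin g} {z : ℂ} (hz : z ∈ D.An i) (s : Bool) :
    z ∈ D.Dj (i, s) 1 := by
  have _ := h
  exact ⟨PData.at_of_ne_zero (norm_pos_iff.1 ((norm_nonneg _).trans_lt hz.1)), hz.2⟩

private theorem R09_An_ne {i : Fin g} {z : ℂ} (hz : z ∈ D.An i) : z ≠ 0 :=
  norm_pos_iff.1 ((norm_nonneg _).trans_lt hz.1)

private theorem R09_div (hD : D.Valid) {i : Fin g} {z : ℂ} (hz : z ∈ D.An i) :
    D.q i / z ∈ D.An i := by
  have h0 : 0 < ‖z‖ := norm_pos_iff.2 (R09_An_ne hz)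
  have hq : 0 < ‖D.q i‖ := norm_pos_iff.2 (hD.q0 i)
  constructor
  · rw [norm_div, lt_div_iff₀ h0]
    exact mul_lt_of_lt_one_right hq hz.2
  · rw [norm_div, div_lt_one h0]
    exact hz.1

/-- the two gluing relations agree on the smaller domain -/
private theorem R09_glue (h : D.Resc c) (hD : D.Valid) {w w' : ℂ} (hw : w ∈ (D.rescale c).Om)
    (hw' : w' ∈ (D.rescale c).Om) : (D.rescale c).Glue w w' ↔ D.Glue w w' := by
  have hcf := R09_cpos h
  constructor
  · rintro ⟨i, z, h1, h2, rfl, rfl⟩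
    have hz0 : z ≠ 0 := norm_pos_iff.1 ((norm_nonneg _).trans_lt h1)
    have h3 : c (i, false) * z ≠ 0 := mul_ne_zero (h.pos _) hz0
    refine ⟨i, c (i, false) * z, ?_, ?_, rfl, ?_⟩
    · have h4 : ‖D.q i / (c (i, false) * c (i, true))‖ < ‖z‖ := h1
      rw [norm_div, norm_mul, div_lt_iff₀ (mul_pos (hcf _) (hcf _))] at h4
      rw [norm_mul]
      calc ‖D.q i‖ < ‖z‖ * (‖c (i, false)‖ * ‖c (i, true)‖) := h4
        _ ≤ ‖z‖ * (‖c (i, false)‖ * 1) := by
          gcongr
          exact h.le _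
        _ = ‖c (i, false)‖ * ‖z‖ := by ring
    · rw [norm_mul]
      calc ‖c (i, false)‖ * ‖z‖ ≤ 1 * ‖z‖ := by
            gcongr
            exact h.le _
        _ < 1 := by rw [one_mul]; exact h2
    · rw [R09_F, R09_q h i hz0]
  · rintro ⟨i, z, h1, h2, rfl, rfl⟩
    have hzA : z ∈ D.An i := ⟨h1, h2⟩
    have hz0 : z ≠ 0 := R09_An_ne hzA
    have hzp : 0 < ‖z‖ := norm_pos_iff.2 hz0
    rw [R09_Om h] at hw hw'
    have h3 := (hD.F_mem_Pa (R09_a_lt1 h) (R09_Dj h hzA false)).1 hw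
    have h4 := (hD.F_mem_Pa (R09_a_lt1 h) (R09_Dj h (R09_div hD hzA) true)).1 hw'
    have h3' : ‖D.q i‖ / ‖c (i, true)‖ < ‖z‖ := h3
    have h4' : ‖D.q i‖ / ‖c (i, false)‖ < ‖D.q i / z‖ := h4
    rw [norm_div, div_lt_div_iff_of_pos_left (norm_pos_iff.2 (hD.q0 i)) (hcf _) hzp] at h4'
    rw [div_lt_iff₀ (hcf _)] at h3'
    have e : c (i, false) * (z / c (i, false)) = z := mul_div_cancel₀ z (h.pos _)
    refine ⟨i, z / c (i, false), ?_, ?_, ?_, ?_⟩
    · show ‖D.q i / (c (i, false) * c (i, true))‖ < _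
      rw [norm_div, norm_div, norm_mul, div_lt_div_iff₀ (mul_pos (hcf _) (hcf _)) (hcf _)]
      calc ‖D.q i‖ * ‖c (i, false)‖ < ‖z‖ * ‖c (i, true)‖ * ‖c (i, false)‖ :=
            mul_lt_mul_of_pos_right h3' (hcf _)
        _ = _ := by ring
    · rw [norm_div, div_lt_one (hcf _)]
      exact h4'
    · rw [R09_F, e]
    · rw [R09_F, R09_q h i (div_ne_zero hz0 (h.pos _)), e]

end PData

section

variable {X : Type} [TopologicalSpace X] {S : CS X}

/-- the circle maps of an annulus and of a subannulus with the same orientation (coordinates differ by a constant factor) have the same class -/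
theorem sameClass_scaled [T2Space X] {e e' : OpenPartialHomeomorph X ℂ} {l l' a a' : ℝ} (he : IsAnn S e l) (he' : IsAnn S e' l')
    (ha : 0 < a) (hal : a < l) (ha' : 0 < a') (hal' : a' < l') (hs : e'.source ⊆ e.source) {κ : ℂ} (hκ : κ ≠ 0)
    (h : ∀ x ∈ e'.source, e x = κ * e' x) : ∃ f : X → ℝ, Continuous f ∧ ∀ x, betaC e' a' x = betaC e a x + (f x : UnitAddCircle) := by
  classical
  have hκ0 : 0 < ‖κ‖ := norm_pos_iff.2 hκ
  set K : ℝ := Real.log ‖κ‖ with hK
  have hpos : ∀ x ∈ e.source, 0 < ‖e x‖ := fun x hx => by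
    have h1 := e.map_source hx
    rw [he.2.2] at h1
    exact (Real.exp_pos _).trans h1.1
  have hpos' : ∀ x ∈ e'.source, 0 < ‖e' x‖ := fun x hx => by
    have h1 := e'.map_source hx
    rw [he'.2.2] at h1
    exact (Real.exp_pos _).trans h1.1
  -- logarithms
  have hlog : ∀ x ∈ e'.source, Real.log ‖e' x‖ = Real.log ‖e x‖ - K := by
    intro x hx
    rw [h x hx, norm_mul, Real.log_mul hκ0.ne' (hpos' x hx).ne']
    ring
  -- the source of the smaller annulus
  have hsrc : ∀ x ∈ e.source, |Real.log ‖e x‖ - K| < l' → x ∈ e'.source := by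
    intro x hx hlt
    have h1 : e x / κ ∈ e'.target := by
      rw [he'.2.2, mem_ofPred_eq, norm_div]
      have h2 : 0 < ‖e x‖ / ‖κ‖ := div_pos (hpos x hx) hκ0
      rw [← Real.lt_log_iff_exp_lt h2, ← Real.log_lt_iff_lt_exp h2,
        Real.log_div (hpos x hx).ne' hκ0.ne']
      exact abs_lt.1 hlt
    have h2 : e'.symm (e x / κ) ∈ e'.source := e'.map_target h1
    have h3 : e (e'.symm (e x / κ)) = e x := by
      rw [h _ h2, e'.right_inv h1, mul_div_cancel₀ _ hκ]
    have h4 : e'.symm (e x / κ) = x := e.injOn (hs h2) hx h3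
    rw [← h4]
    exact h2
  -- the smaller annulus is inside
  have hin : ∀ s : ℝ, |s| < l' → |s + K| < l := by
    intro s hs'
    have h1 : ((Real.exp s : ℝ) : ℂ) ∈ e'.target := by
      rw [he'.2.2, mem_ofPred_eq, Complex.norm_real, Real.norm_of_nonneg (Real.exp_pos _).le,
        Real.exp_lt_exp, Real.exp_lt_exp]
      exact abs_lt.1 hs'
    have h2 : e'.symm ((Real.exp s : ℝ) : ℂ) ∈ e'.source := e'.map_target h1
    have h3 := e.map_source (hs h2)
    rw [h _ h2, e'.right_inv h1, he.2.2, mem_ofPred_eq, norm_mul, Complex.norm_real,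
      Real.norm_of_nonneg (Real.exp_pos _).le] at h3
    have h4 : 0 < ‖κ‖ * Real.exp s := mul_pos hκ0 (Real.exp_pos _)
    rw [← Real.lt_log_iff_exp_lt h4, ← Real.log_lt_iff_lt_exp h4,
      Real.log_mul hκ0.ne' (Real.exp_pos _).ne', Real.log_exp, ← hK] at h3
    rw [abs_lt]
    constructor
    · linarith [h3.1]
    · linarith [h3.2]
  have hK1 : a' + |K| < l := by
    rcases abs_cases K with h1 | h1
    · rw [h1.1]
      have := hin a' (by rw [abs_of_pos ha']; exact hal')
      exact (abs_lt.1 this).2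
    · rw [h1.1]
      have := hin (-a') (by rw [abs_neg, abs_of_pos ha']; exact hal')
      have h2 := (abs_lt.1 this).1
      linarith
  set t : ℝ := max a (a' + |K|) with ht
  have htl : t < l := max_lt hal hK1
  have hclosed : IsClosed (midA e t) := (midA_compact he htl).isClosed
  set f : X → ℝ := fun x => if x ∈ e.source then
    stp a' (Real.log ‖e x‖ - K) - stp a (Real.log ‖e x‖) else 0 with hf
  have hf0 : ∀ x, x ∉ midA e t → f x = 0 := by
    intro x hx
    rw [hf]
    by_cases hxs : x ∈ e.source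
    · simp only [hxs, if_true]
      have h1 : t < |Real.log ‖e x‖| := by
        by_contra hcon
        exact hx ⟨hxs, not_lt.1 hcon⟩
      have h2 : a ≤ t := le_max_left _ _
      have h3 : a' + |K| ≤ t := le_max_right _ _
      have h4 := le_abs_self K
      have h5 := neg_abs_le K
      rcases abs_cases (Real.log ‖e x‖) with h6 | h6
      · rw [h6.1] at h1
        rw [stp_one ha' (by linarith), stp_one ha (by linarith), sub_self]
      · rw [h6.1] at h1
        rw [stp_zero ha' (by linarith), stp_zero ha (by linarith), sub_self]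
    · simp only [hxs, if_false]
  refine ⟨f, ?_, ?_⟩
  · rw [continuous_iff_continuousAt]
    intro x
    by_cases hx : x ∈ e.source
    · have h1 : ContinuousAt (fun y => Real.log ‖e y‖) x :=
        ((e.continuousAt hx).norm).log (hpos x hx).ne'
      have h2 : ContinuousAt (fun y => stp a' (Real.log ‖e y‖ - K) - stp a (Real.log ‖e y‖)) x := by
        refine ContinuousAt.sub ?_ ?_
        · exact ContinuousAt.comp (g := stp a') (f := fun y => Real.log ‖e y‖ - K)
            (stp_contDiff ha').continuous.continuousAt (h1.sub continuousAt_const)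
        · exact ContinuousAt.comp (g := stp a) (f := fun y => Real.log ‖e y‖)
            (stp_contDiff ha).continuous.continuousAt h1
      refine h2.congr ?_
      filter_upwards [e.open_source.mem_nhds hx] with y hy
      rw [hf]
      simp only [hy, if_true]
    · have h1 : x ∉ midA e t := fun h => hx h.1
      have h2 : (fun _ : X => (0 : ℝ)) =ᶠ[𝓝 x] f := by
        filter_upwards [hclosed.isOpen_compl.mem_nhds h1] with y hy
        exact (hf0 y hy).symm
      exact continuousAt_const.congr h2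
  · intro x
    have hone : (((1 : ℝ) : ℝ) : UnitAddCircle) = 0 := AddCircle.coe_period 1
    by_cases hx : x ∈ e.source
    · have h1 : f x = stp a' (Real.log ‖e x‖ - K) - stp a (Real.log ‖e x‖) := by
        rw [hf]
        simp only [hx, if_true]
      rw [betaC_eq hx, h1, ← AddCircle.coe_add]
      have h2 : stp a (Real.log ‖e x‖) + (stp a' (Real.log ‖e x‖ - K) - stp a (Real.log ‖e x‖)) =
          stp a' (Real.log ‖e x‖ - K) := by ring
      rw [h2]
      by_cases hx' : x ∈ e'.source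
      · rw [betaC_eq hx', hlog x hx']
      · have h3 : l' ≤ |Real.log ‖e x‖ - K| := by
          by_contra hcon
          exact hx' (hsrc x hx (not_le.1 hcon))
        have h4 : betaC e' a' x = 0 := by
          unfold betaC phiE
          rw [if_neg hx']
          simp
        rw [h4]
        rcases abs_cases (Real.log ‖e x‖ - K) with h6 | h6
        · rw [h6.1] at h3
          rw [stp_one ha' (by linarith), hone]
        · rw [h6.1] at h3
          rw [stp_zero ha' (by linarith)]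
          simp
    · have hx' : x ∉ e'.source := fun h => hx (hs h)
      have h1 : f x = 0 := by
        rw [hf]
        simp only [hx, if_false]
      rw [h1]
      unfold betaC phiE
      rw [if_neg hx', if_neg hx]
      simp

variable {g : ℕ} {D : PData g} {c : Fin g × Bool → ℂ}

theorem Pres.shrink (P : Pres S D) (hD : D.Valid) (h : D.Resc c) : ∃ P' : Pres S (D.rescale c),
    (∀ w ∈ (D.rescale c).Om, P'.ψ w = P.ψ w) ∧ ∀ i, ∀ z ∈ (D.rescale c).An i, P'.ι i z = P.ι i (c (i, false) * z) := by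
  have hsub := PData.R09_Om_sub h
  refine ⟨⟨P.ψ, P.hol.mono hsub, ?_, ?_⟩, fun w _ => rfl, fun i z _ => rfl⟩
  · intro w hw w' hw'
    rw [P.fib w (hsub hw) w' (hsub hw'), PData.R09_glue h hD hw hw', PData.R09_glue h hD hw' hw]
  · intro x
    obtain ⟨w, hw, rfl⟩ := P.onto x
    by_cases hw' : w ∈ (D.rescale c).Om
    · exact ⟨w, hw', rfl⟩
    · rw [PData.R09_Om h] at hw'
      unfold PData.Pa at hw'
      simp only [mem_ofPred_eq, not_forall, not_not] at hw'
      obtain ⟨⟨i, s⟩, z, ⟨hz1, hz2⟩, rfl⟩ := hw'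
      have hz3 : z ∈ D.Dj (i, s) 1 := ⟨hz1, hz2.trans_lt (PData.R09_a_lt1 h _)⟩
      have hz4 : ‖D.q i‖ < ‖z‖ := (hD.F_mem_Om hz3).1 hw
      have hzA : z ∈ D.An i := ⟨hz4, hz3.2⟩
      have hzA' := PData.R09_div hD hzA
      have hzp : 0 < ‖z‖ := (norm_nonneg _).trans_lt hz4
      have hqp : 0 < ‖D.q i‖ := norm_pos_iff.2 (hD.q0 i)
      have hqq : D.q i / (D.q i / z) = z := div_div_cancel₀ (hD.q0 i)
      have hmem : D.F (i, !s) (D.q i / z) ∈ (D.rescale c).Om := by
        rw [PData.R09_Om h, hD.F_mem_Pa (PData.R09_a_lt1 h) (PData.R09_Dj h hzA' _)]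
        refine lt_of_lt_of_le (PData.R09_a_lt h (i, !s)) ?_
        have h5 : ‖z‖ ≤ ‖D.q i‖ / ‖c (i, !s)‖ := hz2
        rw [norm_div, le_div_iff₀ hzp, mul_comm]
        rwa [le_div_iff₀ (PData.R09_cpos h _)] at h5
      refine ⟨D.F (i, !s) (D.q i / z), hmem, ?_⟩
      rw [P.fib _ (hsub hmem) _ hw]
      cases s with
      | false =>
        exact Or.inr (Or.inr ⟨i, z, hzA.1, hzA.2, rfl, rfl⟩)
      | true =>
        refine Or.inr (Or.inl ⟨i, D.q i / z, hzA'.1, hzA'.2, rfl, ?_⟩)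
        rw [hqq]

/-- the point of the plane domain of the smaller discs which represents the point `z` of the annulus -/
private noncomputable def R09_w (D : PData g) (c : Fin g × Bool → ℂ) (i : Fin g) (z : ℂ) : ℂ :=
  open Classical in
  if ‖D.q i‖ / ‖c (i, true)‖ < ‖z‖ then D.F (i, false) z else D.F (i, true) (D.q i / z)

private theorem R09_w_mem (h : D.Resc c) (hD : D.Valid) {i : Fin g} {z : ℂ} (hz : z ∈ D.An i) :
    R09_w D c i z ∈ (D.rescale c).Om := by
  have hcf := PData.R09_cpos h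
  have hzp : 0 < ‖z‖ := (norm_nonneg _).trans_lt hz.1
  unfold R09_w
  rw [PData.R09_Om h]
  split_ifs with h1
  · rw [hD.F_mem_Pa (PData.R09_a_lt1 h) (PData.R09_Dj h hz _)]
    exact h1
  · rw [hD.F_mem_Pa (PData.R09_a_lt1 h) (PData.R09_Dj h (PData.R09_div hD hz) _)]
    show ‖D.q i‖ / ‖c (i, false)‖ < ‖D.q i / z‖
    rw [norm_div, div_lt_div_iff_of_pos_left (norm_pos_iff.2 (hD.q0 i)) (hcf _) hzp]
    exact (not_lt.1 h1).trans_lt (PData.R09_a_lt h (i, false))

/-- same point of the surface -/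
private theorem R09_same (h : D.Resc c) (hD : D.Valid) (P' : Pres S (D.rescale c)) {w w' : ℂ}
    (hw : w ∈ (D.rescale c).Om) (hw' : w' ∈ (D.rescale c).Om) :
    P'.ψ w = P'.ψ w' ↔ (w = w' ∨ D.Glue w w' ∨ D.Glue w' w) := by
  rw [P'.fib w hw w' hw', PData.R09_glue h hD hw hw', PData.R09_glue h hD hw' hw]

private theorem R09_w_rep (D : PData g) (c : Fin g × Bool → ℂ) (i : Fin g) (z : ℂ) :
    R09_w D c i z = D.F (i, false) z ∨ R09_w D c i z = D.F (i, true) (D.q i / z) := by
  unfold R09_w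
  split_ifs
  · exact Or.inl rfl
  · exact Or.inr rfl

/-- the representative is in both discs if possible -/
private theorem R09_ψ_false (h : D.Resc c) (hD : D.Valid) (P' : Pres S (D.rescale c)) {i : Fin g}
    {z : ℂ} (hz : z ∈ D.An i) (h1 : ‖D.q i‖ / ‖c (i, true)‖ < ‖z‖) :
    P'.ψ (R09_w D c i z) = P'.ψ (D.F (i, false) z) := by
  have _ := h
  have _ := hD
  have _ := hz
  unfold R09_w
  rw [if_pos h1]

private theorem R09_ψ_true (h : D.Resc c) (hD : D.Valid) (P' : Pres S (D.rescale c)) {i : Fin g}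
    {z : ℂ} (hz : z ∈ D.An i) (h1 : ‖z‖ < ‖c (i, false)‖) :
    P'.ψ (R09_w D c i z) = P'.ψ (D.F (i, true) (D.q i / z)) := by
  have hcf := PData.R09_cpos h
  have hzp : 0 < ‖z‖ := (norm_nonneg _).trans_lt hz.1
  by_cases h2 : ‖D.q i‖ / ‖c (i, true)‖ < ‖z‖
  · unfold R09_w
    rw [if_pos h2]
    rw [R09_same h hD P']
    · exact Or.inr (Or.inl ⟨i, z, hz.1, hz.2, rfl, rfl⟩)
    · rw [PData.R09_Om h, hD.F_mem_Pa (PData.R09_a_lt1 h) (PData.R09_Dj h hz _)]
      exact h2
    · rw [PData.R09_Om h, hD.F_mem_Pa (PData.R09_a_lt1 h) (PData.R09_Dj h (PData.R09_div hD hz) _)]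
      show ‖D.q i‖ / ‖c (i, false)‖ < ‖D.q i / z‖
      rw [norm_div, div_lt_div_iff_of_pos_left (norm_pos_iff.2 (hD.q0 i)) (hcf _) hzp]
      exact h1
  · unfold R09_w
    rw [if_neg h2]

private theorem R09_F_eq (hD : D.Valid) {j k : Fin g × Bool} {z z' : ℂ} (hz : z ∈ D.Dj j 1)
    (hz' : z' ∈ D.Dj k 1) (h : D.F j z = D.F k z') : j = k ∧ z = z' := by
  have h1 : j = k := by
    by_contra hne
    exact hD.F_ne hne hz hz' h
  subst h1
  exact ⟨rfl, hD.injOn_F j hz hz' h⟩

/-- `w` represents the point `z` of the annulus `i` -/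
private def R09_R (D : PData g) (i : Fin g) (z w : ℂ) : Prop :=
  z ∈ D.An i ∧ (w = D.F (i, false) z ∨ w = D.F (i, true) (D.q i / z))

private theorem R09_R_glue (h : D.Resc c) (hD : D.Valid) {i : Fin g} {z w w' : ℂ}
    (hr : R09_R D i z w) (hg : w = w' ∨ D.Glue w w' ∨ D.Glue w' w) : R09_R D i z w' := by
  obtain ⟨hz, hw⟩ := hr
  have hz' := PData.R09_div hD hz
  refine ⟨hz, ?_⟩
  rcases hg with rfl | ⟨k, y, hy1, hy2, e1, e2⟩ | ⟨k, y, hy1, hy2, e1, e2⟩
  · exact hw
  · have hyA : y ∈ D.An k := ⟨hy1, hy2⟩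
    rcases hw with hw | hw
    · rw [hw] at e1
      obtain ⟨h1, h2⟩ := R09_F_eq hD (PData.R09_Dj h hz _) (PData.R09_Dj h hyA _) e1
      have h3 : i = k := congrArg Prod.fst h1
      subst h3
      subst h2
      exact Or.inr e2
    · rw [hw] at e1
      obtain ⟨h1, -⟩ := R09_F_eq hD (PData.R09_Dj h hz' _) (PData.R09_Dj h hyA _) e1
      exact absurd (congrArg Prod.snd h1) (by simp)
  · have hyA : y ∈ D.An k := ⟨hy1, hy2⟩
    have hyA' := PData.R09_div hD hyA
    rcases hw with hw | hw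
    · rw [hw] at e2
      obtain ⟨h1, -⟩ := R09_F_eq hD (PData.R09_Dj h hz _) (PData.R09_Dj h hyA' _) e2
      exact absurd (congrArg Prod.snd h1) (by simp)
    · rw [hw] at e2
      obtain ⟨h1, h2⟩ := R09_F_eq hD (PData.R09_Dj h hz' _) (PData.R09_Dj h hyA' _) e2
      have h3 : i = k := congrArg Prod.fst h1
      subst h3
      have h4 : z = y := by
        have h5 : D.q i / (D.q i / z) = D.q i / (D.q i / y) := by rw [h2]
        rwa [div_div_cancel₀ (hD.q0 i), div_div_cancel₀ (hD.q0 i)] at h5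
      subst h4
      exact Or.inl e1

private theorem R09_R_unique (h : D.Resc c) (hD : D.Valid) {i k : Fin g} {z y w : ℂ}
    (hr : R09_R D i z w) (hr' : R09_R D k y w) : i = k ∧ z = y := by
  obtain ⟨hz, hw⟩ := hr
  obtain ⟨hy, hw'⟩ := hr'
  have hz' := PData.R09_div hD hz
  have hy' := PData.R09_div hD hy
  rcases hw with hw | hw
  · rcases hw' with hw' | hw'
    · obtain ⟨h1, h2⟩ := R09_F_eq hD (PData.R09_Dj h hz false) (PData.R09_Dj h hy false)
        (hw.symm.trans hw')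
      exact ⟨congrArg Prod.fst h1, h2⟩
    · obtain ⟨h1, -⟩ := R09_F_eq hD (PData.R09_Dj h hz false) (PData.R09_Dj h hy' true)
        (hw.symm.trans hw')
      exact absurd (congrArg Prod.snd h1) (by simp)
  · rcases hw' with hw' | hw'
    · obtain ⟨h1, -⟩ := R09_F_eq hD (PData.R09_Dj h hz' true) (PData.R09_Dj h hy false)
        (hw.symm.trans hw')
      exact absurd (congrArg Prod.snd h1) (by simp)
    · obtain ⟨h1, h2⟩ := R09_F_eq hD (PData.R09_Dj h hz' true) (PData.R09_Dj h hy' true)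
        (hw.symm.trans hw')
      have h3 : i = k := congrArg Prod.fst h1
      subst h3
      have h5 : D.q i / (D.q i / z) = D.q i / (D.q i / y) := by rw [h2]
      rw [div_div_cancel₀ (hD.q0 i), div_div_cancel₀ (hD.q0 i)] at h5
      exact ⟨rfl, h5⟩

private theorem R09_R_Co (h : D.Resc c) (hD : D.Valid) {i : Fin g} {z w : ℂ}
    (hr : R09_R D i z w) : w ∉ D.Co := by
  obtain ⟨hz, hw⟩ := hr
  intro hC
  rcases hw with rfl | rfl
  · exact hC (i, false) ⟨z, PData.R09_Dj h hz false, rfl⟩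
  · exact hC (i, true) ⟨_, PData.R09_Dj h (PData.R09_div hD hz) true, rfl⟩

theorem Pres.enlarge (P' : Pres S (D.rescale c)) (hD : D.Valid) (h : D.Resc c) : ∃ P : Pres S D,
    (∀ w ∈ (D.rescale c).Om, P'.ψ w = P.ψ w) ∧ ∀ i, ∀ z ∈ (D.rescale c).An i, P'.ι i z = P.ι i (c (i, false) * z) := by
  have hcf := PData.R09_cpos h
  have hsub := PData.R09_Om_sub h
  have hD' := h.valid hD
  set ρ : Fin g × Bool → ℝ := fun j => (PData.R09_a D c j + 1) / 2 with hρ
  have hρa : ∀ j, PData.R09_a D c j < ρ j := fun j => by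
    have := PData.R09_a_lt1 h j
    rw [hρ]
    simp only
    linarith
  have hρ1 : ∀ j, ρ j < 1 := fun j => by
    have := PData.R09_a_lt1 h j
    rw [hρ]
    simp only
    linarith
  have hPaOm : D.Pa ρ ⊆ (D.rescale c).Om := by
    rw [PData.R09_Om h]
    rintro w hw j ⟨z, ⟨hz1, hz2⟩, rfl⟩
    exact hw j ⟨z, ⟨hz1, hz2.trans (hρa j).le⟩, rfl⟩
  have hCoOm : D.Co ⊆ (D.rescale c).Om := by
    rw [PData.R09_Om h]
    exact PData.Valid.Co_sub_Pa (PData.R09_a_lt1 h)
  have hrep : ∀ i, ∀ z ∈ D.An i, R09_R D i z (R09_w D c i z) := fun i z hz =>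
    ⟨hz, R09_w_rep D c i z⟩
  have hinj : ∀ i k z y, z ∈ D.An i → y ∈ D.An k →
      P'.ψ (R09_w D c i z) = P'.ψ (R09_w D c k y) → i = k ∧ z = y := by
    intro i k z y hz hy he
    have h1 := (R09_same h hD P' (R09_w_mem h hD hz) (R09_w_mem h hD hy)).1 he
    exact R09_R_unique h hD (R09_R_glue h hD (hrep i z hz) h1) (hrep k y hy)
  have hinn : ∀ i z, PData.R09_a D c (i, true) < ‖z‖ → ‖z‖ < 1 →
      P'.ψ (R09_w D c i (D.q i / z)) = P'.ψ (D.F (i, true) z) := by
    intro i z h1 h2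
    have hzA : z ∈ D.An i := ⟨(PData.R09_a_ge h (i, true)).trans_lt h1, h2⟩
    have hzp : 0 < ‖z‖ := (norm_nonneg _).trans_lt hzA.1
    have h3 : ‖D.q i / z‖ < ‖c (i, false)‖ := by
      have h1' : ‖D.q i‖ / ‖c (i, false)‖ < ‖z‖ := h1
      rw [norm_div, div_lt_iff₀ hzp]
      rwa [div_lt_iff₀ (hcf _), mul_comm] at h1'
    rw [R09_ψ_true h hD P' (PData.R09_div hD hzA) h3, div_div_cancel₀ (hD.q0 i)]
  have hpieces : D.Pieces S P'.ψ (fun i z => P'.ψ (R09_w D c i z)) ρ := by
    refine ⟨?_, hρ1, P'.hol.mono hPaOm, ?_, ?_, ?_, ?_, ?_, ?_, ?_, ?_⟩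
    · intro j
      exact (PData.R09_a_ge h j).trans_lt (hρa j)
    · intro i
      have hU1 : IsOpen {z : ℂ | ‖D.q i‖ / ‖c (i, true)‖ < ‖z‖ ∧ ‖z‖ < 1} :=
        (isOpen_lt continuous_const continuous_norm).inter
          (isOpen_lt continuous_norm continuous_const)
      have hU2 : IsOpen {z : ℂ | ‖D.q i‖ < ‖z‖ ∧ ‖z‖ < ‖c (i, false)‖} :=
        (isOpen_lt continuous_const continuous_norm).inter
          (isOpen_lt continuous_norm continuous_const)
      have hsub1 : ∀ z : ℂ, ‖D.q i‖ / ‖c (i, true)‖ < ‖z‖ ∧ ‖z‖ < 1 → z ∈ D.An i := fun z hz =>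
        ⟨(PData.R09_a_ge h (i, false)).trans_lt hz.1, hz.2⟩
      have hsub2 : ∀ z : ℂ, ‖D.q i‖ < ‖z‖ ∧ ‖z‖ < ‖c (i, false)‖ → z ∈ D.An i := fun z hz =>
        ⟨hz.1, hz.2.trans_le (h.le _)⟩
      have hol1 : S.HolOn (fun z => P'.ψ (R09_w D c i z))
          {z : ℂ | ‖D.q i‖ / ‖c (i, true)‖ < ‖z‖ ∧ ‖z‖ < 1} := by
        have h1 : S.HolOn (P'.ψ ∘ D.F (i, false))
            {z : ℂ | ‖D.q i‖ / ‖c (i, true)‖ < ‖z‖ ∧ ‖z‖ < 1} := by
          refine P'.hol.comp hU1 hD'.isOpen_Om ((hD.diff_F (i, false)).mono ?_) ?_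
          · intro z hz
            exact PData.R09_Dj h (hsub1 z hz) false
          · intro z hz
            rw [PData.R09_Om h, hD.F_mem_Pa (PData.R09_a_lt1 h) (PData.R09_Dj h (hsub1 z hz) _)]
            exact hz.1
        refine h1.congr ?_
        intro z hz
        exact R09_ψ_false h hD P' (hsub1 z hz) hz.1
      have hol2 : S.HolOn (fun z => P'.ψ (R09_w D c i z))
          {z : ℂ | ‖D.q i‖ < ‖z‖ ∧ ‖z‖ < ‖c (i, false)‖} := by
        have h1 : S.HolOn (P'.ψ ∘ fun z => D.F (i, true) (D.q i / z))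
            {z : ℂ | ‖D.q i‖ < ‖z‖ ∧ ‖z‖ < ‖c (i, false)‖} := by
          refine P'.hol.comp hU2 hD'.isOpen_Om ?_ ?_
          · refine (hD.diff_F (i, true)).comp ?_ ?_
            · exact (differentiableOn_const _).div differentiableOn_id fun z hz =>
                PData.R09_An_ne (hsub2 z hz)
            · intro z hz
              exact PData.R09_Dj h (PData.R09_div hD (hsub2 z hz)) true
          · intro z hz
            have hzp : 0 < ‖z‖ := (norm_nonneg _).trans_lt hz.1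
            rw [PData.R09_Om h, hD.F_mem_Pa (PData.R09_a_lt1 h)
              (PData.R09_Dj h (PData.R09_div hD (hsub2 z hz)) _)]
            show ‖D.q i‖ / ‖c (i, false)‖ < ‖D.q i / z‖
            rw [norm_div, div_lt_div_iff_of_pos_left (norm_pos_iff.2 (hD.q0 i)) (hcf _) hzp]
            exact hz.2
        refine h1.congr ?_
        intro z hz
        exact R09_ψ_true h hD P' (hsub2 z hz) hz.2
      have hun : S.HolOn (fun z => P'.ψ (R09_w D c i z)) (⋃ b : Bool,
          if b then {z : ℂ | ‖D.q i‖ / ‖c (i, true)‖ < ‖z‖ ∧ ‖z‖ < 1}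
          else {z : ℂ | ‖D.q i‖ < ‖z‖ ∧ ‖z‖ < ‖c (i, false)‖}) := by
        refine CS.HolOn.iUnion ?_ ?_
        · intro b
          cases b
          · exact hU2
          · exact hU1
        · intro b
          cases b
          · exact hol2
          · exact hol1
      refine hun.mono ?_
      intro z hz
      rw [mem_iUnion]
      by_cases h1 : ‖D.q i‖ / ‖c (i, true)‖ < ‖z‖
      · exact ⟨true, h1, hz.2⟩
      · exact ⟨false, hz.1, (not_lt.1 h1).trans_lt (PData.R09_a_lt h (i, false))⟩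
    · intro i z h1 h2
      have h3 : ‖D.q i‖ / ‖c (i, true)‖ < ‖z‖ := (hρa (i, false)).trans h1
      exact R09_ψ_false h hD P' ⟨(PData.R09_a_ge h (i, false)).trans_lt h3, h2⟩ h3
    · intro i z h1 h2
      exact hinn i z ((hρa (i, true)).trans h1) h2
    · intro w hw w' hw' he
      rcases (R09_same h hD P' (hCoOm hw) (hCoOm hw')).1 he with h1 | h1 | h1
      · exact h1
      · exact absurd h1 (PData.not_glue_Co hD hw).1
      · exact absurd h1 (PData.not_glue_Co hD hw).2
    · intro i z hz y hy he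
      exact (hinj i i z y hz hy he).2
    · intro i
      rw [Set.disjoint_left]
      rintro x ⟨z, hz, rfl⟩ ⟨w, hw, he⟩
      have h1 := (R09_same h hD P' (R09_w_mem h hD hz) (hCoOm hw)).1 he.symm
      exact R09_R_Co h hD (R09_R_glue h hD (hrep i z hz) h1) hw
    · intro i k hik
      rw [Set.disjoint_left]
      rintro x ⟨z, hz, rfl⟩ ⟨y, hy, he⟩
      exact hik (hinj i k z y hz hy he.symm).1
    · intro x
      obtain ⟨w, hw, rfl⟩ := P'.onto x
      rcases PData.cases_Co (D := D) w with h1 | ⟨⟨i, s⟩, z, hz, rfl⟩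
      · exact Or.inl ⟨w, h1, rfl⟩
      · right
        have h2 : PData.R09_a D c (i, s) < ‖z‖ := by
          rw [PData.R09_Om h] at hw
          exact (hD.F_mem_Pa (PData.R09_a_lt1 h) hz).1 hw
        have hzA : z ∈ D.An i := ⟨(PData.R09_a_ge h (i, s)).trans_lt h2, hz.2⟩
        cases s with
        | false => exact ⟨i, z, hzA, R09_ψ_false h hD P' hzA h2⟩
        | true => exact ⟨i, D.q i / z, PData.R09_div hD hzA, hinn i z h2 hz.2⟩
  obtain ⟨P, hP1, hP2⟩ := hpieces.exists_pres hD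
  have hOm : ∀ w ∈ (D.rescale c).Om, P'.ψ w = P.ψ w := by
    intro w hw
    rcases PData.cases_Co (D := D) w with h1 | ⟨⟨i, s⟩, z, hz, rfl⟩
    · exact (hP1 w (PData.Valid.Co_sub_Pa hρ1 h1)).symm
    · have h2 : PData.R09_a D c (i, s) < ‖z‖ := by
        rw [PData.R09_Om h] at hw
        exact (hD.F_mem_Pa (PData.R09_a_lt1 h) hz).1 hw
      have hzA : z ∈ D.An i := ⟨(PData.R09_a_ge h (i, s)).trans_lt h2, hz.2⟩
      have hzA' := PData.R09_div hD hzA
      cases s with
      | false =>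
        have h3 : P.ψ (D.F (i, false) z) = P'.ψ (R09_w D c i z) := hP2 i z hzA
        rw [h3, R09_ψ_false h hD P' hzA h2]
      | true =>
        have h3 : P.ψ (D.F (i, false) (D.q i / z)) = P'.ψ (R09_w D c i (D.q i / z)) :=
          hP2 i _ hzA'
        rw [hinn i z h2 hz.2] at h3
        rw [← h3]
        have h4 : D.F (i, false) (D.q i / z) ∈ D.Om :=
          (hD.F_mem_Om (PData.R09_Dj h hzA' false)).2 hzA'.1
        rw [P.fib _ h4 _ (hsub hw)]
        refine Or.inr (Or.inl ⟨i, D.q i / z, hzA'.1, hzA'.2, rfl, ?_⟩)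
        rw [div_div_cancel₀ (hD.q0 i)]
  refine ⟨P, hOm, ?_⟩
  intro i z hz
  have hz' : (D.rescale c).F (i, false) z ∈ (D.rescale c).Om := by
    have hzz : z ∈ (D.rescale c).Dj (i, false) 1 :=
      ⟨PData.at_of_ne_zero (norm_pos_iff.1 ((norm_nonneg _).trans_lt hz.1)), hz.2⟩
    exact (hD'.F_mem_Om hzz).2 hz.1
  exact hOm _ hz'

end

section

variable {g : ℕ} {D : PData g} {c : Fin g × Bool → ℂ}

/-- comparison of the handle charts -/
private theorem R09_handles {X : Type} [TopologicalSpace X] {S : CS X} (hD : D.Valid)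
    (h : D.Resc c) {P : Pres S D} {P' : Pres S (D.rescale c)}
    (hι : ∀ i, ∀ z ∈ (D.rescale c).An i, P'.ι i z = P.ι i (c (i, false) * z)) {i : Fin g}
    {e e' : OpenPartialHomeomorph X ℂ} (he : P.IsHandle i e) (he' : P'.IsHandle i e') :
    e'.source ⊆ e.source ∧ ∃ κ : ℂ, κ ≠ 0 ∧ ∀ x ∈ e'.source, e x = κ * e' x := by
  have hD' := h.valid hD
  have hcf := PData.R09_cpos h
  have hmem : ∀ z ∈ (D.rescale c).An i, c (i, false) * z ∈ D.An i := by
    intro z hz
    have h1 : ‖D.q i / (c (i, false) * c (i, true))‖ < ‖z‖ := hz.1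
    rw [norm_div, norm_mul, div_lt_iff₀ (mul_pos (hcf _) (hcf _))] at h1
    have hzp : 0 < ‖z‖ := (norm_nonneg _).trans_lt hz.1
    constructor
    · rw [norm_mul]
      calc ‖D.q i‖ < ‖z‖ * (‖c (i, false)‖ * ‖c (i, true)‖) := h1
        _ ≤ ‖z‖ * (‖c (i, false)‖ * 1) := by
          gcongr
          exact h.le _
        _ = ‖c (i, false)‖ * ‖z‖ := by ring
    · rw [norm_mul]
      calc ‖c (i, false)‖ * ‖z‖ ≤ 1 * ‖z‖ := by
            gcongr
            exact h.le _
        _ < 1 := by rw [one_mul]; exact hz.2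
  have hs1 : ∀ i, 0 < Real.sqrt ‖D.q i‖ := fun i => Real.sqrt_pos.2 (norm_pos_iff.2 (hD.q0 i))
  have hs2 : ∀ i, 0 < Real.sqrt ‖(D.rescale c).q i‖ := fun i =>
    Real.sqrt_pos.2 (norm_pos_iff.2 (hD'.q0 i))
  constructor
  · rw [he'.source_eq hD', he.source_eq hD]
    rintro x ⟨z, hz, rfl⟩
    exact ⟨c (i, false) * z, hmem z hz, (hι i z hz).symm⟩
  · refine ⟨c (i, false) * (Real.sqrt ‖(D.rescale c).q i‖ : ℂ) / (Real.sqrt ‖D.q i‖ : ℂ), ?_, ?_⟩
    · refine div_ne_zero (mul_ne_zero (h.pos _) ?_) ?_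
      · exact_mod_cast (hs2 i).ne'
      · exact_mod_cast (hs1 i).ne'
    · intro x hx
      rw [he'.source_eq hD'] at hx
      obtain ⟨z, hz, rfl⟩ := hx
      rw [he'.apply hD' hz, hι i z hz, he.apply hD (hmem z hz)]
      have h1 : (Real.sqrt ‖(D.rescale c).q i‖ : ℂ) ≠ 0 := by exact_mod_cast (hs2 i).ne'
      have h2 : (Real.sqrt ‖D.q i‖ : ℂ) ≠ 0 := by exact_mod_cast (hs1 i).ne'
      field_simp

private theorem R09_L (hD : D.Valid) (i : Fin g) : 0 < D.L i := by
  unfold PData.L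
  have h1 := Real.log_neg (norm_pos_iff.2 (hD.q0 i)) (hD.q1 i)
  linarith

theorem mv_shrink (h : D.Resc c) : Mv D (D.rescale c) 0 := by
  intro b Z hZ
  have hs := hZ.mem_schottky
  obtain ⟨hD, hZs, X, i1, i2, i3, i4, S, u, v, P, hP, hM⟩ := hZ
  obtain ⟨P', -, hι⟩ := P.shrink hD h
  have hD' := h.valid hD
  have hM' : P'.Marked u v b := by
    intro i e' he' a' ha' hal'
    obtain ⟨e, he⟩ := P.exists_handle hD i
    obtain ⟨hsub, κ, hκ, hx⟩ := R09_handles hD h hι he he'
    have hL := R09_L hD i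
    have ha : 0 < D.L i / 4 := by linarith
    have hal : D.L i / 4 < D.L i / 2 := by linarith
    obtain ⟨f, hf, hfe⟩ := sameClass_scaled he.1 he'.1 ha hal ha' hal' hsub hκ hx
    obtain ⟨k, hk, hke⟩ := hM i e he (D.L i / 4) ha hal
    refine ⟨fun x => k x + f x, hk.add hf, fun x => ?_⟩
    rw [hfe x, hke x, AddCircle.coe_add]
    abel
  exact ⟨Z, ⟨hD', hZs, X, i1, i2, i3, i4, S, u, v, P', hP, hM'⟩, Conn.refl hs, LEq.refl hZs le_rfl⟩

theorem mv_enlarge (hD : D.Valid) (h : D.Resc c) : Mv (D.rescale c) D 0 := by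
  intro b Z hZ
  have hs := hZ.mem_schottky
  obtain ⟨hD', hZs, X, i1, i2, i3, i4, S, u, v, P', hP, hM⟩ := hZ
  obtain ⟨P, -, hι⟩ := P'.enlarge hD h
  have hM' : P.Marked u v b := by
    intro i e he a ha hal
    obtain ⟨e', he'⟩ := P'.exists_handle hD' i
    obtain ⟨hsub, κ, hκ, hx⟩ := R09_handles hD h hι he he'
    have hL := R09_L hD' i
    have ha' : 0 < (D.rescale c).L i / 4 := by linarith
    have hal' : (D.rescale c).L i / 4 < (D.rescale c).L i / 2 := by linarith
    obtain ⟨f, hf, hfe⟩ := sameClass_scaled he.1 he'.1 ha hal ha' hal' hsub hκ hx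
    obtain ⟨k, hk, hke⟩ := hM i e' he' ((D.rescale c).L i / 4) ha' hal'
    refine ⟨fun x => k x - f x, hk.sub hf, fun x => ?_⟩
    have h1 := hke x
    rw [hfe x] at h1
    rw [AddCircle.coe_sub, ← add_sub_assoc, ← h1]
    abel
  exact ⟨Z, ⟨hD, hZs, X, i1, i2, i3, i4, S, u, v, P, hP, hM'⟩, Conn.refl hs, LEq.refl hZs le_rfl⟩

end

end Pool.Agent.Lib.MP_cca10c_ag
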