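import Pool.Agent.Lib.MP_cca10c_ag.R04_Pres
import Pool.Agent.Lib.MP_cca10c_ag.M05_Radial

/-!
# Module R: pieces after a modification inside a handle (stub R10b)

Pieces for `D' = D.setq i (q exp c₀)` and `S'`: `ψ = P.ψ`, `ρ (i, _) = exp (-1/4)`, `ρ j = √‖q j‖` for the
other feet, `ι' i z = c.symm (z / √‖q‖)`, `ι' k = P.ι k` (`Pieces.exists_pres`). Near the outer end `c = e`,
so `ι' i z = P.ι i z`; near the inner end `c = e exp c₀`, so
`ι' i (q' / z) = P.ι i (q / z) = P.ψ (F (i,true) z)` (`Pres.ι_inn`). `P.ψ` on `Pa ρ` and the other `P.ι k` avoid the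
modified set. The decomposition of `X` (`inj, injι, disj, disjι, onto`) is that of `P` (`Pres.pieces`), because
`c.source = e.source = P.ι i '' An i`.
-/

set_option autoImplicit false

open Topology Set Metric
open scoped ContDiff

namespace Pool.Agent.Lib.MP_cca10c_ag

/-- holomorphic maps into the part of the surface on which the structures agree -/
theorem hdl_holOn_of_agree {X : Type} [TopologicalSpace X] {S S' : CS X} {M : Set X}
    (hM : IsClosed M) (h : ∀ c ∈ S.charts, Disjoint c.source M → c ∈ S'.charts) {φ : ℂ → X}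
    {U : Set ℂ} (hU : IsOpen U) (hφ : S.HolOn φ U) (hd : ∀ z ∈ U, φ z ∉ M) : S'.HolOn φ U := by
  refine CS.holOn_of_local hU fun z hz => ?_
  have hc : ContinuousAt φ z := hφ.1.continuousAt (hU.mem_nhds hz)
  obtain ⟨e0, he0, hx⟩ := S.cover (φ z)
  have hr := CS.restr_mem he0 hM.isOpen_compl
  have hs : (e0.restr Mᶜ).source = e0.source ∩ Mᶜ := by
    rw [e0.restr_source, hM.isOpen_compl.interior_eq]
  have hdj : Disjoint (e0.restr Mᶜ).source M := by
    rw [hs, Set.disjoint_left]
    exact fun x hx hxM => hx.2 hxM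
  have hmem : φ z ∈ (e0.restr Mᶜ).source := by
    rw [hs]
    exact ⟨hx, hd z hz⟩
  refine ⟨hc, e0.restr Mᶜ, h _ hr hdj, hmem, ?_⟩
  have ho : IsOpen (U ∩ φ ⁻¹' (e0.restr Mᶜ).source) :=
    hφ.1.isOpen_inter_preimage hU (e0.restr Mᶜ).open_source
  filter_upwards [ho.mem_nhds ⟨hz, hmem⟩] with w hw
  exact (hφ.2 _ hr).differentiableAt (ho.mem_nhds hw)

/-- change of the gluing parameter of the handle `i` -/
def PData.setq {g : ℕ} (D : PData g) (i : Fin g) (q' : ℂ) : PData g where
  i0 := D.i0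
  f := D.f
  q := Function.update D.q i q'

theorem PData.setq_valid {g : ℕ} {D : PData g} (hD : D.Valid) {i : Fin g} {q' : ℂ} (h0 : q' ≠ 0)
    (h1 : ‖q'‖ < 1) : (D.setq i q').Valid where
  diff := hD.diff
  inj := hD.inj
  zero := hD.zero
  disj := hD.disj
  q0 := by
    intro k
    show Function.update D.q i q' k ≠ 0
    by_cases hk : k = i
    · subst hk
      rwa [Function.update_self]
    · rw [Function.update_of_ne hk]
      exact hD.q0 k
  q1 := by
    intro k
    show ‖Function.update D.q i q' k‖ < 1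
    by_cases hk : k = i
    · subst hk
      rwa [Function.update_self]
    · rw [Function.update_of_ne hk]
      exact hD.q1 k

section

variable {g : ℕ} {D : PData g} {X : Type} [TopologicalSpace X] {S : CS X}

private theorem R10b_norm (hD : D.Valid) (i : Fin g) : ‖D.q i‖ = Real.exp (-(D.L i)) := by
  unfold PData.L
  rw [neg_neg, Real.exp_log (norm_pos_iff.2 (hD.q0 i))]

private theorem R10b_sqrt (hD : D.Valid) (i : Fin g) :
    Real.sqrt ‖D.q i‖ = Real.exp (-(D.L i / 2)) := by
  rw [R10b_norm hD, ← Real.exp_half]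
  congr 1
  ring

private theorem R10b_s_pos (hD : D.Valid) (i : Fin g) : 0 < Real.sqrt ‖D.q i‖ := by
  rw [R10b_sqrt hD]
  exact Real.exp_pos _

private theorem R10b_s_ne (hD : D.Valid) (i : Fin g) : ((Real.sqrt ‖D.q i‖ : ℝ) : ℂ) ≠ 0 :=
  Complex.ofReal_ne_zero.2 (R10b_s_pos hD i).ne'

private theorem R10b_norm_mul (hD : D.Valid) (i : Fin g) (ζ : ℂ) :
    ‖((Real.sqrt ‖D.q i‖ : ℝ) : ℂ) * ζ‖ = Real.exp (-(D.L i / 2)) * ‖ζ‖ := by
  rw [norm_mul, Complex.norm_real, Real.norm_of_nonneg (Real.sqrt_nonneg _), R10b_sqrt hD]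

private theorem R10b_norm_div (hD : D.Valid) (i : Fin g) (z : ℂ) :
    ‖z / ((Real.sqrt ‖D.q i‖ : ℝ) : ℂ)‖ = Real.exp (D.L i / 2) * ‖z‖ := by
  rw [norm_div, Complex.norm_real, Real.norm_of_nonneg (Real.sqrt_nonneg _), R10b_sqrt hD,
    Real.exp_neg]
  field_simp

private theorem R10b_ι {P : Pres S D} (hD : D.Valid) {i : Fin g} {e : OpenPartialHomeomorph X ℂ}
    (he : P.IsHandle i e) {z : ℂ} (hz : z ∈ D.An i) :
    z / (Real.sqrt ‖D.q i‖ : ℂ) ∈ e.target ∧ P.ι i z = e.symm (z / (Real.sqrt ‖D.q i‖ : ℂ)) := by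
  have h1 : z / (Real.sqrt ‖D.q i‖ : ℂ) ∈ e.target := by
    rw [he.1.2.2]
    show Real.exp (-(D.L i / 2)) < ‖z / (Real.sqrt ‖D.q i‖ : ℂ)‖ ∧
      ‖z / (Real.sqrt ‖D.q i‖ : ℂ)‖ < Real.exp (D.L i / 2)
    rw [R10b_norm_div hD]
    obtain ⟨h2, h3⟩ := hz
    rw [R10b_norm hD] at h2
    constructor
    · have h4 : Real.exp (-(D.L i / 2)) = Real.exp (D.L i / 2) * Real.exp (-(D.L i)) := by
        rw [← Real.exp_add]
        congr 1
        ring
      rw [h4]
      exact mul_lt_mul_of_pos_left h2 (Real.exp_pos _)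
    · exact mul_lt_of_lt_one_right (Real.exp_pos _) h3
  refine ⟨h1, ?_⟩
  rw [he.2 _ h1, mul_div_cancel₀ z (R10b_s_ne hD i)]

private theorem R10b_src {P : Pres S D} (hD : D.Valid) {i : Fin g} {e : OpenPartialHomeomorph X ℂ}
    (he : P.IsHandle i e) {x : X} (hx : x ∈ e.source) :
    (Real.sqrt ‖D.q i‖ : ℂ) * e x ∈ D.An i ∧ P.ι i ((Real.sqrt ‖D.q i‖ : ℂ) * e x) = x := by
  have ht := e.map_source hx
  constructor
  · have h1 := ht
    rw [he.1.2.2] at h1
    obtain ⟨h2, h3⟩ := h1
    show ‖D.q i‖ < ‖(Real.sqrt ‖D.q i‖ : ℂ) * e x‖ ∧ ‖(Real.sqrt ‖D.q i‖ : ℂ) * e x‖ < 1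
    rw [R10b_norm_mul hD, R10b_norm hD]
    constructor
    · have h4 : Real.exp (-(D.L i)) = Real.exp (-(D.L i / 2)) * Real.exp (-(D.L i / 2)) := by
        rw [← Real.exp_add]
        congr 1
        ring
      rw [h4]
      exact mul_lt_mul_of_pos_left h2 (Real.exp_pos _)
    · have h4 : (1 : ℝ) = Real.exp (-(D.L i / 2)) * Real.exp (D.L i / 2) := by
        rw [← Real.exp_add]
        simp
      rw [h4]
      exact mul_lt_mul_of_pos_left h3 (Real.exp_pos _)
  · rw [← he.2 _ ht, e.left_inv hx]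

private theorem R10b_ne (hD : D.Valid) (P : Pres S D) {ρ : Fin g × Bool → ℝ}
    (h0 : ∀ j, ‖D.q j.1‖ ≤ ρ j) {i : Fin g} {z w : ℂ} (hz : z ∈ D.An i)
    (h1 : ‖z‖ ≤ ρ (i, false)) (h2 : ‖D.q i / z‖ ≤ ρ (i, true)) (hw : w ∈ D.Pa ρ) :
    P.ψ w ≠ P.ι i z := by
  intro h
  have hz0 : z ≠ 0 := norm_pos_iff.1 ((norm_nonneg _).trans_lt hz.1)
  have hzD : z ∈ D.Dj (i, false) 1 := ⟨PData.at_of_ne_zero hz0, hz.2⟩
  have hwO : w ∈ D.Om := PData.Valid.Pa_sub_Om h0 hw
  have hzO : D.F (i, false) z ∈ D.Om := (hD.F_mem_Om hzD).2 hz.1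
  rcases (P.fib w hwO _ hzO).1 h with h3 | ⟨k, z', h3, h4, h5, h6⟩ | ⟨k, z', h3, h4, h5, h6⟩
  · exact hw (i, false) ⟨z, ⟨PData.at_of_ne_zero hz0, h1⟩, h3.symm⟩
  · have hz0' : z' ≠ 0 := norm_pos_iff.1 ((norm_nonneg _).trans_lt h3)
    have hq : D.q k / z' ≠ 0 := div_ne_zero (hD.q0 k) hz0'
    have h7 : D.q k / z' ∈ D.Dj (k, true) 1 := by
      refine ⟨PData.at_of_ne_zero hq, ?_⟩
      rw [norm_div, div_lt_one (norm_pos_iff.2 hz0')]
      exact h3
    exact hD.F_ne (by simp) hzD h7 h6
  · have hz0' : z' ≠ 0 := norm_pos_iff.1 ((norm_nonneg _).trans_lt h3)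
    have h7 : z' ∈ D.Dj (k, false) 1 := ⟨PData.at_of_ne_zero hz0', h4⟩
    by_cases hk : i = k
    · subst hk
      have h8 : z = z' := hD.injOn_F (i, false) hzD h7 h5
      subst h8
      exact hw (i, true) ⟨D.q i / z, ⟨PData.at_of_ne_zero (div_ne_zero (hD.q0 i) hz0), h2⟩,
        h6.symm⟩
    · exact hD.F_ne (by simpa using hk) hzD h7 h5

end

/-- the pieces after a modification inside the handle `i` -/
theorem PData.setq_pieces {g : ℕ} {D : PData g} (hD : D.Valid) {X : Type} [TopologicalSpace X]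
    [T2Space X] {S S' : CS X} (P : Pres S D) {i : Fin g} (hL : 4 ≤ D.L i) {c₀ : ℂ}
    (hc : c₀.re ≤ D.L i / 2) {e c : OpenPartialHomeomorph X ℂ} (he : P.IsHandle i e)
    (hagree : ∀ k ∈ S.charts, Disjoint k.source (e.symm '' {z | Real.exp (-(D.L i / 2) + 1 / 4) ≤ ‖z‖ ∧
      ‖z‖ ≤ Real.exp (D.L i / 2 - 1 / 4)}) → k ∈ S'.charts)
    (hcS : c ∈ S'.charts) (hsrc : c.source = e.source)
    (htar : c.target = LAn (-(D.L i / 2) + c₀.re) (D.L i / 2))
    (hout : ∀ x ∈ e.source, Real.exp (D.L i / 2 - 1 / 4) ≤ ‖e x‖ → c x = e x)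
    (hin : ∀ x ∈ e.source, ‖e x‖ ≤ Real.exp (-(D.L i / 2) + 1 / 4) →
      c x = e x * Complex.exp c₀) :
    ∃ P' : Pres S' (D.setq i (D.q i * Complex.exp c₀)), (∀ k, k ≠ i → ∀ z ∈ D.An k, P'.ι k z = P.ι k z) ∧
      ∀ z ∈ (D.setq i (D.q i * Complex.exp c₀)).An i,
        P'.ι i z = c.symm (z / (Real.sqrt ‖D.q i‖ : ℂ)) := by
  classical
  set s : ℂ := (Real.sqrt ‖D.q i‖ : ℂ) with hs
  have hs0 : s ≠ 0 := R10b_s_ne hD i
  set q' := D.q i * Complex.exp c₀ with hq'
  have hq'0 : q' ≠ 0 := mul_ne_zero (hD.q0 i) (Complex.exp_ne_zero _)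
  have hq'n : ‖q'‖ = Real.exp (-(D.L i) + c₀.re) := by
    rw [hq', norm_mul, R10b_norm hD, Complex.norm_exp, ← Real.exp_add]
  have hq'lt : ‖q'‖ < Real.exp (-(1 / 4)) := by
    rw [hq'n]
    exact Real.exp_lt_exp.2 (by linarith)
  have he4 : Real.exp (-(1 / 4) : ℝ) < 1 := by
    rw [Real.exp_lt_one_iff]
    norm_num
  have hD' : (D.setq i q').Valid := PData.setq_valid hD hq'0 (hq'lt.trans he4)
  set D' := D.setq i q' with hD'def
  have hqi : D'.q i = q' := by
    show Function.update D.q i q' i = q'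
    exact Function.update_self ..
  have hqk : ∀ k, k ≠ i → D'.q k = D.q k := by
    intro k hk
    show Function.update D.q i q' k = D.q k
    exact Function.update_of_ne hk ..
  have hAk : ∀ k, k ≠ i → D'.An k = D.An k := by
    intro k hk
    unfold PData.An
    rw [hqk k hk]
  have hF : ∀ j, D'.F j = D.F j := fun j => rfl
  have hCo : D'.Co = D.Co := rfl
  have hPa : ∀ r : Fin g × Bool → ℝ, D'.Pa r = D.Pa r := fun r => rfl
  set ρ : Fin g × Bool → ℝ := fun j => if j.1 = i then Real.exp (-(1 / 4)) else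
    Real.sqrt ‖D.q j.1‖ with hρ
  have hρi : ∀ b : Bool, ρ (i, b) = Real.exp (-(1 / 4)) := fun b => by simp [hρ]
  have hsq : ∀ k, ‖D.q k‖ < Real.sqrt ‖D.q k‖ := by
    intro k
    have h1 : 0 < ‖D.q k‖ := norm_pos_iff.2 (hD.q0 k)
    exact Real.lt_sqrt_of_sq_lt (by nlinarith [hD.q1 k])
  have hsq1 : ∀ k, Real.sqrt ‖D.q k‖ < 1 := by
    intro k
    rw [Real.sqrt_lt' one_pos]
    simpa using hD.q1 k
  have hqi4 : ‖D.q i‖ < Real.exp (-(1 / 4)) := by
    rw [R10b_norm hD]
    exact Real.exp_lt_exp.2 (by linarith)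
  have hρ0 : ∀ j, ‖D.q j.1‖ < ρ j := by
    intro j
    simp only [hρ]
    split_ifs with h
    · rw [h]
      exact hqi4
    · exact hsq _
  have hρ1 : ∀ j, ρ j < 1 := by
    intro j
    simp only [hρ]
    split_ifs with h
    · exact he4
    · exact hsq1 _
  have hρ0' : ∀ j, ‖D'.q j.1‖ < ρ j := by
    intro j
    by_cases h : j.1 = i
    · rw [h, hqi]
      simp only [hρ]
      rw [if_pos h]
      exact hq'lt
    · rw [hqk _ h]
      exact hρ0 j
  have hPc := P.pieces hD hρ0 hρ1
  -- the modified set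
  set K : Set ℂ := {z | Real.exp (-(D.L i / 2) + 1 / 4) ≤ ‖z‖ ∧
      ‖z‖ ≤ Real.exp (D.L i / 2 - 1 / 4)} with hK
  set M : Set X := e.symm '' K with hM
  have hKt : K ⊆ e.target := by
    intro ζ hζ
    rw [he.1.2.2]
    refine ⟨lt_of_lt_of_le ?_ hζ.1, lt_of_le_of_lt hζ.2 ?_⟩
    · exact Real.exp_lt_exp.mpr (by linarith)
    · exact Real.exp_lt_exp.mpr (by linarith)
  have hKc : IsCompact K := by
    apply Metric.isCompact_of_isClosed_isBounded
    · exact (isClosed_le continuous_const continuous_norm).inter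
        (isClosed_le continuous_norm continuous_const)
    · rw [Metric.isBounded_iff_subset_closedBall 0]
      refine ⟨Real.exp (D.L i / 2 - 1 / 4), fun ζ hζ => ?_⟩
      rw [mem_closedBall_zero_iff]
      exact hζ.2
  have hMc : IsClosed M := (hKc.image_of_continuousOn (e.continuousOn_symm.mono hKt)).isClosed
  have hMsrc : M ⊆ e.source := by
    rintro _ ⟨ζ, hζ, rfl⟩
    exact e.map_target (hKt hζ)
  have hMι : M ⊆ P.ι i '' D.An i := by
    intro x hx
    obtain ⟨h1, h2⟩ := R10b_src hD he (hMsrc hx)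
    exact ⟨_, h1, h2⟩
  have hsrcι : ∀ x ∈ c.source, x ∈ P.ι i '' D.An i := by
    intro x hx
    rw [hsrc] at hx
    obtain ⟨h1, h2⟩ := R10b_src hD he hx
    exact ⟨_, h1, h2⟩
  -- the new annulus
  have hctar : ∀ {z : ℂ}, z ∈ D'.An i ↔ z / s ∈ c.target := by
    intro z
    rw [htar]
    show (‖D'.q i‖ < ‖z‖ ∧ ‖z‖ < 1) ↔ (Real.exp (-(D.L i / 2) + c₀.re) < ‖z / s‖ ∧
      ‖z / s‖ < Real.exp (D.L i / 2))
    rw [hqi, hq'n, hs, R10b_norm_div hD]
    have h4 : Real.exp (-(D.L i / 2) + c₀.re) = Real.exp (D.L i / 2) *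
        Real.exp (-(D.L i) + c₀.re) := by
      rw [← Real.exp_add]
      congr 1
      ring
    rw [h4, mul_lt_mul_iff_right₀ (Real.exp_pos _)]
    have h5 : Real.exp (D.L i / 2) * ‖z‖ < Real.exp (D.L i / 2) ↔ ‖z‖ < 1 :=
      mul_lt_iff_lt_one_right (Real.exp_pos _)
    rw [h5]
  set ι' : Fin g → ℂ → X := fun k z => if k = i then c.symm (z / s) else P.ι k z with hι'
  have hι'i : ∀ z, ι' i z = c.symm (z / s) := fun z => by simp [hι']
  have hι'k : ∀ k, k ≠ i → ι' k = P.ι k := fun k hk => by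
    funext z
    simp [hι', hk]
  have himg : ι' i '' D'.An i ⊆ P.ι i '' D.An i := by
    rintro _ ⟨z, hz, rfl⟩
    rw [hι'i]
    exact hsrcι _ (c.map_target (hctar.1 hz))
  have hpieces : D'.Pieces S' P.ψ ι' ρ := by
    refine
      { ρ0 := hρ0'
        ρ1 := hρ1
        hol := ?_
        holι := ?_
        out := ?_
        inn := ?_
        inj := hPc.inj
        injι := ?_
        disj := ?_
        disjι := ?_
        onto := ?_ }
    · rw [hPa]
      refine hdl_holOn_of_agree hMc hagree (hD.isOpen_Pa hρ1) hPc.hol ?_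
      rintro w hw ⟨ζ, hζ, hζw⟩
      have hx : e.symm ζ ∈ e.source := e.map_target (hKt hζ)
      have hzA : s * ζ ∈ D.An i := by
        have := (R10b_src hD he hx).1
        rwa [e.right_inv (hKt hζ)] at this
      have hn : ‖s * ζ‖ = Real.exp (-(D.L i / 2)) * ‖ζ‖ := R10b_norm_mul hD i ζ
      have hpos : 0 < ‖ζ‖ := (Real.exp_pos _).trans_le hζ.1
      refine R10b_ne hD P (fun j => (hρ0 j).le) hzA ?_ ?_ hw ?_
      · rw [hρi, hn]
        have h4 : Real.exp (-(1 / 4)) = Real.exp (-(D.L i / 2)) *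
            Real.exp (D.L i / 2 - 1 / 4) := by
          rw [← Real.exp_add]
          congr 1
          ring
        rw [h4]
        exact mul_le_mul_of_nonneg_left hζ.2 (Real.exp_pos _).le
      · rw [hρi, norm_div, hn, R10b_norm hD, div_le_iff₀ (by positivity)]
        have h4 : Real.exp (-(D.L i)) = Real.exp (-(1 / 4)) * (Real.exp (-(D.L i / 2)) *
            Real.exp (-(D.L i / 2) + 1 / 4)) := by
          rw [← Real.exp_add, ← Real.exp_add]
          congr 1
          ring
        rw [h4]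
        exact mul_le_mul_of_nonneg_left (mul_le_mul_of_nonneg_left hζ.1 (Real.exp_pos _).le)
          (Real.exp_pos _).le
      · rw [← hζw]
        exact he.2 ζ (hKt hζ)
    · intro k
      by_cases hk : k = i
      · subst hk
        have h1 : S'.HolOn (c.symm ∘ fun z => z / s) (D'.An k) := by
          refine CS.HolOn.comp (CS.holOn_symm hcS) ?_ c.open_target ?_ ?_
          · exact (isOpen_lt continuous_const continuous_norm).inter
              (isOpen_lt continuous_norm continuous_const)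
          · exact (differentiable_id.div_const s).differentiableOn
          · exact fun z hz => hctar.1 hz
        exact h1.congr fun z _ => hι'i z
      · rw [hι'k k hk, hAk k hk]
        refine hdl_holOn_of_agree hMc hagree ?_ (hPc.holι k) ?_
        · exact (isOpen_lt continuous_const continuous_norm).inter
            (isOpen_lt continuous_norm continuous_const)
        · intro z hz hzM
          exact Set.disjoint_left.1 (hPc.disjι k i hk) ⟨z, hz, rfl⟩ (hMι hzM)
    · intro k z hz hz1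
      by_cases hk : k = i
      · subst hk
        rw [hρi] at hz
        have hzA : z ∈ D.An k := ⟨hqi4.trans hz, hz1⟩
        obtain ⟨h1, h2⟩ := R10b_ι hD he hzA
        have hx : e.symm (z / s) ∈ e.source := e.map_target h1
        have h3 : c (e.symm (z / s)) = z / s := by
          rw [hout _ hx, e.right_inv h1]
          rw [e.right_inv h1, R10b_norm_div hD]
          have h4 : Real.exp (D.L k / 2 - 1 / 4) = Real.exp (D.L k / 2) *
              Real.exp (-(1 / 4)) := by
            rw [← Real.exp_add]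
            congr 1
          rw [h4]
          exact mul_le_mul_of_nonneg_left hz.le (Real.exp_pos _).le
        rw [hι'i]
        calc c.symm (z / s) = c.symm (c (e.symm (z / s))) := by rw [h3]
          _ = e.symm (z / s) := c.left_inv (by rw [hsrc]; exact hx)
          _ = P.ι k z := h2.symm
          _ = P.ψ (D'.F (k, false) z) := rfl
      · rw [hι'k k hk]
        rfl
    · intro k z hz hz1
      by_cases hk : k = i
      · subst hk
        rw [hρi] at hz
        have hz0 : z ≠ 0 := norm_pos_iff.1 ((Real.exp_pos _).trans hz)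
        have hzA : z ∈ D.An k := ⟨hqi4.trans hz, hz1⟩
        have hzA' : D.q k / z ∈ D.An k := by
          constructor
          · rw [norm_div, lt_div_iff₀ (norm_pos_iff.2 hz0)]
            have := norm_pos_iff.2 (hD.q0 k)
            nlinarith
          · rw [norm_div, div_lt_one (norm_pos_iff.2 hz0)]
            exact hzA.1
        obtain ⟨h1, h2⟩ := R10b_ι hD he hzA'
        have hx : e.symm (D.q k / z / s) ∈ e.source := e.map_target h1
        have h3 : c (e.symm (D.q k / z / s)) = q' / z / s := by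
          rw [hin _ hx, e.right_inv h1]
          · rw [hq']
            ring
          · rw [e.right_inv h1, R10b_norm_div hD, norm_div, R10b_norm hD]
            have h4 : Real.exp (-(D.L k / 2) + 1 / 4) = Real.exp (D.L k / 2) *
                (Real.exp (-(D.L k)) * Real.exp (1 / 4)) := by
              rw [← Real.exp_add, ← Real.exp_add]
              congr 1
              ring
            rw [h4]
            refine mul_le_mul_of_nonneg_left ?_ (Real.exp_pos _).le
            rw [div_le_iff₀ (norm_pos_iff.2 hz0), mul_assoc]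
            refine le_mul_of_one_le_right (Real.exp_pos _).le ?_
            have h5 : Real.exp (1 / 4) * Real.exp (-(1 / 4)) = 1 := by
              rw [← Real.exp_add]
              simp
            calc (1 : ℝ) = Real.exp (1 / 4) * Real.exp (-(1 / 4)) := h5.symm
              _ ≤ Real.exp (1 / 4) * ‖z‖ := mul_le_mul_of_nonneg_left hz.le (Real.exp_pos _).le
        rw [hqi, hι'i]
        calc c.symm (q' / z / s) = c.symm (c (e.symm (D.q k / z / s))) := by rw [h3]
          _ = e.symm (D.q k / z / s) := c.left_inv (by rw [hsrc]; exact hx)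
          _ = P.ι k (D.q k / z) := h2.symm
          _ = P.ψ (D.F (k, true) z) := P.ι_inn hD hzA
      · have hzA : z ∈ D.An k := ⟨(hρ0 (k, true)).trans hz, hz1⟩
        rw [hι'k k hk, hqk k hk]
        exact P.ι_inn hD hzA
    · intro k
      by_cases hk : k = i
      · subst hk
        intro z hz z' hz' h
        rw [hι'i, hι'i] at h
        have h1 := c.symm.injOn (hctar.1 hz) (hctar.1 hz') h
        exact (div_left_inj' hs0).1 h1
      · rw [hι'k k hk, hAk k hk]
        exact hPc.injι k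
    · intro k
      by_cases hk : k = i
      · subst hk
        exact (hPc.disj k).mono_left himg
      · rw [hι'k k hk, hAk k hk]
        exact hPc.disj k
    · intro k k' hkk
      by_cases hk : k = i
      · subst hk
        rw [hι'k k' (Ne.symm hkk), hAk k' (Ne.symm hkk)]
        exact (hPc.disjι k k' hkk).mono_left himg
      · by_cases hk' : k' = i
        · subst hk'
          rw [hι'k k hk, hAk k hk]
          exact (hPc.disjι k k' hkk).mono_right himg
        · rw [hι'k k hk, hAk k hk, hι'k k' hk', hAk k' hk']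
          exact hPc.disjι k k' hkk
    · intro x
      rcases hPc.onto x with h | ⟨k, z, hz, hx⟩
      · exact Or.inl h
      · right
        by_cases hk : k = i
        · subst hk
          obtain ⟨h1, h2⟩ := R10b_ι hD he hz
          have hxs : x ∈ c.source := by
            rw [hsrc, ← hx, h2]
            exact e.map_target h1
          refine ⟨k, s * c x, ?_, ?_⟩
          · rw [hctar, mul_div_cancel_left₀ _ hs0]
            exact c.map_source hxs
          · rw [hι'i, mul_div_cancel_left₀ _ hs0]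
            exact c.left_inv hxs
        · refine ⟨k, z, ?_, ?_⟩
          · rw [hAk k hk]
            exact hz
          · rw [hι'k k hk]
            exact hx
  obtain ⟨P', -, hP'⟩ := hpieces.exists_pres hD'
  refine ⟨P', ?_, ?_⟩
  · intro k hk z hz
    have hz' : z ∈ D'.An k := by
      rw [hAk k hk]
      exact hz
    rw [hP' k z hz', hι'k k hk]
  · intro z hz
    rw [hP' i z hz, hι'i]

end Pool.Agent.Lib.MP_cca10c_ag
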