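import Pool.Agent.Lib.MP_cca10c_ag.R10a_Beta
import Pool.Agent.Lib.MP_cca10c_ag.R10b_SetqPieces
import Pool.Agent.Lib.MP_cca10c_ag.M03_Path

/-!
# Module R: stretching and twisting a handle (stub R10)

`D.setq i q'`: the same feet, `q i` replaced by `q'`. Let `P : Pres S D`, `e` the chart of the handle `i`
(`exists_handle`), `ζ = z / √‖q‖`, `e.target = LAn (-L/2) (L/2)`. Apply `exists_radFam` with
`x₀ = -L/2 + 1/4`, `x₁ = L/2 - 1/4`, and `exists_family`: `S' = T 1` with the chart `c`,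
`c x = Θ 1 (e x)`, `c.target = LAn (-L/2 + Re c₀) (L/2)`; `PData.setq_pieces` gives the presentation.
Marking: `sameClass_beta`, `Pres.marked_of_one`. Cost: `path_basic`.
-/

set_option autoImplicit false

open Topology Set Metric
open scoped ContDiff

namespace Pool.Agent.Lib.MP_cca10c_ag

private theorem R10_setq_q {g : ℕ} (D : PData g) (i : Fin g) (q' : ℂ) : (D.setq i q').q i = q' := by
  simp [PData.setq]

private theorem R10_setq_q_ne {g : ℕ} (D : PData g) {i k : Fin g} (h : k ≠ i) (q' : ℂ) :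
    (D.setq i q').q k = D.q k := by
  simp [PData.setq, h]

private theorem R10_log_mem {X : Type} [TopologicalSpace X] {S : CS X}
    {e : OpenPartialHomeomorph X ℂ} {l : ℝ} (he : IsAnn S e l) {x : X} (hx : x ∈ e.source) :
    0 < ‖e x‖ ∧ -l < Real.log ‖e x‖ ∧ Real.log ‖e x‖ < l := by
  have h := e.map_source hx
  rw [he.2.2] at h
  have h0 : 0 < ‖e x‖ := (Real.exp_pos _).trans h.1
  exact ⟨h0, (Real.lt_log_iff_exp_lt h0).2 h.1, (Real.log_lt_iff_lt_exp h0).2 h.2⟩

private theorem R10_source {X : Type} [TopologicalSpace X] {S : CS X}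
    {e : OpenPartialHomeomorph X ℂ} {l : ℝ} (he : IsAnn S e l) :
    e.source = {x | x ∈ e.source ∧ -l < Real.log ‖e x‖ ∧ Real.log ‖e x‖ < l} := by
  ext x
  constructor
  · intro hx
    exact ⟨hx, (R10_log_mem he hx).2.1, (R10_log_mem he hx).2.2⟩
  · intro hx
    exact hx.1

/-- the marking of one handle -/
private theorem R10_same {X : Type} [TopologicalSpace X] [T2Space X] {S S' : CS X}
    {e e' : OpenPartialHomeomorph X ℂ} {l l' : ℝ} (he : IsAnn S e l) (he' : IsAnn S' e' l')
    (hs : e'.source = e.source) (τ : ℝ → ℝ) (hτ : StrictMono τ) (hτc : Continuous τ)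
    (hτe : ∀ x ∈ e.source, Real.log ‖e' x‖ = τ (Real.log ‖e x‖)) {a a' : ℝ} (ha : 0 < a)
    (hal : a < l) (ha' : 0 < a') (hal' : a' < l') : SameClass (betaC e a) (betaC e' a') :=
  sameClass_beta he he' (α := -l) (β := l) le_rfl (by linarith [he.2.1]) le_rfl
    (by rw [hs]; exact R10_source he) τ (hτ.strictMonoOn _) hτc.continuousOn
    (fun x hx => hτe x (hs ▸ hx)) ha hal ha' hal'

private theorem R10_leq_mono {g : ℕ} {Z Z' : Matrix (Fin g) (Fin g) ℂ} {C C' : ℝ}
    (hZ : Z ∈ Siegel g) (hZ' : Z' ∈ Siegel g) (h : LEq C Z Z') (hC : C ≤ C') : LEq C' Z Z' := by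
  have h0 : ∀ W ∈ Siegel g, ∀ x, 0 ≤ QF (PZ W) x := fun W hW x => by
    have := (PZ_posDef hW).posSemidef.dotProduct_mulVec_nonneg x
    rwa [star_trivial] at this
  refine ⟨fun x => (h.1 x).trans ?_, fun x => (h.2 x).trans ?_⟩
  · exact mul_le_mul_of_nonneg_right (Real.exp_le_exp.2 hC) (h0 Z hZ x)
  · exact mul_le_mul_of_nonneg_right (Real.exp_le_exp.2 hC) (h0 Z' hZ' x)

theorem mv_q : ∃ δ A0 : ℝ, 0 < δ ∧ δ ≤ 1 / 2 ∧ 0 < A0 ∧ ∀ (g : ℕ) (D : PData g) (i : Fin g) (c : ℂ),
    4 ≤ D.L i → ‖c‖ ≤ δ * D.L i →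
      Mv D (D.setq i (D.q i * Complex.exp c)) (A0 * ‖c‖ / D.L i) := by
  obtain ⟨δ', A0', hδ', hA0', hfam⟩ := exists_radFam
  obtain ⟨M, hM1, hM⟩ := exists_stepDown_bound
  refine ⟨min (δ' / 2) (min (1 / 2) (1 / (4 * M))), 2 * A0', ?_, ?_, by positivity, ?_⟩
  · have : 0 < M := by linarith
    positivity
  · exact (min_le_right _ _).trans (min_le_left _ _)
  intro g D i c hL hc b Z hSt
  obtain ⟨hD, hZs, X, i1, i2, i3, i4, S, u, v, P, hper, hmark⟩ := hSt
  have hL0 : 0 < D.L i := by linarith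
  have hc1 : ‖c‖ ≤ δ' / 2 * D.L i :=
    hc.trans (mul_le_mul_of_nonneg_right (min_le_left _ _) hL0.le)
  have hc2 : ‖c‖ ≤ 1 / 2 * D.L i :=
    hc.trans (mul_le_mul_of_nonneg_right ((min_le_right _ _).trans (min_le_left _ _)) hL0.le)
  have hc3 : ‖c‖ ≤ 1 / (4 * M) * D.L i :=
    hc.trans (mul_le_mul_of_nonneg_right ((min_le_right _ _).trans (min_le_right _ _)) hL0.le)
  set L : ℝ := D.L i with hLdef
  obtain ⟨e, he⟩ := P.exists_handle hD i
  have he1 : IsAnn S e (L / 2) := he.1
  have htar : e.target = LAn (-(L / 2)) (L / 2) := he1.2.2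
  have hlen : L / 2 - 1 / 4 - (-(L / 2) + 1 / 4) = L - 1 / 2 := by ring
  have hlen2 : L / 2 ≤ L - 1 / 2 := by linarith
  obtain ⟨hQ, hprop⟩ := hfam (-(L / 2)) (L / 2) (-(L / 2) + 1 / 4) (L / 2 - 1 / 4) c
    (by linarith) (by linarith) (by linarith) (by
      rw [hlen]
      calc ‖c‖ ≤ δ' / 2 * L := hc1
        _ = δ' * (L / 2) := by ring
        _ ≤ δ' * (L - 1 / 2) := mul_le_mul_of_nonneg_left hlen2 hδ'.le)
  rw [hlen, ← htar] at hQ
  obtain ⟨T, hT0, hSC, hDil, hDil1, hch⟩ := exists_family S he1.1 hQ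
  have hA : 0 ≤ A0' * ‖c‖ / (L - 1 / 2) := by
    have : 0 < L - 1 / 2 := by linarith
    positivity
  have hZ0 := hZs
  rw [← hT0] at hper
  obtain ⟨Z', hper', hconn, hleq⟩ := path_basic T _ hA hSC hDil hper
  have h1m : (1 : ℝ) ∈ Icc (0 : ℝ) 1 := ⟨zero_le_one, le_rfl⟩
  obtain ⟨hagree, c', hc'S, hsrc, hcx, htar'⟩ := hch 1 h1m
  obtain ⟨him, hout0, hin0⟩ := hprop 1 h1m
  have hre : |c.re| ≤ ‖c‖ := Complex.abs_re_le_norm c
  have hcost : A0' * ‖c‖ / (L - 1 / 2) ≤ 2 * A0' * ‖c‖ / L := by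
    rw [div_le_div_iff₀ (by linarith) hL0]
    have : 0 ≤ A0' * ‖c‖ := by positivity
    nlinarith
  obtain ⟨P', hPk, hPi⟩ := PData.setq_pieces hD P (i := i) hL (c₀ := c)
    (by linarith [le_abs_self c.re]) he hagree hc'S hsrc (by rw [htar', htar, him, one_mul])
    (fun x hx h => by rw [hcx x hx]; exact hout0 _ h)
    (fun x hx h => by
      have h0 : e x ≠ 0 := norm_pos_iff.1 (R10_log_mem he1 hx).1
      rw [hcx x hx, hin0 _ h0 h]
      simp)
  have hq0 : D.q i * Complex.exp c ≠ 0 := mul_ne_zero (hD.q0 i) (Complex.exp_ne_zero _)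
  have hLq : Real.log ‖D.q i‖ = -L := by rw [hLdef, PData.L]; ring
  have hqpos : 0 < ‖D.q i‖ := norm_pos_iff.2 (hD.q0 i)
  have hnq : ‖D.q i * Complex.exp c‖ = Real.exp (-L + c.re) := by
    rw [norm_mul, Complex.norm_exp, Real.exp_add, ← hLq, Real.exp_log hqpos]
  have hq1 : ‖D.q i * Complex.exp c‖ < 1 := by
    rw [hnq, Real.exp_lt_one_iff]
    linarith [le_abs_self c.re]
  have hD' : (D.setq i (D.q i * Complex.exp c)).Valid := PData.setq_valid hD hq0 hq1
  have hcont : Continuous fun t : ℝ => t + c.re * stepDown (-(L / 2) + 1 / 4) (L / 2 - 1 / 4) t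
      - c.re / 2 := by
    have := (contDiff_stepDown (-(L / 2) + 1 / 4) (L / 2 - 1 / 4)).continuous
    fun_prop
  have hmono : StrictMono fun t : ℝ => t + c.re * stepDown (-(L / 2) + 1 / 4) (L / 2 - 1 / 4) t
      - c.re / 2 := by
    refine strictMono_of_deriv_pos fun t => ?_
    have hd : DifferentiableAt ℝ (stepDown (-(L / 2) + 1 / 4) (L / 2 - 1 / 4)) t :=
      (contDiff_stepDown _ _).differentiable (by simp) t
    have h1 : HasDerivAt (fun t : ℝ => t + c.re * stepDown (-(L / 2) + 1 / 4) (L / 2 - 1 / 4) t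
        - c.re / 2) (1 + c.re * deriv (stepDown (-(L / 2) + 1 / 4) (L / 2 - 1 / 4)) t) t :=
      ((hasDerivAt_id t).add (hd.hasDerivAt.const_mul c.re)).sub_const _
    rw [h1.deriv]
    have h2 := hM (-(L / 2) + 1 / 4) (L / 2 - 1 / 4) t (by linarith)
    rw [hlen] at h2
    have hM0 : 0 < M := by linarith
    have h3 : M / (L - 1 / 2) ≤ M / (L / 2) := by
      apply div_le_div_of_nonneg_left hM0.le (by linarith) hlen2
    have h4 : |c.re * deriv (stepDown (-(L / 2) + 1 / 4) (L / 2 - 1 / 4)) t| ≤ 1 / 2 := by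
      rw [abs_mul]
      calc |c.re| * |deriv (stepDown (-(L / 2) + 1 / 4) (L / 2 - 1 / 4)) t|
          ≤ (1 / (4 * M) * L) * (M / (L / 2)) :=
            mul_le_mul (hre.trans hc3) (h2.trans h3) (abs_nonneg _) (by positivity)
        _ = 1 / 2 := by
            field_simp
            norm_num
    have h5 := (abs_le.1 h4).1
    linarith
  refine ⟨Z', ⟨hD', hper'.mem_siegel, X, i1, i2, i3, i4, T 1, u, v, P', hper', ?_⟩,
    hconn.mono hcost, ?_⟩
  · refine Pres.marked_of_one hD' fun k => ?_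
    obtain ⟨e', he'⟩ := P'.exists_handle hD' k
    refine ⟨e', he', (D.setq i (D.q i * Complex.exp c)).L k / 4, ?_, ?_, ?_⟩
    · have := he'.1.2.1
      linarith
    · have := he'.1.2.1
      linarith
    have hl' := he'.1.2.1
    by_cases hki : k = i
    · subst hki
      have hl := he.1.2.1
      have hsq : 0 < Real.sqrt ‖D.q k‖ := Real.sqrt_pos.2 hqpos
      have h5 : Real.sqrt ‖D.q k‖ = Real.exp (-L / 2) := by
        rw [← Real.exp_log hqpos, hLq, Real.sqrt_eq_rpow, ← Real.exp_mul]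
        congr 1
        ring
      have htc : c'.target = LAn (-(L / 2) + c.re) (L / 2) := by rw [htar', htar, him, one_mul]
      have hmemiff : ∀ z : ℂ, z ∈ (D.setq k (D.q k * Complex.exp c)).An k ↔
          z / (Real.sqrt ‖D.q k‖ : ℂ) ∈ c'.target := by
        intro z
        rw [htc]
        unfold PData.An LAn
        rw [R10_setq_q, hnq]
        simp only [mem_ofPred_eq, norm_div, Complex.norm_real, h5,
          Real.norm_of_nonneg (Real.exp_pos (-L / 2)).le]
        rw [lt_div_iff₀ (Real.exp_pos _), div_lt_iff₀ (Real.exp_pos _), ← Real.exp_add,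
          ← Real.exp_add]
        have e1 : -(L / 2) + c.re + -L / 2 = -L + c.re := by ring
        have e2 : L / 2 + -L / 2 = 0 := by ring
        rw [e1, e2, Real.exp_zero]
      have hmem : ∀ z ∈ (D.setq k (D.q k * Complex.exp c)).An k,
          z / (Real.sqrt ‖D.q k‖ : ℂ) ∈ c'.target := fun z hz => (hmemiff z).1 hz
      have hex : ∀ x ∈ c'.source, ∃ z ∈ (D.setq k (D.q k * Complex.exp c)).An k,
          z / (Real.sqrt ‖D.q k‖ : ℂ) = c' x := by
        intro x hx
        have hs0 : (Real.sqrt ‖D.q k‖ : ℂ) ≠ 0 := by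
          exact_mod_cast hsq.ne'
        refine ⟨c' x * (Real.sqrt ‖D.q k‖ : ℂ), ?_, ?_⟩
        · rw [hmemiff, mul_div_cancel_right₀ _ hs0]
          exact c'.map_source hx
        · rw [mul_div_cancel_right₀ _ hs0]
      have hcl := hmark k e he (D.L k / 4) (by linarith) (by linarith)
      refine hcl.trans (R10_same he.1 he'.1 ?_ (fun t => t + c.re * stepDown (-(L / 2) + 1 / 4)
        (L / 2 - 1 / 4) t - c.re / 2) ?_ ?_ ?_ (by linarith) (by linarith) (by linarith)
        (by linarith))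
      · rw [← hsrc, he'.source_eq hD']
        ext x
        constructor
        · rintro ⟨z, hz, rfl⟩
          rw [hPi z hz]
          exact c'.map_target (hmem z hz)
        · intro hx
          obtain ⟨z, hz, hzx⟩ := hex x hx
          refine ⟨z, hz, ?_⟩
          rw [hPi z hz, hzx, c'.left_inv hx]
      · exact hmono
      · exact hcont
      · intro x hx
        have hxc : x ∈ c'.source := by rw [hsrc]; exact hx
        obtain ⟨z, hz, hzx⟩ := hex x hxc
        have hx' : x = P'.ι k z := by rw [hPi z hz, hzx, c'.left_inv hxc]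
        have h1 : e' x = z / (Real.sqrt ‖(D.setq k (D.q k * Complex.exp c)).q k‖ : ℂ) := by
          rw [hx']
          exact he'.apply hD' hz
        rw [h1, norm_div, Complex.norm_real, Real.norm_of_nonneg (Real.sqrt_nonneg _)]
        have h2 : ‖z‖ / Real.sqrt ‖D.q k‖ = ‖c' x‖ := by
          rw [← hzx, norm_div, Complex.norm_real, Real.norm_of_nonneg (Real.sqrt_nonneg _)]
        have hsq : 0 < Real.sqrt ‖D.q k‖ := Real.sqrt_pos.2 hqpos
        have h3 : ‖z‖ = ‖c' x‖ * Real.sqrt ‖D.q k‖ := by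
          rw [← h2]
          field_simp
        have hex0 := R10_log_mem he.1 hx
        have h4 : ‖c' x‖ = Real.exp (Real.log ‖e x‖ + c.re * stepDown (-(L / 2) + 1 / 4)
            (L / 2 - 1 / 4) (Real.log ‖e x‖)) := by
          rw [hcx x hx, CcaPl.radMap, norm_mul, Complex.norm_exp, Real.exp_add,
            Real.exp_log hex0.1]
          congr 2
          simp
        rw [R10_setq_q, hnq, h3, h4]
        have h5 : Real.sqrt ‖D.q k‖ = Real.exp (-L / 2) := by
          rw [← Real.exp_log hqpos, hLq, Real.sqrt_eq_rpow, ← Real.exp_mul]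
          congr 1
          ring
        have h6 : Real.sqrt (Real.exp (-L + c.re)) = Real.exp ((-L + c.re) / 2) := by
          rw [Real.sqrt_eq_rpow, ← Real.exp_mul]
          congr 1
          ring
        rw [h5, h6, ← Real.exp_add, ← Real.exp_sub, Real.log_exp]
        ring
    · have hAn : (D.setq i (D.q i * Complex.exp c)).An k = D.An k := by
        unfold PData.An
        rw [R10_setq_q_ne D hki]
      obtain ⟨ek, hek⟩ := P.exists_handle hD k
      have hl := hek.1.2.1
      have hcl := hmark k ek hek (D.L k / 4) (by linarith) (by linarith)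
      refine hcl.trans (R10_same hek.1 he'.1 ?_ id strictMono_id continuous_id ?_
        (by linarith) (by linarith) (by linarith) (by linarith))
      · rw [he'.source_eq hD', hek.source_eq hD, hAn]
        exact image_congr fun z hz => hPk k hki z hz
      · intro x hx
        rw [hek.source_eq hD] at hx
        obtain ⟨z, hz, rfl⟩ := hx
        rw [hek.apply hD hz, ← hPk k hki z hz]
        have hz' : z ∈ (D.setq i (D.q i * Complex.exp c)).An k := by rw [hAn]; exact hz
        rw [he'.apply hD' hz', R10_setq_q_ne D hki]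
        rfl
  · exact R10_leq_mono hZ0 hper'.mem_siegel hleq hcost

end Pool.Agent.Lib.MP_cca10c_ag
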