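import Pool.Agent.Lib.MP_cca10c_ag.T08_Class

/-!
# Module R: the class of an annulus does not depend on the coordinate (stub R10a)

The annulus `e'` is the part `α < log ‖e x‖ < β` of the annulus `e`, with `log ‖e' x‖ = τ (log ‖e x‖)`, `τ`
strictly increasing. On `e.source` put `G t = stp a' (τ t)` for `α < t < β`, `0` for `t ≤ α`, `1` for
`t ≥ β` (continuous because `stp a'` is constant near the ends); then `betaC e' a' = G (log ‖e x‖)` mod `1` and
`betaC e a = stp a (log ‖e x‖)` mod `1`, and `f x = G (log ‖e x‖) - stp a (log ‖e x‖)` on `e.source`, `0` elsewhere,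
is continuous: it vanishes off a compact part `midA e t` of `e.source` (closed because `X` is `T2`).
-/

set_option autoImplicit false

open Topology Set Metric
open scoped ContDiff

namespace Pool.Agent.Lib.MP_cca10c_ag

variable {X : Type} [TopologicalSpace X] {S S' : CS X}

private theorem R10a_norm_pos {e : OpenPartialHomeomorph X ℂ} {l : ℝ} (he : IsAnn S e l) {x : X}
    (hx : x ∈ e.source) : 0 < ‖e x‖ := by
  have h := e.map_source hx
  rw [he.2.2] at h
  exact (Real.exp_pos (-l)).trans h.1

private theorem R10a_log_lt {e : OpenPartialHomeomorph X ℂ} {l : ℝ} (he : IsAnn S e l) {x : X}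
    (hx : x ∈ e.source) : -l < Real.log ‖e x‖ ∧ Real.log ‖e x‖ < l := by
  have h := e.map_source hx
  rw [he.2.2] at h
  have hp := R10a_norm_pos he hx
  exact ⟨(Real.lt_log_iff_exp_lt hp).2 h.1, (Real.log_lt_iff_lt_exp hp).2 h.2⟩

/-- the annulus contains a point at every logarithmic radius -/
private theorem R10a_exists {e : OpenPartialHomeomorph X ℂ} {l : ℝ} (he : IsAnn S e l) {t : ℝ}
    (h1 : -l < t) (h2 : t < l) : ∃ x ∈ e.source, Real.log ‖e x‖ = t := by
  have ht : ((Real.exp t : ℝ) : ℂ) ∈ e.target := by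
    rw [he.2.2]
    have : ‖((Real.exp t : ℝ) : ℂ)‖ = Real.exp t := by
      rw [Complex.norm_real, Real.norm_of_nonneg (Real.exp_pos t).le]
    show Real.exp (-l) < ‖((Real.exp t : ℝ) : ℂ)‖ ∧ ‖((Real.exp t : ℝ) : ℂ)‖ < Real.exp l
    rw [this]
    exact ⟨Real.exp_lt_exp.2 h1, Real.exp_lt_exp.2 h2⟩
  refine ⟨e.symm ((Real.exp t : ℝ) : ℂ), e.map_target ht, ?_⟩
  rw [e.right_inv ht, Complex.norm_real, Real.norm_of_nonneg (Real.exp_pos t).le, Real.log_exp]

private theorem R10a_betaC_off {e : OpenPartialHomeomorph X ℂ} {a : ℝ} {x : X}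
    (hx : x ∉ e.source) : betaC e a x = 0 := by
  unfold betaC phiE
  rw [if_neg hx]
  exact AddCircle.coe_zero 1

/-- the extended profile -/
private noncomputable def R10a_G (α β a' : ℝ) (τ : ℝ → ℝ) (t : ℝ) : ℝ :=
  if t ≤ α then 0 else if t < β then stp a' (τ t) else 1

theorem sameClass_beta [T2Space X] {e e' : OpenPartialHomeomorph X ℂ} {l l' : ℝ}
    (he : IsAnn S e l) (he' : IsAnn S' e' l') {α β : ℝ} (h1 : -l ≤ α) (h2 : α < β) (h3 : β ≤ l)
    (hs : e'.source = {x | x ∈ e.source ∧ α < Real.log ‖e x‖ ∧ Real.log ‖e x‖ < β}) (τ : ℝ → ℝ)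
    (hτ : StrictMonoOn τ (Ioo α β)) (hτc : ContinuousOn τ (Ioo α β))
    (hτe : ∀ x ∈ e'.source, Real.log ‖e' x‖ = τ (Real.log ‖e x‖)) {a a' : ℝ} (ha : 0 < a)
    (hal : a < l) (ha' : 0 < a') (hal' : a' < l') : SameClass (betaC e a) (betaC e' a') := by
  have hmem : ∀ {x : X}, x ∈ e'.source → x ∈ e.source ∧ α < Real.log ‖e x‖ ∧
      Real.log ‖e x‖ < β := by
    intro x hx
    rw [hs] at hx
    exact hx
  have hmem' : ∀ {x : X}, x ∈ e.source → α < Real.log ‖e x‖ → Real.log ‖e x‖ < β →
      x ∈ e'.source := by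
    intro x hx h h'
    rw [hs]
    exact ⟨hx, h, h'⟩
  -- the two transition points
  obtain ⟨x₁, hx₁, hx₁'⟩ := R10a_exists he' (t := -a') (by linarith) (by linarith)
  obtain ⟨x₂, hx₂, hx₂'⟩ := R10a_exists he' (t := a') (by linarith) (by linarith)
  set t₁ := Real.log ‖e x₁‖ with ht₁
  set t₂ := Real.log ‖e x₂‖ with ht₂
  obtain ⟨-, ht₁a, ht₁b⟩ := hmem hx₁
  obtain ⟨-, ht₂a, ht₂b⟩ := hmem hx₂
  rw [← ht₁] at ht₁a ht₁b
  rw [← ht₂] at ht₂a ht₂b
  have hτ₁ : τ t₁ = -a' := by rw [← hx₁', hτe x₁ hx₁]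
  have hτ₂ : τ t₂ = a' := by rw [← hx₂', hτe x₂ hx₂]
  set G := R10a_G α β a' τ with hG
  have hG0 : ∀ t, t ≤ t₁ → G t = 0 := by
    intro t ht
    simp only [hG, R10a_G]
    split_ifs with c1 c2
    · rfl
    · apply stp_zero ha'
      rw [← hτ₁]
      exact hτ.monotoneOn ⟨not_le.1 c1, c2⟩ ⟨ht₁a, ht₁b⟩ ht
    · exact absurd (lt_of_le_of_lt ht ht₁b) c2
  have hG1 : ∀ t, t₂ ≤ t → G t = 1 := by
    intro t ht
    simp only [hG, R10a_G]
    split_ifs with c1 c2
    · exact absurd (lt_of_lt_of_le ht₂a ht) (not_lt.2 c1)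
    · apply stp_one ha'
      rw [← hτ₂]
      exact hτ.monotoneOn ⟨ht₂a, ht₂b⟩ ⟨not_le.1 c1, c2⟩ ht
    · rfl
  have hGm : ∀ t, α < t → t < β → G t = stp a' (τ t) := by
    intro t c1 c2
    simp only [hG, R10a_G]
    rw [if_neg (not_le.2 c1), if_pos c2]
  have hGc : Continuous G := by
    rw [continuous_iff_continuousAt]
    intro t
    by_cases c1 : t < t₁
    · have : G =ᶠ[𝓝 t] fun _ => (0 : ℝ) := by
        filter_upwards [isOpen_Iio.mem_nhds c1] with s hs'
        exact hG0 s (le_of_lt hs')
      exact continuousAt_const.congr this.symm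
    by_cases c2 : t₂ < t
    · have : G =ᶠ[𝓝 t] fun _ => (1 : ℝ) := by
        filter_upwards [isOpen_Ioi.mem_nhds c2] with s hs'
        exact hG1 s (le_of_lt hs')
      exact continuousAt_const.congr this.symm
    push Not at c1 c2
    have c3 : t ∈ Ioo α β := ⟨lt_of_lt_of_le ht₁a c1, lt_of_le_of_lt c2 ht₂b⟩
    have h4 : ContinuousAt τ t := hτc.continuousAt (isOpen_Ioo.mem_nhds c3)
    have h5 : ContinuousAt (fun s => stp a' (τ s)) t :=
      ContinuousAt.comp (g := stp a') (stp_contDiff ha').continuous.continuousAt h4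
    refine h5.congr ?_
    filter_upwards [isOpen_Ioo.mem_nhds c3] with s hs'
    exact (hGm s hs'.1 hs'.2).symm
  classical
  refine ⟨fun x => if x ∈ e.source then G (Real.log ‖e x‖) - stp a (Real.log ‖e x‖) else 0,
    ?_, ?_⟩
  · rw [continuous_iff_continuousAt]
    intro x
    by_cases hx : x ∈ e.source
    · have hc : ContinuousAt (fun y => Real.log ‖e y‖) x :=
        ((e.continuousAt hx).norm).log (R10a_norm_pos he hx).ne'
      have hc1 : ContinuousAt (fun y => G (Real.log ‖e y‖)) x :=
        ContinuousAt.comp (g := G) hGc.continuousAt hc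
      have hc2 : ContinuousAt (fun y => stp a (Real.log ‖e y‖)) x :=
        ContinuousAt.comp (g := stp a) (stp_contDiff ha).continuous.continuousAt hc
      refine (hc1.sub hc2).congr ?_
      filter_upwards [e.open_source.mem_nhds hx] with y hy
      rw [if_pos hy]
      rfl
    · set t := max (max |t₁| |t₂|) a with ht
      have htl : t < l := by
        refine max_lt (max_lt ?_ ?_) hal
        · rw [abs_lt]
          constructor <;> linarith
        · rw [abs_lt]
          constructor <;> linarith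
      have hcl : IsClosed (midA e t) := (midA_compact he htl).isClosed
      have hxm : x ∉ midA e t := fun h => hx h.1
      have : (fun y => if y ∈ e.source then G (Real.log ‖e y‖) - stp a (Real.log ‖e y‖) else 0)
          =ᶠ[𝓝 x] fun _ => (0 : ℝ) := by
        filter_upwards [hcl.isOpen_compl.mem_nhds hxm] with y hy
        split_ifs with hys
        · have h6 : t < |Real.log ‖e y‖| := by
            by_contra hcon
            exact hy ⟨hys, not_lt.1 hcon⟩
          have h7 : |t₁| ≤ t := (le_max_left _ _).trans (le_max_left _ _)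
          have h8 : |t₂| ≤ t := (le_max_right _ _).trans (le_max_left _ _)
          have h9 : a ≤ t := le_max_right _ _
          rcases lt_abs.1 h6 with h | h
          · rw [hG1 _ (by linarith [le_abs_self t₂]), stp_one ha (by linarith), sub_self]
          · rw [hG0 _ (by linarith [neg_abs_le t₁]), stp_zero ha (by linarith), sub_self]
        · rfl
      exact continuousAt_const.congr this.symm
  · intro x
    by_cases hx : x ∈ e.source
    · simp only [if_pos hx]
      rw [betaC_eq hx, ← AddCircle.coe_add, add_sub_cancel]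
      by_cases c1 : α < Real.log ‖e x‖
      · by_cases c2 : Real.log ‖e x‖ < β
        · have hx' := hmem' hx c1 c2
          rw [betaC_eq hx', hτe x hx', hGm _ c1 c2]
        · have hx' : x ∉ e'.source := fun h => c2 (hmem h).2.2
          rw [R10a_betaC_off hx', hG1 _ (by linarith)]
          exact (AddCircle.coe_period 1).symm
      · have hx' : x ∉ e'.source := fun h => c1 (hmem h).2.1
        rw [R10a_betaC_off hx', hG0 _ (by linarith)]
        exact (AddCircle.coe_zero 1).symm
    · have hx' : x ∉ e'.source := fun h => hx (hmem h).1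
      rw [R10a_betaC_off hx, R10a_betaC_off hx']
      simp only [if_neg hx]
      rw [AddCircle.coe_zero, add_zero]

theorem SameClass.symm {w w' : X → UnitAddCircle} (h : SameClass w w') : SameClass w' w := by
  obtain ⟨f, hf, h⟩ := h
  exact ⟨fun x => - f x, hf.neg, fun x => by rw [h]; simp⟩

theorem SameClass.trans {w w' w'' : X → UnitAddCircle} (h : SameClass w w')
    (h' : SameClass w' w'') : SameClass w w'' := by
  obtain ⟨f, hf, h⟩ := h
  obtain ⟨k, hk, h'⟩ := h'
  refine ⟨fun x => f x + k x, hf.add hk, fun x => ?_⟩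
  rw [h', h, add_assoc, AddCircle.coe_add]

end Pool.Agent.Lib.MP_cca10c_ag
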