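import Pool.Agent.Lib.MP_cca10c_ag.R04_Pres
import Pool.Agent.Lib.MP_cca10c_ag.H24_Base

/-!
# Module R: surfaces with the same planar data are isomorphic (stub R11)

`Φ (P.ψ w) = P'.ψ w` is well defined and bijective by `fib` and `onto`. Continuity: `P.ψ` and `P'.ψ` are
continuous and open on `Om` (`Pres.isOpen_image`). Holomorphy: near a point `P.ψ w₀` with `w₀ ∈ Om` both
`P.ψ` and `P'.ψ` restricted to a small disc `U` around `w₀` are inverses of charts (`exists_chart'`; `ψ` is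
injective on a small disc by `fib`: two different points of `Om` with the same image lie in two different
foot discs `F (i,false)`, `F (i,true)`, and near a point of `Om` this is impossible: if `w₀` is in a foot disc
take `U` inside it, otherwise `w₀ ∈ Co ⊆ Pa a` for suitable `Cut` radii and `injOn_Pa` applies).
`St.samePt`: `IsIso.samePt`.
-/

set_option autoImplicit false

open Topology Set Metric
open scoped ContDiff

namespace Pool.Agent.Lib.MP_cca10c_ag

variable {X X' : Type} [TopologicalSpace X] [TopologicalSpace X'] {S : CS X} {S' : CS X'} {g : ℕ}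
  {D : PData g}

/-- `ψ` is locally injective -/
theorem Pres.exists_injOn (P : Pres S D) (hD : D.Valid) {w : ℂ} (hw : w ∈ D.Om) :
    ∃ U : Set ℂ, IsOpen U ∧ w ∈ U ∧ U ⊆ D.Om ∧ InjOn P.ψ U := by
  obtain ⟨a, ha, hwa⟩ := hD.exists_cut hw
  exact ⟨D.Pa a, hD.isOpen_Pa ha.lt, hwa, PData.Valid.Pa_sub_Om ha.le, P.injOn_Pa hD ha⟩

/-- the chosen preimage -/
private noncomputable def R11_w (P : Pres S D) (x : X) : ℂ := (P.onto x).choose

private theorem R11_w_mem (P : Pres S D) (x : X) : R11_w P x ∈ D.Om := (P.onto x).choose_spec.1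

private theorem R11_w_eq (P : Pres S D) (x : X) : P.ψ (R11_w P x) = x := (P.onto x).choose_spec.2

private noncomputable def R11_Φ (P : Pres S D) (P' : Pres S' D) (x : X) : X' := P'.ψ (R11_w P x)

private theorem R11_Φ_eq (P : Pres S D) (P' : Pres S' D) {w : ℂ} (hw : w ∈ D.Om) :
    R11_Φ P P' (P.ψ w) = P'.ψ w := by
  unfold R11_Φ
  rw [P'.fib _ (R11_w_mem P _) _ hw, ← P.fib _ (R11_w_mem P _) _ hw, R11_w_eq]

private theorem R11_inv (P : Pres S D) (P' : Pres S' D) (x : X) :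
    R11_Φ P' P (R11_Φ P P' x) = x := by
  obtain ⟨w, hw, rfl⟩ := P.onto x
  rw [R11_Φ_eq P P' hw, R11_Φ_eq P' P hw]

private theorem R11_cont (hD : D.Valid) (P : Pres S D) (P' : Pres S' D) :
    Continuous (R11_Φ P P') := by
  rw [continuous_def]
  intro V hV
  have h1 : R11_Φ P P' ⁻¹' V = P.ψ '' (D.Om ∩ P'.ψ ⁻¹' V) := by
    ext x
    constructor
    · intro hx
      refine ⟨R11_w P x, ⟨R11_w_mem P x, hx⟩, R11_w_eq P x⟩
    · rintro ⟨w, ⟨hw, hw'⟩, rfl⟩
      rw [mem_preimage, R11_Φ_eq P P' hw]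
      exact hw'
  rw [h1]
  exact P.isOpen_image hD (P'.hol.1.isOpen_inter_preimage hD.isOpen_Om hV) inter_subset_left

theorem Pres.exists_iso (hD : D.Valid) (P : Pres S D) (P' : Pres S' D) :
    ∃ Φ : X ≃ₜ X', IsIso S S' Φ ∧ ∀ w ∈ D.Om, Φ (P.ψ w) = P'.ψ w := by
  let Φ : X ≃ₜ X' :=
    { toFun := R11_Φ P P'
      invFun := R11_Φ P' P
      left_inv := R11_inv P P'
      right_inv := R11_inv P' P
      continuous_toFun := R11_cont hD P P'
      continuous_invFun := R11_cont hD P' P }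
  have hΦ : ∀ w ∈ D.Om, Φ (P.ψ w) = P'.ψ w := fun w hw => R11_Φ_eq P P' hw
  refine ⟨Φ, ?_, hΦ⟩
  intro e' he'
  apply CS.mem_of_hol
  intro x hx
  obtain ⟨w, hw, rfl⟩ := P.onto x
  obtain ⟨U, hU, hwU, hUO, hi⟩ := P.exists_injOn hD hw
  obtain ⟨e1, he1, ht, hs, hsy⟩ := P.exists_chart' hU hUO hi
  have hx1 : P.ψ w ∈ e1.source := by
    rw [hs]
    exact ⟨w, hwU, rfl⟩
  have hwt : w ∈ e1.target := by
    rw [ht]
    exact hwU
  have hex : e1 (P.ψ w) = w := by
    rw [← hsy w, e1.right_inv hwt]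
  rw [CS.holAt_iff he1 hx1, hex]
  have hxs : Φ (P.ψ w) ∈ e'.source := by
    simpa using hx
  rw [hΦ w hw] at hxs
  have ho : IsOpen (D.Om ∩ P'.ψ ⁻¹' e'.source) :=
    P'.hol.1.isOpen_inter_preimage hD.isOpen_Om e'.open_source
  have ho2 : IsOpen ((D.Om ∩ P'.ψ ⁻¹' e'.source) ∩ U) := ho.inter hU
  filter_upwards [ho2.mem_nhds ⟨⟨hw, hxs⟩, hwU⟩] with z hz
  have h1 : DifferentiableAt ℂ (e' ∘ P'.ψ) z :=
    (P'.hol.2 e' he' z hz.1).differentiableAt (ho.mem_nhds hz.1)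
  refine h1.congr_of_eventuallyEq ?_
  filter_upwards [ho2.mem_nhds hz] with y hy
  have h2 : Φ (P.ψ y) = P'.ψ y := hΦ y hy.1.1
  show e' (Φ (e1.symm y)) = e' (P'.ψ y)
  rw [hsy y, h2]

theorem St.samePt {b b' : Fin g → Fin g ⊕ Fin g → ℤ} {Z Z' : Matrix (Fin g) (Fin g) ℂ}
    (h : St D b Z) (h' : St D b' Z') : SamePt Z Z' := by
  obtain ⟨hD, -, X, tX, cX, -, t2X, S, u, v, P, hP, -⟩ := h
  obtain ⟨-, -, X', tX', cX', -, t2X', S', u', v', P', hP', -⟩ := h'
  obtain ⟨Φ, hΦ, -⟩ := P.exists_iso hD P'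
  exact hΦ.samePt hP hP'

end Pool.Agent.Lib.MP_cca10c_ag
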