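import Pool.Agent.Lib.MP_cca10c_ag.R08_MvFam
import Pool.Agent.Lib.MP_cca10c_ag.K06_Restr

/-!
# Module R: annuli in the planar part and their classes (stub R12)

`D.PAnn T a r R`: the round annulus `r < ‖w - a‖ < R` separates the foot discs in `T` (inside) from the other ones.
Class of the annulus (`PAnnChart.annTop`): on `X` take the real function `Φ`: on `ψ '' Co` it is `stp (log ‖e x‖)` on the annulus, `0` inside, `1`
outside; on the handle `i` it is `G (i,true) + (G (i,false) - G (i,true)) * stp (log ‖e_i x‖)` with `G j = 0` for `j ∈ T`, `1` for `j ∉ T`, `e_i` the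
handle chart. `Φ` is continuous (near the ends of the handles it is constant) and `Φ = betaC e + ∑ (G (i,false) - G (i,true)) betaC e_i` mod `1`, so
`betaC e ~ ∑ (G (i,true) - G (i,false)) b i = clsT T b`. It is enough to treat one pair of profiles, the general one follows as in T08
(the classes for different profiles agree, `Pres.marked_of_one`, T08).
-/

set_option autoImplicit false

open Topology Set Metric
open scoped ContDiff

namespace Pool.Agent.Lib.MP_cca10c_ag

variable {g : ℕ}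

/-- the round annulus `r < ‖w - a‖ < R` separates the feet in `T` from the other ones -/
structure PData.PAnn (D : PData g) (T : Finset (Fin g × Bool)) (a : ℂ) (r R : ℝ) : Prop where
  r0 : 0 < r
  lt : r < R
  ins : ∀ j ∈ T, D.disc j 1 ⊆ closedBall a r
  out : ∀ j ∉ T, Disjoint (D.disc j 1) (ball a R)

/-- coefficient of the handle `i` in the class of the cluster `T` -/
def coefT (T : Finset (Fin g × Bool)) (i : Fin g) : ℤ :=
  (if (i, false) ∈ T then 1 else 0) - (if (i, true) ∈ T then 1 else 0)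

/-- the class of the cluster `T` -/
def clsT (T : Finset (Fin g × Bool)) (b : Fin g → Fin g ⊕ Fin g → ℤ) : Fin g ⊕ Fin g → ℤ :=
  ∑ i, coefT T i • b i

theorem PData.PAnn.sub_Co {D : PData g} {T : Finset (Fin g × Bool)} {a : ℂ} {r R : ℝ} (h : D.PAnn T a r R) {w : ℂ}
    (h1 : r < ‖w - a‖) (h2 : ‖w - a‖ < R) : w ∈ D.Co := by
  intro j hj
  by_cases hT : j ∈ T
  · have h3 := h.ins j hT hj
    rw [mem_closedBall, dist_eq_norm] at h3
    exact absurd h3 (not_le.2 h1)
  · refine Set.disjoint_left.1 (h.out j hT) hj ?_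
    rw [mem_ball, dist_eq_norm]
    exact h2

theorem PData.PAnn.inf_not_mem {D : PData g} (hD : D.Valid) {T : Finset (Fin g × Bool)} {a : ℂ} {r R : ℝ} (h : D.PAnn T a r R) :
    D.inf ∉ T := by
  intro hT
  have h1 := h.ins _ hT
  have hr := h.r0
  have h2 : ContinuousAt (D.f D.inf) 0 :=
    ((hD.diff D.inf).differentiableAt (isOpen_ball.mem_nhds (mem_ball_self one_pos))).continuousAt
  have h3 : Filter.Tendsto (D.f D.inf) (𝓝 0) (𝓝 0) := by
    have := h2.tendsto
    rwa [hD.zero] at this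
  have hε : (0 : ℝ) < 1 / (‖a‖ + r + 1) := by positivity
  have h4 : ∀ᶠ z in 𝓝 (0 : ℂ), ‖D.f D.inf z‖ < 1 / (‖a‖ + r + 1) := by
    have := h3.eventually (ball_mem_nhds (0 : ℂ) hε)
    filter_upwards [this] with z hz
    rwa [dist_zero_right] at hz
  have h5 : ∀ᶠ z in 𝓝 (0 : ℂ), ‖z‖ < 1 := by
    filter_upwards [ball_mem_nhds (0 : ℂ) one_pos] with z hz
    rwa [mem_ball_zero_iff] at hz
  obtain ⟨z, ⟨hz1, hz2⟩, hz0⟩ : ∃ z : ℂ, (‖D.f D.inf z‖ < 1 / (‖a‖ + r + 1) ∧ ‖z‖ < 1) ∧ z ≠ 0 := by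
    have h6 : ∀ᶠ z in 𝓝[≠] (0 : ℂ), (‖D.f D.inf z‖ < 1 / (‖a‖ + r + 1) ∧ ‖z‖ < 1) ∧ z ≠ 0 :=
      ((h4.and h5).filter_mono nhdsWithin_le_nhds).and self_mem_nhdsWithin
    exact h6.exists
  have hne : D.f D.inf z ≠ 0 := hD.f_inf_ne hz0 hz2
  have h7 : D.F D.inf z ∈ closedBall a r := h1 ⟨z, ⟨fun _ => hz0, hz2⟩, rfl⟩
  rw [PData.F_inf, mem_closedBall, dist_eq_norm] at h7
  have h8 : ‖(D.f D.inf z)⁻¹‖ ≤ ‖a‖ + r := by
    have : ‖(D.f D.inf z)⁻¹‖ ≤ ‖(D.f D.inf z)⁻¹ - a‖ + ‖a‖ := by
      have := norm_add_le ((D.f D.inf z)⁻¹ - a) a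
      rwa [sub_add_cancel] at this
    linarith
  rw [norm_inv] at h8
  have h9 : ‖a‖ + r + 1 < ‖D.f D.inf z‖⁻¹ := by
    rw [lt_inv_comm₀ (by positivity) (norm_pos_iff.2 hne), ← one_div]
    exact hz1
  linarith

section

variable {X : Type} [TopologicalSpace X] {S : CS X} {D : PData g}

/-- the chart of the round annulus `r < ‖w - a‖ < R` -/
def PAnnChart (P : Pres S D) (a : ℂ) (r R : ℝ) (e : OpenPartialHomeomorph X ℂ) : Prop :=
  IsAnn S e (Real.log (R / r) / 2) ∧ ∀ ζ ∈ e.target, e.symm ζ = P.ψ (a + (Real.sqrt (r * R) : ℂ) * ζ)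

private theorem R12_log {r R t : ℝ} (hr : 0 < r) (hR : 0 < R) (ht : 0 < t) :
    Real.log (t / Real.sqrt (r * R)) = Real.log t - (Real.log r + Real.log R) / 2 := by
  rw [Real.log_div ht.ne' (Real.sqrt_pos.2 (mul_pos hr hR)).ne', Real.log_sqrt (mul_pos hr hR).le,
    Real.log_mul hr.ne' hR.ne']

private theorem R12_half {r R : ℝ} (hr : 0 < r) (hR : 0 < R) :
    Real.log (R / r) / 2 = (Real.log R - Real.log r) / 2 := by
  rw [Real.log_div hR.ne' hr.ne']

/-- the annulus in the normalised coordinate -/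
private theorem R12_iff {r R : ℝ} (hr : 0 < r) (hR : 0 < R) {w a : ℂ} (hw : w ≠ a) :
    (Real.exp (-(Real.log (R / r) / 2)) < ‖(w - a) / (Real.sqrt (r * R) : ℂ)‖ ∧
      ‖(w - a) / (Real.sqrt (r * R) : ℂ)‖ < Real.exp (Real.log (R / r) / 2)) ↔
      (r < ‖w - a‖ ∧ ‖w - a‖ < R) := by
  have hs : 0 < Real.sqrt (r * R) := Real.sqrt_pos.2 (mul_pos hr hR)
  have hw0 : 0 < ‖w - a‖ := norm_pos_iff.2 (sub_ne_zero.2 hw)
  have h1 : ‖(w - a) / (Real.sqrt (r * R) : ℂ)‖ = ‖w - a‖ / Real.sqrt (r * R) := by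
    rw [norm_div, Complex.norm_real, Real.norm_of_nonneg hs.le]
  have h2 : 0 < ‖w - a‖ / Real.sqrt (r * R) := div_pos hw0 hs
  rw [h1, ← Real.lt_log_iff_exp_lt h2, ← Real.log_lt_iff_lt_exp h2, R12_log hr hR hw0,
    R12_half hr hR, ← Real.log_lt_log_iff hr hw0, ← Real.log_lt_log_iff hw0 hR]
  constructor
  · rintro ⟨h3, h4⟩
    constructor <;> linarith
  · rintro ⟨h3, h4⟩
    constructor <;> linarith

private theorem R12_injCo (P : Pres S D) (hD : D.Valid) : InjOn P.ψ D.Co :=
  (P.injOn_Pa hD hD.cut_sqrt).mono (PData.Valid.Co_sub_Pa hD.cut_sqrt.lt)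

theorem exists_PAnnChart (P : Pres S D) (hD : D.Valid) {T : Finset (Fin g × Bool)} {a : ℂ} {r R : ℝ} (h : D.PAnn T a r R) :
    ∃ e, PAnnChart P a r R e := by
  have hr := h.r0
  have hR : 0 < R := hr.trans h.lt
  have hs : 0 < Real.sqrt (r * R) := Real.sqrt_pos.2 (mul_pos hr hR)
  have hsc : (Real.sqrt (r * R) : ℂ) ≠ 0 := by exact_mod_cast hs.ne'
  set l : ℝ := Real.log (R / r) / 2 with hl
  have hl0 : 0 < l := by
    rw [hl, R12_half hr hR]
    have := Real.log_lt_log hr h.lt
    linarith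
  set V : Set ℂ := {ζ | Real.exp (-l) < ‖ζ‖ ∧ ‖ζ‖ < Real.exp l} with hV
  have hVo : IsOpen V := (isOpen_lt continuous_const continuous_norm).inter
    (isOpen_lt continuous_norm continuous_const)
  have hm : ∀ ζ ∈ V, a + (Real.sqrt (r * R) : ℂ) * ζ ∈ D.Co := by
    intro ζ hζ
    have hζ0 : ζ ≠ 0 := by
      rintro rfl
      have h3 := hζ.1
      rw [norm_zero] at h3
      exact absurd h3 (not_lt.2 (Real.exp_pos _).le)
    have h1 : a + (Real.sqrt (r * R) : ℂ) * ζ ≠ a := by
      intro h2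
      have h3 : (Real.sqrt (r * R) : ℂ) * ζ = 0 := by simpa using h2
      exact (mul_ne_zero hsc hζ0) h3
    have h2 : (a + (Real.sqrt (r * R) : ℂ) * ζ - a) / (Real.sqrt (r * R) : ℂ) = ζ := by
      rw [add_sub_cancel_left, mul_div_cancel_left₀ _ hsc]
    have h3 := (R12_iff hr hR h1).1 (by rw [h2]; exact hζ)
    exact h.sub_Co h3.1 h3.2
  have hhol : S.HolOn (P.ψ ∘ fun ζ => a + (Real.sqrt (r * R) : ℂ) * ζ) V := by
    refine P.hol.comp hVo hD.isOpen_Om ?_ ?_
    · exact ((differentiable_const _).add ((differentiable_const _).mul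
        differentiable_id)).differentiableOn
    · intro ζ hζ
      exact hD.Co_sub_Om (hm ζ hζ)
  have hinj : InjOn (P.ψ ∘ fun ζ => a + (Real.sqrt (r * R) : ℂ) * ζ) V := by
    intro ζ hζ ζ' hζ' he
    have h1 := R12_injCo P hD (hm ζ hζ) (hm ζ' hζ') he
    exact mul_left_cancel₀ hsc (add_left_cancel h1)
  obtain ⟨e, he, ht, -, hsymm⟩ := hhol.exists_chart hVo hinj
  exact ⟨e, ⟨he, hl0, ht⟩, fun ζ _ => hsymm ζ⟩

/-- points of the annulus in the chart -/
theorem PAnnChart.mem {P : Pres S D} (hD : D.Valid) {T : Finset (Fin g × Bool)} {a : ℂ} {r R : ℝ} (h : D.PAnn T a r R)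
    {e : OpenPartialHomeomorph X ℂ} (he : PAnnChart P a r R e) {w : ℂ} (h1 : r < ‖w - a‖) (h2 : ‖w - a‖ < R) :
    P.ψ w ∈ e.source ∧ e (P.ψ w) = (w - a) / (Real.sqrt (r * R) : ℂ) := by
  have _ := hD
  have hr := h.r0
  have hR : 0 < R := hr.trans h.lt
  have hs : 0 < Real.sqrt (r * R) := Real.sqrt_pos.2 (mul_pos hr hR)
  have hsc : (Real.sqrt (r * R) : ℂ) ≠ 0 := by exact_mod_cast hs.ne'
  have hwa : w ≠ a := by
    rintro rfl
    rw [sub_self, norm_zero] at h1
    exact absurd h1 (not_lt.2 hr.le)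
  have h3 : (w - a) / (Real.sqrt (r * R) : ℂ) ∈ e.target := by
    rw [he.1.2.2]
    exact (R12_iff hr hR hwa).2 ⟨h1, h2⟩
  have h4 := he.2 _ h3
  rw [mul_div_cancel₀ _ hsc, add_sub_cancel] at h4
  constructor
  · rw [← h4]
    exact e.map_target h3
  · rw [← h4, e.right_inv h3]

/-- the points of the chart come from the plane annulus -/
private theorem R12_source {P : Pres S D} {a : ℂ} {r R : ℝ} (hr : 0 < r) (hR : 0 < R)
    {e : OpenPartialHomeomorph X ℂ} (he : PAnnChart P a r R e) {x : X} (hx : x ∈ e.source) :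
    ∃ w, r < ‖w - a‖ ∧ ‖w - a‖ < R ∧ P.ψ w = x := by
  have hs : 0 < Real.sqrt (r * R) := Real.sqrt_pos.2 (mul_pos hr hR)
  have hsc : (Real.sqrt (r * R) : ℂ) ≠ 0 := by exact_mod_cast hs.ne'
  have h1 := e.map_source hx
  have h2 := he.2 _ h1
  rw [e.left_inv hx] at h2
  have hζ := h1
  rw [he.1.2.2] at hζ
  have hζ0 : e x ≠ 0 := by
    intro h0
    have h3 := hζ.1
    rw [h0, norm_zero] at h3
    exact absurd h3 (not_lt.2 (Real.exp_pos _).le)
  have h3 : a + (Real.sqrt (r * R) : ℂ) * e x ≠ a := by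
    intro h2
    have h3 : (Real.sqrt (r * R) : ℂ) * e x = 0 := by simpa using h2
    exact (mul_ne_zero hsc hζ0) h3
  have h4 : (a + (Real.sqrt (r * R) : ℂ) * e x - a) / (Real.sqrt (r * R) : ℂ) = e x := by
    rw [add_sub_cancel_left, mul_div_cancel_left₀ _ hsc]
  have h5 := (R12_iff hr hR h3).1 (by rw [h4]; exact hζ)
  exact ⟨_, h5.1, h5.2, h2.symm⟩

/-- the radial step function of the plane -/
private noncomputable def R12_F0 (a : ℂ) (r s a' : ℝ) (w : ℂ) : ℝ :=
  stp a' (Real.log (max ‖w - a‖ r / s))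

private theorem R12_F0_cont {a : ℂ} {r s a' : ℝ} (hr : 0 < r) (hs : 0 < s) (ha' : 0 < a') :
    Continuous (R12_F0 a r s a') := by
  unfold R12_F0
  refine (stp_contDiff ha').continuous.comp ?_
  refine Continuous.log ?_ ?_
  · exact ((continuous_id.sub continuous_const).norm.max continuous_const).div_const _
  · intro w
    have : 0 < max ‖w - a‖ r := lt_max_of_lt_right hr
    exact (div_pos this hs).ne'

private theorem R12_F0_zero {a : ℂ} {r R a' : ℝ} (hr : 0 < r) (hR : 0 < R) (ha' : 0 < a')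
    (hal : a' < Real.log (R / r) / 2) {w : ℂ} (hw : ‖w - a‖ ≤ r) :
    R12_F0 a r (Real.sqrt (r * R)) a' w = 0 := by
  unfold R12_F0
  rw [max_eq_right hw, R12_log hr hR hr]
  rw [R12_half hr hR] at hal
  exact stp_zero ha' (by linarith)

private theorem R12_F0_one {a : ℂ} {r R a' : ℝ} (hr : 0 < r) (hrR : r < R) (ha' : 0 < a')
    (hal : a' < Real.log (R / r) / 2) {w : ℂ} (hw : R ≤ ‖w - a‖) :
    R12_F0 a r (Real.sqrt (r * R)) a' w = 1 := by
  have hR : 0 < R := hr.trans hrR
  unfold R12_F0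
  rw [max_eq_left (hrR.le.trans hw), R12_log hr hR (hR.trans_le hw)]
  rw [R12_half hr hR] at hal
  have := Real.log_le_log hR hw
  exact stp_one ha' (by linarith)

private noncomputable def R12_G (T : Finset (Fin g × Bool)) (j : Fin g × Bool) : ℝ :=
  if j ∈ T then 0 else 1

private theorem R12_coef (T : Finset (Fin g × Bool)) (i : Fin g) :
    R12_G T (i, true) - (coefT T i : ℝ) = R12_G T (i, false) := by
  unfold R12_G coefT
  push_cast
  split_ifs <;> norm_num

/-- the step function on the foot discs -/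
private theorem R12_F0_foot {T : Finset (Fin g × Bool)} {a : ℂ} {r R a' : ℝ}
    (h : D.PAnn T a r R) (ha' : 0 < a') (hal : a' < Real.log (R / r) / 2) {j : Fin g × Bool} {z : ℂ}
    (hz : z ∈ D.Dj j 1) : R12_F0 a r (Real.sqrt (r * R)) a' (D.F j z) = R12_G T j := by
  have hr := h.r0
  have hmem : D.F j z ∈ D.disc j 1 := ⟨z, hz, rfl⟩
  unfold R12_G
  split_ifs with hT
  · have h3 := h.ins j hT hmem
    rw [mem_closedBall, dist_eq_norm] at h3
    exact R12_F0_zero hr (hr.trans h.lt) ha' hal h3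
  · have h3 := Set.disjoint_left.1 (h.out j hT) hmem
    rw [mem_ball, dist_eq_norm, not_lt] at h3
    exact R12_F0_one hr h.lt ha' hal h3

private theorem R12_L (hD : D.Valid) (i : Fin g) : 0 < D.L i := by
  unfold PData.L
  have h1 := Real.log_neg (norm_pos_iff.2 (hD.q0 i)) (hD.q1 i)
  linarith

private theorem R12_q (hD : D.Valid) (i : Fin g) : ‖D.q i‖ = Real.exp (-D.L i) := by
  unfold PData.L
  rw [neg_neg, Real.exp_log (norm_pos_iff.2 (hD.q0 i))]

private theorem R12_cut (hD : D.Valid) : D.Cut (fun j => Real.exp (-(D.L j.1 / 4))) where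
  le j := by
    have := R12_L hD j.1
    rw [R12_q hD]
    exact Real.exp_le_exp.2 (by linarith)
  lt j := by
    have := R12_L hD j.1
    rw [Real.exp_lt_one_iff]
    linarith
  mul i := by
    have := R12_L hD i
    rw [R12_q hD, ← Real.exp_add]
    exact Real.exp_le_exp.2 (by linarith)

private theorem R12_zero {e : OpenPartialHomeomorph X ℂ} {a : ℝ} {x : X} (hx : x ∉ e.source) :
    betaC e a x = 0 := by
  unfold betaC phiE
  rw [if_neg hx]
  simp

private theorem R12_comb {u v : Fin g → X → UnitAddCircle} {b : Fin g → Fin g ⊕ Fin g → ℤ}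
    (n : Fin g → ℤ) (x : X) : comb u v (∑ i, n i • b i) x = ∑ i, n i • comb u v (b i) x := by
  unfold comb
  simp only [Finset.sum_apply, Pi.smul_apply, smul_eq_mul, Finset.sum_smul, smul_add,
    Finset.smul_sum, mul_smul, Finset.sum_add_distrib]
  congr 1
  · rw [Finset.sum_comm]
  · rw [Finset.sum_comm]

theorem PAnnChart.annTop [T2Space X] {P : Pres S D} (hD : D.Valid) {T : Finset (Fin g × Bool)} {a : ℂ} {r R : ℝ}
    (h : D.PAnn T a r R) {e : OpenPartialHomeomorph X ℂ} (he : PAnnChart P a r R e) {u v : Fin g → X → UnitAddCircle}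
    {b : Fin g → Fin g ⊕ Fin g → ℤ} (hb : P.Marked u v b) : AnnTop u v e (Real.log (R / r) / 2) (clsT T b) := by
  classical
  intro a' ha' hal'
  have hr := h.r0
  have hR : 0 < R := hr.trans h.lt
  have hs : 0 < Real.sqrt (r * R) := Real.sqrt_pos.2 (mul_pos hr hR)
  choose E hE using fun i => P.exists_handle hD i
  have hEs : ∀ i, (E i).source = P.ι i '' D.An i := fun i => (hE i).source_eq hD
  have hL := R12_L hD
  set al : Fin g → ℝ := fun i => D.L i / 4 with hal
  have hal0 : ∀ i, 0 < al i := fun i => by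
    have := hL i
    rw [hal]
    simp only
    linarith
  have hal1 : ∀ i, al i < D.L i / 2 := fun i => by
    have := hL i
    rw [hal]
    simp only
    linarith
  have hcls : ∀ i, SameClass (comb u v (b i)) (betaC (E i) (al i)) := fun i =>
    hb i (E i) (hE i) (al i) (hal0 i) (hal1 i)
  choose f hf hfe using hcls
  -- the real function on the handles
  set H : Fin g → X → ℝ := fun i x =>
    R12_G T (i, true) - (coefT T i : ℝ) * stp (al i) (Real.log ‖E i x‖) with hH
  -- disjointness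
  have hdis : ∀ i k x, x ∈ (E i).source → x ∈ (E k).source → i = k := by
    intro i k x hx hx'
    rw [hEs] at hx hx'
    obtain ⟨z, hz, rfl⟩ := hx
    obtain ⟨z', hz', he'⟩ := hx'
    by_contra hne
    exact P.ι_ne_ι hD hne hz hz' he'.symm
  have hCo : ∀ w ∈ D.Co, ∀ i, P.ψ w ∉ (E i).source := by
    intro w hw i hx
    rw [hEs] at hx
    obtain ⟨z, hz, he'⟩ := hx
    exact P.ι_ne_Co hD hz hw he'
  set Φ : X → ℝ := fun x => if hx : ∃ i, x ∈ (E i).source then H hx.choose x
    else if hx : ∃ w ∈ D.Co, P.ψ w = x then R12_F0 a r (Real.sqrt (r * R)) a' hx.choose else 0 with hΦ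
  have hΦh : ∀ i, ∀ x ∈ (E i).source, Φ x = H i x := by
    intro i x hx
    have hex : ∃ i, x ∈ (E i).source := ⟨i, hx⟩
    have h1 : hex.choose = i := hdis _ _ x hex.choose_spec hx
    rw [hΦ]
    simp only
    rw [dif_pos hex, h1]
  have hΦc : ∀ w ∈ D.Co, Φ (P.ψ w) = R12_F0 a r (Real.sqrt (r * R)) a' w := by
    intro w hw
    have hnex : ¬ ∃ i, P.ψ w ∈ (E i).source := by
      rintro ⟨i, hi⟩
      exact hCo w hw i hi
    have hex : ∃ w' ∈ D.Co, P.ψ w' = P.ψ w := ⟨w, hw, rfl⟩
    have h1 : hex.choose = w := R12_injCo P hD hex.choose_spec.1 hw hex.choose_spec.2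
    rw [hΦ]
    simp only
    rw [dif_neg hnex, dif_pos hex, h1]
  -- logarithm of the norm in the handle chart
  have hlog : ∀ i, ∀ z ∈ D.An i, Real.log ‖E i (P.ι i z)‖ = Real.log ‖z‖ + D.L i / 2 := by
    intro i z hz
    have hz0 : 0 < ‖z‖ := (norm_nonneg _).trans_lt hz.1
    have hq : 0 < ‖D.q i‖ := norm_pos_iff.2 (hD.q0 i)
    rw [(hE i).apply hD hz, norm_div, Complex.norm_real,
      Real.norm_of_nonneg (Real.sqrt_nonneg _), Real.log_div hz0.ne' (Real.sqrt_pos.2 hq).ne',
      Real.log_sqrt hq.le]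
    unfold PData.L
    ring
  -- on the larger planar piece
  have hΦp : ∀ w ∈ D.Pa (fun j => Real.exp (-(D.L j.1 / 4))),
      Φ (P.ψ w) = R12_F0 a r (Real.sqrt (r * R)) a' w := by
    intro w hw
    rcases PData.cases_Co (D := D) w with h1 | ⟨⟨i, s⟩, z, hz, rfl⟩
    · exact hΦc w h1
    · have h2 : Real.exp (-(D.L i / 4)) < ‖z‖ := (hD.F_mem_Pa (R12_cut hD).lt hz).1 hw
      have hz0 : 0 < ‖z‖ := (Real.exp_pos _).trans h2
      have hzA : z ∈ D.An i := ⟨((R12_cut hD).le (i, s)).trans_lt h2, hz.2⟩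
      have h3 : -(D.L i / 4) < Real.log ‖z‖ := (Real.lt_log_iff_exp_lt hz0).2 h2
      rw [R12_F0_foot h ha' hal' hz]
      cases s with
      | false =>
        have hx : P.ψ (D.F (i, false) z) ∈ (E i).source := by
          rw [hEs]
          exact ⟨z, hzA, rfl⟩
        rw [hΦh i _ hx, hH]
        simp only
        have h4 := hlog i z hzA
        have h5 : Real.log ‖E i (P.ψ (D.F (i, false) z))‖ = Real.log ‖z‖ + D.L i / 2 := h4
        rw [h5, stp_one (hal0 i), mul_one, R12_coef]
        rw [hal]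
        simp only
        linarith
      | true =>
        have hq : 0 < ‖D.q i‖ := norm_pos_iff.2 (hD.q0 i)
        have hzA' : D.q i / z ∈ D.An i := by
          constructor
          · rw [norm_div, lt_div_iff₀ hz0]
            exact mul_lt_of_lt_one_right hq hzA.2
          · rw [norm_div, div_lt_one hz0]
            exact hzA.1
        have hdj : D.q i / z ∈ D.Dj (i, false) 1 :=
          ⟨PData.at_of_ne_zero (norm_pos_iff.1 ((norm_nonneg _).trans_lt hzA'.1)), hzA'.2⟩
        have hψ : P.ψ (D.F (i, true) z) = P.ι i (D.q i / z) := by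
          show _ = P.ψ (D.F (i, false) (D.q i / z))
          rw [P.fib _ ((hD.F_mem_Om hz).2 hzA.1) _ ((hD.F_mem_Om hdj).2 hzA'.1)]
          refine Or.inr (Or.inr ⟨i, D.q i / z, hzA'.1, hzA'.2, rfl, ?_⟩)
          rw [div_div_cancel₀ (hD.q0 i)]
        have hx : P.ι i (D.q i / z) ∈ (E i).source := by
          rw [hEs]
          exact ⟨_, hzA', rfl⟩
        rw [hψ, hΦh i _ hx, hH]
        simp only
        rw [hlog i _ hzA', norm_div, Real.log_div hq.ne' hz0.ne']
        have h6 : Real.log ‖D.q i‖ = -D.L i := by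
          unfold PData.L
          ring
        rw [h6, stp_zero (hal0 i), mul_zero, sub_zero]
        rw [hal]
        simp only
        linarith
  -- continuity
  have hcont : Continuous Φ := by
    rw [continuous_iff_continuousAt]
    intro x
    rcases P.cases hD x with ⟨w, hw, rfl⟩ | ⟨i, z, hz, rfl⟩
    · obtain ⟨e0, he0, ht0, hs0, hsy0⟩ := P.exists_chart hD (R12_cut hD)
      have hwp : w ∈ D.Pa (fun j => Real.exp (-(D.L j.1 / 4))) :=
        PData.Valid.Co_sub_Pa (R12_cut hD).lt hw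
      have hx : P.ψ w ∈ e0.source := by
        rw [hs0]
        exact ⟨w, hwp, rfl⟩
      have h1 : ContinuousAt (fun y => R12_F0 a r (Real.sqrt (r * R)) a' (e0 y)) (P.ψ w) :=
        ContinuousAt.comp (g := R12_F0 a r (Real.sqrt (r * R)) a') (f := e0)
          (R12_F0_cont hr hs ha').continuousAt (e0.continuousAt hx)
      refine h1.congr ?_
      filter_upwards [e0.open_source.mem_nhds hx] with y hy
      have h2 : e0 y ∈ D.Pa (fun j => Real.exp (-(D.L j.1 / 4))) := by
        rw [← ht0]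
        exact e0.map_source hy
      have h3 := hΦp _ h2
      rw [← hsy0, e0.left_inv hy] at h3
      exact h3.symm
    · have hx : P.ι i z ∈ (E i).source := by
        rw [hEs]
        exact ⟨z, hz, rfl⟩
      have hpos : 0 < ‖E i (P.ι i z)‖ := by
        have h1 := (E i).map_source hx
        rw [(hE i).1.2.2] at h1
        exact (Real.exp_pos _).trans h1.1
      have h1 : ContinuousAt (fun y => Real.log ‖E i y‖) (P.ι i z) :=
        (((E i).continuousAt hx).norm).log hpos.ne'
      have h2 : ContinuousAt (H i) (P.ι i z) := by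
        rw [hH]
        refine continuousAt_const.sub (continuousAt_const.mul ?_)
        exact ContinuousAt.comp (g := stp (al i)) (f := fun y => Real.log ‖E i y‖)
          (stp_contDiff (hal0 i)).continuous.continuousAt h1
      refine h2.congr ?_
      filter_upwards [(E i).open_source.mem_nhds hx] with y hy
      exact (hΦh i y hy).symm
  have hone : (((1 : ℝ) : ℝ) : UnitAddCircle) = 0 := AddCircle.coe_period 1
  -- the identity modulo 1
  have hmod : ∀ x, betaC e a' x = ∑ i, coefT T i • betaC (E i) (al i) x + (Φ x : UnitAddCircle) := by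
    intro x
    rcases P.cases hD x with ⟨w, hw, rfl⟩ | ⟨i, z, hz, rfl⟩
    · have h1 : ∑ i, coefT T i • betaC (E i) (al i) (P.ψ w) = 0 := by
        refine Finset.sum_eq_zero fun i _ => ?_
        rw [R12_zero (hCo w hw i), smul_zero]
      rw [h1, zero_add, hΦc w hw]
      by_cases h2 : r < ‖w - a‖ ∧ ‖w - a‖ < R
      · obtain ⟨h3, h4⟩ := PAnnChart.mem hD h he h2.1 h2.2
        rw [betaC_eq h3, h4, norm_div, Complex.norm_real, Real.norm_of_nonneg hs.le]
        unfold R12_F0
        rw [max_eq_left h2.1.le]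
      · have h3 : P.ψ w ∉ e.source := by
          intro hx
          obtain ⟨w', hw1, hw2, hw3⟩ := R12_source hr hR he hx
          have h4 := R12_injCo P hD (h.sub_Co hw1 hw2) hw hw3
          subst h4
          exact h2 ⟨hw1, hw2⟩
        rw [R12_zero h3]
        by_cases h4 : ‖w - a‖ ≤ r
        · rw [R12_F0_zero hr hR ha' hal' h4]
          simp
        · have h5 : R ≤ ‖w - a‖ := by
            by_contra hcon
            exact h2 ⟨not_le.1 h4, not_le.1 hcon⟩
          rw [R12_F0_one hr h.lt ha' hal' h5, hone]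
    · have hx : P.ι i z ∈ (E i).source := by
        rw [hEs]
        exact ⟨z, hz, rfl⟩
      have h1 : P.ι i z ∉ e.source := by
        intro hx'
        obtain ⟨w', hw1, hw2, hw3⟩ := R12_source hr hR he hx'
        exact P.ι_ne_Co hD hz (h.sub_Co hw1 hw2) hw3.symm
      have h2 : ∑ k, coefT T k • betaC (E k) (al k) (P.ι i z) =
          coefT T i • betaC (E i) (al i) (P.ι i z) := by
        refine Finset.sum_eq_single i (fun k _ hk => ?_) (fun hi => absurd (Finset.mem_univ i) hi)
        have h3 : P.ι i z ∉ (E k).source := fun h3 => hk (hdis _ _ _ h3 hx)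
        rw [R12_zero h3, smul_zero]
      rw [R12_zero h1, h2, hΦh i _ hx, betaC_eq hx, hH]
      simp only
      have h3 : ((R12_G T (i, true) : ℝ) : UnitAddCircle) = 0 := by
        unfold R12_G
        split_ifs
        · simp
        · exact hone
      rw [AddCircle.coe_sub, h3]
      have h4 : (((coefT T i : ℝ) * stp (al i) (Real.log ‖E i (P.ι i z)‖) : ℝ) : UnitAddCircle) =
          coefT T i • ((stp (al i) (Real.log ‖E i (P.ι i z)‖) : ℝ) : UnitAddCircle) := by
        rw [← AddCircle.coe_zsmul, zsmul_eq_mul]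
      rw [h4]
      abel
  refine ⟨fun x => ∑ i, (coefT T i : ℝ) * f i x + Φ x, ?_, ?_⟩
  · exact (continuous_finsetSum _ fun i _ => continuous_const.mul (hf i)).add hcont
  · intro x
    rw [hmod x, clsT, R12_comb, AddCircle.coe_add, ← add_assoc]
    congr 1
    have h1 : ((∑ i, (coefT T i : ℝ) * f i x : ℝ) : UnitAddCircle) =
        ∑ i, coefT T i • ((f i x : ℝ) : UnitAddCircle) := by
      have h2 : ∀ s : Finset (Fin g), ((∑ i ∈ s, (coefT T i : ℝ) * f i x : ℝ) : UnitAddCircle) =
          ∑ i ∈ s, coefT T i • ((f i x : ℝ) : UnitAddCircle) := by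
        intro s
        induction s using Finset.induction_on with
        | empty => simp
        | insert k s hk ih =>
          rw [Finset.sum_insert hk, Finset.sum_insert hk, AddCircle.coe_add, ih,
            ← AddCircle.coe_zsmul, zsmul_eq_mul]
      exact h2 _
    rw [h1, ← Finset.sum_add_distrib]
    refine Finset.sum_congr rfl fun i _ => ?_
    rw [hfe i x, smul_add]

end

end Pool.Agent.Lib.MP_cca10c_ag
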