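import Pool.Agent.Lib.MP_cca10c_ag.T03_Prod
import Pool.Agent.Lib.MP_cca10c_ag.Pl.AnnEnergy
import Pool.Agent.Lib.MP_cca10c_ag.H04x_ChartInt

/-!
# Module T: exponential decay in an annulus of a harmonic form without period and flux
-/

set_option autoImplicit false

open Topology Set MeasureTheory
open scoped ContDiff

namespace Pool.Agent.Lib.MP_cca10c_ag

/-- Cauchy's formula and `res_sq_le`: the value at the centre is bounded by the energy of a ring -/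
private theorem T04_center {k : ℂ → ℂ} {ζ : ℂ} {r : ℝ} (hr : 0 < r) {U : Set ℂ}
    (hk : DifferentiableOn ℂ k U) (hb : Metric.ball ζ (2 * r) ⊆ U)
    (hi : IntegrableOn (fun z => ‖k z‖ ^ 2) (Metric.ball ζ (2 * r))) :
    r ^ 2 * (2 * Real.pi * ‖k ζ‖ ^ 2 * Real.log 2) ≤ CcaPl.en k (Metric.ball ζ (2 * r)) := by
  have hannsub : CcaPl.ann ζ r (2 * r) ⊆ Metric.ball ζ (2 * r) := by
    intro z hz
    rw [Metric.mem_ball, dist_eq_norm]
    exact hz.2
  have hannmeas : MeasurableSet (CcaPl.ann ζ r (2 * r)) := by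
    have h1 : IsOpen (CcaPl.ann ζ r (2 * r)) := by
      have h1 : CcaPl.ann ζ r (2 * r) = {z : ℂ | r < ‖z - ζ‖} ∩ {z | ‖z - ζ‖ < 2 * r} := rfl
      rw [h1]
      exact (isOpen_lt continuous_const (by fun_prop)).inter
        (isOpen_lt (by fun_prop) continuous_const)
    exact h1.measurableSet
  set φ : ℂ → ℂ := fun z => (z - ζ)⁻¹ * k z with hφdef
  have hne : ∀ z ∈ CcaPl.ann ζ r (2 * r), z - ζ ≠ 0 := by
    intro z hz h0
    have := hz.1
    rw [h0, norm_zero] at this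
    linarith
  have hφ : DifferentiableOn ℂ φ (CcaPl.ann ζ r (2 * r)) := by
    refine DifferentiableOn.mul ?_ (hk.mono (hannsub.trans hb))
    exact DifferentiableOn.inv (by fun_prop) hne
  have hle : ∀ z ∈ CcaPl.ann ζ r (2 * r), ‖φ z‖ ^ 2 ≤ (r ^ 2)⁻¹ * ‖k z‖ ^ 2 := by
    intro z hz
    rw [hφdef]
    simp only
    rw [norm_mul, norm_inv, mul_pow, inv_pow]
    refine mul_le_mul_of_nonneg_right ?_ (sq_nonneg _)
    have h1 : r ^ 2 ≤ ‖z - ζ‖ ^ 2 := pow_le_pow_left₀ hr.le hz.1.le 2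
    exact inv_anti₀ (by positivity) h1
  have hiann : IntegrableOn (fun z => ‖k z‖ ^ 2) (CcaPl.ann ζ r (2 * r)) := hi.mono_set hannsub
  have hiφ : IntegrableOn (fun z => ‖φ z‖ ^ 2) (CcaPl.ann ζ r (2 * r)) := by
    refine Integrable.mono' (hiann.const_mul ((r ^ 2)⁻¹)) ?_ ?_
    · exact ((hφ.continuousOn.norm.pow 2).aestronglyMeasurable hannmeas)
    · refine (ae_restrict_iff' hannmeas).2 (Filter.Eventually.of_forall fun z hz => ?_)
      rw [Real.norm_eq_abs, abs_of_nonneg (sq_nonneg _)]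
      exact hle z hz
  have hres := CcaPl.res_sq_le (φ := φ) (c := ζ) (r := r) (R := 2 * r) (ρ := 3 / 2 * r) hr hφ
    (by linarith) (by linarith) hiφ
  have hcauchy : CcaPl.res φ ζ (3 / 2 * r) = k ζ := by
    unfold CcaPl.res
    have hsub : Metric.closedBall ζ (3 / 2 * r) ⊆ U := by
      refine Subset.trans ?_ hb
      exact Metric.closedBall_subset_ball (by linarith)
    have h1 := (hk.mono hsub).circleIntegral_sub_inv_smul
      (w := ζ) (Metric.mem_ball_self (by linarith))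
    simp only [smul_eq_mul] at h1
    rw [hφdef, h1, ← mul_assoc, inv_mul_cancel₀, one_mul]
    simp [Real.pi_ne_zero, Complex.I_ne_zero]
  rw [hcauchy] at hres
  have hlog : Real.log (2 * r / r) = Real.log 2 := by
    congr 1
    field_simp
  rw [hlog] at hres
  have hen : CcaPl.en φ (CcaPl.ann ζ r (2 * r)) ≤
      (r ^ 2)⁻¹ * CcaPl.en k (Metric.ball ζ (2 * r)) := by
    unfold CcaPl.en
    calc ∫ z in CcaPl.ann ζ r (2 * r), ‖φ z‖ ^ 2
        ≤ ∫ z in CcaPl.ann ζ r (2 * r), (r ^ 2)⁻¹ * ‖k z‖ ^ 2 :=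
          setIntegral_mono_on hiφ (hiann.const_mul _) hannmeas hle
      _ = (r ^ 2)⁻¹ * ∫ z in CcaPl.ann ζ r (2 * r), ‖k z‖ ^ 2 := by
          rw [integral_const_mul]
      _ ≤ (r ^ 2)⁻¹ * ∫ z in Metric.ball ζ (2 * r), ‖k z‖ ^ 2 := by
          refine mul_le_mul_of_nonneg_left ?_ (by positivity)
          exact setIntegral_mono_set hi (Filter.Eventually.of_forall fun z => by positivity)
            hannsub.eventuallyLE
  have h2 := hres.trans hen
  have hr2 : 0 < r ^ 2 := by positivity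
  calc r ^ 2 * (2 * Real.pi * ‖k ζ‖ ^ 2 * Real.log 2)
      ≤ r ^ 2 * ((r ^ 2)⁻¹ * CcaPl.en k (Metric.ball ζ (2 * r))) :=
        mul_le_mul_of_nonneg_left h2 hr2.le
    _ = CcaPl.en k (Metric.ball ζ (2 * r)) := by
        rw [← mul_assoc, mul_inv_cancel₀ hr2.ne', one_mul]

/-- `|k ζ|²` is at most the mean of `|k|²` over a disc of radius `|ζ| / 4`; use `en_middle` on
`ρ1 = |ζ| / 2`, `ρ2 = 2 |ζ|` -/
theorem dec_plane : ∃ C : ℝ, 0 < C ∧ ∀ (k : ℂ → ℂ) (l : ℝ), 1 ≤ l →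
    DifferentiableOn ℂ k (CcaPl.ann 0 (Real.exp (-l)) (Real.exp l)) →
    IntegrableOn (fun z => ‖k z‖ ^ 2) (CcaPl.ann 0 (Real.exp (-l)) (Real.exp l)) →
    CcaPl.res k 0 1 = 0 → ∀ ζ : ℂ, ζ ≠ 0 → |Real.log ‖ζ‖| ≤ l - 1 →
      ‖ζ * k ζ‖ ≤ C * Real.sqrt (CcaPl.en k (CcaPl.ann 0 (Real.exp (-l)) (Real.exp l))) *
        Real.exp (-(l - |Real.log ‖ζ‖|)) := by
  refine ⟨8, by norm_num, ?_⟩
  intro k l hl hk hi hres ζ hζ hlog
  set A : Set ℂ := CcaPl.ann 0 (Real.exp (-l)) (Real.exp l) with hA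
  set ρ : ℝ := ‖ζ‖ with hρ
  have hρ0 : 0 < ρ := norm_pos_iff.2 hζ
  have hexpρ : ρ = Real.exp (Real.log ρ) := (Real.exp_log hρ0).symm
  set t : ℝ := |Real.log ρ| with ht
  have ht0 : 0 ≤ t := abs_nonneg _
  have he2 : (2 : ℝ) ≤ Real.exp 1 := by
    have := Real.add_one_le_exp (1 : ℝ)
    linarith
  have hρle : ρ ≤ Real.exp t := by
    rw [hexpρ]
    exact Real.exp_le_exp.2 (le_abs_self _)
  have hρge : Real.exp (-t) ≤ ρ := by
    rw [hexpρ]
    exact Real.exp_le_exp.2 (neg_abs_le _)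
  have h2ρ : 2 * ρ ≤ Real.exp l := by
    calc 2 * ρ ≤ Real.exp 1 * Real.exp t := mul_le_mul he2 hρle hρ0.le (by positivity)
      _ = Real.exp (1 + t) := by rw [Real.exp_add]
      _ ≤ Real.exp l := Real.exp_le_exp.2 (by linarith)
  have hρ2 : Real.exp (-l) ≤ ρ / 2 := by
    have h1 : 2 * Real.exp (-l) ≤ ρ := by
      calc 2 * Real.exp (-l) ≤ Real.exp 1 * Real.exp (-l) :=
            mul_le_mul_of_nonneg_right he2 (Real.exp_pos _).le
        _ = Real.exp (1 + -l) := by rw [Real.exp_add]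
        _ ≤ Real.exp (-t) := Real.exp_le_exp.2 (by linarith)
        _ ≤ ρ := hρge
    linarith
  -- the ball in the middle annulus
  have hballsub : Metric.ball ζ (2 * (ρ / 4)) ⊆ CcaPl.ann 0 (ρ / 2) (2 * ρ) := by
    intro z hz
    rw [Metric.mem_ball, dist_eq_norm] at hz
    have h1 : ‖z‖ ≤ ‖ζ‖ + ‖z - ζ‖ := by
      have := norm_add_le ζ (z - ζ)
      rwa [add_sub_cancel] at this
    have h2 : ‖ζ‖ ≤ ‖z‖ + ‖z - ζ‖ := by
      have := norm_sub_le z (z - ζ)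
      rwa [sub_sub_cancel] at this
    refine ⟨?_, ?_⟩
    · rw [sub_zero]; linarith
    · rw [sub_zero]; linarith
  have hmidsub : CcaPl.ann 0 (ρ / 2) (2 * ρ) ⊆ A := by
    intro z hz
    exact ⟨hρ2.trans_lt hz.1, hz.2.trans_le h2ρ⟩
  have hc := T04_center (k := k) (ζ := ζ) (r := ρ / 4) (by positivity) hk
    (hballsub.trans hmidsub) (hi.mono_set (hballsub.trans hmidsub))
  have hen1 : CcaPl.en k (Metric.ball ζ (2 * (ρ / 4))) ≤
      CcaPl.en k (CcaPl.ann 0 (ρ / 2) (2 * ρ)) := by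
    unfold CcaPl.en
    exact setIntegral_mono_set (hi.mono_set hmidsub)
      (Filter.Eventually.of_forall fun z => by positivity) hballsub.eventuallyLE
  have hmid := CcaPl.en_middle (φ := k) (c := 0) (r := Real.exp (-l)) (R := Real.exp l) (ρ := 1)
    (ρ1 := ρ / 2) (ρ2 := 2 * ρ) (Real.exp_pos _) hk
    (by rw [Real.exp_lt_one_iff]; linarith) (by rw [Real.one_lt_exp_iff]; linarith) hi hρ2
    (by linarith) h2ρ (by rw [← Real.exp_add]; exact Real.exp_le_exp.2 (by linarith))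
  rw [hres, norm_zero] at hmid
  set En : ℝ := CcaPl.en k A with hEn
  have hEn0 : 0 ≤ En := integral_nonneg fun z => by positivity
  set δ : ℝ := Real.exp (-(l - t)) with hδ
  have hδ0 : 0 < δ := Real.exp_pos _
  have hb1 : (2 * ρ / Real.exp l) ^ 2 ≤ 4 * δ ^ 2 := by
    have h1 : ρ / Real.exp l ≤ δ := by
      rw [div_le_iff₀ (Real.exp_pos _), hδ, ← Real.exp_add]
      calc ρ ≤ Real.exp t := hρle
        _ ≤ _ := Real.exp_le_exp.2 (by linarith)
    have h2 : 2 * ρ / Real.exp l = 2 * (ρ / Real.exp l) := by ring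
    have h3 : 0 ≤ ρ / Real.exp l := by positivity
    rw [h2, mul_pow]
    have := pow_le_pow_left₀ h3 h1 2
    linarith
  have hb2 : (Real.exp (-l) / (ρ / 2)) ^ 2 ≤ 4 * δ ^ 2 := by
    have h1 : Real.exp (-l) / ρ ≤ δ := by
      rw [div_le_iff₀ hρ0]
      calc Real.exp (-l) = δ * Real.exp (-t) := by
            rw [hδ, ← Real.exp_add]; congr 1; ring
        _ ≤ δ * ρ := mul_le_mul_of_nonneg_left hρge hδ0.le
    have h2 : Real.exp (-l) / (ρ / 2) = 2 * (Real.exp (-l) / ρ) := by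
      field_simp
    have h3 : 0 ≤ Real.exp (-l) / ρ := by positivity
    rw [h2, mul_pow]
    have := pow_le_pow_left₀ h3 h1 2
    linarith
  have hmid2 : CcaPl.en k (CcaPl.ann 0 (ρ / 2) (2 * ρ)) ≤ 16 * δ ^ 2 * En := by
    have h1 : 2 * ((2 * ρ / Real.exp l) ^ 2 + (Real.exp (-l) / (ρ / 2)) ^ 2) * En ≤
        16 * δ ^ 2 * En := mul_le_mul_of_nonneg_right (by linarith) hEn0
    have h2 : 2 * Real.pi * 0 ^ 2 * Real.log (2 * ρ / (ρ / 2)) = 0 := by ring
    linarith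
  have hlog2 : (1 / 2 : ℝ) ≤ Real.log 2 := by
    have := Real.log_two_gt_d9
    linarith
  have hpi : (3 : ℝ) ≤ Real.pi := Real.pi_gt_three.le
  have hkey : ρ ^ 2 * ‖k ζ‖ ^ 2 ≤ 64 * δ ^ 2 * En := by
    have h1 : (ρ / 4) ^ 2 * (2 * Real.pi * ‖k ζ‖ ^ 2 * Real.log 2) ≤ 16 * δ ^ 2 * En :=
      hc.trans (hen1.trans hmid2)
    have h2 : (ρ / 4) ^ 2 * (2 * Real.pi * ‖k ζ‖ ^ 2 * Real.log 2) =
        (ρ ^ 2 * ‖k ζ‖ ^ 2) * (Real.pi * Real.log 2 / 8) := by ring
    have h3 : (1 / 4 : ℝ) ≤ Real.pi * Real.log 2 / 8 := by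
      have hp' := Real.pi_gt_d2
      have hl' := Real.log_two_gt_d9
      have : (3.14 : ℝ) * 0.69 ≤ Real.pi * Real.log 2 :=
        mul_le_mul hp'.le (by linarith) (by norm_num) Real.pi_pos.le
      linarith
    have h4 : (ρ ^ 2 * ‖k ζ‖ ^ 2) * (1 / 4) ≤ (ρ ^ 2 * ‖k ζ‖ ^ 2) * (Real.pi * Real.log 2 / 8) :=
      mul_le_mul_of_nonneg_left h3 (by positivity)
    rw [h2] at h1
    linarith
  have hfin : ‖ζ * k ζ‖ ^ 2 ≤ (8 * Real.sqrt En * δ) ^ 2 := by
    rw [norm_mul, mul_pow, mul_pow, mul_pow, Real.sq_sqrt hEn0]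
    calc ρ ^ 2 * ‖k ζ‖ ^ 2 ≤ 64 * δ ^ 2 * En := hkey
      _ = 8 ^ 2 * En * δ ^ 2 := by ring
  exact le_of_sq_le_sq hfin (by positivity)

/-- the same on the surface; `MemLp` holds automatically for harmonic forms on a compact surface -/
theorem dec_surf : ∃ C : ℝ, 0 < C ∧ ∀ (X : Type) [TopologicalSpace X] [CompactSpace X] [T2Space X]
    [MeasurableSpace X] [BorelSpace X] (S : CS X) (F : Frame S), F.Tame →
    ∀ (e : OpenPartialHomeomorph X ℂ) (l a : ℝ), IsAnn S e l → 1 ≤ l → 0 < a → a < l →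
    ∀ α : X → ℂ, F.Hol α → F.ip α (F.be e a) = 0 → ∀ ζ : ℂ, ζ ≠ 0 → |Real.log ‖ζ‖| ≤ l - 1 →
      ‖ζ * F.co e α ζ‖ ≤ C * Real.sqrt (F.en univ α) * Real.exp (-(l - |Real.log ‖ζ‖|)) := by
  obtain ⟨C, hC, hdec⟩ := dec_plane
  refine ⟨C, hC, ?_⟩
  intro X _ _ _ _ _ S F hF e l a he hl ha hal α hα hip ζ hζ hlog
  have htarget : e.target = CcaPl.ann 0 (Real.exp (-l)) (Real.exp l) := by
    rw [he.2.2]
    ext z
    simp [CcaPl.ann]
  have hco : DifferentiableOn ℂ (F.co e α) (CcaPl.ann 0 (Real.exp (-l)) (Real.exp l)) := by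
    rw [← htarget]
    have := hα e he.1
    simpa using this
  have hint : IntegrableOn (fun z => ‖F.co e α z‖ ^ 2)
      (CcaPl.ann 0 (Real.exp (-l)) (Real.exp l)) := by
    rw [← htarget, ← F.integrableOn_sq_chart he.1 (F.measurable_of_hol hα)]
    exact (F.integrable_sq_of_hol hF hα).integrableOn
  have hres : CcaPl.res (F.co e α) 0 1 = 0 := by
    have hHolIn : F.HolIn e.source α := fun e' he' => (hα e' he').mono
      (inter_subset_inter_right _ (preimage_mono (subset_univ _)))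
    have h1 := ip_be F hF he ha hal hHolIn
    rw [hip] at h1
    have h2 : (2 * Real.pi : ℂ) ≠ 0 := by
      simp [Real.pi_ne_zero]
    rcases mul_eq_zero.1 h1.symm with h3 | h3
    · exact absurd h3 h2
    · exact h3
  have hmain := hdec (F.co e α) l hl hco hint hres ζ hζ hlog
  refine hmain.trans ?_
  have hen : CcaPl.en (F.co e α) (CcaPl.ann 0 (Real.exp (-l)) (Real.exp l)) ≤ F.en univ α := by
    rw [← htarget]
    exact F.en_chart_le_h hF he.1 hα
  refine mul_le_mul_of_nonneg_right ?_ (Real.exp_pos _).le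
  exact mul_le_mul_of_nonneg_left (Real.sqrt_le_sqrt hen) hC.le

end Pool.Agent.Lib.MP_cca10c_ag
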