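import Pool.Agent.Lib.MP_cca10c_ag.R12_PAnn
import Pool.Agent.Lib.MP_cca10c_ag.T04_Dec
import Pool.Agent.Lib.MP_cca10c_ag.H23_Period

/-!
# Module R: energies of the classes of handles and clusters, energy in the middle of an annulus (stub R13)

`St.en_handle`, `St.en_ann`: `be_en` (T03) with `a` half of the half length, `AnnTop.annCls`, `IsPeriod.quad_le`.
`en_mid_ann`: `Frame.en_chart` (T03a), `CcaPl.en_middle` with `ρ1 = exp (t1 - 1/2)`, `ρ2 = exp (t2 + 1/2)`; the residue is `ip α be / 2π` (T03 `ip_be`) and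
`|ip α be|² = |ip harm α|² ≤ en harm * en α = En Z m * en α` (`Frame.ip_harm`, `IsPeriod.quad`, Cauchy-Schwarz in `L²`).
-/

set_option autoImplicit false

open Topology Set Metric MeasureTheory
open scoped ContDiff

namespace Pool.Agent.Lib.MP_cca10c_ag

theorem ann_en : ∃ C : ℝ, 0 < C ∧ ∀ (X : Type) [TopologicalSpace X] [CompactSpace X] [T2Space X] (S : CS X) (g : ℕ)
    (u v : Fin g → X → UnitAddCircle) (Z : Matrix (Fin g) (Fin g) ℂ), IsPeriod S u v Z →
    ∀ (e : OpenPartialHomeomorph X ℂ) (l : ℝ) (m : Fin g ⊕ Fin g → ℤ), IsAnn S e l → AnnTop u v e l m → En Z m ≤ C / l := by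
  obtain ⟨C, hC, h⟩ := be_en
  refine ⟨2 * C, by positivity, ?_⟩
  intro X _ _ _ S g u v Z hZ e l b he hb
  let _ : MeasurableSpace X := borel X
  have _ : BorelSpace X := ⟨rfl⟩
  obtain ⟨F, hF⟩ := S.exists_tame
  have hl := he.2.1
  have h1 := h X S F hF e l (l / 2) he (half_pos hl) (half_lt_self hl)
  have h2 := hZ.quad_le hF (hb.annCls F hF hZ.1 he _ (half_pos hl) (half_lt_self hl))
  unfold En
  refine h2.trans (h1.trans_eq ?_)
  field_simp

theorem St.en_handle : ∃ C : ℝ, 0 < C ∧ ∀ (g : ℕ) (D : PData g) (b : Fin g → Fin g ⊕ Fin g → ℤ) (Z : Matrix (Fin g) (Fin g) ℂ),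
    St D b Z → ∀ i, En Z (b i) ≤ C / D.L i := by
  obtain ⟨C, hC, h⟩ := ann_en
  refine ⟨2 * C, by positivity, ?_⟩
  intro g D b Z hst i
  obtain ⟨hD, -, X, _, _, _, _, S, u, v, P, hper, hmk⟩ := hst
  obtain ⟨e, he⟩ := P.exists_handle hD i
  refine (h X S g u v Z hper e (D.L i / 2) (b i) he.1 (hmk i e he)).trans_eq ?_
  have hl := he.1.2.1
  have hl2 : D.L i ≠ 0 := by
    intro h0
    rw [h0] at hl
    norm_num at hl
  field_simp

theorem St.en_ann : ∃ C : ℝ, 0 < C ∧ ∀ (g : ℕ) (D : PData g) (b : Fin g → Fin g ⊕ Fin g → ℤ) (Z : Matrix (Fin g) (Fin g) ℂ),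
    St D b Z → ∀ (T : Finset (Fin g × Bool)) (a : ℂ) (r R : ℝ), D.PAnn T a r R →
      En Z (clsT T b) ≤ C / Real.log (R / r) := by
  obtain ⟨C, hC, h⟩ := ann_en
  refine ⟨2 * C, by positivity, ?_⟩
  intro g D b Z hst T a r R hT
  obtain ⟨hD, -, X, _, _, _, _, S, u, v, P, hper, hmk⟩ := hst
  obtain ⟨e, he⟩ := exists_PAnnChart P hD hT
  refine (h X S g u v Z hper e _ _ he.1 (PAnnChart.annTop hD hT he hmk)).trans_eq ?_
  have hl := he.1.2.1
  have hl2 : Real.log (R / r) ≠ 0 := by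
    intro h0
    rw [h0] at hl
    norm_num at hl
  field_simp

theorem en_mid_ann : ∃ C : ℝ, 0 < C ∧ ∀ (X : Type) [TopologicalSpace X] [CompactSpace X] [T2Space X] [MeasurableSpace X]
    [BorelSpace X] (S : CS X) (F : Frame S), F.Tame → ∀ (g : ℕ)
    (u v : Fin g → X → UnitAddCircle) (Z : Matrix (Fin g) (Fin g) ℂ), IsPeriod S u v Z →
    ∀ (e : OpenPartialHomeomorph X ℂ) (l : ℝ) (m : Fin g ⊕ Fin g → ℤ), IsAnn S e l → AnnTop u v e l m →
    ∀ (t1 t2 x : ℝ), 1 ≤ x → -l + x ≤ t1 → t1 ≤ t2 → t2 ≤ l - x → t2 - t1 ≤ 3 → ∀ α : X → ℂ, F.Hol α →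
      F.en {p | p ∈ e.source ∧ t1 ≤ Real.log ‖e p‖ ∧ Real.log ‖e p‖ ≤ t2} α ≤
        C * (En Z m + Real.exp (-(2 * x))) * F.en univ α := by
  refine ⟨4 * Real.exp 1, by positivity, ?_⟩
  intro X _ _ _ _ _ S F hF g u v Z hper e l m he hm t1 t2 x hx h1 h2 h3 h4 α hα
  have hl := he.2.1
  have htarget : e.target = CcaPl.ann 0 (Real.exp (-l)) (Real.exp l) := by
    rw [he.2.2]
    ext z
    simp [CcaPl.ann]
  have hco : DifferentiableOn ℂ (F.co e α) (CcaPl.ann 0 (Real.exp (-l)) (Real.exp l)) := by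
    rw [← htarget]
    have := hα e he.1
    simpa using this
  have hint : IntegrableOn (fun z => ‖F.co e α z‖ ^ 2)
      (CcaPl.ann 0 (Real.exp (-l)) (Real.exp l)) := by
    rw [← htarget, ← F.integrableOn_sq_chart he.1 (F.measurable_of_hol hα)]
    exact (F.integrable_sq_of_hol hF hα).integrableOn
  have hen : CcaPl.en (F.co e α) (CcaPl.ann 0 (Real.exp (-l)) (Real.exp l)) ≤ F.en univ α := by
    rw [← htarget]
    exact F.en_chart_le_h hF he.1 hα
  have hE0 : 0 ≤ F.en univ α := Frame.en_nonneg _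
  have hcl := hm.annCls F hF hper.1 he _ (half_pos hl) (half_lt_self hl)
  -- the residue
  have hHolIn : F.HolIn e.source α := fun e' he' => (hα e' he').mono
    (inter_subset_inter_right _ (preimage_mono (subset_univ _)))
  have hip := ip_be F hF he (half_pos hl) (half_lt_self hl) hHolIn
  have hip2 : F.ip (F.be e (l / 2)) α = F.ip (F.harm u v (zV m)) α :=
    Frame.ip_harm hper.1 hF hcl hα
  have hn : ‖F.ip α (F.be e (l / 2))‖ ^ 2 ≤ En Z m * F.en univ α := by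
    rw [Frame.ip_conj_symm (a := F.be e (l / 2)) (b := α), RCLike.norm_conj, hip2]
    unfold En
    rw [hper.quad hF]
    exact Frame.norm_ip_le ((Frame.hol_harm hper.1 hF (zV m)).closed.memLp hF)
      (hα.closed.memLp hF)
  have hres : (2 * Real.pi) ^ 2 * ‖CcaPl.res (F.co e α) 0 1‖ ^ 2 ≤ En Z m * F.en univ α := by
    rw [hip] at hn
    have h5 : ‖(2 * Real.pi : ℂ) * CcaPl.res (F.co e α) 0 1‖ =
        2 * Real.pi * ‖CcaPl.res (F.co e α) 0 1‖ := by
      rw [norm_mul, norm_mul, Complex.norm_real, Complex.norm_two, Real.norm_of_nonneg Real.pi_pos.le]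
    rw [h5, mul_pow] at hn
    exact hn
  have hEn0 : 0 ≤ En Z m := by
    unfold En
    rw [hper.quad hF]
    exact Frame.en_nonneg _
  -- the plane estimate
  have hmid := CcaPl.en_middle (φ := F.co e α) (c := 0) (ρ := 1) (ρ1 := Real.exp (t1 - 1 / 2))
    (ρ2 := Real.exp (t2 + 1 / 2)) (Real.exp_pos _) hco
    (Real.exp_lt_one_iff.2 (by linarith)) (Real.one_lt_exp_iff.2 hl) hint
    (Real.exp_le_exp.2 (by linarith)) (Real.exp_le_exp.2 (by linarith))
    (Real.exp_le_exp.2 (by linarith))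
    (by rw [← Real.exp_add]; exact Real.exp_le_exp.2 (by linarith))
  -- the set
  have hopen : IsOpen (e.source ∩ e ⁻¹' (CcaPl.ann 0 (Real.exp (t1 - 1 / 2)) (Real.exp (t2 + 1 / 2)))) := by
    refine e.isOpen_inter_preimage ?_
    unfold CcaPl.ann
    simp only [sub_zero]
    exact (isOpen_lt continuous_const continuous_norm).inter (isOpen_lt continuous_norm continuous_const)
  have hsub : {p | p ∈ e.source ∧ t1 ≤ Real.log ‖e p‖ ∧ Real.log ‖e p‖ ≤ t2} ⊆
      e.source ∩ e ⁻¹' (CcaPl.ann 0 (Real.exp (t1 - 1 / 2)) (Real.exp (t2 + 1 / 2))) := by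
    rintro p ⟨hp, hp1, hp2⟩
    have hpt := e.map_source hp
    rw [he.2.2] at hpt
    have hp0 : 0 < ‖e p‖ := (Real.exp_pos _).trans hpt.1
    refine ⟨hp, ?_, ?_⟩
    · rw [sub_zero, ← Real.lt_log_iff_exp_lt hp0]
      linarith
    · rw [sub_zero, ← Real.log_lt_iff_lt_exp hp0]
      linarith
  have himg : e '' (e.source ∩ e ⁻¹' (CcaPl.ann 0 (Real.exp (t1 - 1 / 2)) (Real.exp (t2 + 1 / 2)))) =
      CcaPl.ann 0 (Real.exp (t1 - 1 / 2)) (Real.exp (t2 + 1 / 2)) := by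
    refine Subset.antisymm ?_ ?_
    · rintro _ ⟨p, hp, rfl⟩
      exact hp.2
    · intro z hz
      have hzt : z ∈ e.target := by
        rw [he.2.2]
        have hz1 := hz.1
        have hz2 := hz.2
        rw [sub_zero] at hz1 hz2
        exact ⟨(Real.exp_le_exp.2 (by linarith)).trans_lt hz1,
          hz2.trans_le (Real.exp_le_exp.2 (by linarith))⟩
      refine ⟨e.symm z, ⟨e.map_target hzt, ?_⟩, e.right_inv hzt⟩
      rw [mem_preimage, e.right_inv hzt]
      exact hz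
  have hA : F.en {p | p ∈ e.source ∧ t1 ≤ Real.log ‖e p‖ ∧ Real.log ‖e p‖ ≤ t2} α ≤
      CcaPl.en (F.co e α) (CcaPl.ann 0 (Real.exp (t1 - 1 / 2)) (Real.exp (t2 + 1 / 2))) := by
    refine (Frame.en_mono hsub (hα.closed.memLp hF)).trans_eq ?_
    rw [F.en_chartOn he.1 hopen.measurableSet inter_subset_left, himg]
    rfl
  refine hA.trans (hmid.trans ?_)
  have hlog : Real.log (Real.exp (t2 + 1 / 2) / Real.exp (t1 - 1 / 2)) = t2 - t1 + 1 := by
    rw [← Real.exp_sub, Real.log_exp]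
    ring
  have hq1 : (Real.exp (t2 + 1 / 2) / Real.exp l) ^ 2 ≤ Real.exp 1 * Real.exp (-(2 * x)) := by
    rw [← Real.exp_sub, ← Real.exp_nat_mul, ← Real.exp_add]
    refine Real.exp_le_exp.2 ?_
    push_cast
    linarith
  have hq2 : (Real.exp (-l) / Real.exp (t1 - 1 / 2)) ^ 2 ≤ Real.exp 1 * Real.exp (-(2 * x)) := by
    rw [← Real.exp_sub, ← Real.exp_nat_mul, ← Real.exp_add]
    refine Real.exp_le_exp.2 ?_
    push_cast
    linarith
  rw [hlog]
  have hpi : 3 < Real.pi := Real.pi_gt_three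
  have he1 : 1 ≤ Real.exp 1 := Real.one_le_exp (by norm_num)
  have hr0 : 0 ≤ ‖CcaPl.res (F.co e α) 0 1‖ ^ 2 := sq_nonneg _
  have hm1 : 2 * Real.pi * ‖CcaPl.res (F.co e α) 0 1‖ ^ 2 * (t2 - t1 + 1) ≤
      4 * Real.exp 1 * En Z m * F.en univ α := by
    have k1 : 2 * Real.pi * ‖CcaPl.res (F.co e α) 0 1‖ ^ 2 * (t2 - t1 + 1) ≤
        2 * Real.pi * ‖CcaPl.res (F.co e α) 0 1‖ ^ 2 * 4 :=
      mul_le_mul_of_nonneg_left (by linarith) (by positivity)
    have k2 : 2 * Real.pi * ‖CcaPl.res (F.co e α) 0 1‖ ^ 2 * 4 ≤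
        4 * ((2 * Real.pi) ^ 2 * ‖CcaPl.res (F.co e α) 0 1‖ ^ 2) := by
      have k0 : 0 ≤ Real.pi * (2 * Real.pi - 1) * ‖CcaPl.res (F.co e α) 0 1‖ ^ 2 :=
        mul_nonneg (mul_nonneg (by linarith) (by linarith)) hr0
      linarith
    have k3 : 4 * ((2 * Real.pi) ^ 2 * ‖CcaPl.res (F.co e α) 0 1‖ ^ 2) ≤ 4 * (En Z m * F.en univ α) :=
      mul_le_mul_of_nonneg_left hres (by norm_num)
    have k4 : 4 * (En Z m * F.en univ α) ≤ 4 * Real.exp 1 * En Z m * F.en univ α := by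
      have k5 : 0 ≤ En Z m * F.en univ α := mul_nonneg hEn0 hE0
      nlinarith
    linarith
  have hm2 : 2 * ((Real.exp (t2 + 1 / 2) / Real.exp l) ^ 2 + (Real.exp (-l) / Real.exp (t1 - 1 / 2)) ^ 2) *
      CcaPl.en (F.co e α) (CcaPl.ann 0 (Real.exp (-l)) (Real.exp l)) ≤
      4 * Real.exp 1 * Real.exp (-(2 * x)) * F.en univ α := by
    refine mul_le_mul ?_ hen ?_ (by positivity)
    · linarith
    · exact integral_nonneg fun z => sq_nonneg _
  calc _ ≤ 4 * Real.exp 1 * En Z m * F.en univ α + 4 * Real.exp 1 * Real.exp (-(2 * x)) * F.en univ α :=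
        add_le_add hm1 hm2
    _ = 4 * Real.exp 1 * (En Z m + Real.exp (-(2 * x))) * F.en univ α := by ring

/-- energy in the middle of a round annulus of the planar part -/
theorem en_mid : ∃ C : ℝ, 0 < C ∧ ∀ (X : Type) [TopologicalSpace X] [CompactSpace X] [T2Space X] [MeasurableSpace X]
    [BorelSpace X] (S : CS X) (F : Frame S), F.Tame → ∀ (g : ℕ)
    (u v : Fin g → X → UnitAddCircle) (Z : Matrix (Fin g) (Fin g) ℂ), IsPeriod S u v Z →
    ∀ (D : PData g) (P : Pres S D) (b : Fin g → Fin g ⊕ Fin g → ℤ), D.Valid → P.Marked u v b →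
    ∀ (T : Finset (Fin g × Bool)) (a : ℂ) (r R ρ x : ℝ), D.PAnn T a r R → 1 ≤ x → r * Real.exp x ≤ ρ →
      Real.exp 2 * ρ * Real.exp x ≤ R → ∀ α : X → ℂ, F.Hol α →
      F.en (P.ψ '' {w | ρ ≤ ‖w - a‖ ∧ ‖w - a‖ ≤ Real.exp 2 * ρ}) α ≤
        C * (En Z (clsT T b) + Real.exp (-(2 * x))) * F.en univ α := by
  obtain ⟨C, hC, h⟩ := en_mid_ann
  refine ⟨C, hC, ?_⟩
  intro X _ _ _ _ _ S F hF g u v Z hper D P b hD hb T a r R ρ x hT hx h1 h2 α hα
  obtain ⟨e, he⟩ := exists_PAnnChart P hD hT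
  have hr := hT.r0
  have hR : 0 < R := hr.trans hT.lt
  have hρ : 0 < ρ := (mul_pos hr (Real.exp_pos x)).trans_le h1
  have hs : 0 < Real.sqrt (r * R) := Real.sqrt_pos.2 (mul_pos hr hR)
  have hlogs : Real.log (Real.sqrt (r * R)) = (Real.log r + Real.log R) / 2 := by
    rw [Real.log_sqrt (mul_pos hr hR).le, Real.log_mul hr.ne' hR.ne']
  have hl : Real.log (R / r) / 2 = (Real.log R - Real.log r) / 2 := by
    rw [Real.log_div hR.ne' hr.ne']
  have hb1 : Real.log r + x ≤ Real.log ρ := by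
    have := Real.log_le_log (mul_pos hr (Real.exp_pos x)) h1
    rwa [Real.log_mul hr.ne' (Real.exp_pos x).ne', Real.log_exp] at this
  have hb2 : 2 + Real.log ρ + x ≤ Real.log R := by
    have := Real.log_le_log (by positivity) h2
    rwa [Real.log_mul (by positivity) (Real.exp_pos x).ne', Real.log_mul (Real.exp_pos 2).ne' hρ.ne',
      Real.log_exp, Real.log_exp] at this
  have hmain := h X S F hF g u v Z hper e _ _ he.1 (PAnnChart.annTop hD hT he hb)
    (Real.log ρ - (Real.log r + Real.log R) / 2) (2 + Real.log ρ - (Real.log r + Real.log R) / 2) x hx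
    (by rw [hl]; linarith) (by linarith) (by rw [hl]; linarith) (by linarith) α hα
  refine (Frame.en_mono ?_ (hα.closed.memLp hF)).trans hmain
  rintro _ ⟨w, ⟨hw1, hw2⟩, rfl⟩
  have hw0 : 0 < ‖w - a‖ := hρ.trans_le hw1
  have hrw : r < ‖w - a‖ := by
    refine lt_of_lt_of_le ?_ (h1.trans hw1)
    have : 1 < Real.exp x := Real.one_lt_exp_iff.2 (by linarith)
    nlinarith
  have hwR : ‖w - a‖ < R := by
    refine lt_of_lt_of_le (hw2.trans_lt ?_) h2
    have : 1 < Real.exp x := Real.one_lt_exp_iff.2 (by linarith)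
    have h3 : 0 < Real.exp 2 * ρ := by positivity
    nlinarith
  obtain ⟨hm1, hm2⟩ := PAnnChart.mem hD hT he hrw hwR
  have hlogw : Real.log ‖e (P.ψ w)‖ = Real.log ‖w - a‖ - (Real.log r + Real.log R) / 2 := by
    rw [hm2, norm_div, Complex.norm_real, Real.norm_of_nonneg hs.le,
      Real.log_div hw0.ne' hs.ne', hlogs]
  refine ⟨hm1, ?_, ?_⟩
  · rw [hlogw]
    have := Real.log_le_log hρ hw1
    linarith
  · rw [hlogw]
    have := Real.log_le_log hw0 hw2
    rw [Real.log_mul (Real.exp_pos 2).ne' hρ.ne', Real.log_exp] at this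
    linarith

end Pool.Agent.Lib.MP_cca10c_ag
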