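import Pool.Agent.Lib.MP_cca10c_ag.R13_Energy
import Pool.Agent.Lib.MP_cca10c_ag.Pl.FamScale

/-!
# Module R: scaling a cluster by one unit: cost proportional to the energy fraction (stub R14)

Family `F` from `CcaPl.exists_scaleFamily` (centre `a`, radius `ρ`, factor `exp k`), path `Sf` from `Pres.exists_path` with
`K = {ρ ≤ ‖z - a‖ ≤ exp 2 * ρ}`. For `s ∈ [0,1]` the structure `Sf s` has the presentation `P_s` with data `D.map (F.σ s)`, for which
`PAnn T a (exp 1 * r) R` holds, and `P.ψ '' K ⊆ P_s.ψ '' K`. Its period matrix `Z_s` satisfies `LEq A Z Z_s` (`path_basic` for the path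
`t ↦ Sf (t * s)`), so `En Z_s (clsT T b) ≤ exp A * En Z (clsT T b)`. By `en_mid` (with `x - 1` instead of `x`) the energy fraction in
`P.ψ '' K` is at most `η = C (exp A * En Z (clsT T b) + exp (-2 (x - 1)))`; conclude by `path_refined`.
-/

set_option autoImplicit false

open Topology Set Metric MeasureTheory
open scoped ContDiff

namespace Pool.Agent.Lib.MP_cca10c_ag

private theorem R14_lt {r R ρ x : ℝ} (hr : 0 < r) (hx : 4 ≤ x) (h1 : r * Real.exp x ≤ ρ)
    (h2 : Real.exp 2 * ρ * Real.exp x ≤ R) :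
    0 < ρ ∧ Real.exp 1 * r < ρ ∧ Real.exp 2 * ρ < R ∧ ρ < R := by
  have hx1 : Real.exp 1 < Real.exp x := Real.exp_lt_exp.2 (by linarith)
  have hx0 : 1 < Real.exp x := Real.one_lt_exp_iff.2 (by linarith)
  have h3 : Real.exp 1 * r < ρ := by
    have : Real.exp 1 * r < Real.exp x * r := mul_lt_mul_of_pos_right hx1 hr
    linarith
  have hρ : 0 < ρ := lt_trans (by positivity) h3
  have h4 : Real.exp 2 * ρ < R := by
    have h5 : Real.exp 2 * ρ * 1 < Real.exp 2 * ρ * Real.exp x :=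
      mul_lt_mul_of_pos_left hx0 (by positivity)
    linarith
  have h6 : ρ < Real.exp 2 * ρ := by
    have h7 : 1 < Real.exp 2 := Real.one_lt_exp_iff.2 (by norm_num)
    nlinarith
  exact ⟨hρ, h3, h4, h6.trans h4⟩

private theorem R14_QF_nonneg {X : Type} [TopologicalSpace X] [CompactSpace X] [T2Space X]
    {S : CS X} {g : ℕ} {u v : Fin g → X → UnitAddCircle} {Z : Matrix (Fin g) (Fin g) ℂ}
    (h : IsPeriod S u v Z) (x : Fin g ⊕ Fin g → ℝ) : 0 ≤ QF (PZ Z) x := by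
  let _ : MeasurableSpace X := borel X
  have : BorelSpace X := ⟨rfl⟩
  obtain ⟨F, hF⟩ := S.exists_tame
  rw [h.quad hF x]
  exact Frame.en_nonneg _

theorem mv_scale : ∃ C : ℝ, 1 ≤ C ∧ ∀ (g : ℕ) (D : PData g) (T : Finset (Fin g × Bool)) (a : ℂ) (r R ρ k x : ℝ),
    D.PAnn T a r R → 0 ≤ k → k ≤ 1 → 4 ≤ x → r * Real.exp x ≤ ρ → Real.exp 2 * ρ * Real.exp x ≤ R →
    ∃ σ : ℂ ≃ₜ ℂ, (∀ z, ‖z - a‖ ≤ ρ → σ z = a + (Real.exp k : ℂ) * (z - a)) ∧
      (∀ z, Real.exp 2 * ρ ≤ ‖z - a‖ → σ z = z) ∧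
      ∀ (b : Fin g → Fin g ⊕ Fin g → ℤ) (Z : Matrix (Fin g) (Fin g) ℂ), St D b Z → ∃ Z', St (D.map σ) b Z' ∧
        Conn g Z Z' (C * (En Z (clsT T b) + Real.exp (-(2 * x)))) ∧
        LEq (C * (En Z (clsT T b) + Real.exp (-(2 * x)))) Z Z' := by
  obtain ⟨A, hA1, hfam⟩ := CcaPl.exists_scaleFamily
  obtain ⟨C1, hC1, hmid⟩ := en_mid
  have hA0 : 0 ≤ A := by linarith
  refine ⟨A * Real.exp A * C1 * (Real.exp A + Real.exp 2) + 1, by
    have : 0 ≤ A * Real.exp A * C1 * (Real.exp A + Real.exp 2) := by positivity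
    linarith, ?_⟩
  intro g D T a r R ρ k x hT hk0 hk1 hx hrρ hρR
  obtain ⟨hρ, hrρ1, hρR1, hρR0⟩ := R14_lt hT.r0 hx hrρ hρR
  have hr0 := hT.r0
  have hrρ0 : r < ρ := by
    have h7 : 1 < Real.exp 1 := Real.one_lt_exp_iff.2 (by norm_num)
    nlinarith
  have hfam1 := hfam a ρ k hρ hk0 hk1
  set K : Set ℂ := {z | ρ ≤ ‖z - a‖ ∧ ‖z - a‖ ≤ Real.exp 2 * ρ} with hK
  obtain ⟨F, hF1, hF2, hF3⟩ := hfam1
  have m1 : (1 : ℝ) ∈ Icc (0 : ℝ) 1 := ⟨zero_le_one, le_rfl⟩
  refine ⟨F.σ 1, fun z hz => ?_, fun z hz => hF2 1 m1 z hz, fun b Z hZ => ?_⟩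
  · have h := hF1 1 m1 z hz
    rwa [one_mul] at h
  obtain ⟨hD, hZs, X, i1, i2, i3, i4, S, u, v, P, hP, hM⟩ := hZ
  have hKc : IsCompact K := F.compact
  have hTj : ∀ j ∈ T, ∀ z ∈ D.disc j 1, ‖z - a‖ ≤ r := fun j hj z hz => by
    have := hT.ins j hj hz
    rwa [mem_closedBall, dist_eq_norm] at this
  have hTo : ∀ j ∉ T, ∀ z ∈ D.disc j 1, R ≤ ‖z - a‖ := fun j hj z hz => by
    by_contra hneg
    push Not at hneg
    exact Set.disjoint_left.1 (hT.out j hj) hz (by rwa [mem_ball, dist_eq_norm])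
  have hKd : ∀ j, Disjoint K (D.disc j 1) := by
    intro j
    rw [Set.disjoint_left]
    intro z hz hz'
    by_cases hj : j ∈ T
    · have := hTj j hj z hz'
      linarith [hz.1]
    · have := hTo j hj z hz'
      linarith [hz.2]
  have hinf : D.inf ∉ T := hT.inf_not_mem hD
  have h0 : ∀ e ∈ Icc (0 : ℝ) 1, (0 : ℂ) ∉ F.σ e '' D.disc D.inf 1 := by
    rintro e he ⟨z, hz, hz0⟩
    have h5 := hTo _ hinf z hz
    rw [hF2 e he z (by linarith)] at hz0
    rw [hz0] at hz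
    exact PData.zero_not_mem_disc hD hz
  have hKCo : K ⊆ D.Co := fun z hz => hT.sub_Co (by linarith [hz.1]) (by linarith [hz.2])
  have hKOm : K ⊆ D.Om := hKCo.trans hD.Co_sub_Om
  obtain ⟨Sf, hS0, hval, hSC, hdil, hdil1⟩ := P.exists_path hD F hKd h0
  have hPK : IsCompact (P.ψ '' K) := hKc.image_of_continuousOn (P.hol.1.mono hKOm)
  let _ : MeasurableSpace X := borel X
  have : BorelSpace X := ⟨rfl⟩
  have hQ0 : 0 ≤ En Z (clsT T b) := R14_QF_nonneg hP _
  -- the annulus in the moved data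
  have hPA : ∀ s ∈ Icc (0 : ℝ) 1, (D.map (F.σ s)).PAnn T a (Real.exp 1 * r) R := by
    intro s hs
    refine ⟨by positivity, by linarith, ?_, ?_⟩
    · intro j hj
      rw [PData.map_disc]
      rintro _ ⟨z, hz, rfl⟩
      have h5 := hTj j hj z hz
      rw [mem_closedBall, dist_eq_norm, hF1 s hs z (by linarith), add_sub_cancel_left, norm_mul]
      have h6 : ‖((Real.exp (s * k) : ℝ) : ℂ)‖ ≤ Real.exp 1 := by
        rw [Complex.norm_real, Real.norm_eq_abs, abs_of_pos (Real.exp_pos _)]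
        exact Real.exp_le_exp.2 (mul_le_one₀ hs.2 hk0 hk1)
      exact mul_le_mul h6 h5 (norm_nonneg _) (Real.exp_pos _).le
    · intro j hj
      rw [PData.map_disc, Set.disjoint_left]
      rintro _ ⟨z, hz, rfl⟩ hz'
      have h5 := hTo j hj z hz
      rw [hF2 s hs z (by linarith), mem_ball, dist_eq_norm] at hz'
      linarith
  set η : ℝ := C1 * (Real.exp A * En Z (clsT T b) + Real.exp (-(2 * (x - 1)))) with hη
  have hη0 : 0 ≤ η := by positivity
  have he : ∀ s ∈ Icc (0 : ℝ) 1, ∀ Fr : Frame (Sf s), Fr.Tame → ∀ α : X → ℂ, Fr.Hol α →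
      Fr.en (P.ψ '' K) α ≤ η * Fr.en univ α := by
    intro s hs Fr hFr α hα
    obtain ⟨hDs, Ps, hPs, hιs⟩ := hval s hs
    have hMs : Ps.Marked u v b := Pres.Marked.transfer hD hDs rfl hιs hM
    have hmem : ∀ t ∈ Icc (0 : ℝ) 1, t * s ∈ Icc (0 : ℝ) 1 := fun t ht =>
      ⟨mul_nonneg ht.1 hs.1, mul_le_one₀ ht.2 hs.1 hs.2⟩
    obtain ⟨Zs, hZs1, -, hLs⟩ := path_basic (fun t => Sf (t * s)) A hA0
      (fun t ht t' ht' => hSC _ (hmem t ht) _ (hmem t' ht'))
      (fun t ht t' ht' p => by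
        refine (hdil _ (hmem t ht) _ (hmem t' ht') p).mono (hSC _ (hmem t ht) _ (hmem t' ht')) ?_
        refine Real.exp_le_exp.2 (mul_le_mul_of_nonneg_left ?_ hA0)
        rw [← sub_mul, abs_mul, abs_of_nonneg hs.1]
        exact mul_le_of_le_one_right (abs_nonneg _) hs.2)
      (u := u) (v := v) (Z := Z) (by simpa only [zero_mul, hS0] using hP)
    simp only [one_mul] at hZs1
    have h5 := hmid X (Sf s) Fr hFr g u v Zs hZs1 (D.map (F.σ s)) Ps b hDs hMs T a
      (Real.exp 1 * r) R ρ (x - 1) (hPA s hs) (by linarith)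
      (by
        have e1 : Real.exp 1 * r * Real.exp (x - 1) = r * Real.exp x := by
          rw [Real.exp_sub]
          field_simp
        rw [e1]
        exact hrρ)
      (by
        refine le_trans ?_ hρR
        refine mul_le_mul_of_nonneg_left (Real.exp_le_exp.2 (by linarith)) (by positivity))
      α hα
    have hsub : P.ψ '' K ⊆ Ps.ψ '' K := by
      rintro _ ⟨w, hw, rfl⟩
      exact ⟨F.σ s w, hF3 s hs w hw.1 hw.2, hPs w (hKOm hw)⟩
    have h6 : Fr.en (P.ψ '' K) α ≤ Fr.en (Ps.ψ '' K) α :=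
      Frame.en_mono hsub (hα.closed.memLp hFr)
    have h7 : En Zs (clsT T b) ≤ Real.exp A * En Z (clsT T b) := hLs.1 _
    refine (h6.trans h5).trans ?_
    refine mul_le_mul_of_nonneg_right ?_ (Frame.en_nonneg _)
    exact mul_le_mul_of_nonneg_left (by linarith) hC1.le
  obtain ⟨Z', hZ', hC, hL⟩ := path_refined Sf (P.ψ '' K) hPK A η hA0 hη0 hSC hdil hdil1 he
    (u := u) (v := v) (Z := Z) (by rw [hS0]; exact hP)
  obtain ⟨hD1, P1, hP1, hι1⟩ := hval 1 m1
  have hM1 : P1.Marked u v b := Pres.Marked.transfer hD hD1 rfl hι1 hM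
  have hcost : A * Real.exp A * η ≤ (A * Real.exp A * C1 * (Real.exp A + Real.exp 2) + 1) *
      (En Z (clsT T b) + Real.exp (-(2 * x))) := by
    have e1 : Real.exp (-(2 * (x - 1))) = Real.exp 2 * Real.exp (-(2 * x)) := by
      rw [← Real.exp_add]
      congr 1
      ring
    have h5 : 0 ≤ A * Real.exp A * C1 := by positivity
    have h6 : 0 < Real.exp (-(2 * x)) := Real.exp_pos _
    have h7 : 0 < Real.exp A := Real.exp_pos _
    have h8 : 0 < Real.exp 2 := Real.exp_pos _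
    have h9 : Real.exp A * En Z (clsT T b) + Real.exp 2 * Real.exp (-(2 * x)) ≤
        (Real.exp A + Real.exp 2) * (En Z (clsT T b) + Real.exp (-(2 * x))) := by
      have h10 : 0 ≤ Real.exp 2 * En Z (clsT T b) := mul_nonneg h8.le hQ0
      have h11 : 0 ≤ Real.exp A * Real.exp (-(2 * x)) := by positivity
      linarith
    rw [hη, e1]
    calc A * Real.exp A * (C1 * (Real.exp A * En Z (clsT T b) +
          Real.exp 2 * Real.exp (-(2 * x))))
        = A * Real.exp A * C1 * (Real.exp A * En Z (clsT T b) +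
          Real.exp 2 * Real.exp (-(2 * x))) := by ring
      _ ≤ A * Real.exp A * C1 * ((Real.exp A + Real.exp 2) *
          (En Z (clsT T b) + Real.exp (-(2 * x)))) := mul_le_mul_of_nonneg_left h9 h5
      _ ≤ _ := by
        have h12 : 0 ≤ En Z (clsT T b) + Real.exp (-(2 * x)) := by linarith
        linarith
  exact ⟨Z', ⟨hD1, hZ'.mem_siegel, X, i1, i2, i3, i4, Sf 1, u, v, P1, hZ', hM1⟩, hC.mono hcost,
    hL.mono hZs hZ'.mem_siegel hcost⟩

end Pool.Agent.Lib.MP_cca10c_ag
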