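import Pool.Agent.Lib.MP_cca10c_ag.R09_Rescale
import Pool.Agent.Lib.MP_cca10c_ag.Pl.FamLinInf

/-!
# Module R: linearising the feet one after another (stub R15)

`D.linJ ρ J`: feet in `J` are linear, `z ↦ f j 0 + 2 ρ (f j)' 0 z`, the other ones are `z ↦ f j (2 ρ z)`.
`lin_step`, `j ≠ D.inf`: `mv_family` with the family of `CcaPl.exists_linFamily` for `f = D.f j`, `K = f j '' {2ρ ≤ ‖z‖ ≤ 3ρ}`; the foot discs of
`D.linJ ρ J` are contained in the foot discs of `D` (`linJ_disc`, `CcaPl.koebe_cover`); then `PData.Same.mv`. The homeomorphisms are the identity on the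
disc of the foot at infinity, which does not contain `0` (`zero_not_mem_disc`). `j = D.inf`: `exists_linFamily_inf`; these homeomorphisms fix `0`.
-/

set_option autoImplicit false

open Topology Set Metric
open scoped ContDiff

namespace Pool.Agent.Lib.MP_cca10c_ag

/-- the feet in `J` have been linearised -/
noncomputable def PData.linJ {g : ℕ} (D : PData g) (ρ : ℝ) (J : Finset (Fin g × Bool)) : PData g where
  i0 := D.i0
  f := fun j z => if j ∈ J then D.f j 0 + ((2 * ρ : ℝ) : ℂ) * deriv (D.f j) 0 * z else D.f j (((2 * ρ : ℝ) : ℂ) * z)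
  q := fun i => D.q i / ((2 * ρ : ℝ) : ℂ) ^ 2

private theorem R15_f {g : ℕ} (D : PData g) (ρ : ℝ) (J : Finset (Fin g × Bool)) (j : Fin g × Bool) (z : ℂ) :
    (D.linJ ρ J).f j z = if j ∈ J then D.f j 0 + ((2 * ρ : ℝ) : ℂ) * deriv (D.f j) 0 * z
      else D.f j (((2 * ρ : ℝ) : ℂ) * z) := rfl

private theorem R15_f_in {g : ℕ} (D : PData g) (ρ : ℝ) {J : Finset (Fin g × Bool)} {j : Fin g × Bool} (hj : j ∈ J) (z : ℂ) :
    (D.linJ ρ J).f j z = D.f j 0 + ((2 * ρ : ℝ) : ℂ) * deriv (D.f j) 0 * z := by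
  rw [R15_f, if_pos hj]

private theorem R15_f_out {g : ℕ} (D : PData g) (ρ : ℝ) {J : Finset (Fin g × Bool)} {j : Fin g × Bool} (hj : j ∉ J) (z : ℂ) :
    (D.linJ ρ J).f j z = D.f j (((2 * ρ : ℝ) : ℂ) * z) := by
  rw [R15_f, if_neg hj]

private theorem R15_norm {ρ : ℝ} (hρ : 0 < ρ) (z : ℂ) : ‖((2 * ρ : ℝ) : ℂ) * z‖ = 2 * ρ * ‖z‖ := by
  rw [norm_mul, Complex.norm_real, Real.norm_of_nonneg (by positivity)]

private theorem R15_ne {ρ : ℝ} (hρ : 0 < ρ) : ((2 * ρ : ℝ) : ℂ) ≠ 0 := by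
  rw [Ne, Complex.ofReal_eq_zero]
  positivity

private theorem R15_deriv {g : ℕ} {D : PData g} (hD : D.Valid) (j : Fin g × Bool) : deriv (D.f j) 0 ≠ 0 :=
  CcaPl.deriv_ne_zero_of_injOn (D.f j) (ball 0 1) isOpen_ball (hD.diff j) (hD.inj j) 0 (mem_ball_self one_pos)

/-- the new foot maps take values of the old foot maps -/
private theorem R15_val {g : ℕ} {D : PData g} (hD : D.Valid) {ρ : ℝ} (hρ : 0 < ρ) (hρ' : ρ ≤ 1 / 20)
    (J : Finset (Fin g × Bool)) (j : Fin g × Bool) {z : ℂ} (hz : ‖z‖ < 1) :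
    ∃ z', ‖z'‖ < 1 ∧ (D.linJ ρ J).f j z = D.f j z' ∧ (z ≠ 0 → z' ≠ 0) := by
  by_cases hj : j ∈ J
  · have hd := R15_deriv hD j
    have hd0 : 0 < ‖deriv (D.f j) 0‖ := norm_pos_iff.2 hd
    have h1 : D.f j 0 + ((2 * ρ : ℝ) : ℂ) * deriv (D.f j) 0 * z ∈ ball (D.f j 0) (‖deriv (D.f j) 0‖ / 10) := by
      rw [mem_ball_iff_norm, add_sub_cancel_left, mul_assoc, R15_norm hρ, norm_mul]
      have h2 : ‖deriv (D.f j) 0‖ * ‖z‖ < ‖deriv (D.f j) 0‖ * 1 := mul_lt_mul_of_pos_left hz hd0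
      have h3 : 2 * ρ * (‖deriv (D.f j) 0‖ * ‖z‖) < 2 * ρ * (‖deriv (D.f j) 0‖ * 1) :=
        mul_lt_mul_of_pos_left h2 (by positivity)
      have h4 : 2 * ρ * (‖deriv (D.f j) 0‖ * 1) ≤ 1 / 10 * (‖deriv (D.f j) 0‖ * 1) :=
        mul_le_mul_of_nonneg_right (by linarith) (by positivity)
      linarith
    obtain ⟨z', hz', hz''⟩ := CcaPl.koebe_cover (D.f j) (hD.diff j) (hD.inj j) h1
    refine ⟨z', mem_ball_zero_iff.1 hz', ?_, fun hz0 h0 => ?_⟩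
    · rw [R15_f_in D ρ hj, hz'']
    · rw [h0] at hz''
      have h5 : ((2 * ρ : ℝ) : ℂ) * deriv (D.f j) 0 * z = 0 := by
        have := hz''.symm
        rwa [add_eq_left] at this
      exact mul_ne_zero (mul_ne_zero (R15_ne hρ) hd) hz0 h5
  · refine ⟨((2 * ρ : ℝ) : ℂ) * z, ?_, R15_f_out D ρ hj z, fun h => mul_ne_zero (R15_ne hρ) h⟩
    rw [R15_norm hρ]
    have := norm_nonneg z
    nlinarith

private theorem R15_F {g : ℕ} {D : PData g} (hD : D.Valid) {ρ : ℝ} (hρ : 0 < ρ) (hρ' : ρ ≤ 1 / 20)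
    (J : Finset (Fin g × Bool)) (j : Fin g × Bool) {z : ℂ} (hA : D.At j z) (hz : ‖z‖ < 1) :
    (D.linJ ρ J).F j z ∈ D.disc j 1 := by
  obtain ⟨z', h1, h2, h3⟩ := R15_val hD hρ hρ' J j hz
  refine ⟨z', ⟨fun hj => h3 (hA hj), h1⟩, ?_⟩
  by_cases hj : j = D.inf
  · subst hj
    rw [PData.F_inf]
    have : (D.linJ ρ J).F (D.linJ ρ J).inf z = ((D.linJ ρ J).f (D.linJ ρ J).inf z)⁻¹ := PData.F_inf z
    have e : (D.linJ ρ J).inf = D.inf := rfl
    rw [e] at this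
    rw [this, h2]
  · rw [PData.F_of_ne hj]
    have hj' : j ≠ (D.linJ ρ J).inf := hj
    rw [PData.F_of_ne hj', h2]

theorem PData.linJ_disc {g : ℕ} {D : PData g} (hD : D.Valid) {ρ : ℝ} (hρ : 0 < ρ) (hρ' : ρ ≤ 1 / 20) (J : Finset (Fin g × Bool))
    (j : Fin g × Bool) : (D.linJ ρ J).disc j 1 ⊆ D.disc j 1 := by
  rintro w ⟨z, ⟨hA, hz⟩, rfl⟩
  exact R15_F hD hρ hρ' J j hA hz

theorem PData.linJ_valid {g : ℕ} {D : PData g} (hD : D.Valid) {ρ : ℝ} (hρ : 0 < ρ) (hρ' : ρ ≤ 1 / 20)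
    (hq : ∀ i, ‖D.q i‖ < (2 * ρ) ^ 2) (J : Finset (Fin g × Bool)) : (D.linJ ρ J).Valid := by
  have hball : ∀ z ∈ ball (0 : ℂ) 1, ((2 * ρ : ℝ) : ℂ) * z ∈ ball (0 : ℂ) 1 := by
    intro z hz
    rw [mem_ball_zero_iff] at hz ⊢
    rw [R15_norm hρ]
    have := norm_nonneg z
    nlinarith
  constructor
  · intro j
    by_cases hj : j ∈ J
    · have h1 : DifferentiableOn ℂ (fun z => D.f j 0 + ((2 * ρ : ℝ) : ℂ) * deriv (D.f j) 0 * z) (ball 0 1) :=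
        (differentiableOn_const _).add ((differentiableOn_const _).mul differentiableOn_id)
      exact h1.congr fun z _ => R15_f_in D ρ hj z
    · have h1 : DifferentiableOn ℂ (fun z : ℂ => ((2 * ρ : ℝ) : ℂ) * z) (ball 0 1) :=
        (differentiableOn_const _).mul differentiableOn_id
      exact ((hD.diff j).comp h1 hball).congr fun z _ => R15_f_out D ρ hj z
  · intro j z hz w hw hzw
    by_cases hj : j ∈ J
    · rw [R15_f_in D ρ hj, R15_f_in D ρ hj] at hzw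
      exact mul_left_cancel₀ (mul_ne_zero (R15_ne hρ) (R15_deriv hD j)) (add_left_cancel hzw)
    · rw [R15_f_out D ρ hj, R15_f_out D ρ hj] at hzw
      exact mul_left_cancel₀ (R15_ne hρ) (hD.inj j (hball z hz) (hball w hw) hzw)
  · have e : (D.linJ ρ J).inf = D.inf := rfl
    rw [e, R15_f]
    split_ifs
    · rw [mul_zero, add_zero]
      exact hD.zero
    · rw [mul_zero]
      exact hD.zero
  · intro j k hjk
    exact (hD.disj j k hjk).mono (PData.linJ_disc hD hρ hρ' J j) (PData.linJ_disc hD hρ hρ' J k)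
  · intro i
    exact div_ne_zero (hD.q0 i) (pow_ne_zero _ (R15_ne hρ))
  · intro i
    show ‖D.q i / ((2 * ρ : ℝ) : ℂ) ^ 2‖ < 1
    rw [norm_div, norm_pow, Complex.norm_real, Real.norm_of_nonneg (by positivity), div_lt_one (by positivity)]
    exact hq i

/-- one finite foot -/
private theorem R15_fin {C ρ : ℝ} (hρ : 0 < ρ) (hρ' : ρ ≤ 1 / 1000) {g : ℕ} {D : PData g} (hD : D.Valid)
    (hq : ∀ i, ‖D.q i‖ < (2 * ρ) ^ 2) {J : Finset (Fin g × Bool)} {j : Fin g × Bool} (hj : j ∉ J) (hji : j ≠ D.inf)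
    (F : CcaPl.QcFamily (D.f j '' {z | 2 * ρ ≤ ‖z‖ ∧ ‖z‖ ≤ 3 * ρ}) C)
    (hF1 : ∀ e ∈ Icc (0 : ℝ) 1, ∀ z, ‖z‖ ≤ 2 * ρ → F.σ e (D.f j z) = CcaPl.fl (D.f j) (1 - e) z)
    (hF2 : ∀ e ∈ Icc (0 : ℝ) 1, ∀ w, w ∉ D.f j '' ball 0 (3 * ρ) → F.σ e w = w) :
    Mv (D.linJ ρ J) (D.linJ ρ (insert j J)) C := by
  have hρ'' : ρ ≤ 1 / 20 := by linarith
  have hV := PData.linJ_valid hD hρ hρ'' hq J
  have m1 : (1 : ℝ) ∈ Icc (0 : ℝ) 1 := ⟨zero_le_one, le_rfl⟩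
  have hsub : D.f j '' ball 0 (3 * ρ) ⊆ D.disc j 1 := by
    rintro _ ⟨z, hz, rfl⟩
    rw [mem_ball_zero_iff] at hz
    exact ⟨z, ⟨fun h => absurd h hji, by linarith⟩, PData.F_of_ne hji z⟩
  have hfix : ∀ e ∈ Icc (0 : ℝ) 1, ∀ k, k ≠ j → ∀ w ∈ D.disc k 1, F.σ e w = w := by
    intro e he k hk w hw
    exact hF2 e he w fun h => Set.disjoint_left.1 (hD.disj k j hk) hw (hsub h)
  have hKd : ∀ k, Disjoint (D.f j '' {z | 2 * ρ ≤ ‖z‖ ∧ ‖z‖ ≤ 3 * ρ}) ((D.linJ ρ J).disc k 1) := by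
    intro k
    rw [Set.disjoint_left]
    rintro _ ⟨z, ⟨hz1, hz2⟩, rfl⟩ hw
    by_cases hk : k = j
    · subst hk
      obtain ⟨z', ⟨-, hz'⟩, e⟩ := hw
      have hji' : k ≠ (D.linJ ρ J).inf := hji
      rw [PData.F_of_ne hji', R15_f_out D ρ hj] at e
      have h2 : ‖((2 * ρ : ℝ) : ℂ) * z'‖ < 2 * ρ := by
        rw [R15_norm hρ]
        nlinarith
      have h1 := hD.inj k (mem_ball_zero_iff.2 (by linarith)) (mem_ball_zero_iff.2 (by linarith)) e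
      rw [h1] at h2
      linarith
    · have h1 : D.f j z ∈ D.disc j 1 := ⟨z, ⟨fun h => absurd h hji, by linarith⟩, PData.F_of_ne hji z⟩
      exact Set.disjoint_left.1 (hD.disj k j hk) (PData.linJ_disc hD hρ hρ'' J k hw) h1
  have h0 : ∀ e ∈ Icc (0 : ℝ) 1, (0 : ℂ) ∉ F.σ e '' (D.linJ ρ J).disc (D.linJ ρ J).inf 1 := by
    rintro e he ⟨w, hw, h⟩
    have hw' : w ∈ D.disc D.inf 1 := PData.linJ_disc hD hρ hρ'' J D.inf hw
    rw [hfix e he D.inf (Ne.symm hji) w hw'] at h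
    rw [h] at hw'
    exact PData.zero_not_mem_disc hD hw'
  have h1 := mv_family F hKd h0
  have h2 : ((D.linJ ρ J).map (F.σ 1)).Same (D.linJ ρ (insert j J)) := by
    refine ⟨rfl, rfl, fun k z hz => ?_⟩
    show (D.linJ ρ (insert j J)).f k z = if k = D.inf then
      (if z = 0 then 0 else (F.σ 1 ((D.linJ ρ J).f k z)⁻¹)⁻¹) else F.σ 1 ((D.linJ ρ J).f k z)
    by_cases hk : k = j
    · subst hk
      rw [if_neg hji, R15_f_in D ρ (Finset.mem_insert_self k J), R15_f_out D ρ hj, hF1 1 m1]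
      · simp only [CcaPl.fl, sub_self, if_true]
        ring
      · rw [R15_norm hρ]
        nlinarith
    · have e1 : (D.linJ ρ (insert j J)).f k z = (D.linJ ρ J).f k z := by
        rw [R15_f, R15_f]
        simp only [Finset.mem_insert, hk, false_or]
      rw [e1]
      by_cases hki : k = D.inf
      · rw [if_pos hki]
        subst hki
        by_cases hz0 : z = 0
        · rw [if_pos hz0, hz0]
          exact hV.zero
        · rw [if_neg hz0]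
          have h3 := R15_F hD hρ hρ'' J D.inf (fun _ => hz0) hz
          have h4 : (D.linJ ρ J).F D.inf z = ((D.linJ ρ J).f D.inf z)⁻¹ := PData.F_inf (D := D.linJ ρ J) z
          rw [h4] at h3
          rw [hfix 1 m1 D.inf hk _ h3, inv_inv]
      · rw [if_neg hki]
        have h3 := R15_F hD hρ hρ'' J k (fun h => absurd h hki) hz
        have h4 : (D.linJ ρ J).F k z = (D.linJ ρ J).f k z := PData.F_of_ne (D := D.linJ ρ J) hki z
        rw [h4] at h3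
        rw [hfix 1 m1 k hk _ h3]
  have h3 := h1.trans h2.mv
  rwa [add_zero] at h3

/-- the foot at infinity -/
private theorem R15_infin {C ρ : ℝ} (hρ : 0 < ρ) (hρ' : ρ ≤ 1 / 1000) {g : ℕ} {D : PData g} (hD : D.Valid)
    (hq : ∀ i, ‖D.q i‖ < (2 * ρ) ^ 2) {J : Finset (Fin g × Bool)} (hj : D.inf ∉ J)
    (F : CcaPl.QcFamily ((fun z => (D.f D.inf z)⁻¹) '' {z | 2 * ρ ≤ ‖z‖ ∧ ‖z‖ ≤ 3 * ρ}) C)
    (hF1 : ∀ e ∈ Icc (0 : ℝ) 1, ∀ z, z ≠ 0 → ‖z‖ ≤ 2 * ρ →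
      F.σ e ((D.f D.inf z)⁻¹) = (CcaPl.fl (D.f D.inf) (1 - e) z)⁻¹)
    (hF2 : ∀ e ∈ Icc (0 : ℝ) 1, ∀ w, w ∉ (fun z => (D.f D.inf z)⁻¹) '' (ball 0 (3 * ρ) \ {0}) → F.σ e w = w) :
    Mv (D.linJ ρ J) (D.linJ ρ (insert D.inf J)) C := by
  have hρ'' : ρ ≤ 1 / 20 := by linarith
  have hV := PData.linJ_valid hD hρ hρ'' hq J
  have m1 : (1 : ℝ) ∈ Icc (0 : ℝ) 1 := ⟨zero_le_one, le_rfl⟩
  have hsub : (fun z => (D.f D.inf z)⁻¹) '' (ball 0 (3 * ρ) \ {0}) ⊆ D.disc D.inf 1 := by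
    rintro _ ⟨z, ⟨hz, hz0⟩, rfl⟩
    rw [mem_ball_zero_iff] at hz
    exact ⟨z, ⟨fun _ => hz0, by linarith⟩, PData.F_inf z⟩
  have hfix : ∀ e ∈ Icc (0 : ℝ) 1, ∀ k, k ≠ D.inf → ∀ w ∈ D.disc k 1, F.σ e w = w := by
    intro e he k hk w hw
    exact hF2 e he w fun h => Set.disjoint_left.1 (hD.disj k D.inf hk) hw (hsub h)
  have hfix0 : ∀ e ∈ Icc (0 : ℝ) 1, F.σ e 0 = 0 := by
    intro e he
    exact hF2 e he 0 fun h => PData.zero_not_mem_disc hD (hsub h)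
  have hKd : ∀ k, Disjoint ((fun z => (D.f D.inf z)⁻¹) '' {z | 2 * ρ ≤ ‖z‖ ∧ ‖z‖ ≤ 3 * ρ})
      ((D.linJ ρ J).disc k 1) := by
    intro k
    rw [Set.disjoint_left]
    rintro _ ⟨z, ⟨hz1, hz2⟩, rfl⟩ hw
    have hz0 : z ≠ 0 := norm_pos_iff.1 (by linarith)
    by_cases hk : k = D.inf
    · subst hk
      obtain ⟨z', ⟨-, hz'⟩, e⟩ := hw
      have h4 : (D.linJ ρ J).F D.inf z' = ((D.linJ ρ J).f D.inf z')⁻¹ := PData.F_inf (D := D.linJ ρ J) z'
      rw [h4, R15_f_out D ρ hj] at e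
      have e' := inv_injective e
      have h2 : ‖((2 * ρ : ℝ) : ℂ) * z'‖ < 2 * ρ := by
        rw [R15_norm hρ]
        nlinarith
      have h1 := hD.inj D.inf (mem_ball_zero_iff.2 (by linarith)) (mem_ball_zero_iff.2 (by linarith)) e'
      rw [h1] at h2
      linarith
    · have h1 : (D.f D.inf z)⁻¹ ∈ D.disc D.inf 1 := ⟨z, ⟨fun _ => hz0, by linarith⟩, PData.F_inf z⟩
      exact Set.disjoint_left.1 (hD.disj k D.inf hk) (PData.linJ_disc hD hρ hρ'' J k hw) h1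
  have h0 : ∀ e ∈ Icc (0 : ℝ) 1, (0 : ℂ) ∉ F.σ e '' (D.linJ ρ J).disc (D.linJ ρ J).inf 1 := by
    rintro e he ⟨w, hw, h⟩
    have hw' : w ∈ D.disc D.inf 1 := PData.linJ_disc hD hρ hρ'' J D.inf hw
    rw [← hfix0 e he] at h
    rw [(F.σ e).injective h] at hw'
    exact PData.zero_not_mem_disc hD hw'
  have h1 := mv_family F hKd h0
  have h2 : ((D.linJ ρ J).map (F.σ 1)).Same (D.linJ ρ (insert D.inf J)) := by
    refine ⟨rfl, rfl, fun k z hz => ?_⟩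
    show (D.linJ ρ (insert D.inf J)).f k z = if k = D.inf then
      (if z = 0 then 0 else (F.σ 1 ((D.linJ ρ J).f k z)⁻¹)⁻¹) else F.σ 1 ((D.linJ ρ J).f k z)
    by_cases hk : k = D.inf
    · rw [if_pos hk]
      subst hk
      rw [R15_f_in D ρ (Finset.mem_insert_self _ J)]
      by_cases hz0 : z = 0
      · rw [if_pos hz0, hz0, mul_zero, add_zero]
        exact hD.zero
      · rw [if_neg hz0, R15_f_out D ρ hj, hF1 1 m1 _ (mul_ne_zero (R15_ne hρ) hz0), inv_inv]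
        · simp only [CcaPl.fl, sub_self, if_true]
          ring
        · rw [R15_norm hρ]
          nlinarith
    · have e1 : (D.linJ ρ (insert D.inf J)).f k z = (D.linJ ρ J).f k z := by
        rw [R15_f, R15_f]
        simp only [Finset.mem_insert, hk, false_or]
      rw [e1, if_neg hk]
      have h3 := R15_F hD hρ hρ'' J k (fun h => absurd h hk) hz
      have h4 : (D.linJ ρ J).F k z = (D.linJ ρ J).f k z := PData.F_of_ne (D := D.linJ ρ J) hk z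
      rw [h4] at h3
      rw [hfix 1 m1 k hk _ h3]
  have h3 := h1.trans h2.mv
  rwa [add_zero] at h3

theorem lin_step : ∃ C ρ₀ : ℝ, 1 ≤ C ∧ 0 < ρ₀ ∧ ρ₀ ≤ 1 / 1000 ∧ ∀ ρ : ℝ, 0 < ρ → ρ ≤ ρ₀ → ∀ (g : ℕ) (D : PData g), D.Valid →
    (∀ i, ‖D.q i‖ < (2 * ρ) ^ 2) → ∀ (J : Finset (Fin g × Bool)) (j : Fin g × Bool), j ∉ J →
      Mv (D.linJ ρ J) (D.linJ ρ (insert j J)) C := by
  obtain ⟨C1, ρ1, hC1, hρ1, hρ1', H1⟩ := CcaPl.exists_linFamily
  obtain ⟨C2, ρ2, hC2, hρ2, hρ2', H2⟩ := CcaPl.exists_linFamily_inf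
  refine ⟨max C1 C2, min ρ1 ρ2, hC1.trans (le_max_left _ _), lt_min hρ1 hρ2, (min_le_left _ _).trans hρ1', ?_⟩
  intro ρ hρ hρρ g D hD hq J j hj
  have hr1 : ρ ≤ ρ1 := hρρ.trans (min_le_left _ _)
  have hr2 : ρ ≤ ρ2 := hρρ.trans (min_le_right _ _)
  by_cases hji : j = D.inf
  · subst hji
    obtain ⟨F, hF1, hF2⟩ := H2 ρ hρ hr2 (D.f D.inf) (hD.diff _) (hD.inj _) hD.zero
    exact (R15_infin hρ (hr2.trans hρ2') hD hq hj F hF1 hF2).mono (le_max_right _ _)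
  · obtain ⟨F, hF1, hF2⟩ := H1 ρ hρ hr1 (D.f j) (hD.diff _) (hD.inj _)
    exact (R15_fin hρ (hr1.trans hρ1') hD hq hj hji F hF1 hF2).mono (le_max_left _ _)

/-- all feet (start with `mv_shrink`, constant factor `2 ρ`) -/
theorem lin_univ (g : ℕ) : ∃ C ρ₀ : ℝ, 1 ≤ C ∧ 0 < ρ₀ ∧ ρ₀ ≤ 1 / 1000 ∧ ∀ ρ : ℝ, 0 < ρ → ρ ≤ ρ₀ → ∀ (D : PData g), D.Valid →
    (∀ i, ‖D.q i‖ < (2 * ρ) ^ 2) → Mv D (D.linJ ρ Finset.univ) C := by
  classical
  obtain ⟨C, ρ₀, hC, hρ₀, hρ₀', H⟩ := lin_step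
  refine ⟨((Finset.univ : Finset (Fin g × Bool)).card : ℝ) * C + 1, ρ₀, ?_, hρ₀, hρ₀', ?_⟩
  · have : 0 ≤ ((Finset.univ : Finset (Fin g × Bool)).card : ℝ) * C := by positivity
    linarith
  intro ρ hρ hρρ D hD hq
  have key : ∀ J : Finset (Fin g × Bool), Mv D (D.linJ ρ J) ((J.card : ℝ) * C) := by
    intro J
    induction J using Finset.induction_on with
    | empty =>
      have hR : D.Resc (fun _ => ((2 * ρ : ℝ) : ℂ)) := by
        refine ⟨fun _ => R15_ne hρ, fun _ => ?_, fun i => ?_⟩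
        · rw [Complex.norm_real, Real.norm_of_nonneg (by positivity)]
          linarith
        · rw [Complex.norm_real, Real.norm_of_nonneg (by positivity), ← sq]
          exact hq i
      have h1 := mv_shrink hR
      have h2 : (D.rescale (fun _ => ((2 * ρ : ℝ) : ℂ))).Same (D.linJ ρ ∅) := by
        refine ⟨rfl, ?_, fun k z _ => ?_⟩
        · funext i
          show D.q i / ((2 * ρ : ℝ) : ℂ) ^ 2 = D.q i / (((2 * ρ : ℝ) : ℂ) * ((2 * ρ : ℝ) : ℂ))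
          rw [sq]
        · exact R15_f_out D ρ (Finset.notMem_empty k) z
      have h3 := h1.trans h2.mv
      rw [add_zero] at h3
      rwa [Finset.card_empty, Nat.cast_zero, zero_mul]
    | insert j J hj ih =>
      have h1 := ih.trans (H ρ hρ hρρ g D hD hq J j hj)
      rw [Finset.card_insert_of_notMem hj, Nat.cast_add, Nat.cast_one, add_mul, one_mul]
      exact h1
  exact (key Finset.univ).mono (by linarith)

end Pool.Agent.Lib.MP_cca10c_ag
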