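import Pool.Agent.Lib.MP_cca10c_ag.R09_Rescale

/-!
# Module R: round planar data (stub R20)

Finite feet `j : FF g i0` at `p j` with radius `s j`, the foot at infinity is `{‖w‖ > s (i0, true)}`.
-/

set_option autoImplicit false

open Topology Set Metric
open scoped ContDiff

namespace Pool.Agent.Lib.MP_cca10c_ag

variable {g : ℕ}

/-- the finite feet -/
abbrev FF (g : ℕ) (i0 : Fin g) : Type := {j : Fin g × Bool // j ≠ (i0, true)}

/-- round data -/
noncomputable def rnd (i0 : Fin g) (p : FF g i0 → ℂ) (s : Fin g × Bool → ℝ) (q : Fin g → ℂ) : PData g where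
  i0 := i0
  f := fun j z => if h : j = (i0, true) then z / (s j : ℂ) else p ⟨j, h⟩ + (s j : ℂ) * z
  q := q

/-- admissible round data -/
structure RV (i0 : Fin g) (p : FF g i0 → ℂ) (s : Fin g × Bool → ℝ) (q : Fin g → ℂ) : Prop where
  s0 : ∀ j, 0 < s j
  dist : ∀ j k : FF g i0, j ≠ k → s j.1 + s k.1 ≤ dist (p j) (p k)
  out : ∀ j : FF g i0, ‖p j‖ + s j.1 ≤ s (i0, true)
  q0 : ∀ i, q i ≠ 0
  q1 : ∀ i, ‖q i‖ < 1

variable {i0 : Fin g} {p : FF g i0 → ℂ} {s : Fin g × Bool → ℝ} {q : Fin g → ℂ}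

private theorem R20_f_fin {j : Fin g × Bool} (h : j ≠ (i0, true)) (z : ℂ) :
    (rnd i0 p s q).f j z = p ⟨j, h⟩ + (s j : ℂ) * z := by
  show (if h : j = (i0, true) then z / (s j : ℂ) else p ⟨j, h⟩ + (s j : ℂ) * z) = _
  rw [dif_neg h]

private theorem R20_f_inf (z : ℂ) : (rnd i0 p s q).f (i0, true) z = z / (s (i0, true) : ℂ) := by
  show (if h : (i0, true) = (i0, true) then z / (s (i0, true) : ℂ)
    else p ⟨(i0, true), h⟩ + (s (i0, true) : ℂ) * z) = _
  rw [dif_pos rfl]

private theorem R20_fin (hs : ∀ j, 0 < s j) (j : FF g i0) :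
    (rnd i0 p s q).disc j.1 1 = ball (p j) (s j.1) := by
  have hne : j.1 ≠ (rnd i0 p s q).inf := j.2
  have hs0 : (s j.1 : ℂ) ≠ 0 := Complex.ofReal_ne_zero.2 (hs j.1).ne'
  ext w
  constructor
  · rintro ⟨z, ⟨-, hz⟩, rfl⟩
    rw [PData.F_of_ne hne, R20_f_fin j.2, mem_ball_iff_norm, add_sub_cancel_left, norm_mul,
      Complex.norm_real, Real.norm_of_nonneg (hs j.1).le]
    have := hs j.1
    nlinarith
  · intro hw
    refine ⟨(w - p j) / (s j.1 : ℂ), ⟨fun h => absurd h hne, ?_⟩, ?_⟩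
    · rw [norm_div, Complex.norm_real, Real.norm_of_nonneg (hs j.1).le, div_lt_one (hs j.1)]
      exact mem_ball_iff_norm.1 hw
    · rw [PData.F_of_ne hne, R20_f_fin j.2, mul_div_cancel₀ _ hs0]
      exact add_sub_cancel _ _

private theorem R20_inf (hs : ∀ j, 0 < s j) :
    (rnd i0 p s q).disc (i0, true) 1 = {w | s (i0, true) < ‖w‖} := by
  have hs1 := hs (i0, true)
  have hs0 : (s (i0, true) : ℂ) ≠ 0 := Complex.ofReal_ne_zero.2 hs1.ne'
  have hF : ∀ z, (rnd i0 p s q).F (i0, true) z = (z / (s (i0, true) : ℂ))⁻¹ := by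
    intro z
    rw [← R20_f_inf (p := p) (s := s) (q := q) z]
    exact PData.F_inf (D := rnd i0 p s q) z
  ext w
  constructor
  · rintro ⟨z, ⟨hz0, hz⟩, rfl⟩
    have hzp : 0 < ‖z‖ := norm_pos_iff.2 (hz0 rfl)
    rw [hF, mem_ofPred_eq, inv_div, norm_div, Complex.norm_real, Real.norm_of_nonneg hs1.le,
      lt_div_iff₀ hzp]
    nlinarith
  · intro hw
    rw [mem_ofPred_eq] at hw
    have hwp : 0 < ‖w‖ := hs1.trans hw
    have hw0 : w ≠ 0 := norm_pos_iff.1 hwp
    refine ⟨(s (i0, true) : ℂ) / w, ⟨fun _ => div_ne_zero hs0 hw0, ?_⟩, ?_⟩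
    · rw [norm_div, Complex.norm_real, Real.norm_of_nonneg hs1.le, div_lt_one hwp]
      exact hw
    · rw [hF]
      field_simp

theorem RV.valid (h : RV i0 p s q) : (rnd i0 p s q).Valid := by
  have hs0 : ∀ j, (s j : ℂ) ≠ 0 := fun j => Complex.ofReal_ne_zero.2 (h.s0 j).ne'
  have hff : ∀ j k : FF g i0, j ≠ k →
      Disjoint ((rnd i0 p s q).disc j.1 1) ((rnd i0 p s q).disc k.1 1) := by
    intro j k hjk
    rw [R20_fin h.s0, R20_fin h.s0]
    exact ball_disjoint_ball (h.dist j k hjk)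
  have hfi : ∀ j : FF g i0,
      Disjoint ((rnd i0 p s q).disc j.1 1) ((rnd i0 p s q).disc (i0, true) 1) := by
    intro j
    rw [R20_fin h.s0, R20_inf h.s0, Set.disjoint_left]
    intro w hw hw'
    rw [mem_ofPred_eq] at hw'
    have h1 := h.out j
    have h2 := mem_ball_iff_norm.1 hw
    have h3 : ‖w‖ ≤ ‖w - p j‖ + ‖p j‖ := by
      have := norm_add_le (w - p j) (p j)
      rwa [sub_add_cancel] at this
    linarith
  refine ⟨?_, ?_, ?_, ?_, h.q0, h.q1⟩
  · intro j
    by_cases hj : j = (i0, true)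
    · subst hj
      refine DifferentiableOn.congr (f := fun z : ℂ => z / (s (i0, true) : ℂ)) ?_
        fun z _ => R20_f_inf z
      exact differentiableOn_id.div_const _
    · refine DifferentiableOn.congr (f := fun z : ℂ => p ⟨j, hj⟩ + (s j : ℂ) * z) ?_
        fun z _ => R20_f_fin hj z
      exact (differentiableOn_id.const_mul _).const_add _
  · intro j z _ w _ he
    by_cases hj : j = (i0, true)
    · subst hj
      rw [R20_f_inf, R20_f_inf] at he
      exact (div_left_inj' (hs0 _)).1 he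
    · rw [R20_f_fin hj, R20_f_fin hj] at he
      exact mul_left_cancel₀ (hs0 j) (add_left_cancel he)
  · show (rnd i0 p s q).f (i0, true) 0 = 0
    rw [R20_f_inf, zero_div]
  · intro j k hjk
    by_cases hj : j = (i0, true)
    · by_cases hk : k = (i0, true)
      · exact absurd (hj.trans hk.symm) hjk
      · subst hj
        exact (hfi ⟨k, hk⟩).symm
    · by_cases hk : k = (i0, true)
      · subst hk
        exact hfi ⟨j, hj⟩
      · exact hff ⟨j, hj⟩ ⟨k, hk⟩ fun he => hjk (congrArg Subtype.val he)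

theorem RV.disc_fin (h : RV i0 p s q) (j : FF g i0) : (rnd i0 p s q).disc j.1 1 = ball (p j) (s j.1) :=
  R20_fin h.s0 j

theorem RV.disc_inf (h : RV i0 p s q) : (rnd i0 p s q).disc (i0, true) 1 = {w | s (i0, true) < ‖w‖} :=
  R20_inf h.s0

/-- factors of the change of the radii -/
noncomputable def kap (i0 : Fin g) (s s' : Fin g × Bool → ℝ) (j : Fin g × Bool) : ℝ :=
  if j = (i0, true) then s' j / s j else s j / s' j

private theorem R20_kap_pos {s s' : Fin g × Bool → ℝ} (hs : ∀ j, 0 < s j) (hs' : ∀ j, 0 < s' j)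
    (j : Fin g × Bool) : 0 < kap i0 s s' j := by
  unfold kap
  split_ifs
  · exact div_pos (hs' j) (hs j)
  · exact div_pos (hs j) (hs' j)

private theorem R20_resc {s s1 : Fin g × Bool → ℝ} {q q1 : Fin g → ℂ} (hs : ∀ j, 0 < s j)
    (hs1 : ∀ j, 0 < s1 j)
    (hq : ∀ i, q1 i = q i / ((kap i0 s1 s (i, false) : ℂ) * (kap i0 s1 s (i, true) : ℂ))) :
    (rnd i0 p s q).rescale (fun j => (kap i0 s1 s j : ℂ)) = rnd i0 p s1 q1 := by
  have hf : ((rnd i0 p s q).rescale (fun j => (kap i0 s1 s j : ℂ))).f = (rnd i0 p s1 q1).f := by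
    funext j z
    show (rnd i0 p s q).f j ((kap i0 s1 s j : ℂ) * z) = _
    have h1 : (s j : ℂ) ≠ 0 := Complex.ofReal_ne_zero.2 (hs j).ne'
    have h2 : (s1 j : ℂ) ≠ 0 := Complex.ofReal_ne_zero.2 (hs1 j).ne'
    by_cases hj : j = (i0, true)
    · subst hj
      rw [R20_f_inf, R20_f_inf]
      have hk : kap i0 s1 s (i0, true) = s (i0, true) / s1 (i0, true) := by
        unfold kap
        rw [if_pos rfl]
      rw [hk]
      push_cast
      field_simp
    · rw [R20_f_fin hj, R20_f_fin hj]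
      have hk : kap i0 s1 s j = s1 j / s j := by
        unfold kap
        rw [if_neg hj]
      rw [hk]
      push_cast
      field_simp
  have hqq : ((rnd i0 p s q).rescale (fun j => (kap i0 s1 s j : ℂ))).q = (rnd i0 p s1 q1).q := by
    funext i
    exact (hq i).symm
  have e1 : (rnd i0 p s q).rescale (fun j => (kap i0 s1 s j : ℂ)) =
      ⟨i0, ((rnd i0 p s q).rescale (fun j => (kap i0 s1 s j : ℂ))).f,
        ((rnd i0 p s q).rescale (fun j => (kap i0 s1 s j : ℂ))).q⟩ := rfl
  rw [e1, hf, hqq]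
  rfl

/-- larger foot discs -/
theorem mv_radii_le {s' : Fin g × Bool → ℝ} {q' : Fin g → ℂ} (h : RV i0 p s q) (h' : RV i0 p s' q')
    (hq : ∀ i, q' i = q i * (kap i0 s s' (i, false) * kap i0 s s' (i, true) : ℝ)) (hk : ∀ j, kap i0 s s' j ≤ 1) :
    Mv (rnd i0 p s q) (rnd i0 p s' q') 0 := by
  have hkp := R20_kap_pos (i0 := i0) h.s0 h'.s0
  have hkc : ∀ j, (kap i0 s s' j : ℂ) ≠ 0 := fun j => Complex.ofReal_ne_zero.2 (hkp j).ne'
  have hkn : ∀ j, ‖(kap i0 s s' j : ℂ)‖ = kap i0 s s' j := fun j => by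
    rw [Complex.norm_real, Real.norm_of_nonneg (hkp j).le]
  have hr : (rnd i0 p s' q').rescale (fun j => (kap i0 s s' j : ℂ)) = rnd i0 p s q := by
    refine R20_resc h'.s0 h.s0 fun i => ?_
    rw [hq i]
    push_cast
    rw [mul_div_assoc, div_self (mul_ne_zero (hkc _) (hkc _)), mul_one]
  have hR : (rnd i0 p s' q').Resc (fun j => (kap i0 s s' j : ℂ)) := by
    refine ⟨hkc, fun j => by rw [hkn]; exact hk j, fun i => ?_⟩
    show ‖q' i‖ < _
    rw [hkn, hkn, hq i, norm_mul, Complex.norm_real, Real.norm_of_nonneg (mul_pos (hkp _) (hkp _)).le]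
    have h1 := h.q1 i
    have h2 := mul_pos (hkp (i, false)) (hkp (i, true))
    nlinarith
  have := mv_enlarge h'.valid hR
  rwa [hr] at this

/-- change of the radii in both directions, through the common smaller discs -/
theorem mv_radii {s' : Fin g × Bool → ℝ} {q' : Fin g → ℂ} (h : RV i0 p s q) (h' : RV i0 p s' q')
    (hq : ∀ i, q' i = q i * (kap i0 s s' (i, false) * kap i0 s s' (i, true) : ℝ))
    (hk : ∀ j, 1 / 2 ≤ kap i0 s s' j ∧ kap i0 s s' j ≤ 2) (hq1 : ∀ i, ‖q i‖ < 1 / 4) (hq2 : ∀ i, ‖q' i‖ < 1 / 4) :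
    Mv (rnd i0 p s q) (rnd i0 p s' q') 0 := by
  have _ := hq2
  -- the common smaller discs
  obtain ⟨t, ht⟩ : ∃ t : Fin g × Bool → ℝ,
      t = fun j => if j = (i0, true) then max (s j) (s' j) else min (s j) (s' j) := ⟨_, rfl⟩
  have ht0 : ∀ j, 0 < t j := by
    intro j
    rw [ht]
    simp only
    split_ifs
    · exact lt_max_of_lt_left (h.s0 j)
    · exact lt_min (h.s0 j) (h'.s0 j)
  have htf : ∀ j, j ≠ (i0, true) → t j ≤ s j ∧ t j ≤ s' j := by
    intro j hj
    rw [ht]
    simp only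
    rw [if_neg hj]
    exact ⟨min_le_left _ _, min_le_right _ _⟩
  have hti : s (i0, true) ≤ t (i0, true) ∧ s' (i0, true) ≤ t (i0, true) := by
    rw [ht]
    simp only [if_true]
    exact ⟨le_max_left _ _, le_max_right _ _⟩
  -- relation of the factors
  have hmul : ∀ j, kap i0 t s j * kap i0 s s' j = kap i0 t s' j := by
    intro j
    have h1 := h.s0 j
    have h2 := h'.s0 j
    have h3 := ht0 j
    unfold kap
    split_ifs
    · field_simp
    · field_simp
  have hle1 : ∀ j, kap i0 t s j ≤ 1 := by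
    intro j
    unfold kap
    split_ifs with hj
    · rw [div_le_one (ht0 j), hj]
      exact hti.1
    · rw [div_le_one (h.s0 j)]
      exact (htf j hj).1
  have hle2 : ∀ j, kap i0 t s' j ≤ 1 := by
    intro j
    unfold kap
    split_ifs with hj
    · rw [div_le_one (ht0 j), hj]
      exact hti.2
    · rw [div_le_one (h'.s0 j)]
      exact (htf j hj).2
  have hge1 : ∀ j, 1 / 2 ≤ kap i0 t s j := by
    intro j
    have hkj := hk j
    by_cases hj : j = (i0, true)
    · subst hj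
      have e1 : kap i0 t s (i0, true) = s (i0, true) / t (i0, true) := by
        unfold kap
        rw [if_pos rfl]
      have e2 : kap i0 s s' (i0, true) = s' (i0, true) / s (i0, true) := by
        unfold kap
        rw [if_pos rfl]
      rw [e2, div_le_iff₀ (h.s0 _)] at hkj
      rw [e1, le_div_iff₀ (ht0 _), ht]
      simp only [if_true]
      have h5 := h.s0 (i0, true)
      have h6 : max (s (i0, true)) (s' (i0, true)) ≤ 2 * s (i0, true) :=
        max_le (by linarith) hkj.2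
      linarith
    · have e1 : kap i0 t s j = t j / s j := by
        unfold kap
        rw [if_neg hj]
      have e2 : kap i0 s s' j = s j / s' j := by
        unfold kap
        rw [if_neg hj]
      rw [e2, div_le_iff₀ (h'.s0 _)] at hkj
      rw [e1, le_div_iff₀ (h.s0 _), ht]
      simp only
      rw [if_neg hj]
      have h5 := h.s0 j
      exact le_min (by linarith) (by linarith [hkj.2])
  have hkp := R20_kap_pos (i0 := i0) ht0 h.s0
  have hkc : ∀ j, (kap i0 t s j : ℂ) ≠ 0 := fun j => Complex.ofReal_ne_zero.2 (hkp j).ne'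
  have hkn : ∀ j, ‖(kap i0 t s j : ℂ)‖ = kap i0 t s j := fun j => by
    rw [Complex.norm_real, Real.norm_of_nonneg (hkp j).le]
  have hprod : ∀ i, 1 / 4 ≤ kap i0 t s (i, false) * kap i0 t s (i, true) := by
    intro i
    have h1 := hge1 (i, false)
    have h2 := hge1 (i, true)
    nlinarith
  obtain ⟨qt, hqt⟩ : ∃ qt : Fin g → ℂ,
      qt = fun i => q i / ((kap i0 t s (i, false) : ℂ) * (kap i0 t s (i, true) : ℂ)) := ⟨_, rfl⟩
  have hR : (rnd i0 p s q).Resc (fun j => (kap i0 t s j : ℂ)) := by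
    refine ⟨hkc, fun j => by rw [hkn]; exact hle1 j, fun i => ?_⟩
    show ‖q i‖ < _
    rw [hkn, hkn]
    exact (hq1 i).trans_le (hprod i)
  have hr : (rnd i0 p s q).rescale (fun j => (kap i0 t s j : ℂ)) = rnd i0 p t qt :=
    R20_resc h.s0 ht0 fun i => by rw [hqt]
  have hm1 := mv_shrink hR
  rw [hr] at hm1
  have hRV : RV i0 p t qt := by
    refine ⟨ht0, fun j k hjk => ?_, fun j => ?_, fun i => ?_, fun i => ?_⟩
    · have h1 := h.dist j k hjk
      have h2 := (htf j.1 j.2).1
      have h3 := (htf k.1 k.2).1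
      linarith
    · have h1 := h.out j
      have h2 := (htf j.1 j.2).1
      have h3 := hti.1
      linarith
    · rw [hqt]
      exact div_ne_zero (h.q0 i) (mul_ne_zero (hkc _) (hkc _))
    · rw [hqt]
      simp only
      rw [norm_div, norm_mul, hkn, hkn, div_lt_one (mul_pos (hkp _) (hkp _))]
      exact (hq1 i).trans_le (hprod i)
  have hm2 : Mv (rnd i0 p t qt) (rnd i0 p s' q') 0 := by
    refine mv_radii_le hRV h' (fun i => ?_) hle2
    rw [hq i, hqt]
    simp only
    rw [← hmul, ← hmul]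
    have h1 := hkc (i, false)
    have h2 := hkc (i, true)
    push_cast
    field_simp
  have := hm1.trans hm2
  rwa [add_zero] at this

/-- homothety -/
theorem mv_homothety (h : RV i0 p s q) {l : ℝ} (hl : 0 < l) :
    Mv (rnd i0 p s q) (rnd i0 (fun j => (l : ℂ) * p j) (fun j => l * s j) q) 0 := by
  have hl0 : (l : ℂ) ≠ 0 := Complex.ofReal_ne_zero.2 hl.ne'
  have hs0 : ∀ j, (s j : ℂ) ≠ 0 := fun j => Complex.ofReal_ne_zero.2 (h.s0 j).ne'
  let σ : ℂ ≃ₜ ℂ := Homeomorph.mulLeft₀ (l : ℂ) hl0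
  have hσ : ∀ z, σ z = (l : ℂ) * z := fun z => rfl
  have hd : ∀ z, DifferentiableAt ℂ σ z := by
    intro z
    have : (σ : ℂ → ℂ) = fun z => (l : ℂ) * z := rfl
    rw [this]
    exact differentiableAt_id.const_mul _
  have h0 : (0 : ℂ) ∉ σ '' (rnd i0 p s q).disc (rnd i0 p s q).inf 1 := by
    rintro ⟨w, hw, he⟩
    rw [hσ] at he
    rcases mul_eq_zero.1 he with h1 | h1
    · exact hl0 h1
    · rw [h1] at hw
      exact PData.zero_not_mem_disc h.valid hw
  have hm := mv_conf (D := rnd i0 p s q) σ hd h0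
  have hsame : ((rnd i0 p s q).map σ).Same
      (rnd i0 (fun j => (l : ℂ) * p j) (fun j => l * s j) q) := by
    refine ⟨rfl, rfl, fun j z _ => ?_⟩
    show _ = if j = (rnd i0 p s q).inf then
      (if z = 0 then 0 else (σ ((rnd i0 p s q).f j z)⁻¹)⁻¹) else σ ((rnd i0 p s q).f j z)
    by_cases hj : j = (i0, true)
    · have hj' : j = (rnd i0 p s q).inf := hj
      rw [if_pos hj']
      subst hj
      rw [R20_f_inf, R20_f_inf, hσ]
      by_cases hz : z = 0
      · rw [if_pos hz, hz, zero_div]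
      · rw [if_neg hz]
        have h3 := hs0 (i0, true)
        push_cast
        field_simp
    · have hj' : j ≠ (rnd i0 p s q).inf := hj
      rw [if_neg hj', R20_f_fin hj, R20_f_fin hj, hσ]
      push_cast
      ring
  have := hm.trans hsame.mv
  rwa [add_zero] at this

end Pool.Agent.Lib.MP_cca10c_ag
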