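import Pool.Agent.Lib.MP_cca10c_ag.R15_LinStep
import Pool.Agent.Lib.MP_cca10c_ag.R20_Round

/-!
# Module R: round data after the linearisation (stub R16)

Rotate the feet (`mv_shrink` with factors of modulus one) so that `D.linJ ρ univ` becomes round. Koebe: the image of `f j` contains the disc
of radius `‖(f j)' 0‖ / 10` about `f j 0` and no other `f k 0` (`0` is in the domain of `F k`), for the foot at infinity use the coordinate `1/w`.
-/

set_option autoImplicit false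

open Topology Set Metric
open scoped ContDiff

namespace Pool.Agent.Lib.MP_cca10c_ag

variable {g : ℕ}

private theorem r16_mem {D : PData g} {k : Fin g × Bool} (hk : k ≠ D.inf) {z : ℂ} (hz : ‖z‖ < 1) :
    D.f k z ∈ D.disc k 1 := by
  refine ⟨z, ⟨fun h => absurd h hk, hz⟩, ?_⟩
  simp [PData.F, hk]

private theorem r16_ball {D : PData g} (hD : D.Valid) {j : Fin g × Bool} (hj : j ≠ D.inf) :
    ball (D.f j 0) (‖deriv (D.f j) 0‖ / 10) ⊆ D.disc j 1 := by
  intro w hw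
  obtain ⟨z, hz, rfl⟩ := CcaPl.koebe_cover (D.f j) (hD.diff j) (hD.inj j) hw
  exact r16_mem hj (mem_ball_zero_iff.1 hz)

private theorem r16_deriv {D : PData g} (hD : D.Valid) (j : Fin g × Bool) : 0 < ‖deriv (D.f j) 0‖ :=
  norm_pos_iff.2 (deriv_ne_zero_of_injOn isOpen_ball (hD.diff j) (hD.inj j) (mem_ball_self one_pos))

/-- every point of a finite foot disc is bounded -/
private theorem r16_bound {D : PData g} (hD : D.Valid) {j : Fin g × Bool} (hj : j ≠ D.inf) {w : ℂ}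
    (hw : w ∈ D.disc j 1) : ‖w‖ * ‖deriv (D.f D.inf) 0‖ ≤ 10 := by
  by_contra hcon
  push Not at hcon
  have hd := r16_deriv hD D.inf
  have hw0 : 0 < ‖w‖ := by
    by_contra h0
    have h1 : ‖w‖ = 0 := le_antisymm (not_lt.1 h0) (norm_nonneg _)
    rw [h1, zero_mul] at hcon
    linarith
  have h1 : w⁻¹ ∈ ball (D.f D.inf 0) (‖deriv (D.f D.inf) 0‖ / 10) := by
    rw [hD.zero, mem_ball_zero_iff, norm_inv, lt_div_iff₀ (by norm_num), inv_mul_eq_div, div_lt_iff₀ hw0]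
    linarith
  obtain ⟨z, hz, hzw⟩ := CcaPl.koebe_cover (D.f D.inf) (hD.diff D.inf) (hD.inj D.inf) h1
  have hz0 : z ≠ 0 := by
    rintro rfl
    rw [hD.zero] at hzw
    have := inv_eq_zero.1 hzw.symm
    rw [this, norm_zero] at hw0
    exact lt_irrefl _ hw0
  have h2 : w ∈ D.disc D.inf 1 := by
    refine ⟨z, ⟨fun _ => hz0, mem_ball_zero_iff.1 hz⟩, ?_⟩
    simp [PData.F, hzw]
  exact Set.disjoint_left.1 (hD.disj j D.inf hj) hw h2

theorem koebe_dist {D : PData g} (hD : D.Valid) {j k : Fin g × Bool} (hj : j ≠ D.inf) (hk : k ≠ D.inf) (hjk : j ≠ k) :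
    ‖deriv (D.f j) 0‖ / 10 ≤ dist (D.f j 0) (D.f k 0) := by
  by_contra hcon
  push Not at hcon
  have h1 : D.f k 0 ∈ D.disc j 1 := r16_ball hD hj (by rw [mem_ball, dist_comm]; exact hcon)
  exact Set.disjoint_left.1 (hD.disj j k hjk) h1 (r16_mem hk (by simp))

theorem koebe_inf {D : PData g} (hD : D.Valid) {j : Fin g × Bool} (hj : j ≠ D.inf) :
    ‖D.f j 0‖ * ‖deriv (D.f D.inf) 0‖ ≤ 10 :=
  r16_bound hD hj (r16_mem hj (by simp))

private theorem r16_deriv_le {D : PData g} (hD : D.Valid) {j : Fin g × Bool} (hj : j ≠ D.inf) :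
    ‖deriv (D.f j) 0‖ * ‖deriv (D.f D.inf) 0‖ ≤ 200 := by
  have hd := r16_deriv hD D.inf
  have hdj := r16_deriv hD j
  have h1 : D.f j 0 + (‖deriv (D.f j) 0‖ / 20 : ℝ) ∈ D.disc j 1 := by
    refine r16_ball hD hj ?_
    rw [mem_ball, dist_eq_norm, add_sub_cancel_left, Complex.norm_real, Real.norm_of_nonneg (by positivity)]
    linarith
  have h2 : D.f j 0 - (‖deriv (D.f j) 0‖ / 20 : ℝ) ∈ D.disc j 1 := by
    refine r16_ball hD hj ?_
    rw [mem_ball, dist_eq_norm, sub_sub_cancel_left, norm_neg, Complex.norm_real, Real.norm_of_nonneg (by positivity)]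
    linarith
  have b1 := r16_bound hD hj h1
  have b2 := r16_bound hD hj h2
  have h3 : ‖deriv (D.f j) 0‖ / 10 ≤ ‖D.f j 0 + (‖deriv (D.f j) 0‖ / 20 : ℝ)‖ + ‖D.f j 0 - (‖deriv (D.f j) 0‖ / 20 : ℝ)‖ := by
    refine le_trans ?_ (norm_sub_le _ _)
    have : D.f j 0 + ((‖deriv (D.f j) 0‖ / 20 : ℝ) : ℂ) - (D.f j 0 - ((‖deriv (D.f j) 0‖ / 20 : ℝ) : ℂ)) =
        ((‖deriv (D.f j) 0‖ / 10 : ℝ) : ℂ) := by
      push_cast
      ring
    rw [this, Complex.norm_real, Real.norm_of_nonneg (by positivity)]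
  have h4 := mul_le_mul_of_nonneg_right h3 hd.le
  rw [add_mul] at h4
  linarith

/-- the radii after the linearisation -/
noncomputable def linRad (D : PData g) (ρ : ℝ) (j : Fin g × Bool) : ℝ :=
  if j = D.inf then (2 * ρ * ‖deriv (D.f j) 0‖)⁻¹ else 2 * ρ * ‖deriv (D.f j) 0‖

theorem lin_rnd (g : ℕ) : ∃ C ρ₀ : ℝ, 1 ≤ C ∧ 0 < ρ₀ ∧ ρ₀ ≤ 1 / 1000 ∧ ∀ ρ : ℝ, 0 < ρ → ρ ≤ ρ₀ → ∀ (D : PData g), D.Valid →
    (∀ i, ‖D.q i‖ < (2 * ρ) ^ 2) → ∃ q' : Fin g → ℂ, (∀ i, ‖q' i‖ = ‖D.q i‖ / (2 * ρ) ^ 2) ∧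
      RV D.i0 (fun j => D.f j.1 0) (linRad D ρ) q' ∧ Mv D (rnd D.i0 (fun j => D.f j.1 0) (linRad D ρ) q') C := by
  obtain ⟨C, ρ₀, hC, hρ₀, hρ₁, key⟩ := lin_univ g
  refine ⟨C, ρ₀, hC, hρ₀, hρ₁, fun ρ hρ hρle D hD hq => ?_⟩
  have hmv := key ρ hρ hρle D hD hq
  have hdp : ∀ j, 0 < ‖deriv (D.f j) 0‖ := r16_deriv hD
  have hd0 : ∀ j, deriv (D.f j) 0 ≠ 0 := fun j => norm_pos_iff.1 (hdp j)
  set c : Fin g × Bool → ℂ := fun j => (‖deriv (D.f j) 0‖ : ℂ) / deriv (D.f j) 0 with hc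
  have hcn : ∀ j, ‖c j‖ = 1 := by
    intro j
    rw [hc]
    simp only [norm_div, Complex.norm_real, norm_norm]
    exact div_self (hdp j).ne'
  have hc0 : ∀ j, c j ≠ 0 := fun j => norm_pos_iff.1 (by rw [hcn j]; exact one_pos)
  have hρ2 : (0 : ℝ) < (2 * ρ) ^ 2 := by positivity
  have hlq : ∀ i, ‖(D.linJ ρ Finset.univ).q i‖ = ‖D.q i‖ / (2 * ρ) ^ 2 := by
    intro i
    simp only [PData.linJ, norm_div, norm_pow, Complex.norm_real]
    rw [Real.norm_of_nonneg (by positivity)]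
  have hres : (D.linJ ρ Finset.univ).Resc c :=
    { pos := hc0
      le := fun j => (hcn j).le
      lt := fun i => by
        rw [hcn, hcn, one_mul, hlq, div_lt_one hρ2]
        exact hq i }
  set q' : Fin g → ℂ := ((D.linJ ρ Finset.univ).rescale c).q with hq'
  have hq'n : ∀ i, ‖q' i‖ = ‖D.q i‖ / (2 * ρ) ^ 2 := by
    intro i
    rw [hq']
    simp only [PData.rescale, norm_div, norm_mul]
    rw [hcn, hcn, one_mul, div_one]
    exact hlq i
  have hinf : ∀ j : Fin g × Bool, j = D.inf ↔ j = (D.i0, true) := fun j => Iff.rfl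
  have hradf : ∀ j : FF g D.i0, linRad D ρ j.1 = 2 * ρ * ‖deriv (D.f j.1) 0‖ := by
    intro j
    unfold linRad
    exact if_neg j.2
  have hradi : linRad D ρ (D.i0, true) = (2 * ρ * ‖deriv (D.f D.inf) 0‖)⁻¹ := by
    unfold linRad
    exact if_pos rfl
  refine ⟨q', hq'n, ?_, ?_⟩
  · refine ⟨?_, ?_, ?_, ?_, ?_⟩
    · intro j
      unfold linRad
      have := hdp j
      split_ifs <;> positivity
    · intro j k hjk
      have hjk' : j.1 ≠ k.1 := fun h => hjk (Subtype.ext h)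
      have h1 := koebe_dist hD (j := j.1) (k := k.1) j.2 k.2 hjk'
      have h2 := koebe_dist hD (j := k.1) (k := j.1) k.2 j.2 hjk'.symm
      rw [dist_comm] at h2
      rw [hradf, hradf]
      have hdist : 0 ≤ dist (D.f j.1 0) (D.f k.1 0) := dist_nonneg
      have h3 : ρ ≤ 1 / 1000 := hρle.trans hρ₁
      have e1 : 2 * ρ * ‖deriv (D.f j.1) 0‖ ≤ 2 * ρ * (10 * dist (D.f j.1 0) (D.f k.1 0)) :=
        mul_le_mul_of_nonneg_left (by linarith) (by positivity)
      have e2 : 2 * ρ * ‖deriv (D.f k.1) 0‖ ≤ 2 * ρ * (10 * dist (D.f j.1 0) (D.f k.1 0)) :=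
        mul_le_mul_of_nonneg_left (by linarith) (by positivity)
      nlinarith
    · intro j
      rw [hradf, hradi]
      have h1 := koebe_inf hD (j := j.1) j.2
      have h2 := r16_deriv_le hD (j := j.1) j.2
      have h3 : ρ ≤ 1 / 1000 := hρle.trans hρ₁
      have hdi := hdp D.inf
      rw [← one_div, le_div_iff₀ (by positivity)]
      have e1 : (‖D.f j.1 0‖ + 2 * ρ * ‖deriv (D.f j.1) 0‖) * (2 * ρ * ‖deriv (D.f D.inf) 0‖) =
          2 * ρ * (‖D.f j.1 0‖ * ‖deriv (D.f D.inf) 0‖) +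
            (2 * ρ) * (2 * ρ) * (‖deriv (D.f j.1) 0‖ * ‖deriv (D.f D.inf) 0‖) := by ring
      rw [e1]
      have e2 : 2 * ρ * (‖D.f j.1 0‖ * ‖deriv (D.f D.inf) 0‖) ≤ 2 * ρ * 10 :=
        mul_le_mul_of_nonneg_left h1 (by positivity)
      have e3 : (2 * ρ) * (2 * ρ) * (‖deriv (D.f j.1) 0‖ * ‖deriv (D.f D.inf) 0‖) ≤ (2 * ρ) * (2 * ρ) * 200 :=
        mul_le_mul_of_nonneg_left h2 (by positivity)
      nlinarith
    · intro i h0
      have := hq'n i
      rw [h0, norm_zero] at this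
      have h1 : 0 < ‖D.q i‖ / (2 * ρ) ^ 2 := div_pos (norm_pos_iff.2 (hD.q0 i)) hρ2
      linarith
    · intro i
      rw [hq'n, div_lt_one hρ2]
      exact hq i
  · have h1 := hmv.trans (mv_shrink hres)
    rw [add_zero] at h1
    have hsame : ((D.linJ ρ Finset.univ).rescale c).Same (rnd D.i0 (fun j => D.f j.1 0) (linRad D ρ) q') := by
      refine ⟨rfl, rfl, fun j z _ => ?_⟩
      by_cases hj : j = (D.i0, true)
      · subst hj
        have e : D.f (D.i0, true) 0 = 0 := hD.zero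
        have hdn := hd0 (D.i0, true)
        simp only [rnd, PData.rescale, PData.linJ, Finset.mem_univ, if_true, dif_pos, hradi, e, zero_add]
        have : D.inf = (D.i0, true) := rfl
        rw [this]
        simp only [hc]
        push_cast
        field_simp
      · have hdn := hd0 j
        have hr : linRad D ρ j = 2 * ρ * ‖deriv (D.f j) 0‖ := hradf ⟨j, hj⟩
        simp only [rnd, PData.rescale, PData.linJ, Finset.mem_univ, if_true, dif_neg hj, hr]
        simp only [hc]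
        push_cast
        field_simp
    have h2 := h1.trans hsame.mv
    rw [add_zero] at h2
    exact h2

end Pool.Agent.Lib.MP_cca10c_ag
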