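import Pool.Agent.Lib.MP_cca10c_ag.R20_Round
import Pool.Agent.Lib.MP_cca10c_ag.R14_Refined
import Pool.Agent.Lib.MP_cca10c_ag.Pl.ClBasic

/-!
# Module R: scaling a cluster of round feet (R22)

`scale_unit`: `mv_scale` and `PData.Same.mv`. `scale_total`: `N = ⌈log l⌉` (at least one) unit steps with `k = log l / N`; after `n` steps the inner
radius is `r exp (n k)`, take `ρ = √(r_n R) / exp 1`, `x = log (R / r_n) / 2 - 1`, so that `∑ exp (-(2 x_n))` is bounded by a geometric series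
(`k ≥ 1/2` unless `N = 1`); the energy of the class is bounded at every step by `St.en_cls` (the numbers `q`, hence the `L i`, do not change).
-/

set_option autoImplicit false

open Topology Set Metric
open scoped ContDiff

namespace Pool.Agent.Lib.MP_cca10c_ag

/-- the feet of a group of finite feet -/
def TT {g : ℕ} {i0 : Fin g} (J : Finset (FF g i0)) : Finset (Fin g × Bool) := J.map (Function.Embedding.subtype _)

theorem mem_TT {g : ℕ} {i0 : Fin g} (J : Finset (FF g i0)) (j : FF g i0) : j.1 ∈ TT J ↔ j ∈ J := by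
  unfold TT
  rw [Finset.mem_map]
  constructor
  · rintro ⟨a, ha, h⟩
    have h2 : a = j := Subtype.ext h
    rwa [← h2]
  · intro h
    exact ⟨j, h, rfl⟩

theorem not_mem_TT {g : ℕ} {i0 : Fin g} (J : Finset (FF g i0)) : (i0, true) ∉ TT J := by
  unfold TT
  rw [Finset.mem_map]
  rintro ⟨a, -, h⟩
  exact a.2 h

private theorem R22_mem_TT_iff {g : ℕ} {i0 : Fin g} (J : Finset (FF g i0)) (j : Fin g × Bool) (hj : j ≠ (i0, true)) :
    j ∈ TT J ↔ (⟨j, hj⟩ : FF g i0) ∈ J := mem_TT J ⟨j, hj⟩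

private theorem R22_nonneg {g : ℕ} {Z : Matrix (Fin g) (Fin g) ℂ} (hZ : Z ∈ Siegel g) (x : Fin g ⊕ Fin g → ℝ) :
    0 ≤ QF (PZ Z) x := by
  have h := (PZ_posDef hZ).posSemidef.dotProduct_mulVec_nonneg x
  rwa [star_trivial] at h

private theorem R22_polar {n : Type*} [Fintype n] {P : Matrix n n ℝ} (hP : ∀ x, 0 ≤ QF P x) (u v : n → ℝ) :
    u ⬝ᵥ (P.mulVec v) + v ⬝ᵥ (P.mulVec u) ≤ QF P u + QF P v := by
  have h := hP (u - v)
  unfold QF at h ⊢
  rw [Matrix.mulVec_sub, sub_dotProduct, dotProduct_sub, dotProduct_sub] at h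
  linarith

private theorem R22_QF_sum {n : Type*} [Fintype n] {P : Matrix n n ℝ} (hP : ∀ x, 0 ≤ QF P x) {ι : Type*} (s : Finset ι)
    (u : ι → n → ℝ) : QF P (∑ i ∈ s, u i) ≤ s.card * ∑ i ∈ s, QF P (u i) := by
  have h1 : QF P (∑ i ∈ s, u i) = ∑ i ∈ s, ∑ j ∈ s, u i ⬝ᵥ (P.mulVec (u j)) := by
    unfold QF
    rw [sum_dotProduct]
    refine Finset.sum_congr rfl fun i _ => ?_
    rw [Matrix.mulVec_sum, dotProduct_sum]
  have h2 : ∑ i ∈ s, ∑ j ∈ s, u i ⬝ᵥ (P.mulVec (u j)) = ∑ i ∈ s, ∑ j ∈ s, u j ⬝ᵥ (P.mulVec (u i)) :=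
    Finset.sum_comm
  have h3 : 2 * QF P (∑ i ∈ s, u i) ≤ ∑ i ∈ s, ∑ j ∈ s, (QF P (u i) + QF P (u j)) := by
    calc 2 * QF P (∑ i ∈ s, u i)
        = ∑ i ∈ s, ∑ j ∈ s, u i ⬝ᵥ (P.mulVec (u j)) + ∑ i ∈ s, ∑ j ∈ s, u j ⬝ᵥ (P.mulVec (u i)) := by
          rw [← h2, h1]; ring
      _ = ∑ i ∈ s, ∑ j ∈ s, (u i ⬝ᵥ (P.mulVec (u j)) + u j ⬝ᵥ (P.mulVec (u i))) := by
          rw [← Finset.sum_add_distrib]
          refine Finset.sum_congr rfl fun i _ => ?_
          rw [← Finset.sum_add_distrib]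
      _ ≤ ∑ i ∈ s, ∑ j ∈ s, (QF P (u i) + QF P (u j)) :=
          Finset.sum_le_sum fun i _ => Finset.sum_le_sum fun j _ => R22_polar hP (u i) (u j)
  have h4 : ∑ i ∈ s, ∑ j ∈ s, (QF P (u i) + QF P (u j)) = 2 * (s.card * ∑ i ∈ s, QF P (u i)) := by
    have h5 : ∀ i ∈ s, ∑ j ∈ s, (QF P (u i) + QF P (u j)) = s.card * QF P (u i) + ∑ j ∈ s, QF P (u j) := by
      intro i _
      rw [Finset.sum_add_distrib, Finset.sum_const, nsmul_eq_mul]
    rw [Finset.sum_congr rfl h5, Finset.sum_add_distrib, Finset.sum_const, nsmul_eq_mul, ← Finset.mul_sum]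
    ring
  linarith

private theorem R22_QF_smul {n : Type*} [Fintype n] (P : Matrix n n ℝ) (c : ℝ) (u : n → ℝ) :
    QF P (c • u) = c ^ 2 * QF P u := by
  unfold QF
  rw [Matrix.mulVec_smul, dotProduct_smul, smul_dotProduct]
  simp only [smul_eq_mul]
  ring

private theorem R22_zV_cls {g : ℕ} (T : Finset (Fin g × Bool)) (b : Fin g → Fin g ⊕ Fin g → ℤ) :
    zV (clsT T b) = ∑ i, (coefT T i : ℝ) • zV (b i) := by
  funext x
  unfold clsT zV
  rw [Finset.sum_apply, Finset.sum_apply]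
  push_cast
  refine Finset.sum_congr rfl fun i _ => ?_
  simp only [Pi.smul_apply, smul_eq_mul]
  push_cast
  rfl

private theorem R22_coef_sq {g : ℕ} (T : Finset (Fin g × Bool)) (i : Fin g) :
    ((coefT T i : ℝ)) ^ 2 = |(coefT T i : ℝ)| := by
  unfold coefT
  split_ifs <;> norm_num

/-- quadratic estimate of the energy of a cluster class -/
theorem St.en_cls (g : ℕ) : ∃ C : ℝ, 0 < C ∧ ∀ (D : PData g) (b : Fin g → Fin g ⊕ Fin g → ℤ)
    (Z : Matrix (Fin g) (Fin g) ℂ), St D b Z → ∀ T : Finset (Fin g × Bool),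
      En Z (clsT T b) ≤ C * ∑ i, |(coefT T i : ℝ)| / D.L i := by
  obtain ⟨C, hC, hE⟩ := St.en_handle
  refine ⟨(g + 1) * C, by positivity, fun D b Z hS T => ?_⟩
  have hZ : Z ∈ Siegel g := hS.2.1
  have hP := R22_nonneg hZ
  have h1 : En Z (clsT T b) ≤ g * ∑ i, QF (PZ Z) ((coefT T i : ℝ) • zV (b i)) := by
    unfold En
    rw [R22_zV_cls]
    have := R22_QF_sum hP Finset.univ (fun i => (coefT T i : ℝ) • zV (b i))
    rwa [Finset.card_univ, Fintype.card_fin] at this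
  have h2 : ∀ i ∈ Finset.univ, QF (PZ Z) ((coefT T i : ℝ) • zV (b i)) ≤ C * (|(coefT T i : ℝ)| / D.L i) := by
    intro i _
    rw [R22_QF_smul, R22_coef_sq]
    have h3 := hE g D b Z hS i
    calc |(coefT T i : ℝ)| * QF (PZ Z) (zV (b i)) ≤ |(coefT T i : ℝ)| * (C / D.L i) :=
          mul_le_mul_of_nonneg_left h3 (abs_nonneg _)
      _ = C * (|(coefT T i : ℝ)| / D.L i) := by ring
  have h4 : ∑ i, QF (PZ Z) ((coefT T i : ℝ) • zV (b i)) ≤ C * ∑ i, |(coefT T i : ℝ)| / D.L i := by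
    rw [Finset.mul_sum]
    exact Finset.sum_le_sum h2
  have h5 : 0 ≤ ∑ i, QF (PZ Z) ((coefT T i : ℝ) • zV (b i)) := Finset.sum_nonneg fun i _ => hP _
  calc En Z (clsT T b) ≤ g * ∑ i, QF (PZ Z) ((coefT T i : ℝ) • zV (b i)) := h1
    _ ≤ (g + 1) * ∑ i, QF (PZ Z) ((coefT T i : ℝ) • zV (b i)) :=
        mul_le_mul_of_nonneg_right (by linarith) h5
    _ ≤ (g + 1) * (C * ∑ i, |(coefT T i : ℝ)| / D.L i) :=
        mul_le_mul_of_nonneg_left h4 (by positivity)
    _ = (g + 1) * C * ∑ i, |(coefT T i : ℝ)| / D.L i := by ring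

private theorem R22_PAnn {g : ℕ} {i0 : Fin g} {p : FF g i0 → ℂ} {s : Fin g × Bool → ℝ} {q : Fin g → ℂ} (h : RV i0 p s q)
    (J : Finset (FF g i0)) (a : ℂ) (r R : ℝ) (hr : 0 < r) (hrR : r < R) (h1 : ∀ j ∈ J, ‖p j - a‖ + s j.1 ≤ r)
    (h2 : ∀ j ∉ J, R + s j.1 ≤ ‖p j - a‖) (h3 : ‖a‖ + R ≤ s (i0, true)) : (rnd i0 p s q).PAnn (TT J) a r R := by
  refine ⟨hr, hrR, ?_, ?_⟩
  · intro j hj
    have hj0 : j ≠ (i0, true) := by
      rintro rfl
      exact not_mem_TT J hj
    have hj' : (⟨j, hj0⟩ : FF g i0) ∈ J := (R22_mem_TT_iff J j hj0).1 hj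
    have hd := h.disc_fin ⟨j, hj0⟩
    simp only at hd
    rw [hd]
    intro w hw
    rw [mem_ball, dist_eq_norm] at hw
    rw [mem_closedBall, dist_eq_norm]
    have h4 := h1 _ hj'
    have h5 : w - a = (w - p ⟨j, hj0⟩) + (p ⟨j, hj0⟩ - a) := by ring
    rw [h5]
    refine (norm_add_le _ _).trans ?_
    simp only at h4
    linarith
  · intro j hj
    rw [Set.disjoint_left]
    by_cases hj0 : j = (i0, true)
    · subst hj0
      rw [h.disc_inf]
      intro w hw hw2
      rw [mem_ball, dist_eq_norm] at hw2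
      have h5 : ‖w‖ ≤ ‖w - a‖ + ‖a‖ := by
        have : w = (w - a) + a := by ring
        calc ‖w‖ = ‖(w - a) + a‖ := by rw [← this]
          _ ≤ _ := norm_add_le _ _
      have h6 : s (i0, true) < ‖w‖ := hw
      linarith
    · have hj' : (⟨j, hj0⟩ : FF g i0) ∉ J := fun hh => hj ((R22_mem_TT_iff J j hj0).2 hh)
      have hd := h.disc_fin ⟨j, hj0⟩
      simp only at hd
      rw [hd]
      intro w hw hw2
      rw [mem_ball, dist_eq_norm] at hw hw2
      have h4 := h2 _ hj'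
      simp only at h4
      have h5 : p ⟨j, hj0⟩ - a = (w - a) - (w - p ⟨j, hj0⟩) := by ring
      have h6 := norm_sub_le (w - a) (w - p ⟨j, hj0⟩)
      rw [← h5] at h6
      linarith

private theorem R22_same {g : ℕ} {i0 : Fin g} {p : FF g i0 → ℂ} {s : Fin g × Bool → ℝ} {q : Fin g → ℂ} (h : RV i0 p s q)
    (J : Finset (FF g i0)) (a : ℂ) (r R ρ k x : ℝ) (hr : 0 < r) (hx : 4 ≤ x)
    (hρ : r * Real.exp x ≤ ρ) (hR : Real.exp 2 * ρ * Real.exp x ≤ R) (h1 : ∀ j ∈ J, ‖p j - a‖ + s j.1 ≤ r)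
    (h2 : ∀ j ∉ J, R + s j.1 ≤ ‖p j - a‖) (h3 : ‖a‖ + R ≤ s (i0, true)) (σ : ℂ → ℂ)
    (hσ1 : ∀ z, ‖z - a‖ ≤ ρ → σ z = a + (Real.exp k : ℂ) * (z - a))
    (hσ2 : ∀ z, Real.exp 2 * ρ ≤ ‖z - a‖ → σ z = z) :
    ((rnd i0 p s q).map σ).Same (rnd i0 (CcaPl.scaleJ p J a (Real.exp k)) (fun j => if j ∈ TT J then Real.exp k * s j else s j) q) := by
  have hex : 1 ≤ Real.exp x := Real.one_le_exp (by linarith)
  have hrρ : r ≤ ρ := by
    calc r = r * 1 := (mul_one r).symm
      _ ≤ r * Real.exp x := mul_le_mul_of_nonneg_left hex hr.le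
      _ ≤ ρ := hρ
  have hρ0 : 0 < ρ := hr.trans_le hrρ
  have hρR : Real.exp 2 * ρ ≤ R := by
    have h4 : 0 ≤ Real.exp 2 * ρ := (mul_pos (Real.exp_pos 2) hρ0).le
    calc Real.exp 2 * ρ = Real.exp 2 * ρ * 1 := (mul_one _).symm
      _ ≤ Real.exp 2 * ρ * Real.exp x := mul_le_mul_of_nonneg_left hex h4
      _ ≤ R := hR
  refine ⟨rfl, rfl, ?_⟩
  intro j z hz
  show (if h : j = (i0, true) then z / (((if j ∈ TT J then Real.exp k * s j else s j : ℝ)) : ℂ)
      else CcaPl.scaleJ p J a (Real.exp k) ⟨j, h⟩ + ((if j ∈ TT J then Real.exp k * s j else s j : ℝ) : ℂ) * z) =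
    if j = (i0, true) then (if z = 0 then 0 else (σ ((rnd i0 p s q).f j z)⁻¹)⁻¹) else σ ((rnd i0 p s q).f j z)
  by_cases hj0 : j = (i0, true)
  · rw [dif_pos hj0, if_pos hj0]
    have hnT : j ∉ TT J := by rw [hj0]; exact not_mem_TT J
    rw [if_neg hnT]
    have hf : (rnd i0 p s q).f j z = z / (s j : ℂ) := by
      show (if h : j = (i0, true) then z / (s j : ℂ) else p ⟨j, h⟩ + (s j : ℂ) * z) = _
      rw [dif_pos hj0]
    rw [hf]
    by_cases hz0 : z = 0
    · rw [if_pos hz0, hz0, zero_div]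
    · rw [if_neg hz0]
      have hs : 0 < s j := h.s0 j
      have hs' : (s j : ℂ) ≠ 0 := by exact_mod_cast hs.ne'
      have hzn : 0 < ‖z‖ := norm_pos_iff.2 hz0
      have h5 : s j ≤ ‖(z / (s j : ℂ))⁻¹‖ := by
        rw [inv_div, norm_div, Complex.norm_real, Real.norm_of_nonneg hs.le, le_div_iff₀ hzn]
        calc s j * ‖z‖ ≤ s j * 1 := mul_le_mul_of_nonneg_left hz.le hs.le
          _ = s j := mul_one _
      have h6 : R ≤ ‖(z / (s j : ℂ))⁻¹ - a‖ := by
        have h7 := norm_sub_norm_le (z / (s j : ℂ))⁻¹ a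
        rw [hj0] at h5 h7 ⊢
        linarith
      rw [hσ2 _ (hρR.trans h6), inv_inv]
  · rw [dif_neg hj0, if_neg hj0]
    have hf : (rnd i0 p s q).f j z = p ⟨j, hj0⟩ + (s j : ℂ) * z := by
      show (if h : j = (i0, true) then z / (s j : ℂ) else p ⟨j, h⟩ + (s j : ℂ) * z) = _
      rw [dif_neg hj0]
    rw [hf]
    have hs : 0 < s j := h.s0 j
    have hsz : ‖(s j : ℂ) * z‖ ≤ s j := by
      rw [norm_mul, Complex.norm_real, Real.norm_of_nonneg hs.le]
      calc s j * ‖z‖ ≤ s j * 1 := mul_le_mul_of_nonneg_left hz.le hs.le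
        _ = s j := mul_one _
    have he : p ⟨j, hj0⟩ + (s j : ℂ) * z - a = (p ⟨j, hj0⟩ - a) + (s j : ℂ) * z := by ring
    by_cases hJ : (⟨j, hj0⟩ : FF g i0) ∈ J
    · have hT : j ∈ TT J := (R22_mem_TT_iff J j hj0).2 hJ
      rw [if_pos hT]
      have h4 := h1 _ hJ
      simp only at h4
      have h5 : ‖p ⟨j, hj0⟩ + (s j : ℂ) * z - a‖ ≤ ρ := by
        rw [he]
        refine (norm_add_le _ _).trans ?_
        linarith
      rw [hσ1 _ h5]
      unfold CcaPl.scaleJ
      rw [if_pos hJ]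
      push_cast
      ring
    · have hT : j ∉ TT J := fun hh => hJ ((R22_mem_TT_iff J j hj0).1 hh)
      rw [if_neg hT]
      have h4 := h2 _ hJ
      simp only at h4
      have h5 : R ≤ ‖p ⟨j, hj0⟩ + (s j : ℂ) * z - a‖ := by
        rw [he]
        have h6 := norm_sub_le ((p ⟨j, hj0⟩ - a) + (s j : ℂ) * z) ((s j : ℂ) * z)
        rw [add_sub_cancel_right] at h6
        linarith
      rw [hσ2 _ (hρR.trans h5)]
      unfold CcaPl.scaleJ
      rw [if_neg hJ]

theorem scale_unit : ∃ C : ℝ, 1 ≤ C ∧ ∀ (g : ℕ) (i0 : Fin g) (p : FF g i0 → ℂ) (s : Fin g × Bool → ℝ) (q : Fin g → ℂ),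
    RV i0 p s q → ∀ (J : Finset (FF g i0)) (a : ℂ) (r R ρ k x : ℝ), 0 < r → r < R → 0 ≤ k → k ≤ 1 → 4 ≤ x →
    r * Real.exp x ≤ ρ → Real.exp 2 * ρ * Real.exp x ≤ R → (∀ j ∈ J, ‖p j - a‖ + s j.1 ≤ r) →
    (∀ j ∉ J, R + s j.1 ≤ ‖p j - a‖) → ‖a‖ + R ≤ s (i0, true) →
    ∀ (b : Fin g → Fin g ⊕ Fin g → ℤ) (Z : Matrix (Fin g) (Fin g) ℂ), St (rnd i0 p s q) b Z →
      ∃ Z', St (rnd i0 (CcaPl.scaleJ p J a (Real.exp k)) (fun j => if j ∈ TT J then Real.exp k * s j else s j) q) b Z' ∧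
        Conn g Z Z' (C * (En Z (clsT (TT J) b) + Real.exp (-(2 * x)))) ∧
        LEq (C * (En Z (clsT (TT J) b) + Real.exp (-(2 * x)))) Z Z' := by
  obtain ⟨C, hC, hM⟩ := mv_scale
  refine ⟨C, hC, ?_⟩
  intro g i0 p s q h J a r R ρ k x hr hrR hk hk1 hx hρ hR h1 h2 h3 b Z hZ
  have hann := R22_PAnn h J a r R hr hrR h1 h2 h3
  obtain ⟨σ, hσ1, hσ2, hσ⟩ := hM g (rnd i0 p s q) (TT J) a r R ρ k x hann hk hk1 hx hρ hR
  obtain ⟨Z', hZ', hc, hl⟩ := hσ b Z hZ
  obtain ⟨Z'', hZ'', hc', hl'⟩ :=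
    (R22_same h J a r R ρ k x hr hx hρ hR h1 h2 h3 σ hσ1 hσ2).mv b Z' hZ'
  refine ⟨Z'', hZ'', ?_, ?_⟩
  · have := Conn.trans hZ.2.1 hZ'.2.1 hZ''.2.1 hc hc'
    rwa [add_zero] at this
  · have := hl.trans hl'
    rwa [add_zero] at this

/-- the scaled data are admissible -/
private theorem R22_RV {g : ℕ} {i0 : Fin g} {p : FF g i0 → ℂ} {s : Fin g × Bool → ℝ} {q : Fin g → ℂ} (h : RV i0 p s q)
    (J : Finset (FF g i0)) (a : ℂ) (r R l : ℝ) (hl : 0 < l) (hlR : l * r ≤ R) (h1 : ∀ j ∈ J, ‖p j - a‖ + s j.1 ≤ r)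
    (h2 : ∀ j ∉ J, R + s j.1 ≤ ‖p j - a‖) (h3 : ‖a‖ + R ≤ s (i0, true)) :
    RV i0 (CcaPl.scaleJ p J a l) (fun j => if j ∈ TT J then l * s j else s j) q := by
  have hl' : ‖(l : ℂ)‖ = l := by rw [Complex.norm_real, Real.norm_of_nonneg hl.le]
  have key : ∀ j ∈ J, ∀ k ∉ J, l * s j.1 + s k.1 ≤ dist (a + (l : ℂ) * (p j - a)) (p k) := by
    intro j hj k hk
    have e1 := h1 j hj
    have e2 := h2 k hk
    have e3 : p k - a = (l : ℂ) * (p j - a) - (a + (l : ℂ) * (p j - a) - p k) := by ring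
    have e4 := norm_sub_le ((l : ℂ) * (p j - a)) (a + (l : ℂ) * (p j - a) - p k)
    rw [← e3, norm_mul, hl'] at e4
    rw [dist_eq_norm]
    have e5 : l * (‖p j - a‖ + s j.1) ≤ l * r := mul_le_mul_of_nonneg_left e1 hl.le
    nlinarith
  refine ⟨?_, ?_, ?_, h.q0, h.q1⟩
  · intro j
    split_ifs
    · exact mul_pos hl (h.s0 j)
    · exact h.s0 j
  · intro j k hjk
    unfold CcaPl.scaleJ
    by_cases hj : j ∈ J
    · rw [if_pos hj, if_pos ((mem_TT J j).2 hj)]
      by_cases hk : k ∈ J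
      · rw [if_pos hk, if_pos ((mem_TT J k).2 hk)]
        rw [dist_eq_norm]
        have e1 : a + (l : ℂ) * (p j - a) - (a + (l : ℂ) * (p k - a)) = (l : ℂ) * (p j - p k) := by ring
        rw [e1, norm_mul, hl', ← dist_eq_norm, ← mul_add]
        exact mul_le_mul_of_nonneg_left (h.dist j k hjk) hl.le
      · rw [if_neg hk, if_neg fun hh => hk ((mem_TT J k).1 hh)]
        exact key j hj k hk
    · rw [if_neg hj, if_neg fun hh => hj ((mem_TT J j).1 hh)]
      by_cases hk : k ∈ J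
      · rw [if_pos hk, if_pos ((mem_TT J k).2 hk), add_comm, dist_comm]
        exact key k hk j hj
      · rw [if_neg hk, if_neg fun hh => hk ((mem_TT J k).1 hh)]
        exact h.dist j k hjk
  · intro j
    rw [if_neg (not_mem_TT J)]
    unfold CcaPl.scaleJ
    by_cases hj : j ∈ J
    · rw [if_pos hj, if_pos ((mem_TT J j).2 hj)]
      have e1 := norm_add_le a ((l : ℂ) * (p j - a))
      rw [norm_mul, hl'] at e1
      have e2 : l * (‖p j - a‖ + s j.1) ≤ l * r := mul_le_mul_of_nonneg_left (h1 j hj) hl.le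
      nlinarith
    · rw [if_neg hj, if_neg fun hh => hj ((mem_TT J j).1 hh)]
      exact h.out j

private theorem R22_scaleJ_scaleJ {ι : Type} [Fintype ι] [DecidableEq ι] (p : ι → ℂ) (J : Finset ι) (a : ℂ) (l m : ℝ) :
    CcaPl.scaleJ (CcaPl.scaleJ p J a l) J a m = CcaPl.scaleJ p J a (m * l) := by
  funext i
  unfold CcaPl.scaleJ
  by_cases hi : i ∈ J
  · simp only [if_pos hi]
    push_cast
    ring
  · simp only [if_neg hi]

private theorem R22_scaleJ_one {ι : Type} [Fintype ι] [DecidableEq ι] (p : ι → ℂ) (J : Finset ι) (a : ℂ) :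
    CcaPl.scaleJ p J a 1 = p := by
  funext i
  unfold CcaPl.scaleJ
  by_cases hi : i ∈ J
  · simp only [if_pos hi]
    push_cast
    ring
  · simp only [if_neg hi]

private theorem R22_exp10 : Real.exp 2 * 2 ≤ Real.exp 10 := by
  have h1 : Real.exp 10 = Real.exp 2 * Real.exp 8 := by rw [← Real.exp_add]; norm_num
  have h2 : (8 : ℝ) + 1 ≤ Real.exp 8 := Real.add_one_le_exp 8
  rw [h1]
  exact mul_le_mul_of_nonneg_left (by linarith) (Real.exp_pos 2).le

/-- the number of the steps -/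
private theorem R22_steps (l : ℝ) (hl : 1 ≤ l) : ∃ (N : ℕ) (k : ℝ), 0 ≤ k ∧ k ≤ 1 ∧ (N : ℝ) * k = Real.log l ∧
    (N : ℝ) ≤ Real.log l + 1 ∧ ∀ n : ℕ, n ≤ N → ∑ m ∈ Finset.range n, Real.exp (m * k) ≤ 2 * Real.exp (n * k) := by
  have hlog : 0 ≤ Real.log l := Real.log_nonneg hl
  by_cases h1 : Real.log l ≤ 1
  · refine ⟨1, Real.log l, hlog, h1, by simp, by simpa using hlog, ?_⟩
    intro n hn
    interval_cases n
    · simp
    · simp only [Finset.range_one, Finset.sum_singleton, Nat.cast_zero, zero_mul, Real.exp_zero, Nat.cast_one, one_mul]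
      rw [Real.exp_log (by linarith)]
      linarith
  · push Not at h1
    have hN : Real.log l ≤ (⌈Real.log l⌉₊ : ℝ) := Nat.le_ceil _
    have hN2 : (⌈Real.log l⌉₊ : ℝ) < Real.log l + 1 := Nat.ceil_lt_add_one hlog
    have hN0 : (0 : ℝ) < (⌈Real.log l⌉₊ : ℝ) := by linarith
    have hk : 1 / 2 ≤ Real.log l / (⌈Real.log l⌉₊ : ℝ) := by
      rw [le_div_iff₀ hN0]
      linarith
    refine ⟨⌈Real.log l⌉₊, Real.log l / (⌈Real.log l⌉₊ : ℝ), by positivity, ?_, ?_, hN2.le, ?_⟩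
    · rw [div_le_one hN0]
      exact hN
    · field_simp
    · generalize Real.log l / (⌈Real.log l⌉₊ : ℝ) = k at hk
      intro n _
      induction n with
      | zero => simp
      | succ n ih =>
        rw [Finset.sum_range_succ]
        have ih' := ih (by omega)
        have e1 : Real.exp (((n + 1 : ℕ) : ℝ) * k) = Real.exp (n * k) * Real.exp k := by
          rw [← Real.exp_add]
          congr 1
          push_cast
          ring
        have e2 : (3 : ℝ) / 2 ≤ Real.exp k := by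
          have := Real.add_one_le_exp k
          linarith
        rw [e1]
        have e3 : Real.exp (n * k) * (3 / 2) ≤ Real.exp (n * k) * Real.exp k :=
          mul_le_mul_of_nonneg_left e2 (Real.exp_pos _).le
        linarith

/-- scaling by an arbitrary factor `l ≥ 1` -/
theorem scale_total (g : ℕ) : ∃ C E : ℝ, 1 ≤ C ∧ 1 ≤ E ∧ ∀ (i0 : Fin g) (p : FF g i0 → ℂ) (s : Fin g × Bool → ℝ)
    (q : Fin g → ℂ), RV i0 p s q → ∀ (J : Finset (FF g i0)) (a : ℂ) (r R l : ℝ), 0 < r → 1 ≤ l → E * (l * r) ≤ R →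
    (∀ j ∈ J, ‖p j - a‖ + s j.1 ≤ r) → (∀ j ∉ J, R + s j.1 ≤ ‖p j - a‖) → ‖a‖ + R ≤ s (i0, true) →
    ∀ (b : Fin g → Fin g ⊕ Fin g → ℤ) (Z : Matrix (Fin g) (Fin g) ℂ), St (rnd i0 p s q) b Z →
      RV i0 (CcaPl.scaleJ p J a l) (fun j => if j ∈ TT J then l * s j else s j) q ∧
      ∃ Z', St (rnd i0 (CcaPl.scaleJ p J a l) (fun j => if j ∈ TT J then l * s j else s j) q) b Z' ∧
        Conn g Z Z' (C * ((Real.log l + 1) * ∑ i, |(coefT (TT J) i : ℝ)| / (rnd i0 p s q).L i + 1)) ∧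
        LEq (C * ((Real.log l + 1) * ∑ i, |(coefT (TT J) i : ℝ)| / (rnd i0 p s q).L i + 1)) Z Z' := by
  obtain ⟨Cu, hCu, hunit⟩ := scale_unit
  obtain ⟨Ce, hCe, hen⟩ := St.en_cls g
  refine ⟨Cu * (Ce + 1), Real.exp 10, ?_, Real.one_le_exp (by norm_num), ?_⟩
  · nlinarith
  intro i0 p s q h J a r R l hr hl hE h1 h2 h3 b Z hZ
  have hl0 : 0 < l := by linarith
  have hE1 : (1 : ℝ) ≤ Real.exp 10 := Real.one_le_exp (by norm_num)
  have hlr : 0 < l * r := mul_pos hl0 hr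
  have hlR : l * r ≤ R := by nlinarith
  refine ⟨R22_RV h J a r R l hl0 hlR h1 h2 h3, ?_⟩
  obtain ⟨N, k, hk0, hk1, hNk, hN, hgeo⟩ := R22_steps l hl
  have hR : 0 < R := hlr.trans_le hlR
  set Sg : ℝ := ∑ i, |(coefT (TT J) i : ℝ)| / (rnd i0 p s q).L i with hSg
  -- the induction
  have main : ∀ n : ℕ, n ≤ N → ∃ Z', St (rnd i0 (CcaPl.scaleJ p J a (Real.exp (n * k)))
      (fun j => if j ∈ TT J then Real.exp (n * k) * s j else s j) q) b Z' ∧
      Conn g Z Z' (Cu * (n * (Ce * Sg) + Real.exp 2 * (r / R) * ∑ m ∈ Finset.range n, Real.exp (m * k))) ∧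
      LEq (Cu * (n * (Ce * Sg) + Real.exp 2 * (r / R) * ∑ m ∈ Finset.range n, Real.exp (m * k))) Z Z' := by
    intro n
    induction n with
    | zero =>
      intro _
      refine ⟨Z, ?_, ?_, ?_⟩
      · have e1 : Real.exp (((0 : ℕ) : ℝ) * k) = 1 := by simp
        rw [e1, R22_scaleJ_one]
        have e2 : (fun j => if j ∈ TT J then 1 * s j else s j) = s := by
          funext j
          rw [one_mul]
          split_ifs <;> rfl
        rw [e2]
        exact hZ
      · simpa using Conn.refl hZ.mem_schottky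
      · simpa using LEq.refl hZ.2.1 le_rfl
    | succ n ih =>
      intro hn
      obtain ⟨Z1, hZ1, hc1, hl1⟩ := ih (by omega)
      have hnk : Real.exp (n * k) * Real.exp k ≤ l := by
        rw [← Real.exp_add, ← Real.exp_log hl0, ← hNk]
        apply Real.exp_le_exp.2
        have : ((n + 1 : ℕ) : ℝ) ≤ N := by exact_mod_cast hn
        push_cast at this
        nlinarith
      have hek : 1 ≤ Real.exp k := Real.one_le_exp hk0
      have hen0 : 0 < Real.exp (n * k) := Real.exp_pos _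
      have hnl : Real.exp (n * k) ≤ l := by nlinarith
      set e : ℝ := Real.exp (n * k) with he
      have hrn : 0 < e * r := mul_pos hen0 hr
      have hrnR : Real.exp 10 * (e * r) ≤ R := by
        refine le_trans ?_ hE
        exact mul_le_mul_of_nonneg_left (mul_le_mul_of_nonneg_right hnl hr.le) (by linarith)
      have hrnR' : e * r < R := by
        have : (10 : ℝ) + 1 ≤ Real.exp 10 := Real.add_one_le_exp 10
        nlinarith
      have h' : RV i0 (CcaPl.scaleJ p J a e) (fun j => if j ∈ TT J then e * s j else s j) q :=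
        R22_RV h J a r R e hen0 hrnR'.le h1 h2 h3
      have hlog10 : 10 ≤ Real.log (R / (e * r)) := by
        rw [Real.le_log_iff_exp_le (div_pos hR hrn), le_div_iff₀ hrn]
        exact hrnR
      have hsq : 0 < Real.sqrt (R / (e * r)) := Real.sqrt_pos.2 (div_pos hR hrn)
      have hexpx : Real.exp (Real.log (R / (e * r)) / 2 - 1) = Real.sqrt (R / (e * r)) / Real.exp 1 := by
        rw [Real.exp_sub, Real.sqrt_eq_rpow, Real.rpow_def_of_pos (div_pos hR hrn)]
        congr 2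
        ring
      have hss : Real.sqrt (R / (e * r)) * Real.sqrt (R / (e * r)) = R / (e * r) :=
        Real.mul_self_sqrt (div_pos hR hrn).le
      have he2 : Real.exp 2 = Real.exp 1 * Real.exp 1 := by rw [← Real.exp_add]; norm_num
      have he1 : Real.exp 1 ≠ 0 := (Real.exp_pos 1).ne'
      obtain ⟨Z2, hZ2, hc2, hl2⟩ := hunit g i0 (CcaPl.scaleJ p J a e) (fun j => if j ∈ TT J then e * s j else s j) q h' J a
        (e * r) R (e * r * Real.sqrt (R / (e * r)) / Real.exp 1) k (Real.log (R / (e * r)) / 2 - 1) hrn hrnR' hk0 hk1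
        (by linarith) (by rw [hexpx, mul_div_assoc])
        (by
          rw [hexpx]
          have e3 : Real.exp 2 * (e * r * Real.sqrt (R / (e * r)) / Real.exp 1) * (Real.sqrt (R / (e * r)) / Real.exp 1) =
              e * r * (Real.sqrt (R / (e * r)) * Real.sqrt (R / (e * r))) := by
            rw [he2]
            field_simp
          rw [e3, hss, mul_div_cancel₀ _ hrn.ne'])
        (by
          intro j hj
          unfold CcaPl.scaleJ
          rw [if_pos hj, if_pos ((mem_TT J j).2 hj), add_sub_cancel_left, norm_mul, Complex.norm_real,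
            Real.norm_of_nonneg hen0.le, ← mul_add]
          exact mul_le_mul_of_nonneg_left (h1 j hj) hen0.le)
        (by
          intro j hj
          unfold CcaPl.scaleJ
          rw [if_neg hj, if_neg fun hh => hj ((mem_TT J j).1 hh)]
          exact h2 j hj)
        (by
          rw [if_neg (not_mem_TT J)]
          exact h3)
        b Z1 hZ1
      have hstep : Real.exp (((n + 1 : ℕ) : ℝ) * k) = Real.exp k * e := by
        rw [he, ← Real.exp_add]
        congr 1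
        push_cast
        ring
      have henZ : En Z1 (clsT (TT J) b) ≤ Ce * Sg := hen _ b Z1 hZ1 (TT J)
      have hexp2x : Real.exp (-(2 * (Real.log (R / (e * r)) / 2 - 1))) = Real.exp 2 * (r / R) * e := by
        have e4 : -(2 * (Real.log (R / (e * r)) / 2 - 1)) = 2 - Real.log (R / (e * r)) := by ring
        rw [e4, Real.exp_sub, Real.exp_log (div_pos hR hrn)]
        field_simp
      have hcost : Cu * (n * (Ce * Sg) + Real.exp 2 * (r / R) * ∑ m ∈ Finset.range n, Real.exp (m * k)) +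
          Cu * (En Z1 (clsT (TT J) b) + Real.exp (-(2 * (Real.log (R / (e * r)) / 2 - 1)))) ≤
          Cu * (((n + 1 : ℕ) : ℝ) * (Ce * Sg) + Real.exp 2 * (r / R) * ∑ m ∈ Finset.range (n + 1), Real.exp (m * k)) := by
        rw [hexp2x, Finset.sum_range_succ, ← mul_add]
        refine mul_le_mul_of_nonneg_left ?_ (by linarith)
        push_cast
        rw [← he]
        nlinarith
      refine ⟨Z2, ?_, ?_, ?_⟩
      · rw [hstep]
        rw [R22_scaleJ_scaleJ] at hZ2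
        have e5 : (fun j => if j ∈ TT J then Real.exp k * e * s j else s j) =
            fun j => if j ∈ TT J then Real.exp k * (if j ∈ TT J then e * s j else s j) else
              (if j ∈ TT J then e * s j else s j) := by
          funext j
          by_cases hj : j ∈ TT J
          · simp only [if_pos hj]
            ring
          · simp only [if_neg hj]
        rw [e5]
        exact hZ2
      · exact (Conn.trans hZ.2.1 hZ1.2.1 hZ2.2.1 hc1 hc2).mono hcost
      · exact (hl1.trans hl2).mono hZ.2.1 hZ2.2.1 hcost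
  obtain ⟨Z', hZ', hc, hle⟩ := main N le_rfl
  have hlN : Real.exp ((N : ℝ) * k) = l := by rw [hNk, Real.exp_log hl0]
  rw [hlN] at hZ'
  have hSg0 : 0 ≤ Sg := by
    refine Finset.sum_nonneg fun i _ => div_nonneg (abs_nonneg _) ?_
    show 0 ≤ -Real.log ‖q i‖
    have := Real.log_nonpos (norm_nonneg _) (h.q1 i).le
    linarith
  have hfin : Cu * (N * (Ce * Sg) + Real.exp 2 * (r / R) * ∑ m ∈ Finset.range N, Real.exp (m * k)) ≤
      Cu * (Ce + 1) * ((Real.log l + 1) * Sg + 1) := by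
    have hg := hgeo N le_rfl
    rw [hlN] at hg
    have e6 : Real.exp 2 * (r / R) * ∑ m ∈ Finset.range N, Real.exp (m * k) ≤ 1 := by
      have hq : 0 ≤ Real.exp 2 * (r / R) := by positivity
      refine (mul_le_mul_of_nonneg_left hg hq).trans ?_
      have e7 : Real.exp 2 * (r / R) * (2 * l) = (Real.exp 2 * 2) * (l * r) / R := by ring
      rw [e7, div_le_one hR]
      refine le_trans ?_ hE
      exact mul_le_mul_of_nonneg_right R22_exp10 hlr.le
    have e8 : (N : ℝ) * (Ce * Sg) ≤ Ce * ((Real.log l + 1) * Sg) := by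
      have := mul_le_mul_of_nonneg_right hN (mul_nonneg hCe.le hSg0)
      linarith
    have hlog : 0 ≤ Real.log l := Real.log_nonneg hl
    have e9 : 0 ≤ (Real.log l + 1) * Sg := mul_nonneg (by linarith) hSg0
    calc Cu * (N * (Ce * Sg) + Real.exp 2 * (r / R) * ∑ m ∈ Finset.range N, Real.exp (m * k))
        ≤ Cu * (Ce * ((Real.log l + 1) * Sg) + 1) := mul_le_mul_of_nonneg_left (by linarith) (by linarith)
      _ ≤ Cu * ((Ce + 1) * ((Real.log l + 1) * Sg + 1)) := by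
          refine mul_le_mul_of_nonneg_left ?_ (by linarith)
          nlinarith
      _ = Cu * (Ce + 1) * ((Real.log l + 1) * Sg + 1) := by ring
  exact ⟨Z', hZ', hc.mono hfin, hle.mono hZ.2.1 hZ'.2.1 hfin⟩

end Pool.Agent.Lib.MP_cca10c_ag
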