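import Pool.Agent.Lib.MP_cca10c_ag.R21_Push
import Pool.Agent.Lib.MP_cca10c_ag.R22_Scale

/-!
# Module R: round data with standard radii (stub R24)

`SR i0 w q`: positions `w k - w (bf i0)`, radii `nn w k / 100`, the foot at infinity has radius `100 * dm w univ`.
`renorm`: `mv_push` with `T = univ`, `a = 0`, `d = 400 * dm w univ` (translation by `-v`), then `mv_radii` (`q' = q * kap * kap`).
-/

set_option autoImplicit false

open Topology Set Metric
open scoped ContDiff

namespace Pool.Agent.Lib.MP_cca10c_ag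

variable {g : ℕ}

/-- the base foot -/
def bf (i0 : Fin g) : FF g i0 := ⟨(i0, false), by simp⟩

/-- normalised configuration -/
noncomputable def nrm (i0 : Fin g) (w : FF g i0 → ℂ) : FF g i0 → ℂ := fun k => w k - w (bf i0)

/-- standard radii -/
noncomputable def srad (i0 : Fin g) (w : FF g i0 → ℂ) (j : Fin g × Bool) : ℝ :=
  if h : j = (i0, true) then 100 * CcaPl.dm w Finset.univ else CcaPl.nn w ⟨j, h⟩ / 100

/-- round data with standard radii -/
noncomputable def SR (i0 : Fin g) (w : FF g i0 → ℂ) (q : Fin g → ℂ) : PData g := rnd i0 (nrm i0 w) (srad i0 w) q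

variable {i0 : Fin g} {w : FF g i0 → ℂ} {q : Fin g → ℂ}

theorem card_FF (i0 : Fin g) : Fintype.card (FF g i0) = 2 * g - 1 := by
  have h : Fintype.card (FF g i0) = Fintype.card (Fin g × Bool) - Fintype.card {j : Fin g × Bool // j = (i0, true)} :=
    Fintype.card_subtype_compl (fun j : Fin g × Bool => j = (i0, true))
  rw [h, Fintype.card_subtype_eq, Fintype.card_prod, Fintype.card_fin, Fintype.card_bool, mul_comm]

private theorem R24_dm_add (w : FF g i0 → ℂ) (v : ℂ) (J : Finset (FF g i0)) :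
    CcaPl.dm (fun k => w k + v) J = CcaPl.dm w J := by
  simp only [CcaPl.dm, dist_add_right]

private theorem R24_sp_add (w : FF g i0 → ℂ) (v : ℂ) (J : Finset (FF g i0)) :
    CcaPl.sp (fun k => w k + v) J = CcaPl.sp w J := by
  simp only [CcaPl.sp, dist_add_right]

private theorem R24_dist_mul (w : FF g i0 → ℂ) {l : ℝ} (hl : 0 < l) (i k : FF g i0) :
    dist ((l : ℂ) * w i) ((l : ℂ) * w k) = l * dist (w i) (w k) := by
  rw [dist_eq_norm, ← mul_sub, norm_mul, Complex.norm_real, Real.norm_of_nonneg hl.le, dist_eq_norm]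

private theorem R24_dm_mul (w : FF g i0 → ℂ) {l : ℝ} (hl : 0 < l) {J : Finset (FF g i0)} (hJ : J.Nonempty) :
    CcaPl.dm (fun k => (l : ℂ) * w k) J = l * CcaPl.dm w J := by
  apply le_antisymm
  · refine CcaPl.dm_le _ _ (mul_nonneg hl.le (CcaPl.dm_nonneg _ _)) fun i hi k hk => ?_
    rw [R24_dist_mul w hl]
    exact mul_le_mul_of_nonneg_left (CcaPl.dist_le_dm w J hi hk) hl.le
  · obtain ⟨i, hi, k, hk, h⟩ := CcaPl.exists_dm w J hJ
    rw [h, ← R24_dist_mul w hl]
    exact CcaPl.dist_le_dm (fun k => (l : ℂ) * w k) J hi hk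

private theorem R24_sp_mul (w : FF g i0 → ℂ) {l : ℝ} (hl : 0 < l) {J : Finset (FF g i0)} (hJ : J.Nonempty)
    (hJ' : J ≠ Finset.univ) : CcaPl.sp (fun k => (l : ℂ) * w k) J = l * CcaPl.sp w J := by
  apply le_antisymm
  · obtain ⟨i, hi, k, hk, h⟩ := CcaPl.exists_sp w J hJ hJ'
    rw [h, ← R24_dist_mul w hl]
    exact CcaPl.sp_le_dist (fun k => (l : ℂ) * w k) J hi hk
  · refine CcaPl.le_sp _ _ hJ hJ' fun i hi k hk => ?_
    rw [R24_dist_mul w hl]
    exact mul_le_mul_of_nonneg_left (CcaPl.sp_le_dist w J hi hk) hl.le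

private theorem R24_pos (hg : 2 ≤ g) (hw : Function.Injective w) : 0 < CcaPl.dm w Finset.univ :=
  CcaPl.dm_pos w hw _ (by rw [Finset.card_univ, card_FF]; omega)

private theorem R24_ne (hg : 2 ≤ g) (k : FF g i0) : ({k} : Finset (FF g i0)) ≠ Finset.univ := by
  intro h
  have h1 := congrArg Finset.card h
  rw [Finset.card_singleton, Finset.card_univ, card_FF] at h1
  omega

private theorem R24_nn_pos (hg : 2 ≤ g) (hw : Function.Injective w) (k : FF g i0) : 0 < CcaPl.nn w k :=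
  CcaPl.sp_pos w hw {k} (Finset.singleton_nonempty k) (R24_ne hg k)

private theorem R24_nn_le (hg : 2 ≤ g) (w : FF g i0 → ℂ) (k : FF g i0) : CcaPl.nn w k ≤ CcaPl.dm w Finset.univ := by
  obtain ⟨i, _, m, _, h⟩ := CcaPl.exists_sp w {k} (Finset.singleton_nonempty k) (R24_ne hg k)
  unfold CcaPl.nn
  rw [h]
  exact CcaPl.dist_le_dm _ _ (Finset.mem_univ _) (Finset.mem_univ _)

private theorem R24_nn_dist (w : FF g i0 → ℂ) {j k : FF g i0} (h : j ≠ k) : CcaPl.nn w j ≤ dist (w j) (w k) :=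
  CcaPl.sp_le_dist w {j} (Finset.mem_singleton_self j) (by simpa using h.symm)

private theorem R24_sf (w : FF g i0 → ℂ) (j : FF g i0) : srad i0 w j.1 = CcaPl.nn w j / 100 := by
  unfold srad
  rw [dif_neg j.2]

private theorem R24_si (w : FF g i0 → ℂ) : srad i0 w (i0, true) = 100 * CcaPl.dm w Finset.univ := by
  unfold srad
  rw [dif_pos rfl]

private theorem R24_s0 (hg : 2 ≤ g) (hw : Function.Injective w) (j : Fin g × Bool) : 0 < srad i0 w j := by
  unfold srad
  split_ifs with hj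
  · have := R24_pos hg hw
    positivity
  · exact div_pos (R24_nn_pos hg hw _) (by norm_num)

private theorem R24_dist_nrm (w : FF g i0 → ℂ) (j k : FF g i0) :
    dist (nrm i0 w j) (nrm i0 w k) = dist (w j) (w k) := by
  unfold nrm
  rw [dist_sub_right]

private theorem R24_norm_nrm (w : FF g i0 → ℂ) (j : FF g i0) : ‖nrm i0 w j‖ ≤ CcaPl.dm w Finset.univ := by
  unfold nrm
  rw [← dist_eq_norm]
  exact CcaPl.dist_le_dm _ _ (Finset.mem_univ _) (Finset.mem_univ _)

/-- data with the radii comparable to the standard ones -/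
private theorem R24_rv (hg : 2 ≤ g) (hw : Function.Injective w) {s : Fin g × Bool → ℝ}
    (hs : ∀ j, srad i0 w j / 2 ≤ s j ∧ s j ≤ 2 * srad i0 w j) (h0 : ∀ i, q i ≠ 0) (h1 : ∀ i, ‖q i‖ < 1) :
    RV i0 (nrm i0 w) s q := by
  have hd := R24_pos hg hw
  refine ⟨fun j => ?_, fun j k hjk => ?_, fun j => ?_, h0, h1⟩
  · have := R24_s0 hg hw j
    have := (hs j).1
    linarith
  · rw [R24_dist_nrm]
    have e1 := R24_nn_dist w hjk
    have e2 := R24_nn_dist w hjk.symm
    rw [dist_comm] at e2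
    have e3 := (hs j.1).2
    have e4 := (hs k.1).2
    rw [R24_sf] at e3 e4
    have e5 := dist_nonneg (x := w j) (y := w k)
    linarith
  · have e1 := R24_norm_nrm w j
    have e2 := R24_nn_le hg w j
    have e3 := (hs j.1).2
    have e4 := (hs (i0, true)).1
    rw [R24_sf] at e3
    rw [R24_si] at e4
    linarith

theorem SR_rv (hg : 2 ≤ g) (hw : Function.Injective w) (h0 : ∀ i, q i ≠ 0) (h1 : ∀ i, ‖q i‖ < 1) :
    RV i0 (nrm i0 w) (srad i0 w) q := by
  refine R24_rv hg hw (fun j => ?_) h0 h1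
  have := R24_s0 hg hw j
  constructor <;> linarith

theorem St.rv_SR (hg : 2 ≤ g) (hw : Function.Injective w) {b : Fin g → Fin g ⊕ Fin g → ℤ} {Z : Matrix (Fin g) (Fin g) ℂ}
    (h : St (SR i0 w q) b Z) : RV i0 (nrm i0 w) (srad i0 w) q :=
  SR_rv hg hw h.1.q0 h.1.q1

theorem SR_translate (v : ℂ) : SR i0 (fun k => w k + v) q = SR i0 w q := by
  have e1 : nrm i0 (fun k => w k + v) = nrm i0 w := by
    funext k
    unfold nrm
    ring
  have e2 : srad i0 (fun k => w k + v) = srad i0 w := by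
    funext j
    unfold srad CcaPl.nn
    rw [R24_dm_add]
    split_ifs with hj
    · rfl
    · rw [R24_sp_add]
  unfold SR
  rw [e1, e2]

theorem mv_SR_homothety (hg : 2 ≤ g) (hw : Function.Injective w) {l : ℝ} (hl : 0 < l) :
    Mv (SR i0 w q) (SR i0 (fun k => (l : ℂ) * w k) q) 0 := by
  intro b Z hZ
  have hm := mv_homothety (hZ.rv_SR hg hw) hl
  have e1 : nrm i0 (fun k => (l : ℂ) * w k) = fun k => (l : ℂ) * nrm i0 w k := by
    funext k
    unfold nrm
    ring
  have e2 : srad i0 (fun k => (l : ℂ) * w k) = fun j => l * srad i0 w j := by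
    funext j
    unfold srad CcaPl.nn
    rw [R24_dm_mul w hl ⟨bf i0, Finset.mem_univ _⟩]
    split_ifs with hj
    · ring
    · rw [R24_sp_mul w hl (Finset.singleton_nonempty _) (R24_ne hg _)]
      ring
  have e3 : SR i0 (fun k => (l : ℂ) * w k) q =
      rnd i0 (fun j => (l : ℂ) * nrm i0 w j) (fun j => l * srad i0 w j) q := by
    unfold SR
    rw [e1, e2]
  rw [e3]
  exact hm b Z hZ

private theorem R24_log2 : Real.log 2 ≤ 1 := by
  have := Real.log_two_lt_d9
  linarith

/-- back to the standard radii and the normalised position -/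
theorem renorm (g : ℕ) (hg : 2 ≤ g) : ∃ C : ℝ, 1 ≤ C ∧ ∀ (i0 : Fin g) (p w : FF g i0 → ℂ) (s : Fin g × Bool → ℝ) (q : Fin g → ℂ)
    (v : ℂ), Function.Injective w → RV i0 p s q → (∀ i, 4 ≤ (rnd i0 p s q).L i) → (∀ k, p k = nrm i0 w k + v) →
    ‖v‖ ≤ CcaPl.dm w Finset.univ / 10 → (∀ j, srad i0 w j / 2 ≤ s j ∧ s j ≤ 2 * srad i0 w j) →
      ∃ q' : Fin g → ℂ, (∀ i, |(SR i0 w q').L i - (rnd i0 p s q).L i| ≤ 2) ∧ Mv (rnd i0 p s q) (SR i0 w q') C := by
  obtain ⟨C, hC, H⟩ := mv_push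
  refine ⟨C, hC, fun i0 p w s q v hw hRV hL hp hv hs => ?_⟩
  have hd := R24_pos hg hw
  have hRV' : RV i0 (nrm i0 w) s q := R24_rv hg hw hs hRV.q0 hRV.q1
  -- the translation
  have hpush := H g i0 p s q hRV Finset.univ 0 (-v) (400 * CcaPl.dm w Finset.univ) (by positivity)
    (by rw [norm_neg]; linarith)
    (fun j _ => by
      have e1 := R24_norm_nrm w j
      have e2 := R24_nn_le hg w j
      have e3 := (hs j.1).2
      rw [R24_sf] at e3
      have e4 : ‖p j - 0‖ ≤ ‖nrm i0 w j‖ + ‖v‖ := by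
        rw [sub_zero, hp j]
        exact norm_add_le _ _
      linarith)
    (fun j hj => absurd (Finset.mem_univ j) hj)
    (by
      have e4 := (hs (i0, true)).1
      rw [R24_si] at e4
      rw [norm_zero]
      linarith)
  have e1 : (fun j => if j ∈ (Finset.univ : Finset (FF g i0)) then p j + -v else p j) = nrm i0 w := by
    funext j
    rw [if_pos (Finset.mem_univ j), hp j]
    ring
  rw [e1] at hpush
  -- the radii
  have hs0 := hRV.s0
  have hS0 := R24_s0 (i0 := i0) hg hw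
  have hk : ∀ j, 1 / 2 ≤ kap i0 s (srad i0 w) j ∧ kap i0 s (srad i0 w) j ≤ 2 := by
    intro j
    have h1 := hs0 j
    have h2 := hS0 j
    obtain ⟨h3, h4⟩ := hs j
    unfold kap
    split_ifs
    · rw [le_div_iff₀ h1, div_le_iff₀ h1]
      constructor <;> linarith
    · rw [le_div_iff₀ h2, div_le_iff₀ h2]
      constructor <;> linarith
  have hk0 : ∀ j, 0 < kap i0 s (srad i0 w) j := fun j => lt_of_lt_of_le (by norm_num) (hk j).1
  obtain ⟨q', hq'⟩ : ∃ q' : Fin g → ℂ, ∀ i, q' i = q i *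
      ((kap i0 s (srad i0 w) (i, false) * kap i0 s (srad i0 w) (i, true) : ℝ) : ℂ) := ⟨_, fun i => rfl⟩
  have hqe : ∀ i, ‖q i‖ ≤ Real.exp (-4) := by
    intro i
    have h1 : 4 ≤ -Real.log ‖q i‖ := hL i
    have h2 : 0 < ‖q i‖ := norm_pos_iff.2 (hRV.q0 i)
    rw [← Real.exp_log h2]
    exact Real.exp_le_exp.2 (by linarith)
  have hexp4 : Real.exp (-4) < 1 / 16 := by
    rw [Real.exp_neg, inv_lt_comm₀ (Real.exp_pos _) (by norm_num)]
    have h1 : Real.exp 4 = Real.exp 1 ^ 4 := by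
      rw [← Real.exp_nat_mul]
      norm_num
    rw [h1]
    have h2 := Real.exp_one_gt_d9
    have h3 : (2.7 : ℝ) ^ 4 ≤ Real.exp 1 ^ 4 := pow_le_pow_left₀ (by norm_num) (by linarith) 4
    norm_num at h3 ⊢
    linarith
  have hkk : ∀ i, kap i0 s (srad i0 w) (i, false) * kap i0 s (srad i0 w) (i, true) ≤ 4 := by
    intro i
    have h1 := hk (i, false)
    have h2 := hk (i, true)
    have h3 := hk0 (i, false)
    have h4 := hk0 (i, true)
    nlinarith
  have hkk' : ∀ i, 1 / 4 ≤ kap i0 s (srad i0 w) (i, false) * kap i0 s (srad i0 w) (i, true) := by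
    intro i
    have h1 := hk (i, false)
    have h2 := hk (i, true)
    nlinarith
  have hkn : ∀ i, ‖((kap i0 s (srad i0 w) (i, false) * kap i0 s (srad i0 w) (i, true) : ℝ) : ℂ)‖ =
      kap i0 s (srad i0 w) (i, false) * kap i0 s (srad i0 w) (i, true) := fun i => by
    rw [Complex.norm_real, Real.norm_of_nonneg (mul_pos (hk0 _) (hk0 _)).le]
  have hq'n : ∀ i, ‖q' i‖ = ‖q i‖ * (kap i0 s (srad i0 w) (i, false) * kap i0 s (srad i0 w) (i, true)) := fun i => by
    rw [hq' i, norm_mul, hkn]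
  have hq1 : ∀ i, ‖q i‖ < 1 / 4 := fun i => by
    have := hqe i
    linarith
  have hq2 : ∀ i, ‖q' i‖ < 1 / 4 := fun i => by
    rw [hq'n]
    have h1 := hqe i
    have h2 := hkk i
    have h3 := norm_nonneg (q i)
    nlinarith
  have hq0' : ∀ i, q' i ≠ 0 := fun i => by
    rw [hq' i]
    refine mul_ne_zero (hRV.q0 i) ?_
    exact Complex.ofReal_ne_zero.2 (mul_pos (hk0 _) (hk0 _)).ne'
  have hRV2 : RV i0 (nrm i0 w) (srad i0 w) q' := SR_rv hg hw hq0' fun i => (hq2 i).trans (by norm_num)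
  have hrad := mv_radii hRV' hRV2 hq' hk hq1 hq2
  refine ⟨q', fun i => ?_, ?_⟩
  · change |(-Real.log ‖q' i‖) - (-Real.log ‖q i‖)| ≤ 2
    rw [hq'n, Real.log_mul (norm_pos_iff.2 (hRV.q0 i)).ne' (mul_pos (hk0 _) (hk0 _)).ne']
    have hl2 := R24_log2
    have h1 : Real.log (kap i0 s (srad i0 w) (i, false) * kap i0 s (srad i0 w) (i, true)) ≤ 2 := by
      refine (Real.log_le_log (mul_pos (hk0 _) (hk0 _)) (hkk i)).trans ?_
      have : (4 : ℝ) = 2 ^ 2 := by norm_num
      rw [this, Real.log_pow]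
      push_cast
      linarith
    have h2 : -2 ≤ Real.log (kap i0 s (srad i0 w) (i, false) * kap i0 s (srad i0 w) (i, true)) := by
      refine le_trans ?_ (Real.log_le_log (by norm_num) (hkk' i))
      have : (1 / 4 : ℝ) = (2 ^ 2)⁻¹ := by norm_num
      rw [this, Real.log_inv, Real.log_pow]
      push_cast
      linarith
    rw [abs_le]
    constructor <;> linarith
  · have := hpush.trans hrad
    rwa [add_zero] at this

end Pool.Agent.Lib.MP_cca10c_ag
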