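import Pool.Agent.Lib.MP_cca10c_ag.R16_LinRnd
import Pool.Agent.Lib.MP_cca10c_ag.R24_SR

/-!
# Module R: from arbitrary planar data to round data with standard radii (stub R17)

Translate the plane so that `f (bf) 0 = 0` (`mv_conf`; `f (bf) 0` is not in the disc of the foot at infinity), apply `lin_rnd` with
`ρ = min ρ₀ (1/4000)`, then enlarge the discs to the standard radii (`mv_radii_le`): `linRad j = 2 ρ ‖f j'‖ ≤ nn / 100` by `koebe_dist`, and
`100 * dm ≤ 2000 / ‖f_inf'‖ ≤ (2 ρ ‖f_inf'‖)⁻¹` by `koebe_inf`. Here `w j = D'.f j 0` for the translated data `D'`, so `w (bf i0) = 0`, `nrm w = w`.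
-/

set_option autoImplicit false

open Topology Set Metric
open scoped ContDiff

namespace Pool.Agent.Lib.MP_cca10c_ag

/-- the case in which the base foot is at the origin -/
private theorem R17_base (g : ℕ) (hg : 2 ≤ g) {C ρ : ℝ} (hρ0 : 0 < ρ) (hρ : ρ ≤ 1 / 4000) (D : PData g) (hD : D.Valid)
    (hbase : D.f (bf D.i0).1 0 = 0)
    (q1 : Fin g → ℂ) (hq1 : ∀ i, ‖q1 i‖ = ‖D.q i‖ / (2 * ρ) ^ 2)
    (hRV : RV D.i0 (fun j => D.f j.1 0) (linRad D ρ) q1)
    (hMv : Mv D (rnd D.i0 (fun j => D.f j.1 0) (linRad D ρ) q1) C) :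
    ∃ (w : FF g D.i0 → ℂ) (q' : Fin g → ℂ), Function.Injective w ∧
      (∀ i, D.L i - (-Real.log ((2 * ρ) ^ 2)) ≤ (SR D.i0 w q').L i) ∧ Mv D (SR D.i0 w q') C := by
  have hinf : D.inf = (D.i0, true) := rfl
  obtain ⟨w, hw⟩ : ∃ w : FF g D.i0 → ℂ, w = fun j => D.f j.1 0 := ⟨_, rfl⟩
  have hwj : ∀ j : FF g D.i0, w j = D.f j.1 0 := fun j => by rw [hw]
  -- radii are positive
  have hs0 : ∀ j, 0 < linRad D ρ j := hRV.s0
  have hsfin : ∀ j : FF g D.i0, linRad D ρ j.1 = 2 * ρ * ‖deriv (D.f j.1) 0‖ := fun j => by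
    unfold linRad
    rw [if_neg]
    rw [hinf]
    exact j.2
  have hsinf : linRad D ρ (D.i0, true) = (2 * ρ * ‖deriv (D.f D.inf) 0‖)⁻¹ := by
    unfold linRad
    rw [if_pos hinf.symm, hinf]
  -- injectivity
  have hinj : Function.Injective w := by
    intro j k hjk
    by_contra hne
    have h1 := hRV.dist j k hne
    have h2 := hs0 j.1
    have h3 := hs0 k.1
    rw [hwj, hwj] at hjk
    simp only [hjk, dist_self] at h1
    linarith
  have hcard := card_FF D.i0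
  have hcard2 : 2 ≤ (Finset.univ : Finset (FF g D.i0)).card := by
    rw [Finset.card_univ, hcard]
    omega
  have hne_univ : ∀ j : FF g D.i0, ({j} : Finset (FF g D.i0)) ≠ Finset.univ := by
    intro j h
    rw [← h, Finset.card_singleton] at hcard2
    omega
  have hnrm : nrm D.i0 w = w := by
    funext k
    unfold nrm
    rw [hwj (bf D.i0), hbase, sub_zero]
  -- comparison of radii
  have hnn : ∀ j : FF g D.i0, ‖deriv (D.f j.1) 0‖ / 10 ≤ CcaPl.nn w j := by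
    intro j
    refine CcaPl.le_sp w {j} (Finset.singleton_nonempty j) (hne_univ j) ?_
    intro i hi k hk
    rw [Finset.mem_singleton] at hi hk
    subst hi
    rw [hwj, hwj]
    refine koebe_dist hD i.2 k.2 ?_
    intro h
    exact hk (Subtype.ext h).symm
  have hdpos : ∀ j : FF g D.i0, 0 < ‖deriv (D.f j.1) 0‖ := by
    intro j
    have h1 := hs0 j.1
    rw [hsfin j] at h1
    exact pos_of_mul_pos_right h1 (by positivity)
  have hdinf : 0 < ‖deriv (D.f D.inf) 0‖ := by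
    have h1 := hs0 (D.i0, true)
    rw [hsinf] at h1
    have h2 := inv_pos.1 h1
    exact pos_of_mul_pos_right h2 (by positivity)
  have hdm : CcaPl.dm w Finset.univ ≤ 20 / ‖deriv (D.f D.inf) 0‖ := by
    refine CcaPl.dm_le w _ (by positivity) ?_
    intro i _ k _
    have h1 : ∀ j : FF g D.i0, ‖w j‖ ≤ 10 / ‖deriv (D.f D.inf) 0‖ := by
      intro j
      rw [hwj, le_div_iff₀ hdinf]
      exact koebe_inf hD j.2
    have h2 := h1 i
    have h3 := h1 k
    have h4 : dist (w i) (w k) ≤ ‖w i‖ + ‖w k‖ := by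
      rw [dist_eq_norm]
      exact norm_sub_le _ _
    have h5 : 20 / ‖deriv (D.f D.inf) 0‖ = 10 / ‖deriv (D.f D.inf) 0‖ + 10 / ‖deriv (D.f D.inf) 0‖ := by ring
    linarith
  have hdmpos : 0 < CcaPl.dm w Finset.univ := CcaPl.dm_pos w hinj _ hcard2
  have hsrfin : ∀ j : FF g D.i0, srad D.i0 w j.1 = CcaPl.nn w j / 100 := by
    intro j
    unfold srad
    rw [dif_neg j.2]
  have hsrinf : srad D.i0 w (D.i0, true) = 100 * CcaPl.dm w Finset.univ := by
    unfold srad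
    rw [dif_pos rfl]
  have hnnpos : ∀ j : FF g D.i0, 0 < CcaPl.nn w j := fun j => by
    have h1 := hnn j
    have h2 := hdpos j
    linarith
  have hkap : ∀ j, 0 < kap D.i0 (linRad D ρ) (srad D.i0 w) j ∧ kap D.i0 (linRad D ρ) (srad D.i0 w) j ≤ 1 := by
    intro j
    by_cases hj : j = (D.i0, true)
    · subst hj
      unfold kap
      rw [if_pos rfl, hsinf, hsrinf]
      refine ⟨by positivity, ?_⟩
      rw [div_inv_eq_mul]
      have h1 : 100 * CcaPl.dm w Finset.univ * (2 * ρ * ‖deriv (D.f D.inf) 0‖) =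
          200 * ρ * (CcaPl.dm w Finset.univ * ‖deriv (D.f D.inf) 0‖) := by ring
      rw [h1]
      have h2 : CcaPl.dm w Finset.univ * ‖deriv (D.f D.inf) 0‖ ≤ 20 := by
        rwa [le_div_iff₀ hdinf] at hdm
      have h3 : 0 ≤ 200 * ρ := by positivity
      have h4 := mul_le_mul_of_nonneg_left h2 h3
      linarith
    · have e1 := hsfin ⟨j, hj⟩
      have e2 := hsrfin ⟨j, hj⟩
      simp only at e1 e2
      unfold kap
      rw [if_neg hj, e1, e2]
      have h1 := hnn ⟨j, hj⟩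
      have h2 := hdpos ⟨j, hj⟩
      have h3 := hnnpos ⟨j, hj⟩
      simp only at h1 h2
      refine ⟨by positivity, ?_⟩
      rw [div_le_one (by positivity)]
      nlinarith
  -- the new gluing parameters
  let q' : Fin g → ℂ := fun i => q1 i * ((kap D.i0 (linRad D ρ) (srad D.i0 w) (i, false) *
    kap D.i0 (linRad D ρ) (srad D.i0 w) (i, true) : ℝ) : ℂ)
  have hkk : ∀ i : Fin g, 0 < kap D.i0 (linRad D ρ) (srad D.i0 w) (i, false) *
      kap D.i0 (linRad D ρ) (srad D.i0 w) (i, true) ∧ kap D.i0 (linRad D ρ) (srad D.i0 w) (i, false) *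
      kap D.i0 (linRad D ρ) (srad D.i0 w) (i, true) ≤ 1 := by
    intro i
    have h1 := hkap (i, false)
    have h2 := hkap (i, true)
    exact ⟨mul_pos h1.1 h2.1, mul_le_one₀ h1.2 h2.1.le h2.2⟩
  have hq'n : ∀ i, ‖q' i‖ = ‖q1 i‖ * (kap D.i0 (linRad D ρ) (srad D.i0 w) (i, false) *
      kap D.i0 (linRad D ρ) (srad D.i0 w) (i, true)) := by
    intro i
    show ‖q1 i * ((kap D.i0 (linRad D ρ) (srad D.i0 w) (i, false) *
      kap D.i0 (linRad D ρ) (srad D.i0 w) (i, true) : ℝ) : ℂ)‖ = _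
    rw [norm_mul, Complex.norm_real, Real.norm_of_nonneg (hkk i).1.le]
  have hq1pos : ∀ i, 0 < ‖q1 i‖ := fun i => norm_pos_iff.2 (hRV.q0 i)
  have hq'pos : ∀ i, 0 < ‖q' i‖ := fun i => by
    rw [hq'n]
    exact mul_pos (hq1pos i) (hkk i).1
  have hq'le : ∀ i, ‖q' i‖ ≤ ‖q1 i‖ := fun i => by
    rw [hq'n]
    exact mul_le_of_le_one_right (hq1pos i).le (hkk i).2
  have hRV' : RV D.i0 (nrm D.i0 w) (srad D.i0 w) q' :=
    SR_rv hg hinj (fun i => norm_pos_iff.1 (hq'pos i)) (fun i => (hq'le i).trans_lt (hRV.q1 i))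
  have hmr : Mv (rnd D.i0 w (linRad D ρ) q1) (rnd D.i0 w (srad D.i0 w) q') 0 := by
    refine mv_radii_le ?_ ?_ (fun i => rfl) (fun j => (hkap j).2)
    · rw [hw]; exact hRV
    · rw [hnrm] at hRV'
      exact hRV'
  refine ⟨w, q', hinj, ?_, ?_⟩
  · intro i
    have e1 : (SR D.i0 w q').L i = -Real.log ‖q' i‖ := rfl
    have e2 : D.L i = -Real.log ‖D.q i‖ := rfl
    have hq0 : 0 < ‖D.q i‖ := norm_pos_iff.2 (hD.q0 i)
    have h1 : Real.log ‖q' i‖ ≤ Real.log ‖q1 i‖ := Real.log_le_log (hq'pos i) (hq'le i)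
    rw [hq1 i, Real.log_div hq0.ne' (by positivity)] at h1
    rw [e1, e2]
    linarith
  · have h1 : Mv D (rnd D.i0 w (linRad D ρ) q1) C := by rw [hw]; exact hMv
    have h2 := h1.trans hmr
    rw [add_zero] at h2
    have e : SR D.i0 w q' = rnd D.i0 w (srad D.i0 w) q' := by
      unfold SR
      rw [hnrm]
    rw [e]
    exact h2

theorem lin_all (g : ℕ) (hg : 2 ≤ g) : ∃ C δ : ℝ, 0 ≤ C ∧ 0 ≤ δ ∧ ∀ D : PData g, D.Valid → (∀ i, δ < D.L i) →
    ∃ (w : FF g D.i0 → ℂ) (q' : Fin g → ℂ), Function.Injective w ∧ (∀ i, D.L i - δ ≤ (SR D.i0 w q').L i) ∧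
      Mv D (SR D.i0 w q') C := by
  obtain ⟨C, ρ₀, hC, hρ₀, hρ₁, H⟩ := lin_rnd g
  obtain ⟨ρ, hρdef⟩ : ∃ ρ : ℝ, ρ = min ρ₀ (1 / 4000) := ⟨_, rfl⟩
  have hρ0 : 0 < ρ := by
    rw [hρdef]
    exact lt_min hρ₀ (by norm_num)
  have hρle : ρ ≤ ρ₀ := by
    rw [hρdef]
    exact min_le_left _ _
  have hρ4 : ρ ≤ 1 / 4000 := by
    rw [hρdef]
    exact min_le_right _ _
  refine ⟨C, -Real.log ((2 * ρ) ^ 2), by linarith, ?_, ?_⟩
  · rw [neg_nonneg]
    refine Real.log_nonpos (by positivity) ?_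
    have : 2 * ρ ≤ 1 := by linarith
    exact pow_le_one₀ (by positivity) this
  intro D hD hL
  -- translation
  obtain ⟨v, hv⟩ : ∃ v : ℂ, v = D.f (bf D.i0).1 0 := ⟨_, rfl⟩
  let σ : ℂ ≃ₜ ℂ := Homeomorph.addRight (-v)
  have hσ : ∀ z, σ z = z + (-v) := fun z => rfl
  have hd : ∀ z, DifferentiableAt ℂ σ z := by
    intro z
    have : (σ : ℂ → ℂ) = fun z => z + (-v) := rfl
    rw [this]
    exact differentiableAt_id.add_const _
  have h0 : (0 : ℂ) ∉ σ '' D.disc D.inf 1 := by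
    rintro ⟨z, hz, he⟩
    rw [hσ] at he
    have hzv : z = v := by
      have := congrArg (· + v) he
      simpa using this
    rw [hzv] at hz
    have hb : (bf D.i0).1 ≠ D.inf := (bf D.i0).2
    have hv2 : v ∈ D.disc (bf D.i0).1 1 := by
      refine ⟨0, ⟨fun h => absurd h hb, by simp⟩, ?_⟩
      rw [PData.F_of_ne hb, hv]
    exact Set.disjoint_left.1 (hD.disj _ _ hb) hv2 hz
  have hKd : ∀ j, Disjoint (∅ : Set ℂ) (D.disc j 1) := fun j => Set.empty_disjoint _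
  have hV : (D.map σ).Valid := PData.map_valid hD σ isCompact_empty hKd (fun z _ => hd z) h0
  have hm := mv_conf (D := D) σ hd h0
  have hqi : ∀ i, ‖(D.map σ).q i‖ < (2 * ρ) ^ 2 := by
    intro i
    have h1 := hL i
    have h2 : D.L i = -Real.log ‖D.q i‖ := rfl
    rw [h2, neg_lt_neg_iff] at h1
    exact (Real.log_lt_log_iff (norm_pos_iff.2 (hD.q0 i)) (by positivity)).1 h1
  obtain ⟨q1, hq1, hRV, hMv⟩ := H ρ hρ0 hρle (D.map σ) hV hqi
  have hbase : (D.map σ).f (bf (D.map σ).i0).1 0 = 0 := by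
    have hb : (bf D.i0).1 ≠ D.inf := (bf D.i0).2
    have e : (D.map σ).f (bf D.i0).1 0 = (if (bf D.i0).1 = D.inf then (if (0 : ℂ) = 0 then 0 else
      (σ (D.f (bf D.i0).1 0)⁻¹)⁻¹) else σ (D.f (bf D.i0).1 0)) := rfl
    show (D.map σ).f (bf D.i0).1 0 = 0
    rw [e, if_neg hb, hσ, ← hv, add_neg_cancel]
  obtain ⟨w, q', hw1, hw2, hw3⟩ := R17_base g hg hρ0 hρ4 (D.map σ) hV hbase q1 hq1 hRV hMv
  refine ⟨w, q', hw1, hw2, ?_⟩
  have h3 := hm.trans hw3
  rw [zero_add] at h3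
  exact h3

end Pool.Agent.Lib.MP_cca10c_ag
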