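import Pool.Agent.Lib.MP_cca10c_ag.R20_Round
import Pool.Agent.Lib.MP_cca10c_ag.Pl.FamFoot

/-!
# Module R: pushing a group of feet (stub R21)

`mv_family` with the family of `CcaPl.exists_footFamily` (centre `a`), then `PData.Same.mv`.
-/

set_option autoImplicit false

open Topology Set Metric
open scoped ContDiff

namespace Pool.Agent.Lib.MP_cca10c_ag

theorem mv_push : ∃ C : ℝ, 1 ≤ C ∧ ∀ (g : ℕ) (i0 : Fin g) (p : FF g i0 → ℂ) (s : Fin g × Bool → ℝ) (q : Fin g → ℂ),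
    RV i0 p s q → ∀ (T : Finset (FF g i0)) (a v : ℂ) (d : ℝ), 0 < d → ‖v‖ ≤ d / 1000 →
    (∀ j ∈ T, ‖p j - a‖ + s j.1 ≤ d / 16) → (∀ j ∉ T, d / 8 + s j.1 ≤ ‖p j - a‖) → ‖a‖ + d / 8 ≤ s (i0, true) →
      Mv (rnd i0 p s q) (rnd i0 (fun j => if j ∈ T then p j + v else p j) s q) C := by
  obtain ⟨C, hC, H⟩ := CcaPl.exists_footFamily
  refine ⟨C, hC, fun g i0 p s q h T a v d hd hv hT hT' ha => ?_⟩
  obtain ⟨F, hF1, hF2⟩ := H a v d hd hv
  have hs0 : 0 < s (i0, true) := h.s0 _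
  have hKd : ∀ j, Disjoint {z : ℂ | d / 16 ≤ ‖z - a‖ ∧ ‖z - a‖ ≤ d / 8} ((rnd i0 p s q).disc j 1) := by
    intro j
    rw [Set.disjoint_left]
    rintro z ⟨hz1, hz2⟩ hz
    by_cases hj : j = (i0, true)
    · subst hj
      rw [h.disc_inf, mem_ofPred_eq] at hz
      have h1 : ‖z‖ ≤ ‖z - a‖ + ‖a‖ := by
        have := norm_add_le (z - a) a
        rwa [sub_add_cancel] at this
      linarith
    · rw [h.disc_fin ⟨j, hj⟩, mem_ball, dist_eq_norm] at hz
      by_cases hjT : (⟨j, hj⟩ : FF g i0) ∈ T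
      · have h1 := hT _ hjT
        have h2 : ‖z - a‖ ≤ ‖z - p ⟨j, hj⟩‖ + ‖p ⟨j, hj⟩ - a‖ := by
          have := norm_add_le (z - p ⟨j, hj⟩) (p ⟨j, hj⟩ - a)
          rwa [sub_add_sub_cancel] at this
        simp only at h1 hz
        linarith
      · have h1 := hT' _ hjT
        have h2 : ‖p ⟨j, hj⟩ - a‖ ≤ ‖z - a‖ + ‖z - p ⟨j, hj⟩‖ := by
          have := norm_sub_le (z - a) (z - p ⟨j, hj⟩)
          rwa [sub_sub_sub_cancel_left] at this
        simp only at h1 hz
        linarith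
  have hout : ∀ e ∈ Icc (0 : ℝ) 1, ∀ w : ℂ, s (i0, true) < ‖w‖ → F.σ e w = w := by
    intro e he w hw
    refine hF2 e he w ?_
    have h1 := norm_sub_norm_le w a
    linarith
  have h0 : ∀ e ∈ Icc (0 : ℝ) 1, (0 : ℂ) ∉ F.σ e '' (rnd i0 p s q).disc (rnd i0 p s q).inf 1 := by
    rintro e he ⟨w, hw, hw0⟩
    have hinf : (rnd i0 p s q).inf = (i0, true) := rfl
    rw [hinf, h.disc_inf, mem_ofPred_eq] at hw
    rw [hout e he w hw] at hw0
    rw [hw0, norm_zero] at hw
    linarith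
  have hm := mv_family (D := rnd i0 p s q) F hKd h0
  have m1 : (1 : ℝ) ∈ Icc (0 : ℝ) 1 := ⟨zero_le_one, le_rfl⟩
  have hsame : ((rnd i0 p s q).map (F.σ 1)).Same (rnd i0 (fun j => if j ∈ T then p j + v else p j) s q) := by
    refine ⟨rfl, rfl, fun j z hz => ?_⟩
    by_cases hj : j = (i0, true)
    · subst hj
      have e1 : ((rnd i0 p s q).map (F.σ 1)).f (i0, true) z =
          if z = 0 then 0 else (F.σ 1 (z / (s (i0, true) : ℂ))⁻¹)⁻¹ := by
        change (if (i0, true) = (rnd i0 p s q).inf then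
          (if z = 0 then 0 else (F.σ 1 ((rnd i0 p s q).f (i0, true) z)⁻¹)⁻¹) else F.σ 1 ((rnd i0 p s q).f (i0, true) z)) = _
        rw [if_pos (show (i0, true) = (rnd i0 p s q).inf from rfl)]
        simp only [rnd, dif_pos]
      have e2 : (rnd i0 (fun j => if j ∈ T then p j + v else p j) s q).f (i0, true) z = z / (s (i0, true) : ℂ) := by
        simp only [rnd, dif_pos]
      rw [e1, e2]
      by_cases hz0 : z = 0
      · rw [if_pos hz0, hz0, zero_div]
      · rw [if_neg hz0, hout 1 m1, inv_inv]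
        rw [inv_div, norm_div, Complex.norm_real, Real.norm_of_nonneg hs0.le, lt_div_iff₀ (norm_pos_iff.2 hz0)]
        nlinarith
    · have e1 : ((rnd i0 p s q).map (F.σ 1)).f j z = F.σ 1 (p ⟨j, hj⟩ + (s j : ℂ) * z) := by
        change (if j = (rnd i0 p s q).inf then
          (if z = 0 then 0 else (F.σ 1 ((rnd i0 p s q).f j z)⁻¹)⁻¹) else F.σ 1 ((rnd i0 p s q).f j z)) = _
        rw [if_neg (show ¬ j = (rnd i0 p s q).inf from hj)]
        simp only [rnd, dif_neg hj]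
      have e2 : (rnd i0 (fun j => if j ∈ T then p j + v else p j) s q).f j z =
          (if (⟨j, hj⟩ : FF g i0) ∈ T then p ⟨j, hj⟩ + v else p ⟨j, hj⟩) + (s j : ℂ) * z := by
        simp only [rnd, dif_neg hj]
      rw [e1, e2]
      have hsz : ‖(s j : ℂ) * z‖ ≤ s j := by
        rw [norm_mul, Complex.norm_real, Real.norm_of_nonneg (h.s0 j).le]
        have := h.s0 j
        nlinarith
      by_cases hjT : (⟨j, hj⟩ : FF g i0) ∈ T
      · rw [if_pos hjT, hF1 1 m1]
        · push_cast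
          ring
        · have h1 := hT _ hjT
          simp only at h1
          have h2 : p ⟨j, hj⟩ + (s j : ℂ) * z - a = (p ⟨j, hj⟩ - a) + (s j : ℂ) * z := by ring
          rw [h2]
          have h3 := norm_add_le (p ⟨j, hj⟩ - a) ((s j : ℂ) * z)
          linarith
      · rw [if_neg hjT, hF2 1 m1]
        have h1 := hT' _ hjT
        simp only at h1
        have h2 : p ⟨j, hj⟩ - a = (p ⟨j, hj⟩ + (s j : ℂ) * z - a) - (s j : ℂ) * z := by ring
        have h3 := norm_sub_le (p ⟨j, hj⟩ + (s j : ℂ) * z - a) ((s j : ℂ) * z)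
        rw [← h2] at h3
        linarith
  have := hm.trans hsame.mv
  rwa [add_zero] at this

end Pool.Agent.Lib.MP_cca10c_ag
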