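import Pool.Agent.Lib.MP_cca10c_ag.R22_Scale

/-!
# Module R: the energy of a cluster class is controlled by the modulus of the surrounding annulus (stub R23)

Let `m` be the largest index with `coefT T m ≠ 0` (if there is none the sum is `0`). `zV (clsT T b)` is not in the span of the `zV (b j)`, `j < m`
(its coefficient at `b m` is `±1`), so `c / L m ≤ En Z (clsT T b) ≤ C / log (R / r)` (`Gr`, `St.en_ann`). For `i ≤ m` the class `b m` is not in the span of
the `zV (b j)`, `j < i`, so `c / L i ≤ En Z (b m) ≤ C / L m` (`St.en_handle`). Hence `log (R / r) * ∑ |coefT T i| / L i ≤ g * C² / c²`.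
-/

set_option autoImplicit false

open Topology Set Metric
open scoped ContDiff

namespace Pool.Agent.Lib.MP_cca10c_ag

private theorem R23_zV_sum {g : ℕ} (b : Fin g → Fin g ⊕ Fin g → ℤ) (T : Finset (Fin g × Bool)) :
    zV (clsT T b) = ∑ i, (coefT T i : ℝ) • zV (b i) := by
  funext k
  simp only [zV, clsT, Finset.sum_apply, Pi.smul_apply, smul_eq_mul]
  push_cast
  rfl

private theorem R23_coef_abs {g : ℕ} (T : Finset (Fin g × Bool)) (i : Fin g) :
    |(coefT T i : ℝ)| ≤ 1 := by
  unfold coefT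
  split_ifs <;> norm_num

/-- `b m` is not in the span of the previous ones -/
private theorem R23_not_mem {g : ℕ} {v : Fin g → (Fin g ⊕ Fin g → ℝ)}
    (hv : LinearIndependent ℝ v) {i m : Fin g} (him : i ≤ m) :
    v m ∉ Submodule.span ℝ (Set.range fun j : {j : Fin g // j < i} => v j) := by
  have h := hv.notMem_span_image (s := {j : Fin g | j < i}) (x := m) (by
    simp only [mem_ofPred_eq, not_lt]
    exact him)
  rw [Set.image_eq_range] at h
  exact h

private theorem R23_not_mem_cls {g : ℕ} {b : Fin g → Fin g ⊕ Fin g → ℤ}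
    (hb : LinearIndependent ℝ (fun i => zV (b i))) (T : Finset (Fin g × Bool)) {m : Fin g}
    (hm : coefT T m ≠ 0) (hmax : ∀ i, coefT T i ≠ 0 → i ≤ m) :
    zV (clsT T b) ∉ Submodule.span ℝ (Set.range fun j : {j : Fin g // j < m} => zV (b j)) := by
  intro hmem
  have hm' : (coefT T m : ℝ) ≠ 0 := by exact_mod_cast hm
  refine R23_not_mem (v := fun i => zV (b i)) hb (le_refl m) ?_
  have h1 : (coefT T m : ℝ) • zV (b m) =
      zV (clsT T b) - ∑ i ∈ Finset.univ.erase m, (coefT T i : ℝ) • zV (b i) := by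
    rw [R23_zV_sum, ← Finset.add_sum_erase _ _ (Finset.mem_univ m)]
    abel
  have h2 : (coefT T m : ℝ) • zV (b m) ∈
      Submodule.span ℝ (Set.range fun j : {j : Fin g // j < m} => zV (b j)) := by
    rw [h1]
    refine Submodule.sub_mem _ hmem (Submodule.sum_mem _ fun i hi => ?_)
    by_cases h0 : coefT T i = 0
    · rw [h0]
      simp
    · have hlt : i < m := lt_of_le_of_ne (hmax i h0) (Finset.ne_of_mem_erase hi)
      exact Submodule.smul_mem _ _ (Submodule.subset_span ⟨⟨i, hlt⟩, rfl⟩)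
  have h3 := Submodule.smul_mem _ (coefT T m : ℝ)⁻¹ h2
  rwa [smul_smul, inv_mul_cancel₀ hm', one_smul] at h3

theorem cls_bound (g : ℕ) (c : ℝ) (hc : 0 < c) : ∃ B : ℝ, 0 < B ∧ ∀ (D : PData g) (b : Fin g → Fin g ⊕ Fin g → ℤ)
    (Z : Matrix (Fin g) (Fin g) ℂ), LinearIndependent ℝ (fun i => zV (b i)) → St D b Z → Gr c D.L b Z →
    ∀ (T : Finset (Fin g × Bool)) (a : ℂ) (r R : ℝ), D.PAnn T a r R →
      Real.log (R / r) * ∑ i, |(coefT T i : ℝ)| / D.L i ≤ B := by
  obtain ⟨C1, hC1, h1⟩ := St.en_handle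
  obtain ⟨C2, hC2, h2⟩ := St.en_ann
  refine ⟨g * (C1 * C2 / c ^ 2) + 1, by positivity, ?_⟩
  intro D b Z hb hSt hGr T a r R hA
  have hL : ∀ i, 0 < D.L i := fun i => by
    have h3 := hSt.1.q0 i
    have h4 := hSt.1.q1 i
    have h5 : 0 < ‖D.q i‖ := norm_pos_iff.2 h3
    have h6 := Real.log_neg h5 h4
    unfold PData.L
    linarith
  have hRr : 0 < Real.log (R / r) := by
    apply Real.log_pos
    rw [one_lt_div hA.r0]
    exact hA.lt
  by_cases hall : ∀ i, coefT T i = 0
  · have : ∑ i, |(coefT T i : ℝ)| / D.L i = 0 := by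
      apply Finset.sum_eq_zero
      intro i _
      rw [hall i]
      simp
    rw [this, mul_zero]
    positivity
  · push Not at hall
    obtain ⟨m, hm, hmax⟩ : ∃ m, coefT T m ≠ 0 ∧ ∀ i, coefT T i ≠ 0 → i ≤ m := by
      classical
      have hne : (Finset.univ.filter fun i => coefT T i ≠ 0).Nonempty := by
        obtain ⟨i, hi⟩ := hall
        exact ⟨i, by simp [hi]⟩
      refine ⟨_, (Finset.mem_filter.1 (Finset.max'_mem _ hne)).2, fun i hi => ?_⟩
      exact Finset.le_max' _ _ (by simp [hi])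
    have e1 : c / D.L m ≤ C2 / Real.log (R / r) :=
      (hGr m _ (R23_not_mem_cls hb T hm hmax)).trans (h2 g D b Z hSt T a r R hA)
    have e2 : Real.log (R / r) ≤ C2 * D.L m / c := by
      rw [div_le_div_iff₀ (hL m) hRr] at e1
      rw [le_div_iff₀ hc]
      linarith
    have e3 : ∀ i, i ≤ m → 1 / D.L i ≤ C1 / (c * D.L m) := by
      intro i hi
      have h3 : c / D.L i ≤ C1 / D.L m :=
        (hGr i _ (R23_not_mem (v := fun i => zV (b i)) hb hi)).trans (h1 g D b Z hSt m)
      rw [div_le_div_iff₀ (hL i) (hL m)] at h3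
      rw [div_le_div_iff₀ (hL i) (mul_pos hc (hL m))]
      linarith
    have e4 : ∀ i, |(coefT T i : ℝ)| / D.L i ≤ C1 / (c * D.L m) := by
      intro i
      by_cases h0 : coefT T i = 0
      · rw [h0]
        have := hL m
        simp only [Int.cast_zero, abs_zero, zero_div]
        positivity
      · refine le_trans ?_ (e3 i (hmax i h0))
        exact div_le_div_of_nonneg_right (R23_coef_abs T i) (hL i).le
    have e5 : ∑ i, |(coefT T i : ℝ)| / D.L i ≤ g * (C1 / (c * D.L m)) := by
      calc ∑ i, |(coefT T i : ℝ)| / D.L i ≤ ∑ _i : Fin g, C1 / (c * D.L m) :=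
            Finset.sum_le_sum fun i _ => e4 i
        _ = _ := by rw [Finset.sum_const, Finset.card_univ, Fintype.card_fin, nsmul_eq_mul]
    have hLm := hL m
    have e6 : 0 ≤ ∑ i, |(coefT T i : ℝ)| / D.L i :=
      Finset.sum_nonneg fun i _ => div_nonneg (abs_nonneg _) (hL i).le
    calc Real.log (R / r) * ∑ i, |(coefT T i : ℝ)| / D.L i
        ≤ (C2 * D.L m / c) * (g * (C1 / (c * D.L m))) :=
          mul_le_mul e2 e5 e6 (by positivity)
      _ = g * (C1 * C2 / c ^ 2) := by
          field_simp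
      _ ≤ g * (C1 * C2 / c ^ 2) + 1 := by linarith

end Pool.Agent.Lib.MP_cca10c_ag
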