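import Pool.Agent.Lib.MP_cca10c_ag.R23_Cls
import Pool.Agent.Lib.MP_cca10c_ag.R24_SR
import Pool.Agent.Lib.MP_cca10c_ag.Pl.ClScale

/-!
# Module R: processing one cluster (stub R25)

`clus_step`: in `SR i0 w q` put `a = nrm w j`, `r = 2 dm w J`, `R = sp w J / 2`. `PAnn (TT J) a r R` holds (`R + srad k ≤ ‖p k - a‖` for `k ∉ J` since
`nn w k ≤ dist (w k) (w j)`; `srad k ≤ nn w k / 100 ≤ dm w J / 100` for `k ∈ J`). `scale_total` (needs `E ≥ 4 * E_total`) with cost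
`C ((log l + 1) * ∑ |coefT| / L + 1)`, bounded by `cls_bound` because `log (R / r) = log (sp / (4 dm)) ≥ log l + log (E / 4) ≥ log l + 1`. The new data are
`rnd (scaleJ (nrm w) J a l) s1 q` with `s1` close to the standard radii of `w' = scaleJ w J (w j) l` (`nn_in`, `nn_out`, `dm_univ`) and
`scaleJ (nrm w) J a l k = nrm w' k + (w' (bf i0) - w (bf i0))`; conclude by `renorm`.
-/

set_option autoImplicit false

open Topology Set Metric
open scoped ContDiff

namespace Pool.Agent.Lib.MP_cca10c_ag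

/-- result of a step: new state on the data `D'`, cost at most `C`, handles at most `δ` shorter -/
structure Res {g : ℕ} (D : PData g) (b : Fin g → Fin g ⊕ Fin g → ℤ) (Z : Matrix (Fin g) (Fin g) ℂ) (C δ : ℝ) (D' : PData g)
    (Z' : Matrix (Fin g) (Fin g) ℂ) : Prop where
  st : St D' b Z'
  len : ∀ i, D.L i - δ ≤ D'.L i
  conn : Conn g Z Z' C
  leq : LEq C Z Z'

theorem Res.refl {g : ℕ} {D : PData g} {b : Fin g → Fin g ⊕ Fin g → ℤ} {Z : Matrix (Fin g) (Fin g) ℂ} (hZ : St D b Z)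
    {C δ : ℝ} (hC : 0 ≤ C) (hδ : 0 ≤ δ) : Res D b Z C δ D Z where
  st := hZ
  len := fun i => by linarith
  conn := (Conn.refl hZ.mem_schottky).mono hC
  leq := LEq.refl hZ.2.1 hC

theorem Res.trans {g : ℕ} {D D' D'' : PData g} {b : Fin g → Fin g ⊕ Fin g → ℤ} {Z Z' Z'' : Matrix (Fin g) (Fin g) ℂ}
    {C δ C' δ' : ℝ} (hZ : St D b Z) (h : Res D b Z C δ D' Z') (h' : Res D' b Z' C' δ' D'' Z'') :
    Res D b Z (C + C') (δ + δ') D'' Z'' where
  st := h'.st
  len := fun i => by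
    have h1 := h.len i
    have h2 := h'.len i
    linarith
  conn := Conn.trans hZ.2.1 h.st.2.1 h'.st.2.1 h.conn h'.conn
  leq := h.leq.trans h'.leq

theorem Res.mono {g : ℕ} {D D' : PData g} {b : Fin g → Fin g ⊕ Fin g → ℤ} {Z Z' : Matrix (Fin g) (Fin g) ℂ}
    {C δ C' δ' : ℝ} (hZ : St D b Z) (h : Res D b Z C δ D' Z') (hC : C ≤ C') (hδ : δ ≤ δ') : Res D b Z C' δ' D' Z' where
  st := h.st
  len := fun i => by
    have h1 := h.len i
    linarith
  conn := h.conn.mono hC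
  leq := h.leq.mono hZ.2.1 h.st.2.1 hC

/-- the greedy property along a step (`Gr.of_LEq` with `κ = 1/2`) -/
theorem Res.gr {g : ℕ} {D D' : PData g} {b : Fin g → Fin g ⊕ Fin g → ℤ} {Z Z' : Matrix (Fin g) (Fin g) ℂ}
    {C δ c : ℝ} (h : Res D b Z C δ D' Z') (hc : 0 ≤ c) (hG : Gr c D.L b Z) (hL : ∀ i, 2 * δ ≤ D.L i) (hL' : ∀ i, 0 < D.L i) :
    Gr (c * (1 / 2) * Real.exp (-C)) D'.L b Z' := by
  refine Gr.of_LEq hc (by norm_num) hL' hG h.leq fun i => ?_
  have h1 := h.len i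
  have h2 := hL i
  linarith

/-- a move gives a step -/
theorem Mv.res {g : ℕ} {D D' : PData g} {b : Fin g → Fin g ⊕ Fin g → ℤ} {Z : Matrix (Fin g) (Fin g) ℂ}
    {C δ : ℝ} (h : Mv D D' C) (hZ : St D b Z) (hL' : ∀ i, D.L i - δ ≤ D'.L i) : ∃ Z', Res D b Z C δ D' Z' := by
  obtain ⟨Z', h1, h2, h3⟩ := h b Z hZ
  exact ⟨Z', h1, hL', h2, h3⟩

section

variable {g : ℕ} {i0 : Fin g}

private theorem R25_srad_fin (w : FF g i0 → ℂ) (k : FF g i0) : srad i0 w k.1 = CcaPl.nn w k / 100 := by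
  unfold srad
  rw [dif_neg k.2]

private theorem R25_srad_inf (w : FF g i0 → ℂ) : srad i0 w (i0, true) = 100 * CcaPl.dm w Finset.univ := by
  unfold srad
  rw [dif_pos rfl]

private theorem R25_sub (w : FF g i0 → ℂ) (k j : FF g i0) : ‖nrm i0 w k - nrm i0 w j‖ = dist (w k) (w j) := by
  unfold nrm
  rw [sub_sub_sub_cancel_right, dist_eq_norm]

private theorem R25_norm (w : FF g i0 → ℂ) (k : FF g i0) : ‖nrm i0 w k‖ = dist (w k) (w (bf i0)) := by
  unfold nrm
  rw [dist_eq_norm]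

private theorem R25_nn_le (w : FF g i0 → ℂ) {k m : FF g i0} (h : m ≠ k) : CcaPl.nn w k ≤ dist (w k) (w m) :=
  CcaPl.sp_le_dist w {k} (Finset.mem_singleton_self k) (by rwa [Finset.mem_singleton])

/-- the inequalities for the cluster annulus -/
private theorem R25_ineq {w : FF g i0 → ℂ} (hw : Function.Injective w) {J : Finset (FF g i0)} {j : FF g i0}
    (hJ : 2 ≤ J.card) (hJ' : J ≠ Finset.univ) (hj : j ∈ J) :
    (∀ k ∈ J, ‖nrm i0 w k - nrm i0 w j‖ + srad i0 w k.1 ≤ 2 * CcaPl.dm w J) ∧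
    (∀ k ∉ J, CcaPl.sp w J / 2 + srad i0 w k.1 ≤ ‖nrm i0 w k - nrm i0 w j‖) ∧
    ‖nrm i0 w j‖ + CcaPl.sp w J / 2 ≤ srad i0 w (i0, true) ∧ CcaPl.sp w J ≤ CcaPl.dm w Finset.univ := by
  have hsd : CcaPl.sp w J ≤ CcaPl.dm w Finset.univ := by
    obtain ⟨i, _, k, _, h⟩ := CcaPl.exists_sp w J ⟨j, hj⟩ hJ'
    rw [h]
    exact CcaPl.dist_le_dm w _ (Finset.mem_univ i) (Finset.mem_univ k)
  have hdJ := CcaPl.dm_pos w hw J hJ
  refine ⟨fun k hk => ?_, fun k hk => ?_, ?_, hsd⟩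
  · obtain ⟨m, hm, hmk⟩ := Finset.exists_mem_ne (show 1 < J.card by omega) k
    have h1 := R25_nn_le w hmk
    have h2 := CcaPl.dist_le_dm w J hk hm
    have h3 := CcaPl.dist_le_dm w J hk hj
    rw [R25_sub, R25_srad_fin]
    linarith
  · have hkj : j ≠ k := by
      rintro rfl
      exact hk hj
    have h1 := R25_nn_le w hkj
    have h2 := CcaPl.sp_le_dist w J hj hk
    rw [dist_comm] at h2
    have h3 : (0 : ℝ) ≤ dist (w k) (w j) := dist_nonneg
    rw [R25_sub, R25_srad_fin]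
    linarith
  · have h1 := CcaPl.dist_le_dm w Finset.univ (Finset.mem_univ j) (Finset.mem_univ (bf i0))
    have h2 : 0 ≤ CcaPl.dm w Finset.univ := CcaPl.dm_nonneg _ _
    rw [R25_norm, R25_srad_inf]
    linarith

/-- the cluster annulus -/
private theorem R25_ann {w : FF g i0 → ℂ} (hw : Function.Injective w) {q : Fin g → ℂ}
    (hRV : RV i0 (nrm i0 w) (srad i0 w) q) {J : Finset (FF g i0)} {j : FF g i0}
    (hJ : 2 ≤ J.card) (hJ' : J ≠ Finset.univ) (hj : j ∈ J) (hlt : 2 * CcaPl.dm w J < CcaPl.sp w J / 2) :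
    (SR i0 w q).PAnn (TT J) (nrm i0 w j) (2 * CcaPl.dm w J) (CcaPl.sp w J / 2) := by
  obtain ⟨h1, h2, h3, -⟩ := R25_ineq (i0 := i0) hw hJ hJ' hj
  have hdJ := CcaPl.dm_pos w hw J hJ
  refine ⟨by linarith, hlt, fun k hk => ?_, fun k hk => ?_⟩
  · have hk' : k ≠ (i0, true) := by
      rintro rfl
      exact not_mem_TT J hk
    have hkJ : (⟨k, hk'⟩ : FF g i0) ∈ J := (mem_TT J ⟨k, hk'⟩).1 hk
    have h4 := h1 _ hkJ
    have h5 : (SR i0 w q).disc k 1 = ball (nrm i0 w ⟨k, hk'⟩) (srad i0 w k) := hRV.disc_fin ⟨k, hk'⟩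
    rw [h5]
    refine ball_subset_closedBall.trans (closedBall_subset_closedBall' ?_)
    rw [dist_eq_norm, add_comm]
    exact h4
  · by_cases hk' : k = (i0, true)
    · subst hk'
      have h5 : (SR i0 w q).disc (i0, true) 1 = {x | srad i0 w (i0, true) < ‖x‖} := hRV.disc_inf
      rw [h5, Set.disjoint_left]
      intro x hx hx'
      rw [mem_ofPred_eq] at hx
      rw [mem_ball_iff_norm] at hx'
      have h6 := norm_sub_norm_le x (nrm i0 w j)
      linarith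
    · have hkJ : (⟨k, hk'⟩ : FF g i0) ∉ J := fun h => hk ((mem_TT J ⟨k, hk'⟩).2 h)
      have h4 := h2 _ hkJ
      have h5 : (SR i0 w q).disc k 1 = ball (nrm i0 w ⟨k, hk'⟩) (srad i0 w k) := hRV.disc_fin ⟨k, hk'⟩
      rw [h5]
      refine ball_disjoint_ball ?_
      rw [dist_eq_norm, add_comm]
      exact h4

/-- the scaled configuration in the two normalisations -/
private theorem R25_scale (w : FF g i0 → ℂ) (J : Finset (FF g i0)) (j : FF g i0) (l : ℝ) (k : FF g i0) :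
    CcaPl.scaleJ (nrm i0 w) J (nrm i0 w j) l k =
      nrm i0 (CcaPl.scaleJ w J (w j) l) k + (CcaPl.scaleJ w J (w j) l (bf i0) - w (bf i0)) := by
  unfold nrm CcaPl.scaleJ
  by_cases hk : k ∈ J
  · rw [if_pos hk, if_pos hk]
    ring
  · rw [if_neg hk, if_neg hk]
    ring

end

theorem clus_step (g : ℕ) (hg : 2 ≤ g) : ∃ E₀ : ℝ, 20 ≤ E₀ ∧ ∀ E : ℝ, E₀ ≤ E → ∀ c : ℝ, 0 < c → ∃ C : ℝ, 0 ≤ C ∧
    ∀ (i0 : Fin g) (w : FF g i0 → ℂ), Function.Injective w → ∀ (J : Finset (FF g i0)) (j : FF g i0) (l : ℝ),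
    CcaPl.ClStep E w J j l → ∀ (b : Fin g → Fin g ⊕ Fin g → ℤ) (q : Fin g → ℂ) (Z : Matrix (Fin g) (Fin g) ℂ),
    LinearIndependent ℝ (fun i => zV (b i)) → St (SR i0 w q) b Z → Gr c (SR i0 w q).L b Z → (∀ i, 4 ≤ (SR i0 w q).L i) →
      ∃ (q' : Fin g → ℂ) (Z' : Matrix (Fin g) (Fin g) ℂ),
        Res (SR i0 w q) b Z C 2 (SR i0 (CcaPl.scaleJ w J (w j) l) q') Z' := by
  obtain ⟨Ct, Et, hCt, hEt, HT⟩ := scale_total g
  obtain ⟨Cr, hCr, HR⟩ := renorm g hg
  refine ⟨max 20 (4 * Et), le_max_left _ _, fun E hE c hc => ?_⟩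
  have hE20 : 20 ≤ E := (le_max_left _ _).trans hE
  have hEEt : 4 * Et ≤ E := (le_max_right _ _).trans hE
  have hE0 : 0 < E := by linarith
  obtain ⟨B, hB, HB⟩ := cls_bound g c hc
  refine ⟨Ct * (B + 1) + Cr, by positivity, ?_⟩
  intro i0 w hw J j l hJ b q Z hb hSt hGr hL
  have hRV := hSt.rv_SR hg hw
  have hd := CcaPl.dm_pos w hw J hJ.card
  have hl := hJ.one_le
  have hl0 : 0 < l := by linarith
  have hld : CcaPl.dm w J ≤ l * CcaPl.dm w J := le_mul_of_one_le_left hd.le hl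
  have hld0 : 0 < l * CcaPl.dm w J := mul_pos hl0 hd
  have hsm := hJ.small
  have hsp : 20 * (l * CcaPl.dm w J) ≤ CcaPl.sp w J :=
    (mul_le_mul_of_nonneg_right hE20 hld0.le).trans hsm
  obtain ⟨I1, I2, I3, I4⟩ := R25_ineq (i0 := i0) hw hJ.card hJ.proper hJ.mem
  -- the scaling
  obtain ⟨hRV1, Z1, hSt1, hconn1, hleq1⟩ := HT i0 (nrm i0 w) (srad i0 w) q hRV J (nrm i0 w j)
    (2 * CcaPl.dm w J) (CcaPl.sp w J / 2) l (by linarith) hl (by
      have h1 : Et * (l * (2 * CcaPl.dm w J)) = (4 * Et) * (l * CcaPl.dm w J) / 2 := by ring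
      rw [h1]
      have h2 := mul_le_mul_of_nonneg_right hEEt hld0.le
      linarith) I1 I2 I3 b Z hSt
  -- the cost of the scaling
  have hsum0 : 0 ≤ ∑ i, |(coefT (TT J) i : ℝ)| / (rnd i0 (nrm i0 w) (srad i0 w) q).L i :=
    Finset.sum_nonneg fun i _ => div_nonneg (abs_nonneg _) (by
      have h1 : (4 : ℝ) ≤ (rnd i0 (nrm i0 w) (srad i0 w) q).L i := hL i
      linarith)
  have hcost : Ct * ((Real.log l + 1) * ∑ i, |(coefT (TT J) i : ℝ)| / (rnd i0 (nrm i0 w) (srad i0 w) q).L i + 1) ≤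
      Ct * (B + 1) := by
    have h1 := HB (SR i0 w q) b Z hb hSt hGr (TT J) (nrm i0 w j) (2 * CcaPl.dm w J) (CcaPl.sp w J / 2)
      (R25_ann hw hRV hJ.card hJ.proper hJ.mem (by linarith))
    have h2 : Real.log l + 1 ≤ Real.log (CcaPl.sp w J / 2 / (2 * CcaPl.dm w J)) := by
      have h3 : 5 * l ≤ CcaPl.sp w J / 2 / (2 * CcaPl.dm w J) := by
        rw [le_div_iff₀ (by linarith)]
        have h4 : 5 * l * (2 * CcaPl.dm w J) = 20 * (l * CcaPl.dm w J) / 2 := by ring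
        rw [h4]
        linarith
      have h5 : Real.log (5 * l) ≤ Real.log (CcaPl.sp w J / 2 / (2 * CcaPl.dm w J)) :=
        Real.log_le_log (by positivity) h3
      rw [Real.log_mul (by norm_num) hl0.ne'] at h5
      have h6 : 1 ≤ Real.log 5 := by
        rw [Real.le_log_iff_exp_le (by norm_num)]
        have := Real.exp_one_lt_d9
        linarith
      linarith
    have h3 := mul_le_mul_of_nonneg_right h2 hsum0
    have h4 : Real.log (CcaPl.sp w J / 2 / (2 * CcaPl.dm w J)) *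
        ∑ i, |(coefT (TT J) i : ℝ)| / (rnd i0 (nrm i0 w) (srad i0 w) q).L i ≤ B := h1
    refine mul_le_mul_of_nonneg_left ?_ (by linarith)
    linarith
  -- renormalisation
  have hinj := CcaPl.scale_injective hE20 hw hJ
  obtain ⟨d1, d2⟩ := CcaPl.dm_univ hE20 hw hJ
  have hE1 : 1 / E ≤ 1 / 20 := one_div_le_one_div_of_le (by norm_num) hE20
  have hE1' : 0 < 1 / E := by positivity
  have hdu : 0 ≤ CcaPl.dm w Finset.univ := CcaPl.dm_nonneg _ _
  have hdl : 19 / 20 * CcaPl.dm w Finset.univ ≤ CcaPl.dm (CcaPl.scaleJ w J (w j) l) Finset.univ := by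
    refine le_trans (mul_le_mul_of_nonneg_right ?_ hdu) d1
    linarith
  have hdr : CcaPl.dm (CcaPl.scaleJ w J (w j) l) Finset.univ ≤ 21 / 20 * CcaPl.dm w Finset.univ := by
    refine d2.trans (mul_le_mul_of_nonneg_right ?_ hdu)
    linarith
  obtain ⟨q', hq', hMv⟩ := HR i0 (CcaPl.scaleJ (nrm i0 w) J (nrm i0 w j) l) (CcaPl.scaleJ w J (w j) l)
    (fun k => if k ∈ TT J then l * srad i0 w k else srad i0 w k) q
    (CcaPl.scaleJ w J (w j) l (bf i0) - w (bf i0)) hinj hRV1 (fun i => hL i)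
    (fun k => R25_scale w J j l k) (by
      by_cases hbf : bf i0 ∈ J
      · have h1 : CcaPl.scaleJ w J (w j) l (bf i0) - w (bf i0) = ((l - 1 : ℝ) : ℂ) * (w (bf i0) - w j) := by
          unfold CcaPl.scaleJ
          rw [if_pos hbf]
          push_cast
          ring
        rw [h1, norm_mul, Complex.norm_real, Real.norm_of_nonneg (by linarith), ← dist_eq_norm]
        have h2 := CcaPl.dist_le_dm w J hbf hJ.mem
        have h3 : (l - 1) * dist (w (bf i0)) (w j) ≤ (l - 1) * CcaPl.dm w J :=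
          mul_le_mul_of_nonneg_left h2 (by linarith)
        have h4 : (l - 1) * CcaPl.dm w J = l * CcaPl.dm w J - CcaPl.dm w J := by ring
        linarith
      · have h1 : CcaPl.scaleJ w J (w j) l (bf i0) - w (bf i0) = 0 := by
          unfold CcaPl.scaleJ
          rw [if_neg hbf, sub_self]
        rw [h1, norm_zero]
        exact div_nonneg (CcaPl.dm_nonneg _ _) (by norm_num)) (by
      intro k
      by_cases hk' : k = (i0, true)
      · subst hk'
        rw [if_neg (not_mem_TT J), R25_srad_inf, R25_srad_inf]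
        constructor <;> linarith
      · obtain ⟨k, rfl⟩ : ∃ k' : FF g i0, k = k'.1 := ⟨⟨k, hk'⟩, rfl⟩
        have hn0 : 0 ≤ srad i0 w k.1 := (hRV.s0 k.1).le
        rw [R25_srad_fin] at hn0
        by_cases hkJ : k ∈ J
        · rw [if_pos ((mem_TT J k).2 hkJ), R25_srad_fin, R25_srad_fin, CcaPl.nn_in hE20 hw hJ hkJ]
          have h1 : 0 ≤ l * (CcaPl.nn w k / 100) := mul_nonneg hl0.le hn0
          constructor <;> linarith
        · rw [if_neg (fun h => hkJ ((mem_TT J k).1 h)), R25_srad_fin, R25_srad_fin]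
          obtain ⟨n1, n2⟩ := CcaPl.nn_out hE20 hw hJ hkJ
          have hn1 : 0 ≤ CcaPl.nn w k := by linarith
          have n3 : 19 / 20 * CcaPl.nn w k ≤ CcaPl.nn (CcaPl.scaleJ w J (w j) l) k := by
            refine le_trans (mul_le_mul_of_nonneg_right ?_ hn1) n1
            linarith
          have n4 : CcaPl.nn (CcaPl.scaleJ w J (w j) l) k ≤ 21 / 20 * CcaPl.nn w k := by
            refine n2.trans (mul_le_mul_of_nonneg_right ?_ hn1)
            linarith
          constructor <;> linarith)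
  obtain ⟨Z2, hSt2, hconn2, hleq2⟩ := hMv b Z1 hSt1
  refine ⟨q', Z2, hSt2, fun i => ?_, ?_, ?_⟩
  · have h1 := (abs_le.1 (hq' i)).1
    have h2 : (rnd i0 (CcaPl.scaleJ (nrm i0 w) J (nrm i0 w j) l)
      (fun k => if k ∈ TT J then l * srad i0 w k else srad i0 w k) q).L i = (SR i0 w q).L i := rfl
    rw [h2] at h1
    linarith
  · exact Conn.trans hSt.2.1 hSt1.2.1 hSt2.2.1 (hconn1.mono hcost) hconn2
  · exact (hleq1.mono hSt.2.1 hSt1.2.1 hcost).trans hleq2

end Pool.Agent.Lib.MP_cca10c_ag
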