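import Pool.Agent.Lib.MP_cca10c_ag.R25_Clus
import Pool.Agent.Lib.MP_cca10c_ag.Pl.ClPass

/-!
# Module R: bounded configurations (stub R26)

`CcaPl.pass` with `R n w := ∃ q' Z', Res (SR i0 w₀ q) b Z (C n) (2 n) (SR i0 w q') Z'` (for `n ≤ N = 2 ^ card`, and arbitrary for larger `n`), where `C n` is
defined by recursion: `C 0 = 0`, `C (n+1) = C n + Cs (c * (1/2) * exp (-C n))`, `Cs` the function from `clus_step` (the greedy property of the `n`-th state
comes from the initial one by `Res.gr`, because `2 * (2 N) ≤ δ ≤ L i`), and then `CcaPl.bounded_of_rt` (`B = (1 + 6 E) ^ card`). `δ = 4 N + 8` and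
`B` do not depend on `c`.
-/

set_option autoImplicit false

open Topology Set Metric
open scoped ContDiff

namespace Pool.Agent.Lib.MP_cca10c_ag

theorem pass_SR (g : ℕ) (hg : 2 ≤ g) : ∃ δ B : ℝ, 0 ≤ δ ∧ 1 ≤ B ∧ ∀ c : ℝ, 0 < c → ∃ C : ℝ, 0 ≤ C ∧
    ∀ (i0 : Fin g) (w : FF g i0 → ℂ), Function.Injective w → ∀ (b : Fin g → Fin g ⊕ Fin g → ℤ) (q : Fin g → ℂ)
    (Z : Matrix (Fin g) (Fin g) ℂ), LinearIndependent ℝ (fun i => zV (b i)) → St (SR i0 w q) b Z →
    Gr c (SR i0 w q).L b Z → (∀ i, 2 * δ ≤ (SR i0 w q).L i) →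
      ∃ (w' : FF g i0 → ℂ) (q' : Fin g → ℂ) (Z' : Matrix (Fin g) (Fin g) ℂ), Function.Injective w' ∧
        (∀ j, CcaPl.dm w' Finset.univ ≤ B * CcaPl.nn w' j) ∧ Res (SR i0 w q) b Z C δ (SR i0 w' q') Z' := by
  classical
  obtain ⟨E₀, hE₀, hclus⟩ := clus_step g hg
  set N : ℕ := 2 ^ (2 * g - 1) with hN
  set E : ℝ := max E₀ (4 * (N : ℝ)) with hE
  have hE1 : E₀ ≤ E := le_max_left _ _
  have hE20 : 20 ≤ E := hE₀.trans hE1
  have hE2 : 4 * (N : ℝ) ≤ E := le_max_right _ _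
  have hcl := hclus E hE1
  choose! Cs hCs0 hCs using hcl
  have hN0 : (0 : ℝ) ≤ N := Nat.cast_nonneg N
  refine ⟨4 * N + 8, (1 + 6 * E) ^ (2 * g - 1), by positivity,
    one_le_pow₀ (by linarith), ?_⟩
  intro c hc
  -- the constants
  set Cn : ℕ → ℝ := fun n => Nat.rec (motive := fun _ => ℝ) 0
    (fun _ x => x + Cs (c * (1 / 2) * Real.exp (-x))) n with hCn
  have hCn0 : Cn 0 = 0 := rfl
  have hCnS : ∀ n, Cn (n + 1) = Cn n + Cs (c * (1 / 2) * Real.exp (-(Cn n))) := fun n => rfl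
  have hcpos : ∀ x : ℝ, 0 < c * (1 / 2) * Real.exp (-x) := fun x => by positivity
  have hmono : Monotone Cn := by
    refine monotone_nat_of_le_succ fun n => ?_
    rw [hCnS]
    exact le_add_of_nonneg_right (hCs0 _ (hcpos _))
  have hCnn : ∀ n, 0 ≤ Cn n := fun n => by
    have := hmono (Nat.zero_le n)
    rwa [hCn0] at this
  refine ⟨Cn N, hCnn N, ?_⟩
  intro i0 w hw b q Z hb hSt hGr hL
  have hcard : Fintype.card (FF g i0) = 2 * g - 1 := card_FF i0
  have hL0 : ∀ i, 0 < (SR i0 w q).L i := fun i => by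
    have := hL i
    linarith
  set R : ℕ → (FF g i0 → ℂ) → Prop := fun n w' => n ≤ N → ∃ (q' : Fin g → ℂ)
    (Z' : Matrix (Fin g) (Fin g) ℂ), Res (SR i0 w q) b Z (Cn n) (2 * n) (SR i0 w' q') Z' with hR
  have h0 : R 0 w := by
    intro _
    refine ⟨q, Z, ?_⟩
    exact Res.refl hSt (by rw [hCn0]) (by simp)
  have hstep : ∀ n w' J j l, R n w' → Function.Injective w' → CcaPl.ClStep E w' J j l →
      l ≤ CcaPl.rt w' J / E →
      (∀ J' : Finset (FF g i0), 2 ≤ J'.card → J' ≠ Finset.univ →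
        CcaPl.rt w' J' ≤ max (3 * CcaPl.rt w J') 3) → R (n + 1) (CcaPl.scaleJ w' J (w' j) l) := by
    intro n w' J j l hRn hw' hcs _ _ hn1
    obtain ⟨q', Z', hres⟩ := hRn (by omega)
    have hnN : (n : ℝ) ≤ N := by exact_mod_cast (by omega : n ≤ N)
    have hG' : Gr (c * (1 / 2) * Real.exp (-(Cn n))) (SR i0 w' q').L b Z' := by
      refine hres.gr hc.le hGr (fun i => ?_) hL0
      have := hL i
      linarith
    have hL' : ∀ i, 4 ≤ (SR i0 w' q').L i := fun i => by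
      have h1 := hres.len i
      have h2 := hL i
      linarith
    obtain ⟨q'', Z'', h2⟩ := hCs _ (hcpos (Cn n)) i0 w' hw' J j l hcs b q' Z' hb hres.st hG' hL'
    refine ⟨q'', Z'', ?_⟩
    have h3 := hres.trans hSt h2
    have h4 : (2 : ℝ) * ((n + 1 : ℕ) : ℝ) = 2 * n + 2 := by
      push_cast
      ring
    rw [hCnS, h4]
    exact h3
  obtain ⟨n, w', hn, hRn, hw', hrt⟩ := CcaPl.pass hE20 (by rw [hcard]; exact_mod_cast hE2) w hw R
    h0 hstep
  rw [hcard] at hn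
  obtain ⟨q', Z', hres⟩ := hRn hn
  refine ⟨w', q', Z', hw', fun j => ?_, ?_⟩
  · have h1 := CcaPl.bounded_of_rt (B := 6 * E) (by linarith) (by rw [hcard]; omega) w' hw' hrt j
    rwa [hcard] at h1
  · have hnN : (n : ℝ) ≤ N := by exact_mod_cast hn
    exact hres.mono hSt (hmono hn) (by linarith)

end Pool.Agent.Lib.MP_cca10c_ag
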