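import Pool.Agent.Lib.MP_cca10c_ag.R25_Clus
import Pool.Agent.Lib.MP_cca10c_ag.Pl.ClMove

/-!
# Module R: moves of the feet between bounded configurations (R27)

`move_one`: `w`, `w'` differ at `i` by at most `1/1000`: `mv_push` with `T = {i}`, `a = nrm w i`, `d = 2 nn w i ≥ 1`, then `renorm` with
`v = w' (bf i0) - w (bf i0)`. Translation: `SR_translate`. The standard
radii change at most by a factor `2` because all distances are at least `1/2`.
`to_std`: homothety to minimal distance `1` (`mv_SR_homothety`), then induction along `CcaPl.Chain` from `CcaPl.exists_chain`: after `n` steps cost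
`n * C`, loss of length `2 n`.
-/

set_option autoImplicit false

open Topology Set Metric
open scoped ContDiff

namespace Pool.Agent.Lib.MP_cca10c_ag

section

variable {g : ℕ} {i0 : Fin g}

private theorem R27_ne (hg : 2 ≤ g) (k : FF g i0) : ({k} : Finset (FF g i0)) ≠ Finset.univ := by
  intro h
  have h1 := congrArg Finset.card h
  rw [Finset.card_singleton, Finset.card_univ, card_FF] at h1
  omega

private theorem R27_exists_nn (hg : 2 ≤ g) (w : FF g i0 → ℂ) (k : FF g i0) :
    ∃ m, m ≠ k ∧ CcaPl.nn w k = dist (w k) (w m) := by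
  obtain ⟨i, hi, m, hm, h⟩ := CcaPl.exists_sp w {k} (Finset.singleton_nonempty k) (R27_ne hg k)
  rw [Finset.mem_singleton] at hi hm
  subst hi
  exact ⟨m, hm, h⟩

private theorem R27_nn_le (w : FF g i0 → ℂ) {k m : FF g i0} (h : m ≠ k) : CcaPl.nn w k ≤ dist (w k) (w m) :=
  CcaPl.sp_le_dist w {k} (Finset.mem_singleton_self k) (by rwa [Finset.mem_singleton])

private theorem R27_dist_le (w : FF g i0 → ℂ) (k m : FF g i0) : dist (w k) (w m) ≤ CcaPl.dm w Finset.univ :=
  CcaPl.dist_le_dm w _ (Finset.mem_univ _) (Finset.mem_univ _)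

private theorem R27_nn_half (hg : 2 ≤ g) {D' s : ℝ} {w : FF g i0 → ℂ} (h : CcaPl.Bd s D' w) (k : FF g i0) :
    s ≤ CcaPl.nn w k := by
  obtain ⟨m, hm, e⟩ := R27_exists_nn hg w k
  rw [e]
  exact (h k m hm.symm).1

private theorem R27_nn_dm (hg : 2 ≤ g) (w : FF g i0 → ℂ) (k : FF g i0) : CcaPl.nn w k ≤ CcaPl.dm w Finset.univ := by
  obtain ⟨m, hm, e⟩ := R27_exists_nn hg w k
  rw [e]
  exact R27_dist_le w k m

private theorem R27_nn_close (hg : 2 ≤ g) {w w' : FF g i0 → ℂ} {ε : ℝ}
    (h : ∀ a b, dist (w' a) (w' b) ≤ dist (w a) (w b) + ε) (k : FF g i0) : CcaPl.nn w' k ≤ CcaPl.nn w k + ε := by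
  obtain ⟨m, hm, e⟩ := R27_exists_nn hg w k
  rw [e]
  exact (R27_nn_le w' hm).trans (h k m)

private theorem R27_dm_close {w w' : FF g i0 → ℂ} {ε : ℝ} (hε : 0 ≤ ε)
    (h : ∀ a b, dist (w' a) (w' b) ≤ dist (w a) (w b) + ε) :
    CcaPl.dm w' Finset.univ ≤ CcaPl.dm w Finset.univ + ε := by
  refine CcaPl.dm_le w' _ (add_nonneg (CcaPl.dm_nonneg _ _) hε) fun a _ b _ => ?_
  have := R27_dist_le w a b
  have := h a b
  linarith

private theorem R27_inj {D' s : ℝ} (hs : 0 < s) {w : FF g i0 → ℂ} (h : CcaPl.Bd s D' w) : Function.Injective w := by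
  intro a b hab
  by_contra hne
  have h1 := (h a b hne).1
  rw [hab, dist_self] at h1
  linarith

private theorem R27_srad_fin (w : FF g i0 → ℂ) (k : FF g i0) : srad i0 w k.1 = CcaPl.nn w k / 100 := by
  unfold srad
  rw [dif_neg k.2]

private theorem R27_srad_inf (w : FF g i0 → ℂ) : srad i0 w (i0, true) = 100 * CcaPl.dm w Finset.univ := by
  unfold srad
  rw [dif_pos rfl]

private theorem R27_sub (w : FF g i0 → ℂ) (k j : FF g i0) : ‖nrm i0 w k - nrm i0 w j‖ = dist (w k) (w j) := by
  unfold nrm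
  rw [sub_sub_sub_cancel_right, dist_eq_norm]

/-- the standard radii of close configurations are comparable -/
private theorem R27_srad_close (hg : 2 ≤ g) {D' : ℝ} {w w' : FF g i0 → ℂ} (hw : CcaPl.Bd (1 / 2) D' w)
    (hw' : CcaPl.Bd (1 / 2) D' w') (h1 : ∀ a b, dist (w' a) (w' b) ≤ dist (w a) (w b) + 1 / 1000)
    (h2 : ∀ a b, dist (w a) (w b) ≤ dist (w' a) (w' b) + 1 / 1000) (j : Fin g × Bool) :
    srad i0 w' j / 2 ≤ srad i0 w j ∧ srad i0 w j ≤ 2 * srad i0 w' j := by
  by_cases hj : j = (i0, true)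
  · subst hj
    rw [R27_srad_inf, R27_srad_inf]
    have e1 := R27_dm_close (by norm_num) h1
    have e2 := R27_dm_close (by norm_num) h2
    have e3 := (R27_nn_half hg hw (bf i0)).trans (R27_nn_dm hg w (bf i0))
    have e4 := (R27_nn_half hg hw' (bf i0)).trans (R27_nn_dm hg w' (bf i0))
    constructor <;> linarith
  · have f1 := R27_srad_fin w ⟨j, hj⟩
    have f2 := R27_srad_fin w' ⟨j, hj⟩
    simp only at f1 f2
    rw [f1, f2]
    have e1 := R27_nn_close hg h1 ⟨j, hj⟩
    have e2 := R27_nn_close hg h2 ⟨j, hj⟩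
    have e3 := R27_nn_half hg hw ⟨j, hj⟩
    have e4 := R27_nn_half hg hw' ⟨j, hj⟩
    constructor <;> linarith

private theorem R27_q1 {q : Fin g → ℂ} {w : FF g i0 → ℂ} (hq : ∀ i, q i ≠ 0) (hL : ∀ i, 4 ≤ (SR i0 w q).L i) (i : Fin g) :
    ‖q i‖ < 1 := by
  have h1 : 4 ≤ -Real.log ‖q i‖ := hL i
  by_contra hcon
  rw [not_lt] at hcon
  have := Real.log_nonneg hcon
  linarith

end

theorem move_one (g : ℕ) (hg : 2 ≤ g) (D' : ℝ) : ∃ C : ℝ, 1 ≤ C ∧ ∀ (i0 : Fin g) (w w' : FF g i0 → ℂ),
    CcaPl.Bd (1 / 2) D' w → CcaPl.Bd (1 / 2) D' w' → CcaPl.Mv w w' → ∀ q : Fin g → ℂ, (∀ i, q i ≠ 0) →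
    (∀ i, 4 ≤ (SR i0 w q).L i) → ∃ q' : Fin g → ℂ, (∀ i, |(SR i0 w' q').L i - (SR i0 w q).L i| ≤ 2) ∧
      Mv (SR i0 w q) (SR i0 w' q') C := by
  obtain ⟨C1, hC1, hpush⟩ := mv_push
  obtain ⟨C2, hC2, hren⟩ := renorm g hg
  refine ⟨C1 + C2, by linarith, fun i0 w w' hw hw' hmv q hq hL => ?_⟩
  rcases hmv with ⟨i, hi, hk⟩ | ⟨v, hv⟩
  · have hinj := R27_inj (by norm_num) hw
    have hinj' := R27_inj (by norm_num) hw'
    have hq1 := R27_q1 hq hL
    -- distances
    have hd1 : ∀ a, dist (w a) (w' a) ≤ 1 / 1000 := by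
      intro a
      by_cases ha : a = i
      · rw [ha]; exact hi
      · rw [hk a ha, dist_self]; norm_num
    have h1 : ∀ a b, dist (w' a) (w' b) ≤ dist (w a) (w b) + 1 / 1000 := by
      intro a b
      by_cases hab : a = b
      · rw [hab, dist_self, dist_self]; norm_num
      · by_cases ha : a = i
        · have hb : w' b = w b := hk b (fun h => hab (ha.trans h.symm))
          rw [hb]
          have := dist_triangle (w' a) (w a) (w b)
          have h3 := hd1 a
          rw [dist_comm] at h3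
          linarith
        · rw [hk a ha]
          have := dist_triangle (w a) (w b) (w' b)
          have h3 := hd1 b
          linarith
    have h2 : ∀ a b, dist (w a) (w b) ≤ dist (w' a) (w' b) + 1 / 1000 := by
      intro a b
      by_cases hab : a = b
      · rw [hab, dist_self, dist_self]; norm_num
      · by_cases ha : a = i
        · have hb : w' b = w b := hk b (fun h => hab (ha.trans h.symm))
          rw [hb]
          have := dist_triangle (w a) (w' a) (w b)
          have h3 := hd1 a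
          linarith
        · rw [hk a ha]
          have := dist_triangle (w a) (w' b) (w b)
          have h3 := hd1 b
          rw [dist_comm] at h3
          linarith
    have hnn := R27_nn_half hg hw
    have hdm := (hnn (bf i0)).trans (R27_nn_dm hg w (bf i0))
    have hdm' := (R27_nn_half hg hw' (bf i0)).trans (R27_nn_dm hg w' (bf i0))
    set v : ℂ := w' i - w i with hvdef
    have hvn : ‖v‖ ≤ 1 / 1000 := by
      rw [hvdef, ← dist_eq_norm, dist_comm]
      exact hi
    have hRV := SR_rv hg hinj hq hq1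
    have m1 := hpush g i0 (nrm i0 w) (srad i0 w) q hRV {i} (nrm i0 w i) v (2 * CcaPl.nn w i)
      (by have := hnn i; linarith) (by have := hnn i; linarith)
      (by
        intro j hj
        rw [Finset.mem_singleton] at hj
        subst hj
        rw [sub_self, norm_zero, R27_srad_fin]
        have := hnn j
        linarith)
      (by
        intro j hj
        rw [Finset.mem_singleton] at hj
        rw [R27_sub, R27_srad_fin]
        have e1 := R27_nn_le w (k := i) (m := j) hj
        have e2 := R27_nn_le w (k := j) (m := i) (fun h => hj h.symm)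
        rw [dist_comm] at e1
        have := hnn j
        linarith)
      (by
        rw [R27_srad_inf]
        have e1 : ‖nrm i0 w i‖ ≤ CcaPl.dm w Finset.univ := by
          unfold nrm
          rw [← dist_eq_norm]
          exact R27_dist_le w _ _
        have e2 := R27_nn_dm hg w i
        linarith)
    set p' : FF g i0 → ℂ := fun j => if j ∈ ({i} : Finset (FF g i0)) then nrm i0 w j + v else nrm i0 w j with hp'
    have hp'' : ∀ k, p' k = nrm i0 w' k + (w' (bf i0) - w (bf i0)) := by
      intro k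
      rw [hp']
      simp only [Finset.mem_singleton]
      unfold nrm
      by_cases hki : k = i
      · rw [if_pos hki, hki, hvdef]
        ring
      · rw [if_neg hki, hk k hki]
        ring
    have hpd : ∀ j k, dist (p' j) (p' k) = dist (w' j) (w' k) := by
      intro j k
      rw [hp'' j, hp'' k, dist_add_right]
      unfold nrm
      rw [dist_sub_right]
    have hRV' : RV i0 p' (srad i0 w) q := by
      refine ⟨hRV.s0, fun j k hjk => ?_, fun j => ?_, hq, hq1⟩
      · rw [hpd, R27_srad_fin, R27_srad_fin]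
        have e1 := R27_nn_le w (k := j) (m := k) hjk.symm
        have e2 := R27_nn_le w (k := k) (m := j) hjk
        rw [dist_comm] at e2
        have e3 := h2 j k
        have e4 := (hw j k hjk).1
        linarith
      · rw [R27_srad_fin, R27_srad_inf]
        have e1 : ‖p' j‖ ≤ CcaPl.dm w Finset.univ + 1 / 1000 := by
          rw [hp'' j]
          unfold nrm
          have e5 : w' j - w' (bf i0) + (w' (bf i0) - w (bf i0)) = (w' j - w j) + (w j - w (bf i0)) := by ring
          rw [e5]
          refine (norm_add_le _ _).trans ?_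
          rw [← dist_eq_norm, ← dist_eq_norm]
          have e6 := R27_dist_le w j (bf i0)
          have e7 := hd1 j
          rw [dist_comm] at e7
          linarith
        have e2 := R27_nn_dm hg w j
        linarith
    obtain ⟨q', hq', m2⟩ := hren i0 p' w' (srad i0 w) q (w' (bf i0) - w (bf i0)) hinj' hRV' (fun i => hL i) hp''
      (by
        rw [← dist_eq_norm, dist_comm]
        have := hd1 (bf i0)
        linarith)
      (R27_srad_close hg hw hw' h1 h2)
    exact ⟨q', hq', Mv.trans m1 m2⟩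
  · have e : w' = fun k => w k + v := funext hv
    refine ⟨q, fun i => ?_, ?_⟩
    · rw [e, SR_translate, sub_self, abs_zero]
      norm_num
    · rw [e, SR_translate]
      exact (Mv.refl _).mono (by linarith)

theorem to_std (g : ℕ) (hg : 2 ≤ g) (i0 : Fin g) (st : FF g i0 → ℂ) (D₀ : ℝ) (hst : CcaPl.Bd 1 D₀ st) (B : ℝ) :
    ∃ C δ : ℝ, 0 ≤ C ∧ 0 ≤ δ ∧ ∀ (w : FF g i0 → ℂ), Function.Injective w →
    (∀ j, CcaPl.dm w Finset.univ ≤ B * CcaPl.nn w j) → ∀ (b : Fin g → Fin g ⊕ Fin g → ℤ) (q : Fin g → ℂ)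
    (Z : Matrix (Fin g) (Fin g) ℂ), St (SR i0 w q) b Z → (∀ i, 2 * δ ≤ (SR i0 w q).L i) →
      ∃ (q' : Fin g → ℂ) (Z' : Matrix (Fin g) (Fin g) ℂ), Res (SR i0 w q) b Z C δ (SR i0 st q') Z' := by
  have hst' : CcaPl.Bd 1 (max D₀ B) st := fun i k hik => ⟨(hst i k hik).1, (hst i k hik).2.trans (le_max_left _ _)⟩
  obtain ⟨D', N, hchain⟩ := CcaPl.exists_chain (max D₀ B) st hst'
  obtain ⟨C, hC, hmove⟩ := move_one g hg D'
  refine ⟨N * C, 2 * N + 2, by positivity, by positivity, fun w hw hB b q Z hZ hL => ?_⟩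
  -- homothety
  obtain ⟨j, -, hj⟩ := Finset.exists_min_image (Finset.univ : Finset (FF g i0)) (CcaPl.nn w) ⟨bf i0, Finset.mem_univ _⟩
  have hnn : 0 < CcaPl.nn w j := CcaPl.sp_pos w hw {j} (Finset.singleton_nonempty j) (R27_ne hg j)
  set l : ℝ := (CcaPl.nn w j)⁻¹ with hl
  have hl0 : 0 < l := inv_pos.2 hnn
  set w1 : FF g i0 → ℂ := fun k => (l : ℂ) * w k with hw1
  have hdist : ∀ a b, dist (w1 a) (w1 b) = l * dist (w a) (w b) := by
    intro a b
    rw [hw1]
    simp only
    rw [dist_eq_norm, ← mul_sub, norm_mul, Complex.norm_real, Real.norm_of_nonneg hl0.le, dist_eq_norm]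
  have hbd : CcaPl.Bd 1 (max D₀ B) w1 := by
    intro a b hab
    rw [hdist]
    constructor
    · have h1 := (hj a (Finset.mem_univ _)).trans (R27_nn_le w (k := a) (m := b) hab.symm)
      calc (1 : ℝ) = l * CcaPl.nn w j := by rw [hl, inv_mul_cancel₀ hnn.ne']
        _ ≤ l * dist (w a) (w b) := mul_le_mul_of_nonneg_left h1 hl0.le
    · have h1 := (R27_dist_le w a b).trans (hB j)
      calc l * dist (w a) (w b) ≤ l * (B * CcaPl.nn w j) := mul_le_mul_of_nonneg_left h1 hl0.le
        _ = B := by rw [hl]; field_simp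
        _ ≤ _ := le_max_right _ _
  obtain ⟨Z1, hZ1⟩ := Mv.res (δ := 0) (mv_SR_homothety (q := q) hg hw hl0) hZ (fun i => by
    have : (SR i0 (fun k => (l : ℂ) * w k) q).L i = (SR i0 w q).L i := rfl
    rw [this]
    linarith)
  obtain ⟨n, hn, hc⟩ := hchain w1 hbd
  have key : ∀ (m : ℕ) (p r : FF g i0 → ℂ), CcaPl.Chain D' m p r → m ≤ N → p = w1 →
      ∃ (q' : Fin g → ℂ) (Z' : Matrix (Fin g) (Fin g) ℂ), Res (SR i0 w q) b Z (m * C) (2 * m) (SR i0 r q') Z' := by
    intro m p r hch
    induction hch with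
    | refl p =>
      intro _ hp
      subst hp
      refine ⟨q, Z1, hZ1.mono hZ (by simp) (by simp)⟩
    | mv m p r t hpr hr ht hrt ih =>
      intro hm hp
      obtain ⟨q1, Z2, h2⟩ := ih (by omega) hp
      have hmN : (m : ℝ) + 1 ≤ N := by exact_mod_cast hm
      obtain ⟨q2, hq2, hmv⟩ := hmove i0 r t hr ht hrt q1 h2.st.1.q0 (fun i => by
        have e1 := h2.len i
        have e2 := hL i
        linarith)
      obtain ⟨Z3, h3⟩ := Mv.res (δ := 2) hmv h2.st (fun i => by
        have := (abs_le.1 (hq2 i)).1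
        linarith)
      refine ⟨q2, Z3, ?_⟩
      have h4 := h2.trans hZ h3
      refine h4.mono hZ ?_ ?_
      · push_cast; linarith
      · push_cast; linarith
    | sc m p r l' hpr h1 h2' hr hr' ih =>
      intro hm hp
      obtain ⟨q1, Z2, h2⟩ := ih (by omega) hp
      have hl' : 0 < l' := by linarith
      obtain ⟨Z3, h3⟩ := Mv.res (δ := 0) (mv_SR_homothety (q := q1) hg (R27_inj (by norm_num) hr) hl') h2.st (fun i => by
        have : (SR i0 (fun k => (l' : ℂ) * r k) q1).L i = (SR i0 r q1).L i := rfl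
        rw [this]
        linarith)
      refine ⟨q1, Z3, ?_⟩
      have h4 := h2.trans hZ h3
      refine h4.mono hZ ?_ ?_
      · push_cast; linarith
      · push_cast; linarith
  obtain ⟨q', Z', h⟩ := key n w1 st hc hn rfl
  have hnN : (n : ℝ) ≤ N := by exact_mod_cast hn
  refine ⟨q', Z', h.mono hZ (mul_le_mul_of_nonneg_right hnN (by linarith)) (by linarith)⟩

end Pool.Agent.Lib.MP_cca10c_ag
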