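import Pool.Agent.Lib.MP_cca10c_ag.R10_Handle
import Pool.Agent.Lib.MP_cca10c_ag.R08_MvFam

/-!
# Module R: Theorem D, change of the lengths of the handles; twists (stub R28)

Chains of `mv_q`. One step `c = (1 - k) L` (so the new length is `L - Re c = k L`) costs
`A0 |k - 1| ≤ 2 A0 |log k|` for `|k - 1| ≤ δ ≤ 1/2`; to go from `λ` to `λ'` (both at least `4`) use `n` steps
with the factor `(λ' / λ) ^ (1 / n)`. Twist: `n` steps `c = i θ / n`.
-/

set_option autoImplicit false

open Topology Set Metric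
open scoped ContDiff

namespace Pool.Agent.Lib.MP_cca10c_ag

theorem hdl_trans {g : ℕ} {D D' D'' : PData g} {C C' : ℝ} (h : Mv D D' C) (h' : Mv D' D'' C') :
    Mv D D'' (C + C') :=
  Mv.trans h h'

theorem hdl_refl {g : ℕ} (D : PData g) : Mv D D 0 :=
  Mv.refl D

theorem hdl_mono {g : ℕ} {D D' : PData g} {C C' : ℝ} (h : Mv D D' C) (hC : C ≤ C') :
    Mv D D' C' :=
  Mv.mono h hC

/-- all `q i` positive, with prescribed lengths -/
noncomputable def PData.setL {g : ℕ} (D : PData g) (lam : Fin g → ℝ) : PData g where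
  i0 := D.i0
  f := D.f
  q := fun i => (Real.exp (-lam i) : ℂ)

/-- the data `D` with other parameters -/
private def R28_Q {g : ℕ} (D : PData g) (q : Fin g → ℂ) : PData g where
  i0 := D.i0
  f := D.f
  q := q

private theorem R28_setq {g : ℕ} (D : PData g) (q : Fin g → ℂ) (i : Fin g) (a : ℂ) :
    (R28_Q D q).setq i a = R28_Q D (Function.update q i a) := rfl

private theorem R28_L {g : ℕ} (D : PData g) (q : Fin g → ℂ) (i : Fin g) :
    (R28_Q D q).L i = -Real.log ‖q i‖ := rfl

private theorem R28_setL {g : ℕ} (D : PData g) (lam : Fin g → ℝ) :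
    D.setL lam = R28_Q D (fun i => (Real.exp (-lam i) : ℂ)) := rfl

/-- chains of steps in one handle: `n` steps with the same factor `exp c` -/
private theorem R28_chain {δ A0 : ℝ} (hq : ∀ (g : ℕ) (D : PData g) (i : Fin g) (c : ℂ),
    4 ≤ D.L i → ‖c‖ ≤ δ * D.L i → Mv D (D.setq i (D.q i * Complex.exp c)) (A0 * ‖c‖ / D.L i))
    {g : ℕ} (D : PData g) (q : Fin g → ℂ) (i : Fin g) (a c : ℕ → ℂ) (B : ℝ) (n : ℕ)
    (h0 : a 0 = q i) (h4 : ∀ k, k < n → 4 ≤ -Real.log ‖a k‖)
    (hs : ∀ k, k < n → a (k + 1) = a k * Complex.exp (c k))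
    (hδ : ∀ k, k < n → ‖c k‖ ≤ δ * (-Real.log ‖a k‖))
    (hB : ∀ k, k < n → A0 * ‖c k‖ / (-Real.log ‖a k‖) ≤ B) :
    ∀ k, k ≤ n → Mv (R28_Q D q) (R28_Q D (Function.update q i (a k))) (B * k) := by
  intro k
  induction k with
  | zero =>
    intro _
    rw [h0, Function.update_eq_self]
    simpa using Mv.refl (R28_Q D q)
  | succ k ih =>
    intro hk
    have hk' : k < n := hk
    have h1 := ih hk'.le
    have hL : (R28_Q D (Function.update q i (a k))).L i = -Real.log ‖a k‖ := by
      rw [R28_L, Function.update_self]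
    have h2 := hq g (R28_Q D (Function.update q i (a k))) i (c k) (by rw [hL]; exact h4 k hk')
      (by rw [hL]; exact hδ k hk')
    have h3 : (R28_Q D (Function.update q i (a k))).setq i
        ((R28_Q D (Function.update q i (a k))).q i * Complex.exp (c k)) =
        R28_Q D (Function.update q i (a (k + 1))) := by
      rw [R28_setq]
      have e1 : (R28_Q D (Function.update q i (a k))).q i = a k := by
        show Function.update q i (a k) i = a k
        exact Function.update_self i (a k) q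
      rw [e1, ← hs k hk', Function.update_idem]
    rw [h3, hL] at h2
    have h4' := Mv.trans h1 (Mv.mono h2 (hB k hk'))
    have e2 : B * ((k + 1 : ℕ) : ℝ) = B * k + B := by push_cast; ring
    rw [e2]
    exact h4'

/-- change of the parameters of the handles one after the other -/
private theorem R28_all {g : ℕ} (D : PData g) (q q' : Fin g → ℂ) (c : Fin g → ℝ)
    (h : ∀ i, ∀ r : Fin g → ℂ, r i = q i →
      Mv (R28_Q D r) (R28_Q D (Function.update r i (q' i))) (c i)) :
    Mv (R28_Q D q) (R28_Q D q') (∑ i, c i) := by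
  classical
  have key : ∀ s : Finset (Fin g), Mv (R28_Q D q) (R28_Q D (s.piecewise q' q)) (∑ i ∈ s, c i) := by
    intro s
    induction s using Finset.induction_on with
    | empty =>
      rw [Finset.piecewise_empty, Finset.sum_empty]
      exact Mv.refl _
    | insert i s hi ih =>
      have h1 := h i (s.piecewise q' q) (Finset.piecewise_eq_of_notMem _ _ _ hi)
      rw [Finset.piecewise_insert, Finset.sum_insert hi, add_comm]
      exact Mv.trans ih h1
  have h2 := key Finset.univ
  rwa [Finset.piecewise_univ] at h2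

/-- Theorem D -/
theorem mv_setL : ∃ C : ℝ, 0 ≤ C ∧ ∀ (g : ℕ) (D : PData g) (lam lam' : Fin g → ℝ),
    (∀ i, 4 ≤ lam i) → (∀ i, 4 ≤ lam' i) →
      Mv (D.setL lam) (D.setL lam') (C * ∑ i, |Real.log (lam i) - Real.log (lam' i)|) := by
  obtain ⟨δ, A0, hδ0, hδ1, hA0, hq⟩ := mv_q
  refine ⟨2 * A0, by positivity, fun g D lam lam' h4 h4' => ?_⟩
  rw [R28_setL, R28_setL, Finset.mul_sum]
  refine R28_all D _ _ (fun i => 2 * A0 * |Real.log (lam i) - Real.log (lam' i)|) fun i r hr => ?_
  set l : ℝ := lam i with hl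
  set l' : ℝ := lam' i with hl'
  have hl4 : 4 ≤ l := h4 i
  have hl4' : 4 ≤ l' := h4' i
  have hlp : 0 < l := by linarith
  have hlp' : 0 < l' := by linarith
  obtain ⟨n, hn⟩ := exists_nat_gt (|Real.log l' - Real.log l| / (δ / 2))
  have hn0 : (0 : ℝ) < n := lt_of_le_of_lt (by positivity) hn
  set s : ℝ := (Real.log l' - Real.log l) / n with hs
  have hsn : s * n = Real.log l' - Real.log l := by
    rw [hs]
    field_simp
  have hsabs : |s| * n = |Real.log l' - Real.log l| := by
    rw [← hsn, abs_mul, abs_of_pos hn0]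
  have hsδ : |s| ≤ δ / 2 := by
    rw [div_lt_iff₀ (by positivity)] at hn
    by_contra hneg
    push Not at hneg
    have h5 : δ / 2 * n < |s| * n := mul_lt_mul_of_pos_right hneg hn0
    rw [hsabs] at h5
    linarith
  have hs1 : |s| ≤ 1 := by linarith
  have hexp : |Real.exp s - 1| ≤ 2 * |s| := by
    have h5 := Real.abs_exp_sub_one_le hs1
    exact h5
  -- the lengths
  have hlen : ∀ k : ℕ, k ≤ n → 4 ≤ l * Real.exp (s * k) := by
    intro k hk
    have hk' : (k : ℝ) ≤ n := by exact_mod_cast hk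
    have hk0 : (0 : ℝ) ≤ k := Nat.cast_nonneg k
    rcases le_total 0 s with h0 | h0
    · have h5 : 1 ≤ Real.exp (s * k) := Real.one_le_exp (mul_nonneg h0 hk0)
      nlinarith
    · have h5 : s * n ≤ s * k := mul_le_mul_of_nonpos_left hk' h0
      rw [hsn] at h5
      have h6 : Real.exp (Real.log l' - Real.log l) ≤ Real.exp (s * k) := Real.exp_le_exp.2 h5
      rw [Real.exp_sub, Real.exp_log hlp, Real.exp_log hlp', div_le_iff₀ hlp] at h6
      linarith
  have hnorm : ∀ x : ℝ, -Real.log ‖((Real.exp (-x) : ℝ) : ℂ)‖ = x := by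
    intro x
    rw [Complex.norm_real, Real.norm_eq_abs, abs_of_pos (Real.exp_pos _), Real.log_exp, neg_neg]
  have hmain := R28_chain hq D r i (fun k => ((Real.exp (-(l * Real.exp (s * k))) : ℝ) : ℂ))
    (fun k => ((l * Real.exp (s * k) * (1 - Real.exp s) : ℝ) : ℂ)) (2 * A0 * |s|) n
    (by simp [hr, hl]) (fun k hk => by rw [hnorm]; exact hlen k hk.le)
    (fun k hk => by
      rw [← Complex.ofReal_exp, ← Complex.ofReal_mul, ← Real.exp_add]
      congr 2
      have e1 : s * ((k + 1 : ℕ) : ℝ) = s * k + s := by push_cast; ring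
      rw [e1, Real.exp_add]
      ring)
    (fun k hk => by
      rw [hnorm, Complex.norm_real, Real.norm_eq_abs, abs_mul,
        abs_of_nonneg (by positivity : 0 ≤ l * Real.exp (s * k)), abs_sub_comm, mul_comm δ]
      exact mul_le_mul_of_nonneg_left (by linarith) (by positivity))
    (fun k hk => by
      rw [hnorm, Complex.norm_real, Real.norm_eq_abs, abs_mul,
        abs_of_nonneg (by positivity : 0 ≤ l * Real.exp (s * k)), abs_sub_comm]
      rw [div_le_iff₀ (by positivity)]
      have h5 : A0 * (l * Real.exp (s * k) * |Real.exp s - 1|) =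
        A0 * |Real.exp s - 1| * (l * Real.exp (s * k)) := by ring
      rw [h5]
      refine mul_le_mul_of_nonneg_right ?_ (by positivity)
      calc A0 * |Real.exp s - 1| ≤ A0 * (2 * |s|) := mul_le_mul_of_nonneg_left hexp hA0.le
        _ = 2 * A0 * |s| := by ring) n le_rfl
  have e1 : l * Real.exp (s * n) = l' := by
    rw [hsn, Real.exp_sub, Real.exp_log hlp, Real.exp_log hlp']
    field_simp
  have e2 : 2 * A0 * |s| * n = 2 * A0 * |Real.log l - Real.log l'| := by
    rw [mul_assoc, hsabs, abs_sub_comm]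
  simp only [e1] at hmain
  rw [e2] at hmain
  exact hmain

/-- making all `q i` positive -/
theorem mv_pos : ∃ C : ℝ, 0 ≤ C ∧ ∀ (g : ℕ) (D : PData g), (∀ i, 4 ≤ D.L i) →
    Mv D (D.setL D.L) (C * g) := by
  obtain ⟨δ, A0, hδ0, hδ1, hA0, hq⟩ := mv_q
  refine ⟨A0, hA0.le, fun g D h4 => ?_⟩
  have hD : D = R28_Q D D.q := rfl
  have hsum : A0 * (g : ℝ) = ∑ _i : Fin g, A0 := by
    rw [Finset.sum_const, Finset.card_univ, Fintype.card_fin, nsmul_eq_mul, mul_comm]
  rw [R28_setL, hsum]
  refine R28_all D D.q _ (fun _ => A0) fun i r hr => ?_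
  have hL4 : 4 ≤ -Real.log ‖D.q i‖ := h4 i
  have hq0 : D.q i ≠ 0 := by
    intro h0
    rw [h0, norm_zero, Real.log_zero] at hL4
    linarith
  have hqn : 0 < ‖D.q i‖ := norm_pos_iff.2 hq0
  obtain ⟨n, hn⟩ := exists_nat_gt (1 / δ)
  have hn0 : (0 : ℝ) < n := lt_trans (by positivity) hn
  set θ : ℝ := Complex.arg (D.q i) with hθ
  have hθa : |θ| ≤ 4 := (Complex.abs_arg_le_pi _).trans Real.pi_le_four
  have hnθ : |θ| / n ≤ 4 * δ := by
    rw [div_lt_iff₀ hδ0] at hn
    rw [div_le_iff₀ hn0]
    nlinarith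
  have hne : ∀ x : ℝ, ‖D.q i * Complex.exp ((x : ℂ) * Complex.I)‖ = ‖D.q i‖ := by
    intro x
    rw [norm_mul, Complex.norm_exp_ofReal_mul_I, mul_one]
  have hcn : ‖(((-θ / n : ℝ) : ℂ) * Complex.I)‖ = |θ| / n := by
    rw [norm_mul, Complex.norm_I, mul_one, Complex.norm_real, Real.norm_eq_abs, abs_div, abs_neg,
      abs_of_pos hn0]
  have hmain := R28_chain hq D r i
    (fun k => D.q i * Complex.exp (((-θ / n * k : ℝ) : ℂ) * Complex.I))
    (fun _ => ((-θ / n : ℝ) : ℂ) * Complex.I) (A0 / n) n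
    (by simp [hr]) (fun k hk => by rw [hne]; exact hL4)
    (fun k hk => by
      rw [mul_assoc, ← Complex.exp_add]
      congr 2
      push_cast
      ring)
    (fun k hk => by
      rw [hne, hcn]
      nlinarith)
    (fun k hk => by
      rw [hne, hcn, div_le_iff₀ (by linarith)]
      have h5 : A0 * (|θ| / n) = A0 / n * |θ| := by ring
      rw [h5]
      refine mul_le_mul_of_nonneg_left ?_ (by positivity)
      linarith) n le_rfl
  have e1 : D.q i * Complex.exp (((-θ / n * n : ℝ) : ℂ) * Complex.I) =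
      ((Real.exp (-D.L i) : ℝ) : ℂ) := by
    have e2 : (-θ / n * n : ℝ) = -θ := by field_simp
    have e3 : Real.exp (-D.L i) = ‖D.q i‖ := by
      rw [PData.L, neg_neg, Real.exp_log hqn]
    rw [e2, e3]
    conv_lhs => rw [← Complex.norm_mul_exp_arg_mul_I (D.q i)]
    rw [mul_assoc, ← Complex.exp_add, ← hθ]
    push_cast
    rw [neg_mul, add_neg_cancel, Complex.exp_zero, mul_one]
  have e4 : A0 / n * n = A0 := by field_simp
  simp only [e1] at hmain
  rw [e4] at hmain
  exact hmain

end Pool.Agent.Lib.MP_cca10c_ag
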