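import Pool.Agent.Lib.MP_cca10c_ag.R01_St

/-!
# Module R: Theorem E, comparison of the lengths of the handles (stub R29)

Pure linear algebra. `b_i ∉ span (b_j, j < k)` for `k ≤ i`, so `Gr` gives `c / lam k ≤ QF (b_i) ≤ C / lam i`.
Let `N` be the symplectic matrix of `LE' r Z Z'`. The vectors `N b_k`, `k ≤ i` (`i + 1` of them) are
independent, `span (b'_j, j < i)` has dimension at most `i`: some `N b_k`, `k ≤ i`, is not in it, and
`c / lam' i ≤ QF (PZ Z') (N b_k) ≤ exp r * QF (PZ Z) (b_k) ≤ exp r * C / lam k`.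
-/

set_option autoImplicit false

open Topology Set Matrix
open scoped ENNReal

namespace Pool.Agent.Lib.MP_cca10c_ag

variable {g : ℕ}

theorem Gr.le_of_le {c C : ℝ} (hc : 0 < c) {lam : Fin g → ℝ} (hl : ∀ i, 0 < lam i)
    {b : Fin g → Fin g ⊕ Fin g → ℤ} {Z : Matrix (Fin g) (Fin g) ℂ}
    (hb : LinearIndependent ℝ fun i => zV (b i)) (hG : Gr c lam b Z)
    (hE : ∀ i, QF (PZ Z) (zV (b i)) ≤ C / lam i) {k i : Fin g} (hki : k ≤ i) :
    lam i ≤ C / c * lam k := by
  have h1 : zV (b i) ∉ Submodule.span ℝ (Set.range fun j : {j : Fin g // j < k} => zV (b j)) := by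
    have h2 := hb.notMem_span_image (s := {j | j < k}) (x := i) (by
      intro h
      exact absurd (lt_of_lt_of_le h hki) (lt_irrefl i))
    intro h3
    apply h2
    have h4 : (Set.range fun j : {j : Fin g // j < k} => zV (b j)) ⊆
        (fun i => zV (b i)) '' {j | j < k} := by
      rintro _ ⟨j, rfl⟩
      exact ⟨j, j.2, rfl⟩
    exact Submodule.span_mono h4 h3
  have h2 := (hG k (b i) h1).trans (hE i)
  rw [div_le_div_iff₀ (hl k) (hl i)] at h2
  rw [div_mul_eq_mul_div, le_div_iff₀ hc]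
  linarith

private theorem R29_zV (N : Matrix (Fin g ⊕ Fin g) (Fin g ⊕ Fin g) ℤ) (x : Fin g ⊕ Fin g → ℤ) :
    zV (N *ᵥ x) = rM N *ᵥ zV x := by
  funext i
  unfold zV rM Matrix.mulVec dotProduct
  push_cast
  rfl

private theorem R29_inj {N : Matrix (Fin g ⊕ Fin g) (Fin g ⊕ Fin g) ℤ}
    (hN : N ∈ Matrix.symplecticGroup (Fin g) ℤ) : Function.Injective (rM N).mulVec := by
  rw [Matrix.mulVec_injective_iff_isUnit, Matrix.isUnit_iff_isUnit_det]
  have h1 : IsUnit N.det := SymplecticGroup.symplectic_det hN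
  have h2 : (rM N).det = ((N.det : ℤ) : ℝ) := by
    have := (RingHom.map_det (Int.castRingHom ℝ) N).symm
    simpa [rM, RingHom.mapMatrix_apply] using this
  rw [h2]
  exact h1.map (Int.castRingHom ℝ)

theorem thmE {c C : ℝ} (hc : 0 < c) (hC : 0 < C) {lam lam' : Fin g → ℝ} (hl : ∀ i, 0 < lam i)
    (hl' : ∀ i, 0 < lam' i) {b b' : Fin g → Fin g ⊕ Fin g → ℤ}
    {Z Z' : Matrix (Fin g) (Fin g) ℂ} (hb : LinearIndependent ℝ fun i => zV (b i))
    (hE : ∀ i, QF (PZ Z) (zV (b i)) ≤ C / lam i) (hG : Gr c lam b Z) (hG' : Gr c lam' b' Z')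
    {r : ℝ} (h : LE' r Z Z') (i : Fin g) :
    lam i ≤ (C / c) ^ 2 * Real.exp r * lam' i := by
  obtain ⟨N, hN, hNx⟩ := h
  have hex : ∃ k : Fin g, k ≤ i ∧ zV (N *ᵥ b k) ∉
      Submodule.span ℝ (Set.range fun j : {j : Fin g // j < i} => zV (b' j)) := by
    by_contra hcon
    push Not at hcon
    have h1 : LinearIndependent ℝ (fun k : {k : Fin g // k ≤ i} => zV (N *ᵥ b k)) := by
      have h2 : LinearIndependent ℝ (fun k : Fin g => (rM N).mulVecLin (zV (b k))) :=
        hb.map' _ (LinearMap.ker_eq_bot.2 (R29_inj hN))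
      have h3 := h2.comp (fun k : {k : Fin g // k ≤ i} => (k : Fin g)) Subtype.val_injective
      have h4 : (fun k : {k : Fin g // k ≤ i} => zV (N *ᵥ b k)) =
          (fun k : Fin g => (rM N).mulVecLin (zV (b k))) ∘
            (fun k : {k : Fin g // k ≤ i} => (k : Fin g)) := by
        funext k
        rw [R29_zV]
        rfl
      rw [h4]
      exact h3
    have h5 : Set.range (fun k : {k : Fin g // k ≤ i} => zV (N *ᵥ b k)) ≤
        (Submodule.span ℝ (Set.range fun j : {j : Fin g // j < i} => zV (b' j)) : Set _) := by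
      rintro _ ⟨k, rfl⟩
      exact hcon k k.2
    have h6 := linearIndependent_le_span' _ h1 _ h5
    have h7 : Fintype.card (Set.range fun j : {j : Fin g // j < i} => zV (b' j)) ≤
        Fintype.card {j : Fin g // j < i} := Fintype.card_range_le _
    rw [Cardinal.mk_fintype] at h6
    have h8 : Fintype.card {k : Fin g // k ≤ i} ≤ Fintype.card {j : Fin g // j < i} := by
      have h9 := Nat.cast_le.1 h6
      exact h9.trans h7
    have h10 : Fintype.card {k : Fin g // k ≤ i} = i + 1 := by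
      rw [Fintype.card_subtype]
      have : (Finset.univ.filter fun k : Fin g => k ≤ i) = Finset.Iic i := by
        ext k; simp
      rw [this, Fin.card_Iic]
    have h11 : Fintype.card {k : Fin g // k < i} = i := by
      rw [Fintype.card_subtype]
      have : (Finset.univ.filter fun k : Fin g => k < i) = Finset.Iio i := by
        ext k; simp
      rw [this, Fin.card_Iio]
    omega
  obtain ⟨k, hki, hk⟩ := hex
  have h1 := hG' i (N *ᵥ b k) hk
  have h2 := hNx (zV (b k))
  rw [← R29_zV] at h2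
  have h3 : Real.exp r * QF (PZ Z) (zV (b k)) ≤ Real.exp r * (C / lam k) :=
    mul_le_mul_of_nonneg_left (hE k) (Real.exp_pos r).le
  have h4 : c / lam' i ≤ Real.exp r * (C / lam k) := (h1.trans h2).trans h3
  rw [mul_div_assoc', div_le_div_iff₀ (hl' i) (hl k)] at h4
  have h5 := Gr.le_of_le hc hl hb hG hE hki
  have h6 : lam k ≤ Real.exp r * C * lam' i / c := by
    rw [le_div_iff₀ hc]
    linarith
  calc lam i ≤ C / c * lam k := h5
    _ ≤ C / c * (Real.exp r * C * lam' i / c) :=
        mul_le_mul_of_nonneg_left h6 (by positivity)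
    _ = (C / c) ^ 2 * Real.exp r * lam' i := by ring

end Pool.Agent.Lib.MP_cca10c_ag
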