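import Pool.Agent.Lib.MP_cca10c_ag.KQ_Input
import Pool.Agent.Lib.MP_cca10c_ag.P09_Asm2
import Pool.Agent.Lib.MP_cca10c_ag.R08_MvFam
import Pool.Agent.Lib.MP_cca10c_ag.R11_Iso
import Pool.Agent.Lib.MP_cca10c_ag.R13_Energy
import Pool.Agent.Lib.MP_cca10c_ag.R28_ThmD
import Pool.Agent.Lib.MP_cca10c_ag.R29_ThmE

/-!
# The main theorem from the standard position of the planar data
-/

set_option autoImplicit false

open Topology Set

namespace Pool.Agent.Lib.MP_cca10c_ag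

/-- every surface with long handles and the greedy property is joined at bounded cost to a standard
one -/
def StdPos (g : ℕ) (i0 : Fin g) : Prop :=
  ∃ (D0 : PData g) (L0 : ℝ), ∀ c : ℝ, 0 < c → ∃ C κ : ℝ, 0 ≤ C ∧ 0 < κ ∧
    ∀ (D : PData g) (b : Fin g → Fin g ⊕ Fin g → ℤ) (Z : Matrix (Fin g) (Fin g) ℂ),
      St D b Z → D.i0 = i0 → LinearIndependent ℝ (fun i => zV (b i)) → (∀ i, L0 ≤ D.L i) →
      Gr c D.L b Z → ∃ (lam : Fin g → ℝ) (Z' : Matrix (Fin g) (Fin g) ℂ), (∀ i, 4 ≤ lam i) ∧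
        (∀ i, κ * D.L i ≤ lam i) ∧ St (D0.setL lam) b Z' ∧ Conn g Z Z' C ∧ LEq C Z Z'

private theorem r30_L {g : ℕ} (D0 : PData g) (lam : Fin g → ℝ) (i : Fin g) :
    (D0.setL lam).L i = lam i := by
  simp only [PData.L, PData.setL]
  rw [Complex.norm_real, Real.norm_eq_abs, abs_of_pos (Real.exp_pos _), Real.log_exp, neg_neg]

theorem main_of_stdPos (h : ∀ (g : ℕ) (hg : 2 ≤ g), StdPos g ⟨0, by omega⟩) : Main := by
  intro g hg
  obtain ⟨D0, L0, hstd⟩ := h g hg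
  have hg1 : 1 ≤ g := by omega
  obtain ⟨C1, c, hC1, hc, hin⟩ := kq_input g hg1 (max L0 1)
  obtain ⟨C2, κ, hC2, hκ, hpos⟩ := hstd c hc
  obtain ⟨C3, hC3, hD⟩ := mv_setL
  obtain ⟨C4, hC4, hen⟩ := St.en_handle
  set c' : ℝ := c * κ * Real.exp (-C2) with hc'
  have hc'0 : 0 < c' := by positivity
  set C : ℝ := 1 + C1 + C2 + C3 + (C4 / c') ^ 2 with hCdef
  have hC : 1 ≤ C := by
    have : 0 ≤ (C4 / c') ^ 2 := by positivity
    rw [hCdef]
    linarith
  refine assembly2 g C 4 hC (by norm_num)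
    (fun lam => {W | ∃ b, St (D0.setL lam) b W})
    (fun lam => {W | ∃ b, St (D0.setL lam) b W ∧ LinearIndependent ℝ (fun i => zV (b i)) ∧
      Gr c' lam b W}) ?_ ?_ ?_ ?_ ?_ ?_
  · rintro lam W ⟨b, hb, -, -⟩
    exact ⟨b, hb⟩
  · rintro lam - W ⟨b, hb⟩
    exact hb.mem_schottky
  · rintro lam - W ⟨b, hb⟩ W' ⟨b', hb'⟩
    exact hb.samePt hb'
  · intro Z hZ
    obtain ⟨D, b, Z', hcn, hst, hli, hL, hG, hi0⟩ := hin Z hZ
    obtain ⟨lam, Z'', h4, hk, hst', hcn', hle⟩ := hpos D b Z' hst hi0 hli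
      (fun i => (le_max_left _ _).trans (hL i)) hG
    have hL0 : ∀ i, 0 < D.L i := fun i => by
      have := (le_max_right L0 1).trans (hL i)
      linarith
    refine ⟨lam, h4, Z'', ⟨b, hst', hli, ?_⟩, ?_⟩
    · exact Gr.of_LEq hc.le hκ hL0 hG hle hk
    · have h5 : Conn g Z Z'' (C1 + C2) := Conn.trans hZ.1 hst.2.1 hst'.2.1 hcn hcn'
      refine h5.mono ?_
      have : 0 ≤ (C4 / c') ^ 2 := by positivity
      rw [hCdef]
      linarith
  · rintro lam lam' hlam hlam' W ⟨b, hb⟩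
    obtain ⟨W', hW', hcn, -⟩ := hD g D0 lam lam' hlam hlam' b W hb
    refine ⟨W', ⟨b, hW'⟩, hcn.mono ?_⟩
    refine mul_le_mul_of_nonneg_right ?_ (Finset.sum_nonneg fun i _ => abs_nonneg _)
    have : 0 ≤ (C4 / c') ^ 2 := by positivity
    rw [hCdef]
    linarith
  · rintro lam lam' hlam hlam' W ⟨b, hb, hli, hG⟩ W' ⟨b', hb', hli', hG'⟩ r hr hle i
    have hl : ∀ i, 0 < lam i := fun i => by have := hlam i; linarith
    have hl' : ∀ i, 0 < lam' i := fun i => by have := hlam' i; linarith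
    have h1 := thmE hc'0 hC4 hl hl' hli (fun i => by
      have h2 := hen g (D0.setL lam) b W hb i
      rw [r30_L] at h2
      exact h2) hG hG' hle i
    refine h1.trans ?_
    refine mul_le_mul_of_nonneg_right (mul_le_mul_of_nonneg_right ?_ (Real.exp_pos _).le)
      (hl' i).le
    rw [hCdef]
    linarith

end Pool.Agent.Lib.MP_cca10c_ag
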