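import Pool.Agent.Lib.MP_cca10c_ag.R17_LinAll
import Pool.Agent.Lib.MP_cca10c_ag.R26_Pass
import Pool.Agent.Lib.MP_cca10c_ag.R27_Moves
import Pool.Agent.Lib.MP_cca10c_ag.R28_ThmD

/-!
# Module R: standard position (stub R31)

`lin_all`, `pass_SR`, `to_std` with a fixed configuration `st` (distinct integers, `Fintype.equivFin`), `mv_pos`. `(SR i0 st q).setL lam` does not depend
on `q`, so `D0 = SR i0 st q0` for any `q0`. `κ = 1 / 2`.
-/

set_option autoImplicit false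

open Topology Set Metric
open scoped ContDiff

namespace Pool.Agent.Lib.MP_cca10c_ag

/-- distinct integers -/
noncomputable def stdCfg {g : ℕ} (i0 : Fin g) : FF g i0 → ℂ := fun j => ((Fintype.equivFin (FF g i0) j : ℕ) : ℂ)

theorem stdCfg_bd {g : ℕ} (i0 : Fin g) : CcaPl.Bd 1 (2 * g) (stdCfg i0) := by
  intro i k hik
  have hne : (Fintype.equivFin (FF g i0) i : ℕ) ≠ (Fintype.equivFin (FF g i0) k : ℕ) := by
    intro h
    exact hik ((Fintype.equivFin (FF g i0)).injective (Fin.ext h))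
  have hd : dist (stdCfg i0 i) (stdCfg i0 k) =
      |((Fintype.equivFin (FF g i0) i : ℕ) : ℝ) - ((Fintype.equivFin (FF g i0) k : ℕ) : ℝ)| := by
    have h1 : stdCfg i0 i - stdCfg i0 k = ((((Fintype.equivFin (FF g i0) i : ℕ) : ℝ) -
        ((Fintype.equivFin (FF g i0) k : ℕ) : ℝ) : ℝ) : ℂ) := by
      simp [stdCfg]
    rw [dist_eq_norm, h1, Complex.norm_real, Real.norm_eq_abs]
  have h1 : (Fintype.equivFin (FF g i0) i : ℕ) < 2 * g - 1 :=
    lt_of_lt_of_eq (Fintype.equivFin (FF g i0) i).2 (card_FF i0)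
  have h2 : (Fintype.equivFin (FF g i0) k : ℕ) < 2 * g - 1 :=
    lt_of_lt_of_eq (Fintype.equivFin (FF g i0) k).2 (card_FF i0)
  rw [hd]
  generalize (Fintype.equivFin (FF g i0) i : ℕ) = a at *
  generalize (Fintype.equivFin (FF g i0) k : ℕ) = b at *
  have h3 : (a : ℝ) ≤ 2 * g := by exact_mod_cast (by omega : a ≤ 2 * g)
  have h4 : (b : ℝ) ≤ 2 * g := by exact_mod_cast (by omega : b ≤ 2 * g)
  have h5 : (0 : ℝ) ≤ a := Nat.cast_nonneg a
  have h6 : (0 : ℝ) ≤ b := Nat.cast_nonneg b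
  constructor
  · rcases lt_or_gt_of_ne hne with h | h
    · have h7 : (a : ℝ) + 1 ≤ b := by exact_mod_cast h
      rw [abs_of_nonpos (by linarith)]
      linarith
    · have h7 : (b : ℝ) + 1 ≤ a := by exact_mod_cast h
      rw [abs_of_nonneg (by linarith)]
      linarith
  · rw [abs_le]
    constructor <;> linarith

private theorem R31_setL_L {g : ℕ} (D : PData g) (lam : Fin g → ℝ) (i : Fin g) :
    (D.setL lam).L i = lam i := by
  show -Real.log ‖((Real.exp (-lam i) : ℝ) : ℂ)‖ = lam i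
  rw [Complex.norm_real, Real.norm_of_nonneg (Real.exp_pos _).le, Real.log_exp, neg_neg]

theorem std_pos (g : ℕ) (hg : 2 ≤ g) (i0 : Fin g) : ∃ (D0 : PData g) (L0 : ℝ), ∀ c : ℝ, 0 < c → ∃ C κ : ℝ, 0 ≤ C ∧ 0 < κ ∧
    ∀ (D : PData g) (b : Fin g → Fin g ⊕ Fin g → ℤ) (Z : Matrix (Fin g) (Fin g) ℂ), St D b Z → D.i0 = i0 →
    LinearIndependent ℝ (fun i => zV (b i)) → (∀ i, L0 ≤ D.L i) → Gr c D.L b Z →
      ∃ (lam : Fin g → ℝ) (Z' : Matrix (Fin g) (Fin g) ℂ), (∀ i, 4 ≤ lam i) ∧ (∀ i, κ * D.L i ≤ lam i) ∧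
        St (D0.setL lam) b Z' ∧ Conn g Z Z' C ∧ LEq C Z Z' := by
  obtain ⟨C1, δ1, hC1, hδ1, hlin⟩ := lin_all g hg
  obtain ⟨δ2, B2, hδ2, hB2, hpass⟩ := pass_SR g hg
  obtain ⟨C3, δ3, hC3, hδ3, hstd⟩ := to_std g hg i0 (stdCfg i0) (2 * g) (stdCfg_bd i0) B2
  obtain ⟨C4, hC4, hpos⟩ := mv_pos
  refine ⟨SR i0 (stdCfg i0) (fun _ => 0), 2 * (δ1 + δ2 + δ3) + 8, ?_⟩
  intro c hc
  have hc1 : 0 < c * (1 / 2) * Real.exp (-C1) := by positivity
  obtain ⟨C2, hC2, hpass2⟩ := hpass _ hc1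
  refine ⟨C1 + C2 + C3 + C4 * g, 1 / 2, by positivity, by norm_num, ?_⟩
  intro D b Z hZ hi0 hb hL hGr
  subst hi0
  have hLpos : ∀ i, 0 < D.L i := fun i => by
    have := hL i
    linarith
  -- round data
  obtain ⟨w, q', hw, hLw, hmv⟩ := hlin D hZ.1 fun i => by
    have := hL i
    linarith
  obtain ⟨Z1, hres1⟩ := hmv.res hZ hLw
  have hGr1 := hres1.gr hc.le hGr (fun i => by
    have := hL i
    linarith) hLpos
  -- bounded configuration
  obtain ⟨w', q2, Z2, hw', hbd, hres2⟩ := hpass2 D.i0 w hw b q' Z1 hb hres1.st hGr1 fun i => by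
    have h1 := hL i
    have h2 := hLw i
    linarith
  have hres12 := hres1.trans hZ hres2
  -- standard configuration
  obtain ⟨q3, Z3, hres3⟩ := hstd w' hw' hbd b q2 Z2 hres2.st fun i => by
    have h1 := hL i
    have h2 := hres12.len i
    linarith
  have hres123 := hres12.trans hZ hres3
  -- positive parameters
  have h4 : ∀ i, 4 ≤ (SR D.i0 (stdCfg D.i0) q3).L i := fun i => by
    have h1 := hL i
    have h2 := hres123.len i
    linarith
  have hmv4 := hpos g (SR D.i0 (stdCfg D.i0) q3) h4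
  obtain ⟨Z4, hres4⟩ := hmv4.res (δ := 0) hres3.st fun i => by
    rw [R31_setL_L, sub_zero]
  have hres := hres123.trans hZ hres4
  refine ⟨(SR D.i0 (stdCfg D.i0) q3).L, Z4, h4, fun i => ?_, hres4.st, hres.conn, hres.leq⟩
  have h1 := hL i
  have h2 := hres123.len i
  linarith

end Pool.Agent.Lib.MP_cca10c_ag
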