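import Pool.Agent.Lib.MP_cca10c_ag.R30_Main
import Pool.Agent.Lib.MP_cca10c_ag.R31_StdPos

/-!
# The main theorem: the distortion of the Schottky locus is linear
-/

set_option autoImplicit false

namespace Pool.Agent.Lib.MP_cca10c_ag

theorem main : Main := main_of_stdPos fun g hg => std_pos g hg ⟨0, by omega⟩

end Pool.Agent.Lib.MP_cca10c_ag
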