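import Mathlib

/-!
# The Schottky locus and its distortion: definitions

Closed Riemann surfaces, period matrices, the Siegel space with its invariant distance, the moduli
space of principally polarized abelian varieties, the induced path metric on the Schottky locus.
-/

set_option autoImplicit false

open Topology Set
open scoped ContDiff ENNReal

namespace Pool.Agent.Lib.MP_cca10c_ag

/-! ### Riemann surfaces -/

/-- Two complex charts are holomorphically compatible. -/
def Compat {X : Type} [TopologicalSpace X] (e e' : OpenPartialHomeomorph X ℂ) : Prop :=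
  DifferentiableOn ℂ (e' ∘ e.symm) (e '' (e.source ∩ e'.source)) ∧
    DifferentiableOn ℂ (e ∘ e'.symm) (e' '' (e.source ∩ e'.source))

/-- A complex structure of complex dimension one on the space `X`: a maximal holomorphic atlas. -/
structure CS (X : Type) [TopologicalSpace X] where
  charts : Set (OpenPartialHomeomorph X ℂ)
  cover : ∀ x, ∃ e ∈ charts, x ∈ e.source
  compat : ∀ e ∈ charts, ∀ e' ∈ charts, Compat e e'
  max : ∀ e, (∀ e' ∈ charts, Compat e e') → e ∈ charts

section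

variable {X : Type} [TopologicalSpace X]

/-- `f` is (real) smooth near `x`. -/
def CS.SmoothAt (S : CS X) (f : X → ℝ) (x : X) : Prop :=
  ∀ e ∈ S.charts, x ∈ e.source → ContDiffAt ℝ ∞ (f ∘ e.symm) (e x)

/-- `f` is holomorphic near `x`. -/
def CS.HolAt (S : CS X) (f : X → ℂ) (x : X) : Prop :=
  ∀ e ∈ S.charts, x ∈ e.source → ∀ᶠ z in 𝓝 (e x), DifferentiableAt ℂ (f ∘ e.symm) z

/-- `f` is a lift of the map `u` to the circle `ℝ / ℤ` near `x`. -/
def LiftAt (u : X → UnitAddCircle) (f : X → ℝ) (x : X) : Prop :=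
  ContinuousAt f x ∧ ∀ᶠ y in 𝓝 x, u y = (f y : UnitAddCircle)

/-- The map `u` to the circle `ℝ / ℤ` is smooth. -/
def CS.SmoothC (S : CS X) (u : X → UnitAddCircle) : Prop :=
  ∀ x, ∃ f : X → ℝ, LiftAt u f x ∧ S.SmoothAt f x

/-- The complex number `∂f/∂x - i ∂f/∂y`. -/
noncomputable def cgrad (f : ℂ → ℝ) (z : ℂ) : ℂ :=
  (fderiv ℝ f z 1 : ℂ) - Complex.I * (fderiv ℝ f z Complex.I : ℂ)

/-- The complex number `∂f/∂x - i ∂f/∂y`, where `f` is any smooth local lift of the map `u` with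
values in the circle: `df = Im (conj U * dU) / (2 π)` with `U = exp (2 π i u)`. -/
noncomputable def cgradC (u : ℂ → UnitAddCircle) (z : ℂ) : ℂ :=
  let U : ℂ → ℂ := fun w => ((AddCircle.toCircle (u w) : Circle) : ℂ)
  (((starRingEnd ℂ (U z) * fderiv ℝ U z 1).im / (2 * Real.pi) : ℝ) : ℂ) -
    Complex.I * (((starRingEnd ℂ (U z) * fderiv ℝ U z Complex.I).im / (2 * Real.pi) : ℝ) : ℂ)

/-- A finite family of charts and a decomposition of the surface into Borel sets contained in the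
chart domains. -/
structure Frame (S : CS X) where
  n : ℕ
  e : Fin n → OpenPartialHomeomorph X ℂ
  mem : ∀ i, e i ∈ S.charts
  P : Fin n → Set X
  meas : ∀ i, @MeasurableSet X (borel X) (P i)
  sub : ∀ i, P i ⊆ (e i).source
  disj : Pairwise (fun i j => Disjoint (P i) (P j))
  cover : ⋃ i, P i = univ

/-- The integral of the two-form `du ∧ dv` over the surface. In a chart the form is
`(u_x v_y - u_y v_x) dx dy`. -/
noncomputable def Frame.wedge {S : CS X} (F : Frame S) (u v : X → UnitAddCircle) : ℝ :=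
  ∑ i, ∫ z in F.e i '' F.P i,
    (cgradC (u ∘ (F.e i).symm) z * starRingEnd ℂ (cgradC (v ∘ (F.e i).symm) z)).im

/-- `u 1, …, u g, v 1, …, v g` are smooth maps to the circle whose classes form a symplectic basis
of `H¹(X, ℤ)` (homotopy classes of maps to the circle), with respect to the cup product
`∫ du ∧ dv`. -/
structure SymplBasis (S : CS X) (g : ℕ) (u v : Fin g → X → UnitAddCircle) : Prop where
  smooth_u : ∀ j, S.SmoothC (u j)
  smooth_v : ∀ j, S.SmoothC (v j)
  uu : ∀ F : Frame S, ∀ j k, F.wedge (u j) (u k) = 0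
  vv : ∀ F : Frame S, ∀ j k, F.wedge (v j) (v k) = 0
  uv : ∀ F : Frame S, ∀ j k, F.wedge (u j) (v k) = if j = k then 1 else 0
  gen : ∀ w : X → UnitAddCircle, Continuous w → ∃ (m n : Fin g → ℤ) (f : X → ℝ), Continuous f ∧
    ∀ x, w x = ∑ j, m j • u j x + ∑ j, n j • v j x + (f x : UnitAddCircle)

/-- `Z` is the period matrix of the Riemann surface `(X, S)` with respect to the symplectic basis
`u, v` of `H¹(X, ℤ)`: the holomorphic differentials with `a`-periods `δ` are
`du_j + ∑ Z_jk dv_k + dh_j`. -/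
def IsPeriod (S : CS X) {g : ℕ} (u v : Fin g → X → UnitAddCircle)
    (Z : Matrix (Fin g) (Fin g) ℂ) : Prop :=
  SymplBasis S g u v ∧ ∀ j, ∃ h : X → ℂ, Continuous h ∧ ∀ x, ∀ (f : X → ℝ) (k : Fin g → X → ℝ),
    LiftAt (u j) f x → (∀ l, LiftAt (v l) (k l) x) →
      S.HolAt (fun y => (f y : ℂ) + ∑ l, Z j l * (k l y : ℂ) + h y) x

end

/-! ### The Siegel space -/

/-- The Siegel upper half space. -/
def Siegel (g : ℕ) : Set (Matrix (Fin g) (Fin g) ℂ) :=
  {Z | Z.transpose = Z ∧ (Z.map Complex.im).PosDef}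

/-- The symmetric positive definite symplectic matrix attached to a point of the Siegel space:
the quadratic form `(n - Z m)^* Y⁻¹ (n - Z m)` in `(m, n)`, `Z = X + i Y`. -/
noncomputable def PZ {g : ℕ} (Z : Matrix (Fin g) (Fin g) ℂ) :
    Matrix (Fin g ⊕ Fin g) (Fin g ⊕ Fin g) ℝ :=
  let X := Z.map Complex.re
  let Y := Z.map Complex.im
  Matrix.fromBlocks (Y + X * Y⁻¹ * X) (-(X * Y⁻¹)) (-(Y⁻¹ * X)) Y⁻¹

/-- The invariant distance of the Siegel space: `(∑ (log λ)^2)^(1/2)`, where the `λ` are the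
eigenvalues of `P_Z⁻¹ P_W`, the roots of the polynomial `det (t P_Z - P_W)`. -/
noncomputable def dH {g : ℕ} (Z W : Matrix (Fin g) (Fin g) ℂ) : ℝ :=
  Real.sqrt (((((PZ Z)⁻¹ * PZ W).charpoly.roots).map (fun t => (Real.log t) ^ 2)).sum)

/-- The Siegel modular group acts by fractional linear transformations. -/
noncomputable def act {g : ℕ} (M : Matrix (Fin g ⊕ Fin g) (Fin g ⊕ Fin g) ℤ)
    (Z : Matrix (Fin g) (Fin g) ℂ) : Matrix (Fin g) (Fin g) ℂ :=
  (M.toBlocks₁₁.map (Int.cast : ℤ → ℂ) * Z + M.toBlocks₁₂.map (Int.cast : ℤ → ℂ)) *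
    (M.toBlocks₂₁.map (Int.cast : ℤ → ℂ) * Z + M.toBlocks₂₂.map (Int.cast : ℤ → ℂ))⁻¹

/-- The distance of the moduli space of principally polarized abelian varieties, the quotient of the
Siegel space by the Siegel modular group. -/
noncomputable def dA {g : ℕ} (Z W : Matrix (Fin g) (Fin g) ℂ) : ℝ :=
  sInf {r | ∃ M ∈ Matrix.symplecticGroup (Fin g) ℤ, r = dH Z (act M W)}

/-! ### The Schottky locus -/

/-- The period matrices of the closed Riemann surfaces of genus `g` (the preimage in the Siegel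
space of the Schottky locus). -/
def Schottky (g : ℕ) : Set (Matrix (Fin g) (Fin g) ℂ) :=
  {Z | Z ∈ Siegel g ∧ ∃ (X : Type) (_ : TopologicalSpace X) (_ : CompactSpace X)
    (_ : ConnectedSpace X) (_ : T2Space X) (S : CS X) (u v : Fin g → X → UnitAddCircle),
    IsPeriod S u v Z}

/-- `γ` represents a continuous path in the Schottky locus (a subset of the moduli space). -/
def IsPath (g : ℕ) (γ : ℝ → Matrix (Fin g) (Fin g) ℂ) : Prop :=
  (∀ t ∈ Icc (0 : ℝ) 1, γ t ∈ Schottky g) ∧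
    ∀ t ∈ Icc (0 : ℝ) 1, ∀ ε > 0, ∃ δ > 0, ∀ s ∈ Icc (0 : ℝ) 1, |s - t| < δ → dA (γ s) (γ t) < ε

/-- The length of a path in the moduli space. -/
noncomputable def len {g : ℕ} (γ : ℝ → Matrix (Fin g) (Fin g) ℂ) : ℝ≥0∞ :=
  ⨆ p : ℕ × {t : ℕ → ℝ // Monotone t ∧ ∀ i, t i ∈ Icc (0 : ℝ) 1},
    ∑ i ∈ Finset.range p.1, ENNReal.ofReal (dA (γ (p.2.1 i)) (γ (p.2.1 (i + 1))))

/-- `Z` and `W` represent the same point of the moduli space. -/
def SamePt {g : ℕ} (Z W : Matrix (Fin g) (Fin g) ℂ) : Prop :=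
  ∃ M ∈ Matrix.symplecticGroup (Fin g) ℤ, W = act M Z

/-- The induced path metric of the Schottky locus. -/
noncomputable def dS {g : ℕ} (Z W : Matrix (Fin g) (Fin g) ℂ) : ℝ≥0∞ :=
  ⨅ γ : {γ : ℝ → Matrix (Fin g) (Fin g) ℂ // IsPath g γ ∧ SamePt (γ 0) Z ∧ SamePt (γ 1) W},
    len γ.1

/-- The distortion function of the Schottky locus. -/
noncomputable def distortion (g : ℕ) (r : ℝ) : ℝ≥0∞ :=
  ⨆ q : {q : Matrix (Fin g) (Fin g) ℂ × Matrix (Fin g) (Fin g) ℂ //
    q.1 ∈ Schottky g ∧ q.2 ∈ Schottky g ∧ dA q.1 q.2 ≤ r}, dS q.1.1 q.1.2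

/-- Comparison of growth types. -/
def Dom (f h : ℝ → ℝ≥0∞) : Prop :=
  ∃ C : ℝ, 1 ≤ C ∧ ∀ r : ℝ, 0 ≤ r →
    f r ≤ ENNReal.ofReal C * h (C * r + C) + ENNReal.ofReal (C * r + C)

/-- The same growth type. -/
def SameGrowth (f h : ℝ → ℝ≥0∞) : Prop := Dom f h ∧ Dom h f

/-- The main statement: the distortion of the Schottky locus is linear for every genus. -/
def Main : Prop := ∀ g : ℕ, 2 ≤ g → SameGrowth (distortion g) (fun r => ENNReal.ofReal r)

end Pool.Agent.Lib.MP_cca10c_ag
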