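import Pool.Agent.Lib.MP_cca10c_ag.H00_Defs
import Pool.Agent.Lib.MP_cca10c_ag.P00_Defs

/-!
# Module T (annuli in a surface): definitions

An annulus of half length `l` is a chart `e` with target `{exp (-l) < |ζ| < exp l}`; its core is
`{|ζ| = 1}`. For `0 < a < l` the smooth circle map `betaC e a` is `stp a (log |ζ|)` on the annulus and
`0` elsewhere (`stp a` is a smooth step from `0` to `1`, constant off `[-a, a]`). Off the core it is the
reduction of the real function `phiE e a`, which jumps by `-1` across the core.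
-/

set_option autoImplicit false

open Topology Set MeasureTheory
open scoped ContDiff

namespace Pool.Agent.Lib.MP_cca10c_ag

variable {X : Type} [TopologicalSpace X]

/-- `e` is an annulus of half length `l` -/
def IsAnn (S : CS X) (e : OpenPartialHomeomorph X ℂ) (l : ℝ) : Prop :=
  e ∈ S.charts ∧ 0 < l ∧ e.target = {ζ | Real.exp (-l) < ‖ζ‖ ∧ ‖ζ‖ < Real.exp l}

/-- the core of an annulus -/
def core (e : OpenPartialHomeomorph X ℂ) : Set X := {x | x ∈ e.source ∧ ‖e x‖ = 1}

/-- the closed middle part of an annulus -/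
def midA (e : OpenPartialHomeomorph X ℂ) (t : ℝ) : Set X :=
  {x | x ∈ e.source ∧ |Real.log ‖e x‖| ≤ t}

/-- smooth step from `0` (for `t ≤ -a`) to `1` (for `t ≥ a`) -/
noncomputable def stp (a t : ℝ) : ℝ := Real.smoothTransition ((t + a) / (2 * a))

open Classical in
/-- the real function of an annulus, it jumps by `-1` across the core (from inside to outside) -/
noncomputable def phiE (e : OpenPartialHomeomorph X ℂ) (a : ℝ) (x : X) : ℝ :=
  if x ∈ e.source then
    (if ‖e x‖ < 1 then stp a (Real.log ‖e x‖) else stp a (Real.log ‖e x‖) - 1)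
  else 0

/-- the circle map of an annulus -/
noncomputable def betaC (e : OpenPartialHomeomorph X ℂ) (a : ℝ) (x : X) : UnitAddCircle :=
  ((phiE e a x : ℝ) : UnitAddCircle)

/-- the closed form of an annulus -/
noncomputable def Frame.be {S : CS X} (F : Frame S) (e : OpenPartialHomeomorph X ℂ) (a : ℝ) : X → ℂ :=
  F.dC (betaC e a)

/-- integral vector as a real vector -/
def zV {n : Type*} (x : n → ℤ) : n → ℝ := fun i => (x i : ℝ)

/-- the class of the annulus `e` of half length `l` is `b` -/
def AnnCls {S : CS X} (F : Frame S) {g : ℕ} (u v : Fin g → X → UnitAddCircle)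
    (e : OpenPartialHomeomorph X ℂ) (l : ℝ) (b : Fin g ⊕ Fin g → ℤ) : Prop :=
  ∀ a : ℝ, 0 < a → a < l → F.Cls u v (F.be e a) (zV b)

end Pool.Agent.Lib.MP_cca10c_ag
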