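import Pool.Agent.Lib.MP_cca10c_ag.T01_Ann
import Pool.Agent.Lib.MP_cca10c_ag.H01_Charts

/-!
# Module T: the closed form of an annulus
-/

set_option autoImplicit false

open Topology Set MeasureTheory
open scoped ContDiff

namespace Pool.Agent.Lib.MP_cca10c_ag

/-! ### plane gradients -/

private theorem t02_fderiv (f : ℂ → ℝ) (z w : ℂ) : fderiv ℝ f z w = (cgrad f z * w).re := by
  have h : w = w.re • (1 : ℂ) + w.im • Complex.I := by
    apply Complex.ext <;> simp
  have h2 : fderiv ℝ f z w = w.re * fderiv ℝ f z 1 + w.im * fderiv ℝ f z Complex.I := by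
    conv_lhs => rw [h, map_add, map_smul, map_smul]
    simp
  rw [h2]
  simp [cgrad, Complex.mul_re, Complex.sub_re, Complex.sub_im, Complex.mul_im]
  ring

private theorem t02_cgrad_of {f : ℂ → ℝ} {z c : ℂ} (h : ∀ w, fderiv ℝ f z w = (c * w).re) :
    cgrad f z = c := by
  unfold cgrad
  rw [h, h]
  apply Complex.ext <;> simp

private theorem t02_fderiv_hol {φ : ℂ → ℂ} {z : ℂ} (hφ : DifferentiableAt ℂ φ z) (w : ℂ) :
    fderiv ℝ φ z w = deriv φ z * w := by
  have h := (hφ.hasDerivAt.hasFDerivAt.restrictScalars ℝ).fderiv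
  rw [h]
  simp [mul_comm]

private theorem t02_cgrad_comp {f : ℂ → ℝ} {φ : ℂ → ℂ} {z : ℂ} (hφ : DifferentiableAt ℂ φ z)
    (hf : DifferentiableAt ℝ f (φ z)) : cgrad (f ∘ φ) z = cgrad f (φ z) * deriv φ z := by
  apply t02_cgrad_of
  intro w
  rw [fderiv_comp z hf (hφ.restrictScalars ℝ), ContinuousLinearMap.comp_apply,
    t02_fderiv_hol hφ, t02_fderiv]
  congr 1
  ring

private theorem t02_cgrad_congr {f f' : ℂ → ℝ} {z : ℂ} (h : f =ᶠ[𝓝 z] f') :
    cgrad f z = cgrad f' z := by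
  unfold cgrad
  rw [h.fderiv_eq]

private theorem t02_cgradC {u : ℂ → UnitAddCircle} {f : ℂ → ℝ} {z : ℂ}
    (hf : DifferentiableAt ℝ f z) (h : ∀ᶠ w in 𝓝 z, u w = (f w : UnitAddCircle)) :
    cgradC u z = cgrad f z := by
  have hU : (fun w => ((AddCircle.toCircle (u w) : Circle) : ℂ)) =ᶠ[𝓝 z]
      fun w => Complex.exp (((2 * Real.pi * f w : ℝ) : ℂ) * Complex.I) := by
    filter_upwards [h] with w hw
    rw [hw]
    have h1 := AddCircle.toCircle_apply_mk (T := (1 : ℝ)) (f w)
    have h2 : (AddCircle.toCircle ((f w : ℝ) : UnitAddCircle)) = Circle.exp (2 * Real.pi / 1 * f w) :=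
      h1
    rw [h2, Circle.coe_exp]
    congr 2
    push_cast
    ring
  have hg : HasFDerivAt (fun w => ((2 * Real.pi * f w : ℝ) : ℂ) * Complex.I)
      (Complex.I • (Complex.ofRealCLM.comp ((2 * Real.pi) • fderiv ℝ f z))) z := by
    have h1 : HasFDerivAt (fun w => 2 * Real.pi * f w) ((2 * Real.pi) • fderiv ℝ f z) z :=
      hf.hasFDerivAt.const_mul (2 * Real.pi)
    have h2 : HasFDerivAt (fun w => ((2 * Real.pi * f w : ℝ) : ℂ))
        (Complex.ofRealCLM.comp ((2 * Real.pi) • fderiv ℝ f z)) z :=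
      Complex.ofRealCLM.hasFDerivAt.comp z h1
    exact h2.mul_const Complex.I
  have hE := hg.cexp
  have hk : ∀ v : ℂ, (starRingEnd ℂ (((AddCircle.toCircle (u z) : Circle) : ℂ)) *
      fderiv ℝ (fun w => ((AddCircle.toCircle (u w) : Circle) : ℂ)) z v).im / (2 * Real.pi) =
      fderiv ℝ f z v := by
    intro v
    rw [hU.fderiv_eq, hU.eq_of_nhds, hE.fderiv]
    set E := Complex.exp (((2 * Real.pi * f z : ℝ) : ℂ) * Complex.I) with hEdef
    have hn : starRingEnd ℂ E * E = 1 := by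
      rw [← Complex.normSq_eq_conj_mul_self, Complex.normSq_eq_norm_sq, hEdef,
        Complex.norm_exp_ofReal_mul_I]
      norm_num
    have : starRingEnd ℂ E * ((E • (Complex.I •
        (Complex.ofRealCLM.comp ((2 * Real.pi) • fderiv ℝ f z)))) v) =
        ((2 * Real.pi * fderiv ℝ f z v : ℝ) : ℂ) * Complex.I := by
      simp only [smul_apply, ContinuousLinearMap.comp_apply, smul_eq_mul,
        Complex.ofRealCLM_apply]
      calc _ = (starRingEnd ℂ E * E) * (Complex.I * ((2 * Real.pi * fderiv ℝ f z v : ℝ) : ℂ)) := by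
            ring
        _ = _ := by rw [hn]; ring
    rw [this]
    have hpi : (2 * Real.pi) ≠ 0 := by positivity
    have h3 : (((2 * Real.pi * fderiv ℝ f z v : ℝ) : ℂ) * Complex.I).im =
        2 * Real.pi * fderiv ℝ f z v := by
      simp [Complex.mul_im]
    rw [h3]
    field_simp
  unfold cgradC cgrad
  simp only [hk]

/-! ### gradients on the surface -/

section surf

variable {X : Type} [TopologicalSpace X] {S : CS X} (F : Frame S)

private theorem t02_symm_ev {e : OpenPartialHomeomorph X ℂ} {x : X} (hx : x ∈ e.source)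
    {p : X → Prop} (h : ∀ᶠ y in 𝓝 x, p y) : ∀ᶠ w in 𝓝 (e x), p (e.symm w) := by
  have h1 := e.symm.continuousAt (e.map_source hx)
  have h2 : Filter.Tendsto e.symm (𝓝 (e x)) (𝓝 x) := by
    have := h1.tendsto
    rwa [e.left_inv hx] at this
  exact h2.eventually h

private theorem t02_diff {f : X → ℝ} {x : X} (hf : S.SmoothAt f x) :
    DifferentiableAt ℝ (f ∘ (F.ch x).symm) (F.ch x x) :=
  (hf _ (F.ch_mem x) (F.mem_ch x)).differentiableAt (by simp)

private theorem t02_dC_lift {u : X → UnitAddCircle} {f : X → ℝ} {x : X} (h : LiftAt u f x)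
    (hf : S.SmoothAt f x) : F.dC u x = F.d f x := by
  unfold Frame.dC Frame.d
  exact t02_cgradC (t02_diff F hf) (t02_symm_ev (F.mem_ch x) h.2)

private theorem t02_d_congr {f f' : X → ℝ} {x : X} (h : f =ᶠ[𝓝 x] f') : F.d f x = F.d f' x := by
  unfold Frame.d
  exact t02_cgrad_congr (t02_symm_ev (F.mem_ch x) h)

private theorem t02_smoothAt_congr {f f' : X → ℝ} {x : X} (h : f =ᶠ[𝓝 x] f')
    (hf : S.SmoothAt f x) : S.SmoothAt f' x := by
  intro e he hx
  refine (hf e he hx).congr_of_eventuallyEq ?_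
  exact (t02_symm_ev hx h).mono fun w hw => hw.symm

private theorem t02_d_const (c : ℝ) (x : X) : F.d (fun _ => c) x = 0 := by
  unfold Frame.d
  have : ((fun _ : X => c) ∘ (F.ch x).symm) = fun _ => c := rfl
  rw [this]
  unfold cgrad
  simp

private theorem t02_d_add {f f' : X → ℝ} {x : X} (hf : S.SmoothAt f x) (hf' : S.SmoothAt f' x) :
    F.d (fun y => f y + f' y) x = F.d f x + F.d f' x := by
  unfold Frame.d
  have h := fderiv_add (t02_diff F hf) (t02_diff F hf')
  have e1 : ((fun y => f y + f' y) ∘ (F.ch x).symm) =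
    (f ∘ (F.ch x).symm) + (f' ∘ (F.ch x).symm) := rfl
  rw [e1]
  unfold cgrad
  rw [h]
  simp only [add_apply]
  push_cast
  ring

private theorem t02_d_mul {f : X → ℝ} {x : X} (c : ℝ) (hf : S.SmoothAt f x) :
    F.d (fun y => c * f y) x = (c : ℂ) * F.d f x := by
  unfold Frame.d
  have h := fderiv_const_mul (t02_diff F hf) c
  have e1 : ((fun y => c * f y) ∘ (F.ch x).symm) =
    fun w => c * (f ∘ (F.ch x).symm) w := rfl
  rw [e1]
  unfold cgrad
  rw [h]
  simp only [smul_apply, smul_eq_mul]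
  push_cast
  ring

private theorem t02_smoothAt_add {f f' : X → ℝ} {x : X} (hf : S.SmoothAt f x)
    (hf' : S.SmoothAt f' x) : S.SmoothAt (fun y => f y + f' y) x :=
  fun e he hx => (hf e he hx).add (hf' e he hx)

private theorem t02_smoothAt_mul {f : X → ℝ} {x : X} (c : ℝ) (hf : S.SmoothAt f x) :
    S.SmoothAt (fun y => c * f y) x :=
  fun _ he hx => contDiffAt_const.mul (hf _ he hx)

private theorem t02_smoothAt_const (c : ℝ) (x : X) : S.SmoothAt (fun _ => c) x :=
  fun _ _ _ => contDiffAt_const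

private theorem t02_smoothAt_sum {ι : Type*} (s : Finset ι) {f : ι → X → ℝ} {x : X} (c : ι → ℝ)
    (hf : ∀ i ∈ s, S.SmoothAt (f i) x) : S.SmoothAt (fun y => ∑ i ∈ s, c i * f i y) x := by
  intro e he hx
  have : ((fun y => ∑ i ∈ s, c i * f i y) ∘ e.symm) = fun w => ∑ i ∈ s, c i * (f i ∘ e.symm) w :=
    rfl
  rw [this]
  exact ContDiffAt.sum fun i hi => contDiffAt_const.mul (hf i hi e he hx)

private theorem t02_d_sum {ι : Type*} (s : Finset ι) {f : ι → X → ℝ} {x : X} (c : ι → ℝ)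
    (hf : ∀ i ∈ s, S.SmoothAt (f i) x) :
    F.d (fun y => ∑ i ∈ s, c i * f i y) x = ∑ i ∈ s, (c i : ℂ) * F.d (f i) x := by
  classical
  induction s using Finset.induction_on with
  | empty => simpa using t02_d_const F 0 x
  | insert a s ha ih =>
    have h1 : (fun y => ∑ i ∈ insert a s, c i * f i y) =
        fun y => c a * f a y + ∑ i ∈ s, c i * f i y := by
      funext y
      rw [Finset.sum_insert ha]
    rw [h1, t02_d_add F (t02_smoothAt_mul _ (hf a (Finset.mem_insert_self _ _)))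
      (t02_smoothAt_sum s c fun i hi => hf i (Finset.mem_insert_of_mem hi)),
      t02_d_mul F _ (hf a (Finset.mem_insert_self _ _)),
      ih fun i hi => hf i (Finset.mem_insert_of_mem hi), Finset.sum_insert ha]

private theorem t02_co {e : OpenPartialHomeomorph X ℂ} (he : e ∈ S.charts) {f : X → ℝ} {ζ : ℂ}
    (hζ : ζ ∈ e.target) (hf : S.SmoothAt f (e.symm ζ)) :
    F.d f (e.symm ζ) * deriv (F.ch (e.symm ζ) ∘ e.symm) ζ = cgrad (f ∘ e.symm) ζ := by
  set x := e.symm ζ with hx
  have hxe : x ∈ e.source := e.map_target hζ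
  have hex : e x = ζ := e.right_inv hζ
  have h1 : DifferentiableAt ℂ (F.ch x ∘ e.symm) ζ := by
    have := CS.trans_differentiableAt he (F.ch_mem x) hxe (F.mem_ch x)
    rwa [hex] at this
  have h2 : DifferentiableAt ℝ (f ∘ (F.ch x).symm) ((F.ch x ∘ e.symm) ζ) := by
    exact t02_diff F hf
  have h3 := t02_cgrad_comp h1 h2
  unfold Frame.d
  have h4 : (F.ch x ∘ e.symm) ζ = F.ch x x := rfl
  rw [h4] at h3
  rw [← h3]
  refine t02_cgrad_congr ?_
  have h5 : ∀ᶠ y in 𝓝 x, (F.ch x).symm (F.ch x y) = y :=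
    (F.ch x).eventually_left_inverse (F.mem_ch x)
  have h6 := t02_symm_ev hxe h5
  rw [hex] at h6
  filter_upwards [h6] with w hw
  show f ((F.ch x).symm (F.ch x (e.symm w))) = f (e.symm w)
  rw [hw]

end surf

/-! ### the logarithm of the absolute value -/

private theorem t02_log {ζ : ℂ} (hζ : ζ ≠ 0) :
    (fun w : ℂ => Real.log ‖w‖) =ᶠ[𝓝 ζ] fun w => (Complex.log (w / ζ)).re + Real.log ‖ζ‖ := by
  have h1 : ∀ᶠ w in 𝓝 ζ, w ≠ 0 := isOpen_ne.mem_nhds hζ
  filter_upwards [h1] with w hw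
  rw [Complex.log_re, norm_div, Real.log_div (norm_ne_zero_iff.2 hw) (norm_ne_zero_iff.2 hζ)]
  ring

private theorem t02_fderiv_log {ζ : ℂ} (hζ : ζ ≠ 0) :
    HasFDerivAt (fun w : ℂ => Real.log ‖w‖)
      (Complex.reCLM.comp ((1 / ζ) • (ContinuousLinearMap.id ℝ ℂ))) ζ := by
  refine HasFDerivAt.congr_of_eventuallyEq ?_ (t02_log hζ)
  have h1 : HasDerivAt (fun w : ℂ => Complex.log (w / ζ)) (1 / ζ) ζ := by
    have h2 : HasDerivAt (fun w : ℂ => w / ζ) (1 / ζ) ζ := (hasDerivAt_id ζ).div_const ζ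
    have h3 : ζ / ζ ∈ Complex.slitPlane := by
      rw [div_self hζ]
      exact Complex.one_mem_slitPlane
    have h4 := h2.clog h3
    rwa [div_self hζ, div_one] at h4
  have h5 : HasFDerivAt (fun w : ℂ => Complex.log (w / ζ))
      ((1 / ζ) • (ContinuousLinearMap.id ℝ ℂ)) ζ := by
    have h6 := h1.hasFDerivAt.restrictScalars ℝ
    have h8 : (1 / ζ) • (ContinuousLinearMap.id ℝ ℂ) =
        (ContinuousLinearMap.toSpanSingleton ℂ (1 / ζ)).restrictScalars ℝ := by
      refine ContinuousLinearMap.ext fun v => ?_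
      show (1 / ζ) * v = v * (1 / ζ)
      ring
    rw [h8]
    exact h6
  have h7 := Complex.reCLM.hasFDerivAt.comp ζ h5
  exact h7.add_const _

private theorem t02_cgrad_stp {a : ℝ} (ha : 0 < a) {ζ : ℂ} (hζ : ζ ≠ 0) :
    cgrad (fun w => stp a (Real.log ‖w‖)) ζ = ((deriv (stp a) (Real.log ‖ζ‖) : ℝ) : ℂ) / ζ := by
  apply t02_cgrad_of
  intro w
  have h1 : HasDerivAt (stp a) (deriv (stp a) (Real.log ‖ζ‖)) (Real.log ‖ζ‖) :=
    ((stp_contDiff ha).differentiable (by simp)).differentiableAt.hasDerivAt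
  have h2 := h1.comp_hasFDerivAt ζ (t02_fderiv_log hζ)
  have h3 : fderiv ℝ (fun w => stp a (Real.log ‖w‖)) ζ = _ := h2.fderiv
  rw [h3]
  simp only [smul_apply, ContinuousLinearMap.comp_apply, smul_eq_mul, Complex.reCLM_apply,
    ContinuousLinearMap.id_apply]
  rw [show ((deriv (stp a) (Real.log ‖ζ‖) : ℝ) : ℂ) / ζ * w =
    ((deriv (stp a) (Real.log ‖ζ‖) : ℝ) : ℂ) * (1 / ζ * w) by ring, Complex.re_ofReal_mul]

private theorem t02_contDiff_stp {a : ℝ} (ha : 0 < a) {ζ : ℂ} (hζ : ζ ≠ 0) :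
    ContDiffAt ℝ ∞ (fun w => stp a (Real.log ‖w‖)) ζ := by
  have h1 : ContDiffAt ℝ ∞ (fun w : ℂ => ‖w‖) ζ := contDiffAt_norm ℝ hζ
  have h2 : ContDiffAt ℝ ∞ (fun w : ℂ => Real.log ‖w‖) ζ := h1.log (norm_ne_zero_iff.2 hζ)
  exact (stp_contDiff ha).contDiffAt.comp ζ h2

variable {X : Type} [TopologicalSpace X] [CompactSpace X] [T2Space X] {S : CS X}
variable {e : OpenPartialHomeomorph X ℂ} {l a : ℝ}

omit [CompactSpace X] [T2Space X] in
private theorem t02_ne {x : X} (he : IsAnn S e l) (hx : x ∈ e.source) : e x ≠ 0 := by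
  have h := e.map_source hx
  rw [he.2.2] at h
  have h1 := (Real.exp_pos (-l)).trans h.1
  exact norm_pos_iff.1 h1

/-- the standard lift -/
private noncomputable def t02_st (e : OpenPartialHomeomorph X ℂ) (a : ℝ) (x : X) : ℝ :=
  stp a (Real.log ‖e x‖)

omit [CompactSpace X] [T2Space X] in
private theorem t02_st_smooth (he : IsAnn S e l) (ha : 0 < a) {x : X} (hx : x ∈ e.source) :
    S.SmoothAt (t02_st e a) x := by
  rw [CS.smoothAt_iff he.1 hx]
  refine (t02_contDiff_stp ha (t02_ne he hx)).congr_of_eventuallyEq ?_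
  have h := e.eventually_right_inverse (e.map_source hx)
  filter_upwards [h] with w hw
  show stp a (Real.log ‖e (e.symm w)‖) = stp a (Real.log ‖w‖)
  rw [hw]

omit [CompactSpace X] [T2Space X] in
private theorem t02_st_lift (he : IsAnn S e l) (ha : 0 < a) {x : X} (hx : x ∈ e.source) :
    LiftAt (betaC e a) (t02_st e a) x := by
  refine ⟨(t02_st_smooth he ha hx).continuousAt, ?_⟩
  filter_upwards [e.open_source.mem_nhds hx] with y hy
  exact betaC_eq hy

omit [CompactSpace X] [T2Space X] in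
private theorem t02_be_st (F : Frame S) (he : IsAnn S e l) (ha : 0 < a) {x : X}
    (hx : x ∈ e.source) : F.be e a x = F.d (t02_st e a) x :=
  t02_dC_lift F (t02_st_lift he ha hx) (t02_st_smooth he ha hx)

omit [CompactSpace X] [T2Space X] in
private theorem t02_phi (F : Frame S) {x : X}
    (h : S.SmoothAt (phiE e a) x) : F.be e a x = F.d (phiE e a) x := by
  refine t02_dC_lift F ⟨h.continuousAt, ?_⟩ h
  exact Filter.Eventually.of_forall fun y => rfl

/-- coefficient: `d (stp a (log |ζ|)) = Re (stp' dζ / ζ)` -/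
theorem be_co (F : Frame S) (he : IsAnn S e l) (ha : 0 < a) (hal : a < l) {ζ : ℂ}
    (hζ : ζ ∈ e.target) : F.co e (F.be e a) ζ = ((deriv (stp a) (Real.log ‖ζ‖) : ℝ) : ℂ) / ζ := by
  have hx : e.symm ζ ∈ e.source := e.map_target hζ
  have h0 : ζ ≠ 0 := by
    have := t02_ne he hx
    rwa [e.right_inv hζ] at this
  unfold Frame.co
  rw [t02_be_st F he ha hx, t02_co F he.1 hζ (t02_st_smooth he ha hx), ← t02_cgrad_stp ha h0]
  refine t02_cgrad_congr ?_
  have h := e.eventually_right_inverse hζ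
  filter_upwards [h] with w hw
  show stp a (Real.log ‖e (e.symm w)‖) = stp a (Real.log ‖w‖)
  rw [hw]

theorem be_zero (F : Frame S) (he : IsAnn S e l) (ha : 0 < a) (hal : a < l) {x : X}
    (hx : x ∉ midA e a) : F.be e a x = 0 := by
  have hc : IsClosed (midA e a) := (midA_compact he hal).isClosed
  have h1 : ∀ᶠ y in 𝓝 x, y ∉ midA e a := hc.isOpen_compl.mem_nhds hx
  have h2 : LiftAt (betaC e a) (fun _ => (0 : ℝ)) x := by
    refine ⟨continuousAt_const, ?_⟩
    filter_upwards [h1] with y hy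
    show ((phiE e a y : ℝ) : UnitAddCircle) = ((0 : ℝ) : UnitAddCircle)
    rw [phiE_zero ha hy]
  have h3 := t02_dC_lift F h2 (t02_smoothAt_const (S := S) 0 x)
  rw [t02_d_const] at h3
  exact h3

theorem be_closed (F : Frame S) (he : IsAnn S e l) (ha : 0 < a) (hal : a < l) :
    F.Closed (F.be e a) := by
  intro x
  by_cases hx : x ∈ e.source
  · refine ⟨t02_st e a, ?_, ?_⟩
    · filter_upwards [e.open_source.mem_nhds hx] with y hy
      exact t02_st_smooth he ha hy
    · filter_upwards [e.open_source.mem_nhds hx] with y hy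
      exact t02_be_st F he ha hy
  · have hc : x ∉ core e := fun h => hx h.1
    have h1 := phiE_smooth he ha hal hc
    exact ⟨phiE e a, h1, h1.mono fun y hy => t02_phi F hy⟩

theorem be_phi (F : Frame S) (he : IsAnn S e l) (ha : 0 < a) (hal : a < l) {x : X}
    (hx : x ∉ core e) : F.be e a x = F.d (phiE e a) x :=
  t02_phi F (phiE_smooth he ha hal hx).self_of_nhds

omit [CompactSpace X] [T2Space X] in
private theorem t02_int {D : X → ℝ} {x : X} (hD : ContinuousAt D x)
    (h : ∀ᶠ y in 𝓝 x, ((D y : ℝ) : UnitAddCircle) = 0) : D =ᶠ[𝓝 x] fun _ => D x := by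
  have h0 := h.self_of_nhds
  have key : ∀ r : ℝ, ((r : ℝ) : UnitAddCircle) = 0 → ∃ k : ℤ, r = k := by
    intro r hr
    obtain ⟨n, hn⟩ := AddCircle.coe_eq_zero_iff (1 : ℝ) |>.1 hr
    exact ⟨n, by rw [← hn]; simp⟩
  obtain ⟨k0, hk0⟩ := key _ h0
  have h1 : ∀ᶠ y in 𝓝 x, |D y - D x| < 1 := by
    have := Metric.tendsto_nhds.1 hD.tendsto 1 one_pos
    simpa [Real.dist_eq] using this
  filter_upwards [h, h1] with y hy hy1
  obtain ⟨k, hk⟩ := key _ hy
  rw [hk, hk0] at hy1 ⊢
  have h2 : |((k - k0 : ℤ) : ℝ)| < 1 := by push_cast; exact hy1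
  have h3 : |k - k0| < 1 := by exact_mod_cast h2
  have h4 : k - k0 = 0 := Int.abs_lt_one_iff.1 h3
  have h5 : k = k0 := by omega
  rw [h5]

omit [CompactSpace X] [T2Space X] in
/-- a continuous difference of a smooth circle map and an integral combination of smooth circle
maps is smooth, and the forms add up -/
private theorem t02_comb (F : Frame S) {g : ℕ} {u v : Fin g → X → UnitAddCircle}
    (hu : ∀ j, S.SmoothC (u j)) (hv : ∀ j, S.SmoothC (v j)) {w : X → UnitAddCircle}
    (hw : S.SmoothC w) {m n : Fin g → ℤ} {f : X → ℝ} (hf : Continuous f)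
    (h : ∀ x, w x = ∑ j, m j • u j x + ∑ j, n j • v j x + (f x : UnitAddCircle)) (x : X) :
    S.SmoothAt f x ∧ F.dC w x = F.lin u v (zV (Sum.elim m n)) x + F.d f x := by
  choose fu hfu hfu' using fun j => hu j x
  choose fv hfv hfv' using fun j => hv j x
  obtain ⟨fw, hfw, hfw'⟩ := hw x
  have hsu : S.SmoothAt (fun y => ∑ j, (m j : ℝ) * fu j y) x :=
    t02_smoothAt_sum _ _ fun j _ => hfu' j
  have hsv : S.SmoothAt (fun y => ∑ j, (n j : ℝ) * fv j y) x :=
    t02_smoothAt_sum _ _ fun j _ => hfv' j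
  set D : X → ℝ := fun y => f y + ((∑ j, (m j : ℝ) * fu j y) + (∑ j, (n j : ℝ) * fv j y)) - fw y
    with hDdef
  have hDc : ContinuousAt D x :=
    (hf.continuousAt.add (hsu.continuousAt.add hsv.continuousAt)).sub hfw.1
  have hD0 : ∀ᶠ y in 𝓝 x, ((D y : ℝ) : UnitAddCircle) = 0 := by
    have h1 : ∀ᶠ y in 𝓝 x, ∀ j, u j y = (fu j y : UnitAddCircle) :=
      Filter.eventually_all.2 fun j => (hfu j).2
    have h2 : ∀ᶠ y in 𝓝 x, ∀ j, v j y = (fv j y : UnitAddCircle) :=
      Filter.eventually_all.2 fun j => (hfv j).2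
    filter_upwards [h1, h2, hfw.2] with y hy1 hy2 hy3
    have h3 := h y
    rw [hy3] at h3
    have h4 : ∀ (c : Fin g → ℤ) (r : Fin g → ℝ),
        ((∑ j, (c j : ℝ) * r j : ℝ) : UnitAddCircle) = ∑ j, c j • ((r j : ℝ) : UnitAddCircle) := by
      intro c r
      have h5 : ((∑ j, (c j : ℝ) * r j : ℝ) : UnitAddCircle) =
          ∑ j, (((c j : ℝ) * r j : ℝ) : UnitAddCircle) :=
        map_sum (QuotientAddGroup.mk' (AddSubgroup.zmultiples (1 : ℝ))) _ _
      rw [h5]
      refine Finset.sum_congr rfl fun j _ => ?_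
      rw [← zsmul_eq_mul]
      exact AddCircle.coe_zsmul _
    have h6 : ((D y : ℝ) : UnitAddCircle) = ((f y : ℝ) : UnitAddCircle) +
        (((∑ j, (m j : ℝ) * fu j y : ℝ) : UnitAddCircle) +
          ((∑ j, (n j : ℝ) * fv j y : ℝ) : UnitAddCircle)) - ((fw y : ℝ) : UnitAddCircle) := by
      rfl
    rw [h6, h4, h4, h3]
    simp only [hy1, hy2]
    abel
  have hD := t02_int hDc hD0
  have hfe : f =ᶠ[𝓝 x] fun y => fw y + ((-1) * (∑ j, (m j : ℝ) * fu j y) +
      ((-1) * (∑ j, (n j : ℝ) * fv j y) + D x)) := by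
    filter_upwards [hD] with y hy
    have : D y = f y + ((∑ j, (m j : ℝ) * fu j y) + (∑ j, (n j : ℝ) * fv j y)) - fw y := rfl
    rw [← hy, this]
    ring
  have s1 := t02_smoothAt_mul (-1) hsu
  have s2 := t02_smoothAt_mul (-1) hsv
  have s3 := t02_smoothAt_const (S := S) (D x) x
  have s4 := t02_smoothAt_add s2 s3
  have s5 := t02_smoothAt_add s1 s4
  have s6 := t02_smoothAt_add hfw' s5
  refine ⟨t02_smoothAt_congr hfe.symm s6, ?_⟩
  rw [t02_d_congr F hfe, t02_d_add F hfw' s5, t02_d_add F s1 s4, t02_d_add F s2 s3,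
    t02_d_mul F _ hsu, t02_d_mul F _ hsv, t02_d_const, t02_dC_lift F hfw hfw',
    t02_d_sum F _ _ fun j _ => hfu' j, t02_d_sum F _ _ fun j _ => hfv' j]
  have h7 : F.lin u v (zV (Sum.elim m n)) x =
      ∑ j, (((m j : ℝ)) : ℂ) * F.d (fu j) x + ∑ j, (((n j : ℝ)) : ℂ) * F.d (fv j) x := by
    unfold Frame.lin
    congr 1
    · refine Finset.sum_congr rfl fun j _ => ?_
      rw [t02_dC_lift F (hfu j) (hfu' j)]
      rfl
    · refine Finset.sum_congr rfl fun j _ => ?_
      rw [t02_dC_lift F (hfv j) (hfv' j)]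
      rfl
  rw [h7]
  push_cast
  ring

omit [CompactSpace X] in
/-- change of the profile -/
private theorem t02_psi (F : Frame S) (he : IsAnn S e l) {a a' : ℝ} (ha : 0 < a) (hal : a < l)
    (ha' : 0 < a') (hal' : a' < l) (x : X) :
    S.SmoothAt (fun y => phiE e a y + (-1) * phiE e a' y) x ∧
      F.be e a x = F.be e a' x + F.d (fun y => phiE e a y + (-1) * phiE e a' y) x := by
  by_cases hx : x ∈ e.source
  · have h1 : (fun y => phiE e a y + (-1) * phiE e a' y) =ᶠ[𝓝 x]
        fun y => t02_st e a y + (-1) * t02_st e a' y := by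
      filter_upwards [e.open_source.mem_nhds hx] with y hy
      unfold phiE t02_st
      rw [if_pos hy, if_pos hy]
      split_ifs <;> ring
    have s1 := t02_st_smooth he ha hx
    have s2 := t02_smoothAt_mul (-1) (t02_st_smooth he ha' hx)
    refine ⟨t02_smoothAt_congr h1.symm (t02_smoothAt_add s1 s2), ?_⟩
    rw [t02_d_congr F h1, t02_d_add F s1 s2, t02_d_mul F _ (t02_st_smooth he ha' hx),
      t02_be_st F he ha hx, t02_be_st F he ha' hx]
    push_cast
    ring
  · have hc : x ∉ core e := fun h => hx h.1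
    have s1 := (phiE_smooth he ha hal hc).self_of_nhds
    have s2 := (phiE_smooth he ha' hal' hc).self_of_nhds
    refine ⟨t02_smoothAt_add s1 (t02_smoothAt_mul (-1) s2), ?_⟩
    rw [t02_d_add F s1 (t02_smoothAt_mul (-1) s2), t02_d_mul F _ s2, t02_phi F s1, t02_phi F s2]
    push_cast
    ring

/-- the class does not depend on `a`: the difference of the two profiles is a smooth function with
compact support in the annulus -/
theorem be_cls [ConnectedSpace X] (F : Frame S) (hF : F.Tame) {g : ℕ} {u v : Fin g → X → UnitAddCircle}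
    (hB : SymplBasis S g u v) (he : IsAnn S e l) : ∃ b : Fin g ⊕ Fin g → ℤ, AnnCls F u v e l b := by
  have hl : 0 < l := he.2.1
  have ha0 : 0 < l / 2 := by linarith
  have hal0 : l / 2 < l := by linarith
  have hs := betaC_smooth he ha0 hal0
  have hcont : Continuous (betaC e (l / 2)) := by
    rw [continuous_iff_continuousAt]
    intro x
    obtain ⟨f, hf, -⟩ := hs x
    have h1 : ContinuousAt (fun y => ((f y : ℝ) : UnitAddCircle)) x :=
      (AddCircle.continuous_mk' (1 : ℝ)).continuousAt.comp hf.1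
    exact h1.congr (hf.2.mono fun y hy => hy.symm)
  obtain ⟨m, n, f, hf, h⟩ := hB.gen _ hcont
  refine ⟨Sum.elim m n, fun a ha hal => ?_⟩
  refine ⟨fun y => f y + (phiE e a y + (-1) * phiE e (l / 2) y), fun x => ?_, fun x => ?_⟩
  · exact t02_smoothAt_add (t02_comb F hB.smooth_u hB.smooth_v hs hf h x).1
      (t02_psi F he ha hal ha0 hal0 x).1
  · have h1 := t02_comb F hB.smooth_u hB.smooth_v hs hf h x
    have h2 := t02_psi F he ha hal ha0 hal0 x
    rw [t02_d_add F h1.1 h2.1, h2.2]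
    have h3 : F.be e (l / 2) x = F.dC (betaC e (l / 2)) x := rfl
    rw [h3, h1.2]
    ring

end Pool.Agent.Lib.MP_cca10c_ag
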