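import Pool.Agent.Lib.MP_cca10c_ag.H01_Charts

/-!
# Module T: integrals over subsets of a chart domain

For `e ∈ S.charts` and a measurable set `A ⊆ e.source`, integrals over `A` with respect to `F.nu` are
plane integrals over `e '' A` with the weight `F.jacR e z = ‖deriv (F.ch (e.symm z) ∘ e.symm) z‖ ^ 2`. No
integrability or measurability of the integrand is needed.
-/

set_option autoImplicit false

open Topology Set MeasureTheory
open scoped ContDiff ENNReal

namespace Pool.Agent.Lib.MP_cca10c_ag

variable {X : Type} [TopologicalSpace X] {S : CS X}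

/-- the density of `F.nu` in the chart `e` -/
noncomputable def Frame.jacR (F : Frame S) (e : OpenPartialHomeomorph X ℂ) (z : ℂ) : ℝ :=
  ‖deriv (F.ch (e.symm z) ∘ e.symm) z‖ ^ 2

theorem Frame.jacR_nonneg (F : Frame S) (e : OpenPartialHomeomorph X ℂ) (z : ℂ) : 0 ≤ F.jacR e z := by
  unfold Frame.jacR
  positivity

theorem Frame.jacR_pos (F : Frame S) {e : OpenPartialHomeomorph X ℂ} (he : e ∈ S.charts) {z : ℂ}
    (hz : z ∈ e.target) : 0 < F.jacR e z := by
  have h1 : e (e.symm z) = z := e.right_inv hz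
  have h2 := CS.deriv_trans_ne_zero he (F.ch_mem (e.symm z)) (e.map_target hz) (F.mem_ch _)
  rw [h1] at h2
  unfold Frame.jacR
  have := norm_pos_iff.2 h2
  positivity

theorem Frame.co_mul_conj (F : Frame S) (e : OpenPartialHomeomorph X ℂ) (a b : X → ℂ) (z : ℂ) :
    F.co e a z * starRingEnd ℂ (F.co e b z) =
      F.jacR e z • (a (e.symm z) * starRingEnd ℂ (b (e.symm z))) := by
  unfold Frame.co Frame.jacR
  rw [map_mul, Complex.real_smul]
  have h : deriv (F.ch (e.symm z) ∘ e.symm) z * starRingEnd ℂ (deriv (F.ch (e.symm z) ∘ e.symm) z) =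
      ((‖deriv (F.ch (e.symm z) ∘ e.symm) z‖ ^ 2 : ℝ) : ℂ) := by
    rw [Complex.mul_conj, Complex.normSq_eq_norm_sq]
  rw [← h]
  ring

theorem Frame.norm_co_sq (F : Frame S) (e : OpenPartialHomeomorph X ℂ) (a : X → ℂ) (z : ℂ) :
    ‖F.co e a z‖ ^ 2 = F.jacR e z * ‖a (e.symm z)‖ ^ 2 := by
  unfold Frame.co Frame.jacR
  rw [norm_mul, mul_pow, mul_comm]

private theorem t03_det (c : ℂ) :
    |(((ContinuousLinearMap.toSpanSingleton ℂ c).restrictScalars ℝ : ℂ →L[ℝ] ℂ)).det| = ‖c‖ ^ 2 := by
  have h : (((ContinuousLinearMap.toSpanSingleton ℂ c).restrictScalars ℝ : ℂ →L[ℝ] ℂ)).det = ‖c‖ ^ 2 := by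
    have h1 : (((ContinuousLinearMap.toSpanSingleton ℂ c).restrictScalars ℝ : ℂ →L[ℝ] ℂ)).det =
        LinearMap.det (((ContinuousLinearMap.toSpanSingleton ℂ c : ℂ →L[ℂ] ℂ) : ℂ →ₗ[ℂ] ℂ).restrictScalars ℝ) := rfl
    rw [h1, LinearMap.det_restrictScalars, Algebra.norm_complex_apply, Complex.normSq_eq_norm_sq]
    congr 2
    rw [LinearMap.det_ring]
    simp
  rw [h, abs_of_nonneg (by positivity)]

private theorem t03_fderiv {e e' : OpenPartialHomeomorph X ℂ} (he : e ∈ S.charts)
    (he' : e' ∈ S.charts) {A : Set X} (hA : A ⊆ e.source) (hA' : A ⊆ e'.source) :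
    ∀ z ∈ e '' A, HasFDerivWithinAt (e' ∘ e.symm)
      ((ContinuousLinearMap.toSpanSingleton ℂ (deriv (e' ∘ e.symm) z)).restrictScalars ℝ : ℂ →L[ℝ] ℂ)
      (e '' A) z := by
  rintro _ ⟨x, hx, rfl⟩
  have h1 := CS.trans_differentiableAt he he' (hA hx) (hA' hx)
  have h2 := h1.hasDerivAt.hasFDerivAt
  exact (h2.restrictScalars ℝ).hasFDerivWithinAt

private theorem t03_inj {e e' : OpenPartialHomeomorph X ℂ} {A : Set X} (hA : A ⊆ e.source)
    (hA' : A ⊆ e'.source) : InjOn (e' ∘ e.symm) (e '' A) := by
  rintro _ ⟨x, hx, rfl⟩ _ ⟨y, hy, rfl⟩ h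
  simp only [Function.comp] at h
  rw [e.left_inv (hA hx), e.left_inv (hA hy)] at h
  rw [e'.injOn (hA' hx) (hA' hy) h]

private theorem t03_image {e e' : OpenPartialHomeomorph X ℂ} {A : Set X} (hA : A ⊆ e.source) :
    (e' ∘ e.symm) '' (e '' A) = e' '' A := by
  rw [← image_comp]
  refine image_congr fun x hx => ?_
  simp only [Function.comp]
  rw [e.left_inv (hA hx)]

private theorem t03_jac (F : Frame S) {e : OpenPartialHomeomorph X ℂ} {A : Set X}
    (hA : A ⊆ e.source) {i : Fin F.n} (hi : A ⊆ F.P i) {z : ℂ} (hz : z ∈ e '' A) :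
    F.jacR e z = ‖deriv (F.e i ∘ e.symm) z‖ ^ 2 := by
  obtain ⟨x, hx, rfl⟩ := hz
  unfold Frame.jacR
  rw [e.left_inv (hA hx), F.ch_eq (hi hx)]

section

variable [MeasurableSpace X] [BorelSpace X]

theorem image_chart_meas (e : OpenPartialHomeomorph X ℂ) {A : Set X} (hA : MeasurableSet A)
    (h : A ⊆ e.source) : MeasurableSet (e '' A) := by
  have h1 := e.symm.isOpenEmbedding_restrict
  have h2 : MeasurableSet ((e.symm.source.domRestrict e.symm) ⁻¹' A) := h1.continuous.measurable hA
  have h3 : e '' A = Subtype.val '' ((e.symm.source.domRestrict e.symm) ⁻¹' A) := by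
    rw [e.image_eq_target_inter_inv_preimage h]
    ext z
    constructor
    · rintro ⟨hz, hz'⟩
      exact ⟨⟨z, hz⟩, hz', rfl⟩
    · rintro ⟨w, hw, rfl⟩
      exact ⟨w.2, hw⟩
  rw [h3]
  exact (MeasurableEmbedding.subtype_coe e.open_target.measurableSet).measurableSet_image.2 h2

theorem Frame.P_meas (F : Frame S) (i : Fin F.n) : MeasurableSet (F.P i) := by
  have h := F.meas i
  have h2 : (inferInstance : MeasurableSpace X) = borel X := BorelSpace.measurable_eq
  rw [← h2] at h
  exact h

theorem Frame.nu_apply (F : Frame S) {B : Set X} (hB : MeasurableSet B) :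
    F.nu B = ∑ i, volume (F.e i '' (F.P i ∩ B)) := by
  unfold Frame.nu
  rw [Measure.finsetSum_apply]
  refine Finset.sum_congr rfl fun i _ => ?_
  have hPi : MeasurableSet (F.e i '' F.P i) := image_chart_meas _ (F.P_meas i) (F.sub i)
  have hsub : F.e i '' F.P i ⊆ (F.e i).target := by
    rintro _ ⟨x, hx, rfl⟩
    exact (F.e i).map_source (F.sub i hx)
  have hae : AEMeasurable (F.e i).symm (volume.restrict (F.e i '' F.P i)) :=
    ((F.e i).continuousOn_symm.mono hsub).aemeasurable hPi
  rw [Measure.map_apply_of_aemeasurable hae hB, Measure.restrict_apply' hPi]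
  congr 1
  ext z
  constructor
  · rintro ⟨h1, x, hx, rfl⟩
    have h2 : (F.e i).symm (F.e i x) = x := (F.e i).left_inv (F.sub i hx)
    refine ⟨x, ⟨hx, ?_⟩, rfl⟩
    rw [mem_preimage, h2] at h1
    exact h1
  · rintro ⟨x, ⟨hx, hxB⟩, rfl⟩
    have h2 : (F.e i).symm (F.e i x) = x := (F.e i).left_inv (F.sub i hx)
    refine ⟨?_, x, hx, rfl⟩
    rw [mem_preimage, h2]
    exact hxB

private theorem t03_piece (F : Frame S) {e : OpenPartialHomeomorph X ℂ} (he : e ∈ S.charts)
    {A : Set X} (hAm : MeasurableSet A) (hA : A ⊆ e.source) {i : Fin F.n} (hi : A ⊆ F.P i) :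
    volume (F.e i '' A) = ∫⁻ z in e '' A, ENNReal.ofReal (F.jacR e z) := by
  have hi' : A ⊆ (F.e i).source := hi.trans (F.sub i)
  have hm := image_chart_meas e hAm hA
  have h := lintegral_abs_det_fderiv_eq_addHaar_image volume hm (t03_fderiv he (F.mem i) hA hi')
    (t03_inj hA hi')
  rw [t03_image hA] at h
  rw [← h]
  refine setLIntegral_congr_fun hm fun z hz => ?_
  rw [t03_det, t03_jac F hA hi hz]

theorem Frame.jacR_aemeasurable (F : Frame S) {e : OpenPartialHomeomorph X ℂ} (he : e ∈ S.charts) :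
    AEMeasurable (fun z => ENNReal.ofReal (F.jacR e z)) (volume.restrict e.target) := by
  have h1 : e.target = ⋃ i, e '' (F.P i ∩ e.source) := by
    ext z
    rw [mem_iUnion]
    constructor
    · intro hz
      refine ⟨F.ix (e.symm z), e.symm z, ⟨F.ix_spec _, e.map_target hz⟩, e.right_inv hz⟩
    · rintro ⟨i, x, hx, rfl⟩
      exact e.map_source hx.2
  rw [h1, aemeasurable_iUnion_iff]
  intro i
  have hAm : MeasurableSet (F.P i ∩ e.source) := (F.P_meas i).inter e.open_source.measurableSet
  have hm := image_chart_meas e hAm inter_subset_right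
  have hi' : F.P i ∩ e.source ⊆ (F.e i).source := inter_subset_left.trans (F.sub i)
  have h2 := aemeasurable_ofReal_abs_det_fderivWithin volume hm
    (t03_fderiv he (F.mem i) inter_subset_right hi')
  refine h2.congr ?_
  refine (ae_restrict_iff' hm).2 (Filter.Eventually.of_forall fun z hz => ?_)
  simp only
  rw [t03_det, t03_jac F inter_subset_right inter_subset_left hz]

theorem Frame.nu_chart (F : Frame S) {e : OpenPartialHomeomorph X ℂ} (he : e ∈ S.charts)
    {A : Set X} (hAm : MeasurableSet A) (hA : A ⊆ e.source) :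
    F.nu A = ∫⁻ z in e '' A, ENNReal.ofReal (F.jacR e z) := by
  rw [F.nu_apply hAm]
  have h1 : e '' A = ⋃ i, e '' (F.P i ∩ A) := by
    rw [← image_iUnion, ← iUnion_inter, F.cover, univ_inter]
  rw [h1, lintegral_iUnion, tsum_fintype]
  · refine Finset.sum_congr rfl fun i _ => ?_
    exact t03_piece F he ((F.P_meas i).inter hAm) (inter_subset_right.trans hA) inter_subset_left
  · intro i
    exact image_chart_meas e ((F.P_meas i).inter hAm) (inter_subset_right.trans hA)
  · intro i j hij
    rw [Function.onFun, Set.disjoint_left]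
    rintro _ ⟨x, hx, rfl⟩ ⟨y, hy, hxy⟩
    have := e.injOn (hA hy.2) (hA hx.2) hxy
    rw [this] at hy
    exact Set.disjoint_left.1 (F.disj hij) hx.1 hy.1

/-- the restriction of `F.nu` to a subset of the domain of the chart `e` -/
theorem Frame.nu_restrict (F : Frame S) {e : OpenPartialHomeomorph X ℂ} (he : e ∈ S.charts)
    {A : Set X} (hAm : MeasurableSet A) (hA : A ⊆ e.source) :
    F.nu.restrict A = Measure.map (e.symm.source.domRestrict e.symm)
      (((volume.withDensity fun z => ENNReal.ofReal (F.jacR e z)).restrict (e '' A)).comap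
        (Subtype.val : e.symm.source → ℂ)) := by
  have hemb := e.symm.isOpenEmbedding_restrict.measurableEmbedding
  have hsub := MeasurableEmbedding.subtype_coe (s := e.symm.source) e.open_target.measurableSet
  have hAi := image_chart_meas e hAm hA
  ext B hB
  rw [Measure.restrict_apply hB, hemb.map_apply, hsub.comap_apply, Measure.restrict_apply' hAi]
  have h1 : Subtype.val '' ((e.symm.source.domRestrict e.symm) ⁻¹' B) ∩ e '' A = e '' (B ∩ A) := by
    ext z
    constructor
    · rintro ⟨⟨w, hw, rfl⟩, x, hx, hxw⟩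
      refine ⟨x, ⟨?_, hx⟩, hxw⟩
      have h2 : e.symm (w : ℂ) ∈ B := hw
      rw [← hxw, e.left_inv (hA hx)] at h2
      exact h2
    · rintro ⟨x, ⟨hxB, hxA⟩, rfl⟩
      refine ⟨⟨⟨e x, e.map_source (hA hxA)⟩, ?_, rfl⟩, x, hxA, rfl⟩
      change e.symm (e x) ∈ B
      rw [e.left_inv (hA hxA)]
      exact hxB
  have hBA : MeasurableSet (e '' (B ∩ A)) := image_chart_meas e (hB.inter hAm) (inter_subset_right.trans hA)
  rw [h1, withDensity_apply _ hBA]
  exact F.nu_chart he (hB.inter hAm) (inter_subset_right.trans hA)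

/-- integral over a subset of a chart domain, arbitrary integrand -/
theorem Frame.integral_chartOn (F : Frame S) {e : OpenPartialHomeomorph X ℂ} (he : e ∈ S.charts)
    {A : Set X} (hAm : MeasurableSet A) (hA : A ⊆ e.source) {E : Type*} [NormedAddCommGroup E]
    [NormedSpace ℝ E] (f : X → E) :
    ∫ x in A, f x ∂F.nu = ∫ z in e '' A, F.jacR e z • f (e.symm z) := by
  have hemb := e.symm.isOpenEmbedding_restrict.measurableEmbedding
  have hsub := MeasurableEmbedding.subtype_coe (s := e.symm.source) e.open_target.measurableSet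
  have hAi := image_chart_meas e hAm hA
  have hAt : e '' A ⊆ e.target := by
    rintro _ ⟨x, hx, rfl⟩
    exact e.map_source (hA hx)
  rw [F.nu_restrict he hAm hA, hemb.integral_map]
  have h1 : ∀ w : e.symm.source, f (e.symm.source.domRestrict e.symm w) = (fun z => f (e.symm z)) (w : ℂ) :=
    fun w => rfl
  simp_rw [h1]
  rw [integral_subtype_comap (s := e.symm.source) e.open_target.measurableSet (fun z => f (e.symm z))]
  have h2 : ((volume.withDensity fun z => ENNReal.ofReal (F.jacR e z)).restrict (e '' A)).restrict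
      e.symm.source = (volume.withDensity fun z => ENNReal.ofReal (F.jacR e z)).restrict (e '' A) := by
    rw [Measure.restrict_restrict (s := e.symm.source) e.open_target.measurableSet]
    congr 1
    exact inter_eq_right.2 hAt
  rw [h2, restrict_withDensity hAi, integral_withDensity_eq_integral_toReal_smul₀]
  · refine setIntegral_congr_fun hAi fun z _ => ?_
    rw [ENNReal.toReal_ofReal (F.jacR_nonneg e z)]
  · exact (F.jacR_aemeasurable he).mono_measure (Measure.restrict_mono hAt le_rfl)
  · exact Filter.Eventually.of_forall fun z => ENNReal.ofReal_lt_top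

/-- lower integral over a subset of a chart domain, arbitrary integrand -/
theorem Frame.lintegral_chartOn (F : Frame S) {e : OpenPartialHomeomorph X ℂ} (he : e ∈ S.charts)
    {A : Set X} (hAm : MeasurableSet A) (hA : A ⊆ e.source) (f : X → ℝ≥0∞) :
    ∫⁻ x in A, f x ∂F.nu = ∫⁻ z in e '' A, ENNReal.ofReal (F.jacR e z) * f (e.symm z) := by
  have hemb := e.symm.isOpenEmbedding_restrict.measurableEmbedding
  have hsub := MeasurableEmbedding.subtype_coe (s := e.symm.source) e.open_target.measurableSet
  have hAi := image_chart_meas e hAm hA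
  have hAt : e '' A ⊆ e.target := by
    rintro _ ⟨x, hx, rfl⟩
    exact e.map_source (hA hx)
  rw [F.nu_restrict he hAm hA, hemb.lintegral_map]
  have h1 : ∀ w : e.symm.source, f (e.symm.source.domRestrict e.symm w) = (fun z => f (e.symm z)) (w : ℂ) :=
    fun w => rfl
  simp_rw [h1]
  rw [lintegral_subtype_comap (s := e.symm.source) e.open_target.measurableSet (fun z => f (e.symm z))]
  have h2 : ((volume.withDensity fun z => ENNReal.ofReal (F.jacR e z)).restrict (e '' A)).restrict
      e.symm.source = (volume.withDensity fun z => ENNReal.ofReal (F.jacR e z)).restrict (e '' A) := by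
    rw [Measure.restrict_restrict (s := e.symm.source) e.open_target.measurableSet]
    congr 1
    exact inter_eq_right.2 hAt
  rw [h2, restrict_withDensity hAi, lintegral_withDensity_eq_lintegral_mul_non_measurable₀]
  · rfl
  · exact (F.jacR_aemeasurable he).mono_measure (Measure.restrict_mono hAt le_rfl)
  · exact Filter.Eventually.of_forall fun z => ENNReal.ofReal_lt_top

/-- the complex product over a subset of a chart domain is a plane integral -/
theorem Frame.ip_chartOn (F : Frame S) {e : OpenPartialHomeomorph X ℂ} (he : e ∈ S.charts)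
    {A : Set X} (hAm : MeasurableSet A) (hA : A ⊆ e.source) (a b : X → ℂ) :
    ∫ x in A, a x * starRingEnd ℂ (b x) ∂F.nu =
      ∫ z in e '' A, F.co e a z * starRingEnd ℂ (F.co e b z) := by
  rw [F.integral_chartOn he hAm hA]
  simp_rw [F.co_mul_conj]

/-- the energy over a subset of a chart domain is a plane integral -/
theorem Frame.en_chartOn (F : Frame S) {e : OpenPartialHomeomorph X ℂ} (he : e ∈ S.charts)
    {A : Set X} (hAm : MeasurableSet A) (hA : A ⊆ e.source) (a : X → ℂ) :
    F.en A a = ∫ z in e '' A, ‖F.co e a z‖ ^ 2 := by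
  unfold Frame.en
  rw [F.integral_chartOn he hAm hA]
  simp_rw [F.norm_co_sq, smul_eq_mul]

end

end Pool.Agent.Lib.MP_cca10c_ag
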