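import Pool.Agent.Lib.MP_cca10c_ag.T02_Form
import Pool.Agent.Lib.MP_cca10c_ag.T03a_Chart
import Pool.Agent.Lib.MP_cca10c_ag.Pl.AnnFourier

/-!
# Module T: products with the form of an annulus

In the chart `e` (`F.ip` over `e.source` is the plane integral of the coefficients, `T03a_Chart`) and
polar coordinates: `ip α β = ∫∫ (ζ k ζ) stp'(t) dt dθ = 2 π a₀` with `k = F.co e α`, `a₀ = res k 0 1`.
-/

set_option autoImplicit false

open Topology Set MeasureTheory
open scoped ContDiff

namespace Pool.Agent.Lib.MP_cca10c_ag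

/-- polar coordinates for a function supported in a closed annulus -/
private theorem t03_polar {E : Type*} [NormedAddCommGroup E] [NormedSpace ℝ E] [CompleteSpace E]
    (g : ℂ → E) {s t : ℝ} (hs : 0 < s) (hst : s ≤ t)
    (hg : ContinuousOn g {ζ | s ≤ ‖ζ‖ ∧ ‖ζ‖ ≤ t})
    (h0 : ∀ ζ, ¬ (s ≤ ‖ζ‖ ∧ ‖ζ‖ ≤ t) → g ζ = 0) :
    ∫ ζ, g ζ = ∫ ρ in s..t, ρ • ∫ θ in (0 : ℝ)..2 * Real.pi, g (circleMap 0 ρ θ) := by
  have hpolar : ∀ p : ℝ × ℝ, Complex.polarCoord.symm p = circleMap 0 p.1 p.2 := by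
    intro p
    rw [Complex.polarCoord_symm_apply, circleMap, zero_add, Complex.exp_mul_I]
    push_cast
    rfl
  rw [← Complex.integral_comp_polarCoord_symm]
  have e1 : ∫ p in polarCoord.target, p.1 • g (Complex.polarCoord.symm p) =
      ∫ p in Icc s t ×ˢ Ioo (-Real.pi) Real.pi, p.1 • g (circleMap 0 p.1 p.2) := by
    simp only [hpolar]
    refine setIntegral_eq_of_subset_of_forall_sdiff_eq_zero ?_ ?_ ?_
    · exact measurableSet_Ioi.prod measurableSet_Ioo
    · intro p hp
      exact ⟨hs.trans_le hp.1.1, hp.2⟩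
    · intro p hp
      have hp1 : 0 < p.1 := hp.1.1
      rw [h0, smul_zero]
      rw [norm_circleMap_zero, abs_of_pos hp1]
      intro h
      exact hp.2 ⟨⟨h.1, h.2⟩, hp.1.2⟩
  have hcont : ContinuousOn (fun p : ℝ × ℝ => p.1 • g (circleMap 0 p.1 p.2))
      (Icc s t ×ˢ Icc (-Real.pi) Real.pi) := by
    refine continuous_fst.continuousOn.smul ?_
    refine hg.comp ?_ ?_
    · apply Continuous.continuousOn
      unfold circleMap
      fun_prop
    · intro p hp
      have hp1 : 0 < p.1 := hs.trans_le hp.1.1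
      rw [mem_ofPred_eq, norm_circleMap_zero, abs_of_pos hp1]
      exact hp.1
  have hint : IntegrableOn (fun p : ℝ × ℝ => p.1 • g (circleMap 0 p.1 p.2))
      (Icc s t ×ˢ Ioo (-Real.pi) Real.pi) (volume.prod volume) := by
    refine (hcont.integrableOn_compact (isCompact_Icc.prod isCompact_Icc)).mono_set ?_
    exact prod_mono_right Ioo_subset_Icc_self
  rw [e1, Measure.volume_eq_prod, setIntegral_prod _ hint, intervalIntegral.integral_of_le hst,
    integral_Icc_eq_integral_Ioc]
  refine setIntegral_congr_fun measurableSet_Ioc fun ρ hρ => ?_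
  simp only
  rw [integral_smul]
  congr 1
  rw [← integral_Ioc_eq_integral_Ioo, ← intervalIntegral.integral_of_le (by linarith [Real.pi_pos])]
  have hp : Function.Periodic (fun θ : ℝ => g (circleMap 0 ρ θ)) (2 * Real.pi) := by
    intro θ
    simp only
    rw [periodic_circleMap 0 ρ θ]
  have := hp.intervalIntegral_add_eq (-Real.pi) 0
  rw [zero_add, show -Real.pi + 2 * Real.pi = Real.pi by ring] at this
  exact this

/-- `∫_{annulus} k conj (stp' / ζ) = 2 π res k` -/
theorem plane_prod {k : ℂ → ℂ} {l a : ℝ} (ha : 0 < a) (hal : a < l)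
    (hk : DifferentiableOn ℂ k (CcaPl.ann 0 (Real.exp (-l)) (Real.exp l))) :
    ∫ ζ in CcaPl.ann 0 (Real.exp (-l)) (Real.exp l),
      k ζ * starRingEnd ℂ (((deriv (stp a) (Real.log ‖ζ‖) : ℝ) : ℂ) / ζ) = 2 * Real.pi * CcaPl.res k 0 1 := by
  have hsm : Continuous (deriv (stp a)) := (stp_contDiff ha).continuous_deriv (by simp)
  set A : Set ℂ := {ζ | Real.exp (-a) ≤ ‖ζ‖ ∧ ‖ζ‖ ≤ Real.exp a} with hA
  have hAn : ∀ ζ ∈ A, 0 < ‖ζ‖ := fun ζ hζ => (Real.exp_pos _).trans_le hζ.1
  have hAann : A ⊆ CcaPl.ann 0 (Real.exp (-l)) (Real.exp l) := by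
    intro ζ hζ
    have h1 : Real.exp (-l) < Real.exp (-a) := Real.exp_lt_exp.2 (by linarith)
    have h2 : Real.exp a < Real.exp l := Real.exp_lt_exp.2 hal
    refine ⟨?_, ?_⟩
    · rw [sub_zero]; exact h1.trans_le hζ.1
    · rw [sub_zero]; exact hζ.2.trans_lt h2
  have hAcl : IsClosed A := by
    have h1 : IsClosed {ζ : ℂ | Real.exp (-a) ≤ ‖ζ‖} := isClosed_le continuous_const continuous_norm
    have h2 : IsClosed {ζ : ℂ | ‖ζ‖ ≤ Real.exp a} := isClosed_le continuous_norm continuous_const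
    exact h1.inter h2
  have hz : ∀ ζ : ℂ, 0 < ‖ζ‖ → ζ ∉ A → deriv (stp a) (Real.log ‖ζ‖) = 0 := by
    intro ζ hζ hn
    refine stp_deriv_zero ha ?_
    by_contra hlt
    rw [not_le, abs_lt] at hlt
    refine hn ⟨?_, ?_⟩
    · rw [← Real.le_log_iff_exp_le hζ]; exact hlt.1.le
    · rw [← Real.log_le_iff_le_exp hζ]; exact hlt.2.le
  set f : ℂ → ℂ := fun ζ => k ζ * starRingEnd ℂ (((deriv (stp a) (Real.log ‖ζ‖) : ℝ) : ℂ) / ζ) with hf
  have hann : MeasurableSet (CcaPl.ann 0 (Real.exp (-l)) (Real.exp l)) := by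
    have h1 : IsOpen {z : ℂ | Real.exp (-l) < ‖z - 0‖} := isOpen_lt continuous_const (by fun_prop)
    have h2 : IsOpen {z : ℂ | ‖z - 0‖ < Real.exp l} := isOpen_lt (by fun_prop) continuous_const
    exact (h1.inter h2).measurableSet
  have e1 : ∫ ζ in CcaPl.ann 0 (Real.exp (-l)) (Real.exp l), f ζ = ∫ ζ, A.indicator f ζ := by
    rw [integral_indicator hAcl.measurableSet]
    refine setIntegral_eq_of_subset_of_forall_sdiff_eq_zero hann hAann ?_
    intro ζ hζ
    have h0 : 0 < ‖ζ‖ := by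
      have := hζ.1.1
      rw [sub_zero] at this
      exact (Real.exp_pos _).trans this
    rw [hf]
    simp only
    rw [hz ζ h0 hζ.2]
    simp
  rw [e1, t03_polar (A.indicator f) (t := Real.exp a) (Real.exp_pos (-a)) (Real.exp_le_exp.2 (by linarith))]
  rotate_left
  · have hfc : ContinuousOn f A := by
      refine (hk.continuousOn.mono hAann).mul ?_
      refine Complex.continuous_conj.comp_continuousOn ?_
      refine ContinuousOn.div ?_ continuousOn_id ?_
      · refine Complex.continuous_ofReal.comp_continuousOn ?_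
        refine hsm.comp_continuousOn ?_
        refine ContinuousOn.log continuous_norm.continuousOn ?_
        intro ζ hζ
        exact (hAn ζ hζ).ne'
      · intro ζ hζ
        exact norm_pos_iff.1 (hAn ζ hζ)
    exact hfc.congr fun ζ hζ => indicator_of_mem hζ f
  · intro ζ hζ
    exact indicator_of_notMem (show ζ ∉ A from hζ) f
  have e2 : ∀ ρ ∈ Icc (Real.exp (-a)) (Real.exp a),
      ρ • ∫ θ in (0 : ℝ)..2 * Real.pi, A.indicator f (circleMap 0 ρ θ) =
        (2 * Real.pi * CcaPl.res k 0 1) * ((deriv (stp a) (Real.log ρ) / ρ : ℝ) : ℂ) := by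
    intro ρ hρ
    have hρ0 : 0 < ρ := (Real.exp_pos _).trans_le hρ.1
    have hmem : ∀ θ, circleMap 0 ρ θ ∈ A := by
      intro θ
      rw [hA, mem_ofPred_eq, norm_circleMap_zero, abs_of_pos hρ0]
      exact hρ
    have hfθ : ∀ θ : ℝ, A.indicator f (circleMap 0 ρ θ) =
        ((deriv (stp a) (Real.log ρ) / ρ ^ 2 : ℝ) : ℂ) * (circleMap 0 ρ θ * k (circleMap 0 ρ θ)) := by
      intro θ
      rw [indicator_of_mem (hmem θ)]
      have hne : circleMap 0 ρ θ ≠ 0 := by
        intro h
        have := norm_circleMap_zero ρ θ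
        rw [h, norm_zero, abs_of_pos hρ0] at this
        linarith
      have hcc : starRingEnd ℂ (circleMap 0 ρ θ) * circleMap 0 ρ θ = ((ρ ^ 2 : ℝ) : ℂ) := by
        rw [mul_comm, Complex.mul_conj, Complex.normSq_eq_norm_sq, norm_circleMap_zero, abs_of_pos hρ0]
      rw [hf]
      simp only
      rw [norm_circleMap_zero, abs_of_pos hρ0, map_div₀, Complex.conj_ofReal]
      have hcne : starRingEnd ℂ (circleMap 0 ρ θ) ≠ 0 := by
        rwa [Ne, map_eq_zero]
      have hρc : (ρ : ℂ) ≠ 0 := by exact_mod_cast hρ0.ne'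
      push_cast at hcc ⊢
      rw [← hcc]
      field_simp
    simp_rw [hfθ]
    rw [intervalIntegral.integral_const_mul]
    have hres : (∫ θ in (0 : ℝ)..2 * Real.pi, circleMap 0 ρ θ * k (circleMap 0 ρ θ)) =
        2 * Real.pi * CcaPl.res k 0 1 := by
      have h1 : CcaPl.res k 0 1 = CcaPl.res k 0 ρ := by
        refine CcaPl.res_indep (Real.exp_pos (-l)).le hk ?_ ?_ ?_ ?_
        · rw [Real.exp_lt_one_iff]; linarith
        · rw [Real.one_lt_exp_iff]; linarith
        · exact (Real.exp_lt_exp.2 (by linarith)).trans_le hρ.1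
        · exact hρ.2.trans_lt (Real.exp_lt_exp.2 hal)
      rw [h1, CcaPl.res, circleIntegral]
      have : ∀ θ : ℝ, deriv (circleMap 0 ρ) θ • k (circleMap 0 ρ θ) =
          Complex.I * (circleMap 0 ρ θ * k (circleMap 0 ρ θ)) := by
        intro θ
        rw [deriv_circleMap, smul_eq_mul]
        ring
      simp_rw [this]
      rw [intervalIntegral.integral_const_mul]
      have hpi : (Real.pi : ℂ) ≠ 0 := by exact_mod_cast Real.pi_ne_zero
      field_simp
    rw [hres, Complex.real_smul]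
    have hρc : (ρ : ℂ) ≠ 0 := by exact_mod_cast hρ0.ne'
    push_cast
    field_simp
  have hle : Real.exp (-a) ≤ Real.exp a := Real.exp_le_exp.2 (by linarith)
  rw [intervalIntegral.integral_congr (g := fun ρ => (2 * Real.pi * CcaPl.res k 0 1) *
    ((deriv (stp a) (Real.log ρ) / ρ : ℝ) : ℂ)) (by rw [uIcc_of_le hle]; exact e2)]
  rw [intervalIntegral.integral_const_mul, intervalIntegral.integral_ofReal]
  have e3 : ∫ ρ in Real.exp (-a)..Real.exp a, deriv (stp a) (Real.log ρ) / ρ = 1 := by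
    have h1 : ∀ ρ ∈ uIcc (Real.exp (-a)) (Real.exp a),
        HasDerivAt (fun ρ => stp a (Real.log ρ)) (deriv (stp a) (Real.log ρ) / ρ) ρ := by
      intro ρ hρ
      rw [uIcc_of_le hle] at hρ
      have hρ0 : 0 < ρ := (Real.exp_pos _).trans_le hρ.1
      have h2 : HasDerivAt (stp a) (deriv (stp a) (Real.log ρ)) (Real.log ρ) :=
        ((stp_contDiff ha).differentiable (by simp) _).hasDerivAt
      have := h2.comp ρ (Real.hasDerivAt_log hρ0.ne')
      rw [div_eq_mul_inv]
      exact this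
    rw [intervalIntegral.integral_eq_sub_of_hasDerivAt h1]
    · rw [Real.log_exp, Real.log_exp, stp_one ha le_rfl, stp_zero ha le_rfl, sub_zero]
    · apply ContinuousOn.intervalIntegrable
      rw [uIcc_of_le hle]
      refine ContinuousOn.div ?_ continuousOn_id ?_
      · refine hsm.comp_continuousOn ?_
        refine ContinuousOn.log continuousOn_id ?_
        intro ρ hρ
        exact ((Real.exp_pos _).trans_le hρ.1).ne'
      · intro ρ hρ
        exact ((Real.exp_pos _).trans_le hρ.1).ne'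
  rw [e3]
  simp

private theorem t03_ann (l : ℝ) : {ζ : ℂ | Real.exp (-l) < ‖ζ‖ ∧ ‖ζ‖ < Real.exp l} =
    CcaPl.ann 0 (Real.exp (-l)) (Real.exp l) := by
  ext ζ
  simp [CcaPl.ann]

variable {X : Type} [TopologicalSpace X] [CompactSpace X] [T2Space X] [MeasurableSpace X]
  [BorelSpace X] {S : CS X} {e : OpenPartialHomeomorph X ℂ} {l a : ℝ}

theorem ip_be (F : Frame S) (hF : F.Tame) (he : IsAnn S e l) (ha : 0 < a) (hal : a < l) {α : X → ℂ}
    (hα : F.HolIn e.source α) :
    F.ip α (F.be e a) = 2 * Real.pi * CcaPl.res (F.co e α) 0 1 := by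
  have hz : ∀ x, x ∉ e.source → α x * starRingEnd ℂ (F.be e a x) = 0 := by
    intro x hx
    rw [be_zero F he ha hal (fun h => hx h.1)]
    simp
  have hd := hα e he.1
  have ht : e.target ∩ e.symm ⁻¹' e.source = e.target :=
    inter_eq_left.2 fun z hz => e.map_target hz
  rw [ht, he.2.2, t03_ann] at hd
  rw [← plane_prod ha hal hd]
  unfold Frame.ip
  rw [← setIntegral_eq_integral_of_forall_compl_eq_zero hz,
    F.ip_chartOn he.1 e.open_source.measurableSet le_rfl, e.image_source_eq_target, he.2.2, t03_ann]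
  refine setIntegral_congr_fun ?_ fun ζ hζ => ?_
  · rw [← t03_ann, ← he.2.2]
    exact e.open_target.measurableSet
  · have h2 : ζ ∈ e.target := by
      rw [he.2.2, t03_ann]
      exact hζ
    rw [be_co F he ha hal h2]

theorem ip_be_disj (F : Frame S) (he : IsAnn S e l) (ha : 0 < a) (hal : a < l)
    {e' : OpenPartialHomeomorph X ℂ} {l' a' : ℝ} (he' : IsAnn S e' l') (ha' : 0 < a') (hal' : a' < l')
    (hd : Disjoint e.source e'.source) : F.ip (F.be e a) (F.be e' a') = 0 := by
  unfold Frame.ip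
  have h : ∀ x, F.be e a x * starRingEnd ℂ (F.be e' a' x) = 0 := by
    intro x
    by_cases hx : x ∈ midA e a
    · have hx' : x ∉ midA e' a' := fun h => Set.disjoint_left.1 hd hx.1 h.1
      rw [be_zero F he' ha' hal' hx']
      simp
    · rw [be_zero F he ha hal hx]
      simp
  simp [h]

/-- `∫_{ann} |stp' / ζ|² = 2π ∫ stp'² ≤ C / a` -/
theorem be_en : ∃ C : ℝ, 0 < C ∧ ∀ (X : Type) [TopologicalSpace X] [CompactSpace X] [T2Space X]
    [MeasurableSpace X] [BorelSpace X] (S : CS X) (F : Frame S), F.Tame →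
    ∀ (e : OpenPartialHomeomorph X ℂ) (l a : ℝ), IsAnn S e l → 0 < a → a < l →
      F.en univ (F.be e a) ≤ C / a := by
  have hst : ContDiff ℝ ∞ Real.smoothTransition := Real.smoothTransition.contDiff
  have hstc : Continuous (deriv Real.smoothTransition) := hst.continuous_deriv (by simp)
  obtain ⟨M, hM⟩ := (isCompact_Icc (a := (0 : ℝ)) (b := 1)).exists_bound_of_continuousOn
    hstc.continuousOn
  refine ⟨Real.pi * M ^ 2 + 1, by positivity, ?_⟩
  intro X _ _ _ _ _ S F hF e l a he ha hal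
  have hbound : ∀ t, |t| ≤ a → (deriv (stp a) t) ^ 2 ≤ (M / (2 * a)) ^ 2 := by
    intro t ht
    rw [abs_le] at ht
    have h1 : HasDerivAt (stp a) (deriv Real.smoothTransition ((t + a) / (2 * a)) * (1 / (2 * a))) t := by
      have h2 : HasDerivAt (fun t : ℝ => (t + a) / (2 * a)) (1 / (2 * a)) t :=
        ((hasDerivAt_id t).add_const a).div_const _
      have h3 : HasDerivAt Real.smoothTransition (deriv Real.smoothTransition ((t + a) / (2 * a)))
          ((t + a) / (2 * a)) := (hst.differentiable (by simp) _).hasDerivAt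
      exact h3.comp t h2
    rw [h1.deriv]
    have h4 := hM ((t + a) / (2 * a)) ⟨by
      apply div_nonneg <;> linarith, by
      rw [div_le_one (by linarith)]; linarith⟩
    rw [Real.norm_eq_abs] at h4
    have h5 : |deriv Real.smoothTransition ((t + a) / (2 * a)) * (1 / (2 * a))| ≤ M / (2 * a) := by
      rw [abs_mul, abs_of_pos (show (0 : ℝ) < 1 / (2 * a) by positivity), div_eq_mul_one_div M]
      gcongr
    exact sq_le_sq' (by linarith [abs_le.1 h5]) (abs_le.1 h5).2
  have hsm : Continuous (deriv (stp a)) := (stp_contDiff ha).continuous_deriv (by simp)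
  set A : Set ℂ := {ζ | Real.exp (-a) ≤ ‖ζ‖ ∧ ‖ζ‖ ≤ Real.exp a} with hA
  have hAn : ∀ ζ ∈ A, 0 < ‖ζ‖ := fun ζ hζ => (Real.exp_pos _).trans_le hζ.1
  have hAt : A ⊆ e.target := by
    intro ζ hζ
    rw [he.2.2]
    exact ⟨(Real.exp_lt_exp.2 (by linarith)).trans_le hζ.1, hζ.2.trans_lt (Real.exp_lt_exp.2 hal)⟩
  have hAcl : IsClosed A := by
    have h1 : IsClosed {ζ : ℂ | Real.exp (-a) ≤ ‖ζ‖} := isClosed_le continuous_const continuous_norm
    have h2 : IsClosed {ζ : ℂ | ‖ζ‖ ≤ Real.exp a} := isClosed_le continuous_norm continuous_const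
    exact h1.inter h2
  have hzA : ∀ ζ : ℂ, 0 < ‖ζ‖ → ζ ∉ A → deriv (stp a) (Real.log ‖ζ‖) = 0 := by
    intro ζ hζ hn
    refine stp_deriv_zero ha ?_
    by_contra hlt
    rw [not_le, abs_lt] at hlt
    refine hn ⟨?_, ?_⟩
    · rw [← Real.le_log_iff_exp_le hζ]; exact hlt.1.le
    · rw [← Real.log_le_iff_le_exp hζ]; exact hlt.2.le
  set f : ℂ → ℝ := fun ζ => (deriv (stp a) (Real.log ‖ζ‖)) ^ 2 / ‖ζ‖ ^ 2 with hf
  have hz : ∀ x, x ∉ e.source → ‖F.be e a x‖ ^ 2 = 0 := by
    intro x hx
    rw [be_zero F he ha hal (fun h => hx h.1)]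
    simp
  have e0 : F.en univ (F.be e a) = F.en e.source (F.be e a) := by
    unfold Frame.en
    rw [setIntegral_eq_integral_of_forall_compl_eq_zero hz, Measure.restrict_univ]
  have e1 : F.en univ (F.be e a) = ∫ ζ, A.indicator f ζ := by
    rw [e0, F.en_chartOn he.1 e.open_source.measurableSet le_rfl, e.image_source_eq_target,
      integral_indicator hAcl.measurableSet]
    have h3 : ∀ ζ ∈ e.target, ‖F.co e (F.be e a) ζ‖ ^ 2 = f ζ := by
      intro ζ hζ
      rw [be_co F he ha hal hζ, norm_div, Complex.norm_real, div_pow, Real.norm_eq_abs, sq_abs]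
    rw [setIntegral_congr_fun e.open_target.measurableSet h3]
    refine setIntegral_eq_of_subset_of_forall_sdiff_eq_zero e.open_target.measurableSet hAt ?_
    intro ζ hζ
    have h0 : 0 < ‖ζ‖ := by
      have := hζ.1
      rw [he.2.2] at this
      exact (Real.exp_pos _).trans this.1
    rw [hf]
    simp only
    rw [hzA ζ h0 hζ.2]
    simp
  have hle : Real.exp (-a) ≤ Real.exp a := Real.exp_le_exp.2 (by linarith)
  have hfc : ContinuousOn f A := by
    refine ContinuousOn.div ?_ (continuous_norm.pow 2).continuousOn ?_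
    · refine ContinuousOn.pow ?_ 2
      refine hsm.comp_continuousOn ?_
      refine ContinuousOn.log continuous_norm.continuousOn ?_
      intro ζ hζ
      exact (hAn ζ hζ).ne'
    · intro ζ hζ
      exact pow_ne_zero 2 (hAn ζ hζ).ne'
  rw [e1, t03_polar (A.indicator f) (t := Real.exp a) (Real.exp_pos (-a)) hle
    (hfc.congr fun ζ hζ => indicator_of_mem hζ f)
    (fun ζ hζ => indicator_of_notMem (show ζ ∉ A from hζ) f)]
  have hcl : ContinuousOn (fun ρ : ℝ => 2 * Real.pi * (deriv (stp a) (Real.log ρ)) ^ 2 * ρ⁻¹)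
      (Icc (Real.exp (-a)) (Real.exp a)) := by
    refine ContinuousOn.mul ?_ ?_
    · refine continuousOn_const.mul (ContinuousOn.pow ?_ 2)
      refine hsm.comp_continuousOn ?_
      refine ContinuousOn.log continuousOn_id ?_
      intro ρ hρ
      exact ((Real.exp_pos _).trans_le hρ.1).ne'
    · refine ContinuousOn.inv₀ continuousOn_id ?_
      intro ρ hρ
      exact ((Real.exp_pos _).trans_le hρ.1).ne'
  have hcr : ContinuousOn (fun ρ : ℝ => 2 * Real.pi * (M / (2 * a)) ^ 2 * ρ⁻¹)
      (Icc (Real.exp (-a)) (Real.exp a)) := by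
    refine continuousOn_const.mul ?_
    refine ContinuousOn.inv₀ continuousOn_id ?_
    intro ρ hρ
    exact ((Real.exp_pos _).trans_le hρ.1).ne'
  have e2 : ∀ ρ ∈ Icc (Real.exp (-a)) (Real.exp a),
      ρ • ∫ θ in (0 : ℝ)..2 * Real.pi, A.indicator f (circleMap 0 ρ θ) =
        2 * Real.pi * (deriv (stp a) (Real.log ρ)) ^ 2 * ρ⁻¹ := by
    intro ρ hρ
    have hρ0 : 0 < ρ := (Real.exp_pos _).trans_le hρ.1
    have hfθ : ∀ θ : ℝ, A.indicator f (circleMap 0 ρ θ) = (deriv (stp a) (Real.log ρ)) ^ 2 / ρ ^ 2 := by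
      intro θ
      have hm : circleMap 0 ρ θ ∈ A := by
        rw [hA, mem_ofPred_eq, norm_circleMap_zero, abs_of_pos hρ0]
        exact hρ
      rw [indicator_of_mem hm, hf]
      simp only
      rw [norm_circleMap_zero, abs_of_pos hρ0]
    simp_rw [hfθ]
    rw [intervalIntegral.integral_const, smul_eq_mul, smul_eq_mul, sub_zero]
    field_simp
  rw [intervalIntegral.integral_congr (g := fun ρ => 2 * Real.pi * (deriv (stp a) (Real.log ρ)) ^ 2 * ρ⁻¹)
    (by rw [uIcc_of_le hle]; exact e2)]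
  calc ∫ ρ in Real.exp (-a)..Real.exp a, 2 * Real.pi * (deriv (stp a) (Real.log ρ)) ^ 2 * ρ⁻¹
      ≤ ∫ ρ in Real.exp (-a)..Real.exp a, 2 * Real.pi * (M / (2 * a)) ^ 2 * ρ⁻¹ := by
        refine intervalIntegral.integral_mono_on hle ?_ ?_ ?_
        · exact ContinuousOn.intervalIntegrable (by rwa [uIcc_of_le hle])
        · exact ContinuousOn.intervalIntegrable (by rwa [uIcc_of_le hle])
        · intro ρ hρ
          have hρ0 : 0 < ρ := (Real.exp_pos _).trans_le hρ.1
          have h5 : |Real.log ρ| ≤ a := by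
            rw [abs_le]
            exact ⟨(Real.le_log_iff_exp_le hρ0).2 hρ.1, (Real.log_le_iff_le_exp hρ0).2 hρ.2⟩
          have h6 := hbound _ h5
          have h7 : 0 ≤ ρ⁻¹ := by positivity
          have h8 : 0 ≤ 2 * Real.pi := by positivity
          exact mul_le_mul_of_nonneg_right (mul_le_mul_of_nonneg_left h6 h8) h7
    _ = 2 * Real.pi * (M / (2 * a)) ^ 2 * (2 * a) := by
        rw [intervalIntegral.integral_const_mul, integral_inv_of_pos (Real.exp_pos _) (Real.exp_pos _),
          Real.log_div (Real.exp_pos _).ne' (Real.exp_pos _).ne', Real.log_exp, Real.log_exp]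
        ring
    _ = Real.pi * M ^ 2 / a := by
        field_simp
    _ ≤ (Real.pi * M ^ 2 + 1) / a := by
        gcongr
        linarith

end Pool.Agent.Lib.MP_cca10c_ag
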