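import Pool.Agent.Lib.MP_cca10c_ag.H01_Charts
import Pool.Agent.Lib.MP_cca10c_ag.T02_Form

/-!
# Module T: the cut lemma
-/

set_option autoImplicit false

open Topology Set MeasureTheory Filter
open scoped ContDiff

namespace Pool.Agent.Lib.MP_cca10c_ag

namespace T06

section aux

variable {X : Type} [TopologicalSpace X] {S : CS X} {F : Frame S}

theorem diffAt {f : X → ℝ} {x : X} (hf : S.SmoothAt f x) {e : OpenPartialHomeomorph X ℂ}
    (he : e ∈ S.charts) (hx : x ∈ e.source) : DifferentiableAt ℝ (f ∘ e.symm) (e x) :=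
  ((CS.smoothAt_iff he hx).1 hf).differentiableAt (by simp)

theorem tendsto_symm {e : OpenPartialHomeomorph X ℂ} {x : X} (hx : x ∈ e.source) :
    Tendsto e.symm (𝓝 (e x)) (𝓝 x) := by
  have h := (e.continuousAt_symm (e.map_source hx)).tendsto
  rwa [e.left_inv hx] at h

theorem d_congr {f g : X → ℝ} {x : X} (h : f =ᶠ[𝓝 x] g) : F.d f x = F.d g x := by
  have h1 : (f ∘ (F.ch x).symm) =ᶠ[𝓝 (F.ch x x)] (g ∘ (F.ch x).symm) :=
    (tendsto_symm (F.mem_ch x)).eventually h
  unfold Frame.d cgrad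
  rw [h1.fderiv_eq]

theorem smoothAt_congr {f g : X → ℝ} {x : X} (h : f =ᶠ[𝓝 x] g) (hf : S.SmoothAt f x) :
    S.SmoothAt g x := by
  intro e he hx
  have h1 : (f ∘ e.symm) =ᶠ[𝓝 (e x)] (g ∘ e.symm) := (tendsto_symm hx).eventually h
  exact (hf e he hx).congr_of_eventuallyEq h1.symm

theorem smoothAt_sub_sum {m : ℕ} {f : X → ℝ} {h : Fin m → X → ℝ} (c : Fin m → ℝ) {x : X}
    (hf : S.SmoothAt f x) (hh : ∀ j, S.SmoothAt (h j) x) :
    S.SmoothAt (fun y => f y - ∑ j, c j * h j y) x := by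
  intro e he hx
  have h1 := hf e he hx
  have h2 : ContDiffAt ℝ ∞ (fun z => ∑ j, c j * (h j ∘ e.symm) z) (e x) :=
    ContDiffAt.sum fun j _ => contDiffAt_const.mul (hh j e he hx)
  exact h1.sub h2

theorem d_sub_sum {m : ℕ} {f : X → ℝ} {h : Fin m → X → ℝ} (c : Fin m → ℝ) {x : X}
    (hf : S.SmoothAt f x) (hh : ∀ j, S.SmoothAt (h j) x) :
    F.d (fun y => f y - ∑ j, c j * h j y) x = F.d f x - ∑ j, (c j : ℂ) * F.d (h j) x := by
  have hx := F.mem_ch x
  have h1 := (diffAt hf (F.ch_mem x) hx).hasFDerivAt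
  have h2 := fun j => (diffAt (hh j) (F.ch_mem x) hx).hasFDerivAt
  have h3 : HasFDerivAt (fun z => (f ∘ (F.ch x).symm) z - ∑ j, c j * (h j ∘ (F.ch x).symm) z)
      (fderiv ℝ (f ∘ (F.ch x).symm) (F.ch x x)
        - ∑ j, c j • fderiv ℝ (h j ∘ (F.ch x).symm) (F.ch x x)) (F.ch x x) :=
    h1.sub (HasFDerivAt.fun_sum fun j _ => (h2 j).const_mul (c j))
  have h4 : fderiv ℝ ((fun y => f y - ∑ j, c j * h j y) ∘ (F.ch x).symm) (F.ch x x) = _ :=
    h3.fderiv
  unfold Frame.d cgrad
  rw [h4]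
  simp only [ContinuousLinearMap.sub_apply, ContinuousLinearMap.sum_apply,
    ContinuousLinearMap.smul_apply, smul_eq_mul, Complex.ofReal_sub, Complex.ofReal_sum,
    Complex.ofReal_mul]
  simp only [mul_sub, Finset.sum_sub_distrib, Finset.mul_sum]
  have h5 : ∀ j, Complex.I * ((c j : ℂ) * (fderiv ℝ (h j ∘ (F.ch x).symm) (F.ch x x) Complex.I : ℝ))
      = (c j : ℂ) * (Complex.I * (fderiv ℝ (h j ∘ (F.ch x).symm) (F.ch x x) Complex.I : ℝ)) :=
    fun j => by ring
  simp only [h5]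
  ring

theorem dC_eq {u : X → UnitAddCircle} {f : X → ℝ} {x : X} (hf : S.SmoothAt f x)
    (hu : ∀ᶠ y in 𝓝 x, u y = (f y : UnitAddCircle)) : F.dC u x = F.d f x := by
  have hx := F.mem_ch x
  have h1 := (diffAt hf (F.ch_mem x) hx).hasFDerivAt
  set ft := f ∘ (F.ch x).symm with hft
  set D := fderiv ℝ ft (F.ch x x) with hD
  set z0 := F.ch x x with hz0
  have h2 : (fun w => ((AddCircle.toCircle ((u ∘ (F.ch x).symm) w) : Circle) : ℂ)) =ᶠ[𝓝 z0]
      fun w => Complex.exp (((2 * Real.pi * ft w : ℝ) : ℂ) * Complex.I) := by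
    have h3 := (tendsto_symm hx).eventually hu
    filter_upwards [h3] with w hw
    simp only [Function.comp_apply]
    rw [hw, AddCircle.toCircle_apply_mk, Circle.coe_exp]
    simp [hft]
  have h4 : HasFDerivAt (fun w => ((2 * Real.pi * ft w : ℝ) : ℂ) * Complex.I)
      ((Complex.ofRealCLM.comp ((2 * Real.pi) • D)).smulRight Complex.I) z0 := by
    have h5 : HasFDerivAt (fun w => (2 * Real.pi * ft w : ℝ)) ((2 * Real.pi) • D) z0 :=
      h1.const_mul _
    have h6 := (Complex.ofRealCLM.hasFDerivAt (x := 2 * Real.pi * ft z0)).comp z0 h5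
    exact h6.mul_const' Complex.I |>.congr_fderiv (by
      ext v
      simp [mul_comm])
  have h7 := h4.cexp
  have h8 : fderiv ℝ (fun w => ((AddCircle.toCircle ((u ∘ (F.ch x).symm) w) : Circle) : ℂ)) z0 = _ :=
    h2.fderiv_eq.trans h7.fderiv
  have h9 : ((AddCircle.toCircle ((u ∘ (F.ch x).symm) z0) : Circle) : ℂ)
      = Complex.exp (((2 * Real.pi * ft z0 : ℝ) : ℂ) * Complex.I) := h2.self_of_nhds
  have h10 : ∀ v : ℂ, (starRingEnd ℂ ((AddCircle.toCircle ((u ∘ (F.ch x).symm) z0) : Circle) : ℂ) *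
      fderiv ℝ (fun w => ((AddCircle.toCircle ((u ∘ (F.ch x).symm) w) : Circle) : ℂ)) z0 v).im
        / (2 * Real.pi) = D v := by
    intro v
    rw [h8, h9]
    simp only [ContinuousLinearMap.smul_apply, ContinuousLinearMap.smulRight_apply,
      ContinuousLinearMap.comp_apply, Complex.ofRealCLM_apply, smul_eq_mul]
    rw [← mul_assoc, ← Complex.normSq_eq_conj_mul_self, Complex.normSq_eq_norm_sq,
      Complex.norm_exp_ofReal_mul_I]
    simp
  unfold Frame.dC cgradC
  simp only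
  rw [h10, h10]
  rfl

theorem fderiv_eq {f g : X → ℝ} {x : X} (hf : S.SmoothAt f x) (hg : S.SmoothAt g x)
    (h : F.d f x = F.d g x) {e : OpenPartialHomeomorph X ℂ} (he : e ∈ S.charts)
    (hx : x ∈ e.source) : fderiv ℝ (f ∘ e.symm) (e x) = fderiv ℝ (g ∘ e.symm) (e x) := by
  set c := F.ch x with hc
  have hcx : x ∈ c.source := F.mem_ch x
  have hcm : c ∈ S.charts := F.ch_mem x
  have h0 : cgrad (f ∘ c.symm) (c x) = cgrad (g ∘ c.symm) (c x) := h
  have hre := congrArg Complex.re h0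
  have him := congrArg Complex.im h0
  simp only [cgrad, Complex.sub_re, Complex.ofReal_re, Complex.mul_re, Complex.I_re,
    Complex.I_im, Complex.ofReal_im, zero_mul, one_mul, mul_zero, sub_zero, sub_self] at hre
  simp only [cgrad, Complex.sub_im, Complex.ofReal_re, Complex.mul_im, Complex.I_re,
    Complex.I_im, Complex.ofReal_im, zero_mul, one_mul, zero_add, zero_sub, neg_inj] at him
  have h1 : fderiv ℝ (f ∘ c.symm) (c x) = fderiv ℝ (g ∘ c.symm) (c x) := by
    ext v
    have hv : v = v.re • (1 : ℂ) + v.im • Complex.I := by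
      simp [Complex.re_add_im]
    rw [hv, map_add, map_add, map_smul, map_smul, map_smul, map_smul, hre, him]
  have h2 : ∀ k : X → ℝ, S.SmoothAt k x → fderiv ℝ (k ∘ e.symm) (e x)
      = (fderiv ℝ (k ∘ c.symm) (c x)).comp (fderiv ℝ (c ∘ e.symm) (e x)) := by
    intro k hk
    have h3 : (k ∘ e.symm) =ᶠ[𝓝 (e x)] ((k ∘ c.symm) ∘ (c ∘ e.symm)) := by
      have h4 := (tendsto_symm hx).eventually (c.open_source.mem_nhds hcx)
      filter_upwards [h4] with w hw
      simp only [Function.comp_apply]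
      rw [c.left_inv hw]
    rw [h3.fderiv_eq]
    have h5 : (c ∘ e.symm) (e x) = c x := by
      simp only [Function.comp_apply]
      rw [e.left_inv hx]
    have h6 : DifferentiableAt ℝ (c ∘ e.symm) (e x) :=
      (CS.trans_differentiableAt he hcm hx hcx).restrictScalars ℝ
    have h7 : DifferentiableAt ℝ (k ∘ c.symm) ((c ∘ e.symm) (e x)) := by
      rw [h5]
      exact diffAt hk hcm hcx
    rw [fderiv_comp _ h7 h6, h5]
  rw [h2 f hf, h2 g hg, h1]

/-- two smooth functions with the same differential differ by a constant -/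
theorem const_of_d {f g : X → ℝ} {e : OpenPartialHomeomorph X ℂ} (he : e ∈ S.charts) {U : Set ℂ}
    (hU : IsOpen U) (hUc : IsPreconnected U) (ht : ∀ w ∈ U, Complex.exp w ∈ e.target)
    (hf : ∀ w ∈ U, S.SmoothAt f (e.symm (Complex.exp w)))
    (hg : ∀ w ∈ U, S.SmoothAt g (e.symm (Complex.exp w)))
    (hd : ∀ w ∈ U, F.d f (e.symm (Complex.exp w)) = F.d g (e.symm (Complex.exp w))) :
    ∃ c : ℝ, ∀ w ∈ U, f (e.symm (Complex.exp w)) = g (e.symm (Complex.exp w)) + c := by
  rcases U.eq_empty_or_nonempty with rfl | ⟨w0, hw0⟩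
  · exact ⟨0, fun w hw => absurd hw (Set.notMem_empty w)⟩
  set H : ℂ → ℝ := fun w => f (e.symm (Complex.exp w)) - g (e.symm (Complex.exp w)) with hH
  have key : ∀ w ∈ U, HasFDerivAt H (0 : ℂ →L[ℝ] ℝ) w := by
    intro w hw
    set x := e.symm (Complex.exp w) with hxd
    have hx : x ∈ e.source := e.map_target (ht w hw)
    have hex : e x = Complex.exp w := e.right_inv (ht w hw)
    have h1 := (diffAt (hf w hw) he hx).hasFDerivAt
    have h2 := (diffAt (hg w hw) he hx).hasFDerivAt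
    have h3 := fderiv_eq (hf w hw) (hg w hw) (hd w hw) he hx
    rw [← h3] at h2
    have h4 : HasFDerivAt (fun z => (f ∘ e.symm) z - (g ∘ e.symm) z) (0 : ℂ →L[ℝ] ℝ) (e x) := by
      have := h1.sub h2
      rwa [sub_self] at this
    rw [hex] at h4
    have h5 : HasFDerivAt (fun w => Complex.exp w) (fderiv ℝ Complex.exp w) w := by
      have h5' : DifferentiableAt ℂ Complex.exp w := Complex.differentiable_exp w
      exact (h5'.restrictScalars ℝ).hasFDerivAt
    have h6 := HasFDerivAt.comp w h4 h5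
    rwa [ContinuousLinearMap.zero_comp] at h6
  refine ⟨H w0, fun w hw => ?_⟩
  have h1 : H w = H w0 := by
    refine hU.is_const_of_fderiv_eq_zero (𝕜 := ℝ) hUc
      (fun w hw => (key w hw).differentiableAt.differentiableWithinAt) (fun w hw => ?_) hw hw0
    exact (key w hw).fderiv
  have h2 : f (e.symm (Complex.exp w)) - g (e.symm (Complex.exp w)) = H w0 := h1
  linarith

/-- logarithmic coordinates near a point of a chart domain -/
theorem loc {e : OpenPartialHomeomorph X ℂ} {p : X} (hp : p ∈ e.source) (hp0 : e p ≠ 0)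
    {P : X → Prop} (hP : ∀ᶠ y in 𝓝 p, P y) :
    ∃ (w0 : ℂ) (r : ℝ), 0 < r ∧ Complex.exp w0 = e p ∧
      (∀ w ∈ Metric.ball w0 r, Complex.exp w ∈ e.target ∧ P (e.symm (Complex.exp w))) ∧
      ∀ᶠ y in 𝓝 p, y ∈ e.source ∧ ∃ w ∈ Metric.ball w0 r,
        y = e.symm (Complex.exp w) ∧ e y = Complex.exp w := by
  set w0 := Complex.log (e p) with hw0
  have he0 : Complex.exp w0 = e p := Complex.exp_log hp0
  have h1 : ∀ᶠ w in 𝓝 w0, Complex.exp w ∈ e.target ∧ P (e.symm (Complex.exp w)) := by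
    have h2 : Tendsto Complex.exp (𝓝 w0) (𝓝 (e p)) := by
      rw [← he0]
      exact Complex.continuous_exp.continuousAt
    have h3 := h2.eventually (e.open_target.mem_nhds (e.map_source hp))
    have h4 := ((tendsto_symm hp).comp h2).eventually hP
    filter_upwards [h3, h4] with w hw hw'
    exact ⟨hw, hw'⟩
  obtain ⟨r, hr, hball⟩ := Metric.eventually_nhds_iff_ball.1 h1
  refine ⟨w0, r, hr, he0, hball, ?_⟩
  -- the local inverse
  have hL : Tendsto (fun y => w0 + Complex.log (e y / e p)) (𝓝 p) (𝓝 w0) := by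
    have h5 : Tendsto (fun y => e y / e p) (𝓝 p) (𝓝 1) := by
      have := (e.continuousAt hp).tendsto.div_const (e p)
      rwa [div_self hp0] at this
    have h6 : ContinuousAt Complex.log 1 :=
      (Complex.differentiableAt_log (by simp [Complex.mem_slitPlane_iff])).continuousAt
    have h7 := (h6.tendsto.comp h5).const_add w0
    simpa using h7
  have h8 : ∀ᶠ y in 𝓝 p, e y ≠ 0 :=
    (e.continuousAt hp).eventually_ne hp0
  filter_upwards [hL.eventually (Metric.ball_mem_nhds w0 hr), e.open_source.mem_nhds hp, h8]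
    with y hy hys hy0
  refine ⟨hys, _, hy, ?_⟩
  have h9 : Complex.exp (w0 + Complex.log (e y / e p)) = e y := by
    rw [Complex.exp_add, he0, Complex.exp_log (div_ne_zero hy0 hp0)]
    field_simp
  rw [h9]
  exact ⟨(e.left_inv hys).symm, rfl⟩

/-- `f` is a primitive of `α` near `p` which agrees with `Ψ` inside and with `Ψ + s` outside -/
structure Rl (F : Frame S) (α : X → ℂ) (Ψ : X → ℝ) (e : OpenPartialHomeomorph X ℂ) (p : X) (s : ℝ)
    (f : X → ℝ) : Prop where
  sm : S.SmoothNear f p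
  pr : ∀ᶠ y in 𝓝 p, α y = F.d f y
  ins : ∀ᶠ y in 𝓝 p, ‖e y‖ < 1 → Ψ y = f y
  out : ∀ᶠ y in 𝓝 p, 1 < ‖e y‖ → Ψ y = f y - s

variable {α : X → ℂ} {Ψ : X → ℝ} {e : OpenPartialHomeomorph X ℂ} {p : X} {s s' : ℝ} {f f' : X → ℝ}

theorem Rl.near (h : Rl F α Ψ e p s f) : ∀ᶠ q in 𝓝 p, Rl F α Ψ e q s f := by
  have h1 : ∀ᶠ q in 𝓝 p, S.SmoothNear f q := eventually_eventually_nhds.2 h.sm
  have h2 := eventually_eventually_nhds.2 h.pr
  have h3 := eventually_eventually_nhds.2 h.ins
  have h4 := eventually_eventually_nhds.2 h.out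
  filter_upwards [h1, h2, h3, h4] with q q1 q2 q3 q4
  exact ⟨q1, q2, q3, q4⟩

theorem ball_in (w0 : ℂ) {r : ℝ} (hr : 0 < r) : w0 - (r / 2 : ℝ) ∈ Metric.ball w0 r := by
  rw [Metric.mem_ball, dist_eq_norm]
  simp only [sub_sub_cancel_left, norm_neg, Complex.norm_real, Real.norm_eq_abs]
  rw [abs_of_pos (by positivity)]
  linarith

theorem ball_out (w0 : ℂ) {r : ℝ} (hr : 0 < r) : w0 + (r / 2 : ℝ) ∈ Metric.ball w0 r := by
  rw [Metric.mem_ball, dist_eq_norm]
  simp only [add_sub_cancel_left, Complex.norm_real, Real.norm_eq_abs]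
  rw [abs_of_pos (by positivity)]
  linarith

theorem core_ne {p : X} (hp : p ∈ core e) : e p ≠ 0 := by
  intro h0
  have := hp.2
  rw [h0, norm_zero] at this
  norm_num at this

theorem re_zero {w0 : ℂ} (hp : p ∈ core e) (hw : Complex.exp w0 = e p) : w0.re = 0 := by
  have h1 : Real.exp w0.re = 1 := by
    rw [← Complex.norm_exp, hw]
    exact hp.2
  exact Real.exp_eq_one_iff _ |>.1 h1

theorem Rl.uniq (he : e ∈ S.charts) (hp : p ∈ core e) (h : Rl F α Ψ e p s f)
    (h' : Rl F α Ψ e p s' f') : s = s' ∧ f =ᶠ[𝓝 p] f' := by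
  have hev : ∀ᶠ y in 𝓝 p, (S.SmoothAt f y ∧ S.SmoothAt f' y) ∧ F.d f y = F.d f' y ∧
      (‖e y‖ < 1 → Ψ y = f y) ∧ (1 < ‖e y‖ → Ψ y = f y - s) ∧
      (‖e y‖ < 1 → Ψ y = f' y) ∧ (1 < ‖e y‖ → Ψ y = f' y - s') := by
    filter_upwards [h.sm, h.pr, h.ins, h.out, h'.sm, h'.pr, h'.ins, h'.out]
      with y y1 y2 y3 y4 y5 y6 y7 y8
    exact ⟨⟨y1, y5⟩, y2.symm.trans y6, y3, y4, y7, y8⟩
  obtain ⟨w0, r, hr, hw0, hb, hinv⟩ := loc hp.1 (core_ne hp) hev
  have hre := re_zero hp hw0
  obtain ⟨c, hc⟩ := const_of_d (F := F) (f := f) (g := f') he Metric.isOpen_ball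
    (convex_ball w0 r).isPreconnected (fun w hw => (hb w hw).1)
    (fun w hw => (hb w hw).2.1.1) (fun w hw => (hb w hw).2.1.2) (fun w hw => (hb w hw).2.2.1)
  have hin := hb _ (ball_in w0 hr)
  have hout := hb _ (ball_out w0 hr)
  have e1 : ‖e (e.symm (Complex.exp (w0 - (r / 2 : ℝ))))‖ < 1 := by
    rw [e.right_inv hin.1, Complex.norm_exp, Real.exp_lt_one_iff]
    simp only [Complex.sub_re, Complex.ofReal_re, hre]
    linarith
  have e2 : 1 < ‖e (e.symm (Complex.exp (w0 + (r / 2 : ℝ))))‖ := by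
    rw [e.right_inv hout.1, Complex.norm_exp, Real.one_lt_exp_iff]
    simp only [Complex.add_re, Complex.ofReal_re, hre]
    linarith
  have c0 : c = 0 := by
    have h1 := hc _ (ball_in w0 hr)
    have h2 := hin.2.2.2.1 e1
    have h3 := hin.2.2.2.2.2.1 e1
    linarith
  refine ⟨?_, ?_⟩
  · have h1 := hc _ (ball_out w0 hr)
    have h2 := hout.2.2.2.2.1 e2
    have h3 := hout.2.2.2.2.2.2 e2
    linarith
  · filter_upwards [hinv] with y hy
    obtain ⟨_, w, hw, hyw, _⟩ := hy
    rw [hyw, hc w hw, c0, add_zero]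

theorem convex_re_lt : Convex ℝ {w : ℂ | w.re < 0} := convex_halfSpace_re_lt 0

theorem convex_re_gt : Convex ℝ {w : ℂ | 0 < w.re} := convex_halfSpace_re_gt 0

theorem Rl.exist (he : e ∈ S.charts) (hp : p ∈ core e) (hα : F.Closed α)
    (hΨ : ∀ᶠ y in 𝓝 p, y ∉ core e → S.SmoothAt Ψ y ∧ α y = F.d Ψ y) :
    ∃ (s : ℝ) (f : X → ℝ), Rl F α Ψ e p s f := by
  obtain ⟨f, hf1, hf2⟩ := hα p
  have hev : ∀ᶠ y in 𝓝 p, (S.SmoothAt f y ∧ α y = F.d f y) ∧
      (y ∉ core e → S.SmoothAt Ψ y ∧ α y = F.d Ψ y) := by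
    filter_upwards [hf1, hf2, hΨ] with y y1 y2 y3
    exact ⟨⟨y1, y2⟩, y3⟩
  obtain ⟨w0, r, hr, hw0, hb, hinv⟩ := loc hp.1 (core_ne hp) hev
  have hre := re_zero hp hw0
  have hnc : ∀ w ∈ Metric.ball w0 r, w.re ≠ 0 → e.symm (Complex.exp w) ∉ core e := by
    intro w hw hw0' hcore
    have h1 := hcore.2
    rw [e.right_inv (hb w hw).1, Complex.norm_exp, Real.exp_eq_one_iff] at h1
    exact hw0' h1
  obtain ⟨c1, hc1⟩ := const_of_d (F := F) (f := Ψ) (g := f) (U := Metric.ball w0 r ∩ {w | w.re < 0})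
    he (Metric.isOpen_ball.inter (isOpen_lt Complex.continuous_re continuous_const))
    (((convex_ball w0 r).inter convex_re_lt).isPreconnected) (fun w hw => (hb w hw.1).1)
    (fun w hw => ((hb w hw.1).2.2 (hnc w hw.1 (ne_of_lt hw.2))).1)
    (fun w hw => (hb w hw.1).2.1.1)
    (fun w hw => ((hb w hw.1).2.2 (hnc w hw.1 (ne_of_lt hw.2))).2.symm.trans (hb w hw.1).2.1.2)
  obtain ⟨c2, hc2⟩ := const_of_d (F := F) (f := Ψ) (g := f) (U := Metric.ball w0 r ∩ {w | 0 < w.re})
    he (Metric.isOpen_ball.inter (isOpen_lt continuous_const Complex.continuous_re))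
    (((convex_ball w0 r).inter convex_re_gt).isPreconnected) (fun w hw => (hb w hw.1).1)
    (fun w hw => ((hb w hw.1).2.2 (hnc w hw.1 (ne_of_gt hw.2))).1)
    (fun w hw => (hb w hw.1).2.1.1)
    (fun w hw => ((hb w hw.1).2.2 (hnc w hw.1 (ne_of_gt hw.2))).2.symm.trans (hb w hw.1).2.1.2)
  have hsub : ∀ y, S.SmoothAt f y → S.SmoothAt (fun y => f y + c1) y := by
    intro y hy e' he' hx'
    exact (hy e' he' hx').add contDiffAt_const
  have hd : ∀ y, F.d (fun y => f y + c1) y = F.d f y := by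
    intro y
    unfold Frame.d cgrad
    have : fderiv ℝ ((fun y => f y + c1) ∘ (F.ch y).symm) (F.ch y y)
        = fderiv ℝ (f ∘ (F.ch y).symm) (F.ch y y) := by
      have h : ((fun y => f y + c1) ∘ (F.ch y).symm) = fun z => (f ∘ (F.ch y).symm) z + c1 := rfl
      rw [h]
      exact fderiv_add_const c1
    rw [this]
  refine ⟨c1 - c2, fun y => f y + c1, ⟨?_, ?_, ?_, ?_⟩⟩
  · exact hf1.mono fun y hy => hsub y hy
  · filter_upwards [hf2] with y hy
    rw [hd, hy]
  · filter_upwards [hinv] with y hy hlt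
    obtain ⟨hys, w, hw, hyw, hew⟩ := hy
    have hwre : w.re < 0 := by
      rw [hew, Complex.norm_exp, Real.exp_lt_one_iff] at hlt
      exact hlt
    have := hc1 w ⟨hw, hwre⟩
    rw [← hyw] at this
    exact this
  · filter_upwards [hinv] with y hy hlt
    obtain ⟨hys, w, hw, hyw, hew⟩ := hy
    have hwre : 0 < w.re := by
      rw [hew, Complex.norm_exp, Real.one_lt_exp_iff] at hlt
      exact hlt
    have := hc2 w ⟨hw, hwre⟩
    rw [← hyw] at this
    show Ψ y = f y + c1 - (c1 - c2)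
    linarith

/-- the jump does not depend on the point of the core -/
theorem Rl.const {l : ℝ} (he : IsAnn S e l) (hα : F.Closed α)
    (hΨ : ∀ p ∈ core e, ∀ᶠ y in 𝓝 p, y ∉ core e → S.SmoothAt Ψ y ∧ α y = F.d Ψ y) :
    ∃ s : ℝ, ∀ p ∈ core e, ∃ f : X → ℝ, Rl F α Ψ e p s f := by
  have hex : ∀ p ∈ core e, ∃ (s : ℝ) (f : X → ℝ), Rl F α Ψ e p s f := fun p hp =>
    Rl.exist he.1 hp hα (hΨ p hp)
  set Q : ℝ → X := fun θ => e.symm (Complex.exp (θ * Complex.I)) with hQ
  have htar : ∀ θ : ℝ, Complex.exp (θ * Complex.I) ∈ e.target := by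
    intro θ
    rw [he.2.2]
    simp only [mem_setOf_eq, Complex.norm_exp_ofReal_mul_I]
    exact ⟨by rw [Real.exp_lt_one_iff]; linarith [he.2.1], by
      rw [Real.one_lt_exp_iff]; exact he.2.1⟩
  have hQc : ∀ θ, Q θ ∈ core e := by
    intro θ
    refine ⟨e.map_target (htar θ), ?_⟩
    rw [hQ]
    simp only
    rw [e.right_inv (htar θ), Complex.norm_exp_ofReal_mul_I]
  have hQcont : Continuous Q := by
    rw [continuous_iff_continuousAt]
    intro θ
    have h1 : ContinuousAt e.symm (Complex.exp (θ * Complex.I)) := e.continuousAt_symm (htar θ)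
    have h2 : ContinuousAt (fun θ : ℝ => Complex.exp (θ * Complex.I)) θ := by fun_prop
    exact ContinuousAt.comp (f := fun θ : ℝ => Complex.exp (θ * Complex.I)) (g := e.symm) h1 h2
  choose σ hσ using fun θ => hex (Q θ) (hQc θ)
  have hlc : IsLocallyConstant σ := by
    rw [IsLocallyConstant.iff_eventually_eq]
    intro θ
    obtain ⟨f, hf⟩ := hσ θ
    have h1 := hQcont.continuousAt.tendsto.eventually hf.near
    filter_upwards [h1] with θ' hθ'
    obtain ⟨f', hf'⟩ := hσ θ'
    exact (Rl.uniq he.1 (hQc θ') hf' hθ').1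
  refine ⟨σ 0, fun p hp => ?_⟩
  have hpn : ‖e p‖ = 1 := hp.2
  have hp1 : p = Q (Complex.arg (e p)) := by
    rw [hQ]
    simp only
    have : Complex.exp (Complex.arg (e p) * Complex.I) = e p := by
      have h := Complex.norm_mul_exp_arg_mul_I (e p)
      rwa [hpn, Complex.ofReal_one, one_mul] at h
    rw [this, e.left_inv hp.1]
  rw [hp1, ← hlc.apply_eq_of_preconnectedSpace (Complex.arg (e p)) 0]
  exact hσ _

theorem core_closed [T2Space X] {l : ℝ} (he : IsAnn S e l) : IsClosed (core e) := by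
  have h1 : IsCompact (e.symm '' Metric.sphere (0 : ℂ) 1) := by
    refine (isCompact_sphere (0 : ℂ) 1).image_of_continuousOn ?_
    refine e.continuousOn_symm.mono fun z hz => ?_
    rw [he.2.2]
    rw [mem_sphere_zero_iff_norm] at hz
    simp only [mem_setOf_eq, hz]
    exact ⟨by rw [Real.exp_lt_one_iff]; linarith [he.2.1], by
      rw [Real.one_lt_exp_iff]; exact he.2.1⟩
  have h2 : core e = e.symm '' Metric.sphere (0 : ℂ) 1 := by
    ext x
    constructor
    · intro hx
      exact ⟨e x, by simpa using hx.2, e.left_inv hx.1⟩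
    · rintro ⟨z, hz, rfl⟩
      rw [mem_sphere_zero_iff_norm] at hz
      have hzt : z ∈ e.target := by
        rw [he.2.2]
        simp only [mem_setOf_eq, hz]
        exact ⟨by rw [Real.exp_lt_one_iff]; linarith [he.2.1], by
          rw [Real.one_lt_exp_iff]; exact he.2.1⟩
      exact ⟨e.map_target hzt, by rw [e.right_inv hzt]; exact hz⟩
  rw [h2]
  exact h1.isClosed

end aux

end T06

variable {X : Type} [TopologicalSpace X] [CompactSpace X] [T2Space X] {S : CS X}

/-- For `p` in the core of `e i` take a local primitive `f` of `α` near `p`; `f - Ψ` is constant on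
each side of the core near `p`, the difference `s` of the two constants does not depend on the choices
and is locally constant along the core, which is connected. Then `Ψ - ∑ s i • phiE (e i) a` has no jump:
it extends to a smooth function `φ` on `X` (near `p` it is `f + const - s * stp`). -/
theorem cut_lemma (F : Frame S) {m : ℕ} {e : Fin m → OpenPartialHomeomorph X ℂ} {l a : Fin m → ℝ}
    (he : ∀ i, IsAnn S (e i) (l i)) (ha : ∀ i, 0 < a i) (hal : ∀ i, a i < l i)
    (hd : Pairwise fun i j => Disjoint (e i).source (e j).source) {α : X → ℂ} (hα : F.Closed α)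
    {Ψ : X → ℝ} (hΨ : ∀ x, (∀ i, x ∉ core (e i)) → S.SmoothNear Ψ x ∧ ∀ᶠ y in 𝓝 x, α y = F.d Ψ y) :
    ∃ (s : Fin m → ℝ) (φ : X → ℝ), S.Smooth φ ∧
      (∀ x, α x = ∑ i, (s i : ℂ) * F.be (e i) (a i) x + F.d φ x) ∧
      ∀ x, (∀ i, x ∉ core (e i)) → φ x = Ψ x - ∑ i, s i * phiE (e i) (a i) x := by
  classical
  -- near a core the other cores are not seen
  have hoth : ∀ i, ∀ x ∈ (e i).source, ∀ j, j ≠ i → x ∉ (e j).source := fun i x hx j hj hx' =>
    Set.disjoint_left.1 (hd hj) hx' hx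
  have hnc : ∀ i, ∀ x ∈ (e i).source, x ∉ core (e i) → ∀ j, x ∉ core (e j) := by
    intro i x hx hxc j hj
    by_cases hji : j = i
    · subst hji
      exact hxc hj
    · exact hoth i x hx j hji hj.1
  have hΨ' : ∀ i, ∀ p ∈ core (e i), ∀ᶠ y in 𝓝 p, y ∉ core (e i) →
      S.SmoothAt Ψ y ∧ α y = F.d Ψ y := by
    intro i p hp
    filter_upwards [(e i).open_source.mem_nhds hp.1] with y hy hyc
    have h := hΨ y (hnc i y hy hyc)
    exact ⟨h.1.self_of_nhds, h.2.self_of_nhds⟩
  choose s hs using fun i => T06.Rl.const (he i) hα (hΨ' i)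
  choose! f hf using hs
  -- the real function of the annulus without the jump
  set st : Fin m → X → ℝ := fun i y => stp (a i) (Real.log ‖e i y‖) with hst
  set φ : X → ℝ := fun x => if h : ∃ i, x ∈ core (e i) then
      f h.choose x x - s h.choose * st h.choose x
    else Ψ x - ∑ i, s i * phiE (e i) (a i) x with hφ
  have hφ1 : ∀ x, (∀ i, x ∉ core (e i)) → φ x = Ψ x - ∑ i, s i * phiE (e i) (a i) x := by
    intro x hx
    have : ¬ ∃ i, x ∈ core (e i) := fun ⟨i, hi⟩ => hx i hi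
    simp only [hφ, dif_neg this]
  have hφ2 : ∀ i, ∀ x ∈ core (e i), φ x = f i x x - s i * st i x := by
    intro i x hx
    have h : ∃ i, x ∈ core (e i) := ⟨i, hx⟩
    have h2 : h.choose = i := by
      by_contra hne
      exact hoth i x hx.1 _ hne h.choose_spec.1
    simp only [hφ, dif_pos h]
    rw [h2]
  -- the description of `φ` near a core
  have hφ3 : ∀ i, ∀ p ∈ core (e i), φ =ᶠ[𝓝 p] fun y => f i p y - s i * st i y := by
    intro i p hp
    have hR := hf i p hp
    filter_upwards [(e i).open_source.mem_nhds hp.1, hR.near, hR.ins, hR.out] with y hy hRy hin hout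
    by_cases hyc : y ∈ core (e i)
    · rw [hφ2 i y hyc]
      have h1 := (T06.Rl.uniq (he i).1 hyc (hf i y hyc) hRy).2.self_of_nhds
      rw [h1]
    · rw [hφ1 y (hnc i y hy hyc), Finset.sum_eq_single i]
      · have hne : ‖e i y‖ ≠ 1 := fun h => hyc ⟨hy, h⟩
        unfold phiE
        rw [if_pos hy]
        by_cases hlt : ‖e i y‖ < 1
        · rw [if_pos hlt, hin hlt]
        · rw [if_neg hlt, hout (lt_of_le_of_ne (not_lt.1 hlt) (Ne.symm hne))]
          simp only [hst]
          ring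
      · intro j _ hj
        rw [phiE_zero (ha j) (fun hmem => hoth i y hy j hj hmem.1), mul_zero]
      · intro h
        exact absurd (Finset.mem_univ i) h
  -- smoothness of the step function near the annulus
  have hst1 : ∀ i, ∀ y ∈ (e i).source, S.SmoothAt (st i) y := by
    intro i y hy
    rw [CS.smoothAt_iff (he i).1 hy]
    have hy0 : e i y ≠ 0 := by
      intro h0
      have := (e i).map_source hy
      rw [(he i).2.2, h0] at this
      simp only [mem_setOf_eq, norm_zero] at this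
      exact absurd this.1 (not_lt.2 (Real.exp_pos _).le)
    have h1 : (st i ∘ (e i).symm) =ᶠ[𝓝 (e i y)] fun z => stp (a i) (Real.log ‖z‖) := by
      filter_upwards [(e i).open_target.mem_nhds ((e i).map_source hy)] with z hz
      simp only [hst, Function.comp_apply]
      rw [(e i).right_inv hz]
    refine ContDiffAt.congr_of_eventuallyEq ?_ h1
    have h2 : ContDiffAt ℝ ∞ (fun z : ℂ => Real.log ‖z‖) (e i y) :=
      (contDiffAt_norm ℝ hy0).log (norm_ne_zero_iff.2 hy0)
    exact (stp_contDiff (ha i)).contDiffAt.comp _ h2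
  have hst2 : ∀ i, ∀ y ∈ (e i).source, F.be (e i) (a i) y = F.d (st i) y := by
    intro i y hy
    refine T06.dC_eq (hst1 i y hy) ?_
    filter_upwards [(e i).open_source.mem_nhds hy] with z hz
    exact betaC_eq hz
  have hbez : ∀ i, ∀ x ∈ (e i).source, ∀ j, j ≠ i → F.be (e j) (a j) x = 0 := fun i x hx j hj =>
    be_zero F (he j) (ha j) (hal j) fun hmem => hoth i x hx j hj hmem.1
  have hcl : IsClosed (⋃ i, core (e i)) := isClosed_iUnion_of_finite fun i => T06.core_closed (he i)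
  have hφ4 : ∀ x, (∀ i, x ∉ core (e i)) →
      φ =ᶠ[𝓝 x] fun y => Ψ y - ∑ i, s i * phiE (e i) (a i) y := by
    intro x hx
    have h1 : (⋃ i, core (e i))ᶜ ∈ 𝓝 x := hcl.isOpen_compl.mem_nhds (by simpa using hx)
    filter_upwards [h1] with y hy
    exact hφ1 y (by simpa using hy)
  have hfsm : ∀ i, ∀ p ∈ core (e i), S.SmoothAt (f i p) p := fun i p hp =>
    (hf i p hp).sm.self_of_nhds
  refine ⟨s, φ, ?_, ?_, hφ1⟩
  · intro x
    by_cases hx : ∃ i, x ∈ core (e i)
    · obtain ⟨i, hi⟩ := hx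
      refine T06.smoothAt_congr (hφ3 i x hi).symm ?_
      have := T06.smoothAt_sub_sum (m := 1) (h := fun _ => st i) (fun _ => s i) (hfsm i x hi)
        (fun _ => hst1 i x hi.1)
      simpa using this
    · push_neg at hx
      refine T06.smoothAt_congr (hφ4 x hx).symm ?_
      exact T06.smoothAt_sub_sum s (hΨ x hx).1.self_of_nhds
        (fun j => (phiE_smooth (he j) (ha j) (hal j) (hx j)).self_of_nhds)
  · intro x
    by_cases hx : ∃ i, x ∈ core (e i)
    · obtain ⟨i, hi⟩ := hx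
      rw [T06.d_congr (hφ3 i x hi)]
      have h1 := T06.d_sub_sum (F := F) (m := 1) (h := fun _ => st i) (fun _ => s i) (hfsm i x hi)
        (fun _ => hst1 i x hi.1)
      simp only [Finset.univ_unique, Finset.sum_singleton] at h1
      rw [h1, Finset.sum_eq_single i, hst2 i x hi.1, (hf i x hi).pr.self_of_nhds]
      · ring
      · intro j _ hj
        rw [hbez i x hi.1 j hj, mul_zero]
      · intro h
        exact absurd (Finset.mem_univ i) h
    · push_neg at hx
      rw [T06.d_congr (hφ4 x hx), T06.d_sub_sum s (hΨ x hx).1.self_of_nhds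
        (fun j => (phiE_smooth (he j) (ha j) (hal j) (hx j)).self_of_nhds),
        ← (hΨ x hx).2.self_of_nhds]
      have h2 : ∑ i, (s i : ℂ) * F.be (e i) (a i) x = ∑ i, (s i : ℂ) * F.d (phiE (e i) (a i)) x :=
        Finset.sum_congr rfl fun i _ => by rw [be_phi F (he i) (ha i) (hal i) (hx i)]
      rw [h2]
      ring

end Pool.Agent.Lib.MP_cca10c_ag
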